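import Pool.Agent.Lib.MP_5df1bf_an.Stmts2

/-!
# MP_5df1bf_an: bars (B2)
-/

open MeasureTheory Filter Topology
open scoped BigOperators ContDiff

noncomputable section

namespace Pool.Agent.Lib.MP_5df1bf_an

variable {d : ℕ}

theorem ip_oo_grad (v : V d → V d) (y z : V d) :
    ip (oo z) (grad v y) = dot z (fderiv ℝ v y z) := by
  rw [ip_oo]
  congr 1
  have h : (z : V d) = ∑ j, z j • (Pi.single j 1 : V d) := by
    ext i
    simp [Finset.sum_apply, Pi.single_apply]
  ext i
  conv_rhs => rw [h]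
  rw [map_sum]
  simp only [mulV, grad, map_smul, Finset.sum_apply, Pi.smul_apply, smul_eq_mul]
  exact Finset.sum_congr rfl fun j _ => mul_comm _ _

theorem continuous_dot_fderiv {v : V d → V d} (hv : ContDiff ℝ 1 v) (z : V d) :
    Continuous (fun y => ip (oo z) (grad v y)) := by
  have h1 : Continuous (fderiv ℝ v) := hv.continuous_fderiv (by norm_num)
  have h2 : (fun y => ip (oo z) (grad v y)) = fun y => dot z (fderiv ℝ v y z) := by
    ext y
    exact ip_oo_grad v y z
  rw [h2]
  unfold dot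
  refine continuous_finsetSum _ fun i _ => continuous_const.mul ?_
  exact (continuous_apply i).comp (h1.clm_apply continuous_const)

theorem hasDerivAt_bar {v : V d → V d} (hv : ContDiff ℝ 1 v) (z x : V d) (t : ℝ) :
    HasDerivAt (fun t : ℝ => dot z (v (x + t • z))) (ip (oo z) (grad v (x + t • z))) t := by
  rw [ip_oo_grad]
  have h1 : HasDerivAt (fun t : ℝ => x + t • z) z t := by
    have h := ((hasDerivAt_id t).smul_const z).const_add x
    simpa using h
  have h2 : HasFDerivAt v (fderiv ℝ v (x + t • z)) (x + t • z) :=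
    (hv.differentiable (by norm_num) _).hasFDerivAt
  have h3 : HasDerivAt (fun t : ℝ => v (x + t • z)) (fderiv ℝ v (x + t • z) z) t :=
    h2.comp_hasDerivAt t h1
  have h4 := hasDerivAt_pi.mp h3
  unfold dot
  exact HasDerivAt.fun_sum fun i _ => (h4 i).const_mul (z i)

theorem sq_integral_le {F : ℝ → ℝ} (hF : Continuous F) :
    (∫ t in (0 : ℝ)..1, F t) ^ 2 ≤ ∫ t in Set.Icc (0 : ℝ) 1, F t ^ 2 := by
  set m := ∫ t in (0 : ℝ)..1, F t with hm
  have hI1 : IntegrableOn F (Set.Icc (0 : ℝ) 1) := hF.integrableOn_Icc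
  have hI2 : IntegrableOn (fun t => F t ^ 2) (Set.Icc (0 : ℝ) 1) := (hF.pow 2).integrableOn_Icc
  have hm' : m = ∫ t in Set.Icc (0 : ℝ) 1, F t := by
    rw [hm, intervalIntegral.integral_of_le zero_le_one, integral_Icc_eq_integral_Ioc]
  have h0 : 0 ≤ ∫ t in Set.Icc (0 : ℝ) 1, (F t - m) ^ 2 :=
    integral_nonneg fun t => by positivity
  have h1 : ∫ t in Set.Icc (0 : ℝ) 1, (F t - m) ^ 2 =
      (∫ t in Set.Icc (0 : ℝ) 1, F t ^ 2) - m ^ 2 := by
    have h2 : (fun t => (F t - m) ^ 2) = fun t => (F t ^ 2 + (-2 * m) * F t) + m ^ 2 := by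
      ext t; ring
    have h3 : IntegrableOn (fun t => (-2 * m) * F t) (Set.Icc (0 : ℝ) 1) := hI1.const_mul _
    have h4 : IntegrableOn (fun t => F t ^ 2 + (-2 * m) * F t) (Set.Icc (0 : ℝ) 1) := hI2.add h3
    have h5 : IntegrableOn (fun _ : ℝ => m ^ 2) (Set.Icc (0 : ℝ) 1) :=
      continuous_const.integrableOn_Icc
    rw [h2, integral_add h4 h5, integral_add hI2 h3, integral_const_mul, ← hm']
    simp
    ring
  linarith

theorem Bar_ok (d : ℕ) : StmtBar d := by
  intro lo hi z v hv
  have hc : Continuous (fun p : V d × ℝ => (ip (oo z) (grad v (p.1 + p.2 • z))) ^ 2) := by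
    refine Continuous.pow ?_ 2
    exact (continuous_dot_fderiv hv z).comp
      (continuous_fst.add (continuous_snd.smul continuous_const))
  have hint : Integrable (fun p : V d × ℝ => (ip (oo z) (grad v (p.1 + p.2 • z))) ^ 2)
      ((volume.restrict (Set.Icc lo hi)).prod (volume.restrict (Set.Icc (0 : ℝ) 1))) := by
    rw [Measure.prod_restrict]
    exact hc.continuousOn.integrableOn_compact (isCompact_Icc.prod isCompact_Icc)
  have h1 : ∀ x, (dot z (v (x + z) - v x)) ^ 2 ≤
      ∫ t in Set.Icc (0 : ℝ) 1, (ip (oo z) (grad v (x + t • z))) ^ 2 := by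
    intro x
    have hFc : Continuous (fun t : ℝ => ip (oo z) (grad v (x + t • z))) :=
      (continuous_dot_fderiv hv z).comp
        (continuous_const.add (continuous_id.smul continuous_const))
    have h2 := intervalIntegral.integral_eq_sub_of_hasDerivAt
      (fun t _ => hasDerivAt_bar hv z x t) (hFc.intervalIntegrable 0 1)
    have h3 : dot z (v (x + z) - v x) = ∫ t in (0 : ℝ)..1, ip (oo z) (grad v (x + t • z)) := by
      rw [h2, dot_sub_right]
      simp
    rw [h3]
    exact sq_integral_le hFc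
  have h4 : Continuous (fun x => (dot z (v (x + z) - v x)) ^ 2) := by
    have h5 := hv.continuous
    unfold dot
    fun_prop
  calc ∫ x in Set.Icc lo hi, (dot z (v (x + z) - v x)) ^ 2
      ≤ ∫ x in Set.Icc lo hi, ∫ t in Set.Icc (0 : ℝ) 1,
          (ip (oo z) (grad v (x + t • z))) ^ 2 :=
        integral_mono (h4.continuousOn.integrableOn_compact isCompact_Icc)
          hint.integral_prod_left h1
    _ = ∫ t in Set.Icc (0 : ℝ) 1, ∫ x in Set.Icc lo hi,
          (ip (oo z) (grad v (x + t • z))) ^ 2 := integral_integral_swap hint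

end Pool.Agent.Lib.MP_5df1bf_an
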