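import Pool.Agent.Lib.MP_5df1bf_an.Stmts1

/-!
# MP_5df1bf_an: basic facts on displacements, fields and energies (A0)
-/

open MeasureTheory Filter Topology Set
open scoped BigOperators ContDiff

noncomputable section

namespace Pool.Agent.Lib.MP_5df1bf_an

variable {d : ℕ}

/-! ### periodic functions -/

theorem per_single_int {α : Type*} {g : V d → α} (hg : Per g) (x : V d) (i : Fin d) (n : ℤ) :
    g (x + Pi.single i (n : ℝ)) = g x := by
  induction n using Int.induction_on generalizing x with
  | zero => simp
  | succ n ih =>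
    have h1 : x + Pi.single i (((n : ℤ) + 1 : ℤ) : ℝ) = (x + Pi.single i ((n : ℤ) : ℝ)) +
        Pi.single i 1 := by
      rw [add_assoc, ← Pi.single_add]
      push_cast
      rfl
    rw [h1, hg, ih]
  | pred n ih =>
    have h1 : (x + Pi.single i ((-(n : ℤ) - 1 : ℤ) : ℝ)) + Pi.single i 1 =
        x + Pi.single i ((-(n : ℤ) : ℤ) : ℝ) := by
      rw [add_assoc, ← Pi.single_add]
      push_cast
      ring_nf
    have h2 := hg (x + Pi.single i ((-(n : ℤ) - 1 : ℤ) : ℝ)) i
    rw [h1, ih] at h2
    exact h2.symm

theorem per_zv {α : Type*} {g : V d → α} (hg : Per g) (x : V d) (z : Fin d → ℤ) :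
    g (x + zv z) = g x := by
  classical
  have h : ∀ s : Finset (Fin d), g (x + ∑ i ∈ s, (Pi.single i ((z i : ℝ)) : V d)) = g x := by
    intro s
    induction s using Finset.induction_on with
    | empty => simp
    | insert a s ha ih =>
      have h1 : x + ∑ i ∈ insert a s, (Pi.single i ((z i : ℝ)) : V d) =
          (x + ∑ i ∈ s, (Pi.single i ((z i : ℝ)) : V d)) + Pi.single a ((z a : ℝ)) := by
        rw [Finset.sum_insert ha]
        abel
      rw [h1, per_single_int hg, ih]
  have h2 := h Finset.univ
  rwa [Finset.univ_sum_single (fun i => (z i : ℝ))] at h2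

/-- every point is congruent to a point of the cell -/
theorem per_cell {α : Type*} {g : V d → α} (hg : Per g) (x : V d) : ∃ y ∈ cell d, g x = g y := by
  refine ⟨fun i => Int.fract (x i), ⟨fun i => Int.fract_nonneg _, fun i => (Int.fract_lt_one _).le⟩,
    ?_⟩
  have h := per_zv hg (fun i => Int.fract (x i)) fun i => ⌊x i⌋
  rw [← h]
  congr 1
  funext i
  simp [zv]

theorem per_nsmul {α : Type*} {g : V d → α} (hg : Per g) (n : ℕ) :
    Per fun x : V d => g ((n : ℝ) • x) := by
  intro x i
  have h := per_single_int hg ((n : ℝ) • x) i n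
  change g ((n : ℝ) • (x + Pi.single i 1)) = g ((n : ℝ) • x)
  rw [← h]
  congr 1
  rw [smul_add]
  congr 1
  funext k
  rcases eq_or_ne k i with rfl | hk
  · simp
  · simp [hk]

theorem vol_cell : volume (cell d) = 1 := by
  unfold cell
  rw [Real.volume_Icc_pi]
  simp

theorem isCompact_cell : IsCompact (cell d) := isCompact_Icc

theorem measurableSet_cell : MeasurableSet (cell d) := measurableSet_Icc

theorem integrableOn_cell_of_continuous {f : V d → ℝ} (hf : Continuous f) :
    IntegrableOn f (cell d) := hf.continuousOn.integrableOn_compact isCompact_cell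

theorem integral_cell_const (c : ℝ) : ∫ _x in cell d, c = c := by
  rw [setIntegral_const, smul_eq_mul, measureReal_def, vol_cell]
  simp

/-- the integral of a derivative of a periodic function vanishes -/
theorem integral_cell_fderiv {f : V d → ℝ} (hf : ContDiff ℝ 1 f) (hp : Per f) (j : Fin d) :
    ∫ x in cell d, fderiv ℝ f x (Pi.single j 1) = 0 := by
  cases d with
  | zero => exact j.elim0
  | succ n =>
    have hcont : Continuous (fderiv ℝ f) := hf.continuous_fderiv one_ne_zero
    have hc2 : Continuous fun x => fderiv ℝ f x (Pi.single j 1) :=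
      hcont.clm_apply continuous_const
    have h1 : ∀ x : V (n + 1), ∑ i : Fin (n + 1),
        (if i = j then fderiv ℝ f x else 0) (Pi.single i (1 : ℝ)) =
        fderiv ℝ f x (Pi.single j 1) := by
      intro x
      rw [Finset.sum_eq_single j]
      · rw [if_pos rfl]
      · intro b _ hb
        rw [if_neg hb]
        rfl
      · intro h
        exact absurd (Finset.mem_univ j) h
    have h := integral_divergence_of_hasFDerivAt_off_countable' (0 : Fin (n + 1) → ℝ) 1
      zero_le_one (fun i => if i = j then f else fun _ => 0)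
      (fun i x => if i = j then fderiv ℝ f x else 0) ∅ countable_empty ?_ ?_ ?_
    · unfold cell
      simp only [h1] at h
      rw [h]
      refine Finset.sum_eq_zero fun i _ => ?_
      by_cases hi : i = j
      · subst hi
        simp only [if_true]
        rw [sub_eq_zero]
        refine setIntegral_congr_fun measurableSet_Icc fun x _ => ?_
        have h2 : (i.insertNth ((1 : Fin (n + 1) → ℝ) i) x : Fin (n + 1) → ℝ) =
            (i.insertNth ((0 : Fin (n + 1) → ℝ) i) x : Fin (n + 1) → ℝ) + Pi.single i 1 := by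
          funext k
          refine Fin.succAboveCases i ?_ (fun k => ?_) k
          · simp
          · simp [Fin.succAbove_ne]
        rw [h2, hp]
      · simp [if_neg hi]
    · intro i
      by_cases hi : i = j
      · simp only [if_pos hi]
        exact hf.continuous.continuousOn
      · simp only [if_neg hi]
        exact continuousOn_const
    · intro x _ i
      by_cases hi : i = j
      · simp only [if_pos hi]
        exact (hf.differentiable one_ne_zero x).hasFDerivAt
      · simp only [if_neg hi]
        exact hasFDerivAt_const _ _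
    · simp only [h1]
      exact hc2.continuousOn.integrableOn_compact isCompact_Icc

/-! ### displacements -/

theorem disp_diff (u : Disp d) : Differentiable ℝ u.u := u.smooth.differentiable (by simp)

theorem grad_continuous (u : Disp d) : Continuous (grad u.u) := by
  have h : Continuous (fderiv ℝ u.u) := u.smooth.continuous_fderiv (by simp)
  refine continuous_pi fun i => continuous_pi fun j => ?_
  exact (continuous_apply i).comp (h.clm_apply continuous_const)

theorem grad_periodic (u : Disp d) : Per (grad u.u) := by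
  intro x i
  have h : (fun y => u.u (y + Pi.single i 1)) = u.u := funext fun y => u.per y i
  have h2 : fderiv ℝ u.u (x + Pi.single i 1) = fderiv ℝ u.u x := by
    have h3 := fderiv_comp_add_right (𝕜 := ℝ) (f := u.u) (x := x) (Pi.single i (1 : ℝ))
    rw [h] at h3
    exact h3.symm
  unfold grad
  rw [h2]

/-- sum of displacements -/
def addDisp (u v : Disp d) : Disp d where
  u := fun x => u.u x + v.u x
  smooth := u.smooth.add v.smooth
  per := fun x i => by simp only [u.per x i, v.per x i]

theorem grad_addDisp (u v : Disp d) (x : V d) :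
    grad (addDisp u v).u x = grad u.u x + grad v.u x := by
  have h : fderiv ℝ (addDisp u v).u x = fderiv ℝ u.u x + fderiv ℝ v.u x :=
    fderiv_add (disp_diff u x) (disp_diff v x)
  funext i j
  unfold grad
  rw [h]
  rfl

/-- multiple of a displacement -/
def smulDisp (c : ℝ) (u : Disp d) : Disp d where
  u := fun x => c • u.u x
  smooth := by
    have h := u.smooth.const_smul c
    exact h
  per := fun x i => by simp only [u.per x i]

theorem grad_smulDisp (c : ℝ) (u : Disp d) (x : V d) :
    grad (smulDisp c u).u x = c • grad u.u x := by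
  have h : fderiv ℝ (smulDisp c u).u x = c • fderiv ℝ u.u x := by
    change fderiv ℝ (c • u.u) x = _
    exact fderiv_const_smul (disp_diff u x) c
  funext i j
  unfold grad
  rw [h]
  rfl

/-- the zero displacement -/
def zeroDisp (d : ℕ) : Disp d where
  u := fun _ => 0
  smooth := contDiff_const
  per := fun _ _ => rfl

theorem grad_zeroDisp (x : V d) : grad (zeroDisp d).u x = 0 := by
  have h : fderiv ℝ (zeroDisp d).u x = 0 := by
    change fderiv ℝ (fun _ : V d => (0 : V d)) x = 0
    simp
  funext i j
  unfold grad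
  rw [h]
  rfl

instance : Nonempty (Disp d) := ⟨zeroDisp d⟩

theorem sg_zeroDisp (x : V d) : sg (zeroDisp d).u x = 0 := by
  unfold sg
  rw [grad_zeroDisp, symm_zero]

theorem sg_addDisp (u v : Disp d) (x : V d) :
    sg (addDisp u v).u x = sg u.u x + sg v.u x := by
  unfold sg
  rw [grad_addDisp, symm_add]

theorem sg_smulDisp (c : ℝ) (u : Disp d) (x : V d) :
    sg (smulDisp c u).u x = c • sg u.u x := by
  unfold sg
  rw [grad_smulDisp, symm_smul]

theorem continuous_symm : Continuous (symm : M d → M d) := by
  unfold symm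
  fun_prop

theorem sg_continuous (u : Disp d) : Continuous (sg u.u) := continuous_symm.comp (grad_continuous u)

theorem continuous_ip : Continuous fun p : M d × M d => ip p.1 p.2 := by
  unfold ip
  fun_prop

theorem integral_ip_grad (ε : M d) (u : Disp d) : ∫ x in cell d, ip ε (grad u.u x) = 0 := by
  have h1 : ∀ i j, ∫ x in cell d, grad u.u x i j = 0 := by
    intro i j
    have hs : ContDiff ℝ 1 fun x => u.u x i :=
      (contDiff_pi.1 (u.smooth.of_le (by simp)) i)
    have hp : Per fun x => u.u x i := fun x k => by simp only [u.per x k]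
    have h2 := integral_cell_fderiv hs hp j
    rw [← h2]
    refine integral_congr_ae (Eventually.of_forall fun x => ?_)
    simp only
    unfold grad
    rw [fderiv_apply (disp_diff u x) i]
    rfl
  have hint : ∀ i j, IntegrableOn (fun x => ε i j * grad u.u x i j) (cell d) := fun i j =>
    integrableOn_cell_of_continuous (continuous_const.mul
      ((continuous_apply j).comp ((continuous_apply i).comp (grad_continuous u))))
  unfold ip
  rw [integral_finsetSum _ fun i _ => integrable_finsetSum _ fun j _ => hint i j]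
  refine Finset.sum_eq_zero fun i _ => ?_
  rw [integral_finsetSum _ fun j _ => hint i j]
  refine Finset.sum_eq_zero fun j _ => ?_
  rw [integral_const_mul, h1, mul_zero]

/-! ### measurability and integrability -/

theorem meas_ip (D : V d → Tens d) (hD : ∀ A B, Measurable fun x => ip ((D x).C A) B)
    (G H : V d → M d) (hG : Measurable G) (hH : Measurable H) :
    Measurable fun x => ip ((D x).C (G x)) (H x) := by
  have h : (fun x => ip ((D x).C (G x)) (H x)) = fun x => ∑ i, ∑ j, ∑ k, ∑ l,
      G x i j * H x k l * ip ((D x).C (eb i j)) (eb k l) := funext fun x => (D x).ip_expand _ _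
  rw [h]
  have hG1 : ∀ i j, Measurable fun x => G x i j := fun i j =>
    (measurable_pi_apply j).comp ((measurable_pi_apply i).comp hG)
  have hH1 : ∀ i j, Measurable fun x => H x i j := fun i j =>
    (measurable_pi_apply j).comp ((measurable_pi_apply i).comp hH)
  refine Finset.measurable_sum _ fun i _ => Finset.measurable_sum _ fun j _ =>
    Finset.measurable_sum _ fun k _ => Finset.measurable_sum _ fun l _ => ?_
  exact ((hG1 i j).mul (hH1 k l)).mul (hD _ _)

theorem fld_psd {D : V d → Tens d} {β : ℝ} (hD : IsFld D 0 β) (x : V d) : (D x).PSD := fun A => by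
  have := hD.lo x A
  rwa [zero_mul] at this

theorem int2_fld (D : V d → Tens d) (β : ℝ) (hD : IsFld D 0 β) (G H : V d → M d)
    (hG : Measurable G) (hH : Measurable H)
    (hG2 : IntegrableOn (fun x => nsq (G x)) (cell d))
    (hH2 : IntegrableOn (fun x => nsq (H x)) (cell d)) :
    IntegrableOn (fun x => ip ((D x).C (G x)) (H x)) (cell d) := by
  refine Integrable.mono' ((hG2.const_mul |β|).add (hH2.const_mul |β|))
    (meas_ip D hD.meas G H hG hH).aestronglyMeasurable (Eventually.of_forall fun x => ?_)
  have h1 := Tens.Q_cs (fld_psd hD x) (G x) (H x)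
  have h2 : (D x).Q (G x) ≤ |β| * nsq (G x) :=
    (hD.hi x _).trans (mul_le_mul_of_nonneg_right (le_abs_self β) (nsq_nonneg _))
  have h3 : (D x).Q (H x) ≤ |β| * nsq (H x) :=
    (hD.hi x _).trans (mul_le_mul_of_nonneg_right (le_abs_self β) (nsq_nonneg _))
  have h4 : 0 ≤ |β| * nsq (G x) := mul_nonneg (abs_nonneg _) (nsq_nonneg _)
  have h5 : 0 ≤ |β| * nsq (H x) := mul_nonneg (abs_nonneg _) (nsq_nonneg _)
  have h6 : (ip ((D x).C (G x)) (H x)) ^ 2 ≤ (|β| * nsq (G x)) * (|β| * nsq (H x)) :=
    h1.trans (mul_le_mul h2 h3 (fld_psd hD x _) h4)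
  rw [Real.norm_eq_abs]
  refine abs_le_of_sq_le_sq ?_ (add_nonneg h4 h5)
  simp only [Pi.add_apply]
  nlinarith

theorem nsq_sg_integrable (ε : M d) (u : Disp d) :
    IntegrableOn (fun x => nsq (ε + sg u.u x)) (cell d) :=
  integrableOn_cell_of_continuous (continuous_nsq.comp (continuous_const.add (sg_continuous u)))

theorem int_fld (D : V d → Tens d) (β : ℝ) (hD : IsFld D 0 β) (ε : M d) (u : Disp d) :
    IntegrableOn (fun x => (D x).Q (ε + sg u.u x)) (cell d) := by
  have hm : Measurable fun x => ε + sg u.u x := (continuous_const.add (sg_continuous u)).measurable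
  exact int2_fld D β hD _ _ hm hm (nsq_sg_integrable ε u) (nsq_sg_integrable ε u)

theorem energy_nonneg (D : V d → Tens d) (β : ℝ) (hD : IsFld D 0 β) (ε : M d) (u : Disp d) :
    0 ≤ energy D ε u :=
  integral_nonneg fun x => fld_psd hD x _

theorem energy_bdd (D : V d → Tens d) (β : ℝ) (hD : IsFld D 0 β) (ε : M d) :
    BddBelow (Set.range fun u : Disp d => energy D ε u) :=
  ⟨0, by rintro _ ⟨u, rfl⟩; exact energy_nonneg D β hD ε u⟩

theorem eff_le_energy (D : V d → Tens d) (β : ℝ) (hD : IsFld D 0 β) (ε : M d) (u : Disp d) :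
    eff D ε ≤ energy D ε u := ciInf_le (energy_bdd D β hD ε) u

theorem le_eff_of (D : V d → Tens d) (ε : M d) (c : ℝ) (h : ∀ u : Disp d, c ≤ energy D ε u) :
    c ≤ eff D ε := le_ciInf h

/-- a bounded constant field -/
theorem const_fld (T : Tens d) (hT : T.PSD) : ∃ β : ℝ, IsFld (fun _ : V d => T) 0 β := by
  obtain ⟨β, _, hβ⟩ := T.exists_bound
  exact ⟨β, ⟨fun A B => measurable_const, fun _ _ => rfl, fun _ A => by rw [zero_mul]; exact hT A,
    fun _ A => (le_abs_self _).trans (hβ A)⟩⟩

theorem jensen_tens (T : Tens d) (hT : T.PSD) (ε : M d) (u : Disp d) :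
    T.Q ε ≤ ∫ x in cell d, T.Q (ε + sg u.u x) := by
  obtain ⟨β, hβ⟩ := const_fld T hT
  have h1 : ∫ x in cell d, (T.Q ε + 2 * ip (T.C ε) (grad u.u x)) = T.Q ε := by
    have hint : IntegrableOn (fun x => 2 * ip (T.C ε) (grad u.u x)) (cell d) :=
      integrableOn_cell_of_continuous (continuous_const.mul
        (continuous_ip.comp (continuous_const.prodMk (grad_continuous u))))
    rw [integral_add (integrableOn_cell_of_continuous continuous_const) hint,
      integral_const_mul, integral_ip_grad, integral_cell_const]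
    ring
  calc T.Q ε = ∫ x in cell d, (T.Q ε + 2 * ip (T.C ε) (grad u.u x)) := h1.symm
    _ ≤ ∫ x in cell d, T.Q (ε + sg u.u x) := by
        refine integral_mono ?_ (int_fld (fun _ => T) β hβ ε u) fun x => ?_
        · exact integrableOn_cell_of_continuous (continuous_const.add (continuous_const.mul
            (continuous_ip.comp (continuous_const.prodMk (grad_continuous u)))))
        · simp only
          rw [Tens.Q_add]
          have h2 : ip (T.C ε) (sg u.u x) = ip (T.C ε) (grad u.u x) := by
            unfold sg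
            rw [Tens.ip_C_symm]
          rw [h2]
          linarith [hT (sg u.u x)]

theorem energy_zero (D : V d → Tens d) (ε : M d) :
    energy D ε (zeroDisp d) = ∫ x in cell d, (D x).Q ε := by
  unfold energy
  simp only [sg_zeroDisp, add_zero]

theorem fld_lo_zero {D : V d → Tens d} {α β : ℝ} (hα : 0 ≤ α) (hD : IsFld D α β) : IsFld D 0 β :=
  ⟨hD.meas, hD.per, fun x A => by
    rw [zero_mul]
    exact le_trans (mul_nonneg hα (nsq_nonneg A)) (hD.lo x A), hD.hi⟩

theorem eff_bounds (D : V d → Tens d) (α β : ℝ) (hα : 0 ≤ α) (hD : IsFld D α β) (ε : M d) :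
    α * nsq ε ≤ eff D ε ∧ eff D ε ≤ β * nsq ε := by
  have hD0 := fld_lo_zero hα hD
  constructor
  · refine le_eff_of D ε _ fun u => ?_
    have h1 := jensen_tens ((idT d).scale α) (fun A => by
      rw [Tens.scale_Q, idT_Q]
      exact mul_nonneg hα (nsq_nonneg A)) ε u
    rw [Tens.scale_Q, idT_Q] at h1
    refine h1.trans ?_
    unfold energy
    obtain ⟨β', hβ'⟩ := const_fld ((idT d).scale α) (fun A => by
      rw [Tens.scale_Q, idT_Q]
      exact mul_nonneg hα (nsq_nonneg A))
    refine integral_mono (int_fld _ β' hβ' ε u) (int_fld D β hD0 ε u) fun x => ?_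
    simp only
    rw [Tens.scale_Q, idT_Q]
    exact hD.lo x _
  · refine (eff_le_energy D β hD0 ε (zeroDisp d)).trans ?_
    rw [energy_zero]
    have hint : IntegrableOn (fun x => (D x).Q ε) (cell d) := by
      have := int_fld D β hD0 ε (zeroDisp d)
      simpa only [sg_zeroDisp, add_zero] using this
    calc ∫ x in cell d, (D x).Q ε ≤ ∫ _x in cell d, β * nsq ε :=
          integral_mono hint (integrableOn_cell_of_continuous continuous_const) fun x => hD.hi x ε
      _ = β * nsq ε := integral_cell_const _

theorem energy_smul (D : V d → Tens d) (c : ℝ) (ε : M d) (u : Disp d) :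
    energy D (c • ε) (smulDisp c u) = c ^ 2 * energy D ε u := by
  unfold energy
  rw [← integral_const_mul]
  refine integral_congr_ae (Eventually.of_forall fun x => ?_)
  simp only
  rw [sg_smulDisp, ← smul_add, Tens.Q_smul]

theorem eff_smul_le (D : V d → Tens d) (β : ℝ) (hD : IsFld D 0 β) (c : ℝ) (hc : c ≠ 0) (ε : M d) :
    eff D (c • ε) ≤ c ^ 2 * eff D ε := by
  have hc2 : 0 < c ^ 2 := by positivity
  have h : eff D (c • ε) / c ^ 2 ≤ eff D ε := by
    refine le_eff_of D ε _ fun u => ?_
    rw [div_le_iff₀ hc2, mul_comm, ← energy_smul]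
    exact eff_le_energy D β hD _ _
  rw [div_le_iff₀ hc2] at h
  linarith

theorem eff_smul_eq (D : V d → Tens d) (β : ℝ) (hD : IsFld D 0 β) (c : ℝ) (ε : M d) :
    eff D (c • ε) = c ^ 2 * eff D ε := by
  rcases eq_or_ne c 0 with rfl | hc
  · rw [zero_smul]
    have h1 := eff_le_energy D β hD 0 (zeroDisp d)
    rw [energy_zero] at h1
    simp only [Tens.Q_zero, integral_zero] at h1
    have h2 : 0 ≤ eff D 0 := le_eff_of D 0 0 fun u => energy_nonneg D β hD 0 u
    rw [le_antisymm h1 h2]
    ring
  · refine le_antisymm (eff_smul_le D β hD c hc ε) ?_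
    have h := eff_smul_le D β hD c⁻¹ (inv_ne_zero hc) (c • ε)
    rw [smul_smul, inv_mul_cancel₀ hc, one_smul] at h
    have hc2 : 0 < c ^ 2 := by positivity
    calc c ^ 2 * eff D ε ≤ c ^ 2 * (c⁻¹ ^ 2 * eff D (c • ε)) :=
          mul_le_mul_of_nonneg_left h hc2.le
      _ = eff D (c • ε) := by field_simp

theorem phase_isFld (A : Tens d) (α β : ℝ) (hα : 0 < α)
    (hA : ∀ ξ, α * nsq ξ ≤ A.Q ξ ∧ A.Q ξ ≤ β * nsq ξ) (χ : Set (V d)) (hχ : Micro χ) (δ : ℝ)
    (hδ : 0 < δ) (hδ1 : δ ≤ 1) : IsFld (phase A δ χ) (δ * α) β := by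
  classical
  have hA0 : ∀ ξ, 0 ≤ A.Q ξ := fun ξ => le_trans (mul_nonneg hα.le (nsq_nonneg ξ)) (hA ξ).1
  refine ⟨fun P R => ?_, fun x i => ?_, fun x ξ => ?_, fun x ξ => ?_⟩
  · have h : (fun x => ip ((phase A δ χ x).C P) R) = fun x =>
        if x ∈ χ then ip (A.C P) R else ip ((A.scale δ).C P) R := by
      funext x
      unfold phase
      split_ifs <;> rfl
    rw [h]
    exact Measurable.ite hχ.1 measurable_const measurable_const
  · unfold phase
    by_cases hx : x ∈ χ
    · rw [if_pos hx, if_pos ((hχ.2 x i).2 hx)]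
    · rw [if_neg hx, if_neg fun h => hx ((hχ.2 x i).1 h)]
  · unfold phase
    have h1 := (hA ξ).1
    have h2 : 0 ≤ nsq ξ := nsq_nonneg ξ
    split_ifs
    · have : δ * α * nsq ξ ≤ 1 * (α * nsq ξ) := by
        rw [mul_assoc]
        exact mul_le_mul_of_nonneg_right hδ1 (mul_nonneg hα.le h2)
      linarith
    · rw [Tens.scale_Q, mul_assoc]
      exact mul_le_mul_of_nonneg_left h1 hδ.le
  · unfold phase
    have h1 := (hA ξ).2
    split_ifs
    · exact h1
    · rw [Tens.scale_Q]
      have : δ * A.Q ξ ≤ 1 * A.Q ξ := mul_le_mul_of_nonneg_right hδ1 (hA0 ξ)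
      linarith

theorem step_isFld (m : ℕ) (idx : V d → Fin m) (T : Fin m → Tens d) (α β : ℝ)
    (hidx : Measurable idx) (hper : Per idx)
    (hT : ∀ i ξ, α * nsq ξ ≤ (T i).Q ξ ∧ (T i).Q ξ ≤ β * nsq ξ) :
    IsFld (fun x => T (idx x)) α β := by
  refine ⟨fun A B => ?_, fun x i => ?_, fun x ξ => (hT _ ξ).1, fun x ξ => (hT _ ξ).2⟩
  · exact (measurable_of_countable fun i : Fin m => ip ((T i).C A) B).comp hidx
  · simp only [hper x i]

theorem osc_isFld (m : ℕ) (idx : V d → Fin m) (D : Fin m → V d → Tens d) (α β : ℝ)
    (hidx : Measurable idx) (hper : Per idx) (hD : ∀ i, IsFld (D i) α β) (n : ℕ) :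
    IsFld (fun x => D (idx x) ((n : ℝ) • x)) α β := by
  refine ⟨fun A B => ?_, fun x i => ?_, fun x ξ => (hD _).lo _ ξ, fun x ξ => (hD _).hi _ ξ⟩
  · have h : (fun x => ip ((D (idx x) ((n : ℝ) • x)).C A) B) = fun x =>
        ∑ i : Fin m, if idx x = i then ip ((D i ((n : ℝ) • x)).C A) B else 0 := by
      funext x
      rw [Finset.sum_ite_eq]
      simp
    rw [h]
    refine Finset.measurable_sum _ fun i _ => ?_
    refine Measurable.ite (measurableSet_eq_fun hidx measurable_const) ?_ measurable_const
    exact ((hD i).meas A B).comp (measurable_const_smul (n : ℝ))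
  · simp only [hper x i]
    exact per_nsmul (hD (idx x)).per n x i

/-- **A0** -/
theorem baseE (d : ℕ) : BaseE d where
  vol := vol_cell
  grad_cont := grad_continuous
  grad_per := grad_periodic
  grad_bdd := by
    intro u
    have hc : Continuous fun x => ip (grad u.u x) (grad u.u x) :=
      continuous_ip.comp ((grad_continuous u).prodMk (grad_continuous u))
    obtain ⟨K, hK⟩ := (isCompact_cell (d := d)).bddAbove_image hc.continuousOn
    refine ⟨K, fun x => ?_⟩
    obtain ⟨y, hy, hxy⟩ := per_cell (grad_periodic u) x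
    rw [hxy]
    exact hK (mem_image_of_mem _ hy)
  add := fun u v => ⟨addDisp u v, fun _ => rfl, grad_addDisp u v⟩
  smul := fun c u => ⟨smulDisp c u, fun _ => rfl, grad_smulDisp c u⟩
  zero := ⟨zeroDisp d, fun _ => rfl, grad_zeroDisp⟩
  mean := integral_ip_grad
  meas := fun D hD G H hG hH => meas_ip D hD G H hG hH
  int2 := int2_fld
  int := int_fld
  nonneg := energy_nonneg
  eff_le := eff_le_energy
  eff_approx := fun D ε η hη => exists_lt_of_ciInf_lt (lt_add_of_pos_right _ hη)
  le_eff := le_eff_of
  jensen := jensen_tens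
  eff_bd := eff_bounds
  eff_symm := by
    intro D ε
    unfold eff
    congr 1
    funext u
    unfold energy
    refine integral_congr_ae (Eventually.of_forall fun x => ?_)
    simp only
    rw [← Tens.Q_symm, ← Tens.Q_symm _ (ε + sg u.u x), symm_add, symm_add, symm_symm]
  eff_smul := eff_smul_eq
  eff_const := by
    intro T hT ε
    obtain ⟨β, hβ⟩ := const_fld T hT
    refine le_antisymm ?_ (le_eff_of _ ε _ fun u => jensen_tens T hT ε u)
    have h := eff_le_energy (fun _ => T) β hβ ε (zeroDisp d)
    rwa [energy_zero, integral_cell_const] at h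
  eff_scale := by
    intro D β hD c hc ε
    unfold eff
    rw [Real.mul_iInf_of_nonneg hc]
    congr 1
    funext u
    unfold energy
    simp only [Tens.scale_Q]
    rw [integral_const_mul]
  phase_fld := phase_isFld
  step_fld := step_isFld
  osc_fld := osc_isFld

end Pool.Agent.Lib.MP_5df1bf_an
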