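import Pool.Agent.Lib.MP_5df1bf_an.Mean

/-!
# MP_5df1bf_an: the stress is close to its mean value (C4)
-/

open MeasureTheory Filter Topology
open scoped BigOperators ContDiff

noncomputable section

namespace Pool.Agent.Lib.MP_5df1bf_an

variable {d : ℕ}

namespace ClosePf

theorem pd_nonneg (t : ℝ) : 0 ≤ pd t := abs_nonneg _

theorem pd_lip (s t : ℝ) : pd s ≤ |s - t| + pd t := by
  unfold pd
  calc |s - round s| ≤ |s - round t| := round_le s (round t)
    _ = |(s - t) + (t - round t)| := by ring_nf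
    _ ≤ |s - t| + |t - round t| := abs_add_le _ _

theorem pd_cont : Continuous pd := by
  rw [Metric.continuous_iff]
  intro t ε hε
  refine ⟨ε, hε, fun s hs => ?_⟩
  rw [Real.dist_eq] at hs ⊢
  have h1 := pd_lip s t
  have h2 := pd_lip t s
  rw [abs_sub_comm t s] at h2
  rw [abs_lt]
  constructor <;> linarith

/-- a function which vanishes where `a ≤ pd` has derivative zero where `a < pd` -/
theorem deriv_zero {φ : ℝ → ℝ} {a : ℝ} (h : ∀ t, a < pd t → φ t = 0) {t : ℝ} (ht : a < pd t) :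
    deriv φ t = 0 := by
  have hev : φ =ᶠ[𝓝 t] fun _ => 0 := by
    have ho : IsOpen {s | a < pd s} := isOpen_lt continuous_const pd_cont
    filter_upwards [ho.mem_nhds ht] with s hs
    exact h s hs
  rw [hev.deriv_eq]
  simp

theorem nsq_oo (z : V d) : nsq (oo z) = (dot z z) ^ 2 := by
  have h : (oo z : M d) = sd z z := by
    ext i j
    simp only [oo, sd]
    ring
  rw [h, nsq_sd]
  ring

theorem dot_e (l : Fin d) : dot (Pi.single l 1 : V d) (Pi.single l 1) = 1 := by
  simp [dot, Pi.single_apply]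

theorem dot_u_e (u : V d) (l : Fin d) : dot u (Pi.single l 1) = u l := by
  simp [dot, Pi.single_apply]

variable {D : Dat d} {K η : ℝ}

theorem w_pos (D : Dat d) : 0 < D.w := by
  unfold Dat.w
  have : (0 : ℝ) < D.N := by exact_mod_cast D.Npos
  positivity

theorem h_le (D : Dat d) : 64 * D.h ≤ D.w ∧ 0 < D.h := by
  have hw := w_pos D
  have hJ : (1 : ℝ) ≤ D.J := by exact_mod_cast D.Jpos
  have hJ0 : (0 : ℝ) < D.J := by linarith
  have h1 : D.h * (64 * D.J) = D.w := by
    unfold Dat.h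
    field_simp
  have h2 : 0 < D.h := by
    unfold Dat.h
    positivity
  refine ⟨?_, h2⟩
  rw [← h1]
  nlinarith

theorem mu_zero (hp : D.Prof K) {t : ℝ} (ht : D.w / 2 < pd t) : D.mu t = 0 := by
  have hper : Function.Periodic D.mu 1 := hp.mu_per
  have h1 : D.mu (t - round t) = D.mu t := by
    have := hper.sub_zsmul_eq (x := t) (round t)
    simpa using this
  rw [← h1]
  have h2 : |t - round t| ≤ 1 / 2 := abs_sub_round t
  have h3 := h_le D
  have hb : D.b = D.h / 64 := rfl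
  rw [abs_le] at h2
  refine hp.mu_zero _ (by linarith [h2.1]) h2.2 ?_
  unfold pd at ht
  rcases le_or_gt 0 (t - round t) with h | h
  · right
    rw [abs_of_nonneg h] at ht
    rw [hb]
    linarith
  · left
    rw [abs_of_neg h] at ht
    rw [hb]
    linarith

/-- the correction in the layer `k` -/
def Rk (D : Dat d) (L : ℕ) (j : Fin D.J) (k : Fin d) (x : V d) : M d :=
  (D.psi (x k) * (D.P k j x - D.r j x)) • oo (zv (D.u j)) -
    (2 * D.u j k * deriv D.psi (x k) * fderiv ℝ (D.G k j) x (Pi.single (D.l k) 1)) •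
      sd (zv (D.u j)) (Pi.single (D.l k) 1) +
    ((D.u j k : ℝ) ^ 2 * deriv (deriv D.psi) (x k) * D.G k j x) • oo (Pi.single (D.l k) 1) +
    (D.P k j (D.xs L k x) • oo (D.gv L k j x) - D.P k j x • oo (zv (D.u j)))

theorem Tj_eq (D : Dat d) (L : ℕ) (j : Fin D.J) (x : V d) :
    D.Tj L j x = D.r j x • oo (zv (D.u j)) + ∑ k, Rk D L j k x := by
  unfold Dat.Tj Rk
  simp only [Finset.sum_add_distrib, Finset.sum_sub_distrib]
  abel

theorem Rk_zero (hp : D.Prof K) (L : ℕ) (j : Fin D.J) (k : Fin d) (x : V d)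
    (hx : D.w / 2 < pd (x k)) : Rk D L j k x = 0 := by
  have h1 : D.psi (x k) = 0 := hp.psi_zero _ hx.le
  have h2 : ∀ t, D.w / 2 < pd t → deriv D.psi t = 0 := fun t ht =>
    deriv_zero (fun t ht => hp.psi_zero t ht.le) ht
  have h3 : deriv (deriv D.psi) (x k) = 0 := deriv_zero h2 hx
  have h4 := mu_zero hp hx
  have h5 : deriv D.mu (x k) = 0 := deriv_zero (fun t ht => mu_zero hp ht) hx
  have h6 : D.xs L k x = x := by
    unfold Dat.xs Dat.sh
    rw [h4]
    simp
  have h7 : D.gv L k j x = zv (D.u j) := by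
    unfold Dat.gv
    rw [h5]
    simp
  unfold Rk
  rw [h1, h2 _ hx, h3, h6, h7]
  simp

theorem dot_u (D : Dat d) (j : Fin D.J) : dot (zv (D.u j)) (zv (D.u j)) ≤ 9 * d := by
  unfold dot zv
  calc ∑ i, (D.u j i : ℝ) * (D.u j i : ℝ) ≤ ∑ _i : Fin d, (9 : ℝ) := by
        refine Finset.sum_le_sum fun i _ => ?_
        have := MeanPf.u_sq D j i
        nlinarith
    _ = 9 * d := by simp; ring

/-- bound of the corrections -/
def cst (d : ℕ) (K kk : ℝ) : ℝ :=
  8 * ((K + 2) ^ 2 * (9 * d) ^ 2) + 8 * ((6 * K ^ 2) ^ 2 * (9 * d + 9)) +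
    4 * (9 * K ^ 2) ^ 2 + 2 * (2 * (K ^ 2 * (18 * d + 72 * kk ^ 2) ^ 2) + 2 * (K ^ 2 * (9 * d) ^ 2))

theorem Rk_bd (hp : D.Prof K) (hl : D.Lin K η) {L : ℕ} (hL : 0 < L) (j : Fin D.J) (k : Fin d)
    (x : V d) : nsq (Rk D L j k x) ≤ cst d K (D.kk k) := by
  have hw := w_pos D
  have hK : 0 ≤ K := (hl.P_rng k j 0).1.trans (hl.P_rng k j 0).2
  have hu := D.u_rng j k
  have hu1 : (1 : ℝ) ≤ D.u j k := by exact_mod_cast hu.1
  have hu3 : (D.u j k : ℝ) ≤ 3 := by exact_mod_cast hu.2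
  have hdu := dot_u D j
  have hdu0 := dot_self_nonneg (zv (D.u j))
  have hoo : nsq (oo (zv (D.u j))) ≤ (9 * d) ^ 2 := by
    rw [nsq_oo]
    exact pow_le_pow_left₀ hdu0 hdu 2
  have t1 : nsq ((D.psi (x k) * (D.P k j x - D.r j x)) • oo (zv (D.u j))) ≤
      (K + 2) ^ 2 * (9 * d) ^ 2 := by
    rw [nsq_smul]
    refine mul_le_mul ?_ hoo (nsq_nonneg _) (sq_nonneg _)
    have h1 := hp.psi_rng (x k)
    have h2 := hl.P_rng k j x
    have h3 := hl.r_rng j x
    have h4 : |D.psi (x k) * (D.P k j x - D.r j x)| ≤ K + 2 := by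
      rw [abs_mul, abs_of_nonneg h1.1]
      have h5 : |D.P k j x - D.r j x| ≤ K + 2 := by
        rw [abs_le]; constructor <;> linarith [h2.1, h2.2, h3.1, h3.2]
      have := abs_nonneg (D.P k j x - D.r j x)
      nlinarith [h1.1, h1.2]
    calc _ = |D.psi (x k) * (D.P k j x - D.r j x)| ^ 2 := (sq_abs _).symm
      _ ≤ (K + 2) ^ 2 := pow_le_pow_left₀ (abs_nonneg _) h4 2
  have t2 : nsq ((2 * D.u j k * deriv D.psi (x k) *
      fderiv ℝ (D.G k j) x (Pi.single (D.l k) 1)) • sd (zv (D.u j)) (Pi.single (D.l k) 1)) ≤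
      (6 * K ^ 2) ^ 2 * (9 * d + 9) := by
    rw [nsq_smul]
    refine mul_le_mul ?_ ?_ (nsq_nonneg _) (sq_nonneg _)
    · have h1 := hp.psi_der (x k)
      have h2 := hl.G_der k j x
      have h3 : |2 * D.u j k * deriv D.psi (x k) *
          fderiv ℝ (D.G k j) x (Pi.single (D.l k) 1)| ≤ 6 * K ^ 2 := by
        rw [abs_mul, abs_mul, abs_mul, abs_of_nonneg (by linarith : (0 : ℝ) ≤ D.u j k),
          abs_of_nonneg (by norm_num : (0 : ℝ) ≤ 2)]
        calc 2 * (D.u j k : ℝ) * |deriv D.psi (x k)| *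
              |fderiv ℝ (D.G k j) x (Pi.single (D.l k) 1)|
            ≤ 2 * 3 * (K / D.w) * (K * D.w) := by
              refine mul_le_mul (mul_le_mul (by linarith) h1 (abs_nonneg _) (by norm_num)) h2
                (abs_nonneg _) (by positivity)
          _ = 6 * K ^ 2 := by field_simp; ring
      calc _ = |2 * D.u j k * deriv D.psi (x k) *
            fderiv ℝ (D.G k j) x (Pi.single (D.l k) 1)| ^ 2 := (sq_abs _).symm
        _ ≤ (6 * K ^ 2) ^ 2 := pow_le_pow_left₀ (abs_nonneg _) h3 2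
    · rw [nsq_sd, dot_e, dot_u_e]
      have h1 := MeanPf.u_sq D j (D.l k)
      simp only [zv] at hdu hdu0 ⊢
      nlinarith
  have t3 : nsq (((D.u j k : ℝ) ^ 2 * deriv (deriv D.psi) (x k) * D.G k j x) •
      oo (Pi.single (D.l k) 1)) ≤ (9 * K ^ 2) ^ 2 := by
    rw [nsq_smul, nsq_oo, dot_e, one_pow, mul_one]
    have h1 := hp.psi_der2 (x k)
    have h2 := hl.G_bd k j x
    have h4 := MeanPf.u_sq D j k
    have h3 : |(D.u j k : ℝ) ^ 2 * deriv (deriv D.psi) (x k) * D.G k j x| ≤ 9 * K ^ 2 := by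
      rw [abs_mul, abs_mul, abs_of_nonneg (sq_nonneg _)]
      calc (D.u j k : ℝ) ^ 2 * |deriv (deriv D.psi) (x k)| * |D.G k j x|
          ≤ 9 * (K / D.w ^ 2) * (K * D.w ^ 2) := by
            refine mul_le_mul (mul_le_mul h4 h1 (abs_nonneg _) (by norm_num)) h2
              (abs_nonneg _) (by positivity)
        _ = 9 * K ^ 2 := by field_simp
    calc _ = |(D.u j k : ℝ) ^ 2 * deriv (deriv D.psi) (x k) * D.G k j x| ^ 2 := (sq_abs _).symm
      _ ≤ (9 * K ^ 2) ^ 2 := pow_le_pow_left₀ (abs_nonneg _) h3 2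
  have t4 : nsq (D.P k j (D.xs L k x) • oo (D.gv L k j x) - D.P k j x • oo (zv (D.u j))) ≤
      2 * (K ^ 2 * (18 * d + 72 * (D.kk k : ℝ) ^ 2) ^ 2) + 2 * (K ^ 2 * (9 * d) ^ 2) := by
    refine (nsq_sub_le _ _).trans ?_
    rw [nsq_smul, nsq_smul]
    have hP1 := hl.P_rng k j (D.xs L k x)
    have hP2 := hl.P_rng k j x
    have hq1 : D.P k j (D.xs L k x) ^ 2 ≤ K ^ 2 := pow_le_pow_left₀ hP1.1 hP1.2 2
    have hq2 : D.P k j x ^ 2 ≤ K ^ 2 := pow_le_pow_left₀ hP2.1 hP2.2 2
    have hgg : dot (D.gv L k j x) (D.gv L k j x) ≤ 18 * d + 72 * (D.kk k : ℝ) ^ 2 := by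
      set c : ℝ := (D.kk k : ℝ) / L * D.u j k * deriv D.mu (x k) with hc
      have h1 : dot (D.gv L k j x) (D.gv L k j x) =
          dot (zv (D.u j)) (zv (D.u j)) + 2 * c * D.u j (D.l k) + c ^ 2 := by
        unfold Dat.gv
        rw [← hc, MeanPf.single_smul, dot_add_left, dot_add_right, dot_add_right, dot_smul_left,
          dot_smul_left, dot_smul_right, dot_smul_right, dot_e,
          dot_comm (Pi.single (D.l k) 1) (zv (D.u j)), dot_u_e]
        simp only [zv]
        ring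
      have h2 : (D.u j (D.l k) : ℝ) ^ 2 ≤ dot (zv (D.u j)) (zv (D.u j)) := by
        unfold dot zv
        have := Finset.single_le_sum (f := fun i => (D.u j i : ℝ) * D.u j i)
          (fun i _ => mul_self_nonneg _) (Finset.mem_univ (D.l k))
        nlinarith
      have h3 : c ^ 2 ≤ 36 * (D.kk k : ℝ) ^ 2 := by
        have hLr : (1 : ℝ) ≤ L := by exact_mod_cast hL
        have h4 := MeanPf.u_sq D j k
        have h5 : deriv D.mu (x k) ^ 2 ≤ 4 := by
          have h6 := hp.mu_der (x k)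
          rw [← sq_abs]
          have := abs_nonneg (deriv D.mu (x k))
          nlinarith
        have h7 : ((D.kk k : ℝ) / L) ^ 2 ≤ (D.kk k : ℝ) ^ 2 := by
          rw [div_pow]
          exact div_le_self (sq_nonneg _) (one_le_pow₀ hLr)
        calc c ^ 2 = ((D.kk k : ℝ) / L) ^ 2 * (D.u j k : ℝ) ^ 2 * deriv D.mu (x k) ^ 2 := by
              rw [hc]; ring
          _ ≤ (D.kk k : ℝ) ^ 2 * 9 * 4 :=
              mul_le_mul (mul_le_mul h7 h4 (sq_nonneg _) (sq_nonneg _)) h5 (sq_nonneg _)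
                (by positivity)
          _ = 36 * (D.kk k : ℝ) ^ 2 := by ring
      rw [h1]
      nlinarith [sq_nonneg (c - D.u j (D.l k))]
    have hgo : nsq (oo (D.gv L k j x)) ≤ (18 * d + 72 * (D.kk k : ℝ) ^ 2) ^ 2 := by
      rw [nsq_oo]
      exact pow_le_pow_left₀ (dot_self_nonneg _) hgg 2
    have h8 := mul_le_mul hq1 hgo (nsq_nonneg _) (sq_nonneg K)
    have h9 := mul_le_mul hq2 hoo (nsq_nonneg _) (sq_nonneg K)
    linarith
  unfold Rk cst
  refine (nsq_add_le _ _).trans ?_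
  have a1 := nsq_add_le ((D.psi (x k) * (D.P k j x - D.r j x)) • oo (zv (D.u j)) -
    (2 * D.u j k * deriv D.psi (x k) * fderiv ℝ (D.G k j) x (Pi.single (D.l k) 1)) •
      sd (zv (D.u j)) (Pi.single (D.l k) 1))
    (((D.u j k : ℝ) ^ 2 * deriv (deriv D.psi) (x k) * D.G k j x) • oo (Pi.single (D.l k) 1))
  have a2 := nsq_sub_le ((D.psi (x k) * (D.P k j x - D.r j x)) • oo (zv (D.u j)))
    ((2 * D.u j k * deriv D.psi (x k) * fderiv ℝ (D.G k j) x (Pi.single (D.l k) 1)) •
      sd (zv (D.u j)) (Pi.single (D.l k) 1))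
  linarith

theorem cst_nonneg {K kk : ℝ} (hK : 0 ≤ K) : 0 ≤ cst d K kk := by
  unfold cst
  positivity

end ClosePf

open ClosePf in
theorem Close_ok (d : ℕ) (hV : StmtVol d) : StmtClose d := by
  intro K B
  refine ⟨162 * d ^ 2 + 2 * d ^ 2 * ∑ k, cst d K (B.kk k), fun D η hη hB hp hl => ⟨1, fun L hL j => ?_⟩⟩
  subst hB
  have hw := w_pos D
  rcases Nat.eq_zero_or_pos d with hd | hd
  · subst hd
    have h0 : ∀ x, nsq (D.Tj L j x - oo (zv (D.u j))) = 0 := by
      intro x
      simp [nsq, ip]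
    simp only [h0, integral_zero]
    simp
  have hK : 0 ≤ K := (hl.P_rng ⟨0, hd⟩ j 0).1.trans (hl.P_rng ⟨0, hd⟩ j 0).2
  have hdr : (0 : ℝ) < d := by exact_mod_cast hd
  set Cs : ℝ := ∑ k, cst d K (D.kk k) with hCs
  have hCs0 : 0 ≤ Cs := Finset.sum_nonneg fun k _ => cst_nonneg hK
  set S : Set (V d) := {x | ∃ i, pd (x i) ≤ D.w / 2} with hS
  have hSm : MeasurableSet S := by
    have : S = ⋃ i, {x : V d | pd (x i) ≤ D.w / 2} := by
      ext x
      simp [hS]
    rw [this]
    refine MeasurableSet.iUnion fun i => ?_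
    exact (isClosed_le (pd_cont.comp (continuous_apply i)) continuous_const).measurableSet
  have hpt : ∀ x, nsq (D.Tj L j x - oo (zv (D.u j))) ≤
      162 * d ^ 2 * (D.r j x - 1) ^ 2 + S.indicator (fun _ => 2 * (d * Cs)) x := by
    intro x
    have h1 : D.Tj L j x - oo (zv (D.u j)) =
        (D.r j x - 1) • oo (zv (D.u j)) + ∑ k, Rk D L j k x := by
      rw [Tj_eq, sub_smul, one_smul]
      abel
    rw [h1]
    refine (nsq_add_le _ _).trans ?_
    have h2 : nsq ((D.r j x - 1) • oo (zv (D.u j))) ≤ (D.r j x - 1) ^ 2 * (9 * d) ^ 2 := by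
      rw [nsq_smul]
      refine mul_le_mul_of_nonneg_left ?_ (sq_nonneg _)
      rw [nsq_oo]
      exact pow_le_pow_left₀ (dot_self_nonneg _) (dot_u D j) 2
    have h3 : nsq (∑ k, Rk D L j k x) ≤ S.indicator (fun _ => d * Cs) x := by
      by_cases hx : x ∈ S
      · rw [Set.indicator_of_mem hx]
        refine (nsq_sum_le _ _).trans ?_
        rw [Finset.card_univ, Fintype.card_fin]
        refine mul_le_mul_of_nonneg_left ?_ hdr.le
        exact Finset.sum_le_sum fun k _ => Rk_bd hp hl hL j k x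
      · rw [Set.indicator_of_notMem hx]
        have h4 : ∀ k, Rk D L j k x = 0 := by
          intro k
          refine Rk_zero hp L j k x ?_
          by_contra hc
          exact hx ⟨k, not_lt.mp hc⟩
        simp only [h4, Finset.sum_const_zero]
        rw [nsq_eq]
        simp [symm]
    have h5 : S.indicator (fun _ => 2 * (d * Cs)) x = 2 * S.indicator (fun _ => d * Cs) x := by
      by_cases hx : x ∈ S
      · simp only [Set.indicator_of_mem hx]
      · simp only [Set.indicator_of_notMem hx, mul_zero]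
    rw [h5]
    nlinarith
  have hr : IntegrableOn (fun x => 162 * (d : ℝ) ^ 2 * (D.r j x - 1) ^ 2) (cell d) := by
    refine MeanPf.intg ?_
    have := (hl.r_sm j).continuous
    fun_prop
  have hvol : volume (cell d) = 1 := MeanPf.vol_cell
  have hi : IntegrableOn (S.indicator (fun _ => 2 * (d * Cs))) (cell d) := by
    refine IntegrableOn.indicator ?_ hSm
    exact integrableOn_const (by rw [hvol]; exact ENNReal.one_ne_top)
  have hri : Integrable (fun x => 162 * (d : ℝ) ^ 2 * (D.r j x - 1) ^ 2 +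
      S.indicator (fun _ => 2 * (d * Cs)) x) (volume.restrict (cell d)) := hr.add hi
  have hle := integral_mono_of_nonneg (μ := volume.restrict (cell d))
    (f := fun x => nsq (D.Tj L j x - oo (zv (D.u j))))
    (g := fun x => 162 * d ^ 2 * (D.r j x - 1) ^ 2 + S.indicator (fun _ => 2 * (d * Cs)) x)
    (Filter.Eventually.of_forall fun x => nsq_nonneg _) hri
    (Filter.Eventually.of_forall hpt)
  refine hle.trans ?_
  rw [integral_add hr hi, integral_const_mul, setIntegral_indicator hSm, setIntegral_const,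
    smul_eq_mul]
  have hv := hV D (D.w / 2) (by linarith)
  have hfr : frac S = volume.real (cell d ∩ S) := by
    unfold frac Measure.real
    rw [Set.inter_comm]
  rw [← hfr]
  have h6 := hl.r_sq j
  have h7 : frac S ≤ d * D.w := by
    refine hv.trans (le_of_eq ?_)
    ring
  have h8 : 162 * (d : ℝ) ^ 2 * ∫ x in cell d, (D.r j x - 1) ^ 2 ≤ 162 * (d : ℝ) ^ 2 * η :=
    mul_le_mul_of_nonneg_left h6 (by positivity)
  have h9 : frac S * (2 * (d * Cs)) ≤ (d * D.w) * (2 * (d * Cs)) :=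
    mul_le_mul_of_nonneg_right h7 (by positivity)
  have h10 : 0 ≤ 162 * (d : ℝ) ^ 2 * D.w := by positivity
  have h11 : 0 ≤ 2 * (d : ℝ) ^ 2 * Cs * η := by positivity
  nlinarith

end Pool.Agent.Lib.MP_5df1bf_an
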