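import Pool.Agent.Lib.MP_5df1bf_an.Stmts2

/-!
# MP_5df1bf_an: B7, the combinatorial data
-/

open MeasureTheory Filter Topology
open scoped BigOperators ContDiff

noncomputable section

namespace Pool.Agent.Lib.MP_5df1bf_an

namespace CombAux

/-- index set of the directions -/
abbrev Ix (d : ℕ) : Type := (Fin d × Fin d) ⊕ (Fin d ⊕ Unit)

/-- the directions -/
def uu {d : ℕ} : Ix d → Fin d → ℤ
  | Sum.inl p => fun m => 1 + (if m = p.1 then 1 else 0) + (if m = p.2 then 1 else 0)
  | Sum.inr (Sum.inl i) => fun m => 1 + (if m = i then 1 else 0)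
  | Sum.inr (Sum.inr _) => fun _ => 1

/-- the coefficients -/
def ss {d : ℕ} (S : M d) : Ix d → ℝ
  | Sum.inl p => symm S p.1 p.2 / 2
  | Sum.inr (Sum.inl i) => - ∑ j, symm S i j
  | Sum.inr (Sum.inr _) => (∑ i, ∑ j, symm S i j) / 2

theorem uu_rng {d : ℕ} (j : Ix d) (i : Fin d) : 1 ≤ uu j i ∧ uu j i ≤ 3 := by
  rcases j with p | i' | _
  · simp only [uu]; split_ifs <;> norm_num
  · simp only [uu]; split_ifs <;> norm_num
  · simp only [uu]; norm_num

theorem ss_sq {d : ℕ} (j : Ix d) (S : M d) : (ss S j) ^ 2 ≤ ((d : ℝ) ^ 2 + d + 1) * nsq S := by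
  have hn : nsq S = ∑ i, ∑ j, symm S i j ^ 2 := by
    simp only [nsq, ip, sq]
  have h0 : 0 ≤ nsq S := by rw [hn]; positivity
  have hd : (0 : ℝ) ≤ d := Nat.cast_nonneg d
  have h1 : ∀ a : Fin d, ∑ b, symm S a b ^ 2 ≤ nsq S := by
    intro a; rw [hn]
    exact Finset.single_le_sum (f := fun i => ∑ j, symm S i j ^ 2) (fun i _ => by positivity)
      (Finset.mem_univ a)
  rcases j with p | i' | _
  · simp only [ss]
    have h2 : symm S p.1 p.2 ^ 2 ≤ nsq S :=
      (Finset.single_le_sum (f := fun j => symm S p.1 j ^ 2) (fun i _ => by positivity)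
        (Finset.mem_univ p.2)).trans (h1 p.1)
    have : 0 ≤ ((d : ℝ) ^ 2 + d) * nsq S := by positivity
    have h3 : (symm S p.1 p.2 / 2) ^ 2 = symm S p.1 p.2 ^ 2 / 4 := by ring
    rw [h3]
    have : 0 ≤ symm S p.1 p.2 ^ 2 := sq_nonneg _
    nlinarith
  · simp only [ss, neg_sq]
    have h2 : (∑ j, symm S i' j) ^ 2 ≤ (Finset.univ : Finset (Fin d)).card * ∑ j, symm S i' j ^ 2 :=
      sq_sum_le_card_mul_sum_sq
    rw [Finset.card_univ, Fintype.card_fin] at h2
    have h3 : (d : ℝ) * ∑ j, symm S i' j ^ 2 ≤ d * nsq S := by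
      exact mul_le_mul_of_nonneg_left (h1 i') hd
    have : 0 ≤ ((d : ℝ) ^ 2 + 1) * nsq S := by positivity
    nlinarith
  · simp only [ss]
    have h2 : (∑ i, ∑ j, symm S i j) ^ 2 ≤ (Finset.univ : Finset (Fin d)).card *
        ∑ i, (∑ j, symm S i j) ^ 2 := sq_sum_le_card_mul_sum_sq
    have h3 : ∑ i, (∑ j, symm S i j) ^ 2 ≤ ∑ i, (d : ℝ) * ∑ j, symm S i j ^ 2 := by
      refine Finset.sum_le_sum fun i _ => ?_
      have := sq_sum_le_card_mul_sum_sq (s := (Finset.univ : Finset (Fin d))) (f := fun j => symm S i j)
      rwa [Finset.card_univ, Fintype.card_fin] at this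
    rw [← Finset.mul_sum, ← hn] at h3
    rw [Finset.card_univ, Fintype.card_fin] at h2
    have h4 : (d : ℝ) * ∑ i, (∑ j, symm S i j) ^ 2 ≤ d * (d * nsq S) :=
      mul_le_mul_of_nonneg_left h3 hd
    have h5 : ((∑ i, ∑ j, symm S i j) / 2) ^ 2 = (∑ i, ∑ j, symm S i j) ^ 2 / 4 := by ring
    rw [h5]
    have : 0 ≤ ((d : ℝ) + 1) * nsq S := by positivity
    have : 0 ≤ (∑ i, ∑ j, symm S i j) ^ 2 := sq_nonneg _
    nlinarith

theorem symm_swap {d : ℕ} (S : M d) (i j : Fin d) : symm S i j = symm S j i := by
  simp only [symm]; ring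

theorem ss_sum {d : ℕ} (S : M d) : symm S = ∑ j, ss S j • oo (zv (uu j)) := by
  funext a b
  simp only [Finset.sum_apply, Pi.smul_apply, smul_eq_mul, Fintype.sum_sum_type,
    Fintype.sum_prod_type, ss, oo, zv, uu, Finset.univ_unique, Finset.sum_singleton]
  push_cast
  -- expand
  have e1 : ∀ x x_1 : Fin d, symm S x x_1 / 2 *
      ((1 + (if a = x then (1:ℝ) else 0) + (if a = x_1 then 1 else 0)) *
        (1 + (if b = x then 1 else 0) + (if b = x_1 then 1 else 0))) =
      symm S x x_1 / 2 + (if a = x then symm S x x_1 / 2 else 0) + (if a = x_1 then symm S x x_1 / 2 else 0)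
      + (if b = x then symm S x x_1 / 2 else 0) + (if b = x_1 then symm S x x_1 / 2 else 0)
      + (if a = x then (if b = x then symm S x x_1 / 2 else 0) else 0)
      + (if a = x_1 then (if b = x_1 then symm S x x_1 / 2 else 0) else 0)
      + (if a = x then (if b = x_1 then symm S x x_1 / 2 else 0) else 0)
      + (if b = x then (if a = x_1 then symm S x x_1 / 2 else 0) else 0) := by
    intro x y
    split_ifs <;> ring
  have e2 : ∀ x : Fin d, (-∑ j, symm S x j) * ((1 + (if a = x then (1:ℝ) else 0)) * (1 + (if b = x then 1 else 0)))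
      = -(∑ j, symm S x j) - (if a = x then ∑ j, symm S x j else 0) - (if b = x then ∑ j, symm S x j else 0)
       - (if a = x then (if b = x then ∑ j, symm S x j else 0) else 0) := by
    intro x
    split_ifs <;> ring
  simp only [e1, e2, Finset.sum_add_distrib, Finset.sum_sub_distrib, Finset.sum_neg_distrib]
  have c1 : ∀ c : Fin d, ∑ x, ∑ y, (if c = x then symm S x y / 2 else 0) = (∑ y, symm S c y) / 2 := by
    intro c
    rw [Finset.sum_eq_single c]
    · simp [Finset.sum_div]
    · intro x _ hx; simp [Ne.symm hx]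
    · simp
  have c2 : ∀ c : Fin d, ∑ x, ∑ y, (if c = y then symm S x y / 2 else 0) = (∑ y, symm S c y) / 2 := by
    intro c
    simp only [Finset.sum_ite_eq, Finset.mem_univ, if_true]
    rw [Finset.sum_div]
    exact Finset.sum_congr rfl fun x _ => by rw [symm_swap]
  have c3 : ∑ x, ∑ y, (if a = x then (if b = x then symm S x y / 2 else 0) else 0) =
      (if b = a then (∑ y, symm S a y) / 2 else 0) := by
    rw [Finset.sum_eq_single a]
    · by_cases hba : b = a <;> simp [hba, Finset.sum_div]
    · intro x _ hx; simp [Ne.symm hx]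
    · simp
  have c4 : ∑ x, ∑ y, (if a = y then (if b = y then symm S x y / 2 else 0) else 0) =
      (if b = a then (∑ y, symm S a y) / 2 else 0) := by
    simp only [Finset.sum_ite_eq, Finset.mem_univ, if_true]
    by_cases hba : b = a
    · simp only [hba, if_true, Finset.sum_div]
      exact Finset.sum_congr rfl fun x _ => by rw [symm_swap]
    · simp [hba]
  have c5 : ∑ x, ∑ y, (if a = x then (if b = y then symm S x y / 2 else 0) else 0) = symm S a b / 2 := by
    rw [Finset.sum_eq_single a]
    · simp
    · intro x _ hx; simp [Ne.symm hx]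
    · simp
  have c6 : ∑ x, ∑ y, (if b = x then (if a = y then symm S x y / 2 else 0) else 0) = symm S a b / 2 := by
    rw [Finset.sum_eq_single b]
    · simp [symm_swap S a b]
    · intro x _ hx; simp [Ne.symm hx]
    · simp
  have c7 : ∑ x, (if a = x then ∑ j, symm S x j else 0) = ∑ j, symm S a j := by simp
  have c8 : ∑ x, (if b = x then ∑ j, symm S x j else 0) = ∑ j, symm S b j := by simp
  have c9 : ∑ x, (if a = x then (if b = x then ∑ j, symm S x j else 0) else 0) =
      if b = a then ∑ j, symm S a j else 0 := by simp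
  have c0 : ∑ x, ∑ y, symm S x y / 2 = (∑ x, ∑ y, symm S x y) / 2 := by
    simp only [← Finset.sum_div]
  rw [c1 a, c2 a, c1 b, c2 b, c3, c4, c5, c6, c7, c8, c9, c0]
  split_ifs <;> ring

end CombAux

open CombAux

theorem Comb_ok (d : ℕ) : StmtComb d := by
  intro hd c hc
  obtain ⟨n, rfl⟩ : ∃ n, d = n + 2 := ⟨d - 2, by omega⟩
  have hlast : (Fin.last (n + 1)) ≠ (0 : Fin (n + 2)) := by
    intro h
    have := congrArg Fin.val h
    simp at this
  -- `q0`
  let q0 : Fin (n + 2) → ℤ := fun i => if i = Fin.last (n + 1) then -((n : ℤ) + 1) else 1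
  have hq0l : q0 (Fin.last (n + 1)) = -((n : ℤ) + 1) := by simp [q0]
  have hq0c : ∀ i : Fin (n + 1), q0 i.castSucc = 1 := by
    intro i
    simp only [q0]
    rw [if_neg (Fin.castSucc_ne_last i)]
  have hq00 : q0 0 = 1 := by simp only [q0]; rw [if_neg hlast.symm]
  -- the directions orthogonal to `q0`; `none` is `𝟙`, `some j` is `2·𝟙 + e_0 - e_{j}`
  let dv : Option (Fin (n + 1)) → Fin (n + 2) → ℤ := fun o => match o with
    | none => fun _ => 1
    | some j => fun m => 2 + (if m = 0 then 1 else 0) - (if m = j.castSucc then 1 else 0)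
  let e := Fintype.equivFin (Option (Fin (n + 1)))
  let B : Comb (n + 2) :=
    { J := Fintype.card (Ix (n + 2))
      Jpos := Fintype.card_pos
      u := fun j => uu ((Fintype.equivFin (Ix (n + 2))).symm j)
      u_rng := fun j i => uu_rng _ i
      l := fun k => if k = 0 then Fin.last (n + 1) else 0
      l_ne := by
        intro k
        by_cases hk : k = 0
        · rw [if_pos hk, hk]; exact hlast
        · rw [if_neg hk]; exact Ne.symm hk
      q0 := q0
      q0_ne := by
        intro i
        simp only [q0]
        split_ifs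
        · omega
        · norm_num
      kk := fun k => if k = 0 then - c 0 else ((n : ℤ) + 1) * c k
      I := Fintype.card (Option (Fin (n + 1)))
      dd := fun i => dv (e.symm i)
      dd_rng := by
        intro i m
        rcases h : e.symm i with _ | j
        · simp [dv]
        · simp only [dv]
          split_ifs <;> norm_num
      dd_q0 := by
        intro i
        rcases h : e.symm i with _ | j
        · simp only [dv, dot, zv]
          rw [Fin.sum_univ_castSucc]
          simp only [hq0c, hq0l]
          push_cast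
          simp
        · simp only [dv, dot, zv]
          rw [Fin.sum_univ_castSucc]
          simp only [hq0c, hq0l]
          have h1 : ∀ x : Fin (n + 1), ((2 + (if x.castSucc = (0 : Fin (n + 2)) then (1 : ℤ) else 0) -
              (if x.castSucc = j.castSucc then 1 else 0) : ℤ) : ℝ) * ((1 : ℤ) : ℝ) =
              2 + (if x = 0 then (1:ℝ) else 0) - (if x = j then 1 else 0) := by
            intro x
            have hx0 : x.castSucc = (0 : Fin (n + 2)) ↔ x = 0 := by
              rw [← Fin.castSucc_zero, Fin.castSucc_inj]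
            simp only [hx0, Fin.castSucc_inj]
            split_ifs <;> norm_num
          rw [Finset.sum_congr rfl fun x _ => h1 x]
          rw [if_neg hlast, if_neg (Ne.symm (Fin.castSucc_ne_last j))]
          simp only [Finset.sum_add_distrib, Finset.sum_sub_distrib, Finset.sum_const, Finset.card_univ,
            Fintype.card_fin, Finset.sum_ite_eq', Finset.mem_univ, if_true]
          push_cast
          simp
          ring
      dd_span := by
        intro x hx
        have h1 : ∀ o, dot (zv (dv o)) x = 0 := by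
          intro o
          have := hx (e o)
          simpa using this
        have hn : ∑ i, x i = 0 := by
          have := h1 none
          simpa [dot, zv, dv] using this
        have hs : ∀ j : Fin (n + 1), x j.castSucc = x 0 := by
          intro j
          have h2 := h1 (some j)
          simp only [dot, zv, dv] at h2
          have h3 : ∀ m : Fin (n + 2), ((2 + (if m = 0 then (1:ℤ) else 0) - (if m = j.castSucc then 1 else 0) : ℤ) : ℝ) * x m
              = 2 * x m + (if m = 0 then x m else 0) - (if m = j.castSucc then x m else 0) := by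
            intro m
            split_ifs <;> push_cast <;> ring
          rw [Finset.sum_congr rfl fun m _ => h3 m] at h2
          simp only [Finset.sum_add_distrib, Finset.sum_sub_distrib, ← Finset.mul_sum, hn,
            Finset.sum_ite_eq', Finset.mem_univ, if_true] at h2
          linarith
        refine ⟨x 0, ?_⟩
        have hl : x (Fin.last (n + 1)) = -((n : ℝ) + 1) * x 0 := by
          rw [Fin.sum_univ_castSucc] at hn
          simp only [hs, Finset.sum_const, Finset.card_univ, Fintype.card_fin, nsmul_eq_mul] at hn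
          push_cast at hn
          linarith
        funext i
        refine Fin.lastCases ?_ (fun i => ?_) i
        · simp only [Pi.smul_apply, zv, hq0l, smul_eq_mul]
          push_cast
          rw [hl]; ring
        · simp only [Pi.smul_apply, zv, hq0c, smul_eq_mul]
          push_cast
          rw [hs]; ring }
  refine ⟨B, (((n + 2 : ℕ) : ℝ) ^ 2 + ((n + 2 : ℕ) : ℝ) + 1),
    fun j S => ss S ((Fintype.equivFin (Ix (n + 2))).symm j), ?_, ?_, ?_⟩
  · intro k
    show ((if k = 0 then - c 0 else ((n : ℤ) + 1) * c k : ℤ) : ℝ) *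
      ((q0 (if k = 0 then Fin.last (n + 1) else 0) : ℤ) : ℝ) = _
    by_cases hk : k = 0
    · subst hk
      simp only [if_true, hq0l]
      push_cast; ring
    · simp only [if_neg hk, hq00]
      push_cast; ring
  · intro j S
    exact ss_sq _ S
  · intro S
    have := ss_sum S
    rw [this]
    exact (Equiv.sum_comp (Fintype.equivFin (Ix (n + 2))).symm
      (fun j => ss S j • oo (zv (uu j)))).symm

end Pool.Agent.Lib.MP_5df1bf_an
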