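import Pool.Agent.Lib.MP_5df1bf_an.Stmts1

/-!
# MP_5df1bf_an, module A15: covering lemma and equivariance of realizability
-/

open MeasureTheory Filter Topology
open scoped BigOperators ContDiff

noncomputable section

namespace Pool.Agent.Lib.MP_5df1bf_an
namespace CovPf

variable {d : ℕ}

/-- real version of an integer matrix -/
def rm (B : Matrix (Fin d) (Fin d) ℤ) : Matrix (Fin d) (Fin d) ℝ := B.map (Int.cast : ℤ → ℝ)

theorem rm_mul (B C : Matrix (Fin d) (Fin d) ℤ) : rm (B * C) = rm B * rm C := by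
  unfold rm
  exact Matrix.map_mul (f := Int.castRingHom ℝ)

theorem imul_eq (B : Matrix (Fin d) (Fin d) ℤ) (x : V d) : imul B x = (rm B).mulVec x := rfl

/-- `M d` as `Matrix` -/
def toM (ξ : M d) : Matrix (Fin d) (Fin d) ℝ := ξ

theorem toM_inj {ξ ζ : M d} (h : toM ξ = toM ζ) : ξ = ζ := h

theorem conj_eq (B : Matrix (Fin d) (Fin d) ℤ) (ξ : M d) :
    toM (conj B ξ) = (rm B).transpose * toM ξ * rm B := by
  ext i j
  rw [Matrix.mul_apply]
  simp only [Matrix.mul_apply, Finset.sum_mul]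
  rw [Finset.sum_comm]
  rfl

theorem conj_conj (B B' : Matrix (Fin d) (Fin d) ℤ) (ξ : M d) :
    conj B' (conj B ξ) = conj (B * B') ξ := by
  apply toM_inj
  rw [conj_eq, conj_eq, conj_eq, rm_mul, Matrix.transpose_mul]
  simp only [Matrix.mul_assoc]

theorem imul_imul (B B' : Matrix (Fin d) (Fin d) ℤ) (x : V d) :
    imul B (imul B' x) = imul (B * B') x := by
  rw [imul_eq, imul_eq, imul_eq, rm_mul, Matrix.mulVec_mulVec]

theorem rm_smul_one (n : ℤ) : rm (n • (1 : Matrix (Fin d) (Fin d) ℤ)) = (n : ℝ) • 1 := by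
  ext i j
  show (((n • (1 : Matrix (Fin d) (Fin d) ℤ)) i j : ℤ) : ℝ) = _
  rw [Matrix.smul_apply, Matrix.smul_apply, Matrix.one_apply, Matrix.one_apply]
  by_cases h : i = j
  · rw [if_pos h, if_pos h]; simp
  · rw [if_neg h, if_neg h]; simp

theorem imul_smul_one (n : ℤ) (x : V d) :
    imul (n • (1 : Matrix (Fin d) (Fin d) ℤ)) x = (n : ℝ) • x := by
  rw [imul_eq, rm_smul_one, Matrix.smul_mulVec, Matrix.one_mulVec]

theorem conj_smul_one (n : ℤ) (ξ : M d) :
    conj (n • (1 : Matrix (Fin d) (Fin d) ℤ)) ξ = ((n : ℝ) ^ 2) • ξ := by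
  apply toM_inj
  rw [conj_eq, rm_smul_one]
  rw [Matrix.transpose_smul, Matrix.transpose_one, Matrix.smul_mul, Matrix.one_mul,
    Matrix.mul_smul, Matrix.mul_one, smul_smul, sq]
  rfl

theorem conj_add (B : Matrix (Fin d) (Fin d) ℤ) (ξ ζ : M d) :
    conj B (ξ + ζ) = conj B ξ + conj B ζ := by
  funext i j
  simp only [conj, Pi.add_apply, mul_add, add_mul, Finset.sum_add_distrib]

theorem conj_smul (B : Matrix (Fin d) (Fin d) ℤ) (c : ℝ) (ξ : M d) :
    conj B (c • ξ) = c • conj B ξ := by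
  funext i j
  simp only [conj, Pi.smul_apply, smul_eq_mul, Finset.mul_sum]
  exact Finset.sum_congr rfl fun k _ => Finset.sum_congr rfl fun l _ => by ring

theorem conj_tp (B : Matrix (Fin d) (Fin d) ℤ) (ξ : M d) : conj B (tp ξ) = tp (conj B ξ) := by
  funext i j
  simp only [conj, tp]
  rw [Finset.sum_comm]
  exact Finset.sum_congr rfl fun k _ => Finset.sum_congr rfl fun l _ => by ring

theorem conj_symm (B : Matrix (Fin d) (Fin d) ℤ) (ξ : M d) :
    conj B (symm ξ) = symm (conj B ξ) := by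
  rw [symm_eq, symm_eq, conj_smul, conj_add, conj_tp]

/-- adjoint of `conj` -/
theorem ip_conj (B : Matrix (Fin d) (Fin d) ℤ) (ξ ζ : M d) :
    ip (conj B ξ) ζ = ip ξ (conj B.transpose ζ) := by
  unfold ip conj
  simp only [Finset.sum_mul, Finset.mul_sum, Matrix.transpose_apply]
  -- sum over i j k l of B k i * ξ k l * B l j * ζ i j
  calc ∑ i, ∑ j, ∑ k, ∑ l, (B k i : ℝ) * ξ k l * (B l j : ℝ) * ζ i j
      = ∑ i, ∑ k, ∑ j, ∑ l, (B k i : ℝ) * ξ k l * (B l j : ℝ) * ζ i j :=
        Finset.sum_congr rfl fun i _ => Finset.sum_comm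
    _ = ∑ k, ∑ i, ∑ j, ∑ l, (B k i : ℝ) * ξ k l * (B l j : ℝ) * ζ i j := Finset.sum_comm
    _ = ∑ k, ∑ i, ∑ l, ∑ j, (B k i : ℝ) * ξ k l * (B l j : ℝ) * ζ i j :=
        Finset.sum_congr rfl fun k _ => Finset.sum_congr rfl fun i _ => Finset.sum_comm
    _ = ∑ k, ∑ l, ∑ i, ∑ j, (B k i : ℝ) * ξ k l * (B l j : ℝ) * ζ i j :=
        Finset.sum_congr rfl fun k _ => Finset.sum_comm
    _ = _ := Finset.sum_congr rfl fun k _ => Finset.sum_congr rfl fun l _ =>
        Finset.sum_congr rfl fun i _ => Finset.sum_congr rfl fun j _ => by ring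

/-- pull back of a tensor -/
def pull (B : Matrix (Fin d) (Fin d) ℤ) (T : Tens d) : Tens d where
  C :=
    { toFun := fun ξ => conj B.transpose (T.C (conj B ξ))
      map_add' := fun ξ ζ => by rw [conj_add, map_add, conj_add]
      map_smul' := fun c ξ => by rw [conj_smul, map_smul, conj_smul]; rfl }
  sa := by
    intro ξ ζ
    show ip (conj B.transpose (T.C (conj B ξ))) ζ = ip ξ (conj B.transpose (T.C (conj B ζ)))
    rw [ip_conj, Matrix.transpose_transpose, T.sa, ← ip_conj]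
  tr := by
    intro ξ
    show conj B.transpose (T.C (conj B (tp ξ))) = conj B.transpose (T.C (conj B ξ))
    rw [conj_tp, T.tr]

theorem pull_Q (B : Matrix (Fin d) (Fin d) ℤ) (T : Tens d) (ξ : M d) :
    (pull B T).Q ξ = T.Q (conj B ξ) := by
  show ip (conj B.transpose (T.C (conj B ξ))) ξ = _
  rw [ip_conj, Matrix.transpose_transpose]
  rfl

theorem nsq_conj_le (B : Matrix (Fin d) (Fin d) ℤ) :
    ∃ K : ℝ, 0 < K ∧ ∀ ξ, nsq (conj B ξ) ≤ K * nsq ξ := by
  obtain ⟨K, hK, h⟩ := (pull B (idT d)).exists_bound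
  refine ⟨K, hK, fun ξ => ?_⟩
  have := (le_abs_self _).trans (h ξ)
  rwa [pull_Q, idT_Q] at this

/-! ### the complementary matrix -/

theorem exists_compl (B : Matrix (Fin d) (Fin d) ℤ) (hB : B.det ≠ 0) :
    ∃ (n : ℕ) (B' : Matrix (Fin d) (Fin d) ℤ), 0 < n ∧ B'.det ≠ 0 ∧
      B * B' = ((n : ℕ) : ℤ) • 1 ∧ B' * B = ((n : ℕ) : ℤ) • 1 := by
  refine ⟨B.det.natAbs, B.det.sign • B.adjugate, Int.natAbs_pos.mpr hB, ?_, ?_, ?_⟩
  · rw [Matrix.det_smul]
    refine mul_ne_zero (pow_ne_zero _ ?_) ?_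
    · rw [Ne, Int.sign_eq_zero_iff_zero]; exact hB
    · rw [Matrix.det_adjugate]; exact pow_ne_zero _ hB
  · rw [Matrix.mul_smul, Matrix.mul_adjugate, smul_smul, ← Int.sign_mul_self_eq_natAbs]
  · rw [Matrix.smul_mul, Matrix.adjugate_mul, smul_smul, ← Int.sign_mul_self_eq_natAbs]

theorem conj_surj {B B' : Matrix (Fin d) (Fin d) ℤ} {n : ℕ} (hn : 0 < n)
    (h : B' * B = ((n : ℕ) : ℤ) • 1) (ζ : M d) :
    conj B (((n : ℝ) ^ 2)⁻¹ • conj B' ζ) = ζ := by
  have hn' : (n : ℝ) ≠ 0 := by exact_mod_cast hn.ne'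
  rw [conj_smul, conj_conj, h, conj_smul_one, smul_smul]
  rw [Int.cast_natCast, inv_mul_cancel₀ (pow_ne_zero 2 hn'), one_smul]

/-! ### periodicity -/

theorem per_nat {α : Type*} {g : V d → α} (h : Per g) (x : V d) (i : Fin d) (n : ℕ) :
    g (x + (n : ℝ) • Pi.single i 1) = g x := by
  induction n with
  | zero => simp
  | succ n ih =>
    rw [← ih, ← h (x + (n : ℝ) • Pi.single i 1) i]
    congr 1
    push_cast
    module

theorem per_int {α : Type*} {g : V d → α} (h : Per g) (x : V d) (i : Fin d) (n : ℤ) :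
    g (x + (n : ℝ) • Pi.single i 1) = g x := by
  obtain ⟨k, rfl | rfl⟩ := n.eq_nat_or_neg
  · exact_mod_cast per_nat h x i k
  · have := per_nat h (x + ((-(k : ℤ) : ℤ) : ℝ) • Pi.single i 1) i k
    rw [← this]
    congr 1
    push_cast
    module

theorem per_zv {α : Type*} {g : V d → α} (h : Per g) (x : V d) (k : Fin d → ℤ) :
    g (x + zv k) = g x := by
  classical
  have key : ∀ s : Finset (Fin d),
      g (x + ∑ i ∈ s, (k i : ℝ) • (Pi.single i (1 : ℝ) : V d)) = g x := by
    intro s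
    induction s using Finset.induction_on with
    | empty => simp
    | insert i s hi ih =>
      rw [Finset.sum_insert hi]
      rw [show x + ((k i : ℝ) • (Pi.single i (1 : ℝ) : V d) +
        ∑ j ∈ s, (k j : ℝ) • (Pi.single j (1 : ℝ) : V d)) =
        (x + ∑ j ∈ s, (k j : ℝ) • (Pi.single j (1 : ℝ) : V d)) +
          (k i : ℝ) • (Pi.single i (1 : ℝ) : V d) by abel]
      rw [per_int h, ih]
  have := key Finset.univ
  rw [← this]
  congr 2
  funext j
  simp only [zv, Finset.sum_apply, Pi.smul_apply, smul_eq_mul]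
  rw [Finset.sum_eq_single j]
  · simp
  · intro b _ hb; simp [Pi.single_eq_of_ne (Ne.symm hb)]
  · intro h; exact absurd (Finset.mem_univ _) h

theorem imul_add (B : Matrix (Fin d) (Fin d) ℤ) (x y : V d) :
    imul B (x + y) = imul B x + imul B y := by
  rw [imul_eq, imul_eq, imul_eq, Matrix.mulVec_add]

theorem imul_single (B : Matrix (Fin d) (Fin d) ℤ) (i : Fin d) :
    imul B (Pi.single i 1) = zv (fun j => B j i) := by
  funext j
  simp only [imul, zv]
  rw [Finset.sum_eq_single i]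
  · simp
  · intro b _ hb; simp [Pi.single_eq_of_ne hb]
  · intro h; exact absurd (Finset.mem_univ _) h

theorem per_imul {α : Type*} {g : V d → α} (h : Per g) (B : Matrix (Fin d) (Fin d) ℤ) :
    Per fun x => g (imul B x) := by
  intro x i
  show g (imul B (x + Pi.single i 1)) = g (imul B x)
  rw [imul_add, imul_single, per_zv h]

/-! ### linear change of variables in displacements -/

/-- `imul B` as a continuous linear map -/
def iml (B : Matrix (Fin d) (Fin d) ℤ) : V d →L[ℝ] V d :=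
  LinearMap.toContinuousLinearMap (Matrix.toLin' (rm B))

theorem iml_apply (B : Matrix (Fin d) (Fin d) ℤ) (x : V d) : iml B x = imul B x := by
  show Matrix.toLin' (rm B) x = _
  rw [Matrix.toLin'_apply, imul_eq]

theorem imul_cont (B : Matrix (Fin d) (Fin d) ℤ) : Continuous (imul B : V d → V d) := by
  have : (imul B : V d → V d) = iml B := by funext x; rw [iml_apply]
  rw [this]; exact (iml B).continuous

theorem fderiv_apply_expand (L : V d →L[ℝ] V d) (v : V d) (i : Fin d) :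
    L v i = ∑ l, v l * L (Pi.single l 1) i := by
  conv_lhs => rw [show v = ∑ l, v l • (Pi.single l (1 : ℝ) : V d) by
    funext j
    rw [Finset.sum_apply, Finset.sum_eq_single j]
    · simp
    · intro b _ hb; simp [Pi.single_eq_of_ne (Ne.symm hb)]
    · intro h; exact absurd (Finset.mem_univ _) h]
  rw [map_sum, Finset.sum_apply]
  exact Finset.sum_congr rfl fun l _ => by rw [map_smul]; rfl

/-- pull back of a displacement -/
theorem exists_pull (B : Matrix (Fin d) (Fin d) ℤ) (u : Disp d) :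
    ∃ w : Disp d, ∀ x, grad w.u x = conj B (grad u.u (imul B x)) := by
  have hL : ∀ x, imul B.transpose x = iml B.transpose x := fun x => (iml_apply _ _).symm
  refine ⟨⟨fun x => iml B.transpose (u.u (iml B x)), ?_, ?_⟩, fun x => ?_⟩
  · exact (iml B.transpose).contDiff.comp (u.smooth.comp (iml B).contDiff)
  · intro x i
    show iml B.transpose (u.u (iml B (x + Pi.single i 1))) = iml B.transpose (u.u (iml B x))
    rw [iml_apply B (x + Pi.single i 1), iml_apply B x]
    exact congrArg (iml B.transpose) (per_imul u.per B x i)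
  · funext i j
    have hu : DifferentiableAt ℝ u.u (iml B x) :=
      (u.smooth.differentiable (by simp)).differentiableAt
    have h1 : HasFDerivAt (fun x => iml B.transpose (u.u (iml B x)))
        ((iml B.transpose).comp ((fderiv ℝ u.u (iml B x)).comp (iml B))) x :=
      (iml B.transpose).hasFDerivAt.comp x (hu.hasFDerivAt.comp x (iml B).hasFDerivAt)
    show fderiv ℝ (fun x => iml B.transpose (u.u (iml B x))) x (Pi.single j 1) i = _
    rw [h1.fderiv]
    show iml B.transpose (fderiv ℝ u.u (iml B x) (iml B (Pi.single j 1))) i = _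
    rw [iml_apply B.transpose, iml_apply B x, iml_apply B (Pi.single j 1), imul_single]
    simp only [imul, conj, grad, Matrix.transpose_apply]
    refine Finset.sum_congr rfl fun k _ => ?_
    rw [fderiv_apply_expand, Finset.mul_sum]
    refine Finset.sum_congr rfl fun l _ => ?_
    simp only [zv]
    ring

/-! ### the upper bound -/

theorem cov_le (hM : StmtMat d) (hE : BaseE d) (B : Matrix (Fin d) (Fin d) ℤ) (hB : B.det ≠ 0)
    (D D' : V d → Tens d) (β β' : ℝ) (hD : IsFld D 0 β) (hD' : IsFld D' 0 β')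
    (h : ∀ x ξ, (D' x).Q (conj B ξ) = (D (imul B x)).Q ξ) (ξ : M d) :
    eff D' (conj B ξ) ≤ eff D ξ := by
  refine hE.le_eff D ξ _ fun u => ?_
  obtain ⟨w, hw⟩ := exists_pull B u
  refine (hE.eff_le D' β' hD' (conj B ξ) w).trans (le_of_eq ?_)
  unfold energy
  set F : V d → ℝ := fun y => (D y).Q (ξ + sg u.u y) with hF
  have hFper : Per F := by
    intro x i
    simp only [hF]
    rw [hD.per x i]
    have : sg u.u (x + Pi.single i 1) = sg u.u x := by
      unfold sg; rw [hE.grad_per u x i]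
    rw [this]
  have hGm : Measurable fun x => ξ + sg u.u x := by
    have : Continuous fun x => ξ + sg u.u x := by
      have h1 := hE.grad_cont u
      refine continuous_const.add ?_
      unfold sg symm
      refine continuous_pi fun i => continuous_pi fun j => ?_
      have h2 : ∀ a b, Continuous fun x => grad u.u x a b := fun a b =>
        (continuous_apply b).comp ((continuous_apply a).comp h1)
      exact ((h2 i j).add (h2 j i)).div_const 2
    exact this.measurable
  have hFm : Measurable F := hE.meas D hD.meas _ _ hGm hGm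
  have h1 := (hM B hB F hFm hFper (hE.int D β hD ξ u)).2
  rw [← h1]
  refine integral_congr_ae (Eventually.of_forall fun x => ?_)
  simp only [hF]
  rw [← h x]
  congr 1
  rw [conj_add]
  congr 1
  unfold sg
  rw [hw, conj_symm]

/-! ### dilations -/

theorem Q_avg_le {T : Tens d} (hT : T.PSD) {ι : Type*} (s : Finset ι) (hs : s.Nonempty)
    (A : ι → M d) :
    T.Q (((s.card : ℝ))⁻¹ • ∑ i ∈ s, A i) ≤ ((s.card : ℝ))⁻¹ * ∑ i ∈ s, T.Q (A i) := by
  have hc : (0 : ℝ) < s.card := by exact_mod_cast hs.card_pos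
  set m : M d := ((s.card : ℝ))⁻¹ • ∑ i ∈ s, A i with hm
  have h1 : ∀ i ∈ s, T.Q m + 2 * ip (T.C m) (A i - m) ≤ T.Q (A i) := by
    intro i _
    have h2 : A i = m + (A i - m) := by abel
    have h3 : T.Q (A i) = T.Q m + 2 * ip (T.C m) (A i - m) + T.Q (A i - m) := by
      conv_lhs => rw [h2]
      rw [T.Q_add]
    have := hT (A i - m)
    linarith
  have h4 := Finset.sum_le_sum h1
  rw [Finset.sum_add_distrib, Finset.sum_const, ← Finset.mul_sum, ← ip_sum_right,
    Finset.sum_sub_distrib, Finset.sum_const] at h4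
  have h5 : ∑ i ∈ s, A i - s.card • m = 0 := by
    rw [hm, ← Nat.cast_smul_eq_nsmul ℝ, smul_smul, mul_inv_cancel₀ hc.ne', one_smul, sub_self]
  rw [h5, ip_zero_right, mul_zero, add_zero, nsmul_eq_mul] at h4
  rw [inv_mul_eq_div, le_div_iff₀ hc]
  linarith

/-- the translated displacement -/
theorem exists_avg (u : Disp d) (n : ℕ) [NeZero n] :
    ∃ v : Disp d,
      (∀ x (k : Fin d → ℤ), v.u (x + (n : ℝ)⁻¹ • zv k) = v.u x) ∧
      (∀ x, grad v.u x = (((Finset.univ : Finset (Fin d → ZMod n)).card : ℝ))⁻¹ •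
        ∑ m : Fin d → ZMod n, grad u.u (x + (n : ℝ)⁻¹ • zv (fun i => ((m i).val : ℤ)))) := by
  have hn' : (n : ℝ) ≠ 0 := by exact_mod_cast NeZero.ne n
  set N : ℝ := ((Finset.univ : Finset (Fin d → ZMod n)).card : ℝ) with hN
  set τ : (Fin d → ZMod n) → V d := fun m => (n : ℝ)⁻¹ • zv (fun i => ((m i).val : ℤ)) with hτ
  have hper : Per fun x => N⁻¹ • ∑ m : Fin d → ZMod n, u.u (x + τ m) := by
    intro x i
    show N⁻¹ • ∑ m : Fin d → ZMod n, u.u (x + Pi.single i 1 + τ m) = _
    congr 1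
    refine Finset.sum_congr rfl fun m _ => ?_
    rw [show x + Pi.single i 1 + τ m = (x + τ m) + Pi.single i 1 by abel, u.per]
  refine ⟨⟨fun x => N⁻¹ • ∑ m : Fin d → ZMod n, u.u (x + τ m), ?_, hper⟩, ?_, ?_⟩
  · refine ContDiff.const_smul _ (ContDiff.sum fun m _ => ?_)
    exact u.smooth.comp (contDiff_id.add contDiff_const)
  · intro x k
    show N⁻¹ • ∑ m : Fin d → ZMod n, u.u (x + (n : ℝ)⁻¹ • zv k + τ m) =
      N⁻¹ • ∑ m : Fin d → ZMod n, u.u (x + τ m)
    congr 1
    -- reindex by adding `k` modulo `n`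
    refine Fintype.sum_equiv (Equiv.addRight (fun i => (k i : ZMod n))) _ _ fun m => ?_
    -- the difference is an integer vector
    have hq : ∀ i : Fin d, ∃ q : ℤ, (((m i).val : ℤ) + k i) -
        ((m i + (k i : ZMod n)).val : ℤ) = n * q := by
      intro i
      have h1 : (((((m i).val : ℤ) + k i) - ((m i + (k i : ZMod n)).val : ℤ) : ℤ) : ZMod n) = 0 := by
        push_cast
        rw [ZMod.natCast_zmod_val, ZMod.natCast_zmod_val]
        ring
      rw [ZMod.intCast_zmod_eq_zero_iff_dvd] at h1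
      obtain ⟨q, hq⟩ := h1
      exact ⟨q, hq⟩
    choose q hq using hq
    have h6 : x + (n : ℝ)⁻¹ • zv k + τ m =
        (x + τ (Equiv.addRight (fun i => (k i : ZMod n)) m)) + zv q := by
      funext i
      have h7 := hq i
      have h8 : (((m i).val : ℝ) + (k i : ℝ)) - ((m i + (k i : ZMod n)).val : ℝ) =
          n * (q i : ℝ) := by
        exact_mod_cast h7
      simp only [hτ, zv, Pi.add_apply, Pi.smul_apply, smul_eq_mul, Equiv.coe_addRight,
        Int.cast_natCast]
      have h9 : (q i : ℝ) = (n : ℝ)⁻¹ * ((((m i).val : ℝ) + (k i : ℝ)) -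
          ((m i + (k i : ZMod n)).val : ℝ)) := by
        rw [h8]; field_simp
      rw [h9]
      ring
    rw [h6, per_zv u.per]
  · intro x
    funext i j
    have hd : ∀ m : Fin d → ZMod n, HasFDerivAt (fun x => u.u (x + τ m))
        (fderiv ℝ u.u (x + τ m)) x := by
      intro m
      have h1 : HasFDerivAt u.u (fderiv ℝ u.u (x + τ m)) (x + τ m) :=
        ((u.smooth.differentiable (by simp)) (x + τ m)).hasFDerivAt
      have h3 := h1.comp x ((hasFDerivAt_id x).add_const (τ m))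
      rw [ContinuousLinearMap.comp_id] at h3
      exact h3
    have h2 : HasFDerivAt (fun x => N⁻¹ • ∑ m : Fin d → ZMod n, u.u (x + τ m))
        (N⁻¹ • ∑ m : Fin d → ZMod n, fderiv ℝ u.u (x + τ m)) x :=
      (HasFDerivAt.fun_sum fun m _ => hd m).fun_const_smul _
    show fderiv ℝ (fun x => N⁻¹ • ∑ m : Fin d → ZMod n, u.u (x + τ m)) x (Pi.single j 1) i = _
    rw [h2.fderiv]
    simp only [smul_apply, sum_apply, Pi.smul_apply, Finset.sum_apply, grad, smul_eq_mul, hτ]

theorem symm_cont : Continuous (symm : M d → M d) := by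
  unfold symm
  refine continuous_pi fun i => continuous_pi fun j => ?_
  fun_prop

theorem sg_cont (hE : BaseE d) (u : Disp d) : Continuous (sg u.u) :=
  symm_cont.comp (hE.grad_cont u)

theorem sg_per (hE : BaseE d) (u : Disp d) : Per (sg u.u) := by
  intro x i
  unfold sg
  rw [hE.grad_per u x i]

theorem dil_fld {D : V d → Tens d} {β : ℝ} (hD : IsFld D 0 β) (n : ℕ) :
    IsFld (fun x => D ((n : ℝ) • x)) 0 β := by
  refine ⟨fun A B => ?_, fun x i => ?_, fun x A => hD.lo _ A, fun x A => hD.hi _ A⟩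
  · exact (hD.meas A B).comp (measurable_const_smul (n : ℝ))
  · show D ((n : ℝ) • (x + Pi.single i 1)) = D ((n : ℝ) • x)
    rw [smul_add]
    exact per_nat hD.per _ i n

theorem dil_le (hS : StmtShift d) (hM : StmtMat d) (hE : BaseE d) {D : V d → Tens d} {β : ℝ}
    (hD : IsFld D 0 β) {n : ℕ} (hn : 0 < n) (ξ : M d) :
    eff D ξ ≤ eff (fun x => D ((n : ℝ) • x)) ξ := by
  have hn' : (n : ℝ) ≠ 0 := by exact_mod_cast hn.ne'
  have : NeZero n := ⟨hn.ne'⟩
  have hDn := dil_fld hD n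
  refine hE.le_eff _ ξ _ fun u => ?_
  obtain ⟨v, hvp, hvg⟩ := exists_avg u n
  -- the rescaled displacement
  have hwper : Per fun y => (n : ℝ) • v.u ((n : ℝ)⁻¹ • y) := by
    intro x i
    show (n : ℝ) • v.u ((n : ℝ)⁻¹ • (x + Pi.single i 1)) = _
    have h1 : (Pi.single i (1 : ℝ) : V d) = zv (Pi.single i (1 : ℤ)) := by
      funext j
      by_cases h : j = i
      · subst h; simp [zv]
      · simp [zv, Pi.single_eq_of_ne h]
    rw [smul_add, h1, hvp]
  let w : Disp d := ⟨fun y => (n : ℝ) • v.u ((n : ℝ)⁻¹ • y),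
    (v.smooth.comp (contDiff_id.const_smul ((n : ℝ)⁻¹))).const_smul (n : ℝ), hwper⟩
  have hwg : ∀ y, grad w.u y = grad v.u ((n : ℝ)⁻¹ • y) := by
    intro y
    funext i j
    have h1 : HasFDerivAt v.u (fderiv ℝ v.u ((n : ℝ)⁻¹ • y)) ((n : ℝ)⁻¹ • y) :=
      ((v.smooth.differentiable (by simp)) _).hasFDerivAt
    have h2 : HasFDerivAt (fun y : V d => (n : ℝ)⁻¹ • y)
        ((n : ℝ)⁻¹ • ContinuousLinearMap.id ℝ (V d)) y :=
      (hasFDerivAt_id y).fun_const_smul _
    have h3 := (h1.comp y h2).const_smul (n : ℝ)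
    have h4 : fderiv ℝ w.u y = (n : ℝ) • ((fderiv ℝ v.u ((n : ℝ)⁻¹ • y)).comp
        ((n : ℝ)⁻¹ • ContinuousLinearMap.id ℝ (V d))) := h3.fderiv
    show fderiv ℝ w.u y (Pi.single j 1) i = fderiv ℝ v.u ((n : ℝ)⁻¹ • y) (Pi.single j 1) i
    rw [h4]
    simp [hn']
  refine (hE.eff_le D β hD ξ w).trans ?_
  -- energy of w
  have h1 : energy D ξ w = energy (fun x => D ((n : ℝ) • x)) ξ v := by
    unfold energy
    set F : V d → ℝ := fun y => (D y).Q (ξ + sg w.u y) with hF
    have hGm : Measurable fun x => ξ + sg w.u x :=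
      (continuous_const.add (sg_cont hE w)).measurable
    have hFm : Measurable F := hE.meas D hD.meas _ _ hGm hGm
    have hFper : Per F := by
      intro x i
      simp only [hF]
      rw [hD.per x i, sg_per hE w x i]
    have h2 := (hM (((n : ℕ) : ℤ) • 1) (by
      rw [Matrix.det_smul, Matrix.det_one, mul_one]
      exact pow_ne_zero _ (by exact_mod_cast hn.ne')) F hFm hFper (hE.int D β hD ξ w)).2
    rw [← h2]
    refine integral_congr_ae (Eventually.of_forall fun x => ?_)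
    simp only [hF]
    rw [imul_smul_one, Int.cast_natCast]
    congr 2
    unfold sg
    rw [hwg, smul_smul, inv_mul_cancel₀ hn', one_smul]
  rw [h1]
  -- convexity
  set N : ℝ := ((Finset.univ : Finset (Fin d → ZMod n)).card : ℝ) with hN
  have hNpos : 0 < N := by
    rw [hN]
    exact_mod_cast Finset.card_pos.mpr Finset.univ_nonempty
  set τ : (Fin d → ZMod n) → V d := fun m => (n : ℝ)⁻¹ • zv (fun i => ((m i).val : ℤ)) with hτ
  set F : V d → ℝ := fun x => (D ((n : ℝ) • x)).Q (ξ + sg u.u x) with hF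
  have hFper : Per F := by
    intro x i
    simp only [hF]
    rw [show D ((n : ℝ) • (x + Pi.single i 1)) = D ((n : ℝ) • x) from hDn.per x i,
      sg_per hE u x i]
  have hFint : IntegrableOn F (cell d) := hE.int _ β hDn ξ u
  have hDτ : ∀ m x, D ((n : ℝ) • (x + τ m)) = D ((n : ℝ) • x) := by
    intro m x
    rw [smul_add, hτ]
    simp only
    rw [smul_smul, mul_inv_cancel₀ hn', one_smul, per_zv hD.per]
  have hpt : ∀ x, (D ((n : ℝ) • x)).Q (ξ + sg v.u x) ≤ N⁻¹ * ∑ m, F (x + τ m) := by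
    intro x
    have hT : (D ((n : ℝ) • x)).PSD := fun A => by
      have := hD.lo ((n : ℝ) • x) A
      simpa using this
    have h3 := Q_avg_le hT (Finset.univ : Finset (Fin d → ZMod n)) Finset.univ_nonempty
      (fun m => ξ + sg u.u (x + τ m))
    have h4 : ξ + sg v.u x = N⁻¹ • ∑ m, (ξ + sg u.u (x + τ m)) := by
      rw [Finset.sum_add_distrib, Finset.sum_const, smul_add, ← Nat.cast_smul_eq_nsmul ℝ, smul_smul,
        ← hN, inv_mul_cancel₀ hNpos.ne', one_smul]
      congr 1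
      unfold sg
      rw [hvg, symm_smul, symm_sum]
    rw [h4]
    refine h3.trans (le_of_eq ?_)
    congr 1
    refine Finset.sum_congr rfl fun m _ => ?_
    simp only [hF]
    rw [hDτ]
  have hFshift_int : ∀ m, IntegrableOn (fun x => F (x + τ m)) (cell d) := by
    intro m
    -- `F (x + τ m)` is the energy density of a translated displacement
    have hper : Per fun x => u.u (x + τ m) := by
      intro x i
      show u.u (x + Pi.single i 1 + τ m) = u.u (x + τ m)
      rw [show x + Pi.single i 1 + τ m = (x + τ m) + Pi.single i 1 by abel, u.per]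
    let um : Disp d := ⟨fun x => u.u (x + τ m), u.smooth.comp (contDiff_id.add contDiff_const),
      hper⟩
    have hg : ∀ x, grad um.u x = grad u.u (x + τ m) := by
      intro x
      funext i j
      have h1 : HasFDerivAt u.u (fderiv ℝ u.u (x + τ m)) (x + τ m) :=
        ((u.smooth.differentiable (by simp)) (x + τ m)).hasFDerivAt
      have h3 := h1.comp x ((hasFDerivAt_id x).add_const (τ m))
      rw [ContinuousLinearMap.comp_id] at h3
      have h2 : fderiv ℝ um.u x = fderiv ℝ u.u (x + τ m) := h3.fderiv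
      show fderiv ℝ um.u x (Pi.single j 1) i = _
      rw [h2]; rfl
    have h5 := hE.int _ β hDn ξ um
    refine h5.congr (Eventually.of_forall fun x => ?_)
    simp only [hF]
    rw [hDτ]
    unfold sg
    rw [hg]
  unfold energy
  calc ∫ x in cell d, (D ((n : ℝ) • x)).Q (ξ + sg v.u x)
      ≤ ∫ x in cell d, N⁻¹ * ∑ m, F (x + τ m) := by
        refine integral_mono (hE.int _ β hDn ξ v) ?_ hpt
        exact (integrable_finsetSum _ fun m _ => hFshift_int m).const_mul _
    _ = N⁻¹ * ∑ m : Fin d → ZMod n, ∫ x in cell d, F (x + τ m) := by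
        rw [integral_const_mul, integral_finsetSum _ fun m _ => hFshift_int m]
    _ = N⁻¹ * ∑ m : Fin d → ZMod n, ∫ x in cell d, F x := by
        congr 1
        exact Finset.sum_congr rfl fun m _ => hS F hFper (τ m)
    _ = ∫ x in cell d, F x := by
        rw [Finset.sum_const, nsmul_eq_mul, ← hN, ← mul_assoc, inv_mul_cancel₀ hNpos.ne', one_mul]

end CovPf

open CovPf

theorem Cov_ok (d : ℕ) (hS : StmtShift d) (hM : StmtMat d) (hE : BaseE d) : StmtCov d := by
  intro B hB D D' β β' hD hD' h ξ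
  refine le_antisymm (cov_le hM hE B hB D D' β β' hD hD' h ξ) ?_
  obtain ⟨n, B', hn, hB', h1, h2⟩ := exists_compl B hB
  have hn' : (n : ℝ) ≠ 0 := by exact_mod_cast hn.ne'
  set c : ℝ := ((n : ℝ) ^ 4)⁻¹ with hc
  have hc0 : 0 < c := by positivity
  have hDn := dil_fld hD n
  have hsc : IsFld (fun x => (D ((n : ℝ) • x)).scale c) 0 (c * β) := by
    refine ⟨fun A B => ?_, fun x i => ?_, fun x A => ?_, fun x A => ?_⟩
    · simp only [Tens.scale_C, ip_smul_left]
      exact (hDn.meas A B).const_mul c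
    · show (D ((n : ℝ) • (x + Pi.single i 1))).scale c = (D ((n : ℝ) • x)).scale c
      rw [show D ((n : ℝ) • (x + Pi.single i 1)) = D ((n : ℝ) • x) from hDn.per x i]
    · rw [Tens.scale_Q]
      have := hDn.lo x A
      simp only [zero_mul] at this ⊢
      positivity
    · rw [Tens.scale_Q, mul_assoc]
      exact mul_le_mul_of_nonneg_left (hDn.hi x A) hc0.le
  have h3 : ∀ x ζ, ((D ((n : ℝ) • x)).scale c).Q (conj B' ζ) = (D' (imul B' x)).Q ζ := by
    intro x ζ
    have h4 := conj_surj hn h2 ζ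
    set η : M d := ((n : ℝ) ^ 2)⁻¹ • conj B' ζ with hη
    rw [← h4, h, imul_imul, h1, imul_smul_one, conj_conj, h1, conj_smul_one, Tens.scale_Q,
      Tens.Q_smul, Int.cast_natCast, hc]
    field_simp
  have h5 := cov_le hM hE B' hB' D' _ β' _ hD' hsc h3 (conj B ξ)
  rw [conj_conj, h1, conj_smul_one, Int.cast_natCast,
    hE.eff_scale _ β hDn c hc0.le, hE.eff_smul _ β hDn] at h5
  have h6 : c * (((n : ℝ) ^ 2) ^ 2 * eff (fun x => D ((n : ℝ) • x)) ξ) =
      eff (fun x => D ((n : ℝ) • x)) ξ := by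
    rw [hc]; field_simp
  rw [h6] at h5
  exact (dil_le hS hM hE hD hn ξ).trans h5

namespace CovPf

variable {d : ℕ}

theorem micro_pre {χ : Set (V d)} (hχ : Micro χ) (B : Matrix (Fin d) (Fin d) ℤ) :
    Micro {x | imul B x ∈ χ} := by
  refine ⟨(imul_cont B).measurable hχ.1, fun x i => ?_⟩
  have hper : Per fun x => x ∈ χ := fun x i => propext (hχ.2 x i)
  have := per_imul hper B x i
  exact Eq.to_iff this

theorem frac_eq {χ : Set (V d)} (hχ : MeasurableSet χ) :
    frac χ = ∫ x in cell d, χ.indicator (fun _ => (1 : ℝ)) x := by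
  rw [integral_indicator hχ, Measure.restrict_restrict hχ]
  simp [frac, Measure.real]

theorem frac_pre (hM : StmtMat d) {χ : Set (V d)} (hχ : Micro χ)
    {B : Matrix (Fin d) (Fin d) ℤ} (hB : B.det ≠ 0) : frac {x | imul B x ∈ χ} = frac χ := by
  rw [frac_eq (micro_pre hχ B).1, frac_eq hχ.1]
  have hm : Measurable (χ.indicator fun _ => (1 : ℝ)) := measurable_const.indicator hχ.1
  have hper : Per (χ.indicator fun _ => (1 : ℝ)) := by
    intro x i
    by_cases h : x ∈ χ
    · rw [Set.indicator_of_mem h, Set.indicator_of_mem ((hχ.2 x i).mpr h)]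
    · rw [Set.indicator_of_notMem h, Set.indicator_of_notMem (fun h' => h ((hχ.2 x i).mp h'))]
  have hint : IntegrableOn (χ.indicator fun _ => (1 : ℝ)) (cell d) := by
    refine IntegrableOn.indicator ?_ hχ.1
    refine integrableOn_const (hs := ?_)
    exact (isCompact_Icc.measure_lt_top).ne
  rw [← (hM B hB _ hm hper hint).2]
  rfl

theorem rz_cov_one (hS : StmtShift d) (hM : StmtMat d) (hE : BaseE d)
    {B : Matrix (Fin d) (Fin d) ℤ} (hB : B.det ≠ 0) {A A' C C' : Tens d} {f : ℝ}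
    (hA : A.PD) (hA' : A'.PD) (hC : C.PSD)
    (h1 : ∀ ξ, A'.Q (conj B ξ) = A.Q ξ) (h2 : ∀ ξ, C'.Q (conj B ξ) = C.Q ξ) (h : Rz A C f) :
    Rz A' C' f := by
  obtain ⟨n, B', hn, hB', hb1, hb2⟩ := exists_compl B hB
  have hn' : (n : ℝ) ≠ 0 := by exact_mod_cast hn.ne'
  obtain ⟨K, hK, hKn⟩ := nsq_conj_le B'
  -- `nsq ξ ≤ K₁ nsq (conj B ξ)`
  set K₁ : ℝ := K / (n : ℝ) ^ 4 with hK₁
  have hK₁0 : 0 < K₁ := by positivity
  have hnsq : ∀ ξ, nsq ξ ≤ K₁ * nsq (conj B ξ) := by
    intro ξ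
    have h3 := hKn (conj B ξ)
    rw [conj_conj, hb1, conj_smul_one, Int.cast_natCast, nsq_smul] at h3
    rw [hK₁, div_mul_eq_mul_div, le_div_iff₀ (by positivity)]
    calc nsq ξ * (n : ℝ) ^ 4 = ((n : ℝ) ^ 2) ^ 2 * nsq ξ := by ring
      _ ≤ _ := h3
  intro η hη
  set η₁ : ℝ := min η (η / K₁) with hη₁
  have hη₁0 : 0 < η₁ := lt_min hη (by positivity)
  obtain ⟨δ₀, hδ₀, hδ⟩ := h η₁ hη₁0
  refine ⟨min δ₀ 1, lt_min hδ₀ one_pos, fun δ hδ0 hδ1 => ?_⟩
  obtain ⟨χ, hχ, hfr, hχe⟩ := hδ δ hδ0 (hδ1.trans_le (min_le_left _ _))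
  have hδle : δ ≤ 1 := (hδ1.trans_le (min_le_right _ _)).le
  refine ⟨{x | imul B x ∈ χ}, micro_pre hχ B, ?_, fun ε => ?_⟩
  · rw [frac_pre hM hχ hB]; exact hfr.trans_le (min_le_left _ _)
  obtain ⟨α, hα, hαA⟩ := hA
  obtain ⟨β, hβ, hβA⟩ := A.exists_bound
  obtain ⟨α', hα', hαA'⟩ := hA'
  obtain ⟨β', hβ', hβA'⟩ := A'.exists_bound
  have hf := hE.phase_fld A α β hα (fun ξ => ⟨hαA ξ, (le_abs_self _).trans (hβA ξ)⟩) χ hχ δ hδ0 hδle
  have hf' := hE.phase_fld A' α' β' hα' (fun ξ => ⟨hαA' ξ, (le_abs_self _).trans (hβA' ξ)⟩)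
    {x | imul B x ∈ χ} (micro_pre hχ B) δ hδ0 hδle
  have hz : ∀ {D : V d → Tens d} {a b : ℝ}, 0 ≤ a → IsFld D a b → IsFld D 0 b := by
    intro D a b ha hD
    refine ⟨hD.meas, hD.per, fun x A => ?_, hD.hi⟩
    have := hD.lo x A
    have h3 := nsq_nonneg A
    rw [zero_mul]
    exact (mul_nonneg ha h3).trans this
  have hcov := Cov_ok d hS hM hE B hB (phase A δ χ) (phase A' δ {x | imul B x ∈ χ}) β β'
    (hz (by positivity) hf) (hz (by positivity) hf') (by
      intro x ξ
      unfold phase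
      by_cases hx : imul B x ∈ χ
      · rw [if_pos hx, if_pos (show x ∈ {x | imul B x ∈ χ} from hx), h1]
      · rw [if_neg hx, if_neg (show x ∉ {x | imul B x ∈ χ} from hx), Tens.scale_Q, Tens.scale_Q,
          h1])
  set ξ : M d := ((n : ℝ) ^ 2)⁻¹ • conj B' ε with hξ
  have hεξ : conj B ξ = ε := conj_surj hn hb2 ε
  rw [← hεξ, hcov, h2]
  obtain ⟨hlo, hhi⟩ := hχe ξ
  have h4 := hnsq ξ
  have h5 := hC ξ
  have h6 : η₁ ≤ η := min_le_left _ _
  have h7 : η₁ * K₁ ≤ η := by
    have : η₁ ≤ η / K₁ := min_le_right _ _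
    rwa [le_div_iff₀ hK₁0] at this
  refine ⟨le_trans ?_ hlo, hhi.trans ?_⟩
  · nlinarith
  · have h8 : η₁ * nsq ξ ≤ η * nsq (conj B ξ) := by
      calc η₁ * nsq ξ ≤ η₁ * (K₁ * nsq (conj B ξ)) := by gcongr
        _ = (η₁ * K₁) * nsq (conj B ξ) := by ring
        _ ≤ η * nsq (conj B ξ) := mul_le_mul_of_nonneg_right h7 (nsq_nonneg _)
    linarith

theorem rz_unscale (hE : BaseE d) {A C : Tens d} {f c : ℝ} (hA : A.PD) (hC : C.PSD)
    (hc : 0 < c) (h : Rz (A.scale c) (C.scale c) f) : Rz A C f := by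
  intro η hη
  obtain ⟨δ₀, hδ₀, hδ⟩ := h (min η (c * η)) (lt_min hη (by positivity))
  refine ⟨min δ₀ 1, lt_min hδ₀ one_pos, fun δ hδ0 hδ1 => ?_⟩
  obtain ⟨χ, hχ, hfr, hχe⟩ := hδ δ hδ0 (hδ1.trans_le (min_le_left _ _))
  have hδle : δ ≤ 1 := (hδ1.trans_le (min_le_right _ _)).le
  refine ⟨χ, hχ, hfr.trans_le (min_le_left _ _), fun ε => ?_⟩
  obtain ⟨α, hα, hαA⟩ := hA
  obtain ⟨β, hβ, hβA⟩ := A.exists_bound
  have hf := hE.phase_fld A α β hα (fun ξ => ⟨hαA ξ, (le_abs_self _).trans (hβA ξ)⟩) χ hχ δ hδ0 hδle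
  have hf0 : IsFld (phase A δ χ) 0 β := by
    refine ⟨hf.meas, hf.per, fun x A => ?_, hf.hi⟩
    have := hf.lo x A
    have h3 := nsq_nonneg A
    rw [zero_mul]
    exact (mul_nonneg (by positivity) h3).trans this
  have hph : phase (A.scale c) δ χ = fun x => (phase A δ χ x).scale c := by
    funext x
    unfold phase
    by_cases hx : x ∈ χ
    · rw [if_pos hx, if_pos hx]
    · rw [if_neg hx, if_neg hx]
      apply Tens.ext_Q
      intro ξ
      simp only [Tens.scale_Q]
      ring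
  obtain ⟨hlo, hhi⟩ := hχe ε
  rw [hph, hE.eff_scale _ β hf0 c hc.le, Tens.scale_Q] at hlo hhi
  have h1 : min η (c * η) ≤ η := min_le_left _ _
  have h2 : min η (c * η) ≤ c * η := min_le_right _ _
  have h3 := nsq_nonneg ε
  constructor
  · have h4 : c * ((1 - η) * C.Q ε) ≤ c * eff (phase A δ χ) ε := by
      refine le_trans ?_ hlo
      have h5 : 0 ≤ c * C.Q ε := mul_nonneg hc.le (hC ε)
      calc c * ((1 - η) * C.Q ε) = (1 - η) * (c * C.Q ε) := by ring
        _ ≤ (1 - min η (c * η)) * (c * C.Q ε) := mul_le_mul_of_nonneg_right (by linarith) h5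
    exact le_of_mul_le_mul_left h4 hc
  · have h4 : c * eff (phase A δ χ) ε ≤ c * (C.Q ε + η * nsq ε) := by
      calc c * eff (phase A δ χ) ε ≤ c * C.Q ε + min η (c * η) * nsq ε := hhi
        _ ≤ c * C.Q ε + (c * η) * nsq ε := by gcongr
        _ = _ := by ring
    exact le_of_mul_le_mul_left h4 hc

end CovPf

theorem RzCov_ok (d : ℕ) (hS : StmtShift d) (hM : StmtMat d) (hE : BaseE d) : StmtRzCov d := by
  intro B hB A A' C C' f hA hA' hC hC' h1 h2
  refine ⟨fun h => rz_cov_one hS hM hE hB hA hA' hC h1 h2 h, fun h => ?_⟩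
  obtain ⟨n, B', hn, hB', hb1, hb2⟩ := exists_compl B hB
  have hn' : (n : ℝ) ≠ 0 := by exact_mod_cast hn.ne'
  set c : ℝ := ((n : ℝ) ^ 4)⁻¹ with hc
  have hc0 : 0 < c := by positivity
  have hAs : (A.scale c).PD := by
    obtain ⟨α, hα, h3⟩ := hA
    refine ⟨c * α, by positivity, fun ξ => ?_⟩
    rw [Tens.scale_Q, mul_assoc]
    exact mul_le_mul_of_nonneg_left (h3 ξ) hc0.le
  have key : ∀ (T T' : Tens d), (∀ ξ, T'.Q (conj B ξ) = T.Q ξ) →
      ∀ ζ, (T.scale c).Q (conj B' ζ) = T'.Q ζ := by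
    intro T T' hT ζ
    have h4 := conj_surj hn hb2 ζ
    set η : M d := ((n : ℝ) ^ 2)⁻¹ • conj B' ζ with hη
    rw [← h4, hT, conj_conj, hb1, conj_smul_one, Tens.scale_Q, Tens.Q_smul, Int.cast_natCast, hc]
    field_simp
  have h5 := rz_cov_one hS hM hE hB' hA' hAs hC' (key A A' h1) (key C C' h2) h
  exact rz_unscale hE hA hC hc0 h5

end Pool.Agent.Lib.MP_5df1bf_an
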