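import Pool.Agent.Lib.MP_5df1bf_an.Stmts2

/-!
# MP_5df1bf_an: C5, the work of the forces
-/

open MeasureTheory Filter Topology
open scoped BigOperators ContDiff

noncomputable section

namespace Pool.Agent.Lib.MP_5df1bf_an

variable {d : ℕ}

namespace CrAux

/-- Cauchy–Schwarz with a constant -/
theorem cs_one {s : Set (V d)} (hs : volume s ≠ ⊤) {φ : V d → ℝ} (h1 : IntegrableOn φ s)
    (h2 : IntegrableOn (fun x => φ x ^ 2) s) :
    (∫ x in s, φ x) ^ 2 ≤ (volume s).toReal * ∫ x in s, φ x ^ 2 := by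
  have hfin : IsFiniteMeasure (volume.restrict s) := ⟨by simpa using lt_top_iff_ne_top.mpr hs⟩
  have key : ∀ t : ℝ, 0 ≤ (volume s).toReal * (t * t) + (2 * ∫ x in s, φ x) * t +
      ∫ x in s, φ x ^ 2 := by
    intro t
    have h3 : 0 ≤ ∫ x in s, (φ x + t) ^ 2 := integral_nonneg fun x => sq_nonneg _
    have h4 : ∫ x in s, (φ x + t) ^ 2 = (∫ x in s, φ x ^ 2) + (2 * t * ∫ x in s, φ x) +
        (volume s).toReal * (t * t) := by
      have e : (fun x => (φ x + t) ^ 2) = fun x => (φ x ^ 2 + 2 * t * φ x) + t * t := by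
        funext x; ring
      have i1 : IntegrableOn (fun x => φ x ^ 2 + 2 * t * φ x) s := h2.add (h1.const_mul _)
      rw [e, integral_add i1 (integrable_const _), integral_add h2 (h1.const_mul _),
        integral_const_mul, integral_const]
      simp [Measure.real]
    linarith
  have := discrim_le_zero key
  unfold discrim at this
  nlinarith

theorem h_bd (D : Dat d) : 0 < D.h ∧ D.h ≤ 1 / 384 ∧ 0 < D.b ∧ D.b ≤ D.h / 64 ∧ D.h ≤ D.w ∧ 0 < D.w := by
  have hN : (6 : ℝ) ≤ D.N := by
    have := Nat.le_of_dvd D.Npos D.Ndvd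
    exact_mod_cast this
  have hJ : (1 : ℝ) ≤ D.J := by exact_mod_cast D.Jpos
  have hw : 0 < D.w := by unfold Dat.w; positivity
  have hw6 : D.w ≤ 1 / 6 := by
    unfold Dat.w
    exact one_div_le_one_div_of_le (by norm_num) hN
  have hh : 0 < D.h := by unfold Dat.h; positivity
  have hh2 : D.h ≤ D.w / 64 := by
    unfold Dat.h
    exact div_le_div_of_nonneg_left hw.le (by norm_num) (by linarith)
  refine ⟨hh, by linarith, ?_, ?_, by linarith, hw⟩
  · unfold Dat.b; positivity
  · unfold Dat.b; exact le_rfl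

/-- the second derivative of the profile and its support -/
theorem mu2_zero {D : Dat d} {K : ℝ} (hP : D.Prof K) (t : ℝ) (h1 : -(1 / 4) ≤ t) (h2 : t ≤ 3 / 4)
    (h3 : D.h < |t|) (h4 : 5 * D.h < t ∨ t < 0) : deriv (deriv D.mu) t = 0 := by
  obtain ⟨hh, hh2, hb, hb2, _, _⟩ := h_bd D
  have hz : D.mu =ᶠ[𝓝 t] fun _ => 0 := by
    rcases h4 with h4 | h4
    · have : Set.Ioo (4 * D.h + D.b / 2) (7 / 8 : ℝ) ∈ 𝓝 t :=
        Ioo_mem_nhds (by linarith) (by linarith)
      filter_upwards [this] with s hs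
      by_cases h5 : s ≤ 1 / 2
      · exact hP.mu_zero s (by linarith [hs.1]) h5 (Or.inr hs.1.le)
      · push Not at h5
        have h6 := hP.mu_zero (s - 1) (by linarith) (by linarith [hs.2])
          (Or.inl (by linarith [hs.2]))
        have h7 := hP.mu_per (s - 1)
        rw [sub_add_cancel] at h7
        rw [h7, h6]
    · rw [abs_of_neg h4] at h3
      have : Set.Ioo (-(1 / 2) : ℝ) (-(D.b / 2)) ∈ 𝓝 t :=
        Ioo_mem_nhds (by linarith) (by linarith)
      filter_upwards [this] with s hs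
      exact hP.mu_zero s hs.1.le (by linarith [hs.2]) (Or.inl hs.2.le)
  have h5 := hz.deriv
  have h6 := h5.deriv
  have h7 := h6.eq_of_nhds
  rw [h7]
  simp

theorem mu2_cont {D : Dat d} {K : ℝ} (hP : D.Prof K) : Continuous (deriv (deriv D.mu)) := by
  have h1 := (contDiff_infty_iff_deriv.1 hP.mu_sm).2
  exact ((contDiff_infty_iff_deriv.1 h1).2).continuous

theorem mu2_per {D : Dat d} {K : ℝ} (hP : D.Prof K) (t : ℝ) :
    deriv (deriv D.mu) (t + 1) = deriv (deriv D.mu) t := by
  have h1 : (fun s => D.mu (s + 1)) = D.mu := funext hP.mu_per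
  have h2 : (fun s => deriv D.mu (s + 1)) = deriv D.mu := by
    funext s
    rw [← deriv_comp_add_const, h1]
  rw [← deriv_comp_add_const, h2]

/-- the scalar force density -/
def ff (D : Dat d) (L : ℕ) (k : Fin d) (j : Fin D.J) (x : V d) : ℝ :=
  deriv (deriv D.mu) (x k) * D.P k j (D.xs L k x)

theorem ff_cont {D : Dat d} {K η : ℝ} (hP : D.Prof K) (hL : D.Lin K η) (L : ℕ) (k : Fin d)
    (j : Fin D.J) : Continuous (ff D L k j) := by
  unfold ff
  refine ((mu2_cont hP).comp (continuous_apply k)).mul ?_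
  refine (hL.P_sm k j).continuous.comp ?_
  unfold Dat.xs
  refine continuous_id.sub ?_
  refine (continuous_single (D.l k)).comp ?_
  unfold Dat.sh
  exact continuous_const.mul (hP.mu_sm.continuous.comp (continuous_apply k))

theorem xs_add {D : Dat d} {K : ℝ} (hP : D.Prof K) (L : ℕ) (k i : Fin d) (x : V d) :
    D.xs L k (x + Pi.single i 1) = D.xs L k x + Pi.single i 1 := by
  have h1 : D.sh L k (x + Pi.single i 1) = D.sh L k x := by
    unfold Dat.sh
    congr 1
    by_cases h : k = i
    · subst h; simp [hP.mu_per]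
    · simp [h]
  unfold Dat.xs
  rw [h1]
  abel

theorem ff_per {D : Dat d} {K η : ℝ} (hP : D.Prof K) (hL : D.Lin K η) (L : ℕ) (k : Fin d)
    (j : Fin D.J) : Per (ff D L k j) := by
  intro x i
  unfold ff
  rw [xs_add hP, hL.P_per k j]
  congr 1
  by_cases h : k = i
  · subst h
    simp [mu2_per hP]
  · simp [h]

theorem ff_bd {D : Dat d} {K η Mu : ℝ} (hL : D.Lin K η)
    (hMu : ∀ t ∈ Set.Icc (-1 : ℝ) 1, ‖deriv (deriv D.mu) t‖ ≤ Mu) (L : ℕ) (k : Fin d)
    (j : Fin D.J) (x : V d) (h1 : -(1 / 4) ≤ x k) (h2 : x k ≤ 3 / 4) : |ff D L k j x| ≤ Mu * K := by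
  unfold ff
  rw [abs_mul]
  have h3 := hMu (x k) ⟨by linarith, by linarith⟩
  rw [Real.norm_eq_abs] at h3
  have h4 := hL.P_rng k j (D.xs L k x)
  rw [abs_of_nonneg h4.1]
  exact mul_le_mul h3 h4.2 h4.1 ((abs_nonneg _).trans h3)

theorem mem_win {k : Fin d} {x : V d} (h : x ∈ win k) :
    (-(1 / 4) ≤ x k ∧ x k ≤ 3 / 4) ∧ ∀ i, i ≠ k → 0 ≤ x i ∧ x i ≤ 1 := by
  obtain ⟨h1, h2⟩ := h
  constructor
  · have h3 := h1 k
    have h4 := h2 k
    simp at h3 h4
    constructor
    · linarith
    · linarith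
  · intro i hi
    have h3 := h1 i
    have h4 := h2 i
    simp [hi] at h3 h4
    exact ⟨h3, h4⟩

theorem vv_cont (ε : M d) (u : Disp d) : Continuous (vv ε u) := by
  unfold vv mulV
  have := u.smooth.continuous
  fun_prop

theorem mulV_cont (A : M d) : Continuous (mulV A) := by
  unfold mulV
  fun_prop

theorem supp_K0 {D : Dat d} {K : ℝ} (hP : D.Prof K) {L : ℕ} {k : Fin d}
    {j : Fin D.J}
    (hS : ∀ x : V d, D.P k j (D.xs L k x) ≠ 0 → pd (x k) ≤ 5 * D.h →
      (∀ i, i ≠ k → 6 * D.w ≤ pd (x i)) ∧ (pd (x k) < D.h → D.pat k j x))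
    {x : V d} (hx : x ∈ win k) (hk : D.h < |x k|) (hf : ff D L k j x ≠ 0) : x ∈ D.K0 := by
  obtain ⟨hh, hh2, hb, hb2, hhw, hw⟩ := h_bd D
  obtain ⟨⟨h1, h2⟩, h3⟩ := mem_win hx
  have hP0 : D.P k j (D.xs L k x) ≠ 0 := by
    intro h; apply hf; unfold ff; rw [h, mul_zero]
  have hm0 : deriv (deriv D.mu) (x k) ≠ 0 := by
    intro h; apply hf; unfold ff; rw [h, zero_mul]
  have h4 : ¬ (5 * D.h < x k ∨ x k < 0) := fun h => hm0 (mu2_zero hP _ h1 h2 hk h)
  push Not at h4
  obtain ⟨h5, h6⟩ := h4
  rw [abs_of_nonneg h6] at hk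
  have hr : round (x k) = 0 := by
    rw [round_eq_zero_iff]
    constructor <;> linarith
  have hpd : pd (x k) ≤ 5 * D.h := by
    unfold pd
    rw [hr]
    simp only [Int.cast_zero, sub_zero]
    rwa [abs_of_nonneg h6]
  have h7 := (hS x hP0 hpd).1
  have hle : ∀ i, i ≠ k → D.h ≤ x i ∧ x i ≤ 1 - D.h := by
    intro i hi
    have h8 := h7 i hi
    obtain ⟨h9, h10⟩ := h3 i hi
    have h11 : pd (x i) ≤ |x i - ((0 : ℤ) : ℝ)| := round_le (x i) 0
    have h12 : pd (x i) ≤ |x i - ((1 : ℤ) : ℝ)| := round_le (x i) 1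
    simp only [Int.cast_zero, sub_zero] at h11
    simp only [Int.cast_one] at h12
    rw [abs_of_nonneg h9] at h11
    rw [abs_of_nonpos (by linarith)] at h12
    constructor <;> linarith
  constructor
  · intro i
    by_cases hi : i = k
    · subst hi; exact hk.le
    · exact (hle i hi).1
  · intro i
    by_cases hi : i = k
    · subst hi; simp only; linarith
    · exact (hle i hi).2

theorem K0_sub (D : Dat d) : D.K0 ⊆ cell d := by
  obtain ⟨hh, hh2, _⟩ := h_bd D
  intro x hx
  exact ⟨fun i => by have := hx.1 i; simp only [Pi.zero_apply]; linarith,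
    fun i => by have := hx.2 i; simp only [Pi.one_apply]; simp only at this; linarith⟩

theorem cellvol : volume (cell d) = 1 := by
  unfold cell
  rw [Real.volume_Icc_pi]
  simp

/-- the estimate for one type of line and one layer -/
theorem one {D : Dat d} {K η Mu K1 K2 : ℝ} (hP : D.Prof K) (hL : D.Lin K η) (hMu0 : 0 ≤ Mu)
    (hMu : ∀ t ∈ Set.Icc (-1 : ℝ) 1, ‖deriv (deriv D.mu) t‖ ≤ Mu) (hK : 0 ≤ K) (hK1 : 0 ≤ K1)
    (hWin : StmtWin d) {L : ℕ} {k : Fin d} {j : Fin D.J}
    (hS : ∀ x : V d, D.P k j (D.xs L k x) ≠ 0 → pd (x k) ≤ 5 * D.h →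
      (∀ i, i ≠ k → 6 * D.w ≤ pd (x i)) ∧ (pd (x k) < D.h → D.pat k j x))
    (hM1 : ∀ (a : ℝ) (o : V d), o (D.l k) = 0 →
      ∫ x in win k, deriv (deriv D.mu) (x k) * D.P k j (D.xs L k x) * (a + dot o x) = 0)
    (hM2 : ∫ x in win k ∩ {x | |x k| ≤ D.h}, deriv (deriv D.mu) (x k) * D.P k j (D.xs L k x) = 1)
    {e : ℝ} (he : 0 ≤ e) (ε : M d) (u : Disp d) (a : V d) (Om : M d) (V₀ : ℝ)
    (hsk : ∀ i j, Om i j = - Om j i)
    (hR : ∫ x in D.K0, dot (vv ε u x - a - mulV Om x) (vv ε u x - a - mulV Om x) ≤ K1 * e)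
    (hT : |∫ x in win k ∩ {x | |x k| ≤ D.h}, deriv (deriv D.mu) (x k) * D.P k j (D.xs L k x) *
      (vv ε u x (D.l k) - (a + V₀ • zv D.q0) (D.l k) - mulV Om x (D.l k))| ≤
      K2 * (Real.sqrt e + Real.sqrt (K1 * e))) :
    |(∫ x in cell d, ff D L k j x * u.u x (D.l k)) - V₀ * D.q0 (D.l k)| ≤
      (Mu * K * Real.sqrt K1 + K2 * (1 + Real.sqrt K1)) * Real.sqrt e +
        Mu * K * d * Real.sqrt (nsq ε) := by
  set l := D.l k with hl
  set f := ff D L k j with hf
  have hfc : Continuous f := ff_cont hP hL L k j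
  have hMK : 0 ≤ Mu * K := mul_nonneg hMu0 hK
  have hvc := vv_cont ε u
  have hOc := mulV_cont Om
  have hcomp : IsCompact (win k : Set (V d)) := isCompact_Icc
  have hwm : MeasurableSet (win k : Set (V d)) := measurableSet_Icc
  have hint : ∀ g : V d → ℝ, Continuous g → IntegrableOn g (win k) :=
    fun g hg => hg.continuousOn.integrableOn_compact hcomp
  set t : Set (V d) := {x | |x k| ≤ D.h} with ht
  have htm : MeasurableSet t := by
    have : Continuous fun x : V d => |x k| := (continuous_apply k).abs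
    exact measurableSet_le this.measurable measurable_const
  -- step 1
  have h1 : ∫ x in cell d, f x * u.u x l = ∫ x in win k, f x * u.u x l := by
    refine (hWin (fun x => f x * u.u x l) ?_ k).symm
    intro x i
    simp only [hf]
    rw [ff_per hP hL L k j x i, u.per x i]
  have hvl : Continuous fun x => vv ε u x l := (continuous_apply l).comp hvc
  have hOl : Continuous fun x => mulV Om x l := (continuous_apply l).comp hOc
  have hεl : Continuous fun x => mulV (symm ε) x l := (continuous_apply l).comp (mulV_cont _)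
  have h2 : ∫ x in win k, f x * u.u x l =
      (∫ x in win k, f x * vv ε u x l) - ∫ x in win k, f x * mulV (symm ε) x l := by
    have c1 : Continuous fun x => f x * vv ε u x l := hfc.mul hvl
    have c2 : Continuous fun x => f x * mulV (symm ε) x l := hfc.mul hεl
    rw [← integral_sub (hint _ c1) (hint _ c2)]
    refine integral_congr_ae (Eventually.of_forall fun x => ?_)
    simp only [vv, Pi.add_apply]
    ring
  -- the term with `ε`
  have hvolw : (volume (win k : Set (V d))).toReal = 1 := by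
    have h3 := hWin (fun _ => 1) (fun _ _ => rfl) k
    simp only [integral_const, smul_eq_mul, mul_one, Measure.real, Measure.restrict_apply_univ,
      cellvol] at h3
    simpa using h3
  have h3 : |∫ x in win k, f x * mulV (symm ε) x l| ≤ Mu * K * d * Real.sqrt (nsq ε) := by
    have h4 : ∀ x ∈ (win k : Set (V d)), ‖f x * mulV (symm ε) x l‖ ≤
        Mu * K * d * Real.sqrt (nsq ε) := by
      intro x hx
      obtain ⟨⟨h5, h6⟩, h7⟩ := mem_win hx
      rw [Real.norm_eq_abs, abs_mul]
      have h8 := ff_bd hL hMu L k j x h5 h6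
      have h9 : |mulV (symm ε) x l| ≤ d * Real.sqrt (nsq ε) := by
        unfold mulV
        refine (Finset.abs_sum_le_sum_abs _ _).trans ?_
        have h10 : ∀ i ∈ Finset.univ, |symm ε l i * x i| ≤ Real.sqrt (nsq ε) := by
          intro i _
          rw [abs_mul]
          have h11 : |x i| ≤ 1 := by
            by_cases hi : i = k
            · subst hi; rw [abs_le]; constructor <;> linarith
            · have := h7 i hi
              rw [abs_le]; constructor <;> linarith
          have h12 : |symm ε l i| ≤ Real.sqrt (nsq ε) := by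
            rw [← Real.sqrt_sq_eq_abs]
            exact Real.sqrt_le_sqrt (entry_sq_le (symm ε) l i)
          calc |symm ε l i| * |x i| ≤ Real.sqrt (nsq ε) * 1 :=
                mul_le_mul h12 h11 (abs_nonneg _) (Real.sqrt_nonneg _)
            _ = _ := mul_one _
        refine (Finset.sum_le_sum h10).trans ?_
        simp
      calc |f x| * |mulV (symm ε) x l| ≤ (Mu * K) * (d * Real.sqrt (nsq ε)) :=
            mul_le_mul h8 h9 (abs_nonneg _) hMK
        _ = _ := by ring
    have h5 := norm_setIntegral_le_of_norm_le_const (μ := volume)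
      (hcomp.measure_lt_top (μ := volume)) h4
    rw [Measure.real, hvolw, mul_one, Real.norm_eq_abs] at h5
    exact h5
  -- splitting
  have hdiff : ∀ g : V d → ℝ, Continuous g →
      (∫ x in win k ∩ t, g x) + (∫ x in win k \ t, g x) = ∫ x in win k, g x :=
    fun g hg => integral_inter_add_sdiff htm (hint g hg)
  have h4 := hdiff (fun x => f x * vv ε u x l) (hfc.mul hvl)
  have hintI : ∀ g : V d → ℝ, Continuous g → IntegrableOn g (win k ∩ t) :=
    fun g hg => (hint g hg).mono_set Set.inter_subset_left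
  have hintD : ∀ g : V d → ℝ, Continuous g → IntegrableOn g (win k \ t) :=
    fun g hg => (hint g hg).mono_set Set.diff_subset
  set A : V d → ℝ := fun x => a l + mulV Om x l with hA
  have hAc : Continuous A := continuous_const.add hOl
  -- inside
  have h5 : ∫ x in win k ∩ t, f x * vv ε u x l =
      (∫ x in win k ∩ t, f x * (vv ε u x l - (a + V₀ • zv D.q0) l - mulV Om x l)) +
      (∫ x in win k ∩ t, f x * A x) + V₀ * D.q0 l := by
    have e1 : ∫ x in win k ∩ t, f x * (V₀ * D.q0 l) = V₀ * D.q0 l := by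
      rw [integral_mul_const]
      have : ∫ x in win k ∩ t, f x = 1 := hM2
      rw [this, one_mul]
    conv_rhs => rw [← e1]
    have c1 : Continuous fun x => f x * (vv ε u x l - (a + V₀ • zv D.q0) l - mulV Om x l) :=
      hfc.mul ((hvl.sub continuous_const).sub hOl)
    have c2 : Continuous fun x => f x * A x := hfc.mul hAc
    have c3 : Continuous fun x => f x * (V₀ * D.q0 l) := hfc.mul continuous_const
    have c12 : Continuous fun x => f x * (vv ε u x l - (a + V₀ • zv D.q0) l - mulV Om x l) +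
        f x * A x := c1.add c2
    rw [← integral_add (hintI _ c1) (hintI _ c2), ← integral_add (hintI _ c12) (hintI _ c3)]
    refine integral_congr_ae (Eventually.of_forall fun x => ?_)
    simp only [hA, Pi.add_apply, Pi.smul_apply, smul_eq_mul, zv]
    ring
  -- outside
  set g : V d → ℝ := fun x => (vv ε u x - a - mulV Om x) l with hg
  have hgc : Continuous g :=
    (continuous_apply l).comp ((hvc.sub continuous_const).sub hOc)
  have h6 : ∫ x in win k \ t, f x * vv ε u x l =
      (∫ x in win k \ t, f x * g x) + (∫ x in win k \ t, f x * A x) := by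
    have c1 : Continuous fun x => f x * g x := hfc.mul hgc
    have c2 : Continuous fun x => f x * A x := hfc.mul hAc
    rw [← integral_add (hintD _ c1) (hintD _ c2)]
    refine integral_congr_ae (Eventually.of_forall fun x => ?_)
    simp only [hA, hg, Pi.sub_apply]
    ring
  have h7 : (∫ x in win k ∩ t, f x * A x) + (∫ x in win k \ t, f x * A x) = 0 := by
    rw [hdiff (fun x => f x * A x) (hfc.mul hAc)]
    have h8 := hM1 (a l) (Om l) (by
      have := hsk l l
      linarith)
    exact h8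
  have hK0m : MeasurableSet D.K0 := measurableSet_Icc
  have hK0c : IsCompact D.K0 := isCompact_Icc
  have h8 : |∫ x in win k \ t, f x * g x| ≤ Mu * K * ∫ x in D.K0, |g x| := by
    have e1 : ∫ x in win k \ t, f x * g x = ∫ x, (win k \ t).indicator (fun x => f x * g x) x :=
      (integral_indicator (hwm.diff htm)).symm
    have e2 : Mu * K * ∫ x in D.K0, |g x| = ∫ x, D.K0.indicator (fun x => Mu * K * |g x|) x := by
      rw [integral_indicator hK0m, integral_const_mul]
    rw [e1, e2]
    refine abs_integral_le_integral_abs.trans ?_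
    refine integral_mono ?_ ?_ ?_
    · exact ((integrable_indicator_iff (hwm.diff htm)).2 (hintD _ (hfc.mul hgc))).abs
    · refine (integrable_indicator_iff hK0m).2 ?_
      exact (hgc.abs.const_mul (Mu * K)).continuousOn.integrableOn_compact hK0c
    · intro x
      simp only
      by_cases hx : x ∈ win k \ t
      · rw [Set.indicator_of_mem hx]
        by_cases hfx : f x = 0
        · rw [hfx, zero_mul, abs_zero]
          exact Set.indicator_nonneg (fun y _ => mul_nonneg hMK (abs_nonneg _)) x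
        · have hx2 : D.h < |x k| := by
            have := hx.2
            simp only [ht, Set.mem_setOf_eq, not_le] at this
            exact this
          have hK0 := supp_K0 hP hS hx.1 hx2 hfx
          rw [Set.indicator_of_mem hK0, abs_mul]
          obtain ⟨⟨h9, h10⟩, _⟩ := mem_win hx.1
          exact mul_le_mul_of_nonneg_right (ff_bd hL hMu L k j x h9 h10) (abs_nonneg _)
      · rw [Set.indicator_of_notMem hx, abs_zero]
        exact Set.indicator_nonneg (fun y _ => mul_nonneg hMK (abs_nonneg _)) x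
  have h9 : ∫ x in D.K0, |g x| ≤ Real.sqrt K1 * Real.sqrt e := by
    have i1 : IntegrableOn (fun x => |g x|) D.K0 := hgc.abs.continuousOn.integrableOn_compact hK0c
    have i2 : IntegrableOn (fun x => |g x| ^ 2) D.K0 :=
      (hgc.abs.pow 2).continuousOn.integrableOn_compact hK0c
    have h10 := cs_one hK0c.measure_lt_top.ne i1 i2
    have h11 : (volume D.K0).toReal ≤ 1 := by
      have h12 : volume D.K0 ≤ 1 := by
        rw [← cellvol (d := d)]
        exact measure_mono (K0_sub D)
      calc (volume D.K0).toReal ≤ (1 : ENNReal).toReal := ENNReal.toReal_mono (by simp) h12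
        _ = 1 := by simp
    have h12 : ∫ x in D.K0, |g x| ^ 2 ≤ K1 * e := by
      refine le_trans ?_ hR
      have c1 : Continuous fun x => dot (vv ε u x - a - mulV Om x) (vv ε u x - a - mulV Om x) := by
        have : Continuous fun x => vv ε u x - a - mulV Om x := (hvc.sub continuous_const).sub hOc
        unfold dot
        exact continuous_finsetSum _ fun i _ =>
          ((continuous_apply i).comp this).mul ((continuous_apply i).comp this)
      refine integral_mono i2 (c1.continuousOn.integrableOn_compact hK0c) fun x => ?_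
      simp only [hg, sq_abs]
      unfold dot
      rw [sq]
      exact Finset.single_le_sum (f := fun i => (vv ε u x - a - mulV Om x) i *
        (vv ε u x - a - mulV Om x) i) (fun i _ => mul_self_nonneg _) (Finset.mem_univ l)
    have h13 : 0 ≤ ∫ x in D.K0, |g x| ^ 2 := integral_nonneg fun x => by positivity
    have h14 : (∫ x in D.K0, |g x|) ^ 2 ≤ K1 * e := by
      calc (∫ x in D.K0, |g x|) ^ 2 ≤ (volume D.K0).toReal * ∫ x in D.K0, |g x| ^ 2 := h10
        _ ≤ 1 * (K1 * e) := mul_le_mul h11 h12 h13 (by norm_num)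
        _ = _ := one_mul _
    rw [← Real.sqrt_mul hK1]
    exact Real.le_sqrt_of_sq_le h14
  -- conclusion
  have h10 : (∫ x in cell d, f x * u.u x l) - V₀ * D.q0 l =
      (∫ x in win k ∩ t, f x * (vv ε u x l - (a + V₀ • zv D.q0) l - mulV Om x l)) +
      (∫ x in win k \ t, f x * g x) - ∫ x in win k, f x * mulV (symm ε) x l := by
    rw [h1, h2, ← h4, h5, h6]
    linarith
  rw [h10]
  have h11 : |∫ x in win k ∩ t, f x * (vv ε u x l - (a + V₀ • zv D.q0) l - mulV Om x l)| ≤
      K2 * (Real.sqrt e + Real.sqrt K1 * Real.sqrt e) := by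
    rw [← Real.sqrt_mul hK1]
    exact hT
  have h12 : |∫ x in win k \ t, f x * g x| ≤ Mu * K * (Real.sqrt K1 * Real.sqrt e) :=
    h8.trans (mul_le_mul_of_nonneg_left h9 hMK)
  calc _ ≤ |∫ x in win k ∩ t, f x * (vv ε u x l - (a + V₀ • zv D.q0) l - mulV Om x l)| +
        |∫ x in win k \ t, f x * g x| + |∫ x in win k, f x * mulV (symm ε) x l| := by
        refine (abs_sub _ _).trans ?_
        gcongr
        exact abs_add_le _ _
    _ ≤ _ := by
        nlinarith

end CrAux

open CrAux in
theorem crude_ok (d : ℕ) (hE : BaseE d) (hWin : StmtWin d) (hSupp : StmtSupp d) (hMom : StmtMom d)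
    (hRel : StmtRel d) (hTran : StmtTran d) : StmtCrude d := by
  intro D K η hP hL α β hα
  obtain ⟨K1, hK1, hRel⟩ := hRel D α β hα
  obtain ⟨K2, L2, hK2, hTran⟩ := hTran D K η hP hL α β hα
  obtain ⟨L3, hSupp⟩ := hSupp D K η hP hL
  obtain ⟨L4, hMom⟩ := hMom D K η hP hL
  obtain ⟨Mu, hMu⟩ := (isCompact_Icc (a := (-1 : ℝ)) (b := 1)).exists_bound_of_continuousOn
    (mu2_cont hP).continuousOn
  have hMu0 : 0 ≤ Mu := (norm_nonneg _).trans (hMu 0 ⟨by norm_num, by norm_num⟩)
  set κ := (|Mu * K| * Real.sqrt K1 + K2 * (1 + Real.sqrt K1)) + |Mu * K| * d with hκ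
  have hκ0 : 0 ≤ κ := by positivity
  refine ⟨(∑ k, |(D.kk k : ℝ)|) * 9 * κ, max L2 (max L3 L4), by positivity, ?_⟩
  intro L hLL hL0 C F Ls T hC hF hLs hG hT σ hσ ε u
  have hL2 : L2 ≤ L := le_trans (le_max_left _ _) hLL
  have hL3 : L3 ≤ L := le_trans (le_trans (le_max_left _ _) (le_max_right _ _)) hLL
  have hL4 : L4 ≤ L := le_trans (le_trans (le_max_right _ _) (le_max_right _ _)) hLL
  obtain ⟨a, Om, V₀, hsk, hR, hFk⟩ := hRel L C F Ls T hC hLs hG hT ε u
  set e := energy T ε u with he
  have he0 : 0 ≤ e := hE.nonneg T β hT ε u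
  have hLr : (0 : ℝ) < L := by exact_mod_cast hL0
  have hone : ∀ k (j : Fin D.J),
      |(∫ x in cell d, ff D L k j x * u.u x (D.l k)) - V₀ * D.q0 (D.l k)| ≤
        κ * (Real.sqrt e + Real.sqrt (nsq ε)) := by
    intro k j
    have hK : 0 ≤ K := (hL.P_rng k j 0).1.trans (hL.P_rng k j 0).2
    have hX := hTran L hL2 hL0 C F Ls T hC hF hG hT ε u k j (a + V₀ • zv D.q0) Om (K1 * e) hsk (by
      have := hFk k
      simp only [← sub_sub] at this ⊢
      exact this)
    obtain ⟨hM1, hM2⟩ := hMom L hL4 hL0 k j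
    have h1 := one hP hL hMu0 hMu hK hK1 hWin (hSupp L hL3 hL0 k j) hM1 hM2 he0 ε u a Om V₀ hsk hR
      hX
    refine h1.trans ?_
    have hMK : |Mu * K| = Mu * K := abs_of_nonneg (mul_nonneg hMu0 hK)
    rw [hκ, hMK]
    have s1 := Real.sqrt_nonneg e
    have s2 := Real.sqrt_nonneg (nsq ε)
    have s3 := Real.sqrt_nonneg K1
    have hMK0 := mul_nonneg hMu0 hK
    have p1 : 0 ≤ (Mu * K * Real.sqrt K1 + K2 * (1 + Real.sqrt K1)) * Real.sqrt (nsq ε) := by
      positivity
    have p2 : 0 ≤ Mu * K * d * Real.sqrt e := by positivity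
    nlinarith
  have hbf : ∀ k (j : Fin D.J), ∫ x in cell d, D.bf L k j x * u.u x (D.l k) =
      (D.kk k : ℝ) / L * (D.u j k : ℝ) ^ 2 * ∫ x in cell d, ff D L k j x * u.u x (D.l k) := by
    intro k j
    rw [← integral_const_mul]
    refine integral_congr_ae (Eventually.of_forall fun x => ?_)
    simp only [Dat.bf, ff]
    ring
  have hsum : ∑ k, ∑ j, σ j * ∫ x in cell d, (D.bf L k j x) * u.u x (D.l k) =
      ∑ k, ∑ j, σ j * ((D.kk k : ℝ) / L * (D.u j k : ℝ) ^ 2 *
        ((∫ x in cell d, ff D L k j x * u.u x (D.l k)) - V₀ * D.q0 (D.l k))) := by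
    have h1 : ∑ k, ∑ j, σ j * ((D.kk k : ℝ) / L * (D.u j k : ℝ) ^ 2 * (V₀ * D.q0 (D.l k))) = 0 := by
      have h2 : ∑ k, ∑ j, σ j * ((D.kk k : ℝ) / L * (D.u j k : ℝ) ^ 2 * (V₀ * D.q0 (D.l k))) =
          V₀ / L * ∑ k, D.E k * ∑ j, σ j * (D.u j k : ℝ) ^ 2 := by
        rw [Finset.mul_sum]
        refine Finset.sum_congr rfl fun k _ => ?_
        rw [Finset.mul_sum, Finset.mul_sum]
        refine Finset.sum_congr rfl fun j _ => ?_
        unfold Comb.E
        ring
      rw [h2, hσ, mul_zero]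
    rw [← sub_zero (∑ k, ∑ j, σ j * ∫ x in cell d, (D.bf L k j x) * u.u x (D.l k)), ← h1,
      ← Finset.sum_sub_distrib]
    refine Finset.sum_congr rfl fun k _ => ?_
    rw [← Finset.sum_sub_distrib]
    refine Finset.sum_congr rfl fun j _ => ?_
    rw [hbf]
    ring
  rw [hsum]
  set R := Real.sqrt e + Real.sqrt (nsq ε) with hRdef
  have hR0 : 0 ≤ R := by positivity
  have hterm : ∀ k (j : Fin D.J), |σ j * ((D.kk k : ℝ) / L * (D.u j k : ℝ) ^ 2 *
        ((∫ x in cell d, ff D L k j x * u.u x (D.l k)) - V₀ * D.q0 (D.l k)))| ≤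
      |(D.kk k : ℝ)| * |σ j| * (9 * κ * R / L) := by
    intro k j
    rw [abs_mul, abs_mul, abs_mul, abs_div, abs_of_pos hLr]
    have h1 : |(D.u j k : ℝ) ^ 2| ≤ 9 := by
      obtain ⟨h2, h3⟩ := D.u_rng j k
      have h4 : (1 : ℝ) ≤ D.u j k := by exact_mod_cast h2
      have h5 : (D.u j k : ℝ) ≤ 3 := by exact_mod_cast h3
      rw [abs_of_nonneg (sq_nonneg _)]
      nlinarith
    have h2 := hone k j
    calc |σ j| * (|(D.kk k : ℝ)| / L * |(D.u j k : ℝ) ^ 2| *
          |(∫ x in cell d, ff D L k j x * u.u x (D.l k)) - V₀ * D.q0 (D.l k)|)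
        ≤ |σ j| * (|(D.kk k : ℝ)| / L * 9 * (κ * R)) := by
          gcongr
      _ = _ := by ring
  calc _ ≤ ∑ k, ∑ j, |σ j * ((D.kk k : ℝ) / L * (D.u j k : ℝ) ^ 2 *
        ((∫ x in cell d, ff D L k j x * u.u x (D.l k)) - V₀ * D.q0 (D.l k)))| := by
        refine (Finset.abs_sum_le_sum_abs _ _).trans (Finset.sum_le_sum fun k _ => ?_)
        exact Finset.abs_sum_le_sum_abs _ _
    _ ≤ ∑ k, ∑ j, |(D.kk k : ℝ)| * |σ j| * (9 * κ * R / L) :=
        Finset.sum_le_sum fun k _ => Finset.sum_le_sum fun j _ => hterm k j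
    _ = (∑ k, |(D.kk k : ℝ)|) * 9 * κ / L * (∑ j, |σ j|) * R := by
        simp only [← Finset.sum_mul, ← Finset.mul_sum]
        ring
    _ = _ := by rw [hRdef]

end Pool.Agent.Lib.MP_5df1bf_an
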