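import Pool.Agent.Lib.MP_5df1bf_an.Stmts2

/-!
# MP_5df1bf_an, B6: existence of the data of the gadget (module G-B6)
-/

open MeasureTheory Filter Topology
open scoped BigOperators ContDiff

noncomputable section

namespace Pool.Agent.Lib.MP_5df1bf_an

namespace DatOk

/-! ### periodisation -/

/-- periodisation of a function supported in `(-1/2, 1/2)` -/
def perz (F : ℝ → ℝ) (t : ℝ) : ℝ := F (t - round t)

lemma perz_per (F : ℝ → ℝ) (t : ℝ) : perz F (t + 1) = perz F t := by
  unfold perz
  rw [round_add_one]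
  congr 1
  push_cast
  ring

lemma perz_add_int (F : ℝ → ℝ) (t : ℝ) (n : ℤ) : perz F (t + n) = perz F t := by
  unfold perz
  rw [round_add_intCast]
  congr 1
  push_cast
  ring

lemma round_eq_of {t : ℝ} {n : ℤ} (h : |t - n| < 1 / 2) : round t = n := by
  have h1 : round (t - n) = 0 := by
    rw [round_eq_zero_iff]
    rw [abs_lt] at h
    exact ⟨h.1.le, h.2⟩
  rw [round_sub_intCast] at h1
  omega

lemma perz_eq (F : ℝ → ℝ) {t : ℝ} {n : ℤ} (h : |t - n| < 1 / 2) : perz F t = F (t - n) := by
  unfold perz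
  rw [round_eq_of h]

lemma perz_eq0 (F : ℝ → ℝ) {t : ℝ} (h : |t| < 1 / 2) : perz F t = F t := by
  have := perz_eq F (t := t) (n := 0) (by simpa using h)
  simpa using this

/-- near `t`, the periodisation is a translate of `F` or `0` -/
lemma perz_loc {F : ℝ → ℝ} {c : ℝ} (hc : c < 1 / 2) (hF : ∀ x, c ≤ |x| → F x = 0) (t : ℝ) :
    (|t - round t| < 1 / 2 ∧ perz F =ᶠ[𝓝 t] fun s : ℝ => F (s - (round t : ℝ))) ∨
      (1 / 2 ≤ |t - round t| ∧ perz F =ᶠ[𝓝 t] fun _ => 0) := by
  rcases lt_or_ge |t - round t| (1 / 2) with h | h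
  · left
    refine ⟨h, ?_⟩
    have hc1 : Continuous fun s : ℝ => |s - round t| := by fun_prop
    have : ∀ᶠ s : ℝ in 𝓝 t, |s - (round t : ℝ)| < 1 / 2 := hc1.continuousAt.eventually_lt_const h
    filter_upwards [this] with s hs
    exact perz_eq F hs
  · right
    refine ⟨h, ?_⟩
    have hc1 : Continuous fun s : ℝ => |s - t| := by fun_prop
    have : ∀ᶠ s in 𝓝 t, |s - t| < 1 / 2 - c := by
      refine hc1.continuousAt.eventually_lt_const ?_
      simp only [sub_self, abs_zero]
      linarith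
    filter_upwards [this] with s hs
    unfold perz
    refine hF _ ?_
    have h1 : |t - round t| ≤ |t - round s| := round_le t (round s)
    have h2 : |t - round s| ≤ |s - round s| + |s - t| := by
      have : t - round s = (s - round s) - (s - t) := by ring
      rw [this]
      exact abs_sub _ _
    linarith

lemma perz_contDiff {F : ℝ → ℝ} {c : ℝ} (hc : c < 1 / 2) (hF : ∀ x, c ≤ |x| → F x = 0)
    (hs : ContDiff ℝ ∞ F) : ContDiff ℝ ∞ (perz F) := by
  rw [contDiff_iff_contDiffAt]
  intro t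
  rcases perz_loc hc hF t with ⟨-, h⟩ | ⟨-, h⟩
  · exact ((hs.comp (contDiff_id.sub contDiff_const)).contDiffAt).congr_of_eventuallyEq h
  · exact contDiffAt_const.congr_of_eventuallyEq h

lemma deriv_zero_of {F : ℝ → ℝ} {c : ℝ} (hF : ∀ x, c ≤ |x| → F x = 0) {x : ℝ} (hx : c < |x|) :
    deriv F x = 0 := by
  have : F =ᶠ[𝓝 x] fun _ => 0 := by
    have hc1 : Continuous fun s : ℝ => |s| := by fun_prop
    filter_upwards [hc1.continuousAt.eventually_const_lt hx] with s hs
    exact hF s hs.le
  rw [this.deriv_eq]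
  simp

lemma perz_deriv {F : ℝ → ℝ} {c : ℝ} (hc : c < 1 / 2) (hF : ∀ x, c ≤ |x| → F x = 0) :
    deriv (perz F) = perz (deriv F) := by
  funext t
  rcases perz_loc hc hF t with ⟨-, h⟩ | ⟨h0, h⟩
  · rw [h.deriv_eq, deriv_comp_sub_const]
    rfl
  · rw [h.deriv_eq]
    unfold perz
    rw [deriv_zero_of hF (hc.trans_le h0)]
    simp

lemma perz_bd {F : ℝ → ℝ} {K : ℝ} (h : ∀ x, |F x| ≤ K) (t : ℝ) : |perz F t| ≤ K := h _

/-! ### cut-off functions -/

/-- cut-off: `1` for `|y| ≤ s₁`, `0` for `|y| ≥ s₂` -/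
def ccg (s₁ s₂ y : ℝ) : ℝ :=
  Real.smoothTransition ((s₂ - y) / (s₂ - s₁)) * Real.smoothTransition ((s₂ + y) / (s₂ - s₁))

lemma ccg_contDiff (s₁ s₂ : ℝ) : ContDiff ℝ ∞ (ccg s₁ s₂) := by
  unfold ccg
  refine ContDiff.mul ?_ ?_
  · exact Real.smoothTransition.contDiff.comp ((contDiff_const.sub contDiff_id).div_const _)
  · exact Real.smoothTransition.contDiff.comp ((contDiff_const.add contDiff_id).div_const _)

lemma ccg_one {s₁ s₂ y : ℝ} (h : s₁ < s₂) (hy : |y| ≤ s₁) : ccg s₁ s₂ y = 1 := by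
  unfold ccg
  rw [abs_le] at hy
  rw [Real.smoothTransition.one_of_one_le, Real.smoothTransition.one_of_one_le, one_mul]
  · rw [le_div_iff₀ (by linarith)]; linarith
  · rw [le_div_iff₀ (by linarith)]; linarith

lemma ccg_zero {s₁ s₂ y : ℝ} (h : s₁ < s₂) (hy : s₂ ≤ |y|) : ccg s₁ s₂ y = 0 := by
  unfold ccg
  rcases le_abs.1 hy with h1 | h1
  · rw [Real.smoothTransition.zero_of_nonpos, zero_mul]
    exact div_nonpos_of_nonpos_of_nonneg (by linarith) (by linarith)
  · rw [mul_comm, Real.smoothTransition.zero_of_nonpos, zero_mul]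
    exact div_nonpos_of_nonpos_of_nonneg (by linarith) (by linarith)

lemma ccg_rng (s₁ s₂ y : ℝ) : 0 ≤ ccg s₁ s₂ y ∧ ccg s₁ s₂ y ≤ 1 := by
  unfold ccg
  refine ⟨mul_nonneg (Real.smoothTransition.nonneg _) (Real.smoothTransition.nonneg _), ?_⟩
  exact mul_le_one₀ (Real.smoothTransition.le_one _) (Real.smoothTransition.nonneg _)
    (Real.smoothTransition.le_one _)

/-- the standard cut-off: `1` for `|y| ≤ 1`, `0` for `|y| ≥ 2` -/
def cc : ℝ → ℝ := ccg 1 2

lemma cc_supp : HasCompactSupport cc := by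
  refine HasCompactSupport.intro (isCompact_Icc (a := (-2 : ℝ)) (b := 2)) fun x hx => ?_
  refine ccg_zero (by norm_num) ?_
  rw [Set.mem_Icc, not_and_or, not_le, not_le] at hx
  rcases hx with h | h
  · exact le_abs.2 (Or.inr (by linarith))
  · exact le_abs.2 (Or.inl h.le)

lemma cc_bd : ∃ K : ℝ, 0 ≤ K ∧ (∀ x, |deriv cc x| ≤ K) ∧ ∀ x, |deriv (deriv cc) x| ≤ K := by
  have hs : ContDiff ℝ ∞ cc := ccg_contDiff 1 2
  have hs1 : ContDiff ℝ ∞ (deriv cc) := (contDiff_infty_iff_deriv.1 hs).2
  have hs2 : ContDiff ℝ ∞ (deriv (deriv cc)) := (contDiff_infty_iff_deriv.1 hs1).2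
  obtain ⟨K1, h1⟩ := hs1.continuous.bounded_above_of_compact_support cc_supp.deriv
  obtain ⟨K2, h2⟩ := hs2.continuous.bounded_above_of_compact_support cc_supp.deriv.deriv
  refine ⟨max K1 K2, ?_, fun x => ?_, fun x => ?_⟩
  · exact le_max_of_le_left ((norm_nonneg _).trans (h1 0))
  · exact (h1 x).trans (le_max_left _ _)
  · exact (h2 x).trans (le_max_right _ _)

/-- rescaled cut-off -/
def cs (c : ℝ) (x : ℝ) : ℝ := cc (c * x)

lemma cs_contDiff (c : ℝ) : ContDiff ℝ ∞ (cs c) :=
  (ccg_contDiff 1 2).comp (contDiff_const.mul contDiff_id)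

lemma cs_one {c x : ℝ} (hc : 0 < c) (h : |x| ≤ 1 / c) : cs c x = 1 := by
  refine ccg_one (by norm_num) ?_
  rw [abs_mul, abs_of_pos hc]
  rw [le_div_iff₀ hc] at h
  linarith

lemma cs_zero {c x : ℝ} (hc : 0 < c) (h : 2 / c ≤ |x|) : cs c x = 0 := by
  refine ccg_zero (by norm_num) ?_
  rw [abs_mul, abs_of_pos hc]
  rw [div_le_iff₀ hc] at h
  linarith

lemma cs_rng (c x : ℝ) : 0 ≤ cs c x ∧ cs c x ≤ 1 := ccg_rng _ _ _

lemma cs_deriv (c : ℝ) : deriv (cs c) = fun x => c * deriv cc (c * x) := by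
  funext x
  unfold cs
  have hd : DifferentiableAt ℝ cc (c * x) := ((ccg_contDiff 1 2).differentiable (by simp)) _
  have h := (hd.hasDerivAt).comp x ((hasDerivAt_id x).const_mul c)
  have h' : deriv (fun x => cc (c * x)) x = deriv cc (c * x) * (c * 1) := h.deriv
  rw [h']; ring

lemma cs_deriv2 (c : ℝ) : deriv (deriv (cs c)) = fun x => c ^ 2 * deriv (deriv cc) (c * x) := by
  funext x
  rw [cs_deriv]
  have hs1 : ContDiff ℝ ∞ (deriv cc) := (contDiff_infty_iff_deriv.1 (ccg_contDiff 1 2)).2
  have hd : DifferentiableAt ℝ (deriv cc) (c * x) := (hs1.differentiable (by simp)) _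
  have h := ((hd.hasDerivAt).comp x ((hasDerivAt_id x).const_mul c)).const_mul c
  have h' : deriv (fun x => c * deriv cc (c * x)) x = c * (deriv (deriv cc) (c * x) * (c * 1)) :=
    h.deriv
  rw [h']; ring

/-! ### the staircase -/

/-- the staircase -/
def St (b t : ℝ) : ℝ := round t - Real.smoothTransition (2 - (t - round t) / b)

lemma St_per (b t : ℝ) : St b (t + 1) = St b t + 1 := by
  unfold St
  rw [round_add_one]
  have : t + 1 - ((round t + 1 : ℤ) : ℝ) = t - round t := by push_cast; ring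
  rw [this]
  push_cast
  ring

lemma St_contDiff {b : ℝ} (hb : 0 < b) (hb2 : 2 * b < 1 / 2) : ContDiff ℝ ∞ (St b) := by
  rw [contDiff_iff_contDiffAt]
  intro t
  rcases lt_or_ge |t - round t| (1 / 2) with h | h
  · have hc1 : Continuous fun s : ℝ => |s - round t| := by fun_prop
    have h1 : ∀ᶠ s : ℝ in 𝓝 t, |s - (round t : ℝ)| < 1 / 2 := hc1.continuousAt.eventually_lt_const h
    have h2 : St b =ᶠ[𝓝 t] fun s : ℝ => (round t : ℝ)
        - Real.smoothTransition (2 - (s - (round t : ℝ)) / b) := by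
      filter_upwards [h1] with s hs
      unfold St
      rw [round_eq_of hs]
    refine ContDiffAt.congr_of_eventuallyEq ?_ h2
    refine ContDiff.contDiffAt ?_
    exact contDiff_const.sub (Real.smoothTransition.contDiff.comp
      (contDiff_const.sub ((contDiff_id.sub contDiff_const).div_const _)))
  · -- `t` is a half integer
    have hle : |t - round t| = 1 / 2 := le_antisymm (abs_sub_round t) h
    obtain ⟨m, hm⟩ : ∃ m : ℤ, t = m + 1 / 2 := by
      rcases (abs_eq (by norm_num : (0 : ℝ) ≤ 1 / 2)).1 hle with h1 | h1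
      · exact ⟨round t, by linarith⟩
      · exact ⟨round t - 1, by push_cast; linarith⟩
    have h2 : St b =ᶠ[𝓝 t] fun _ => (m : ℝ) := by
      have hc1 : Continuous fun s : ℝ => |s - t| := by fun_prop
      have h1 : ∀ᶠ s in 𝓝 t, |s - t| < 1 / 2 - 2 * b := by
        refine hc1.continuousAt.eventually_lt_const ?_
        simp only [sub_self, abs_zero]
        linarith
      filter_upwards [h1] with s hs
      rw [hm, abs_lt] at hs
      rcases lt_or_ge s t with h3 | h3
      · have hr : round s = m := by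
          refine round_eq_of ?_
          rw [abs_lt]
          constructor <;> linarith
        unfold St
        rw [hr, Real.smoothTransition.zero_of_nonpos, sub_zero]
        have : 2 ≤ (s - m) / b := by
          rw [le_div_iff₀ hb]; linarith
        linarith
      · have hr : round s = m + 1 := by
          have h4 : round (s - (m + 1 : ℤ)) = 0 := by
            rw [round_eq_zero_iff]
            push_cast
            constructor <;> linarith
          rw [round_sub_intCast] at h4
          omega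
        unfold St
        rw [hr, Real.smoothTransition.one_of_one_le]
        · push_cast; ring
        · have : (s - ((m + 1 : ℤ) : ℝ)) / b ≤ 0 := by
            refine div_nonpos_of_nonpos_of_nonneg ?_ hb.le
            push_cast; linarith
          linarith
    exact contDiffAt_const.congr_of_eventuallyEq h2

lemma St_pos {b : ℝ} (hb : 0 < b) (hb2 : 2 * b < 1 / 2) {t : ℝ} (h0 : 0 ≤ t) (h1 : t ≤ 1 / 2) :
    St b t = - perz (cs (1 / b)) t := by
  rcases lt_or_eq_of_le h1 with h | h
  · have hr : round t = 0 := round_eq_of (by simp [abs_of_nonneg h0]; linarith)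
    rw [perz_eq0 _ (by rw [abs_of_nonneg h0]; exact h)]
    unfold St cs cc ccg
    rw [hr]
    have e1 : (2 - 1 / b * t) / (2 - 1) = 2 - (t - ((0 : ℤ) : ℝ)) / b := by
      push_cast
      field_simp
      ring
    rw [e1, Real.smoothTransition.one_of_one_le (x := (2 + 1 / b * t) / (2 - 1))]
    · push_cast; ring
    · have : 0 ≤ 1 / b * t := by positivity
      rw [le_div_iff₀ (by norm_num)]; linarith
  · subst h
    have hr : round (1 / 2 : ℝ) = 1 := by
      have h4 : round ((1 / 2 : ℝ) - (1 : ℤ)) = 0 := by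
        rw [round_eq_zero_iff]
        push_cast
        constructor <;> linarith
      rw [round_sub_intCast] at h4
      omega
    unfold St perz
    rw [hr, cs_zero (by positivity)]
    · rw [Real.smoothTransition.one_of_one_le]
      · simp
      · have : ((1 / 2 : ℝ) - ((1 : ℤ) : ℝ)) / b ≤ 0 :=
          div_nonpos_of_nonpos_of_nonneg (by push_cast; linarith) hb.le
        linarith
    · push_cast
      rw [show (1 / 2 - 1 : ℝ) = -(1 / 2) by norm_num, abs_neg, abs_of_pos (by norm_num)]
      rw [div_div_eq_mul_div, div_one]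
      linarith

lemma St_neg {b : ℝ} (hb : 0 < b) {t : ℝ} (h0 : -(1 / 2) ≤ t) (h1 : t ≤ 0) :
    St b t = -1 := by
  have hr : round t = 0 := by
    rw [round_eq_zero_iff]
    constructor <;> linarith
  unfold St
  rw [hr, Real.smoothTransition.one_of_one_le]
  · simp
  · have : (t - ((0 : ℤ) : ℝ)) / b ≤ 0 :=
      div_nonpos_of_nonpos_of_nonneg (by push_cast; linarith) hb.le
    linarith

/-! ### the profile `mu` -/

lemma st_symm (x : ℝ) : Real.smoothTransition (1 - x) = 1 - Real.smoothTransition x := by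
  have hpos := Real.smoothTransition.pos_denom x
  unfold Real.smoothTransition
  rw [show (1 : ℝ) - (1 - x) = x by ring]
  have h2 : expNegInvGlue (1 - x) + expNegInvGlue x ≠ 0 := by
    rw [add_comm]; exact hpos.ne'
  field_simp
  ring

/-- smooth step from `0` (for `x ≤ -b/2`) to `1` (for `x ≥ b/2`) -/
def Hs (b x : ℝ) : ℝ := Real.smoothTransition ((x + b / 2) / b)

lemma Hs_contDiff (b : ℝ) : ContDiff ℝ ∞ (Hs b) :=
  Real.smoothTransition.contDiff.comp ((contDiff_id.add contDiff_const).div_const _)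

lemma Hs_zero {b x : ℝ} (hb : 0 < b) (h : x ≤ -(b / 2)) : Hs b x = 0 :=
  Real.smoothTransition.zero_of_nonpos (div_nonpos_of_nonpos_of_nonneg (by linarith) hb.le)

lemma Hs_one {b x : ℝ} (hb : 0 < b) (h : b / 2 ≤ x) : Hs b x = 1 :=
  Real.smoothTransition.one_of_one_le (by rw [le_div_iff₀ hb]; linarith)

lemma Hs_nonneg (b x : ℝ) : 0 ≤ Hs b x := Real.smoothTransition.nonneg _
lemma Hs_le_one (b x : ℝ) : Hs b x ≤ 1 := Real.smoothTransition.le_one _

lemma Hs_symm {b : ℝ} (hb : 0 < b) (x : ℝ) : Hs b (-x) = 1 - Hs b x := by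
  unfold Hs
  rw [← st_symm]
  congr 1
  field_simp
  ring

lemma Hs_mono {b : ℝ} (hb : 0 < b) : Monotone (Hs b) := by
  intro x y hxy
  unfold Hs
  refine Real.smoothTransition.monotone ?_
  gcongr

/-- primitive of `Hs` -/
def Is (b x : ℝ) : ℝ := ∫ s in (-(b / 2))..x, Hs b s

lemma Hs_ii (b x y : ℝ) : IntervalIntegrable (Hs b) volume x y :=
  (Hs_contDiff b).continuous.intervalIntegrable _ _

lemma Is_deriv (b : ℝ) : deriv (Is b) = Hs b := by
  funext x
  exact (Hs_contDiff b).continuous.deriv_integral _ _ _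

lemma Is_diff (b : ℝ) : Differentiable ℝ (Is b) := by
  intro x
  exact ((Hs_contDiff b).continuous.integral_hasStrictDerivAt _ _).hasDerivAt.differentiableAt

lemma Is_contDiff (b : ℝ) : ContDiff ℝ ∞ (Is b) := by
  rw [contDiff_infty_iff_deriv]
  exact ⟨Is_diff b, by rw [Is_deriv]; exact Hs_contDiff b⟩

lemma Is_zero {b x : ℝ} (hb : 0 < b) (h : x ≤ -(b / 2)) : Is b x = 0 := by
  unfold Is
  rw [intervalIntegral.integral_symm, neg_eq_zero]
  rw [intervalIntegral.integral_congr (g := fun _ => 0)]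
  · simp
  · intro s hs
    rw [Set.uIcc_of_le h] at hs
    exact Hs_zero hb hs.2

lemma Is_half {b : ℝ} (hb : 0 < b) : Is b (b / 2) = b / 2 := by
  have h1 : ∫ s in (-(b / 2))..(b / 2), Hs b (-s) = ∫ s in (-(b / 2))..(b / 2), Hs b s := by
    rw [intervalIntegral.integral_comp_neg]
    simp
  have h2 : ∫ s in (-(b / 2))..(b / 2), Hs b (-s) = b - ∫ s in (-(b / 2))..(b / 2), Hs b s := by
    have : (fun s => Hs b (-s)) = fun s => 1 - Hs b s := by
      funext s; exact Hs_symm hb s
    rw [this, intervalIntegral.integral_sub (by simp) (Hs_ii b _ _)]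
    simp
  unfold Is
  linarith

lemma Is_id {b x : ℝ} (hb : 0 < b) (h : b / 2 ≤ x) : Is b x = x := by
  have h1 : Is b x = Is b (b / 2) + ∫ s in (b / 2)..x, Hs b s := by
    unfold Is
    rw [intervalIntegral.integral_add_adjacent_intervals (Hs_ii b _ _) (Hs_ii b _ _)]
  have h2 : ∫ s in (b / 2)..x, Hs b s = ∫ s in (b / 2)..x, (1 : ℝ) := by
    refine intervalIntegral.integral_congr fun s hs => ?_
    rw [Set.uIcc_of_le h] at hs
    exact Hs_one hb hs.1
  rw [h1, Is_half hb, h2]
  simp

lemma Is_sub (b x y : ℝ) : Is b y - Is b x = ∫ s in x..y, Hs b s := by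
  unfold Is
  rw [sub_eq_iff_eq_add, add_comm]
  rw [intervalIntegral.integral_add_adjacent_intervals (Hs_ii b _ _) (Hs_ii b _ _)]

/-- the profile -/
def Fm (b h x : ℝ) : ℝ := Is b x - 2 * Is b (x - 2 * h) + Is b (x - 4 * h)

lemma Fm_contDiff (b h : ℝ) : ContDiff ℝ ∞ (Fm b h) := by
  unfold Fm
  have h1 := Is_contDiff b
  refine (h1.sub (contDiff_const.mul ?_)).add ?_
  · exact h1.comp (contDiff_id.sub contDiff_const)
  · exact h1.comp (contDiff_id.sub contDiff_const)

lemma Fm_deriv (b h : ℝ) : deriv (Fm b h) =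
    fun x => Hs b x - 2 * Hs b (x - 2 * h) + Hs b (x - 4 * h) := by
  funext x
  have h0 : ∀ y, HasDerivAt (Is b) (Hs b y) y := fun y => by
    have := (Is_diff b y).hasDerivAt
    rwa [Is_deriv] at this
  have h1 : HasDerivAt (fun x => Is b (x - 2 * h)) (Hs b (x - 2 * h)) x :=
    (h0 (x - 2 * h)).comp_sub_const x (2 * h)
  have h2 : HasDerivAt (fun x => Is b (x - 4 * h)) (Hs b (x - 4 * h)) x :=
    (h0 (x - 4 * h)).comp_sub_const x (4 * h)
  exact (((h0 x).sub (h1.const_mul 2)).add h2).deriv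

lemma Fm_zero {b h : ℝ} (hb : 0 < b) (hh : 0 < h) {x : ℝ}
    (hx : x ≤ -(b / 2) ∨ 4 * h + b / 2 ≤ x) : Fm b h x = 0 := by
  unfold Fm
  rcases hx with hx | hx
  · rw [Is_zero hb hx, Is_zero hb (by linarith), Is_zero hb (by linarith)]
    ring
  · rw [Is_id hb (by linarith), Is_id hb (by linarith), Is_id hb (by linarith)]
    ring

lemma Fm_rng {b h : ℝ} (hb : 0 < b) (hh : 0 < h) (x : ℝ) : 0 ≤ Fm b h x ∧ Fm b h x ≤ 4 * h := by
  have e : Fm b h x = (∫ s in (x - 2 * h)..x, Hs b s) - ∫ s in (x - 4 * h)..(x - 2 * h), Hs b s := by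
    rw [← Is_sub, ← Is_sub]; unfold Fm; ring
  have e2 : ∫ s in (x - 4 * h)..(x - 2 * h), Hs b s = ∫ s in (x - 2 * h)..x, Hs b (s - 2 * h) := by
    rw [intervalIntegral.integral_comp_sub_right]
    congr 1
    ring
  have hc : Continuous fun s => Hs b (s - 2 * h) :=
    (Hs_contDiff b).continuous.comp (by fun_prop)
  constructor
  · rw [e, e2, sub_nonneg]
    refine intervalIntegral.integral_mono_on (by linarith) (hc.intervalIntegrable _ _)
      (Hs_ii b _ _) fun s _ => Hs_mono hb (by linarith)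
  · rw [e]
    have h1 : ∫ s in (x - 2 * h)..x, Hs b s ≤ ∫ s in (x - 2 * h)..x, (1 : ℝ) :=
      intervalIntegral.integral_mono_on (by linarith) (Hs_ii b _ _) (by simp)
        fun s _ => Hs_le_one b s
    have h2 : 0 ≤ ∫ s in (x - 4 * h)..(x - 2 * h), Hs b s :=
      intervalIntegral.integral_nonneg (by linarith) fun s _ => Hs_nonneg b s
    simp at h1
    linarith

lemma cs_one' {b x : ℝ} (hb : 0 < b) (h : |x| ≤ b) : cs (1 / b) x = 1 :=
  cs_one (by positivity) (by rw [one_div_one_div]; exact h)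

lemma cs_zero' {b x : ℝ} (hb : 0 < b) (h : 2 * b ≤ |x|) : cs (1 / b) x = 0 :=
  cs_zero (by positivity) (by rw [div_div_eq_mul_div, div_one]; exact h)

lemma cs_der' {b K : ℝ} (hb : 0 < b) (h : ∀ x, |deriv cc x| ≤ K) (x : ℝ) :
    |deriv (cs (1 / b)) x| ≤ K / b := by
  rw [cs_deriv, abs_mul, abs_of_pos (by positivity)]
  calc 1 / b * |deriv cc (1 / b * x)| ≤ 1 / b * K := by gcongr; exact h _
    _ = K / b := by ring

lemma cs_der2' {b K : ℝ} (hb : 0 < b) (h : ∀ x, |deriv (deriv cc) x| ≤ K) (x : ℝ) :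
    |deriv (deriv (cs (1 / b))) x| ≤ K / b ^ 2 := by
  rw [cs_deriv2, abs_mul, abs_of_pos (by positivity)]
  calc (1 / b) ^ 2 * |deriv (deriv cc) (1 / b * x)| ≤ (1 / b) ^ 2 * K := by gcongr; exact h _
    _ = K / b ^ 2 := by ring

lemma abs_Fm' (b h x : ℝ) : |deriv (Fm b h) x| ≤ 2 := by
  rw [Fm_deriv]
  have h1 := Hs_nonneg b x
  have h2 := Hs_nonneg b (x - 2 * h)
  have h3 := Hs_nonneg b (x - 4 * h)
  have h4 := Hs_le_one b x
  have h5 := Hs_le_one b (x - 2 * h)
  have h6 := Hs_le_one b (x - 4 * h)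
  rw [abs_le]
  constructor <;> simp only <;> linarith

lemma dvd_of {N : ℕ} (hN : 6 ∣ N) {a b : ℤ} (hb : 1 ≤ b ∧ b ≤ 3) :
    ∃ z : ℤ, (N : ℝ) * ((a : ℝ) / (b : ℝ)) = z := by
  obtain ⟨m, rfl⟩ := hN
  have h : b = 1 ∨ b = 2 ∨ b = 3 := by omega
  rcases h with rfl | rfl | rfl
  · exact ⟨6 * m * a, by push_cast; ring⟩
  · exact ⟨3 * m * a, by push_cast; ring⟩
  · exact ⟨2 * m * a, by push_cast; ring⟩

end DatOk

open DatOk in
theorem DatOk_ok (d : ℕ) (hI : StmtInterp d) (hL : StmtLines d) : StmtDat d := by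
  intro B
  have hJ : (1 : ℝ) ≤ B.J := by exact_mod_cast B.Jpos
  have hJ0 : (0 : ℝ) < B.J := by linarith
  obtain ⟨K1, hK1, hInt⟩ := hI (1 / (8 * B.J)) (by positivity) (by
    rw [div_lt_iff₀ (by positivity)]; linarith)
  obtain ⟨K2, hK2, hcc1, hcc2⟩ := cc_bd
  refine ⟨2 * K1 + 16 * K2, by positivity, fun η hη N₀ => ?_⟩
  choose ϵ₀ hϵ0 hline using fun j => hL (B.u j) (B.u_rng j) η hη
  choose mj hmj using fun j => exists_nat_ge (30 / ϵ₀ j)
  set M : ℕ := ∑ j, mj j with hM
  set N : ℕ := 6 * (N₀ + M + 1) with hNdef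
  have hNpos : 0 < N := by omega
  have hN6 : (6 : ℝ) ≤ N := by
    have : 6 ≤ N := by omega
    exact_mod_cast this
  have hNr : (0 : ℝ) < N := by linarith
  set w : ℝ := 1 / (N : ℝ) with hw
  have hw0 : 0 < w := by positivity
  have hw6 : w ≤ 1 / 6 := by
    rw [hw]; exact one_div_le_one_div_of_le (by norm_num) hN6
  have hNw : (N : ℝ) * w = 1 := by rw [hw]; field_simp
  have hϵ : ∀ j, 30 * w ≤ ϵ₀ j := by
    intro j
    have h1 : (mj j : ℝ) ≤ N := by
      have h2 : mj j ≤ M := Finset.single_le_sum (fun _ _ => Nat.zero_le _) (Finset.mem_univ j)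
      have : mj j ≤ N := by omega
      exact_mod_cast this
    have h2 := (hmj j).trans h1
    rw [div_le_iff₀ (hϵ0 j)] at h2
    rw [hw, mul_one_div, div_le_iff₀ hNr]
    linarith
  choose r hr_sm hr_per hr_u hr_rng hr_int hr_sq hr_zero using
    fun j => hline j (30 * w) (by positivity) (hϵ j)
  have hukne : ∀ j k, zv (B.u j) k ≠ 0 := by
    intro j k
    have := (B.u_rng j k).1
    unfold zv
    have : (1 : ℝ) ≤ B.u j k := by exact_mod_cast this
    linarith
  have hdvd : 6 ∣ N := ⟨_, rfl⟩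
  choose G P hG_sm hP_sm hG_per hP_per hG_u hP_u hG_bd hG_der hP_rng hP_eq hP_int hG_supp hP_supp
    using fun k j => hInt k (B.l k) (B.l_ne k).symm (zv (B.u j)) (hukne j k) N hNpos
      (dvd_of hdvd (B.u_rng j k)) (((j : ℕ) + 1 / 2) / B.J) 2 (r j) (hr_sm j) (hr_per j) (hr_u j)
      (hr_rng j)
  set h : ℝ := w / (64 * B.J) with hh
  set b : ℝ := h / 64 with hb
  set bF : ℝ := h / 4 with hbF
  have hh0 : 0 < h := by positivity
  have hb0 : 0 < b := by positivity
  have hbF0 : 0 < bF := by positivity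
  have hhw : h ≤ w / 64 := by
    rw [hh]
    apply div_le_div_of_nonneg_left hw0.le (by norm_num)
    linarith
  have hb' : b = h / 64 := rfl
  have hbF' : bF = h / 4 := rfl
  let D : Dat d :=
    { toComb := B
      N := N
      Npos := hNpos
      Ndvd := hdvd
      th := perz (cs (1 / b))
      thF := perz (cs (1 / bF))
      S := St b
      mu := perz (Fm b h)
      psi := perz (cs (1 / (w / 4)))
      ch := fun j t => perz (ccg (1 / (4 * B.J)) (3 / (8 * B.J)))
        ((N : ℝ) * t - (((j : ℕ) + 1 / 2) / B.J))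
      cw := fun t => 1 - perz (cs (1 / (w / 2))) t
      r := r
      G := G
      P := P }
  have hDw : D.w = w := rfl
  have hDh : D.h = h := rfl
  have hDb : D.b = b := rfl
  have hDbF : D.bF = bF := rfl
  have hDa : D.a = w / (4 * B.J) := rfl
  have hch : ∀ (j : Fin D.J) (t : ℝ), D.ch j t = perz (ccg (1 / (4 * B.J)) (3 / (8 * B.J)))
      ((N : ℝ) * t - ((((j : ℕ) : ℝ) + 1 / 2) / B.J)) := fun j t => rfl
  refine ⟨D, rfl, ?_, ?_, ?_⟩
  · show N₀ ≤ N
    omega
  · -- the profiles
    have zth : ∀ x, 2 * b ≤ |x| → cs (1 / b) x = 0 := fun x hx => cs_zero' hb0 hx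
    have zthF : ∀ x, 2 * bF ≤ |x| → cs (1 / bF) x = 0 := fun x hx => cs_zero' hbF0 hx
    have zpsi : ∀ x, 2 * (w / 4) ≤ |x| → cs (1 / (w / 4)) x = 0 :=
      fun x hx => cs_zero' (by positivity) hx
    have zcw : ∀ x, 2 * (w / 2) ≤ |x| → cs (1 / (w / 2)) x = 0 :=
      fun x hx => cs_zero' (by positivity) hx
    have zmu : ∀ x, 5 * h ≤ |x| → Fm b h x = 0 := by
      intro x hx
      refine Fm_zero hb0 hh0 ?_
      rcases le_abs.1 hx with h1 | h1
      · right; linarith
      · left; linarith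
    have h14 : 1 / (4 * (B.J : ℝ)) < 3 / (8 * B.J) := by
      rw [div_lt_div_iff₀ (by positivity) (by positivity)]; linarith
    have h38 : 3 / (8 * (B.J : ℝ)) < 1 / 2 := by
      rw [div_lt_iff₀ (by positivity)]; linarith
    have h14' : 1 / (4 * (B.J : ℝ)) < 1 / 2 := h14.trans h38
    have zch : ∀ x, 3 / (8 * (B.J : ℝ)) ≤ |x| → ccg (1 / (4 * B.J)) (3 / (8 * B.J)) x = 0 :=
      fun x hx => ccg_zero h14 hx
    have ethF : deriv (perz (cs (1 / bF))) = perz (deriv (cs (1 / bF))) :=
      perz_deriv (c := 2 * bF) (by linarith) zthF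
    have epsi : deriv (perz (cs (1 / (w / 4)))) = perz (deriv (cs (1 / (w / 4)))) :=
      perz_deriv (c := 2 * (w / 4)) (by linarith) zpsi
    have epsi2 : deriv (deriv (perz (cs (1 / (w / 4))))) =
        perz (deriv (deriv (cs (1 / (w / 4))))) := by
      rw [epsi]
      refine perz_deriv (c := w) (by linarith) fun x hx => ?_
      exact deriv_zero_of zpsi (by linarith)
    have emu : deriv (perz (Fm b h)) = perz (deriv (Fm b h)) :=
      perz_deriv (c := 5 * h) (by linarith) zmu
    refine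
      { th_sm := perz_contDiff (c := 2 * b) (by linarith) zth (cs_contDiff _)
        th_per := fun t => perz_per (cs (1 / b)) t
        th_rng := fun t => cs_rng _ _
        th_one := fun t ht => cs_one' hb0 ht
        th_zero := fun t ht => zth _ ht
        thF_sm := perz_contDiff (c := 2 * bF) (by linarith) zthF (cs_contDiff _)
        thF_per := fun t => perz_per (cs (1 / bF)) t
        thF_rng := fun t => cs_rng _ _
        thF_one := fun t ht => cs_one' hbF0 ht
        thF_zero := fun t ht => zthF _ ?_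
        thF_der := fun t => ?_
        S_sm := St_contDiff hb0 (by linarith)
        S_per := fun t => St_per _ _
        S_pos := fun t h0 h1 => St_pos hb0 (by linarith) h0 h1
        S_neg := fun t h0 h1 => St_neg hb0 h0 h1
        mu_sm := perz_contDiff (c := 5 * h) (by linarith) zmu (Fm_contDiff _ _)
        mu_per := fun t => perz_per (Fm b h) t
        mu_zero := fun t h0 h1 h2 => ?_
        mu_rng := fun t => Fm_rng hb0 hh0 _
        mu_der := fun t => ?_
        mu_one := fun t h0 h1 => ?_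
        mu_lin := fun t h0 h1 => ?_
        psi_sm := perz_contDiff (c := 2 * (w / 4)) (by linarith) zpsi (cs_contDiff _)
        psi_per := fun t => perz_per (cs (1 / (w / 4))) t
        psi_rng := fun t => cs_rng _ _
        psi_one := fun t ht => cs_one' (by positivity) ?_
        psi_zero := fun t ht => zpsi _ ?_
        psi_der := fun t => ?_
        psi_der2 := fun t => ?_
        ch_sm := fun j => (perz_contDiff h38 zch (ccg_contDiff _ _)).comp
          ((contDiff_const.mul contDiff_id).sub contDiff_const)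
        ch_per := fun j t => ?_
        ch_rng := fun j t => ccg_rng _ _ _
        ch_one := fun j t ht => ?_
        ch_zero := fun j t ht => ?_
        cw_sm := contDiff_const.sub
          (perz_contDiff (c := 2 * (w / 2)) (by linarith) zcw (cs_contDiff _))
        cw_per := fun t => ?_
        cw_rng := fun t => ?_
        cw_one := fun t ht => ?_
        cw_zero := fun t ht => ?_ }
    · rw [hDh] at ht
      unfold pd at ht
      linarith
    · show |deriv (perz (cs (1 / bF))) t| ≤ _
      rw [ethF]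
      refine (perz_bd (cs_der' hbF0 hcc1) t).trans ?_
      rw [hDh, hbF', div_div_eq_mul_div]
      gcongr
      linarith
    · show perz (Fm b h) t = 0
      rw [hDb, hDh] at h2
      rcases lt_or_eq_of_le h1 with h1 | h1
      · have hr : round t = 0 := by
          rw [round_eq_zero_iff]; exact ⟨h0, h1⟩
        unfold perz
        rw [hr]
        refine Fm_zero hb0 hh0 ?_
        simpa using h2
      · unfold perz
        have h4 : round (t - (1 : ℤ)) = 0 := by
          rw [round_eq_zero_iff]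
          push_cast
          constructor <;> linarith
        rw [round_sub_intCast] at h4
        have hr : round t = 1 := by omega
        rw [hr]
        refine Fm_zero hb0 hh0 (Or.inl ?_)
        push_cast
        linarith
    · show |deriv (perz (Fm b h)) t| ≤ _
      rw [emu]
      exact perz_bd (abs_Fm' b h) t
    · show deriv (perz (Fm b h)) t = 1
      rw [hDb] at h0 h1
      rw [hDh] at h1
      rw [emu, perz_eq0 _ (by rw [abs_of_nonneg (by linarith)]; linarith), Fm_deriv]
      simp only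
      rw [Hs_one hb0 h0, Hs_zero hb0 (by linarith), Hs_zero hb0 (by linarith)]
      ring
    · show deriv (perz (Fm b h)) t = -1
      rw [hDb, hDh] at h0 h1
      rw [emu, perz_eq0 _ (by rw [abs_of_nonneg (by linarith)]; linarith), Fm_deriv]
      simp only
      rw [Hs_one hb0 (by linarith), Hs_one hb0 (by linarith), Hs_zero hb0 (by linarith)]
      ring
    · rw [hDh] at ht
      unfold pd at ht
      linarith
    · rw [hDw] at ht
      unfold pd at ht
      linarith
    · show |deriv (perz (cs (1 / (w / 4)))) t| ≤ _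
      rw [epsi]
      refine (perz_bd (cs_der' (by positivity) hcc1) t).trans ?_
      rw [hDw, div_div_eq_mul_div]
      gcongr
      linarith
    · show |deriv (deriv (perz (cs (1 / (w / 4))))) t| ≤ _
      rw [epsi2]
      refine (perz_bd (cs_der2' (by positivity) hcc2) t).trans ?_
      rw [hDw]
      have : K2 / (w / 4) ^ 2 = 16 * K2 / w ^ 2 := by
        field_simp
        ring
      rw [this]
      gcongr
      linarith
    · rw [hch, hch]
      have := perz_add_int (ccg (1 / (4 * B.J)) (3 / (8 * B.J)))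
        ((N : ℝ) * t - (((j : ℕ) + 1 / 2) / B.J)) (N : ℤ)
      rw [← this]
      congr 1
      push_cast
      ring
    · obtain ⟨n, hn⟩ := ht
      rw [hDa, hDw] at hn
      have hn' : |((N : ℝ) * t - (((j : ℕ) + 1 / 2) / B.J)) - n| ≤ 1 / (4 * B.J) := by
        have e : ((N : ℝ) * t - (((j : ℕ) + 1 / 2) / B.J)) - n
            = N * (t - (D.p j + n) * w) := by
          have : D.p j = (((j : ℕ) : ℝ) + 1 / 2) / B.J := rfl
          rw [this, mul_sub, show (N : ℝ) * (((((j : ℕ) : ℝ) + 1 / 2) / B.J + n) * w)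
            = (N * w) * ((((j : ℕ) : ℝ) + 1 / 2) / B.J + n) by ring, hNw]
          ring
        rw [e, abs_mul, abs_of_pos hNr]
        calc (N : ℝ) * |t - (D.p j + n) * w| ≤ N * (w / (4 * B.J)) := by gcongr
          _ = (N * w) / (4 * B.J) := by ring
          _ = _ := by rw [hNw]
      rw [hch, perz_eq _ (hn'.trans_lt h14')]
      exact ccg_one h14 hn'
    · rw [hch]
      unfold perz
      set n : ℤ := round ((N : ℝ) * t - (((j : ℕ) + 1 / 2) / B.J)) with hn
      refine ccg_zero h14 ?_
      have h1 := ht n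
      rw [hDw] at h1
      have e : ((N : ℝ) * t - (((j : ℕ) + 1 / 2) / B.J)) - n
          = N * (t - (D.p j + n) * w) := by
        have : D.p j = (((j : ℕ) : ℝ) + 1 / 2) / B.J := rfl
        rw [this, mul_sub, show (N : ℝ) * (((((j : ℕ) : ℝ) + 1 / 2) / B.J + n) * w)
          = (N * w) * ((((j : ℕ) : ℝ) + 1 / 2) / B.J + n) by ring, hNw]
        ring
      rw [e, abs_mul, abs_of_pos hNr]
      calc 3 / (8 * (B.J : ℝ)) = (N * w) * (3 / (8 * B.J)) := by rw [hNw, one_mul]
        _ = N * (3 * w / (8 * B.J)) := by ring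
        _ ≤ _ := by gcongr
    · show 1 - perz _ (t + 1) = 1 - perz _ t
      rw [perz_per]
    · show 0 ≤ 1 - perz (cs (1 / (w / 2))) t ∧ 1 - perz (cs (1 / (w / 2))) t ≤ 1
      have h1 := cs_rng (1 / (w / 2)) (t - round t)
      unfold perz
      constructor <;> linarith [h1.1, h1.2]
    · show 1 - perz (cs (1 / (w / 2))) t = 1
      rw [hDw] at ht
      unfold perz
      rw [zcw _ (by unfold pd at ht; linarith)]
      ring
    · show 1 - perz (cs (1 / (w / 2))) t = 0
      rw [hDw] at ht
      unfold perz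
      rw [cs_one' (by positivity) (by unfold pd at ht; exact ht)]
      ring
  · -- the densities
    have h2N : ∀ s : ℝ, |s| ≤ 2 / N → |s| ≤ 2 * D.w := by
      intro s hs
      rw [hDw, hw, mul_one_div]; exact hs
    refine
      { r_sm := hr_sm
        r_per := hr_per
        r_u := hr_u
        r_rng := hr_rng
        r_int := hr_int
        r_sq := hr_sq
        r_zero := fun j x i m him hx => hr_zero j x i m him hx
        G_sm := hG_sm
        P_sm := hP_sm
        G_per := hG_per
        P_per := hP_per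
        G_u := hG_u
        P_u := hP_u
        G_bd := fun k j x => (hG_bd k j x).trans ?_
        G_der := fun k j x => (hG_der k j x).trans ?_
        P_rng := fun k j x => ⟨(hP_rng k j x).1, (hP_rng k j x).2.trans ?_⟩
        P_eq := hP_eq
        P_int := fun k j => (hP_int k j).trans (hr_int j)
        G_supp := fun k j x hx => ?_
        P_supp := fun k j x hx => ?_ }
    · rw [hDw, hw]
      gcongr
      linarith
    · rw [hDw, hw]
      gcongr
      linarith
    · linarith
    · obtain ⟨s, hs, hs2⟩ := hG_supp k j x hx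
      exact ⟨s, h2N s hs, hs2⟩
    · obtain ⟨⟨s, hs, hs2⟩, n, hn⟩ := hP_supp k j x hx
      refine ⟨⟨s, h2N s hs, hs2⟩, n, ?_⟩
      have e1 : 1 / (8 * (B.J : ℝ)) / N = D.w / (8 * D.J) := by
        rw [hDw, hw]
        show 1 / (8 * (B.J : ℝ)) / N = 1 / (N : ℝ) / (8 * (B.J : ℝ))
        rw [div_div, div_div, mul_comm]
      have e2 : ((((j : ℕ) : ℝ) + 1 / 2) / B.J + n) / N = (D.p j + n) * D.w := by
        have : D.p j = (((j : ℕ) : ℝ) + 1 / 2) / B.J := rfl
        rw [this, hDw, hw, mul_one_div]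
      rw [e1, e2] at hn
      exact hn

end Pool.Agent.Lib.MP_5df1bf_an
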