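import Pool.Agent.Lib.MP_5df1bf_an.Stmts3

/-!
# MP_5df1bf_an, D3: density of the matrices `s Bᵀ diag(±1) B`, `B` an integer matrix
-/

open MeasureTheory Filter Topology
open scoped BigOperators ContDiff

noncomputable section

namespace Pool.Agent.Lib.MP_5df1bf_an

namespace DenseAux

variable {d : ℕ}

/-- `Nᵀ diag(c) N` for real matrices -/
def quad (c : Fin d → ℝ) (N : Matrix (Fin d) (Fin d) ℝ) : M d := fun i j => ∑ k, c k * (N k i * N k j)

lemma conj_dg (B : Matrix (Fin d) (Fin d) ℤ) (c : Fin d → ℝ) (s r : ℝ) (hs : s = r ^ 2) :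
    s • conj B (dg c) = quad c (fun i j => r * (B i j : ℝ)) := by
  funext i j
  simp only [Pi.smul_apply, smul_eq_mul, conj, dg, quad]
  rw [Finset.mul_sum]
  refine Finset.sum_congr rfl fun k _ => ?_
  rw [Finset.sum_eq_single k]
  · rw [if_pos rfl, hs]
    ring
  · intro l _ hl
    rw [if_neg (Ne.symm hl)]
    ring
  · intro h
    exact absurd (Finset.mem_univ k) h

lemma continuous_nsq_sub (E : M d) : Continuous fun X : M d => nsq (X - E) := by
  unfold nsq ip symm
  refine continuous_finsetSum _ fun i _ => continuous_finsetSum _ fun j _ => ?_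
  simp only [Pi.sub_apply]
  fun_prop

lemma continuous_quad (c : Fin d → ℝ) :
    Continuous fun N : Matrix (Fin d) (Fin d) ℝ => quad c N := by
  unfold quad
  refine continuous_pi fun i => continuous_pi fun j => continuous_finsetSum _ fun k _ => ?_
  exact continuous_const.mul ((continuous_apply_apply k i).mul (continuous_apply_apply k j))

/-- the spectral theorem in coordinates -/
lemma spectral (E : M d) (hE : tp E = E) : ∃ (U : Matrix (Fin d) (Fin d) ℝ) (l : Fin d → ℝ),
    U.det ≠ 0 ∧ ∀ i j, E i j = ∑ k, l k * (U i k * U j k) := by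
  have hA : (Matrix.of E).IsHermitian := by
    ext i j
    rw [Matrix.conjTranspose_apply, Matrix.of_apply, Matrix.of_apply, star_trivial]
    exact congrFun (congrFun hE i) j
  refine ⟨(hA.eigenvectorUnitary : Matrix (Fin d) (Fin d) ℝ), hA.eigenvalues, ?_, ?_⟩
  · intro h0
    have h1 : (hA.eigenvectorUnitary : Matrix (Fin d) (Fin d) ℝ) *
        star (hA.eigenvectorUnitary : Matrix (Fin d) (Fin d) ℝ) = 1 :=
      Unitary.coe_mul_star_self hA.eigenvectorUnitary
    have h2 := congrArg Matrix.det h1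
    rw [Matrix.det_mul, h0, zero_mul, Matrix.det_one] at h2
    exact zero_ne_one h2
  · intro i j
    have h1 := congrFun (congrFun hA.spectral_theorem i) j
    rw [Unitary.conjStarAlgAut_apply, Matrix.mul_apply] at h1
    rw [Matrix.of_apply] at h1
    rw [h1]
    refine Finset.sum_congr rfl fun k _ => ?_
    rw [Matrix.mul_diagonal, Matrix.star_apply]
    simp only [Function.comp_apply, RCLike.ofReal_real_eq_id, id_eq, star_trivial]
    ring

/-- approximation by nondegenerate matrices -/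
lemma approx (E : M d) (hE : tp E = E) (η : ℝ) (hη : 0 < η) :
    ∃ (N : Matrix (Fin d) (Fin d) ℝ) (c : Fin d → ℤ), N.det ≠ 0 ∧ (∀ k, c k = 1 ∨ c k = -1) ∧
      nsq (quad (fun k => (c k : ℝ)) N - E) < η := by
  obtain ⟨U, l, hU, hl⟩ := spectral E hE
  set μ : ℝ → Fin d → ℝ := fun ε k => if l k = 0 then ε else l k with hμ
  set g : ℝ → M d := fun ε i j => ∑ k, μ ε k * (U i k * U j k) with hg
  have hgc : Continuous g := by
    refine continuous_pi fun i => continuous_pi fun j => continuous_finsetSum _ fun k _ => ?_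
    refine Continuous.mul ?_ continuous_const
    simp only [hμ]
    by_cases h0 : l k = 0
    · simp only [h0, if_true]
      exact continuous_id
    · simp only [h0, if_false]
      exact continuous_const
  have hg0 : g 0 = E := by
    funext i j
    rw [hl i j]
    simp only [hg, hμ]
    refine Finset.sum_congr rfl fun k _ => ?_
    split_ifs with h0
    · rw [h0]
    · rfl
  have hopen : IsOpen {ε : ℝ | nsq (g ε - E) < η} :=
    isOpen_lt ((continuous_nsq_sub E).comp hgc) continuous_const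
  have h0mem : (0 : ℝ) ∈ {ε : ℝ | nsq (g ε - E) < η} := by
    show nsq (g 0 - E) < η
    rw [hg0, sub_self]
    simpa [nsq, ip, symm] using hη
  obtain ⟨δ, hδ, hball⟩ := Metric.isOpen_iff.mp hopen 0 h0mem
  have hmem : nsq (g (δ / 2) - E) < η := by
    apply hball
    rw [Metric.mem_ball, Real.dist_eq, sub_zero, abs_of_pos (by positivity)]
    linarith
  have hμ0 : ∀ k, μ (δ / 2) k ≠ 0 := by
    intro k
    simp only [hμ]
    split_ifs with h0
    · positivity
    · exact h0
  refine ⟨fun k i => Real.sqrt |μ (δ / 2) k| * U i k, fun k => if 0 < μ (δ / 2) k then 1 else -1,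
    ?_, ?_, ?_⟩
  · have h1 : (fun k i => Real.sqrt |μ (δ / 2) k| * U i k : Matrix (Fin d) (Fin d) ℝ) =
        Matrix.diagonal (fun k => Real.sqrt |μ (δ / 2) k|) * U.transpose := by
      ext k i
      rw [Matrix.diagonal_mul, Matrix.transpose_apply]
    rw [h1, Matrix.det_mul, Matrix.det_diagonal, Matrix.det_transpose]
    refine mul_ne_zero (Finset.prod_ne_zero_iff.mpr fun k _ => ?_) hU
    exact (Real.sqrt_pos.mpr (abs_pos.mpr (hμ0 k))).ne'
  · intro k
    show (if 0 < μ (δ / 2) k then (1 : ℤ) else -1) = 1 ∨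
      (if 0 < μ (δ / 2) k then (1 : ℤ) else -1) = -1
    split_ifs
    · exact Or.inl rfl
    · exact Or.inr rfl
  · have h1 : quad (fun k => (((if 0 < μ (δ / 2) k then 1 else -1 : ℤ)) : ℝ))
        (fun k i => Real.sqrt |μ (δ / 2) k| * U i k) = g (δ / 2) := by
      funext i j
      simp only [quad, hg]
      refine Finset.sum_congr rfl fun k _ => ?_
      have h2 : Real.sqrt |μ (δ / 2) k| * Real.sqrt |μ (δ / 2) k| = |μ (δ / 2) k| :=
        Real.mul_self_sqrt (abs_nonneg _)
      split_ifs with h3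
      · rw [abs_of_pos h3] at h2 ⊢
        push_cast
        linear_combination (U i k * U j k) * h2
      · have h4 : μ (δ / 2) k < 0 := lt_of_le_of_ne (not_lt.mp h3) (hμ0 k)
        rw [abs_of_neg h4] at h2 ⊢
        push_cast
        linear_combination -(U i k * U j k) * h2
    rw [h1]
    exact hmem

lemma tendsto_floor (x : ℝ) :
    Tendsto (fun n : ℕ => 1 / ((n : ℝ) + 1) * (⌊((n : ℝ) + 1) * x⌋ : ℝ)) atTop (𝓝 x) := by
  have h1 : Tendsto (fun n : ℕ => x - 1 / ((n : ℝ) + 1)) atTop (𝓝 x) := by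
    have := (tendsto_const_nhds (x := x)).sub (tendsto_one_div_add_atTop_nhds_zero_nat (𝕜 := ℝ))
    simpa using this
  refine tendsto_of_tendsto_of_tendsto_of_le_of_le h1 tendsto_const_nhds ?_ ?_
  · intro n
    have hn : (0 : ℝ) < n + 1 := by positivity
    have h2 := Int.lt_floor_add_one (((n : ℝ) + 1) * x)
    show x - 1 / ((n : ℝ) + 1) ≤ 1 / ((n : ℝ) + 1) * (⌊((n : ℝ) + 1) * x⌋ : ℝ)
    rw [one_div_mul_eq_div, le_div_iff₀ hn, sub_mul, one_div, inv_mul_cancel₀ hn.ne']
    linarith
  · intro n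
    have hn : (0 : ℝ) < n + 1 := by positivity
    have h2 := Int.floor_le (((n : ℝ) + 1) * x)
    show 1 / ((n : ℝ) + 1) * (⌊((n : ℝ) + 1) * x⌋ : ℝ) ≤ x
    rw [one_div_mul_eq_div, div_le_iff₀ hn]
    linarith

end DenseAux

open DenseAux in
/-- D3: density of the matrices `λ Bᵀ diag(±1) B`, `B` an integer matrix -/
theorem dense (d : ℕ) : StmtDense d := by
  intro E hE η hη
  obtain ⟨N, c, hN, hc, hlt⟩ := approx E hE η hη
  have ho1 : IsOpen {X : Matrix (Fin d) (Fin d) ℝ |
      nsq (quad (fun k => (c k : ℝ)) X - E) < η} :=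
    isOpen_lt ((continuous_nsq_sub E).comp (continuous_quad _)) continuous_const
  have ho2 : IsOpen {X : Matrix (Fin d) (Fin d) ℝ | X.det ≠ 0} :=
    isOpen_ne_fun (Continuous.matrix_det continuous_id) continuous_const
  have ht : Tendsto (fun n : ℕ => (fun i j => 1 / ((n : ℝ) + 1) *
      (⌊((n : ℝ) + 1) * N i j⌋ : ℝ) : Matrix (Fin d) (Fin d) ℝ)) atTop (𝓝 N) := by
    refine tendsto_pi_nhds.mpr fun i => tendsto_pi_nhds.mpr fun j => ?_
    exact tendsto_floor (N i j)
  have h1 := ht.eventually (ho1.mem_nhds hlt)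
  have h2 := ht.eventually (ho2.mem_nhds hN)
  obtain ⟨n, hn1, hn2⟩ := (h1.and h2).exists
  refine ⟨fun i j => ⌊((n : ℝ) + 1) * N i j⌋, c, (1 / ((n : ℝ) + 1)) ^ 2, ?_, hc, by positivity, ?_⟩
  · intro h0
    apply hn2
    have h3 : (fun i j => 1 / ((n : ℝ) + 1) * (⌊((n : ℝ) + 1) * N i j⌋ : ℝ) :
        Matrix (Fin d) (Fin d) ℝ) = (1 / ((n : ℝ) + 1)) •
          (Matrix.map (fun i j => ⌊((n : ℝ) + 1) * N i j⌋ : Matrix (Fin d) (Fin d) ℤ)
            (Int.cast : ℤ → ℝ)) := by
      ext i j
      simp [Matrix.smul_apply]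
    have h4 : (Matrix.map (fun i j => ⌊((n : ℝ) + 1) * N i j⌋ : Matrix (Fin d) (Fin d) ℤ)
        (Int.cast : ℤ → ℝ)).det = 0 := by
      have h5 := (Int.castRingHom ℝ).map_det
        (fun i j => ⌊((n : ℝ) + 1) * N i j⌋ : Matrix (Fin d) (Fin d) ℤ)
      rw [h0, map_zero] at h5
      exact h5.symm
    rw [h3, Matrix.det_smul, h4, mul_zero]
  · rw [conj_dg _ _ _ _ rfl]
    exact hn1

end Pool.Agent.Lib.MP_5df1bf_an
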