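import Pool.Agent.Lib.MP_5df1bf_an.Stmts1

/-!
# MP_5df1bf_an: the gadget (Part II): definitions and statements
-/

open MeasureTheory Filter Topology
open scoped BigOperators ContDiff

noncomputable section

namespace Pool.Agent.Lib.MP_5df1bf_an

variable {d : ℕ}

/-- distance to the nearest integer -/
def pd (t : ℝ) : ℝ := |t - round t|

/-! ### general lemmas -/

/-- B1: Korn–Poincaré on boxes (L² version) -/
def StmtKP (d : ℕ) : Prop := ∀ lo hi : V d, (∀ i, lo i < hi i) → ∃ K : ℝ, 0 ≤ K ∧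
  ∀ v : V d → V d, ContDiff ℝ 1 v → ∃ (a : V d) (Om : M d), (∀ i j, Om i j = - Om j i) ∧
    ∫ x in Set.Icc lo hi, dot (v x - a - mulV Om x) (v x - a - mulV Om x) ≤
      K * ∫ x in Set.Icc lo hi, nsq (grad v x)

/-- B2: bars -/
def StmtBar (d : ℕ) : Prop := ∀ (lo hi z : V d) (v : V d → V d), ContDiff ℝ 1 v →
  ∫ x in Set.Icc lo hi, (dot z (v (x + z) - v x)) ^ 2 ≤
    ∫ t in Set.Icc (0 : ℝ) 1, ∫ x in Set.Icc lo hi, (ip (oo z) (grad v (x + t • z))) ^ 2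

/-- B3: one-dimensional concentration on lines.  `r` is constant along `u`; `P` is concentrated
near the lines through the points `(p + n) w` of the `l`-axis (in the plane `x k = 0`). -/
def StmtInterp (d : ℕ) : Prop := ∀ ρ : ℝ, 0 < ρ → ρ < 1 / 4 → ∃ K : ℝ, 0 ≤ K ∧
  ∀ (k l : Fin d), k ≠ l → ∀ (u : V d), u k ≠ 0 → ∀ (N : ℕ), 0 < N →
  (∃ z : ℤ, (N : ℝ) * (u l / u k) = z) → ∀ (p R : ℝ) (r : V d → ℝ), ContDiff ℝ ∞ r → Per r →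
  (∀ x (t : ℝ), r (x + t • u) = r x) → (∀ x, 0 ≤ r x ∧ r x ≤ R) →
  ∃ G P : V d → ℝ, ContDiff ℝ ∞ G ∧ ContDiff ℝ ∞ P ∧ Per G ∧ Per P ∧
    (∀ x (t : ℝ), G (x + t • u) = G x) ∧ (∀ x (t : ℝ), P (x + t • u) = P x) ∧
    (∀ x, |G x| ≤ K * R * (1 / N) ^ 2) ∧
    (∀ x, |fderiv ℝ G x (Pi.single l 1)| ≤ K * R * (1 / N)) ∧
    (∀ x, 0 ≤ P x ∧ P x ≤ K * R) ∧
    (∀ x, P x = r x + fderiv ℝ (fun y => fderiv ℝ G y (Pi.single l 1)) x (Pi.single l 1)) ∧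
    (∫ x in cell d, P x = ∫ x in cell d, r x) ∧
    (∀ x, G x ≠ 0 → ∃ s : ℝ, |s| ≤ 2 / N ∧ r (x + Pi.single l s) ≠ 0) ∧
    (∀ x, P x ≠ 0 → (∃ s : ℝ, |s| ≤ 2 / N ∧ r (x + Pi.single l s) ≠ 0) ∧
      ∃ n : ℤ, |(x l - u l / u k * x k) - (p + n) / N| ≤ ρ / N)

/-- B4: densities on the lines of direction `u` which avoid the edges of the lattice -/
def StmtLines (d : ℕ) : Prop := ∀ u : Fin d → ℤ, (∀ i, 1 ≤ u i ∧ u i ≤ 3) → ∀ η : ℝ, 0 < η →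
  ∃ ϵ₀ : ℝ, 0 < ϵ₀ ∧ ∀ ϵ, 0 < ϵ → ϵ ≤ ϵ₀ → ∃ r : V d → ℝ, ContDiff ℝ ∞ r ∧ Per r ∧
    (∀ x (t : ℝ), r (x + t • zv u) = r x) ∧ (∀ x, 0 ≤ r x ∧ r x ≤ 2) ∧
    (∫ x in cell d, r x = 1) ∧ (∫ x in cell d, (r x - 1) ^ 2 ≤ η) ∧
    (∀ x (i m : Fin d), i ≠ m → pd (u m * x i - u i * x m) ≤ ϵ → r x = 0)

/-! ### the data of the gadget -/

/-- combinatorial data -/
structure Comb (d : ℕ) where
  J : ℕ
  Jpos : 0 < J
  u : Fin J → Fin d → ℤ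
  u_rng : ∀ j i, 1 ≤ u j i ∧ u j i ≤ 3
  l : Fin d → Fin d
  l_ne : ∀ k, l k ≠ k
  q0 : Fin d → ℤ
  q0_ne : ∀ i, q0 i ≠ 0
  kk : Fin d → ℤ
  /-- directions orthogonal to `q0` -/
  I : ℕ
  dd : Fin I → Fin d → ℤ
  dd_rng : ∀ i m, 1 ≤ dd i m ∧ dd i m ≤ 3
  dd_q0 : ∀ i, dot (zv (dd i)) (zv q0) = 0
  dd_span : ∀ x : V d, (∀ i, dot (zv (dd i)) x = 0) → ∃ t : ℝ, x = t • zv q0

/-- the easy strain is `diag (kk k * q0 (l k))` -/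
def Comb.E (B : Comb d) : V d := fun k => (B.kk k : ℝ) * B.q0 (B.l k)

/-- lengths and profiles -/
structure Dat (d : ℕ) extends Comb d where
  N : ℕ
  Npos : 0 < N
  Ndvd : 6 ∣ N
  th : ℝ → ℝ
  thF : ℝ → ℝ
  S : ℝ → ℝ
  mu : ℝ → ℝ
  psi : ℝ → ℝ
  /-- cut-off around the patches of type `j` (function of `x (l k)`) -/
  ch : Fin J → ℝ → ℝ
  /-- cut-off away from the planes -/
  cw : ℝ → ℝ
  r : Fin J → V d → ℝ
  G : Fin d → Fin J → V d → ℝ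
  P : Fin d → Fin J → V d → ℝ

namespace Dat
variable (D : Dat d)
def w : ℝ := 1 / D.N
def h : ℝ := D.w / (64 * D.J)
def bF : ℝ := D.h / 4
def b : ℝ := D.h / 64
def a : ℝ := D.w / (4 * D.J)
def p (j : Fin D.J) : ℝ := ((j : ℕ) + 1 / 2) / D.J

/-- the patches of type `j` in the layer `k` -/
def pat (k : Fin d) (j : Fin D.J) (x : V d) : Prop :=
  (∃ n : ℤ, |x (D.l k) - (D.p j + n) * D.w| < D.a) ∧ ∀ i, i ≠ k → D.w ≤ pd (x i)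

/-- integer direction of the perturbed fibres -/
def g (L : ℕ) (k : Fin d) (j : Fin D.J) : Fin d → ℤ :=
  fun i => L * D.u j i + (if i = D.l k then D.kk k * D.u j k else 0)

/-- block material: blocks, frame, nodes -/
def RB : Set (V d) := {x | (∀ i, D.h ≤ pd (x i)) ∨
  (∃ i m, i ≠ m ∧ pd (x i) < D.bF ∧ pd (x m) < D.bF) ∨ (∃ k j, pd (x k) < D.b ∧ D.pat k j x)}
/-- mid-sheets -/
def RS (k : Fin d) : Set (V d) :=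
  {x | pd (x k) < D.b ∧ (∀ i, i ≠ k → D.bF ≤ pd (x i)) ∧ ∀ j, ¬ D.pat k j x}
/-- fibre zones, negative side -/
def RU (k : Fin d) (j : Fin D.J) : Set (V d) :=
  {x | D.pat k j x ∧ D.b ≤ pd (x k) ∧ pd (x k) < D.h ∧ x k < round (x k)}
/-- fibre zones, positive side -/
def RG (k : Fin d) (j : Fin D.J) : Set (V d) :=
  {x | D.pat k j x ∧ D.b ≤ pd (x k) ∧ pd (x k) < D.h ∧ round (x k) < x k}
/-- vertex zone -/
def RZ : Set (V d) := {x | (∀ i, Int.fract (x i) < 8 * D.h) ∧ x ∉ D.RB ∧ ∀ k, x ∉ D.RS k}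
/-- everything else: void -/
def RV : Set (V d) := {x | x ∉ D.RB ∧ (∀ k, x ∉ D.RS k) ∧ (∀ k j, x ∉ D.RU k j) ∧
  (∀ k j, x ∉ D.RG k j) ∧ x ∉ D.RZ}

/-- properties of the one-dimensional profiles -/
structure Prof (D : Dat d) (K : ℝ) : Prop where
  th_sm : ContDiff ℝ ∞ D.th
  th_per : ∀ t, D.th (t + 1) = D.th t
  th_rng : ∀ t, 0 ≤ D.th t ∧ D.th t ≤ 1
  th_one : ∀ t, pd t ≤ D.b → D.th t = 1
  th_zero : ∀ t, 2 * D.b ≤ pd t → D.th t = 0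
  thF_sm : ContDiff ℝ ∞ D.thF
  thF_per : ∀ t, D.thF (t + 1) = D.thF t
  thF_rng : ∀ t, 0 ≤ D.thF t ∧ D.thF t ≤ 1
  thF_one : ∀ t, pd t ≤ D.bF → D.thF t = 1
  thF_zero : ∀ t, D.h ≤ pd t → D.thF t = 0
  thF_der : ∀ t, |deriv D.thF t| ≤ K / D.h
  S_sm : ContDiff ℝ ∞ D.S
  S_per : ∀ t, D.S (t + 1) = D.S t + 1
  S_pos : ∀ t, 0 ≤ t → t ≤ 1 / 2 → D.S t = - D.th t
  S_neg : ∀ t, -(1 / 2) ≤ t → t ≤ 0 → D.S t = -1
  mu_sm : ContDiff ℝ ∞ D.mu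
  mu_per : ∀ t, D.mu (t + 1) = D.mu t
  mu_zero : ∀ t, -(1 / 2) ≤ t → t ≤ 1 / 2 → (t ≤ -(D.b / 2) ∨ 4 * D.h + D.b / 2 ≤ t) → D.mu t = 0
  mu_rng : ∀ t, 0 ≤ D.mu t ∧ D.mu t ≤ 4 * D.h
  mu_der : ∀ t, |deriv D.mu t| ≤ 2
  mu_one : ∀ t, D.b / 2 ≤ t → t ≤ 2 * D.h - D.b / 2 → deriv D.mu t = 1
  mu_lin : ∀ t, 2 * D.h + D.b / 2 ≤ t → t ≤ 4 * D.h - D.b / 2 → deriv D.mu t = -1
  psi_sm : ContDiff ℝ ∞ D.psi
  psi_per : ∀ t, D.psi (t + 1) = D.psi t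
  psi_rng : ∀ t, 0 ≤ D.psi t ∧ D.psi t ≤ 1
  psi_one : ∀ t, pd t ≤ 5 * D.h → D.psi t = 1
  psi_zero : ∀ t, D.w / 2 ≤ pd t → D.psi t = 0
  psi_der : ∀ t, |deriv D.psi t| ≤ K / D.w
  psi_der2 : ∀ t, |deriv (deriv D.psi) t| ≤ K / D.w ^ 2
  ch_sm : ∀ j, ContDiff ℝ ∞ (D.ch j)
  ch_per : ∀ j t, D.ch j (t + 1) = D.ch j t
  ch_rng : ∀ j t, 0 ≤ D.ch j t ∧ D.ch j t ≤ 1
  ch_one : ∀ j t, (∃ n : ℤ, |t - (D.p j + n) * D.w| ≤ D.a) → D.ch j t = 1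
  ch_zero : ∀ j t, (∀ n : ℤ, 3 * D.w / (8 * D.J) ≤ |t - (D.p j + n) * D.w|) → D.ch j t = 0
  cw_sm : ContDiff ℝ ∞ D.cw
  cw_per : ∀ t, D.cw (t + 1) = D.cw t
  cw_rng : ∀ t, 0 ≤ D.cw t ∧ D.cw t ≤ 1
  cw_one : ∀ t, D.w ≤ pd t → D.cw t = 1
  cw_zero : ∀ t, pd t ≤ D.w / 2 → D.cw t = 0

/-- properties of the line densities; `η` measures the distance of `r` to `1` -/
structure Lin (D : Dat d) (K η : ℝ) : Prop where
  r_sm : ∀ j, ContDiff ℝ ∞ (D.r j)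
  r_per : ∀ j, Per (D.r j)
  r_u : ∀ j x (t : ℝ), D.r j (x + t • zv (D.u j)) = D.r j x
  r_rng : ∀ j x, 0 ≤ D.r j x ∧ D.r j x ≤ 2
  r_int : ∀ j, ∫ x in cell d, D.r j x = 1
  r_sq : ∀ j, ∫ x in cell d, (D.r j x - 1) ^ 2 ≤ η
  r_zero : ∀ j x (i m : Fin d), i ≠ m → pd (D.u j m * x i - D.u j i * x m) ≤ 30 * D.w → D.r j x = 0
  G_sm : ∀ k j, ContDiff ℝ ∞ (D.G k j)
  P_sm : ∀ k j, ContDiff ℝ ∞ (D.P k j)
  G_per : ∀ k j, Per (D.G k j)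
  P_per : ∀ k j, Per (D.P k j)
  G_u : ∀ k j x (t : ℝ), D.G k j (x + t • zv (D.u j)) = D.G k j x
  P_u : ∀ k j x (t : ℝ), D.P k j (x + t • zv (D.u j)) = D.P k j x
  G_bd : ∀ k j x, |D.G k j x| ≤ K * D.w ^ 2
  G_der : ∀ k j x, |fderiv ℝ (D.G k j) x (Pi.single (D.l k) 1)| ≤ K * D.w
  P_rng : ∀ k j x, 0 ≤ D.P k j x ∧ D.P k j x ≤ K
  P_eq : ∀ k j x, D.P k j x = D.r j x +
    fderiv ℝ (fun y => fderiv ℝ (D.G k j) y (Pi.single (D.l k) 1)) x (Pi.single (D.l k) 1)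
  P_int : ∀ k j, ∫ x in cell d, D.P k j x = 1
  G_supp : ∀ k j x, D.G k j x ≠ 0 → ∃ s : ℝ, |s| ≤ 2 * D.w ∧ D.r j (x + Pi.single (D.l k) s) ≠ 0
  P_supp : ∀ k j x, D.P k j x ≠ 0 →
    (∃ s : ℝ, |s| ≤ 2 * D.w ∧ D.r j (x + Pi.single (D.l k) s) ≠ 0) ∧
    ∃ n : ℤ, |(x (D.l k) - (D.u j (D.l k) : ℝ) / D.u j k * x k) - (D.p j + n) * D.w| ≤
      D.w / (8 * D.J)

/-- the material field of the gadget (block tensor `C`, fibres `F`, sheets `Ls`) -/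
structure IsGad (D : Dat d) (L : ℕ) (C : Tens d) (F : (Fin d → ℤ) → Tens d) (Ls : Tens d)
    (T : V d → Tens d) : Prop where
  blk : ∀ x ∈ D.RB, T x = C
  sht : ∀ k, ∀ x ∈ D.RS k, T x = F (Pi.single (D.l k) 1)
  neg : ∀ k j, ∀ x ∈ D.RU k j, T x = F (D.u j)
  pos : ∀ k j, ∀ x ∈ D.RG k j, T x = F (D.g L k j)
  ver : ∀ x ∈ D.RZ, T x = Ls
  voi : ∀ x ∈ D.RV, T x = zeroT d

end Dat

/-- B6: existence of the data -/
def StmtDat (d : ℕ) : Prop := ∀ B : Comb d, ∃ K : ℝ, 0 ≤ K ∧ ∀ η : ℝ, 0 < η → ∀ N₀ : ℕ,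
  ∃ D : Dat d, D.toComb = B ∧ N₀ ≤ D.N ∧ D.Prof K ∧ D.Lin K η

/-- B7: existence of the combinatorial data for `E = (d-1) diag c`, `c k = ± 1` -/
def StmtComb (d : ℕ) : Prop := 2 ≤ d → ∀ c : Fin d → ℤ, (∀ k, c k = 1 ∨ c k = -1) →
  ∃ (B : Comb d) (K : ℝ) (σ : Fin B.J → M d → ℝ), (∀ k, B.E k = (d - 1 : ℝ) * c k) ∧
    (∀ j S, (σ j S) ^ 2 ≤ K * nsq S) ∧ ∀ S : M d, symm S = ∑ j, σ j S • oo (zv (B.u j))

/-- B8: the field exists, is measurable, and the volume of the non-block part is `O(w)` -/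
def StmtGadFld (d : ℕ) : Prop := ∀ (D : Dat d) (K η : ℝ), D.Prof K → D.Lin K η →
  ∀ (L : ℕ), 0 < L → ∀ (C : Tens d) (F : (Fin d → ℤ) → Tens d) (Ls : Tens d),
  ∃ (m : ℕ) (idx : V d → Fin m) (val : Fin m → Tens d), Measurable idx ∧ Per idx ∧
    D.IsGad L C F Ls (fun x => val (idx x)) ∧
    (∀ i, val i = C ∨ val i = zeroT d ∨ val i = Ls ∨ ∃ z : Fin d → ℤ, z ≠ 0 ∧ val i = F z)

/-- volume of the complement of the blocks -/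
def StmtVol (d : ℕ) : Prop := ∀ D : Dat d, ∀ s : ℝ, 0 ≤ s →
  frac {x : V d | ∃ i, pd (x i) ≤ s} ≤ 2 * d * s

/-! ### stress fields -/

namespace Dat
variable (D : Dat d)

/-- `(kk k / L) μ(x k)` -/
def sh (L : ℕ) (k : Fin d) (x : V d) : ℝ := (D.kk k : ℝ) / L * D.mu (x k)
/-- shifted point -/
def xs (L : ℕ) (k : Fin d) (x : V d) : V d := x - Pi.single (D.l k) (D.sh L k x)
/-- bent direction -/
def gv (L : ℕ) (k : Fin d) (j : Fin D.J) (x : V d) : V d :=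
  zv (D.u j) + Pi.single (D.l k) ((D.kk k : ℝ) / L * D.u j k * deriv D.mu (x k))

/-- the stress of the lines of type `j` -/
def Tj (L : ℕ) (j : Fin D.J) (x : V d) : M d :=
  D.r j x • oo (zv (D.u j)) +
  ∑ k, (D.psi (x k) * (D.P k j x - D.r j x)) • oo (zv (D.u j)) -
  ∑ k, (2 * D.u j k * deriv D.psi (x k) * fderiv ℝ (D.G k j) x (Pi.single (D.l k) 1)) •
    sd (zv (D.u j)) (Pi.single (D.l k) 1) +
  ∑ k, ((D.u j k : ℝ) ^ 2 * deriv (deriv D.psi) (x k) * D.G k j x) • oo (Pi.single (D.l k) 1) +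
  ∑ k, (D.P k j (D.xs L k x) • oo (D.gv L k j x) - D.P k j x • oo (zv (D.u j)))

/-- the force density of the lines of type `j` in the layer `k` (a multiple of `e_{l k}`) -/
def bf (L : ℕ) (k : Fin d) (j : Fin D.J) (x : V d) : ℝ :=
  (D.kk k : ℝ) / L * (D.u j k : ℝ) ^ 2 * deriv (deriv D.mu) (x k) * D.P k j (D.xs L k x)

end Dat

/-- C1: weak divergence identity -/
def StmtWeak (d : ℕ) : Prop := ∀ (D : Dat d) (K η : ℝ), D.Prof K → D.Lin K η →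
  ∀ (L : ℕ), 0 < L → ∀ (j : Fin D.J) (u : Disp d),
    ∫ x in cell d, ip (D.Tj L j x) (grad u.u x) =
      - ∑ k, ∫ x in cell d, D.bf L k j x * u.u x (D.l k)

/-- C2: mean value of the stress -/
def StmtMean (d : ℕ) : Prop := ∀ (D : Dat d) (K η : ℝ), D.Prof K → D.Lin K η →
  ∃ K' : ℝ, ∀ (L : ℕ), 0 < L → ∀ (j : Fin D.J) (ε : M d),
    |(∫ x in cell d, ip (D.Tj L j x) ε) - ip (oo (zv (D.u j))) ε| ≤
      K' / L * Real.sqrt (nsq ε)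

/-- C3: the stress in the layers.  If `pd (x k) < h` then either `x` is near another plane and
`Tj = 0`, or `Tj` is a multiple of `g ⊗ g` and vanishes outside the patches of type `j`. -/
def StmtZone (d : ℕ) : Prop := ∀ (D : Dat d) (K η : ℝ), D.Prof K → D.Lin K η →
  ∃ L₀ : ℕ, ∀ L : ℕ, L₀ ≤ L → 0 < L → ∀ (j : Fin D.J) (k : Fin d) (x : V d), pd (x k) < D.h →
    (D.Tj L j x ≠ 0 → D.pat k j x) ∧
    (∃ t : ℝ, |t| ≤ K ∧ D.Tj L j x = t • oo (D.gv L k j x)) ∧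
    (D.b ≤ pd (x k) → x k < round (x k) → D.gv L k j x = zv (D.u j)) ∧
    (D.b ≤ pd (x k) → round (x k) < x k → (L : ℝ) • D.gv L k j x = zv (D.g L k j))

/-- C4: the stress is close to its mean value in `L²` -/
def StmtClose (d : ℕ) : Prop := ∀ K : ℝ, ∀ B : Comb d, ∃ K' : ℝ, ∀ (D : Dat d) (η : ℝ), 0 < η →
  D.toComb = B → D.Prof K → D.Lin K η → ∃ L₀ : ℕ, ∀ L : ℕ, L₀ ≤ L → ∀ (j : Fin D.J),
    ∫ x in cell d, nsq (D.Tj L j x - oo (zv (D.u j))) ≤ K' * (D.w + η)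

/-! ### the forces (C5) -/

/-- the window `x k ∈ [-1/4, 3/4]`, other coordinates in `[0,1]` -/
def win (k : Fin d) : Set (V d) := Set.Icc (- Pi.single k (1 / 4)) (1 - Pi.single k (1 / 4))

/-- the integral of a periodic function over the window -/
def StmtWin (d : ℕ) : Prop := ∀ f : V d → ℝ, Per f → ∀ k : Fin d,
  ∫ x in win k, f x = ∫ x in cell d, f x

/-- C5a: support of the shifted densities near the plane `x k ∈ ℤ` -/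
def StmtSupp (d : ℕ) : Prop := ∀ (D : Dat d) (K η : ℝ), D.Prof K → D.Lin K η →
  ∃ L₀ : ℕ, ∀ L : ℕ, L₀ ≤ L → 0 < L → ∀ (k : Fin d) (j : Fin D.J) (x : V d),
    D.P k j (D.xs L k x) ≠ 0 → pd (x k) ≤ 5 * D.h →
    (∀ i, i ≠ k → 6 * D.w ≤ pd (x i)) ∧ (pd (x k) < D.h → D.pat k j x)

/-- C5b: moments of the forces: no work on rigid motions (component `l k`), and the total force near
the plane -/
def StmtMom (d : ℕ) : Prop := ∀ (D : Dat d) (K η : ℝ), D.Prof K → D.Lin K η →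
  ∃ L₀ : ℕ, ∀ L : ℕ, L₀ ≤ L → 0 < L → ∀ (k : Fin d) (j : Fin D.J),
    (∀ (a : ℝ) (o : V d), o (D.l k) = 0 →
      ∫ x in win k, deriv (deriv D.mu) (x k) * D.P k j (D.xs L k x) * (a + dot o x) = 0) ∧
    ∫ x in win k ∩ {x | |x k| ≤ D.h}, deriv (deriv D.mu) (x k) * D.P k j (D.xs L k x) = 1

namespace Dat
variable (D : Dat d)
/-- the block in the unit cell -/
def K0 : Set (V d) := Set.Icc (fun _ => D.h) (fun _ => 1 - D.h)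
/-- the part `|x k|, |x (l k)| ≤ bF / 2` of the frame -/
def Fk (k : Fin d) : Set (V d) :=
  Set.Icc (fun i => if i = k ∨ i = D.l k then -(D.bF / 2) else 0)
    (fun i => if i = k ∨ i = D.l k then D.bF / 2 else 1)
end Dat

/-- `v x = (sym ε) x + u x` -/
def vv (ε : M d) (u : Disp d) (x : V d) : V d := mulV (symm ε) x + u.u x

/-- C5c: the block moves like a rigid body, and the frame moves like the block plus `V₀ q0` -/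
def StmtRel (d : ℕ) : Prop := ∀ (D : Dat d) (α β : ℝ), 0 < α → ∃ K' : ℝ, 0 ≤ K' ∧
  ∀ (L : ℕ) (C : Tens d) (F : (Fin d → ℤ) → Tens d) (Ls : Tens d) (T : V d → Tens d),
    (∀ ξ, α * nsq ξ ≤ C.Q ξ) → ShLike α β (zv D.q0) Ls → D.IsGad L C F Ls T → IsFld T 0 β →
  ∀ (ε : M d) (u : Disp d), ∃ (a : V d) (Om : M d) (V₀ : ℝ), (∀ i j, Om i j = - Om j i) ∧
    (∫ x in D.K0, dot (vv ε u x - a - mulV Om x) (vv ε u x - a - mulV Om x) ≤ K' * energy T ε u) ∧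
    ∀ k, ∫ x in D.Fk k, dot (vv ε u x - a - V₀ • zv D.q0 - mulV Om x)
      (vv ε u x - a - V₀ • zv D.q0 - mulV Om x) ≤ K' * energy T ε u

/-- C5d: transport of the force near the plane along the mid-sheet into the frame -/
def StmtTran (d : ℕ) : Prop := ∀ (D : Dat d) (K η : ℝ), D.Prof K → D.Lin K η →
  ∀ α β : ℝ, 0 < α → ∃ (K' : ℝ) (L₀ : ℕ), 0 ≤ K' ∧ ∀ (L : ℕ), L₀ ≤ L → 0 < L →
  ∀ (C : Tens d) (F : (Fin d → ℤ) → Tens d) (Ls : Tens d) (T : V d → Tens d),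
    (∀ ξ, α * nsq ξ ≤ C.Q ξ) → (∀ z, z ≠ 0 → FibLike α β (zv z) (F z)) →
    D.IsGad L C F Ls T → IsFld T 0 β →
  ∀ (ε : M d) (u : Disp d) (k : Fin d) (j : Fin D.J) (c : V d) (Om : M d) (X : ℝ),
    (∀ i j, Om i j = - Om j i) →
    (∫ x in D.Fk k, dot (vv ε u x - c - mulV Om x) (vv ε u x - c - mulV Om x) ≤ X) →
    |∫ x in win k ∩ {x | |x k| ≤ D.h}, deriv (deriv D.mu) (x k) * D.P k j (D.xs L k x) *
      (vv ε u x (D.l k) - c (D.l k) - mulV Om x (D.l k))| ≤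
      K' * (Real.sqrt (energy T ε u) + Real.sqrt X)

/-- C5: bound of the work of the forces -/
def StmtCrude (d : ℕ) : Prop := ∀ (D : Dat d) (K η : ℝ), D.Prof K → D.Lin K η →
  ∀ α β : ℝ, 0 < α → ∃ (K' : ℝ) (L₀ : ℕ), 0 ≤ K' ∧ ∀ (L : ℕ), L₀ ≤ L → 0 < L →
  ∀ (C : Tens d) (F : (Fin d → ℤ) → Tens d) (Ls : Tens d) (T : V d → Tens d),
    (∀ ξ, α * nsq ξ ≤ C.Q ξ) → (∀ z, z ≠ 0 → FibLike α β (zv z) (F z)) →
    ShLike α β (zv D.q0) Ls → D.IsGad L C F Ls T → IsFld T 0 β →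
  ∀ σ : Fin D.J → ℝ, (∑ k, D.E k * ∑ j, σ j * (D.u j k : ℝ) ^ 2 = 0) →
  ∀ (ε : M d) (u : Disp d),
    |∑ k, ∑ j, σ j * ∫ x in cell d, (D.bf L k j x) * u.u x (D.l k)| ≤
      K' / L * (∑ j, |σ j|) * (Real.sqrt (energy T ε u) + Real.sqrt (nsq ε))

/-- C6: lower bound -/
def StmtLower (d : ℕ) : Prop := ∀ (B : Comb d) (K : ℝ) (σ : Fin B.J → M d → ℝ),
  (∀ j S, (σ j S) ^ 2 ≤ K * nsq S) → (∀ S : M d, symm S = ∑ j, σ j S • oo (zv (B.u j))) →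
  ∀ α β : ℝ, 0 < α → α ≤ β → ∃ K' : ℝ, 0 ≤ K' ∧ ∀ (D : Dat d) (η : ℝ), 0 < η → η ≤ 1 → D.toComb = B →
  D.Prof K → D.Lin K η → ∃ L₀ : ℕ, ∀ (L : ℕ), L₀ ≤ L →
  ∀ (C : Tens d) (F : (Fin d → ℤ) → Tens d) (Ls : Tens d) (T : V d → Tens d),
    (∀ ξ, α * nsq ξ ≤ C.Q ξ ∧ C.Q ξ ≤ β * nsq ξ) → (∀ z, z ≠ 0 → FibLike α β (zv z) (F z)) →
    ShLike α β (zv D.q0) Ls → D.IsGad L C F Ls T → IsFld T 0 β →
  ∀ ε : M d, C.Q ε - (ip (C.C (dg B.E)) ε) ^ 2 / C.Q (dg B.E) - K' * (D.w + η) * nsq ε ≤ eff T ε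

/-! ### the easy displacement (C7) -/

namespace Dat
variable (D : Dat d)
def vtr (x : V d) : V d := fun i => D.E i * D.S (x i)
def Al (L : ℕ) (k : Fin d) (x : V d) : ℝ :=
  (L : ℝ) * D.q0 (D.l k) + D.E (D.l k) * (x (D.l k) - D.S (x (D.l k)))
def Th (x : V d) : ℝ := 1 - ∏ i, (1 - D.thF (x i))
def vedge (L : ℕ) (x : V d) : V d :=
  fun i => (1 - D.Th x) * D.vtr x i + D.Th x * ((L : ℝ) * D.q0 i + D.E i * x i)
def vpat (L : ℕ) (k : Fin d) (j : Fin D.J) (x : V d) : V d :=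
  D.vtr x + (D.th (x k) * D.Al L k x) •
    (Pi.single (D.l k) 1 - ((D.u j (D.l k) : ℝ) / D.u j k) • Pi.single k 1)
def cut (k : Fin d) (j : Fin D.J) (x : V d) : ℝ :=
  D.ch j (x (D.l k)) * ∏ i ∈ Finset.univ.erase k, D.cw (x i)
/-- the easy displacement (for the macroscopic strain `E`) -/
def easyv (L : ℕ) (x : V d) : V d :=
  D.vedge L x + ∑ k, ∑ j, D.cut k j x • (D.vpat L k j x - D.vedge L x)
/-- its periodic part -/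
def easyy (L : ℕ) (x : V d) : V d := fun i => D.easyv L x i - D.E i * x i
end Dat

/-- C7a: smooth and periodic -/
def StmtEasyDisp (d : ℕ) : Prop := ∀ (D : Dat d) (K : ℝ), D.Prof K → ∀ L : ℕ,
  ContDiff ℝ ∞ (D.easyy L) ∧ Per (D.easyy L)

/-- C7b: blocks, frame and nodes -/
def StmtEasyB (d : ℕ) : Prop := ∀ (B : Comb d), ∃ K' : ℝ, 0 ≤ K' ∧
  ∀ (D : Dat d) (K : ℝ), D.toComb = B → D.Prof K → ∀ L : ℕ,
    (∀ x, (∀ i, D.h ≤ pd (x i)) → grad (D.easyy L) x = - dg D.E) ∧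
    (∀ x ∈ D.RB, nsq (grad (D.easyy L) x) ≤ K')

/-- C7c: sheets and negative fibres -/
def StmtEasyS (d : ℕ) : Prop := ∀ (D : Dat d) (K : ℝ), D.Prof K → ∀ L : ℕ,
    (∀ k, ∀ x ∈ D.RS k, grad (D.easyy L) x (D.l k) (D.l k) = 0) ∧
    (∀ k j, ∀ x ∈ D.RU k j, ip (oo (zv (D.u j))) (grad (D.easyy L) x) =
      - ∑ i, D.E i * (D.u j i : ℝ) ^ 2)

/-- C7d: positive fibres -/
def StmtEasyG (d : ℕ) : Prop := ∀ (B : Comb d), ∃ K' : ℝ, 0 ≤ K' ∧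
  ∀ (D : Dat d) (K : ℝ), D.toComb = B → D.Prof K → ∃ L₀ : ℕ, ∀ L : ℕ, L₀ ≤ L → 0 < L →
    ∀ k j, ∀ x ∈ D.RG k j, |ip (oo (zv (D.g L k j))) (grad (D.easyy L) x)| ≤
      K' * dot (zv (D.g L k j)) (zv (D.g L k j))

/-- C7e: vertex zone -/
def StmtEasyZ (d : ℕ) : Prop := ∀ (B : Comb d) (K : ℝ), ∃ K' : ℝ, 0 ≤ K' ∧
  ∀ (D : Dat d), D.toComb = B → D.Prof K → ∀ L : ℕ,
    ∀ x ∈ D.RZ, ∃ a : V d, nsq (grad (D.easyy L) x - sd a (zv D.q0)) ≤ K'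

/-- C7: upper bound -/
def StmtUpper (d : ℕ) : Prop := ∀ (B : Comb d) (K : ℝ), ∀ α β : ℝ, 0 < α → α ≤ β →
  ∃ K' : ℝ, 0 ≤ K' ∧ ∀ (D : Dat d) (η : ℝ), D.toComb = B →
  D.Prof K → D.Lin K η → ∃ L₀ : ℕ, ∀ (L : ℕ), L₀ ≤ L →
  ∀ (C : Tens d) (F : (Fin d → ℤ) → Tens d) (Ls : Tens d) (T : V d → Tens d),
    (∀ ξ, α * nsq ξ ≤ C.Q ξ ∧ C.Q ξ ≤ β * nsq ξ) → (∀ z, z ≠ 0 → FibLike α β (zv z) (F z)) →
    ShLike α β (zv D.q0) Ls → D.IsGad L C F Ls T → IsFld T 0 β →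
  ∀ ε : M d, eff T ε ≤ C.Q ε - (ip (C.C (dg B.E)) ε) ^ 2 / C.Q (dg B.E) + K' * D.w * nsq ε

end Pool.Agent.Lib.MP_5df1bf_an
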