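import Pool.Agent.Lib.MP_5df1bf_an.Stmts2

/-!
# MP_5df1bf_an: supports of the stresses (StmtSupp, StmtZone)
-/

open MeasureTheory Filter Topology
open scoped BigOperators ContDiff

noncomputable section

namespace Pool.Agent.Lib.MP_5df1bf_an

variable {d : ℕ}

namespace ZoneAux

/-! ### distance to the integers -/

lemma pd_le (t : ℝ) (n : ℤ) : pd t ≤ |t - n| := round_le t n

lemma pd_nonneg (t : ℝ) : 0 ≤ pd t := abs_nonneg _

lemma pd_half (t : ℝ) : pd t ≤ 1 / 2 := abs_sub_round t

lemma pd_lip (s t : ℝ) : pd s ≤ pd t + |s - t| := by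
  have h1 := pd_le s (round t)
  have h2 : |s - round t| ≤ |t - round t| + |s - t| := by
    have : s - round t = (t - round t) + (s - t) := by ring
    rw [this]; exact abs_add_le _ _
  exact h1.trans h2

lemma pd_add_int (t : ℝ) (n : ℤ) : pd (t + n) = pd t := by
  apply le_antisymm
  · have := pd_le (t + n) (round t + n)
    push_cast at this
    have e : t + n - (round t + n) = t - round t := by ring
    rw [e] at this
    exact this
  · have := pd_le t (round (t + n) - n)
    push_cast at this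
    have e : t - (round (t + n) - n) = t + n - round (t + n) := by ring
    rw [e] at this
    exact this

lemma pd_cont : Continuous pd := by
  refine continuous_iff_continuousAt.mpr fun t => ?_
  rw [Metric.continuousAt_iff]
  intro ε hε
  refine ⟨ε, hε, fun {s} hs => ?_⟩
  rw [Real.dist_eq] at hs ⊢
  have h1 := pd_lip s t
  have h2 := pd_lip t s
  rw [abs_sub_comm t s] at h2
  rw [abs_lt]
  constructor <;> linarith

lemma pd_of_small {t : ℝ} (h : |t| ≤ 1 / 2) : pd t = |t| := by
  apply le_antisymm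
  · have := pd_le t 0
    simpa using this
  · by_contra hlt
    push Not at hlt
    unfold pd at hlt
    by_cases h0 : round t = 0
    · rw [h0] at hlt; simp at hlt
    · have h1 : (1 : ℝ) ≤ |((round t : ℤ) : ℝ)| := by
        have := Int.one_le_abs h0
        exact_mod_cast this
      have h2 : |((round t : ℤ) : ℝ)| ≤ |t| + |t - round t| := by
        have : ((round t : ℤ) : ℝ) = t - (t - round t) := by ring
        rw [this]
        have h3 := abs_sub t (t - round t)
        simpa using h3
      linarith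

/-- a linear combination is close to an integer -/
lemma pd_lin {a b s t r q : ℝ} {m n : ℤ} (hm : |(m : ℝ)| ≤ 3) (hn : |(n : ℝ)| ≤ 3) (hs : pd s ≤ a)
    (ht : pd t ≤ b) (e : r = m * s - n * t + q) : pd r ≤ 3 * a + 3 * b + |q| := by
  have h1 := pd_le r (m * round s - n * round t)
  push_cast at h1
  have h2 : r - (m * round s - n * round t) = m * (s - round s) - n * (t - round t) + q := by
    rw [e]; ring
  rw [h2] at h1
  have h3 : |m * (s - round s) - n * (t - round t) + q| ≤
      |(m : ℝ)| * |s - round s| + |(n : ℝ)| * |t - round t| + |q| := by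
    rw [← abs_mul, ← abs_mul]
    refine (abs_add_le _ _).trans ?_
    gcongr
    have := abs_sub ((m : ℝ) * (s - round s)) (n * (t - round t))
    exact this
  have ha : |s - round s| ≤ a := hs
  have hb : |t - round t| ≤ b := ht
  have h4 : |(m : ℝ)| * |s - round s| ≤ 3 * a := by gcongr
  have h5 : |(n : ℝ)| * |t - round t| ≤ 3 * b := by gcongr
  linarith

section consts

variable (D : Dat d)

lemma J_pos : (0 : ℝ) < D.J := by exact_mod_cast D.Jpos
lemma J_one : (1 : ℝ) ≤ D.J := by exact_mod_cast D.Jpos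
lemma N_pos : (0 : ℝ) < D.N := by exact_mod_cast D.Npos
lemma w_pos : 0 < D.w := by unfold Dat.w; exact div_pos one_pos (N_pos D)
lemma h_pos : 0 < D.h := by
  unfold Dat.h; exact div_pos (w_pos D) (mul_pos (by norm_num) (J_pos D))
lemma w_eq : D.w = 64 * D.J * D.h := by
  unfold Dat.h
  have := J_pos D
  field_simp
lemma a_eq : D.a = 16 * D.h := by
  unfold Dat.a Dat.h
  have := J_pos D
  field_simp
  ring
lemma w8_eq : D.w / (8 * D.J) = 8 * D.h := by
  unfold Dat.h
  have := J_pos D
  field_simp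
  norm_num
lemma h_le : 64 * D.h ≤ D.w := by
  rw [w_eq]
  have := J_one D
  have := h_pos D
  nlinarith
lemma w_le : D.w ≤ 1 / 6 := by
  have h6 : 6 ≤ D.N := Nat.le_of_dvd D.Npos D.Ndvd
  have h6' : (6 : ℝ) ≤ D.N := by exact_mod_cast h6
  unfold Dat.w
  exact one_div_le_one_div_of_le (by norm_num) h6'
lemma b_eq : D.b = D.h / 64 := rfl
lemma b_pos : 0 < D.b := by rw [b_eq]; exact div_pos (h_pos D) (by norm_num)

lemma u_pos (j : Fin D.J) (i : Fin d) : (1 : ℝ) ≤ D.u j i ∧ (D.u j i : ℝ) ≤ 3 ∧
    |(D.u j i : ℝ)| ≤ 3 := by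
  have h := D.u_rng j i
  have h1 : (1 : ℝ) ≤ D.u j i := by exact_mod_cast h.1
  have h2 : (D.u j i : ℝ) ≤ 3 := by exact_mod_cast h.2
  exact ⟨h1, h2, by rw [abs_of_nonneg (by linarith)]; exact h2⟩

end consts

section prof

variable {D : Dat d} {K : ℝ} (hP : D.Prof K)

include hP

omit hP in
lemma per_int {f : ℝ → ℝ} (hf : ∀ t, f (t + 1) = f t) (t : ℝ) (n : ℤ) : f (t + n) = f t := by
  have h : Function.Periodic f 1 := hf
  have := h.int_mul n t
  simpa using this

lemma mu_far {t : ℝ} (h : 4 * D.h + D.b / 2 ≤ pd t) : D.mu t = 0 := by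
  have hh := h_pos D
  have hb := b_pos D
  have e : D.mu (t - round t) = D.mu t := by
    have := per_int hP.mu_per (t - round t) (round t)
    rw [sub_add_cancel] at this
    exact this.symm
  rw [← e]
  have h1 := abs_le.mp (pd_half t)
  have h2 : 4 * D.h + D.b / 2 ≤ |t - round t| := h
  refine hP.mu_zero _ (by linarith [h1.1]) (by linarith [h1.2]) ?_
  rcases le_abs.mp h2 with h3 | h3
  · right; exact h3
  · left; linarith

omit hP in
lemma deriv_shift {f : ℝ → ℝ} (hf : ∀ t, f (t + 1) = f t) (t : ℝ) (n : ℤ) :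
    deriv f (t + n) = deriv f t := by
  have e : (fun s => f (s + n)) = f := by
    funext s; exact per_int hf s n
  have := deriv_comp_add_const f (n : ℝ) t
  rw [e] at this
  exact this.symm

lemma mu_der_far {t : ℝ} (h : 4 * D.h + D.b / 2 < pd t) : deriv D.mu t = 0 := by
  have h1 : D.mu =ᶠ[𝓝 t] fun _ => 0 := by
    have h2 : ∀ᶠ s in 𝓝 t, 4 * D.h + D.b / 2 < pd s :=
      (isOpen_lt continuous_const pd_cont).mem_nhds h
    filter_upwards [h2] with s hs
    exact mu_far hP hs.le
  rw [h1.deriv_eq]; simp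

lemma mu_der_neg {t : ℝ} (h1 : D.b ≤ pd t) (h3 : t < round t) : deriv D.mu t = 0 := by
  have hb := b_pos D
  have e : deriv D.mu (t - round t) = deriv D.mu t := by
    have := deriv_shift hP.mu_per (t - round t) (round t)
    rw [sub_add_cancel] at this
    exact this.symm
  rw [← e]
  set τ := t - round t with hτ
  have hneg : τ ≤ - D.b := by
    have : D.b ≤ |τ| := h1
    rw [abs_of_neg (by rw [hτ]; linarith)] at this
    linarith
  have hhalf : |τ| ≤ 1 / 2 := pd_half t
  have h4 := (abs_le.mp hhalf).1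
  by_cases h5 : τ < - (1 / 4)
  · -- far from the integers
    have h6 : deriv D.mu τ = 0 := by
      apply mu_der_far hP
      rw [pd_of_small hhalf, abs_of_neg (by linarith)]
      have := h_le D
      have := w_le D
      have := b_eq D
      have := h_pos D
      linarith
    exact h6
  · push Not at h5
    have h1 : D.mu =ᶠ[𝓝 τ] fun _ => 0 := by
      have h2 : ∀ᶠ s in 𝓝 τ, s < -(D.b / 2) := (isOpen_Iio).mem_nhds (by
        show τ < -(D.b / 2); linarith)
      have h2' : ∀ᶠ s in 𝓝 τ, -(1 / 2) < s := (isOpen_Ioi).mem_nhds (by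
        show -(1 / 2) < τ; linarith)
      filter_upwards [h2, h2'] with s hs hs'
      exact hP.mu_zero s hs'.le (by linarith) (Or.inl hs.le)
    rw [h1.deriv_eq]; simp

lemma mu_der_pos {t : ℝ} (h1 : D.b ≤ pd t) (h2 : pd t < D.h) (h3 : round t < t) :
    deriv D.mu t = 1 := by
  have hb := b_pos D
  have e : deriv D.mu (t - round t) = deriv D.mu t := by
    have := deriv_shift hP.mu_per (t - round t) (round t)
    rw [sub_add_cancel] at this
    exact this.symm
  rw [← e]
  have hpos : 0 < t - round t := by linarith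
  have e1 : pd t = t - round t := abs_of_pos hpos
  rw [e1] at h1 h2
  have := h_pos D
  have := b_eq D
  exact hP.mu_one _ (by linarith) (by linarith)

lemma psi_near {t : ℝ} (h : pd t < 5 * D.h) :
    D.psi t = 1 ∧ deriv D.psi t = 0 ∧ deriv (deriv D.psi) t = 0 := by
  have h1 : D.psi =ᶠ[𝓝 t] fun _ => 1 := by
    have h2 : ∀ᶠ s in 𝓝 t, pd s < 5 * D.h := (isOpen_lt pd_cont continuous_const).mem_nhds h
    filter_upwards [h2] with s hs
    exact hP.psi_one s hs.le
  have h3 : deriv D.psi =ᶠ[𝓝 t] fun _ => 0 := by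
    have := h1.deriv
    simpa using this
  refine ⟨hP.psi_one t h.le, ?_, ?_⟩
  · exact h3.eq_of_nhds
  · rw [h3.deriv_eq]; simp

lemma psi_der_zero {t : ℝ} (h : D.w / 2 ≤ pd t) : deriv D.psi t = 0 := by
  have h0 := hP.psi_zero t h
  have : IsLocalMin D.psi t := by
    refine Filter.Eventually.of_forall fun s => ?_
    show D.psi t ≤ D.psi s
    rw [h0]
    exact (hP.psi_rng s).1
  exact this.deriv_eq_zero

omit hP in
/-- one-sided neighbourhoods -/
lemma one_side {t : ℝ} (h : D.w / 2 ≤ pd t) :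
    (∀ s ∈ Set.Icc t (t + 1 / 24), D.w / 2 ≤ pd s) ∨
    (∀ s ∈ Set.Icc (t - 1 / 24) t, D.w / 2 ≤ pd s) := by
  have hw := w_le D
  have hw0 := w_pos D
  by_cases h1 : pd t ≤ 1 / 4
  · rcases le_abs.mp (show D.w / 2 ≤ |t - round t| from h) with h2 | h2
    · left
      intro s hs
      have h3 : |t - round t| ≤ 1 / 4 := h1
      have h4 := (abs_le.mp h3).2
      have e : pd s = |s - round t| := by
        have e1 : pd s = pd (s - round t) := by
          have := pd_add_int (s - round t) (round t)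
          rw [sub_add_cancel] at this
          exact this
        rw [e1, pd_of_small]
        rw [abs_le]
        constructor <;> linarith [hs.1, hs.2]
      rw [e]
      exact (by linarith [hs.1] : D.w / 2 ≤ s - round t).trans (le_abs_self _)
    · right
      intro s hs
      have h3 : |t - round t| ≤ 1 / 4 := h1
      have h4 := (abs_le.mp h3).1
      have e : pd s = |s - round t| := by
        have e1 : pd s = pd (s - round t) := by
          have := pd_add_int (s - round t) (round t)
          rw [sub_add_cancel] at this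
          exact this
        rw [e1, pd_of_small]
        rw [abs_le]
        constructor <;> linarith [hs.1, hs.2]
      rw [e]
      exact (by linarith [hs.2] : D.w / 2 ≤ -(s - round t)).trans (neg_le_abs _)
  · left
    intro s hs
    push Not at h1
    have h2 := pd_lip t s
    have h3 : |t - s| ≤ 1 / 24 := by
      rw [abs_le]; constructor <;> linarith [hs.1, hs.2]
    linarith

lemma psi_der2_zero {t : ℝ} (h : D.w / 2 ≤ pd t) : deriv (deriv D.psi) t = 0 := by
  have hsm : ContDiff ℝ ∞ (deriv D.psi) := by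
    have h1 : ContDiff ℝ (∞ + 1) D.psi := by simpa using hP.psi_sm
    exact ((contDiff_succ_iff_deriv).mp h1).2.2
  have hd : HasDerivAt (deriv D.psi) (deriv (deriv D.psi) t) t :=
    (hsm.differentiable (by simp) t).hasDerivAt
  rcases one_side h with h1 | h1
  · have hI : UniqueDiffWithinAt ℝ (Set.Icc t (t + 1 / 24)) t :=
      (uniqueDiffOn_Icc (by linarith)) t ⟨le_rfl, by linarith⟩
    have e0 : HasDerivWithinAt (deriv D.psi) 0 (Set.Icc t (t + 1 / 24)) t := by
      refine (hasDerivWithinAt_const t _ (0 : ℝ)).congr (fun s hs => ?_) ?_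
      · exact psi_der_zero hP (h1 s hs)
      · exact psi_der_zero hP h
    exact hI.eq_deriv _ hd.hasDerivWithinAt e0
  · have hI : UniqueDiffWithinAt ℝ (Set.Icc (t - 1 / 24) t) t :=
      (uniqueDiffOn_Icc (by linarith)) t ⟨by linarith, le_rfl⟩
    have e0 : HasDerivWithinAt (deriv D.psi) 0 (Set.Icc (t - 1 / 24) t) t := by
      refine (hasDerivWithinAt_const t _ (0 : ℝ)).congr (fun s hs => ?_) ?_
      · exact psi_der_zero hP (h1 s hs)
      · exact psi_der_zero hP h
    exact hI.eq_deriv _ hd.hasDerivWithinAt e0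

end prof

section supp

variable {D : Dat d} {K η : ℝ} (hP : D.Prof K) (hL : D.Lin K η) {L : ℕ} (hL0 : 0 < L)
  (hLk : ∀ k, |(D.kk k : ℝ)| ≤ L)

include hP hL0 hLk in
lemma sh_bd (k : Fin d) (x : V d) : |D.sh L k x| ≤ 4 * D.h := by
  have hL' : (0 : ℝ) < L := by exact_mod_cast hL0
  unfold Dat.sh
  rw [abs_mul, abs_div, abs_of_pos hL']
  have h1 : |(D.kk k : ℝ)| / L ≤ 1 := by
    rw [div_le_one hL']; exact hLk k
  have h2 : |D.mu (x k)| ≤ 4 * D.h := by
    rw [abs_of_nonneg (hP.mu_rng _).1]; exact (hP.mu_rng _).2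
  calc |(D.kk k : ℝ)| / L * |D.mu (x k)| ≤ 1 * (4 * D.h) := by
        gcongr
    _ = 4 * D.h := one_mul _

include hL in
lemma r_ne {j : Fin D.J} {x : V d} (h : D.r j x ≠ 0) (i m : Fin d) (him : i ≠ m) :
    30 * D.w < pd (D.u j m * x i - D.u j i * x m) := by
  by_contra hcon
  push Not at hcon
  exact h (hL.r_zero j x i m him hcon)

include hP hL hL0 hLk in
lemma supp_main (k : Fin d) (j : Fin D.J) (x : V d) (h : D.P k j (D.xs L k x) ≠ 0)
    (hx : pd (x k) ≤ 5 * D.h) :
    (∀ i, i ≠ k → 6 * D.w ≤ pd (x i)) ∧ (pd (x k) < D.h → D.pat k j x) := by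
  obtain ⟨⟨s, hs, hr⟩, n, hn⟩ := hL.P_supp k j _ h
  have hlk := D.l_ne k
  have hsh := sh_bd hP hL0 hLk k x
  have hw := w_pos D
  have hh := h_pos D
  have hhw := h_le D
  have h1 : ∀ i, i ≠ k → 6 * D.w ≤ pd (x i) := by
    intro i hi
    have h2 := r_ne hL hr i k hi
    set y : V d := D.xs L k x + Pi.single (D.l k) s with hy
    have hyk : y k = x k := by
      simp [hy, Dat.xs, Pi.single_apply, Ne.symm hlk]
    have hyi : |y i - x i| ≤ 2 * D.w + 4 * D.h := by
      by_cases hil : i = D.l k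
      · have : y i - x i = s - D.sh L k x := by
          simp [hy, Dat.xs, hil]; ring
        rw [this]
        have := abs_sub s (D.sh L k x)
        linarith
      · have : y i - x i = 0 := by
          simp [hy, Dat.xs, Pi.single_apply, hil]
        rw [this, abs_zero]; linarith
    obtain ⟨hu1, hu2, hu3⟩ := u_pos D j k
    obtain ⟨hv1, hv2, hv3⟩ := u_pos D j i
    have h3 := pd_lin (r := D.u j k * y i - D.u j i * y k) (q := D.u j k * (y i - x i))
      hu3 hv3 (le_refl (pd (x i))) hx (by rw [hyk]; ring)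
    have h4 : |(D.u j k : ℝ) * (y i - x i)| ≤ 3 * (2 * D.w + 4 * D.h) := by
      rw [abs_mul]; gcongr
    linarith
  refine ⟨h1, fun hk => ⟨?_, fun i hi => by linarith [h1 i hi]⟩⟩
  -- the patch
  have hxs_l : D.xs L k x (D.l k) = x (D.l k) - D.sh L k x := by simp [Dat.xs]
  have hxs_k : D.xs L k x k = x k := by simp [Dat.xs, Pi.single_apply, Ne.symm hlk]
  rw [hxs_l, hxs_k] at hn
  obtain ⟨hu1, hu2, hu3⟩ := u_pos D j k
  obtain ⟨hv1, hv2, hv3⟩ := u_pos D j (D.l k)
  have hdiv : (D.u j k) ∣ (D.N : ℤ) := by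
    have h6 : (6 : ℤ) ∣ D.N := by exact_mod_cast D.Ndvd
    have hr := D.u_rng j k
    have : D.u j k = 1 ∨ D.u j k = 2 ∨ D.u j k = 3 := by omega
    rcases this with h | h | h
    · rw [h]; exact one_dvd _
    · rw [h]; exact (by norm_num : (2 : ℤ) ∣ 6).trans h6
    · rw [h]; exact (by norm_num : (3 : ℤ) ∣ 6).trans h6
  obtain ⟨c, hc⟩ := hdiv
  have hNw : (D.N : ℝ) * D.w = 1 := by
    unfold Dat.w; field_simp [(N_pos D).ne']
  have hcr : (D.N : ℝ) = D.u j k * c := by exact_mod_cast hc
  have hu0 : (D.u j k : ℝ) ≠ 0 := by linarith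
  have hq : (D.u j (D.l k) : ℝ) / D.u j k * (round (x k) : ℝ) =
      ((D.u j (D.l k) * c * round (x k) : ℤ) : ℝ) * D.w := by
    push_cast
    have : (c : ℝ) * D.w = 1 / D.u j k := by
      field_simp
      rw [← hNw, hcr]; ring
    calc (D.u j (D.l k) : ℝ) / D.u j k * (round (x k) : ℝ)
        = D.u j (D.l k) * (1 / D.u j k) * (round (x k) : ℝ) := by ring
      _ = D.u j (D.l k) * (c * D.w) * (round (x k) : ℝ) := by rw [this]
      _ = _ := by ring
  refine ⟨n + D.u j (D.l k) * c * round (x k), ?_⟩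
  rw [a_eq]
  rw [w8_eq] at hn
  have hk' : |x k - round (x k)| < D.h := hk
  have e : x (D.l k) - (D.p j + ((n + D.u j (D.l k) * c * round (x k) : ℤ) : ℝ)) * D.w =
      (x (D.l k) - D.sh L k x - (D.u j (D.l k) : ℝ) / D.u j k * x k - (D.p j + n) * D.w) +
      D.sh L k x + (D.u j (D.l k) : ℝ) / D.u j k * (x k - round (x k)) := by
    rw [mul_sub, hq]
    push_cast
    ring
  rw [e]
  have h5 : |(D.u j (D.l k) : ℝ) / D.u j k * (x k - round (x k))| ≤ 3 * D.h := by
    rw [abs_mul]
    have : |(D.u j (D.l k) : ℝ) / D.u j k| ≤ 3 := by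
      rw [abs_of_nonneg (by positivity), div_le_iff₀ (by linarith)]
      nlinarith
    gcongr
  have h6 := abs_add_le ((x (D.l k) - D.sh L k x - (D.u j (D.l k) : ℝ) / D.u j k * x k -
    (D.p j + n) * D.w) + D.sh L k x) ((D.u j (D.l k) : ℝ) / D.u j k * (x k - round (x k)))
  have h7 := abs_add_le (x (D.l k) - D.sh L k x - (D.u j (D.l k) : ℝ) / D.u j k * x k -
    (D.p j + n) * D.w) (D.sh L k x)
  linarith

include hL in
lemma r_near {j : Fin D.J} {x : V d} {k k' : Fin d} (hkk : k' ≠ k) (hk : pd (x k) < D.h)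
    (hk' : pd (x k') < D.w / 2) (m : Fin d) (s : ℝ) (hs : |s| ≤ 3 * D.w) :
    D.r j (x + Pi.single m s) = 0 := by
  have hw := w_pos D
  have hh := h_pos D
  have hhw := h_le D
  apply hL.r_zero j _ k k' (Ne.symm hkk)
  obtain ⟨hu1, hu2, hu3⟩ := u_pos D j k'
  obtain ⟨hv1, hv2, hv3⟩ := u_pos D j k
  set y : V d := x + Pi.single m s with hy
  have h3 := pd_lin (r := D.u j k' * y k - D.u j k * y k')
    (q := D.u j k' * (y k - x k) - D.u j k * (y k' - x k')) hu3 hv3 hk.le hk'.le (by ring)
  have h4 : |(D.u j k' : ℝ) * (y k - x k) - D.u j k * (y k' - x k')| ≤ 3 * (3 * D.w) := by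
    by_cases hmk : k = m
    · have e1 : y k - x k = s := by simp [hy, hmk]
      have e2 : y k' - x k' = 0 := by
        have : k' ≠ m := by rw [← hmk]; exact hkk
        simp [hy, this]
      rw [e1, e2, mul_zero, sub_zero, abs_mul]
      gcongr
    · have e1 : y k - x k = 0 := by simp [hy, hmk]
      by_cases hmk' : k' = m
      · have e2 : y k' - x k' = s := by simp [hy, hmk']
        rw [e1, e2, mul_zero, zero_sub, abs_neg, abs_mul]
        gcongr
      · have e2 : y k' - x k' = 0 := by simp [hy, hmk']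
        rw [e1, e2, mul_zero, mul_zero, sub_zero, abs_zero]
        positivity
  linarith

include hL in
lemma P_near {j : Fin D.J} {x : V d} {k k' : Fin d} (hkk : k' ≠ k) (hk : pd (x k) < D.h)
    (hk' : pd (x k') < D.w / 2) (m : Fin d) (s : ℝ) (hs : |s| ≤ D.w) :
    D.P m j (x + Pi.single (D.l m) s) = 0 := by
  by_contra hne
  obtain ⟨⟨s', hs', hr⟩, -⟩ := hL.P_supp m j _ hne
  apply hr
  rw [add_assoc, ← Pi.single_add]
  refine r_near hL hkk hk hk' _ _ ?_
  have := abs_add_le s s'
  linarith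

include hL in
lemma G_near {j : Fin D.J} {x : V d} {k k' : Fin d} (hkk : k' ≠ k) (hk : pd (x k) < D.h)
    (hk' : pd (x k') < D.w / 2) (m : Fin d) (s : ℝ) (hs : |s| ≤ D.w) :
    D.G m j (x + Pi.single (D.l m) s) = 0 := by
  by_contra hne
  obtain ⟨s', hs', hr⟩ := hL.G_supp m j _ hne
  apply hr
  rw [add_assoc, ← Pi.single_add]
  refine r_near hL hkk hk hk' _ _ ?_
  have := abs_add_le s s'
  linarith

include hL in
lemma dG_near {j : Fin D.J} {x : V d} {k k' : Fin d} (hkk : k' ≠ k) (hk : pd (x k) < D.h)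
    (hk' : pd (x k') < D.w / 2) (m : Fin d) :
    fderiv ℝ (D.G m j) x (Pi.single (D.l m) 1) = 0 := by
  have hw := w_pos D
  have h1 : HasFDerivAt (D.G m j) (fderiv ℝ (D.G m j) x) x :=
    ((hL.G_sm m j).differentiable (by simp) x).hasFDerivAt
  have h2 : HasDerivAt (fun t : ℝ => D.G m j (x + t • Pi.single (D.l m) 1))
      (fderiv ℝ (D.G m j) x (Pi.single (D.l m) 1)) 0 := h1.hasLineDerivAt _
  have h3 : (fun t : ℝ => D.G m j (x + t • Pi.single (D.l m) 1)) =ᶠ[𝓝 0] fun _ => 0 := by
    have h4 : ∀ᶠ t : ℝ in 𝓝 0, |t| < D.w :=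
      (isOpen_lt continuous_abs continuous_const).mem_nhds (by simpa using hw)
    filter_upwards [h4] with t ht
    have e : t • (Pi.single (D.l m) (1 : ℝ) : V d) = Pi.single (D.l m) t := by
      rw [← Pi.single_smul]; simp
    rw [e]
    exact G_near hL hkk hk hk' m t ht.le
  have h5 := h2.congr_of_eventuallyEq h3.symm
  exact h5.unique (hasDerivAt_const 0 (0 : ℝ))

include hP hL hL0 hLk in
lemma zone_main (j : Fin D.J) (k : Fin d) (x : V d) (hk : pd (x k) < D.h) :
    D.Tj L j x = 0 ∨ D.Tj L j x = D.P k j (D.xs L k x) • oo (D.gv L k j x) := by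
  have hw := w_pos D
  have hh := h_pos D
  have hhw := h_le D
  have hb := b_eq D
  by_cases hA : ∃ k', k' ≠ k ∧ pd (x k') < D.w / 2
  · left
    obtain ⟨k', hkk, hk'⟩ := hA
    have r0 : D.r j x = 0 := by
      have := r_near hL (j := j) hkk hk hk' k 0 (by simpa using hw.le)
      simpa using this
    have P0 : ∀ m, D.P m j x = 0 := by
      intro m
      have := P_near hL (j := j) hkk hk hk' m 0 (by simpa using hw.le)
      simpa using this
    have G0 : ∀ m, D.G m j x = 0 := by
      intro m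
      have := G_near hL (j := j) hkk hk hk' m 0 (by simpa using hw.le)
      simpa using this
    have dG0 : ∀ m, fderiv ℝ (D.G m j) x (Pi.single (D.l m) 1) = 0 :=
      fun m => dG_near hL hkk hk hk' m
    have PX : ∀ m, D.P m j (D.xs L m x) = 0 := by
      intro m
      have := P_near hL (j := j) hkk hk hk' m (-(D.sh L m x)) (by
        rw [abs_neg]
        have := sh_bd hP hL0 hLk m x
        linarith)
      rw [Pi.single_neg, ← sub_eq_add_neg] at this
      exact this
    unfold Dat.Tj
    simp [r0, P0, G0, dG0, PX]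
  · right
    push Not at hA
    obtain ⟨p1, p2, p3⟩ := psi_near hP (t := x k) (by linarith)
    have q1 : ∀ m, m ≠ k → D.psi (x m) = 0 := fun m hm => hP.psi_zero _ (hA m hm)
    have q2 : ∀ m, m ≠ k → deriv D.psi (x m) = 0 := fun m hm => psi_der_zero hP (hA m hm)
    have q3 : ∀ m, m ≠ k → deriv (deriv D.psi) (x m) = 0 :=
      fun m hm => psi_der2_zero hP (hA m hm)
    have q4 : ∀ m, m ≠ k → D.xs L m x = x := by
      intro m hm
      have : D.mu (x m) = 0 := mu_far hP (by linarith [hA m hm])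
      unfold Dat.xs Dat.sh
      rw [this]; simp
    have q5 : ∀ m, m ≠ k → D.gv L m j x = zv (D.u j) := by
      intro m hm
      have : deriv D.mu (x m) = 0 := mu_der_far hP (by linarith [hA m hm])
      unfold Dat.gv
      rw [this]; simp
    unfold Dat.Tj
    rw [Finset.sum_eq_single k (fun m _ hm => by rw [q1 m hm]; simp) (by simp),
      Finset.sum_eq_single k (fun m _ hm => by rw [q2 m hm]; simp) (by simp),
      Finset.sum_eq_single k (fun m _ hm => by rw [q3 m hm]; simp) (by simp),
      Finset.sum_eq_single k (fun m _ hm => by rw [q4 m hm, q5 m hm, sub_self]) (by simp),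
      p1, p2, p3]
    simp only [one_mul, mul_zero, zero_mul, zero_smul, sub_zero, add_zero]
    rw [sub_smul]
    abel

end supp

/-- the threshold -/
def L0 (D : Dat d) : ℕ := ∑ k, (D.kk k).natAbs

lemma L0_spec (D : Dat d) {L : ℕ} (h : L0 D ≤ L) (k : Fin d) : |(D.kk k : ℝ)| ≤ L := by
  have h1 : (D.kk k).natAbs ≤ L0 D :=
    Finset.single_le_sum (f := fun k => (D.kk k).natAbs) (fun _ _ => Nat.zero_le _)
      (Finset.mem_univ k)
  have h2 : ((D.kk k).natAbs : ℝ) ≤ L := by exact_mod_cast h1.trans h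
  rwa [Nat.cast_natAbs, Int.cast_abs] at h2

end ZoneAux

open ZoneAux

/-- C5a -/
theorem supp_ok (d : ℕ) : StmtSupp d := by
  intro D K η hP hL
  refine ⟨L0 D, fun L hLL hL0 k j x h hx => ?_⟩
  exact supp_main hP hL hL0 (L0_spec D hLL) k j x h hx

/-- C3 -/
theorem zone_ok (d : ℕ) : StmtZone d := by
  intro D K η hP hL
  refine ⟨L0 D, fun L hLL hL0 j k x hk => ?_⟩
  have hLk := L0_spec D hLL
  have hh := h_pos D
  refine ⟨?_, ?_, ?_, ?_⟩
  · intro hne
    rcases zone_main hP hL hL0 hLk j k x hk with h | h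
    · exact absurd h hne
    · have hPne : D.P k j (D.xs L k x) ≠ 0 := by
        intro h0
        rw [h0, zero_smul] at h
        exact hne h
      exact (supp_main hP hL hL0 hLk k j x hPne (by linarith)).2 hk
  · have hr := hL.P_rng k j (D.xs L k x)
    rcases zone_main hP hL hL0 hLk j k x hk with h | h
    · exact ⟨0, by rw [abs_zero]; linarith, by rw [h, zero_smul]⟩
    · exact ⟨_, by rw [abs_of_nonneg hr.1]; exact hr.2, h⟩
  · intro h1 h2
    unfold Dat.gv
    rw [mu_der_neg hP h1 h2]
    simp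
  · intro h1 h2
    unfold Dat.gv Dat.g
    rw [mu_der_pos hP h1 hk h2]
    have hL' : (L : ℝ) ≠ 0 := by
      have : (0 : ℝ) < L := by exact_mod_cast hL0
      exact this.ne'
    funext i
    simp only [Pi.smul_apply, Pi.add_apply, zv, smul_eq_mul, mul_one, Pi.single_apply]
    push_cast
    by_cases hi : i = D.l k
    · rw [if_pos hi, if_pos hi]
      field_simp
    · rw [if_neg hi, if_neg hi]
      ring

end Pool.Agent.Lib.MP_5df1bf_an
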