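import Pool.Agent.Lib.MP_5df1bf_an.BaseA
import Pool.Agent.Lib.MP_5df1bf_an.Stmts2
import Pool.Agent.Lib.MP_5df1bf_an.Zone

/-!
# MP_5df1bf_an: the easy displacement is smooth and periodic (StmtEasyDisp), and its gradient on the
blocks, the frame and the nodes (StmtEasyB)
-/

open MeasureTheory Filter Topology
open scoped BigOperators ContDiff

noncomputable section

namespace Pool.Agent.Lib.MP_5df1bf_an

variable {d : ℕ}

namespace EasyAux

open ZoneAux

/-! ### first order germs -/

/-- two functions agree to first order at `x` -/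
def A1 (f g : V d → ℝ) (x : V d) : Prop :=
  DifferentiableAt ℝ f x ∧ DifferentiableAt ℝ g x ∧ f x = g x ∧ fderiv ℝ f x = fderiv ℝ g x

lemma A1.refl {f : V d → ℝ} {x : V d} (h : DifferentiableAt ℝ f x) : A1 f f x := ⟨h, h, rfl, rfl⟩

lemma A1.trans {f g k : V d → ℝ} {x : V d} (h : A1 f g x) (h' : A1 g k x) : A1 f k x :=
  ⟨h.1, h'.2.1, h.2.2.1.trans h'.2.2.1, h.2.2.2.trans h'.2.2.2⟩

lemma A1.add {f g f' g' : V d → ℝ} {x : V d} (h : A1 f g x) (h' : A1 f' g' x) :
    A1 (fun y => f y + f' y) (fun y => g y + g' y) x := by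
  refine ⟨h.1.add h'.1, h.2.1.add h'.2.1, by simp [h.2.2.1, h'.2.2.1], ?_⟩
  rw [fderiv_fun_add h.1 h'.1, fderiv_fun_add h.2.1 h'.2.1, h.2.2.2, h'.2.2.2]

lemma A1.sub {f g f' g' : V d → ℝ} {x : V d} (h : A1 f g x) (h' : A1 f' g' x) :
    A1 (fun y => f y - f' y) (fun y => g y - g' y) x := by
  refine ⟨h.1.sub h'.1, h.2.1.sub h'.2.1, by simp [h.2.2.1, h'.2.2.1], ?_⟩
  rw [fderiv_fun_sub h.1 h'.1, fderiv_fun_sub h.2.1 h'.2.1, h.2.2.2, h'.2.2.2]

lemma A1.mul {f g f' g' : V d → ℝ} {x : V d} (h : A1 f g x) (h' : A1 f' g' x) :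
    A1 (fun y => f y * f' y) (fun y => g y * g' y) x := by
  refine ⟨h.1.mul h'.1, h.2.1.mul h'.2.1, by simp [h.2.2.1, h'.2.2.1], ?_⟩
  rw [fderiv_fun_mul h.1 h'.1, fderiv_fun_mul h.2.1 h'.2.1, h.2.2.2, h'.2.2.2, h.2.2.1, h'.2.2.1]

lemma A1.congr {f g f' g' : V d → ℝ} {x : V d} (h : A1 f g x) (hf : ∀ y, f' y = f y)
    (hg : ∀ y, g' y = g y) : A1 f' g' x := by
  have e1 : f' = f := funext hf
  have e2 : g' = g := funext hg
  rw [e1, e2]; exact h

lemma A1.sum {ι : Type*} (s : Finset ι) {f g : ι → V d → ℝ} {x : V d}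
    (h : ∀ i ∈ s, A1 (f i) (g i) x) :
    A1 (fun y => ∑ i ∈ s, f i y) (fun y => ∑ i ∈ s, g i y) x := by
  classical
  induction s using Finset.induction_on with
  | empty => simpa using A1.refl (differentiableAt_const (0 : ℝ))
  | insert i s hi ih =>
    have h1 := h i (Finset.mem_insert_self i s)
    have h2 := ih fun j hj => h j (Finset.mem_insert_of_mem hj)
    refine (h1.add h2).congr (fun y => ?_) (fun y => ?_)
    · rw [Finset.sum_insert hi]
    · rw [Finset.sum_insert hi]

lemma A1.prod {ι : Type*} (s : Finset ι) {f g : ι → V d → ℝ} {x : V d}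
    (h : ∀ i ∈ s, A1 (f i) (g i) x) :
    A1 (fun y => ∏ i ∈ s, f i y) (fun y => ∏ i ∈ s, g i y) x := by
  classical
  induction s using Finset.induction_on with
  | empty => simpa using A1.refl (differentiableAt_const (1 : ℝ))
  | insert i s hi ih =>
    have h1 := h i (Finset.mem_insert_self i s)
    have h2 := ih fun j hj => h j (Finset.mem_insert_of_mem hj)
    refine (h1.mul h2).congr (fun y => ?_) (fun y => ?_)
    · rw [Finset.prod_insert hi]
    · rw [Finset.prod_insert hi]

/-- a product with a factor which vanishes to first order -/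
lemma A1.prod_zero {ι : Type*} (s : Finset ι) {f : ι → V d → ℝ} {x : V d}
    (hd : ∀ i ∈ s, DifferentiableAt ℝ (f i) x) (i : ι) (hi : i ∈ s)
    (h : A1 (f i) (fun _ => 0) x) : A1 (fun y => ∏ i ∈ s, f i y) (fun _ => 0) x := by
  classical
  have h1 : A1 (fun y => ∏ j ∈ s.erase i, f j y) (fun y => ∏ j ∈ s.erase i, f j y) x :=
    A1.prod _ fun j hj => A1.refl (hd j (Finset.mem_of_mem_erase hj))
  refine (h.mul h1).congr (fun y => ?_) (fun y => ?_)
  · exact (Finset.mul_prod_erase s (fun j => f j y) hi).symm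
  · simp

lemma A1.prod_one {ι : Type*} (s : Finset ι) {f : ι → V d → ℝ} {x : V d}
    (h : ∀ i ∈ s, A1 (f i) (fun _ => 1) x) : A1 (fun y => ∏ i ∈ s, f i y) (fun _ => 1) x :=
  (A1.prod s h).congr (fun _ => rfl) (fun _ => by simp)

lemma diff_coord (i : Fin d) (x : V d) : DifferentiableAt ℝ (fun y : V d => y i) x :=
  (ContinuousLinearMap.proj (R := ℝ) (φ := fun _ : Fin d => ℝ) i).differentiableAt

lemma diff_cmul (c : ℝ) (i : Fin d) (x : V d) : DifferentiableAt ℝ (fun y : V d => c * y i) x :=
  (differentiableAt_const c).mul (diff_coord i x)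

lemma fderiv_coord (i j : Fin d) (x : V d) :
    fderiv ℝ (fun y : V d => y i) x (Pi.single j 1) = if i = j then 1 else 0 := by
  have h : HasFDerivAt (fun y : V d => y i)
      (ContinuousLinearMap.proj (R := ℝ) (φ := fun _ : Fin d => ℝ) i) x :=
    (ContinuousLinearMap.proj (R := ℝ) (φ := fun _ : Fin d => ℝ) i).hasFDerivAt
  rw [h.fderiv]
  simp [Pi.single_apply]

lemma fderiv_lin (a b : ℝ) (i m : Fin d) (x : V d) :
    fderiv ℝ (fun y : V d => a + b * y i) x (Pi.single m 1) = if i = m then b else 0 := by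
  have h : HasFDerivAt (fun y : V d => y i)
      (ContinuousLinearMap.proj (R := ℝ) (φ := fun _ : Fin d => ℝ) i) x :=
    (ContinuousLinearMap.proj (R := ℝ) (φ := fun _ : Fin d => ℝ) i).hasFDerivAt
  have h2 : HasFDerivAt (fun y : V d => a + b * y i)
      (b • ContinuousLinearMap.proj (R := ℝ) (φ := fun _ : Fin d => ℝ) i) x :=
    (h.const_mul b).const_add a
  rw [h2.fderiv]
  simp [Pi.single_apply]

/-- a profile with zero derivative at `x i` is constant to first order -/
lemma A1.prof {f : ℝ → ℝ} {i : Fin d} {x : V d} (hf : DifferentiableAt ℝ f (x i))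
    (h0 : deriv f (x i) = 0) : A1 (fun y => f (y i)) (fun _ => f (x i)) x := by
  have h1 : HasFDerivAt (fun y : V d => y i)
      (ContinuousLinearMap.proj (R := ℝ) (φ := fun _ : Fin d => ℝ) i) x :=
    (ContinuousLinearMap.proj (R := ℝ) (φ := fun _ : Fin d => ℝ) i).hasFDerivAt
  have h2 : HasFDerivAt (fun y : V d => f (y i))
      (deriv f (x i) • ContinuousLinearMap.proj (R := ℝ) (φ := fun _ : Fin d => ℝ) i) x :=
    (hf.hasDerivAt).comp_hasFDerivAt x h1
  refine ⟨h2.differentiableAt, differentiableAt_const _, rfl, ?_⟩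
  rw [h2.fderiv, h0, zero_smul]
  simp

/-- gradients by coordinates -/
lemma grad_coord {u : V d → V d} {x : V d} (h : DifferentiableAt ℝ u x) (i j : Fin d) :
    grad u x i j = fderiv ℝ (fun y => u y i) x (Pi.single j 1) := by
  have h1 := hasFDerivAt_pi'.1 h.hasFDerivAt i
  rw [h1.fderiv]
  rfl

lemma grad_A1 {u : V d → V d} {x : V d} (h : DifferentiableAt ℝ u x) (i j : Fin d)
    {g : V d → ℝ} (hg : A1 (fun y => u y i) g x) :
    grad u x i j = fderiv ℝ g x (Pi.single j 1) := by
  rw [grad_coord h, hg.2.2.2]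

/-! ### profiles -/

lemma deriv_max {f : ℝ → ℝ} {t : ℝ} (h : ∀ s, f s ≤ f t) : deriv f t = 0 :=
  IsLocalMax.deriv_eq_zero (Filter.Eventually.of_forall h)

lemma deriv_min {f : ℝ → ℝ} {t : ℝ} (h : ∀ s, f t ≤ f s) : deriv f t = 0 :=
  IsLocalMin.deriv_eq_zero (Filter.Eventually.of_forall h)

/-- a smooth cut-off at a point where it equals `1` -/
lemma A1.one {f : ℝ → ℝ} {i : Fin d} {x : V d} (hf : ContDiff ℝ ∞ f)
    (hr : ∀ t, 0 ≤ f t ∧ f t ≤ 1) (h : f (x i) = 1) : A1 (fun y => f (y i)) (fun _ => 1) x := by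
  have h1 := A1.prof (f := f) (i := i) (x := x) (hf.differentiable (by simp) _)
    (deriv_max fun s => by rw [h]; exact (hr s).2)
  rw [h] at h1
  exact h1

/-- a smooth cut-off at a point where it equals `0` -/
lemma A1.nil {f : ℝ → ℝ} {i : Fin d} {x : V d} (hf : ContDiff ℝ ∞ f)
    (hr : ∀ t, 0 ≤ f t ∧ f t ≤ 1) (h : f (x i) = 0) : A1 (fun y => f (y i)) (fun _ => 0) x := by
  have h1 := A1.prof (f := f) (i := i) (x := x) (hf.differentiable (by simp) _)
    (deriv_min fun s => by rw [h]; exact (hr s).1)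
  rw [h] at h1
  exact h1

section prof

variable {D : Dat d} {K : ℝ} (hP : D.Prof K)
include hP

lemma S_shift (t : ℝ) (n : ℤ) : D.S (t + n) = D.S t + n := by
  have h : ∀ s, (fun s => D.S s - s) (s + 1) = (fun s => D.S s - s) s := by
    intro s
    simp only
    rw [hP.S_per]; ring
  have h1 : D.S (t + n) - (t + n) = D.S t - t := per_int (f := fun s => D.S s - s) h t n
  linarith

lemma dS_shift (t : ℝ) (n : ℤ) : deriv D.S (t + n) = deriv D.S t := by
  have h : (fun s => D.S (s + n)) = fun s => D.S s + n := by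
    funext s; exact S_shift hP s n
  have h1 := deriv_comp_add_const D.S (n : ℝ) t
  rw [h] at h1
  rw [← h1]
  simp

lemma dS_cont : Continuous (deriv D.S) := hP.S_sm.continuous_deriv (by simp)

lemma dth_cont : Continuous (deriv D.th) := hP.th_sm.continuous_deriv (by simp)

/-- positive side -/
lemma dS_pos {t : ℝ} (h0 : 0 ≤ t) (h1 : t ≤ 1 / 2) : deriv D.S t = - deriv D.th t := by
  have hcl : IsClosed {t : ℝ | deriv D.S t = - deriv D.th t} :=
    isClosed_eq (dS_cont hP) (dth_cont hP).neg
  have hsub : Set.Ioo (0 : ℝ) (1 / 2) ⊆ {t : ℝ | deriv D.S t = - deriv D.th t} := by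
    intro s hs
    show deriv D.S s = - deriv D.th s
    have e : D.S =ᶠ[𝓝 s] fun r => - D.th r := by
      filter_upwards [isOpen_Ioo.mem_nhds hs] with r hr
      exact hP.S_pos r hr.1.le hr.2.le
    rw [e.deriv_eq, deriv.fun_neg]
  have h2 := closure_minimal hsub hcl
  rw [closure_Ioo (by norm_num)] at h2
  exact h2 ⟨h0, h1⟩

/-- negative side -/
lemma dS_neg {t : ℝ} (h0 : -(1 / 2) ≤ t) (h1 : t ≤ 0) : deriv D.S t = 0 := by
  have hcl : IsClosed {t : ℝ | deriv D.S t = 0} := isClosed_eq (dS_cont hP) continuous_const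
  have hsub : Set.Ioo (-(1 / 2) : ℝ) 0 ⊆ {t : ℝ | deriv D.S t = 0} := by
    intro s hs
    show deriv D.S s = 0
    have e : D.S =ᶠ[𝓝 s] fun r => -1 := by
      filter_upwards [isOpen_Ioo.mem_nhds hs] with r hr
      exact hP.S_neg r hr.1.le hr.2.le
    rw [e.deriv_eq]; simp
  have h2 := closure_minimal hsub hcl
  rw [closure_Ioo (by norm_num)] at h2
  exact h2 ⟨h0, h1⟩

lemma dth_one {t : ℝ} (h : pd t ≤ D.b) : deriv D.th t = 0 :=
  deriv_max fun s => by rw [hP.th_one t h]; exact (hP.th_rng s).2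

lemma dth_zero {t : ℝ} (h : 2 * D.b ≤ pd t) : deriv D.th t = 0 :=
  deriv_min fun s => by rw [hP.th_zero t h]; exact (hP.th_rng s).1

lemma dS_zero {t : ℝ} (h : pd t ≤ D.b ∨ 2 * D.b ≤ pd t) : deriv D.S t = 0 := by
  have e : deriv D.S (t - round t) = deriv D.S t := by
    have := dS_shift hP (t - round t) (round t)
    rw [sub_add_cancel] at this
    exact this.symm
  rw [← e]
  have h1 := abs_le.mp (pd_half t)
  have h2 : pd (t - round t) = pd t := by
    have := pd_add_int t (- round t)
    push_cast at this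
    rw [← sub_eq_add_neg] at this
    exact this
  rcases le_total (t - round t) 0 with h3 | h3
  · exact dS_neg hP h1.1 h3
  · rw [dS_pos hP h3 h1.2]
    rcases h with h | h
    · rw [dth_one hP (by rw [h2]; exact h)]; simp
    · rw [dth_zero hP (by rw [h2]; exact h)]; simp

end prof

/-! ### smoothness -/

section smooth

variable {D : Dat d} {K : ℝ} (hP : D.Prof K)

lemma sm_coord (i : Fin d) : ContDiff ℝ ∞ fun x : V d => x i := contDiff_apply ℝ ℝ i

include hP

lemma sm_vtr (i : Fin d) : ContDiff ℝ ∞ fun x => D.vtr x i := by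
  unfold Dat.vtr
  exact contDiff_const.mul (hP.S_sm.comp (sm_coord i))

lemma sm_Al (L : ℕ) (k : Fin d) : ContDiff ℝ ∞ (D.Al L k) := by
  unfold Dat.Al
  exact contDiff_const.add (contDiff_const.mul ((sm_coord _).sub (hP.S_sm.comp (sm_coord _))))

lemma sm_Th : ContDiff ℝ ∞ D.Th := by
  unfold Dat.Th
  exact contDiff_const.sub (contDiff_prod fun i _ =>
    contDiff_const.sub (hP.thF_sm.comp (sm_coord i)))

lemma sm_vedge (L : ℕ) (i : Fin d) : ContDiff ℝ ∞ fun x => D.vedge L x i := by
  unfold Dat.vedge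
  exact ((contDiff_const.sub (sm_Th hP)).mul (sm_vtr hP i)).add
    ((sm_Th hP).mul (contDiff_const.add (contDiff_const.mul (sm_coord i))))

omit hP in
lemma vpat_apply (L : ℕ) (k : Fin d) (j : Fin D.J) (x : V d) (i : Fin d) :
    D.vpat L k j x i = D.vtr x i + D.th (x k) * D.Al L k x *
      ((if i = D.l k then 1 else 0) - (D.u j (D.l k) : ℝ) / D.u j k * (if i = k then 1 else 0)) := by
  simp only [Dat.vpat, Pi.add_apply, Pi.smul_apply, Pi.sub_apply, smul_eq_mul, Pi.single_apply]

lemma sm_vpat (L : ℕ) (k : Fin d) (j : Fin D.J) (i : Fin d) :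
    ContDiff ℝ ∞ fun x => D.vpat L k j x i := by
  have e : (fun x => D.vpat L k j x i) = fun x => D.vtr x i + D.th (x k) * D.Al L k x *
      ((if i = D.l k then 1 else 0) - (D.u j (D.l k) : ℝ) / D.u j k * (if i = k then 1 else 0)) := by
    funext x; exact vpat_apply L k j x i
  rw [e]
  exact (sm_vtr hP i).add (((hP.th_sm.comp (sm_coord k)).mul (sm_Al hP L k)).mul contDiff_const)

lemma sm_cut (k : Fin d) (j : Fin D.J) : ContDiff ℝ ∞ (D.cut k j) := by
  unfold Dat.cut
  exact ((hP.ch_sm j).comp (sm_coord _)).mul (contDiff_prod fun i _ =>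
    hP.cw_sm.comp (sm_coord i))

omit hP in
lemma easyv_apply (L : ℕ) (x : V d) (i : Fin d) : D.easyv L x i =
    D.vedge L x i + ∑ k, ∑ j, D.cut k j x * (D.vpat L k j x i - D.vedge L x i) := by
  simp only [Dat.easyv, Pi.add_apply, Finset.sum_apply, Pi.smul_apply, Pi.sub_apply, smul_eq_mul]

lemma sm_easyv (L : ℕ) (i : Fin d) : ContDiff ℝ ∞ fun x => D.easyv L x i := by
  have e : (fun x => D.easyv L x i) = fun x =>
      D.vedge L x i + ∑ k, ∑ j, D.cut k j x * (D.vpat L k j x i - D.vedge L x i) := by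
    funext x; exact easyv_apply L x i
  rw [e]
  exact (sm_vedge hP L i).add (ContDiff.sum fun k _ => ContDiff.sum fun j _ =>
    (sm_cut hP k j).mul ((sm_vpat hP L k j i).sub (sm_vedge hP L i)))

lemma sm_easyy (L : ℕ) : ContDiff ℝ ∞ (D.easyy L) := by
  rw [contDiff_pi]
  intro i
  exact (sm_easyv hP L i).sub (contDiff_const.mul (sm_coord i))

end smooth

/-! ### periodicity -/

section per

variable {D : Dat d} {K : ℝ} (hP : D.Prof K)

lemma prof_per {f : ℝ → ℝ} (hf : ∀ t, f (t + 1) = f t) (x : V d) (m i : Fin d) :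
    f ((x + Pi.single m 1 : V d) i) = f (x i) := by
  rw [Pi.add_apply, Pi.single_apply]
  by_cases h : i = m
  · rw [if_pos h, hf]
  · rw [if_neg h, add_zero]

include hP

lemma S_per' (x : V d) (m i : Fin d) :
    D.S ((x + Pi.single m 1 : V d) i) = D.S (x i) + (Pi.single m 1 : V d) i := by
  rw [Pi.add_apply, Pi.single_apply]
  by_cases h : i = m
  · rw [if_pos h, hP.S_per]
  · rw [if_neg h, add_zero, add_zero]

lemma vtr_per (x : V d) (m i : Fin d) :
    D.vtr (x + Pi.single m 1) i = D.vtr x i + D.E i * (Pi.single m 1 : V d) i := by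
  unfold Dat.vtr
  rw [S_per' hP]; ring

lemma Al_per (L : ℕ) (k : Fin d) (x : V d) (m : Fin d) :
    D.Al L k (x + Pi.single m 1) = D.Al L k x := by
  unfold Dat.Al
  rw [S_per' hP, Pi.add_apply]; ring

lemma Th_per (x : V d) (m : Fin d) : D.Th (x + Pi.single m 1) = D.Th x := by
  unfold Dat.Th
  simp only [prof_per hP.thF_per]

lemma vedge_per (L : ℕ) (x : V d) (m i : Fin d) :
    D.vedge L (x + Pi.single m 1) i = D.vedge L x i + D.E i * (Pi.single m 1 : V d) i := by
  unfold Dat.vedge
  rw [Th_per hP, vtr_per hP, Pi.add_apply]; ring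

lemma vpat_per (L : ℕ) (k : Fin d) (j : Fin D.J) (x : V d) (m i : Fin d) :
    D.vpat L k j (x + Pi.single m 1) i = D.vpat L k j x i + D.E i * (Pi.single m 1 : V d) i := by
  rw [vpat_apply, vpat_apply, vtr_per hP, Al_per hP, prof_per hP.th_per]; ring

lemma cut_per (k : Fin d) (j : Fin D.J) (x : V d) (m : Fin d) :
    D.cut k j (x + Pi.single m 1) = D.cut k j x := by
  unfold Dat.cut
  rw [prof_per (hP.ch_per j)]
  simp only [prof_per hP.cw_per]

lemma easyv_per (L : ℕ) (x : V d) (m i : Fin d) :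
    D.easyv L (x + Pi.single m 1) i = D.easyv L x i + D.E i * (Pi.single m 1 : V d) i := by
  rw [easyv_apply, easyv_apply, vedge_per hP]
  have h : ∀ k j, D.cut k j (x + Pi.single m 1) * (D.vpat L k j (x + Pi.single m 1) i -
      (D.vedge L x i + D.E i * (Pi.single m 1 : V d) i)) =
      D.cut k j x * (D.vpat L k j x i - D.vedge L x i) := by
    intro k j
    rw [cut_per hP, vpat_per hP]; ring
  simp only [h]
  ring

lemma easyy_per (L : ℕ) : Per (D.easyy L) := by
  intro x m
  funext i
  unfold Dat.easyy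
  rw [easyv_per hP, Pi.add_apply]; ring

end per

/-! ### gradients -/

section gr

variable {D : Dat d} {K : ℝ} (hP : D.Prof K)
include hP

lemma diff_cut (k : Fin d) (j : Fin D.J) (x : V d) : DifferentiableAt ℝ (D.cut k j) x :=
  (sm_cut hP k j).differentiable (by simp) x

lemma diff_vedge (L : ℕ) (i : Fin d) (x : V d) :
    DifferentiableAt ℝ (fun y => D.vedge L y i) x :=
  (sm_vedge hP L i).differentiable (by simp) x

lemma diff_vpat (L : ℕ) (k : Fin d) (j : Fin D.J) (i : Fin d) (x : V d) :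
    DifferentiableAt ℝ (fun y => D.vpat L k j y i) x :=
  (sm_vpat hP L k j i).differentiable (by simp) x

lemma diff_vtr (i : Fin d) (x : V d) : DifferentiableAt ℝ (fun y => D.vtr y i) x :=
  (sm_vtr hP i).differentiable (by simp) x

lemma diff_Al (L : ℕ) (k : Fin d) (x : V d) : DifferentiableAt ℝ (D.Al L k) x :=
  (sm_Al hP L k).differentiable (by simp) x

lemma diff_easyy (L : ℕ) (x : V d) : DifferentiableAt ℝ (D.easyy L) x :=
  (sm_easyy hP L).differentiable (by simp) x

omit hP in
lemma diff_prof {f : ℝ → ℝ} (hf : ContDiff ℝ ∞ f) (i : Fin d) (x : V d) :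
    DifferentiableAt ℝ (fun y : V d => f (y i)) x :=
  (hf.comp (sm_coord i)).differentiable (by simp) x

lemma diff_pe (L : ℕ) (k : Fin d) (j : Fin D.J) (i : Fin d) (x : V d) :
    DifferentiableAt ℝ (fun y => D.vpat L k j y i - D.vedge L y i) x :=
  (diff_vpat hP L k j i x).sub (diff_vedge hP L i x)

/-- all cuts vanish to first order when two coordinates are near the integers -/
lemma cut_nil (k : Fin d) (j : Fin D.J) (x : V d) (i : Fin d) (hik : i ≠ k)
    (h : pd (x i) ≤ D.w / 2) : A1 (D.cut k j) (fun _ => 0) x := by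
  have h1 : A1 (fun y => D.cw (y i)) (fun _ => 0) x :=
    A1.nil hP.cw_sm hP.cw_rng (hP.cw_zero _ h)
  have h2 := A1.prod_zero (Finset.univ.erase k) (f := fun m y => D.cw (y m)) (x := x)
    (fun m _ => diff_prof hP.cw_sm m x) i (Finset.mem_erase.mpr ⟨hik, Finset.mem_univ i⟩) h1
  exact ((A1.refl (diff_prof (hP.ch_sm j) (D.l k) x)).mul h2).congr
    (fun y => rfl) (fun y => by ring)

/-- `Th` equals `1` to first order near the planes -/
lemma Th_one (x : V d) (i : Fin d) (h : pd (x i) ≤ D.bF) : A1 D.Th (fun _ => 1) x := by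
  have h1 : A1 (fun y => D.thF (y i)) (fun _ => 1) x :=
    A1.one hP.thF_sm hP.thF_rng (hP.thF_one _ h)
  have h2 : A1 (fun y : V d => 1 - D.thF (y i)) (fun _ => 0) x :=
    ((A1.refl (differentiableAt_const (1 : ℝ))).sub h1).congr (fun _ => rfl) (fun _ => by ring)
  have h3 := A1.prod_zero Finset.univ (f := fun m y => 1 - D.thF (y m)) (x := x)
    (fun m _ => (differentiableAt_const _).sub (diff_prof hP.thF_sm m x)) i
    (Finset.mem_univ i) h2
  exact ((A1.refl (differentiableAt_const (1 : ℝ))).sub h3).congr (fun _ => rfl)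
    (fun _ => by ring)

/-- `Th` vanishes to first order in the blocks -/
lemma Th_nil (x : V d) (h : ∀ i, D.h ≤ pd (x i)) : A1 D.Th (fun _ => 0) x := by
  have h1 : ∀ i ∈ Finset.univ, A1 (fun y : V d => 1 - D.thF (y i)) (fun _ => 1) x := by
    intro i _
    have h1 : A1 (fun y => D.thF (y i)) (fun _ => 0) x :=
      A1.nil hP.thF_sm hP.thF_rng (hP.thF_zero _ (h i))
    exact ((A1.refl (differentiableAt_const (1 : ℝ))).sub h1).congr (fun _ => rfl)
      (fun _ => by ring)
  exact ((A1.refl (differentiableAt_const (1 : ℝ))).sub (A1.prod_one _ h1)).congr (fun _ => rfl)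
    (fun _ => by ring)

/-- `vtr` is constant to first order away from the transition zones -/
lemma vtr_const (x : V d) (i : Fin d) (h : pd (x i) ≤ D.b ∨ 2 * D.b ≤ pd (x i)) :
    A1 (fun y => D.vtr y i) (fun _ => D.vtr x i) x :=
  (A1.refl (differentiableAt_const (D.E i))).mul
    (A1.prof (hP.S_sm.differentiable (by simp) _) (dS_zero hP h))

/-- blocks -/
lemma block (L : ℕ) (x : V d) (h : ∀ i, D.h ≤ pd (x i)) : grad (D.easyy L) x = - dg D.E := by
  have hh := h_pos D
  have hb := b_eq D
  have hth : ∀ k, A1 (fun y => D.th (y k)) (fun _ => 0) x := fun k =>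
    A1.nil hP.th_sm hP.th_rng (hP.th_zero _ (by have := h k; linarith))
  have hvt : ∀ i, A1 (fun y => D.vtr y i) (fun _ => D.vtr x i) x := fun i =>
    vtr_const hP x i (Or.inr (by have := h i; linarith))
  have hT := Th_nil hP x h
  have hve : ∀ i, A1 (fun y => D.vedge L y i) (fun _ => D.vtr x i) x := by
    intro i
    have h1 := (((A1.refl (x := x) (differentiableAt_const (1 : ℝ))).sub hT).mul (hvt i)).add
      (hT.mul (A1.refl (x := x) (f := fun y : V d => (L : ℝ) * D.q0 i + D.E i * y i)
        ((differentiableAt_const _).add ((differentiableAt_const _).mul (diff_coord i x)))))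
    exact h1.congr (fun _ => rfl) (fun _ => by ring)
  have hvp : ∀ k j i, A1 (fun y => D.vpat L k j y i) (fun _ => D.vtr x i) x := by
    intro k j i
    have h1 := (hvt i).add (((hth k).mul (A1.refl (diff_Al hP L k x))).mul
      (A1.refl (x := x) (differentiableAt_const ((if i = D.l k then (1 : ℝ) else 0) -
        (D.u j (D.l k) : ℝ) / D.u j k * (if i = k then 1 else 0)))))
    exact h1.congr (fun y => vpat_apply L k j y i) (fun _ => by ring)
  funext i m
  have hv : A1 (fun y => D.easyv L y i) (fun _ => D.vtr x i) x := by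
    have h1 := (hve i).add (A1.sum Finset.univ fun k _ => A1.sum Finset.univ fun j _ =>
      (A1.refl (diff_cut hP k j x)).mul ((hvp k j i).sub (hve i)))
    exact h1.congr (fun y => easyv_apply L y i) (fun _ => by simp)
  have hy : A1 (fun y => D.easyy L y i) (fun y => D.vtr x i - D.E i * y i) x :=
    hv.sub (A1.refl ((differentiableAt_const _).mul (diff_coord i x)))
  rw [grad_A1 (diff_easyy hP L x) i m hy]
  rw [show (fun y : V d => D.vtr x i - D.E i * y i) = fun y => D.vtr x i + (-D.E i) * y i from by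
    funext y; ring, fderiv_lin]
  simp only [Pi.neg_apply, dg]
  by_cases him : i = m
  · simp [him]
  · simp [him]

/-- frame -/
lemma frame (L : ℕ) (x : V d) (a b : Fin d) (hab : a ≠ b) (ha : pd (x a) < D.bF)
    (hb : pd (x b) < D.bF) : grad (D.easyy L) x = 0 := by
  have hw : D.bF ≤ D.w / 2 := by
    have := h_le D
    have := h_pos D
    show D.h / 4 ≤ D.w / 2
    linarith
  have hT := Th_one hP x a ha.le
  have hc : ∀ k j, A1 (D.cut k j) (fun _ => 0) x := by
    intro k j
    by_cases h : a = k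
    · exact cut_nil hP k j x b (fun h' => hab (h.trans h'.symm)) (hb.le.trans hw)
    · exact cut_nil hP k j x a h (ha.le.trans hw)
  funext i m
  have hve : A1 (fun y => D.vedge L y i) (fun y => (L : ℝ) * D.q0 i + D.E i * y i) x := by
    have h1 := (((A1.refl (x := x) (differentiableAt_const (1 : ℝ))).sub hT).mul
      (A1.refl (diff_vtr hP i x))).add
      (hT.mul (A1.refl (x := x) (f := fun y : V d => (L : ℝ) * D.q0 i + D.E i * y i)
        ((differentiableAt_const _).add ((differentiableAt_const _).mul (diff_coord i x)))))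
    exact h1.congr (fun _ => rfl) (fun _ => by ring)
  have hv : A1 (fun y => D.easyv L y i) (fun y => (L : ℝ) * D.q0 i + D.E i * y i) x := by
    have h1 := hve.add (A1.sum Finset.univ fun k _ => A1.sum Finset.univ fun j _ =>
      (hc k j).mul (A1.refl (diff_pe hP L k j i x)))
    exact h1.congr (fun y => easyv_apply L y i) (fun _ => by simp)
  have hy : A1 (fun y => D.easyy L y i) (fun y => (L : ℝ) * D.q0 i) x :=
    (hv.sub (A1.refl (diff_cmul (D.E i) i x))).congr
      (fun _ => rfl) (fun _ => by ring)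
  rw [grad_A1 (diff_easyy hP L x) i m hy]
  simp

/-- nodes: the cut-off of the patch is `1`, the others vanish -/
lemma node_cut (x : V d) (k : Fin d) (j : Fin D.J) (hk : pd (x k) < D.b) (hp : D.pat k j x) :
    A1 (D.cut k j) (fun _ => 1) x ∧
      ∀ k' j', (k' ≠ k ∨ j' ≠ j) → A1 (D.cut k' j') (fun _ => 0) x := by
  have hw := w_pos D
  obtain ⟨⟨n, hn⟩, hi⟩ := hp
  constructor
  · have h1 : A1 (fun y => D.ch j (y (D.l k))) (fun _ => 1) x :=
      A1.one (hP.ch_sm j) (hP.ch_rng j) (hP.ch_one j _ ⟨n, hn.le⟩)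
    have h2 := A1.prod_one (Finset.univ.erase k) (f := fun m y => D.cw (y m)) (x := x)
      (fun m hm => A1.one hP.cw_sm hP.cw_rng (hP.cw_one _ (hi m (Finset.ne_of_mem_erase hm))))
    exact (h1.mul h2).congr (fun _ => rfl) (fun _ => by ring)
  · intro k' j' h
    by_cases hkk : k' = k
    · have hjj : j' ≠ j := by
        rcases h with h | h
        · exact absurd hkk h
        · exact h
      subst hkk
      have h1 : A1 (fun y => D.ch j' (y (D.l k'))) (fun _ => 0) x := by
        refine A1.nil (hP.ch_sm j') (hP.ch_rng j') (hP.ch_zero j' _ fun n' => ?_)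
        have hJ := J_pos D
        have e1 : (1 : ℝ) ≤ |((j' : ℕ) : ℤ) - ((j : ℕ) : ℤ) + (D.J : ℤ) * (n' - n)| := by
          have h0 : ((j' : ℕ) : ℤ) - ((j : ℕ) : ℤ) + (D.J : ℤ) * (n' - n) ≠ 0 := by
            intro h0
            have hj1 : ((j : ℕ) : ℤ) < D.J := by exact_mod_cast j.2
            have hj2 : ((j' : ℕ) : ℤ) < D.J := by exact_mod_cast j'.2
            have hj3 : (0 : ℤ) ≤ ((j : ℕ) : ℤ) := by positivity
            have hj4 : (0 : ℤ) ≤ ((j' : ℕ) : ℤ) := by positivity
            have hm : n' - n = 0 := by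
              by_contra hne
              rcases lt_or_gt_of_ne hne with hlt | hgt
              · have : (D.J : ℤ) * (n' - n) ≤ (D.J : ℤ) * (-1) :=
                  mul_le_mul_of_nonneg_left (by omega) (by omega)
                omega
              · have : (D.J : ℤ) * 1 ≤ (D.J : ℤ) * (n' - n) :=
                  mul_le_mul_of_nonneg_left (by omega) (by omega)
                omega
            rw [hm, mul_zero, add_zero] at h0
            apply hjj
            apply Fin.ext
            omega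
          exact_mod_cast Int.one_le_abs h0
        have e2 : ((D.p j' + n') - (D.p j + n)) * D.w =
            (((j' : ℕ) : ℤ) - ((j : ℕ) : ℤ) + (D.J : ℤ) * (n' - n) : ℤ) * (D.w / D.J) := by
          unfold Dat.p
          push_cast
          field_simp
          ring
        have e3 : D.w / D.J ≤ |((D.p j' + n') - (D.p j + n)) * D.w| := by
          rw [e2, abs_mul, abs_of_pos (div_pos hw hJ)]
          have := mul_le_mul_of_nonneg_right e1 (div_pos hw hJ).le
          push_cast at this ⊢
          linarith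
        have e4 : |((D.p j' + n') - (D.p j + n)) * D.w| ≤
            |x (D.l k') - (D.p j + n) * D.w| + |x (D.l k') - (D.p j' + n') * D.w| := by
          have : ((D.p j' + n') - (D.p j + n)) * D.w =
            (x (D.l k') - (D.p j + n) * D.w) - (x (D.l k') - (D.p j' + n') * D.w) := by ring
          rw [this]
          exact abs_sub _ _
        have e5 : D.a = D.w / D.J / 4 := by
          unfold Dat.a
          field_simp
        have e6 : 3 * D.w / (8 * D.J) = D.w / D.J * (3 / 8) := by
          field_simp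
        rw [e5] at hn
        rw [e6]
        have := div_pos hw hJ
        linarith
      have h2 : A1 (fun y => ∏ m ∈ Finset.univ.erase k', D.cw (y m))
          (fun y => ∏ m ∈ Finset.univ.erase k', D.cw (y m)) x :=
        A1.prod _ fun m _ => A1.refl (diff_prof hP.cw_sm m x)
      exact (h1.mul h2).congr (fun _ => rfl) (fun _ => by ring)
    · have hb : D.b ≤ D.w / 2 := by
        have := h_le D
        have := h_pos D
        have := b_eq D
        linarith
      exact cut_nil hP k' j' x k (Ne.symm hkk) (hk.le.trans hb)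

/-- gradient in the nodes -/
lemma node (L : ℕ) (x : V d) (k : Fin d) (j : Fin D.J) (hk : pd (x k) < D.b)
    (hp : D.pat k j x) (i m : Fin d) : grad (D.easyy L) x i m =
      D.E (D.l k) * ((if i = D.l k then 1 else 0) -
        (D.u j (D.l k) : ℝ) / D.u j k * (if i = k then 1 else 0)) * (if D.l k = m then 1 else 0) -
      D.E i * (if i = m then 1 else 0) := by
  have hb := b_eq D
  have hh := h_pos D
  have hhw := h_le D
  obtain ⟨hc1, hc0⟩ := node_cut hP x k j hk hp
  have hpd : ∀ i, pd (x i) ≤ D.b ∨ 2 * D.b ≤ pd (x i) := by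
    intro i
    by_cases h : i = k
    · left; rw [h]; exact hk.le
    · right
      have := hp.2 i h
      linarith
  have hvt : ∀ i, A1 (fun y => D.vtr y i) (fun _ => D.vtr x i) x := fun i =>
    vtr_const hP x i (hpd i)
  have hth : A1 (fun y => D.th (y k)) (fun _ => 1) x :=
    A1.one hP.th_sm hP.th_rng (hP.th_one _ hk.le)
  have hAl : A1 (D.Al L k) (fun y => (L : ℝ) * D.q0 (D.l k) +
      D.E (D.l k) * (y (D.l k) - D.S (x (D.l k)))) x :=
    (A1.refl (differentiableAt_const _)).add ((A1.refl (differentiableAt_const _)).mul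
      ((A1.refl (diff_coord _ x)).sub
        (A1.prof (hP.S_sm.differentiable (by simp) _) (dS_zero hP (hpd _)))))
  set ρ : ℝ := (if i = D.l k then (1 : ℝ) else 0) -
        (D.u j (D.l k) : ℝ) / D.u j k * (if i = k then 1 else 0) with hρ
  have hvp : A1 (fun y => D.vpat L k j y i) (fun y => (D.vtr x i + ((L : ℝ) * D.q0 (D.l k) -
      D.E (D.l k) * D.S (x (D.l k))) * ρ) + D.E (D.l k) * ρ * y (D.l k)) x := by
    have h1 := (hvt i).add ((hth.mul hAl).mul (A1.refl (x := x) (differentiableAt_const ρ)))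
    exact h1.congr (fun y => vpat_apply L k j y i) (fun _ => by ring)
  have hv : A1 (fun y => D.easyv L y i) (fun y => (D.vtr x i + ((L : ℝ) * D.q0 (D.l k) -
      D.E (D.l k) * D.S (x (D.l k))) * ρ) + D.E (D.l k) * ρ * y (D.l k)) x := by
    have h1 : A1 (fun y => D.cut k j y * (D.vpat L k j y i - D.vedge L y i))
        (fun y => D.vpat L k j y i - D.vedge L y i) x :=
      (hc1.mul (A1.refl (diff_pe hP L k j i x))).congr
        (fun _ => rfl) (fun _ => by ring)
    have h2 : A1 (fun y => ∑ k', ∑ j', D.cut k' j' y * (D.vpat L k' j' y i - D.vedge L y i))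
        (fun y => D.vpat L k j y i - D.vedge L y i) x := by
      have h3 := A1.sum Finset.univ (x := x) (f := fun k' y =>
          ∑ j', D.cut k' j' y * (D.vpat L k' j' y i - D.vedge L y i))
        (g := fun k' y => ∑ j', if k' = k ∧ j' = j then D.vpat L k j y i - D.vedge L y i else 0)
        (fun k' _ => A1.sum Finset.univ fun j' _ => by
          by_cases h : k' = k ∧ j' = j
          · obtain ⟨rfl, rfl⟩ := h
            refine h1.congr (fun _ => rfl) (fun _ => by simp)
          · have h' : k' ≠ k ∨ j' ≠ j := by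
              by_contra hh
              push Not at hh
              exact h hh
            refine ((hc0 k' j' h').mul (A1.refl (diff_pe hP L k' j' i x))).congr (fun _ => rfl) (fun _ => by simp [h]))
      refine h3.congr (fun _ => rfl) (fun y => ?_)
      rw [Finset.sum_eq_single k]
      · rw [Finset.sum_eq_single j]
        · simp
        · intro b _ hb; simp [hb]
        · simp
      · intro b _ hb; simp [hb]
      · simp
    have h3 := (A1.refl (diff_vedge hP L i x)).add h2
    have h4 : A1 (fun y => D.easyv L y i) (fun y => D.vpat L k j y i) x :=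
      h3.congr (fun y => easyv_apply L y i) (fun _ => by ring)
    exact h4.trans hvp
  have hy := hv.sub (A1.refl (diff_cmul (D.E i) i x))
  have hy' : A1 (fun y => D.easyy L y i) _ x := hy
  rw [grad_A1 (diff_easyy hP L x) i m hy']
  have hd1 : DifferentiableAt ℝ (fun y : V d => (D.vtr x i + ((L : ℝ) * D.q0 (D.l k) -
      D.E (D.l k) * D.S (x (D.l k))) * ρ) + D.E (D.l k) * ρ * y (D.l k)) x :=
    (differentiableAt_const _).add ((differentiableAt_const _).mul (diff_coord _ x))
  have hd2 : DifferentiableAt ℝ (fun y : V d => 0 + D.E i * y i) x :=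
    (differentiableAt_const _).add ((differentiableAt_const _).mul (diff_coord _ x))
  have e : (fun y : V d => (D.vtr x i + ((L : ℝ) * D.q0 (D.l k) -
      D.E (D.l k) * D.S (x (D.l k))) * ρ) + D.E (D.l k) * ρ * y (D.l k) - D.E i * y i) =
      fun y : V d => ((D.vtr x i + ((L : ℝ) * D.q0 (D.l k) -
      D.E (D.l k) * D.S (x (D.l k))) * ρ) + D.E (D.l k) * ρ * y (D.l k)) -
      (0 + D.E i * y i) := by
    funext y; ring
  have e' := congrArg (fun f => fderiv ℝ f x (Pi.single m 1)) e
  refine Eq.trans e' ?_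
  show fderiv ℝ (fun y : V d => ((D.vtr x i + ((L : ℝ) * D.q0 (D.l k) -
      D.E (D.l k) * D.S (x (D.l k))) * ρ) + D.E (D.l k) * ρ * y (D.l k)) -
      (0 + D.E i * y i)) x (Pi.single m 1) = _
  rw [fderiv_fun_sub hd1 hd2, sub_apply, fderiv_lin, fderiv_lin]
  simp only [mul_ite, mul_one, mul_zero]

end gr

end EasyAux

theorem stEasyDisp (d : ℕ) : StmtEasyDisp d := fun _ _ hP L =>
  ⟨EasyAux.sm_easyy hP L, EasyAux.easyy_per hP L⟩

namespace EasyAux

lemma nsq_le_entries {A : M d} {R : ℝ} (h : ∀ i j, |A i j| ≤ R) :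
    nsq A ≤ (d : ℝ) * d * R ^ 2 := by
  refine (nsq_le_ip A).trans ?_
  rw [ip_self_eq]
  have h1 : ∀ i j, (A i j) ^ 2 ≤ R ^ 2 := fun i j => by
    have h2 := h i j
    rw [← sq_abs]
    exact pow_le_pow_left₀ (abs_nonneg _) h2 2
  calc ∑ i, ∑ j, (A i j) ^ 2 ≤ ∑ _i : Fin d, ∑ _j : Fin d, R ^ 2 :=
        Finset.sum_le_sum fun i _ => Finset.sum_le_sum fun j _ => h1 i j
    _ = (d : ℝ) * d * R ^ 2 := by simp; ring

end EasyAux

theorem stEasyB (d : ℕ) : StmtEasyB d := by
  intro B
  set R : ℝ := ∑ i, |B.E i| with hR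
  have hR0 : 0 ≤ R := Finset.sum_nonneg fun i _ => abs_nonneg _
  refine ⟨(d : ℝ) * d * (4 * R) ^ 2, by positivity, ?_⟩
  intro D K hB hP L
  subst hB
  have hE : ∀ i, |D.E i| ≤ R := fun i =>
    Finset.single_le_sum (f := fun i => |D.E i|) (fun i _ => abs_nonneg _) (Finset.mem_univ i)
  refine ⟨fun x hx => EasyAux.block hP L x hx, ?_⟩
  intro x hx
  rcases hx with h | ⟨a, b, hab, ha, hb⟩ | ⟨k, j, hk, hp⟩
  · rw [EasyAux.block hP L x h]
    apply EasyAux.nsq_le_entries
    intro i j
    simp only [Pi.neg_apply, dg, abs_neg]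
    by_cases hij : i = j
    · rw [if_pos hij]
      linarith [hE i]
    · rw [if_neg hij, abs_zero]
      positivity
  · rw [EasyAux.frame hP L x a b hab ha hb]
    have : nsq (0 : M d) = 0 := by simp [nsq, symm, ip]
    rw [this]
    positivity
  · apply EasyAux.nsq_le_entries
    intro i m
    rw [EasyAux.node hP L x k j hk hp i m]
    have hu := ZoneAux.u_pos D j k
    have hu' := ZoneAux.u_pos D j (D.l k)
    have h1 : 0 ≤ (D.u j (D.l k) : ℝ) / D.u j k ∧ (D.u j (D.l k) : ℝ) / D.u j k ≤ 3 := by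
      have hpos : (0 : ℝ) < D.u j k := by linarith [hu.1]
      constructor
      · exact div_nonneg (by linarith [hu'.1]) hpos.le
      · rw [div_le_iff₀ hpos]
        linarith [hu'.2.1, hu.1]
    have h2 : |(if i = D.l k then (1 : ℝ) else 0) -
        (D.u j (D.l k) : ℝ) / D.u j k * (if i = k then 1 else 0)| ≤ 3 := by
      have hl := D.l_ne k
      by_cases c1 : i = D.l k
      · have c2 : i ≠ k := fun h => hl (c1.symm.trans h)
        rw [if_pos c1, if_neg c2]
        norm_num
      · rw [if_neg c1]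
        by_cases c2 : i = k
        · rw [if_pos c2, abs_le]
          constructor <;> linarith [h1.1, h1.2]
        · rw [if_neg c2]
          norm_num
    have h3 : |(if D.l k = m then (1 : ℝ) else 0)| ≤ 1 := by
      split_ifs <;> simp
    have h4 : |(if i = m then (1 : ℝ) else 0)| ≤ 1 := by
      split_ifs <;> simp
    refine (abs_sub _ _).trans ?_
    rw [abs_mul, abs_mul, abs_mul]
    have e1 := hE (D.l k)
    have e2 := hE i
    have p1 : |D.E (D.l k)| * |(if i = D.l k then (1 : ℝ) else 0) -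
        (D.u j (D.l k) : ℝ) / D.u j k * (if i = k then 1 else 0)| ≤ R * 3 :=
      mul_le_mul e1 h2 (abs_nonneg _) hR0
    have p2 : |D.E (D.l k)| * |(if i = D.l k then (1 : ℝ) else 0) -
        (D.u j (D.l k) : ℝ) / D.u j k * (if i = k then 1 else 0)| *
        |(if D.l k = m then (1 : ℝ) else 0)| ≤ R * 3 * 1 :=
      mul_le_mul p1 h3 (abs_nonneg _) (by positivity)
    have p3 : |D.E i| * |(if i = m then (1 : ℝ) else 0)| ≤ R * 1 :=
      mul_le_mul e2 h4 (abs_nonneg _) hR0
    linarith

end Pool.Agent.Lib.MP_5df1bf_an
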