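import Pool.Agent.Lib.MP_5df1bf_an.Stmts2

/-!
# MP_5df1bf_an: the easy displacement in the sheets and in the fibres (C7c, C7d)
-/

open MeasureTheory Filter Topology
open scoped BigOperators ContDiff

noncomputable section

namespace Pool.Agent.Lib.MP_5df1bf_an

namespace EasySM

variable {d : ℕ} (D : Dat d) {K : ℝ}

/-! ### sizes -/

lemma J_one : (1 : ℝ) ≤ D.J := by exact_mod_cast D.Jpos

lemma w_pos : 0 < D.w := by
  unfold Dat.w
  have : (0 : ℝ) < D.N := by exact_mod_cast D.Npos
  positivity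

lemma w_le : D.w ≤ 1 / 6 := by
  unfold Dat.w
  have h6 : 6 ≤ D.N := Nat.le_of_dvd D.Npos D.Ndvd
  have : (6 : ℝ) ≤ D.N := by exact_mod_cast h6
  exact one_div_le_one_div_of_le (by norm_num) this

lemma h_pos : 0 < D.h := by
  unfold Dat.h
  have h1 := w_pos D
  have h2 := J_one D
  positivity

lemma h_le : D.h ≤ D.w / 64 := by
  unfold Dat.h
  have h1 := w_pos D
  have h2 := J_one D
  apply div_le_div_of_nonneg_left h1.le (by norm_num)
  linarith

lemma b_pos : 0 < D.b := by
  unfold Dat.b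
  have := h_pos D
  positivity

lemma b_eq : D.b = D.h / 64 := rfl

/-! ### distance to the integers -/

lemma pd_le (t : ℝ) (n : ℤ) : pd t ≤ |t - n| := round_le t n

lemma pd_floor {t c : ℝ} (h : c ≤ pd t) : (⌊t⌋ : ℝ) + c ≤ t ∧ t ≤ ⌊t⌋ + 1 - c := by
  have h1 := (pd_le t ⌊t⌋)
  have h2 := (pd_le t (⌊t⌋ + 1))
  have h3 := Int.floor_le t
  have h4 := Int.lt_floor_add_one t
  rw [abs_of_nonneg (by linarith)] at h1
  push_cast at h2
  rw [abs_of_nonpos (by linarith)] at h2
  constructor <;> linarith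

/-! ### the staircase -/

lemma S_int (hP : D.Prof K) (t : ℝ) (n : ℤ) : D.S (t + n) = D.S t + n := by
  induction n using Int.induction_on with
  | zero => simp
  | succ i ih =>
    have := hP.S_per (t + (i : ℤ))
    push_cast at this ih ⊢
    rw [← add_assoc, this, ih]
    ring
  | pred i ih =>
    have := hP.S_per (t + ((-(i : ℤ) - 1 : ℤ) : ℝ))
    push_cast at this ih ⊢
    have e : t + (-(i : ℝ) - 1) + 1 = t + -(i : ℝ) := by ring
    rw [e, ih] at this
    linarith

lemma th_int (hP : D.Prof K) (t : ℝ) (n : ℤ) : D.th (t + n) = D.th t := by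
  have h1 : Function.Periodic D.th 1 := hP.th_per
  have := h1.int_mul n t
  simpa using this

/-- `S` is constant on `[n + 2b, n + 1]`. -/
lemma S_const (hP : D.Prof K) (n : ℤ) {s : ℝ} (h1 : (n : ℝ) + 2 * D.b ≤ s) (h2 : s ≤ n + 1) :
    D.S s = n := by
  have hb := b_pos D
  by_cases h3 : s ≤ n + 1 / 2
  · have e : s = (s - n) + n := by ring
    rw [e, S_int D hP, hP.S_pos (s - n) (by linarith) (by linarith), hP.th_zero]
    · ring
    · by_cases h4 : s - n < 1 / 2
      · have h5 : round (s - n) = 0 := by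
          rw [round_eq, Int.floor_eq_zero_iff]
          constructor
          · linarith
          · linarith
        unfold pd
        rw [h5, Int.cast_zero, sub_zero, abs_of_nonneg (by linarith)]
        linarith
      · have h5 : s - n = 1 / 2 := by linarith
        have h6 : round ((1 : ℝ) / 2) = 1 := by
          rw [round_eq]
          norm_num
        rw [h5]
        unfold pd
        rw [h6]
        norm_num
        linarith
  · push Not at h3
    have e : s = (s - (n + 1 : ℤ)) + (n + 1 : ℤ) := by ring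
    rw [e, S_int D hP, hP.S_neg _ (by push_cast; linarith) (by push_cast; linarith)]
    push_cast
    ring

lemma S_pos' (hP : D.Prof K) (n : ℤ) {s : ℝ} (h1 : (n : ℝ) ≤ s) (h2 : s ≤ n + 1 / 2) :
    D.S s = n - D.th s := by
  have e : s = (s - n) + n := by ring
  have h3 := S_int D hP (s - n) n
  have h4 := th_int D hP (s - n) n
  rw [← e] at h3 h4
  rw [h3, h4, hP.S_pos (s - n) (by linarith) (by linarith)]
  ring

lemma S_bd (hP : D.Prof K) (s : ℝ) : |s - D.S s| ≤ 3 / 2 := by
  have h3 := Int.floor_le s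
  have h4 := Int.lt_floor_add_one s
  by_cases h : s ≤ ⌊s⌋ + 1 / 2
  · rw [S_pos' D hP ⌊s⌋ h3 h, abs_le]
    have := hP.th_rng s
    constructor <;> linarith
  · push Not at h
    have e : s = (s - (⌊s⌋ + 1 : ℤ)) + (⌊s⌋ + 1 : ℤ) := by ring
    have h5 : D.S s = ⌊s⌋ := by
      rw [e, S_int D hP, hP.S_neg _ (by push_cast; linarith) (by push_cast; linarith)]
      push_cast
      have : (⌊s - (↑⌊s⌋ + 1) + (↑⌊s⌋ + 1)⌋ : ℝ) = ⌊s⌋ := by
        congr 2
        ring
      rw [this]
      ring
    rw [h5, abs_le]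
    constructor <;> linarith

/-! ### smoothness -/

lemma sm_vtr (hP : D.Prof K) : ContDiff ℝ ∞ D.vtr := by
  refine contDiff_pi.2 fun i => ?_
  exact contDiff_const.mul (hP.S_sm.comp (contDiff_apply ℝ ℝ i))

lemma sm_Al (hP : D.Prof K) (L : ℕ) (k : Fin d) : ContDiff ℝ ∞ (D.Al L k) := by
  unfold Dat.Al
  exact contDiff_const.add (contDiff_const.mul ((contDiff_apply ℝ ℝ (D.l k)).sub
    (hP.S_sm.comp (contDiff_apply ℝ ℝ (D.l k)))))

lemma sm_Th (hP : D.Prof K) : ContDiff ℝ ∞ D.Th := by
  unfold Dat.Th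
  exact contDiff_const.sub (contDiff_prod fun i _ =>
    contDiff_const.sub (hP.thF_sm.comp (contDiff_apply ℝ ℝ i)))

lemma sm_vedge (hP : D.Prof K) (L : ℕ) : ContDiff ℝ ∞ (D.vedge L) := by
  refine contDiff_pi.2 fun i => ?_
  unfold Dat.vedge
  exact ((contDiff_const.sub (sm_Th D hP)).mul (contDiff_pi.1 (sm_vtr D hP) i)).add
    ((sm_Th D hP).mul (contDiff_const.add (contDiff_const.mul (contDiff_apply ℝ ℝ i))))

lemma sm_vpat (hP : D.Prof K) (L : ℕ) (k : Fin d) (j : Fin D.J) :
    ContDiff ℝ ∞ (D.vpat L k j) := by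
  unfold Dat.vpat
  exact (sm_vtr D hP).add (((hP.th_sm.comp (contDiff_apply ℝ ℝ k)).mul (sm_Al D hP L k)).smul
    contDiff_const)

lemma sm_cut (hP : D.Prof K) (k : Fin d) (j : Fin D.J) : ContDiff ℝ ∞ (D.cut k j) := by
  unfold Dat.cut
  exact ((hP.ch_sm j).comp (contDiff_apply ℝ ℝ (D.l k))).mul (contDiff_prod fun i _ =>
    hP.cw_sm.comp (contDiff_apply ℝ ℝ i))

lemma sm_easyv (hP : D.Prof K) (L : ℕ) : ContDiff ℝ ∞ (D.easyv L) := by
  unfold Dat.easyv
  exact (sm_vedge D hP L).add (ContDiff.sum fun k _ => ContDiff.sum fun j _ =>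
    (sm_cut D hP k j).smul ((sm_vpat D hP L k j).sub (sm_vedge D hP L)))

lemma sm_easyy (hP : D.Prof K) (L : ℕ) : ContDiff ℝ ∞ (D.easyy L) := by
  refine contDiff_pi.2 fun i => ?_
  unfold Dat.easyy
  exact (contDiff_pi.1 (sm_easyv D hP L) i).sub (contDiff_const.mul (contDiff_apply ℝ ℝ i))

/-! ### derivatives along lines -/

lemma line (x z : V d) : HasDerivAt (fun t : ℝ => x + t • z) z 0 := by
  have h1 : HasDerivAt (fun t : ℝ => t • z) ((1 : ℝ) • z) 0 := (hasDerivAt_id (0 : ℝ)).smul_const z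
  rw [one_smul] at h1
  exact h1.const_add x

lemma line_comp {F : Type*} [NormedAddCommGroup F] [NormedSpace ℝ F] {f : V d → F}
    (hf : ContDiff ℝ ∞ f) (x z : V d) :
    HasDerivAt (fun t : ℝ => f (x + t • z)) (fderiv ℝ f x z) 0 := by
  have h1 : HasFDerivAt f (fderiv ℝ f x) (x + (0 : ℝ) • z) := by
    rw [zero_smul, add_zero]
    exact (hf.differentiable (by simp)).differentiableAt.hasFDerivAt
  exact h1.comp_hasDerivAt (0 : ℝ) (line x z)

lemma dot_line {f : V d → V d} (hf : ContDiff ℝ ∞ f) (x z : V d) :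
    HasDerivAt (fun t : ℝ => dot z (f (x + t • z))) (ip (oo z) (grad f x)) 0 := by
  have h1 := line_comp hf x z
  have h2 : ∀ i, HasDerivAt (fun t : ℝ => f (x + t • z) i) (fderiv ℝ f x z i) 0 :=
    hasDerivAt_pi.1 h1
  have h3 : HasDerivAt (fun t : ℝ => dot z (f (x + t • z))) (∑ i, z i * fderiv ℝ f x z i) 0 :=
    HasDerivAt.fun_sum fun i _ => (h2 i).const_mul (z i)
  have h4 : ip (oo z) (grad f x) = ∑ i, z i * fderiv ℝ f x z i := by
    unfold ip oo grad
    refine Finset.sum_congr rfl fun i _ => ?_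
    have h5 : z = ∑ j, z j • (Pi.single j 1 : V d) := by
      ext m
      simp [Finset.sum_apply, Pi.single_apply]
    have h6 : fderiv ℝ f x z i = ∑ j, z j * fderiv ℝ f x (Pi.single j 1) i := by
      conv_lhs => rw [h5]
      rw [map_sum, Finset.sum_apply]
      refine Finset.sum_congr rfl fun j _ => ?_
      rw [map_smul, Pi.smul_apply, smul_eq_mul]
    rw [h6, Finset.mul_sum]
    refine Finset.sum_congr rfl fun j _ => ?_
    ring
  rw [h4]
  exact h3

/-! ### sheets -/

lemma sheet (hP : D.Prof K) (L : ℕ) (k : Fin d) (x : V d) (hx : pd (x k) < D.b) :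
    grad (D.easyy L) x (D.l k) (D.l k) = 0 := by
  have hlk := D.l_ne k
  have hb := b_pos D
  have hh := h_le D
  have hw := w_pos D
  have h0 := h_pos D
  have hbe := b_eq D
  -- the component is constant along the line
  have key : ∀ t : ℝ, D.easyy L (x + t • Pi.single (D.l k) 1) (D.l k) =
      (L : ℝ) * D.q0 (D.l k) := by
    intro t
    set y : V d := x + t • Pi.single (D.l k) 1 with hy
    have hyk : y k = x k := by
      rw [hy]
      simp [Pi.single_apply, Ne.symm hlk]
    have hTh : D.Th y = 1 := by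
      unfold Dat.Th
      have h1 : ∏ i, (1 - D.thF (y i)) = 0 := by
        apply Finset.prod_eq_zero (Finset.mem_univ k)
        rw [hyk, hP.thF_one _ (by unfold Dat.bF; linarith), sub_self]
      rw [h1, sub_zero]
    have hved : D.vedge L y (D.l k) = (L : ℝ) * D.q0 (D.l k) + D.E (D.l k) * y (D.l k) := by
      unfold Dat.vedge
      rw [hTh]
      ring
    have hsum : ∀ k' j, (D.cut k' j y • (D.vpat L k' j y - D.vedge L y)) (D.l k) = 0 := by
      intro k' j
      rw [Pi.smul_apply, Pi.sub_apply, smul_eq_mul]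
      by_cases hk : k' = k
      · subst hk
        have h1 : D.vpat L k' j y (D.l k') = D.vedge L y (D.l k') := by
          rw [hved]
          unfold Dat.vpat Dat.vtr Dat.Al
          simp only [Pi.add_apply, Pi.smul_apply, Pi.sub_apply, smul_eq_mul, Pi.single_eq_same,
            Pi.single_eq_of_ne hlk, mul_zero, sub_zero, mul_one]
          rw [hyk, hP.th_one _ hx.le]
          ring
        rw [h1, sub_self, mul_zero]
      · have h1 : D.cut k' j y = 0 := by
          unfold Dat.cut
          have h2 : ∏ i ∈ Finset.univ.erase k', D.cw (y i) = 0 := by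
            apply Finset.prod_eq_zero (Finset.mem_erase.2 ⟨Ne.symm hk, Finset.mem_univ k⟩)
            rw [hyk]
            exact hP.cw_zero _ (by linarith)
          rw [h2, mul_zero]
        rw [h1, zero_mul]
    unfold Dat.easyy Dat.easyv
    rw [Pi.add_apply, Finset.sum_apply]
    simp only [Finset.sum_apply, hsum, Finset.sum_const_zero, add_zero]
    rw [hved]
    ring
  have h1 := hasDerivAt_pi.1 (line_comp (sm_easyy D hP L) x (Pi.single (D.l k) 1)) (D.l k)
  have h2 : HasDerivAt (fun t : ℝ => D.easyy L (x + t • Pi.single (D.l k) 1) (D.l k)) 0 0 := by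
    simp only [key]
    exact hasDerivAt_const _ _
  unfold grad
  exact h1.unique h2

/-! ### fibres -/

lemma int_sep {J j j' : ℕ} (hj : j < J) (hj' : j' < J) (hne : j ≠ j') (m : ℤ) :
    (1 : ℝ) ≤ |(j : ℝ) - j' + m * J| := by
  have h1 : ((j : ℤ) - j' + m * J) ≠ 0 := by
    intro h
    rcases lt_trichotomy m 0 with hm | hm | hm
    · have : m * (J : ℤ) ≤ -1 * J := by nlinarith
      omega
    · subst hm
      omega
    · have : 1 * (J : ℤ) ≤ m * J := by nlinarith
      omega
  have h2 : (1 : ℤ) ≤ |(j : ℤ) - j' + m * J| := Int.one_le_abs h1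
  exact_mod_cast h2

/-- Near a point of the fibre zone only the cut-off of the patch itself is present. -/
lemma near (hP : D.Prof K) (L : ℕ) (k : Fin d) (j : Fin D.J) (x z : V d) (hx : D.pat k j x)
    (hk : pd (x k) < D.h) : ∀ᶠ t : ℝ in 𝓝 0, D.easyv L (x + t • z) =
      D.vedge L (x + t • z) + D.cut k j (x + t • z) •
        (D.vpat L k j (x + t • z) - D.vedge L (x + t • z)) := by
  have hh := h_le D
  have hw := w_pos D
  have h0 := h_pos D
  have hJ := J_one D
  obtain ⟨⟨n, hn⟩, -⟩ := hx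
  have e1 : ∀ᶠ t : ℝ in 𝓝 0, |(x + t • z) k - round (x k)| < D.w / 2 := by
    have hc : ContinuousAt (fun t : ℝ => |(x + t • z) k - round (x k)|) 0 := by
      apply Continuous.continuousAt
      simp only [Pi.add_apply, Pi.smul_apply, smul_eq_mul]
      fun_prop
    refine hc.eventually (gt_mem_nhds ?_)
    simp only [zero_smul, add_zero]
    unfold pd at hk
    linarith
  have e2 : ∀ᶠ t : ℝ in 𝓝 0, |(x + t • z) (D.l k) - (D.p j + n) * D.w| < D.a := by
    have hc : ContinuousAt (fun t : ℝ => |(x + t • z) (D.l k) - (D.p j + n) * D.w|) 0 := by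
      apply Continuous.continuousAt
      simp only [Pi.add_apply, Pi.smul_apply, smul_eq_mul]
      fun_prop
    refine hc.eventually (gt_mem_nhds ?_)
    simp only [zero_smul, add_zero]
    exact hn
  filter_upwards [e1, e2] with t h1 h2
  set y := x + t • z with hy
  have hzero : ∀ k' j', (k', j') ≠ (k, j) → D.cut k' j' y = 0 := by
    intro k' j' hne
    unfold Dat.cut
    by_cases hkk : k' = k
    · subst hkk
      have hjj : j' ≠ j := by
        rintro rfl
        exact hne rfl
      rw [hP.ch_zero, zero_mul]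
      intro n'
      have h3 := int_sep j.2 j'.2 (fun h => hjj (Fin.ext h.symm)) (n - n')
      have h4 : D.p j + n - (D.p j' + n') = ((j : ℕ) - (j' : ℕ) + ((n - n' : ℤ) : ℝ) * D.J) / D.J := by
        unfold Dat.p
        push_cast
        field_simp
        ring
      have h5 : 1 / (D.J : ℝ) ≤ |D.p j + n - (D.p j' + n')| := by
        rw [h4, abs_div, abs_of_pos (by linarith : (0 : ℝ) < D.J)]
        exact div_le_div_of_nonneg_right h3 (by linarith)
      have h6 : D.w / D.J ≤ |(D.p j + n) * D.w - (D.p j' + n') * D.w| := by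
        rw [← sub_mul, abs_mul, abs_of_pos hw]
        calc D.w / D.J = 1 / D.J * D.w := by ring
          _ ≤ _ := mul_le_mul_of_nonneg_right h5 hw.le
      have h7 : |(D.p j + n) * D.w - (D.p j' + n') * D.w| ≤
          |y (D.l k') - (D.p j + n) * D.w| + |y (D.l k') - (D.p j' + n') * D.w| := by
        have h71 := abs_sub_le ((D.p j + n) * D.w) (y (D.l k')) ((D.p j' + n') * D.w)
        have h72 := abs_sub_comm ((D.p j + n) * D.w) (y (D.l k'))
        rw [h72] at h71
        exact h71
      have h8 : D.a = D.w / D.J / 4 := by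
        unfold Dat.a
        field_simp
      have h9 : 3 * D.w / (8 * D.J) = 3 / 8 * (D.w / D.J) := by
        field_simp
      have h10 : 0 < D.w / D.J := by positivity
      rw [h9]
      linarith
    · have h3 : ∏ i ∈ Finset.univ.erase k', D.cw (y i) = 0 := by
        apply Finset.prod_eq_zero (Finset.mem_erase.2 ⟨Ne.symm hkk, Finset.mem_univ k⟩)
        exact hP.cw_zero _ ((pd_le _ (round (x k))).trans h1.le)
      rw [h3, mul_zero]
  unfold Dat.easyv
  congr 1
  rw [Finset.sum_eq_single k, Finset.sum_eq_single j]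
  · intro j' _ hj'
    rw [hzero k j' (by simp [hj']), zero_smul]
  · intro h
    exact absurd (Finset.mem_univ _) h
  · intro k' _ hk'
    apply Finset.sum_eq_zero
    intro j' _
    rw [hzero k' j' (by simp [hk']), zero_smul]
  · intro h
    exact absurd (Finset.mem_univ _) h

lemma cut_le (hP : D.Prof K) (k : Fin d) (j : Fin D.J) (x : V d) : D.cut k j x ≤ 1 := by
  unfold Dat.cut
  have h1 := hP.ch_rng j (x (D.l k))
  have h2 : ∏ i ∈ Finset.univ.erase k, D.cw (x i) ≤ 1 :=
    Finset.prod_le_one (fun i _ => (hP.cw_rng _).1) (fun i _ => (hP.cw_rng _).2)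
  have h3 : 0 ≤ ∏ i ∈ Finset.univ.erase k, D.cw (x i) :=
    Finset.prod_nonneg (fun i _ => (hP.cw_rng _).1)
  nlinarith

lemma cut_one (hP : D.Prof K) (k : Fin d) (j : Fin D.J) (x : V d) (hx : D.pat k j x) :
    D.cut k j x = 1 := by
  unfold Dat.cut
  obtain ⟨⟨n, hn⟩, h2⟩ := hx
  rw [hP.ch_one j _ ⟨n, hn.le⟩, Finset.prod_eq_one, one_mul]
  intro i hi
  exact hP.cw_one _ (h2 i (Finset.mem_erase.1 hi).1)

/-- In the fibre zone the derivative of `easyv` is that of `vpat`. -/
lemma fibre (hP : D.Prof K) (L : ℕ) (k : Fin d) (j : Fin D.J) (x z : V d) (hx : D.pat k j x)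
    (hk : pd (x k) < D.h) {v' : ℝ}
    (hv : HasDerivAt (fun t : ℝ => dot z (D.vpat L k j (x + t • z))) v' 0) :
    ip (oo z) (grad (D.easyy L) x) = v' - ∑ i, D.E i * z i ^ 2 := by
  have h1 := dot_line (sm_easyy D hP L) x z
  have hc0 : D.cut k j (x + (0 : ℝ) • z) = 1 := by
    rw [zero_smul, add_zero]
    exact cut_one D hP k j x hx
  have hc : HasDerivAt (fun t : ℝ => D.cut k j (x + t • z)) 0 0 := by
    have h2 := line_comp (sm_cut D hP k j) x z
    have h3 : IsLocalMax (fun t : ℝ => D.cut k j (x + t • z)) 0 := by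
      refine Filter.Eventually.of_forall fun t => ?_
      change D.cut k j (x + t • z) ≤ D.cut k j (x + (0 : ℝ) • z)
      rw [hc0]
      exact cut_le D hP k j _
    have h4 := h3.hasDerivAt_eq_zero h2
    rw [h4] at h2
    exact h2
  have he := dot_line (sm_vedge D hP L) x z
  set e' := ip (oo z) (grad (D.vedge L) x) with he'
  have hF : HasDerivAt (fun t : ℝ => dot z (D.vedge L (x + t • z)) + D.cut k j (x + t • z) *
      (dot z (D.vpat L k j (x + t • z)) - dot z (D.vedge L (x + t • z)))) v' 0 := by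
    have h2 := he.add (hc.mul (hv.sub he))
    have e : e' + (0 * (dot z (D.vpat L k j (x + (0 : ℝ) • z)) - dot z (D.vedge L (x + (0 : ℝ) • z))) +
        D.cut k j (x + (0 : ℝ) • z) * (v' - e')) = v' := by
      rw [hc0]
      ring
    rw [← e]
    exact h2
  have hE : HasDerivAt (fun t : ℝ => ∑ i, z i * (D.E i * (x + t • z) i))
      (∑ i, D.E i * z i ^ 2) 0 := by
    refine HasDerivAt.fun_sum fun i _ => ?_
    have h2 : HasDerivAt (fun t : ℝ => (x + t • z) i) (z i) 0 := hasDerivAt_pi.1 (line x z) i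
    have h3 := (h2.const_mul (D.E i)).const_mul (z i)
    have e : z i * (D.E i * z i) = D.E i * z i ^ 2 := by ring
    rwa [e] at h3
  have hall : HasDerivAt (fun t : ℝ => dot z (D.easyy L (x + t • z)))
      (v' - ∑ i, D.E i * z i ^ 2) 0 := by
    refine (hF.sub hE).congr_of_eventuallyEq ?_
    filter_upwards [near D hP L k j x z hx hk] with t ht
    unfold Dat.easyy dot
    rw [ht]
    simp only [Pi.add_apply, Pi.smul_apply, Pi.sub_apply, smul_eq_mul]
    rw [← Finset.sum_sub_distrib, Finset.mul_sum, ← Finset.sum_add_distrib,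
      ← Finset.sum_sub_distrib]
    refine Finset.sum_congr rfl fun i _ => ?_
    ring
  exact h1.unique hall

lemma dot_vpat (L : ℕ) (k : Fin d) (j : Fin D.J) (y z : V d) :
    dot z (D.vpat L k j y) = ∑ i, z i * (D.E i * D.S (y i)) + D.th (y k) * D.Al L k y *
      (z (D.l k) - ((D.u j (D.l k) : ℝ) / D.u j k) * z k) := by
  unfold dot Dat.vpat Dat.vtr
  simp only [Pi.add_apply, Pi.smul_apply, Pi.sub_apply, smul_eq_mul, mul_add,
    Finset.sum_add_distrib]
  congr 1
  have h1 : ∀ i, z i * (D.th (y k) * D.Al L k y * ((Pi.single (D.l k) (1 : ℝ) : V d) i -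
      (D.u j (D.l k) : ℝ) / D.u j k * (Pi.single k (1 : ℝ) : V d) i)) =
      D.th (y k) * D.Al L k y * (z i * (Pi.single (D.l k) (1 : ℝ) : V d) i) -
        D.th (y k) * D.Al L k y * ((D.u j (D.l k) : ℝ) / D.u j k) *
          (z i * (Pi.single k (1 : ℝ) : V d) i) := fun i => by ring
  simp only [h1]
  rw [Finset.sum_sub_distrib, ← Finset.mul_sum, ← Finset.mul_sum]
  have h2 : ∀ m : Fin d, ∑ i, z i * (Pi.single m (1 : ℝ) : V d) i = z m := by
    intro m
    simp [Pi.single_apply]
  rw [h2, h2]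
  ring

/-- `S` is locally constant away from the positive sides of the integers. -/
lemma S_near (hP : D.Prof K) {s c : ℝ} (n : ℤ) (h1 : (n : ℝ) + 2 * D.b < s) (h2 : s < n + 1) :
    ∀ᶠ t : ℝ in 𝓝 0, D.S (s + t * c) = n := by
  have hc : ContinuousAt (fun t : ℝ => s + t * c) 0 := by
    apply Continuous.continuousAt
    fun_prop
  have e1 : ∀ᶠ t : ℝ in 𝓝 0, (n : ℝ) + 2 * D.b < s + t * c := by
    refine hc.eventually (lt_mem_nhds ?_)
    simpa using h1
  have e2 : ∀ᶠ t : ℝ in 𝓝 0, s + t * c < n + 1 := by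
    refine hc.eventually (gt_mem_nhds ?_)
    simpa using h2
  filter_upwards [e1, e2] with t h3 h4
  exact S_const D hP n h3.le h4.le

lemma S_far (hP : D.Prof K) {s : ℝ} (c : ℝ) (h : D.w ≤ pd s) :
    ∀ᶠ t : ℝ in 𝓝 0, D.S (s + t * c) = D.S s := by
  have hh := h_le D
  have hw := w_pos D
  have h0 := h_pos D
  have hb := b_eq D
  obtain ⟨h1, h2⟩ := pd_floor h
  have h3 : D.S s = ⌊s⌋ := S_const D hP ⌊s⌋ (by linarith) (by linarith)
  rw [h3]
  exact S_near D hP ⌊s⌋ (by linarith) (by linarith)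

lemma u_pos (j : Fin D.J) (i : Fin d) : (1 : ℝ) ≤ D.u j i := by exact_mod_cast (D.u_rng j i).1

lemma u_le (j : Fin D.J) (i : Fin d) : (D.u j i : ℝ) ≤ 3 := by exact_mod_cast (D.u_rng j i).2

end EasySM

open EasySM

/-- C7c -/
theorem easyS_ok (d : ℕ) : StmtEasyS d := by
  intro D K hP L
  constructor
  · intro k x hx
    exact sheet D hP L k x hx.1
  · intro k j x hx
    obtain ⟨hpat, h1, h2, h3⟩ := hx
    have hh := h_le D
    have hw := w_pos D
    have hw6 := w_le D
    have h0 := h_pos D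
    have hb := b_eq D
    have hv : HasDerivAt (fun t : ℝ => dot (zv (D.u j)) (D.vpat L k j (x + t • zv (D.u j)))) 0 0 := by
      have hall : ∀ᶠ t : ℝ in 𝓝 0, ∀ i, D.S (x i + t * zv (D.u j) i) = D.S (x i) := by
        rw [Filter.eventually_all]
        intro i
        by_cases hi : i = k
        · subst hi
          have h4 : x i = round (x i) - pd (x i) := by
            unfold pd
            rw [abs_of_neg (by linarith)]
            ring
          have h5 : ((round (x i) - 1 : ℤ) : ℝ) = round (x i) - 1 := by push_cast; ring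
          have h6 : 0 < pd (x i) := by linarith [b_pos D]
          have h7 : D.S (x i) = (round (x i) - 1 : ℤ) := by
            apply S_const D hP
            · rw [h5]; linarith
            · rw [h5]; linarith
          rw [h7]
          apply S_near D hP
          · rw [h5]; linarith
          · rw [h5]; linarith
        · exact S_far D hP _ (hpat.2 i hi)
      have hconst : (fun t : ℝ => dot (zv (D.u j)) (D.vpat L k j (x + t • zv (D.u j)))) =ᶠ[𝓝 0]
          fun _ => ∑ i, zv (D.u j) i * (D.E i * D.S (x i)) := by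
        filter_upwards [hall] with t ht
        rw [dot_vpat]
        have h4 : zv (D.u j) (D.l k) - ((D.u j (D.l k) : ℝ) / D.u j k) * zv (D.u j) k = 0 := by
          have := u_pos D j k
          unfold zv
          rw [div_mul_cancel₀ _ (by linarith), sub_self]
        rw [h4, mul_zero, add_zero]
        refine Finset.sum_congr rfl fun i _ => ?_
        rw [Pi.add_apply, Pi.smul_apply, smul_eq_mul, ht i]
      exact (hasDerivAt_const (0 : ℝ) (∑ i, zv (D.u j) i * (D.E i * D.S (x i)))).congr_of_eventuallyEq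
        hconst
    have h4 := fibre D hP L k j x (zv (D.u j)) hpat h2 hv
    rw [h4, zero_sub]
    rfl

namespace EasySM

variable {d : ℕ} (D : Dat d) {K : ℝ}

lemma th_der (hP : D.Prof K) : ∃ M : ℝ, 0 ≤ M ∧ ∀ s, |deriv D.th s| ≤ M := by
  have hc : Continuous (deriv D.th) := hP.th_sm.continuous_deriv (by simp)
  have hper : Function.Periodic (deriv D.th) 1 := by
    intro t
    have h1 : (fun s => D.th (s + 1)) = D.th := funext hP.th_per
    have h2 := deriv_comp_add_const D.th 1 t
    rw [h1] at h2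
    exact h2.symm
  obtain ⟨M, hM⟩ := isCompact_Icc.exists_bound_of_continuousOn (s := Set.Icc (0 : ℝ) 1)
    hc.continuousOn
  refine ⟨M, (norm_nonneg _).trans (hM 0 (by simp)), fun s => ?_⟩
  obtain ⟨y, hy, h3⟩ := hper.exists_mem_Ico₀ one_pos s
  rw [h3]
  exact hM y ⟨hy.1, hy.2.le⟩

end EasySM

/-- C7d -/
theorem easyG_ok (d : ℕ) : StmtEasyG d := by
  intro B
  have hE0 : 0 ≤ ∑ i, |B.E i| := Finset.sum_nonneg fun i _ => abs_nonneg _
  have hK0 : 0 ≤ ∑ i, |(B.kk i : ℝ)| := Finset.sum_nonneg fun i _ => abs_nonneg _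
  refine ⟨∑ i, |B.E i| + 17 * ((∑ i, |(B.kk i : ℝ)|) * ∑ i, |B.E i|), by positivity, ?_⟩
  intro D K hB hP
  subst hB
  set EE : ℝ := ∑ i, |D.toComb.E i| with hEE
  set KK : ℝ := ∑ i, |(D.toComb.kk i : ℝ)| with hKK
  obtain ⟨M, hM0, hM⟩ := th_der D hP
  refine ⟨⌈M⌉₊, ?_⟩
  intro L hL hL0 k j x hx
  obtain ⟨hpat, h1, h2, h3⟩ := hx
  have hh := h_le D
  have hw := w_pos D
  have hw6 := w_le D
  have h0 := h_pos D
  have hb := b_eq D
  have hbp := b_pos D
  have hlk := D.l_ne k
  set z : V d := zv (D.g L k j) with hz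
  have hLr : (1 : ℝ) ≤ L := by exact_mod_cast hL0
  have hML : M ≤ L := (Nat.le_ceil M).trans (by exact_mod_cast hL)
  have huk := u_pos D j k
  have huk3 := u_le D j k
  have hzk : z k = L * D.u j k := by
    rw [hz]
    unfold zv Dat.g
    rw [if_neg (Ne.symm hlk)]
    push_cast
    ring
  have hzl : z (D.l k) = L * D.u j (D.l k) + D.kk k * D.u j k := by
    rw [hz]
    unfold zv Dat.g
    rw [if_pos rfl]
    push_cast
    ring
  set m : ℤ := round (x k) with hm
  have hxk : x k = m + pd (x k) := by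
    unfold pd
    rw [abs_of_pos (by linarith)]
    ring
  -- the function near zero
  set l := D.l k with hl
  set τ : ℝ → ℝ := fun t => D.th (x k + t * z k) with hτ
  set A : ℝ → ℝ := fun t => (L : ℝ) * D.q0 l + D.E l * (x l + t * z l - D.S (x l)) with hA
  have hτd : HasDerivAt τ (deriv D.th (x k) * z k) 0 := by
    have e1 : HasDerivAt (fun t : ℝ => x k + t * z k) (z k) 0 := by
      simpa using ((hasDerivAt_id (0 : ℝ)).mul_const (z k)).const_add (x k)
    have e2 : HasDerivAt D.th (deriv D.th (x k)) (x k + (0 : ℝ) * z k) := by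
      rw [zero_mul, add_zero]
      exact (hP.th_sm.differentiable (by simp)).differentiableAt.hasDerivAt
    exact e2.comp (0 : ℝ) e1
  have hAd : HasDerivAt A (D.E l * z l) 0 := by
    have e1 : HasDerivAt (fun t : ℝ => x l + t * z l - D.S (x l)) (z l) 0 := by
      simpa using (((hasDerivAt_id (0 : ℝ)).mul_const (z l)).const_add (x l)).sub_const (D.S (x l))
    exact (e1.const_mul (D.E l)).const_add _
  have hv : HasDerivAt (fun t : ℝ => dot z (D.vpat L k j (x + t • z)))
      (z k * (D.E k * (-(deriv D.th (x k) * z k))) +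
        (deriv D.th (x k) * z k * A 0 + τ 0 * (D.E l * z l)) * (D.kk k * D.u j k)) 0 := by
    have e1 : HasDerivAt (fun t : ℝ => (∑ i ∈ Finset.univ.erase k, z i * (D.E i * D.S (x i))) +
        z k * (D.E k * ((m : ℝ) - τ t)) + τ t * A t * (D.kk k * D.u j k))
        (z k * (D.E k * (-(deriv D.th (x k) * z k))) +
        (deriv D.th (x k) * z k * A 0 + τ 0 * (D.E l * z l)) * (D.kk k * D.u j k)) 0 := by
      have e2 := (((hτd.const_sub (m : ℝ)).const_mul (D.E k)).const_mul (z k)).const_add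
        (∑ i ∈ Finset.univ.erase k, z i * (D.E i * D.S (x i)))
      exact e2.add ((hτd.mul hAd).mul_const _)
    refine e1.congr_of_eventuallyEq ?_
    have hfar : ∀ᶠ t : ℝ in 𝓝 0, ∀ i, i ≠ k → D.S (x i + t * z i) = D.S (x i) := by
      rw [Filter.eventually_all]
      intro i
      by_cases hi : i = k
      · exact Filter.Eventually.of_forall fun t h => absurd hi h
      · filter_upwards [S_far D hP (z i) (hpat.2 i hi)] with t ht _
        exact ht
    have hc : ContinuousAt (fun t : ℝ => x k + t * z k) 0 := by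
      apply Continuous.continuousAt
      fun_prop
    have g1 : ∀ᶠ t : ℝ in 𝓝 0, (m : ℝ) < x k + t * z k := by
      refine hc.eventually (lt_mem_nhds ?_)
      simpa using h3
    have g2 : ∀ᶠ t : ℝ in 𝓝 0, x k + t * z k < m + 1 / 2 := by
      refine hc.eventually (gt_mem_nhds ?_)
      simp only [zero_mul, add_zero]
      linarith
    filter_upwards [hfar, g1, g2] with t ht f1 f2
    rw [dot_vpat]
    have e3 : ∀ i, (x + t • z) i = x i + t * z i := fun i => by
      rw [Pi.add_apply, Pi.smul_apply, smul_eq_mul]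
    have e4 : z (D.l k) - ((D.u j (D.l k) : ℝ) / D.u j k) * z k = D.kk k * D.u j k := by
      rw [← hl, hzl, hzk]
      field_simp
      ring
    rw [e4]
    unfold Dat.Al
    simp only [e3]
    rw [← Finset.add_sum_erase _ _ (Finset.mem_univ k), S_pos' D hP m f1.le f2.le, ← hl,
      ht l hlk]
    have e5 : ∑ i ∈ Finset.univ.erase k, z i * (D.E i * D.S (x i + t * z i)) =
        ∑ i ∈ Finset.univ.erase k, z i * (D.E i * D.S (x i)) :=
      Finset.sum_congr rfl fun i hi => by rw [ht i (Finset.ne_of_mem_erase hi)]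
    rw [e5]
    simp only [hτ, hA]
    ring
  have h4 := fibre D hP L k j x z hpat h2 hv
  rw [h4]
  -- the estimate
  have hEl : |D.E l| ≤ EE := Finset.single_le_sum (f := fun i => |D.toComb.E i|)
    (fun i _ => abs_nonneg _) (Finset.mem_univ l)
  have hkk : |(D.kk k : ℝ)| ≤ KK := Finset.single_le_sum (f := fun i => |(D.toComb.kk i : ℝ)|)
    (fun i _ => abs_nonneg _) (Finset.mem_univ k)
  have hdot : dot z z = ∑ i, z i ^ 2 := by
    unfold dot
    exact Finset.sum_congr rfl fun i _ => by ring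
  have hzi : ∀ i, z i ^ 2 ≤ dot z z := by
    intro i
    rw [hdot]
    exact Finset.single_le_sum (f := fun i => z i ^ 2) (fun i _ => sq_nonneg _) (Finset.mem_univ i)
  have hsum : |∑ i, D.E i * z i ^ 2| ≤ EE * dot z z := by
    refine (Finset.abs_sum_le_sum_abs _ _).trans ?_
    rw [hEE, Finset.sum_mul]
    refine Finset.sum_le_sum fun i _ => ?_
    rw [abs_mul, abs_of_nonneg (sq_nonneg (z i))]
    exact mul_le_mul_of_nonneg_left (hzi i) (abs_nonneg _)
  have hEk : D.E k = D.kk k * D.q0 l := rfl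
  have hmain : z k * (D.E k * (-(deriv D.th (x k) * z k))) +
        (deriv D.th (x k) * z k * A 0 + τ 0 * (D.E l * z l)) * (D.kk k * D.u j k) =
      deriv D.th (x k) * (L * D.u j k ^ 2) * (D.kk k * D.E l) * (x l - D.S (x l)) +
        τ 0 * (D.u j k * (D.kk k * D.E l)) * z l := by
    simp only [hA]
    rw [hEk, hzk]
    ring
  rw [hmain]
  have hKE : |(D.kk k : ℝ) * D.E l| ≤ KK * EE := by
    rw [abs_mul]
    exact mul_le_mul hkk hEl (abs_nonneg _) hK0
  have hKE0 : 0 ≤ KK * EE := mul_nonneg hK0 hE0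
  have hL2 : (L : ℝ) ^ 2 ≤ dot z z := by
    refine le_trans ?_ (hzi k)
    rw [hzk]
    have f21 : (1 : ℝ) ≤ (D.u j k : ℝ) ^ 2 := by nlinarith
    have f22 : (0 : ℝ) ≤ (L : ℝ) ^ 2 := sq_nonneg _
    rw [mul_pow]
    nlinarith
  have hone : |deriv D.th (x k) * (L * D.u j k ^ 2) * (D.kk k * D.E l) * (x l - D.S (x l))| ≤
      14 * (KK * EE) * dot z z := by
    rw [abs_mul, abs_mul, abs_mul]
    have f1 : |deriv D.th (x k)| ≤ L := (hM _).trans hML
    have f2 : |(L : ℝ) * D.u j k ^ 2| ≤ L * 9 := by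
      rw [abs_of_nonneg (by positivity)]
      have f21 : (D.u j k : ℝ) ^ 2 ≤ 9 := by nlinarith
      exact mul_le_mul_of_nonneg_left f21 (by linarith)
    have f3 := S_bd D hP (x l)
    calc |deriv D.th (x k)| * |(L : ℝ) * D.u j k ^ 2| * |(D.kk k : ℝ) * D.E l| * |x l - D.S (x l)|
        ≤ (L * (L * 9)) * (KK * EE) * (3 / 2) := by gcongr
      _ = 27 / 2 * (KK * EE) * L ^ 2 := by ring
      _ ≤ 14 * (KK * EE) * L ^ 2 := by
        have : 0 ≤ (KK * EE) * (L : ℝ) ^ 2 := by positivity
        nlinarith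
      _ ≤ 14 * (KK * EE) * dot z z := mul_le_mul_of_nonneg_left hL2 (by positivity)
  have htwo : |τ 0 * (D.u j k * (D.kk k * D.E l)) * z l| ≤ 3 * (KK * EE) * dot z z := by
    rw [abs_mul, abs_mul, abs_mul]
    have f1 : |τ 0| ≤ 1 := by
      simp only [hτ]
      rw [abs_of_nonneg (hP.th_rng _).1]
      exact (hP.th_rng _).2
    have f2 : |(D.u j k : ℝ)| ≤ 3 := by
      rw [abs_of_nonneg (by linarith)]
      exact huk3
    have f3 : |z l| ≤ dot z z := by
      refine le_trans ?_ (hzi l)
      have e1 : z l = ((D.g L k j l : ℤ) : ℝ) := rfl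
      rw [e1]
      have e2 : |D.g L k j l| ≤ (D.g L k j l) ^ 2 := by
        rcases eq_or_ne (D.g L k j l) 0 with h | h
        · rw [h]; simp
        · have := Int.one_le_abs h
          rw [← sq_abs]
          nlinarith
      exact_mod_cast e2
    calc |τ 0| * (|(D.u j k : ℝ)| * |(D.kk k : ℝ) * D.E l|) * |z l|
        ≤ 1 * (3 * (KK * EE)) * dot z z := by gcongr
      _ = 3 * (KK * EE) * dot z z := by ring
  set a1 := deriv D.th (x k) * (L * D.u j k ^ 2) * (D.kk k * D.E l) * (x l - D.S (x l))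
  set a2 := τ 0 * (D.u j k * (D.kk k * D.E l)) * z l
  calc |a1 + a2 - ∑ i, D.E i * z i ^ 2| ≤ |a1 + a2| + |∑ i, D.E i * z i ^ 2| := abs_sub _ _
    _ ≤ |a1| + |a2| + |∑ i, D.E i * z i ^ 2| := by gcongr; exact abs_add_le _ _
    _ ≤ 14 * (KK * EE) * dot z z + 3 * (KK * EE) * dot z z + EE * dot z z := by gcongr
    _ = (EE + 17 * (KK * EE)) * dot z z := by ring

end Pool.Agent.Lib.MP_5df1bf_an
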