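import Pool.Agent.Lib.MP_5df1bf_an.Stmts1

/-!
# MP_5df1bf_an, A7', A9, A9': effective tensors of degenerate fields, monotonicity, continuity
-/

open MeasureTheory Filter Topology
open scoped BigOperators ContDiff

noncomputable section

namespace Pool.Agent.Lib.MP_5df1bf_an

variable {d : ℕ}

namespace Eff

/-- parallelogram identity for the energies -/
theorem en_par (hE : BaseE d) {E : V d → Tens d} {β : ℝ} (hf : IsFld E 0 β) (A B : M d)
    (u v w w' : Disp d) (hw : ∀ x, grad w.u x = grad u.u x + grad v.u x)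
    (hw' : ∀ x, grad w'.u x = grad u.u x - grad v.u x) :
    energy E (A + B) w + energy E (A - B) w' = 2 * energy E A u + 2 * energy E B v := by
  unfold energy
  rw [← integral_add (hE.int E β hf _ _) (hE.int E β hf _ _), ← integral_const_mul,
    ← integral_const_mul, ← integral_add ((hE.int E β hf _ _).const_mul 2)
      ((hE.int E β hf _ _).const_mul 2)]
  congr 1
  funext x
  have h := (E x).parallelogram (A + sg u.u x) (B + sg v.u x)
  have e1 : A + B + sg w.u x = (A + sg u.u x) + (B + sg v.u x) := by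
    have : sg w.u x = sg u.u x + sg v.u x := by
      unfold sg; rw [hw, symm_add]
    rw [this]; abel
  have e2 : A - B + sg w'.u x = (A + sg u.u x) - (B + sg v.u x) := by
    have : sg w'.u x = sg u.u x - sg v.u x := by
      unfold sg; rw [hw', symm_sub]
    rw [this]; abel
  rw [e1, e2]
  exact h

theorem exists_sub (hE : BaseE d) (u v : Disp d) :
    ∃ w : Disp d, ∀ x, grad w.u x = grad u.u x - grad v.u x := by
  obtain ⟨v', _, hv'⟩ := hE.smul (-1) v
  obtain ⟨w, _, hw⟩ := hE.add u v'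
  refine ⟨w, fun x => ?_⟩
  rw [hw, hv']
  simp [sub_eq_add_neg]

theorem eff_par_le (hE : BaseE d) {D : V d → Tens d} {β : ℝ} (hD : IsFld D 0 β) (A B : M d) :
    eff D (A + B) + eff D (A - B) ≤ 2 * eff D A + 2 * eff D B := by
  apply le_of_forall_pos_le_add
  intro η hη
  obtain ⟨u, hu⟩ := hE.eff_approx D A (η / 4) (by positivity)
  obtain ⟨v, hv⟩ := hE.eff_approx D B (η / 4) (by positivity)
  obtain ⟨w, _, hw⟩ := hE.add u v
  obtain ⟨w', hw'⟩ := exists_sub hE u v
  have h := en_par hE hD A B u v w w' hw hw'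
  have h1 := hE.eff_le D β hD (A + B) w
  have h2 := hE.eff_le D β hD (A - B) w'
  linarith

theorem eff_par (hE : BaseE d) {D : V d → Tens d} {β : ℝ} (hD : IsFld D 0 β) (A B : M d) :
    eff D (A + B) + eff D (A - B) = 2 * eff D A + 2 * eff D B := by
  apply le_antisymm (eff_par_le hE hD A B)
  have h := eff_par_le hE hD (A + B) (A - B)
  have e1 : (A + B) + (A - B) = (2 : ℝ) • A := by rw [two_smul]; abel
  have e2 : (A + B) - (A - B) = (2 : ℝ) • B := by rw [two_smul]; abel
  rw [e1, e2, hE.eff_smul D β hD, hE.eff_smul D β hD] at h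
  linarith

end Eff

open Eff

theorem Eff_ok (d : ℕ) (hE : BaseE d) : StmtEff d := by
  intro D β hD
  have hbd := hE.eff_bd D 0 β le_rfl hD
  obtain ⟨W, hW⟩ := exists_tens (fun ε => eff D ε) β (fun A => by
    obtain ⟨h1, h2⟩ := hbd A
    rw [zero_mul] at h1
    rw [abs_of_nonneg h1]
    exact h2) (fun A B => eff_par hE hD A B)
  refine ⟨W, hW, fun ε => ?_⟩
  obtain ⟨h1, h2⟩ := hbd ε
  rw [zero_mul] at h1
  rw [hW]
  exact ⟨h1, h2⟩

theorem Mono_ok (d : ℕ) (hE : BaseE d) : StmtMono d := by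
  intro D D' β β' hD hD' h ε
  apply hE.le_eff
  intro u
  refine (hE.eff_le D β hD ε u).trans ?_
  unfold energy
  exact integral_mono (hE.int D β hD ε u) (hE.int D' β' hD' ε u) (fun x => h x _)

namespace Eff

theorem idT_fld : IsFld (fun _ : V d => idT d) 0 1 where
  meas := fun A B => measurable_const
  per := fun x i => rfl
  lo := fun x A => by
    rw [zero_mul]
    exact ip_self_nonneg _ |>.trans (le_of_eq (by unfold Tens.Q; exact (ip_symm_symm A A)))
  hi := fun x A => by
    rw [one_mul]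
    unfold Tens.Q
    exact le_of_eq (ip_symm_symm A A).symm

end Eff

theorem Cont_ok (d : ℕ) (hE : BaseE d) : StmtCont d := by
  intro D β hD η hη
  obtain ⟨W, hW, _⟩ := Eff_ok d hE D β hD
  classical
  set I := Fin d × Fin d
  set n := Fintype.card I with hn
  have h2n : (0 : ℝ) < 2 ^ n := by positivity
  have hch : ∀ p : I, ∃ u : Disp d, energy D (eb p.1 p.2) u < eff D (eb p.1 p.2) +
      η / (2 * 2 ^ n) := fun p => hE.eff_approx D _ _ (by positivity)
  choose U hU using hch
  set P : M d → Disp d → ℝ := fun A u => energy (fun _ => idT d) A u with hP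
  have hP0 : ∀ A u, 0 ≤ P A u := fun A u => hE.nonneg _ _ idT_fld A u
  set K : ℝ := ∑ p : I, P (eb p.1 p.2) (U p) with hK
  have hK0 : 0 ≤ K := Finset.sum_nonneg fun p _ => hP0 _ _
  refine ⟨η / (2 * 2 ^ n * (K + 1)), by positivity, ?_⟩
  intro D' β' hD' hDD' ε₀
  -- symmetric ε
  set ε : M d := symm ε₀ with hε
  rw [← hE.eff_symm D' ε₀, ← hE.eff_symm D ε₀]
  rw [show nsq ε₀ = nsq ε from (nsq_symm ε₀).symm]
  change eff D' ε ≤ eff D ε + η * nsq ε
  -- the linear combinations
  have key : ∀ s : Finset I, ∃ u : Disp d,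
      energy D (∑ p ∈ s, ε p.1 p.2 • eb p.1 p.2) u - W.Q (∑ p ∈ s, ε p.1 p.2 • eb p.1 p.2) ≤
        2 ^ s.card * ∑ p ∈ s, (ε p.1 p.2) ^ 2 * (η / (2 * 2 ^ n)) ∧
      P (∑ p ∈ s, ε p.1 p.2 • eb p.1 p.2) u ≤
        2 ^ s.card * ∑ p ∈ s, (ε p.1 p.2) ^ 2 * P (eb p.1 p.2) (U p) := by
    intro s
    induction s using Finset.induction_on with
    | empty =>
      obtain ⟨w, _, hw⟩ := hE.zero
      have hsg : ∀ x, (∑ p ∈ (∅ : Finset I), ε p.1 p.2 • eb p.1 p.2 : M d) + sg w.u x = 0 := by
        intro x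
        unfold sg
        rw [hw, symm_zero, Finset.sum_empty, add_zero]
      refine ⟨w, ?_, ?_⟩
      · unfold energy
        simp only [hsg]
        simp
      · show energy _ _ _ ≤ _
        unfold energy
        simp only [hsg]
        simp
    | insert a s ha ih =>
      obtain ⟨v, hv1, hv2⟩ := ih
      obtain ⟨ua, _, hua⟩ := hE.smul (ε a.1 a.2) (U a)
      obtain ⟨w, _, hw⟩ := hE.add ua v
      obtain ⟨w', hw'⟩ := exists_sub hE ua v
      set A : M d := ε a.1 a.2 • eb a.1 a.2 with hA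
      set B : M d := ∑ p ∈ s, ε p.1 p.2 • eb p.1 p.2 with hB
      have hsc : ∀ (E : V d → Tens d) (b : ℝ), IsFld E 0 b →
          energy E A ua = (ε a.1 a.2) ^ 2 * energy E (eb a.1 a.2) (U a) := by
        intro E b _
        unfold energy
        rw [← integral_const_mul]
        congr 1
        funext x
        have e : A + sg ua.u x = ε a.1 a.2 • (eb a.1 a.2 + sg (U a).u x) := by
          unfold sg
          rw [hua, symm_smul, smul_add]
        rw [e, Tens.Q_smul]
      have hD1 := en_par hE hD A B ua v w w' hw hw'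
      have hD2 := hE.eff_le D β hD (A - B) w'
      rw [← hW] at hD2
      have hD3 := W.parallelogram A B
      have hP1 := en_par hE idT_fld A B ua v w w' hw hw'
      have hP2 : 0 ≤ energy (fun _ => idT d) (A - B) w' := hP0 _ _
      have hUa := hU a
      rw [← hW] at hUa
      have hWA : W.Q A = (ε a.1 a.2) ^ 2 * W.Q (eb a.1 a.2) := by rw [hA, Tens.Q_smul]
      have hcard : (insert a s).card = s.card + 1 := Finset.card_insert_of_notMem ha
      have h1 : (1 : ℝ) ≤ 2 ^ s.card := one_le_pow₀ (by norm_num)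
      have hsq : 0 ≤ (ε a.1 a.2) ^ 2 := sq_nonneg _
      refine ⟨w, ?_, ?_⟩
      · rw [Finset.sum_insert ha, Finset.sum_insert ha, hcard]
        change energy D (A + B) w - W.Q (A + B) ≤ _
        have h3 : energy D A ua - W.Q A ≤ (ε a.1 a.2) ^ 2 * (η / (2 * 2 ^ n)) := by
          rw [hsc D β hD, hWA, ← mul_sub]
          exact mul_le_mul_of_nonneg_left (by linarith) hsq
        have h4 : 0 ≤ (ε a.1 a.2) ^ 2 * (η / (2 * 2 ^ n)) := by positivity
        have h5 : (ε a.1 a.2) ^ 2 * (η / (2 * 2 ^ n)) ≤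
            2 ^ s.card * ((ε a.1 a.2) ^ 2 * (η / (2 * 2 ^ n))) := le_mul_of_one_le_left h4 h1
        rw [pow_succ, mul_comm ((2 : ℝ) ^ s.card) 2, mul_assoc, mul_add]
        linarith
      · rw [Finset.sum_insert ha, Finset.sum_insert ha, hcard]
        change energy (fun _ => idT d) (A + B) w ≤ _
        have h3 : energy (fun _ => idT d) A ua = (ε a.1 a.2) ^ 2 * P (eb a.1 a.2) (U a) :=
          hsc _ 1 idT_fld
        have h4 : 0 ≤ (ε a.1 a.2) ^ 2 * P (eb a.1 a.2) (U a) := mul_nonneg hsq (hP0 _ _)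
        have h5 : (ε a.1 a.2) ^ 2 * P (eb a.1 a.2) (U a) ≤
            2 ^ s.card * ((ε a.1 a.2) ^ 2 * P (eb a.1 a.2) (U a)) := le_mul_of_one_le_left h4 h1
        have hv2' : energy (fun _ => idT d) B v ≤ _ := hv2
        rw [pow_succ, mul_comm ((2 : ℝ) ^ s.card) 2, mul_assoc, mul_add]
        linarith
  obtain ⟨u, hu1, hu2⟩ := key Finset.univ
  have hexp : (∑ p : I, ε p.1 p.2 • eb p.1 p.2 : M d) = ε := by
    conv_rhs => rw [mat_expand ε]
    rw [Fintype.sum_prod_type]
  have hsum : ∑ p : I, (ε p.1 p.2) ^ 2 = nsq ε := by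
    rw [nsq_eq, Fintype.sum_prod_type, hε, symm_symm]
  rw [hexp] at hu1 hu2
  rw [Finset.card_univ, ← hn] at hu1 hu2
  have hu3 : energy D ε u ≤ eff D ε + η / 2 * nsq ε := by
    rw [← Finset.sum_mul, hsum] at hu1
    have e : (2 : ℝ) ^ n * (nsq ε * (η / (2 * 2 ^ n))) = η / 2 * nsq ε := by
      field_simp
    rw [e, hW] at hu1
    linarith
  have hu4 : P ε u ≤ 2 ^ n * (K * nsq ε) := by
    refine hu2.trans (mul_le_mul_of_nonneg_left ?_ h2n.le)
    have h1 : ∀ p ∈ (Finset.univ : Finset I), (ε p.1 p.2) ^ 2 * P (eb p.1 p.2) (U p) ≤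
        nsq ε * P (eb p.1 p.2) (U p) := by
      intro p _
      refine mul_le_mul_of_nonneg_right ?_ (hP0 _ _)
      rw [← hsum]
      exact Finset.single_le_sum (f := fun p : I => (ε p.1 p.2) ^ 2) (fun _ _ => sq_nonneg _)
        (Finset.mem_univ p)
    refine (Finset.sum_le_sum h1).trans (le_of_eq ?_)
    rw [← Finset.mul_sum, mul_comm]
  refine (hE.eff_le D' β' hD' ε u).trans ?_
  have h6 : energy D' ε u ≤ energy D ε u + η / (2 * 2 ^ n * (K + 1)) * P ε u := by
    simp only [hP]
    unfold energy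
    rw [← integral_const_mul, ← integral_add (hE.int D β hD ε u)
      ((hE.int _ _ idT_fld ε u).const_mul _)]
    refine integral_mono (hE.int D' β' hD' ε u) ((hE.int D β hD ε u).add
      ((hE.int _ _ idT_fld ε u).const_mul _)) (fun x => ?_)
    have := hDD' x (ε + sg u.u x)
    have e : (idT d).Q (ε + sg u.u x) = nsq (ε + sg u.u x) := by
      unfold Tens.Q nsq
      exact (ip_symm_symm _ _).symm
    simp only
    rw [e]
    exact this
  have h7 : η / (2 * 2 ^ n * (K + 1)) * P ε u ≤ η / 2 * nsq ε := by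
    calc η / (2 * 2 ^ n * (K + 1)) * P ε u
        ≤ η / (2 * 2 ^ n * (K + 1)) * (2 ^ n * (K * nsq ε)) :=
          mul_le_mul_of_nonneg_left hu4 (by positivity)
      _ = (η / 2 * nsq ε) * (K / (K + 1)) := by
          field_simp
      _ ≤ (η / 2 * nsq ε) * 1 := by
          have := nsq_nonneg ε
          refine mul_le_mul_of_nonneg_left ?_ (by positivity)
          rw [div_le_one (by linarith)]
          linarith
      _ = η / 2 * nsq ε := mul_one _
  linarith

end Pool.Agent.Lib.MP_5df1bf_an
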