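import Pool.Agent.Lib.MP_5df1bf_an.Stmts1

/-!
# MP_5df1bf_an, module A16: exact volume fractions
-/

open MeasureTheory Filter Topology
open scoped BigOperators ContDiff

noncomputable section

namespace Pool.Agent.Lib.MP_5df1bf_an
namespace ExactPf

variable {d : ℕ}

/-- the measure of the torus -/
abbrev ν (d : ℕ) : Measure (V d) := volume.restrict (cell d)

theorem prob (hE : BaseE d) : IsProbabilityMeasure (ν d) :=
  ⟨by rw [Measure.restrict_apply_univ, hE.vol]⟩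

theorem frac_real {S : Set (V d)} (hS : MeasurableSet S) : frac S = (ν d).real S := by
  unfold frac Measure.real
  rw [Measure.restrict_apply hS]

theorem frac_compl (hE : BaseE d) {S : Set (V d)} (hS : MeasurableSet S) :
    frac Sᶜ = 1 - frac S := by
  have := prob hE
  rw [frac_real hS.compl, frac_real hS, probReal_compl_eq_one_sub hS]

theorem frac_univ (hE : BaseE d) : frac (Set.univ : Set (V d)) = 1 := by
  have := prob hE
  rw [frac_real MeasurableSet.univ, probReal_univ]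

theorem micro_univ : Micro (Set.univ : Set (V d)) :=
  ⟨MeasurableSet.univ, fun _ _ => by simp⟩

theorem micro_union {S T : Set (V d)} (hS : Micro S) (hT : Micro T) : Micro (S ∪ T) :=
  ⟨hS.1.union hT.1, fun x i => by simp only [Set.mem_union, hS.2 x i, hT.2 x i]⟩

theorem lay_mono (k : Fin d → ℤ) {s t : ℝ} (h : s ≤ t) : lay k s ⊆ lay k t := fun _ hx =>
  lt_of_lt_of_le hx h

theorem frac_lip (hE : BaseE d) (hL : StmtLayVol d) {k : Fin d → ℤ} (hk : k ≠ 0)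
    {X : Set (V d)} (hX : MeasurableSet X) {s t : ℝ} (hs : 0 ≤ s) (hst : s ≤ t) (ht : t ≤ 1) :
    frac (X ∪ lay k s) ≤ frac (X ∪ lay k t) ∧ frac (X ∪ lay k t) ≤ frac (X ∪ lay k s) + (t - s) := by
  have := prob hE
  obtain ⟨ms, fs⟩ := hL k hk s hs (hst.trans ht)
  obtain ⟨mt, ft⟩ := hL k hk t (hs.trans hst) ht
  rw [frac_real ms.1] at fs
  rw [frac_real mt.1] at ft
  rw [frac_real (hX.union ms.1), frac_real (hX.union mt.1)]
  refine ⟨measureReal_mono (Set.union_subset_union_right _ (lay_mono k hst)), ?_⟩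
  have h1 : X ∪ lay k t ⊆ (X ∪ lay k s) ∪ (lay k t \ lay k s) := by
    intro x hx
    by_cases h : x ∈ lay k s
    · exact Or.inl (Or.inr h)
    · rcases hx with hx | hx
      · exact Or.inl (Or.inl hx)
      · exact Or.inr ⟨hx, h⟩
  calc (ν d).real (X ∪ lay k t) ≤ (ν d).real ((X ∪ lay k s) ∪ (lay k t \ lay k s)) :=
        measureReal_mono h1
    _ ≤ (ν d).real (X ∪ lay k s) + (ν d).real (lay k t \ lay k s) := measureReal_union_le _ _
    _ = (ν d).real (X ∪ lay k s) + (t - s) := by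
        rw [measureReal_sdiff (lay_mono k hst) ms.1, fs, ft]

/-- intermediate volume fractions -/
theorem exists_frac (hE : BaseE d) (hL : StmtLayVol d) {k : Fin d → ℤ} (hk : k ≠ 0)
    {X : Set (V d)} (hX : Micro X) {ρ f : ℝ} (hρ0 : 0 ≤ ρ) (hρ1 : ρ ≤ 1)
    (h0 : frac X ≤ f) (h1 : f ≤ frac (X ∪ lay k ρ)) :
    ∃ s, s ≤ ρ ∧ Micro (X ∪ lay k s) ∧ frac (X ∪ lay k s) = f := by
  set g : ℝ → ℝ := fun s => frac (X ∪ lay k s) with hg
  have hlip : LipschitzOnWith 1 g (Set.Icc 0 ρ) := by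
    refine LipschitzOnWith.of_dist_le_mul fun s hs t ht => ?_
    rw [NNReal.coe_one, one_mul, Real.dist_eq, Real.dist_eq]
    rcases le_total s t with h | h
    · obtain ⟨h2, h3⟩ := frac_lip hE hL hk hX.1 hs.1 h (ht.2.trans hρ1)
      rw [abs_sub_comm, abs_sub_comm s t, abs_of_nonneg (sub_nonneg.mpr h),
        abs_of_nonneg (sub_nonneg.mpr h2)]
      linarith
    · obtain ⟨h2, h3⟩ := frac_lip hE hL hk hX.1 ht.1 h (hs.2.trans hρ1)
      rw [abs_of_nonneg (sub_nonneg.mpr h), abs_of_nonneg (sub_nonneg.mpr h2)]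
      linarith
  have hg0 : g 0 = frac X := by
    simp only [hg]
    congr 1
    have : lay k (0 : ℝ) = ∅ := by
      ext x
      simp only [lay, Set.mem_ofPred_eq, Set.mem_empty_iff_false, iff_false, not_lt]
      exact Int.fract_nonneg _
    rw [this, Set.union_empty]
  obtain ⟨s, hs, hsf⟩ := intermediate_value_Icc hρ0 hlip.continuousOn
    (show f ∈ Set.Icc (g 0) (g ρ) from ⟨by rw [hg0]; exact h0, h1⟩)
  exact ⟨s, hs.2, micro_union hX (hL k hk s hs.1 (hs.2.trans hρ1)).1, hsf⟩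

/-! ### thin laminates -/

theorem lam_upper (hLam : StmtLam d) {k : Fin d → ℤ} (hk : k ≠ 0) {ρ : ℝ} (hρ0 : 0 < ρ)
    (hρ1 : ρ < 1) {T₁ C : Tens d} (h1 : T₁.PSD) (hC : C.PSD) {D : V d → Tens d}
    (hin : ∀ x ∈ lay k ρ, D x = T₁) (hout : ∀ x ∉ lay k ρ, D x = C) {κ : ℝ}
    (hκ : ∀ ξ, T₁.Q ξ ≤ κ * nsq ξ) (ε : M d) : eff D ε ≤ C.Q ε + ρ * κ * nsq ε := by
  rw [hLam k hk ρ hρ0 hρ1 T₁ C D h1 hC hin hout]
  have hbdd : BddBelow (Set.range fun a : V d => (ρ * T₁.Q (ε + (1 - ρ) • sd a (zv k)) +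
      (1 - ρ) * C.Q (ε - ρ • sd a (zv k)))) := by
    refine ⟨0, ?_⟩
    rintro _ ⟨a, rfl⟩
    have h3 := h1 (ε + (1 - ρ) • sd a (zv k))
    have h4 := hC (ε - ρ • sd a (zv k))
    have h5 : 0 ≤ 1 - ρ := by linarith
    positivity
  refine (ciInf_le hbdd 0).trans ?_
  simp only [sd_zero_left, smul_zero, add_zero, sub_zero]
  have h3 := hκ ε
  have h4 := hC ε
  nlinarith

theorem lam_lower (hLam : StmtLam d) {k : Fin d → ℤ} (hk : k ≠ 0) {ρ : ℝ} (hρ0 : 0 < ρ)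
    (hρ1 : ρ ≤ 1 / 2) {T₁ C : Tens d} (hC : C.PSD) {D : V d → Tens d}
    (hin : ∀ x ∈ lay k ρ, D x = T₁) (hout : ∀ x ∉ lay k ρ, D x = C) {κ τ : ℝ} (hτ : 0 < τ)
    (hκ0 : 0 ≤ κ) (h1 : ∀ ξ, τ * nsq ξ ≤ T₁.Q ξ)
    (hκ : ∀ ξ, C.Q ξ ≤ κ * nsq ξ) (ε : M d) :
    C.Q ε - ρ * (κ + τ + 8 * κ ^ 2 / τ) * nsq ε ≤ eff D ε := by
  have h1' : T₁.PSD := fun ξ => (mul_nonneg hτ.le (nsq_nonneg ξ)).trans (h1 ξ)
  rw [hLam k hk ρ hρ0 (by linarith) T₁ C D h1' hC hin hout]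
  refine le_ciInf fun a => ?_
  set s : M d := sd a (zv k) with hs
  set x : ℝ := Real.sqrt (nsq ε) with hx
  set y : ℝ := Real.sqrt (nsq s) with hy
  have hx0 : 0 ≤ x := Real.sqrt_nonneg _
  have hy0 : 0 ≤ y := Real.sqrt_nonneg _
  have hxx : x ^ 2 = nsq ε := Real.sq_sqrt (nsq_nonneg _)
  have hyy : y ^ 2 = nsq s := Real.sq_sqrt (nsq_nonneg _)
  -- the cross terms
  have hcross : |ip (C.C ε) s| ≤ κ * (x * y) := by
    have h2 := Tens.Q_cs (T := C) hC ε s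
    have h3 : C.Q ε * C.Q s ≤ (κ * nsq ε) * (κ * nsq s) :=
      mul_le_mul (hκ ε) (hκ s) (hC s) (mul_nonneg hκ0 (nsq_nonneg _))
    have h4 : (ip (C.C ε) s) ^ 2 ≤ (κ * (x * y)) ^ 2 := by
      calc (ip (C.C ε) s) ^ 2 ≤ (κ * nsq ε) * (κ * nsq s) := h2.trans h3
        _ = (κ * (x * y)) ^ 2 := by rw [← hxx, ← hyy]; ring
    exact abs_le_of_sq_le_sq h4 (by positivity)
  have hcross2 : |ip (symm ε) s| ≤ x * y := abs_ip_symm_le ε s
  have hT := h1 (ε + (1 - ρ) • s)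
  rw [nsq_add, ip_smul_right, nsq_smul, ← hxx, ← hyy] at hT
  have hQ : C.Q (ε - ρ • s) = C.Q ε - 2 * (ρ * ip (C.C ε) s) + ρ ^ 2 * C.Q s := by
    rw [C.Q_sub, ip_smul_right, C.Q_smul]
  have hCs := hC s
  have hCε := hκ ε
  rw [← hxx] at hCε
  have hCε0 := hC ε
  rw [hQ, ← hxx]
  obtain ⟨c1, c2⟩ := abs_le.mp hcross
  obtain ⟨b1, b2⟩ := abs_le.mp hcross2
  have hρρ : 0 ≤ 1 - ρ := by linarith
  -- lower bound of the first term
  have e1 : τ * (x ^ 2 - 2 * (1 - ρ) * (x * y) + (1 - ρ) ^ 2 * y ^ 2) ≤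
      T₁.Q (ε + (1 - ρ) • s) := by
    refine le_trans ?_ hT
    apply mul_le_mul_of_nonneg_left _ hτ.le
    nlinarith
  have e2 : (1 - ρ) ^ 2 * y ^ 2 / 2 - x ^ 2 ≤
      x ^ 2 - 2 * (1 - ρ) * (x * y) + (1 - ρ) ^ 2 * y ^ 2 := by
    nlinarith [sq_nonneg (2 * x - (1 - ρ) * y)]
  have e3 : y ^ 2 / 8 - x ^ 2 ≤ (1 - ρ) ^ 2 * y ^ 2 / 2 - x ^ 2 := by
    have : 1 / 4 ≤ (1 - ρ) ^ 2 := by nlinarith
    nlinarith [sq_nonneg y]
  have e4 : τ * (y ^ 2 / 8 - x ^ 2) ≤ T₁.Q (ε + (1 - ρ) • s) :=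
    (mul_le_mul_of_nonneg_left (e3.trans e2) hτ.le).trans e1
  -- the square
  have e5 : 2 * κ * (x * y) ≤ τ * y ^ 2 / 8 + 8 * κ ^ 2 / τ * x ^ 2 := by
    have h6 : 0 ≤ (τ * y - 8 * κ * x) ^ 2 / (8 * τ) := by positivity
    have h7 : (τ * y - 8 * κ * x) ^ 2 / (8 * τ) =
        τ * y ^ 2 / 8 + 8 * κ ^ 2 / τ * x ^ 2 - 2 * κ * (x * y) := by
      field_simp
      ring
    linarith
  have e6 : C.Q ε - 2 * ρ * (κ * (x * y)) ≤
      C.Q ε - 2 * (ρ * ip (C.C ε) s) + ρ ^ 2 * C.Q s := by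
    have : 0 ≤ ρ ^ 2 * C.Q s := by positivity
    nlinarith
  calc C.Q ε - ρ * (κ + τ + 8 * κ ^ 2 / τ) * x ^ 2
      ≤ ρ * (τ * (y ^ 2 / 8 - x ^ 2)) + (1 - ρ) * (C.Q ε - 2 * ρ * (κ * (x * y))) := by
        have h8 : 0 ≤ κ * (x * y) := by positivity
        have h9 : (1 - ρ) * (2 * ρ * (κ * (x * y))) ≤ 2 * ρ * (κ * (x * y)) := by
          have : 0 ≤ 2 * ρ * (κ * (x * y)) := by positivity
          nlinarith
        have h10 : ρ * (2 * κ * (x * y)) ≤ ρ * (τ * y ^ 2 / 8 + 8 * κ ^ 2 / τ * x ^ 2) :=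
          mul_le_mul_of_nonneg_left e5 hρ0.le
        have h11 : ρ * C.Q ε ≤ ρ * (κ * x ^ 2) := mul_le_mul_of_nonneg_left hCε hρ0.le
        nlinarith
    _ ≤ _ := by
        have h12 := mul_le_mul_of_nonneg_left e4 hρ0.le
        have h13 := mul_le_mul_of_nonneg_left e6 hρρ
        linarith

end ExactPf

open ExactPf

theorem Exact_ok (d : ℕ) (hH : StmtHomN d) (hP : StmtLowPD d) (hLam : StmtLam d)
    (hL : StmtLayVol d) (hMo : StmtMono d) (hEff : StmtEff d) (hE : BaseE d) : StmtExact d := by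
  classical
  intro hd A hA C f hC hf0 hf1 hRz η hη
  obtain ⟨r, nn, cc, T, -, -, -, hRT, hT, -⟩ := hP hd A hA (f / 2) (by linarith) (by linarith)
  have hApsd := hA.psd
  have hCpsd := hC.psd
  have hTpsd := hT.psd
  obtain ⟨τ, hτ, hτT⟩ := hT
  obtain ⟨κA, hκA, hκA'⟩ := A.exists_bound
  obtain ⟨κC, hκC, hκC'⟩ := C.exists_bound
  obtain ⟨κT, hκT, hκT'⟩ := T.exists_bound
  have bA : ∀ ξ, A.Q ξ ≤ κA * nsq ξ := fun ξ => (le_abs_self _).trans (hκA' ξ)
  have bC : ∀ ξ, C.Q ξ ≤ κC * nsq ξ := fun ξ => (le_abs_self _).trans (hκC' ξ)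
  have bT : ∀ ξ, T.Q ξ ≤ κT * nsq ξ := fun ξ => (le_abs_self _).trans (hκT' ξ)
  -- the slab
  set i0 : Fin d := ⟨0, by omega⟩ with hi0
  set k : Fin d → ℤ := Pi.single i0 1 with hk
  have hk0 : k ≠ 0 := by
    intro h
    have := congrFun h i0
    simp [hk] at this
  set K : ℝ := κA + κT + (κC + τ + 8 * κC ^ 2 / τ) with hK
  have hK0 : 0 < K := by positivity
  set ρ : ℝ := min (1 / 2) (η / (4 * K)) with hρ
  have hρ0 : 0 < ρ := lt_min (by norm_num) (by positivity)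
  have hρh : ρ ≤ 1 / 2 := min_le_left _ _
  have hρK : ρ * K ≤ η / 4 := by
    have : ρ ≤ η / (4 * K) := min_le_right _ _
    rw [le_div_iff₀ (by positivity)] at this
    linarith
  obtain ⟨hmic, hfrl⟩ := hL k hk0 ρ hρ0.le (by linarith)
  -- index function
  set idx : V d → Fin 2 := fun x => if x ∈ lay k ρ then 0 else 1 with hidx
  have hidxm : Measurable idx := Measurable.ite hmic.1 measurable_const measurable_const
  have hidxp : Per idx := by
    intro x i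
    simp only [hidx, hmic.2 x i]
  have hset0 : {x | idx x = 0} = lay k ρ := by
    ext x
    simp only [hidx, Set.mem_ofPred_eq]
    by_cases h : x ∈ lay k ρ
    · simp [h]
    · simp [h]
  have hset1 : {x | idx x = 1} = (lay k ρ)ᶜ := by
    ext x
    simp only [hidx, Set.mem_ofPred_eq, Set.mem_compl_iff]
    by_cases h : x ∈ lay k ρ
    · simp [h]
    · simp [h]
  have hfr0 : frac {x | idx x = 0} = ρ := by rw [hset0, hfrl]
  have hfr1 : frac {x | idx x = 1} = 1 - ρ := by rw [hset1, frac_compl hE hmic.1, hfrl]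
  -- the two laminates
  let Tm : Fin 2 → Tens d := ![T, C]
  let Tp : Fin 2 → Tens d := ![A, C]
  let fm : Fin 2 → ℝ := ![f / 2, f]
  let fp : Fin 2 → ℝ := ![1, f]
  set β : ℝ := κA + κC + κT with hβ
  have hstep : ∀ S : Tens d, S.PSD → (∀ ξ, S.Q ξ ≤ β * nsq ξ) →
      IsFld (fun x => (![S, C] : Fin 2 → Tens d) (idx x)) 0 β := by
    intro S hS hSβ
    refine hE.step_fld 2 idx ![S, C] 0 β hidxm hidxp fun i ξ => ?_
    have hn := nsq_nonneg ξ
    fin_cases i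
    · exact ⟨by rw [zero_mul]; exact hS ξ, hSβ ξ⟩
    · refine ⟨by rw [zero_mul]; exact hCpsd ξ, (bC ξ).trans ?_⟩
      exact mul_le_mul_of_nonneg_right (by rw [hβ]; linarith) hn
  obtain ⟨Wm, hWm, hWmb⟩ := hEff _ β (hstep T hTpsd fun ξ => (bT ξ).trans
    (mul_le_mul_of_nonneg_right (by rw [hβ]; linarith) (nsq_nonneg ξ)))
  obtain ⟨Wp, hWp, hWpb⟩ := hEff _ β (hstep A hApsd fun ξ => (bA ξ).trans
    (mul_le_mul_of_nonneg_right (by rw [hβ]; linarith) (nsq_nonneg ξ)))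
  have hin : ∀ S : Tens d, ∀ x ∈ lay k ρ, (![S, C] : Fin 2 → Tens d) (idx x) = S := by
    intro S x hx
    simp only [hidx, if_pos hx]; rfl
  have hout : ∀ S : Tens d, ∀ x ∉ lay k ρ, (![S, C] : Fin 2 → Tens d) (idx x) = C := by
    intro S x hx
    simp only [hidx, if_neg hx]; rfl
  have hWp_le : ∀ ε, Wp.Q ε ≤ C.Q ε + η / 4 * nsq ε := by
    intro ε
    rw [hWp]
    refine (lam_upper hLam hk0 hρ0 (by linarith) hApsd hCpsd (hin A) (hout A) bA ε).trans ?_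
    have h1 : ρ * κA ≤ η / 4 := by
      refine le_trans ?_ hρK
      apply mul_le_mul_of_nonneg_left _ hρ0.le
      rw [hK]
      have : 0 < κC + τ + 8 * κC ^ 2 / τ := by positivity
      linarith
    have := mul_le_mul_of_nonneg_right h1 (nsq_nonneg ε)
    linarith
  have hWm_ge : ∀ ε, C.Q ε - η / 4 * nsq ε ≤ Wm.Q ε := by
    intro ε
    rw [hWm]
    refine le_trans ?_ (lam_lower hLam hk0 hρ0 hρh hCpsd (hin T) (hout T) hτ hκC.le hτT bC ε)
    have h1 : ρ * (κC + τ + 8 * κC ^ 2 / τ) ≤ η / 4 := by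
      refine le_trans ?_ hρK
      apply mul_le_mul_of_nonneg_left _ hρ0.le
      rw [hK]
      linarith
    have := mul_le_mul_of_nonneg_right h1 (nsq_nonneg ε)
    linarith
  -- tolerance
  have hβ0 : 0 < β := by rw [hβ]; positivity
  set η₂ : ℝ := min (min (ρ * (f / 2)) (ρ * (1 - f))) (min (η / 4) (η / (4 * β))) with hη₂
  have h1f : 0 < 1 - f := by linarith
  have hη₂0 : 0 < η₂ := lt_min (lt_min (by positivity) (by positivity))
    (lt_min (by positivity) (by positivity))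
  have hη₂a : η₂ ≤ ρ * (f / 2) := (min_le_left _ _).trans (min_le_left _ _)
  have hη₂b : η₂ ≤ ρ * (1 - f) := (min_le_left _ _).trans (min_le_right _ _)
  have hη₂c : η₂ ≤ η / 4 := (min_le_right _ _).trans (min_le_left _ _)
  have hη₂d : η₂ * β ≤ η / 4 := by
    have : η₂ ≤ η / (4 * β) := (min_le_right _ _).trans (min_le_right _ _)
    rw [le_div_iff₀ (by positivity)] at this
    linarith
  obtain ⟨ηm, hηm, hHm⟩ := hH A hA 2 idx hidxm hidxp Tm fm (by
    intro i; fin_cases i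
    · exact hTpsd
    · exact hCpsd) Wm hWm η₂ hη₂0
  obtain ⟨ηp, hηp, hHp⟩ := hH A hA 2 idx hidxm hidxp Tp fp (by
    intro i; fin_cases i
    · exact hApsd
    · exact hCpsd) Wp hWp η₂ hη₂0
  obtain ⟨δT, hδT, hRT'⟩ := hRT (min ηm ηp) (lt_min hηm hηp)
  obtain ⟨δC, hδC, hRC'⟩ := hRz (min ηm ηp) (lt_min hηm hηp)
  refine ⟨min (min δT δC) 1, lt_min (lt_min hδT hδC) one_pos, fun δ hδ0 hδ1 => ?_⟩
  have hδlt : δ < 1 := hδ1.trans_le (min_le_right _ _)
  obtain ⟨χT, hχT, hfT, hTe⟩ := hRT' δ hδ0 (hδ1.trans_le ((min_le_left _ _).trans (min_le_left _ _)))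
  obtain ⟨χC, hχC, hfC, hCe⟩ := hRC' δ hδ0 (hδ1.trans_le ((min_le_left _ _).trans (min_le_right _ _)))
  -- weaken the tolerances
  have weak : ∀ {S : Tens d}, S.PSD → ∀ {χ : Set (V d)} {η' : ℝ}, min ηm ηp ≤ η' →
      (∀ ε, (1 - min ηm ηp) * S.Q ε ≤ eff (phase A δ χ) ε ∧
        eff (phase A δ χ) ε ≤ S.Q ε + min ηm ηp * nsq ε) →
      ∀ ε, (1 - η') * S.Q ε ≤ eff (phase A δ χ) ε ∧
        eff (phase A δ χ) ε ≤ S.Q ε + η' * nsq ε := by
    intro S hS χ η' hle h ε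
    obtain ⟨h1, h2⟩ := h ε
    have h3 := hS ε
    have h4 := nsq_nonneg ε
    exact ⟨by nlinarith, by nlinarith⟩
  have hph_univ : ∀ ε, eff (phase A δ Set.univ) ε = A.Q ε := by
    intro ε
    have : phase A δ (Set.univ : Set (V d)) = fun _ => A := by
      funext x; simp [phase]
    rw [this, hE.eff_const A hApsd]
  obtain ⟨n1, hn1⟩ := hHm δ hδ0 hδlt ![χT, χC] (by
      intro i; fin_cases i
      · exact hχT
      · exact hχC) (by
      intro i; fin_cases i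
      · exact hfT.trans_le (min_le_left _ _)
      · exact hfC.trans_le (min_le_left _ _)) (by
      intro i; fin_cases i
      · exact weak hTpsd (min_le_left _ _) hTe
      · exact weak hCpsd (min_le_left _ _) hCe)
  obtain ⟨n2, hn2⟩ := hHp δ hδ0 hδlt ![Set.univ, χC] (by
      intro i; fin_cases i
      · exact micro_univ
      · exact hχC) (by
      intro i; fin_cases i
      · show |frac (Set.univ : Set (V d)) - 1| < ηp
        rw [frac_univ hE, sub_self, abs_zero]; exact hηp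
      · exact hfC.trans_le (min_le_right _ _)) (by
      intro i; fin_cases i
      · intro ε
        show (1 - ηp) * A.Q ε ≤ eff (phase A δ Set.univ) ε ∧
          eff (phase A δ Set.univ) ε ≤ A.Q ε + ηp * nsq ε
        rw [hph_univ]
        have h3 := hApsd ε
        have h4 := nsq_nonneg ε
        exact ⟨by nlinarith, by nlinarith⟩
      · exact weak hCpsd (min_le_right _ _) hCe)
  set n : ℕ := max n1 n2 with hn
  obtain ⟨mm, frm, effm⟩ := hn1 n (le_max_left _ _)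
  obtain ⟨mp, frp, effp⟩ := hn2 n (le_max_right _ _)
  set Xm : Set (V d) := {x | (n : ℝ) • x ∈ (![χT, χC] : Fin 2 → Set (V d)) (idx x)} with hXm
  set Xp : Set (V d) := {x | (n : ℝ) • x ∈ (![Set.univ, χC] : Fin 2 → Set (V d)) (idx x)} with hXp
  have hXpm : Xp = Xm ∪ lay k ρ := by
    ext x
    simp only [hXp, hXm, Set.mem_ofPred_eq, Set.mem_union]
    by_cases h : x ∈ lay k ρ
    · simp [hidx, h]
    · simp [hidx, h]
  simp only [Fin.sum_univ_two] at frm frp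
  rw [hfr0, hfr1] at frm frp
  have frm' : |frac Xm - (ρ * (f / 2) + (1 - ρ) * f)| < η₂ := frm
  have frp' : |frac Xp - (ρ * 1 + (1 - ρ) * f)| < η₂ := frp
  obtain ⟨a1, a2⟩ := abs_lt.mp frm'
  obtain ⟨b1, b2⟩ := abs_lt.mp frp'
  obtain ⟨s, hsρ, hms, hfs⟩ := exists_frac hE hL hk0 mm hρ0.le (by linarith)
    (show frac Xm ≤ f by nlinarith) (by rw [← hXpm]; nlinarith)
  refine ⟨Xm ∪ lay k s, hms, hfs, fun ε => ?_⟩
  -- monotonicity
  obtain ⟨α, hα, hαA⟩ := hA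
  have hfld : ∀ χ : Set (V d), Micro χ → IsFld (phase A δ χ) 0 κA := by
    intro χ hχ
    have hf := hE.phase_fld A α κA hα (fun ξ => ⟨hαA ξ, bA ξ⟩) χ hχ δ hδ0 hδlt.le
    refine ⟨hf.meas, hf.per, fun x B => ?_, hf.hi⟩
    have := hf.lo x B
    have h3 := nsq_nonneg B
    rw [zero_mul]
    exact (mul_nonneg (by positivity) h3).trans this
  have hmono : ∀ {χ χ' : Set (V d)}, Micro χ → Micro χ' → χ ⊆ χ' →
      eff (phase A δ χ) ε ≤ eff (phase A δ χ') ε := by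
    intro χ χ' h1 h2 hsub
    refine hMo _ _ κA κA (hfld χ h1) (hfld χ' h2) (fun x ξ => ?_) ε
    unfold phase
    have hpos := hApsd ξ
    by_cases hx : x ∈ χ
    · rw [if_pos hx, if_pos (hsub hx)]
    · by_cases hx' : x ∈ χ'
      · rw [if_neg hx, if_pos hx', Tens.scale_Q]; nlinarith
      · rw [if_neg hx, if_neg hx']
  have hlow := hmono mm hms Set.subset_union_left
  have hup := hmono hms mp (by
    rw [hXpm]; exact Set.union_subset_union_right _ (lay_mono k hsρ))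
  obtain ⟨e1, -⟩ := effm ε
  obtain ⟨-, e2⟩ := effp ε
  have hn0 := nsq_nonneg ε
  have g1 := hWp_le ε
  have g2 := hWm_ge ε
  have g3 := (hWmb ε).2
  have g4 : η₂ * Wm.Q ε ≤ η / 4 * nsq ε := by
    calc η₂ * Wm.Q ε ≤ η₂ * (β * nsq ε) := mul_le_mul_of_nonneg_left g3 hη₂0.le
      _ = (η₂ * β) * nsq ε := by ring
      _ ≤ η / 4 * nsq ε := mul_le_mul_of_nonneg_right hη₂d hn0
  have g5 : η₂ * nsq ε ≤ η / 4 * nsq ε := mul_le_mul_of_nonneg_right hη₂c hn0
  have g6 : 0 ≤ η * nsq ε := by positivity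
  rw [abs_le]
  constructor
  · have : (1 - η₂) * Wm.Q ε = Wm.Q ε - η₂ * Wm.Q ε := by ring
    linarith
  · linarith

end Pool.Agent.Lib.MP_5df1bf_an
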