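import Pool.Agent.Lib.MP_5df1bf_an.Stmts1

/-!
# MP_5df1bf_an, A12: fibres by repeated lamination with void
-/

open MeasureTheory Filter Topology
open scoped BigOperators ContDiff

noncomputable section

namespace Pool.Agent.Lib.MP_5df1bf_an

variable {d : ℕ}

theorem zeroT_Q (ξ : M d) : (zeroT d).Q ξ = 0 := by simp [Tens.Q, zeroT, ip]

open Classical in
/-- lamination (volume fraction `1/2`) of a realizable tensor with void -/
theorem lamVoid (hE : BaseE d) (hLam : StmtLam d) (hVol : StmtLayVol d) (hHom : StmtRzHom d)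
    (hBase : StmtRzBase d) (hEff : StmtEff d) (A : Tens d) (hA : A.PD) (T : Tens d) (hT : T.PSD)
    (g : ℝ) (hR : Rz A T g) (k : Fin d → ℤ) (hk : k ≠ 0) :
    ∃ W : Tens d, Rz A W (1 / 2 * g) ∧ W.PSD ∧
      (∀ (ε : M d) (a : V d), W.Q ε ≤ 1 / 2 * T.Q (ε + sd a (zv k))) ∧
      (∀ (ε : M d) (c : ℝ), (∀ a : V d, c ≤ 1 / 2 * T.Q (ε + sd a (zv k))) → c ≤ W.Q ε) := by
  obtain ⟨hmic, hfr⟩ := hVol k hk (1 / 2) (by norm_num) (by norm_num)
  set idx : V d → Fin 2 := fun x => if x ∈ lay k (1 / 2) then 0 else 1 with hidx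
  set T' : Fin 2 → Tens d := fun i => if i = 0 then T else zeroT d with hT'
  set f' : Fin 2 → ℝ := fun i => if i = 0 then g else 0 with hf'
  have hmeas : Measurable idx := Measurable.ite hmic.1 measurable_const measurable_const
  have hper : Per idx := by
    intro x i
    simp only [hidx]
    have := hmic.2 x i
    by_cases h : x ∈ lay k (1 / 2)
    · rw [if_pos h, if_pos (this.mpr h)]
    · rw [if_neg h, if_neg (fun h1 => h (this.mp h1))]
  have hPSD : ∀ i, (T' i).PSD := by
    intro i ξ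
    simp only [hT']
    split_ifs
    · exact hT ξ
    · rw [zeroT_Q]
  obtain ⟨β, hβ, hTβ⟩ := T.exists_bound
  have hfld : IsFld (fun x => T' (idx x)) 0 β := by
    refine hE.step_fld 2 idx T' 0 β hmeas hper (fun i ξ => ⟨?_, ?_⟩)
    · rw [zero_mul]; exact hPSD i ξ
    · simp only [hT']
      split_ifs
      · exact (le_abs_self _).trans (hTβ ξ)
      · rw [zeroT_Q]; exact mul_nonneg hβ.le (nsq_nonneg ξ)
  obtain ⟨W, hW1, hW2⟩ := hEff _ β hfld
  have hRz : Rz A W (∑ i, frac {x | idx x = i} * f' i) := by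
    refine hHom A hA 2 idx hmeas hper T' f' hPSD (fun i => ?_) W hW1
    simp only [hT', hf']
    split_ifs
    · exact hR
    · exact (hBase A hA).2
  have hset : {x | idx x = 0} = lay k (1 / 2) := by
    ext x
    show (if x ∈ lay k (1 / 2) then (0 : Fin 2) else 1) = 0 ↔ x ∈ lay k (1 / 2)
    by_cases h : x ∈ lay k (1 / 2)
    · rw [if_pos h]; exact ⟨fun _ => h, fun _ => rfl⟩
    · rw [if_neg h]; exact ⟨fun h1 => absurd h1 (by decide), fun h1 => absurd h1 h⟩
  have hsum : ∑ i, frac {x | idx x = i} * f' i = 1 / 2 * g := by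
    rw [Fin.sum_univ_two, hset, hfr]
    simp [hf']
  rw [hsum] at hRz
  -- the laminate formula
  have hform : ∀ ε, W.Q ε = ⨅ a : V d, (1 / 2 * T.Q (ε + (1 - 1 / 2 : ℝ) • sd a (zv k)) +
      (1 - 1 / 2) * (zeroT d).Q (ε - (1 / 2 : ℝ) • sd a (zv k))) := by
    intro ε
    rw [hW1]
    refine hLam k hk (1 / 2) (by norm_num) (by norm_num) T (zeroT d) _ hT
      (fun ξ => by rw [zeroT_Q]) ?_ ?_ ε
    · intro x hx
      have h1 : idx x = 0 := if_pos hx
      show T' (idx x) = T
      rw [h1]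
      exact if_pos rfl
    · intro x hx
      have h1 : idx x = 1 := if_neg hx
      show T' (idx x) = zeroT d
      rw [h1]
      exact if_neg (by decide)
  refine ⟨W, hRz, fun ξ => (hW2 ξ).1, ?_, ?_⟩
  · intro ε a
    rw [hform]
    refine (ciInf_le ?_ ((2 : ℝ) • a)).trans (le_of_eq ?_)
    · refine ⟨0, ?_⟩
      rintro _ ⟨b, rfl⟩
      simp only [zeroT_Q]
      have := hT (ε + (1 - 1 / 2 : ℝ) • sd b (zv k))
      linarith
    · rw [zeroT_Q, sd_smul_left, smul_smul]
      norm_num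
  · intro ε c hc
    rw [hform]
    refine le_ciInf fun b => ?_
    have := hc ((1 / 2 : ℝ) • b)
    rw [sd_smul_left] at this
    rw [zeroT_Q]
    have e : (1 - 1 / 2 : ℝ) = 1 / 2 := by norm_num
    rw [e]
    linarith

theorem symm_oo (z : V d) : symm (oo z) = oo z := by
  ext i j; simp [symm, oo]; ring

theorem nsq_oo (z : V d) : nsq (oo z) = (dot z z) ^ 2 := by
  unfold nsq
  rw [symm_oo]
  simp only [ip, oo, dot, sq, Finset.sum_mul_sum]
  exact Finset.sum_congr rfl fun i _ => Finset.sum_congr rfl fun j _ => by ring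

theorem ip_oo_sd (z a n : V d) (h : dot z n = 0) : ip (oo z) (sd a n) = 0 := by
  rw [ip_sd, symm_oo]
  have : mulV (oo z) n = 0 := by
    ext i
    have h1 : mulV (oo z) n i = z i * dot z n := by
      simp only [mulV, oo, dot, Finset.mul_sum]
      exact Finset.sum_congr rfl fun j _ => by ring
    rw [h1, h]; simp
  rw [this]
  simp [dot]

theorem ip_oo_cs (z : V d) (η : M d) : (ip (oo z) η) ^ 2 ≤ nsq η * (dot z z) ^ 2 := by
  have h := cs_symm η (oo z)
  rw [nsq_oo, ip_comm, ip_oo_symm] at h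
  exact h

/-- the lamination directions -/
def fdir (z : Fin d → ℤ) (a b : Fin d) : Fin d → ℤ :=
  fun j => z a * (if j = b then 1 else 0) - z b * (if j = a then 1 else 0)

theorem fdir_ne (z : Fin d → ℤ) (a b : Fin d) (hab : b ≠ a) (ha : z a ≠ 0) : fdir z a b ≠ 0 := by
  intro h
  have h1 := congrFun h b
  simp [fdir, hab] at h1
  exact ha h1

theorem zv_fdir (z : Fin d → ℤ) (a b j : Fin d) : zv (fdir z a b) j =
    (z a : ℝ) * (if j = b then 1 else 0) - (z b : ℝ) * (if j = a then 1 else 0) := by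
  simp only [zv, fdir]
  push_cast
  rfl

theorem dot_fdir (z : Fin d → ℤ) (a b : Fin d) : dot (zv z) (zv (fdir z a b)) = 0 := by
  simp only [dot, zv_fdir, mul_sub, Finset.sum_sub_distrib]
  simp [zv]
  ring

/-- iterated lamination -/
theorem fib_iter (hE : BaseE d) (hLam : StmtLam d) (hVol : StmtLayVol d) (hHom : StmtRzHom d)
    (hBase : StmtRzBase d) (hEff : StmtEff d) (A : Tens d) (hA : A.PD) (α : ℝ)
    (hα : ∀ ξ, α * nsq ξ ≤ A.Q ξ) (hα0 : 0 < α) (z : Fin d → ℤ) (a : Fin d) (ha : z a ≠ 0)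
    (S : Finset (Fin d)) (hS : a ∉ S) :
    ∃ W : Tens d, Rz A W ((1 / 2) ^ S.card) ∧ W.PSD ∧
      (∀ ξ, (1 / 2) ^ S.card * (α * (ip (oo (zv z)) ξ / dot (zv z) (zv z)) ^ 2) ≤ W.Q ξ) ∧
      ∀ (ξ : M d) (c : Fin d → V d),
        W.Q ξ ≤ (1 / 2) ^ S.card * A.Q (ξ + ∑ b ∈ S, sd (c b) (zv (fdir z a b))) := by
  classical
  have hz : 0 < dot (zv z) (zv z) := by
    apply dot_self_pos
    intro h
    have h1 := congrFun h a
    simp only [zv, Pi.zero_apply, Int.cast_eq_zero] at h1
    exact ha h1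
  induction S using Finset.induction_on with
  | empty =>
    refine ⟨A, ?_, hA.psd, ?_, ?_⟩
    · simpa using (hBase A hA).1
    · intro ξ
      rw [Finset.card_empty, pow_zero, one_mul]
      refine le_trans ?_ (hα ξ)
      refine mul_le_mul_of_nonneg_left ?_ hα0.le
      rw [div_pow, div_le_iff₀ (by positivity)]
      exact ip_oo_cs _ _
    · intro ξ c
      simp
  | insert b S hb ih =>
    have haS : a ∉ S := fun h => hS (Finset.mem_insert_of_mem h)
    have hba : b ≠ a := fun h => hS (h ▸ Finset.mem_insert_self _ _)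
    obtain ⟨T, hR, hT, hlo, hup⟩ := ih haS
    obtain ⟨W, hRW, hW, hWup, hWlo⟩ := lamVoid hE hLam hVol hHom hBase hEff A hA T hT _ hR
      (fdir z a b) (fdir_ne z a b hba ha)
    have hcard : (1 / 2 : ℝ) ^ (insert b S).card = 1 / 2 * (1 / 2) ^ S.card := by
      rw [Finset.card_insert_of_notMem hb, pow_succ, mul_comm]
    rw [hcard]
    refine ⟨W, hRW, hW, ?_, ?_⟩
    · intro ξ
      refine hWlo ξ _ fun e => ?_
      have h1 := hlo (ξ + sd e (zv (fdir z a b)))
      rw [ip_add_right, ip_oo_sd _ _ _ (dot_fdir z a b), add_zero] at h1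
      rw [mul_assoc]
      exact mul_le_mul_of_nonneg_left h1 (by norm_num)
    · intro ξ c
      refine (hWup ξ (c b)).trans ?_
      rw [mul_assoc]
      refine mul_le_mul_of_nonneg_left ?_ (by norm_num)
      refine (hup _ c).trans (le_of_eq ?_)
      rw [Finset.sum_insert hb, add_assoc]

/-- symmetric matrices `N` with `z · N z = 0` are sums of the allowed jumps -/
theorem fib_decomp (z : Fin d → ℤ) (a : Fin d) (ha : z a ≠ 0) (N : M d) (hN : symm N = N)
    (h0 : ip (oo (zv z)) N = 0) : ∃ c : Fin d → V d,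
      N = ∑ b ∈ Finset.univ.erase a, sd (c b) (zv (fdir z a b)) := by
  classical
  have hza : (z a : ℝ) ≠ 0 := by exact_mod_cast ha
  have hNs : ∀ i j, N i j = N j i := fun i j => by rw [← hN]; exact symm_swap _ _ _
  set w : V d := mulV N (zv z) with hw
  have hw0 : ∑ b, (z b : ℝ) * w b = 0 := by
    have h1 := ip_oo (zv z) N
    rw [h0] at h1
    simpa [dot, zv] using h1.symm
  have hwi : ∀ i, ∑ b, (z b : ℝ) * N b i = w i := by
    intro i
    rw [hw]
    simp only [mulV, zv]
    exact Finset.sum_congr rfl fun b _ => by rw [hNs b i]; ring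
  refine ⟨fun b i => N b i / z a + w b / (z a) ^ 2 * (if i = a then 1 else 0), ?_⟩
  have hfull : ∑ b ∈ Finset.univ.erase a,
      sd (fun i => N b i / z a + w b / (z a) ^ 2 * (if i = a then 1 else 0)) (zv (fdir z a b)) =
      ∑ b, sd (fun i => N b i / z a + w b / (z a) ^ 2 * (if i = a then 1 else 0))
        (zv (fdir z a b)) := by
    rw [Finset.sum_erase]
    have h1 : zv (fdir z a a) = 0 := by
      ext j
      rw [zv_fdir]
      simp
    rw [h1, sd_zero_right]
  rw [hfull]
  -- the non-symmetrised sum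
  have key : ∀ i j, ∑ b, (N b i / z a + w b / (z a) ^ 2 * (if i = a then 1 else 0)) *
      (zv (fdir z a b) j) = N j i + w j / z a * (if i = a then 1 else 0) -
        w i / z a * (if j = a then 1 else 0) := by
    intro i j
    simp only [zv_fdir]
    have e1 : ∀ b, (N b i / z a + w b / (z a : ℝ) ^ 2 * (if i = a then 1 else 0)) *
        ((z a : ℝ) * (if j = b then 1 else 0) - (z b : ℝ) * (if j = a then 1 else 0)) =
        (if j = b then (N b i + w b / z a * (if i = a then 1 else 0)) else 0) -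
        ((z b : ℝ) * N b i) * (1 / z a * (if j = a then 1 else 0)) -
        ((z b : ℝ) * w b) * (1 / (z a : ℝ) ^ 2 * (if i = a then 1 else 0) *
          (if j = a then 1 else 0)) := by
      intro b
      split_ifs <;> field_simp <;> ring_nf
    rw [Finset.sum_congr rfl fun b _ => e1 b, Finset.sum_sub_distrib, Finset.sum_sub_distrib,
      ← Finset.sum_mul, ← Finset.sum_mul, hw0, hwi]
    simp
    ring
  ext i j
  rw [Finset.sum_apply, Finset.sum_apply]
  simp only [sd]
  rw [← Finset.sum_div, Finset.sum_add_distrib, key i j, key j i, hNs j i]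
  ring

/-- A12 -/
theorem fib_ok (d : ℕ) (hE : BaseE d) (hLam : StmtLam d) (hVol : StmtLayVol d)
    (hHom : StmtRzHom d) (hBase : StmtRzBase d) (hEff : StmtEff d) : StmtFib d := by
  intro A hA
  obtain ⟨α, hα0, hα⟩ := id hA
  obtain ⟨β, hβ0, hβ⟩ := A.exists_bound
  have hp1 : (0 : ℝ) < (1 / 2) ^ (d - 1) := by positivity
  have hp2 : (1 / 2 : ℝ) ^ (d - 1) ≤ 1 := pow_le_one₀ (by norm_num) (by norm_num)
  refine ⟨(1 / 2) ^ (d - 1) * α, by positivity, β, hβ0, (1 / 2) ^ (d - 1), hp1.le, hp2, ?_⟩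
  intro z hz
  obtain ⟨a, ha⟩ := Function.ne_iff.mp hz
  simp only [Pi.zero_apply] at ha
  obtain ⟨W, hR, hW, hlo, hup⟩ := fib_iter hE hLam hVol hHom hBase hEff A hA α hα hα0 z a ha
    (Finset.univ.erase a) (Finset.notMem_erase a _)
  have hcard : (Finset.univ.erase a : Finset (Fin d)).card = d - 1 := by
    rw [Finset.card_erase_of_mem (Finset.mem_univ a), Finset.card_univ, Fintype.card_fin]
  rw [hcard] at hR hlo hup
  refine ⟨W, hR, hW, fun ξ => ⟨?_, ?_⟩⟩
  · rw [mul_assoc]; exact hlo ξ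
  · have hzz : 0 < dot (zv z) (zv z) := by
      apply dot_self_pos
      intro h
      have h1 := congrFun h a
      simp only [zv, Pi.zero_apply, Int.cast_eq_zero] at h1
      exact ha h1
    set t : ℝ := ip (oo (zv z)) ξ / (dot (zv z) (zv z)) ^ 2 with ht
    set N : M d := t • oo (zv z) - symm ξ with hN
    have hNs : symm N = N := by
      rw [hN, symm_sub, symm_smul, symm_oo]
      simp
    have hN0 : ip (oo (zv z)) N = 0 := by
      rw [hN, ip_sub_right, ip_smul_right, ip_oo_symm]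
      have h1 : ip (oo (zv z)) (oo (zv z)) = (dot (zv z) (zv z)) ^ 2 := by
        rw [← nsq_oo]; unfold nsq; rw [symm_oo]
      rw [h1, ht]
      field_simp
      ring
    obtain ⟨c, hc⟩ := fib_decomp z a ha N hNs hN0
    have h2 := hup ξ c
    rw [← hc] at h2
    have h3 : A.Q (ξ + N) = t ^ 2 * A.Q (oo (zv z)) := by
      rw [← Tens.Q_symm, symm_add, hNs, hN, add_sub_cancel, Tens.Q_smul]
    rw [h3] at h2
    have h4 : A.Q (oo (zv z)) ≤ β * (dot (zv z) (zv z)) ^ 2 := by
      have := (le_abs_self _).trans (hβ (oo (zv z)))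
      rwa [nsq_oo] at this
    have h5 : 0 ≤ A.Q (oo (zv z)) := hA.psd _
    calc W.Q ξ ≤ (1 / 2) ^ (d - 1) * (t ^ 2 * A.Q (oo (zv z))) := h2
      _ ≤ 1 * (t ^ 2 * A.Q (oo (zv z))) :=
        mul_le_mul_of_nonneg_right hp2 (mul_nonneg (sq_nonneg _) h5)
      _ ≤ 1 * (t ^ 2 * (β * (dot (zv z) (zv z)) ^ 2)) := by
        refine mul_le_mul_of_nonneg_left (mul_le_mul_of_nonneg_left h4 (sq_nonneg _)) zero_le_one
      _ = β * (ip (oo (zv z)) ξ / dot (zv z) (zv z)) ^ 2 := by
        rw [ht]; field_simp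

end Pool.Agent.Lib.MP_5df1bf_an
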