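import Pool.Agent.Lib.MP_5df1bf_an.Defs

/-!
# MP_5df1bf_an: square integrable periodic functions, `H¹` displacements, rigid second phase
-/

open MeasureTheory Filter Topology
open scoped BigOperators ContDiff

noncomputable section

namespace Pool.Agent.Lib.MP_5df1bf_an

variable {d : ℕ}

/-- `ℤ^d`-periodic functions which are square integrable on the unit cell -/
structure SqP (f : V d → ℝ) : Prop where
  meas : Measurable f
  per : Per f
  sq : IntegrableOn (fun x => f x ^ 2) (cell d)

/-- `ℤ^d`-periodic `H¹_loc` displacements `u` with their weak gradient `G`, `G x i j = ∂_j u_i` -/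
structure H1 (d : ℕ) where
  u : V d → V d
  G : V d → M d
  u_sq : ∀ i, SqP fun x => u x i
  G_sq : ∀ i j, SqP fun x => G x i j
  weak : ∀ φ : V d → ℝ, ContDiff ℝ ∞ φ → HasCompactSupport φ → ∀ i j,
    ∫ x, u x i * fderiv ℝ φ x (Pi.single j 1) = - ∫ x, G x i j * φ x

open Classical in
/-- two-phase material: `A` in `χ`, `δ⁻¹ A` outside -/
def phaseR (A : Tens d) (δ : ℝ) (χ : Set (V d)) : V d → Tens d :=
  fun x => if x ∈ χ then A else A.scale δ⁻¹

/-- trace -/
def trc (A : M d) : ℝ := ∑ i, A i i

end Pool.Agent.Lib.MP_5df1bf_an
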