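import Pool.Agent.Lib.MP_5df1bf_an.BaseA
import Pool.Agent.Lib.MP_5df1bf_an.DefsH

/-!
# MP_5df1bf_an: the isotropic phase, effective tensors and the G-closures
-/

open MeasureTheory Filter Topology
open scoped BigOperators ContDiff

noncomputable section

namespace Pool.Agent.Lib.MP_5df1bf_an

variable {d : ℕ}

/-- identity matrix -/
def idM (d : ℕ) : M d := fun i j => if i = j then 1 else 0

theorem ip_idM (A : M d) : ip (idM d) A = trc A := by
  simp [ip, idM, trc]

theorem ip_idM' (A : M d) : ip A (idM d) = trc A := by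
  rw [ip_comm, ip_idM]

theorem trc_add (A B : M d) : trc (A + B) = trc A + trc B := by
  simp [trc, Finset.sum_add_distrib]

theorem trc_smul (c : ℝ) (A : M d) : trc (c • A) = c * trc A := by
  simp [trc, Finset.mul_sum]

theorem trc_tp (A : M d) : trc (tp A) = trc A := rfl

theorem trc_symm (A : M d) : trc (symm A) = trc A := by
  simp [trc, symm]

/-- The isotropic tensor `ε ↦ κ (tr ε) I + 2 μ (ε - (tr ε / d) I)` (on the symmetric part `ε`). -/
def iso (κ μ : ℝ) : Tens d where
  C :=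
    { toFun := fun ε => (κ * trc ε) • idM d + (2 * μ) • (symm ε - (trc ε / d) • idM d)
      map_add' := by
        intro A B
        rw [trc_add, symm_add]
        ext i j
        simp only [Pi.add_apply, Pi.smul_apply, Pi.sub_apply, smul_eq_mul]
        ring
      map_smul' := by
        intro c A
        rw [trc_smul, symm_smul]
        ext i j
        simp only [Pi.add_apply, Pi.smul_apply, Pi.sub_apply, smul_eq_mul, RingHom.id_apply]
        ring }
  sa := by
    intro A B
    simp only [LinearMap.coe_mk, AddHom.coe_mk, ip_add_left, ip_add_right, ip_smul_left,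
      ip_smul_right, ip_sub_left, ip_sub_right, ip_idM, ip_idM', ip_symm_left]
    ring
  tr := by
    intro A
    simp only [LinearMap.coe_mk, AddHom.coe_mk, trc_tp, symm_tp]

theorem iso_C (κ μ : ℝ) (ε : M d) :
    (iso κ μ : Tens d).C ε = (κ * trc ε) • idM d + (2 * μ) • (symm ε - (trc ε / d) • idM d) := rfl

/-- `n ⊗ n` contracted: `n · (sym q) n` -/
def nqn (n : V d) (q : M d) : ℝ := dot n (mulV (symm q) n)

theorem mulV_add (A B : M d) (x : V d) : mulV (A + B) x = mulV A x + mulV B x := by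
  ext i; simp [mulV, add_mul, Finset.sum_add_distrib]

theorem mulV_smul (c : ℝ) (A : M d) (x : V d) : mulV (c • A) x = c • mulV A x := by
  ext i; simp [mulV, Finset.mul_sum, mul_assoc]

theorem nqn_add (n : V d) (A B : M d) : nqn n (A + B) = nqn n A + nqn n B := by
  unfold nqn; rw [symm_add, mulV_add, dot_add_right]

theorem nqn_smul (n : V d) (c : ℝ) (A : M d) : nqn n (c • A) = c * nqn n A := by
  unfold nqn; rw [symm_smul, mulV_smul, dot_smul_right]

theorem ip_oo_nqn (n : V d) (A : M d) : ip (oo n) A = nqn n A := by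
  unfold nqn; rw [← ip_oo, ip_oo_symm]

/-- `Γ(n) q = (1/μ) ((q n) ⊙ n - (n·q n) n ⊗ n) + (n·q n) n ⊗ n / (κ + 2 μ (1 - 1/d))`, `|n| = 1`. -/
def gamma (κ μ : ℝ) (n : V d) : Tens d where
  C :=
    { toFun := fun q => (1 / μ) • (sd (mulV (symm q) n) n - nqn n q • oo n) +
        (nqn n q / (κ + 2 * μ * (1 - 1 / d))) • oo n
      map_add' := by
        intro A B
        rw [nqn_add, symm_add, mulV_add, sd_add_left]
        ext i j
        simp only [Pi.add_apply, Pi.smul_apply, Pi.sub_apply, smul_eq_mul]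
        ring
      map_smul' := by
        intro c A
        rw [nqn_smul, symm_smul, mulV_smul, sd_smul_left]
        ext i j
        simp only [Pi.add_apply, Pi.smul_apply, Pi.sub_apply, smul_eq_mul, RingHom.id_apply]
        ring }
  sa := by
    intro A B
    have h : ∀ A B : M d, ip (sd (mulV (symm A) n) n) B =
        dot (mulV (symm A) n) (mulV (symm B) n) := by
      intro A B; rw [ip_comm, ip_sd]
    simp only [LinearMap.coe_mk, AddHom.coe_mk, ip_add_left, ip_add_right, ip_smul_left,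
      ip_smul_right, ip_sub_left, ip_sub_right, h, ip_comm A, ip_oo_nqn]
    rw [dot_comm (mulV (symm B) n)]
    ring
  tr := by
    intro A
    have h : nqn n (tp A) = nqn n A := by unfold nqn; rw [symm_tp]
    simp only [LinearMap.coe_mk, AddHom.coe_mk, h, symm_tp]

theorem gamma_Q (κ μ : ℝ) (n : V d) (q : M d) : (gamma κ μ n).Q q =
    (dot (mulV (symm q) n) (mulV (symm q) n) - (dot n (mulV (symm q) n)) ^ 2) / μ +
      (dot n (mulV (symm q) n)) ^ 2 / (κ + 2 * μ * (1 - 1 / d)) := by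
  show ip ((1 / μ) • (sd (mulV (symm q) n) n - nqn n q • oo n) +
        (nqn n q / (κ + 2 * μ * (1 - 1 / d))) • oo n) q = _
  rw [ip_add_left, ip_smul_left, ip_sub_left, ip_smul_left, ip_smul_left, ip_oo_nqn,
    ip_comm (sd _ _), ip_sd]
  unfold nqn
  ring

/-- `C` is the effective tensor of the periodic field `D`: `ε : C ε` is the minimum of the energy
over all periodic `H¹` displacements. -/
def IsEffective (D : V d → Tens d) (C : Tens d) : Prop :=
  ∀ ε : M d, IsLeast (Set.range fun u : H1 d => ∫ x in cell d, (D x).Q (ε + symm (u.G x))) (C.Q ε)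

/-- The G-closure of the isotropic phase with bulk modulus `κ`, shear modulus `μ` and void, volume
fraction `f` of the phase. -/
def GVoid (κ μ f : ℝ) : Set (Tens d) :=
  {C | ∃ (δ : ℕ → ℝ) (χ : ℕ → Set (V d)) (Cs : ℕ → Tens d), (∀ n, 0 < δ n) ∧
    Tendsto δ atTop (𝓝 0) ∧ (∀ n, Micro (χ n) ∧ frac (χ n) = f) ∧
    (∀ n, IsEffective (phase (iso κ μ) (δ n) (χ n)) (Cs n)) ∧
    ∀ ξ, Tendsto (fun n => (Cs n).C ξ) atTop (𝓝 (C.C ξ))}

/-- the compliance of the isotropic phase: `q ↦ (tr q / (d² κ)) I + (q - (tr q / d) I) / (2 μ)` -/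
def compl (κ μ : ℝ) : Tens d := iso (1 / ((d : ℝ) ^ 2 * κ)) (1 / (4 * μ))

theorem compl_C (κ μ : ℝ) (q : M d) : (compl κ μ : Tens d).C q =
    (1 / ((d : ℝ) ^ 2 * κ) * trc q) • idM d +
      (2 * (1 / (4 * μ))) • (symm q - (trc q / d) • idM d) := rfl

/-- `S_m = C₁⁻¹ - f Σ m_i Γ(n_i)` -/
def Sm (κ μ f : ℝ) {r : ℕ} (n : Fin r → V d) (m : Fin r → ℝ) : Tens d where
  C := (compl κ μ : Tens d).C - f • ∑ i, m i • (gamma κ μ (n i)).C
  sa := by
    intro A B
    simp only [LinearMap.sub_apply, LinearMap.smul_apply, LinearMap.sum_apply, ip_sub_left,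
      ip_sub_right, ip_smul_left, ip_smul_right, ip_sum_left, ip_sum_right, Tens.sa]
  tr := by
    intro A
    simp only [LinearMap.sub_apply, LinearMap.smul_apply, LinearMap.sum_apply, Tens.tr]

theorem Sm_Q (κ μ f : ℝ) {r : ℕ} (n : Fin r → V d) (m : Fin r → ℝ) (q : M d) :
    (Sm κ μ f n m).Q q = (compl κ μ : Tens d).Q q - f * ∑ i, m i * (gamma κ μ (n i)).Q q := by
  unfold Sm Tens.Q
  simp only [LinearMap.sub_apply, LinearMap.smul_apply, LinearMap.sum_apply, ip_sub_left,
    ip_smul_left, ip_sum_left]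

/-- `S` is the compliance tensor of `C` (inverse on symmetric matrices) -/
def IsCompliance (S C : Tens d) : Prop :=
  ∀ ξ : M d, S.C (C.C ξ) = symm ξ ∧ C.C (S.C ξ) = symm ξ

/-- The G-closure (compliances) of the isotropic phase with bulk modulus `κ`, shear modulus `μ` and a
rigid phase, volume fraction `f` of the isotropic phase. -/
def GRigid (κ μ f : ℝ) : Set (Tens d) :=
  {S | ∃ (δ : ℕ → ℝ) (χ : ℕ → Set (V d)) (Cs Ss : ℕ → Tens d), (∀ n, 0 < δ n) ∧
    Tendsto δ atTop (𝓝 0) ∧ (∀ n, Micro (χ n) ∧ frac (χ n) = f) ∧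
    (∀ n, IsEffective (phaseR (iso κ μ) (δ n) (χ n)) (Cs n)) ∧
    (∀ n, IsCompliance (Ss n) (Cs n)) ∧
    ∀ ξ, Tendsto (fun n => (Ss n).C ξ) atTop (𝓝 (S.C ξ))}

/-- `Γ_m = Σ m_i Γ(n_i)` -/
def Gm (κ μ : ℝ) {r : ℕ} (n : Fin r → V d) (m : Fin r → ℝ) : Tens d where
  C := ∑ i, m i • (gamma κ μ (n i)).C
  sa := by
    intro A B
    simp only [LinearMap.smul_apply, LinearMap.sum_apply, ip_smul_left, ip_smul_right, ip_sum_left,
      ip_sum_right, Tens.sa]
  tr := by
    intro A
    simp only [LinearMap.smul_apply, LinearMap.sum_apply, Tens.tr]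

theorem Gm_Q (κ μ : ℝ) {r : ℕ} (n : Fin r → V d) (m : Fin r → ℝ) (q : M d) :
    (Gm κ μ n m).Q q = ∑ i, m i * (gamma κ μ (n i)).Q q := by
  unfold Gm Tens.Q
  simp only [LinearMap.smul_apply, LinearMap.sum_apply, ip_smul_left, ip_sum_left]

end Pool.Agent.Lib.MP_5df1bf_an
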