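import Pool.Agent.Lib.MP_5df1bf_an.Stmts3
import Pool.Agent.Lib.MP_5df1bf_an.DefsQ

/-!
# MP_5df1bf_an: final form of the theorem
-/

open MeasureTheory Filter Topology
open scoped BigOperators ContDiff

noncomputable section

namespace Pool.Agent.Lib.MP_5df1bf_an

variable {d : ℕ}

theorem isIso_iso (κ μ : ℝ) : IsIso κ μ (iso κ μ : Tens d) := by
  intro ξ
  unfold Tens.Q
  rw [iso_C]
  simp only [ip_add_left, ip_smul_left, ip_sub_left, ip_idM]
  have h : ip (symm ξ) ξ = nsq ξ := by rw [← ip_symm_symm]; rfl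
  rw [h]; ring

theorem isEffective_iff (hH : StmtH1 d) (hM : StmtH1Min d) {D : V d → Tens d} {α β : ℝ}
    (hα : 0 < α) (hD : IsFld D α β) (hD0 : IsFld D 0 β) (C : Tens d) :
    IsEffective D C ↔ ∀ ε, C.Q ε = eff D ε := by
  have hnn : ∀ ε (u : H1 d), 0 ≤ ∫ x in cell d, (D x).Q (ε + symm (u.G x)) := by
    intro ε u
    refine integral_nonneg fun x => ?_
    exact le_trans (mul_nonneg hα.le (nsq_nonneg _)) (hD.lo x _)
  constructor
  · intro h ε
    rw [← hH D β hD0 ε]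
    exact (h ε).csInf_eq.symm
  · intro h ε
    obtain ⟨u, hu⟩ := hM D α β hα hD ε
    rw [h ε, ← hH D β hD0 ε]
    refine ⟨⟨u, hu⟩, ?_⟩
    rintro _ ⟨v, rfl⟩
    exact ciInf_le ⟨0, by rintro _ ⟨w, rfl⟩; exact hnn ε w⟩ v

theorem IsFld.zero_lo {D : V d → Tens d} {α β : ℝ} (hα : 0 ≤ α) (hD : IsFld D α β) :
    IsFld D 0 β :=
  ⟨hD.meas, hD.per, fun x A => by
    rw [zero_mul]; exact le_trans (mul_nonneg hα (nsq_nonneg _)) (hD.lo x A), hD.hi⟩

theorem phase_fld' (A : Tens d) {α β : ℝ} (hα : 0 < α)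
    (hA : ∀ ξ, α * nsq ξ ≤ A.Q ξ ∧ A.Q ξ ≤ β * nsq ξ) {χ : Set (V d)} (hχ : Micro χ) {δ : ℝ}
    (hδ : 0 < δ) : IsFld (phase A δ χ) (min 1 δ * α) (max 1 δ * β) := by
  classical
  have hval : ∀ x, phase A δ χ x = A ∨ phase A δ χ x = A.scale δ := by
    intro x; unfold phase; split <;> simp
  have hAnn : ∀ ξ, 0 ≤ A.Q ξ := fun ξ => le_trans (mul_nonneg hα.le (nsq_nonneg ξ)) (hA ξ).1
  refine ⟨?_, ?_, ?_, ?_⟩
  · intro B B'
    have : (fun x => ip ((phase A δ χ x).C B) B') =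
        fun x => if x ∈ χ then ip (A.C B) B' else ip ((A.scale δ).C B) B' := by
      funext x; unfold phase; split <;> rfl
    rw [this]
    exact Measurable.ite hχ.1 measurable_const measurable_const
  · intro x i
    unfold phase
    by_cases h : x ∈ χ
    · rw [if_pos h, if_pos ((hχ.2 x i).mpr h)]
    · rw [if_neg h, if_neg (fun h' => h ((hχ.2 x i).mp h'))]
  · intro x B
    have h1 : α * nsq B ≤ A.Q B := (hA B).1
    have h2 := nsq_nonneg B
    rcases hval x with h | h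
    · rw [h]
      calc min 1 δ * α * nsq B ≤ 1 * (α * nsq B) := by
            rw [mul_assoc]
            exact mul_le_mul_of_nonneg_right (min_le_left _ _) (mul_nonneg hα.le h2)
        _ ≤ A.Q B := by linarith
    · rw [h, Tens.scale_Q]
      calc min 1 δ * α * nsq B ≤ δ * (α * nsq B) := by
            rw [mul_assoc]
            exact mul_le_mul_of_nonneg_right (min_le_right _ _) (mul_nonneg hα.le h2)
        _ ≤ δ * A.Q B := mul_le_mul_of_nonneg_left h1 hδ.le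
  · intro x B
    have h1 : A.Q B ≤ β * nsq B := (hA B).2
    have h3 : 0 ≤ β * nsq B := (hAnn B).trans h1
    rcases hval x with h | h
    · rw [h, mul_assoc]
      calc A.Q B ≤ 1 * (β * nsq B) := by linarith
        _ ≤ max 1 δ * (β * nsq B) := mul_le_mul_of_nonneg_right (le_max_left _ _) h3
    · rw [h, Tens.scale_Q, mul_assoc]
      calc δ * A.Q B ≤ δ * (β * nsq B) := mul_le_mul_of_nonneg_left h1 hδ.le
        _ ≤ max 1 δ * (β * nsq B) := mul_le_mul_of_nonneg_right (le_max_right _ _) h3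

theorem isEffective_phase_iff (hH : StmtH1 d) (hM : StmtH1Min d) {A : Tens d} (hA : A.PD)
    {χ : Set (V d)} (hχ : Micro χ) {δ : ℝ} (hδ : 0 < δ) (C : Tens d) :
    IsEffective (phase A δ χ) C ↔ ∀ ε, C.Q ε = eff (phase A δ χ) ε := by
  obtain ⟨α, hα, hlo⟩ := hA
  obtain ⟨β, _, hhi⟩ := A.exists_bound
  have hF := phase_fld' A hα (fun ξ => ⟨hlo ξ, (le_abs_self _).trans (hhi ξ)⟩) hχ hδ
  have hpos : 0 < min 1 δ * α := mul_pos (lt_min one_pos hδ) hα
  exact isEffective_iff hH hM hpos hF (IsFld.zero_lo hpos.le hF) C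

theorem gvoid_eq (hH : StmtH1 d) (hM : StmtH1Min d) {κ μ : ℝ} (hA : (iso κ μ : Tens d).PD) (f : ℝ)
    (C : Tens d) : C ∈ GVoid κ μ f ↔ C ∈ Gv (iso κ μ) f := by
  constructor
  · rintro ⟨δ, χ, Cs, h1, h2, h3, h4, h5⟩
    exact ⟨δ, χ, Cs, h1, h2, h3,
      fun n => (isEffective_phase_iff hH hM hA (h3 n).1 (h1 n) (Cs n)).mp (h4 n), h5⟩
  · rintro ⟨δ, χ, Cs, h1, h2, h3, h4, h5⟩
    exact ⟨δ, χ, Cs, h1, h2, h3,
      fun n => (isEffective_phase_iff hH hM hA (h3 n).1 (h1 n) (Cs n)).mpr (h4 n), h5⟩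

/-- The characterization: `0 ≤ C ≤ C₁ - (1-f) (C₁⁻¹ - f Σ m_i Γ(n_i))⁻¹`. -/
def Char (κ μ f : ℝ) (C : Tens d) : Prop :=
  (∀ ε, 0 ≤ C.Q ε) ∧ ∃ (r : ℕ) (n : Fin r → V d) (m : Fin r → ℝ), (∀ i, dot (n i) (n i) = 1) ∧
    (∀ i, 0 ≤ m i) ∧ (∑ i, m i = 1) ∧ ∃ W : Tens d,
      (∀ ε, (Sm κ μ f n m).C ((iso κ μ).C ε - W.C ε) = (1 - f) • symm ε) ∧
      ∀ ε, C.Q ε ≤ W.Q ε

theorem adm_iff_char (hd : 1 ≤ d) (hI : StmtInvIso d) (hG : StmtGamIso d) (hInv : StmtInvT d)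
    (hGT : StmtGamT d) {κ μ f : ℝ} (hκ : 0 < κ) (hμ : 0 < μ) (hf0 : 0 < f) (hf1 : f < 1)
    (C : Tens d) : Adm (iso κ μ) f C ↔ Char κ μ f C := by
  obtain ⟨hPD, hInvQ⟩ := hI hd κ μ hκ hμ (iso κ μ) (isIso_iso κ μ)
  have hGamQ := hG hd κ μ hκ hμ (iso κ μ) (isIso_iso κ μ)
  have hd' : (0 : ℝ) < d := by exact_mod_cast hd
  have hcompl : ∀ q : M d, Inv (iso κ μ) q = (compl κ μ : Tens d).Q q := by
    intro q
    rw [hInvQ q]
    have h := isIso_iso (d := d) (1 / ((d : ℝ) ^ 2 * κ)) (1 / (4 * μ)) q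
    unfold compl
    rw [h]
    field_simp
    ring
  have hgam : ∀ n : V d, dot n n = 1 → ∀ q, Gam (iso κ μ) n q = (gamma κ μ n).Q q := by
    intro n hn q
    rw [hGamQ n hn q, gamma_Q]
  obtain ⟨Ai, hAiPD, hAiQ, _, _⟩ := hInv (iso κ μ) hPD
  obtain ⟨Γ, _, hΓ2, _, _, _, _, _⟩ := hGT (iso κ μ) hPD
  -- `S_m` is positive definite
  have hSPD : ∀ {r : ℕ} (n : Fin r → V d) (m : Fin r → ℝ), (∀ i, dot (n i) (n i) = 1) →
      (∀ i, 0 ≤ m i) → (∑ i, m i = 1) → (Sm κ μ f n m).PD := by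
    intro r n m hn hm hsum
    obtain ⟨a, ha, hlo⟩ := hAiPD
    refine ⟨(1 - f) * a, mul_pos (by linarith) ha, fun q => ?_⟩
    rw [Sm_Q, ← hcompl]
    have h1 : ∑ i, m i * (gamma κ μ (n i)).Q q ≤ ∑ i, m i * Inv (iso κ μ) q := by
      refine Finset.sum_le_sum fun i _ => mul_le_mul_of_nonneg_left ?_ (hm i)
      rw [← hgam (n i) (hn i) q]
      exact (hΓ2 (n i) q).2
    rw [← Finset.sum_mul, hsum, one_mul] at h1
    have h2 : a * nsq q ≤ Inv (iso κ μ) q := by rw [hAiQ]; exact hlo q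
    have h3 : f * ∑ i, m i * (gamma κ μ (n i)).Q q ≤ f * Inv (iso κ μ) q :=
      mul_le_mul_of_nonneg_left h1 hf0.le
    nlinarith
  have hHS : ∀ {r : ℕ} (n : Fin r → V d) (m : Fin r → ℝ), (∀ i, dot (n i) (n i) = 1) → ∀ ε q,
      HS (iso κ μ) (1 - f) (fun q => f * ∑ i, m i * Gam (iso κ μ) (n i) q) ε q =
        (iso κ μ : Tens d).Q ε - 2 * (1 - f) * ip q (symm ε) + (1 - f) * (Sm κ μ f n m).Q q := by
    intro r n m hn ε q
    have e : ∑ i, m i * Gam (iso κ μ) (n i) q = ∑ i, m i * (gamma κ μ (n i)).Q q :=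
      Finset.sum_congr rfl fun i _ => by rw [hgam (n i) (hn i) q]
    unfold HS
    rw [Sm_Q, hcompl]
    simp only [e]
  constructor
  · rintro ⟨hC, r, n, m, hn, hm, hsum, hle⟩
    refine ⟨hC, r, n, m, hn, hm, hsum, ?_⟩
    obtain ⟨R, _, _, _, hR⟩ := hInv (Sm κ μ f n m) (hSPD n m hn hm hsum)
    refine ⟨iso κ μ + R.scale (-(1 - f)), ?_, ?_⟩
    · intro ε
      have h1 : (iso κ μ : Tens d).C ε - (iso κ μ + R.scale (-(1 - f))).C ε = (1 - f) • R.C ε := by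
        rw [Tens.add_C, Tens.scale_C]
        module
      rw [h1, map_smul, (hR ε).2]
    · intro ε
      have h1 := hle ε (R.C ε)
      rw [hHS n m hn] at h1
      have h2 : (Sm κ μ f n m).Q (R.C ε) = R.Q ε := by
        unfold Tens.Q
        rw [(hR ε).2, ip_symm_left, Tens.symm_C, ip_comm]
      have h3 : ip (R.C ε) (symm ε) = R.Q ε := by
        rw [Tens.ip_C_symm]; rfl
      rw [h2, h3] at h1
      rw [Tens.add_Q, Tens.scale_Q]
      linarith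
  · rintro ⟨hC, r, n, m, hn, hm, hsum, W, hW, hle⟩
    refine ⟨hC, r, n, m, hn, hm, hsum, ?_⟩
    intro ε q
    rw [hHS n m hn]
    refine (hle ε).trans ?_
    have hS := (hSPD n m hn hm hsum).psd
    set S := Sm κ μ f n m with hSdef
    set Y : M d := (iso κ μ).C ε - W.C ε with hY
    have hYs : symm Y = Y := by rw [hY, symm_sub, Tens.symm_C, Tens.symm_C]
    have h1 := hS ((1 - f) • q - Y)
    rw [Tens.Q_sub, Tens.Q_smul, map_smul, ip_smul_left, Tens.ip_comm_C, hW ε, ip_smul_left] at h1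
    have h2 : S.Q Y = (1 - f) * ip Y ε := by
      unfold Tens.Q
      rw [hW ε, ip_smul_left, ip_symm_left, hYs, ip_comm]
    have h3 : ip Y ε = (iso κ μ : Tens d).Q ε - W.Q ε := by
      rw [hY, ip_sub_left]; rfl
    rw [h2] at h1
    have h4 : ip (symm ε) q = ip q (symm ε) := ip_comm _ _
    rw [h4] at h1
    have hpos : 0 < 1 - f := by linarith
    have h5 : 0 ≤ (1 - f) * ((1 - f) * S.Q q - 2 * (1 - f) * ip q (symm ε) + ip Y ε) := by
      nlinarith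
    have h6 := nonneg_of_mul_nonneg_right h5 hpos
    linarith

/-- The G-closure theorem, from the statements of the modules. -/
theorem gclosure (hd : 2 ≤ d) (hNec : StmtNec d) (hSuf : StmtSuf d) (hH : StmtH1 d)
    (hM : StmtH1Min d) (hI : StmtInvIso d) (hG : StmtGamIso d) (hInv : StmtInvT d)
    (hGT : StmtGamT d) {κ μ f : ℝ} (hκ : 0 < κ) (hμ : 0 < μ) (hf0 : 0 < f) (hf1 : f < 1)
    (C : Tens d) : C ∈ GVoid κ μ f ↔ Char κ μ f C := by
  have hd1 : 1 ≤ d := by omega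
  obtain ⟨hPD, _⟩ := hI hd1 κ μ hκ hμ (iso κ μ) (isIso_iso κ μ)
  rw [gvoid_eq hH hM hPD f C, ← adm_iff_char hd1 hI hG hInv hGT hκ hμ hf0 hf1 C]
  exact ⟨fun h => hNec (iso κ μ) f hPD hf0 hf1 C h, fun h => hSuf hd (iso κ μ) f hPD hf0 hf1 C h⟩

end Pool.Agent.Lib.MP_5df1bf_an
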