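import Pool.Agent.Lib.MP_5df1bf_an.Stmts3
import Pool.Agent.Lib.MP_5df1bf_an.BaseE

/-!
# MP_5df1bf_an, D1: the gadget in the calculus of realizable tensors
-/

open MeasureTheory Filter Topology
open scoped BigOperators ContDiff

noncomputable section

namespace Pool.Agent.Lib.MP_5df1bf_an

namespace GadAux

variable {d : ℕ}

lemma w_nonneg (D : Dat d) : 0 ≤ D.w := by
  unfold Dat.w
  positivity

lemma h_nonneg (D : Dat d) : 0 ≤ D.h := by
  unfold Dat.h
  have := w_nonneg D
  positivity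

lemma h_le_w (D : Dat d) : D.h ≤ D.w := by
  unfold Dat.h
  have h1 := w_nonneg D
  have h2 : (1 : ℝ) ≤ D.J := by exact_mod_cast D.Jpos
  rw [div_le_iff₀ (by positivity)]
  nlinarith

lemma prof_mono {D : Dat d} {K K' : ℝ} (h : D.Prof K) (hK : K ≤ K') : D.Prof K' :=
  { h with
    thF_der := fun t => (h.thF_der t).trans (div_le_div_of_nonneg_right hK (h_nonneg D))
    psi_der := fun t => (h.psi_der t).trans (div_le_div_of_nonneg_right hK (w_nonneg D))
    psi_der2 := fun t => (h.psi_der2 t).trans (div_le_div_of_nonneg_right hK (sq_nonneg _)) }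

lemma lin_mono {D : Dat d} {K K' η : ℝ} (h : D.Lin K η) (hK : K ≤ K') : D.Lin K' η :=
  { h with
    G_bd := fun k j x => (h.G_bd k j x).trans (mul_le_mul_of_nonneg_right hK (sq_nonneg _))
    G_der := fun k j x => (h.G_der k j x).trans (mul_le_mul_of_nonneg_right hK (w_nonneg D))
    P_rng := fun k j x => ⟨(h.P_rng k j x).1, (h.P_rng k j x).2.trans hK⟩ }

lemma soft_Q (C : Tens d) (E : M d) (t : ℝ) (ξ : M d) :
    (soft C E t).Q ξ = C.Q ξ - t * (ip (C.C E) ξ) ^ 2 / C.Q E := by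
  show ip (C.C ξ - (t * ip (C.C E) ξ / C.Q E) • C.C E) ξ = _
  rw [ip_sub_left, ip_smul_left]
  show C.Q ξ - _ = _
  ring

lemma dg_smul (s : ℝ) (c : V d) : dg (fun k => s * c k) = s • dg c := by
  funext i j
  simp only [dg, Pi.smul_apply, smul_eq_mul]
  split_ifs <;> simp

/-- the softened form does not change when `E` is multiplied by a number -/
lemma ratio_smul (C : Tens d) (E : M d) (s : ℝ) (hs : s ≠ 0) (ξ : M d) :
    (ip (C.C (s • E)) ξ) ^ 2 / C.Q (s • E) = (ip (C.C E) ξ) ^ 2 / C.Q E := by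
  rw [map_smul, ip_smul_left, Tens.Q_smul, mul_pow]
  rw [mul_div_mul_left _ _ (pow_ne_zero 2 hs)]

lemma zeroT_Q' (ξ : M d) : (zeroT d).Q ξ = 0 := by simp [Tens.Q, zeroT, ip]

lemma nsq_oo' (z : V d) : nsq (oo z) = (dot z z) ^ 2 := by
  have h : symm (oo z) = oo z := by
    funext i j
    simp only [symm, oo]
    ring
  rw [nsq_of_symm h, ip_oo]
  simp only [mulV, oo, dot]
  rw [pow_two, Finset.sum_mul_sum]
  refine Finset.sum_congr rfl fun i _ => ?_
  rw [Finset.mul_sum]
  exact Finset.sum_congr rfl fun j _ => by ring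

lemma ratio_le (z : V d) (ξ : M d) : (ip (oo z) ξ / dot z z) ^ 2 ≤ nsq ξ := by
  by_cases h0 : dot z z = 0
  · rw [h0, div_zero]
    simpa using nsq_nonneg ξ
  · rw [div_pow, div_le_iff₀ (by positivity)]
    have h : symm (oo z) = oo z := by
      funext i j
      simp only [symm, oo]
      ring
    have h1 := cs_symm (oo z) ξ
    rw [h, nsq_oo'] at h1
    linarith

lemma fib_mono {α β α' β' : ℝ} {z : V d} {F : Tens d} (h : FibLike α β z F) (hα : α' ≤ α)
    (hβ : β ≤ β') : FibLike α' β' z F := fun ξ =>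
  ⟨(mul_le_mul_of_nonneg_right hα (sq_nonneg _)).trans (h ξ).1,
    (h ξ).2.trans (mul_le_mul_of_nonneg_right hβ (sq_nonneg _))⟩

lemma sh_mono {α β α' β' : ℝ} {z : V d} {F : Tens d} (h : ShLike α β z F) (hα : α' ≤ α)
    (hβ : β ≤ β') : ShLike α' β' z F :=
  ⟨fun ξ e he => (mul_le_mul_of_nonneg_right hα (sq_nonneg _)).trans (h.1 ξ e he),
    fun ξ a => ⟨(h.2 ξ a).1, (h.2 ξ a).2.trans (mul_le_mul_of_nonneg_right hβ (nsq_nonneg _))⟩⟩

lemma sh_le {α β : ℝ} {q : V d} {F : Tens d} (h : ShLike α β q F) (ξ : M d) :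
    0 ≤ F.Q ξ ∧ F.Q ξ ≤ β * nsq ξ := by
  have h1 := h.2 ξ 0
  have h2 : sd (0 : V d) q = 0 := by
    funext i j
    simp [sd]
  rwa [h2, sub_zero] at h1

lemma frac_sum {m : ℕ} {idx : V d → Fin m} (hi : Measurable idx) (s : Finset (Fin m)) :
    ∑ i ∈ s, frac {x | idx x = i} = frac {x | idx x ∈ s} := by
  unfold frac
  have hset : {x | idx x ∈ s} ∩ cell d = ⋃ i ∈ s, ({x | idx x = i} ∩ cell d) := by
    ext x
    simp
  rw [hset, measure_biUnion_finset, ENNReal.toReal_sum]
  · intro i _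
    refine ne_top_of_le_ne_top ?_ (measure_mono Set.inter_subset_right)
    rw [vol_cell]
    exact ENNReal.one_ne_top
  · intro i _ j _ hij
    refine Set.disjoint_left.mpr fun x hx hx' => hij ?_
    exact hx.1.symm.trans hx'.1
  · intro i _
    exact (hi (measurableSet_singleton i)).inter measurableSet_cell

lemma frac_mono {χ χ' : Set (V d)} (h : χ ⊆ χ') : frac χ ≤ frac χ' := by
  unfold frac
  refine ENNReal.toReal_mono ?_ (measure_mono (Set.inter_subset_inter_left _ h))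
  refine ne_top_of_le_ne_top ?_ (measure_mono Set.inter_subset_right)
  rw [vol_cell]
  exact ENNReal.one_ne_top

lemma frac_nonneg' (χ : Set (V d)) : 0 ≤ frac χ := ENNReal.toReal_nonneg

/-- the change of the volume fraction -/
lemma frac_diff {m : ℕ} {idx : V d → Fin m} (hi : Measurable idx) (g : Fin m → ℝ) (f b : ℝ)
    (s : Finset (Fin m)) (hs : ∀ i ∉ s, g i = f) (hb : ∀ i, |g i - f| ≤ b) :
    |∑ i, frac {x | idx x = i} * g i - f| ≤ b * frac {x | idx x ∈ s} := by
  have h1 : ∑ i, frac {x | idx x = i} = 1 := by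
    rw [frac_sum hi Finset.univ]
    unfold frac
    have : {x : V d | idx x ∈ (Finset.univ : Finset (Fin m))} ∩ cell d = cell d := by
      ext x
      simp
    rw [this, vol_cell]
    simp
  have h2 : ∑ i, frac {x | idx x = i} * g i - f = ∑ i, frac {x | idx x = i} * (g i - f) := by
    simp only [mul_sub]
    rw [Finset.sum_sub_distrib, ← Finset.sum_mul, h1, one_mul]
  have h3 : ∑ i, frac {x | idx x = i} * (g i - f) =
      ∑ i ∈ s, frac {x | idx x = i} * (g i - f) := by
    symm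
    refine Finset.sum_subset (Finset.subset_univ _) fun i _ hi' => ?_
    rw [hs i hi', sub_self, mul_zero]
  rw [h2, h3, ← frac_sum hi s, Finset.mul_sum]
  refine (Finset.abs_sum_le_sum_abs _ _).trans (Finset.sum_le_sum fun i _ => ?_)
  rw [abs_mul, abs_of_nonneg (frac_nonneg' _), mul_comm]
  exact mul_le_mul_of_nonneg_right (hb i) (frac_nonneg' _)

end GadAux

open GadAux in
/-- D1: the gadget in the calculus of realizable tensors -/
theorem gad (d : ℕ) (hE : BaseE d) (hComb : StmtComb d) (hDat : StmtDat d)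
    (hGF : StmtGadFld d) (hVol : StmtVol d) (hLow : StmtLower d) (hUp : StmtUpper d)
    (hFib : StmtFib d) (hSh : StmtSheet d) (hHom : StmtRzHom d) (hBase : StmtRzBase d)
    (hEff : StmtEff d) : StmtGad d := by
  intro hd A C f hA hC hRz c hc η hη
  classical
  obtain ⟨α1, hα1, β1, hβ1, f1, hf10, hf11, hF⟩ := hFib A hA
  obtain ⟨α2, hα2, β2, hβ2, f2, hf20, hf21, hS⟩ := hSh A hA
  obtain ⟨α3, hα3, hC3⟩ := hC
  obtain ⟨β3, hβ3, hC3'⟩ := C.exists_bound
  obtain ⟨B, K0, σ, hBE, hσ1, hσ2⟩ := hComb hd c hc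
  obtain ⟨K1, hK1, hD⟩ := hDat B
  set α : ℝ := min α1 (min α2 α3) with hαdef
  set β : ℝ := max (max β1 (max β2 β3)) α with hβdef
  have hα : 0 < α := lt_min hα1 (lt_min hα2 hα3)
  have hαβ : α ≤ β := le_max_right _ _
  have hβ0 : 0 ≤ β := hα.le.trans hαβ
  have hα1' : α ≤ α1 := min_le_left _ _
  have hα2' : α ≤ α2 := (min_le_right _ _).trans (min_le_left _ _)
  have hα3' : α ≤ α3 := (min_le_right _ _).trans (min_le_right _ _)
  have hβ1' : β1 ≤ β := (le_max_left _ _).trans (le_max_left _ _)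
  have hβ2' : β2 ≤ β := ((le_max_left _ _).trans (le_max_right _ _)).trans (le_max_left _ _)
  have hβ3' : β3 ≤ β := ((le_max_right _ _).trans (le_max_right _ _)).trans (le_max_left _ _)
  set K : ℝ := max K0 K1 with hK
  obtain ⟨KL, hKL, hlow⟩ := hLow B K σ
    (fun j S => (hσ1 j S).trans (mul_le_mul_of_nonneg_right (le_max_left _ _) (nsq_nonneg _)))
    hσ2 α β hα hαβ
  obtain ⟨KU, hKU, hup⟩ := hUp B K α β hα hαβ
  set Mc : ℝ := KL + KU + (2 + |f|) * (2 * d) + 1 with hMc
  have hMpos : 0 < Mc := by positivity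
  set η1 : ℝ := min 1 (η / (2 * Mc)) with hη1
  have hη1pos : 0 < η1 := lt_min one_pos (by positivity)
  obtain ⟨D, hDB, hDN, hProf, hLin⟩ := hD η1 hη1pos (⌈2 * Mc / η⌉₊ + 1)
  subst hDB
  have hProf' : D.Prof K := prof_mono hProf (le_max_right _ _)
  have hLin' : D.Lin K η1 := lin_mono hLin (le_max_right _ _)
  obtain ⟨L1, hL1⟩ := hlow D η1 hη1pos (min_le_left _ _) rfl hProf' hLin'
  obtain ⟨L2, hL2⟩ := hup D η1 rfl hProf' hLin'
  have hw : D.w ≤ η / (2 * Mc) := by
    have hN : (0 : ℝ) < D.N := by exact_mod_cast D.Npos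
    have h1 : 2 * Mc / η ≤ D.N := by
      have h2 : ((⌈2 * Mc / η⌉₊ + 1 : ℕ) : ℝ) ≤ D.N := by exact_mod_cast hDN
      push_cast at h2
      linarith [Nat.le_ceil (2 * Mc / η)]
    unfold Dat.w
    rw [div_le_div_iff₀ hN (by positivity)]
    rw [div_le_iff₀ hη] at h1
    linarith
  have hw0 := w_nonneg D
  -- the materials
  have hFex : ∃ F : (Fin d → ℤ) → Tens d, ∀ z, z ≠ 0 → Rz A (F z) f1 ∧ (F z).PSD ∧
      FibLike α β (zv z) (F z) := by
    refine ⟨fun z => if hz : z ≠ 0 then (hF z hz).choose else zeroT d, fun z hz => ?_⟩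
    have he : (if hz : z ≠ 0 then (hF z hz).choose else zeroT d) = (hF z hz).choose :=
      dif_pos hz
    obtain ⟨h1, h2, h3⟩ := (hF z hz).choose_spec
    simp only [he]
    exact ⟨h1, h2, fib_mono h3 hα1' hβ1'⟩
  obtain ⟨F, hFz⟩ := hFex
  have hq0 : D.q0 ≠ 0 := by
    intro h0
    exact D.q0_ne ⟨0, by omega⟩ (by rw [h0]; rfl)
  obtain ⟨Ls, hLs1, hLs2, hLs3⟩ := hS D.q0 hq0
  have hLs3' : ShLike α β (zv D.q0) Ls := sh_mono hLs3 hα2' hβ2'
  set L : ℕ := max (max L1 L2) 1 with hL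
  have hLpos : 0 < L := lt_of_lt_of_le one_pos (le_max_right _ _)
  obtain ⟨m, idx, val, hidx, hper, hgad, hval⟩ := hGF D K η1 hProf' hLin' L hLpos C F Ls
  -- the field
  have hCb : ∀ ξ, α * nsq ξ ≤ C.Q ξ ∧ C.Q ξ ≤ β * nsq ξ := fun ξ =>
    ⟨(mul_le_mul_of_nonneg_right hα3' (nsq_nonneg _)).trans (hC3 ξ),
      ((le_abs_self _).trans (hC3' ξ)).trans (mul_le_mul_of_nonneg_right hβ3' (nsq_nonneg _))⟩
  have hb : ∀ i ξ, 0 * nsq ξ ≤ (val i).Q ξ ∧ (val i).Q ξ ≤ β * nsq ξ := by
    intro i ξ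
    rw [zero_mul]
    rcases hval i with h | h | h | ⟨z, hz, h⟩
    · rw [h]
      exact ⟨(mul_nonneg hα.le (nsq_nonneg _)).trans (hCb ξ).1, (hCb ξ).2⟩
    · rw [h, zeroT_Q']
      exact ⟨le_rfl, mul_nonneg hβ0 (nsq_nonneg _)⟩
    · rw [h]
      exact sh_le hLs3' ξ
    · rw [h]
      exact ⟨(hFz z hz).2.1 ξ, ((hFz z hz).2.2 ξ).2.trans
        (mul_le_mul_of_nonneg_left (ratio_le _ _) hβ0)⟩
  have hfld : IsFld (fun x => val (idx x)) 0 β := hE.step_fld m idx val 0 β hidx hper hb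
  obtain ⟨W, hW1, hW2⟩ := hEff _ β hfld
  -- volume fractions
  have hfex : ∀ i, ∃ g : ℝ, Rz A (val i) g ∧ |g - f| ≤ 2 + |f| ∧ (val i = C → g = f) := by
    intro i
    have hbd : ∀ g : ℝ, 0 ≤ g → g ≤ 1 → |g - f| ≤ 2 + |f| := by
      intro g h0 h1
      calc |g - f| ≤ |g| + |f| := abs_sub _ _
        _ ≤ 2 + |f| := by
          rw [abs_of_nonneg h0]
          linarith
    by_cases h0 : val i = C
    · refine ⟨f, by rw [h0]; exact hRz, ?_, fun _ => rfl⟩
      rw [sub_self, abs_zero]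
      positivity
    rcases hval i with h | h | h | ⟨z, hz, h⟩
    · exact absurd h h0
    · exact ⟨0, by rw [h]; exact (hBase A hA).2, hbd 0 le_rfl zero_le_one, fun h' => absurd h' h0⟩
    · exact ⟨f2, by rw [h]; exact hLs1, hbd f2 hf20 hf21, fun h' => absurd h' h0⟩
    · exact ⟨f1, by rw [h]; exact (hFz z hz).1, hbd f1 hf10 hf11, fun h' => absurd h' h0⟩
  choose g hg1 hg2 hg3 using hfex
  have hpsd : ∀ i, (val i).PSD := fun i ξ => by
    have := (hb i ξ).1
    rwa [zero_mul] at this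
  refine ⟨W, ∑ i, frac {x | idx x = i} * g i, fun ξ => (hW2 ξ).1,
    hHom A hA m idx hidx hper val g hpsd hg1 W hW1, ?_, ?_⟩
  · have h1 := frac_diff hidx g f (2 + |f|) (Finset.univ.filter (fun i => val i ≠ C))
      (fun i hi => hg3 i (by simpa using hi)) hg2
    have h2 : frac {x | idx x ∈ Finset.univ.filter (fun i => val i ≠ C)} ≤ 2 * d * D.h := by
      refine (frac_mono ?_).trans (hVol D D.h (h_nonneg D))
      intro x hx
      simp only [Finset.mem_filter, Finset.mem_univ, true_and, Set.mem_setOf_eq] at hx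
      by_contra hcon
      simp only [Set.mem_setOf_eq, not_exists, not_le] at hcon
      exact hx (hgad.blk x (Or.inl fun i => (hcon i).le))
    have h3 : (2 + |f|) * frac {x | idx x ∈ Finset.univ.filter (fun i => val i ≠ C)} ≤
        (2 + |f|) * (2 * d) * D.w := by
      have h4 : 2 * (d : ℝ) * D.h ≤ 2 * d * D.w :=
        mul_le_mul_of_nonneg_left (h_le_w D) (by positivity)
      have h5 := mul_le_mul_of_nonneg_left (h2.trans h4) (by positivity : (0 : ℝ) ≤ 2 + |f|)
      linarith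
    have h6 : (2 + |f|) * (2 * d) * D.w ≤ Mc * (η / (2 * Mc)) :=
      mul_le_mul (by rw [hMc]; linarith) hw hw0 hMpos.le
    have h7 : Mc * (η / (2 * Mc)) = η / 2 := by
      field_simp
    linarith
  · intro ξ
    have hl := hL1 L ((le_max_left _ _).trans (le_max_left _ _)) C F Ls _ hCb
      (fun z hz => (hFz z hz).2.2) hLs3' hgad hfld ξ
    have hu := hL2 L ((le_max_right _ _).trans (le_max_left _ _)) C F Ls _ hCb
      (fun z hz => (hFz z hz).2.2) hLs3' hgad hfld ξ
    have hEE : dg D.E = ((d : ℝ) - 1) • dg (fun k => (c k : ℝ)) := by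
      rw [← dg_smul]
      congr 1
      funext k
      exact hBE k
    have hd1 : (d : ℝ) - 1 ≠ 0 := by
      have : (2 : ℝ) ≤ d := by exact_mod_cast hd
      intro h
      linarith
    rw [hEE, ratio_smul C _ _ hd1] at hl hu
    rw [hW1, soft_Q, one_mul, abs_le]
    have hnn := nsq_nonneg ξ
    have e1 : KL * (D.w + η1) ≤ η := by
      have h1 : D.w + η1 ≤ η / Mc := by
        have h2 : η1 ≤ η / (2 * Mc) := min_le_right _ _
        have h3 : η / Mc = η / (2 * Mc) + η / (2 * Mc) := by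
          field_simp
          norm_num
        rw [h3]
        linarith
      have h4 : KL * (D.w + η1) ≤ Mc * (η / Mc) :=
        mul_le_mul (by rw [hMc]; have : 0 ≤ (2 + |f|) * (2 * (d : ℝ)) := by positivity
                       linarith) h1 (by linarith) hMpos.le
      have h5 : Mc * (η / Mc) = η := by field_simp
      linarith
    have e2 : KU * D.w ≤ η := by
      have h4 : KU * D.w ≤ Mc * (η / (2 * Mc)) :=
        mul_le_mul (by rw [hMc]; have : 0 ≤ (2 + |f|) * (2 * (d : ℝ)) := by positivity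
                       linarith) hw hw0 hMpos.le
      have h5 : Mc * (η / (2 * Mc)) = η / 2 := by field_simp
      linarith
    have e3 := mul_le_mul_of_nonneg_right e1 hnn
    have e4 := mul_le_mul_of_nonneg_right e2 hnn
    constructor <;> linarith

end Pool.Agent.Lib.MP_5df1bf_an
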