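import Pool.Agent.Lib.MP_5df1bf_an.Stmts2

/-!
# MP_5df1bf_an, B8: the material field of the gadget and the volume of the non-block part
-/

open MeasureTheory Filter Topology
open scoped BigOperators ContDiff

noncomputable section

namespace Pool.Agent.Lib.MP_5df1bf_an

variable {d : ℕ}

theorem pd_add_int (t : ℝ) (z : ℤ) : pd (t + z) = pd t := by
  unfold pd
  rw [round_add_intCast]
  push_cast
  congr 1
  ring

theorem pd_nonneg (t : ℝ) : 0 ≤ pd t := abs_nonneg _

theorem pd_le_fract (t : ℝ) : pd t ≤ Int.fract t := by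
  unfold pd
  have h := round_le t ⌊t⌋
  rwa [abs_of_nonneg (Int.fract_nonneg t) (a := t - ⌊t⌋)] at h

theorem measurable_pd : Measurable pd := by
  unfold pd
  have h : Measurable (fun t : ℝ => ((round t : ℤ) : ℝ)) := by
    have : (fun t : ℝ => ((round t : ℤ) : ℝ)) = fun t : ℝ => ((⌊t + 1 / 2⌋ : ℤ) : ℝ) := by
      funext t
      rw [round_eq]
    rw [this]
    exact measurable_from_top.comp (Int.measurable_floor.comp (measurable_id.add_const _))
  exact (continuous_abs.measurable).comp (measurable_id.sub h)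

theorem measurable_roundR : Measurable (fun t : ℝ => ((round t : ℤ) : ℝ)) := by
  have : (fun t : ℝ => ((round t : ℤ) : ℝ)) = fun t : ℝ => ((⌊t + 1 / 2⌋ : ℤ) : ℝ) := by
    funext t
    rw [round_eq]
  rw [this]
  exact measurable_from_top.comp (Int.measurable_floor.comp (measurable_id.add_const _))

namespace Dat

variable (D : Dat d)

theorem w_pos : 0 < D.w := by
  unfold w
  have := D.Npos
  positivity

theorem w_eq : D.w = 64 * D.J * D.h := by
  have h1 := D.Jpos
  have : (0 : ℝ) < D.J := by exact_mod_cast h1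
  unfold h
  field_simp

theorem h_pos : 0 < D.h := by
  have h1 := D.Jpos
  have : (0 : ℝ) < D.J := by exact_mod_cast h1
  unfold h
  have := D.w_pos
  positivity

theorem h64 : 64 * D.h ≤ D.w := by
  have h1 : (1 : ℝ) ≤ D.J := by exact_mod_cast D.Jpos
  have h2 := D.h_pos
  rw [D.w_eq]
  nlinarith

theorem b_lt_bF : D.b < D.bF := by
  have := D.h_pos
  unfold b bF
  linarith

theorem bF_lt_h : D.bF < D.h := by
  have := D.h_pos
  unfold bF
  linarith

theorem h8_lt_w : 8 * D.h < D.w := by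
  have := D.h_pos
  have := D.h64
  linarith

/-! ### disjointness -/

theorem pat_unique {k : Fin d} {j j' : Fin D.J} {x : V d} (h : D.pat k j x) (h' : D.pat k j' x) :
    j = j' := by
  obtain ⟨⟨n, hn⟩, _⟩ := h
  obtain ⟨⟨n', hn'⟩, _⟩ := h'
  have hJ : (0 : ℝ) < D.J := by exact_mod_cast D.Jpos
  have hw := D.w_pos
  have h1 : |(D.p j + n) * D.w - (D.p j' + n') * D.w| < D.w / (2 * D.J) := by
    have ha : D.a + D.a = D.w / (2 * D.J) := by
      unfold a
      field_simp
      ring
    calc |(D.p j + n) * D.w - (D.p j' + n') * D.w|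
        = |(x (D.l k) - (D.p j' + n') * D.w) - (x (D.l k) - (D.p j + n) * D.w)| := by
          congr 1
          ring
      _ ≤ |x (D.l k) - (D.p j' + n') * D.w| + |x (D.l k) - (D.p j + n) * D.w| := abs_sub _ _
      _ < D.a + D.a := by linarith
      _ = _ := ha
  have h2 : (D.p j + n) * D.w - (D.p j' + n') * D.w
      = (D.w / D.J) * ((((j : ℕ) : ℤ) - ((j' : ℕ) : ℤ) + (D.J : ℤ) * (n - n') : ℤ) : ℝ) := by
    unfold p
    push_cast
    field_simp
    ring
  rw [h2, abs_mul, abs_of_pos (by positivity : (0 : ℝ) < D.w / D.J)] at h1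
  have h3 : |((((j : ℕ) : ℤ) - ((j' : ℕ) : ℤ) + (D.J : ℤ) * (n - n') : ℤ) : ℝ)| < 1 := by
    by_contra hcon
    push Not at hcon
    have : D.w / D.J * 1 ≤ D.w / D.J *
        |((((j : ℕ) : ℤ) - ((j' : ℕ) : ℤ) + (D.J : ℤ) * (n - n') : ℤ) : ℝ)| :=
      mul_le_mul_of_nonneg_left hcon (by positivity)
    have h5 : D.w / (2 * D.J) < D.w / D.J := by
      apply div_lt_div_of_pos_left hw hJ
      linarith
    linarith
  have h4 : ((j : ℕ) : ℤ) - ((j' : ℕ) : ℤ) + (D.J : ℤ) * (n - n') = 0 := by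
    have : |((j : ℕ) : ℤ) - ((j' : ℕ) : ℤ) + (D.J : ℤ) * (n - n')| < 1 := by exact_mod_cast h3
    exact Int.abs_lt_one_iff.1 this
  have hj := j.2
  have hj' := j'.2
  have h5 : n - n' = 0 := by
    by_contra hne
    rcases lt_or_gt_of_ne hne with h | h
    · have : (D.J : ℤ) * (n - n') ≤ (D.J : ℤ) * (-1) :=
        mul_le_mul_of_nonneg_left (by omega) (by positivity)
      omega
    · have : (D.J : ℤ) * 1 ≤ (D.J : ℤ) * (n - n') :=
        mul_le_mul_of_nonneg_left (by omega) (by positivity)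
      omega
  rw [h5, mul_zero, add_zero] at h4
  apply Fin.ext
  omega

theorem RB_RS {k : Fin d} {x : V d} (h : x ∈ D.RB) (h' : x ∈ D.RS k) : False := by
  obtain ⟨h1, h2, h3⟩ := h'
  have e1 := D.b_lt_bF
  have e2 := D.bF_lt_h
  rcases h with h | ⟨i, m, him, hi, hm⟩ | ⟨k', j, hk', hp⟩
  · have := h k
    linarith
  · by_cases hik : i = k
    · have := h2 m (by rw [← hik]; exact him.symm)
      linarith
    · have := h2 i hik
      linarith
  · by_cases hk : k' = k
    · subst hk
      exact h3 j hp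
    · have := h2 k' hk
      linarith

theorem RB_pat {k : Fin d} {j : Fin D.J} {x : V d} (h : x ∈ D.RB) (hp : D.pat k j x)
    (h1 : D.b ≤ pd (x k)) (h2 : pd (x k) < D.h) : False := by
  have e1 := D.b_lt_bF
  have e2 := D.bF_lt_h
  have e3 := D.h64
  have e4 := D.h_pos
  rcases h with h | ⟨i, m, him, hi, hm⟩ | ⟨k', j', hk', hp'⟩
  · have := h k
    linarith
  · by_cases hik : i = k
    · have := hp.2 m (by rw [← hik]; exact him.symm)
      linarith
    · have := hp.2 i hik
      linarith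
  · by_cases hk : k' = k
    · subst hk
      linarith
    · have := hp.2 k' hk
      linarith

theorem RS_RS {k k' : Fin d} {x : V d} (h : x ∈ D.RS k) (h' : x ∈ D.RS k') : k = k' := by
  by_contra hne
  have e1 := D.b_lt_bF
  have h1 := h.1
  have h2 := h'.2.1 k hne
  linarith

theorem RS_pat {k k' : Fin d} {j : Fin D.J} {x : V d} (h : x ∈ D.RS k) (hp : D.pat k' j x)
    (h1 : D.b ≤ pd (x k')) : False := by
  have e1 := D.b_lt_bF
  have e2 := D.bF_lt_h
  have e3 := D.h64
  have e4 := D.h_pos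
  have h2 := h.1
  by_cases hk : k = k'
  · subst hk
    linarith
  · have := hp.2 k hk
    linarith

theorem pat_pat {k k' : Fin d} {j j' : Fin D.J} {x : V d} (hp : D.pat k j x)
    (h1 : pd (x k) < D.h) (hp' : D.pat k' j' x) : k = k' ∧ j = j' := by
  have e3 := D.h64
  have e4 := D.h_pos
  have hk : k = k' := by
    by_contra hne
    have := hp'.2 k hne
    linarith
  subst hk
  exact ⟨rfl, D.pat_unique hp hp'⟩

theorem RZ_pat {k : Fin d} {j : Fin D.J} {x : V d} (h : x ∈ D.RZ) (hp : D.pat k j x) : False := by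
  have h1 := h.1 (D.l k)
  have h2 := hp.2 (D.l k) (D.l_ne k)
  have h3 := pd_le_fract (x (D.l k))
  have h4 := D.h8_lt_w
  linarith

/-- the regions -/
def Reg : Fin 3 ⊕ (Fin d ⊕ ((Fin d × Fin D.J) ⊕ (Fin d × Fin D.J))) → Set (V d)
  | Sum.inl 0 => D.RB
  | Sum.inl 1 => D.RZ
  | Sum.inl 2 => D.RV
  | Sum.inr (Sum.inl k) => D.RS k
  | Sum.inr (Sum.inr (Sum.inl q)) => D.RU q.1 q.2
  | Sum.inr (Sum.inr (Sum.inr q)) => D.RG q.1 q.2

theorem reg_exists (x : V d) : ∃ i, x ∈ D.Reg i := by
  by_cases h1 : x ∈ D.RB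
  · exact ⟨Sum.inl 0, h1⟩
  by_cases h2 : x ∈ D.RZ
  · exact ⟨Sum.inl 1, h2⟩
  by_cases h3 : ∃ k, x ∈ D.RS k
  · obtain ⟨k, h3⟩ := h3
    exact ⟨Sum.inr (Sum.inl k), h3⟩
  by_cases h4 : ∃ k j, x ∈ D.RU k j
  · obtain ⟨k, j, h4⟩ := h4
    exact ⟨Sum.inr (Sum.inr (Sum.inl (k, j))), h4⟩
  by_cases h5 : ∃ k j, x ∈ D.RG k j
  · obtain ⟨k, j, h5⟩ := h5
    exact ⟨Sum.inr (Sum.inr (Sum.inr (k, j))), h5⟩
  push Not at h3 h4 h5
  exact ⟨Sum.inl 2, h1, h3, h4, h5, h2⟩

theorem reg_unique (x : V d) (i i' : Fin 3 ⊕ (Fin d ⊕ ((Fin d × Fin D.J) ⊕ (Fin d × Fin D.J))))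
    (h : x ∈ D.Reg i) (h' : x ∈ D.Reg i') : i = i' := by
  rcases i with i | k | q | q <;> rcases i' with i' | k' | q' | q'
  · fin_cases i <;> fin_cases i' <;> first | rfl | skip
    · exact absurd h h'.2.1
    · exact absurd h h'.1
    · exact absurd h' h.2.1
    · exact absurd h h'.2.2.2.2
    · exact absurd h' h.1
    · exact absurd h' h.2.2.2.2
  · fin_cases i
    · exact (D.RB_RS h h').elim
    · exact absurd h' (h.2.2 k')
    · exact absurd h' (h.2.1 k')
  · fin_cases i
    · exact (D.RB_pat h h'.1 h'.2.1 h'.2.2.1).elim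
    · exact (D.RZ_pat h h'.1).elim
    · exact absurd h' (h.2.2.1 _ _)
  · fin_cases i
    · exact (D.RB_pat h h'.1 h'.2.1 h'.2.2.1).elim
    · exact (D.RZ_pat h h'.1).elim
    · exact absurd h' (h.2.2.2.1 _ _)
  · fin_cases i'
    · exact (D.RB_RS h' h).elim
    · exact absurd h (h'.2.2 k)
    · exact absurd h (h'.2.1 k)
  · rw [D.RS_RS h h']
  · exact (D.RS_pat h h'.1 h'.2.1).elim
  · exact (D.RS_pat h h'.1 h'.2.1).elim
  · fin_cases i'
    · exact (D.RB_pat h' h.1 h.2.1 h.2.2.1).elim
    · exact (D.RZ_pat h' h.1).elim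
    · exact absurd h (h'.2.2.1 _ _)
  · exact (D.RS_pat h' h.1 h.2.1).elim
  · obtain ⟨h1, h2⟩ := D.pat_pat h.1 h.2.2.1 h'.1
    rw [Prod.ext h1 h2]
  · obtain ⟨h1, h2⟩ := D.pat_pat h.1 h.2.2.1 h'.1
    have h3 := h.2.2.2
    have h4 := h'.2.2.2
    rw [← h1] at h4
    exact absurd h3 (lt_asymm h4)
  · fin_cases i'
    · exact (D.RB_pat h' h.1 h.2.1 h.2.2.1).elim
    · exact (D.RZ_pat h' h.1).elim
    · exact absurd h (h'.2.2.2.1 _ _)
  · exact (D.RS_pat h' h.1 h.2.1).elim
  · obtain ⟨h1, h2⟩ := D.pat_pat h.1 h.2.2.1 h'.1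
    have h3 := h.2.2.2
    have h4 := h'.2.2.2
    rw [← h1] at h4
    exact absurd h3 (lt_asymm h4)
  · obtain ⟨h1, h2⟩ := D.pat_pat h.1 h.2.2.1 h'.1
    rw [Prod.ext h1 h2]

/-! ### measurability -/

theorem meas_pd (i : Fin d) : Measurable fun x : V d => pd (x i) :=
  measurable_pd.comp (measurable_pi_apply i)

theorem meas_pat (k : Fin d) (j : Fin D.J) : MeasurableSet {x | D.pat k j x} := by
  unfold pat
  refine MeasurableSet.inter ?_ ?_
  · have : {x : V d | ∃ n : ℤ, |x (D.l k) - (D.p j + n) * D.w| < D.a}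
        = ⋃ n : ℤ, {x : V d | |x (D.l k) - (D.p j + n) * D.w| < D.a} := by
      ext x
      simp
    change MeasurableSet {x : V d | ∃ n : ℤ, |x (D.l k) - (D.p j + n) * D.w| < D.a}
    rw [this]
    refine MeasurableSet.iUnion fun n => measurableSet_lt ?_ measurable_const
    exact continuous_abs.measurable.comp ((measurable_pi_apply _).sub_const _)
  · change MeasurableSet {x : V d | ∀ i, i ≠ k → D.w ≤ pd (x i)}
    have : {x : V d | ∀ i, i ≠ k → D.w ≤ pd (x i)}
        = ⋂ i, ⋂ (_ : i ≠ k), {x : V d | D.w ≤ pd (x i)} := by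
      ext x
      simp
    rw [this]
    exact MeasurableSet.iInter fun i => MeasurableSet.iInter fun _ =>
      measurableSet_le measurable_const (meas_pd i)

theorem meas_RB : MeasurableSet D.RB := by
  have : D.RB = (⋂ i, {x : V d | D.h ≤ pd (x i)}) ∪
      ((⋃ i, ⋃ m, ⋃ (_ : i ≠ m), {x : V d | pd (x i) < D.bF} ∩ {x : V d | pd (x m) < D.bF}) ∪
      ⋃ k, ⋃ j, {x : V d | pd (x k) < D.b} ∩ {x | D.pat k j x}) := by
    ext x
    simp only [RB, Set.mem_setOf_eq, Set.mem_union, Set.mem_iInter, Set.mem_iUnion,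
      Set.mem_inter_iff, exists_prop]
  rw [this]
  refine MeasurableSet.union ?_ (MeasurableSet.union ?_ ?_)
  · exact MeasurableSet.iInter fun i => measurableSet_le measurable_const (meas_pd i)
  · exact MeasurableSet.iUnion fun i => MeasurableSet.iUnion fun m => MeasurableSet.iUnion fun _ =>
      (measurableSet_lt (meas_pd i) measurable_const).inter
        (measurableSet_lt (meas_pd m) measurable_const)
  · exact MeasurableSet.iUnion fun k => MeasurableSet.iUnion fun j =>
      (measurableSet_lt (meas_pd k) measurable_const).inter (D.meas_pat k j)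

theorem meas_RS (k : Fin d) : MeasurableSet (D.RS k) := by
  have : D.RS k = {x : V d | pd (x k) < D.b} ∩
      ((⋂ i, ⋂ (_ : i ≠ k), {x : V d | D.bF ≤ pd (x i)}) ∩ ⋂ j, {x | D.pat k j x}ᶜ) := by
    ext x
    simp only [RS, Set.mem_setOf_eq, Set.mem_iInter, Set.mem_inter_iff, Set.mem_compl_iff]
  rw [this]
  refine MeasurableSet.inter (measurableSet_lt (meas_pd k) measurable_const)
    (MeasurableSet.inter ?_ ?_)
  · exact MeasurableSet.iInter fun i => MeasurableSet.iInter fun _ =>
      measurableSet_le measurable_const (meas_pd i)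
  · exact MeasurableSet.iInter fun j => (D.meas_pat k j).compl

theorem meas_RU (k : Fin d) (j : Fin D.J) : MeasurableSet (D.RU k j) := by
  have : D.RU k j = {x | D.pat k j x} ∩ ({x : V d | D.b ≤ pd (x k)} ∩
      ({x : V d | pd (x k) < D.h} ∩ {x : V d | x k < round (x k)})) := by
    ext x
    simp only [RU, Set.mem_setOf_eq, Set.mem_inter_iff]
  rw [this]
  refine (D.meas_pat k j).inter ((measurableSet_le measurable_const (meas_pd k)).inter
    ((measurableSet_lt (meas_pd k) measurable_const).inter ?_))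
  exact measurableSet_lt (measurable_pi_apply k)
    (measurable_roundR.comp (measurable_pi_apply k))

theorem meas_RG (k : Fin d) (j : Fin D.J) : MeasurableSet (D.RG k j) := by
  have : D.RG k j = {x | D.pat k j x} ∩ ({x : V d | D.b ≤ pd (x k)} ∩
      ({x : V d | pd (x k) < D.h} ∩ {x : V d | (round (x k) : ℝ) < x k})) := by
    ext x
    simp only [RG, Set.mem_setOf_eq, Set.mem_inter_iff]
  rw [this]
  refine (D.meas_pat k j).inter ((measurableSet_le measurable_const (meas_pd k)).inter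
    ((measurableSet_lt (meas_pd k) measurable_const).inter ?_))
  exact measurableSet_lt (measurable_roundR.comp (measurable_pi_apply k))
    (measurable_pi_apply k)

theorem meas_RZ : MeasurableSet D.RZ := by
  have : D.RZ = (⋂ i, {x : V d | Int.fract (x i) < 8 * D.h}) ∩ (D.RBᶜ ∩ ⋂ k, (D.RS k)ᶜ) := by
    ext x
    simp only [RZ, Set.mem_setOf_eq, Set.mem_iInter, Set.mem_inter_iff, Set.mem_compl_iff]
  rw [this]
  refine MeasurableSet.inter ?_ (D.meas_RB.compl.inter
    (MeasurableSet.iInter fun k => (D.meas_RS k).compl))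
  exact MeasurableSet.iInter fun i =>
    measurableSet_lt (measurable_fract.comp (measurable_pi_apply i)) measurable_const

theorem meas_RV : MeasurableSet D.RV := by
  have : D.RV = D.RBᶜ ∩ ((⋂ k, (D.RS k)ᶜ) ∩ ((⋂ k, ⋂ j, (D.RU k j)ᶜ) ∩
      ((⋂ k, ⋂ j, (D.RG k j)ᶜ) ∩ D.RZᶜ))) := by
    ext x
    simp only [RV, Set.mem_setOf_eq, Set.mem_iInter, Set.mem_inter_iff, Set.mem_compl_iff]
  rw [this]
  exact D.meas_RB.compl.inter ((MeasurableSet.iInter fun k => (D.meas_RS k).compl).inter
    ((MeasurableSet.iInter fun k => MeasurableSet.iInter fun j => (D.meas_RU k j).compl).inter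
    ((MeasurableSet.iInter fun k => MeasurableSet.iInter fun j => (D.meas_RG k j).compl).inter
    D.meas_RZ.compl)))

theorem meas_reg (i) : MeasurableSet (D.Reg i) := by
  rcases i with i | k | q | q
  · fin_cases i
    · exact D.meas_RB
    · exact D.meas_RZ
    · exact D.meas_RV
  · exact D.meas_RS k
  · exact D.meas_RU _ _
  · exact D.meas_RG _ _

/-! ### periodicity -/

theorem pat_add (k : Fin d) (j : Fin D.J) (x : V d) (z : Fin d → ℤ) (h : D.pat k j x) :
    D.pat k j (x + zv z) := by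
  obtain ⟨⟨n, hn⟩, h2⟩ := h
  refine ⟨⟨n + D.N * z (D.l k), ?_⟩, fun i hi => ?_⟩
  · have hN : (0 : ℝ) < D.N := by exact_mod_cast D.Npos
    have : (x + zv z) (D.l k) - (D.p j + ((n + D.N * z (D.l k) : ℤ) : ℝ)) * D.w
        = x (D.l k) - (D.p j + n) * D.w := by
      simp only [Pi.add_apply, zv]
      unfold w
      push_cast
      field_simp
      ring
    rw [this]
    exact hn
  · simp only [Pi.add_apply, zv]
    rw [pd_add_int]
    exact h2 i hi

theorem pat_add_iff (k : Fin d) (j : Fin D.J) (x : V d) (z : Fin d → ℤ) :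
    D.pat k j (x + zv z) ↔ D.pat k j x := by
  refine ⟨fun h => ?_, D.pat_add k j x z⟩
  have h1 := D.pat_add k j _ (-z) h
  have h2 : x + zv z + zv (-z) = x := by
    funext i
    simp [zv]
  rwa [h2] at h1

theorem pd_zv (x : V d) (z : Fin d → ℤ) (i : Fin d) : pd ((x + zv z) i) = pd (x i) := by
  simp only [Pi.add_apply, zv]
  rw [pd_add_int]

theorem fract_zv (x : V d) (z : Fin d → ℤ) (i : Fin d) :
    Int.fract ((x + zv z) i) = Int.fract (x i) := by
  simp only [Pi.add_apply, zv]
  rw [Int.fract_add_intCast]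

theorem lt_round_zv (x : V d) (z : Fin d → ℤ) (i : Fin d) :
    ((x + zv z) i < round ((x + zv z) i)) ↔ (x i < round (x i)) := by
  simp only [Pi.add_apply, zv]
  rw [round_add_intCast]
  push_cast
  constructor <;> intro h <;> linarith

theorem round_lt_zv (x : V d) (z : Fin d → ℤ) (i : Fin d) :
    ((round ((x + zv z) i) : ℝ) < (x + zv z) i) ↔ ((round (x i) : ℝ) < x i) := by
  simp only [Pi.add_apply, zv]
  rw [round_add_intCast]
  push_cast
  constructor <;> intro h <;> linarith

theorem RB_zv (x : V d) (z : Fin d → ℤ) : x + zv z ∈ D.RB ↔ x ∈ D.RB := by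
  simp only [RB, Set.mem_setOf_eq, pd_zv, pat_add_iff]

theorem RS_zv (k : Fin d) (x : V d) (z : Fin d → ℤ) : x + zv z ∈ D.RS k ↔ x ∈ D.RS k := by
  simp only [RS, Set.mem_setOf_eq, pd_zv, pat_add_iff]

theorem RU_zv (k : Fin d) (j : Fin D.J) (x : V d) (z : Fin d → ℤ) :
    x + zv z ∈ D.RU k j ↔ x ∈ D.RU k j := by
  simp only [RU, Set.mem_setOf_eq, pd_zv, pat_add_iff, lt_round_zv]

theorem RG_zv (k : Fin d) (j : Fin D.J) (x : V d) (z : Fin d → ℤ) :
    x + zv z ∈ D.RG k j ↔ x ∈ D.RG k j := by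
  simp only [RG, Set.mem_setOf_eq, pd_zv, pat_add_iff, round_lt_zv]

theorem RZ_zv (x : V d) (z : Fin d → ℤ) : x + zv z ∈ D.RZ ↔ x ∈ D.RZ := by
  simp only [RZ, Set.mem_setOf_eq, fract_zv, RB_zv, RS_zv]

theorem RV_zv (x : V d) (z : Fin d → ℤ) : x + zv z ∈ D.RV ↔ x ∈ D.RV := by
  simp only [RV, Set.mem_setOf_eq, RB_zv, RS_zv, RU_zv, RG_zv, RZ_zv]

theorem reg_zv (i) (x : V d) (z : Fin d → ℤ) : x + zv z ∈ D.Reg i ↔ x ∈ D.Reg i := by
  rcases i with i | k | q | q
  · fin_cases i
    · exact D.RB_zv x z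
    · exact D.RZ_zv x z
    · exact D.RV_zv x z
  · exact D.RS_zv k x z
  · exact D.RU_zv _ _ x z
  · exact D.RG_zv _ _ x z

end Dat

/-- B8: the field of the gadget -/
theorem gadFld : StmtGadFld d := by
  intro D K η _ _ L hL C F Ls
  classical
  let ι := Fin 3 ⊕ (Fin d ⊕ ((Fin d × Fin D.J) ⊕ (Fin d × Fin D.J)))
  let e : ι ≃ Fin (Fintype.card ι) := Fintype.equivFin ι
  let cls : V d → ι := fun x => (D.reg_exists x).choose
  have hcls : ∀ x, x ∈ D.Reg (cls x) := fun x => (D.reg_exists x).choose_spec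
  have hcls' : ∀ x i, x ∈ D.Reg i → cls x = i := fun x i h => D.reg_unique x _ _ (hcls x) h
  let v : ι → Tens d := fun i => match i with
    | Sum.inl 0 => C
    | Sum.inl 1 => Ls
    | Sum.inl 2 => zeroT d
    | Sum.inr (Sum.inl k) => F (Pi.single (D.l k) 1)
    | Sum.inr (Sum.inr (Sum.inl q)) => F (D.u q.2)
    | Sum.inr (Sum.inr (Sum.inr q)) => F (D.g L q.1 q.2)
  have hval : ∀ x i, x ∈ D.Reg i → v (e.symm (e (cls x))) = v i := by
    intro x i h
    rw [Equiv.symm_apply_apply, hcls' x i h]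
  refine ⟨Fintype.card ι, fun x => e (cls x), fun i => v (e.symm i), ?_, ?_, ?_, ?_⟩
  · apply measurable_to_countable'
    intro i
    have : (fun x => e (cls x)) ⁻¹' {i} = D.Reg (e.symm i) := by
      ext x
      simp only [Set.mem_preimage, Set.mem_singleton_iff]
      constructor
      · intro h
        rw [← h, Equiv.symm_apply_apply]
        exact hcls x
      · intro h
        rw [hcls' x _ h, Equiv.apply_symm_apply]
    rw [this]
    exact D.meas_reg _
  · intro x i
    have h1 : x + Pi.single i 1 = x + zv (Pi.single i 1) := by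
      congr 1
      funext m
      by_cases hm : m = i
      · subst hm
        simp [zv]
      · simp [zv, hm]
    show e (cls (x + Pi.single i 1)) = e (cls x)
    congr 1
    apply hcls'
    rw [h1, D.reg_zv]
    exact hcls x
  · constructor
    · intro x hx
      exact hval x (Sum.inl 0) hx
    · intro k x hx
      exact hval x (Sum.inr (Sum.inl k)) hx
    · intro k j x hx
      exact hval x (Sum.inr (Sum.inr (Sum.inl (k, j)))) hx
    · intro k j x hx
      exact hval x (Sum.inr (Sum.inr (Sum.inr (k, j)))) hx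
    · intro x hx
      exact hval x (Sum.inl 1) hx
    · intro x hx
      exact hval x (Sum.inl 2) hx
  · intro i
    rcases h : e.symm i with a | k | q | q
    · fin_cases a
      · left
        simp only [h]
        rfl
      · right; right; left
        simp only [h]
        rfl
      · right; left
        simp only [h]
        rfl
    · right; right; right
      refine ⟨Pi.single (D.l k) 1, ?_, ?_⟩
      · intro h0
        have := congrFun h0 (D.l k)
        simp at this
      · simp only [h]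
        rfl
    · right; right; right
      refine ⟨D.u q.2, ?_, ?_⟩
      · intro h0
        have h1 := congrFun h0 q.1
        have h2 := (D.u_rng q.2 q.1).1
        rw [h1] at h2
        simp at h2
      · simp only [h]
        rfl
    · right; right; right
      refine ⟨D.g L q.1 q.2, ?_, ?_⟩
      · intro h0
        have h1 := congrFun h0 q.1
        have h2 := (D.u_rng q.2 q.1).1
        have h3 : ¬ (q.1 = D.l q.1) := fun h4 => D.l_ne q.1 h4.symm
        simp only [Dat.g, if_neg h3, add_zero, Pi.zero_apply, mul_eq_zero] at h1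
        rcases h1 with h1 | h1 <;> omega
      · simp only [h]
        rfl

theorem cell_slab_vol (i : Fin d) (lo hi s : ℝ) (hs : hi - lo = s) (h0 : 0 ≤ s) :
    volume {x : V d | x ∈ cell d ∧ lo ≤ x i ∧ x i ≤ hi} ≤ ENNReal.ofReal s := by
  have hsub : {x : V d | x ∈ cell d ∧ lo ≤ x i ∧ x i ≤ hi} ⊆
      Set.pi Set.univ (fun m => if m = i then Set.Icc lo hi else Set.Icc (0 : ℝ) 1) := by
    intro x hx m _
    obtain ⟨⟨h1, h2⟩, h3, h4⟩ := hx
    show x m ∈ (if m = i then Set.Icc lo hi else Set.Icc (0 : ℝ) 1)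
    by_cases hm : m = i
    · subst hm
      rw [if_pos rfl]
      exact ⟨h3, h4⟩
    · rw [if_neg hm]
      exact ⟨h1 m, h2 m⟩
  refine (measure_mono hsub).trans ?_
  rw [volume_pi_pi]
  rw [Finset.prod_eq_single i]
  · rw [if_pos rfl, Real.volume_Icc, hs]
  · intro m _ hm
    rw [if_neg hm, Real.volume_Icc]
    simp
  · intro h
    exact absurd (Finset.mem_univ i) h

/-- volume of the complement of the blocks -/
theorem gadVol : StmtVol d := by
  intro _ s hs
  unfold frac
  have hsub : {x : V d | ∃ i, pd (x i) ≤ s} ∩ cell d ⊆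
      ⋃ i : Fin d, ({x : V d | x ∈ cell d ∧ 0 ≤ x i ∧ x i ≤ s} ∪
        {x : V d | x ∈ cell d ∧ 1 - s ≤ x i ∧ x i ≤ 1}) := by
    rintro x ⟨⟨i, hi⟩, hx⟩
    rw [Set.mem_iUnion]
    refine ⟨i, ?_⟩
    have h0 : 0 ≤ x i := hx.1 i
    have h1 : x i ≤ 1 := hx.2 i
    unfold pd at hi
    have h2 : round (x i) = 0 ∨ round (x i) = 1 := by
      have h3 : (-1 : ℝ) < round (x i) := by
        have := (abs_le.1 (abs_sub_round (x i))).2
        linarith
      have h4 : (round (x i) : ℝ) < 2 := by
        have := (abs_le.1 (abs_sub_round (x i))).1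
        linarith
      have h5 : -1 < round (x i) := by exact_mod_cast h3
      have h6 : round (x i) < 2 := by exact_mod_cast h4
      omega
    rcases h2 with h2 | h2
    · left
      rw [h2, Int.cast_zero, sub_zero] at hi
      exact ⟨hx, h0, (abs_le.1 hi).2⟩
    · right
      rw [h2, Int.cast_one] at hi
      have := (abs_le.1 hi).1
      exact ⟨hx, by linarith, h1⟩
  have hle : volume ({x : V d | ∃ i, pd (x i) ≤ s} ∩ cell d) ≤
      ∑ _i : Fin d, (ENNReal.ofReal s + ENNReal.ofReal s) := by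
    refine (measure_mono hsub).trans ?_
    refine (measure_iUnion_fintype_le _ _).trans ?_
    apply Finset.sum_le_sum
    intro i _
    refine (measure_union_le _ _).trans ?_
    exact add_le_add (cell_slab_vol i 0 s s (by ring) hs) (cell_slab_vol i (1 - s) 1 s (by ring) hs)
  have hval : ∑ _i : Fin d, (ENNReal.ofReal s + ENNReal.ofReal s)
      = ENNReal.ofReal (2 * d * s) := by
    rw [Finset.sum_const, Finset.card_univ, Fintype.card_fin, ← ENNReal.ofReal_add hs hs,
      nsmul_eq_mul, ← ENNReal.ofReal_natCast, ← ENNReal.ofReal_mul (by positivity)]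
    congr 1
    ring
  rw [hval] at hle
  exact ENNReal.toReal_le_of_le_ofReal (by positivity) hle

end Pool.Agent.Lib.MP_5df1bf_an
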