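import Pool.Agent.Lib.MP_5df1bf_an.Stmts3

/-!
# MP_5df1bf_an, D13: smooth displacements are dense in the `H¹` displacements

`H1_ok : BaseE d → StmtShift d → StmtTrunc d → StmtH1 d` (mollification).
-/

open MeasureTheory Filter Topology Set
open scoped BigOperators ContDiff Convolution

noncomputable section

namespace Pool.Agent.Lib.MP_5df1bf_an

namespace HOneAux

variable {d : ℕ}

theorem per_zv {α : Type*} {g : V d → α} (hg : Per g) (z : Fin d → ℤ) (x : V d) :
    g (x + zv z) = g x := by
  classical
  have h1 : ∀ (x : V d) (i : Fin d) (n : ℕ), g (x + Pi.single i (n : ℝ)) = g x := by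
    intro x i n
    induction n with
    | zero => simp
    | succ n ih =>
      have : x + Pi.single i ((n + 1 : ℕ) : ℝ) = (x + Pi.single i (n : ℝ)) + Pi.single i 1 := by
        rw [add_assoc, ← Pi.single_add]; push_cast; rfl
      rw [this, hg, ih]
  have h2 : ∀ (x : V d) (i : Fin d) (n : ℤ), g (x + Pi.single i (n : ℝ)) = g x := by
    intro x i n
    obtain ⟨m, rfl | rfl⟩ := n.eq_nat_or_neg
    · exact_mod_cast h1 x i m
    · have := h1 (x + Pi.single i (((-(m : ℤ)) : ℤ) : ℝ)) i m
      rw [add_assoc, ← Pi.single_add] at this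
      simpa using this.symm
  have h3 : ∀ (s : Finset (Fin d)) (x : V d), g (x + ∑ i ∈ s, Pi.single i (z i : ℝ)) = g x := by
    intro s
    induction s using Finset.induction_on with
    | empty => intro x; simp
    | insert a s ha ih =>
      intro x
      rw [Finset.sum_insert ha, ← add_assoc, ih, h2]
  have : zv z = ∑ i, Pi.single i (z i : ℝ) := by
    rw [Finset.univ_sum_single]; rfl
  rw [this, h3]

theorem int_translate {f : V d → ℝ} (hp : Per f) (hi : IntegrableOn f (cell d)) (z : Fin d → ℤ) :
    IntegrableOn f (Icc (zv z) (zv z + 1)) := by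
  have h := (measurePreserving_add_right (volume : Measure (V d)) (zv z)).integrableOn_comp_preimage
    (measurableEmbedding_addRight (zv z)) (f := f) (s := Icc (zv z) (zv z + 1))
  rw [← h]
  have e1 : (fun x => x + zv z) ⁻¹' Icc (zv z) (zv z + 1) = cell d := by
    ext x
    simp only [mem_preimage, mem_Icc, cell, Pi.le_def, Pi.add_apply, Pi.zero_apply, Pi.one_apply]
    constructor
    · rintro ⟨h1, h2⟩
      exact ⟨fun i => by linarith [h1 i], fun i => by linarith [h2 i]⟩
    · rintro ⟨h1, h2⟩
      exact ⟨fun i => by linarith [h1 i], fun i => by linarith [h2 i]⟩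
  rw [e1]
  have e2 : f ∘ (fun x => x + zv z) = f := by
    ext x; exact per_zv hp z x
  rw [e2]
  exact hi

theorem locInt {f : V d → ℝ} (hp : Per f) (hi : IntegrableOn f (cell d)) :
    LocallyIntegrable f := by
  intro x
  refine ⟨{y | ∀ i, |y i - x i| < 1}, ?_, ?_⟩
  · apply IsOpen.mem_nhds
    · have : {y : V d | ∀ i, |y i - x i| < 1} = ⋂ i, {y : V d | |y i - x i| < 1} := by
        ext y; simp
      rw [this]
      refine isOpen_iInter_of_finite fun i => ?_
      exact isOpen_lt (((continuous_apply i).sub continuous_const).abs) continuous_const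
    · simp
  · let s : Finset (Fin d → ℤ) := Fintype.piFinset fun i => Finset.Icc (⌊x i⌋ - 1) (⌊x i⌋ + 1)
    have hs : IntegrableOn f (⋃ z ∈ s, Icc (zv z) (zv z + 1)) := by
      rw [integrableOn_finset_iUnion]
      intro z _
      exact int_translate hp hi z
    refine hs.mono_set ?_
    intro y hy
    simp only [mem_iUnion]
    refine ⟨fun i => ⌊y i⌋, ?_, ?_⟩
    · rw [Fintype.mem_piFinset]
      intro i
      have h := abs_lt.1 (hy i)
      rw [Finset.mem_Icc]
      constructor
      · rw [Int.le_floor]; push_cast; linarith [Int.floor_le (x i), h.1]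
      · rw [← Int.lt_add_one_iff, Int.floor_lt]; push_cast
        linarith [Int.lt_floor_add_one (x i), h.2]
    · rw [mem_Icc]
      refine ⟨fun i => Int.floor_le _, fun i => ?_⟩
      show y i ≤ (⌊y i⌋ : ℝ) + 1
      exact (Int.lt_floor_add_one _).le

/-- mollification -/
def cv (ρ f : V d → ℝ) (x : V d) : ℝ := ∫ t, f t * ρ (x - t)

theorem cv_conv (ρ f : V d → ℝ) : cv ρ f = f ⋆[ContinuousLinearMap.mul ℝ ℝ, volume] ρ := by
  ext x; rfl

theorem cv_eq (ρ f : V d → ℝ) (x : V d) : cv ρ f x = ∫ t, ρ t * f (x - t) := by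
  have h := integral_sub_left_eq_self (fun t => f t * ρ (x - t)) volume x
  unfold cv
  rw [← h]
  refine integral_congr_ae (Eventually.of_forall fun t => ?_)
  simp only [sub_sub_cancel]
  ring

theorem cv_per {ρ f : V d → ℝ} (hp : Per f) : Per (cv ρ f) := by
  intro x i
  rw [cv_eq, cv_eq]
  refine integral_congr_ae (Eventually.of_forall fun t => ?_)
  show ρ t * f (x + Pi.single i 1 - t) = ρ t * f (x - t)
  rw [show x + Pi.single i 1 - t = (x - t) + Pi.single i 1 by abel, hp]

theorem cv_smooth {ρ f : V d → ℝ} (hρ : ContDiff ℝ ∞ ρ) (hc : HasCompactSupport ρ)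
    (hf : LocallyIntegrable f) : ContDiff ℝ ∞ (cv ρ f) := by
  rw [cv_conv]
  exact hc.contDiff_convolution_right (n := ⊤) _ hf hρ

theorem cv_fderiv {ρ f : V d → ℝ} (hρ : ContDiff ℝ ∞ ρ) (hc : HasCompactSupport ρ)
    (hf : LocallyIntegrable f) (x v : V d) :
    fderiv ℝ (cv ρ f) x v = ∫ t, f t * fderiv ℝ ρ (x - t) v := by
  rw [cv_conv]
  have hρ1 : ContDiff ℝ 1 ρ := hρ.of_le (by simp)
  have h := hc.hasFDerivAt_convolution_right (ContinuousLinearMap.mul ℝ ℝ) hf hρ1 x
  rw [h.fderiv, convolution_precompR_apply _ hf (hc.fderiv ℝ) (hρ1.continuous_fderiv one_ne_zero)]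
  rfl

/-- the weak gradient of the mollification -/
theorem cv_weak {ρ : V d → ℝ} (hρ : ContDiff ℝ ∞ ρ) (hc : HasCompactSupport ρ) {f g : V d → ℝ}
    (hf : LocallyIntegrable f) (v : V d)
    (hw : ∀ φ : V d → ℝ, ContDiff ℝ ∞ φ → HasCompactSupport φ →
      ∫ x, f x * fderiv ℝ φ x v = - ∫ x, g x * φ x) (x : V d) :
    fderiv ℝ (cv ρ f) x v = cv ρ g x := by
  rw [cv_fderiv hρ hc hf]
  have h1 : ContDiff ℝ ∞ (fun t => ρ (x - t)) := hρ.comp (contDiff_const.sub contDiff_id)
  have h2 : HasCompactSupport (fun t => ρ (x - t)) :=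
    hc.comp_homeomorph (Homeomorph.subLeft x)
  have h := hw _ h1 h2
  have e : ∀ t, fderiv ℝ (fun t => ρ (x - t)) t v = - fderiv ℝ ρ (x - t) v := by
    intro t
    have hd : DifferentiableAt ℝ ρ (x - t) := (hρ.differentiable (by simp)).differentiableAt
    have h3 : HasFDerivAt (fun t : V d => x - t) (-ContinuousLinearMap.id ℝ (V d)) t := by
      simpa using (hasFDerivAt_id (𝕜 := ℝ) t).const_sub x
    have h4 := hd.hasFDerivAt.comp t h3
    have h5 : fderiv ℝ (fun t => ρ (x - t)) t = _ := h4.fderiv
    rw [h5]
    simp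
  simp only [e] at h
  unfold cv
  have h6 : ∫ t, f t * -(fderiv ℝ ρ (x - t)) v = - ∫ t, f t * fderiv ℝ ρ (x - t) v := by
    rw [← integral_neg]
    refine integral_congr_ae (Eventually.of_forall fun t => ?_)
    simp
  rw [h6] at h
  linarith

section kernel

variable {ρ : V d → ℝ} (hρ : Continuous ρ) (hc : HasCompactSupport ρ) (h0 : ∀ t, 0 ≤ ρ t)
  (h1 : ∫ t, ρ t = 1)

include hρ hc in
theorem int_conv {f : V d → ℝ} (hf : LocallyIntegrable f) (x : V d) :
    Integrable (fun t => f t * ρ (x - t)) :=
  hc.convolutionExists_right (ContinuousLinearMap.mul ℝ ℝ) hf hρ x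

include hρ hc h0 h1 in
theorem cv_sq_le {f : V d → ℝ} (hf : LocallyIntegrable f) (hf2 : LocallyIntegrable fun x => f x ^ 2)
    (x : V d) : (cv ρ f x) ^ 2 ≤ cv ρ (fun x => f x ^ 2) x := by
  have hr : ∫ t, ρ (x - t) = 1 := by rw [integral_sub_left_eq_self]; exact h1
  have hri : Integrable (fun t => ρ (x - t)) :=
    (hρ.integrable_of_hasCompactSupport hc).comp_sub_left x
  have hnn : 0 ≤ ∫ t, (f t - cv ρ f x) ^ 2 * ρ (x - t) :=
    integral_nonneg fun t => mul_nonneg (sq_nonneg _) (h0 _)
  have i1 := int_conv hρ hc hf x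
  have i2 := int_conv hρ hc hf2 x
  have e : ∫ t, (f t - cv ρ f x) ^ 2 * ρ (x - t) =
      cv ρ (fun x => f x ^ 2) x - 2 * cv ρ f x * cv ρ f x + (cv ρ f x) ^ 2 := by
    have e1 : (fun t => (f t - cv ρ f x) ^ 2 * ρ (x - t)) = fun t =>
        (f t ^ 2 * ρ (x - t) - (2 * cv ρ f x) * (f t * ρ (x - t))) + (cv ρ f x) ^ 2 * ρ (x - t) := by
      ext t; ring
    have j1 : Integrable (fun t => (2 * cv ρ f x) * (f t * ρ (x - t))) := i1.const_mul _
    have j2 : Integrable (fun t => (cv ρ f x) ^ 2 * ρ (x - t)) := hri.const_mul _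
    have j3 : Integrable (fun t => f t ^ 2 * ρ (x - t) - (2 * cv ρ f x) * (f t * ρ (x - t))) :=
      i2.sub j1
    rw [e1, integral_add j3 j2, integral_sub i2 j1, integral_const_mul, integral_const_mul, hr]
    unfold cv
    ring
  rw [e] at hnn
  nlinarith

include hρ hc h1 in
theorem cv_int (hS : StmtShift d) {h : V d → ℝ} (hm : Measurable h) (hp : Per h)
    (hi : IntegrableOn h (cell d)) : ∫ x in cell d, cv ρ h x = ∫ x in cell d, h x := by
  have hloc := locInt hp hi
  have hρi : Integrable ρ := hρ.integrable_of_hasCompactSupport hc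
  have hsh : ∀ t : V d, IntegrableOn (fun x => h (x - t)) (cell d) := by
    intro t
    have h2 : LocallyIntegrable (fun x => h (x - t)) := by
      apply locInt
      · intro x i
        show h (x + Pi.single i 1 - t) = h (x - t)
        rw [show x + Pi.single i 1 - t = (x - t) + Pi.single i 1 by abel, hp]
      · have h3 := (measurePreserving_sub_right (volume : Measure (V d)) t).integrableOn_comp_preimage
          (measurableEmbedding_subRight t) (f := h) (s := (fun x => x - t) '' cell d)
        rw [preimage_image_eq _ (sub_left_injective)] at h3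
        refine h3.2 ?_
        have hK : IsCompact ((fun x => x - t) '' cell d) :=
          isCompact_Icc.image (continuous_id.sub continuous_const)
        exact hloc.integrableOn_isCompact hK
    exact h2.integrableOn_isCompact isCompact_Icc
  have hmeas : Measurable (fun p : V d × V d => ρ p.2 * h (p.1 - p.2)) :=
    (hρ.measurable.comp measurable_snd).mul (hm.comp (measurable_fst.sub measurable_snd))
  have hint : Integrable (fun p : V d × V d => ρ p.2 * h (p.1 - p.2))
      ((volume.restrict (cell d)).prod volume) := by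
    rw [integrable_prod_iff' hmeas.aestronglyMeasurable]
    constructor
    · refine Eventually.of_forall fun t => ?_
      show Integrable (fun x => ρ t * h (x - t)) (volume.restrict (cell d))
      exact (hsh t).const_mul (ρ t)
    · have e : ∀ t, ∫ x in cell d, ‖ρ t * h (x - t)‖ = ‖ρ t‖ * ∫ x in cell d, |h x| := by
        intro t
        have e1 : ∀ x, ‖ρ t * h (x - t)‖ = ‖ρ t‖ * |h (x + -t)| := by
          intro x; rw [norm_mul, ← sub_eq_add_neg]; rfl
        simp only [e1]
        rw [integral_const_mul, hS (fun x => |h x|) (by intro x i; show |h _| = |h _|; rw [hp]) (-t)]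
      simp only [e]
      exact hρi.norm.mul_const _
  have hcv : ∀ x, cv ρ h x = ∫ t, ρ t * h (x - t) := cv_eq ρ h
  simp only [hcv]
  rw [integral_integral_swap (f := fun x t => ρ t * h (x - t)) hint]
  have e2 : ∀ t, ∫ x in cell d, ρ t * h (x - t) = ρ t * ∫ x in cell d, h x := by
    intro t
    rw [integral_const_mul]
    simp only [sub_eq_add_neg]
    rw [hS h hp (-t)]
  simp only [e2]
  rw [integral_mul_const, h1, one_mul]

end kernel

theorem sqp_int {f : V d → ℝ} (hf : SqP f) : IntegrableOn f (cell d) := by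
  have : IsFiniteMeasure ((volume : Measure (V d)).restrict (cell d)) :=
    ⟨by rw [Measure.restrict_apply_univ]; exact isCompact_Icc.measure_lt_top⟩
  have h : MemLp f 2 (volume.restrict (cell d)) :=
    (memLp_two_iff_integrable_sq hf.meas.aestronglyMeasurable).2 hf.sq
  exact h.integrable (by norm_num)

theorem sqp_loc {f : V d → ℝ} (hf : SqP f) : LocallyIntegrable f := locInt hf.per (sqp_int hf)

theorem sqp_loc2 {f : V d → ℝ} (hf : SqP f) : LocallyIntegrable fun x => f x ^ 2 :=
  locInt (fun x i => by show f _ ^ 2 = f _ ^ 2; rw [hf.per]) hf.sq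

theorem sqp_of_cont {f : V d → ℝ} (hf : Continuous f) (hp : Per f) : SqP f :=
  ⟨hf.measurable, hp, (hf.pow 2).continuousOn.integrableOn_compact isCompact_Icc⟩

theorem sqp_sub {f g : V d → ℝ} (hf : SqP f) (hg : SqP g) : SqP (fun x => f x - g x) := by
  refine ⟨hf.meas.sub hg.meas, fun x i => by show f _ - g _ = f _ - g _; rw [hf.per, hg.per], ?_⟩
  have h1 : MemLp f 2 (volume.restrict (cell d)) :=
    (memLp_two_iff_integrable_sq hf.meas.aestronglyMeasurable).2 hf.sq
  have h2 : MemLp g 2 (volume.restrict (cell d)) :=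
    (memLp_two_iff_integrable_sq hg.meas.aestronglyMeasurable).2 hg.sq
  have h3 := h1.sub h2
  exact (memLp_two_iff_integrable_sq h3.1).1 h3

/-- the mollifiers -/
def bump (d n : ℕ) : ContDiffBump (0 : V d) where
  rIn := 1 / (n + 2)
  rOut := 2 / (n + 2)
  rIn_pos := by positivity
  rIn_lt_rOut := by
    apply div_lt_div_of_pos_right (by norm_num) (by positivity)

/-- mollification -/
def mo (n : ℕ) (f : V d → ℝ) : V d → ℝ := cv ((bump d n).normed volume) f

theorem bump_smooth (n : ℕ) : ContDiff ℝ ∞ ((bump d n).normed volume) :=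
  (bump d n).contDiff_normed
theorem bump_supp (n : ℕ) : HasCompactSupport ((bump d n).normed volume) :=
  (bump d n).hasCompactSupport_normed
theorem bump_nn (n : ℕ) (t : V d) : 0 ≤ (bump d n).normed volume t := (bump d n).nonneg_normed t
theorem bump_int (n : ℕ) : ∫ t, (bump d n).normed volume t = 1 := (bump d n).integral_normed

theorem mo_smooth (n : ℕ) {f : V d → ℝ} (hf : SqP f) : ContDiff ℝ ∞ (mo n f) :=
  cv_smooth (bump_smooth n) (bump_supp n) (sqp_loc hf)

theorem mo_per (n : ℕ) {f : V d → ℝ} (hf : SqP f) : Per (mo n f) := cv_per hf.per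

theorem mo_sub (n : ℕ) {f g : V d → ℝ} (hf : SqP f) (hg : SqP g) (x : V d) :
    mo n (fun y => f y - g y) x = mo n f x - mo n g x := by
  unfold mo cv
  rw [← integral_sub (int_conv (bump_smooth n).continuous (bump_supp n) (sqp_loc hf) x)
    (int_conv (bump_smooth n).continuous (bump_supp n) (sqp_loc hg) x)]
  refine integral_congr_ae (Eventually.of_forall fun t => ?_)
  ring

theorem mo_sq_int (hS : StmtShift d) (n : ℕ) {f : V d → ℝ} (hf : SqP f) :
    ∫ x in cell d, (mo n f x) ^ 2 ≤ ∫ x in cell d, f x ^ 2 := by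
  have hρ := (bump_smooth (d := d) n).continuous
  rw [← cv_int hρ (bump_supp n) (bump_int n) hS (hf.meas.pow_const 2)
    (fun x i => by show f _ ^ 2 = f _ ^ 2; rw [hf.per]) hf.sq]
  refine integral_mono ?_ ?_ ?_
  · exact ((mo_smooth n hf).continuous.pow 2).continuousOn.integrableOn_compact isCompact_Icc
  · have : Continuous (cv ((bump d n).normed volume) fun x => f x ^ 2) :=
      (cv_smooth (bump_smooth n) (bump_supp n) (sqp_loc2 hf)).continuous
    exact this.continuousOn.integrableOn_compact isCompact_Icc
  · intro x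
    exact cv_sq_le hρ (bump_supp n) (bump_nn n) (bump_int n) (sqp_loc hf) (sqp_loc2 hf) x

theorem mo_unif {p : V d → ℝ} (hp : Continuous p) {η : ℝ} (hη : 0 < η) :
    ∀ᶠ n in atTop, ∀ x ∈ cell d, |mo n p x - p x| ≤ η := by
  have hK : IsCompact (Icc (-1 : V d) 2) := isCompact_Icc
  have hu := hK.uniformContinuousOn_of_continuous hp.continuousOn
  rw [Metric.uniformContinuousOn_iff] at hu
  obtain ⟨δ, hδ, hu⟩ := hu η hη
  have ht : Tendsto (fun n : ℕ => (2 : ℝ) / (n + 2)) atTop (𝓝 0) := by
    have h := (tendsto_const_div_atTop_nhds_zero_nat (2 : ℝ)).comp (tendsto_add_atTop_nat 2)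
    refine h.congr fun n => ?_
    simp
  filter_upwards [ht.eventually_lt_const hδ] with n hn x hx
  have hr : (bump d n).rOut = 2 / (n + 2) := rfl
  have h := ContDiffBump.dist_normed_convolution_le (φ := bump d n) (μ := volume) (g := p)
    (x₀ := x) (ε := η) hp.aestronglyMeasurable ?_
  · rw [Real.dist_eq] at h
    have e : ((bump d n).normed volume ⋆[ContinuousLinearMap.lsmul ℝ ℝ, volume] p) x = mo n p x := by
      unfold mo
      rw [cv_eq]; rfl
    rw [e] at h
    exact h
  · intro y hy
    rw [Metric.mem_ball, hr] at hy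
    have h1 : (2 : ℝ) / (n + 2) ≤ 1 := by
      rw [div_le_one (by positivity)]; linarith [(Nat.cast_nonneg n : (0 : ℝ) ≤ n)]
    have hyx : ∀ i, |y i - x i| < 1 := fun i => by
      have := (dist_pi_lt_iff (by norm_num : (0 : ℝ) < 1)).1 (lt_of_lt_of_le hy h1) i
      rwa [Real.dist_eq] at this
    have hx1 : ∀ i, 0 ≤ x i := fun i => hx.1 i
    have hx2 : ∀ i, x i ≤ 1 := fun i => hx.2 i
    refine (hu y ?_ x ?_ (hy.trans hn)).le
    · refine ⟨fun i => ?_, fun i => ?_⟩
      · show (-1 : ℝ) ≤ y i
        linarith [(abs_lt.1 (hyx i)).1, hx1 i]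
      · show y i ≤ (2 : ℝ)
        linarith [(abs_lt.1 (hyx i)).2, hx2 i]
    · refine ⟨fun i => ?_, fun i => ?_⟩
      · show (-1 : ℝ) ≤ x i
        linarith [hx1 i]
      · show x i ≤ (2 : ℝ)
        linarith [hx2 i]

theorem vol_cell : volume (cell d) = 1 := by
  unfold cell
  rw [Real.volume_Icc_pi]
  simp

theorem mo_tendsto (hS : StmtShift d) (hT : StmtTrunc d) {f : V d → ℝ} (hf : SqP f) :
    Tendsto (fun n => ∫ x in cell d, (mo n f x - f x) ^ 2) atTop (𝓝 0) := by
  rw [Metric.tendsto_atTop]
  intro η hη
  obtain ⟨N, hN⟩ := ((hT.2.2.2.2 f hf).eventually_lt_const (show (0 : ℝ) < η / 12 by positivity)).exists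
  set p := trunc N f with hp
  have hpc : Continuous p := (hT.1 N f hf).1.continuous
  have hps : SqP p := sqp_of_cont hpc (hT.1 N f hf).2
  set r : V d → ℝ := fun x => f x - p x with hr
  have hrs : SqP r := sqp_sub hf hps
  obtain ⟨n₀, hn₀⟩ := eventually_atTop.1 (mo_unif hpc (show (0 : ℝ) < Real.sqrt (η / 12) by positivity))
  refine ⟨n₀, fun n hn => ?_⟩
  have hb := hn₀ n hn
  have hmr := mo_sq_int hS n hrs
  have hmoc : ∀ {g : V d → ℝ}, SqP g → Continuous (mo n g) := fun hg => (mo_smooth n hg).continuous
  have hd : SqP (fun x => mo n f x - f x) := sqp_sub (sqp_of_cont (hmoc hf) (mo_per n hf)) hf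
  rw [Real.dist_eq, sub_zero, abs_of_nonneg (integral_nonneg fun x => sq_nonneg _)]
  have hfin : ∫ x in cell d, (mo n f x - f x) ^ 2 ≤
      ∫ x in cell d, (3 * (mo n r x) ^ 2 + 3 * (η / 12) + 3 * r x ^ 2) := by
    refine setIntegral_mono_on hd.sq ?_ measurableSet_Icc ?_
    · refine Integrable.add (Integrable.add ?_ ?_) (hrs.sq.const_mul 3)
      · exact ((((hmoc hrs).pow 2).continuousOn.integrableOn_compact isCompact_Icc).const_mul 3)
      · exact (continuous_const.continuousOn.integrableOn_compact isCompact_Icc)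
    · intro x hx
      have h1 := hb x hx
      have h2 : (mo n p x - p x) ^ 2 ≤ η / 12 := by
        rw [← Real.sq_sqrt (show (0 : ℝ) ≤ η / 12 by positivity)]
        exact sq_le_sq' (by linarith [(abs_le.1 h1).1]) (abs_le.1 h1).2
      have h3 : mo n f x - f x = mo n r x + (mo n p x - p x) - r x := by
        rw [hr, mo_sub n hf hps]; ring
      rw [h3]
      nlinarith [sq_nonneg (mo n r x - (mo n p x - p x)), sq_nonneg (mo n r x + r x),
        sq_nonneg ((mo n p x - p x) + r x)]
  have hval : ∫ x in cell d, (3 * (mo n r x) ^ 2 + 3 * (η / 12) + 3 * r x ^ 2) =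
      3 * (∫ x in cell d, (mo n r x) ^ 2) + 3 * (η / 12) + 3 * ∫ x in cell d, r x ^ 2 := by
    have i1 : IntegrableOn (fun x => 3 * (mo n r x) ^ 2) (cell d) :=
      (((hmoc hrs).pow 2).continuousOn.integrableOn_compact isCompact_Icc).const_mul 3
    have i2 : IntegrableOn (fun _ : V d => 3 * (η / 12)) (cell d) :=
      continuous_const.continuousOn.integrableOn_compact isCompact_Icc
    have i3 : IntegrableOn (fun x => 3 * r x ^ 2) (cell d) := hrs.sq.const_mul 3
    have i4 : IntegrableOn (fun x => 3 * (mo n r x) ^ 2 + 3 * (η / 12)) (cell d) := i1.add i2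
    have e5 : ∫ _x in cell d, 3 * (η / 12) = 3 * (η / 12) := by
      rw [setIntegral_const, Measure.real, vol_cell]
      simp
    rw [integral_add i4 i3, integral_add i1 i2, e5, integral_const_mul, integral_const_mul]
  rw [hval] at hfin
  have h4 : ∫ x in cell d, r x ^ 2 < η / 12 := hN
  linarith

end HOneAux

open HOneAux

variable {d : ℕ}

/-- a smooth displacement is an `H¹` displacement -/
def HOneAux.ofDisp (hE : BaseE d) (w : Disp d) : H1 d where
  u := w.u
  G := grad w.u
  u_sq := fun i => sqp_of_cont ((continuous_apply i).comp w.smooth.continuous)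
    (fun x j => by show w.u _ i = w.u _ i; rw [w.per])
  G_sq := fun i j => sqp_of_cont
    ((continuous_apply j).comp ((continuous_apply i).comp (hE.grad_cont w)))
    (fun x k => by show grad w.u _ i j = grad w.u _ i j; rw [hE.grad_per w])
  weak := by
    intro φ hφ hc i j
    have hwd : Differentiable ℝ w.u := w.smooth.differentiable (by simp)
    have hui : Differentiable ℝ (fun x => w.u x i) := fun x => (differentiable_pi.1 hwd) i x
    have hφd : Differentiable ℝ φ := hφ.differentiable (by simp)
    have hg : ∀ x, grad w.u x i j = fderiv ℝ (fun x => w.u x i) x (Pi.single j 1) := by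
      intro x
      unfold grad
      have := (hasFDerivAt_pi'.1 (hwd x).hasFDerivAt) i
      have h2 : fderiv ℝ (fun x => w.u x i) x = _ := this.fderiv
      rw [h2]
      rfl
    have c1 : Continuous (fun x => w.u x i) := hui.continuous
    have c2 : Continuous (fun x => grad w.u x i j) :=
      (continuous_apply j).comp ((continuous_apply i).comp (hE.grad_cont w))
    have c3 : Continuous (fun x => fderiv ℝ φ x (Pi.single j 1)) :=
      (hφ.continuous_fderiv (by simp)).clm_apply continuous_const
    have h := integral_mul_fderiv_eq_neg_fderiv_mul_of_integrable (μ := (volume : Measure (V d)))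
      (f := fun x => w.u x i) (g := φ) (v := Pi.single j 1) ?_ ?_ ?_ (fun x _ => hui x) (fun x _ => hφd x)
    · simp only [← hg] at h
      exact h
    · simp only [← hg]
      exact (c2.mul hφ.continuous).integrable_of_hasCompactSupport hc.mul_left
    · refine (c1.mul c3).integrable_of_hasCompactSupport (HasCompactSupport.mul_left ?_)
      exact (hc.fderiv_apply (𝕜 := ℝ) (Pi.single j 1))
    · exact (c1.mul hφ.continuous).integrable_of_hasCompactSupport hc.mul_left

theorem HOneAux.Q_add' (T : Tens d) (a b : M d) :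
    T.Q (a + b) = T.Q a + 2 * ip (T.C a) b + T.Q b := by
  have h : ip (T.C b) a = ip (T.C a) b := by rw [T.sa, ip_comm]
  unfold Tens.Q
  rw [map_add, ip_add_left, ip_add_right, ip_add_right, h]
  ring

theorem HOneAux.Q_tsub (T : Tens d) (t : ℝ) (a b : M d) :
    T.Q (t • a - b) = t ^ 2 * T.Q a - 2 * t * ip (T.C a) b + T.Q b := by
  have h : ip (T.C b) a = ip (T.C a) b := by rw [T.sa, ip_comm]
  unfold Tens.Q
  rw [map_sub, map_smul, ip_sub_left, ip_sub_right, ip_sub_right, ip_smul_left,
    ip_smul_right, ip_smul_left, ip_smul_right, h]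
  ring

theorem HOneAux.nsq_le_ip (A : M d) : nsq A ≤ ip A A := by
  rw [nsq_eq']
  have h := ip_self_nonneg (A - tp A)
  rw [ip_sub_left, ip_sub_right, ip_sub_right, ip_tp, ip_comm (tp A) A] at h
  linarith

/-- D13: the effective energy does not change if `H¹` displacements are allowed -/
theorem H1_ok (d : ℕ) (hE : BaseE d) (hS : StmtShift d) (hT : StmtTrunc d) : StmtH1 d := by
  intro D β hD ε
  have hpsd : ∀ x, (D x).PSD := fun x A => by
    have := hD.lo x A; simpa using this
  have hnn : ∀ u : H1 d, 0 ≤ ∫ x in cell d, (D x).Q (ε + symm (u.G x)) := fun u =>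
    integral_nonneg fun x => hpsd x _
  have hβ : ∀ A : M d, 0 ≤ β * nsq A := fun A => (hpsd 0 A).trans (hD.hi 0 A)
  have hbdd : BddBelow (range fun u : H1 d => ∫ x in cell d, (D x).Q (ε + symm (u.G x))) :=
    ⟨0, by rintro _ ⟨u, rfl⟩; exact hnn u⟩
  apply le_antisymm
  · apply hE.le_eff
    intro w
    exact ciInf_le hbdd (HOneAux.ofDisp hE w)
  · obtain ⟨w0, _⟩ := hE.zero
    have : Nonempty (H1 d) := ⟨HOneAux.ofDisp hE w0⟩
    refine le_ciInf fun u => ?_
    -- integrability
    have hGm : Measurable u.G := measurable_pi_lambda _ fun i => measurable_pi_lambda _ fun j =>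
      (u.G_sq i j).meas
    have hsymm : Measurable (symm : M d → M d) := by
      refine measurable_pi_lambda _ fun i => measurable_pi_lambda _ fun j => ?_
      have a1 : Measurable fun A : M d => A i j := (measurable_pi_apply j).comp (measurable_pi_apply i)
      have a2 : Measurable fun A : M d => A j i := (measurable_pi_apply i).comp (measurable_pi_apply j)
      exact (a1.add a2).div_const 2
    have hipm : ∀ G : V d → M d, Measurable G → Measurable fun x => ip (G x) (G x) := by
      intro G hG
      unfold ip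
      refine Finset.measurable_sum _ fun i _ => Finset.measurable_sum _ fun j _ => ?_
      have : Measurable fun x => G x i j := (measurable_pi_apply j).comp ((measurable_pi_apply i).comp hG)
      exact this.mul this
    have hsum : ∀ G : V d → M d, (∀ i j, SqP fun x => G x i j) →
        IntegrableOn (fun x => ip (G x) (G x)) (cell d) := by
      intro G hG
      have e : (fun x => ip (G x) (G x)) = fun x => ∑ i, ∑ j, (G x i j) ^ 2 := by
        ext x; rw [ip_self_eq]
      rw [e]
      exact integrable_finsetSum _ fun i _ => integrable_finsetSum _ fun j _ => (hG i j).sq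
    have hmG : ∀ G : V d → M d, (∀ i j, SqP fun x => G x i j) → Measurable G := fun G hG =>
      measurable_pi_lambda _ fun i => measurable_pi_lambda _ fun j => (hG i j).meas
    have hnsq : ∀ G : V d → M d, (∀ i j, SqP fun x => G x i j) →
        IntegrableOn (fun x => nsq (G x)) (cell d) := by
      intro G hG
      refine (hsum G hG).mono' ?_ (Eventually.of_forall fun x => ?_)
      · exact (hipm _ (hsymm.comp (hmG G hG))).aestronglyMeasurable
      · rw [Real.norm_of_nonneg (nsq_nonneg _)]; exact HOneAux.nsq_le_ip _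
    have hQi : ∀ G : V d → M d, (∀ i j, SqP fun x => G x i j) →
        IntegrableOn (fun x => (D x).Q (G x)) (cell d) := fun G hG =>
      hE.int2 D β hD G G (hmG G hG) (hmG G hG) (hnsq G hG) (hnsq G hG)
    -- the mollified displacement
    have key : ∀ n : ℕ, ∃ w : Disp d, ∀ x i j, grad w.u x i j = mo n (fun y => u.G y i j) x := by
      intro n
      refine ⟨⟨fun x i => mo n (fun y => u.u y i) x, ?_, ?_⟩, ?_⟩
      · exact contDiff_pi.2 fun i => mo_smooth n (u.u_sq i)
      · intro x j
        ext i
        exact mo_per n (u.u_sq i) x j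
      · intro x i j
        show fderiv ℝ (fun x i => mo n (fun y => u.u y i) x) x (Pi.single j 1) i = _
        have hd : ∀ i, DifferentiableAt ℝ (fun x => mo n (fun y => u.u y i) x) x := fun i =>
          ((mo_smooth n (u.u_sq i)).differentiable (by simp)).differentiableAt
        rw [fderiv_pi hd]
        show fderiv ℝ (mo n (fun y => u.u y i)) x (Pi.single j 1) = _
        exact cv_weak (bump_smooth n) (bump_supp n) (sqp_loc (u.u_sq i)) _
          (fun φ h1 h2 => u.weak φ h1 h2 i j) x
    choose w hw using key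
    -- the error
    let err : ℕ → ℝ := fun n => ∑ i, ∑ j, ∫ x in cell d, (mo n (fun y => u.G y i j) x - u.G x i j) ^ 2
    have herr : Tendsto err atTop (𝓝 0) := by
      have h : Tendsto err atTop (𝓝 (∑ _i : Fin d, ∑ _j : Fin d, (0 : ℝ))) :=
        tendsto_finsetSum _ fun i _ => tendsto_finsetSum _ fun j _ => mo_tendsto hS hT (u.G_sq i j)
      simpa using h
    set E := ∫ x in cell d, (D x).Q (ε + symm (u.G x)) with hEdef
    have hsqc : ∀ G : V d → M d, (∀ i j, SqP fun x => G x i j) →
        ∀ i j, SqP fun x => (ε + symm (G x)) i j := by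
      intro G hG i j
      have h1 : SqP (fun x => (- ε i j) - (G x i j) / 2) := by
        refine sqp_sub (sqp_of_cont continuous_const (fun _ _ => rfl)) ?_
        refine ⟨(hG i j).meas.div_const 2, fun x k => ?_, ?_⟩
        · exact congrArg (fun y => y / 2) ((hG i j).per x k)
        · have := (hG i j).sq.div_const 4
          refine this.congr (Eventually.of_forall fun x => ?_)
          simp only
          ring
      have h2 : SqP (fun x => G x j i / 2) := by
        refine ⟨(hG j i).meas.div_const 2, fun x k => ?_, ?_⟩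
        · exact congrArg (fun y => y / 2) ((hG j i).per x k)
        · have := (hG j i).sq.div_const 4
          refine this.congr (Eventually.of_forall fun x => ?_)
          simp only
          ring
      have h3 := sqp_sub h2 h1
      have e : (fun x => (ε + symm (G x)) i j) = fun x => G x j i / 2 - ((- ε i j) - (G x i j) / 2) := by
        ext x
        show ε i j + (G x i j + G x j i) / 2 = _
        ring
      rw [e]
      exact h3
    have hgw : ∀ n i j, SqP fun x => grad (w n).u x i j := fun n i j =>
      sqp_of_cont ((continuous_apply j).comp ((continuous_apply i).comp (hE.grad_cont (w n))))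
        (fun x k => by show grad (w n).u _ i j = grad (w n).u _ i j; rw [hE.grad_per (w n)])
    have hdiff : ∀ n i j, SqP fun x => (grad (w n).u x - u.G x) i j := fun n i j =>
      sqp_sub (hgw n i j) (u.G_sq i j)
    have hmain : ∀ t : ℝ, 0 < t → ∀ n, eff D ε ≤ (1 + t) * E + (1 + 1 / t) * (|β| * err n) := by
      intro t ht n
      refine (hE.eff_le D β hD ε (w n)).trans ?_
      have hpt : ∀ x, (D x).Q (ε + sg (w n).u x) ≤ (1 + t) * (D x).Q (ε + symm (u.G x)) +
          (1 + 1 / t) * (|β| * ip (grad (w n).u x - u.G x) (grad (w n).u x - u.G x)) := by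
        intro x
        set a := ε + symm (u.G x) with ha
        set b := symm (grad (w n).u x - u.G x) with hb
        have e1 : ε + sg (w n).u x = a + b := by
          rw [ha, hb, symm_sub]
          show ε + symm (grad (w n).u x) = _
          abel
        rw [e1]
        have h2 : (D x).Q (a + b) ≤ (1 + t) * (D x).Q a + (1 + 1 / t) * (D x).Q b := by
          have hQ := hpsd x (t • a - b)
          have e2 := HOneAux.Q_tsub (D x) t a b
          have e3 := HOneAux.Q_add' (D x) a b
          rw [e3]
          rw [e2] at hQ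
          have h3 : 2 * ip ((D x).C a) b ≤ t * (D x).Q a + 1 / t * (D x).Q b := by
            have : 0 ≤ (t ^ 2 * (D x).Q a - 2 * t * ip ((D x).C a) b + (D x).Q b) / t :=
              div_nonneg hQ ht.le
            have e4 : (t ^ 2 * (D x).Q a - 2 * t * ip ((D x).C a) b + (D x).Q b) / t =
                t * (D x).Q a - 2 * ip ((D x).C a) b + 1 / t * (D x).Q b := by
              field_simp
            rw [e4] at this
            linarith
          linarith
        refine h2.trans ?_
        have h4 : (D x).Q b ≤ |β| * ip (grad (w n).u x - u.G x) (grad (w n).u x - u.G x) := by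
          calc (D x).Q b ≤ β * nsq b := hD.hi x b
            _ ≤ |β| * nsq b := mul_le_mul_of_nonneg_right (le_abs_self _) (nsq_nonneg _)
            _ ≤ _ := by
              refine mul_le_mul_of_nonneg_left ?_ (abs_nonneg _)
              rw [hb, nsq_symm]
              exact HOneAux.nsq_le_ip _
        have h5 : 0 ≤ 1 + 1 / t := by positivity
        have := mul_le_mul_of_nonneg_left h4 h5
        linarith
      have hi1 : IntegrableOn (fun x => (D x).Q (ε + symm (u.G x))) (cell d) :=
        hQi _ (hsqc _ u.G_sq)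
      have hi2 := hsum _ (hdiff n)
      have hint : ∫ x in cell d, ip (grad (w n).u x - u.G x) (grad (w n).u x - u.G x) = err n := by
        have e : (fun x => ip (grad (w n).u x - u.G x) (grad (w n).u x - u.G x)) =
            fun x => ∑ i, ∑ j, (mo n (fun y => u.G y i j) x - u.G x i j) ^ 2 := by
          ext x
          rw [ip_self_eq]
          refine Finset.sum_congr rfl fun i _ => Finset.sum_congr rfl fun j _ => ?_
          show (grad (w n).u x i j - u.G x i j) ^ 2 = _
          rw [hw]
        have e' : ∀ i j, (fun x => (mo n (fun y => u.G y i j) x - u.G x i j) ^ 2) =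
            fun x => ((grad (w n).u x - u.G x) i j) ^ 2 := by
          intro i j; ext x
          show _ = (grad (w n).u x i j - u.G x i j) ^ 2
          rw [hw]
        rw [e, integral_finsetSum _ fun i _ => integrable_finsetSum _ fun j _ => by
          rw [e']; exact (hdiff n i j).sq]
        refine Finset.sum_congr rfl fun i _ => ?_
        rw [integral_finsetSum _ fun j _ => by rw [e']; exact (hdiff n i j).sq]
      calc energy D ε (w n) = ∫ x in cell d, (D x).Q (ε + sg (w n).u x) := rfl
        _ ≤ ∫ x in cell d, ((1 + t) * (D x).Q (ε + symm (u.G x)) +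
          (1 + 1 / t) * (|β| * ip (grad (w n).u x - u.G x) (grad (w n).u x - u.G x))) := by
            refine integral_mono (hE.int D β hD ε (w n)) ?_ hpt
            exact (hi1.const_mul _).add ((hi2.const_mul _).const_mul _)
        _ = (1 + t) * E + (1 + 1 / t) * (|β| * err n) := by
            rw [integral_add (hi1.const_mul _) ((hi2.const_mul _).const_mul _), integral_const_mul,
              integral_const_mul, integral_const_mul, hint]
    have h1 : ∀ t : ℝ, 0 < t → eff D ε ≤ (1 + t) * E := by
      intro t ht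
      have hlim : Tendsto (fun n => (1 + t) * E + (1 + 1 / t) * (|β| * err n)) atTop
          (𝓝 ((1 + t) * E + (1 + 1 / t) * (|β| * 0))) :=
        tendsto_const_nhds.add ((herr.const_mul _).const_mul _)
      have := ge_of_tendsto' hlim (hmain t ht)
      simpa using this
    have hlim : Tendsto (fun t : ℝ => (1 + t) * E) (𝓝[>] 0) (𝓝 ((1 + 0) * E)) := by
      apply Tendsto.mono_left _ nhdsWithin_le_nhds
      exact (tendsto_const_nhds.add tendsto_id).mul_const _
    have h2 := ge_of_tendsto hlim (eventually_nhdsWithin_of_forall fun t ht => h1 t ht)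
    simpa using h2

end Pool.Agent.Lib.MP_5df1bf_an
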