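import Pool.Agent.Lib.MP_5df1bf_an.Stmts1

/-!
# MP_5df1bf_an, A4: Korn's inequality on the torus
-/

open MeasureTheory Filter Topology
open scoped BigOperators ContDiff

noncomputable section

namespace Pool.Agent.Lib.MP_5df1bf_an

variable {d : ℕ}

namespace Korn

/-- partial derivative -/
def pd (f : V d → ℝ) (j : Fin d) (x : V d) : ℝ := fderiv ℝ f x (Pi.single j 1)

theorem pd_smooth {f : V d → ℝ} (hf : ContDiff ℝ ∞ f) (j : Fin d) : ContDiff ℝ ∞ (pd f j) := by
  unfold pd
  have h : ContDiff ℝ ∞ (fderiv ℝ f) := hf.fderiv_right (m := ∞) (by simp)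
  exact h.clm_apply contDiff_const

theorem pd_per {f : V d → ℝ} (hf : Per f) (j : Fin d) : Per (pd f j) := by
  intro x i
  unfold pd
  have h : (fun y => f (y + Pi.single i 1)) = f := by
    funext y
    exact hf y i
  rw [← fderiv_comp_add_right, h]

theorem pd_mul {f g : V d → ℝ} (hf : ContDiff ℝ ∞ f) (hg : ContDiff ℝ ∞ g) (j : Fin d) (x : V d) :
    pd (fun y => f y * g y) j x = pd f j x * g x + f x * pd g j x := by
  unfold pd
  have h1 : DifferentiableAt ℝ f x := (hf.differentiable (by simp)) x
  have h2 : DifferentiableAt ℝ g x := (hg.differentiable (by simp)) x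
  rw [fderiv_fun_mul h1 h2]
  show f x * fderiv ℝ g x _ + g x * fderiv ℝ f x _ = _
  ring

theorem pd_comm {f : V d → ℝ} (hf : ContDiff ℝ ∞ f) (i j : Fin d) (x : V d) :
    pd (pd f i) j x = pd (pd f j) i x := by
  have hdf : DifferentiableAt ℝ (fderiv ℝ f) x :=
    ((hf.fderiv_right (m := ∞) (by simp)).differentiable (by simp)) x
  have key : ∀ v w : V d, fderiv ℝ (fun y => fderiv ℝ f y v) x w = fderiv ℝ (fderiv ℝ f) x w v := by
    intro v w
    have h := (hdf.hasFDerivAt).clm_apply (hasFDerivAt_const v x)
    rw [h.fderiv]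
    simp
  have hs : IsSymmSndFDerivAt ℝ f x := (hf.contDiffAt).isSymmSndFDerivAt (by
    simp only [minSmoothness_of_isRCLikeNormedField]
    exact WithTop.coe_le_coe.mpr (le_top : (2 : ℕ∞) ≤ ⊤))
  show fderiv ℝ (fun y => fderiv ℝ f y (Pi.single i 1)) x (Pi.single j 1) =
    fderiv ℝ (fun y => fderiv ℝ f y (Pi.single j 1)) x (Pi.single i 1)
  rw [key, key]
  exact hs _ _

theorem intg {f : V d → ℝ} (hf : Continuous f) : IntegrableOn f (cell d) :=
  hf.continuousOn.integrableOn_compact isCompact_Icc

end Korn

open Korn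

theorem Korn_ok (d : ℕ) (hP : StmtParts d) : StmtKorn d := by
  intro u
  set f : Fin d → V d → ℝ := fun i x => u.u x i with hf
  have hfs : ∀ i, ContDiff ℝ ∞ (f i) := fun i => (contDiff_pi.mp u.smooth) i
  have hfp : ∀ i, Per (f i) := fun i x k => by
    simp only [hf]
    rw [u.per x k]
  have hgrad : ∀ x i j, grad u.u x i j = pd (f i) j x := by
    intro x i j
    have h1 : DifferentiableAt ℝ u.u x := (u.smooth.differentiable (by simp)) x
    have h2 := (hasFDerivAt_pi'.mp h1.hasFDerivAt) i
    unfold grad pd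
    rw [h2.fderiv]
    simp
  have hpc : ∀ i j, Continuous (pd (f i) j) := fun i j => (pd_smooth (hfs i) j).continuous
  have hswap : ∀ i j, ∫ x in cell d, pd (f i) j x * pd (f j) i x =
      ∫ x in cell d, pd (f i) i x * pd (f j) j x := by
    intro i j
    have hA := hP (fun x => f i x * pd (f j) i x)
      (((hfs i).mul (pd_smooth (hfs j) i)).of_le (by simp))
      (fun x k => by
        show f i (x + _) * pd (f j) i (x + _) = _
        rw [hfp i x k, pd_per (hfp j) i x k]) j
    have hB := hP (fun x => f i x * pd (f j) j x)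
      (((hfs i).mul (pd_smooth (hfs j) j)).of_le (by simp))
      (fun x k => by
        show f i (x + _) * pd (f j) j (x + _) = _
        rw [hfp i x k, pd_per (hfp j) j x k]) i
    have hA' : ∫ x in cell d, (pd (f i) j x * pd (f j) i x + f i x * pd (pd (f j) i) j x) = 0 := by
      rw [← hA]
      congr 1
      funext x
      exact (pd_mul (hfs i) (pd_smooth (hfs j) i) j x).symm
    have hB' : ∫ x in cell d, (pd (f i) i x * pd (f j) j x + f i x * pd (pd (f j) i) j x) = 0 := by
      rw [← hB]
      congr 1
      funext x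
      rw [pd_comm (hfs j) i j x]
      exact (pd_mul (hfs i) (pd_smooth (hfs j) j) i x).symm
    have i1 : IntegrableOn (fun x => pd (f i) j x * pd (f j) i x) (cell d) :=
      intg ((hpc i j).mul (hpc j i))
    have i2 : IntegrableOn (fun x => pd (f i) i x * pd (f j) j x) (cell d) :=
      intg ((hpc i i).mul (hpc j j))
    have i3 : IntegrableOn (fun x => f i x * pd (pd (f j) i) j x) (cell d) :=
      intg ((hfs i).continuous.mul (pd_smooth (pd_smooth (hfs j) i) j).continuous)
    rw [integral_add i1 i3] at hA'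
    rw [integral_add i2 i3] at hB'
    linarith
  have ii : ∀ i j k l, IntegrableOn (fun x => pd (f i) j x * pd (f k) l x) (cell d) :=
    fun i j k l => intg ((hpc i j).mul (hpc k l))
  have hdiv : 0 ≤ ∫ x in cell d, ip (grad u.u x) (tp (grad u.u x)) := by
    have e1 : ∀ x, ip (grad u.u x) (tp (grad u.u x)) =
        ∑ i, ∑ j, pd (f i) j x * pd (f j) i x := by
      intro x
      unfold ip tp
      simp only [hgrad]
    simp only [e1]
    rw [integral_finsetSum _ (fun i _ => by
      exact integrable_finsetSum _ (fun j _ => ii i j j i))]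
    have e2 : ∀ i, ∫ x in cell d, ∑ j, pd (f i) j x * pd (f j) i x =
        ∫ x in cell d, ∑ j, pd (f i) i x * pd (f j) j x := by
      intro i
      rw [integral_finsetSum _ (fun j _ => ii i j j i), integral_finsetSum _ (fun j _ => ii i i j j)]
      exact Finset.sum_congr rfl fun j _ => hswap i j
    simp only [e2]
    rw [← integral_finsetSum _ (fun i _ => by
      exact integrable_finsetSum _ (fun j _ => ii i i j j))]
    apply integral_nonneg
    intro x
    have e3 : ∑ i, ∑ j, pd (f i) i x * pd (f j) j x = (∑ i, pd (f i) i x) * ∑ j, pd (f j) j x := by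
      rw [Finset.sum_mul_sum]
    show 0 ≤ ∑ i, ∑ j, pd (f i) i x * pd (f j) j x
    rw [e3]
    exact mul_self_nonneg _
  have hc : Continuous (grad u.u) := by
    refine continuous_pi fun i => continuous_pi fun j => ?_
    simp only [hgrad]
    exact hpc i j
  have hc1 : Continuous fun x => ip (grad u.u x) (grad u.u x) := by
    unfold ip
    fun_prop
  have hc2 : Continuous fun x => ip (grad u.u x) (tp (grad u.u x)) := by
    unfold ip tp
    fun_prop
  have e4 : ∫ x in cell d, nsq (grad u.u x) =
      ((∫ x in cell d, ip (grad u.u x) (grad u.u x)) +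
        ∫ x in cell d, ip (grad u.u x) (tp (grad u.u x))) / 2 := by
    simp only [nsq_eq']
    rw [integral_div, integral_add (intg hc1) (intg hc2)]
  rw [e4]
  linarith

end Pool.Agent.Lib.MP_5df1bf_an
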