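import Pool.Agent.Lib.MP_5df1bf_an.Stmts1

/-!
# MP_5df1bf_an: A7, optimal fields of a uniformly elliptic field

Square integrable periodic fields (`SqP`, `SqM`), completeness, the bilinear form `bil` and the
Hilbert space argument.
-/

open MeasureTheory Filter Topology
open scoped BigOperators ContDiff

noncomputable section

namespace Pool.Agent.Lib.MP_5df1bf_an

variable {d : ℕ}

namespace OptAux

/-! ### square integrable periodic scalar fields -/

theorem finite_cell (hE : BaseE d) : IsFiniteMeasure (volume.restrict (cell d)) :=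
  ⟨by simp [hE.vol]⟩

theorem sqP_memLp {f : V d → ℝ} (hf : SqP f) : MemLp f 2 (volume.restrict (cell d)) :=
  (memLp_two_iff_integrable_sq hf.meas.aestronglyMeasurable).2 hf.sq

theorem sqP_of {f : V d → ℝ} (h1 : Measurable f) (h2 : Per f)
    (h3 : MemLp f 2 (volume.restrict (cell d))) : SqP f :=
  ⟨h1, h2, (memLp_two_iff_integrable_sq h1.aestronglyMeasurable).1 h3⟩

theorem per_const {α : Type*} (c : α) : Per (fun _ : V d => c) := fun _ _ => rfl

theorem sqP_add {f g : V d → ℝ} (hf : SqP f) (hg : SqP g) : SqP (fun x => f x + g x) :=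
  sqP_of (hf.meas.add hg.meas) (fun x i => by simp only [hf.per x i, hg.per x i])
    ((sqP_memLp hf).add (sqP_memLp hg))

theorem sqP_smul {f : V d → ℝ} (c : ℝ) (hf : SqP f) : SqP (fun x => c * f x) :=
  sqP_of (hf.meas.const_mul c) (fun x i => by simp only [hf.per x i])
    ((sqP_memLp hf).const_mul c)

theorem sqP_const (hE : BaseE d) (c : ℝ) : SqP (fun _ : V d => c) := by
  have := finite_cell hE
  exact sqP_of measurable_const (per_const c) (memLp_const c)

theorem sqP_sub {f g : V d → ℝ} (hf : SqP f) (hg : SqP g) : SqP (fun x => f x - g x) :=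
  sqP_of (hf.meas.sub hg.meas) (fun x i => by simp only [hf.per x i, hg.per x i])
    ((sqP_memLp hf).sub (sqP_memLp hg))

/-- bounded measurable periodic functions -/
theorem sqP_bdd (hE : BaseE d) {f : V d → ℝ} (h1 : Measurable f) (h2 : Per f) (K : ℝ)
    (h3 : ∀ x, |f x| ≤ K) : SqP f := by
  have := finite_cell hE
  exact sqP_of h1 h2 (MemLp.of_bound h1.aestronglyMeasurable K (Eventually.of_forall h3))

theorem sqP_mul_int {f g : V d → ℝ} (hf : SqP f) (hg : SqP g) :
    IntegrableOn (fun x => f x * g x) (cell d) :=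
  (sqP_memLp hf).integrable_mul (sqP_memLp hg)

theorem sqP_int (hE : BaseE d) {f : V d → ℝ} (hf : SqP f) : IntegrableOn f (cell d) := by
  have := finite_cell hE
  exact (sqP_memLp hf).integrable (by norm_num)

/-! ### periodic extension and completeness -/

/-- periodic extension -/
def pext (f : V d → ℝ) : V d → ℝ := fun x => f fun i => Int.fract (x i)

theorem pext_meas {f : V d → ℝ} (hf : Measurable f) : Measurable (pext f) :=
  hf.comp (measurable_pi_lambda _ fun i => measurable_fract.comp (measurable_pi_apply i))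

theorem pext_per (f : V d → ℝ) : Per (pext f) := by
  intro x i
  simp only [pext]
  congr 1
  funext j
  by_cases h : j = i
  · subst h; simp
  · simp [h]

theorem pext_ae (f : V d → ℝ) : pext f =ᵐ[volume.restrict (cell d)] f := by
  have h1 : (Set.pi Set.univ fun i : Fin d => Set.Ico ((0 : V d) i) ((1 : V d) i))
      =ᵐ[volume] cell d := by
    have := MeasureTheory.Measure.univ_pi_Ico_ae_eq_Icc
      (μ := fun _ : Fin d => (volume : Measure ℝ)) (f := (0 : V d)) (g := 1)
    exact this
  rw [← Measure.restrict_congr_set h1]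
  have hm : MeasurableSet (Set.pi Set.univ fun i : Fin d => Set.Ico ((0 : V d) i) ((1 : V d) i)) :=
    MeasurableSet.univ_pi fun i => measurableSet_Ico
  refine ae_restrict_of_forall_mem hm fun x hx => ?_
  simp only [pext]
  congr 1
  funext i
  have := hx i (Set.mem_univ i)
  exact Int.fract_eq_self.mpr ⟨this.1, this.2⟩

theorem norm_sq_toLp {f : V d → ℝ} (hf : MemLp f 2 (volume.restrict (cell d))) :
    ‖hf.toLp f‖ ^ 2 = ∫ x in cell d, f x ^ 2 := by
  rw [← real_inner_self_eq_norm_sq, L2.inner_def]
  refine integral_congr_ae ?_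
  filter_upwards [hf.coeFn_toLp] with x hx
  simp [hx]

theorem complete (f : ℕ → V d → ℝ) (hf : ∀ n, SqP (f n))
    (hc : ∀ η > 0, ∃ N, ∀ m ≥ N, ∀ n ≥ N, ∫ x in cell d, (f m x - f n x) ^ 2 < η) :
    ∃ g : V d → ℝ, SqP g ∧ Tendsto (fun n => ∫ x in cell d, (g x - f n x) ^ 2) atTop (𝓝 0) := by
  have hL : ∀ n, MemLp (f n) 2 (volume.restrict (cell d)) := fun n => sqP_memLp (hf n)
  set F : ℕ → Lp ℝ 2 (volume.restrict (cell d)) := fun n => (hL n).toLp (f n) with hF
  have hcau : CauchySeq F := by
    rw [Metric.cauchySeq_iff]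
    intro η hη
    obtain ⟨N, hN⟩ := hc (η ^ 2) (by positivity)
    refine ⟨N, fun m hm n hn => ?_⟩
    have h1 := hN m hm n hn
    rw [dist_eq_norm]
    have h2 : ‖F m - F n‖ ^ 2 = ∫ x in cell d, (f m x - f n x) ^ 2 := by
      simp only [hF]
      rw [← MemLp.toLp_sub, norm_sq_toLp]
      rfl
    rw [← h2] at h1
    exact lt_of_pow_lt_pow_left₀ 2 hη.le h1
  obtain ⟨g, hg⟩ := cauchySeq_tendsto_of_complete hcau
  have hgm : Measurable (g : V d → ℝ) := (Lp.stronglyMeasurable g).measurable
  have hge := pext_ae (g : V d → ℝ)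
  have hgL : MemLp (pext (g : V d → ℝ)) 2 (volume.restrict (cell d)) :=
    (memLp_congr_ae hge).2 (Lp.memLp g)
  refine ⟨pext g, sqP_of (pext_meas hgm) (pext_per _) hgL, ?_⟩
  have h1 : ∀ n, ∫ x in cell d, (pext g x - f n x) ^ 2 = ‖g - F n‖ ^ 2 := by
    intro n
    have e : g = hgL.toLp (pext g) := by
      apply Lp.ext
      refine EventuallyEq.trans ?_ hgL.coeFn_toLp.symm
      exact hge.symm
    have : g - F n = (hgL.sub (hL n)).toLp (pext g - f n) := by
      rw [MemLp.toLp_sub hgL (hL n)]
      exact congrArg (· - F n) e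
    rw [this, norm_sq_toLp]
    rfl
  simp only [h1]
  have h2 : Tendsto (fun n => ‖g - F n‖) atTop (𝓝 0) := by
    have := (tendsto_const_nhds (x := g)).sub hg
    have := this.norm
    simpa using this
  have := h2.pow 2
  simpa using this

/-! ### square integrable periodic matrix fields -/

theorem sqM_meas {G : V d → M d} (hG : SqM G) : Measurable G :=
  measurable_pi_lambda _ fun i => measurable_pi_lambda _ fun j => (hG i j).meas

theorem sqM_per {G : V d → M d} (hG : SqM G) : Per G := by
  intro x k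
  funext i j
  exact (hG i j).per x k

theorem sqM_add {G H : V d → M d} (hG : SqM G) (hH : SqM H) : SqM (fun x => G x + H x) :=
  fun i j => sqP_add (hG i j) (hH i j)

theorem sqM_sub {G H : V d → M d} (hG : SqM G) (hH : SqM H) : SqM (fun x => G x - H x) :=
  fun i j => sqP_sub (hG i j) (hH i j)

theorem sqM_smul {G : V d → M d} (c : ℝ) (hG : SqM G) : SqM (fun x => c • G x) :=
  fun i j => sqP_smul c (hG i j)

theorem sqM_const (hE : BaseE d) (ε : M d) : SqM (fun _ : V d => ε) :=
  fun i j => sqP_const hE (ε i j)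

theorem sqM_sum (hE : BaseE d) {ι : Type*} (s : Finset ι) (G : ι → V d → M d)
    (hG : ∀ i, SqM (G i)) : SqM (fun x => ∑ i ∈ s, G i x) := by
  classical
  induction s using Finset.induction_on with
  | empty => simpa using sqM_const hE 0
  | insert a s ha ih =>
    simp only [Finset.sum_insert ha]
    exact sqM_add (hG a) ih

theorem sqM_symm {G : V d → M d} (hG : SqM G) : SqM (fun x => symm (G x)) := by
  intro i j
  have h : (fun x => symm (G x) i j) = fun x => (1 / 2 : ℝ) * (G x i j + G x j i) := by
    funext x; simp only [symm]; ring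
  rw [h]
  exact sqP_smul _ (sqP_add (hG i j) (hG j i))

theorem sqM_ip_int {G H : V d → M d} (hG : SqM G) (hH : SqM H) :
    IntegrableOn (fun x => ip (G x) (H x)) (cell d) := by
  unfold ip
  refine integrable_finsetSum _ fun i _ => integrable_finsetSum _ fun j _ => ?_
  exact sqP_mul_int (hG i j) (hH i j)

theorem sqM_nsq_int {G : V d → M d} (hG : SqM G) : IntegrableOn (fun x => nsq (G x)) (cell d) :=
  sqM_ip_int (sqM_symm hG) (sqM_symm hG)

theorem sqM_grad (hE : BaseE d) (u : Disp d) : SqM (grad u.u) := by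
  intro i j
  obtain ⟨K, hK⟩ := hE.grad_bdd u
  have hc := hE.grad_cont u
  have hc' : Continuous fun x => grad u.u x i j :=
    (continuous_apply j).comp ((continuous_apply i).comp hc)
  refine sqP_bdd hE hc'.measurable (fun x k => ?_) (Real.sqrt K) (fun x => ?_)
  · show grad u.u (x + Pi.single k 1) i j = grad u.u x i j
    rw [hE.grad_per u x k]
  · rw [← Real.sqrt_sq_eq_abs]
    exact Real.sqrt_le_sqrt ((entry_sq_le _ i j).trans (hK x))

theorem sqM_sg (hE : BaseE d) (u : Disp d) : SqM (sg u.u) := sqM_symm (sqM_grad hE u)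

/-! ### the bilinear form of a field -/

/-- `∫ (D G) : H` -/
def bil (D : V d → Tens d) (G H : V d → M d) : ℝ := ∫ x in cell d, ip ((D x).C (G x)) (H x)

theorem fld0 {D : V d → Tens d} {α β : ℝ} (hα : 0 ≤ α) (hD : IsFld D α β) : IsFld D 0 β :=
  ⟨hD.meas, hD.per, fun x A => (by
    rw [zero_mul]
    exact (mul_nonneg hα (nsq_nonneg A)).trans (hD.lo x A)), hD.hi⟩

section bil

variable (hE : BaseE d) {D : V d → Tens d} {β : ℝ} (hD : IsFld D 0 β)

include hD in
theorem psd (x : V d) : (D x).PSD := by
  intro A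
  have := hD.lo x A
  rwa [zero_mul] at this

include hE hD

theorem bil_int {G H : V d → M d} (hG : SqM G) (hH : SqM H) :
    IntegrableOn (fun x => ip ((D x).C (G x)) (H x)) (cell d) :=
  hE.int2 D β hD G H (sqM_meas hG) (sqM_meas hH) (sqM_nsq_int hG) (sqM_nsq_int hH)

theorem bil_add_left {G G' H : V d → M d} (hG : SqM G) (hG' : SqM G') (hH : SqM H) :
    bil D (fun x => G x + G' x) H = bil D G H + bil D G' H := by
  unfold bil
  rw [← integral_add (bil_int hE hD hG hH) (bil_int hE hD hG' hH)]
  refine integral_congr_ae (Eventually.of_forall fun x => ?_)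
  simp only [map_add, ip_add_left]

theorem bil_add_right {G H H' : V d → M d} (hG : SqM G) (hH : SqM H) (hH' : SqM H') :
    bil D G (fun x => H x + H' x) = bil D G H + bil D G H' := by
  unfold bil
  rw [← integral_add (bil_int hE hD hG hH) (bil_int hE hD hG hH')]
  refine integral_congr_ae (Eventually.of_forall fun x => ?_)
  simp only [ip_add_right]

theorem bil_sub_right {G H H' : V d → M d} (hG : SqM G) (hH : SqM H) (hH' : SqM H') :
    bil D G (fun x => H x - H' x) = bil D G H - bil D G H' := by
  unfold bil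
  rw [← integral_sub (bil_int hE hD hG hH) (bil_int hE hD hG hH')]
  refine integral_congr_ae (Eventually.of_forall fun x => ?_)
  simp only [ip_sub_right]

omit hE in
theorem bil_nonneg (G : V d → M d) : 0 ≤ bil D G G :=
  integral_nonneg fun x => psd hD x (G x)

theorem bil_le {G : V d → M d} (hG : SqM G) :
    bil D G G ≤ β * ∫ x in cell d, nsq (G x) := by
  unfold bil
  rw [← integral_const_mul]
  refine integral_mono (bil_int hE hD hG hG) ((sqM_nsq_int hG).const_mul β) fun x => ?_
  exact hD.hi x (G x)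

end bil

theorem bil_comm (D : V d → Tens d) (G H : V d → M d) : bil D G H = bil D H G :=
  integral_congr_ae (Eventually.of_forall fun x => (D x).ip_comm_C _ _)

theorem bil_smul_left (D : V d → Tens d) (c : ℝ) (G H : V d → M d) :
    bil D (fun x => c • G x) H = c * bil D G H := by
  unfold bil
  rw [← integral_const_mul]
  refine integral_congr_ae (Eventually.of_forall fun x => ?_)
  simp only [map_smul, ip_smul_left]

theorem bil_smul_right (D : V d → Tens d) (c : ℝ) (G H : V d → M d) :
    bil D G (fun x => c • H x) = c * bil D G H := by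
  rw [bil_comm, bil_smul_left, bil_comm]

theorem bil_symm_right (D : V d → Tens d) (G H : V d → M d) :
    bil D G (fun x => symm (H x)) = bil D G H := by
  unfold bil
  refine integral_congr_ae (Eventually.of_forall fun x => ?_)
  simp only [Tens.ip_C_symm]

theorem bil_cs (hE : BaseE d) {D : V d → Tens d} {β : ℝ} (hD : IsFld D 0 β) {G H : V d → M d}
    (hG : SqM G) (hH : SqM H) : (bil D G H) ^ 2 ≤ bil D G G * bil D H H := by
  have key : ∀ t : ℝ, 0 ≤ bil D H H * (t * t) + (2 * bil D G H) * t + bil D G G := by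
    intro t
    have h := bil_nonneg hD (fun x => G x + t • H x)
    have hH' : SqM (fun x => t • H x) := sqM_smul t hH
    rw [bil_add_left hE hD hG hH' (sqM_add hG hH'), bil_add_right hE hD hG hG hH',
      bil_add_right hE hD hH' hG hH', bil_smul_left, bil_smul_left, bil_smul_right,
      bil_smul_right, bil_comm D H G] at h
    linarith
  have := discrim_le_zero key
  unfold discrim at this
  nlinarith

theorem bil_expand (hE : BaseE d) {D : V d → Tens d} {β : ℝ} (hD : IsFld D 0 β) {G H : V d → M d}
    (hG : SqM G) (hH : SqM H) :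
    bil D (fun x => G x + H x) (fun x => G x + H x) =
      bil D G G + 2 * bil D G H + bil D H H := by
  rw [bil_add_left hE hD hG hH (sqM_add hG hH), bil_add_right hE hD hG hG hH,
      bil_add_right hE hD hH hG hH, bil_comm D H G]
  ring

/-! ### limits of strains and weak equations -/

/-- limits of strains -/
def Lim (k : V d → M d) : Prop := ∀ η > 0, ∃ u : Disp d, ∫ x in cell d, nsq (k x - sg u.u x) < η

theorem lim_sg (u : Disp d) : Lim (sg u.u) := by
  intro η hη
  refine ⟨u, ?_⟩
  simpa using hη

theorem lim_zero (hE : BaseE d) : Lim (fun _ : V d => (0 : M d)) := by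
  obtain ⟨w, _, hw⟩ := hE.zero
  intro η hη
  refine ⟨w, ?_⟩
  have : ∀ x, nsq ((0 : M d) - sg w.u x) = 0 := by
    intro x
    unfold sg
    rw [hw x]; simp
  simp only [this]
  simpa using hη

theorem lim_add (hE : BaseE d) {k l : V d → M d} (hk : SqM k) (hl : SqM l) (h1 : Lim k)
    (h2 : Lim l) : Lim (fun x => k x + l x) := by
  intro η hη
  obtain ⟨u, hu⟩ := h1 (η / 4) (by positivity)
  obtain ⟨v, hv⟩ := h2 (η / 4) (by positivity)
  obtain ⟨w, _, hw⟩ := hE.add u v
  refine ⟨w, ?_⟩
  have e : ∀ x, k x + l x - sg w.u x = (k x - sg u.u x) + (l x - sg v.u x) := by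
    intro x
    have : sg w.u x = sg u.u x + sg v.u x := by
      unfold sg; rw [hw x, symm_add]
    rw [this]; abel
  have hi1 : IntegrableOn (fun x => nsq (k x - sg u.u x)) (cell d) :=
    sqM_nsq_int (sqM_sub hk (sqM_sg hE u))
  have hi2 : IntegrableOn (fun x => nsq (l x - sg v.u x)) (cell d) :=
    sqM_nsq_int (sqM_sub hl (sqM_sg hE v))
  calc ∫ x in cell d, nsq (k x + l x - sg w.u x)
      ≤ ∫ x in cell d, (2 * nsq (k x - sg u.u x) + 2 * nsq (l x - sg v.u x)) := by
        refine integral_mono (sqM_nsq_int (sqM_sub (sqM_add hk hl) (sqM_sg hE w)))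
          ((hi1.const_mul 2).add (hi2.const_mul 2)) fun x => ?_
        show nsq (k x + l x - sg w.u x) ≤ 2 * nsq (k x - sg u.u x) + 2 * nsq (l x - sg v.u x)
        rw [e x]
        exact nsq_add_le _ _
    _ = 2 * (∫ x in cell d, nsq (k x - sg u.u x)) + 2 * ∫ x in cell d, nsq (l x - sg v.u x) := by
        rw [integral_add (hi1.const_mul 2) (hi2.const_mul 2), integral_const_mul,
          integral_const_mul]
    _ < η := by linarith

theorem lim_smul (hE : BaseE d) {k : V d → M d} (c : ℝ) (h1 : Lim k) : Lim (fun x => c • k x) := by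
  intro η hη
  have hc : 0 < c ^ 2 + 1 := by positivity
  obtain ⟨u, hu⟩ := h1 (η / (c ^ 2 + 1)) (by positivity)
  obtain ⟨w, _, hw⟩ := hE.smul c u
  refine ⟨w, ?_⟩
  have e : ∀ x, nsq (c • k x - sg w.u x) = c ^ 2 * nsq (k x - sg u.u x) := by
    intro x
    have : sg w.u x = c • sg u.u x := by
      unfold sg; rw [hw x, symm_smul]
    rw [this, ← smul_sub, nsq_smul]
  simp only [e]
  rw [integral_const_mul]
  rw [lt_div_iff₀ hc] at hu
  have h0 : 0 ≤ ∫ x in cell d, nsq (k x - sg u.u x) := integral_nonneg fun x => nsq_nonneg _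
  nlinarith

theorem lim_sum (hE : BaseE d) {ι : Type*} (s : Finset ι) (k : ι → V d → M d)
    (hk : ∀ i, SqM (k i)) (h : ∀ i, Lim (k i)) : Lim (fun x => ∑ i ∈ s, k i x) := by
  classical
  induction s using Finset.induction_on with
  | empty => simpa using lim_zero hE
  | insert a s ha ih =>
    simp only [Finset.sum_insert ha]
    exact lim_add hE (hk a) (sqM_sum hE s k hk) (h a) ih

/-- weak equation `div (D H) = 0` -/
def Wk (D : V d → Tens d) (H : V d → M d) : Prop := ∀ u : Disp d, bil D H (grad u.u) = 0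

theorem wk_sum (hE : BaseE d) {D : V d → Tens d} {β : ℝ} (hD : IsFld D 0 β) {ι : Type*}
    (s : Finset ι) (k : ι → V d → M d)
    (hk : ∀ i, SqM (k i)) (h : ∀ i, Wk D (k i)) : Wk D (fun x => ∑ i ∈ s, k i x) := by
  classical
  intro u
  induction s using Finset.induction_on with
  | empty => simp [bil, ip_zero_left]
  | insert a s ha ih =>
    simp only [Finset.sum_insert ha]
    rw [bil_add_left hE hD (hk a) (sqM_sum hE s k hk) (sqM_grad hE u), ih, h a u, add_zero]

theorem wk_smul {D : V d → Tens d} {k : V d → M d} (c : ℝ) (h : Wk D k) :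
    Wk D (fun x => c • k x) := by
  intro u
  rw [bil_smul_left, h u, mul_zero]

/-- orthogonality -/
theorem orth (hE : BaseE d) {D : V d → Tens d} {β : ℝ} (hD : IsFld D 0 β) {H k : V d → M d}
    (hH : SqM H) (hk : SqM k) (hw : Wk D H) (hl : Lim k) : bil D H k = 0 := by
  have h1 : ∀ η > 0, (bil D H k) ^ 2 ≤ bil D H H * (|β| * η) := by
    intro η hη
    obtain ⟨u, hu⟩ := hl η hη
    have hs := sqM_sub hk (sqM_sg hE u)
    have e : bil D H k = bil D H (fun x => k x - sg u.u x) := by
      rw [bil_sub_right hE hD hH hk (sqM_sg hE u)]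
      have : bil D H (sg u.u) = 0 := by
        have h2 := bil_symm_right D H (grad u.u)
        rw [hw u] at h2
        exact h2
      rw [this, sub_zero]
    rw [e]
    refine (bil_cs hE hD hH hs).trans (mul_le_mul_of_nonneg_left ?_ (bil_nonneg hD H))
    refine (bil_le hE hD hs).trans ?_
    have h0 : 0 ≤ ∫ x in cell d, nsq (k x - sg u.u x) := integral_nonneg fun x => nsq_nonneg _
    calc β * ∫ x in cell d, nsq (k x - sg u.u x)
        ≤ |β| * ∫ x in cell d, nsq (k x - sg u.u x) :=
          mul_le_mul_of_nonneg_right (le_abs_self β) h0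
      _ ≤ |β| * η := mul_le_mul_of_nonneg_left hu.le (abs_nonneg β)
  have h2 : (bil D H k) ^ 2 ≤ 0 := by
    refine le_of_forall_pos_le_add fun s hs => ?_
    have hc : 0 ≤ bil D H H * |β| := mul_nonneg (bil_nonneg hD H) (abs_nonneg β)
    have h3 := h1 (s / (bil D H H * |β| + 1)) (by positivity)
    have h4 : bil D H H * (|β| * (s / (bil D H H * |β| + 1))) ≤ s := by
      rw [← mul_assoc, mul_div_assoc', div_le_iff₀ (by positivity)]
      nlinarith
    linarith
  exact pow_eq_zero_iff (two_ne_zero) |>.mp (le_antisymm h2 (sq_nonneg _))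

theorem energy_eq (D : V d → Tens d) (ε : M d) (u : Disp d) :
    energy D ε u = bil D (fun x => ε + sg u.u x) (fun x => ε + sg u.u x) := rfl

/-- the corrector for a fixed `ε` -/
theorem exists_corr (hE : BaseE d) {D : V d → Tens d} {α β : ℝ} (hα : 0 < α) (hD : IsFld D α β)
    (ε : M d) : ∃ k : V d → M d, SqM k ∧ Lim k ∧ Wk D (fun x => ε + k x) := by
  have hD0 : IsFld D 0 β := fld0 hα.le hD
  have hmin : ∀ n : ℕ, ∃ u : Disp d, energy D ε u < eff D ε + 1 / ((n : ℝ) + 1) := fun n =>
    hE.eff_approx D ε _ (by positivity)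
  choose u hu using hmin
  -- the sequence of strains is Cauchy
  have hcau : ∀ m n, ∫ x in cell d, nsq (sg (u m).u x - sg (u n).u x) ≤
      2 / α * (1 / ((m : ℝ) + 1) + 1 / ((n : ℝ) + 1)) := by
    intro m n
    obtain ⟨w1, _, hw1⟩ := hE.add (u m) (u n)
    obtain ⟨w, _, hw⟩ := hE.smul (1 / 2) w1
    have hsg : ∀ x, sg w.u x = (1 / 2 : ℝ) • (sg (u m).u x + sg (u n).u x) := by
      intro x
      unfold sg; rw [hw x, hw1 x, symm_smul, symm_add]
    have hle := hE.eff_le D β hD0 ε w
    have hs1 := sqM_add (sqM_const hE ε) (sqM_sg hE (u m))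
    have hs2 := sqM_add (sqM_const hE ε) (sqM_sg hE (u n))
    have hs3 := sqM_sub (sqM_sg hE (u m)) (sqM_sg hE (u n))
    have hpt : ∀ x, α * nsq (sg (u m).u x - sg (u n).u x) ≤
        2 * (D x).Q (ε + sg (u m).u x) + 2 * (D x).Q (ε + sg (u n).u x) -
          4 * (D x).Q (ε + sg w.u x) := by
      intro x
      have h1 := (D x).parallelogram (ε + sg (u m).u x) (ε + sg (u n).u x)
      have h2 : ε + sg (u m).u x + (ε + sg (u n).u x) = (2 : ℝ) • (ε + sg w.u x) := by
        rw [hsg, smul_add, smul_smul, two_smul]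
        norm_num
        abel
      have h3 : ε + sg (u m).u x - (ε + sg (u n).u x) = sg (u m).u x - sg (u n).u x := by abel
      rw [h2, h3, Tens.Q_smul] at h1
      have h4 := hD.lo x (sg (u m).u x - sg (u n).u x)
      linarith
    have hi := hE.int D β hD0 ε
    have h5 : α * ∫ x in cell d, nsq (sg (u m).u x - sg (u n).u x) ≤
        2 * energy D ε (u m) + 2 * energy D ε (u n) - 4 * energy D ε w := by
      have hm := integral_mono ((sqM_nsq_int hs3).const_mul α)
        ((((hi (u m)).const_mul 2).add ((hi (u n)).const_mul 2)).sub ((hi w).const_mul 4)) hpt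
      have e1 : ∫ x in cell d, (2 * (D x).Q (ε + sg (u m).u x) + 2 * (D x).Q (ε + sg (u n).u x) -
          4 * (D x).Q (ε + sg w.u x)) =
          2 * energy D ε (u m) + 2 * energy D ε (u n) - 4 * energy D ε w := by
        have hA : IntegrableOn (fun x => 2 * (D x).Q (ε + sg (u m).u x) +
            2 * (D x).Q (ε + sg (u n).u x)) (cell d) :=
          ((hi (u m)).const_mul 2).add ((hi (u n)).const_mul 2)
        unfold energy
        rw [integral_sub hA
          ((hi w).const_mul 4), integral_add ((hi (u m)).const_mul 2) ((hi (u n)).const_mul 2),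
          integral_const_mul, integral_const_mul, integral_const_mul]
      rw [integral_const_mul] at hm
      exact hm.trans_eq e1
    have h6 := hu m
    have h7 := hu n
    have h8 : α * ∫ x in cell d, nsq (sg (u m).u x - sg (u n).u x) ≤
        2 * (1 / ((m : ℝ) + 1) + 1 / ((n : ℝ) + 1)) := by linarith
    rw [div_mul_eq_mul_div, le_div_iff₀ hα]
    linarith
  have hsmall : ∀ η > 0, ∃ N : ℕ, ∀ m ≥ N, ∀ n ≥ N,
      ∫ x in cell d, nsq (sg (u m).u x - sg (u n).u x) < η := by
    intro η hη
    obtain ⟨N, hN⟩ := exists_nat_gt (4 / (α * η))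
    refine ⟨N, fun m hm n hn => (hcau m n).trans_lt ?_⟩
    have hNpos : 0 < (N : ℝ) := lt_trans (by positivity) hN
    have h1 : 1 / ((m : ℝ) + 1) < 1 / (N : ℝ) := by
      have : (N : ℝ) ≤ m := by exact_mod_cast hm
      exact one_div_lt_one_div_of_lt hNpos (by linarith)
    have h2 : 1 / ((n : ℝ) + 1) < 1 / (N : ℝ) := by
      have : (N : ℝ) ≤ n := by exact_mod_cast hn
      exact one_div_lt_one_div_of_lt hNpos (by linarith)
    have h3 : 2 / α * (2 / N) ≤ η := by
      rw [div_mul_div_comm, div_le_iff₀ (by positivity)]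
      rw [div_lt_iff₀ (by positivity)] at hN
      nlinarith
    have h4 : 2 / α * (1 / ((m : ℝ) + 1) + 1 / ((n : ℝ) + 1)) < 2 / α * (2 / N) := by
      refine mul_lt_mul_of_pos_left ?_ (by positivity)
      have : (2 : ℝ) / N = 1 / N + 1 / N := by ring
      linarith
    linarith
  -- entrywise limits
  have hlim : ∀ i j, ∃ g : V d → ℝ, SqP g ∧
      Tendsto (fun n => ∫ x in cell d, (g x - sg (u n).u x i j) ^ 2) atTop (𝓝 0) := by
    intro i j
    refine complete (fun n x => sg (u n).u x i j) (fun n => sqM_sg hE (u n) i j) ?_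
    intro η hη
    obtain ⟨N, hN⟩ := hsmall η hη
    refine ⟨N, fun m hm n hn => lt_of_le_of_lt ?_ (hN m hm n hn)⟩
    have hs3 := sqM_sub (sqM_sg hE (u m)) (sqM_sg hE (u n))
    refine integral_mono (hs3 i j).sq (sqM_nsq_int hs3) fun x => ?_
    have h1 : symm (sg (u m).u x - sg (u n).u x) = sg (u m).u x - sg (u n).u x := by
      unfold sg; rw [symm_sub, symm_symm, symm_symm]
    have h2 := entry_sq_le (sg (u m).u x - sg (u n).u x) i j
    have h3 := nsq_of_symm h1
    show (sg (u m).u x i j - sg (u n).u x i j) ^ 2 ≤ nsq (sg (u m).u x - sg (u n).u x)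
    rw [h3]
    exact h2
  choose k hk hklim using hlim
  have hkM : SqM (fun x i j => k i j x) := fun i j => hk i j
  -- convergence in nsq
  have hconv : Tendsto (fun n => ∫ x in cell d, nsq ((fun i j => k i j x) - sg (u n).u x)) atTop
      (𝓝 0) := by
    have h1 : Tendsto (fun n => ∑ i, ∑ j, ∫ x in cell d, (k i j x - sg (u n).u x i j) ^ 2) atTop
        (𝓝 (∑ i : Fin d, ∑ j : Fin d, (0 : ℝ))) :=
      tendsto_finsetSum _ fun i _ => tendsto_finsetSum _ fun j _ => hklim i j
    simp only [Finset.sum_const_zero] at h1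
    refine squeeze_zero (fun n => integral_nonneg fun x => nsq_nonneg _) (fun n => ?_) h1
    have hs : SqM (fun x => (fun i j => k i j x) - sg (u n).u x) := sqM_sub hkM (sqM_sg hE (u n))
    have h2 : (∑ i, ∑ j, ∫ x in cell d, (k i j x - sg (u n).u x i j) ^ 2) =
        ∫ x in cell d, ip ((fun i j => k i j x) - sg (u n).u x)
          ((fun i j => k i j x) - sg (u n).u x) := by
      simp only [ip_self_eq]
      rw [integral_finsetSum]
      · refine Finset.sum_congr rfl fun i _ => ?_
        rw [integral_finsetSum]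
        · rfl
        · intro j _
          exact (hs i j).sq
      · intro i _
        refine integrable_finsetSum _ fun j _ => (hs i j).sq
    rw [h2]
    exact integral_mono (sqM_nsq_int hs) (sqM_ip_int hs hs) fun x => nsq_le_ip _
  have hLim : Lim (fun x i j => k i j x) := by
    intro η hη
    obtain ⟨n, hn⟩ := (hconv.eventually (gt_mem_nhds hη)).exists
    exact ⟨u n, hn⟩
  refine ⟨fun x i j => k i j x, hkM, hLim, ?_⟩
  -- weak equation
  intro v
  set K : V d → M d := fun x i j => k i j x with hK
  have hsv := sqM_sg hE v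
  have hG : SqM (fun x => ε + K x) := sqM_add (sqM_const hE ε) hkM
  have ha : Tendsto (fun n => bil D (fun x => ε + sg (u n).u x) (sg v.u)) atTop
      (𝓝 (bil D (fun x => ε + K x) (sg v.u))) := by
    rw [← tendsto_sub_nhds_zero_iff, tendsto_zero_iff_norm_tendsto_zero]
    have h1 : ∀ n, ‖bil D (fun x => ε + sg (u n).u x) (sg v.u) - bil D (fun x => ε + K x) (sg v.u)‖
        ≤ Real.sqrt (|β| * (∫ x in cell d, nsq (K x - sg (u n).u x)) * bil D (sg v.u) (sg v.u)) := by
      intro n
      have hs : SqM (fun x => K x - sg (u n).u x) := sqM_sub hkM (sqM_sg hE (u n))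
      have hs1 := sqM_add (sqM_const hE ε) (sqM_sg hE (u n))
      have e1 : bil D (fun x => ε + K x) (sg v.u) =
          bil D (fun x => ε + sg (u n).u x) (sg v.u) + bil D (fun x => K x - sg (u n).u x) (sg v.u) := by
        rw [← bil_add_left hE hD0 hs1 hs hsv]
        congr 1
        funext x
        abel
      have e2 : bil D (fun x => ε + sg (u n).u x) (sg v.u) - bil D (fun x => ε + K x) (sg v.u) =
          - bil D (fun x => K x - sg (u n).u x) (sg v.u) := by rw [e1]; ring
      rw [e2, norm_neg, Real.norm_eq_abs, ← Real.sqrt_sq_eq_abs]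
      refine Real.sqrt_le_sqrt ((bil_cs hE hD0 hs hsv).trans ?_)
      refine mul_le_mul_of_nonneg_right ?_ (bil_nonneg hD0 _)
      refine (bil_le hE hD0 hs).trans ?_
      exact mul_le_mul_of_nonneg_right (le_abs_self β) (integral_nonneg fun x => nsq_nonneg _)
    refine squeeze_zero (fun n => norm_nonneg _) h1 ?_
    have h2 := (hconv.const_mul |β|).mul_const (bil D (sg v.u) (sg v.u))
    have h3 : Tendsto (fun n => Real.sqrt (|β| * (∫ x in cell d, nsq (K x - sg (u n).u x)) *
        bil D (sg v.u) (sg v.u))) atTop (𝓝 (Real.sqrt (|β| * 0 * bil D (sg v.u) (sg v.u)))) :=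
      (Real.continuous_sqrt.tendsto _).comp h2
    rw [mul_zero, zero_mul, Real.sqrt_zero] at h3
    exact h3
  have hineq : ∀ t : ℝ, 0 ≤ 2 * t * bil D (fun x => ε + K x) (sg v.u) +
      t ^ 2 * bil D (sg v.u) (sg v.u) := by
    intro t
    have h1 : ∀ n : ℕ, -(1 / ((n : ℝ) + 1)) ≤
        2 * t * bil D (fun x => ε + sg (u n).u x) (sg v.u) + t ^ 2 * bil D (sg v.u) (sg v.u) := by
      intro n
      obtain ⟨tv, _, htv⟩ := hE.smul t v
      obtain ⟨w, _, hw⟩ := hE.add (u n) tv
      have hsg : ∀ x, sg w.u x = sg (u n).u x + t • sg v.u x := by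
        intro x
        unfold sg; rw [hw x, htv x, symm_add, symm_smul]
      have hle := hE.eff_le D β hD0 ε w
      have hs1 := sqM_add (sqM_const hE ε) (sqM_sg hE (u n))
      have e : energy D ε w = energy D ε (u n) +
          2 * t * bil D (fun x => ε + sg (u n).u x) (sg v.u) + t ^ 2 * bil D (sg v.u) (sg v.u) := by
        rw [energy_eq, energy_eq]
        have e1 : (fun x => ε + sg w.u x) = fun x => (ε + sg (u n).u x) + t • sg v.u x := by
          funext x; rw [hsg]; abel
        rw [e1, bil_expand hE hD0 hs1 (sqM_smul t hsv), bil_smul_right, bil_smul_left,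
          bil_smul_right]
        ring
      have := hu n
      linarith
    have h2 : Tendsto (fun n : ℕ => -(1 / ((n : ℝ) + 1))) atTop (𝓝 (-0)) :=
      (tendsto_one_div_add_atTop_nhds_zero_nat (𝕜 := ℝ)).neg
    rw [neg_zero] at h2
    have h3 : Tendsto (fun n : ℕ => 2 * t * bil D (fun x => ε + sg (u n).u x) (sg v.u) +
        t ^ 2 * bil D (sg v.u) (sg v.u)) atTop
        (𝓝 (2 * t * bil D (fun x => ε + K x) (sg v.u) + t ^ 2 * bil D (sg v.u) (sg v.u))) :=
      (ha.const_mul _).add_const _
    exact le_of_tendsto_of_tendsto' h2 h3 h1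
  have hzero : bil D (fun x => ε + K x) (sg v.u) = 0 := by
    set a := bil D (fun x => ε + K x) (sg v.u)
    set b := bil D (sg v.u) (sg v.u) with hb
    have hb0 : 0 ≤ b := bil_nonneg hD0 _
    have h1 := hineq (-a / (b + 1))
    have hb1 : 0 < b + 1 := by linarith
    have h2 : 2 * (-a / (b + 1)) * a + (-a / (b + 1)) ^ 2 * b =
        -(a ^ 2 * (b + 2)) / (b + 1) ^ 2 := by
      field_simp
      ring
    rw [h2] at h1
    have h3 : 0 ≤ -(a ^ 2 * (b + 2)) := by
      by_contra hcon
      push Not at hcon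
      have : -(a ^ 2 * (b + 2)) / (b + 1) ^ 2 < 0 := div_neg_of_neg_of_pos hcon (by positivity)
      linarith
    have h4 : a ^ 2 ≤ 0 := by nlinarith [sq_nonneg a]
    exact pow_eq_zero_iff (two_ne_zero) |>.mp (le_antisymm h4 (sq_nonneg _))
  have := bil_symm_right D (fun x => ε + K x) (grad v.u)
  rw [← this]
  exact hzero

end OptAux

open OptAux in
theorem opt_ok (d : ℕ) (hE : BaseE d) : StmtOpt d := by
  intro D α β hα hD
  have hD0 : IsFld D 0 β := fld0 hα.le hD
  have hcorr : ∀ p : Fin d × Fin d, ∃ k : V d → M d, SqM k ∧ Lim k ∧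
      Wk D (fun x => eb p.1 p.2 + k x) := fun p => exists_corr hE hα hD _
  choose k hk hkl hkw using hcorr
  set G : M d → V d → M d := fun ε x => ε + ∑ p : Fin d × Fin d, symm ε p.1 p.2 • k p x with hG
  have hkS : ∀ ε : M d, ∀ p : Fin d × Fin d, SqM (fun x => symm ε p.1 p.2 • k p x) :=
    fun ε p => sqM_smul _ (hk p)
  have hS : ∀ ε : M d, SqM (fun x => ∑ p : Fin d × Fin d, symm ε p.1 p.2 • k p x) :=
    fun ε => sqM_sum hE _ (fun p x => symm ε p.1 p.2 • k p x) (hkS ε)
  have hGM : ∀ ε, SqM (G ε) := fun ε => sqM_add (sqM_const hE ε) (hS ε)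
  have hGadd : ∀ ε ε' x, G (ε + ε') x = G ε x + G ε' x := by
    intro ε ε' x
    simp only [hG, symm_add, Pi.add_apply, add_smul, Finset.sum_add_distrib]
    abel
  have hGsmul : ∀ (c : ℝ) ε x, G (c • ε) x = c • G ε x := by
    intro c ε x
    simp only [hG, symm_smul, Pi.smul_apply, smul_eq_mul, smul_add, Finset.smul_sum, mul_smul]
  have hlim : ∀ ε, Lim (fun x => G ε x - ε) := by
    intro ε
    have e : (fun x => G ε x - ε) = fun x => ∑ p : Fin d × Fin d, symm ε p.1 p.2 • k p x := by
      funext x; simp only [hG]; abel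
    rw [e]
    exact lim_sum hE _ (fun p x => symm ε p.1 p.2 • k p x) (hkS ε) fun p => lim_smul hE _ (hkl p)
  have hGC : ∀ ε x, (D x).C (G ε x) =
      (D x).C (∑ p : Fin d × Fin d, symm ε p.1 p.2 • (eb p.1 p.2 + k p x)) := by
    intro ε x
    simp only [hG, smul_add, Finset.sum_add_distrib, map_add]
    congr 1
    rw [← Tens.C_symm]
    congr 1
    conv_lhs => rw [mat_expand (symm ε)]
    rw [Fintype.sum_prod_type]
  have hwk : ∀ ε, Wk D (G ε) := by
    intro ε u
    have e : bil D (G ε) (grad u.u) =
        bil D (fun x => ∑ p : Fin d × Fin d, symm ε p.1 p.2 • (eb p.1 p.2 + k p x)) (grad u.u) := by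
      unfold bil
      refine integral_congr_ae (Eventually.of_forall fun x => ?_)
      simp only [hGC]
    rw [e]
    exact wk_sum hE hD0 _ (fun p x => symm ε p.1 p.2 • (eb p.1 p.2 + k p x))
      (fun p => sqM_smul _ (sqM_add (sqM_const hE _) (hk p)))
      (fun p => wk_smul _ (hkw p)) u
  have horth : ∀ ε, ∀ H : V d → M d, SqM H → Lim H → bil D (G ε) H = 0 :=
    fun ε H h1 h2 => orth hE hD0 (hGM ε) h1 (hwk ε) h2
  -- the effective tensor
  have hent : ∀ ε i j, ∫ x in cell d, (D x).C (G ε x) i j = bil D (G ε) (fun _ => eb i j) := by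
    intro ε i j
    unfold bil
    refine integral_congr_ae (Eventually.of_forall fun x => ?_)
    simp only [ip_eb]
  have hipW : ∀ ε ε', ip (fun i j => ∫ x in cell d, (D x).C (G ε x) i j) ε' =
      bil D (G ε) (fun _ => ε') := by
    intro ε ε'
    have h1 : ∀ i j, IntegrableOn (fun x => (D x).C (G ε x) i j * ε' i j) (cell d) := by
      intro i j
      have := bil_int hE hD0 (hGM ε) (sqM_const hE (eb i j))
      simp only [ip_eb] at this
      exact this.mul_const _
    unfold bil ip
    rw [integral_finsetSum]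
    · refine Finset.sum_congr rfl fun i _ => ?_
      rw [integral_finsetSum]
      · refine Finset.sum_congr rfl fun j _ => ?_
        rw [integral_mul_const]
      · intro j _; exact h1 i j
    · intro i _
      exact integrable_finsetSum _ fun j _ => h1 i j
  have hipG : ∀ ε ε', bil D (G ε) (fun _ => ε') = bil D (G ε) (G ε') := by
    intro ε ε'
    have h1 := horth ε (fun x => G ε' x - ε') (sqM_sub (hGM ε') (sqM_const hE ε')) (hlim ε')
    rw [bil_sub_right hE hD0 (hGM ε) (hGM ε') (sqM_const hE ε')] at h1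
    linarith
  let W : Tens d :=
    { C :=
        { toFun := fun ε i j => ∫ x in cell d, (D x).C (G ε x) i j
          map_add' := by
            intro ε ε'
            funext i j
            show ∫ x in cell d, (D x).C (G (ε + ε') x) i j =
              (∫ x in cell d, (D x).C (G ε x) i j) + ∫ x in cell d, (D x).C (G ε' x) i j
            rw [hent, hent, hent, ← bil_add_left hE hD0 (hGM ε) (hGM ε') (sqM_const hE _)]
            congr 1
            funext x
            exact hGadd ε ε' x
          map_smul' := by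
            intro c ε
            funext i j
            show ∫ x in cell d, (D x).C (G (c • ε) x) i j =
              c * ∫ x in cell d, (D x).C (G ε x) i j
            rw [hent, hent, ← bil_smul_left]
            congr 1
            funext x
            exact hGsmul c ε x }
      sa := by
        intro ε ε'
        show ip (fun i j => ∫ x in cell d, (D x).C (G ε x) i j) ε' =
          ip ε (fun i j => ∫ x in cell d, (D x).C (G ε' x) i j)
        rw [hipW, ip_comm ε, hipW, hipG, hipG, bil_comm]
      tr := by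
        intro ε
        funext i j
        show ∫ x in cell d, (D x).C (G (tp ε) x) i j = ∫ x in cell d, (D x).C (G ε x) i j
        refine integral_congr_ae (Eventually.of_forall fun x => ?_)
        have : (D x).C (G (tp ε) x) = (D x).C (G ε x) := by
          rw [hGC, hGC, symm_tp]
        simp only [this] }
  have hWQ : ∀ ε, W.Q ε = bil D (G ε) (G ε) := by
    intro ε
    show ip (fun i j => ∫ x in cell d, (D x).C (G ε x) i j) ε = _
    rw [hipW, hipG]
  have hen : ∀ ε (u : Disp d), energy D ε u = W.Q ε +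
      bil D (fun x => ε + sg u.u x - G ε x) (fun x => ε + sg u.u x - G ε x) := by
    intro ε u
    have hR : SqM (fun x => ε + sg u.u x - G ε x) :=
      sqM_sub (sqM_add (sqM_const hE ε) (sqM_sg hE u)) (hGM ε)
    have hRl : Lim (fun x => ε + sg u.u x - G ε x) := by
      have h1 := lim_smul hE (-1) (hlim ε)
      have h2 := lim_add hE (sqM_sg hE u) (sqM_smul (-1) (sqM_sub (hGM ε) (sqM_const hE ε)))
        (lim_sg u) h1
      have e : (fun x => ε + sg u.u x - G ε x) = fun x => sg u.u x + (-1 : ℝ) • (G ε x - ε) := by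
        funext x; rw [neg_one_smul]; abel
      rw [e]
      exact h2
    have h3 := bil_expand hE hD0 (hGM ε) hR
    rw [horth ε _ hR hRl, ← hWQ] at h3
    rw [energy_eq]
    have e : (fun x => ε + sg u.u x) = fun x => G ε x + (ε + sg u.u x - G ε x) := by
      funext x; abel
    rw [e, h3]
    ring
  have hWeff : ∀ ε, W.Q ε = eff D ε := by
    intro ε
    apply le_antisymm
    · refine hE.le_eff D ε _ fun u => ?_
      rw [hen ε u]
      have := bil_nonneg hD0 (fun x => ε + sg u.u x - G ε x)
      linarith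
    · refine le_of_forall_pos_le_add fun s hs => ?_
      obtain ⟨u, hu⟩ := hlim ε (s / (|β| + 1)) (by positivity)
      refine (hE.eff_le D β hD0 ε u).trans ?_
      rw [hen ε u]
      have hR : SqM (fun x => ε + sg u.u x - G ε x) :=
        sqM_sub (sqM_add (sqM_const hE ε) (sqM_sg hE u)) (hGM ε)
      have h1 := bil_le hE hD0 hR
      have e : ∀ x, nsq (ε + sg u.u x - G ε x) = nsq (G ε x - ε - sg u.u x) := by
        intro x
        rw [← nsq_neg]; congr 1; abel
      simp only [e] at h1
      have h0 : 0 ≤ ∫ x in cell d, nsq (G ε x - ε - sg u.u x) := integral_nonneg fun x => nsq_nonneg _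
      have h2 : β * ∫ x in cell d, nsq (G ε x - ε - sg u.u x) ≤
          (|β| + 1) * ∫ x in cell d, nsq (G ε x - ε - sg u.u x) :=
        mul_le_mul_of_nonneg_right (by linarith [le_abs_self β]) h0
      rw [lt_div_iff₀ (by positivity)] at hu
      linarith
  refine ⟨W, G, hWeff, ?_, hGM, hGadd, hGsmul, hlim, hwk, ?_, ?_⟩
  · intro ε
    rw [hWeff]
    exact hE.eff_bd D α β hα.le hD ε
  · intro ε
    rw [hWQ]
    rfl
  · intro ε i j
    rfl

end Pool.Agent.Lib.MP_5df1bf_an
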