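import Pool.Agent.Lib.MP_5df1bf_an.Trunc

/-!
# MP_5df1bf_an: skew potentials of truncated divergence free fields (module A6'')
-/

open MeasureTheory Filter Topology
open scoped BigOperators ContDiff ComplexConjugate

noncomputable section

namespace Pool.Agent.Lib.MP_5df1bf_an

variable {d : ℕ}

/-- the linear map `x ↦ 2 π i k·x` -/
def Gk (k : Fin d → ℤ) : V d →L[ℝ] ℂ :=
  (2 * Real.pi * Complex.I : ℂ) •
    (Complex.ofRealCLM.comp (∑ i, zv k i • (ContinuousLinearMap.proj i : V d →L[ℝ] ℝ)))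

theorem Gk_apply (k : Fin d → ℤ) (x : V d) :
    Gk k x = 2 * Real.pi * Complex.I * ((dot (zv k) x : ℝ) : ℂ) := by
  simp only [Gk, _root_.smul_apply, ContinuousLinearMap.comp_apply,
    Complex.ofRealCLM_apply, smul_eq_mul]
  congr 2
  rw [_root_.sum_apply]
  rfl

theorem Gk_single (k : Fin d → ℤ) (j : Fin d) :
    Gk k (Pi.single j 1) = 2 * Real.pi * Complex.I * (k j : ℂ) := by
  rw [Gk_apply]
  congr 1
  simp [dot, zv, Pi.single_apply]

theorem hasFDerivAt_ek (k : Fin d → ℤ) (x : V d) : HasFDerivAt (ek k) (ek k x • Gk k) x := by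
  have h : (ek k : V d → ℂ) = fun x => Complex.exp (Gk k x) := by
    ext x
    rw [Gk_apply]
    rfl
  rw [h]
  exact (Gk k).hasFDerivAt.cexp

/-- a real trigonometric polynomial -/
def RS (N : ℕ) (P : (Fin d → ℤ) → ℂ) (x : V d) : ℝ := (∑ k ∈ bx d N, P k * ek k x).re

theorem RS_contDiff (N : ℕ) (P : (Fin d → ℤ) → ℂ) : ContDiff ℝ ∞ (RS N P : V d → ℝ) := by
  unfold RS
  refine Complex.reCLM.contDiff.comp (ContDiff.sum fun k _ => ?_)
  exact contDiff_const.mul (ek_contDiff k)

theorem RS_per (N : ℕ) (P : (Fin d → ℤ) → ℂ) : Per (RS N P : V d → ℝ) := by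
  intro x i
  unfold RS
  congr 1
  refine Finset.sum_congr rfl fun k _ => ?_
  rw [ek_per k x i]

theorem RS_fderiv (N : ℕ) (P : (Fin d → ℤ) → ℂ) (x : V d) (j : Fin d) :
    fderiv ℝ (RS N P) x (Pi.single j 1)
      = (∑ k ∈ bx d N, P k * (2 * Real.pi * Complex.I * (k j : ℂ)) * ek k x).re := by
  have h : HasFDerivAt (fun y : V d => ∑ k ∈ bx d N, P k * ek k y)
      (∑ k ∈ bx d N, P k • (ek k x • Gk k)) x :=
    HasFDerivAt.fun_sum fun k _ => (hasFDerivAt_ek k x).const_mul (P k)
  have h2 : HasFDerivAt (RS N P) (Complex.reCLM.comp (∑ k ∈ bx d N, P k • (ek k x • Gk k))) x :=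
    Complex.reCLM.hasFDerivAt.comp x h
  rw [h2.fderiv, ContinuousLinearMap.comp_apply, _root_.sum_apply,
    Complex.reCLM_apply]
  congr 1
  refine Finset.sum_congr rfl fun k _ => ?_
  simp only [_root_.smul_apply, smul_eq_mul, Gk_single]
  ring

/-- the test displacement `x ↦ Re (c e_k(x)) e_a` -/
def tdisp (a : Fin d) (c : ℂ) (k : Fin d → ℤ) : Disp d where
  u := fun x i => ((if i = a then c else 0) * ek k x).re
  smooth := by
    rw [contDiff_pi]
    intro i
    exact Complex.reCLM.contDiff.comp (contDiff_const.mul (ek_contDiff k))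
  per := by
    intro x i
    simp only [ek_per k x i]

theorem grad_tdisp (a : Fin d) (c : ℂ) (k : Fin d → ℤ) (x : V d) (i j : Fin d) :
    grad (tdisp a c k).u x i j
      = ((if i = a then c else 0) * (ek k x * (2 * Real.pi * Complex.I * (k j : ℂ)))).re := by
  have h : HasFDerivAt (tdisp a c k).u (ContinuousLinearMap.pi fun i : Fin d =>
      Complex.reCLM.comp ((if i = a then c else 0) • (ek k x • Gk k))) x := by
    rw [hasFDerivAt_pi]
    intro i
    exact Complex.reCLM.hasFDerivAt.comp x ((hasFDerivAt_ek k x).const_mul _)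
  unfold grad
  rw [h.fderiv]
  simp only [ContinuousLinearMap.pi_apply, ContinuousLinearMap.comp_apply,
    _root_.smul_apply, smul_eq_mul, Complex.reCLM_apply, Gk_single]

theorem ip_tdisp (T : M d) (a : Fin d) (c : ℂ) (k : Fin d → ℤ) (x : V d) :
    ip T (grad (tdisp a c k).u x)
      = (c * (2 * Real.pi * Complex.I) * ∑ j, (k j : ℂ) * ((T a j : ℂ) * ek k x)).re := by
  unfold ip
  rw [Finset.sum_eq_single a]
  · rw [Finset.mul_sum, Complex.re_sum]
    refine Finset.sum_congr rfl fun j _ => ?_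
    rw [grad_tdisp, if_pos rfl, ← Complex.re_ofReal_mul]
    congr 1
    ring
  · intro i _ hi
    refine Finset.sum_eq_zero fun j _ => ?_
    rw [grad_tdisp, if_neg hi]
    simp
  · intro h
    exact absurd (Finset.mem_univ a) h

/-- the Fourier coefficients of a weakly divergence free field are orthogonal to `k` -/
theorem div_free {τ : V d → M d} (hτ : SqM τ)
    (h : ∀ u : Disp d, ∫ x in cell d, ip (τ x) (grad u.u x) = 0) (a : Fin d) (k : Fin d → ℤ) :
    ∑ j, (k j : ℂ) * fc (fun x => τ x a j) k = 0 := by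
  have key : ∀ k : Fin d → ℤ, ∑ j, (k j : ℂ) * fc (fun x => τ x a j) (-k) = 0 := by
    intro k
    have h1 : ∀ c : ℂ, (c * (2 * Real.pi * Complex.I) *
        ∑ j, (k j : ℂ) * fc (fun x => τ x a j) (-k)).re = 0 := by
      intro c
      have h2 := h (tdisp a c k)
      simp only [ip_tdisp] at h2
      have h3 : Integrable (fun x => c * (2 * Real.pi * Complex.I) *
          ∑ j, (k j : ℂ) * ((τ x a j : ℂ) * ek k x)) (volume.restrict (cell d)) := by
        refine Integrable.const_mul ?_ _
        refine integrable_finsetSum _ fun j _ => ?_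
        exact (int_mul_ek (hτ a j) k).const_mul _
      have h4 := Complex.reCLM.integral_comp_comm h3
      simp only [Complex.reCLM_apply] at h4
      rw [h4] at h2
      rw [← h2]
      congr 1
      rw [integral_const_mul, integral_finsetSum]
      · congr 1
        refine Finset.sum_congr rfl fun j _ => ?_
        rw [integral_const_mul]
        congr 1
        unfold fc
        rw [neg_neg]
      · intro j _
        exact (int_mul_ek (hτ a j) k).const_mul _
    set S := ∑ j, (k j : ℂ) * fc (fun x => τ x a j) (-k) with hS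
    have h5 := h1 (conj (2 * Real.pi * Complex.I * S))
    have h6 : conj (2 * Real.pi * Complex.I * S) * (2 * Real.pi * Complex.I) * S
        = conj (2 * Real.pi * Complex.I * S) * (2 * Real.pi * Complex.I * S) := by ring
    rw [h6, ← Complex.normSq_eq_conj_mul_self, Complex.ofReal_re] at h5
    have h7 := Complex.normSq_eq_zero.mp h5
    have h8 : (2 * Real.pi * Complex.I : ℂ) ≠ 0 := Complex.two_pi_I_ne_zero
    exact (mul_eq_zero.mp h7).resolve_left h8
  have h9 := key (-k)
  simp only [neg_neg, Pi.neg_apply, Int.cast_neg, neg_mul, Finset.sum_neg_distrib] at h9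
  exact neg_eq_zero.mp h9

/-- the coefficients of the potential -/
def Pc (τ : V d → M d) (a b c : Fin d) (k : Fin d → ℤ) : ℂ :=
  (2 * Real.pi * Complex.I * ((dot (zv k) (zv k) : ℝ) : ℂ))⁻¹ *
    ((k c : ℂ) * fc (fun x => τ x a b) k - (k b : ℂ) * fc (fun x => τ x a c) k)

theorem Pc_sum {τ : V d → M d} (hτ : SqM τ)
    (h : ∀ u : Disp d, ∫ x in cell d, ip (τ x) (grad u.u x) = 0) (a b : Fin d) (k : Fin d → ℤ)
    (hk : k ≠ 0) :
    ∑ c, Pc τ a b c k * (2 * Real.pi * Complex.I * (k c : ℂ)) = fc (fun x => τ x a b) k := by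
  have h0 : zv k ≠ 0 := by
    intro h0
    apply hk
    ext i
    have := congrFun h0 i
    simpa [zv] using this
  have h1 : ((dot (zv k) (zv k) : ℝ) : ℂ) ≠ 0 := by
    have := (dot_self_pos h0).ne'
    exact_mod_cast this
  have h2 : (2 * Real.pi * Complex.I : ℂ) ≠ 0 := Complex.two_pi_I_ne_zero
  have h3 : ((dot (zv k) (zv k) : ℝ) : ℂ) = ∑ c, (k c : ℂ) * (k c : ℂ) := by
    simp [dot, zv]
  have h4 := div_free hτ h a k
  have h5 : ∑ c, Pc τ a b c k * (2 * Real.pi * Complex.I * (k c : ℂ))
      = ((dot (zv k) (zv k) : ℝ) : ℂ)⁻¹ * ((∑ c, (k c : ℂ) * (k c : ℂ)) * fc (fun x => τ x a b) k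
        - (k b : ℂ) * ∑ c, (k c : ℂ) * fc (fun x => τ x a c) k) := by
    rw [Finset.sum_mul, Finset.mul_sum, ← Finset.sum_sub_distrib, Finset.mul_sum]
    refine Finset.sum_congr rfl fun c _ => ?_
    unfold Pc
    field_simp
  rw [h5, h4, ← h3]
  field_simp
  ring

/-- A6'': truncations of divergence free fields have a skew potential -/
theorem Pot_ok (d : ℕ) : StmtPot d := by
  intro N τ hτ h
  refine ⟨fun a b c => RS N (Pc τ a b c), fun a b c => ⟨RS_contDiff N _, RS_per N _⟩, ?_, ?_⟩
  · intro a b c x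
    unfold RS
    rw [← Complex.neg_re]
    rw [← Finset.sum_neg_distrib]
    refine congrArg Complex.re (Finset.sum_congr rfl fun k _ => ?_)
    unfold Pc
    ring
  · intro a b x
    simp only [RS_fderiv]
    rw [← Complex.re_sum, Finset.sum_comm]
    have h1 : (∫ y in cell d, τ y a b) = (fc (fun y => τ y a b) 0).re := by
      rw [fc_zero, Complex.ofReal_re]
    rw [h1, ← Complex.add_re]
    unfold trunc
    congr 1
    have h0 : (0 : Fin d → ℤ) ∈ bx d N := (mem_bx N 0).mpr fun i => by simp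
    rw [← Finset.add_sum_erase _ _ h0, ← Finset.add_sum_erase _ _ h0, ek_zero, mul_one]
    have h2 : ∑ c : Fin d, Pc τ a b c 0 * (2 * Real.pi * Complex.I *
        (((0 : Fin d → ℤ) c : ℤ) : ℂ)) * 1 = 0 := by
      refine Finset.sum_eq_zero fun c _ => ?_
      simp
    rw [h2, zero_add]
    congr 1
    refine Finset.sum_congr rfl fun k hk => ?_
    rw [← Finset.sum_mul, Pc_sum hτ h a b k (Finset.ne_of_mem_erase hk)]

end Pool.Agent.Lib.MP_5df1bf_an
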