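import Pool.Agent.Lib.MP_5df1bf_an.Stmts1

/-!
# MP_5df1bf_an: periodic functions and the torus
-/

open MeasureTheory Filter Topology
open scoped BigOperators ContDiff

noncomputable section

namespace Pool.Agent.Lib.MP_5df1bf_an

variable {d : ℕ}

/-! Files which use the torus must repeat the next three local instances (the normalisation is the
one of `Mathlib.Analysis.Fourier.AddCircleMulti`). -/

local instance instMSCircle : MeasureSpace UnitAddCircle := ⟨AddCircle.haarAddCircle⟩
local instance instHaarCircle : Measure.IsAddHaarMeasure (volume : Measure UnitAddCircle) :=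
  inferInstanceAs (Measure.IsAddHaarMeasure AddCircle.haarAddCircle)
local instance instProbCircle : IsProbabilityMeasure (volume : Measure UnitAddCircle) :=
  inferInstanceAs (IsProbabilityMeasure AddCircle.haarAddCircle)

/-- the projection to the torus -/
def pr (x : V d) : UnitAddTorus (Fin d) := fun i => (x i : UnitAddCircle)

/-- the representative in `(0, 1]^d` -/
def rep (θ : UnitAddTorus (Fin d)) : V d := fun i => (AddCircle.equivIoc (1 : ℝ) 0 (θ i)).1

theorem pr_rep (θ : UnitAddTorus (Fin d)) : pr (rep θ) = θ := by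
  funext i
  exact (AddCircle.equivIoc (1 : ℝ) 0).symm_apply_apply (θ i)

theorem measurable_pr : Measurable (pr (d := d)) :=
  measurable_pi_lambda _ fun i => AddCircle.measurable_mk'.comp (measurable_pi_apply i)

theorem continuous_pr : Continuous (pr (d := d)) :=
  continuous_pi fun i => (AddCircle.continuous_mk' 1).comp (continuous_apply i)

theorem measurable_rep : Measurable (rep (d := d)) := by
  refine measurable_pi_lambda _ fun i => ?_
  exact (measurable_subtype_coe.comp (AddCircle.measurableEquivIoc (1 : ℝ) 0).measurable).comp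
    (measurable_pi_apply i)

theorem pr_add (x y : V d) : pr (x + y) = pr x + pr y := by
  funext i; simp [pr]

theorem pr_zv (z : Fin d → ℤ) : pr (zv z) = 0 := by
  funext i
  simp only [pr, zv, Pi.zero_apply]
  have : ((z i : ℝ) : UnitAddCircle) = ((z i • (1 : ℝ) : ℝ) : UnitAddCircle) := by simp
  rw [this]
  exact (AddCircle.coe_eq_zero_iff (1 : ℝ)).2 ⟨z i, rfl⟩

/-- equality in the torus -/
theorem pr_eq_iff {x y : V d} : pr x = pr y ↔ ∃ z : Fin d → ℤ, y = x + zv z := by
  constructor
  · intro h
    have h2 : ∀ i, ∃ n : ℤ, y i = x i + n := by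
      intro i
      have h3 : ((y i - x i : ℝ) : UnitAddCircle) = 0 := by
        rw [AddCircle.coe_sub]
        have := congrFun h i
        simp only [pr] at this
        rw [this, sub_self]
      obtain ⟨n, hn⟩ := (AddCircle.coe_eq_zero_iff (1 : ℝ)).1 h3
      refine ⟨n, ?_⟩
      have : (n : ℝ) = y i - x i := by simpa using hn
      linarith
    choose z hz using h2
    exact ⟨z, funext hz⟩
  · rintro ⟨z, rfl⟩
    rw [pr_add, pr_zv, add_zero]

theorem Per.nat {α : Type*} {g : V d → α} (h : Per g) (x : V d) (i : Fin d) (n : ℕ) :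
    g (x + Pi.single i (n : ℝ)) = g x := by
  induction n with
  | zero => simp
  | succ n ih =>
    have : x + Pi.single i ((n + 1 : ℕ) : ℝ) = (x + Pi.single i (n : ℝ)) + Pi.single i 1 := by
      rw [add_assoc, ← Pi.single_add]; push_cast; rfl
    rw [this, h, ih]

theorem Per.int {α : Type*} {g : V d → α} (h : Per g) (x : V d) (i : Fin d) (n : ℤ) :
    g (x + Pi.single i (n : ℝ)) = g x := by
  obtain ⟨m, rfl | rfl⟩ := n.eq_nat_or_neg
  · exact_mod_cast h.nat x i m
  · have := h.nat (x + Pi.single i ((-(m : ℤ) : ℤ) : ℝ)) i m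
    rw [← this, add_assoc, ← Pi.single_add]
    push_cast
    simp

theorem Per.zv {α : Type*} {g : V d → α} (h : Per g) (x : V d) (z : Fin d → ℤ) :
    g (x + zv z) = g x := by
  classical
  have key : ∀ s : Finset (Fin d), g (x + ∑ i ∈ s, Pi.single i (z i : ℝ)) = g x := by
    intro s
    induction s using Finset.induction_on with
    | empty => simp
    | insert a s ha ih =>
      have e : x + ∑ i ∈ insert a s, (Pi.single i (z i : ℝ) : V d) =
          (x + ∑ i ∈ s, (Pi.single i (z i : ℝ) : V d)) + Pi.single a (z a : ℝ) := by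
        rw [Finset.sum_insert ha]; abel
      rw [e, h.int, ih]
  have h2 := key Finset.univ
  have h3 : ∑ i, Pi.single i (z i : ℝ) = MP_5df1bf_an.zv z := by
    funext j
    rw [Finset.sum_apply]
    simp [MP_5df1bf_an.zv, Pi.single_apply]
  rwa [h3] at h2

theorem Per.of_pr {α : Type*} {g : V d → α} (h : Per g) {x y : V d} (hxy : pr x = pr y) :
    g x = g y := by
  obtain ⟨z, rfl⟩ := pr_eq_iff.1 hxy
  rw [h.zv]

theorem Per.rep_pr {α : Type*} {g : V d → α} (h : Per g) (x : V d) : g (rep (pr x)) = g x :=
  h.of_pr (pr_rep _)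

theorem cell_ae_PA : (cell d : Set (V d)) =ᵐ[volume]
    {x : V d | ∀ i, x i ∈ Set.Ioc ((0 : V d) i) ((0 : V d) i + 1)} := by
  have h1 : {x : V d | ∀ i, x i ∈ Set.Ioc ((0 : V d) i) ((0 : V d) i + 1)} =
      Set.pi Set.univ fun i => Set.Ioc ((0 : V d) i) ((1 : V d) i) := by
    ext x; simp
  rw [h1]
  exact (Measure.univ_pi_Ioc_ae_eq_Icc (μ := fun _ => (volume : Measure ℝ))
    (f := (0 : V d)) (g := (1 : V d))).symm

/-- integrals over the cell and the torus -/
theorem int_torus {E : Type*} [NormedAddCommGroup E] [NormedSpace ℝ E]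
    (F : UnitAddTorus (Fin d) → E) : ∫ x in cell d, F (pr x) = ∫ θ, F θ := by
  rw [UnitAddTorus.integral_preimage F (0 : V d)]
  exact setIntegral_congr_set cell_ae_PA

theorem mp_pr : MeasurePreserving (pr (d := d)) (volume.restrict (cell d)) volume := by
  refine ⟨measurable_pr, ?_⟩
  ext s hs
  rw [Measure.map_apply measurable_pr hs]
  have h := UnitAddTorus.lintegral_preimage (s.indicator 1) (0 : V d)
  rw [lintegral_indicator_one hs] at h
  rw [h, ← setLIntegral_congr cell_ae_PA, ← lintegral_indicator_one (measurable_pr hs)]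
  rfl

/-- periodic function on the torus -/
def torPA {α : Type*} (f : V d → α) : UnitAddTorus (Fin d) → α := fun θ => f (rep θ)

theorem Per.torPA_pr {α : Type*} {f : V d → α} (h : Per f) (x : V d) : torPA f (pr x) = f x :=
  h.rep_pr x

theorem measurable_torPA {α : Type*} [MeasurableSpace α] {f : V d → α} (h : Measurable f) :
    Measurable (torPA f) := h.comp measurable_rep

theorem Per.int_eq {E : Type*} [NormedAddCommGroup E] [NormedSpace ℝ E] {f : V d → E}
    (h : Per f) : ∫ x in cell d, f x = ∫ θ, torPA f θ := by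
  rw [← int_torus]
  exact integral_congr_ae (ae_of_all _ fun x => (h.torPA_pr x).symm)

theorem Per.integrable_iff {f : V d → ℝ} (h : Per f) (hm : Measurable f) :
    IntegrableOn f (cell d) ↔ Integrable (torPA f) := by
  rw [← mp_pr.integrable_comp (measurable_torPA hm).aestronglyMeasurable]
  have : (torPA f ∘ pr) = f := funext fun x => h.torPA_pr x
  rw [this]; rfl

end Pool.Agent.Lib.MP_5df1bf_an
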