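import Pool.Agent.Lib.MP_5df1bf_an.Stmts3
import Pool.Agent.Lib.MP_5df1bf_an.Opt
import Pool.Agent.Lib.MP_5df1bf_an.Korn
import Pool.Agent.Lib.MP_5df1bf_an.Pot
import Pool.Agent.Lib.MP_5df1bf_an.Torus

/-!
# MP_5df1bf_an: D13', the infimum over `H¹` is attained for uniformly elliptic fields

Minimizing sequence, Korn and Poincaré inequalities on the torus, completeness.
-/

open MeasureTheory Filter Topology
open scoped BigOperators ContDiff

noncomputable section

namespace Pool.Agent.Lib.MP_5df1bf_an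

variable {d : ℕ}

namespace H1Aux

/-- Fourier coefficients of a partial derivative -/
theorem fc_pd (hP : StmtParts d) {f : V d → ℝ} (hf : ContDiff ℝ ∞ f) (hper : Per f) (j : Fin d)
    (k : Fin d → ℤ) :
    fc (Korn.pd f j) k = 2 * Real.pi * Complex.I * (k j : ℂ) * fc f k := by
  set g : V d → ℂ := fun x => (f x : ℂ) * ek (-k) x with hg
  have hfd : ∀ x, HasFDerivAt (fun x => (f x : ℂ)) (Complex.ofRealCLM.comp (fderiv ℝ f x)) x :=
    fun x => (Complex.ofRealCLM.hasFDerivAt).comp x ((hf.differentiable (by simp)) x).hasFDerivAt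
  have hgd : ∀ x, fderiv ℝ g x (Pi.single j 1) =
      (Korn.pd f j x : ℂ) * ek (-k) x -
        2 * Real.pi * Complex.I * (k j : ℂ) * ((f x : ℂ) * ek (-k) x) := by
    intro x
    have h1 := (hfd x).mul (hasFDerivAt_ek (-k) x)
    have h2 : HasFDerivAt g ((f x : ℂ) • (ek (-k) x • Gk (-k)) +
        ek (-k) x • Complex.ofRealCLM.comp (fderiv ℝ f x)) x := h1
    rw [h2.fderiv]
    have h3 := Gk_single (-k) j
    simp only [_root_.add_apply, _root_.smul_apply, smul_eq_mul, h3,
      ContinuousLinearMap.comp_apply, Complex.ofRealCLM_apply, Pi.neg_apply, Int.cast_neg]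
    show _ + ek (-k) x * ((Korn.pd f j x : ℝ) : ℂ) = _
    ring
  have hgc : ContDiff ℝ ∞ g := (Complex.ofRealCLM.contDiff.comp hf).mul (ek_contDiff (-k))
  have hgp : Per g := by
    intro x i
    simp only [hg]
    rw [hper x i, ek_per (-k) x i]
  have hdc : Continuous fun x => fderiv ℝ g x (Pi.single j 1) :=
    (hgc.continuous_fderiv (by simp)).clm_apply continuous_const
  have hdi : IntegrableOn (fun x => fderiv ℝ g x (Pi.single j 1)) (cell d) := int_of_cont hdc
  have hL : ∀ Λ : ℂ →L[ℝ] ℝ, Λ (∫ x in cell d, fderiv ℝ g x (Pi.single j 1)) = 0 := by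
    intro Λ
    rw [← Λ.integral_comp_comm hdi]
    have h1 : ContDiff ℝ 1 fun x => Λ (g x) := (Λ.contDiff.comp hgc).of_le (by
      exact WithTop.coe_le_coe.mpr (le_top : (1 : ℕ∞) ≤ ⊤))
    have h2 : Per fun x => Λ (g x) := by
      intro x i
      simp only [hgp x i]
    have h3 := hP _ h1 h2 j
    rw [← h3]
    refine integral_congr_ae (Eventually.of_forall fun x => ?_)
    have h4 : HasFDerivAt (fun x => Λ (g x)) (Λ.comp (fderiv ℝ g x)) x :=
      Λ.hasFDerivAt.comp x ((hgc.differentiable (by simp)) x).hasFDerivAt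
    simp only [h4.fderiv]
    rfl
  have h0 : ∫ x in cell d, fderiv ℝ g x (Pi.single j 1) = 0 := by
    apply Complex.ext
    · exact hL Complex.reCLM
    · exact hL Complex.imCLM
  simp only [hgd] at h0
  have i1 : IntegrableOn (fun x => (Korn.pd f j x : ℂ) * ek (-k) x) (cell d) :=
    int_of_cont ((Complex.continuous_ofReal.comp (Korn.pd_smooth hf j).continuous).mul
      (ek_cont (-k)))
  have i2 : IntegrableOn (fun x => 2 * Real.pi * Complex.I * (k j : ℂ) *
      ((f x : ℂ) * ek (-k) x)) (cell d) :=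
    int_of_cont (continuous_const.mul ((Complex.continuous_ofReal.comp hf.continuous).mul
      (ek_cont (-k))))
  rw [integral_sub i1 i2, integral_const_mul, sub_eq_zero] at h0
  exact h0

/-- Poincaré's inequality on the torus -/
theorem poincare (hP : StmtParts d) (hPa : StmtParseval d) {f : V d → ℝ} (hf : ContDiff ℝ ∞ f)
    (hper : Per f) (hm : ∫ x in cell d, f x = 0) :
    ∫ x in cell d, f x ^ 2 ≤ ∑ j, ∫ x in cell d, Korn.pd f j x ^ 2 := by
  have h1 := hPa f (SqP.of_cont hf.continuous hper)
  have h2 : ∀ j, HasSum (fun k : Fin d → ℤ => ‖fc (Korn.pd f j) k‖ ^ 2)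
      (∫ x in cell d, Korn.pd f j x ^ 2) := fun j =>
    hPa _ (SqP.of_cont (Korn.pd_smooth hf j).continuous (Korn.pd_per hper j))
  have h3 := hasSum_sum (s := Finset.univ) fun j _ => h2 j
  refine hasSum_le (fun k => ?_) h1 h3
  by_cases hk : k = 0
  · subst hk
    rw [fc_zero, hm]
    simp only [Complex.ofReal_zero, norm_zero, ne_eq, OfNat.ofNat_ne_zero, not_false_eq_true,
      zero_pow]
    exact Finset.sum_nonneg fun j _ => by positivity
  · obtain ⟨j, hj⟩ : ∃ j, k j ≠ 0 := by
      by_contra h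
      push Not at h
      exact hk (funext h)
    refine le_trans ?_ (Finset.single_le_sum (f := fun j => ‖fc (Korn.pd f j) k‖ ^ 2)
      (fun _ _ => by positivity) (Finset.mem_univ j))
    rw [fc_pd hP hf hper j k, norm_mul, mul_pow]
    have h4 : 1 ≤ ‖2 * Real.pi * Complex.I * (k j : ℂ)‖ := by
      rw [norm_mul, norm_mul, norm_mul]
      simp only [Complex.norm_ofNat, Complex.norm_real, Complex.norm_I, mul_one, Real.norm_eq_abs,
        abs_of_pos Real.pi_pos, Complex.norm_intCast]
      have h5 : (1 : ℝ) ≤ |(k j : ℝ)| := by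
        rw [← Int.cast_abs]
        exact_mod_cast Int.one_le_abs hj
      have := Real.pi_gt_three
      nlinarith
    have h5 : 1 ≤ ‖2 * Real.pi * Complex.I * (k j : ℂ)‖ ^ 2 := one_le_pow₀ h4
    nlinarith [sq_nonneg ‖fc f k‖]

/-- compact sets are covered by finitely many cells -/
theorem cov_int {S : Set (V d)} (hS : IsCompact S) : ∃ N : ℕ, ∀ g : V d → ENNReal, Measurable g →
    Per g → ∫⁻ x in S, g x ≤ N * ∫⁻ x in cell d, g x := by
  obtain ⟨R, hR⟩ := hS.isBounded.exists_norm_le
  obtain ⟨R', hR'⟩ := exists_nat_ge R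
  refine ⟨(bx d R').card, fun g hg hper => ?_⟩
  have hT : ∀ z : Fin d → ℤ, ∫⁻ x in (fun x : V d => x + -zv z) ⁻¹' cell d, g x =
      ∫⁻ x in cell d, g x := by
    intro z
    have h1 := (measurePreserving_add_right (volume : Measure (V d)) (-zv z)).setLIntegral_comp_preimage
      (s := cell d) measurableSet_Icc hg
    rw [← h1]
    refine lintegral_congr fun x => ?_
    have h2 := Per.zv hper x (-z)
    have h3 : (zv (-z) : V d) = - zv z := by
      funext i; simp [zv]
    rw [h3] at h2
    exact h2.symm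
  have hcov : S ⊆ ⋃ z : (bx d R' : Finset (Fin d → ℤ)), (fun x : V d => x + -zv z.1) ⁻¹' cell d := by
    intro x hx
    have hn := hR x hx
    have hxi : ∀ i, |x i| ≤ R' := by
      intro i
      have := norm_le_pi_norm x i
      rw [Real.norm_eq_abs] at this
      linarith
    refine Set.mem_iUnion.2 ⟨⟨fun i => ⌊x i⌋, ?_⟩, ?_⟩
    · rw [mem_bx]
      intro i
      have h1 := abs_le.1 (hxi i)
      constructor
      · rw [Int.le_floor]
        push_cast
        linarith
      · have : ⌊x i⌋ ≤ ⌊(R' : ℝ)⌋ := Int.floor_le_floor h1.2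
        simpa using this
    · constructor
      · intro i
        have h1 := Int.floor_le (x i)
        show (0 : ℝ) ≤ x i + -((⌊x i⌋ : ℤ) : ℝ)
        linarith
      · intro i
        have h1 := Int.lt_floor_add_one (x i)
        show x i + -((⌊x i⌋ : ℤ) : ℝ) ≤ (1 : ℝ)
        linarith
  calc ∫⁻ x in S, g x ≤ ∫⁻ x in ⋃ z : (bx d R' : Finset (Fin d → ℤ)),
          (fun x : V d => x + -zv z.1) ⁻¹' cell d, g x := lintegral_mono_set hcov
    _ ≤ ∑' z : (bx d R' : Finset (Fin d → ℤ)),
          ∫⁻ x in (fun x : V d => x + -zv z.1) ⁻¹' cell d, g x := lintegral_iUnion_le _ _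
    _ = _ := by
        rw [tsum_fintype]
        simp only [hT]
        simp

/-- Cauchy–Schwarz with a constant -/
theorem cs_one (hE : BaseE d) {g : V d → ℝ} (hg : SqP g) :
    ∫ x in cell d, |g x| ≤ Real.sqrt (∫ x in cell d, g x ^ 2) := by
  have hfin := OptAux.finite_cell hE
  have h1 : IntegrableOn (fun x => |g x|) (cell d) := (OptAux.sqP_int hE hg).abs
  have key : ∀ t : ℝ, 0 ≤ 1 * (t * t) + (2 * ∫ x in cell d, |g x|) * t +
      ∫ x in cell d, g x ^ 2 := by
    intro t
    have h3 : 0 ≤ ∫ x in cell d, (|g x| + t) ^ 2 := integral_nonneg fun x => sq_nonneg _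
    have h4 : ∫ x in cell d, (|g x| + t) ^ 2 = (∫ x in cell d, g x ^ 2) +
        (2 * t * ∫ x in cell d, |g x|) + t * t := by
      have e : (fun x => (|g x| + t) ^ 2) = fun x => (g x ^ 2 + 2 * t * |g x|) + t * t := by
        funext x; rw [add_sq, sq_abs]; ring
      have i0 : IntegrableOn (fun x => 2 * t * |g x|) (cell d) := h1.const_mul _
      have i1 : IntegrableOn (fun x => g x ^ 2 + 2 * t * |g x|) (cell d) := hg.sq.add i0
      rw [e, integral_add i1 (integrable_const _), integral_add hg.sq i0,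
        integral_const_mul, integral_const]
      simp [Measure.real, hE.vol]
    linarith
  have h5 := discrim_le_zero key
  unfold discrim at h5
  apply Real.le_sqrt_of_sq_le
  nlinarith

/-- testing with compactly supported functions -/
theorem test_bd (hE : BaseE d) {ψ : V d → ℝ} (hψ : Continuous ψ) (hc : HasCompactSupport ψ) :
    ∃ C : ℝ, 0 ≤ C ∧ ∀ g : V d → ℝ, SqP g → Integrable (fun x => g x * ψ x) ∧
      |∫ x, g x * ψ x| ≤ C * Real.sqrt (∫ x in cell d, g x ^ 2) := by
  obtain ⟨N, hN⟩ := cov_int (S := tsupport ψ) hc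
  obtain ⟨Mx, hMx⟩ := hψ.bounded_above_of_compact_support hc
  have hM0 : 0 ≤ Mx := (norm_nonneg _).trans (hMx 0)
  refine ⟨Mx * N, by positivity, fun g hg => ?_⟩
  have hgi : IntegrableOn g (cell d) := OptAux.sqP_int hE hg
  have h1 : ∫⁻ x, ‖g x * ψ x‖ₑ ≤ ENNReal.ofReal (Mx * N * ∫ x in cell d, |g x|) := by
    have h2 : ∫⁻ x, ‖g x * ψ x‖ₑ = ∫⁻ x in tsupport ψ, ‖g x * ψ x‖ₑ := by
      symm
      apply setLIntegral_eq_of_support_subset
      intro x hx
      apply subset_tsupport
      rw [Function.mem_support] at hx ⊢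
      intro h; apply hx; simp [h]
    have h3 : ∫⁻ x in cell d, ‖g x‖ₑ = ENNReal.ofReal (∫ x in cell d, |g x|) := by
      have := ofReal_integral_norm_eq_lintegral_enorm hgi
      simp only [Real.norm_eq_abs] at this
      exact this.symm
    rw [h2]
    calc ∫⁻ x in tsupport ψ, ‖g x * ψ x‖ₑ ≤ ∫⁻ x in tsupport ψ, ENNReal.ofReal Mx * ‖g x‖ₑ := by
          refine lintegral_mono fun x => ?_
          rw [enorm_mul, mul_comm]
          refine mul_le_mul_left ?_ _
          rw [← ofReal_norm_eq_enorm]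
          exact ENNReal.ofReal_le_ofReal (hMx x)
      _ = ENNReal.ofReal Mx * ∫⁻ x in tsupport ψ, ‖g x‖ₑ :=
          lintegral_const_mul _ hg.meas.enorm
      _ ≤ ENNReal.ofReal Mx * (N * ∫⁻ x in cell d, ‖g x‖ₑ) := by
          refine mul_le_mul_right (hN (fun x => ‖g x‖ₑ) hg.meas.enorm ?_) _
          intro x i
          simp only [hg.per x i]
      _ = _ := by
          rw [h3, ENNReal.ofReal_mul (by positivity), ENNReal.ofReal_mul hM0, ENNReal.ofReal_natCast,
            mul_assoc]
  have hm : AEStronglyMeasurable (fun x => g x * ψ x) volume :=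
    (hg.meas.mul hψ.measurable).aestronglyMeasurable
  constructor
  · exact ⟨hm, lt_of_le_of_lt h1 ENNReal.ofReal_lt_top⟩
  · have h2 := enorm_integral_le_lintegral_enorm (μ := volume) fun x => g x * ψ x
    have h3 := h2.trans h1
    rw [← ofReal_norm_eq_enorm, Real.norm_eq_abs] at h3
    have h4 : 0 ≤ ∫ x in cell d, |g x| := integral_nonneg fun x => abs_nonneg _
    rw [ENNReal.ofReal_le_ofReal_iff (by positivity)] at h3
    refine h3.trans ?_
    exact mul_le_mul_of_nonneg_left (cs_one hE hg) (by positivity)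

theorem test_lim (hE : BaseE d) {ψ : V d → ℝ} (hψ : Continuous ψ) (hc : HasCompactSupport ψ)
    {U : V d → ℝ} {f : ℕ → V d → ℝ} (hU : SqP U) (hf : ∀ n, SqP (f n))
    (hl : Tendsto (fun n => ∫ x in cell d, (U x - f n x) ^ 2) atTop (𝓝 0)) :
    Tendsto (fun n => ∫ x, f n x * ψ x) atTop (𝓝 (∫ x, U x * ψ x)) := by
  obtain ⟨C, hC, hb⟩ := test_bd hE hψ hc
  rw [← tendsto_sub_nhds_zero_iff, tendsto_zero_iff_norm_tendsto_zero]
  have h1 : ∀ n, ‖(∫ x, f n x * ψ x) - ∫ x, U x * ψ x‖ ≤
      C * Real.sqrt (∫ x in cell d, (U x - f n x) ^ 2) := by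
    intro n
    have h2 := (hb _ (OptAux.sqP_sub hU (hf n))).2
    have h3 : (∫ x, f n x * ψ x) - ∫ x, U x * ψ x = - ∫ x, (U x - f n x) * ψ x := by
      have e : ∀ x, (U x - f n x) * ψ x = U x * ψ x - f n x * ψ x := fun x => by ring
      simp only [e]
      rw [integral_sub (hb _ hU).1 (hb _ (hf n)).1]
      ring
    rw [h3, norm_neg, Real.norm_eq_abs]
    exact h2
  refine squeeze_zero (fun n => norm_nonneg _) h1 ?_
  have h2 : Tendsto (fun n => C * Real.sqrt (∫ x in cell d, (U x - f n x) ^ 2)) atTop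
      (𝓝 (C * Real.sqrt 0)) := ((Real.continuous_sqrt.tendsto _).comp hl).const_mul C
  simpa using h2

theorem pd_comp {u : V d → V d} (hu : ContDiff ℝ ∞ u) (i j : Fin d) (x : V d) :
    Korn.pd (fun x => u x i) j x = grad u x i j := by
  unfold Korn.pd grad
  have h := (hu.differentiable (by simp) x).hasFDerivAt
  have h2 := hasFDerivAt_pi'.1 h i
  rw [h2.fderiv]
  rfl

/-- Cauchy sequences of displacements converge in `H¹` (modulo constants) -/
theorem exists_h1 (hE : BaseE d) (hP : StmtParts d) (hPa : StmtParseval d) (hK : StmtKorn d)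
    (u : ℕ → Disp d)
    (hc : ∀ η > 0, ∃ N, ∀ m ≥ N, ∀ n ≥ N, ∫ x in cell d, nsq (sg (u m).u x - sg (u n).u x) < η) :
    ∃ w : H1 d, Tendsto (fun n => ∫ x in cell d, nsq (w.G x - sg (u n).u x)) atTop (𝓝 0) := by
  -- full gradients
  have hkorn : ∀ m n, ∫ x in cell d, ip (grad (u m).u x - grad (u n).u x)
      (grad (u m).u x - grad (u n).u x) ≤ 2 * ∫ x in cell d, nsq (sg (u m).u x - sg (u n).u x) := by
    intro m n
    obtain ⟨v, _, hv⟩ := hE.smul (-1) (u n)
    obtain ⟨w, _, hw⟩ := hE.add (u m) v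
    have e1 : ∀ x, grad w.u x = grad (u m).u x - grad (u n).u x := by
      intro x; rw [hw x, hv x, neg_one_smul]; abel
    have h1 := hK w
    simp only [e1] at h1
    have e2 : ∀ x, nsq (grad (u m).u x - grad (u n).u x) = nsq (sg (u m).u x - sg (u n).u x) := by
      intro x
      unfold sg
      rw [← symm_sub, nsq_symm]
    simp only [e2] at h1
    exact h1
  have hgd : ∀ m n i j, ∫ x in cell d, (grad (u m).u x i j - grad (u n).u x i j) ^ 2 ≤
      2 * ∫ x in cell d, nsq (sg (u m).u x - sg (u n).u x) := by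
    intro m n i j
    refine le_trans ?_ (hkorn m n)
    have hs := OptAux.sqM_sub (OptAux.sqM_grad hE (u m)) (OptAux.sqM_grad hE (u n))
    exact integral_mono (hs i j).sq (OptAux.sqM_ip_int hs hs) fun x =>
      entry_sq_le (grad (u m).u x - grad (u n).u x) i j
  have hH : ∀ i j, ∃ g : V d → ℝ, SqP g ∧
      Tendsto (fun n => ∫ x in cell d, (g x - grad (u n).u x i j) ^ 2) atTop (𝓝 0) := by
    intro i j
    refine OptAux.complete (fun n x => grad (u n).u x i j) (fun n => OptAux.sqM_grad hE (u n) i j) ?_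
    intro η hη
    obtain ⟨N, hN⟩ := hc (η / 2) (by positivity)
    refine ⟨N, fun m hm n hn => lt_of_le_of_lt (hgd m n i j) ?_⟩
    have := hN m hm n hn
    linarith
  choose H hHs hHl using hH
  -- displacements with mean zero
  set f : Fin d → ℕ → V d → ℝ := fun i n x => (u n).u x i - ∫ y in cell d, (u n).u y i with hf
  have hui : ∀ i n, ContDiff ℝ ∞ fun x => (u n).u x i := fun i n =>
    contDiff_pi.1 (u n).smooth i
  have hup : ∀ i n, Per fun x => (u n).u x i := fun i n x j => by
    simp only [(u n).per x j]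
  have hfs : ∀ i n, ContDiff ℝ ∞ (f i n) := fun i n => (hui i n).sub contDiff_const
  have hfp : ∀ i n, Per (f i n) := fun i n x j => by
    simp only [hf]
    rw [(u n).per x j]
  have hfq : ∀ i n, SqP (f i n) := fun i n => SqP.of_cont (hfs i n).continuous (hfp i n)
  have hfm : ∀ i n, ∫ x in cell d, f i n x = 0 := by
    intro i n
    have hfin := OptAux.finite_cell hE
    simp only [hf]
    rw [integral_sub (int_of_cont (hui i n).continuous) (integrable_const _), integral_const]
    simp [Measure.real, hE.vol]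
  have hfd : ∀ i n j x, fderiv ℝ (f i n) x (Pi.single j 1) = grad (u n).u x i j := by
    intro i n j x
    rw [← pd_comp (u n).smooth i j x]
    unfold Korn.pd
    simp only [hf]
    rw [fderiv_sub_const]
  have hU : ∀ i, ∃ g : V d → ℝ, SqP g ∧
      Tendsto (fun n => ∫ x in cell d, (g x - f i n x) ^ 2) atTop (𝓝 0) := by
    intro i
    refine OptAux.complete (fun n x => f i n x) (fun n => hfq i n) ?_
    intro η hη
    obtain ⟨N, hN⟩ := hc (η / (2 * (d + 1))) (by positivity)
    refine ⟨N, fun m hm n hn => lt_of_le_of_lt (poincare hP hPa (f := fun x => f i m x - f i n x)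
      ((hfs i m).sub (hfs i n)) (fun x j => by simp only [hfp i m x j, hfp i n x j]) ?_) ?_⟩
    · rw [integral_sub (int_of_cont (hfs i m).continuous) (int_of_cont (hfs i n).continuous), hfm,
        hfm, sub_zero]
    · have h1 : ∀ j, ∫ x in cell d, Korn.pd (fun x => f i m x - f i n x) j x ^ 2 ≤
          2 * ∫ x in cell d, nsq (sg (u m).u x - sg (u n).u x) := by
        intro j
        refine le_trans (le_of_eq ?_) (hgd m n i j)
        refine integral_congr_ae (Eventually.of_forall fun x => ?_)
        simp only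
        congr 1
        unfold Korn.pd
        rw [fderiv_fun_sub ((hfs i m).differentiable (by simp) x)
          ((hfs i n).differentiable (by simp) x)]
        show fderiv ℝ (f i m) x _ - fderiv ℝ (f i n) x _ = _
        rw [hfd, hfd]
      have h2 := hN m hm n hn
      have h3 : ∑ j, ∫ x in cell d, Korn.pd (fun x => f i m x - f i n x) j x ^ 2 ≤
          ∑ _j : Fin d, 2 * ∫ x in cell d, nsq (sg (u m).u x - sg (u n).u x) :=
        Finset.sum_le_sum fun j _ => h1 j
      refine lt_of_le_of_lt h3 ?_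
      rw [Finset.sum_const, Finset.card_univ, Fintype.card_fin, nsmul_eq_mul]
      rw [lt_div_iff₀ (by positivity)] at h2
      have h4 : 0 ≤ ∫ x in cell d, nsq (sg (u m).u x - sg (u n).u x) :=
        integral_nonneg fun x => nsq_nonneg _
      nlinarith
  choose U hUs hUl using hU
  refine ⟨⟨fun x i => U i x, fun x i j => H i j x, hUs, hHs, ?_⟩, ?_⟩
  · intro φ hφ hφc i j
    have c1 : Continuous fun x => fderiv ℝ φ x (Pi.single j 1) :=
      (hφ.continuous_fderiv (by simp)).clm_apply continuous_const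
    have s1 : HasCompactSupport fun x => fderiv ℝ φ x (Pi.single j 1) := hφc.fderiv_apply ℝ _
    have h1 := test_lim hE c1 s1 (hUs i) (hfq i) (hUl i)
    have h2 := test_lim hE hφ.continuous hφc (hHs i j)
      (fun n => OptAux.sqM_grad hE (u n) i j) (hHl i j)
    have h3 : ∀ n, ∫ x, f i n x * fderiv ℝ φ x (Pi.single j 1) =
        - ∫ x, grad (u n).u x i j * φ x := by
      intro n
      have hg : ∀ x, fderiv ℝ (f i n) x (Pi.single j 1) = grad (u n).u x i j := hfd i n j
      have hgc : Continuous fun x => fderiv ℝ (f i n) x (Pi.single j 1) :=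
        ((hfs i n).continuous_fderiv (by simp)).clm_apply continuous_const
      have := integral_mul_fderiv_eq_neg_fderiv_mul_of_integrable (μ := (volume : Measure (V d)))
        (f := f i n) (g := φ) (v := Pi.single j 1)
        ((hgc.mul hφ.continuous).integrable_of_hasCompactSupport hφc.mul_left)
        (((hfs i n).continuous.mul c1).integrable_of_hasCompactSupport s1.mul_left)
        (((hfs i n).continuous.mul hφ.continuous).integrable_of_hasCompactSupport hφc.mul_left)
        (fun x _ => (hfs i n).differentiable (by simp) x)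
        (fun x _ => hφ.differentiable (by simp) x)
      simp only [hg] at this
      exact this
    simp only [h3] at h1
    exact tendsto_nhds_unique h1 h2.neg
  · have h1 : Tendsto (fun n => ∑ i, ∑ j, ∫ x in cell d, (H i j x - grad (u n).u x i j) ^ 2) atTop
        (𝓝 (∑ i : Fin d, ∑ j : Fin d, (0 : ℝ))) :=
      tendsto_finsetSum _ fun i _ => tendsto_finsetSum _ fun j _ => hHl i j
    simp only [Finset.sum_const_zero] at h1
    refine squeeze_zero (fun n => integral_nonneg fun x => nsq_nonneg _) (fun n => ?_) h1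
    have hHM : SqM (fun x i j => H i j x) := fun i j => hHs i j
    have hs : SqM (fun x => (fun i j => H i j x) - grad (u n).u x) :=
      OptAux.sqM_sub hHM (OptAux.sqM_grad hE (u n))
    have hs2 : SqM (fun x => (fun i j => H i j x) - sg (u n).u x) :=
      OptAux.sqM_sub hHM (OptAux.sqM_sg hE (u n))
    have h2 : (∑ i, ∑ j, ∫ x in cell d, (H i j x - grad (u n).u x i j) ^ 2) =
        ∫ x in cell d, ip ((fun i j => H i j x) - grad (u n).u x)
          ((fun i j => H i j x) - grad (u n).u x) := by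
      simp only [ip_self_eq]
      rw [integral_finsetSum]
      · refine Finset.sum_congr rfl fun i _ => ?_
        rw [integral_finsetSum]
        · rfl
        · intro j _
          exact (hs i j).sq
      · intro i _
        refine integrable_finsetSum _ fun j _ => (hs i j).sq
    rw [h2]
    refine integral_mono (OptAux.sqM_nsq_int hs2) (OptAux.sqM_ip_int hs hs) fun x => ?_
    show nsq ((fun i j => H i j x) - sg (u n).u x) ≤ ip ((fun i j => H i j x) - grad (u n).u x)
          ((fun i j => H i j x) - grad (u n).u x)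
    refine le_trans (le_of_eq ?_) (nsq_le_ip _)
    unfold nsq sg
    rw [symm_sub, symm_sub, symm_symm]

end H1Aux

open H1Aux in
theorem h1min_ok (d : ℕ) (hE : BaseE d) (hO : StmtOpt d) (hK : StmtKorn d) (hP : StmtParts d)
    (hPa : StmtParseval d) (hH : StmtH1 d) : StmtH1Min d := by
  intro D α β hα hD ε
  have hD0 : IsFld D 0 β := OptAux.fld0 hα.le hD
  obtain ⟨W, G, hWe, _, hGM, _, _, hlim, _, hen, _⟩ := hO D α β hα hD
  have hseq : ∀ n : ℕ, ∃ u : Disp d, ∫ x in cell d, nsq (G ε x - ε - sg u.u x) < 1 / ((n : ℝ) + 1) :=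
    fun n => hlim ε _ (by positivity)
  choose u hu using hseq
  have hkM : SqM (fun x => G ε x - ε) := OptAux.sqM_sub (hGM ε) (OptAux.sqM_const hE ε)
  have hki : ∀ n, IntegrableOn (fun x => nsq (G ε x - ε - sg (u n).u x)) (cell d) := fun n =>
    OptAux.sqM_nsq_int (OptAux.sqM_sub hkM (OptAux.sqM_sg hE (u n)))
  have hc : ∀ η > 0, ∃ N, ∀ m ≥ N, ∀ n ≥ N,
      ∫ x in cell d, nsq (sg (u m).u x - sg (u n).u x) < η := by
    intro η hη
    obtain ⟨N, hN⟩ := exists_nat_gt (4 / η)
    have hNpos : 0 < (N : ℝ) := lt_trans (by positivity) hN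
    have hN2 : 1 / (N : ℝ) < η / 4 := by
      rw [div_lt_iff₀ (by positivity)] at hN
      rw [div_lt_iff₀ (by positivity)]
      nlinarith
    have hsm : ∀ n ≥ N, ∫ x in cell d, nsq (G ε x - ε - sg (u n).u x) < η / 4 := by
      intro n hn
      have h1 : 1 / ((n : ℝ) + 1) < 1 / (N : ℝ) := by
        have : (N : ℝ) ≤ n := by exact_mod_cast hn
        exact one_div_lt_one_div_of_lt hNpos (by linarith)
      linarith [hu n]
    refine ⟨N, fun m hm n hn => ?_⟩
    have h1 := hsm m hm
    have h2 := hsm n hn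
    calc ∫ x in cell d, nsq (sg (u m).u x - sg (u n).u x)
        ≤ ∫ x in cell d, (2 * nsq (G ε x - ε - sg (u m).u x) +
            2 * nsq (G ε x - ε - sg (u n).u x)) := by
          refine integral_mono (OptAux.sqM_nsq_int (OptAux.sqM_sub (OptAux.sqM_sg hE (u m))
            (OptAux.sqM_sg hE (u n)))) (((hki m).const_mul 2).add ((hki n).const_mul 2)) fun x => ?_
          show nsq (sg (u m).u x - sg (u n).u x) ≤ 2 * nsq (G ε x - ε - sg (u m).u x) +
            2 * nsq (G ε x - ε - sg (u n).u x)
          have h3 := nsq_sub_le (G ε x - ε - sg (u n).u x) (G ε x - ε - sg (u m).u x)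
          have e : G ε x - ε - sg (u n).u x - (G ε x - ε - sg (u m).u x) =
              sg (u m).u x - sg (u n).u x := by abel
          rw [e] at h3
          linarith
      _ = 2 * (∫ x in cell d, nsq (G ε x - ε - sg (u m).u x)) +
            2 * ∫ x in cell d, nsq (G ε x - ε - sg (u n).u x) := by
          rw [integral_add ((hki m).const_mul 2) ((hki n).const_mul 2), integral_const_mul,
            integral_const_mul]
      _ < η := by linarith
  obtain ⟨w, hw⟩ := exists_h1 hE hP hPa hK u hc
  refine ⟨w, ?_⟩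
  have hwM : SqM w.G := w.G_sq
  -- `w.G` and `G ε - ε` have the same symmetric part
  have hRM : SqM (fun x => w.G x - (G ε x - ε)) := OptAux.sqM_sub hwM hkM
  have hzero : ∫ x in cell d, nsq (w.G x - (G ε x - ε)) = 0 := by
    apply le_antisymm _ (integral_nonneg fun x => nsq_nonneg _)
    have h1 : ∀ n, ∫ x in cell d, nsq (w.G x - (G ε x - ε)) ≤
        2 * (∫ x in cell d, nsq (w.G x - sg (u n).u x)) + 2 * (1 / ((n : ℝ) + 1)) := by
      intro n
      have i1 : IntegrableOn (fun x => nsq (w.G x - sg (u n).u x)) (cell d) :=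
        OptAux.sqM_nsq_int (OptAux.sqM_sub hwM (OptAux.sqM_sg hE (u n)))
      have h2 : ∫ x in cell d, nsq (w.G x - (G ε x - ε)) ≤
          ∫ x in cell d, (2 * nsq (w.G x - sg (u n).u x) + 2 * nsq (G ε x - ε - sg (u n).u x)) := by
        refine integral_mono (OptAux.sqM_nsq_int hRM) ((i1.const_mul 2).add ((hki n).const_mul 2))
          fun x => ?_
        show nsq (w.G x - (G ε x - ε)) ≤ 2 * nsq (w.G x - sg (u n).u x) +
          2 * nsq (G ε x - ε - sg (u n).u x)
        have h3 := nsq_sub_le (w.G x - sg (u n).u x) (G ε x - ε - sg (u n).u x)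
        have e : w.G x - sg (u n).u x - (G ε x - ε - sg (u n).u x) = w.G x - (G ε x - ε) := by abel
        rwa [e] at h3
      rw [integral_add (i1.const_mul 2) ((hki n).const_mul 2), integral_const_mul,
        integral_const_mul] at h2
      linarith [hu n]
    have h2 : Tendsto (fun n : ℕ => 2 * (∫ x in cell d, nsq (w.G x - sg (u n).u x)) +
        2 * (1 / ((n : ℝ) + 1))) atTop (𝓝 (2 * 0 + 2 * 0)) :=
      (hw.const_mul 2).add ((tendsto_one_div_add_atTop_nhds_zero_nat (𝕜 := ℝ)).const_mul 2)
    simp only [mul_zero, add_zero] at h2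
    exact ge_of_tendsto' h2 h1
  have hb0 : OptAux.bil D (fun x => w.G x - (G ε x - ε)) (fun x => w.G x - (G ε x - ε)) = 0 := by
    apply le_antisymm _ (OptAux.bil_nonneg hD0 _)
    have := OptAux.bil_le hE hD0 hRM
    rw [hzero, mul_zero] at this
    exact this
  have hb1 : OptAux.bil D (G ε) (fun x => w.G x - (G ε x - ε)) = 0 := by
    have := OptAux.bil_cs hE hD0 (hGM ε) hRM
    rw [hb0, mul_zero] at this
    exact pow_eq_zero_iff (two_ne_zero) |>.mp (le_antisymm this (sq_nonneg _))
  rw [hH D β hD0 ε, ← hWe ε, ← hen ε]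
  have e1 : ∫ x in cell d, (D x).Q (ε + symm (w.G x)) =
      OptAux.bil D (fun x => G ε x + (w.G x - (G ε x - ε)))
        (fun x => G ε x + (w.G x - (G ε x - ε))) := by
    refine integral_congr_ae (Eventually.of_forall fun x => ?_)
    have e2 : G ε x + (w.G x - (G ε x - ε)) = ε + w.G x := by abel
    show (D x).Q (ε + symm (w.G x)) = (D x).Q (G ε x + (w.G x - (G ε x - ε)))
    rw [e2, ← (D x).Q_symm, ← (D x).Q_symm (ε + w.G x), symm_add, symm_symm, symm_add]
  rw [e1, OptAux.bil_expand hE hD0 (hGM ε) hRM, hb0, hb1]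
  simp only [mul_zero, add_zero]
  rfl

end Pool.Agent.Lib.MP_5df1bf_an
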