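import Pool.Agent.Lib.MP_5df1bf_an.Stmts1

/-!
# MP_5df1bf_an: A13, the Hashin–Shtrikman upper bound by a trigonometric test field
-/

open MeasureTheory Filter Topology
open scoped BigOperators ContDiff

noncomputable section

namespace Pool.Agent.Lib.MP_5df1bf_an
namespace HSb

variable {d : ℕ}

/-- phase, as a continuous linear map -/
def ph (k : Fin d → ℤ) : V d →L[ℝ] ℝ :=
  ∑ i, (2 * Real.pi * (k i : ℝ)) • ContinuousLinearMap.proj (R := ℝ) (φ := fun _ : Fin d => ℝ) i

lemma ph_apply (k : Fin d → ℤ) (x : V d) : ph k x = 2 * Real.pi * dot (zv k) x := by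
  simp [ph, dot, zv, Finset.mul_sum, mul_assoc]

lemma ph_single (k : Fin d → ℤ) (i : Fin d) : ph k (Pi.single i 1) = 2 * Real.pi * k i := by
  rw [ph_apply]
  simp [dot, zv, Pi.single_apply]

lemma ph_add (k l : Fin d → ℤ) (x : V d) : ph (k + l) x = ph k x + ph l x := by
  simp only [ph_apply, dot, zv, Pi.add_apply, Int.cast_add, add_mul, Finset.sum_add_distrib]
  ring

lemma ph_sub (k l : Fin d → ℤ) (x : V d) : ph (k - l) x = ph k x - ph l x := by
  simp only [ph_apply, dot, zv, Pi.sub_apply, Int.cast_sub, sub_mul, Finset.sum_sub_distrib]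
  ring

lemma ph_per (k : Fin d → ℤ) (x : V d) (i : Fin d) :
    ph k (x + Pi.single i 1) = ph k x + (k i : ℝ) * (2 * Real.pi) := by
  rw [map_add, ph_single]; ring

lemma cos_per (k : Fin d → ℤ) : Per fun x : V d => Real.cos (ph k x) := by
  intro x i
  simp only [ph_per]
  exact_mod_cast Real.cos_add_int_mul_two_pi (ph k x) (k i)

lemma sin_per (k : Fin d → ℤ) : Per fun x : V d => Real.sin (ph k x) := by
  intro x i
  simp only [ph_per]
  exact_mod_cast Real.sin_add_int_mul_two_pi (ph k x) (k i)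

/-- amplitude -/
def am (α β : ℝ) (k : Fin d → ℤ) (x : V d) : ℝ := α * Real.cos (ph k x) + β * Real.sin (ph k x)

lemma am_cont (α β : ℝ) (k : Fin d → ℤ) : Continuous (am α β k) := by
  unfold am
  have := (ph k).continuous
  fun_prop

/-- trigonometric displacement -/
def du (α β : ℝ) (k : Fin d → ℤ) (a : V d) : Disp d where
  u := fun x => ((α * Real.sin (ph k x) - β * Real.cos (ph k x)) / (2 * Real.pi)) • a
  smooth := by
    have h : ContDiff ℝ ∞ (ph k) := (ph k).contDiff
    have h1 : ContDiff ℝ ∞ fun x => (α * Real.sin (ph k x) - β * Real.cos (ph k x)) / (2 * Real.pi) :=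
      (((Real.contDiff_sin.comp h).const_smul α).sub ((Real.contDiff_cos.comp h).const_smul β)).div_const _
    exact h1.smul contDiff_const
  per := by
    intro x i
    have h1 := sin_per k x i
    have h2 := cos_per k x i
    simp only at h1 h2
    simp only [h1, h2]

lemma grad_du (α β : ℝ) (k : Fin d → ℤ) (a : V d) (x : V d) (i j : Fin d) :
    grad (du α β k a).u x i j = am α β k x * (a i * k j) := by
  have hph : HasFDerivAt (fun x => ph k x) (ph k) x := (ph k).hasFDerivAt
  have h1 : HasFDerivAt (fun x => (α * Real.sin (ph k x) - β * Real.cos (ph k x)) / (2 * Real.pi))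
      ((2 * Real.pi)⁻¹ • ((α • (Real.cos (ph k x) • ph k)) - (β • (-Real.sin (ph k x) • ph k)))) x := by
    have := ((hph.sin.const_mul α).sub (hph.cos.const_mul β)).mul_const (2 * Real.pi)⁻¹
    simp only [div_eq_mul_inv]
    exact this
  have h2 := h1.smul_const a
  have h3 : fderiv ℝ (du α β k a).u x = _ := h2.fderiv
  simp only [grad]
  rw [h3]
  have hpi : (2 * Real.pi) ≠ 0 := by positivity
  simp only [ContinuousLinearMap.smulRight_apply, smul_apply,
    sub_apply, ph_single, smul_eq_mul, Pi.smul_apply, am]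
  field_simp
  ring

lemma sg_du (α β : ℝ) (k : Fin d → ℤ) (a : V d) (x : V d) :
    sg (du α β k a).u x = am α β k x • sd a (zv k) := by
  ext i j
  simp only [sg, symm, grad_du, Pi.smul_apply, smul_eq_mul, sd, zv]
  ring

lemma iio {f : V d → ℝ} (hf : Continuous f) : IntegrableOn f (cell d) :=
  hf.continuousOn.integrableOn_compact isCompact_Icc

lemma ia {f g : V d → ℝ} (hf : Continuous f) (hg : Continuous g) :
    ∫ x in cell d, (f x + g x) = (∫ x in cell d, f x) + ∫ x in cell d, g x :=
  integral_add (iio hf) (iio hg)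

lemma isum {ι : Type*} (F : Finset ι) (f : ι → V d → ℝ) (hf : ∀ k, Continuous (f k)) :
    ∫ x in cell d, ∑ k ∈ F, f k x = ∑ k ∈ F, ∫ x in cell d, f k x :=
  integral_finsetSum _ fun k _ => iio (hf k)

lemma int_cos (hE : BaseE d) (m : Fin d → ℤ) (hm : m ≠ 0) :
    ∫ x in cell d, Real.cos (ph m x) = 0 := by
  obtain ⟨j, hj⟩ : ∃ j, m j ≠ 0 := by
    by_contra h
    push Not at h
    exact hm (funext h)
  have h := hE.mean (eb j j) (du 1 0 m (Pi.single j 1))
  have e : ∀ x, ip (eb j j) (grad (du 1 0 m (Pi.single j 1)).u x) = Real.cos (ph m x) * m j := by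
    intro x
    rw [ip_comm, ip_eb, grad_du]
    simp [am]
  simp only [e] at h
  rw [integral_mul_const] at h
  exact (mul_eq_zero.mp h).resolve_right (by exact_mod_cast hj)

lemma int_sin (hE : BaseE d) (m : Fin d → ℤ) :
    ∫ x in cell d, Real.sin (ph m x) = 0 := by
  by_cases hm : m = 0
  · have : ∀ x, ph m x = 0 := by
      intro x
      rw [ph_apply, hm]; simp [dot, zv]
    simp [this]
  obtain ⟨j, hj⟩ : ∃ j, m j ≠ 0 := by
    by_contra h
    push Not at h
    exact hm (funext h)
  have h := hE.mean (eb j j) (du 0 1 m (Pi.single j 1))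
  have e : ∀ x, ip (eb j j) (grad (du 0 1 m (Pi.single j 1)).u x) = Real.sin (ph m x) * m j := by
    intro x
    rw [ip_comm, ip_eb, grad_du]
    simp [am]
  simp only [e] at h
  rw [integral_mul_const] at h
  exact (mul_eq_zero.mp h).resolve_right (by exact_mod_cast hj)

lemma int_one (hE : BaseE d) (c : ℝ) : ∫ _x in cell d, c = c := by
  rw [setIntegral_const, Measure.real, hE.vol]; simp

lemma int_am (hE : BaseE d) (α β : ℝ) (k : Fin d → ℤ) (hk : k ≠ 0) :
    ∫ x in cell d, am α β k x = 0 := by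
  have hc : Continuous fun x : V d => α * Real.cos (ph k x) := by
    have := (ph k).continuous
    fun_prop
  have hs : Continuous fun x : V d => β * Real.sin (ph k x) := by
    have := (ph k).continuous
    fun_prop
  simp only [am]
  rw [integral_add (iio hc) (iio hs), integral_const_mul, integral_const_mul, int_cos hE k hk,
    int_sin hE]
  simp

/-- the integral of `cos` -/
def Ic (m : Fin d → ℤ) : ℝ := if m = 0 then 1 else 0

lemma int_cos' (hE : BaseE d) (m : Fin d → ℤ) : ∫ x in cell d, Real.cos (ph m x) = Ic m := by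
  unfold Ic
  split_ifs with h
  · have : ∀ x, ph m x = 0 := by
      intro x
      rw [ph_apply, h]; simp [dot, zv]
    simp only [this, Real.cos_zero]
    exact int_one hE 1
  · exact int_cos hE m h

lemma int_am_am (hE : BaseE d) (α β α' β' : ℝ) (k l : Fin d → ℤ) :
    ∫ x in cell d, am α β k x * am α' β' l x =
      ((α * α' - β * β') * Ic (k + l) + (α * α' + β * β') * Ic (k - l)) / 2 := by
  have e : ∀ x : V d, am α β k x * am α' β' l x =
      ((α * α' - β * β') / 2) * Real.cos (ph (k + l) x) +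
      (((α * α' + β * β') / 2) * Real.cos (ph (k - l) x) +
      (((α * β' + β * α') / 2) * Real.sin (ph (k + l) x) +
      ((β * α' - α * β') / 2) * Real.sin (ph (k - l) x))) := by
    intro x
    rw [ph_add, ph_sub, Real.cos_add, Real.cos_sub, Real.sin_add, Real.sin_sub]
    simp only [am]
    ring
  have pc : ∀ m : Fin d → ℤ, Continuous (ph m) := fun m => (ph m).continuous
  have p1 := pc (k + l)
  have p2 := pc (k - l)
  simp only [e]
  rw [ia (by fun_prop) (by fun_prop), ia (by fun_prop) (by fun_prop),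
    ia (by fun_prop) (by fun_prop),
    integral_const_mul, integral_const_mul, integral_const_mul, integral_const_mul,
    int_cos' hE, int_cos' hE, int_sin hE, int_sin hE]
  ring

/-! ### the indicator of the void -/

open Classical in
/-- indicator of the void -/
def vi (χ : Set (V d)) (x : V d) : ℝ := if x ∈ χ then 0 else 1

lemma vi_eq (χ : Set (V d)) (x : V d) : vi χ x = 1 - χ.indicator (fun _ => (1 : ℝ)) x := by
  classical
  by_cases h : x ∈ χ <;> simp [vi, h]

lemma vi_nonneg (χ : Set (V d)) (x : V d) : 0 ≤ vi χ x := by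
  unfold vi; split_ifs <;> norm_num

lemma vi_le (χ : Set (V d)) (x : V d) : vi χ x ≤ 1 := by
  unfold vi; split_ifs <;> norm_num

lemma vi_sq (χ : Set (V d)) (x : V d) : vi χ x ^ 2 = vi χ x := by
  unfold vi; split_ifs <;> norm_num

lemma vi_meas {χ : Set (V d)} (h : Micro χ) : Measurable (vi χ) := by
  have : vi χ = fun x => 1 - χ.indicator (fun _ => (1 : ℝ)) x := funext (vi_eq χ)
  rw [this]
  exact measurable_const.sub (measurable_const.indicator h.1)

lemma vi_per {χ : Set (V d)} (h : Micro χ) : Per (vi χ) := by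
  intro x i
  have h2 := h.2 x i
  by_cases hx : x ∈ χ
  · simp [vi, hx, h2.mpr hx]
  · have h3 : x + Pi.single i 1 ∉ χ := fun h => hx (h2.mp h)
    simp [vi, hx, h3]

lemma cell_fin (hE : BaseE d) : volume (cell d) ≠ ⊤ := by rw [hE.vol]; simp

/-- integrability of `v f`, `f` continuous -/
lemma iv (hE : BaseE d) {χ : Set (V d)} (h : Micro χ) {f : V d → ℝ} (hf : Continuous f) :
    IntegrableOn (fun x => vi χ x * f x) (cell d) := by
  obtain ⟨C, hC⟩ := (isCompact_Icc (a := (0 : V d)) (b := 1)).exists_bound_of_continuousOn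
    hf.continuousOn
  apply Measure.integrableOn_of_bounded (M := C) (cell_fin hE)
  · exact ((vi_meas h).mul hf.measurable).aestronglyMeasurable
  · refine (ae_restrict_iff' (measurableSet_Icc : MeasurableSet (cell d))).mpr ?_
    refine Eventually.of_forall fun x hx => ?_
    have h1 := hC x hx
    rw [norm_mul, Real.norm_eq_abs, abs_of_nonneg (vi_nonneg χ x)]
    have := vi_le χ x
    have := vi_nonneg χ x
    nlinarith [norm_nonneg (f x)]

lemma int_vi (hE : BaseE d) {χ : Set (V d)} (h : Micro χ) :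
    ∫ x in cell d, vi χ x = 1 - frac χ := by
  have e : ∀ x, vi χ x = 1 - χ.indicator (fun _ => (1 : ℝ)) x := vi_eq χ
  have hi : IntegrableOn (χ.indicator (fun _ => (1 : ℝ))) (cell d) := by
    apply Integrable.indicator _ h.1
    exact iio continuous_const
  simp only [e]
  rw [integral_sub (iio continuous_const) hi, int_one hE, integral_indicator h.1,
    Measure.restrict_restrict h.1]
  simp [frac, Measure.real]

/-- cosine coefficient -/
def ca (χ : Set (V d)) (k : Fin d → ℤ) : ℝ := ∫ x in cell d, vi χ x * Real.cos (ph k x)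
/-- sine coefficient -/
def cb (χ : Set (V d)) (k : Fin d → ℤ) : ℝ := ∫ x in cell d, vi χ x * Real.sin (ph k x)

lemma ph_neg (k : Fin d → ℤ) (x : V d) : ph (-k) x = - ph k x := by
  have := ph_add (-k) k x
  have h0 : ph (0 : Fin d → ℤ) x = 0 := by rw [ph_apply]; simp [dot, zv]
  rw [neg_add_cancel, h0] at this
  linarith

lemma ca_neg (χ : Set (V d)) (k : Fin d → ℤ) : ca χ (-k) = ca χ k := by
  simp only [ca, ph_neg, Real.cos_neg]

lemma cb_neg (χ : Set (V d)) (k : Fin d → ℤ) : cb χ (-k) = - cb χ k := by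
  simp only [cb, ph_neg, Real.sin_neg, mul_neg, integral_neg]

lemma fc_vi (hE : BaseE d) {χ : Set (V d)} (h : Micro χ) (k : Fin d → ℤ) :
    ‖fc (vi χ) k‖ ^ 2 = ca χ k ^ 2 + cb χ k ^ 2 := by
  have hk := (ph k).continuous
  have e : ∀ x : V d, (vi χ x : ℂ) * ek (-k) x =
      ((vi χ x * Real.cos (ph k x) : ℝ) : ℂ) - ((vi χ x * Real.sin (ph k x) : ℝ) : ℂ) * Complex.I := by
    intro x
    have h1 : ek (-k) x = Complex.exp (((-ph k x : ℝ) : ℂ) * Complex.I) := by
      unfold ek
      congr 1
      have : (-ph k x : ℝ) = 2 * Real.pi * dot (zv (-k)) x := by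
        rw [← ph_neg, ph_apply]
      rw [this]
      push_cast
      ring
    rw [h1, Complex.exp_mul_I, ← Complex.ofReal_cos, ← Complex.ofReal_sin, Real.cos_neg,
      Real.sin_neg]
    push_cast
    ring
  have h2 : fc (vi χ) k = ((ca χ k : ℝ) : ℂ) - ((cb χ k : ℝ) : ℂ) * Complex.I := by
    unfold fc
    simp only [e]
    rw [integral_sub, integral_mul_const, integral_complex_ofReal, integral_complex_ofReal]
    · rfl
    · exact (iv hE h (by fun_prop)).ofReal
    · exact (iv hE h (by fun_prop)).ofReal.mul_const _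
  rw [h2, ← Complex.normSq_eq_norm_sq, Complex.normSq_apply]
  simp
  ring

/-- the weights -/
def wt (χ : Set (V d)) (k : Fin d → ℤ) : ℝ := if k = 0 then 0 else ca χ k ^ 2 + cb χ k ^ 2

lemma wt_nonneg (χ : Set (V d)) (k : Fin d → ℤ) : 0 ≤ wt χ k := by
  unfold wt; split_ifs <;> positivity

lemma wt_sum (hE : BaseE d) (hP : StmtParseval d) {χ : Set (V d)} (h : Micro χ) :
    HasSum (wt χ) (frac χ * (1 - frac χ)) := by
  classical
  have hS : SqP (vi χ) := ⟨vi_meas h, vi_per h, by
    simp only [vi_sq]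
    have := iv hE h (continuous_const (y := (1 : ℝ)))
    simpa using this⟩
  have h1 := hP (vi χ) hS
  simp only [vi_sq] at h1
  rw [int_vi hE h] at h1
  have h2 := h1.update 0 0
  have h3 : ‖fc (vi χ) 0‖ ^ 2 = (1 - frac χ) ^ 2 := by
    rw [fc_vi hE h]
    have e : ∀ x : V d, ph (0 : Fin d → ℤ) x = 0 := fun x => by rw [ph_apply]; simp [dot, zv]
    have hc : ca χ 0 = 1 - frac χ := by
      simp only [ca, e, Real.cos_zero, mul_one]
      exact int_vi hE h
    have hs : cb χ 0 = 0 := by simp [cb, e]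
    rw [hc, hs]; ring
  rw [h3] at h2
  have hw : wt χ = Function.update (fun k => ‖fc (vi χ) k‖ ^ 2) 0 0 := by
    funext k
    by_cases hk : k = 0
    · subst hk; simp [wt]
    · simp [wt, hk, fc_vi hE h]
  have hv : frac χ * (1 - frac χ) = 0 - (1 - frac χ) ^ 2 + (1 - frac χ) := by ring
  rw [hw, hv]
  exact h2

/-! ### the test field -/

lemma exU (hE : BaseE d) (χ : Set (V d)) (a : (Fin d → ℤ) → V d) (F : Finset (Fin d → ℤ)) :
    ∃ u : Disp d, ∀ x, sg u.u x = ∑ k ∈ F, am (ca χ k) (cb χ k) k x • sd (a k) (zv k) := by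
  classical
  induction F using Finset.induction_on with
  | empty =>
    obtain ⟨w, -, hw⟩ := hE.zero
    exact ⟨w, fun x => by simp [sg, hw]⟩
  | insert k F hk ih =>
    obtain ⟨u, hu⟩ := ih
    obtain ⟨w, -, hw⟩ := hE.add (du (ca χ k) (cb χ k) k (a k)) u
    refine ⟨w, fun x => ?_⟩
    rw [Finset.sum_insert hk, ← hu, ← sg_du]
    simp only [sg, hw, symm_add]

lemma Q_lin (T : Tens d) (ε : M d) (F : Finset (Fin d → ℤ)) (c : (Fin d → ℤ) → ℝ)
    (S : (Fin d → ℤ) → M d) :
    T.Q (ε + ∑ k ∈ F, c k • S k) = T.Q ε + (∑ k ∈ F, 2 * ip (T.C ε) (S k) * c k) +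
      ∑ k ∈ F, ∑ l ∈ F, ip (T.C (S k)) (S l) * (c k * c l) := by
  rw [T.Q_add, ip_sum_right, Finset.mul_sum]
  congr 1
  · congr 1
    exact Finset.sum_congr rfl fun k _ => by rw [ip_smul_right]; ring
  · unfold Tens.Q
    rw [map_sum, ip_sum_left]
    refine Finset.sum_congr rfl fun k _ => ?_
    rw [ip_sum_right]
    refine Finset.sum_congr rfl fun l _ => ?_
    rw [map_smul, ip_smul_left, ip_smul_right]; ring

lemma Ic_nonneg (m : Fin d → ℤ) : 0 ≤ Ic m := by unfold Ic; split_ifs <;> norm_num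

lemma sum_Ic_add (k : Fin d → ℤ) (F : Finset (Fin d → ℤ)) : ∑ l ∈ F, Ic (k + l) ≤ 1 := by
  classical
  have : ∀ l ∈ F, Ic (k + l) = if l = -k then 1 else 0 := by
    intro l _
    by_cases hh : l = -k
    · subst hh; simp [Ic]
    · have h2 : k + l ≠ 0 := fun h => hh (by rw [add_comm] at h; exact eq_neg_of_add_eq_zero_left h)
      simp [Ic, h2, hh]
  rw [Finset.sum_congr rfl this, Finset.sum_ite_eq']
  split_ifs <;> norm_num

lemma sum_Ic_sub (k : Fin d → ℤ) (F : Finset (Fin d → ℤ)) : ∑ l ∈ F, Ic (k - l) ≤ 1 := by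
  classical
  have : ∀ l ∈ F, Ic (k - l) = if l = k then 1 else 0 := by
    intro l _
    by_cases hh : l = k
    · subst hh; simp [Ic]
    · have h2 : k - l ≠ 0 := fun h => hh (sub_eq_zero.mp h).symm
      simp [Ic, h2, hh]
  rw [Finset.sum_congr rfl this, Finset.sum_ite_eq']
  split_ifs <;> norm_num

lemma J_eq (hE : BaseE d) (χ : Set (V d)) (k l : Fin d → ℤ) (hk : k ≠ 0) :
    ∫ x in cell d, am (ca χ k) (cb χ k) k x * am (ca χ l) (cb χ l) l x =
      wt χ k / 2 * (Ic (k + l) + Ic (k - l)) := by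
  rw [int_am_am hE]
  have hw : wt χ k = ca χ k ^ 2 + cb χ k ^ 2 := by simp [wt, hk]
  rw [hw]
  by_cases h1 : k + l = 0
  · have hl : l = -k := by rw [add_comm] at h1; exact eq_neg_of_add_eq_zero_left h1
    subst hl
    have h2 : k - -k ≠ 0 := by
      intro h
      apply hk
      funext i
      have := congrFun h i
      simp at this
      simpa using this
    rw [show Ic (k + -k) = 1 by simp [Ic], show Ic (k - -k) = 0 by simp only [Ic, if_neg h2],
      ca_neg, cb_neg]
    ring
  · by_cases h2 : k - l = 0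
    · have hl : l = k := (sub_eq_zero.mp h2).symm
      subst hl
      rw [show Ic (l - l) = 1 by simp [Ic], show Ic (l + l) = 0 by simp only [Ic, if_neg h1]]
      ring
    · rw [show Ic (k - l) = 0 by simp only [Ic, if_neg h2],
        show Ic (k + l) = 0 by simp only [Ic, if_neg h1]]
      ring

/-- energy of the test field in the solid -/
lemma int_Q (hE : BaseE d) (A : Tens d) (hA : A.PSD) (χ : Set (V d)) (a : (Fin d → ℤ) → V d)
    (F : Finset (Fin d → ℤ)) (h0 : (0 : Fin d → ℤ) ∉ F) (ε : M d) :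
    ∫ x in cell d, A.Q (ε + ∑ k ∈ F, am (ca χ k) (cb χ k) k x • sd (a k) (zv k)) ≤
      A.Q ε + ∑ k ∈ F, wt χ k * A.Q (sd (a k) (zv k)) := by
  have hc : ∀ k, Continuous (am (ca χ k) (cb χ k) k) := fun k => am_cont _ _ _
  set S : (Fin d → ℤ) → M d := fun k => sd (a k) (zv k) with hS
  simp only [Q_lin]
  have i1 : Continuous fun x : V d => ∑ k ∈ F, 2 * ip (A.C ε) (S k) * am (ca χ k) (cb χ k) k x :=
    continuous_finsetSum _ fun k _ => continuous_const.mul (hc k)
  have i2 : Continuous fun x : V d => ∑ k ∈ F, ∑ l ∈ F, ip (A.C (S k)) (S l) *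
      (am (ca χ k) (cb χ k) k x * am (ca χ l) (cb χ l) l x) :=
    continuous_finsetSum _ fun k _ => continuous_finsetSum _ fun l _ =>
      continuous_const.mul ((hc k).mul (hc l))
  have i3 : Continuous fun x : V d => A.Q ε +
      ∑ k ∈ F, 2 * ip (A.C ε) (S k) * am (ca χ k) (cb χ k) k x := continuous_const.add i1
  rw [ia i3 i2, ia continuous_const i1, int_one hE]
  have e1 : ∫ x in cell d, ∑ k ∈ F, 2 * ip (A.C ε) (S k) * am (ca χ k) (cb χ k) k x = 0 := by
    refine (isum F (fun k x => 2 * ip (A.C ε) (S k) * am (ca χ k) (cb χ k) k x)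
      (fun k => continuous_const.mul (hc k))).trans ?_
    refine Finset.sum_eq_zero fun k hk => ?_
    rw [integral_const_mul, int_am hE _ _ k (fun h => h0 (h ▸ hk)), mul_zero]
  have e2 : ∫ x in cell d, ∑ k ∈ F, ∑ l ∈ F, ip (A.C (S k)) (S l) *
      (am (ca χ k) (cb χ k) k x * am (ca χ l) (cb χ l) l x) =
      ∑ k ∈ F, ∑ l ∈ F, ip (A.C (S k)) (S l) *
        ∫ x in cell d, am (ca χ k) (cb χ k) k x * am (ca χ l) (cb χ l) l x := by
    refine (isum F (fun k x => ∑ l ∈ F, ip (A.C (S k)) (S l) *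
      (am (ca χ k) (cb χ k) k x * am (ca χ l) (cb χ l) l x)) (fun k => continuous_finsetSum _
        fun l _ => continuous_const.mul ((hc k).mul (hc l)))).trans ?_
    refine Finset.sum_congr rfl fun k _ => ?_
    refine (isum F (fun l x => ip (A.C (S k)) (S l) *
      (am (ca χ k) (cb χ k) k x * am (ca χ l) (cb χ l) l x)) (fun l =>
        continuous_const.mul ((hc k).mul (hc l)))).trans ?_
    exact Finset.sum_congr rfl fun l _ => integral_const_mul _ _
  rw [e1, e2, add_zero]
  refine add_le_add le_rfl ?_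
  set J : (Fin d → ℤ) → (Fin d → ℤ) → ℝ := fun k l =>
    ∫ x in cell d, am (ca χ k) (cb χ k) k x * am (ca χ l) (cb χ l) l x with hJ
  have Jsymm : ∀ k l, J k l = J l k := by
    intro k l
    simp only [hJ, mul_comm]
  have Jval : ∀ k ∈ F, ∀ l, J k l = wt χ k / 2 * (Ic (k + l) + Ic (k - l)) := by
    intro k hk l
    exact J_eq hE χ k l (fun h => h0 (h ▸ hk))
  have Jnn : ∀ k ∈ F, ∀ l, 0 ≤ J k l := by
    intro k hk l
    rw [Jval k hk l]
    have := wt_nonneg χ k
    have := Ic_nonneg (k + l)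
    have := Ic_nonneg (k - l)
    positivity
  have Jsum : ∀ k ∈ F, ∑ l ∈ F, J k l ≤ wt χ k := by
    intro k hk
    have : ∑ l ∈ F, J k l = wt χ k / 2 * (∑ l ∈ F, Ic (k + l) + ∑ l ∈ F, Ic (k - l)) := by
      rw [← Finset.sum_add_distrib, Finset.mul_sum]
      exact Finset.sum_congr rfl fun l _ => Jval k hk l
    rw [this]
    have h1 := sum_Ic_add k F
    have h2 := sum_Ic_sub k F
    have h3 := wt_nonneg χ k
    nlinarith
  have cs : ∀ k l, ip (A.C (S k)) (S l) ≤ (A.Q (S k) + A.Q (S l)) / 2 := by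
    intro k l
    have := hA (S k - S l)
    rw [A.Q_sub] at this
    linarith
  calc ∑ k ∈ F, ∑ l ∈ F, ip (A.C (S k)) (S l) * J k l
      ≤ ∑ k ∈ F, ∑ l ∈ F, (A.Q (S k) + A.Q (S l)) / 2 * J k l :=
        Finset.sum_le_sum fun k hk => Finset.sum_le_sum fun l _ =>
          mul_le_mul_of_nonneg_right (cs k l) (Jnn k hk l)
    _ = (∑ k ∈ F, ∑ l ∈ F, A.Q (S k) / 2 * J k l) + ∑ k ∈ F, ∑ l ∈ F, A.Q (S l) / 2 * J k l := by
        rw [← Finset.sum_add_distrib]
        refine Finset.sum_congr rfl fun k _ => ?_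
        rw [← Finset.sum_add_distrib]
        exact Finset.sum_congr rfl fun l _ => by ring
    _ = (∑ k ∈ F, ∑ l ∈ F, A.Q (S k) / 2 * J k l) + ∑ k ∈ F, ∑ l ∈ F, A.Q (S k) / 2 * J k l := by
        congr 1
        rw [Finset.sum_comm]
        exact Finset.sum_congr rfl fun k _ => Finset.sum_congr rfl fun l _ => by rw [Jsymm]
    _ = ∑ k ∈ F, A.Q (S k) * ∑ l ∈ F, J k l := by
        rw [← Finset.sum_add_distrib]
        refine Finset.sum_congr rfl fun k _ => ?_
        rw [← Finset.mul_sum]
        ring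
    _ ≤ ∑ k ∈ F, wt χ k * A.Q (S k) := by
        refine Finset.sum_le_sum fun k hk => ?_
        rw [mul_comm (wt χ k)]
        exact mul_le_mul_of_nonneg_left (Jsum k hk) (hA _)

/-- the linear term in the void -/
lemma int_v (hE : BaseE d) {χ : Set (V d)} (h : Micro χ) (a : (Fin d → ℤ) → V d)
    (F : Finset (Fin d → ℤ)) (h0 : (0 : Fin d → ℤ) ∉ F) (ε q : M d) (I : ℝ) :
    ∫ x in cell d, vi χ x * (2 * ip q (symm (ε + ∑ k ∈ F,
        am (ca χ k) (cb χ k) k x • sd (a k) (zv k))) - I) =
      (1 - frac χ) * (2 * ip q (symm ε) - I) + ∑ k ∈ F, 2 * wt χ k * ip q (sd (a k) (zv k)) := by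
  have hc : ∀ k, Continuous (am (ca χ k) (cb χ k) k) := fun k => am_cont _ _ _
  have e : ∀ x : V d, vi χ x * (2 * ip q (symm (ε + ∑ k ∈ F,
        am (ca χ k) (cb χ k) k x • sd (a k) (zv k))) - I) =
      vi χ x * (2 * ip q (symm ε) - I) +
        ∑ k ∈ F, 2 * ip q (sd (a k) (zv k)) * (vi χ x * am (ca χ k) (cb χ k) k x) := by
    intro x
    rw [symm_add, symm_sum, ip_add_right, ip_sum_right]
    have : ∀ k ∈ F, ip q (symm (am (ca χ k) (cb χ k) k x • sd (a k) (zv k))) =
        am (ca χ k) (cb χ k) k x * ip q (sd (a k) (zv k)) := by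
      intro k _
      rw [symm_smul, symm_sd, ip_smul_right]
    rw [Finset.sum_congr rfl this, ← sub_eq_zero]
    have h2 : ∑ k ∈ F, 2 * ip q (sd (a k) (zv k)) * (vi χ x * am (ca χ k) (cb χ k) k x) =
        2 * vi χ x * ∑ k ∈ F, am (ca χ k) (cb χ k) k x * ip q (sd (a k) (zv k)) := by
      rw [Finset.mul_sum]
      exact Finset.sum_congr rfl fun k _ => by ring
    rw [h2]
    ring
  simp only [e]
  rw [integral_add (iv hE h continuous_const) (integrable_finsetSum _ fun k _ =>
    (iv hE h (hc k)).const_mul _), integral_mul_const, int_vi hE h,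
    integral_finsetSum _ fun k _ => (iv hE h (hc k)).const_mul _]
  congr 1
  refine Finset.sum_congr rfl fun k hk => ?_
  have hk0 : k ≠ 0 := fun h => h0 (h ▸ hk)
  rw [integral_const_mul]
  have : ∫ x in cell d, vi χ x * am (ca χ k) (cb χ k) k x = wt χ k := by
    have hp := (ph k).continuous
    have e2 : ∀ x : V d, vi χ x * am (ca χ k) (cb χ k) k x =
        ca χ k * (vi χ x * Real.cos (ph k x)) + cb χ k * (vi χ x * Real.sin (ph k x)) := by
      intro x; unfold am; ring
    simp only [e2]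
    rw [integral_add ((iv hE h (by fun_prop)).const_mul _) ((iv hE h (by fun_prop)).const_mul _),
      integral_const_mul, integral_const_mul]
    simp only [wt, hk0, if_false]
    change ca χ k * ca χ k + cb χ k * cb χ k = _
    ring
  rw [this]; ring

end HSb

open HSb in
/-- A13 -/
theorem HS_ok (d : ℕ) (hE : BaseE d) (hP : StmtParseval d) (hI : StmtInvT d) (hG : StmtGamT d) :
    StmtHS d := by
  classical
  intro A hA χ hχ
  refine ⟨wt χ, wt_nonneg χ, by simp [wt], wt_sum hE hP hχ, ?_⟩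
  intro q δ hδ hδ1 ε
  obtain ⟨Ai, hAiPD, hAiQ, hInv, -⟩ := hI A hA
  obtain ⟨Γ, hΓ1, hΓ2, hΓ3, hΓ4, -, -, -⟩ := hG A hA
  have hAP : A.PSD := hA.psd
  have hInv0 : 0 ≤ Inv A q := by rw [hAiQ]; exact hAiPD.psd q
  set θ := frac χ with hθ
  have hθ1 : θ ≤ 1 := by
    rw [hθ, frac]
    have h1 : volume (χ ∩ cell d) ≤ 1 := by
      calc volume (χ ∩ cell d) ≤ volume (cell d) := measure_mono Set.inter_subset_right
        _ = 1 := hE.vol
    have := ENNReal.toReal_mono (by simp) h1
    simpa using this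
  have hθ0 : 0 ≤ θ := ENNReal.toReal_nonneg
  -- bounds on the field
  obtain ⟨α, hα, hAα⟩ := hA
  obtain ⟨β, hβ, hAβ⟩ := A.exists_bound
  have hfld := hE.phase_fld A α β hα (fun ξ => ⟨hAα ξ, (le_abs_self _).trans (hAβ ξ)⟩) χ hχ δ hδ hδ1
  have hfld0 : IsFld (phase A δ χ) 0 β :=
    ⟨hfld.meas, hfld.per, fun x B => by
      have := hfld.lo x B
      have h2 : 0 ≤ δ * α * nsq B := mul_nonneg (mul_nonneg hδ.le hα.le) (nsq_nonneg B)
      linarith, hfld.hi⟩
  -- maximisers
  choose a₀ ha₀ using fun n => hΓ4 n q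
  set a : (Fin d → ℤ) → V d := fun k => (1 - δ) • a₀ (zv k) with ha
  set R := A.Q ε - 2 * (1 - θ) * ip q (symm ε) + (1 - θ) * Inv A q +
    δ * (1 + nsq q + Inv A q) * (1 + nsq ε) - eff (phase A δ χ) ε with hR
  have key : ∀ F : Finset (Fin d → ℤ), ∑ k ∈ F, wt χ k * Gam A (zv k) q ≤ R := by
    intro F'
    set F := F'.erase 0 with hF
    have h0 : (0 : Fin d → ℤ) ∉ F := Finset.notMem_erase _ _
    have hFF : ∑ k ∈ F', wt χ k * Gam A (zv k) q = ∑ k ∈ F, wt χ k * Gam A (zv k) q := by
      rw [hF, Finset.sum_erase]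
      simp [wt]
    rw [hFF]
    obtain ⟨u, hu⟩ := exU hE χ a F
    have h1 := hE.eff_le _ β hfld0 ε u
    have h2 : energy (phase A δ χ) ε u ≤ ∫ x in cell d, (A.Q (ε + sg u.u x) -
        (1 - δ) * (vi χ x * (2 * ip q (symm (ε + sg u.u x)) - Inv A q))) := by
      unfold energy
      apply integral_mono (hE.int _ β hfld0 ε u)
      · apply Integrable.sub
        · have := hE.int (fun _ => A) β ⟨fun _ _ => measurable_const, fun _ _ => rfl,
            fun _ B => by simpa using hAP B, fun _ B => (le_abs_self _).trans (hAβ B)⟩ ε u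
          exact this
        · apply Integrable.const_mul
          apply iv hE hχ
          simp only [hu]
          have hc : ∀ k, Continuous (am (ca χ k) (cb χ k) k) := fun k => am_cont _ _ _
          have hcc : Continuous fun x : V d => ε + ∑ k ∈ F,
              am (ca χ k) (cb χ k) k x • sd (a k) (zv k) :=
            continuous_const.add (continuous_finsetSum _ fun k _ => (hc k).smul continuous_const)
          have hsy : Continuous (fun B : M d => 2 * ip q (symm B) - Inv A q) := by
            unfold ip symm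
            fun_prop
          exact hsy.comp hcc
      · intro x
        simp only
        by_cases hx : x ∈ χ
        · simp [phase, vi, hx]
        · have e1 : (phase A δ χ x).Q (ε + sg u.u x) = δ * A.Q (ε + sg u.u x) := by
            simp only [phase, hx, if_false, Tens.Q, Tens.scale, LinearMap.smul_apply]
            rw [ip_smul_left]
          rw [e1]
          simp only [vi, hx, if_false]
          have := hInv (ε + sg u.u x) q
          nlinarith
    have h3 : ∫ x in cell d, (A.Q (ε + sg u.u x) -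
        (1 - δ) * (vi χ x * (2 * ip q (symm (ε + sg u.u x)) - Inv A q))) =
        (∫ x in cell d, A.Q (ε + sg u.u x)) - (1 - δ) *
          ∫ x in cell d, vi χ x * (2 * ip q (symm (ε + sg u.u x)) - Inv A q) := by
      rw [integral_sub, integral_const_mul]
      · exact hE.int (fun _ => A) β ⟨fun _ _ => measurable_const, fun _ _ => rfl,
            fun _ B => by simpa using hAP B, fun _ B => (le_abs_self _).trans (hAβ B)⟩ ε u
      · apply Integrable.const_mul
        apply iv hE hχ
        simp only [hu]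
        have hc : ∀ k, Continuous (am (ca χ k) (cb χ k) k) := fun k => am_cont _ _ _
        have hcc : Continuous fun x : V d => ε + ∑ k ∈ F,
            am (ca χ k) (cb χ k) k x • sd (a k) (zv k) :=
          continuous_const.add (continuous_finsetSum _ fun k _ => (hc k).smul continuous_const)
        have hsy : Continuous (fun B : M d => 2 * ip q (symm B) - Inv A q) := by
          unfold ip symm
          fun_prop
        exact hsy.comp hcc
    rw [h3] at h2
    simp only [hu] at h2
    rw [int_v hE hχ a F h0 ε q (Inv A q)] at h2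
    have h4 := int_Q hE A hAP χ a F h0 ε
    have h5 : ∀ k ∈ F, wt χ k * A.Q (sd (a k) (zv k)) -
        (1 - δ) * (2 * wt χ k * ip q (sd (a k) (zv k))) =
        - ((1 - δ) ^ 2 * (wt χ k * Gam A (zv k) q)) := by
      intro k _
      rw [← ha₀ (zv k), ha]
      simp only [sd_smul_left, A.Q_smul, ip_smul_right]
      ring
    have h6 : ∑ k ∈ F, wt χ k * A.Q (sd (a k) (zv k)) -
        (1 - δ) * ∑ k ∈ F, 2 * wt χ k * ip q (sd (a k) (zv k)) =
        - ((1 - δ) ^ 2 * ∑ k ∈ F, wt χ k * Gam A (zv k) q) := by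
      rw [Finset.mul_sum, ← Finset.sum_sub_distrib, Finset.mul_sum, ← Finset.sum_neg_distrib]
      exact Finset.sum_congr rfl h5
    set G := ∑ k ∈ F, wt χ k * Gam A (zv k) q with hGdef
    have hG0 : 0 ≤ G := Finset.sum_nonneg fun k _ => mul_nonneg (wt_nonneg χ k) (hΓ2 _ _).1
    have hG1 : G ≤ θ * (1 - θ) * Inv A q := by
      calc G ≤ ∑ k ∈ F, wt χ k * Inv A q :=
            Finset.sum_le_sum fun k _ => mul_le_mul_of_nonneg_left (hΓ2 _ _).2 (wt_nonneg χ k)
        _ = (∑ k ∈ F, wt χ k) * Inv A q := by rw [Finset.sum_mul]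
        _ ≤ θ * (1 - θ) * Inv A q := by
            apply mul_le_mul_of_nonneg_right _ hInv0
            exact sum_le_hasSum F (fun k _ => wt_nonneg χ k) (wt_sum hE hP hχ)
    have hG2 : G ≤ Inv A q / 4 := by nlinarith [sq_nonneg (θ - 1 / 2)]
    have hqe : 2 * ip q (symm ε) ≤ nsq q + nsq ε := by
      have := nsq_nonneg (q - ε)
      rw [nsq_sub, ip_symm_left] at this
      linarith
    have hq0 := nsq_nonneg q
    have he0 := nsq_nonneg ε
    rw [hR]
    have h7 : 2 * δ * (1 - θ) * ip q (symm ε) ≤ δ * (nsq q + nsq ε) := by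
      have h8 : (1 - θ) * (2 * ip q (symm ε)) ≤ nsq q + nsq ε := by
        rcases le_total 0 (2 * ip q (symm ε)) with h | h
        · nlinarith
        · nlinarith
      nlinarith
    have h9 : (1 - δ) * (1 - θ) * Inv A q ≤ (1 - θ) * Inv A q := by
      nlinarith [mul_nonneg (mul_nonneg hδ.le (sub_nonneg.mpr hθ1)) hInv0]
    have h10 : δ * (nsq q + nsq ε + Inv A q / 2) ≤ δ * (1 + nsq q + Inv A q) * (1 + nsq ε) := by
      rw [mul_assoc]
      apply mul_le_mul_of_nonneg_left _ hδ.le
      nlinarith [mul_nonneg hq0 he0, mul_nonneg hInv0 he0]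
    have h11 : -((1 - δ) ^ 2 * G) ≤ -G + 2 * δ * G := by nlinarith [mul_nonneg (sq_nonneg δ) hG0]
    have h12 : 2 * δ * G ≤ δ * (Inv A q / 2) := by nlinarith
    nlinarith
  have hsum := Real.tsum_le_of_sum_le (f := fun k => wt χ k * Gam A (zv k) q)
    (fun k => mul_nonneg (wt_nonneg χ k) (hΓ2 _ _).1) key
  rw [hR] at hsum
  linarith

end Pool.Agent.Lib.MP_5df1bf_an
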