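import Pool.Agent.Lib.MP_5df1bf_an.Stmts1

/-!
# MP_5df1bf_an, A13a and A13b: the inverse of a tensor and the tensors `Γ(n)`
-/

open MeasureTheory Filter Topology
open scoped BigOperators ContDiff

noncomputable section

namespace Pool.Agent.Lib.MP_5df1bf_an

variable {d : ℕ}

/-! ### inverse -/

theorem ig_inj {A : Tens d} (hA : A.PD) {ξ : M d} (h : A.C ξ = 0) : symm ξ = 0 := by
  obtain ⟨α, hα, hA⟩ := hA
  have h1 : A.Q ξ = 0 := by unfold Tens.Q; rw [h, ip_zero_left]
  have h2 := hA ξ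
  rw [h1] at h2
  have h3 := nsq_nonneg ξ
  have h4 : nsq ξ = 0 := by
    by_contra h5
    have : 0 < nsq ξ := lt_of_le_of_ne h3 (Ne.symm h5)
    have := mul_pos hα this
    linarith
  exact nsq_eq_zero h4

/-- `ξ ↦ symm ξ` as a linear map -/
def symmL (d : ℕ) : M d →ₗ[ℝ] M d where
  toFun := symm
  map_add' := symm_add
  map_smul' := fun c x => symm_smul c x

@[simp] theorem symmL_apply (ξ : M d) : symmL d ξ = symm ξ := rfl

theorem ig_surj {A : Tens d} (hA : A.PD) : ∃ L : M d →ₗ[ℝ] M d,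
    (∀ q, symm (L q) = L q) ∧ ∀ q, A.C (L q) = symm q := by
  let K : M d →ₗ[ℝ] M d := A.C + (LinearMap.id - symmL d)
  have hK : ∀ ξ, K ξ = A.C ξ + (ξ - symm ξ) := fun ξ => rfl
  have hinj : Function.Injective K := by
    rw [← LinearMap.ker_eq_bot, LinearMap.ker_eq_bot']
    intro ξ h
    rw [hK] at h
    have h1 : symm (A.C ξ + (ξ - symm ξ)) = 0 := by rw [h, symm_zero]
    rw [symm_add, Tens.symm_C, symm_sub, symm_symm, sub_self, add_zero] at h1
    have h2 := ig_inj hA h1
    rw [h1, h2, zero_add, sub_zero] at h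
    exact h
  let e := LinearEquiv.ofInjectiveEndo K hinj
  have he : ∀ q, K (e.symm q) = q := fun q => by
    have := e.apply_symm_apply q
    exact this
  have hsym : ∀ q, symm q = q → symm (e.symm q) = e.symm q ∧ A.C (e.symm q) = q := by
    intro q hq
    have h1 := he q
    rw [hK] at h1
    have h2 : symm (A.C (e.symm q) + (e.symm q - symm (e.symm q))) = symm q := by rw [h1]
    rw [symm_add, Tens.symm_C, symm_sub, symm_symm, sub_self, add_zero, hq] at h2
    rw [h2] at h1
    have h3 : e.symm q - symm (e.symm q) = 0 := by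
      have := sub_eq_zero.mpr h1
      rw [add_sub_cancel_left] at this
      exact this
    exact ⟨(sub_eq_zero.mp h3).symm, h2⟩
  refine ⟨(e.symm : M d →ₗ[ℝ] M d) ∘ₗ symmL d, fun q => ?_, fun q => ?_⟩
  · exact (hsym (symm q) (symm_symm q)).1
  · exact (hsym (symm q) (symm_symm q)).2

theorem ig_inv {A : Tens d} (hA : A.PD) : ∃ Ai : Tens d,
    (∀ q, A.C (Ai.C q) = symm q) ∧ (∀ ξ, Ai.C (A.C ξ) = symm ξ) ∧ Ai.PD ∧
    (∀ q, Ai.Q q = A.Q (Ai.C q)) := by
  obtain ⟨L, hL1, hL2⟩ := ig_surj hA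
  have hsa : ∀ p q, ip (L p) q = ip p (L q) := by
    intro p q
    calc ip (L p) q = ip (L p) (symm q) := (ip_eq_symm _ _ (hL1 p)).symm
      _ = ip (L p) (A.C (L q)) := by rw [hL2]
      _ = ip (A.C (L p)) (L q) := (A.sa _ _).symm
      _ = ip (symm p) (L q) := by rw [hL2]
      _ = ip p (L q) := by rw [ip_symm_left, hL1]
  have htr : ∀ q, L (tp q) = L q := by
    intro q
    have h1 : A.C (L (tp q) - L q) = 0 := by rw [map_sub, hL2, hL2, symm_tp, sub_self]
    have h2 := ig_inj hA h1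
    rw [symm_sub, hL1, hL1] at h2
    exact sub_eq_zero.mp h2
  let Ai : Tens d := ⟨L, hsa, htr⟩
  have hQ : ∀ q, Ai.Q q = A.Q (L q) := by
    intro q
    show ip (L q) q = ip (A.C (L q)) (L q)
    rw [hL2, ip_symm_left, hL1, ip_comm]
  obtain ⟨β, hβ, hb⟩ := A.exists_bound
  have hpsd := hA.psd
  refine ⟨Ai, hL2, ?_, ⟨1 / β, by positivity, ?_⟩, hQ⟩
  · intro ξ
    have h1 : A.C (L (A.C ξ) - symm ξ) = 0 := by
      rw [map_sub, hL2, Tens.symm_C, Tens.C_symm, sub_self]
    have h2 := ig_inj hA h1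
    rw [symm_sub, hL1, symm_symm] at h2
    exact sub_eq_zero.mp h2
  · intro q
    rw [hQ]
    have h1 := Tens.Q_cs hpsd (L q) (symm q)
    have h2 : ip (A.C (L q)) (symm q) = nsq q := by rw [hL2]; rfl
    rw [h2] at h1
    have h3 : A.Q (symm q) ≤ β * nsq q := by
      have := (le_abs_self _).trans (hb (symm q))
      rwa [nsq_symm] at this
    have h4 : 0 ≤ A.Q (L q) := hpsd _
    have h5 := nsq_nonneg q
    have h6 : nsq q ^ 2 ≤ A.Q (L q) * (β * nsq q) :=
      h1.trans (mul_le_mul_of_nonneg_left h3 h4)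
    rcases h5.eq_or_lt with h7 | h7
    · rw [← h7, mul_zero]; exact h4
    · have h8 : nsq q ≤ A.Q (L q) * β := by
        have : nsq q * nsq q ≤ (A.Q (L q) * β) * nsq q := by nlinarith
        exact le_of_mul_le_mul_right this h7
      rw [one_div, ← div_eq_inv_mul, div_le_iff₀ hβ]
      exact h8

theorem ig_le {A Ai : Tens d} (hA : A.PSD) (h1 : ∀ q, A.C (Ai.C q) = symm q)
    (h2 : ∀ q, Ai.Q q = A.Q (Ai.C q)) (ξ q : M d) :
    2 * ip q (symm ξ) - A.Q ξ ≤ Ai.Q q := by
  have h3 := hA (ξ - Ai.C q)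
  rw [Tens.Q_sub, A.ip_comm_C ξ, h1, ip_symm_left, ← h2] at h3
  linarith

theorem ig_Inv {A Ai : Tens d} (hA : A.PSD) (h1 : ∀ q, A.C (Ai.C q) = symm q)
    (h2 : ∀ q, Ai.Q q = A.Q (Ai.C q)) (q : M d) : Inv A q = Ai.Q q := by
  refine le_antisymm (ciSup_le fun ξ => ig_le hA h1 h2 ξ q) ?_
  have hb : BddAbove (Set.range fun ξ : M d => 2 * ip q (symm ξ) - A.Q ξ) :=
    ⟨Ai.Q q, by rintro _ ⟨ξ, rfl⟩; exact ig_le hA h1 h2 ξ q⟩
  refine le_trans (le_of_eq ?_) (le_ciSup hb (Ai.C q))
  have h3 : ip q (symm (Ai.C q)) = Ai.Q q := by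
    rw [Tens.symm_C, ip_comm]; rfl
  simp only [h3, ← h2]
  ring

theorem InvT_ok (d : ℕ) : StmtInvT d := by
  intro A hA
  obtain ⟨Ai, h1, h2, h3, h4⟩ := ig_inv hA
  refine ⟨Ai, h3, ig_Inv hA.psd h1 h4, ?_, fun ξ => ⟨h2 ξ, h1 ξ⟩⟩
  intro ξ q
  rw [ig_Inv hA.psd h1 h4]
  exact ig_le hA.psd h1 h4 ξ q

/-! ### the tensors `Γ(n)` -/

theorem sd_sub_left (a b n : V d) : sd (a - b) n = sd a n - sd b n := by
  rw [sub_eq_add_neg, sd_add_left, sd_neg_left, sub_eq_add_neg]

/-- the acoustic matrix -/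
def Kac (A : Tens d) (n : V d) : Matrix (Fin d) (Fin d) ℝ :=
  Matrix.of fun a b => ip (A.C (sd (Pi.single a 1) n)) (sd (Pi.single b 1) n)

theorem sd_expand (a n : V d) : sd a n = ∑ i, a i • sd (Pi.single i 1) n := by
  ext p r
  simp only [sd, Finset.sum_apply, Pi.smul_apply, smul_eq_mul, Pi.single_apply]
  have h1 : ∀ x : Fin d, a x * (((if p = x then (1 : ℝ) else 0) * n r +
      (if r = x then (1 : ℝ) else 0) * n p) / 2) =
      (if p = x then a x * n r / 2 else 0) + (if r = x then a x * n p / 2 else 0) := by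
    intro x
    split_ifs <;> ring
  rw [Finset.sum_congr rfl fun x _ => h1 x, Finset.sum_add_distrib, Finset.sum_ite_eq,
    Finset.sum_ite_eq]
  simp
  ring

theorem Kac_ip (A : Tens d) (n a b : V d) :
    dot (Matrix.mulVec (Kac A n) a) b = ip (A.C (sd a n)) (sd b n) := by
  rw [sd_expand a n, sd_expand b n]
  simp only [map_sum, map_smul, ip_sum_left, ip_sum_right, ip_smul_left, ip_smul_right]
  simp only [dot, Matrix.mulVec, dotProduct, Kac, Matrix.of_apply, Finset.sum_mul]
  refine Finset.sum_congr rfl fun i _ => ?_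
  rw [Finset.mul_sum]
  refine Finset.sum_congr rfl fun j _ => ?_
  rw [A.ip_comm_C (sd (Pi.single i 1) n) (sd (Pi.single j 1) n)]
  ring

theorem Kac_det {A : Tens d} (hA : A.PD) {n : V d} (hn : n ≠ 0) : (Kac A n).det ≠ 0 := by
  intro h
  obtain ⟨v, hv, hv2⟩ := Matrix.exists_mulVec_eq_zero_iff.mpr h
  obtain ⟨α, hα, hA⟩ := hA
  have h1 := Kac_ip A n v v
  rw [hv2] at h1
  have h2 : dot (0 : V d) v = 0 := by simp [dot]
  rw [h2] at h1
  have h3 := hA (sd v n)
  have h4 : A.Q (sd v n) = 0 := h1.symm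
  rw [h4, nsq_sd] at h3
  have h5 := dot_self_pos hv
  have h6 := dot_self_pos hn
  have h7 := mul_pos h5 h6
  have h8 := sq_nonneg (dot v n)
  have h9 : 0 < α * ((dot v v * dot n n + dot v n ^ 2) / 2) := by positivity
  linarith

/-- the optimal vector -/
def avec (A : Tens d) (n : V d) (q : M d) : V d :=
  Matrix.mulVec (Kac A n)⁻¹ (mulV (symm q) n)

theorem mulV_add (A B : M d) (x : V d) : mulV (A + B) x = mulV A x + mulV B x := by
  ext i; simp [mulV, add_mul, Finset.sum_add_distrib]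

theorem mulV_smul (c : ℝ) (A : M d) (x : V d) : mulV (c • A) x = c • mulV A x := by
  ext i; simp [mulV, Finset.mul_sum, mul_assoc]

theorem Kac_avec {A : Tens d} (hA : A.PD) {n : V d} (hn : n ≠ 0) (q : M d) :
    Matrix.mulVec (Kac A n) (avec A n q) = mulV (symm q) n := by
  unfold avec
  rw [Matrix.mulVec_mulVec, Matrix.mul_nonsing_inv _ (isUnit_iff_ne_zero.mpr (Kac_det hA hn)),
    Matrix.one_mulVec]

theorem avec_ip {A : Tens d} (hA : A.PD) {n : V d} (hn : n ≠ 0) (q : M d) (b : V d) :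
    ip (A.C (sd (avec A n q) n)) (sd b n) = ip q (sd b n) := by
  rw [← Kac_ip, Kac_avec hA hn, ip_sd, dot_comm]

theorem Kac_symm (A : Tens d) (n : V d) : (Kac A n).transpose = Kac A n := by
  ext a b
  simp only [Matrix.transpose_apply, Kac, Matrix.of_apply]
  exact A.ip_comm_C _ _

theorem dot_mulVec (K : Matrix (Fin d) (Fin d) ℝ) (a b : V d) :
    dot (Matrix.mulVec K a) b = dot a (Matrix.mulVec K.transpose b) := by
  simp only [dot, Matrix.mulVec, dotProduct, Matrix.transpose_apply, Finset.sum_mul,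
    Finset.mul_sum]
  rw [Finset.sum_comm]
  exact Finset.sum_congr rfl fun i _ => Finset.sum_congr rfl fun j _ => by ring

theorem ip_sd_avec (A : Tens d) (n : V d) (q q' : M d) :
    ip (sd (avec A n q) n) q' = dot (avec A n q) (mulV (symm q') n) := by
  rw [ip_comm, ip_sd]

/-- the tensor `Γ(n)` -/
def GamT (A : Tens d) (n : V d) : Tens d where
  C :=
    { toFun := fun q => sd (avec A n q) n
      map_add' := by
        intro p q
        unfold avec
        rw [symm_add, mulV_add, Matrix.mulVec_add, sd_add_left]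
      map_smul' := by
        intro c q
        simp only [RingHom.id_apply]
        unfold avec
        rw [symm_smul, mulV_smul, Matrix.mulVec_smul, sd_smul_left] }
  sa := by
    intro p q
    show ip (sd (avec A n p) n) q = ip p (sd (avec A n q) n)
    rw [ip_sd_avec, ip_sd, dot_comm _ (mulV (symm p) n)]
    unfold avec
    rw [dot_mulVec, Matrix.transpose_nonsing_inv, Kac_symm]
  tr := by
    intro q
    show sd (avec A n (tp q)) n = sd (avec A n q) n
    unfold avec
    rw [symm_tp]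

theorem GamT_C (A : Tens d) (n : V d) (q : M d) : (GamT A n).C q = sd (avec A n q) n := rfl

theorem gam_le {A : Tens d} (hA : A.PD) {n : V d} (hn : n ≠ 0) (q : M d) (a : V d) :
    2 * ip q (sd a n) - A.Q (sd a n) ≤ (GamT A n).Q q := by
  have h1 := hA.psd (sd a n - sd (avec A n q) n)
  rw [Tens.Q_sub, A.ip_comm_C (sd a n), avec_ip hA hn] at h1
  have h2 : A.Q (sd (avec A n q) n) = ip q (sd (avec A n q) n) := avec_ip hA hn q _
  have h3 : (GamT A n).Q q = ip q (sd (avec A n q) n) := by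
    unfold Tens.Q; rw [GamT_C, ip_comm]
  rw [h2] at h1
  rw [h3]
  linarith

theorem gam_eq {A : Tens d} (hA : A.PD) {n : V d} (hn : n ≠ 0) (q : M d) :
    2 * ip q (sd (avec A n q) n) - A.Q (sd (avec A n q) n) = (GamT A n).Q q := by
  have h2 : A.Q (sd (avec A n q) n) = ip q (sd (avec A n q) n) := avec_ip hA hn q _
  have h3 : (GamT A n).Q q = ip q (sd (avec A n q) n) := by
    unfold Tens.Q; rw [GamT_C, ip_comm]
  rw [h2, h3]; ring

theorem gam_cont {A : Tens d} (hA : A.PD) (q q' : M d) :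
    ContinuousOn (fun n => ip ((GamT A n).C q) q') {n | n ≠ 0} := by
  have hsd : ∀ a : V d, Continuous fun n : V d => sd a n := by
    intro a
    unfold sd
    fun_prop
  have hlin : ∀ L : M d →ₗ[ℝ] M d, Continuous L := fun L => L.continuous_of_finiteDimensional
  have hip : ∀ {f g : V d → M d}, Continuous f → Continuous g →
      Continuous fun n => ip (f n) (g n) := by
    intro f g hf hg
    unfold ip
    refine continuous_finsetSum _ fun i _ => continuous_finsetSum _ fun j _ => ?_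
    exact ((continuous_apply j).comp ((continuous_apply i).comp hf)).mul
      ((continuous_apply j).comp ((continuous_apply i).comp hg))
  have hK : Continuous fun n : V d => Kac A n := by
    refine continuous_matrix fun a b => ?_
    exact hip ((hlin A.C).comp (hsd _)) (hsd _)
  have hmul : ∀ s : M d, Continuous fun n : V d => mulV s n := by
    intro s
    unfold mulV
    fun_prop
  have e : ∀ n, ip ((GamT A n).C q) q' =
      (Kac A n).det⁻¹ * dot (Matrix.mulVec (Kac A n).adjugate (mulV (symm q) n))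
        (mulV (symm q') n) := by
    intro n
    rw [GamT_C, ip_sd_avec]
    unfold avec
    rw [Matrix.inv_def, Ring.inverse_eq_inv', Matrix.smul_mulVec, dot_smul_left]
  simp only [e]
  refine ContinuousOn.mul (ContinuousOn.inv₀ hK.matrix_det.continuousOn
    fun n hn => Kac_det hA hn) ?_
  refine Continuous.continuousOn ?_
  have h1 : Continuous fun n : V d =>
      Matrix.mulVec (Kac A n).adjugate (mulV (symm q) n) :=
    hK.matrix_adjugate.matrix_mulVec (hmul _)
  unfold dot
  refine continuous_finsetSum _ fun i _ => ?_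
  exact ((continuous_apply i).comp h1).mul ((continuous_apply i).comp (hmul _))

theorem GamT_ok (d : ℕ) : StmtGamT d := by
  intro A hA
  obtain ⟨Ai, hAi, hInv, hle, -⟩ := InvT_ok d A hA
  have hbd : ∀ n q, BddAbove (Set.range fun a : V d => 2 * ip q (sd a n) - A.Q (sd a n)) := by
    intro n q
    refine ⟨Inv A q, ?_⟩
    rintro _ ⟨a, rfl⟩
    have := hle (sd a n) q
    rwa [symm_sd] at this
  have hval : ∀ n q a, 2 * ip q (sd a n) - A.Q (sd a n) ≤ Gam A n q := fun n q a =>
    le_ciSup (hbd n q) a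
  have hgam : ∀ n q, n ≠ 0 → Gam A n q = (GamT A n).Q q := by
    intro n q hn
    refine le_antisymm (ciSup_le fun a => gam_le hA hn q a) ?_
    rw [← gam_eq hA hn q]
    exact hval n q _
  have hex : ∀ n q, ∃ a, 2 * ip q (sd a n) - A.Q (sd a n) = Gam A n q := by
    intro n q
    by_cases hn : n = 0
    · subst hn
      refine ⟨0, le_antisymm (hval 0 q 0) (ciSup_le fun a => ?_)⟩
      rw [sd_zero_right, sd_zero_right]
    · exact ⟨avec A n q, by rw [gam_eq hA hn, hgam n q hn]⟩
  have hhom : ∀ n q (t : ℝ), t ≠ 0 → Gam A (t • n) q ≤ Gam A n q := by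
    intro n q t _
    refine ciSup_le fun a => ?_
    have h1 : sd a (t • n) = sd (t • a) n := by rw [sd_smul_right, sd_smul_left]
    rw [h1]
    exact hval n q _
  refine ⟨GamT A, hgam, ?_, hval, hex, ?_, gam_cont hA, ?_⟩
  · intro n q
    refine ⟨?_, ciSup_le fun a => ?_⟩
    · have := hval n q 0
      rw [sd_zero_left, ip_zero_right, Tens.Q_zero] at this
      linarith
    · have := hle (sd a n) q
      rwa [symm_sd] at this
  · intro n q t ht
    refine le_antisymm (hhom n q t ht) ?_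
    have h1 := hhom (t • n) q t⁻¹ (inv_ne_zero ht)
    rwa [smul_smul, inv_mul_cancel₀ ht, one_smul] at h1
  · intro n hn η hη
    obtain ⟨α, hα, hAi⟩ := hAi
    by_contra hcon
    push Not at hcon
    have hsel : ∀ m : ℕ, ∃ n' : V d, n' ≠ 0 ∧ (∀ i, |n' i - n i| < 1 / ((m : ℝ) + 1)) ∧
        ∃ q, η * Inv A q < |Gam A n' q - Gam A n q| := by
      intro m
      obtain ⟨n', h1, h2, q, h3⟩ := hcon (1 / ((m : ℝ) + 1)) (by positivity)
      exact ⟨n', h1, h2, q, h3⟩
    choose s hs1 hs2 q hq using hsel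
    have htend : Tendsto s atTop (𝓝 n) := by
      rw [tendsto_pi_nhds]
      intro i
      rw [tendsto_iff_dist_tendsto_zero]
      refine squeeze_zero (fun m => dist_nonneg) (fun m => ?_)
        tendsto_one_div_add_atTop_nhds_zero_nat
      rw [Real.dist_eq]
      exact (hs2 m i).le
    have htend' : Tendsto s atTop (𝓝[{n | n ≠ 0}] n) :=
      tendsto_nhdsWithin_iff.mpr ⟨htend, Filter.Eventually.of_forall hs1⟩
    have hlim : ∀ ξ, Tendsto (fun m => (GamT A (s m)).Q ξ) atTop (𝓝 ((GamT A n).Q ξ)) := by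
      intro ξ
      have h1 := (gam_cont hA ξ ξ) n hn
      exact h1.tendsto.comp htend'
    have h1 := tens_unif (fun m => GamT A (s m)) (GamT A n) hlim (η * α) (by positivity)
    obtain ⟨m, hm⟩ := h1.exists
    have h2 := hm (q m)
    have h3 := hq m
    rw [hgam _ _ (hs1 m), hgam _ _ hn, hInv] at h3
    have h4 := mul_le_mul_of_nonneg_left (hAi (q m)) hη.le
    linarith

end Pool.Agent.Lib.MP_5df1bf_an
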