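import Pool.Agent.Lib.MP_5df1bf_an.Stmts3
import Pool.Agent.Lib.MP_5df1bf_an.InvGam

/-!
# MP_5df1bf_an, D5: chains of softenings, everything below a realizable tensor is realizable
-/

open MeasureTheory Filter Topology
open scoped BigOperators ContDiff MatrixOrder

noncomputable section

namespace Pool.Agent.Lib.MP_5df1bf_an

variable {d : ℕ}

theorem her_soft_Q (C : Tens d) (E : M d) (t : ℝ) (ξ : M d) :
    (soft C E t).Q ξ = C.Q ξ - t * (ip (C.C E) ξ) ^ 2 / C.Q E := by
  show ip (C.C ξ - (t * ip (C.C E) ξ / C.Q E) • C.C E) ξ = _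
  rw [ip_sub_left, ip_smul_left]
  unfold Tens.Q
  ring

/-- subtracting the square of a linear form -/
def subR (T : Tens d) (s : M d) (hs : tp s = s) : Tens d where
  C :=
    { toFun := fun ξ => T.C ξ - ip s ξ • s
      map_add' := by
        intro x y
        rw [map_add, ip_add_right, add_smul]
        abel
      map_smul' := by
        intro c x
        rw [map_smul, ip_smul_right, mul_smul, RingHom.id_apply, smul_sub] }
  sa := by
    intro A B
    show ip (T.C A - ip s A • s) B = ip A (T.C B - ip s B • s)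
    rw [ip_sub_left, ip_sub_right, ip_smul_left, ip_smul_right, T.sa, ip_comm A s]
    ring
  tr := by
    intro A
    show T.C (tp A) - ip s (tp A) • s = T.C A - ip s A • s
    rw [T.tr, ← ip_tp_left, hs]

theorem subR_Q (T : Tens d) (s : M d) (hs : tp s = s) (ξ : M d) :
    (subR T s hs).Q ξ = T.Q ξ - (ip s ξ) ^ 2 := by
  show ip (T.C ξ - ip s ξ • s) ξ = _
  rw [ip_sub_left, ip_smul_left]
  unfold Tens.Q
  ring

/-- one step of the chain -/
theorem subR_soft (T : Tens d) (hT : T.PD) (s : M d) (hs : tp s = s) (h : (subR T s hs).PD) :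
    ∃ (E : M d) (t : ℝ), tp E = E ∧ 0 ≤ t ∧ t < 1 ∧ subR T s hs = soft T E t := by
  obtain ⟨Ai, h1, h2, h3, h4⟩ := ig_inv hT
  have hE : symm (Ai.C s) = Ai.C s := Ai.symm_C s
  have hTE : T.C (Ai.C s) = s := by rw [h1, symm_of_tp hs]
  have hQ : ip s (Ai.C s) = T.Q (Ai.C s) := by
    unfold Tens.Q
    rw [hTE]
  refine ⟨Ai.C s, T.Q (Ai.C s), tp_of_symm hE, hT.psd _, ?_, ?_⟩
  · by_cases h0 : T.Q (Ai.C s) = 0
    · rw [h0]; exact one_pos
    · have hpos : 0 < T.Q (Ai.C s) := lt_of_le_of_ne (hT.psd _) (Ne.symm h0)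
      have hns : 0 < nsq (Ai.C s) := by
        refine lt_of_le_of_ne (nsq_nonneg _) fun hz => h0 ?_
        have h5 := nsq_eq_zero hz.symm
        rw [← Tens.Q_symm, h5, Tens.Q_zero]
      obtain ⟨α, hα, hPD⟩ := h
      have h6 := hPD (Ai.C s)
      rw [subR_Q, hQ] at h6
      have h7 : 0 < T.Q (Ai.C s) - T.Q (Ai.C s) ^ 2 := lt_of_lt_of_le (mul_pos hα hns) h6
      nlinarith
  · apply Tens.ext_Q
    intro ξ
    rw [subR_Q, her_soft_Q, hTE]
    by_cases h0 : T.Q (Ai.C s) = 0
    · have h5 : symm (Ai.C s) = 0 := by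
        apply nsq_eq_zero
        obtain ⟨α, hα, hPD⟩ := hT
        have h6 := hPD (Ai.C s)
        rw [h0] at h6
        have h7 := nsq_nonneg (Ai.C s)
        nlinarith
      rw [hE] at h5
      have h6 : s = 0 := by rw [← hTE, h5, map_zero]
      rw [h6, ip_zero_left]
      simp
    · field_simp

/-- a positive semidefinite form is a sum of squares of linear forms -/
theorem exists_squares (C C' : Tens d) (h : ∀ ξ, C'.Q ξ ≤ C.Q ξ) :
    ∃ (n : ℕ) (ds : ℕ → M d), (∀ k, tp (ds k) = ds k) ∧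
      ∀ ξ, C.Q ξ - C'.Q ξ = ∑ k ∈ Finset.range n, (ip (ds k) ξ) ^ 2 := by
  classical
  let N : Matrix (Fin d × Fin d) (Fin d × Fin d) ℝ := fun p q =>
    ip (C.C (eb p.1 p.2)) (eb q.1 q.2) - ip (C'.C (eb p.1 p.2)) (eb q.1 q.2)
  have hexp : ∀ ξ : M d, C.Q ξ - C'.Q ξ = ∑ p : Fin d × Fin d, ∑ q : Fin d × Fin d,
      ξ p.1 p.2 * N p q * ξ q.1 q.2 := by
    intro ξ
    rw [C.Q_expand, C'.Q_expand, Fintype.sum_prod_type, ← Finset.sum_sub_distrib]
    refine Finset.sum_congr rfl fun i _ => ?_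
    rw [← Finset.sum_sub_distrib]
    refine Finset.sum_congr rfl fun j _ => ?_
    rw [Fintype.sum_prod_type, ← Finset.sum_sub_distrib]
    refine Finset.sum_congr rfl fun k _ => ?_
    rw [← Finset.sum_sub_distrib]
    refine Finset.sum_congr rfl fun l _ => ?_
    simp only [N]
    ring
  have hN : N.PosSemidef := by
    refine Matrix.PosSemidef.of_dotProduct_mulVec_nonneg ?_ ?_
    · ext p q
      simp only [N, Matrix.conjTranspose_apply, star_trivial]
      rw [C.ip_comm_C, C'.ip_comm_C]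
    · intro x
      have h1 := hexp (fun i j => x (i, j))
      have h2 := h (fun i j => x (i, j))
      have h3 : star x ⬝ᵥ N.mulVec x = ∑ p : Fin d × Fin d, ∑ q : Fin d × Fin d,
          x (p.1, p.2) * N p q * x (q.1, q.2) := by
        simp only [dotProduct, Matrix.mulVec, Pi.star_apply, star_trivial, Finset.mul_sum]
        refine Finset.sum_congr rfl fun p _ => Finset.sum_congr rfl fun q _ => ?_
        ring
      rw [h3]
      have h4 := h1
      have h5 : 0 ≤ C.Q (fun i j => x (i, j)) - C'.Q (fun i j => x (i, j)) := by linarith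
      rw [h4] at h5
      exact h5
  obtain ⟨B, hB⟩ : ∃ B : Matrix (Fin d × Fin d) (Fin d × Fin d) ℝ, N = B.transpose * B := by
    obtain ⟨B, hB⟩ := CStarAlgebra.nonneg_iff_eq_star_mul_self.mp
      (Matrix.nonneg_iff_posSemidef.2 hN)
    refine ⟨B, hB.trans ?_⟩
    rw [Matrix.star_eq_conjTranspose, Matrix.conjTranspose_eq_transpose_of_trivial]
  let e : Fin (Fintype.card (Fin d × Fin d)) ≃ Fin d × Fin d := (Fintype.equivFin _).symm
  let D : Fin d × Fin d → M d := fun r => symm fun i j => B r (i, j)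
  refine ⟨Fintype.card (Fin d × Fin d),
    fun k => if hk : k < Fintype.card (Fin d × Fin d) then D (e ⟨k, hk⟩) else 0, ?_, ?_⟩
  · intro k
    by_cases hk : k < Fintype.card (Fin d × Fin d)
    · simp only [dif_pos hk, D, tp_symm]
    · simp only [dif_neg hk]
      rfl
  · intro ξ
    have h1 : C.Q ξ - C'.Q ξ = ∑ r : Fin d × Fin d, (ip (D r) ξ) ^ 2 := by
      have h2 : ∀ r, ip (D r) ξ = ∑ p : Fin d × Fin d, B r p * (symm ξ) p.1 p.2 := by
        intro r
        simp only [D]
        rw [ip_symm_left, Fintype.sum_prod_type]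
        rfl
      have h3 := hexp (symm ξ)
      rw [Tens.Q_symm, Tens.Q_symm] at h3
      rw [h3]
      have h4 : ∀ p q, N p q = ∑ r, B r p * B r q := by
        intro p q
        rw [hB, Matrix.mul_apply]
        simp
      simp only [h2, sq, Finset.sum_mul_sum, h4, Finset.mul_sum, Finset.sum_mul]
      calc ∑ p : Fin d × Fin d, ∑ q : Fin d × Fin d, ∑ r : Fin d × Fin d,
            symm ξ p.1 p.2 * (B r p * B r q) * symm ξ q.1 q.2
          = ∑ p : Fin d × Fin d, ∑ r : Fin d × Fin d, ∑ q : Fin d × Fin d,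
            symm ξ p.1 p.2 * (B r p * B r q) * symm ξ q.1 q.2 :=
            Finset.sum_congr rfl fun p _ => Finset.sum_comm
        _ = ∑ r : Fin d × Fin d, ∑ p : Fin d × Fin d, ∑ q : Fin d × Fin d,
            symm ξ p.1 p.2 * (B r p * B r q) * symm ξ q.1 q.2 := Finset.sum_comm
        _ = _ := by
            refine Finset.sum_congr rfl fun r _ => Finset.sum_congr rfl fun p _ =>
              Finset.sum_congr rfl fun q _ => ?_
            ring
    rw [h1, ← Fin.sum_univ_eq_sum_range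
      (fun k => (ip (if hk : k < Fintype.card (Fin d × Fin d) then D (e ⟨k, hk⟩) else 0) ξ) ^ 2)]
    rw [← e.sum_comp]
    refine Finset.sum_congr rfl fun k _ => ?_
    simp only [k.2, dif_pos, Fin.eta]

/-- the chain -/
def chT (C : Tens d) (ds : ℕ → M d) (h : ∀ k, tp (ds k) = ds k) : ℕ → Tens d
  | 0 => C
  | m + 1 => subR (chT C ds h m) (ds m) (h m)

theorem chT_Q (C : Tens d) (ds : ℕ → M d) (h : ∀ k, tp (ds k) = ds k) (m : ℕ) (ξ : M d) :
    (chT C ds h m).Q ξ = C.Q ξ - ∑ k ∈ Finset.range m, (ip (ds k) ξ) ^ 2 := by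
  induction m with
  | zero => simp [chT]
  | succ m ih =>
    rw [chT, subR_Q, ih, Finset.sum_range_succ]
    ring

theorem Chain_ok (d : ℕ) : StmtChain d := by
  intro C C' hC hC' hle
  obtain ⟨n, ds, hds, hsq⟩ := exists_squares C C' hle
  have hPD : ∀ m, m ≤ n → (chT C ds hds m).PD := by
    intro m hm
    obtain ⟨α, hα, h'⟩ := hC'
    refine ⟨α, hα, fun ξ => ?_⟩
    rw [chT_Q]
    have h1 : ∑ k ∈ Finset.range m, (ip (ds k) ξ) ^ 2 ≤
        ∑ k ∈ Finset.range n, (ip (ds k) ξ) ^ 2 :=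
      Finset.sum_le_sum_of_subset_of_nonneg (Finset.range_mono hm) fun _ _ _ => sq_nonneg _
    have h2 := hsq ξ
    have h3 := h' ξ
    linarith
  have hstep : ∀ m, ∃ (E : M d) (t : ℝ), tp E = E ∧ 0 ≤ t ∧ t < 1 ∧
      (m < n → chT C ds hds (m + 1) = soft (chT C ds hds m) E t) := by
    intro m
    by_cases hm : m < n
    · obtain ⟨E, t, h1, h2, h3, h4⟩ := subR_soft (chT C ds hds m) (hPD m hm.le) (ds m) (hds m)
        (hPD (m + 1) hm)
      exact ⟨E, t, h1, h2, h3, fun _ => h4⟩
    · exact ⟨0, 0, rfl, le_refl _, one_pos, fun h => absurd h hm⟩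
  choose E t hE using hstep
  refine ⟨n, E, t, fun m => chT C ds hds (min m n), ?_, ?_, ?_, ?_⟩
  · simp [chT]
  · apply Tens.ext_Q
    intro ξ
    show (chT C ds hds (min n n)).Q ξ = C'.Q ξ
    rw [min_self, chT_Q, ← hsq ξ]
    ring
  · intro i
    exact ⟨(hE i).1, (hE i).2.1, (hE i).2.2.1, hPD _ (min_le_right _ _)⟩
  · intro i hi
    show chT C ds hds (min (i + 1) n) = soft (chT C ds hds (min i n)) (E i) (t i)
    rw [min_eq_left (by omega : i + 1 ≤ n), min_eq_left hi.le]
    exact (hE i).2.2.2 hi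

theorem Her_ok (d : ℕ) (hS : StmtSoft d) : StmtHer d := by
  intro hd A C C' f hA hC hC' hR hle
  obtain ⟨n, E, t, T, h0, hn, hp, hs⟩ := Chain_ok d C C' hC hC' hle
  have h : ∀ m, m ≤ n → Rz A (T m) f := by
    intro m
    induction m with
    | zero => intro _; rw [h0]; exact hR
    | succ m ih =>
      intro hm
      rw [hs m (by omega)]
      exact hS hd A (T m) f hA (hp m).2.2.2 (ih (by omega)) (E m) (hp m).1 (t m) (hp m).2.1
        (hp m).2.2.1
  rw [← hn]
  exact h n le_rfl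

end Pool.Agent.Lib.MP_5df1bf_an
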