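import Pool.Agent.Lib.MP_5df1bf_an.Stmts2

/-!
# MP_5df1bf_an: assembly (Part III): definitions and statements
-/

open MeasureTheory Filter Topology
open scoped BigOperators ContDiff

noncomputable section

namespace Pool.Agent.Lib.MP_5df1bf_an

variable {d : ℕ}

/-- `C - t (C E ⊗ C E) / (E : C E)`, i.e. `(C⁻¹ + λ E ⊗ E)⁻¹` with `t = λ Q(E) / (1 + λ Q(E))` -/
def soft (C : Tens d) (E : M d) (t : ℝ) : Tens d where
  C :=
    { toFun := fun ξ => C.C ξ - (t * ip (C.C E) ξ / C.Q E) • C.C E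
      map_add' := by
        intro x y
        have : ip (C.C E) (x + y) = ip (C.C E) x + ip (C.C E) y := by
          rw [ip_comm, ip_add_left, ip_comm, ip_comm y]
        rw [map_add, this, mul_add, add_div, add_smul]
        abel
      map_smul' := by
        intro c x
        have : ip (C.C E) (c • x) = c * ip (C.C E) x := by
          rw [ip_comm, ip_smul_left, ip_comm]
        rw [map_smul, this, smul_sub, smul_smul]
        congr 2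
        simp only [RingHom.id_apply]
        ring }
  sa := by
    intro A B
    show ip (C.C A - (t * ip (C.C E) A / C.Q E) • C.C E) B =
      ip A (C.C B - (t * ip (C.C E) B / C.Q E) • C.C E)
    have e1 : ∀ X Y Z : M d, ip (X - Y) Z = ip X Z - ip Y Z := by
      intro X Y Z; simp [ip, sub_mul, Finset.sum_sub_distrib]
    have e2 : ∀ X Y Z : M d, ip X (Y - Z) = ip X Y - ip X Z := by
      intro X Y Z; rw [ip_comm, e1, ip_comm, ip_comm Z]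
    rw [e1, e2, ip_smul_left, ip_comm A (_ • _), ip_smul_left, C.sa A B]
    ring
  tr := by
    intro A
    have h1 : ip (C.C E) (tp A) = ip (C.C E) A := by
      rw [C.sa, C.tr, ← C.sa]
    show C.C (tp A) - (t * ip (C.C E) (tp A) / C.Q E) • C.C E =
      C.C A - (t * ip (C.C E) A / C.Q E) • C.C E
    rw [h1, C.tr]

/-- D1: the gadget in the calculus of realizable tensors -/
def StmtGad (d : ℕ) : Prop := 2 ≤ d → ∀ (A C : Tens d) (f : ℝ), A.PD → C.PD → Rz A C f →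
  ∀ c : Fin d → ℤ, (∀ k, c k = 1 ∨ c k = -1) → ∀ η > 0, ∃ (C' : Tens d) (f' : ℝ),
    C'.PSD ∧ Rz A C' f' ∧ |f' - f| < η ∧
    ∀ ξ, |C'.Q ξ - (soft C (dg fun k => (c k : ℝ)) 1).Q ξ| ≤ η * nsq ξ

/-- D2: one direction of softening, diagonal case -/
def StmtSoftDiag (d : ℕ) : Prop := 2 ≤ d → ∀ (A C : Tens d) (f : ℝ), A.PD → C.PD → Rz A C f →
  ∀ c : Fin d → ℤ, (∀ k, c k = 1 ∨ c k = -1) → ∀ t, 0 ≤ t → t < 1 →
    Rz A (soft C (dg fun k => (c k : ℝ)) t) f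

/-- D3: density of the matrices `λ Bᵀ diag(±1) B`, `B` an integer matrix -/
def StmtDense (d : ℕ) : Prop := ∀ E : M d, tp E = E → ∀ η > 0,
  ∃ (B : Matrix (Fin d) (Fin d) ℤ) (c : Fin d → ℤ) (s : ℝ), B.det ≠ 0 ∧ (∀ k, c k = 1 ∨ c k = -1) ∧
    0 < s ∧ nsq (s • conj B (dg fun k => (c k : ℝ)) - E) < η

/-- D4: one direction of softening -/
def StmtSoft (d : ℕ) : Prop := 2 ≤ d → ∀ (A C : Tens d) (f : ℝ), A.PD → C.PD → Rz A C f →
  ∀ E : M d, tp E = E → ∀ t, 0 ≤ t → t < 1 → Rz A (soft C E t) f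

/-- D5: everything below a realizable tensor is realizable -/
def StmtHer (d : ℕ) : Prop := 2 ≤ d → ∀ (A C C' : Tens d) (f : ℝ), A.PD → C.PD → C'.PD → Rz A C f →
  (∀ ξ, C'.Q ξ ≤ C.Q ξ) → Rz A C' f

/-- D5': chains of softenings reach every positive definite `C' ≤ C` -/
def StmtChain (d : ℕ) : Prop := ∀ (C C' : Tens d), C.PD → C'.PD → (∀ ξ, C'.Q ξ ≤ C.Q ξ) →
  ∃ (n : ℕ) (E : ℕ → M d) (t : ℕ → ℝ) (T : ℕ → Tens d), T 0 = C ∧ T n = C' ∧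
    (∀ i, tp (E i) = E i ∧ 0 ≤ t i ∧ t i < 1 ∧ (T i).PD) ∧ ∀ i, i < n → T (i + 1) = soft (T i) (E i) (t i)

/-! ### the G-closure -/

/-- the G-closure with void (smooth displacements) -/
def Gv (A : Tens d) (f : ℝ) : Set (Tens d) :=
  {C | ∃ (δ : ℕ → ℝ) (χ : ℕ → Set (V d)) (Cs : ℕ → Tens d), (∀ n, 0 < δ n) ∧
    Tendsto δ atTop (𝓝 0) ∧ (∀ n, Micro (χ n) ∧ frac (χ n) = f) ∧
    (∀ n ε, (Cs n).Q ε = eff (phase A (δ n) (χ n)) ε) ∧
    ∀ ξ, Tendsto (fun n => (Cs n).C ξ) atTop (𝓝 (C.C ξ))}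

/-- the characterization -/
def Adm (A : Tens d) (f : ℝ) (C : Tens d) : Prop :=
  C.PSD ∧ ∃ (r : ℕ) (n : Fin r → V d) (m : Fin r → ℝ), (∀ i, dot (n i) (n i) = 1) ∧
    (∀ i, 0 ≤ m i) ∧ (∑ i, m i = 1) ∧
    ∀ ε q : M d, C.Q ε ≤ HS A (1 - f) (fun q => f * ∑ i, m i * Gam A (n i) q) ε q

/-- D6: compactness of the convex hull of the `Γ(n)` -/
def StmtHull (d : ℕ) : Prop := ∀ A : Tens d, A.PD → ∀ w : ℕ → (Fin d → ℤ) → ℝ,
  (∀ n k, 0 ≤ w n k) → (∀ n, w n 0 = 0) → (∀ n, HasSum (w n) 1) →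
  ∃ (φ : ℕ → ℕ) (r : ℕ) (n : Fin r → V d) (m : Fin r → ℝ), StrictMono φ ∧
    (∀ i, dot (n i) (n i) = 1) ∧ (∀ i, 0 ≤ m i) ∧ (∑ i, m i = 1) ∧
    ∀ q, Tendsto (fun t => ∑' k, w (φ t) k * Gam A (zv k) q) atTop (𝓝 (∑ i, m i * Gam A (n i) q))

/-- D7: necessity -/
def StmtNec (d : ℕ) : Prop := ∀ (A : Tens d) (f : ℝ), A.PD → 0 < f → f < 1 →
  ∀ C ∈ Gv A f, Adm A f C

/-- D8: approximation of real directions -/
def StmtSeqR (d : ℕ) : Prop := ∀ (A : Tens d) (f : ℝ), A.PD → 0 < f → f < 1 →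
  ∀ C : Tens d, C.PD → Adm A f C → ∀ η > 0, η < 1 → ∃ W : Tens d, W.PSD ∧ Rz A W f ∧
    ∀ ξ, (1 - η) * C.Q ξ ≤ W.Q ξ

/-- D9: sufficiency -/
def StmtSuf (d : ℕ) : Prop := 2 ≤ d → ∀ (A : Tens d) (f : ℝ), A.PD → 0 < f → f < 1 →
  ∀ C : Tens d, Adm A f C → C ∈ Gv A f

/-- D10: positive definite admissible tensors are dense in the admissible ones -/
def StmtAdmDense (d : ℕ) : Prop := 2 ≤ d → ∀ (A : Tens d) (f : ℝ), A.PD → 0 < f → f < 1 →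
  ∀ C : Tens d, Adm A f C → ∀ η > 0, ∃ C' : Tens d, C'.PD ∧ Adm A f C' ∧
    ∀ ξ, |C'.Q ξ - C.Q ξ| ≤ η * nsq ξ

/-! ### the isotropic phase and `H¹` displacements -/

/-- `Q = κ (tr ξ)² + 2 μ |dev ξ|²` -/
def IsIso (κ μ : ℝ) (A : Tens d) : Prop :=
  ∀ ξ, A.Q ξ = κ * (trc ξ) ^ 2 + 2 * μ * (nsq ξ - (trc ξ) ^ 2 / d)

/-- D11: the dual form of an isotropic tensor -/
def StmtInvIso (d : ℕ) : Prop := 1 ≤ d → ∀ (κ μ : ℝ), 0 < κ → 0 < μ → ∀ A : Tens d, IsIso κ μ A →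
  A.PD ∧ ∀ q, Inv A q = (trc q) ^ 2 / (d ^ 2 * κ) + (nsq q - (trc q) ^ 2 / d) / (2 * μ)

/-- D12: `Γ(n)` of an isotropic tensor, `|n| = 1` -/
def StmtGamIso (d : ℕ) : Prop := 1 ≤ d → ∀ (κ μ : ℝ), 0 < κ → 0 < μ → ∀ A : Tens d, IsIso κ μ A →
  ∀ (n : V d), dot n n = 1 → ∀ q : M d,
    Gam A n q = (dot (mulV (symm q) n) (mulV (symm q) n) - (dot n (mulV (symm q) n)) ^ 2) / μ +
      (dot n (mulV (symm q) n)) ^ 2 / (κ + 2 * μ * (1 - 1 / d))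

/-- effective energy with `H¹` displacements -/
def effH1 (D : V d → Tens d) (ε : M d) : ℝ := ⨅ u : H1 d, ∫ x in cell d, (D x).Q (ε + symm (u.G x))

/-- D13: smooth displacements are dense -/
def StmtH1 (d : ℕ) : Prop := ∀ (D : V d → Tens d) (β : ℝ), IsFld D 0 β → ∀ ε, effH1 D ε = eff D ε

/-- D13': for uniformly elliptic fields the infimum over `H¹` is attained -/
def StmtH1Min (d : ℕ) : Prop := ∀ (D : V d → Tens d) (α β : ℝ), 0 < α → IsFld D α β → ∀ ε,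
  ∃ u : H1 d, ∫ x in cell d, (D x).Q (ε + symm (u.G x)) = effH1 D ε

end Pool.Agent.Lib.MP_5df1bf_an
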