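import Pool.Agent.Lib.MP_5df1bf_an.BaseA
import Pool.Agent.Lib.MP_5df1bf_an.Stmts3

/-!
# D6: compactness of the convex hull of the `Γ(n)`
-/

open Filter Topology Module
open scoped BigOperators

noncomputable section

namespace Pool.Agent.Lib.MP_5df1bf_an

namespace HullAux

variable {d : ℕ}

/-- The compact set of convex combinations of `r + 1` points. -/
lemma convexHull_sub_image {F : Type} [NormedAddCommGroup F] [NormedSpace ℝ F]
    [FiniteDimensional ℝ F] {K : Set F} {z0 : F} (hz0 : z0 ∈ K) {x : F}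
    (hx : x ∈ convexHull ℝ K) :
    ∃ (w : Fin (finrank ℝ F + 1) → ℝ) (z : Fin (finrank ℝ F + 1) → F),
      w ∈ stdSimplex ℝ (Fin (finrank ℝ F + 1)) ∧ (∀ i, z i ∈ K) ∧ ∑ i, w i • z i = x := by
  classical
  obtain ⟨ι, _, z, w, hz, hai, hw, hw1, hx'⟩ := eq_pos_convex_span_of_mem_convexHull hx
  have hcard : Fintype.card ι ≤ finrank ℝ F + 1 :=
    hai.card_le_finrank_succ.trans (Nat.add_le_add_right (Submodule.finrank_le _) 1)
  obtain ⟨e⟩ : Nonempty (ι ↪ Fin (finrank ℝ F + 1)) :=
    Function.Embedding.nonempty_of_card_le (by simpa using hcard)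
  refine ⟨Function.extend e w 0, Function.extend e z (fun _ => z0), ⟨fun j => ?_, ?_⟩,
    fun j => ?_, ?_⟩
  · by_cases hj : ∃ i, e i = j
    · obtain ⟨i, rfl⟩ := hj
      rw [e.injective.extend_apply]
      exact (hw i).le
    · rw [Function.extend_apply' _ _ _ hj]
      exact le_rfl
  · rw [← hw1]
    symm
    refine Fintype.sum_of_injective e e.injective w _ (fun j hj => ?_) (fun i => ?_)
    · rw [Function.extend_apply' _ _ _ (by simpa using hj)]
      rfl
    · rw [e.injective.extend_apply]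
  · by_cases hj : ∃ i, e i = j
    · obtain ⟨i, rfl⟩ := hj
      rw [e.injective.extend_apply]
      exact hz (Set.mem_range_self i)
    · rw [Function.extend_apply' _ _ _ hj]
      exact hz0
  · rw [← hx']
    symm
    refine Fintype.sum_of_injective e e.injective (fun i => w i • z i) _ (fun j hj => ?_)
      (fun i => ?_)
    · rw [Function.extend_apply' _ _ _ (by simpa using hj)]
      simp
    · simp only [e.injective.extend_apply]

/-- Sequences in the closed convex hull of a compact set. -/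
lemma tendsto_combination {F : Type} [NormedAddCommGroup F] [NormedSpace ℝ F]
    [FiniteDimensional ℝ F] {K : Set F} (hK : IsCompact K) {z0 : F} (hz0 : z0 ∈ K) (x : ℕ → F)
    (hx : ∀ t, x t ∈ closure (convexHull ℝ K)) :
    ∃ (φ : ℕ → ℕ) (r : ℕ) (w : Fin r → ℝ) (z : Fin r → F), StrictMono φ ∧ (∀ i, 0 ≤ w i) ∧
      ∑ i, w i = 1 ∧ (∀ i, z i ∈ K) ∧ Tendsto (x ∘ φ) atTop (𝓝 (∑ i, w i • z i)) := by
  classical
  obtain ⟨r, hr⟩ : ∃ r, r = finrank ℝ F + 1 := ⟨_, rfl⟩
  set P : Set ((Fin r → ℝ) × (Fin r → F)) :=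
    (stdSimplex ℝ (Fin r)) ×ˢ (Set.univ.pi fun _ => K) with hP
  have hPc : IsCompact P := (isCompact_stdSimplex ℝ (Fin r)).prod (isCompact_univ_pi fun _ => hK)
  set T : (Fin r → ℝ) × (Fin r → F) → F := fun p => ∑ i, p.1 i • p.2 i with hT
  have hTc : Continuous T := by
    refine continuous_finsetSum _ fun i _ => ?_
    exact ((continuous_apply i).comp continuous_fst).smul ((continuous_apply i).comp continuous_snd)
  have hH : IsCompact (T '' P) := hPc.image hTc
  have hsub : convexHull ℝ K ⊆ T '' P := by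
    intro y hy
    obtain ⟨w, z, h1, h2, h3⟩ := convexHull_sub_image hz0 hy
    subst hr
    exact ⟨(w, z), ⟨h1, fun i _ => h2 i⟩, h3⟩
  have hcl : closure (convexHull ℝ K) ⊆ T '' P := closure_minimal hsub hH.isClosed
  obtain ⟨y, ⟨⟨w, z⟩, ⟨hw, hz⟩, rfl⟩, φ, hφ, hlim⟩ := hH.tendsto_subseq (fun t => hcl (hx t))
  exact ⟨φ, r, w, z, hφ, hw.1, hw.2, fun i => hz i (Set.mem_univ i), hlim⟩

/-- Countable convex combinations. -/
lemma tsum_mem_closure {F : Type} [NormedAddCommGroup F] [NormedSpace ℝ F]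
    [FiniteDimensional ℝ F] {K : Set F} (hK : IsCompact K) {z0 : F} (hz0 : z0 ∈ K) {κ : Type}
    (w : κ → ℝ) (g : κ → F) (hw : ∀ k, 0 ≤ w k) (hw1 : HasSum w 1) (hg : ∀ k, g k ∈ K) :
    (Summable fun k => w k • g k) ∧ ∑' k, w k • g k ∈ closure (convexHull ℝ K) := by
  classical
  obtain ⟨B, hB⟩ := hK.isBounded.exists_norm_le
  have hs : Summable fun k => w k • g k := by
    refine Summable.of_norm_bounded (hw1.summable.mul_right B) fun k => ?_
    rw [norm_smul, Real.norm_of_nonneg (hw k)]
    exact mul_le_mul_of_nonneg_left (hB _ (hg k)) (hw k)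
  refine ⟨hs, ?_⟩
  have hA : Tendsto (fun s : Finset κ => ∑ k ∈ s, w k • g k) atTop (𝓝 (∑' k, w k • g k)) :=
    hs.hasSum
  have hB : Tendsto (fun s : Finset κ => ∑ k ∈ s, w k) atTop (𝓝 1) := hw1
  have h1 : Tendsto (fun s : Finset κ => ∑ k ∈ s, w k • g k + (1 - ∑ k ∈ s, w k) • z0) atTop
      (𝓝 (∑' k, w k • g k + (1 - 1 : ℝ) • z0)) :=
    hA.add ((tendsto_const_nhds.sub hB).smul_const z0)
  rw [sub_self, zero_smul, add_zero] at h1
  refine mem_closure_of_tendsto h1 (Eventually.of_forall fun s => ?_)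
  have hle : ∑ k ∈ s, w k ≤ 1 := sum_le_hasSum s (fun k _ => hw k) hw1
  have hconv := convex_convexHull ℝ K
  have h2 := hconv.sum_mem (t := Finset.insertNone s)
    (w := fun o => o.elim (1 - ∑ k ∈ s, w k) w) (z := fun o => o.elim z0 g) ?_ ?_ ?_
  · rw [Finset.sum_insertNone] at h2
    simpa [add_comm] using h2
  · rintro (_ | k) _
    · simpa using hle
    · exact hw k
  · rw [Finset.sum_insertNone]
    simp
  · rintro (_ | k) _
    · exact subset_convexHull ℝ K hz0
    · exact subset_convexHull ℝ K (hg k)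

/-- Elementary matrices. -/
def Em (a : Fin d × Fin d) : M d := fun i j => if i = a.1 ∧ j = a.2 then 1 else 0

lemma ip_Em (X : M d) (b : Fin d × Fin d) : ip X (Em b) = X b.1 b.2 := by
  unfold ip Em
  rw [Finset.sum_eq_single b.1, Finset.sum_eq_single b.2]
  · simp
  · intro j _ hj
    simp [hj]
  · simp
  · intro i _ hi
    simp [hi]
  · simp

lemma eq_sum_Em (q : M d) : q = ∑ a : Fin d × Fin d, q a.1 a.2 • Em a := by
  funext i j
  rw [Finset.sum_apply, Finset.sum_apply, Finset.sum_eq_single (i, j)]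
  · simp [Em]
  · rintro ⟨a, b⟩ _ hab
    have : ¬ (i = a ∧ j = b) := by
      rintro ⟨rfl, rfl⟩
      exact hab rfl
    simp [Em, this]
  · simp

lemma ip_eq_sum (X q : M d) : ip X q = ∑ b : Fin d × Fin d, q b.1 b.2 * ip X (Em b) := by
  simp only [ip_Em]
  unfold ip
  rw [Fintype.sum_prod_type]
  exact Finset.sum_congr rfl fun i _ => Finset.sum_congr rfl fun j _ => mul_comm _ _

lemma ip_sum_left {ι : Type} (s : Finset ι) (f : ι → M d) (q : M d) :
    ip (∑ a ∈ s, f a) q = ∑ a ∈ s, ip (f a) q := by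
  classical
  induction s using Finset.induction_on with
  | empty => simp [ip]
  | insert a s ha ih => rw [Finset.sum_insert ha, Finset.sum_insert ha, ip_add_left, ih]

/-- The coordinates of a tensor. -/
def coord (T : Tens d) : (Fin d × Fin d) → (Fin d × Fin d) → ℝ := fun a b => ip (T.C (Em a)) (Em b)

/-- The value of the quadratic form in terms of the coordinates. -/
def ev (q : M d) : ((Fin d × Fin d) → (Fin d × Fin d) → ℝ) →ₗ[ℝ] ℝ where
  toFun F := ∑ a, ∑ b, q a.1 a.2 * q b.1 b.2 * F a b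
  map_add' F G := by
    simp only [Pi.add_apply, mul_add, Finset.sum_add_distrib]
  map_smul' c F := by
    simp only [Pi.smul_apply, smul_eq_mul, RingHom.id_apply, Finset.mul_sum]
    exact Finset.sum_congr rfl fun a _ => Finset.sum_congr rfl fun b _ => by ring

lemma ev_coord (T : Tens d) (q : M d) : ev q (coord T) = T.Q q := by
  unfold Tens.Q
  conv_rhs => rw [eq_sum_Em q, map_sum]
  simp only [map_smul]
  rw [← eq_sum_Em q, ip_sum_left]
  show ∑ a, ∑ b, q a.1 a.2 * q b.1 b.2 * coord T a b = _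
  refine Finset.sum_congr rfl fun a _ => ?_
  rw [ip_smul_left, ip_eq_sum, Finset.mul_sum]
  refine Finset.sum_congr rfl fun b _ => ?_
  unfold coord
  ring

end HullAux

open HullAux in
theorem stHull (d : ℕ) (hG : StmtGamT d) : StmtHull d := by
  classical
  intro A hA w hw hw0 hw1
  obtain ⟨Γ, h1, -, -, -, h5, h6, -⟩ := hG A hA
  -- `d` is positive
  have hd : 0 < d := by
    rcases Nat.eq_zero_or_pos d with rfl | h
    · exfalso
      have h2 : HasSum (w 0) (w 0 0) := by
        refine hasSum_single 0 fun k hk => ?_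
        exact absurd (Subsingleton.elim k 0) hk
      rw [hw0 0] at h2
      exact zero_ne_one (h2.unique (hw1 0))
    · exact h
  set S : Set (V d) := {n | dot n n = 1} with hS
  have hSne : S ⊆ {n : V d | n ≠ 0} := by
    rintro n hn rfl
    have : dot (0 : V d) 0 = 1 := hn
    simp [dot] at this
  have hdotc : Continuous fun n : V d => dot n n := by
    unfold dot
    fun_prop
  have hSc : IsCompact S := by
    refine Metric.isCompact_of_isClosed_isBounded (isClosed_singleton.preimage hdotc) ?_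
    refine (Metric.isBounded_closedBall (x := (0 : V d)) (r := 1)).subset fun n hn => ?_
    rw [mem_closedBall_zero_iff, pi_norm_le_iff_of_nonneg zero_le_one]
    intro i
    have h2 : n i * n i ≤ dot n n :=
      Finset.single_le_sum (f := fun i => n i * n i) (fun j _ => mul_self_nonneg _)
        (Finset.mem_univ i)
    rw [show dot n n = 1 from hn] at h2
    rw [Real.norm_eq_abs]
    exact abs_le_one_iff_mul_self_le_one.mpr h2
  have hFc : ContinuousOn (fun n => coord (Γ n)) S := by
    refine continuousOn_pi.mpr fun a => continuousOn_pi.mpr fun b => ?_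
    exact (h6 (Em a) (Em b)).mono hSne
  set K := (fun n => coord (Γ n)) '' S with hK
  have hKc : IsCompact K := hSc.image_of_continuousOn hFc
  have hn0 : (Pi.single ⟨0, hd⟩ 1 : V d) ∈ S := by
    show dot _ _ = 1
    unfold dot
    rw [Finset.sum_eq_single ⟨0, hd⟩]
    · simp
    · intro j _ hj
      simp [hj]
    · simp
  -- normalised integer vectors
  set u : (Fin d → ℤ) → V d := fun k => if k = 0 then Pi.single ⟨0, hd⟩ 1 else
    (Real.sqrt (dot (zv k) (zv k)))⁻¹ • zv k with hu
  have hzv : ∀ k : Fin d → ℤ, k ≠ 0 → 0 < dot (zv k) (zv k) := by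
    intro k hk
    obtain ⟨i, hi⟩ := Function.ne_iff.mp hk
    have h2 : 0 < zv k i * zv k i := by
      refine mul_self_pos.mpr ?_
      simpa [zv] using hi
    refine lt_of_lt_of_le h2 ?_
    exact Finset.single_le_sum (f := fun i => zv k i * zv k i) (fun j _ => mul_self_nonneg _)
        (Finset.mem_univ i)
  have huS : ∀ k, u k ∈ S := by
    intro k
    by_cases hk : k = 0
    · simp only [hu, hk, if_true]
      exact hn0
    · simp only [hu, hk, if_false]
      show dot _ _ = 1
      have h2 := hzv k hk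
      have h3 : Real.sqrt (dot (zv k) (zv k)) ^ 2 = dot (zv k) (zv k) := Real.sq_sqrt h2.le
      have h4 : Real.sqrt (dot (zv k) (zv k)) ≠ 0 := (Real.sqrt_pos.mpr h2).ne'
      have h5 : dot ((Real.sqrt (dot (zv k) (zv k)))⁻¹ • zv k)
          ((Real.sqrt (dot (zv k) (zv k)))⁻¹ • zv k) =
          ((Real.sqrt (dot (zv k) (zv k)))⁻¹) ^ 2 * dot (zv k) (zv k) := by
        conv_lhs => unfold dot
        conv_rhs => rw [dot, Finset.mul_sum]
        refine Finset.sum_congr rfl fun i _ => ?_
        simp only [Pi.smul_apply, smul_eq_mul]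
        have : dot (zv k) (zv k) = ∑ i, zv k i * zv k i := rfl
        rw [← this]
        ring
      rw [h5, inv_pow, h3, inv_mul_cancel₀ h2.ne']
  have hterm : ∀ n k q, w n k * Gam A (zv k) q = ev q (w n k • coord (Γ (u k))) := by
    intro n k q
    rw [map_smul, ev_coord, smul_eq_mul]
    by_cases hk : k = 0
    · rw [hk, hw0, zero_mul, zero_mul]
    · rw [← h1 _ _ (hSne (huS k))]
      simp only [hu, hk, if_false]
      rw [h5 _ _ _ (inv_ne_zero (Real.sqrt_pos.mpr (hzv k hk)).ne')]
  have hx := fun t => tsum_mem_closure hKc (Set.mem_image_of_mem _ hn0) (w t)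
    (fun k => coord (Γ (u k))) (hw t) (hw1 t) (fun k => Set.mem_image_of_mem _ (huS k))
  obtain ⟨φ, r, m, z, hφ, hm, hm1, hz, hlim⟩ := tendsto_combination hKc
    (Set.mem_image_of_mem _ hn0) (fun t => ∑' k, w t k • coord (Γ (u k))) (fun t => (hx t).2)
  choose n hnS hnz using hz
  refine ⟨φ, r, n, m, hφ, hnS, hm, hm1, fun q => ?_⟩
  have hcont : Continuous (ev q : ((Fin d × Fin d) → (Fin d × Fin d) → ℝ) →ₗ[ℝ] ℝ) :=
    LinearMap.continuous_of_finiteDimensional _
  have h7 := (hcont.tendsto _).comp hlim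
  have h8 : ev q (∑ i, m i • z i) = ∑ i, m i * Gam A (n i) q := by
    rw [map_sum]
    refine Finset.sum_congr rfl fun i _ => ?_
    rw [map_smul, smul_eq_mul, ← hnz i, h1 _ _ (hSne (hnS i))]
    congr 1
    exact ev_coord _ _
  rw [h8] at h7
  refine h7.congr fun t => ?_
  simp only [Function.comp_apply]
  have h9 := ((hx (φ t)).1.hasSum.mapL (LinearMap.toContinuousLinearMap (ev q))).tsum_eq
  rw [LinearMap.coe_toContinuousLinearMap'] at h9
  rw [← h9]
  exact tsum_congr fun k => (hterm (φ t) k q).symm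

end Pool.Agent.Lib.MP_5df1bf_an
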