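import Pool.Agent.Lib.MP_5df1bf_an.Stmts3

/-!
# MP_5df1bf_an, D11 and D12: the dual forms of an isotropic tensor
-/

open MeasureTheory Filter Topology
open scoped BigOperators ContDiff

noncomputable section

namespace Pool.Agent.Lib.MP_5df1bf_an

namespace IsoAux

variable {d : ℕ}

/-- the identity matrix -/
def I1 (d : ℕ) : M d := fun i j => if i = j then 1 else 0

lemma ip_I1 (A : M d) : ip A (I1 d) = trc A := by
  unfold ip I1 trc
  refine Finset.sum_congr rfl fun i _ => ?_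
  simp

lemma trc_I1 : trc (I1 d) = d := by
  unfold trc I1
  simp

lemma symm_I1 : symm (I1 d) = I1 d := by
  funext i j
  unfold symm I1
  by_cases h : i = j
  · subst h; norm_num
  · simp [h, Ne.symm h]

lemma trc_symm (A : M d) : trc (symm A) = trc A := by
  unfold trc symm
  refine Finset.sum_congr rfl fun i _ => by ring

lemma trc_add (A B : M d) : trc (A + B) = trc A + trc B := by
  unfold trc
  rw [← Finset.sum_add_distrib]
  rfl

lemma trc_sub (A B : M d) : trc (A - B) = trc A - trc B := by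
  unfold trc
  rw [← Finset.sum_sub_distrib]
  rfl

lemma trc_smul (c : ℝ) (A : M d) : trc (c • A) = c * trc A := by
  unfold trc
  rw [Finset.mul_sum]
  rfl

lemma nsq_I1 : nsq (I1 d) = d := by
  rw [nsq_of_symm symm_I1, ip_I1, trc_I1]

/-- Cauchy-Schwarz for the trace -/
lemma trc_sq_le (hd : 1 ≤ d) (A : M d) : (trc A) ^ 2 / d ≤ nsq A := by
  have hd0 : (0 : ℝ) < d := by exact_mod_cast hd
  rw [div_le_iff₀ hd0]
  have h := cs_symm A (I1 d)
  rw [ip_I1, trc_symm, nsq_I1] at h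
  exact h

lemma iso_pd (hd : 1 ≤ d) {κ μ : ℝ} (hκ : 0 < κ) (hμ : 0 < μ) {A : Tens d} (hA : IsIso κ μ A) :
    A.PD := by
  have hd0 : (0 : ℝ) < d := by exact_mod_cast hd
  refine ⟨min (κ * d) (2 * μ), by positivity, fun ξ => ?_⟩
  rw [hA ξ]
  have h1 := trc_sq_le hd ξ
  have h2 : κ * (trc ξ) ^ 2 = (κ * d) * ((trc ξ) ^ 2 / d) := by field_simp
  have h3 : min (κ * d) (2 * μ) * ((trc ξ) ^ 2 / d) ≤ (κ * d) * ((trc ξ) ^ 2 / d) :=
    mul_le_mul_of_nonneg_right (min_le_left _ _) (by positivity)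
  have h4 : min (κ * d) (2 * μ) * (nsq ξ - (trc ξ) ^ 2 / d) ≤
      (2 * μ) * (nsq ξ - (trc ξ) ^ 2 / d) :=
    mul_le_mul_of_nonneg_right (min_le_right _ _) (by linarith)
  rw [h2]
  linarith

lemma ip_q_symm (q ξ : M d) : ip q (symm ξ) = ip (symm ξ) q := ip_comm _ _

lemma inv_upper (hd : 1 ≤ d) {κ μ : ℝ} (hκ : 0 < κ) (hμ : 0 < μ) {A : Tens d}
    (hA : IsIso κ μ A) (q ξ : M d) : 2 * ip q (symm ξ) - A.Q ξ ≤
      (trc q) ^ 2 / (d ^ 2 * κ) + (nsq q - (trc q) ^ 2 / d) / (2 * μ) := by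
  have hd0 : (0 : ℝ) < d := by exact_mod_cast hd
  rw [hA ξ, ip_q_symm]
  have h1 := trc_sq_le hd (ξ - (1 / (2 * μ)) • q)
  have h2 := nsq_sub ξ ((1 / (2 * μ)) • q)
  rw [ip_smul_right, nsq_smul] at h2
  rw [h2, trc_sub, trc_smul] at h1
  have h3 : (trc q) ^ 2 / (d ^ 2 * κ) + (nsq q - (trc q) ^ 2 / d) / (2 * μ) -
      (2 * ip (symm ξ) q - (κ * (trc ξ) ^ 2 + 2 * μ * (nsq ξ - (trc ξ) ^ 2 / d))) =
      2 * μ * (nsq ξ - 2 * (1 / (2 * μ) * ip (symm ξ) q) + (1 / (2 * μ)) ^ 2 * nsq q -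
        (trc ξ - 1 / (2 * μ) * trc q) ^ 2 / d) + κ * (trc ξ - trc q / (d * κ)) ^ 2 := by
    field_simp
    ring
  have h4 : 0 ≤ 2 * μ * (nsq ξ - 2 * (1 / (2 * μ) * ip (symm ξ) q) + (1 / (2 * μ)) ^ 2 * nsq q -
        (trc ξ - 1 / (2 * μ) * trc q) ^ 2 / d) := mul_nonneg (by positivity) (by linarith)
  have h5 : 0 ≤ κ * (trc ξ - trc q / (d * κ)) ^ 2 := by positivity
  linarith

lemma inv_attained (hd : 1 ≤ d) {κ μ : ℝ} (hκ : 0 < κ) (hμ : 0 < μ) {A : Tens d}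
    (hA : IsIso κ μ A) (q : M d) : ∃ ξ : M d, 2 * ip q (symm ξ) - A.Q ξ =
      (trc q) ^ 2 / (d ^ 2 * κ) + (nsq q - (trc q) ^ 2 / d) / (2 * μ) := by
  have hd0 : (0 : ℝ) < d := by exact_mod_cast hd
  set b : ℝ := (trc q / (d * κ) - 1 / (2 * μ) * trc q) / d with hb
  refine ⟨(1 / (2 * μ)) • q + b • I1 d, ?_⟩
  have h1 : trc ((1 / (2 * μ)) • q + b • I1 d) = 1 / (2 * μ) * trc q + b * d := by
    rw [trc_add, trc_smul, trc_smul, trc_I1]
  have h2 : nsq ((1 / (2 * μ)) • q + b • I1 d) =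
      (1 / (2 * μ)) ^ 2 * nsq q + 2 * (1 / (2 * μ) * (b * trc q)) + b ^ 2 * d := by
    rw [nsq_add, nsq_smul, nsq_smul, nsq_I1, symm_smul, ip_smul_left, ip_smul_right, ip_I1,
      trc_symm]
  have h3 : ip q (symm ((1 / (2 * μ)) • q + b • I1 d)) = 1 / (2 * μ) * nsq q + b * trc q := by
    rw [symm_add, symm_smul, symm_smul, symm_I1, ip_add_right, ip_smul_right, ip_smul_right,
      ip_I1]
    congr 2
    unfold nsq
    rw [ip_symm_symm, ip_comm]
  rw [hA, h1, h2, h3, hb]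
  field_simp
  ring

lemma trc_sd (a n : V d) : trc (sd a n) = dot a n := by
  unfold trc sd dot
  refine Finset.sum_congr rfl fun i _ => by ring

lemma Q_sd {κ μ : ℝ} {A : Tens d} (hA : IsIso κ μ A) (a n : V d) (hn : dot n n = 1) :
    A.Q (sd a n) = μ * (dot a a - (dot a n) ^ 2) + (κ + 2 * μ * (1 - 1 / d)) * (dot a n) ^ 2 := by
  rw [hA, trc_sd, nsq_sd, hn]
  ring

lemma gam_upper {κ μ : ℝ} (hμ : 0 < μ) {L : ℝ} (hL : 0 < L) (a n v : V d) (hn : dot n n = 1) :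
    2 * dot a v - (μ * (dot a a - (dot a n) ^ 2) + L * (dot a n) ^ 2) ≤
      (dot v v - (dot n v) ^ 2) / μ + (dot n v) ^ 2 / L := by
  have _ := κ
  set w : V d := a - (dot a n) • n - (1 / μ) • (v - (dot n v) • n) with hw
  have h1 : dot w w = dot a a - (dot a n) ^ 2 - 2 / μ * (dot a v - dot a n * dot n v) +
      (1 / μ) ^ 2 * (dot v v - (dot n v) ^ 2) := by
    rw [hw]
    simp only [dot_sub_left, dot_sub_right, dot_smul_left, dot_smul_right, hn,
      dot_comm v a, dot_comm n a, dot_comm v n]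
    ring
  have h2 := dot_self_nonneg w
  rw [h1] at h2
  have h3 : (dot v v - (dot n v) ^ 2) / μ + (dot n v) ^ 2 / L -
      (2 * dot a v - (μ * (dot a a - (dot a n) ^ 2) + L * (dot a n) ^ 2)) =
      μ * (dot a a - (dot a n) ^ 2 - 2 / μ * (dot a v - dot a n * dot n v) +
        (1 / μ) ^ 2 * (dot v v - (dot n v) ^ 2)) + L * (dot a n - dot n v / L) ^ 2 := by
    field_simp
    ring
  have h4 := mul_nonneg hμ.le h2
  have h5 : 0 ≤ L * (dot a n - dot n v / L) ^ 2 := by positivity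
  linarith

lemma gam_attained {μ : ℝ} (hμ : 0 < μ) {L : ℝ} (hL : 0 < L) (n v : V d) (hn : dot n n = 1) :
    ∃ a : V d, 2 * dot a v - (μ * (dot a a - (dot a n) ^ 2) + L * (dot a n) ^ 2) =
      (dot v v - (dot n v) ^ 2) / μ + (dot n v) ^ 2 / L := by
  refine ⟨(dot n v / L) • n + (1 / μ) • (v - (dot n v) • n), ?_⟩
  have h1 : dot ((dot n v / L) • n + (1 / μ) • (v - (dot n v) • n)) n = dot n v / L := by
    simp only [dot_add_left, dot_sub_left, dot_smul_left, hn, dot_comm v n]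
    ring
  have h2 : dot ((dot n v / L) • n + (1 / μ) • (v - (dot n v) • n)) v =
      (dot n v) ^ 2 / L + (1 / μ) * (dot v v - (dot n v) ^ 2) := by
    simp only [dot_add_left, dot_sub_left, dot_smul_left]
    ring
  have h3 : dot ((dot n v / L) • n + (1 / μ) • (v - (dot n v) • n))
      ((dot n v / L) • n + (1 / μ) • (v - (dot n v) • n)) =
      (dot n v / L) ^ 2 + (1 / μ) ^ 2 * (dot v v - (dot n v) ^ 2) := by
    simp only [dot_add_left, dot_sub_left, dot_smul_left, dot_add_right, dot_sub_right,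
      dot_smul_right, hn, dot_comm v n]
    ring
  rw [h1, h2, h3]
  field_simp
  ring

end IsoAux

open IsoAux in
/-- D11: the dual form of an isotropic tensor -/
theorem invIso (d : ℕ) : StmtInvIso d := by
  intro hd κ μ hκ hμ A hA
  refine ⟨iso_pd hd hκ hμ hA, fun q => ?_⟩
  have hub := inv_upper hd hκ hμ hA q
  obtain ⟨ξ, hξ⟩ := inv_attained hd hκ hμ hA q
  unfold Inv
  refine le_antisymm (ciSup_le hub) ?_
  rw [← hξ]
  exact le_ciSup (f := fun ξ : M d => 2 * ip q (symm ξ) - A.Q ξ)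
    ⟨_, by rintro _ ⟨ξ, rfl⟩; exact hub ξ⟩ ξ

open IsoAux in
/-- D12: `Γ(n)` of an isotropic tensor, `|n| = 1` -/
theorem gamIso (d : ℕ) : StmtGamIso d := by
  intro hd κ μ hκ hμ A hA n hn q
  have hd0 : (1 : ℝ) ≤ d := by exact_mod_cast hd
  have hL : 0 < κ + 2 * μ * (1 - 1 / d) := by
    have h1 : (1 : ℝ) / d ≤ 1 := by
      rw [div_le_one (by linarith)]
      exact hd0
    have h2 : 0 ≤ 2 * μ * (1 - 1 / (d : ℝ)) := mul_nonneg (by positivity) (by linarith)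
    linarith
  have hub : ∀ a : V d, 2 * ip q (sd a n) - A.Q (sd a n) ≤
      (dot (mulV (symm q) n) (mulV (symm q) n) - (dot n (mulV (symm q) n)) ^ 2) / μ +
      (dot n (mulV (symm q) n)) ^ 2 / (κ + 2 * μ * (1 - 1 / d)) := by
    intro a
    rw [Q_sd hA a n hn, ip_sd]
    exact gam_upper (κ := κ) hμ hL a n _ hn
  obtain ⟨a, ha⟩ := gam_attained hμ hL n (mulV (symm q) n) hn
  unfold Gam
  refine le_antisymm (ciSup_le hub) ?_
  rw [← ha]
  have h1 : 2 * dot a (mulV (symm q) n) - (μ * (dot a a - (dot a n) ^ 2) +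
      (κ + 2 * μ * (1 - 1 / d)) * (dot a n) ^ 2) = 2 * ip q (sd a n) - A.Q (sd a n) := by
    rw [Q_sd hA a n hn, ip_sd]
  rw [h1]
  exact le_ciSup (f := fun a : V d => 2 * ip q (sd a n) - A.Q (sd a n))
    ⟨_, by rintro _ ⟨a, rfl⟩; exact hub a⟩ a

end Pool.Agent.Lib.MP_5df1bf_an
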