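import Pool.Agent.Lib.MP_5df1bf_an.Stmts2

/-!
# MP_5df1bf_an: Korn–Poincaré on boxes (B1)
-/

open MeasureTheory Filter Topology
open scoped BigOperators ContDiff

noncomputable section

namespace Pool.Agent.Lib.MP_5df1bf_an

variable {d : ℕ}

namespace KPAux

theorem fderiv_eq_mulV (v : V d → V d) (p z : V d) : fderiv ℝ v p z = mulV (grad v p) z := by
  have hz : z = ∑ j, z j • (Pi.single j (1 : ℝ) : V d) := by
    ext i
    simp [Finset.sum_apply, Pi.single_apply]
  conv_lhs => rw [hz]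
  ext i
  simp only [map_sum, map_smul, Finset.sum_apply, Pi.smul_apply, smul_eq_mul, mulV, grad]
  exact Finset.sum_congr rfl fun j _ => mul_comm _ _

theorem continuous_grad {v : V d → V d} (hv : ContDiff ℝ 1 v) : Continuous (grad v) := by
  refine continuous_pi fun i => continuous_pi fun j => ?_
  have h1 : Continuous (fderiv ℝ v) := hv.continuous_fderiv one_ne_zero
  exact (continuous_apply i).comp (h1.clm_apply continuous_const)

theorem cs01 {f : ℝ → ℝ} (hf : Continuous f) :
    (∫ t in (0 : ℝ)..1, f t) ^ 2 ≤ ∫ t in (0 : ℝ)..1, (f t) ^ 2 := by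
  set c := ∫ t in (0 : ℝ)..1, f t with hc
  have h1 : 0 ≤ ∫ t in (0 : ℝ)..1, (f t - c) ^ 2 :=
    intervalIntegral.integral_nonneg zero_le_one (fun _ _ => sq_nonneg _)
  have h2 : ∫ t in (0 : ℝ)..1, (f t - c) ^ 2 =
      (∫ t in (0 : ℝ)..1, (f t) ^ 2) - 2 * c * c + c ^ 2 := by
    have e : ∀ t, (f t - c) ^ 2 = ((f t) ^ 2 - 2 * c * f t) + c ^ 2 := by intro t; ring
    simp only [e]
    have i1 : IntervalIntegrable (fun t => (f t) ^ 2) volume 0 1 :=
      (hf.pow 2).intervalIntegrable _ _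
    have i2 : IntervalIntegrable (fun t => 2 * c * f t) volume 0 1 :=
      (continuous_const.mul hf).intervalIntegrable _ _
    have i3 : IntervalIntegrable (fun _ : ℝ => c ^ 2) volume 0 1 :=
      continuous_const.intervalIntegrable _ _
    rw [intervalIntegral.integral_add (i1.sub i2) i3, intervalIntegral.integral_sub i1 i2,
      intervalIntegral.integral_const_mul, intervalIntegral.integral_const, ← hc]
    simp
  rw [h2] at h1
  nlinarith

theorem swap_int {E F : Type*} [TopologicalSpace E] [MeasureSpace E] [BorelSpace E]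
    [SecondCountableTopology E] [TopologicalSpace F] [MeasureSpace F] [BorelSpace F]
    [SecondCountableTopology F] [T2Space E] [T2Space F]
    [SFinite (volume : Measure E)] [SFinite (volume : Measure F)]
    [IsFiniteMeasureOnCompacts (volume : Measure E)]
    [IsFiniteMeasureOnCompacts (volume : Measure F)]
    {A : Set E} {B : Set F} (hA : IsCompact A) (hB : IsCompact B) {f : E → F → ℝ}
    (hf : Continuous fun p : E × F => f p.1 p.2) :
    ∫ x in A, ∫ y in B, f x y = ∫ y in B, ∫ x in A, f x y := by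
  refine integral_integral_swap ?_
  rw [Measure.prod_restrict]
  exact hf.continuousOn.integrableOn_compact (hA.prod hB)

theorem cint {E : Type*} [TopologicalSpace E] [MeasureSpace E] [BorelSpace E] [T2Space E]
    [SecondCountableTopology E] [IsLocallyFiniteMeasure (volume : Measure E)]
    {f : E → ℝ} (hf : Continuous f) {K : Set E} (hK : IsCompact K) : IntegrableOn f K :=
  hf.continuousOn.integrableOn_compact hK

theorem sub_int {A Ω : Set (V d)} (hA : MeasurableSet A) (hΩ : IsCompact Ω) {g : V d → ℝ}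
    (hg : Continuous g) (hg0 : ∀ x, 0 ≤ g x) (c : V d) {t : ℝ} (ht : 0 < t)
    (h : ∀ x ∈ A, c + t • x ∈ Ω) :
    ∫ x in A, g (c + t • x) ≤ (t ^ d)⁻¹ * ∫ x in Ω, g x := by
  have hΩm : MeasurableSet Ω := hΩ.isClosed.measurableSet
  set F : V d → ℝ := Ω.indicator g with hF
  have hFi : Integrable F := by
    rw [hF, integrable_indicator_iff hΩm]
    exact hg.continuousOn.integrableOn_compact hΩ
  have hF0 : ∀ x, 0 ≤ F x := fun x => Set.indicator_nonneg (fun y _ => hg0 y) x
  have hFi1 : Integrable fun x => F (c + x) := hFi.comp_add_left c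
  have hFi2 : Integrable fun x => F (c + t • x) :=
    hFi1.comp_smul (R := t) ht.ne'
  rw [← integral_indicator hA]
  have h1 : ∫ x, A.indicator (fun x => g (c + t • x)) x ≤ ∫ x, F (c + t • x) := by
    refine integral_mono_of_nonneg ?_ hFi2 ?_
    · exact Eventually.of_forall fun x => Set.indicator_nonneg (fun y _ => hg0 _) x
    · refine Eventually.of_forall fun x => ?_
      by_cases hx : x ∈ A
      · rw [Set.indicator_of_mem hx]
        show g (c + t • x) ≤ F (c + t • x)
        rw [hF, Set.indicator_of_mem (h x hx)]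
      · rw [Set.indicator_of_notMem hx]
        exact hF0 _
  refine h1.trans (le_of_eq ?_)
  have h2 := Measure.integral_comp_smul (volume : Measure (V d)) (fun x => F (c + x)) t
  rw [h2, integral_add_left_eq_self, hF, integral_indicator hΩm]
  simp only [Module.finrank_fintype_fun_eq_card, Fintype.card_fin, smul_eq_mul]
  rw [abs_of_pos (inv_pos.2 (pow_pos ht d))]

theorem Icc_int {f : ℝ → ℝ} : ∫ t in (0 : ℝ)..1, f t = ∫ t in Set.Icc (0 : ℝ) 1, f t := by
  rw [intervalIntegral.integral_of_le zero_le_one, integral_Icc_eq_integral_Ioc]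

theorem cont_par {E F : Type*} [TopologicalSpace E] [TopologicalSpace F]
    [MeasureSpace F] [OpensMeasurableSpace F] [FirstCountableTopology E] [LocallyCompactSpace E]
    [SecondCountableTopology F] [T2Space F] [IsLocallyFiniteMeasure (volume : Measure F)]
    {f : E → F → ℝ} {B : Set F} (hB : IsCompact B)
    (hf : Continuous fun p : E × F => f p.1 p.2) : Continuous fun x => ∫ y in B, f x y :=
  continuous_parametric_integral_of_continuous hf hB

/-- `(v x - v y) · (x - y)` -/
def dl (v : V d → V d) (x y : V d) : ℝ := dot (x - y) (v x - v y)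

theorem ip_oo_oo (z : V d) : ip (oo z) (oo z) = (dot z z) ^ 2 := by
  rw [ip_oo]
  have h : mulV (oo z) z = dot z z • z := by
    ext i
    simp only [mulV, oo, Pi.smul_apply, smul_eq_mul, dot, Finset.sum_mul]
    exact Finset.sum_congr rfl fun j _ => by ring
  rw [h, dot_smul_right]; ring

theorem oo_sq_le (z : V d) (G : M d) : (ip (oo z) G) ^ 2 ≤ (dot z z) ^ 2 * nsq G := by
  rw [← ip_oo_symm]
  refine (ip_cs _ _).trans ?_
  rw [ip_oo_oo]
  exact le_rfl

theorem dl_sq_le {v : V d → V d} (hv : ContDiff ℝ 1 v) (x y : V d) :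
    (dl v x y) ^ 2 ≤ (dot (x - y) (x - y)) ^ 2 *
      ∫ t in (0 : ℝ)..1, nsq (grad v (y + t • (x - y))) := by
  set z := x - y with hz
  have hg := continuous_grad hv
  have hline : Continuous fun t : ℝ => y + t • z := by fun_prop
  have h1 : ∫ t in (0 : ℝ)..1, ip (oo z) (grad v (y + t • z)) = dl v x y := by
    have hd : ∀ t ∈ Set.uIcc (0 : ℝ) 1,
        HasDerivAt (fun t : ℝ => dot z (v (y + t • z))) (ip (oo z) (grad v (y + t • z))) t := by
      intro t _
      have h2 : HasDerivAt (fun t : ℝ => y + t • z) z t := by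
        have := ((hasDerivAt_id t).smul_const z).const_add y
        simpa using this
      have h3 : HasFDerivAt v (fderiv ℝ v (y + t • z)) (y + t • z) :=
        ((hv.differentiable one_ne_zero) _).hasFDerivAt
      have h4 := h3.comp_hasDerivAt t h2
      rw [fderiv_eq_mulV] at h4
      have h5 : ∀ i, HasDerivAt (fun t : ℝ => v (y + t • z) i)
          (mulV (grad v (y + t • z)) z i) t := fun i => (hasDerivAt_pi.1 h4) i
      rw [ip_oo]
      unfold dot
      exact HasDerivAt.fun_sum fun i _ => (h5 i).const_mul (z i)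
    have hc : Continuous fun t : ℝ => ip (oo z) (grad v (y + t • z)) := by
      have h6 : Continuous fun t : ℝ => grad v (y + t • z) := hg.comp hline
      unfold ip
      refine continuous_finsetSum _ fun i _ => continuous_finsetSum _ fun j _ => ?_
      exact continuous_const.mul ((continuous_apply j).comp ((continuous_apply i).comp h6))
    rw [intervalIntegral.integral_eq_sub_of_hasDerivAt hd (hc.intervalIntegrable _ _)]
    unfold dl
    rw [← hz, one_smul, zero_smul, add_zero, ← dot_sub_right]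
    congr 2
    rw [hz]; abel_nf
  have hc : Continuous fun t : ℝ => ip (oo z) (grad v (y + t • z)) := by
    have h6 : Continuous fun t : ℝ => grad v (y + t • z) := hg.comp hline
    unfold ip
    refine continuous_finsetSum _ fun i _ => continuous_finsetSum _ fun j _ => ?_
    exact continuous_const.mul ((continuous_apply j).comp ((continuous_apply i).comp h6))
  rw [← h1]
  refine (cs01 hc).trans ?_
  rw [← intervalIntegral.integral_const_mul]
  refine intervalIntegral.integral_mono_on zero_le_one ((hc.pow 2).intervalIntegrable _ _)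
    ((continuous_const.mul (continuous_nsq.comp (hg.comp hline))).intervalIntegrable _ _) ?_
  intro t _
  exact oo_sq_le _ _

theorem cont_g {v : V d → V d} (hv : ContDiff ℝ 1 v) : Continuous fun x => nsq (grad v x) :=
  continuous_nsq.comp (continuous_grad hv)

theorem cont_dl {v : V d → V d} (hv : ContDiff ℝ 1 v) :
    Continuous fun p : V d × V d => dl v p.1 p.2 := by
  have h0 : Continuous v := hv.continuous
  unfold dl dot
  refine continuous_finsetSum _ fun i _ => ?_
  have h1 : Continuous fun p : V d × V d => (p.1 - p.2) i := by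
    simp only [Pi.sub_apply]; fun_prop
  have h2 : Continuous fun p : V d × V d => (v p.1 - v p.2) i := by
    simp only [Pi.sub_apply]
    exact ((continuous_apply i).comp (h0.comp continuous_fst)).sub
      ((continuous_apply i).comp (h0.comp continuous_snd))
  exact h1.mul h2

section dbl

variable {v : V d → V d} (hv : ContDiff ℝ 1 v) {Ω : Set (V d)} (hΩ : IsCompact Ω)
  {D2 : ℝ} (hD : ∀ x ∈ Ω, ∀ y ∈ Ω, dot (x - y) (x - y) ≤ D2)

include hv hΩ

omit hv hΩ in
theorem E_nonneg : 0 ≤ ∫ x in Ω, nsq (grad v x) :=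
  integral_nonneg fun _ => nsq_nonneg _

theorem J_le (hconv : Convex ℝ Ω) {t : ℝ} (ht0 : 0 ≤ t) (ht1 : t ≤ 1) :
    ∫ y in Ω, ∫ x in Ω, nsq (grad v (y + t • (x - y))) ≤
      volume.real Ω * (2 ^ d * ∫ x in Ω, nsq (grad v x)) := by
  have hΩm : MeasurableSet Ω := hΩ.isClosed.measurableSet
  have hfin : volume Ω ≠ ⊤ := hΩ.measure_lt_top.ne
  have hg := cont_g hv
  have hE := E_nonneg (v := v) (Ω := Ω)
  -- the case `1 / 2 ≤ s`
  have key : ∀ s : ℝ, 1 / 2 ≤ s → s ≤ 1 → ∀ y ∈ Ω,
      ∫ x in Ω, nsq (grad v ((1 - s) • y + s • x)) ≤ 2 ^ d * ∫ x in Ω, nsq (grad v x) := by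
    intro s hs hs1 y hy
    have h1 := sub_int hΩm hΩ hg (fun x => nsq_nonneg _) ((1 - s) • y) (t := s) (by linarith)
      (fun x hx => hconv hy hx (by linarith) (by linarith) (by ring))
    refine h1.trans (mul_le_mul_of_nonneg_right ?_ hE)
    rw [← inv_pow]
    refine pow_le_pow_left₀ (inv_nonneg.2 (by linarith)) ?_ d
    rw [inv_le_comm₀ (by linarith) (by norm_num)]
    linarith
  have fin : ∀ f : V d → ℝ, (Continuous f) → (∀ y ∈ Ω, f y ≤ 2 ^ d * ∫ x in Ω, nsq (grad v x)) →
      ∫ y in Ω, f y ≤ volume.real Ω * (2 ^ d * ∫ x in Ω, nsq (grad v x)) := by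
    intro f hf h
    have h2 : ∫ y in Ω, f y ≤ ∫ _y in Ω, (2 ^ d * ∫ x in Ω, nsq (grad v x)) :=
      setIntegral_mono_on (hf.continuousOn.integrableOn_compact hΩ)
        (continuous_const.continuousOn.integrableOn_compact hΩ) hΩm h
    rwa [setIntegral_const, smul_eq_mul] at h2
  by_cases ht : 1 / 2 ≤ t
  · refine fin _ ?_ ?_
    · exact cont_par hΩ (f := fun y x => nsq (grad v (y + t • (x - y))))
        (hg.comp (by fun_prop))
    · intro y hy
      have h3 : ∀ x : V d, y + t • (x - y) = (1 - t) • y + t • x := by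
        intro x
        rw [smul_sub, sub_smul, one_smul]; abel
      simp only [h3]
      exact key t ht ht1 y hy
  · push Not at ht
    rw [swap_int hΩ hΩ (f := fun y x => nsq (grad v (y + t • (x - y)))) (hg.comp (by fun_prop))]
    refine fin _ ?_ ?_
    · exact cont_par hΩ (f := fun x y => nsq (grad v (y + t • (x - y))))
        (hg.comp (by fun_prop))
    · intro x hx
      have h3 : ∀ y : V d, y + t • (x - y) = (1 - (1 - t)) • x + (1 - t) • y := by
        intro y
        module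
      simp only [h3]
      exact key (1 - t) (by linarith) (by linarith) x hx

include hD in
theorem dbl (hconv : Convex ℝ Ω) :
    ∫ y in Ω, ∫ x in Ω, (dl v x y) ^ 2 ≤
      D2 ^ 2 * (volume.real Ω * (2 ^ d * ∫ x in Ω, nsq (grad v x))) := by
  have hΩm : MeasurableSet Ω := hΩ.isClosed.measurableSet
  have hg := cont_g hv
  have hE := E_nonneg (v := v) (Ω := Ω)
  have hIm : MeasurableSet (Set.Icc (0 : ℝ) 1) := measurableSet_Icc
  have hIc : IsCompact (Set.Icc (0 : ℝ) 1) := isCompact_Icc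
  have hdl := cont_dl hv
  have c1 : Continuous fun p : (V d × V d) × ℝ =>
      nsq (grad v (p.1.1 + p.2 • (p.1.2 - p.1.1))) := hg.comp (by fun_prop)
  have c2 : Continuous fun p : V d × V d => ∫ t in Set.Icc (0 : ℝ) 1,
      nsq (grad v (p.1 + t • (p.2 - p.1))) :=
    cont_par hIc (f := fun (p : V d × V d) (t : ℝ) => nsq (grad v (p.1 + t • (p.2 - p.1)))) c1
  have hpt : ∀ y ∈ Ω, ∀ x ∈ Ω, (dl v x y) ^ 2 ≤ D2 ^ 2 * ∫ t in Set.Icc (0 : ℝ) 1,
      nsq (grad v (y + t • (x - y))) := by
    intro y hy x hx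
    refine (dl_sq_le hv x y).trans ?_
    rw [Icc_int]
    refine mul_le_mul_of_nonneg_right ?_ (integral_nonneg fun _ => nsq_nonneg _)
    exact pow_le_pow_left₀ (dot_self_nonneg _) (hD x hx y hy) 2
  have s1 : ∫ y in Ω, ∫ x in Ω, (dl v x y) ^ 2 ≤
      ∫ y in Ω, ∫ x in Ω, D2 ^ 2 * ∫ t in Set.Icc (0 : ℝ) 1,
        nsq (grad v (y + t • (x - y))) := by
    refine setIntegral_mono_on ?_ ?_ hΩm fun y hy => ?_
    · refine cint ?_ hΩ
      exact cont_par hΩ (f := fun y x => (dl v x y) ^ 2)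
        ((hdl.comp (f := fun p : V d × V d => (p.2, p.1)) (by fun_prop)).pow 2)
    · refine cint ?_ hΩ
      exact cont_par hΩ (f := fun y x => D2 ^ 2 * ∫ t in Set.Icc (0 : ℝ) 1,
        nsq (grad v (y + t • (x - y)))) (continuous_const.mul c2)
    · refine setIntegral_mono_on ?_ ?_ hΩm fun x hx => hpt y hy x hx
      · refine cint ?_ hΩ
        exact (hdl.comp (f := fun x : V d => (x, y)) (by fun_prop)).pow 2
      · refine cint ?_ hΩ
        have c3 : Continuous fun x : V d => ∫ t in Set.Icc (0 : ℝ) 1,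
            nsq (grad v (y + t • (x - y))) :=
          c2.comp (f := fun x : V d => (y, x)) (by fun_prop)
        exact continuous_const.mul c3
  refine s1.trans ?_
  simp only [integral_const_mul]
  refine mul_le_mul_of_nonneg_left ?_ (sq_nonneg _)
  -- exchange of the integrals
  have s2 : ∫ y in Ω, ∫ x in Ω, ∫ t in Set.Icc (0 : ℝ) 1, nsq (grad v (y + t • (x - y))) =
      ∫ t in Set.Icc (0 : ℝ) 1, ∫ y in Ω, ∫ x in Ω, nsq (grad v (y + t • (x - y))) := by
    have e1 : ∀ y : V d, ∫ x in Ω, ∫ t in Set.Icc (0 : ℝ) 1, nsq (grad v (y + t • (x - y))) =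
        ∫ t in Set.Icc (0 : ℝ) 1, ∫ x in Ω, nsq (grad v (y + t • (x - y))) := fun y =>
      swap_int hΩ hIc (f := fun (x : V d) (t : ℝ) => nsq (grad v (y + t • (x - y))))
        (hg.comp (by fun_prop))
    simp only [e1]
    refine swap_int hΩ hIc (f := fun (y : V d) (t : ℝ) =>
      ∫ x in Ω, nsq (grad v (y + t • (x - y)))) ?_
    exact cont_par hΩ (f := fun (p : V d × ℝ) (x : V d) =>
      nsq (grad v (p.1 + p.2 • (x - p.1)))) (hg.comp (by fun_prop))
  rw [s2]
  have s3 : ∫ t in Set.Icc (0 : ℝ) 1, ∫ y in Ω, ∫ x in Ω, nsq (grad v (y + t • (x - y))) ≤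
      ∫ _t in Set.Icc (0 : ℝ) 1, volume.real Ω * (2 ^ d * ∫ x in Ω, nsq (grad v x)) := by
    refine setIntegral_mono_on ?_ ?_ hIm fun t ht => J_le hv hΩ hconv ht.1 ht.2
    · refine cint ?_ hIc
      refine cont_par hΩ (f := fun (t : ℝ) (y : V d) =>
        ∫ x in Ω, nsq (grad v (y + t • (x - y)))) ?_
      exact cont_par hΩ (f := fun (p : ℝ × V d) (x : V d) =>
        nsq (grad v (p.2 + p.1 • (x - p.2)))) (hg.comp (by fun_prop))
    · exact cint continuous_const hIc
  refine s3.trans (le_of_eq ?_)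
  rw [setIntegral_const]
  simp

/-- bars -/
theorem bar {Y : Set (V d)} (hY : IsCompact Y) (w z : V d)
    (hseg : ∀ y ∈ Y, ∀ t ∈ Set.Icc (0 : ℝ) 1, y + w + t • z ∈ Ω) :
    ∫ y in Y, (dl v (y + w + z) (y + w)) ^ 2 ≤
      (dot z z) ^ 2 * ∫ x in Ω, nsq (grad v x) := by
  have hYm : MeasurableSet Y := hY.isClosed.measurableSet
  have hg := cont_g hv
  have hE := E_nonneg (v := v) (Ω := Ω)
  have hIc : IsCompact (Set.Icc (0 : ℝ) 1) := isCompact_Icc
  have hdl := cont_dl hv
  have c1 : Continuous fun p : V d × ℝ => nsq (grad v (p.1 + w + p.2 • z)) :=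
    hg.comp (by fun_prop)
  have s1 : ∫ y in Y, (dl v (y + w + z) (y + w)) ^ 2 ≤
      ∫ y in Y, (dot z z) ^ 2 * ∫ t in Set.Icc (0 : ℝ) 1, nsq (grad v (y + w + t • z)) := by
    refine setIntegral_mono_on ?_ ?_ hYm fun y _ => ?_
    · refine cint ?_ hY
      exact (hdl.comp (f := fun y : V d => (y + w + z, y + w)) (by fun_prop)).pow 2
    · refine cint ?_ hY
      exact continuous_const.mul (cont_par hIc
        (f := fun (y : V d) (t : ℝ) => nsq (grad v (y + w + t • z))) c1)
    · have h := dl_sq_le hv (y + w + z) (y + w)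
      rwa [add_sub_cancel_left, Icc_int] at h
  refine s1.trans ?_
  rw [integral_const_mul]
  refine mul_le_mul_of_nonneg_left ?_ (sq_nonneg _)
  rw [swap_int hY hIc (f := fun (y : V d) (t : ℝ) => nsq (grad v (y + w + t • z))) c1]
  have s3 : ∫ t in Set.Icc (0 : ℝ) 1, ∫ y in Y, nsq (grad v (y + w + t • z)) ≤
      ∫ _t in Set.Icc (0 : ℝ) 1, ∫ x in Ω, nsq (grad v x) := by
    refine setIntegral_mono_on ?_ ?_ measurableSet_Icc fun t ht => ?_
    · refine cint ?_ hIc
      exact cont_par hY (f := fun (t : ℝ) (y : V d) => nsq (grad v (y + w + t • z)))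
        (hg.comp (by fun_prop))
    · exact cint continuous_const hIc
    · have h := sub_int hYm hΩ hg (fun x => nsq_nonneg _) (w + t • z) (t := 1) one_pos
        (fun y hy => by
          rw [one_smul, show w + t • z + y = y + w + t • z by abel]
          exact hseg y hy t ht)
      have e : ∀ y : V d, w + t • z + (1 : ℝ) • y = y + w + t • z := fun y => by
        rw [one_smul]; abel
      simp only [e, one_pow, inv_one, one_mul] at h
      exact h
  refine s3.trans (le_of_eq ?_)
  rw [setIntegral_const]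
  simp

end dbl

/-! ### algebra -/

theorem dot_single (j : Fin d) (h : ℝ) (w : V d) : dot (Pi.single j h) w = h * w j := by
  unfold dot
  rw [Finset.sum_eq_single j]
  · simp
  · intro i _ hi; simp [hi]
  · intro hj; exact absurd (Finset.mem_univ _) hj

theorem four_pt (v : V d → V d) (x y z : V d) :
    dot (z - y) (v x - v y) = dl v x y + dl v z y - dl v x z - dot (v z - v y) (x - y) := by
  unfold dl dot
  rw [← Finset.sum_add_distrib, ← Finset.sum_sub_distrib, ← Finset.sum_sub_distrib]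
  refine Finset.sum_congr rfl fun i _ => ?_
  simp only [Pi.sub_apply]
  ring

theorem cs_sum (a b : Fin d → ℝ) : (∑ k, a k * b k) ^ 2 ≤ (∑ k, (a k) ^ 2) * dot b b := by
  have h := Finset.sum_mul_sq_le_sq_mul_sq Finset.univ a b
  refine h.trans (le_of_eq ?_)
  congr 1
  exact Finset.sum_congr rfl fun i _ => sq _

/-- the pointwise estimate -/
theorem pointwise {v : V d → V d} {y : V d} {h T D2 : ℝ} (hh : 0 < h)
    (hb : ∀ j, (dl v (y + Pi.single j h) y) ^ 2 ≤ T)
    (hb2 : ∀ j k, (dl v (y + Pi.single j h) (y + Pi.single k h)) ^ 2 ≤ T) :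
    ∃ (a : V d) (Om : M d), (∀ i j, Om i j = - Om j i) ∧ ∀ x, dot (x - y) (x - y) ≤ D2 →
      dot (v x - a - mulV Om x) (v x - a - mulV Om x) ≤
        ∑ j, (6 / h ^ 2 * ((dl v x y) ^ 2 + T + (dl v x (y + Pi.single j h)) ^ 2) +
          D2 * (d * (9 / 2 * T / h ^ 4))) := by
  set G : M d := fun j k => -(1 / h) * (v (y + Pi.single j h) k - v y k) with hG
  set Om : M d := fun j k => (G j k - G k j) / 2 with hOm
  set S : M d := fun j k => (G j k + G k j) / 2 with hS
  have hS2 : ∀ j k, (S j k) ^ 2 ≤ 9 / 4 * T / h ^ 4 := by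
    intro j k
    have e : S j k = -(1 / (2 * h ^ 2)) * (dl v (y + Pi.single j h) y +
        dl v (y + Pi.single k h) y - dl v (y + Pi.single j h) (y + Pi.single k h)) := by
      have e1 : dl v (y + Pi.single j h) y = h * (v (y + Pi.single j h) j - v y j) := by
        unfold dl
        rw [add_sub_cancel_left, dot_single]; rfl
      have e2 : dl v (y + Pi.single k h) y = h * (v (y + Pi.single k h) k - v y k) := by
        unfold dl
        rw [add_sub_cancel_left, dot_single]; rfl
      have e3 : dl v (y + Pi.single j h) (y + Pi.single k h) =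
          h * (v (y + Pi.single j h) j - v (y + Pi.single k h) j) -
          h * (v (y + Pi.single j h) k - v (y + Pi.single k h) k) := by
        unfold dl
        rw [show y + Pi.single j h - (y + Pi.single k h) =
          (Pi.single j h - Pi.single k h : V d) by abel, dot_sub_left, dot_single, dot_single]
        rfl
      rw [e1, e2, e3]
      simp only [hS, hG]
      field_simp
      ring
    have h1 := hb j
    have h2 := hb k
    have h3 := hb2 j k
    set p := dl v (y + Pi.single j h) y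
    set q := dl v (y + Pi.single k h) y
    set r := dl v (y + Pi.single j h) (y + Pi.single k h)
    have h4 : (p + q - r) ^ 2 ≤ 9 * T := by
      nlinarith [sq_nonneg (p - q), sq_nonneg (p + r), sq_nonneg (q + r)]
    rw [e]
    have h5 : (-(1 / (2 * h ^ 2)) * (p + q - r)) ^ 2 = (p + q - r) ^ 2 / (4 * h ^ 4) := by
      field_simp
      ring
    rw [h5, div_le_div_iff₀ (by positivity) (by positivity)]
    nlinarith [pow_pos hh 4]
  refine ⟨fun j => v y j - mulV Om y j, Om, fun i j => ?_, fun x hx => ?_⟩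
  · simp only [hOm]; ring
  · have hcomp : ∀ j, (v x - (fun j => v y j - mulV Om y j) - mulV Om x) j =
        1 / h * (dl v x y + dl v (y + Pi.single j h) y - dl v x (y + Pi.single j h)) +
          ∑ k, S j k * (x - y) k := by
      intro j
      have h1 := four_pt v x y (y + Pi.single j h)
      rw [add_sub_cancel_left, dot_single] at h1
      have h2 : dot (v (y + Pi.single j h) - v y) (x - y) = - h * ∑ k, G j k * (x - y) k := by
        unfold dot
        rw [Finset.mul_sum]
        refine Finset.sum_congr rfl fun k _ => ?_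
        simp only [hG, Pi.sub_apply]
        field_simp
      rw [h2] at h1
      have h3 : ∑ k, G j k * (x - y) k = ∑ k, S j k * (x - y) k + mulV Om x j - mulV Om y j := by
        simp only [mulV]
        rw [← Finset.sum_add_distrib, ← Finset.sum_sub_distrib]
        refine Finset.sum_congr rfl fun k _ => ?_
        simp only [hS, hOm, Pi.sub_apply]
        ring
      rw [h3] at h1
      simp only [Pi.sub_apply] at h1 ⊢
      have h4 : v x j - v y j = 1 / h * (h * (v x j - v y j)) := by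
        field_simp
      have h5 : v x j - (v y j - mulV Om y j) - mulV Om x j =
          (v x j - v y j) + mulV Om y j - mulV Om x j := by ring
      rw [h5, h4, h1]
      have h6 : (1 : ℝ) / h * h = 1 := by field_simp
      linear_combination (∑ x_1, S j x_1 * (x x_1 - y x_1) + mulV Om x j - mulV Om y j) * h6
    unfold dot
    refine Finset.sum_le_sum fun j _ => ?_
    rw [hcomp j, ← sq]
    have h1 := cs_sum (S j) (x - y)
    have h2 : ∑ k, (S j k) ^ 2 ≤ d * (9 / 4 * T / h ^ 4) := by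
      calc ∑ k, (S j k) ^ 2 ≤ ∑ _k : Fin d, 9 / 4 * T / h ^ 4 :=
            Finset.sum_le_sum fun k _ => hS2 j k
        _ = d * (9 / 4 * T / h ^ 4) := by simp
    have h3 : (∑ k, S j k * (x - y) k) ^ 2 ≤ d * (9 / 4 * T / h ^ 4) * D2 :=
      h1.trans (mul_le_mul h2 hx (dot_self_nonneg _)
        (le_trans (Finset.sum_nonneg fun _ _ => sq_nonneg _) h2))
    set p := dl v x y
    set q := dl v (y + Pi.single j h) y
    set r := dl v x (y + Pi.single j h)
    set s := ∑ k, S j k * (x - y) k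
    have h4 : (1 / h * (p + q - r) + s) ^ 2 ≤ 2 * (1 / h * (p + q - r)) ^ 2 + 2 * s ^ 2 := by
      nlinarith [sq_nonneg (1 / h * (p + q - r) - s)]
    have h5 : (1 / h * (p + q - r)) ^ 2 = 1 / h ^ 2 * (p + q - r) ^ 2 := by
      rw [mul_pow, div_pow, one_pow]
    have h6 : (p + q - r) ^ 2 ≤ 3 * (p ^ 2 + T + r ^ 2) := by
      have := hb j
      nlinarith [sq_nonneg (p - q), sq_nonneg (p + r), sq_nonneg (q + r)]
    have h7 : 1 / h ^ 2 * (p + q - r) ^ 2 ≤ 1 / h ^ 2 * (3 * (p ^ 2 + T + r ^ 2)) :=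
      mul_le_mul_of_nonneg_left h6 (by positivity)
    have h8 : 6 / h ^ 2 * (p ^ 2 + T + r ^ 2) = 2 * (1 / h ^ 2 * (3 * (p ^ 2 + T + r ^ 2))) := by
      ring
    have h9 : D2 * (d * (9 / 2 * T / h ^ 4)) = 2 * (d * (9 / 4 * T / h ^ 4) * D2) := by ring
    rw [h8, h9]
    linarith

theorem exists_h (lo hi : V d) (hlh : ∀ i, lo i < hi i) :
    ∃ h : ℝ, 0 < h ∧ ∀ i, lo i + 2 * h ≤ hi i := by
  have h1 : ∀ᶠ x in 𝓝[>] (0 : ℝ), ∀ i, x < (hi i - lo i) / 2 := by
    rw [eventually_all]
    intro i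
    exact (gt_mem_nhds (by have := hlh i; linarith)).filter_mono nhdsWithin_le_nhds
  obtain ⟨x, hx, hx0⟩ := (h1.and self_mem_nhdsWithin).exists
  exact ⟨x, hx0, fun i => by have := hx i; linarith⟩

theorem exists_D2 (lo hi : V d) : ∃ D2 : ℝ, 0 ≤ D2 ∧ ∀ x ∈ Set.Icc lo hi, ∀ y ∈ Set.Icc lo hi,
    dot (x - y) (x - y) ≤ D2 := by
  refine ⟨∑ i, (hi i - lo i) * (hi i - lo i), Finset.sum_nonneg fun i _ => mul_self_nonneg _,
    fun x hx y hy => Finset.sum_le_sum fun i _ => ?_⟩
  have h1 := hx.1 i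
  have h2 := hx.2 i
  have h3 := hy.1 i
  have h4 := hy.2 i
  simp only [Pi.sub_apply]
  rw [← sq, ← sq]
  exact sq_le_sq' (by linarith) (by linarith)

attribute [local irreducible] dl

/-- `∫ δ(x, y)² dx` -/
def Hf (v : V d → V d) (Ω : Set (V d)) (y : V d) : ℝ := ∫ x in Ω, (dl v x y) ^ 2

theorem Hf_nonneg (v : V d → V d) (Ω : Set (V d)) (y : V d) : 0 ≤ Hf v Ω y :=
  integral_nonneg fun _ => sq_nonneg _

theorem Hf_cont {v : V d → V d} (hv : ContDiff ℝ 1 v) {Ω : Set (V d)} (hΩ : IsCompact Ω) :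
    Continuous (Hf v Ω) :=
  cont_par hΩ (f := fun y x => (dl v x y) ^ 2)
    (((cont_dl hv).comp (f := fun p : V d × V d => (p.2, p.1)) (by fun_prop)).pow 2)

/-- the functional to be minimised -/
def F1 (v : V d → V d) (Ω : Set (V d)) (h : ℝ) (y : V d) : ℝ := ∑ j, Hf v Ω (y + Pi.single j h)
def F2 (v : V d → V d) (h : ℝ) (y : V d) : ℝ := ∑ j, (dl v (y + Pi.single j h) y) ^ 2
def F3 (v : V d → V d) (h : ℝ) (y : V d) : ℝ :=
  ∑ j, ∑ k, (dl v (y + Pi.single j h) (y + Pi.single k h)) ^ 2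
def FF (v : V d → V d) (Ω : Set (V d)) (h : ℝ) (y : V d) : ℝ :=
  (Hf v Ω y + F1 v Ω h y) + (F2 v h y + F3 v h y)

section choose

variable {v : V d → V d} (hv : ContDiff ℝ 1 v) {Ω : Set (V d)} (hΩ : IsCompact Ω) (h : ℝ)

include hv

theorem c2 (j : Fin d) : Continuous fun y : V d => (dl v (y + Pi.single j h) y) ^ 2 := by
  have h1 : Continuous fun y : V d => ((y + Pi.single j h, y) : V d × V d) := by fun_prop
  have h2 : Continuous fun y : V d => dl v (y + Pi.single j h) y := (cont_dl hv).comp h1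
  exact h2.pow 2

theorem c3 (j k : Fin d) : Continuous fun y : V d =>
    (dl v (y + Pi.single j h) (y + Pi.single k h)) ^ 2 := by
  have h1 : Continuous fun y : V d => ((y + Pi.single j h, y + Pi.single k h) : V d × V d) := by
    fun_prop
  have h2 : Continuous fun y : V d => dl v (y + Pi.single j h) (y + Pi.single k h) :=
    (cont_dl hv).comp h1
  exact h2.pow 2

theorem F2_cont : Continuous (F2 v h) := continuous_finsetSum _ fun j _ => c2 hv h j

theorem F3_cont : Continuous (F3 v h) := continuous_finsetSum _ fun j _ =>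
    continuous_finsetSum _ fun k _ => c3 hv h j k

include hΩ

theorem c1 (j : Fin d) : Continuous fun y : V d => Hf v Ω (y + Pi.single j h) :=
  (Hf_cont hv hΩ).comp (by fun_prop)

theorem F1_cont : Continuous (F1 v Ω h) := continuous_finsetSum _ fun j _ => c1 hv hΩ h j

theorem FF_cont : Continuous (FF v Ω h) :=
  ((Hf_cont hv hΩ).add (F1_cont hv hΩ h)).add ((F2_cont hv h).add (F3_cont hv h))

theorem int_FF {Y : Set (V d)} (hY : IsCompact Y) : ∫ y in Y, FF v Ω h y =
    ((∫ y in Y, Hf v Ω y) + ∫ y in Y, F1 v Ω h y) + ((∫ y in Y, F2 v h y) + ∫ y in Y, F3 v h y) := by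
  have e1 : ∫ y in Y, FF v Ω h y = (∫ y in Y, (Hf v Ω y + F1 v Ω h y)) +
      ∫ y in Y, (F2 v h y + F3 v h y) :=
    integral_add (cint ((Hf_cont hv hΩ).add (F1_cont hv hΩ h)) hY)
      (cint ((F2_cont hv h).add (F3_cont hv h)) hY)
  rw [e1, integral_add (cint (Hf_cont hv hΩ) hY) (cint (F1_cont hv hΩ h) hY),
    integral_add (cint (F2_cont hv h) hY) (cint (F3_cont hv h) hY)]

variable (hconv : Convex ℝ Ω) {D2 : ℝ} (hD : ∀ x ∈ Ω, ∀ y ∈ Ω, dot (x - y) (x - y) ≤ D2)
  {Y : Set (V d)} (hY : IsCompact Y) (hYΩ : Y ⊆ Ω) (hYs : ∀ y ∈ Y, ∀ j, y + Pi.single j h ∈ Ω)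
  {y₀ : V d} (hy₀ : y₀ ∈ Y)

include hconv hD

theorem int_H : ∫ y in Ω, Hf v Ω y ≤ D2 ^ 2 * (volume.real Ω * (2 ^ d *
    ∫ x in Ω, nsq (grad v x))) := dbl hv hΩ hD hconv

include hY hYs

theorem i1 (j : Fin d) : ∫ y in Y, Hf v Ω (y + Pi.single j h) ≤
    D2 ^ 2 * (volume.real Ω * (2 ^ d * ∫ x in Ω, nsq (grad v x))) := by
  refine le_trans ?_ (int_H hv hΩ hconv hD)
  have := sub_int hY.isClosed.measurableSet hΩ (Hf_cont hv hΩ) (Hf_nonneg v Ω)
    (Pi.single j h) (t := 1) one_pos (fun y hy => by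
      rw [one_smul, add_comm]; exact hYs y hy j)
  simp only [one_smul, one_pow, inv_one, one_mul] at this
  simpa only [add_comm] using this

include hy₀

theorem i3 (j k : Fin d) : ∫ y in Y, (dl v (y + Pi.single j h) (y + Pi.single k h)) ^ 2 ≤
    D2 ^ 2 * ∫ x in Ω, nsq (grad v x) := by
  have h1 := bar hv hΩ hY (Pi.single k h) (Pi.single j h - Pi.single k h) (fun y hy t ht => by
    have h2 := hYs y hy j
    have h3 := hYs y hy k
    have h4 := hconv h3 h2 (a := 1 - t) (b := t) (by linarith [ht.2]) ht.1 (by ring)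
    have e : y + Pi.single k h + t • (Pi.single j h - Pi.single k h : V d) =
        (1 - t) • (y + Pi.single k h) + t • (y + Pi.single j h) := by
      module
    rw [e]; exact h4)
  have e2 : ∀ y : V d, y + Pi.single k h + (Pi.single j h - Pi.single k h) =
      y + Pi.single j h := fun y => by abel
  simp only [e2] at h1
  refine h1.trans (mul_le_mul_of_nonneg_right ?_ E_nonneg)
  refine pow_le_pow_left₀ (dot_self_nonneg _) ?_ 2
  have h5 := hD _ (hYs y₀ hy₀ j) _ (hYs y₀ hy₀ k)
  rwa [show y₀ + Pi.single j h - (y₀ + Pi.single k h) =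
    (Pi.single j h - Pi.single k h : V d) by abel] at h5

include hYΩ

theorem i2 (j : Fin d) : ∫ y in Y, (dl v (y + Pi.single j h) y) ^ 2 ≤
    D2 ^ 2 * ∫ x in Ω, nsq (grad v x) := by
  have h1 := bar hv hΩ hY (0 : V d) (Pi.single j h) (fun y hy t ht => by
    have h2 := hYs y hy j
    have h3 := hYΩ hy
    have h4 := hconv h3 h2 (a := 1 - t) (b := t) (by linarith [ht.2]) ht.1 (by ring)
    have e : y + 0 + t • (Pi.single j h : V d) = (1 - t) • y + t • (y + Pi.single j h) := by
      module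
    rw [e]; exact h4)
  simp only [add_zero] at h1
  refine h1.trans (mul_le_mul_of_nonneg_right ?_ E_nonneg)
  refine pow_le_pow_left₀ (dot_self_nonneg _) ?_ 2
  have h5 := hD _ (hYs y₀ hy₀ j) _ (hYΩ hy₀)
  rwa [add_sub_cancel_left] at h5

theorem int_FF_le : ∫ y in Y, FF v Ω h y ≤
    ((1 + d) * (D2 ^ 2 * (volume.real Ω * 2 ^ d)) + (d + d * d) * D2 ^ 2) *
      ∫ x in Ω, nsq (grad v x) := by
  have i0 : ∫ y in Y, Hf v Ω y ≤ D2 ^ 2 * (volume.real Ω * (2 ^ d *
      ∫ x in Ω, nsq (grad v x))) := by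
    refine le_trans ?_ (int_H hv hΩ hconv hD)
    exact setIntegral_mono_set (cint (Hf_cont hv hΩ) hΩ) (Eventually.of_forall (Hf_nonneg v Ω))
      (LE.le.eventuallyLE hYΩ)
  have iF1 : ∫ y in Y, F1 v Ω h y ≤ d * (D2 ^ 2 * (volume.real Ω * (2 ^ d *
      ∫ x in Ω, nsq (grad v x)))) := by
    unfold F1
    rw [integral_finsetSum _ fun j _ => cint (c1 hv hΩ h j) hY]
    refine (Finset.sum_le_sum fun j _ => i1 hv hΩ h hconv hD hY hYs j).trans (le_of_eq ?_)
    simp
  have iF2 : ∫ y in Y, F2 v h y ≤ d * (D2 ^ 2 * ∫ x in Ω, nsq (grad v x)) := by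
    unfold F2
    rw [integral_finsetSum _ fun j _ => cint (c2 hv h j) hY]
    refine (Finset.sum_le_sum fun j _ => i2 hv hΩ h hconv hD hY hYΩ hYs hy₀ j).trans
      (le_of_eq ?_)
    simp
  have iF3 : ∫ y in Y, F3 v h y ≤ d * (d * (D2 ^ 2 * ∫ x in Ω, nsq (grad v x))) := by
    unfold F3
    rw [integral_finsetSum _ fun j _ =>
      cint (continuous_finsetSum _ fun k _ => c3 hv h j k) hY]
    have h1 : ∀ j : Fin d, ∫ y in Y, ∑ k, (dl v (y + Pi.single j h) (y + Pi.single k h)) ^ 2 ≤
        d * (D2 ^ 2 * ∫ x in Ω, nsq (grad v x)) := by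
      intro j
      rw [integral_finsetSum _ fun k _ => cint (c3 hv h j k) hY]
      refine (Finset.sum_le_sum fun k _ => i3 hv hΩ h hconv hD hY hYs hy₀ j k).trans
        (le_of_eq ?_)
      simp
    refine (Finset.sum_le_sum fun j _ => h1 j).trans (le_of_eq ?_)
    simp
  rw [int_FF hv hΩ h hY]
  have e : ((1 + d) * (D2 ^ 2 * (volume.real Ω * 2 ^ d)) + (d + d * d) * D2 ^ 2) *
      ∫ x in Ω, nsq (grad v x) = D2 ^ 2 * (volume.real Ω * (2 ^ d *
      ∫ x in Ω, nsq (grad v x))) + d * (D2 ^ 2 * (volume.real Ω * (2 ^ d *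
      ∫ x in Ω, nsq (grad v x)))) + (d * (D2 ^ 2 * ∫ x in Ω, nsq (grad v x)) +
      d * (d * (D2 ^ 2 * ∫ x in Ω, nsq (grad v x)))) := by ring
  rw [e]
  exact add_le_add (add_le_add i0 iF1) (add_le_add iF2 iF3)

theorem choose_pt (hvY0 : volume Y ≠ 0) : ∃ y ∈ Y, FF v Ω h y ≤ (volume.real Y)⁻¹ *
    ((1 + d) * (D2 ^ 2 * (volume.real Ω * 2 ^ d)) + (d + d * d) * D2 ^ 2) *
      ∫ x in Ω, nsq (grad v x) := by
  obtain ⟨y, hy, hyF⟩ := exists_le_setAverage hvY0 hY.measure_lt_top.ne
    (cint (FF_cont hv hΩ h) hY)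
  refine ⟨y, hy, hyF.trans ?_⟩
  rw [setAverage_eq, smul_eq_mul, mul_assoc]
  exact mul_le_mul_of_nonneg_left (int_FF_le hv hΩ h hconv hD hY hYΩ hYs hy₀)
    (inv_nonneg.2 ENNReal.toReal_nonneg)

end choose

theorem sq_le_sum {n : ℕ} (f : Fin n → ℝ) (i : Fin n) : (f i) ^ 2 ≤ ∑ j, (f j) ^ 2 :=
  Finset.single_le_sum (f := fun j => (f j) ^ 2) (fun j _ => sq_nonneg (f j)) (Finset.mem_univ i)

theorem sq_le_sum2 {n : ℕ} (f : Fin n → Fin n → ℝ) (i k : Fin n) :
    (f i k) ^ 2 ≤ ∑ j, ∑ l, (f j l) ^ 2 :=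
  (sq_le_sum (f i) k).trans (Finset.single_le_sum (f := fun j => ∑ l, (f j l) ^ 2)
    (fun j _ => Finset.sum_nonneg fun l _ => sq_nonneg (f j l)) (Finset.mem_univ i))

theorem FF_parts (v : V d → V d) (Ω : Set (V d)) (h : ℝ) (y : V d) :
    0 ≤ FF v Ω h y ∧ Hf v Ω y ≤ FF v Ω h y ∧
    (∀ j : Fin d, Hf v Ω (y + Pi.single j h) ≤ FF v Ω h y) ∧
    (∀ j : Fin d, (dl v (y + Pi.single j h) y) ^ 2 ≤ FF v Ω h y) ∧
    (∀ j k : Fin d, (dl v (y + Pi.single j h) (y + Pi.single k h)) ^ 2 ≤ FF v Ω h y) := by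
  have n0 := Hf_nonneg v Ω y
  have n1 : 0 ≤ F1 v Ω h y := Finset.sum_nonneg fun j _ => Hf_nonneg _ _ _
  have n2 : 0 ≤ F2 v h y := by
    unfold F2
    exact Finset.sum_nonneg fun j _ => sq_nonneg (dl v (y + Pi.single j h) y)
  have n3 : 0 ≤ F3 v h y := by
    unfold F3
    exact Finset.sum_nonneg fun j _ => Finset.sum_nonneg fun k _ =>
      sq_nonneg (dl v (y + Pi.single j h) (y + Pi.single k h))
  have m1 : ∀ j : Fin d, Hf v Ω (y + Pi.single j h) ≤ F1 v Ω h y := by
    intro j
    unfold F1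
    exact Finset.single_le_sum (f := fun j => Hf v Ω (y + Pi.single j h))
        (fun j _ => Hf_nonneg _ _ _) (Finset.mem_univ j)
  have m2 : ∀ j : Fin d, (dl v (y + Pi.single j h) y) ^ 2 ≤ F2 v h y := by
    intro j
    unfold F2
    exact sq_le_sum (fun j => dl v (y + Pi.single j h) y) j
  have m3 : ∀ j k : Fin d, (dl v (y + Pi.single j h) (y + Pi.single k h)) ^ 2 ≤ F3 v h y := by
    intro j k
    unfold F3
    exact sq_le_sum2 (fun j k => dl v (y + Pi.single j h) (y + Pi.single k h)) j k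
  have e0 : FF v Ω h y = (Hf v Ω y + F1 v Ω h y) + (F2 v h y + F3 v h y) := by
    unfold FF; rfl
  have e1 : Hf v Ω y ≤ FF v Ω h y := by rw [e0]; linarith only [n1, n2, n3]
  have e2 : F1 v Ω h y ≤ FF v Ω h y := by rw [e0]; linarith only [n0, n2, n3]
  have e3 : F2 v h y ≤ FF v Ω h y := by rw [e0]; linarith only [n0, n1, n3]
  have e4 : F3 v h y ≤ FF v Ω h y := by rw [e0]; linarith only [n0, n1, n2]
  exact ⟨n0.trans e1, e1, fun j => (m1 j).trans e2, fun j => (m2 j).trans e3,
    fun j k => (m3 j k).trans e4⟩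

/-- integration of the pointwise estimate -/
theorem final_int {v : V d → V d} (hv : ContDiff ℝ 1 v) {Ω : Set (V d)} (hΩ : IsCompact Ω)
    {y : V d} {h T D2 : ℝ} (hh : 0 < h) (a : V d) (Om : M d)
    (hpt : ∀ x ∈ Ω, dot (v x - a - mulV Om x) (v x - a - mulV Om x) ≤
        ∑ j, (6 / h ^ 2 * ((dl v x y) ^ 2 + T + (dl v x (y + Pi.single j h)) ^ 2) +
          D2 * (d * (9 / 2 * T / h ^ 4))))
    (t0 : Hf v Ω y ≤ T) (t1 : ∀ j, Hf v Ω (y + Pi.single j h) ≤ T) :
    ∫ x in Ω, dot (v x - a - mulV Om x) (v x - a - mulV Om x) ≤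
      (d : ℝ) * (6 / h ^ 2 * (2 + volume.real Ω) +
        volume.real Ω * (D2 * (d * (9 / 2 / h ^ 4)))) * T := by
  have hΩm : MeasurableSet Ω := hΩ.isClosed.measurableSet
  have hdl := cont_dl hv
  have hvc : Continuous v := hv.continuous
  have cL : Continuous fun x => dot (v x - a - mulV Om x) (v x - a - mulV Om x) := by
    have c4 : ∀ i, Continuous fun x => (v x - a - mulV Om x) i := by
      intro i
      simp only [Pi.sub_apply, mulV]
      refine (((continuous_apply i).comp hvc).sub continuous_const).sub ?_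
      exact continuous_finsetSum _ fun j _ => continuous_const.mul (continuous_apply j)
    unfold dot
    exact continuous_finsetSum _ fun i _ => (c4 i).mul (c4 i)
  have c5 : ∀ z : V d, Continuous fun x => (dl v x z) ^ 2 := by
    intro z
    have h1 : Continuous fun x : V d => ((x, z) : V d × V d) := by fun_prop
    have h2 : Continuous fun x : V d => dl v x z := hdl.comp h1
    exact h2.pow 2
  have c7 : ∀ z z' : V d, Continuous fun x => 6 / h ^ 2 * ((dl v x z) ^ 2 + T +
      (dl v x z') ^ 2) := by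
    intro z z'
    have h1 := c5 z
    have h2 := c5 z'
    exact continuous_const.mul ((h1.add continuous_const).add h2)
  have c6 : ∀ j, Continuous fun x => 6 / h ^ 2 * ((dl v x y) ^ 2 + T +
      (dl v x (y + Pi.single j h)) ^ 2) + D2 * (d * (9 / 2 * T / h ^ 4)) := fun j =>
    (c7 y _).add continuous_const
  have s1 : ∫ x in Ω, dot (v x - a - mulV Om x) (v x - a - mulV Om x) ≤
      ∫ x in Ω, ∑ j, (6 / h ^ 2 * ((dl v x y) ^ 2 + T + (dl v x (y + Pi.single j h)) ^ 2) +
          D2 * (d * (9 / 2 * T / h ^ 4))) :=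
    setIntegral_mono_on (cint cL hΩ) (cint (continuous_finsetSum _ fun j _ => c6 j) hΩ) hΩm hpt
  refine s1.trans ?_
  rw [integral_finsetSum _ fun j _ => cint (c6 j) hΩ]
  have s2 : ∀ j, ∫ x in Ω, (6 / h ^ 2 * ((dl v x y) ^ 2 + T +
      (dl v x (y + Pi.single j h)) ^ 2) + D2 * (d * (9 / 2 * T / h ^ 4))) ≤
      6 / h ^ 2 * (T + volume.real Ω * T + T) +
        volume.real Ω * (D2 * (d * (9 / 2 * T / h ^ 4))) := by
    intro j
    have e1 : ∫ x in Ω, (6 / h ^ 2 * ((dl v x y) ^ 2 + T +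
        (dl v x (y + Pi.single j h)) ^ 2) + D2 * (d * (9 / 2 * T / h ^ 4))) =
        6 / h ^ 2 * ((∫ x in Ω, (dl v x y) ^ 2) + volume.real Ω * T +
        ∫ x in Ω, (dl v x (y + Pi.single j h)) ^ 2) +
        volume.real Ω * (D2 * (d * (9 / 2 * T / h ^ 4))) := by
      have q1 : IntegrableOn (fun x => 6 / h ^ 2 * ((dl v x y) ^ 2 + T +
        (dl v x (y + Pi.single j h)) ^ 2)) Ω := cint (c7 _ _) hΩ
      have q2 : IntegrableOn (fun _ : V d => D2 * (d * (9 / 2 * T / h ^ 4))) Ω :=
        cint continuous_const hΩ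
      have q3 : IntegrableOn (fun x => (dl v x y) ^ 2) Ω := cint (c5 _) hΩ
      have q4 : IntegrableOn (fun _ : V d => T) Ω := cint continuous_const hΩ
      have q5 : IntegrableOn (fun x => (dl v x (y + Pi.single j h)) ^ 2) Ω := cint (c5 _) hΩ
      have q6 : IntegrableOn (fun x => (dl v x y) ^ 2 + T) Ω := q3.add q4
      rw [integral_add q1 q2, integral_const_mul, integral_add q6 q5,
        integral_add q3 q4, setIntegral_const, setIntegral_const, smul_eq_mul, smul_eq_mul]
    rw [e1]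
    have h6 : 6 / h ^ 2 * ((∫ x in Ω, (dl v x y) ^ 2) + volume.real Ω * T +
        ∫ x in Ω, (dl v x (y + Pi.single j h)) ^ 2) ≤
        6 / h ^ 2 * (T + volume.real Ω * T + T) := by
      refine mul_le_mul_of_nonneg_left ?_ (by positivity)
      have h7 : ∫ x in Ω, (dl v x y) ^ 2 ≤ T := t0
      have h8 : ∫ x in Ω, (dl v x (y + Pi.single j h)) ^ 2 ≤ T := t1 j
      linarith
    linarith
  refine (Finset.sum_le_sum fun j _ => s2 j).trans (le_of_eq ?_)
  simp only [Finset.sum_const, Finset.card_univ, Fintype.card_fin, nsmul_eq_mul]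
  ring

end KPAux

open KPAux in
/-- B1: Korn–Poincaré on boxes -/
theorem KP_ok : StmtKP d := by
  intro lo hi hlh
  obtain ⟨h, hh, hlh2⟩ := exists_h lo hi hlh
  obtain ⟨D2, hD20, hD⟩ := exists_D2 lo hi
  have hYΩ : Set.Icc lo (fun i => lo i + h) ⊆ Set.Icc lo hi := by
    intro y hy
    refine ⟨hy.1, fun i => ?_⟩
    have h1 := hy.2 i
    have h2 := hlh2 i
    have h3 : y i ≤ lo i + h := h1
    linarith
  have hYs : ∀ y ∈ Set.Icc lo (fun i => lo i + h), ∀ j, y + Pi.single j h ∈ Set.Icc lo hi := by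
    intro y hy j
    have h1 := hy.1
    have h2 := hy.2
    refine ⟨fun i => ?_, fun i => ?_⟩
    · have h3 := h1 i
      have h4 : (0 : ℝ) ≤ (Pi.single j h : V d) i := by
        by_cases hij : i = j
        · subst hij; simp [hh.le]
        · simp [hij]
      simp only [Pi.add_apply]; linarith
    · have h3 : y i ≤ lo i + h := h2 i
      have h5 := hlh2 i
      have h4 : (Pi.single j h : V d) i ≤ h := by
        by_cases hij : i = j
        · subst hij; simp
        · simp [hij, hh.le]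
      simp only [Pi.add_apply]; linarith
  have hvY0 : volume (Set.Icc lo (fun i => lo i + h)) ≠ 0 := by
    rw [Real.volume_Icc_pi, Finset.prod_ne_zero_iff]
    intro i _
    simp [hh]
  have hlo : lo ∈ Set.Icc lo (fun i => lo i + h) :=
    ⟨le_rfl, fun i => by show lo i ≤ lo i + h; linarith⟩
  have hm1 : 0 ≤ volume.real (Set.Icc lo hi) := ENNReal.toReal_nonneg
  have hm2 : 0 ≤ (volume.real (Set.Icc lo (fun i => lo i + h)))⁻¹ :=
    inv_nonneg.2 ENNReal.toReal_nonneg
  refine ⟨(d : ℝ) * (6 / h ^ 2 * (2 + volume.real (Set.Icc lo hi)) +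
        volume.real (Set.Icc lo hi) * (D2 * (d * (9 / 2 / h ^ 4)))) *
    ((volume.real (Set.Icc lo (fun i => lo i + h)))⁻¹ *
    ((1 + d) * (D2 ^ 2 * (volume.real (Set.Icc lo hi) * 2 ^ d)) + (d + d * d) * D2 ^ 2)),
    by positivity, fun v hv => ?_⟩
  obtain ⟨y, hy, hyT⟩ := choose_pt hv (isCompact_Icc (a := lo) (b := hi)) h (convex_Icc lo hi) hD
    isCompact_Icc hYΩ hYs hlo hvY0
  obtain ⟨p0, p1, p2, p3, p4⟩ := FF_parts v (Set.Icc lo hi) h y
  obtain ⟨a, Om, hOm, hpt⟩ := pointwise (v := v) (y := y) (D2 := D2) hh p3 p4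
  refine ⟨a, Om, hOm, ?_⟩
  have h1 := final_int hv (isCompact_Icc (a := lo) (b := hi)) hh a Om
    (fun x hx => hpt x (hD x hx y (hYΩ hy))) p1 p2
  refine h1.trans ?_
  rw [mul_assoc ((d : ℝ) * _)]
  exact mul_le_mul_of_nonneg_left hyT (by positivity)

end Pool.Agent.Lib.MP_5df1bf_an
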