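import Pool.Agent.Lib.MP_5df1bf_an.Stmts1

/-!
# MP_5df1bf_an, A10: laminates and the volume of the layers
-/

open MeasureTheory Filter Topology
open scoped BigOperators ContDiff

noncomputable section

namespace Pool.Agent.Lib.MP_5df1bf_an
namespace LamP

variable {d : ℕ}

theorem cell_eq : cell d = Set.pi Set.univ (fun _ : Fin d => Set.Icc (0:ℝ) 1) := by
  unfold cell
  rw [Set.pi_univ_Icc]; rfl

theorem restr_cell : (volume : Measure (V d)).restrict (cell d) =
    Measure.pi (fun _ : Fin d => (volume : Measure ℝ).restrict (Set.Icc (0:ℝ) 1)) := by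
  rw [cell_eq, volume_pi, Measure.restrict_pi_pi]

instance probIcc : IsProbabilityMeasure ((volume : Measure ℝ).restrict (Set.Icc (0:ℝ) 1)) :=
  ⟨by simp⟩

theorem mp_eval (i : Fin d) : MeasurePreserving (fun x : V d => x i)
    ((volume : Measure (V d)).restrict (cell d)) ((volume : Measure ℝ).restrict (Set.Icc (0:ℝ) 1)) := by
  rw [restr_cell]
  exact measurePreserving_eval (fun _ : Fin d => (volume : Measure ℝ).restrict (Set.Icc (0:ℝ) 1)) i

theorem dot_single (v : V d) (x : V d) (i : Fin d) (c : ℝ) :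
    dot v (x + Pi.single i c) = dot v x + v i * c := by
  rw [dot_add_right]
  congr 1
  unfold dot
  rw [Finset.sum_eq_single i]
  · simp
  · intro b _ hb; simp [hb]
  · intro h; exact absurd (Finset.mem_univ _) h

/-- change of variables: one-dimensional periodic functions -/
theorem cov1 (hM : StmtMat d) {k : Fin d → ℤ} (hk : k ≠ 0) {F : ℝ → ℝ} (hm : Measurable F)
    (hp : ∀ t, F (t + 1) = F t) (hi : IntegrableOn F (Set.Icc 0 1)) :
    IntegrableOn (fun x : V d => F (dot (zv k) x)) (cell d) ∧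
      ∫ x in cell d, F (dot (zv k) x) = ∫ t in Set.Icc (0:ℝ) 1, F t := by
  obtain ⟨i0, hi0⟩ : ∃ i, k i ≠ 0 := by
    by_contra h
    push Not at h
    exact hk (funext h)
  set B : Matrix (Fin d) (Fin d) ℤ := (Matrix.updateCol 1 i0 k).transpose with hB
  have hdet : B.det ≠ 0 := by
    rw [hB, Matrix.det_transpose, ← Matrix.cramer_apply, Matrix.cramer_one]
    simpa using hi0
  have himul : ∀ x : V d, imul B x i0 = dot (zv k) x := by
    intro x
    unfold imul dot zv
    refine Finset.sum_congr rfl fun j _ => ?_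
    rw [hB, Matrix.transpose_apply, Matrix.updateCol_self]
  have hmp := mp_eval (d := d) i0
  have hI : IntegrableOn (fun y : V d => F (y i0)) (cell d) :=
    hmp.integrable_comp_of_integrable hi
  have hper : Per (fun y : V d => F (y i0)) := by
    intro x i
    by_cases h : i0 = i
    · subst h; simp [hp]
    · simp [h]
  obtain ⟨h1, h2⟩ := hM B hdet (fun y => F (y i0)) (hm.comp (measurable_pi_apply i0)) hper hI
  simp only [himul] at h1 h2
  refine ⟨h1, h2.trans ?_⟩
  have h3 := integral_map (μ := (volume : Measure (V d)).restrict (cell d))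
    (φ := fun x : V d => x i0) hmp.measurable.aemeasurable (f := F) hm.aestronglyMeasurable
  rw [hmp.map_eq] at h3
  exact h3.symm

theorem cont_dot (v : V d) : Continuous fun x : V d => dot v x := by
  unfold dot; fun_prop

theorem lay_per (k : Fin d → ℤ) (θ : ℝ) (x : V d) (i : Fin d) :
    x + Pi.single i 1 ∈ lay k θ ↔ x ∈ lay k θ := by
  show Int.fract (dot (zv k) (x + Pi.single i 1)) < θ ↔ Int.fract (dot (zv k) x) < θ
  rw [dot_single]
  unfold zv
  rw [mul_one, Int.fract_add_intCast]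

theorem lay_meas (k : Fin d → ℤ) (θ : ℝ) : MeasurableSet (lay k θ) :=
  measurableSet_lt (measurable_fract.comp (cont_dot _).measurable) measurable_const

/-- indicator of the layers -/
def ch (k : Fin d → ℤ) (θ : ℝ) (x : V d) : ℝ := (lay k θ).indicator (fun _ => (1:ℝ)) x

theorem ch_meas (k : Fin d → ℤ) (θ : ℝ) : Measurable (ch k θ) :=
  measurable_const.indicator (lay_meas k θ)

theorem ch_int (hM : StmtMat d) {k : Fin d → ℤ} (hk : k ≠ 0) {θ : ℝ} (h0 : 0 ≤ θ) (h1 : θ ≤ 1) :
    ∫ x in cell d, ch k θ x = θ := by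
  set F : ℝ → ℝ := fun t => ({t : ℝ | Int.fract t < θ}).indicator (fun _ => (1:ℝ)) t with hF
  have hms : MeasurableSet {t : ℝ | Int.fract t < θ} := measurableSet_lt measurable_fract measurable_const
  have hFm : Measurable F := measurable_const.indicator hms
  have hFp : ∀ t, F (t + 1) = F t := by
    intro t
    simp only [hF, Set.indicator_apply, Set.mem_ofPred_eq, Int.fract_add_one]
  have hFi : IntegrableOn F (Set.Icc 0 1) :=
    (integrable_const (1:ℝ)).indicator hms
  have h := (cov1 hM hk hFm hFp hFi).2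
  have e : (fun x : V d => F (dot (zv k) x)) = ch k θ := by
    funext x
    simp only [hF, ch, lay, Set.indicator_apply, Set.mem_ofPred_eq]
  rw [e] at h
  rw [h, integral_Icc_eq_integral_Ico, hF, setIntegral_indicator hms]
  have e2 : Set.Ico (0:ℝ) 1 ∩ {t : ℝ | Int.fract t < θ} = Set.Ico 0 θ := by
    ext t
    simp only [Set.mem_inter_iff, Set.mem_Ico, Set.mem_ofPred_eq]
    constructor
    · rintro ⟨⟨a, b⟩, c⟩
      rw [Int.fract_eq_self.mpr ⟨a, b⟩] at c
      exact ⟨a, c⟩
    · rintro ⟨a, b⟩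
      have b' : t < 1 := lt_of_lt_of_le b h1
      refine ⟨⟨a, b'⟩, ?_⟩
      rw [Int.fract_eq_self.mpr ⟨a, b'⟩]
      exact b
  rw [e2]
  simp [h0]

end LamP

open LamP in
/-- the layers have volume fraction `θ` -/
theorem layVol_ok (d : ℕ) (hM : StmtMat d) : StmtLayVol d := by
  intro k hk θ h0 h1
  refine ⟨⟨lay_meas k θ, fun x i => lay_per k θ x i⟩, ?_⟩
  have h := ch_int hM hk h0 h1
  unfold ch at h
  rw [integral_indicator (lay_meas k θ)] at h
  rw [Measure.restrict_restrict (lay_meas k θ)] at h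
  simpa [frac, Measure.real] using h

namespace LamP

variable {d : ℕ}

/-! ### the cut-off function -/

/-- smooth plateau: support in `[0, θ]`, equal to `1` on `[δ, θ - δ]` -/
def cut (θ δ t : ℝ) : ℝ := Real.smoothTransition (t / δ) * (1 - Real.smoothTransition ((t - θ + δ) / δ))

theorem cut_nonneg (θ δ t : ℝ) : 0 ≤ cut θ δ t :=
  mul_nonneg (Real.smoothTransition.nonneg _) (by have := Real.smoothTransition.le_one ((t - θ + δ) / δ); linarith)

theorem cut_le_one (θ δ t : ℝ) : cut θ δ t ≤ 1 := by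
  unfold cut
  have h1 := Real.smoothTransition.le_one (t / δ)
  have h2 := Real.smoothTransition.nonneg (t / δ)
  have h3 := Real.smoothTransition.le_one ((t - θ + δ) / δ)
  have h4 := Real.smoothTransition.nonneg ((t - θ + δ) / δ)
  nlinarith

theorem cut_zero_left {θ δ t : ℝ} (hδ : 0 < δ) (ht : t ≤ 0) : cut θ δ t = 0 := by
  unfold cut
  rw [Real.smoothTransition.zero_of_nonpos (div_nonpos_of_nonpos_of_nonneg ht hδ.le), zero_mul]

theorem cut_zero_right {θ δ t : ℝ} (hδ : 0 < δ) (ht : θ ≤ t) : cut θ δ t = 0 := by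
  unfold cut
  rw [Real.smoothTransition.one_of_one_le (x := (t - θ + δ) / δ), sub_self, mul_zero]
  rw [le_div_iff₀ hδ]; linarith

theorem cut_one {θ δ t : ℝ} (hδ : 0 < δ) (h1 : δ ≤ t) (h2 : t ≤ θ - δ) : cut θ δ t = 1 := by
  unfold cut
  rw [Real.smoothTransition.one_of_one_le (x := t / δ), Real.smoothTransition.zero_of_nonpos, sub_zero, mul_one]
  · apply div_nonpos_of_nonpos_of_nonneg _ hδ.le; linarith
  · rw [le_div_iff₀ hδ]; linarith

theorem cut_smooth (θ δ : ℝ) : ContDiff ℝ ∞ (cut θ δ) := by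
  unfold cut
  have h : ContDiff ℝ ∞ Real.smoothTransition := Real.smoothTransition.contDiff
  exact (h.comp (contDiff_id.div_const δ)).mul
    (contDiff_const.sub (h.comp (((contDiff_id.sub contDiff_const).add contDiff_const).div_const δ)))

/-- periodised plateau -/
def pc (θ δ t : ℝ) : ℝ := cut θ δ (Int.fract t)

theorem pc_add_one (θ δ t : ℝ) : pc θ δ (t + 1) = pc θ δ t := by
  unfold pc; rw [Int.fract_add_one]

theorem pc_smooth {θ δ : ℝ} (h1 : θ < 1) (hδ : 0 < δ) : ContDiff ℝ ∞ (pc θ δ) := by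
  rw [contDiff_iff_contDiffAt]
  intro t0
  have hs : ContDiffAt ℝ ∞ (fun t => cut θ δ (t - (⌊t0⌋ : ℤ))) t0 :=
    ((cut_smooth θ δ).comp (contDiff_id.sub contDiff_const)).contDiffAt
  refine hs.congr_of_eventuallyEq ?_
  have hn1 : ((⌊t0⌋ : ℤ) : ℝ) ≤ t0 := Int.floor_le t0
  have hn2 : t0 < ((⌊t0⌋ : ℤ) : ℝ) + 1 := Int.lt_floor_add_one t0
  have hev : ∀ᶠ t in 𝓝 t0, t ∈ Set.Ioo (((⌊t0⌋ : ℤ) : ℝ) - (1 - θ)) (((⌊t0⌋ : ℤ) : ℝ) + 1) :=
    Ioo_mem_nhds (by linarith) hn2
  filter_upwards [hev] with t ht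
  obtain ⟨ha, hb⟩ := ht
  by_cases hc : ((⌊t0⌋ : ℤ) : ℝ) ≤ t
  · have e : ⌊t⌋ = ⌊t0⌋ := Int.floor_eq_iff.mpr ⟨hc, hb⟩
    show cut θ δ (Int.fract t) = _
    unfold Int.fract
    rw [e]
  · push Not at hc
    by_cases hpos : -1 ≤ t - ((⌊t0⌋ : ℤ) : ℝ)
    · have e : ⌊t⌋ = ⌊t0⌋ - 1 := by
        rw [Int.floor_eq_iff]
        push_cast
        constructor <;> linarith
      show cut θ δ (Int.fract t) = _
      unfold Int.fract
      rw [e]
      push_cast
      rw [cut_zero_left hδ (show t - ((⌊t0⌋ : ℤ) : ℝ) ≤ 0 by linarith), cut_zero_right hδ (by linarith)]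
    · -- here `θ < 0`
      show cut θ δ (Int.fract t) = _
      rw [cut_zero_left hδ (show t - ((⌊t0⌋ : ℤ) : ℝ) ≤ 0 by linarith)]
      rw [cut_zero_right hδ]
      have := Int.fract_nonneg t
      linarith

/-- mean value of the plateau -/
def mc (θ δ : ℝ) : ℝ := ∫ t in Set.Icc (0:ℝ) 1, pc θ δ t

theorem pc_intb {θ δ : ℝ} (h1 : θ < 1) (hδ : 0 < δ) : IntegrableOn (pc θ δ) (Set.Icc 0 1) :=
  (pc_smooth h1 hδ).continuous.continuousOn.integrableOn_compact isCompact_Icc

theorem mc_le {θ δ : ℝ} (h0 : 0 < θ) (h1 : θ < 1) (hδ : 0 < δ) : mc θ δ ≤ θ := by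
  have hle : mc θ δ ≤ ∫ t in Set.Icc (0:ℝ) 1, (Set.Icc 0 θ).indicator (fun _ => (1:ℝ)) t := by
    refine setIntegral_mono_on (pc_intb h1 hδ)
      ((integrable_const (1:ℝ)).indicator measurableSet_Icc) measurableSet_Icc ?_
    intro t ht
    rw [Set.indicator_apply]
    split_ifs with h
    · exact cut_le_one _ _ _
    · rcases lt_or_eq_of_le ht.2 with h2 | h2
      · unfold pc
        rw [Int.fract_eq_self.mpr ⟨ht.1, h2⟩]
        rw [cut_zero_right hδ]
        by_contra hcon
        push Not at hcon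
        exact h ⟨ht.1, hcon.le⟩
      · unfold pc
        rw [h2, Int.fract_one, cut_zero_left hδ le_rfl]
  refine hle.trans ?_
  rw [setIntegral_indicator measurableSet_Icc]
  have e : Set.Icc (0:ℝ) 1 ∩ Set.Icc 0 θ = Set.Icc 0 θ :=
    Set.inter_eq_right.mpr (Set.Icc_subset_Icc le_rfl h1.le)
  rw [e]
  simp [h0.le]

theorem le_mc {θ δ : ℝ} (h1 : θ < 1) (hδ : 0 < δ) (hδ2 : 2 * δ < θ) : θ - 2 * δ ≤ mc θ δ := by
  have hle : ∫ t in Set.Icc (0:ℝ) 1, (Set.Icc δ (θ - δ)).indicator (fun _ => (1:ℝ)) t ≤ mc θ δ := by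
    refine setIntegral_mono_on ((integrable_const (1:ℝ)).indicator measurableSet_Icc)
      (pc_intb h1 hδ) measurableSet_Icc ?_
    intro t ht
    rw [Set.indicator_apply]
    split_ifs with h
    · unfold pc
      have : t < 1 := by have := h.2; linarith
      rw [Int.fract_eq_self.mpr ⟨ht.1, this⟩, cut_one hδ h.1 h.2]
    · exact cut_nonneg _ _ _
  refine le_trans ?_ hle
  rw [setIntegral_indicator measurableSet_Icc]
  have e : Set.Icc (0:ℝ) 1 ∩ Set.Icc δ (θ - δ) = Set.Icc δ (θ - δ) :=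
    Set.inter_eq_right.mpr (Set.Icc_subset_Icc hδ.le (by linarith))
  rw [e]
  have h3 : δ ≤ θ - δ := by linarith
  simp only [integral_const, smul_eq_mul, mul_one, measureReal_restrict_apply, MeasurableSet.univ, Set.univ_inter,
    Real.volume_real_Icc_of_le h3]
  linarith

/-- primitive of the centred plateau -/
def ps (θ δ t : ℝ) : ℝ := ∫ s in (0:ℝ)..t, (pc θ δ s - mc θ δ)

theorem ps_deriv {θ δ : ℝ} (h1 : θ < 1) (hδ : 0 < δ) (t : ℝ) :
    HasDerivAt (ps θ δ) (pc θ δ t - mc θ δ) t := by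
  have hc : Continuous fun s => pc θ δ s - mc θ δ := (pc_smooth h1 hδ).continuous.sub continuous_const
  exact intervalIntegral.integral_hasDerivAt_right (hc.intervalIntegrable _ _)
    (hc.stronglyMeasurableAtFilter _ _) hc.continuousAt

theorem ps_smooth {θ δ : ℝ} (h1 : θ < 1) (hδ : 0 < δ) : ContDiff ℝ ∞ (ps θ δ) := by
  rw [contDiff_infty_iff_deriv]
  refine ⟨fun t => (ps_deriv h1 hδ t).differentiableAt, ?_⟩
  have e : deriv (ps θ δ) = fun t => pc θ δ t - mc θ δ := by
    funext t; exact (ps_deriv h1 hδ t).deriv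
  rw [e]
  exact (pc_smooth h1 hδ).sub contDiff_const

theorem ps_add_one {θ δ : ℝ} (h1 : θ < 1) (hδ : 0 < δ) (t : ℝ) : ps θ δ (t + 1) = ps θ δ t := by
  have hc : Continuous fun s => pc θ δ s - mc θ δ := (pc_smooth h1 hδ).continuous.sub continuous_const
  have hper : Function.Periodic (fun s => pc θ δ s - mc θ δ) 1 := by
    intro s; show pc θ δ (s + 1) - _ = _; rw [pc_add_one]
  have h := hper.intervalIntegral_add_eq t 0
  have e : ps θ δ (t + 1) - ps θ δ t = ∫ s in t..(t+1), (pc θ δ s - mc θ δ) := by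
    unfold ps
    rw [intervalIntegral.integral_interval_sub_left (hc.intervalIntegrable _ _) (hc.intervalIntegrable _ _)]
  rw [h, zero_add, intervalIntegral.integral_sub ((pc_smooth h1 hδ).continuous.intervalIntegrable _ _)
    (continuous_const.intervalIntegrable _ _)] at e
  have e2 : ∫ s in (0:ℝ)..1, pc θ δ s = mc θ δ := by
    rw [intervalIntegral.integral_of_le zero_le_one, ← integral_Icc_eq_integral_Ioc]; rfl
  rw [e2] at e
  simp at e
  linarith

/-- the displacement `ψ(k·x) a` -/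
def dispL (k : Fin d → ℤ) {θ δ : ℝ} (h1 : θ < 1) (hδ : 0 < δ) (a : V d) : Disp d where
  u := fun x => ps θ δ (dot (zv k) x) • a
  smooth := by
    have hd : ContDiff ℝ ∞ (fun x : V d => dot (zv k) x) := by unfold dot; fun_prop
    exact ((ps_smooth h1 hδ).comp hd).smul contDiff_const
  per := by
    intro x i
    have hz : ∀ (n : ℤ) (t : ℝ), ps θ δ (t + n) = ps θ δ t := by
      intro n t
      have hp : Function.Periodic (ps θ δ) 1 := fun s => ps_add_one h1 hδ s
      simpa using hp.int_mul n t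
    show ps θ δ (dot (zv k) (x + Pi.single i 1)) • a = ps θ δ (dot (zv k) x) • a
    rw [dot_single, mul_one]
    unfold zv
    rw [hz]

theorem dispL_grad (k : Fin d → ℤ) {θ δ : ℝ} (h1 : θ < 1) (hδ : 0 < δ) (a : V d) (x : V d) :
    sg (dispL k h1 hδ a).u x = (pc θ δ (dot (zv k) x) - mc θ δ) • sd a (zv k) := by
  have hdot : HasFDerivAt (fun x : V d => dot (zv k) x)
      (∑ i, (zv k i) • (ContinuousLinearMap.proj i : V d →L[ℝ] ℝ)) x := by
    unfold dot
    refine HasFDerivAt.fun_sum fun i _ => ?_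
    exact ((ContinuousLinearMap.proj i : V d →L[ℝ] ℝ).hasFDerivAt).const_mul (zv k i)
  have hder := ((ps_deriv h1 hδ (dot (zv k) x)).comp_hasFDerivAt x hdot).smul_const a
  have hg : ∀ i j, grad (dispL k h1 hδ a).u x i j = (pc θ δ (dot (zv k) x) - mc θ δ) * (a i * zv k j) := by
    intro i j
    unfold grad
    have : fderiv ℝ (dispL k h1 hδ a).u x = _ := hder.fderiv
    rw [this]
    simp only [ContinuousLinearMap.smulRight_apply, smul_apply,
      sum_apply, ContinuousLinearMap.proj_apply, smul_eq_mul, Pi.smul_apply]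
    rw [Finset.sum_eq_single j]
    · simp; ring
    · intro b _ hb; simp [hb]
    · intro h; exact absurd (Finset.mem_univ _) h
  funext i j
  unfold sg symm sd
  rw [hg, hg]
  simp only [Pi.smul_apply, smul_eq_mul]
  ring

/-! ### the two-phase field -/

theorem ch_mem {k : Fin d → ℤ} {θ : ℝ} {x : V d} (h : x ∈ lay k θ) : ch k θ x = 1 := by
  simp [ch, h]

theorem ch_nmem {k : Fin d → ℤ} {θ : ℝ} {x : V d} (h : x ∉ lay k θ) : ch k θ x = 0 := by
  simp [ch, h]

theorem ch_le (k : Fin d → ℤ) (θ : ℝ) (x : V d) : |ch k θ x| ≤ 1 := by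
  by_cases h : x ∈ lay k θ
  · rw [ch_mem h]; simp
  · rw [ch_nmem h]; simp

theorem fld {k : Fin d → ℤ} {θ : ℝ} {T₁ T₂ : Tens d} {D : V d → Tens d} (hP₁ : T₁.PSD) (hP₂ : T₂.PSD)
    (hD₁ : ∀ x ∈ lay k θ, D x = T₁) (hD₂ : ∀ x ∉ lay k θ, D x = T₂) : ∃ β, IsFld D 0 β := by
  classical
  obtain ⟨β₁, hβ₁, hb₁⟩ := T₁.exists_bound
  obtain ⟨β₂, hβ₂, hb₂⟩ := T₂.exists_bound
  have hcase : ∀ x, D x = if x ∈ lay k θ then T₁ else T₂ := by
    intro x
    split_ifs with h
    · exact hD₁ x h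
    · exact hD₂ x h
  refine ⟨β₁ + β₂, ?_, ?_, ?_, ?_⟩
  · intro A B
    have e : (fun x => ip ((D x).C A) B) = fun x => if x ∈ lay k θ then ip (T₁.C A) B else ip (T₂.C A) B := by
      funext x
      rw [hcase]
      split_ifs <;> rfl
    rw [e]
    exact Measurable.ite (lay_meas k θ) measurable_const measurable_const
  · intro x i
    rw [hcase, hcase]
    simp only [lay_per]
  · intro x A
    rw [zero_mul, hcase]
    split_ifs
    · exact hP₁ A
    · exact hP₂ A
  · intro x A
    have hn := nsq_nonneg A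
    rw [hcase]
    split_ifs
    · have := (le_abs_self _).trans (hb₁ A); nlinarith
    · have := (le_abs_self _).trans (hb₂ A); nlinarith

/-- integral over the cell of an affine combination -/
theorem int_combo (hE : BaseE d) {f g : V d → ℝ} (hf : IntegrableOn f (cell d)) (hg : IntegrableOn g (cell d))
    (a b c : ℝ) : IntegrableOn (fun x => a + b * f x + c * g x) (cell d) ∧
    ∫ x in cell d, (a + b * f x + c * g x) = a + b * (∫ x in cell d, f x) + c * ∫ x in cell d, g x := by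
  have : IsFiniteMeasure ((volume : Measure (V d)).restrict (cell d)) := ⟨by simp [hE.vol]⟩
  have h1 : Integrable (fun _ : V d => a) (volume.restrict (cell d)) := integrable_const a
  have h2 : Integrable (fun x => b * f x) (volume.restrict (cell d)) := hf.const_mul b
  have h3 : Integrable (fun x => c * g x) (volume.restrict (cell d)) := hg.const_mul c
  refine ⟨(h1.add h2).add h3, ?_⟩
  have e1 := integral_add (h1.add h2) h3
  have e2 := integral_add h1 h2
  simp only [Pi.add_apply] at e1 e2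
  rw [e1, e2, integral_const_mul, integral_const_mul]
  simp [Measure.real, hE.vol]

theorem ch_intb (hE : BaseE d) (k : Fin d → ℤ) (θ : ℝ) : IntegrableOn (ch k θ) (cell d) := by
  have : IsFiniteMeasure ((volume : Measure (V d)).restrict (cell d)) := ⟨by simp [hE.vol]⟩
  exact (integrable_const (1:ℝ)).indicator (lay_meas k θ)

/-- `Φ(m)` -/
def Phi (θ : ℝ) (T₁ T₂ : Tens d) (ε s : M d) (m : ℝ) : ℝ :=
  T₂.Q (ε - m • s) + (T₁.Q (ε - m • s) - T₂.Q (ε - m • s)) * θ +
    (2 * ip (T₁.C (ε - m • s)) s + T₁.Q s) * m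

theorem Phi_cont (θ : ℝ) (T₁ T₂ : Tens d) (ε s : M d) : Continuous (Phi θ T₁ T₂ ε s) := by
  have h1 : ∀ T : Tens d, Continuous fun m : ℝ => T.Q (ε - m • s) := by
    intro T
    have : Continuous fun m : ℝ => ε - m • s := by fun_prop
    exact T.continuous_Q.comp this
  have h2 : Continuous fun m : ℝ => ip (T₁.C (ε - m • s)) s := by
    have e : (fun m : ℝ => ip (T₁.C (ε - m • s)) s) = fun m => ip (T₁.C ε) s - m * ip (T₁.C s) s := by
      funext m
      rw [map_sub, map_smul, ip_sub_left, ip_smul_left]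
    rw [e]; fun_prop
  unfold Phi
  have h3 := h1 T₁
  have h4 := h1 T₂
  fun_prop

theorem Phi_val (θ : ℝ) (T₁ T₂ : Tens d) (ε s : M d) :
    Phi θ T₁ T₂ ε s θ = θ * T₁.Q (ε + (1 - θ) • s) + (1 - θ) * T₂.Q (ε - θ • s) := by
  have e : ε + (1 - θ) • s = (ε - θ • s) + s := by
    rw [sub_smul, one_smul]; abel
  rw [e, T₁.Q_add]
  unfold Phi
  ring

theorem upper (hE : BaseE d) (hM : StmtMat d) {k : Fin d → ℤ} (hk : k ≠ 0) {θ δ : ℝ} (h0 : 0 < θ)
    (h1 : θ < 1) (hδ : 0 < δ) {T₁ T₂ : Tens d} {D : V d → Tens d} (hP₁ : T₁.PSD) (hP₂ : T₂.PSD)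
    (hD₁ : ∀ x ∈ lay k θ, D x = T₁) (hD₂ : ∀ x ∉ lay k θ, D x = T₂) (ε : M d) (a : V d) :
    eff D ε ≤ Phi θ T₁ T₂ ε (sd a (zv k)) (mc θ δ) := by
  obtain ⟨β, hF⟩ := fld hP₁ hP₂ hD₁ hD₂
  refine (hE.eff_le D β hF ε (dispL k h1 hδ a)).trans ?_
  unfold energy
  set s := sd a (zv k) with hs
  set m := mc θ δ with hm
  have hcov := cov1 hM hk (pc_smooth h1 hδ).continuous.measurable (pc_add_one θ δ) (pc_intb h1 hδ)
  obtain ⟨hi, hv⟩ := int_combo hE (ch_intb hE k θ) hcov.1 (T₂.Q (ε - m • s))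
    (T₁.Q (ε - m • s) - T₂.Q (ε - m • s)) (2 * ip (T₁.C (ε - m • s)) s + T₁.Q s)
  rw [hcov.2, ch_int hM hk h0.le h1.le] at hv
  have hPhi : Phi θ T₁ T₂ ε s m = ∫ x in cell d, (T₂.Q (ε - m • s) +
      (T₁.Q (ε - m • s) - T₂.Q (ε - m • s)) * ch k θ x +
      (2 * ip (T₁.C (ε - m • s)) s + T₁.Q s) * pc θ δ (dot (zv k) x)) := by
    rw [hv]; rfl
  rw [hPhi]
  refine integral_mono (hE.int D β hF ε (dispL k h1 hδ a)) hi ?_
  intro x
  show (D x).Q (ε + sg (dispL k h1 hδ a).u x) ≤ T₂.Q (ε - m • s) +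
      (T₁.Q (ε - m • s) - T₂.Q (ε - m • s)) * ch k θ x +
      (2 * ip (T₁.C (ε - m • s)) s + T₁.Q s) * pc θ δ (dot (zv k) x)
  rw [dispL_grad, ← hm, ← hs]
  set C := pc θ δ (dot (zv k) x) with hC
  have e : ε + (C - m) • s = (ε - m • s) + C • s := by
    rw [sub_smul]; abel
  rw [e, Tens.Q_add, ip_smul_right, Tens.Q_smul]
  have hC0 : 0 ≤ C := cut_nonneg _ _ _
  have hC1 : C ≤ 1 := cut_le_one _ _ _
  by_cases hx : x ∈ lay k θ
  · rw [hD₁ x hx, ch_mem hx]
    have hq := hP₁ s
    have : C ^ 2 * T₁.Q s ≤ C * T₁.Q s := by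
      apply mul_le_mul_of_nonneg_right _ hq
      nlinarith
    linarith
  · have hCz : C = 0 := by
      have : θ ≤ Int.fract (dot (zv k) x) := by
        by_contra hcon
        push Not at hcon
        exact hx hcon
      exact cut_zero_right hδ this
    rw [hD₂ x hx, ch_nmem hx, hCz]
    simp

theorem upper' (hE : BaseE d) (hM : StmtMat d) {k : Fin d → ℤ} (hk : k ≠ 0) {θ : ℝ} (h0 : 0 < θ)
    (h1 : θ < 1) {T₁ T₂ : Tens d} {D : V d → Tens d} (hP₁ : T₁.PSD) (hP₂ : T₂.PSD)
    (hD₁ : ∀ x ∈ lay k θ, D x = T₁) (hD₂ : ∀ x ∉ lay k θ, D x = T₂) (ε : M d) (a : V d) :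
    eff D ε ≤ θ * T₁.Q (ε + (1 - θ) • sd a (zv k)) + (1 - θ) * T₂.Q (ε - θ • sd a (zv k)) := by
  rw [← Phi_val]
  by_contra hcon
  push Not at hcon
  have hev : ∀ᶠ m in 𝓝 θ, Phi θ T₁ T₂ ε (sd a (zv k)) m < eff D ε :=
    (Phi_cont θ T₁ T₂ ε (sd a (zv k))).continuousAt.eventually (gt_mem_nhds hcon)
  rw [Metric.eventually_nhds_iff] at hev
  obtain ⟨ρ, hρ, hb⟩ := hev
  set δ := min (θ / 4) (ρ / 4) with hδ
  have hδ0 : 0 < δ := lt_min (by linarith) (by linarith)
  have hδ1 : δ ≤ θ / 4 := min_le_left _ _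
  have hδ2 : δ ≤ ρ / 4 := min_le_right _ _
  have h3 := mc_le h0 h1 hδ0
  have h4 := le_mc h1 hδ0 (show 2 * δ < θ by linarith)
  have h5 := upper hE hM hk h0 h1 hδ0 hP₁ hP₂ hD₁ hD₂ ε a
  have h6 := hb (y := mc θ δ) (by rw [Real.dist_eq, abs_lt]; constructor <;> linarith)
  linarith

/-! ### the lower bound -/

theorem fderiv_lin (u : V d → V d) (x w : V d) (i : Fin d) :
    fderiv ℝ u x w i = ∑ j, w j * grad u x i j := by
  have h : w = ∑ j, w j • (Pi.single j (1:ℝ) : V d) := by
    funext l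
    simp [Finset.sum_apply, Pi.single_apply]
  conv_lhs => rw [h]
  rw [map_sum, Finset.sum_apply]
  refine Finset.sum_congr rfl fun j _ => ?_
  rw [map_smul]
  rfl

theorem lay_shift (k : Fin d → ℤ) (θ : ℝ) {w : V d} (hw : dot (zv k) w = 0) (t : ℝ) (x : V d) :
    x + t • w ∈ lay k θ ↔ x ∈ lay k θ := by
  show Int.fract (dot (zv k) (x + t • w)) < θ ↔ Int.fract (dot (zv k) x) < θ
  rw [dot_add_right, dot_smul_right, hw, mul_zero, add_zero]

theorem ch_shift (k : Fin d → ℤ) (θ : ℝ) {w : V d} (hw : dot (zv k) w = 0) (t : ℝ) (x : V d) :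
    ch k θ (x + t • w) = ch k θ x := by
  by_cases h : x ∈ lay k θ
  · rw [ch_mem h, ch_mem ((lay_shift k θ hw t x).mpr h)]
  · rw [ch_nmem h, ch_nmem (fun h' => h ((lay_shift k θ hw t x).mp h'))]

theorem ch_per (k : Fin d → ℤ) (θ : ℝ) : Per (ch k θ) := by
  intro x i
  by_cases h : x ∈ lay k θ
  · rw [ch_mem h, ch_mem ((lay_per k θ x i).mpr h)]
  · rw [ch_nmem h, ch_nmem (fun h' => h ((lay_per k θ x i).mp h'))]

theorem chmul_int (k : Fin d → ℤ) (θ : ℝ) {f : V d → ℝ} (hf : IntegrableOn f (cell d)) :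
    IntegrableOn (fun x => ch k θ x * f x) (cell d) := by
  have e : (fun x => ch k θ x * f x) = (lay k θ).indicator f := by
    funext x
    by_cases h : x ∈ lay k θ
    · rw [ch_mem h, Set.indicator_of_mem h, one_mul]
    · rw [ch_nmem h, Set.indicator_of_notMem h, zero_mul]
  rw [e]
  exact hf.indicator (lay_meas k θ)

theorem grad_int (hE : BaseE d) (u : Disp d) (i j : Fin d) :
    IntegrableOn (fun x => grad u.u x i j) (cell d) := by
  have hc : Continuous fun x => grad u.u x i j :=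
    (continuous_apply j).comp ((continuous_apply i).comp (hE.grad_cont u))
  exact hc.continuousOn.integrableOn_compact isCompact_Icc

theorem grad_orth (hE : BaseE d) (hS : StmtShift d) (k : Fin d → ℤ) (θ : ℝ) (u : Disp d) {w : V d}
    (hw : dot (zv k) w = 0) (i : Fin d) :
    ∑ j, w j * ∫ x in cell d, ch k θ x * grad u.u x i j = 0 := by
  have hfin : IsFiniteMeasure ((volume : Measure (V d)).restrict (cell d)) := ⟨by simp [hE.vol]⟩
  obtain ⟨K, hK⟩ := hE.grad_bdd u
  have hK0 : ∀ x i j, |grad u.u x i j| ≤ Real.sqrt K := by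
    intro x i j
    apply Real.abs_le_sqrt
    exact (entry_sq_le _ i j).trans (hK x)
  have hdu : Differentiable ℝ u.u := u.smooth.differentiable (by simp)
  -- continuity of the integrands
  have hcont : ∀ t : ℝ, Continuous fun x : V d => u.u (x + t • w) i := by
    intro t
    exact (continuous_apply i).comp (u.smooth.continuous.comp (continuous_id.add continuous_const))
  have hcint : ∀ t : ℝ, Integrable (fun x : V d => ch k θ x * u.u (x + t • w) i)
      (volume.restrict (cell d)) := by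
    intro t
    exact chmul_int k θ ((hcont t).continuousOn.integrableOn_compact isCompact_Icc)
  -- the integral is constant
  have hconst : ∀ t : ℝ, ∫ x in cell d, ch k θ x * u.u (x + t • w) i = ∫ x in cell d, ch k θ x * u.u x i := by
    intro t
    have h := hS (fun x => ch k θ x * u.u x i) (fun x j => by
      show ch k θ (x + Pi.single j 1) * u.u (x + Pi.single j 1) i = _
      rw [ch_per k θ x j, u.per x j]) (t • w)
    simp only [ch_shift k θ hw] at h
    exact h
  have hgc : Continuous fun x : V d => fderiv ℝ u.u x w i := by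
    have : (fun x : V d => fderiv ℝ u.u x w i) = fun x => ∑ j, w j * grad u.u x i j := by
      funext x; exact fderiv_lin _ _ _ _
    rw [this]
    refine continuous_finsetSum _ fun j _ => continuous_const.mul ?_
    exact (continuous_apply j).comp ((continuous_apply i).comp (hE.grad_cont u))
  have hder := hasDerivAt_integral_of_dominated_loc_of_deriv_le
    (μ := (volume : Measure (V d)).restrict (cell d)) (x₀ := (0:ℝ)) (s := Set.univ)
    (F := fun t x => ch k θ x * u.u (x + t • w) i)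
    (F' := fun t x => ch k θ x * fderiv ℝ u.u (x + t • w) w i)
    (bound := fun _ => ∑ j, |w j| * Real.sqrt K) Filter.univ_mem
    (Filter.Eventually.of_forall fun t => (hcint t).aestronglyMeasurable) (hcint 0)
    (by
      simp only [zero_smul, add_zero]
      exact (chmul_int k θ (hgc.continuousOn.integrableOn_compact isCompact_Icc)).aestronglyMeasurable)
    (by
      refine Filter.Eventually.of_forall fun x t _ => ?_
      rw [Real.norm_eq_abs, abs_mul]
      have h1 : |fderiv ℝ u.u (x + t • w) w i| ≤ ∑ j, |w j| * Real.sqrt K := by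
        rw [fderiv_lin]
        refine (Finset.abs_sum_le_sum_abs _ _).trans (Finset.sum_le_sum fun j _ => ?_)
        rw [abs_mul]
        exact mul_le_mul_of_nonneg_left (hK0 _ _ _) (abs_nonneg _)
      calc |ch k θ x| * |fderiv ℝ u.u (x + t • w) w i| ≤ 1 * |fderiv ℝ u.u (x + t • w) w i| :=
            mul_le_mul_of_nonneg_right (ch_le k θ x) (abs_nonneg _)
        _ ≤ _ := by rw [one_mul]; exact h1)
    (integrable_const _)
    (by
      refine Filter.Eventually.of_forall fun x t _ => ?_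
      have h1 : HasDerivAt (fun t : ℝ => x + t • w) w t := by
        simpa using ((hasDerivAt_id t).smul_const w).const_add x
      have h2 : HasDerivAt (fun t : ℝ => u.u (x + t • w)) (fderiv ℝ u.u (x + t • w) w) t :=
        ((hdu (x + t • w)).hasFDerivAt).comp_hasDerivAt t h1
      exact ((hasDerivAt_pi.mp h2) i).const_mul (ch k θ x))
  have h0 := hder.2
  have hc : (fun t : ℝ => ∫ x in cell d, ch k θ x * u.u (x + t • w) i) =
      fun _ => ∫ x in cell d, ch k θ x * u.u x i := funext hconst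
  rw [hc] at h0
  have h00 := h0.unique (hasDerivAt_const (0:ℝ) _)
  simp only [zero_smul, add_zero, fderiv_lin] at h00
  rw [← h00]
  simp only [Finset.mul_sum]
  rw [integral_finsetSum]
  · refine Finset.sum_congr rfl fun j _ => ?_
    rw [← integral_const_mul]
    refine integral_congr_ae (Filter.Eventually.of_forall fun x => ?_)
    show w j * (ch k θ x * grad u.u x i j) = ch k θ x * (w j * grad u.u x i j)
    ring
  · intro j _
    have := (chmul_int k θ (grad_int hE u i j)).const_mul (w j)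
    refine this.congr (Filter.Eventually.of_forall fun x => ?_)
    show w j * (ch k θ x * grad u.u x i j) = ch k θ x * (w j * grad u.u x i j)
    ring

/-- the mean of the gradient over the layers is rank one -/
theorem rank_one (hE : BaseE d) (hS : StmtShift d) {k : Fin d → ℤ} (hk : k ≠ 0) (θ : ℝ) (u : Disp d) :
    ∃ b : V d, ∀ i j, ∫ x in cell d, ch k θ x * grad u.u x i j = b i * zv k j := by
  obtain ⟨j0, hj0⟩ : ∃ i, k i ≠ 0 := by
    by_contra h
    push Not at h
    exact hk (funext h)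
  have hz : (zv k j0 : ℝ) ≠ 0 := by unfold zv; exact_mod_cast hj0
  refine ⟨fun i => (∫ x in cell d, ch k θ x * grad u.u x i j0) / zv k j0, fun i j => ?_⟩
  by_cases hj : j = j0
  · subst hj; field_simp
  · have hw : dot (zv k) (Pi.single j (zv k j0) + Pi.single j0 (-(zv k j))) = 0 := by
      have hs1 : dot (zv k) (Pi.single j (zv k j0)) = zv k j * zv k j0 := by
        have h5 := dot_single (zv k) 0 j (zv k j0)
        rw [zero_add] at h5
        rw [h5]
        simp [dot]
      rw [dot_single, hs1]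
      ring
    have h := grad_orth hE hS k θ u hw i
    have e : ∑ l, (Pi.single j (zv k j0) + Pi.single j0 (-(zv k j)) : V d) l *
        ∫ x in cell d, ch k θ x * grad u.u x i l = zv k j0 * (∫ x in cell d, ch k θ x * grad u.u x i j) -
          zv k j * ∫ x in cell d, ch k θ x * grad u.u x i j0 := by
      simp only [Pi.add_apply, add_mul, Finset.sum_add_distrib, Pi.single_apply, ite_mul, zero_mul,
        Finset.sum_ite_eq', Finset.mem_univ, if_true]
      ring
    rw [e] at h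
    field_simp
    linarith

theorem lower (hE : BaseE d) (hM : StmtMat d) (hS : StmtShift d) {k : Fin d → ℤ} (hk : k ≠ 0) {θ : ℝ}
    (h0 : 0 < θ) (h1 : θ < 1) {T₁ T₂ : Tens d} {D : V d → Tens d} (hP₁ : T₁.PSD) (hP₂ : T₂.PSD)
    (hD₁ : ∀ x ∈ lay k θ, D x = T₁) (hD₂ : ∀ x ∉ lay k θ, D x = T₂) (ε : M d) (u : Disp d) :
    ∃ a : V d, θ * T₁.Q (ε + (1 - θ) • sd a (zv k)) + (1 - θ) * T₂.Q (ε - θ • sd a (zv k)) ≤
      energy D ε u := by
  obtain ⟨β, hF⟩ := fld hP₁ hP₂ hD₁ hD₂
  obtain ⟨b, hb⟩ := rank_one hE hS hk θ u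
  have hθ : θ * (1 - θ) ≠ 0 := by
    have : 0 < θ * (1 - θ) := mul_pos h0 (by linarith)
    exact this.ne'
  refine ⟨(θ * (1 - θ))⁻¹ • b, ?_⟩
  set s := sd ((θ * (1 - θ))⁻¹ • b) (zv k) with hs
  have hsb : sd b (zv k) = (θ * (1 - θ)) • s := by
    rw [hs, sd_smul_left, smul_smul, mul_inv_cancel₀ hθ, one_smul]
  set X₁ := ε + (1 - θ) • s with hX₁
  set X₂ := ε - θ • s with hX₂
  -- integrals of `ip R (grad u)`
  have hipR : ∀ R : M d, IntegrableOn (fun x => ip R (grad u.u x)) (cell d) := by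
    intro R
    unfold ip
    refine integrable_finsetSum _ fun i _ => integrable_finsetSum _ fun j _ => ?_
    exact (grad_int hE u i j).const_mul (R i j)
  have hipE : ∀ R : M d, symm R = R → ∫ x in cell d, ch k θ x * ip R (grad u.u x) = ip R (sd b (zv k)) := by
    intro R hR
    have e1 : ∀ x, ch k θ x * ip R (grad u.u x) = ∑ i, ∑ j, R i j * (ch k θ x * grad u.u x i j) := by
      intro x
      unfold ip
      rw [Finset.mul_sum]
      refine Finset.sum_congr rfl fun i _ => ?_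
      rw [Finset.mul_sum]
      exact Finset.sum_congr rfl fun j _ => by ring
    simp only [e1]
    rw [integral_finsetSum]
    · have e2 : ip R (sd b (zv k)) = ip R (fun i j => b i * zv k j) := by
        have : sd b (zv k) = symm (fun i j => b i * zv k j) := rfl
        rw [this, ← ip_symm_left, hR]
      rw [e2]
      unfold ip
      refine Finset.sum_congr rfl fun i _ => ?_
      rw [integral_finsetSum]
      · refine Finset.sum_congr rfl fun j _ => ?_
        rw [integral_const_mul, hb]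
      · intro j _
        exact (chmul_int k θ (grad_int hE u i j)).const_mul (R i j)
    · intro i _
      exact integrable_finsetSum _ fun j _ => (chmul_int k θ (grad_int hE u i j)).const_mul (R i j)
  have hi3 := chmul_int k θ (hipR (T₁.C X₁ - T₂.C X₂))
  -- the affine lower bound
  set c₂ := 2 * ip (T₂.C X₂) ε - T₂.Q X₂ with hc₂
  set c₁ := (2 * ip (T₁.C X₁) ε - T₁.Q X₁) - c₂ with hc₁
  obtain ⟨hA, hAv⟩ := int_combo hE (ch_intb hE k θ) hi3 c₂ c₁ 2
  have hB := (hipR (T₂.C X₂)).const_mul 2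
  have hsum : ∫ x in cell d, ((c₂ + c₁ * ch k θ x + 2 * (ch k θ x * ip (T₁.C X₁ - T₂.C X₂) (grad u.u x))) +
      2 * ip (T₂.C X₂) (grad u.u x)) = c₂ + c₁ * θ + 2 * ip (T₁.C X₁ - T₂.C X₂) (sd b (zv k)) := by
    rw [integral_add hA hB, hAv, integral_const_mul, hE.mean, ch_int hM hk h0.le h1.le, hipE]
    · ring
    · rw [symm_sub, Tens.symm_C, Tens.symm_C]
  have hval : θ * T₁.Q X₁ + (1 - θ) * T₂.Q X₂ =
      c₂ + c₁ * θ + 2 * ip (T₁.C X₁ - T₂.C X₂) (sd b (zv k)) := by
    rw [hsb, ip_smul_right, ip_sub_left, hc₁, hc₂]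
    have q1 : T₁.Q X₁ = ip (T₁.C X₁) ε + (1 - θ) * ip (T₁.C X₁) s := by
      show ip (T₁.C X₁) X₁ = _
      conv_lhs => rw [hX₁]
      rw [← hX₁, ip_add_right, ip_smul_right]
    have q2 : T₂.Q X₂ = ip (T₂.C X₂) ε - θ * ip (T₂.C X₂) s := by
      show ip (T₂.C X₂) X₂ = _
      conv_lhs => rw [hX₂]
      rw [← hX₂, ip_sub_right, ip_smul_right]
    rw [q1, q2]
    ring
  rw [hval, ← hsum]
  unfold energy
  refine integral_mono (hA.add hB) (hE.int D β hF ε u) ?_
  intro x
  show (c₂ + c₁ * ch k θ x + 2 * (ch k θ x * ip (T₁.C X₁ - T₂.C X₂) (grad u.u x))) +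
      2 * ip (T₂.C X₂) (grad u.u x) ≤ (D x).Q (ε + sg u.u x)
  have key : ∀ (T : Tens d), T.PSD → ∀ X : M d,
      2 * ip (T.C X) ε - T.Q X + 2 * ip (T.C X) (grad u.u x) ≤ T.Q (ε + sg u.u x) := by
    intro T hT X
    have h := hT (X - (ε + sg u.u x))
    rw [Tens.Q_sub, ip_add_right] at h
    have h2 : ip (T.C X) (sg u.u x) = ip (T.C X) (grad u.u x) := T.ip_C_symm _ _
    rw [h2] at h
    linarith
  by_cases hx : x ∈ lay k θ
  · rw [hD₁ x hx, ch_mem hx, ip_sub_left]
    have := key T₁ hP₁ X₁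
    linarith
  · rw [hD₂ x hx, ch_nmem hx]
    have := key T₂ hP₂ X₂
    linarith

end LamP

open LamP in
/-- the effective energy of a laminate -/
theorem lam_ok (d : ℕ) (hE : BaseE d) (hM : StmtMat d) (hS : StmtShift d) : StmtLam d := by
  intro k hk θ h0 h1 T₁ T₂ D hP₁ hP₂ hD₁ hD₂ ε
  apply le_antisymm
  · exact le_ciInf fun a => upper' hE hM hk h0 h1 hP₁ hP₂ hD₁ hD₂ ε a
  · refine hE.le_eff D ε _ fun u => ?_
    obtain ⟨a, ha⟩ := lower hE hM hS hk h0 h1 hP₁ hP₂ hD₁ hD₂ ε u
    refine (ciInf_le ?_ a).trans ha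
    refine ⟨0, ?_⟩
    rintro _ ⟨a, rfl⟩
    exact add_nonneg (mul_nonneg h0.le (hP₁ _)) (mul_nonneg (by linarith) (hP₂ _))

end Pool.Agent.Lib.MP_5df1bf_an
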