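import Pool.Agent.Lib.MP_5df1bf_an.Stmts2
import Pool.Agent.Lib.MP_5df1bf_an.Lam

/-!
# MP_5df1bf_an, B4: densities on the lines of direction `u` which avoid the edges
-/

open MeasureTheory Filter Topology
open scoped BigOperators ContDiff

noncomputable section

namespace Pool.Agent.Lib.MP_5df1bf_an
namespace LinesP

open LamP

variable {d : ℕ}

instance probCell : IsProbabilityMeasure ((volume : Measure (V d)).restrict (cell d)) := by
  rw [restr_cell]
  infer_instance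

/-- the one-dimensional cut-off -/
def ph (ϵ t : ℝ) : ℝ := pc (1 - 2 * ϵ) ϵ (t - ϵ)

theorem ph_smooth {ϵ : ℝ} (h : 0 < ϵ) : ContDiff ℝ ∞ (ph ϵ) :=
  (pc_smooth (by linarith) h).comp (contDiff_id.sub contDiff_const)

theorem ph_add_one (ϵ t : ℝ) : ph ϵ (t + 1) = ph ϵ t := by
  unfold ph
  rw [show t + 1 - ϵ = (t - ϵ) + 1 by ring, pc_add_one]

theorem ph_add_int (ϵ t : ℝ) (n : ℤ) : ph ϵ (t + n) = ph ϵ t := by
  unfold ph pc
  rw [show t + n - ϵ = (t - ϵ) + n by ring, Int.fract_add_intCast]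

theorem ph_nonneg (ϵ t : ℝ) : 0 ≤ ph ϵ t := cut_nonneg _ _ _
theorem ph_le_one (ϵ t : ℝ) : ph ϵ t ≤ 1 := cut_le_one _ _ _

theorem ph_zero {ϵ t : ℝ} (h : 0 < ϵ) (h2 : ϵ < 1 / 4) (ht : pd t ≤ ϵ) : ph ϵ t = 0 := by
  unfold pd at ht
  rw [abs_le] at ht
  unfold ph pc
  rcases eq_or_lt_of_le ht.2 with h3 | h3
  · have e : t - ϵ = (round t : ℤ) := by linarith
    rw [e, Int.fract_intCast]
    exact cut_zero_left h le_rfl
  · have e : Int.fract (t - ϵ) = t - ϵ - round t + 1 := by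
      rw [Int.fract_eq_iff]
      refine ⟨by linarith, by linarith, round t - 1, ?_⟩
      push_cast
      ring
    rw [e]
    exact cut_zero_right h (by linarith)

theorem ph_int {ϵ : ℝ} (h : 0 < ϵ) (h2 : ϵ < 1 / 4) :
    1 - 4 * ϵ ≤ ∫ t in Set.Icc (0:ℝ) 1, ph ϵ t := by
  have h1 : (1 - 2 * ϵ : ℝ) < 1 := by linarith
  have hper : Function.Periodic (pc (1 - 2 * ϵ) ϵ) 1 := fun s => pc_add_one _ _ s
  have e1 : ∫ t in Set.Icc (0:ℝ) 1, ph ϵ t = ∫ t in (0:ℝ)..1, pc (1 - 2 * ϵ) ϵ (t - ϵ) := by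
    rw [intervalIntegral.integral_of_le zero_le_one, ← integral_Icc_eq_integral_Ioc]; rfl
  have e2 : ∫ t in (0:ℝ)..1, pc (1 - 2 * ϵ) ϵ (t - ϵ) = ∫ t in (0 - ϵ)..(1 - ϵ), pc (1 - 2 * ϵ) ϵ t :=
    intervalIntegral.integral_comp_sub_right (fun t => pc (1 - 2 * ϵ) ϵ t) ϵ
  have e3 := hper.intervalIntegral_add_eq (0 - ϵ) 0
  have e4 : ∫ s in (0:ℝ)..1, pc (1 - 2 * ϵ) ϵ s = mc (1 - 2 * ϵ) ϵ := by
    rw [intervalIntegral.integral_of_le zero_le_one, ← integral_Icc_eq_integral_Ioc]; rfl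
  rw [e1, e2, show (1 - ϵ : ℝ) = 0 - ϵ + 1 by ring, e3, zero_add, e4]
  rcases lt_or_ge (2 * ϵ) (1 - 2 * ϵ) with h3 | h3
  · have := le_mc h1 h h3
    linarith
  · linarith

theorem one_sub_prod {ι : Type*} (s : Finset ι) (f : ι → ℝ) (h0 : ∀ i ∈ s, 0 ≤ f i)
    (h1 : ∀ i ∈ s, f i ≤ 1) : 1 - ∏ i ∈ s, f i ≤ ∑ i ∈ s, (1 - f i) := by
  classical
  induction s using Finset.induction_on with
  | empty => simp
  | insert a s ha ih =>
    rw [Finset.prod_insert ha, Finset.sum_insert ha]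
    have ih' := ih (fun i hi => h0 i (Finset.mem_insert_of_mem hi))
      (fun i hi => h1 i (Finset.mem_insert_of_mem hi))
    have a0 := h0 a (Finset.mem_insert_self _ _)
    have a1 := h1 a (Finset.mem_insert_self _ _)
    have p1 : ∏ i ∈ s, f i ≤ 1 := Finset.prod_le_one
      (fun i hi => h0 i (Finset.mem_insert_of_mem hi)) (fun i hi => h1 i (Finset.mem_insert_of_mem hi))
    nlinarith

/-- the normal of the pair `p` -/
def nn (u : Fin d → ℤ) (p : Fin d × Fin d) : Fin d → ℤ :=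
  Pi.single p.1 (u p.2) + Pi.single p.2 (-(u p.1))

theorem dot_nn (u : Fin d → ℤ) (p : Fin d × Fin d) (x : V d) :
    dot (zv (nn u p)) x = u p.2 * x p.1 - u p.1 * x p.2 := by
  unfold dot zv nn
  have : ∀ i, (((Pi.single p.1 (u p.2) + Pi.single p.2 (-(u p.1)) : Fin d → ℤ) i : ℤ) : ℝ) * x i =
      (if i = p.1 then (u p.2 : ℝ) * x i else 0) + (if i = p.2 then -(u p.1 : ℝ) * x i else 0) := by
    intro i
    rw [Pi.add_apply, Pi.single_apply, Pi.single_apply]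
    split_ifs <;> push_cast <;> ring
  simp only [this, Finset.sum_add_distrib, Finset.sum_ite_eq', Finset.mem_univ, if_true]
  ring

theorem nn_ne {u : Fin d → ℤ} (hu : ∀ i, 1 ≤ u i ∧ u i ≤ 3) {p : Fin d × Fin d} (hp : p.1 ≠ p.2) :
    nn u p ≠ 0 := by
  intro h
  have h1 := congrFun h p.1
  unfold nn at h1
  rw [Pi.add_apply, Pi.single_eq_same, Pi.single_eq_of_ne hp] at h1
  have := (hu p.2).1
  simp at h1
  omega

/-- ordered pairs of different indices -/
def prs (d : ℕ) : Finset (Fin d × Fin d) := Finset.univ.filter fun p => p.1 ≠ p.2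

theorem prs_card (d : ℕ) : ((prs d).card : ℝ) ≤ (d : ℝ) ^ 2 := by
  have h : (prs d).card ≤ (Finset.univ : Finset (Fin d × Fin d)).card := Finset.card_filter_le _ _
  rw [Finset.card_univ, Fintype.card_prod, Fintype.card_fin] at h
  have h2 : (((prs d).card : ℕ) : ℝ) ≤ ((d * d : ℕ) : ℝ) := by exact_mod_cast h
  rw [pow_two]
  push_cast at h2
  exact h2

/-- the unnormalised density -/
def r0 (u : Fin d → ℤ) (ϵ : ℝ) (x : V d) : ℝ := ∏ p ∈ prs d, ph ϵ (dot (zv (nn u p)) x)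

theorem r0_smooth (u : Fin d → ℤ) {ϵ : ℝ} (h : 0 < ϵ) : ContDiff ℝ ∞ (r0 u ϵ) := by
  unfold r0
  refine contDiff_prod fun p _ => (ph_smooth h).comp ?_
  unfold dot
  fun_prop

theorem r0_per (u : Fin d → ℤ) (ϵ : ℝ) : Per (r0 u ϵ) := by
  intro x i
  unfold r0
  refine Finset.prod_congr rfl fun p _ => ?_
  rw [dot_single, mul_one]
  exact ph_add_int _ _ _

theorem r0_nonneg (u : Fin d → ℤ) (ϵ : ℝ) (x : V d) : 0 ≤ r0 u ϵ x :=
  Finset.prod_nonneg fun _ _ => ph_nonneg _ _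

theorem r0_le_one (u : Fin d → ℤ) (ϵ : ℝ) (x : V d) : r0 u ϵ x ≤ 1 :=
  Finset.prod_le_one (fun _ _ => ph_nonneg _ _) fun _ _ => ph_le_one _ _

theorem r0_line (u : Fin d → ℤ) (ϵ : ℝ) (x : V d) (t : ℝ) : r0 u ϵ (x + t • zv u) = r0 u ϵ x := by
  unfold r0
  refine Finset.prod_congr rfl fun p _ => ?_
  congr 1
  rw [dot_nn, dot_nn]
  simp only [Pi.add_apply, Pi.smul_apply, smul_eq_mul, zv]
  ring

theorem r0_zero (u : Fin d → ℤ) {ϵ : ℝ} (h : 0 < ϵ) (h2 : ϵ < 1 / 4) (x : V d) (i m : Fin d)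
    (him : i ≠ m) (hx : pd (u m * x i - u i * x m) ≤ ϵ) : r0 u ϵ x = 0 := by
  unfold r0
  refine Finset.prod_eq_zero (i := (i, m)) ?_ ?_
  · unfold prs
    rw [Finset.mem_filter]
    exact ⟨Finset.mem_univ _, him⟩
  · rw [dot_nn]
    exact ph_zero h h2 hx

theorem contInt {f : V d → ℝ} (hf : Continuous f) : Integrable f ((volume : Measure (V d)).restrict (cell d)) :=
  hf.continuousOn.integrableOn_compact isCompact_Icc

theorem r0_int (hM : StmtMat d) {u : Fin d → ℤ} (hu : ∀ i, 1 ≤ u i ∧ u i ≤ 3) {ϵ : ℝ} (h : 0 < ϵ)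
    (h2 : ϵ < 1 / 4) : 1 - 4 * ϵ * (d : ℝ) ^ 2 ≤ ∫ x in cell d, r0 u ϵ x := by
  have hphc : ∀ p : Fin d × Fin d, Continuous fun x : V d => ph ϵ (dot (zv (nn u p)) x) :=
    fun p => (ph_smooth h).continuous.comp (cont_dot _)
  have key : ∫ x in cell d, (1 - r0 u ϵ x) ≤ ∫ x in cell d, ∑ p ∈ prs d, (1 - ph ϵ (dot (zv (nn u p)) x)) := by
    refine integral_mono (contInt (continuous_const.sub (r0_smooth u h).continuous))
      (integrable_finsetSum _ fun p _ => contInt (continuous_const.sub (hphc p))) ?_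
    intro x
    exact one_sub_prod _ _ (fun _ _ => ph_nonneg _ _) (fun _ _ => ph_le_one _ _)
  have hsub : ∀ p : Fin d × Fin d, Integrable (fun x : V d => 1 - ph ϵ (dot (zv (nn u p)) x))
      ((volume : Measure (V d)).restrict (cell d)) :=
    fun p => contInt (continuous_const.sub (hphc p))
  rw [integral_sub (integrable_const _) (contInt (r0_smooth u h).continuous),
    integral_finsetSum _ (fun p _ => hsub p)] at key
  have hone : ∫ _x in cell d, (1:ℝ) = 1 := by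
    rw [integral_const]
    simp
  have hb : ∀ p ∈ prs d, ∫ x in cell d, (1 - ph ϵ (dot (zv (nn u p)) x)) ≤ 4 * ϵ := by
    intro p hp
    rw [integral_sub (integrable_const _) (contInt (hphc p)), hone]
    have hne : nn u p ≠ 0 := nn_ne hu (Finset.mem_filter.mp hp).2
    have hc := (cov1 hM hne (ph_smooth h).continuous.measurable (ph_add_one ϵ)
      ((ph_smooth h).continuous.continuousOn.integrableOn_compact isCompact_Icc)).2
    rw [hc]
    have := ph_int h h2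
    linarith
  have hs : ∑ p ∈ prs d, ∫ x in cell d, (1 - ph ϵ (dot (zv (nn u p)) x)) ≤ 4 * ϵ * (d : ℝ) ^ 2 := by
    refine (Finset.sum_le_sum hb).trans ?_
    rw [Finset.sum_const, nsmul_eq_mul]
    have := prs_card d
    nlinarith
  rw [hone] at key
  linarith

theorem sq_alg {m r : ℝ} (hm : 0 < m) (h0 : 0 ≤ r) (h1 : r ≤ 1) :
    (r / m - 1) ^ 2 ≤ (1 / m ^ 2 - 2 / m) * r + 1 := by
  have e : (r / m - 1) ^ 2 = (1 / m ^ 2) * (r * r) - 2 / m * r + 1 := by
    field_simp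
    ring
  rw [e]
  have h5 : (1 / m ^ 2) * (r * r) ≤ (1 / m ^ 2) * r := by
    refine mul_le_mul_of_nonneg_left ?_ (by positivity)
    nlinarith
  linarith

theorem sq_bd {f : V d → ℝ} (hf : Continuous f) (h0 : ∀ x, 0 ≤ f x) (h1 : ∀ x, f x ≤ 1) {m : ℝ}
    (hm : ∫ x in cell d, f x = m) (hm0 : 0 < m) :
    ∫ x in cell d, (f x / m - 1) ^ 2 ≤ 1 / m - 1 := by
  have hc : Continuous fun x => (f x / m - 1) ^ 2 := by fun_prop
  have hmono : ∫ x in cell d, (f x / m - 1) ^ 2 ≤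
      ∫ x in cell d, ((1 / m ^ 2 - 2 / m) * f x + 1) := by
    refine integral_mono (contInt hc) (((contInt hf).const_mul _).add (integrable_const _)) ?_
    intro x
    exact sq_alg hm0 (h0 x) (h1 x)
  refine hmono.trans ?_
  rw [integral_add ((contInt hf).const_mul _) (integrable_const _), integral_const_mul, hm,
    integral_const]
  simp only [probReal_univ, smul_eq_mul, mul_one]
  have e : (1 / m ^ 2 - 2 / m) * m + 1 = 1 / m - 1 := by
    field_simp
    ring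
  rw [e]

end LinesP

open LinesP in
/-- B4 -/
theorem Lines_ok (d : ℕ) (hM : StmtMat d) : StmtLines d := by
  intro u hu η hη
  set c : ℝ := min (1 / 2) (η / (1 + η)) with hc
  have hc0 : 0 < c := lt_min (by norm_num) (by positivity)
  have hc1 : c ≤ 1 / 2 := min_le_left _ _
  have hc2 : c ≤ η / (1 + η) := min_le_right _ _
  have hd : 0 < 4 * ((d : ℝ) ^ 2 + 1) := by positivity
  refine ⟨min (1 / 8) (c / (4 * ((d : ℝ) ^ 2 + 1))), lt_min (by norm_num) (div_pos hc0 hd), ?_⟩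
  intro ϵ h0 hϵ
  have hϵ1 : ϵ ≤ 1 / 8 := hϵ.trans (min_le_left _ _)
  have hϵ2 : ϵ ≤ c / (4 * ((d : ℝ) ^ 2 + 1)) := hϵ.trans (min_le_right _ _)
  have hϵ3 : 4 * ϵ * (d : ℝ) ^ 2 ≤ c := by
    rw [le_div_iff₀ hd] at hϵ2
    nlinarith
  have hq : ϵ < 1 / 4 := by linarith
  set m : ℝ := ∫ x in cell d, r0 u ϵ x with hm
  have hm1 : 1 - c ≤ m := by
    have := r0_int hM hu h0 hq
    linarith
  have hm2 : 1 / 2 ≤ m := by linarith
  have hm0 : 0 < m := by linarith
  have hm3 : 1 / (1 + η) ≤ m := by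
    have e : 1 / (1 + η) = 1 - η / (1 + η) := by field_simp; ring
    rw [e]; linarith
  have hinv : 1 / m ≤ 1 + η := by
    rw [div_le_iff₀ hm0]
    rw [div_le_iff₀ (by linarith)] at hm3
    linarith
  have hi : Integrable (r0 u ϵ) ((volume : Measure (V d)).restrict (cell d)) :=
    contInt (r0_smooth u h0).continuous
  refine ⟨fun x => r0 u ϵ x / m, (r0_smooth u h0).div_const m, ?_, ?_, ?_, ?_, ?_, ?_⟩
  · intro x i
    show r0 u ϵ (x + Pi.single i 1) / m = r0 u ϵ x / m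
    rw [r0_per]
  · intro x t
    show r0 u ϵ (x + t • zv u) / m = r0 u ϵ x / m
    rw [r0_line]
  · intro x
    refine ⟨div_nonneg (r0_nonneg _ _ _) hm0.le, ?_⟩
    show r0 u ϵ x / m ≤ 2
    rw [div_le_iff₀ hm0]
    have := r0_le_one u ϵ x
    linarith
  · rw [integral_div, ← hm, div_self hm0.ne']
  · have h9 := sq_bd (r0_smooth u h0).continuous (r0_nonneg u ϵ) (r0_le_one u ϵ) hm.symm hm0
    linarith
  · intro x i k hik hx
    show r0 u ϵ x / m = 0
    rw [r0_zero u h0 hq x i k hik hx, zero_div]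

end Pool.Agent.Lib.MP_5df1bf_an
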