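import Pool.Agent.Lib.MP_5df1bf_an.Stmts1

/-!
# MP_5df1bf_an: positive definite laminates with small volume fraction (A14')
-/

open MeasureTheory Filter Topology
open scoped BigOperators ContDiff

noncomputable section

namespace Pool.Agent.Lib.MP_5df1bf_an

variable {d : ℕ}

namespace LowPD

/-- a continuous homogeneous function which is positive on nonzero symmetric matrices -/
theorem pd_of_pos (F : M d → ℝ) (hc : Continuous F) (hs : ∀ (t : ℝ) q, F (t • q) = t ^ 2 * F q)
    (hy : ∀ q, F (symm q) = F q) (hp : ∀ q, symm q ≠ 0 → 0 < F q) :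
    ∃ κ > 0, ∀ q, κ * nsq q ≤ F q := by
  have hF0 : F 0 = 0 := by
    have := hs 0 0
    simpa using this
  have hzero : ∀ q, symm q = 0 → F q = 0 := by
    intro q hq
    rw [← hy, hq, hF0]
  set K : Set (M d) := {q | symm q = q ∧ ip q q = 1} with hK
  have hcs : Continuous (fun q : M d => symm q) := by
    unfold symm
    fun_prop
  have hci : Continuous (fun q : M d => ip q q) := by
    unfold ip
    fun_prop
  have hKc : IsCompact K := by
    apply Metric.isCompact_of_isClosed_isBounded
    · exact (isClosed_eq hcs continuous_id).inter (isClosed_eq hci continuous_const)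
    · refine (Metric.isBounded_iff_subset_closedBall (0 : M d)).mpr ⟨1, ?_⟩
      intro q hq
      rw [mem_closedBall_zero_iff, pi_norm_le_iff_of_nonneg zero_le_one]
      intro i
      rw [pi_norm_le_iff_of_nonneg zero_le_one]
      intro j
      have h1 := entry_sq_le q i j
      rw [hq.2] at h1
      rw [Real.norm_eq_abs]
      exact abs_le_one_iff_mul_self_le_one.mpr (by nlinarith)
  -- normalisation
  have hnorm : ∀ q, symm q ≠ 0 → 0 < nsq q ∧ (Real.sqrt (nsq q))⁻¹ • symm q ∈ K ∧
      F ((Real.sqrt (nsq q))⁻¹ • symm q) * nsq q = F q := by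
    intro q hq
    have h1 : 0 < nsq q := lt_of_le_of_ne (nsq_nonneg q) fun e => hq (nsq_eq_zero e.symm)
    have h2 : (Real.sqrt (nsq q))⁻¹ ^ 2 * nsq q = 1 := by
      rw [inv_pow, Real.sq_sqrt h1.le, inv_mul_cancel₀ h1.ne']
    refine ⟨h1, ⟨?_, ?_⟩, ?_⟩
    · rw [symm_smul, symm_symm]
    · rw [ip_smul_left, ip_smul_right, ← mul_assoc, ← pow_two]
      exact h2
    · rw [hs, hy, mul_comm _ (nsq q), ← mul_assoc, mul_comm (nsq q), h2, one_mul]
  by_cases hne : K.Nonempty
  · obtain ⟨q0, hq0, hmin⟩ := hKc.exists_isMinOn hne hc.continuousOn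
    have hq0' : symm q0 ≠ 0 := by
      intro e
      have h1 := hq0.2
      rw [← hq0.1, e, ip_zero_left] at h1
      exact zero_ne_one h1
    refine ⟨F q0, hp q0 hq0', ?_⟩
    intro q
    by_cases hq : symm q = 0
    · rw [hzero q hq]
      have : nsq q = 0 := by unfold nsq; rw [hq, ip_zero_left]
      rw [this, mul_zero]
    · obtain ⟨h1, h2, h3⟩ := hnorm q hq
      rw [← h3]
      exact mul_le_mul_of_nonneg_right (hmin h2) h1.le
  · refine ⟨1, one_pos, ?_⟩
    intro q
    by_cases hq : symm q = 0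
    · rw [hzero q hq]
      have : nsq q = 0 := by unfold nsq; rw [hq, ip_zero_left]
      rw [this, mul_zero]
    · exact absurd ⟨_, (hnorm q hq).2.1⟩ hne

end LowPD

open LowPD

/-- A14' -/
theorem LowPD_ok (d : ℕ) (h1 : StmtSeq d) (h2 : StmtInvT d) (h3 : StmtGamT d) : StmtLowPD d := by
  intro hd A hA f hf0 hf1
  obtain ⟨Ai, hAi, hAi1, -, hAi3⟩ := h2 A hA
  obtain ⟨Γ, hΓ1, hΓ2, -, hΓ4, -, -, -⟩ := h3 A hA
  obtain ⟨α, hα, hAα⟩ := id hA
  obtain ⟨β, hβ, hβ'⟩ := Ai.exists_bound
  let i0 : Fin d := ⟨0, by omega⟩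
  let i1 : Fin d := ⟨1, by omega⟩
  have hi : i0 ≠ i1 := by
    intro e
    have := congrArg Fin.val e
    simp [i0, i1] at this
  let n : Fin 3 → (Fin d → ℤ) := ![Pi.single i0 1, Pi.single i1 1, Pi.single i0 1 + Pi.single i1 1]
  let c : Fin 3 → ℝ := fun _ => f / 3
  have hc : ∀ i, 0 < c i := fun i => by simp only [c]; positivity
  have hcs : ∑ i, c i = f := by simp [c]; ring
  have hn0 : zv (n 0) = fun j => if j = i0 then (1 : ℝ) else 0 := by
    funext j
    by_cases h : j = i0 <;> simp [zv, n, Pi.single_apply, h]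
  have hn1 : zv (n 1) = fun j => if j = i1 then (1 : ℝ) else 0 := by
    funext j
    by_cases h : j = i1 <;> simp [zv, n, Pi.single_apply, h]
  have hn2 : zv (n 2) = fun j => (if j = i0 then (1 : ℝ) else 0) + if j = i1 then (1 : ℝ) else 0 := by
    funext j
    by_cases h : j = i0 <;> by_cases h' : j = i1 <;>
      simp [zv, n, Pi.single_apply, h, h']
  have hn : ∀ i, n i ≠ 0 := by
    intro i e
    have e' : zv (n i) = 0 := by
      rw [e]; funext j; simp [zv]
    fin_cases i
    · have h4 := congrFun (hn0.symm.trans e') i0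
      simp at h4
    · have h4 := congrFun (hn1.symm.trans e') i1
      simp at h4
    · have h4 := congrFun (hn2.symm.trans e') i0
      simp [hi] at h4
  have hzn : ∀ i, zv (n i) ≠ 0 := by
    intro i e
    apply hn i
    funext j
    have := congrFun e j
    simpa [zv] using this
  obtain ⟨W, hW1, hW2, hW3⟩ := h1 A hA 3 n c hn hc f hf0 hf1 hcs
  set ϖ : ℝ := 1 - f with hϖ
  have hϖ0 : 0 < ϖ := by rw [hϖ]; linarith
  let g : M d → ℝ := fun q => ∑ i, c i * Gam A (zv (n i)) q
  let F : M d → ℝ := fun q => ∑ i, c i * (Inv A q - Gam A (zv (n i)) q)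
  have hFt : ∀ q, F q = ∑ i, c i * (Ai.Q q - (Γ (zv (n i))).Q q) := by
    intro q
    refine Finset.sum_congr rfl fun i _ => ?_
    rw [hAi1, hΓ1 _ _ (hzn i)]
  have hFg : ∀ q, F q = f * Inv A q - g q := by
    intro q
    simp only [F, g, mul_sub, Finset.sum_sub_distrib, ← Finset.sum_mul, hcs]
  -- `F` is positive definite
  obtain ⟨κ, hκ, hFκ⟩ : ∃ κ > 0, ∀ q, κ * nsq q ≤ F q := by
    apply pd_of_pos
    · have : F = fun q => ∑ i, c i * (Ai.Q q - (Γ (zv (n i))).Q q) := funext hFt
      rw [this]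
      refine continuous_finsetSum _ fun i _ => continuous_const.mul ?_
      exact Ai.continuous_Q.sub (Tens.continuous_Q _)
    · intro t q
      rw [hFt, hFt, Finset.mul_sum]
      refine Finset.sum_congr rfl fun i _ => ?_
      rw [Tens.Q_smul, Tens.Q_smul]
      ring
    · intro q
      rw [hFt, hFt]
      refine Finset.sum_congr rfl fun i _ => ?_
      rw [Tens.Q_symm, Tens.Q_symm]
    · intro q hq
      have hnn : ∀ i ∈ Finset.univ, 0 ≤ c i * (Inv A q - Gam A (zv (n i)) q) := fun i _ =>
        mul_nonneg (hc i).le (sub_nonneg.mpr (hΓ2 _ _).2)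
      refine lt_of_le_of_ne (Finset.sum_nonneg hnn) ?_
      intro e
      have e2 := (Finset.sum_eq_zero_iff_of_nonneg hnn).mp e.symm
      have e3 : ∀ i, Gam A (zv (n i)) q = Inv A q := by
        intro i
        rcases mul_eq_zero.mp (e2 i (Finset.mem_univ i)) with h | h
        · exact absurd h (hc i).ne'
        · linarith
      set X := Ai.C q with hX
      have hAX : A.C X = symm q := (hAi3 q).2
      have e4 : ∀ i, ∃ a, sd a (zv (n i)) = symm X := by
        intro i
        obtain ⟨a, ha⟩ := hΓ4 (zv (n i)) q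
        refine ⟨a, ?_⟩
        rw [e3, hAi1] at ha
        have e5 : A.Q (sd a (zv (n i)) - X) = 0 := by
          rw [Tens.Q_sub, A.sa, hAX]
          have e6 : A.Q X = Ai.Q q := by
            unfold Tens.Q
            rw [hAX, ip_comm, ← hX, hX, Tens.ip_C_symm]
          have e7 : ip (sd a (zv (n i))) (symm q) = ip q (sd a (zv (n i))) := by
            rw [← ip_symm_left, symm_sd, ip_comm]
          rw [e6, e7]
          linarith
        have e8 : nsq (sd a (zv (n i)) - X) = 0 := by
          have := hAα (sd a (zv (n i)) - X)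
          rw [e5] at this
          have h4 := nsq_nonneg (sd a (zv (n i)) - X)
          nlinarith
        have e9 := nsq_eq_zero e8
        rw [symm_sub, symm_sd, sub_eq_zero] at e9
        exact e9
      -- the three representations
      obtain ⟨a, ha⟩ := e4 0
      obtain ⟨b, hb⟩ := e4 1
      obtain ⟨s, hs⟩ := e4 2
      rw [hn0] at ha
      rw [hn1] at hb
      rw [hn2] at hs
      have ea : ∀ i j, (a i * (if j = i0 then (1 : ℝ) else 0) +
          a j * (if i = i0 then (1 : ℝ) else 0)) / 2 =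
          symm X i j := fun i j => congrFun (congrFun ha i) j
      have eb : ∀ i j, (b i * (if j = i1 then (1 : ℝ) else 0) +
          b j * (if i = i1 then (1 : ℝ) else 0)) / 2 =
          symm X i j := fun i j => congrFun (congrFun hb i) j
      have es : ∀ i j, (s i * ((if j = i0 then (1 : ℝ) else 0) + if j = i1 then (1 : ℝ) else 0) +
          s j * ((if i = i0 then (1 : ℝ) else 0) + if i = i1 then (1 : ℝ) else 0)) / 2 =
          symm X i j := fun i j => congrFun (congrFun hs i) j
      -- entries outside the two rows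
      have z1 : ∀ i j, i ≠ i0 → j ≠ i0 → symm X i j = 0 := by
        intro i j h4 h5
        rw [← ea]
        simp [h4, h5]
      have z2 : ∀ i j, i ≠ i1 → j ≠ i1 → symm X i j = 0 := by
        intro i j h4 h5
        rw [← eb]
        simp [h4, h5]
      have s0 : s i0 = 0 := by
        have h4 := es i0 i0
        rw [z2 i0 i0 hi hi] at h4
        simp [hi] at h4
        exact h4
      have s1 : s i1 = 0 := by
        have h4 := es i1 i1
        rw [z1 i1 i1 hi.symm hi.symm] at h4
        simp [hi.symm] at h4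
        exact h4
      have z3 : symm X i0 i1 = 0 := by
        rw [← es i0 i1, s0, s1]
        simp
      have hX0 : symm X = 0 := by
        funext i j
        show symm X i j = 0
        by_cases h4 : i = i0
        · by_cases h5 : j = i1
          · rw [h4, h5]; exact z3
          · rw [h4]; exact z2 i0 j hi h5
        · by_cases h5 : j = i0
          · by_cases h6 : i = i1
            · rw [h6, h5, symm_swap]; exact z3
            · rw [h5]; exact z2 i i0 h6 hi
          · exact z1 i j h4 h5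
      apply hq
      rw [← hAX, ← A.C_symm, hX0, map_zero]
  -- completing the square
  have hHS : ∀ ε q, HS A ϖ g ε q = A.Q (ε - ϖ • Ai.C q) + ϖ * F q := by
    intro ε q
    have hAX : A.C (Ai.C q) = symm q := (hAi3 q).2
    have e1 : A.Q (ϖ • Ai.C q) = ϖ ^ 2 * Inv A q := by
      rw [Tens.Q_smul, hAi1]
      congr 1
      unfold Tens.Q
      rw [hAX, ip_comm, Tens.ip_C_symm]
    have e2 : ip (A.C ε) (ϖ • Ai.C q) = ϖ * ip q (symm ε) := by
      rw [ip_smul_right, A.sa, hAX, ip_comm, ip_symm_left]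
    rw [Tens.Q_sub, e1, e2, hFg]
    unfold HS
    rw [hϖ]
    ring
  -- lower bound
  obtain ⟨m, hm, hlow⟩ : ∃ m > 0, ∀ ε q, m * nsq ε ≤ HS A ϖ g ε q := by
    refine ⟨min (α / 2) (α * κ / (2 * ϖ * β)), by positivity, ?_⟩
    intro ε q
    set m := min (α / 2) (α * κ / (2 * ϖ * β)) with hm
    have hm0 : 0 < m := by rw [hm]; positivity
    have hm1 : 2 * m ≤ α := by
      have := min_le_left (α / 2) (α * κ / (2 * ϖ * β))
      rw [← hm] at this
      linarith
    have hm2 : m * (2 * ϖ * β) ≤ α * κ := by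
      have := min_le_right (α / 2) (α * κ / (2 * ϖ * β))
      rw [← hm] at this
      rwa [le_div_iff₀ (by positivity)] at this
    rw [hHS]
    have e1 : nsq ε ≤ 2 * nsq (ε - ϖ • Ai.C q) + 2 * (ϖ ^ 2 * nsq (Ai.C q)) := by
      have := nsq_add_le (ε - ϖ • Ai.C q) (ϖ • Ai.C q)
      rw [sub_add_cancel, nsq_smul] at this
      exact this
    have hAX : A.C (Ai.C q) = symm q := (hAi3 q).2
    have e2 : α * nsq (Ai.C q) ≤ β * nsq q := by
      refine (hAα (Ai.C q)).trans ?_
      have e3 : A.Q (Ai.C q) = Ai.Q q := by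
        unfold Tens.Q
        rw [hAX, ip_comm, Tens.ip_C_symm]
      rw [e3]
      exact (le_abs_self _).trans (hβ' q)
    have e4 := hAα (ε - ϖ • Ai.C q)
    have e5 := hFκ q
    have n1 := nsq_nonneg (ε - ϖ • Ai.C q)
    have n2 := nsq_nonneg q
    have n3 := nsq_nonneg (Ai.C q)
    -- `α m nsq ε ≤ ...`
    have e6 : m * nsq ε ≤ α * nsq (ε - ϖ • Ai.C q) + 2 * m * ϖ ^ 2 * nsq (Ai.C q) := by
      nlinarith
    have e7 : 2 * m * ϖ ^ 2 * nsq (Ai.C q) ≤ ϖ * (κ * nsq q) := by
      have e8 : α * (2 * m * ϖ ^ 2 * nsq (Ai.C q)) ≤ α * (ϖ * (κ * nsq q)) := by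
        calc α * (2 * m * ϖ ^ 2 * nsq (Ai.C q)) = 2 * m * ϖ ^ 2 * (α * nsq (Ai.C q)) := by ring
          _ ≤ 2 * m * ϖ ^ 2 * (β * nsq q) := by gcongr
          _ = (m * (2 * ϖ * β)) * (ϖ * nsq q) := by ring
          _ ≤ (α * κ) * (ϖ * nsq q) := by gcongr
          _ = α * (ϖ * (κ * nsq q)) := by ring
      exact le_of_mul_le_mul_left e8 hα
    have e9 : ϖ * (κ * nsq q) ≤ ϖ * F q := mul_le_mul_of_nonneg_left e5 hϖ0.le
    linarith
  refine ⟨3, n, c, W, hn, hc, hcs, hW1, ⟨m, hm, ?_⟩, ?_⟩
  · intro ε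
    rw [hW3]
    exact le_ciInf fun q => hlow ε q
  · intro ε q
    rw [hW3]
    refine ciInf_le ⟨0, ?_⟩ q
    rintro x ⟨q', rfl⟩
    exact (mul_nonneg hm.le (nsq_nonneg ε)).trans (hlow ε q')

end Pool.Agent.Lib.MP_5df1bf_an
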