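import Pool.Agent.Lib.MP_5df1bf_an.Stmts2

/-!
# MP_5df1bf_an: C6, the lower bound for the gadget
-/

open MeasureTheory Filter Topology
open scoped BigOperators ContDiff

noncomputable section

namespace Pool.Agent.Lib.MP_5df1bf_an

namespace LowerPf

variable {d : ℕ}

theorem w_pos (D : Dat d) : 0 < D.w := by
  have : (0 : ℝ) < D.N := by exact_mod_cast D.Npos
  unfold Dat.w; positivity

theorem J_pos (D : Dat d) : (0 : ℝ) < D.J := by exact_mod_cast D.Jpos

theorem h_pos (D : Dat d) : 0 < D.h := by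
  have := w_pos D; have := J_pos D
  unfold Dat.h; positivity

theorem h_le_w (D : Dat d) : D.h ≤ D.w := by
  have h1 := w_pos D
  have h2 : (1 : ℝ) ≤ D.J := by exact_mod_cast D.Jpos
  unfold Dat.h
  rw [div_le_iff₀ (by positivity)]
  nlinarith

theorem b_lt_h (D : Dat d) : D.b < D.h := by
  have := h_pos D
  unfold Dat.b; linarith

/-- patches of different types are disjoint -/
theorem pat_unique (D : Dat d) {k : Fin d} {j j' : Fin D.J} {x : V d} (h : D.pat k j x)
    (h' : D.pat k j' x) : j = j' := by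
  obtain ⟨⟨n, hn⟩, -⟩ := h
  obtain ⟨⟨n', hn'⟩, -⟩ := h'
  have hJ := J_pos D
  have hw := w_pos D
  rw [abs_lt] at hn hn'
  have ha : D.a = D.w / (4 * D.J) := rfl
  have h1 : |((D.p j + n) - (D.p j' + n')) * D.w| < 2 * D.a := by
    rw [abs_lt]; constructor <;> nlinarith [hn.1, hn.2, hn'.1, hn'.2]
  rw [abs_mul, abs_of_pos hw, ha] at h1
  have h2 : |(D.p j + n) - (D.p j' + n')| < 1 / (2 * D.J) := by
    have h3 : |(D.p j + n) - (D.p j' + n')| * D.w < (1 / (2 * D.J)) * D.w := by
      refine h1.trans_eq ?_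
      field_simp
      ring
    exact lt_of_mul_lt_mul_right h3 hw.le
  set m : ℤ := ((j : ℕ) : ℤ) - ((j' : ℕ) : ℤ) + D.J * (n - n') with hm
  have h4 : ((m : ℤ) : ℝ) = ((D.p j + n) - (D.p j' + n')) * D.J := by
    rw [hm]; unfold Dat.p; push_cast; field_simp; ring
  have h5 : |(m : ℝ)| < 1 / 2 := by
    rw [h4, abs_mul, abs_of_pos hJ]
    calc |(D.p j + n) - (D.p j' + n')| * D.J < 1 / (2 * D.J) * D.J :=
          mul_lt_mul_of_pos_right h2 hJ
      _ = 1 / 2 := by field_simp
  have h6 : m = 0 := by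
    rw [← Int.abs_lt_one_iff]
    have : (|m| : ℝ) < 1 := by linarith
    exact_mod_cast this
  have h7 : (((j : ℕ) : ℤ) - ((j' : ℕ) : ℤ)) = D.J * (n' - n) := by rw [hm] at h6; linarith
  have hj := j.2
  have hj' := j'.2
  have h8 : n' - n = 0 := by
    by_contra hne
    rcases lt_or_gt_of_ne hne with h9 | h9
    · have : (D.J : ℤ) * (n' - n) ≤ -D.J := by nlinarith [(by exact_mod_cast D.Jpos : (0 : ℤ) < D.J)]
      omega
    · have : (D.J : ℤ) ≤ D.J * (n' - n) := by nlinarith [(by exact_mod_cast D.Jpos : (0 : ℤ) < D.J)]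
      omega
  rw [h8, mul_zero] at h7
  exact Fin.ext (by omega)

theorem symm_oo' (z : V d) : symm (oo z) = oo z := by
  ext i j; simp [symm, oo]; ring

theorem continuous_Tj (D : Dat d) {K η : ℝ} (hP : D.Prof K) (hL : D.Lin K η) (L : ℕ)
    (j : Fin D.J) : Continuous (D.Tj L j) := by
  have h1 : Continuous (D.r j) := (hL.r_sm j).continuous
  have h2 : Continuous D.psi := hP.psi_sm.continuous
  have h3 : Continuous (deriv D.psi) := hP.psi_sm.continuous_deriv (by simp)
  have h3' : ContDiff ℝ ∞ (deriv D.psi) := by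
    have := (contDiff_infty_iff_deriv.1 hP.psi_sm).2
    exact this
  have h4 : Continuous (deriv (deriv D.psi)) := h3'.continuous_deriv (by simp)
  have h5 : ∀ k, Continuous (D.P k j) := fun k => (hL.P_sm k j).continuous
  have h6 : ∀ k, Continuous (D.G k j) := fun k => (hL.G_sm k j).continuous
  have h7 : ∀ k, Continuous fun x => fderiv ℝ (D.G k j) x (Pi.single (D.l k) 1) := fun k =>
    ((hL.G_sm k j).continuous_fderiv (by simp)).clm_apply continuous_const
  have h8 : Continuous D.mu := hP.mu_sm.continuous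
  have h9 : Continuous (deriv D.mu) := hP.mu_sm.continuous_deriv (by simp)
  have h10 : ∀ k, Continuous (D.xs L k) := by
    intro k
    unfold Dat.xs Dat.sh
    refine continuous_id.sub ?_
    refine continuous_pi fun i => ?_
    by_cases hi : i = D.l k
    · subst hi
      simp only [Pi.single_eq_same]
      exact continuous_const.mul (h8.comp (continuous_apply k))
    · simp only [Pi.single_eq_of_ne hi]
      exact continuous_const
  have h11 : ∀ k, Continuous (D.gv L k j) := by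
    intro k
    unfold Dat.gv
    refine continuous_const.add ?_
    refine continuous_pi fun i => ?_
    by_cases hi : i = D.l k
    · subst hi
      simp only [Pi.single_eq_same]
      exact continuous_const.mul (h9.comp (continuous_apply k))
    · simp only [Pi.single_eq_of_ne hi]
      exact continuous_const
  refine continuous_pi fun a => continuous_pi fun b => ?_
  simp only [Dat.Tj, Pi.add_apply, Pi.sub_apply, Finset.sum_apply, Pi.smul_apply, smul_eq_mul, oo,
    sd]
  refine (((((h1.mul continuous_const).add ?_).sub ?_).add ?_).add ?_)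
  · refine continuous_finsetSum _ fun k _ => ?_
    exact ((h2.comp (continuous_apply k)).mul ((h5 k).sub h1)).mul continuous_const
  · refine continuous_finsetSum _ fun k _ => ?_
    exact (((continuous_const.mul (h3.comp (continuous_apply k))).mul (h7 k))).mul
      continuous_const
  · refine continuous_finsetSum _ fun k _ => ?_
    exact ((continuous_const.mul (h4.comp (continuous_apply k))).mul (h6 k)).mul continuous_const
  · refine continuous_finsetSum _ fun k _ => ?_
    refine (((h5 k).comp (h10 k)).mul (((continuous_apply a).comp (h11 k)).mul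
      ((continuous_apply b).comp (h11 k)))).sub ((h5 k).mul continuous_const)

theorem symm_Tj (D : Dat d) (L : ℕ) (j : Fin D.J) (x : V d) : symm (D.Tj L j x) = D.Tj L j x := by
  unfold Dat.Tj
  simp only [symm_add, symm_sub, symm_sum, symm_smul, symm_oo', symm_sd]

theorem gv_bound (D : Dat d) {K : ℝ} (hP : D.Prof K) (L : ℕ) (hL : 0 < L) (k : Fin d)
    (j : Fin D.J) (x : V d) :
    dot (D.gv L k j x) (D.gv L k j x) ≤ 18 * d + 72 * ∑ k, (D.kk k : ℝ) ^ 2 := by
  set c : ℝ := (D.kk k : ℝ) / L * D.u j k * deriv D.mu (x k) with hc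
  have h0 : D.gv L k j x = zv (D.u j) + Pi.single (D.l k) c := rfl
  have h1 : dot (D.gv L k j x) (D.gv L k j x) ≤ 2 * dot (zv (D.u j)) (zv (D.u j)) + 2 * c ^ 2 := by
    have h2 := dot_self_nonneg (zv (D.u j) - Pi.single (D.l k) c)
    rw [dot_sub_left, dot_sub_right, dot_sub_right] at h2
    rw [h0, dot_add_left, dot_add_right, dot_add_right]
    have h3 : dot (Pi.single (D.l k) c : V d) (Pi.single (D.l k) c) = c ^ 2 := by
      unfold dot
      rw [Finset.sum_eq_single (D.l k)]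
      · rw [Pi.single_eq_same]; ring
      · intro i _ hi; rw [Pi.single_eq_of_ne hi]; ring
      · intro h; exact absurd (Finset.mem_univ _) h
    rw [h3] at h2 ⊢
    linarith
  have h4 : dot (zv (D.u j)) (zv (D.u j)) ≤ 9 * d := by
    unfold dot zv
    calc ∑ i, (D.u j i : ℝ) * (D.u j i : ℝ) ≤ ∑ _i : Fin d, (9 : ℝ) := by
          refine Finset.sum_le_sum fun i _ => ?_
          have h5 := D.u_rng j i
          have h6 : (1 : ℝ) ≤ D.u j i := by exact_mod_cast h5.1
          have h7 : (D.u j i : ℝ) ≤ 3 := by exact_mod_cast h5.2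
          nlinarith
      _ = 9 * d := by simp; ring
  have h5 : c ^ 2 ≤ 36 * (D.kk k : ℝ) ^ 2 := by
    have hu := D.u_rng j k
    have h6 : (1 : ℝ) ≤ D.u j k := by exact_mod_cast hu.1
    have h7 : (D.u j k : ℝ) ≤ 3 := by exact_mod_cast hu.2
    have h8 := hP.mu_der (x k)
    have h9 : (1 : ℝ) ≤ L := by exact_mod_cast hL
    have e : c ^ 2 = (D.kk k : ℝ) ^ 2 * (1 / (L : ℝ) ^ 2 * (D.u j k : ℝ) ^ 2 * (deriv D.mu (x k)) ^ 2) := by
      rw [hc]; field_simp
    have h10 : (deriv D.mu (x k)) ^ 2 ≤ 4 := by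
      rw [← sq_abs]; nlinarith [abs_nonneg (deriv D.mu (x k))]
    have h11 : (D.u j k : ℝ) ^ 2 ≤ 9 := by nlinarith
    have h12 : 1 / (L : ℝ) ^ 2 ≤ 1 := by
      rw [div_le_one (by positivity)]; nlinarith
    have h13 : 1 / (L : ℝ) ^ 2 * (D.u j k : ℝ) ^ 2 ≤ 1 * 9 :=
      mul_le_mul h12 h11 (by positivity) (by norm_num)
    have h14 : 1 / (L : ℝ) ^ 2 * (D.u j k : ℝ) ^ 2 * (deriv D.mu (x k)) ^ 2 ≤ 1 * 9 * 4 :=
      mul_le_mul h13 h10 (by positivity) (by norm_num)
    rw [e]
    nlinarith [sq_nonneg (D.kk k : ℝ)]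
  have h6 : (D.kk k : ℝ) ^ 2 ≤ ∑ k, (D.kk k : ℝ) ^ 2 :=
    Finset.single_le_sum (f := fun k => (D.kk k : ℝ) ^ 2) (fun _ _ => sq_nonneg _)
      (Finset.mem_univ k)
  linarith

theorem oo_smul (L : ℝ) (z : V d) : oo (L • z) = (L ^ 2) • oo z := by
  ext i j; simp [oo]; ring

/-- fibre bound -/
theorem fib_bound {α β : ℝ} (hα : 0 < α) {F : Tens d} {z g : V d} (L : ℝ) (hL : L ≠ 0)
    (hz : z = L • g) (hF : FibLike α β z F) (hg : g ≠ 0) (c : ℝ) (ξ : M d) :
    2 * (c * ip (oo g) ξ) ≤ F.Q ξ + c ^ 2 * (dot g g) ^ 2 / α := by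
  have h1 := (hF ξ).1
  have hgg := dot_self_pos hg
  have h2 : ip (oo z) ξ / dot z z = ip (oo g) ξ / dot g g := by
    rw [hz, oo_smul, ip_smul_left, dot_smul_left, dot_smul_right]
    field_simp
  rw [h2] at h1
  set y := ip (oo g) ξ / dot g g with hy
  have h3 : ip (oo g) ξ = y * dot g g := by rw [hy]; field_simp
  have h4 : 2 * (c * ip (oo g) ξ) ≤ α * y ^ 2 + c ^ 2 * (dot g g) ^ 2 / α := by
    rw [h3]
    have h5 : 0 ≤ (α * y - c * dot g g) ^ 2 / α := by positivity
    have h6 : (α * y - c * dot g g) ^ 2 / α =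
        α * y ^ 2 + c ^ 2 * (dot g g) ^ 2 / α - 2 * (c * (y * dot g g)) := by
      field_simp
      ring
    linarith
  linarith

/-- pointwise inequality -/
theorem pt_ineq (D : Dat d) {K α β : ℝ} (hα : 0 < α) (hP : D.Prof K)
    (hI : StmtInvT d) {L : ℕ} (hL : 0 < L)
    (hz : ∀ (j : Fin D.J) (k : Fin d) (x : V d), pd (x k) < D.h →
      (D.Tj L j x ≠ 0 → D.pat k j x) ∧
      (∃ t : ℝ, |t| ≤ K ∧ D.Tj L j x = t • oo (D.gv L k j x)) ∧
      (D.b ≤ pd (x k) → x k < round (x k) → D.gv L k j x = zv (D.u j)) ∧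
      (D.b ≤ pd (x k) → round (x k) < x k → (L : ℝ) • D.gv L k j x = zv (D.g L k j)))
    {C : Tens d} {F : (Fin d → ℤ) → Tens d} {Ls : Tens d} {T : V d → Tens d} (hC : C.PD)
    (hF : ∀ z, z ≠ 0 → FibLike α β (zv z) (F z)) (hG : D.IsGad L C F Ls T) (hT : IsFld T 0 β)
    (s : Fin D.J → ℝ) (n : ℝ) (hs : ∀ j, (s j) ^ 2 ≤ n) (x : V d) (ξ : M d) :
    2 * ip (∑ j, s j • D.Tj L j x) ξ ≤ (T x).Q ξ + Inv C (∑ j, s j • D.Tj L j x) +
      Set.indicator {x : V d | ∃ i, pd (x i) ≤ D.h}
        (fun _ => n * K ^ 2 * (18 * d + 72 * ∑ k, (D.kk k : ℝ) ^ 2) ^ 2 / α) x := by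
  classical
  obtain ⟨Ai, hAi, hInv, hInv2, -⟩ := hI C hC
  have hn : 0 ≤ n := (sq_nonneg _).trans (hs ⟨0, D.Jpos⟩)
  have hQ0 : 0 ≤ (T x).Q ξ := by
    have := hT.lo x ξ; simpa using this
  have hI0 : 0 ≤ Inv C (∑ j, s j • D.Tj L j x) := by
    rw [hInv]; exact hAi.psd _
  have hind : 0 ≤ Set.indicator {x : V d | ∃ i, pd (x i) ≤ D.h}
        (fun _ => n * K ^ 2 * (18 * d + 72 * ∑ k, (D.kk k : ℝ) ^ 2) ^ 2 / α) x :=
    Set.indicator_nonneg (fun _ _ => by positivity) x
  by_cases hB : x ∈ D.RB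
  · rw [hG.blk x hB]
    have h1 := hInv2 ξ (∑ j, s j • D.Tj L j x)
    have h2 : ip (∑ j, s j • D.Tj L j x) (symm ξ) = ip (∑ j, s j • D.Tj L j x) ξ := by
      apply ip_eq_symm
      simp only [symm_sum, symm_smul, symm_Tj]
    rw [h2] at h1
    linarith
  · have hk : ∃ k, pd (x k) < D.h := by
      by_contra hcon
      push Not at hcon
      exact hB (Or.inl hcon)
    obtain ⟨k, hk⟩ := hk
    by_cases hpat : ∃ j, D.pat k j x
    · obtain ⟨j0, hj0⟩ := hpat
      have hsum : ∑ j, s j • D.Tj L j x = s j0 • D.Tj L j0 x := by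
        rw [Finset.sum_eq_single j0]
        · intro j _ hj
          have : D.Tj L j x = 0 := by
            by_contra hne
            exact hj (pat_unique D ((hz j k x hk).1 hne) hj0)
          rw [this, smul_zero]
        · intro h; exact absurd (Finset.mem_univ _) h
      obtain ⟨-, ⟨t, ht, hTj⟩, h3, h4⟩ := hz j0 k x hk
      have hb : D.b ≤ pd (x k) := by
        by_contra hcon
        push Not at hcon
        exact hB (Or.inr (Or.inr ⟨k, j0, hcon, hj0⟩))
      have hmem : x ∈ {x : V d | ∃ i, pd (x i) ≤ D.h} := ⟨k, hk.le⟩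
      rw [Set.indicator_of_mem hmem]
      have hgb := gv_bound D hP L hL k j0 x
      set g := D.gv L k j0 x with hg
      set Γ : ℝ := 18 * d + 72 * ∑ k, (D.kk k : ℝ) ^ 2 with hΓ
      have hgg := dot_self_nonneg g
      have hΓ0 : 0 ≤ Γ := hgg.trans hgb
      -- the basic inequality
      have key : 2 * (s j0 * t * ip (oo g) ξ) ≤ (T x).Q ξ + (s j0 * t) ^ 2 * (dot g g) ^ 2 / α := by
        by_cases hg0 : g = 0
        · rw [hg0]
          have : oo (0 : V d) = 0 := by ext i j; simp [oo]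
          rw [this, ip_zero_left]
          have : dot (0 : V d) 0 = 0 := by simp [dot]
          rw [this]
          simp only [mul_zero, ne_eq, OfNat.ofNat_ne_zero, not_false_eq_true, zero_pow, zero_div,
            add_zero]
          exact hQ0
        · rcases lt_trichotomy (x k) (round (x k) : ℝ) with hlt | heq | hgt
          · have hgu := h3 hb hlt
            have hxU : x ∈ D.RU k j0 := ⟨hj0, hb, hk, hlt⟩
            rw [hG.neg k j0 x hxU]
            have hu : D.u j0 ≠ 0 := by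
              intro h0
              apply hg0
              rw [hgu, h0]
              ext i; simp [zv]
            exact fib_bound hα (1 : ℝ) one_ne_zero (by rw [one_smul]; exact hgu.symm)
              (hF _ hu) hg0 _ ξ
          · exfalso
            have : pd (x k) = 0 := by
              unfold pd; rw [← heq]; simp
            have h5 : 0 < D.b := by
              have := h_pos D
              unfold Dat.b; positivity
            linarith
          · have hgu := h4 hb hgt
            have hxG : x ∈ D.RG k j0 := ⟨hj0, hb, hk, hgt⟩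
            rw [hG.pos k j0 x hxG]
            have hL0 : (L : ℝ) ≠ 0 := by exact_mod_cast hL.ne'
            have hu : D.g L k j0 ≠ 0 := by
              intro h0
              rw [h0] at hgu
              have h6 : zv (0 : Fin d → ℤ) = 0 := by ext i; simp [zv]
              rw [h6] at hgu
              rcases smul_eq_zero.1 hgu with h7 | h7
              · exact hL0 h7
              · exact hg0 h7
            exact fib_bound hα (L : ℝ) hL0 hgu.symm (hF _ hu) hg0 _ ξ
      have hKt : t ^ 2 ≤ K ^ 2 := by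
        rw [← sq_abs t]
        have := abs_nonneg t
        nlinarith
      have hbd : (s j0 * t) ^ 2 * (dot g g) ^ 2 / α ≤ n * K ^ 2 * Γ ^ 2 / α := by
        apply div_le_div_of_nonneg_right _ hα.le
        rw [mul_pow]
        have h7 : (s j0) ^ 2 * t ^ 2 ≤ n * K ^ 2 := mul_le_mul (hs j0) hKt (sq_nonneg _) hn
        have h8 : (dot g g) ^ 2 ≤ Γ ^ 2 := by nlinarith
        exact mul_le_mul h7 h8 (sq_nonneg _) (by positivity)
      have e1 : ip (∑ j, s j • D.Tj L j x) ξ = s j0 * t * ip (oo g) ξ := by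
        rw [hsum, hTj, ip_smul_left, ip_smul_left]; ring
      rw [e1]
      linarith
    · push Not at hpat
      have hsum : ∑ j, s j • D.Tj L j x = 0 := by
        refine Finset.sum_eq_zero fun j _ => ?_
        have : D.Tj L j x = 0 := by
          by_contra hne
          exact hpat j ((hz j k x hk).1 hne)
        rw [this, smul_zero]
      rw [hsum] at hI0 ⊢
      rw [ip_zero_left]
      linarith


theorem measurable_pd : Measurable pd := by
  unfold pd
  have h1 : Measurable fun t : ℝ => ((round t : ℤ) : ℝ) := by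
    have : (fun t : ℝ => ((round t : ℤ) : ℝ)) = fun t : ℝ => ((⌊t + 1 / 2⌋ : ℤ) : ℝ) := by
      funext t; rw [round_eq]
    rw [this]
    exact (measurable_of_countable (fun z : ℤ => (z : ℝ))).comp
      (Int.measurable_floor.comp (measurable_id.add_const _))
  exact (measurable_id.sub h1).abs

theorem measurableSet_near (h : ℝ) : MeasurableSet {x : V d | ∃ i, pd (x i) ≤ h} := by
  have : {x : V d | ∃ i, pd (x i) ≤ h} = ⋃ i, {x : V d | pd (x i) ≤ h} := by
    ext x; simp
  rw [this]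
  exact MeasurableSet.iUnion fun i =>
    measurableSet_le (measurable_pd.comp (measurable_pi_apply i)) measurable_const

theorem inv_bound {α : ℝ} (hα : 0 < α) {C Ai : Tens d} (hC : ∀ ξ, α * nsq ξ ≤ C.Q ξ)
    (hA : Ai.PSD) (h : ∀ ξ, C.C (Ai.C ξ) = symm ξ) (q : M d) : Ai.Q q ≤ nsq q / α := by
  set ξ := Ai.C q with hξ
  have e1 : C.Q ξ = Ai.Q q := by
    show ip (C.C ξ) ξ = ip (Ai.C q) q
    rw [hξ, h, ip_symm_left, Ai.symm_C, ip_comm]
  have e2 : Ai.Q q = ip (symm q) ξ := by
    rw [ip_symm_left, hξ, Ai.symm_C, ip_comm]; rfl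
  have h1 := cs_symm q ξ
  rw [← e2] at h1
  have h2 := hC ξ
  rw [e1] at h2
  have h0 := hA q
  have h3 := nsq_nonneg q
  rcases eq_or_lt_of_le h0 with h4 | h4
  · rw [← h4]; positivity
  · rw [le_div_iff₀ hα]
    have h5 : Ai.Q q * (Ai.Q q * α) ≤ Ai.Q q * nsq q := by
      calc Ai.Q q * (Ai.Q q * α) = (Ai.Q q) ^ 2 * α := by ring
        _ ≤ nsq q * nsq ξ * α := mul_le_mul_of_nonneg_right h1 hα.le
        _ = nsq q * (α * nsq ξ) := by ring
        _ ≤ nsq q * Ai.Q q := mul_le_mul_of_nonneg_left h2 h3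
        _ = _ := by ring
    exact le_of_mul_le_mul_left h5 h4

theorem continuous_grad' (hE : BaseE d) (u : Disp d) : Continuous (grad u.u) := hE.grad_cont u

theorem continuous_ip' {f g : V d → M d} (hf : Continuous f) (hg : Continuous g) :
    Continuous fun x => ip (f x) (g x) := by
  unfold ip
  refine continuous_finsetSum _ fun i _ => continuous_finsetSum _ fun j _ => ?_
  exact (((continuous_apply j).comp ((continuous_apply i).comp hf))).mul
    ((continuous_apply j).comp ((continuous_apply i).comp hg))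

theorem intOn (f : V d → ℝ) (hf : Continuous f) : Integrable f (volume.restrict (cell d)) :=
  (hf.continuousOn.integrableOn_compact isCompact_Icc)

/-- integrated inequality -/
theorem int_ineq (D : Dat d) {K η α β : ℝ} (hα : 0 < α) (hP : D.Prof K) (hLin : D.Lin K η)
    (hI : StmtInvT d) (hE : BaseE d) (hV : StmtVol d) {L : ℕ} (hL : 0 < L)
    (hz : ∀ (j : Fin D.J) (k : Fin d) (x : V d), pd (x k) < D.h →
      (D.Tj L j x ≠ 0 → D.pat k j x) ∧
      (∃ t : ℝ, |t| ≤ K ∧ D.Tj L j x = t • oo (D.gv L k j x)) ∧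
      (D.b ≤ pd (x k) → x k < round (x k) → D.gv L k j x = zv (D.u j)) ∧
      (D.b ≤ pd (x k) → round (x k) < x k → (L : ℝ) • D.gv L k j x = zv (D.g L k j)))
    {C Ai : Tens d} {F : (Fin d → ℤ) → Tens d} {Ls : Tens d} {T : V d → Tens d}
    (hC : ∀ ξ, α * nsq ξ ≤ C.Q ξ) (hA : Ai.PD) (hInv : ∀ q, Inv C q = Ai.Q q)
    (hCA : ∀ ξ, C.C (Ai.C ξ) = symm ξ)
    (hF : ∀ z, z ≠ 0 → FibLike α β (zv z) (F z)) (hG : D.IsGad L C F Ls T) (hT : IsFld T 0 β)
    (s : Fin D.J → ℝ) (n : ℝ) (hs : ∀ j, (s j) ^ 2 ≤ n) (S0 : M d)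
    (hS0 : S0 = ∑ j, s j • oo (zv (D.u j))) (ε : M d) (u : Disp d) :
    ∑ j, s j * (2 * (∫ x in cell d, ip (D.Tj L j x) ε) +
        2 * (∫ x in cell d, ip (D.Tj L j x) (grad u.u x)) -
        2 * (∫ x in cell d, ip (D.Tj L j x) (Ai.C S0))) + Ai.Q S0 -
      D.J / α * (∑ j, s j ^ 2 * ∫ x in cell d, nsq (D.Tj L j x - oo (zv (D.u j)))) -
      n * K ^ 2 * (18 * d + 72 * ∑ k, (D.kk k : ℝ) ^ 2) ^ 2 / α * (2 * d * D.h) ≤
    energy T ε u := by
  classical
  have hn : 0 ≤ n := (sq_nonneg _).trans (hs ⟨0, D.Jpos⟩)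
  set cI : ℝ := n * K ^ 2 * (18 * d + 72 * ∑ k, (D.kk k : ℝ) ^ 2) ^ 2 / α with hcI
  have hcI0 : 0 ≤ cI := by positivity
  have cT : ∀ j, Continuous (D.Tj L j) := continuous_Tj D hP hLin L
  have c1 : ∀ j, Continuous fun x => ip (D.Tj L j x) ε := fun j =>
    continuous_ip' (cT j) continuous_const
  have c2 : ∀ j, Continuous fun x => ip (D.Tj L j x) (grad u.u x) := fun j =>
    continuous_ip' (cT j) (hE.grad_cont u)
  have c3 : ∀ j, Continuous fun x => ip (D.Tj L j x) (Ai.C S0) := fun j =>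
    continuous_ip' (cT j) continuous_const
  have c4 : ∀ j, Continuous fun x => nsq (D.Tj L j x - oo (zv (D.u j))) := fun j =>
    continuous_nsq.comp ((cT j).sub continuous_const)
  set fA : V d → ℝ := fun x => ∑ j, s j * (2 * ip (D.Tj L j x) ε +
    2 * ip (D.Tj L j x) (grad u.u x) - 2 * ip (D.Tj L j x) (Ai.C S0)) with hfA
  set fB : V d → ℝ := fun x => D.J / α * (∑ j, s j ^ 2 * nsq (D.Tj L j x - oo (zv (D.u j))))
    with hfB
  set fI : V d → ℝ := Set.indicator {x : V d | ∃ i, pd (x i) ≤ D.h} (fun _ => cI) with hfI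
  have hpt : ∀ x, fA x + Ai.Q S0 - fB x - fI x ≤ (T x).Q (ε + sg u.u x) := by
    intro x
    have h1 := pt_ineq D hα hP hI hL hz ⟨α, hα, hC⟩ hF hG hT s n hs x (ε + sg u.u x)
    set τ := ∑ j, s j • D.Tj L j x with hτ
    have hτs : symm τ = τ := by
      rw [hτ]; simp only [symm_sum, symm_smul, symm_Tj]
    have e1 : ip τ (ε + sg u.u x) = ip τ ε + ip τ (grad u.u x) := by
      rw [ip_add_right]
      congr 1
      exact ip_eq_symm _ _ hτs
    have e2 : Inv C τ = Ai.Q S0 + 2 * (ip τ (Ai.C S0) - Ai.Q S0) + Ai.Q (τ - S0) := by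
      rw [hInv]
      have h2 := Ai.Q_add S0 (τ - S0)
      have h3 : S0 + (τ - S0) = τ := by abel
      rw [h3, ip_sub_right] at h2
      rw [h2, ip_comm (Ai.C S0) τ]
      rfl
    have e3 : Ai.Q (τ - S0) ≤ fB x := by
      refine (inv_bound hα hC hA.psd hCA _).trans ?_
      have h2 : τ - S0 = ∑ j, s j • (D.Tj L j x - oo (zv (D.u j))) := by
        rw [hτ, hS0, ← Finset.sum_sub_distrib]
        exact Finset.sum_congr rfl fun j _ => (smul_sub _ _ _).symm
      rw [h2]
      have h3 := nsq_sum_le Finset.univ (fun j => s j • (D.Tj L j x - oo (zv (D.u j))))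
      rw [Finset.card_univ, Fintype.card_fin] at h3
      have h4 : ∑ j, nsq (s j • (D.Tj L j x - oo (zv (D.u j)))) =
          ∑ j, s j ^ 2 * nsq (D.Tj L j x - oo (zv (D.u j))) :=
        Finset.sum_congr rfl fun j _ => nsq_smul _ _
      rw [h4] at h3
      calc nsq (∑ j, s j • (D.Tj L j x - oo (zv (D.u j)))) / α
          ≤ (D.J * ∑ j, s j ^ 2 * nsq (D.Tj L j x - oo (zv (D.u j)))) / α :=
            div_le_div_of_nonneg_right h3 hα.le
        _ = fB x := by rw [hfB]; ring
    have e4 : fA x = 2 * ip τ ε + 2 * ip τ (grad u.u x) - 2 * ip τ (Ai.C S0) := by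
      rw [hfA, hτ, ip_sum_left, ip_sum_left, ip_sum_left]
      simp only [ip_smul_left, Finset.mul_sum, ← Finset.sum_add_distrib, ← Finset.sum_sub_distrib]
      exact Finset.sum_congr rfl fun j _ => by ring
    rw [e1, e2] at h1
    rw [e4]
    linarith
  have iA : Integrable fA (volume.restrict (cell d)) := by
    apply intOn
    rw [hfA]
    exact continuous_finsetSum _ fun j _ => continuous_const.mul
      (((continuous_const.mul (c1 j)).add (continuous_const.mul (c2 j))).sub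
        (continuous_const.mul (c3 j)))
  have iB : Integrable fB (volume.restrict (cell d)) := by
    apply intOn
    rw [hfB]
    exact continuous_const.mul (continuous_finsetSum _ fun j _ => continuous_const.mul (c4 j))
  have hvol : volume (cell d) = 1 := hE.vol
  have : IsFiniteMeasure (volume.restrict (cell d)) := ⟨by
    rw [Measure.restrict_apply_univ, hvol]; exact ENNReal.one_lt_top⟩
  have iI : Integrable fI (volume.restrict (cell d)) :=
    (integrable_const cI).indicator (measurableSet_near D.h)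
  have iC : Integrable (fun _ : V d => Ai.Q S0) (volume.restrict (cell d)) := integrable_const _
  have h1 : ∫ x in cell d, (fA x + Ai.Q S0 - fB x - fI x) ≤ energy T ε u :=
    integral_mono (((iA.add iC).sub iB).sub iI) (hE.int T β hT ε u) hpt
  have h2 : ∫ x in cell d, (fA x + Ai.Q S0 - fB x - fI x) =
      (∫ x in cell d, fA x) + Ai.Q S0 - (∫ x in cell d, fB x) - ∫ x in cell d, fI x := by
    have g1 : ∫ x in cell d, (fA x + Ai.Q S0 - fB x - fI x) =
        (∫ x in cell d, (fA x + Ai.Q S0 - fB x)) - ∫ x in cell d, fI x :=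
      integral_sub (f := fun x => fA x + Ai.Q S0 - fB x) ((iA.add iC).sub iB) iI
    have g2 : ∫ x in cell d, (fA x + Ai.Q S0 - fB x) =
        (∫ x in cell d, (fA x + Ai.Q S0)) - ∫ x in cell d, fB x :=
      integral_sub (f := fun x => fA x + Ai.Q S0) (iA.add iC) iB
    have g3 : ∫ x in cell d, (fA x + Ai.Q S0) =
        (∫ x in cell d, fA x) + ∫ _x in cell d, Ai.Q S0 := integral_add iA iC
    have g4 : ∫ _x in cell d, Ai.Q S0 = Ai.Q S0 := by
      rw [integral_const]
      simp [Measure.real, hvol]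
    rw [g1, g2, g3, g4]
  have h3 : ∫ x in cell d, fA x = ∑ j, s j * (2 * (∫ x in cell d, ip (D.Tj L j x) ε) +
        2 * (∫ x in cell d, ip (D.Tj L j x) (grad u.u x)) -
        2 * (∫ x in cell d, ip (D.Tj L j x) (Ai.C S0))) := by
    rw [hfA, integral_finsetSum]
    · refine Finset.sum_congr rfl fun j _ => ?_
      rw [integral_const_mul]
      congr 1
      rw [integral_sub, integral_add, integral_const_mul, integral_const_mul, integral_const_mul]
      · exact intOn _ (continuous_const.mul (c1 j))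
      · exact intOn _ (continuous_const.mul (c2 j))
      · exact intOn _ ((continuous_const.mul (c1 j)).add (continuous_const.mul (c2 j)))
      · exact intOn _ (continuous_const.mul (c3 j))
    · intro j _
      exact intOn _ (continuous_const.mul
        (((continuous_const.mul (c1 j)).add (continuous_const.mul (c2 j))).sub
        (continuous_const.mul (c3 j))))
  have h4 : ∫ x in cell d, fB x =
      D.J / α * (∑ j, s j ^ 2 * ∫ x in cell d, nsq (D.Tj L j x - oo (zv (D.u j)))) := by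
    rw [hfB, integral_const_mul, integral_finsetSum]
    · congr 1
      exact Finset.sum_congr rfl fun j _ => integral_const_mul _ _
    · intro j _
      exact intOn _ (continuous_const.mul (c4 j))
  have h5 : ∫ x in cell d, fI x ≤ cI * (2 * d * D.h) := by
    rw [hfI, integral_indicator_const _ (measurableSet_near D.h)]
    have h6 : (volume.restrict (cell d)).real {x : V d | ∃ i, pd (x i) ≤ D.h} =
        frac {x : V d | ∃ i, pd (x i) ≤ D.h} := by
      unfold Measure.real frac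
      rw [Measure.restrict_apply (measurableSet_near D.h)]
    rw [h6, smul_eq_mul, mul_comm]
    exact mul_le_mul_of_nonneg_left (hV D D.h (h_pos D).le) hcI0
  rw [h2, h3, h4] at h1
  linarith


/-- algebra of the extremal strain -/
theorem alg {α β : ℝ} (hα : 0 < α) {C : Tens d}
    (hC : ∀ ξ, α * nsq ξ ≤ C.Q ξ ∧ C.Q ξ ≤ β * nsq ξ) (E ε : M d) :
    ∃ s : ℝ, C.Q (ε - s • E) = C.Q ε - (ip (C.C E) ε) ^ 2 / C.Q E ∧
      ip (C.C (ε - s • E)) E = 0 ∧ nsq (C.C (ε - s • E)) ≤ β * C.Q (ε - s • E) := by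
  have hpsd : C.PSD := fun A => le_trans (mul_nonneg hα.le (nsq_nonneg A)) (hC A).1
  refine ⟨ip (C.C E) ε / C.Q E, ?_, ?_, ?_⟩
  · rw [C.Q_sub, C.Q_smul, ip_smul_right, C.ip_comm_C ε E]
    by_cases h : C.Q E = 0
    · rw [h]; simp
    · field_simp; ring
  · rw [map_sub, map_smul, ip_sub_left, ip_smul_left, C.ip_comm_C ε E]
    by_cases h : C.Q E = 0
    · have h1 := Tens.Q_cs hpsd E ε
      rw [h, zero_mul] at h1
      have h2 : ip (C.C E) ε = 0 := pow_eq_zero_iff (two_ne_zero) |>.mp (le_antisymm h1 (sq_nonneg _))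
      rw [h2]; simp
    · have h3 : ip (C.C E) E = C.Q E := rfl
      rw [h3]; field_simp; ring
  · set ζ := ε - (ip (C.C E) ε / C.Q E) • E
    set S0 := C.C ζ with hS0
    have h1 := Tens.Q_cs hpsd ζ S0
    have h2 : ip (C.C ζ) S0 = nsq S0 := by
      unfold nsq; rw [C.symm_C]
    rw [h2] at h1
    have h3 := (hC S0).2
    have h4 := hpsd ζ
    have h5 := nsq_nonneg S0
    rcases eq_or_lt_of_le h5 with h6 | h6
    · rw [← h6]
      rcases le_or_gt 0 β with h7 | h7
      · positivity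
      · have h8 := (hC ζ).1
        have h9 := (hC ζ).2
        have h10 : nsq ζ = 0 := by nlinarith [nsq_nonneg ζ]
        rw [h10] at h9
        have : C.Q ζ = 0 := le_antisymm (by simpa using h9) h4
        rw [this, mul_zero]
    · have h7 : nsq S0 * nsq S0 ≤ nsq S0 * (β * C.Q ζ) := by
        calc nsq S0 * nsq S0 = nsq S0 ^ 2 := by ring
          _ ≤ C.Q ζ * C.Q S0 := h1
          _ ≤ C.Q ζ * (β * nsq S0) := mul_le_mul_of_nonneg_left h3 h4
          _ = _ := by ring
      exact le_of_mul_le_mul_left h7 h6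

theorem ip_dg (S : M d) (E : V d) : ip S (dg E) = ∑ k, S k k * E k := by
  unfold ip dg
  refine Finset.sum_congr rfl fun i _ => ?_
  rw [Finset.sum_eq_single i]
  · simp
  · intro j _ hj; simp [Ne.symm hj]
  · intro h; exact absurd (Finset.mem_univ _) h

end LowerPf

open LowerPf in
theorem Lower_ok (d : ℕ) (hW : StmtWeak d) (hM : StmtMean d) (hZ : StmtZone d) (hC : StmtClose d)
    (hCr : StmtCrude d) (hV : StmtVol d) (hI : StmtInvT d) (hE : BaseE d) : StmtLower d := by
  intro B K σ hσ hσ2 α β hα hαβ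
  obtain ⟨Kc, hKc⟩ := hC K B
  have hβ : 0 < β := hα.trans_le hαβ
  set Γ : ℝ := 18 * d + 72 * ∑ k, (B.kk k : ℝ) ^ 2 with hΓ
  set cσ : ℝ := |K| * β ^ 2 with hcσ
  have hcσ0 : 0 ≤ cσ := by positivity
  refine ⟨(B.J : ℝ) ^ 2 * cσ * |Kc| / α + 2 * d * (cσ * K ^ 2 * Γ ^ 2 / α) + 1, by positivity, ?_⟩
  intro D η hη hη1 hDB hP hL
  subst hDB
  obtain ⟨Lz, hLz⟩ := hZ D K η hP hL
  obtain ⟨Km, hKm⟩ := hM D K η hP hL
  obtain ⟨Lc, hLc⟩ := hKc D η hη rfl hP hL
  obtain ⟨Kr, Lr, hKr0, hLr⟩ := hCr D K η hP hL α β hα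
  have hJ := J_pos D
  have hw := w_pos D
  set AD : ℝ := 2 * D.J * Real.sqrt cσ * |Km| * (1 + Real.sqrt (β / α)) +
    2 * D.J * Real.sqrt cσ * Kr * (Real.sqrt β + 1) with hAD
  have hAD0 : 0 ≤ AD := by positivity
  refine ⟨max (max Lz Lc) (max Lr ⌈AD / D.w⌉₊) + 1, ?_⟩
  intro L hLL C F Ls T hCb hF hS hG hT ε
  have hL0 : 0 < L := by omega
  have hL1 : Lz ≤ L := by
    have := le_max_left Lz Lc; have := le_max_left (max Lz Lc) (max Lr ⌈AD / D.w⌉₊); omega
  have hL2 : Lc ≤ L := by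
    have := le_max_right Lz Lc; have := le_max_left (max Lz Lc) (max Lr ⌈AD / D.w⌉₊); omega
  have hL3 : Lr ≤ L := by
    have := le_max_left Lr ⌈AD / D.w⌉₊
    have := le_max_right (max Lz Lc) (max Lr ⌈AD / D.w⌉₊); omega
  have hL4 : ⌈AD / D.w⌉₊ ≤ L := by
    have := le_max_right Lr ⌈AD / D.w⌉₊
    have := le_max_right (max Lz Lc) (max Lr ⌈AD / D.w⌉₊); omega
  have hLpos : (0 : ℝ) < L := by exact_mod_cast hL0
  have hADL : AD / L ≤ D.w := by
    have h1 : AD / D.w ≤ L := (Nat.le_ceil _).trans (by exact_mod_cast hL4)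
    rw [div_le_iff₀ hw] at h1
    rw [div_le_iff₀ hLpos]; linarith
  have hCPD : C.PD := ⟨α, hα, fun ξ => (hCb ξ).1⟩
  obtain ⟨Ai, hAi, hInv, hInv2, hAi2⟩ := hI C hCPD
  obtain ⟨s, hs1, hs2, hs3⟩ := alg hα hCb (dg D.E) ε
  set E := dg D.E with hEdef
  set ζ := ε - s • E with hζ
  set S0 := C.C ζ with hS0
  set q0 := C.Q ζ with hq0
  set n := nsq ε with hn
  have hn0 : 0 ≤ n := nsq_nonneg ε
  set r := Real.sqrt n with hr
  have hr0 : 0 ≤ r := Real.sqrt_nonneg _
  have hrr : r * r = n := Real.mul_self_sqrt hn0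
  have hq0n : q0 ≤ β * n := by
    have h1 : 0 ≤ (ip (C.C E) ε) ^ 2 / C.Q E := div_nonneg (sq_nonneg _) (hCPD.psd _)
    rw [hs1]
    have := (hCb ε).2
    linarith
  have hq00 : 0 ≤ q0 := hCPD.psd _
  have hnS : nsq S0 ≤ β * (β * n) := hs3.trans (mul_le_mul_of_nonneg_left hq0n hβ.le)
  have hσn : ∀ j, (σ j S0) ^ 2 ≤ cσ * n := by
    intro j
    calc (σ j S0) ^ 2 ≤ K * nsq S0 := hσ j S0
      _ ≤ |K| * nsq S0 := mul_le_mul_of_nonneg_right (le_abs_self K) (nsq_nonneg _)
      _ ≤ |K| * (β * (β * n)) := mul_le_mul_of_nonneg_left hnS (abs_nonneg _)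
      _ = cσ * n := by rw [hcσ]; ring
  have hS0sum : S0 = ∑ j, σ j S0 • oo (zv (D.u j)) := by
    have := hσ2 S0
    rw [C.symm_C] at this
    exact this
  have hbal : ∑ k, D.E k * ∑ j, σ j S0 * (D.u j k : ℝ) ^ 2 = 0 := by
    have h1 := hs2
    rw [hEdef, ip_dg] at h1
    rw [← h1]
    refine Finset.sum_congr rfl fun k _ => ?_
    rw [mul_comm]
    congr 1
    conv_rhs => rw [hS0sum]
    rw [Finset.sum_apply, Finset.sum_apply]
    refine Finset.sum_congr rfl fun j _ => ?_
    simp only [Pi.smul_apply, smul_eq_mul, oo, zv]; ring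
  have hZeq : Ai.C S0 = symm ζ := (hAi2 ζ).1
  have hnZ : nsq (Ai.C S0) ≤ β / α * n := by
    rw [hZeq, nsq_symm]
    have h1 := (hCb ζ).1
    rw [div_mul_eq_mul_div, le_div_iff₀ hα]
    linarith
  have hAQ : Ai.Q S0 = q0 := by
    show ip (Ai.C S0) S0 = q0
    rw [hZeq, ip_comm]
    exact C.ip_C_symm ζ ζ
  have hSε : ip S0 ε = q0 := by
    have h1 : ε = ζ + s • E := by rw [hζ]; abel
    conv_lhs => rw [h1]
    rw [ip_add_right, ip_smul_right, hs2, mul_zero, add_zero]
    rfl
  apply hE.le_eff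
  intro u
  have hfin0 : 0 ≤ ((D.J : ℝ) ^ 2 * cσ * |Kc| / α + 2 * d * (cσ * K ^ 2 * Γ ^ 2 / α) + 1) *
      (D.w + η) * n := by positivity
  rw [← hs1]
  by_cases hen : β * n < energy T ε u
  · linarith
  · push Not at hen
    have hsen : Real.sqrt (energy T ε u) ≤ Real.sqrt β * r := by
      rw [hr, ← Real.sqrt_mul hβ.le]
      exact Real.sqrt_le_sqrt hen
    have h1 := int_ineq D hα hP hL hI hE hV hL0 (hLz L hL1 hL0) (fun ξ => (hCb ξ).1) hAi hInv
      (fun ξ => (hAi2 ξ).2) hF hG hT (fun j => σ j S0) (cσ * n) hσn S0 hS0sum ε u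
    set a : Fin D.J → ℝ := fun j => ∫ x in cell d, ip (D.Tj L j x) ε with ha
    set b : Fin D.J → ℝ := fun j => ∫ x in cell d, ip (D.Tj L j x) (grad u.u x) with hb
    set c : Fin D.J → ℝ := fun j => ∫ x in cell d, ip (D.Tj L j x) (Ai.C S0) with hc
    set e : Fin D.J → ℝ := fun j => ∫ x in cell d, nsq (D.Tj L j x - oo (zv (D.u j))) with he
    have hσabs : ∀ j, |σ j S0| ≤ Real.sqrt cσ * r := by
      intro j
      rw [← Real.sqrt_sq_eq_abs, hr, ← Real.sqrt_mul hcσ0]
      exact Real.sqrt_le_sqrt (hσn j)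
    have hσsum : ∑ j, |σ j S0| ≤ D.J * (Real.sqrt cσ * r) := by
      calc ∑ j, |σ j S0| ≤ ∑ _j : Fin D.J, Real.sqrt cσ * r := Finset.sum_le_sum fun j _ => hσabs j
        _ = D.J * (Real.sqrt cσ * r) := by simp
    have hσsum0 : 0 ≤ ∑ j, |σ j S0| := Finset.sum_nonneg fun _ _ => abs_nonneg _
    -- mean values
    have hKmL : 0 ≤ |Km| / L := by positivity
    have hsZ : Real.sqrt (nsq (Ai.C S0)) ≤ Real.sqrt (β / α) * r := by
      rw [hr, ← Real.sqrt_mul (by positivity)]
      exact Real.sqrt_le_sqrt hnZ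
    have ham : ∀ j, |a j - ip (oo (zv (D.u j))) ε| ≤ |Km| / L * r := by
      intro j
      refine (hKm L hL0 j ε).trans ?_
      exact mul_le_mul_of_nonneg_right (div_le_div_of_nonneg_right (le_abs_self _) hLpos.le) hr0
    have hcm : ∀ j, |c j - ip (oo (zv (D.u j))) (Ai.C S0)| ≤ |Km| / L * (Real.sqrt (β / α) * r) := by
      intro j
      refine (hKm L hL0 j (Ai.C S0)).trans ?_
      exact mul_le_mul (div_le_div_of_nonneg_right (le_abs_self _) hLpos.le) hsZ
        (Real.sqrt_nonneg _) hKmL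
    have hA1 : ∑ j, σ j S0 * (2 * a j - 2 * c j) ≥ 2 * ip S0 ε - 2 * ip S0 (Ai.C S0) -
        2 * (D.J * (Real.sqrt cσ * r)) * (|Km| / L * (r + Real.sqrt (β / α) * r)) := by
      have e1 : ip S0 ε = ∑ j, σ j S0 * ip (oo (zv (D.u j))) ε := by
        conv_lhs => rw [hS0sum]
        rw [ip_sum_left]
        exact Finset.sum_congr rfl fun j _ => ip_smul_left _ _ _
      have e2 : ip S0 (Ai.C S0) = ∑ j, σ j S0 * ip (oo (zv (D.u j))) (Ai.C S0) := by
        conv_lhs => rw [show ip S0 (Ai.C S0) = ip (∑ j, σ j S0 • oo (zv (D.u j))) (Ai.C S0) by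
          rw [← hS0sum]]
        rw [ip_sum_left]
        exact Finset.sum_congr rfl fun j _ => ip_smul_left _ _ _
      have e3 : (2 * ip S0 ε - 2 * ip S0 (Ai.C S0)) - ∑ j, σ j S0 * (2 * a j - 2 * c j) =
          ∑ j, σ j S0 * (-(2 * (a j - ip (oo (zv (D.u j))) ε)) +
            2 * (c j - ip (oo (zv (D.u j))) (Ai.C S0))) := by
        rw [e1, e2, Finset.mul_sum, Finset.mul_sum, ← Finset.sum_sub_distrib,
          ← Finset.sum_sub_distrib]
        exact Finset.sum_congr rfl fun j _ => by ring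
      have e4 : ∑ j, σ j S0 * (-(2 * (a j - ip (oo (zv (D.u j))) ε)) +
            2 * (c j - ip (oo (zv (D.u j))) (Ai.C S0))) ≤
          ∑ j, |σ j S0| * (2 * (|Km| / L * (r + Real.sqrt (β / α) * r))) := by
        refine Finset.sum_le_sum fun j _ => ?_
        refine (le_abs_self _).trans ?_
        rw [abs_mul]
        refine mul_le_mul_of_nonneg_left ?_ (abs_nonneg _)
        refine (abs_add_le _ _).trans ?_
        rw [abs_neg, abs_mul, abs_mul, abs_two]
        have := ham j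
        have := hcm j
        linarith
      rw [← Finset.sum_mul] at e4
      have e5 : (∑ j, |σ j S0|) * (2 * (|Km| / L * (r + Real.sqrt (β / α) * r))) ≤
          (D.J * (Real.sqrt cσ * r)) * (2 * (|Km| / L * (r + Real.sqrt (β / α) * r))) :=
        mul_le_mul_of_nonneg_right hσsum (by positivity)
      linarith
    -- the work of the forces
    have hB1 : |∑ j, σ j S0 * b j| ≤ Kr / L * (D.J * (Real.sqrt cσ * r)) *
        (Real.sqrt β * r + r) := by
      have e1 : ∑ j, σ j S0 * b j =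
          - ∑ k, ∑ j, σ j S0 * ∫ x in cell d, (D.bf L k j x) * u.u x (D.l k) := by
        rw [Finset.sum_comm, ← Finset.sum_neg_distrib]
        refine Finset.sum_congr rfl fun j _ => ?_
        have h2 := hW D K η hP hL L hL0 j u
        rw [hb]
        show σ j S0 * (∫ x in cell d, ip (D.Tj L j x) (grad u.u x)) = _
        rw [h2, ← Finset.mul_sum]; ring
      rw [e1, abs_neg]
      refine (hLr L hL3 hL0 C F Ls T (fun ξ => (hCb ξ).1) hF hS hG hT (fun j => σ j S0) hbal
        ε u).trans ?_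
      refine mul_le_mul ?_ (add_le_add hsen le_rfl) (by positivity) (by positivity)
      exact mul_le_mul_of_nonneg_left hσsum (by positivity)
    -- the L² term
    have hE1 : D.J / α * (∑ j, σ j S0 ^ 2 * e j) ≤
        ((D.J : ℝ) ^ 2 * cσ * |Kc| / α) * (D.w + η) * n := by
      have e1 : ∑ j, σ j S0 ^ 2 * e j ≤ ∑ _j : Fin D.J, (cσ * n) * (|Kc| * (D.w + η)) := by
        refine Finset.sum_le_sum fun j _ => ?_
        have h2 : e j ≤ |Kc| * (D.w + η) :=
          (hLc L hL2 j).trans (mul_le_mul_of_nonneg_right (le_abs_self _) (by positivity))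
        have h3 : 0 ≤ e j := integral_nonneg fun x => nsq_nonneg _
        exact mul_le_mul (hσn j) h2 h3 (by positivity)
      rw [Finset.sum_const, Finset.card_univ, Fintype.card_fin, nsmul_eq_mul] at e1
      calc D.J / α * (∑ j, σ j S0 ^ 2 * e j)
          ≤ D.J / α * (D.J * ((cσ * n) * (|Kc| * (D.w + η)))) :=
            mul_le_mul_of_nonneg_left e1 (by positivity)
        _ = _ := by ring
    have hI1 : cσ * n * K ^ 2 * (18 * d + 72 * ∑ k, (D.kk k : ℝ) ^ 2) ^ 2 / α * (2 * d * D.h) ≤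
        (2 * d * (cσ * K ^ 2 * Γ ^ 2 / α)) * (D.w + η) * n := by
      have h2 : D.h ≤ D.w + η := (h_le_w D).trans (by linarith)
      calc cσ * n * K ^ 2 * (18 * d + 72 * ∑ k, (D.kk k : ℝ) ^ 2) ^ 2 / α * (2 * d * D.h)
          = ((2 * d * (cσ * K ^ 2 * Γ ^ 2 / α)) * n) * D.h := by rw [hΓ]; ring
        _ ≤ ((2 * d * (cσ * K ^ 2 * Γ ^ 2 / α)) * n) * (D.w + η) :=
            mul_le_mul_of_nonneg_left h2 (by positivity)
        _ = _ := by ring
    have hLerr : 2 * (D.J * (Real.sqrt cσ * r)) * (|Km| / L * (r + Real.sqrt (β / α) * r)) +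
        2 * (Kr / L * (D.J * (Real.sqrt cσ * r)) * (Real.sqrt β * r + r)) ≤ (D.w + η) * n := by
      have e1 : 2 * (D.J * (Real.sqrt cσ * r)) * (|Km| / L * (r + Real.sqrt (β / α) * r)) +
        2 * (Kr / L * (D.J * (Real.sqrt cσ * r)) * (Real.sqrt β * r + r)) = AD / L * (r * r) := by
        rw [hAD]; ring
      rw [e1, hrr]
      exact mul_le_mul_of_nonneg_right (hADL.trans (by linarith)) hn0
    have hsplit : ∑ j, σ j S0 * (2 * a j + 2 * b j - 2 * c j) =
        ∑ j, σ j S0 * (2 * a j - 2 * c j) + 2 * ∑ j, σ j S0 * b j := by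
      rw [Finset.mul_sum, ← Finset.sum_add_distrib]
      exact Finset.sum_congr rfl fun j _ => by ring
    have hSZ : ip S0 (Ai.C S0) = q0 := by
      rw [ip_comm]; exact hAQ
    have hb2 := (abs_le.1 hB1).1
    rw [hSε, hSZ] at hA1
    have h1' : ∑ j, σ j S0 * (2 * a j + 2 * b j - 2 * c j) + Ai.Q S0 -
      D.J / α * (∑ j, σ j S0 ^ 2 * e j) -
      cσ * n * K ^ 2 * (18 * d + 72 * ∑ k, (D.kk k : ℝ) ^ 2) ^ 2 / α * (2 * d * D.h) ≤
      energy T ε u := h1
    rw [hsplit, hAQ] at h1'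
    have hexp : ((D.J : ℝ) ^ 2 * cσ * |Kc| / α + 2 * d * (cσ * K ^ 2 * Γ ^ 2 / α) + 1) *
        (D.w + η) * n = ((D.J : ℝ) ^ 2 * cσ * |Kc| / α) * (D.w + η) * n +
        (2 * d * (cσ * K ^ 2 * Γ ^ 2 / α)) * (D.w + η) * n + (D.w + η) * n := by ring
    rw [hexp]
    linarith

end Pool.Agent.Lib.MP_5df1bf_an
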