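import Pool.Agent.Lib.MP_5df1bf_an.Stmts2

/-!
# MP_5df1bf_an: mean value of the stress (C2)
-/

open MeasureTheory Filter Topology
open scoped BigOperators ContDiff

noncomputable section

namespace Pool.Agent.Lib.MP_5df1bf_an

variable {d : ℕ}

namespace MeanPf

theorem intg {f : V d → ℝ} (hf : Continuous f) : IntegrableOn f (cell d) :=
  hf.continuousOn.integrableOn_compact isCompact_Icc

theorem vol_cell : volume (cell d) = 1 := by
  unfold cell
  rw [Real.volume_Icc_pi]
  simp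

theorem single_smul (l : Fin d) (a : ℝ) : (Pi.single l a : V d) = a • (Pi.single l 1 : V d) := by
  ext i
  simp [Pi.single_apply]

theorem parts_dir (hP : StmtParts d) {f : V d → ℝ} (hf : ContDiff ℝ 1 f) (hper : Per f)
    (v : V d) : ∫ x in cell d, fderiv ℝ f x v = 0 := by
  have h : (v : V d) = ∑ j, v j • (Pi.single j 1 : V d) := by
    ext i
    simp [Finset.sum_apply, Pi.single_apply]
  have hc : ∀ w : V d, Continuous (fun x => fderiv ℝ f x w) := fun w =>
    (hf.continuous_fderiv (by norm_num)).clm_apply continuous_const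
  have h1 : (fun x => fderiv ℝ f x v) = fun x => ∑ j, v j * fderiv ℝ f x (Pi.single j 1) := by
    ext x
    conv_lhs => rw [h]
    rw [map_sum]
    simp only [map_smul, smul_eq_mul]
  rw [h1, integral_finsetSum _ fun j _ => (intg (hc _)).const_mul _]
  refine Finset.sum_eq_zero fun j _ => ?_
  rw [integral_const_mul, hP f hf hper j, mul_zero]

theorem fderiv_proj {φ : ℝ → ℝ} (hφ : Differentiable ℝ φ) (k : Fin d) (x v : V d) :
    fderiv ℝ (fun x : V d => φ (x k)) x v = deriv φ (x k) * v k := by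
  have h1 : HasFDerivAt (fun x : V d => x k) (ContinuousLinearMap.proj k : V d →L[ℝ] ℝ) x :=
    (ContinuousLinearMap.proj k : V d →L[ℝ] ℝ).hasFDerivAt
  have h2 := (hφ (x k)).hasDerivAt.comp_hasFDerivAt x h1
  have h3 : fderiv ℝ (fun x : V d => φ (x k)) x =
      deriv φ (x k) • (ContinuousLinearMap.proj k : V d →L[ℝ] ℝ) := h2.fderiv
  rw [h3]
  rfl

theorem per_proj {φ : ℝ → ℝ} (hφ : ∀ t, φ (t + 1) = φ t) (k : Fin d) :
    Per (fun x : V d => φ (x k)) := by
  intro x i
  dsimp only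
  by_cases h : i = k
  · subst h
    simp [hφ]
  · simp [Pi.single_eq_of_ne (Ne.symm h)]

theorem per_mul {f g : V d → ℝ} (hf : Per f) (hg : Per g) : Per (fun x => f x * g x) := by
  intro x i
  dsimp only
  rw [hf x i, hg x i]

theorem per_fderiv {f : V d → ℝ} (hf : Per f) (v : V d) : Per (fun x => fderiv ℝ f x v) := by
  intro x i
  dsimp only
  have h : (fun y => f (y + Pi.single i 1)) = f := by
    funext y
    exact hf y i
  rw [← fderiv_comp_add_right, h]

theorem deriv_per {φ : ℝ → ℝ} (hφ : ∀ t, φ (t + 1) = φ t) (t : ℝ) :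
    deriv φ (t + 1) = deriv φ t := by
  have h : (fun s => φ (s + 1)) = φ := by
    funext s
    exact hφ s
  rw [← deriv_comp_add_const, h]

theorem smooth_fderiv {f : V d → ℝ} (hf : ContDiff ℝ ∞ f) (v : V d) :
    ContDiff ℝ ∞ (fun x => fderiv ℝ f x v) := by
  have h : ContDiff ℝ ∞ (fderiv ℝ f) := hf.fderiv_right (m := ∞) (by simp)
  exact h.clm_apply contDiff_const

theorem smooth_deriv {φ : ℝ → ℝ} (hφ : ContDiff ℝ ∞ φ) : ContDiff ℝ ∞ (deriv φ) := by
  have h := (contDiff_infty_iff_deriv.mp hφ).2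
  exact h

theorem smooth_proj {φ : ℝ → ℝ} (hφ : ContDiff ℝ ∞ φ) (k : Fin d) :
    ContDiff ℝ ∞ (fun x : V d => φ (x k)) :=
  hφ.comp (contDiff_apply ℝ ℝ k)

theorem fderiv_mul_apply {f g : V d → ℝ} (hf : ContDiff ℝ ∞ f) (hg : ContDiff ℝ ∞ g)
    (x v : V d) : fderiv ℝ (fun y => f y * g y) x v =
      f x * fderiv ℝ g x v + g x * fderiv ℝ f x v := by
  have h1 : DifferentiableAt ℝ f x := (hf.differentiable (by simp)) x
  have h2 : DifferentiableAt ℝ g x := (hg.differentiable (by simp)) x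
  rw [fderiv_fun_mul h1 h2]
  rfl

theorem fderiv_inv {G : V d → ℝ} (hG : ContDiff ℝ ∞ G) {u : V d}
    (hu : ∀ x (t : ℝ), G (x + t • u) = G x) (x : V d) : fderiv ℝ G x u = 0 := by
  have h1 : HasDerivAt (fun t : ℝ => x + t • u) u 0 := by
    have h := ((hasDerivAt_id (0 : ℝ)).smul_const u).const_add x
    simpa using h
  have h2 : HasFDerivAt G (fderiv ℝ G x) (x + (0 : ℝ) • u) := by
    rw [zero_smul, add_zero]
    exact (hG.differentiable (by simp) x).hasFDerivAt
  have h3 : HasDerivAt (fun t : ℝ => G (x + t • u)) (fderiv ℝ G x u) 0 :=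
    h2.comp_hasDerivAt 0 h1
  have h4 : (fun t : ℝ => G (x + t • u)) = fun _ => G x := by
    funext t
    exact hu x t
  rw [h4] at h3
  exact h3.unique (hasDerivAt_const _ _)

theorem oo_add_smul (a b : V d) (c : ℝ) :
    oo (a + c • b) = oo a + (2 * c) • sd a b + c ^ 2 • oo b := by
  ext i j
  simp only [oo, sd, Pi.add_apply, Pi.smul_apply, smul_eq_mul]
  ring

/-! ### shears -/

section shear

variable (φ : ℝ → ℝ) (k l : Fin d)

/-- the shear `x ↦ x - φ (x k) e_l` -/
def shr (x : V d) : V d := x - φ (x k) • (Pi.single l 1 : V d)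

variable {φ k l}

theorem shr_smooth (hφ : ContDiff ℝ ∞ φ) : ContDiff ℝ ∞ (shr φ k l) :=
  contDiff_id.sub ((smooth_proj hφ k).smul contDiff_const)

theorem shr_fderiv (hφ : ContDiff ℝ ∞ φ) (x v : V d) :
    fderiv ℝ (shr φ k l) x v = v - (deriv φ (x k) * v k) • (Pi.single l 1 : V d) := by
  have h1 : DifferentiableAt ℝ (fun x : V d => φ (x k)) x :=
    ((smooth_proj hφ k).differentiable (by simp)) x
  have h2 : HasFDerivAt (shr φ k l)
      (ContinuousLinearMap.id ℝ (V d) -
        (fderiv ℝ (fun x : V d => φ (x k)) x).smulRight (Pi.single l 1 : V d)) x :=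
    (hasFDerivAt_id x).sub (h1.hasFDerivAt.smul_const _)
  rw [h2.fderiv]
  show v - (fderiv ℝ (fun x : V d => φ (x k)) x v) • (Pi.single l 1 : V d) = _
  rw [fderiv_proj (hφ.differentiable (by simp))]

theorem shr_per (hφ : ∀ t, φ (t + 1) = φ t) (x : V d) (i : Fin d) :
    shr φ k l (x + Pi.single i 1) = shr φ k l x + Pi.single i 1 := by
  have h := per_proj hφ k x i
  dsimp only at h
  unfold shr
  rw [h]
  abel

theorem shr_comp_per {P : V d → ℝ} (hP : Per P) (hφ : ∀ t, φ (t + 1) = φ t) :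
    Per (fun x => P (shr φ k l x)) := by
  intro x i
  dsimp only
  rw [shr_per hφ, hP]

theorem shr_comp_fderiv {P : V d → ℝ} (hP : ContDiff ℝ ∞ P) (hφ : ContDiff ℝ ∞ φ) (x v : V d) :
    fderiv ℝ (fun x => P (shr φ k l x)) x v =
      fderiv ℝ P (shr φ k l x) (v - (deriv φ (x k) * v k) • (Pi.single l 1 : V d)) := by
  have h1 : DifferentiableAt ℝ P (shr φ k l x) := (hP.differentiable (by simp)) _
  have h2 : DifferentiableAt ℝ (shr φ k l) x := ((shr_smooth hφ).differentiable (by simp)) _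
  have h3 := h1.hasFDerivAt.comp x h2.hasFDerivAt
  have h4 : fderiv ℝ (fun x => P (shr φ k l x)) x =
      (fderiv ℝ P (shr φ k l x)).comp (fderiv ℝ (shr φ k l) x) := h3.fderiv
  rw [h4, ContinuousLinearMap.comp_apply, shr_fderiv hφ]

/-- shears preserve integrals of periodic functions -/
theorem shr_integral (hPa : StmtParts d) (hkl : l ≠ k) {P : V d → ℝ} (hP : ContDiff ℝ ∞ P)
    (hPer : Per P) (hφ : ContDiff ℝ ∞ φ) (hφp : ∀ t, φ (t + 1) = φ t) :
    ∫ x in cell d, P (shr φ k l x) = ∫ x in cell d, P x := by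
  set e : V d := Pi.single l 1 with he
  -- the scaled shears
  have hsc : ∀ s : ℝ, ContDiff ℝ ∞ (fun t => s * φ t) := fun s => contDiff_const.mul hφ
  have hscp : ∀ s : ℝ, ∀ t, s * φ (t + 1) = s * φ t := fun s t => by rw [hφp]
  have hz : ∀ s : ℝ, ∫ x in cell d, φ (x k) * fderiv ℝ P (x - (s * φ (x k)) • e) e = 0 := by
    intro s
    have h1 := parts_dir hPa (f := fun x => φ (x k) * P (shr (fun t => s * φ t) k l x))
      (((smooth_proj hφ k).mul (hP.comp (shr_smooth (hsc s)))).of_le (by simp))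
      (per_mul (per_proj hφp k) (shr_comp_per hPer (hscp s))) e
    rw [← h1]
    congr 1
    ext x
    have h2 := fderiv_mul_apply (smooth_proj hφ k) (hP.comp (shr_smooth (k := k) (l := l) (hsc s)))
      x e
    have h3 := shr_comp_fderiv (k := k) (l := l) hP (hsc s) x e
    have h4 : e k = 0 := by
      rw [he]
      exact Pi.single_eq_of_ne (Ne.symm hkl) _
    have h5 := fderiv_proj (hφ.differentiable (by simp)) k x e
    simp only [Function.comp_def] at h2
    rw [h2, h3, h5, h4]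
    simp only [mul_zero, zero_smul, sub_zero, add_zero]
    rfl
  have hc : Continuous (fun p : V d × ℝ => φ (p.1 k) * fderiv ℝ P (p.1 - (p.2 * φ (p.1 k)) • e) e) := by
    have h1 : Continuous (fun y => fderiv ℝ P y e) := (smooth_fderiv hP e).continuous
    have h2 : Continuous (fun p : V d × ℝ => φ (p.1 k)) := by
      have := hφ.continuous
      fun_prop
    refine h2.mul (h1.comp ?_)
    exact continuous_fst.sub ((continuous_snd.mul h2).smul continuous_const)
  have hint : Integrable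
      (fun p : V d × ℝ => φ (p.1 k) * fderiv ℝ P (p.1 - (p.2 * φ (p.1 k)) • e) e)
      ((volume.restrict (cell d)).prod (volume.restrict (Set.Ioc (0 : ℝ) 1))) := by
    rw [Measure.prod_restrict]
    exact (hc.continuousOn.integrableOn_compact (K := cell d ×ˢ Set.Icc (0 : ℝ) 1)
      (isCompact_Icc.prod isCompact_Icc)).mono_set
      (Set.prod_mono (Set.Subset.refl _) Set.Ioc_subset_Icc_self)
  have hpt : ∀ x, P (shr φ k l x) - P x =
      - ∫ s in (0 : ℝ)..1, φ (x k) * fderiv ℝ P (x - (s * φ (x k)) • e) e := by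
    intro x
    have hd : ∀ s : ℝ, HasDerivAt (fun s : ℝ => P (x - (s * φ (x k)) • e))
        (-(φ (x k) * fderiv ℝ P (x - (s * φ (x k)) • e) e)) s := by
      intro s
      have h1 : HasDerivAt (fun s : ℝ => x - (s * φ (x k)) • e) (-(φ (x k) • e)) s := by
        have h := (((hasDerivAt_id s).mul_const (φ (x k))).smul_const e).const_sub x
        simpa using h
      have h2 := ((hP.differentiable (by simp)) (x - (s * φ (x k)) • e)).hasFDerivAt
      have h3 := h2.comp_hasDerivAt s h1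
      rw [map_neg, map_smul, smul_eq_mul] at h3
      exact h3
    have hcs : Continuous (fun s : ℝ => -(φ (x k) * fderiv ℝ P (x - (s * φ (x k)) • e) e)) := by
      have h4 : Continuous (fun s : ℝ => ((x, s) : V d × ℝ)) := by fun_prop
      exact (hc.comp h4).neg
    have h5 := intervalIntegral.integral_eq_sub_of_hasDerivAt (fun s _ => hd s)
      (hcs.intervalIntegrable 0 1)
    rw [intervalIntegral.integral_neg] at h5
    have h6 : P (x - ((1 : ℝ) * φ (x k)) • e) = P (shr φ k l x) := by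
      rw [one_mul]; rfl
    have h7 : P (x - ((0 : ℝ) * φ (x k)) • e) = P x := by
      rw [zero_mul, zero_smul, sub_zero]
    rw [h6, h7] at h5
    exact h5.symm
  have h8 : ∫ x in cell d, (P (shr φ k l x) - P x) = 0 := by
    simp only [hpt]
    rw [integral_neg]
    have h9 : ∫ x in cell d, ∫ s in (0 : ℝ)..1,
        φ (x k) * fderiv ℝ P (x - (s * φ (x k)) • e) e = 0 := by
      simp only [intervalIntegral.integral_of_le zero_le_one]
      rw [integral_integral_swap hint]
      simp only [hz, integral_zero]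
    rw [h9, neg_zero]
  rw [integral_sub (f := fun x => P (shr φ k l x)) (g := P)
    (intg (hP.comp (shr_smooth hφ)).continuous) (intg hP.continuous)] at h8
  linarith

end shear

/-! ### the terms of the mean value -/

section terms

variable {D : Dat d} {K η : ℝ}

theorem xs_eq (D : Dat d) (L : ℕ) (k : Fin d) (x : V d) :
    D.xs L k x = shr (fun t => (D.kk k : ℝ) / L * D.mu t) k (D.l k) x := by
  unfold Dat.xs Dat.sh shr
  rw [single_smul]

/-- smooth functions on the cell are integrable -/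
theorem ig {f : V d → ℝ} (hf : ContDiff ℝ ∞ f) : IntegrableOn f (cell d) := intg hf.continuous

/-- (2) -/
theorem int_psi_P (hPa : StmtParts d) (hp : D.Prof K) (hl : D.Lin K η) (j : Fin D.J) (k : Fin d) :
    ∫ x in cell d, D.psi (x k) * (D.P k j x - D.r j x) = 0 := by
  have hG1 := smooth_fderiv (hl.G_sm k j) (Pi.single (D.l k) 1)
  have hpsi := smooth_proj hp.psi_sm k
  rw [← parts_dir hPa (f := fun x => D.psi (x k) * fderiv ℝ (D.G k j) x (Pi.single (D.l k) 1))
    ((hpsi.mul hG1).of_le (by simp))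
    (per_mul (per_proj hp.psi_per k) (per_fderiv (hl.G_per k j) _)) (Pi.single (D.l k) 1)]
  congr 1
  ext x
  rw [fderiv_mul_apply hpsi hG1, fderiv_proj (hp.psi_sm.differentiable (by simp)),
    Pi.single_eq_of_ne (Ne.symm (D.l_ne k)), hl.P_eq k j x]
  ring

/-- (3) -/
theorem int_dpsi_G (hPa : StmtParts d) (hp : D.Prof K) (hl : D.Lin K η) (j : Fin D.J) (k : Fin d) :
    ∫ x in cell d, deriv D.psi (x k) * fderiv ℝ (D.G k j) x (Pi.single (D.l k) 1) = 0 := by
  have hd := smooth_deriv hp.psi_sm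
  have hpsi := smooth_proj hd k
  rw [← parts_dir hPa (f := fun x => deriv D.psi (x k) * D.G k j x)
    ((hpsi.mul (hl.G_sm k j)).of_le (by simp))
    (per_mul (per_proj (deriv_per hp.psi_per) k) (hl.G_per k j)) (Pi.single (D.l k) 1)]
  congr 1
  ext x
  rw [fderiv_mul_apply hpsi (hl.G_sm k j), fderiv_proj (hd.differentiable (by simp)),
    Pi.single_eq_of_ne (Ne.symm (D.l_ne k))]
  ring

/-- (4) -/
theorem int_ddpsi_G (hPa : StmtParts d) (hp : D.Prof K) (hl : D.Lin K η) (j : Fin D.J)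
    (k : Fin d) : (D.u j k : ℝ) * ∫ x in cell d, deriv (deriv D.psi) (x k) * D.G k j x = 0 := by
  have hd := smooth_deriv hp.psi_sm
  have hpsi := smooth_proj hd k
  rw [← parts_dir hPa (f := fun x => deriv D.psi (x k) * D.G k j x)
    ((hpsi.mul (hl.G_sm k j)).of_le (by simp))
    (per_mul (per_proj (deriv_per hp.psi_per) k) (hl.G_per k j)) (zv (D.u j)),
    ← integral_const_mul]
  congr 1
  ext x
  rw [fderiv_mul_apply hpsi (hl.G_sm k j), fderiv_proj (hd.differentiable (by simp)),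
    fderiv_inv (hl.G_sm k j) (hl.G_u k j)]
  simp only [zv]
  ring

/-- (5a) -/
theorem int_P_xs (hPa : StmtParts d) (hp : D.Prof K) (hl : D.Lin K η) (L : ℕ) (j : Fin D.J)
    (k : Fin d) : ∫ x in cell d, D.P k j (D.xs L k x) = 1 := by
  have h := shr_integral hPa (D.l_ne k) (hl.P_sm k j) (hl.P_per k j)
    (φ := fun t => (D.kk k : ℝ) / L * D.mu t) (contDiff_const.mul hp.mu_sm)
    (fun t => by rw [hp.mu_per])
  simp only [xs_eq]
  rw [h, hl.P_int k j]

theorem P_xs_smooth (hp : D.Prof K) (hl : D.Lin K η) (L : ℕ) (j : Fin D.J)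
    (k : Fin d) : ContDiff ℝ ∞ (fun x => D.P k j (D.xs L k x)) := by
  simp only [xs_eq]
  exact (hl.P_sm k j).comp (shr_smooth (contDiff_const.mul hp.mu_sm))

theorem P_xs_per (hp : D.Prof K) (hl : D.Lin K η) (L : ℕ) (j : Fin D.J)
    (k : Fin d) : Per (fun x => D.P k j (D.xs L k x)) := by
  simp only [xs_eq]
  exact shr_comp_per (hl.P_per k j) (fun t => by rw [hp.mu_per])

theorem P_xs_fderiv (hp : D.Prof K) (hl : D.Lin K η) (L : ℕ) (j : Fin D.J)
    (k : Fin d) (x : V d) : fderiv ℝ (fun x => D.P k j (D.xs L k x)) x (zv (D.u j)) +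
      ((D.kk k : ℝ) / L * D.u j k * deriv D.mu (x k)) *
        fderiv ℝ (fun x => D.P k j (D.xs L k x)) x (Pi.single (D.l k) 1) = 0 := by
  have hφ : ContDiff ℝ ∞ (fun t => (D.kk k : ℝ) / L * D.mu t) := contDiff_const.mul hp.mu_sm
  have hdφ : ∀ t, deriv (fun t => (D.kk k : ℝ) / L * D.mu t) t = (D.kk k : ℝ) / L * deriv D.mu t :=
    fun t => deriv_const_mul _ ((hp.mu_sm.differentiable (by simp)) t)
  simp only [xs_eq]
  rw [shr_comp_fderiv (hl.P_sm k j) hφ, shr_comp_fderiv (hl.P_sm k j) hφ, hdφ,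
    Pi.single_eq_of_ne (Ne.symm (D.l_ne k)), mul_zero, zero_smul, sub_zero, map_sub, map_smul,
    fderiv_inv (hl.P_sm k j) (hl.P_u k j)]
  simp only [zv, smul_eq_mul]
  ring

/-- (5b) -/
theorem int_dmu_P (hPa : StmtParts d) (hp : D.Prof K) (hl : D.Lin K η) (L : ℕ) (j : Fin D.J)
    (k : Fin d) :
    (D.u j k : ℝ) * ∫ x in cell d, deriv D.mu (x k) * D.P k j (D.xs L k x) = 0 := by
  have hPs := P_xs_smooth hp hl L j k
  have hPp := P_xs_per hp hl L j k
  have hd := smooth_deriv hp.mu_sm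
  have hmu := smooth_proj hp.mu_sm k
  have hc : ContDiff ℝ ∞ (fun t => D.mu t * ((D.kk k : ℝ) / L * D.u j k * deriv D.mu t)) :=
    hp.mu_sm.mul (contDiff_const.mul hd)
  have hcp := smooth_proj hc k
  have h1 := parts_dir hPa (f := fun x => D.mu (x k) * D.P k j (D.xs L k x))
    ((hmu.mul hPs).of_le (by simp)) (per_mul (per_proj hp.mu_per k) hPp) (zv (D.u j))
  have h2 := parts_dir hPa
    (f := fun x => (D.mu (x k) * ((D.kk k : ℝ) / L * D.u j k * deriv D.mu (x k))) *
      D.P k j (D.xs L k x))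
    ((hcp.mul hPs).of_le (by simp))
    (per_mul (per_proj (φ := fun t => D.mu t * ((D.kk k : ℝ) / L * D.u j k * deriv D.mu t))
      (fun t => by rw [hp.mu_per, deriv_per hp.mu_per]) k) hPp) (Pi.single (D.l k) 1)
  have i1 : IntegrableOn (fun x => fderiv ℝ (fun x => D.mu (x k) * D.P k j (D.xs L k x)) x
      (zv (D.u j))) (cell d) := ig (smooth_fderiv (hmu.mul hPs) _)
  have i2 : IntegrableOn (fun x => fderiv ℝ (fun x =>
      (D.mu (x k) * ((D.kk k : ℝ) / L * D.u j k * deriv D.mu (x k))) *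
      D.P k j (D.xs L k x)) x (Pi.single (D.l k) 1)) (cell d) := ig (smooth_fderiv (hcp.mul hPs) _)
  have h3 := integral_add i1 i2
  rw [h1, h2, add_zero] at h3
  rw [← integral_const_mul, ← h3]
  congr 1
  ext x
  rw [fderiv_mul_apply hmu hPs, fderiv_mul_apply hcp hPs,
    fderiv_proj (hp.mu_sm.differentiable (by simp)),
    fderiv_proj (φ := fun t => D.mu t * ((D.kk k : ℝ) / L * D.u j k * deriv D.mu t))
      (hc.differentiable (by simp)), Pi.single_eq_of_ne (Ne.symm (D.l_ne k))]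
  have h4 := P_xs_fderiv hp hl L j k x
  simp only [zv] at h4 ⊢
  linear_combination (-(D.mu (x k))) * h4

theorem int6 {f1 f2 f3 f4 f5 f6 : V d → ℝ} (h1 : IntegrableOn f1 (cell d))
    (h2 : IntegrableOn f2 (cell d)) (h3 : IntegrableOn f3 (cell d)) (h4 : IntegrableOn f4 (cell d))
    (h5 : IntegrableOn f5 (cell d)) (h6 : IntegrableOn f6 (cell d)) :
    IntegrableOn (fun x => f1 x - f2 x + f3 x + (f4 x + f5 x + f6 x)) (cell d) ∧
    ∫ x in cell d, (f1 x - f2 x + f3 x + (f4 x + f5 x + f6 x)) =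
      (∫ x in cell d, f1 x) - (∫ x in cell d, f2 x) + (∫ x in cell d, f3 x) +
      ((∫ x in cell d, f4 x) + (∫ x in cell d, f5 x) + ∫ x in cell d, f6 x) := by
  have e1 : IntegrableOn (fun x => f1 x - f2 x) (cell d) := h1.sub h2
  have e2 : IntegrableOn (fun x => f1 x - f2 x + f3 x) (cell d) := e1.add h3
  have e3 : IntegrableOn (fun x => f4 x + f5 x) (cell d) := h4.add h5
  have e4 : IntegrableOn (fun x => f4 x + f5 x + f6 x) (cell d) := e3.add h6
  refine ⟨e2.add e4, ?_⟩
  rw [integral_add e2 e4, integral_add e1 h3, integral_sub h1 h2, integral_add e3 h6,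
    integral_add h4 h5]

theorem abs_ip_single (ε : M d) (l : Fin d) :
    |ip (oo (Pi.single l 1)) ε| ≤ Real.sqrt (nsq ε) := by
  have h1 : ip (oo (Pi.single l 1 : V d)) ε = symm ε l l := by
    rw [ip_oo]
    simp [dot, mulV, symm, Pi.single_apply]
  rw [h1]
  refine Real.abs_le_sqrt ?_
  exact entry_sq_le (symm ε) l l

theorem u_sq (D : Dat d) (j : Fin D.J) (k : Fin d) : (D.u j k : ℝ) ^ 2 ≤ 9 := by
  have h := D.u_rng j k
  have h1 : (1 : ℝ) ≤ D.u j k := by exact_mod_cast h.1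
  have h2 : (D.u j k : ℝ) ≤ 3 := by exact_mod_cast h.2
  nlinarith

end terms

end MeanPf

open MeanPf in
theorem Mean_ok (d : ℕ) (hPa : StmtParts d) : StmtMean d := by
  intro D K η hp hl
  refine ⟨∑ k, 36 * (D.kk k : ℝ) ^ 2 * K, fun L hL j ε => ?_⟩
  set A := ip (oo (zv (D.u j))) ε with hA
  have hLr : (1 : ℝ) ≤ L := by exact_mod_cast hL
  have hL0 : (0 : ℝ) < L := by linarith
  -- pointwise formula
  have hpt : ∀ x, ip (D.Tj L j x) ε = D.r j x * A +
      ∑ k, (A * (D.psi (x k) * (D.P k j x - D.r j x)) -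
        (2 * D.u j k * ip (sd (zv (D.u j)) (Pi.single (D.l k) 1)) ε) *
          (deriv D.psi (x k) * fderiv ℝ (D.G k j) x (Pi.single (D.l k) 1)) +
        (((D.u j k : ℝ) ^ 2 * ip (oo (Pi.single (D.l k) 1)) ε) *
          (deriv (deriv D.psi) (x k) * D.G k j x)) +
        (A * (D.P k j (D.xs L k x) - D.P k j x) +
        (2 * ip (sd (zv (D.u j)) (Pi.single (D.l k) 1)) ε * ((D.kk k : ℝ) / L * D.u j k)) *
          (deriv D.mu (x k) * D.P k j (D.xs L k x)) +
        (ip (oo (Pi.single (D.l k) 1)) ε * ((D.kk k : ℝ) / L * D.u j k) ^ 2) *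
          (deriv D.mu (x k) ^ 2 * D.P k j (D.xs L k x)))) := by
    intro x
    have hgv : ∀ k, ip (oo (D.gv L k j x)) ε = A +
        2 * ((D.kk k : ℝ) / L * D.u j k * deriv D.mu (x k)) *
          ip (sd (zv (D.u j)) (Pi.single (D.l k) 1)) ε +
        ((D.kk k : ℝ) / L * D.u j k * deriv D.mu (x k)) ^ 2 *
          ip (oo (Pi.single (D.l k) 1)) ε := by
      intro k
      unfold Dat.gv
      rw [single_smul, oo_add_smul, ip_add_left, ip_add_left, ip_smul_left, ip_smul_left]
    unfold Dat.Tj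
    rw [ip_add_left, ip_add_left, ip_sub_left, ip_add_left, ip_smul_left, ip_sum_left, ip_sum_left,
      ip_sum_left, ip_sum_left, ← hA]
    rw [add_assoc, add_sub_assoc, add_assoc, ← add_assoc (_ - _), ← Finset.sum_sub_distrib,
      ← Finset.sum_add_distrib, ← Finset.sum_add_distrib]
    congr 1
    refine Finset.sum_congr rfl fun k _ => ?_
    rw [ip_smul_left, ip_smul_left, ip_smul_left, ip_sub_left, ip_smul_left, ip_smul_left, hgv k,
      ← hA]
    ring
  -- integrals
  have hd1 := smooth_deriv hp.psi_sm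
  have hd2 := smooth_deriv hd1
  have hdm := smooth_deriv hp.mu_sm
  have I1 : ∀ k, IntegrableOn (fun x => A * (D.psi (x k) * (D.P k j x - D.r j x))) (cell d) :=
    fun k => ig (contDiff_const.mul ((smooth_proj hp.psi_sm k).mul
      ((hl.P_sm k j).sub (hl.r_sm j))))
  have I2 : ∀ k, IntegrableOn (fun x =>
      (2 * D.u j k * ip (sd (zv (D.u j)) (Pi.single (D.l k) 1)) ε) *
        (deriv D.psi (x k) * fderiv ℝ (D.G k j) x (Pi.single (D.l k) 1))) (cell d) :=
    fun k => ig (contDiff_const.mul ((smooth_proj hd1 k).mul (smooth_fderiv (hl.G_sm k j) _)))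
  have I3 : ∀ k, IntegrableOn (fun x =>
      ((D.u j k : ℝ) ^ 2 * ip (oo (Pi.single (D.l k) 1)) ε) *
        (deriv (deriv D.psi) (x k) * D.G k j x)) (cell d) :=
    fun k => ig (contDiff_const.mul ((smooth_proj hd2 k).mul (hl.G_sm k j)))
  have hPx : ∀ k, ContDiff ℝ ∞ (fun x => D.P k j (D.xs L k x)) :=
    fun k => P_xs_smooth hp hl L j k
  have I4 : ∀ k, IntegrableOn (fun x => A * (D.P k j (D.xs L k x) - D.P k j x)) (cell d) :=
    fun k => ig (contDiff_const.mul ((hPx k).sub (hl.P_sm k j)))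
  have I5 : ∀ k, IntegrableOn (fun x =>
      (2 * ip (sd (zv (D.u j)) (Pi.single (D.l k) 1)) ε * ((D.kk k : ℝ) / L * D.u j k)) *
        (deriv D.mu (x k) * D.P k j (D.xs L k x))) (cell d) :=
    fun k => ig (contDiff_const.mul ((smooth_proj hdm k).mul (hPx k)))
  have I6 : ∀ k, IntegrableOn (fun x =>
      (ip (oo (Pi.single (D.l k) 1)) ε * ((D.kk k : ℝ) / L * D.u j k) ^ 2) *
        (deriv D.mu (x k) ^ 2 * D.P k j (D.xs L k x))) (cell d) :=
    fun k => ig (contDiff_const.mul (((smooth_proj hdm k).pow 2).mul (hPx k)))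
  have I0 : IntegrableOn (fun x => D.r j x * A) (cell d) := ig ((hl.r_sm j).mul contDiff_const)
  have hterm : ∀ k, ∫ x in cell d, (A * (D.psi (x k) * (D.P k j x - D.r j x)) -
        (2 * D.u j k * ip (sd (zv (D.u j)) (Pi.single (D.l k) 1)) ε) *
          (deriv D.psi (x k) * fderiv ℝ (D.G k j) x (Pi.single (D.l k) 1)) +
        (((D.u j k : ℝ) ^ 2 * ip (oo (Pi.single (D.l k) 1)) ε) *
          (deriv (deriv D.psi) (x k) * D.G k j x)) +
        (A * (D.P k j (D.xs L k x) - D.P k j x) +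
        (2 * ip (sd (zv (D.u j)) (Pi.single (D.l k) 1)) ε * ((D.kk k : ℝ) / L * D.u j k)) *
          (deriv D.mu (x k) * D.P k j (D.xs L k x)) +
        (ip (oo (Pi.single (D.l k) 1)) ε * ((D.kk k : ℝ) / L * D.u j k) ^ 2) *
          (deriv D.mu (x k) ^ 2 * D.P k j (D.xs L k x)))) =
      (ip (oo (Pi.single (D.l k) 1)) ε * ((D.kk k : ℝ) / L * D.u j k) ^ 2) *
        ∫ x in cell d, deriv D.mu (x k) ^ 2 * D.P k j (D.xs L k x) := by
    intro k
    rw [(int6 (I1 k) (I2 k) (I3 k) (I4 k) (I5 k) (I6 k)).2]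
    simp only [integral_const_mul]
    rw [integral_sub (ig (hPx k)) (ig (hl.P_sm k j)), int_P_xs hPa hp hl, hl.P_int k j,
      int_psi_P hPa hp hl, int_dpsi_G hPa hp hl]
    have h4 := int_ddpsi_G hPa hp hl j k
    have h5 := int_dmu_P hPa hp hl L j k
    linear_combination (D.u j k * ip (oo (Pi.single (D.l k) 1)) ε) * h4 +
      (2 * ip (sd (zv (D.u j)) (Pi.single (D.l k) 1)) ε * ((D.kk k : ℝ) / L)) * h5
  have hIs : ∀ k, IntegrableOn (fun x => A * (D.psi (x k) * (D.P k j x - D.r j x)) -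
        (2 * D.u j k * ip (sd (zv (D.u j)) (Pi.single (D.l k) 1)) ε) *
          (deriv D.psi (x k) * fderiv ℝ (D.G k j) x (Pi.single (D.l k) 1)) +
        (((D.u j k : ℝ) ^ 2 * ip (oo (Pi.single (D.l k) 1)) ε) *
          (deriv (deriv D.psi) (x k) * D.G k j x)) +
        (A * (D.P k j (D.xs L k x) - D.P k j x) +
        (2 * ip (sd (zv (D.u j)) (Pi.single (D.l k) 1)) ε * ((D.kk k : ℝ) / L * D.u j k)) *
          (deriv D.mu (x k) * D.P k j (D.xs L k x)) +
        (ip (oo (Pi.single (D.l k) 1)) ε * ((D.kk k : ℝ) / L * D.u j k) ^ 2) *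
          (deriv D.mu (x k) ^ 2 * D.P k j (D.xs L k x)))) (cell d) :=
    fun k => (int6 (I1 k) (I2 k) (I3 k) (I4 k) (I5 k) (I6 k)).1
  have hint : (∫ x in cell d, ip (D.Tj L j x) ε) - A =
      ∑ k, (ip (oo (Pi.single (D.l k) 1)) ε * ((D.kk k : ℝ) / L * D.u j k) ^ 2) *
        ∫ x in cell d, deriv D.mu (x k) ^ 2 * D.P k j (D.xs L k x) := by
    simp only [hpt]
    rw [integral_add I0 (integrable_finsetSum _ fun k _ => hIs k),
      integral_finsetSum _ fun k _ => hIs k, integral_mul_const, hl.r_int j, one_mul,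
      add_sub_cancel_left]
    exact Finset.sum_congr rfl fun k _ => hterm k
  rw [hint]
  refine (Finset.abs_sum_le_sum_abs _ _).trans ?_
  rw [Finset.sum_div, Finset.sum_mul]
  refine Finset.sum_le_sum fun k _ => ?_
  have hK : 0 ≤ K := (hl.P_rng k j 0).1.trans (hl.P_rng k j 0).2
  have hJ : |∫ x in cell d, deriv D.mu (x k) ^ 2 * D.P k j (D.xs L k x)| ≤ 4 * K := by
    have h := norm_setIntegral_le_of_norm_le_const (μ := volume) (s := cell d)
      (f := fun x => deriv D.mu (x k) ^ 2 * D.P k j (D.xs L k x)) (C := 4 * K)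
      (by rw [MeanPf.vol_cell]; exact ENNReal.one_lt_top) (fun x _ => by
        have h1 := hp.mu_der (x k)
        have h2 := hl.P_rng k j (D.xs L k x)
        rw [Real.norm_eq_abs, abs_mul, abs_of_nonneg h2.1, abs_of_nonneg (sq_nonneg _)]
        have h3 : deriv D.mu (x k) ^ 2 ≤ 4 := by
          rw [← sq_abs]
          have := abs_nonneg (deriv D.mu (x k))
          nlinarith
        exact mul_le_mul h3 h2.2 h2.1 (by norm_num))
    rw [Real.norm_eq_abs, Measure.real, MeanPf.vol_cell] at h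
    simpa using h
  rw [abs_mul, abs_mul, abs_of_nonneg (sq_nonneg ((D.kk k : ℝ) / L * D.u j k))]
  have h1 := abs_ip_single ε (D.l k)
  have h2 := u_sq D j k
  have hs := Real.sqrt_nonneg (nsq ε)
  have h3 : ((D.kk k : ℝ) / L * D.u j k) ^ 2 ≤ 9 * (D.kk k : ℝ) ^ 2 / L := by
    rw [mul_pow, div_pow]
    have h4 : (D.kk k : ℝ) ^ 2 / (L : ℝ) ^ 2 ≤ (D.kk k : ℝ) ^ 2 / L := by
      apply div_le_div_of_nonneg_left (sq_nonneg _) hL0
      nlinarith
    calc (D.kk k : ℝ) ^ 2 / (L : ℝ) ^ 2 * (D.u j k : ℝ) ^ 2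
        ≤ (D.kk k : ℝ) ^ 2 / L * 9 := mul_le_mul h4 h2 (sq_nonneg _) (by positivity)
      _ = 9 * (D.kk k : ℝ) ^ 2 / L := by ring
  calc |ip (oo (Pi.single (D.l k) 1)) ε| * ((D.kk k : ℝ) / L * D.u j k) ^ 2 *
        |∫ x in cell d, deriv D.mu (x k) ^ 2 * D.P k j (D.xs L k x)|
      ≤ Real.sqrt (nsq ε) * (9 * (D.kk k : ℝ) ^ 2 / L) * (4 * K) :=
        mul_le_mul (mul_le_mul h1 h3 (sq_nonneg _) hs) hJ (abs_nonneg _) (by positivity)
    _ = 36 * (D.kk k : ℝ) ^ 2 * K / L * Real.sqrt (nsq ε) := by ring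

end Pool.Agent.Lib.MP_5df1bf_an
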