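import Pool.Agent.Lib.MP_5df1bf_an.Stmts2

/-!
# MP_5df1bf_an: moments of the forces (`StmtWin`, `StmtMom`)
-/

open MeasureTheory Filter Topology
open scoped BigOperators ContDiff

noncomputable section

namespace Pool.Agent.Lib.MP_5df1bf_an

theorem win_ok (d : ℕ) (h1 : StmtShift d) : StmtWin d := by
  intro f hf k
  have h := h1 f hf (-(Pi.single k (1 / 4)))
  rw [← h]
  have hw : win k = (fun x : V d => x + Pi.single k (1 / 4)) ⁻¹' (cell d) := by
    ext x
    simp only [win, cell, Set.mem_Icc, Set.mem_preimage, Pi.le_def, Pi.neg_apply, Pi.sub_apply,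
      Pi.one_apply, Pi.add_apply, Pi.zero_apply]
    constructor
    · rintro ⟨h1, h2⟩
      exact ⟨fun i => by linarith [h1 i], fun i => by linarith [h2 i]⟩
    · rintro ⟨h1, h2⟩
      exact ⟨fun i => by linarith [h1 i], fun i => by linarith [h2 i]⟩
  have mp := measurePreserving_add_right (volume : Measure (V d)) (Pi.single k (1 / 4) : V d)
  have key := mp.setIntegral_preimage_emb
    (MeasurableEquiv.addRight (Pi.single k (1 / 4) : V d)).measurableEmbedding
    (fun y => f (y + -(Pi.single k (1 / 4)))) (cell d)
  rw [← hw] at key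
  rw [← key]
  congr 1
  ext x
  simp

namespace MomAux

variable {d : ℕ}

theorem cell_int {f : V d → ℝ} (hf : Continuous f) : IntegrableOn f (cell d) :=
  hf.integrableOn_Icc

theorem win_int {f : V d → ℝ} (hf : Continuous f) (k : Fin d) : IntegrableOn f (win k) :=
  hf.integrableOn_Icc

theorem eqOn_Icc {f : ℝ → ℝ} (hf : Continuous f) {a b : ℝ} (hab : a < b) {c : ℝ}
    (h : ∀ t, a < t → t < b → f t = c) : ∀ t, a ≤ t → t ≤ b → f t = c := by
  have h1 : closure (Set.Ioo a b) ⊆ {t | f t = c} :=
    closure_minimal (fun t ht => h t ht.1 ht.2) (isClosed_eq hf continuous_const)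
  rw [closure_Ioo (ne_of_lt hab)] at h1
  exact fun t h2 h3 => h1 ⟨h2, h3⟩

/-- a vector field `u + γ(x k) e_l` with `l ≠ k` is divergence free -/
theorem div_free (h3 : StmtParts d) (u : V d) (k l : Fin d) (hlk : l ≠ k) (γ : ℝ → ℝ)
    (hγ : ContDiff ℝ 1 γ) (hγp : ∀ t, γ (t + 1) = γ t) (F : V d → ℝ) (hF : ContDiff ℝ 1 F)
    (hFp : Per F) :
    ∫ x in cell d, fderiv ℝ F x (u + Pi.single l (γ (x k))) = 0 := by
  have hFd : Differentiable ℝ F := hF.differentiable one_ne_zero
  have hc : ∀ v : V d, Continuous fun x => fderiv ℝ F x v := fun v =>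
    (hF.continuous_fderiv one_ne_zero).clm_apply continuous_const
  have hγc : Continuous fun x : V d => γ (x k) := hγ.continuous.comp (continuous_apply k)
  have e : ∀ x : V d, fderiv ℝ F x (u + Pi.single l (γ (x k))) =
      (∑ i, u i * fderiv ℝ F x (Pi.single i 1)) +
        fderiv ℝ (fun y : V d => γ (y k) * F y) x (Pi.single l 1) := by
    intro x
    have hg : HasFDerivAt (fun y : V d => γ (y k))
        ((deriv γ (x k)) • (ContinuousLinearMap.proj k : V d →L[ℝ] ℝ)) x := by
      have h1 := (hγ.differentiable one_ne_zero (x k)).hasDerivAt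
      exact h1.comp_hasFDerivAt x (ContinuousLinearMap.proj k : V d →L[ℝ] ℝ).hasFDerivAt
    have h2 : HasFDerivAt (fun y : V d => γ (y k) * F y) _ x := hg.mul (hFd x).hasFDerivAt
    rw [h2.fderiv, map_add]
    congr 1
    · conv_lhs => rw [← Finset.univ_sum_single u]
      rw [map_sum]
      refine Finset.sum_congr rfl fun i _ => ?_
      have : (Pi.single i (u i) : V d) = u i • Pi.single i (1 : ℝ) := by
        rw [← Pi.single_smul]; simp
      rw [this, map_smul, smul_eq_mul]
    · have : (Pi.single l (γ (x k)) : V d) = γ (x k) • Pi.single l (1 : ℝ) := by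
        rw [← Pi.single_smul]; simp
      rw [this, map_smul, smul_eq_mul]
      simp [hlk.symm]
  simp_rw [e]
  have hG : ContDiff ℝ 1 (fun y : V d => γ (y k) * F y) :=
    (hγ.comp (contDiff_apply ℝ ℝ k)).mul hF
  have hGp : Per (fun y : V d => γ (y k) * F y) := by
    intro x i
    simp only [Pi.add_apply, hFp x i]
    by_cases hik : i = k
    · subst hik; simp [hγp]
    · simp [Pi.single_eq_of_ne (Ne.symm hik)]
  rw [integral_add, integral_finsetSum]
  · rw [h3 _ hG hGp l, add_zero]
    refine Finset.sum_eq_zero fun i _ => ?_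
    rw [integral_const_mul, h3 F hF hFp i, mul_zero]
  · intro i _
    exact (cell_int (hc _)).const_mul _
  · exact integrable_finsetSum _ fun i _ => (cell_int (hc _)).const_mul _
  · exact cell_int ((hG.continuous_fderiv one_ne_zero).clm_apply continuous_const)

theorem fderiv_mul_1d (u : V d) (k l : Fin d) (hlk : l ≠ k) (g : ℝ) (lam : ℝ → ℝ)
    (hl : Differentiable ℝ lam) (G : V d → ℝ) (hG : Differentiable ℝ G) (x : V d) :
    fderiv ℝ (fun y : V d => lam (y k) * G y) x (u + Pi.single l g) =
      deriv lam (x k) * u k * G x + lam (x k) * fderiv ℝ G x (u + Pi.single l g) := by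
  have hg : HasFDerivAt (fun y : V d => lam (y k))
      ((deriv lam (x k)) • (ContinuousLinearMap.proj k : V d →L[ℝ] ℝ)) x := by
    have h1 := (hl (x k)).hasDerivAt
    exact h1.comp_hasFDerivAt x (ContinuousLinearMap.proj k : V d →L[ℝ] ℝ).hasFDerivAt
  have h2 : HasFDerivAt (fun y : V d => lam (y k) * G y) _ x := hg.mul (hG x).hasFDerivAt
  rw [h2.fderiv]
  simp [hlk.symm]
  ring

/-- the mean of `G ρ(x k)` for flow invariant `G` -/
theorem mean_slice (h3 : StmtParts d) (u : V d) (k l : Fin d) (hlk : l ≠ k) (hu : u k ≠ 0)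
    (γ : ℝ → ℝ) (hγ : ContDiff ℝ 1 γ) (hγp : ∀ t, γ (t + 1) = γ t) (G : V d → ℝ)
    (hG : ContDiff ℝ 1 G) (hGp : Per G)
    (hinv : ∀ x, fderiv ℝ G x (u + Pi.single l (γ (x k))) = 0) (ρ : ℝ → ℝ)
    (hρ : Continuous ρ) (hρp : ∀ t, ρ (t + 1) = ρ t) :
    ∫ x in cell d, G x * ρ (x k) = (∫ t in (0 : ℝ)..1, ρ t) * ∫ x in cell d, G x := by
  set m := ∫ t in (0 : ℝ)..1, ρ t with hm
  let lam : ℝ → ℝ := fun t => ∫ s in (0 : ℝ)..t, (ρ s - m)
  have hcont : Continuous fun s => ρ s - m := hρ.sub continuous_const
  have hd : ∀ t, HasDerivAt lam (ρ t - m) t := fun t =>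
    intervalIntegral.integral_hasDerivAt_right (hcont.intervalIntegrable _ _)
      hcont.stronglyMeasurable.stronglyMeasurableAtFilter hcont.continuousAt
  have hde : deriv lam = fun t => ρ t - m := funext fun t => (hd t).deriv
  have hl1 : ContDiff ℝ 1 lam := by
    rw [contDiff_one_iff_deriv]
    exact ⟨fun t => (hd t).differentiableAt, by rw [hde]; exact hcont⟩
  have hper : ∀ t, lam (t + 1) = lam t := by
    intro t
    have h1 : lam (t + 1) = lam t + ∫ s in t..(t + 1), (ρ s - m) := by
      show (∫ s in (0 : ℝ)..(t + 1), (ρ s - m)) = (∫ s in (0 : ℝ)..t, (ρ s - m)) +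
        ∫ s in t..(t + 1), (ρ s - m)
      rw [intervalIntegral.integral_add_adjacent_intervals (hcont.intervalIntegrable _ _)
        (hcont.intervalIntegrable _ _)]
    have hp : Function.Periodic (fun s => ρ s - m) 1 := fun s => by simp [hρp s]
    have h2 : ∫ s in t..(t + 1), (ρ s - m) = ∫ s in (0 : ℝ)..(0 + 1), (ρ s - m) :=
      hp.intervalIntegral_add_eq t 0
    rw [h1, h2, zero_add, intervalIntegral.integral_sub (hρ.intervalIntegrable _ _)
      (continuous_const.intervalIntegrable _ _), ← hm]
    simp
  have hF : ContDiff ℝ 1 (fun y : V d => lam (y k) * G y) :=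
    (hl1.comp (contDiff_apply ℝ ℝ k)).mul hG
  have hFp : Per (fun y : V d => lam (y k) * G y) := by
    intro x i
    simp only [Pi.add_apply, hGp x i]
    by_cases hik : i = k
    · subst hik; simp [hper]
    · simp [Pi.single_eq_of_ne (Ne.symm hik)]
  have key := div_free h3 u k l hlk γ hγ hγp _ hF hFp
  have e : ∀ x : V d, fderiv ℝ (fun y : V d => lam (y k) * G y) x (u + Pi.single l (γ (x k))) =
      u k * (G x * ρ (x k) - m * G x) := by
    intro x
    rw [fderiv_mul_1d u k l hlk _ lam (hl1.differentiable one_ne_zero) G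
      (hG.differentiable one_ne_zero), hinv x, hde]
    ring
  simp_rw [e] at key
  rw [integral_const_mul] at key
  have key2 := (mul_eq_zero.mp key).resolve_left hu
  rw [integral_sub, integral_const_mul, sub_eq_zero] at key2
  · exact key2
  · exact cell_int (hG.continuous.mul (hρ.comp (continuous_apply k)))
  · exact (cell_int hG.continuous).const_mul _

theorem pd_le (t : ℝ) (n : ℤ) : pd t ≤ |t - n| := round_le t n

theorem pd_of_mem {t s : ℝ} (h1 : s ≤ t) (h2 : t ≤ 1 - s) : s ≤ pd t := by
  unfold pd
  rcases le_or_gt (round t) 0 with h | h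
  · have : ((round t : ℤ) : ℝ) ≤ 0 := by exact_mod_cast h
    have := le_abs_self (t - round t)
    linarith
  · have : (1 : ℝ) ≤ ((round t : ℤ) : ℝ) := by exact_mod_cast h
    have := neg_abs_le (t - round t)
    linarith

/-- elementary inequalities between the lengths -/
theorem lengths (D : Dat d) : 0 < D.w ∧ D.w ≤ 1 / 6 ∧ 0 < D.h ∧ 64 * D.h ≤ D.w ∧ 0 < D.b ∧
    64 * D.b = D.h ∧ D.bF = D.h / 4 := by
  have hN : (6 : ℝ) ≤ D.N := by exact_mod_cast Nat.le_of_dvd D.Npos D.Ndvd
  have hJ : (1 : ℝ) ≤ D.J := by exact_mod_cast D.Jpos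
  have hw : 0 < D.w := by unfold Dat.w; positivity
  have hh : 0 < D.h := by unfold Dat.h; positivity
  refine ⟨hw, ?_, hh, ?_, ?_, ?_, rfl⟩
  · unfold Dat.w; exact one_div_le_one_div_of_le (by norm_num) hN
  · have : 64 * D.h = D.w / D.J := by unfold Dat.h; field_simp
    rw [this]; exact div_le_self hw.le hJ
  · unfold Dat.b; positivity
  · unfold Dat.b; ring

theorem per_int {f : ℝ → ℝ} (hf : ∀ t, f (t + 1) = f t) (t : ℝ) (n : ℤ) : f (t + n) = f t := by
  have h : Function.Periodic f 1 := hf
  have := h.int_mul n t
  simpa using this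

section
variable {D : Dat d} {K : ℝ} (hP : D.Prof K)
include hP

theorem mu_zero' (t : ℝ) (h1 : -(1 / 4) ≤ t) (h2 : t ≤ 3 / 4)
    (h3 : t ≤ -(D.b / 2) ∨ 4 * D.h + D.b / 2 ≤ t) : D.mu t = 0 := by
  obtain ⟨hw, hw6, hh, hh2, hb, hb2, -⟩ := lengths D
  rcases le_or_gt t (1 / 2) with h | h
  · exact hP.mu_zero t (by linarith) h h3
  · have := hP.mu_per (t - 1)
    rw [sub_add_cancel] at this
    rw [this]
    exact hP.mu_zero _ (by linarith) (by linarith) (Or.inl (by linarith))

theorem mu_der_zero (t : ℝ) (h1 : -(1 / 4) ≤ t) (h2 : t ≤ 3 / 4)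
    (h3 : t < -(D.b / 2) ∨ 4 * D.h + D.b / 2 < t) :
    deriv D.mu t = 0 ∧ deriv (deriv D.mu) t = 0 := by
  obtain ⟨hw, hw6, hh, hh2, hb, hb2, -⟩ := lengths D
  have key : D.mu =ᶠ[𝓝 t] fun _ => 0 := by
    rcases h3 with h | h
    · filter_upwards [Ioo_mem_nhds (show -(1 / 2) < t by linarith) h] with s hs
      exact hP.mu_zero s hs.1.le (by linarith [hs.2]) (Or.inl hs.2.le)
    · filter_upwards [Ioo_mem_nhds h (show t < 4 / 5 by linarith)] with s hs
      rcases le_or_gt s (1 / 2) with h' | h'
      · exact hP.mu_zero s (by linarith [hs.1]) h' (Or.inr hs.1.le)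
      · have := hP.mu_per (s - 1)
        rw [sub_add_cancel] at this
        rw [this]
        exact hP.mu_zero _ (by linarith) (by linarith [hs.2]) (Or.inl (by linarith [hs.2]))
  have k1 : deriv D.mu =ᶠ[𝓝 t] fun _ => 0 := by
    have := key.deriv
    simpa using this
  refine ⟨k1.eq_of_nhds, ?_⟩
  have := k1.deriv_eq
  simpa using this

theorem S_zero (t : ℝ) (h1 : 2 * D.b ≤ t) (h2 : t ≤ 1) : D.S t = 0 := by
  obtain ⟨hw, hw6, hh, hh2, hb, hb2, -⟩ := lengths D
  rcases le_or_gt t (1 / 2) with h | h
  · rw [hP.S_pos t (by linarith) h, hP.th_zero t (pd_of_mem h1 (by linarith)), neg_zero]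
  · have := hP.S_per (t - 1)
    rw [sub_add_cancel] at this
    rw [this, hP.S_neg _ (by linarith) (by linarith)]
    norm_num

theorem S_der_zero (t : ℝ) (h1 : 2 * D.b < t) (h2 : t < 1) : deriv D.S t = 0 := by
  have key : D.S =ᶠ[𝓝 t] fun _ => 0 := by
    filter_upwards [Ioo_mem_nhds h1 h2] with s hs
    exact S_zero hP s hs.1.le hs.2.le
  have := key.deriv_eq
  simpa using this

theorem mu_c1 : ContDiff ℝ ∞ (deriv D.mu) := by
  have h := hP.mu_sm
  rw [contDiff_infty_iff_deriv] at h
  exact h.2

theorem mu_c2 : ContDiff ℝ ∞ (deriv (deriv D.mu)) := by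
  have h := mu_c1 hP
  rw [contDiff_infty_iff_deriv] at h
  exact h.2

end

theorem deriv_per {f : ℝ → ℝ} (hf : ∀ t, f (t + 1) = f t) (t : ℝ) :
    deriv f (t + 1) = deriv f t := by
  have h : (fun s => f (s + 1)) = f := funext hf
  have h2 := deriv_comp_add_const f 1 t
  rw [h] at h2
  exact h2.symm

/-- the mean value of `thF μ''` -/
theorem force_mean {D : Dat d} {K : ℝ} (hP : D.Prof K) :
    (∫ t in (0 : ℝ)..1, D.thF t * deriv (deriv D.mu) t) = 1 ∧
    ∀ t, -(1 / 4) ≤ t → t ≤ 3 / 4 → (|t| ≤ D.h → D.thF t * deriv (deriv D.mu) t =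
      deriv (deriv D.mu) t) ∧ (D.h < |t| → D.thF t = 0) := by
  obtain ⟨hw, hw6, hh, hh2, hb, hb2, hbF⟩ := lengths D
  have c1 : Continuous (deriv D.mu) := (mu_c1 hP).continuous
  have c2 : Continuous (deriv (deriv D.mu)) := (mu_c2 hP).continuous
  -- μ' = 0 and μ'' = 0 on [-1/4, -b/2]
  have z1 : ∀ t, -(1 / 4) ≤ t → t ≤ -(D.b / 2) → deriv D.mu t = 0 :=
    eqOn_Icc c1 (by linarith) fun t h1 h2 =>
      (mu_der_zero hP t h1.le (by linarith) (Or.inl h2)).1
  have z2 : ∀ t, -(1 / 4) ≤ t → t ≤ -(D.b / 2) → deriv (deriv D.mu) t = 0 :=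
    eqOn_Icc c2 (by linarith) fun t h1 h2 =>
      (mu_der_zero hP t h1.le (by linarith) (Or.inl h2)).2
  have z3 : ∀ t, D.b / 2 ≤ t → t ≤ 2 * D.h - D.b / 2 → deriv (deriv D.mu) t = 0 := by
    refine eqOn_Icc c2 (by linarith) fun t h1 h2 => ?_
    have key : deriv D.mu =ᶠ[𝓝 t] fun _ => 1 := by
      filter_upwards [Ioo_mem_nhds h1 h2] with s hs
      exact hP.mu_one s hs.1.le hs.2.le
    have := key.deriv_eq
    simpa using this
  have hthF1 : ∀ t, |t| ≤ D.b / 2 → D.thF t = 1 := by
    intro t ht
    refine hP.thF_one t ?_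
    have := pd_le t 0
    simp only [Int.cast_zero, sub_zero] at this
    rw [hbF]
    linarith
  have hthF0 : ∀ t, -(1 / 4) ≤ t → t ≤ 3 / 4 → D.h ≤ |t| → D.thF t = 0 := by
    intro t h1 h2 h3
    refine hP.thF_zero t ?_
    unfold pd
    rcases lt_trichotomy (round t) 0 with h | h | h
    · have : ((round t : ℤ) : ℝ) ≤ -1 := by exact_mod_cast Int.le_sub_one_of_lt h
      have := le_abs_self (t - round t)
      linarith
    · rw [h]; simpa using h3
    · have : (1 : ℝ) ≤ ((round t : ℤ) : ℝ) := by exact_mod_cast h
      have := neg_abs_le (t - round t)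
      linarith
  refine ⟨?_, fun t h1 h2 => ⟨fun h3 => ?_, fun h3 => hthF0 t h1 h2 h3.le⟩⟩
  · have hc : Continuous fun t => D.thF t * deriv (deriv D.mu) t :=
      hP.thF_sm.continuous.mul c2
    have hp : Function.Periodic (fun t => D.thF t * deriv (deriv D.mu) t) 1 := fun t => by
      simp only [hP.thF_per, deriv_per (deriv_per hP.mu_per)]
    have e1 : (∫ t in (0 : ℝ)..1, D.thF t * deriv (deriv D.mu) t) =
        ∫ t in (-(1 / 4) : ℝ)..(-(1 / 4) + 1), D.thF t * deriv (deriv D.mu) t := by
      have := hp.intervalIntegral_add_eq 0 (-(1 / 4))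
      rw [zero_add] at this
      exact this
    rw [e1]
    have i : ∀ a b : ℝ, IntervalIntegrable (fun t => D.thF t * deriv (deriv D.mu) t) volume a b :=
      fun a b => hc.intervalIntegrable a b
    rw [← intervalIntegral.integral_add_adjacent_intervals (i (-(1 / 4)) (-(D.b / 2))) (i _ _),
      ← intervalIntegral.integral_add_adjacent_intervals (i (-(D.b / 2)) (D.b / 2)) (i _ _)]
    have a1 : ∫ t in (-(1 / 4) : ℝ)..(-(D.b / 2)), D.thF t * deriv (deriv D.mu) t = 0 := by
      rw [intervalIntegral.integral_congr (g := fun _ => (0 : ℝ))]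
      · simp
      · intro t ht
        rw [Set.uIcc_of_le (by linarith)] at ht
        simp only
        rw [z2 t ht.1 ht.2, mul_zero]
    have a2 : ∫ t in (D.b / 2)..(-(1 / 4) + 1), D.thF t * deriv (deriv D.mu) t = 0 := by
      rw [intervalIntegral.integral_congr (g := fun _ => (0 : ℝ))]
      · simp
      · intro t ht
        rw [Set.uIcc_of_le (by linarith)] at ht
        simp only
        rcases le_or_gt t D.h with h | h
        · rw [z3 t ht.1 (by linarith), mul_zero]
        · rw [hthF0 t (by linarith [ht.1]) (by linarith [ht.2]) (by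
            rw [abs_of_nonneg (by linarith)]; exact h.le), zero_mul]
    have a3 : ∫ t in (-(D.b / 2))..(D.b / 2), D.thF t * deriv (deriv D.mu) t = 1 := by
      rw [intervalIntegral.integral_congr (g := deriv (deriv D.mu))]
      · have : ∀ t ∈ Set.uIcc (-(D.b / 2)) (D.b / 2),
            HasDerivAt (deriv D.mu) (deriv (deriv D.mu) t) t := fun t _ =>
          ((mu_c1 hP).differentiable (by norm_num) t).hasDerivAt
        rw [intervalIntegral.integral_eq_sub_of_hasDerivAt this (c2.intervalIntegrable _ _),
          hP.mu_one _ le_rfl (by linarith), z1 _ (by linarith) le_rfl]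
        norm_num
      · intro t ht
        rw [Set.uIcc_of_le (by linarith)] at ht
        simp only
        rw [hthF1 t (abs_le.mpr ht), one_mul]
    rw [a1, a2, a3]
    norm_num
  · rcases le_or_gt |t| (D.b / 2) with h | h
    · rw [hthF1 t h, one_mul]
    · have : deriv (deriv D.mu) t = 0 := by
        rcases le_or_gt 0 t with h0 | h0
        · rw [abs_of_nonneg h0] at h h3
          exact z3 t h.le (by linarith)
        · rw [abs_of_neg h0] at h h3
          exact z2 t h1 (by linarith)
      rw [this, mul_zero]

end MomAux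

open MomAux in
theorem mom_ok (d : ℕ) (hW : StmtWin d) (hS : StmtSupp d) (h3 : StmtParts d) : StmtMom d := by
  intro D K η hP hL
  obtain ⟨L₀, hL₀⟩ := hS D K η hP hL
  refine ⟨L₀, fun L hLL hL0 k j => ?_⟩
  have hsupp := hL₀ L hLL hL0 k j
  obtain ⟨hw, hw6, hh, hh2, hb, hb2, hbF⟩ := lengths D
  have hlk := D.l_ne k
  set l := D.l k with hl
  set P := D.P k j with hPdef
  set u : V d := zv (D.u j) with hu
  have huk : u k ≠ 0 := by
    have := (D.u_rng j k).1
    rw [hu]; unfold zv
    have : (1 : ℝ) ≤ (D.u j k : ℝ) := by exact_mod_cast this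
    linarith
  set c : ℝ := (D.kk k : ℝ) / L with hc
  set Q : V d → ℝ := fun x => P (D.xs L k x) with hQ
  have hxs : ∀ x, D.xs L k x = x - Pi.single l (c * D.mu (x k)) := fun x => rfl
  have hPs : ContDiff ℝ ∞ P := hL.P_sm k j
  have hQs : ContDiff ℝ ∞ Q := by
    refine hPs.comp ?_
    have h1 : ContDiff ℝ ∞ fun x : V d => c * D.mu (x k) :=
      contDiff_const.mul (hP.mu_sm.comp (contDiff_apply ℝ ℝ k))
    have h2 : ContDiff ℝ ∞ fun x : V d => x - (Pi.single l (c * D.mu (x k)) : V d) := by
      refine contDiff_id.sub ?_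
      rw [contDiff_pi]
      intro i
      by_cases hi : i = l
      · subst hi; simpa using h1
      · simp only [Pi.single_eq_of_ne hi]; exact contDiff_const
    exact h2
  have hQ1 : ContDiff ℝ 1 Q := hQs.of_le (by norm_num)
  have hQp : Per Q := by
    intro x i
    have : D.xs L k (x + Pi.single i 1) = D.xs L k x + Pi.single i 1 := by
      rw [hxs, hxs]
      have : D.mu ((x + Pi.single i 1 : V d) k) = D.mu (x k) := by
        by_cases hik : i = k
        · subst hik; simp [hP.mu_per]
        · simp [Pi.single_eq_of_ne (Ne.symm hik)]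
      rw [this]; abel
    show P _ = P _
    rw [this]; exact hL.P_per k j _ _
  set γ : ℝ → ℝ := fun t => c * u k * deriv D.mu t with hγ
  have hγ1 : ContDiff ℝ 1 γ := (contDiff_const.mul (mu_c1 hP)).of_le (by norm_num)
  have hγp : ∀ t, γ (t + 1) = γ t := fun t => by
    simp only [hγ, deriv_per hP.mu_per]
  have hinv : ∀ x, fderiv ℝ Q x (u + Pi.single l (γ (x k))) = 0 := by
    intro x
    set cv : ℝ → V d := fun t => x + t • u + Pi.single l (c * D.mu (x k + t * u k) - c * D.mu (x k))
      with hcv
    have h0 : cv 0 = x := by simp [hcv]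
    have hder : HasDerivAt cv (u + Pi.single l (γ (x k))) 0 := by
      have h1 : HasDerivAt (fun t : ℝ => x + t • u) u 0 := by
        have := ((hasDerivAt_id (0 : ℝ)).smul_const u).const_add x
        simpa using this
      have h2 : HasDerivAt (fun t : ℝ => c * D.mu (x k + t * u k) - c * D.mu (x k)) (γ (x k)) 0 := by
        have ha : HasDerivAt (fun t : ℝ => x k + t * u k) (u k) 0 := by
          have := ((hasDerivAt_id (0 : ℝ)).mul_const (u k)).const_add (x k)
          simpa using this
        have hb' : HasDerivAt D.mu (deriv D.mu (x k)) (x k + 0 * u k) := by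
          rw [zero_mul, add_zero]
          exact (hP.mu_sm.differentiable (by norm_num) _).hasDerivAt
        have := ((hb'.comp (0 : ℝ) ha).const_mul c).sub_const (c * D.mu (x k))
        refine this.congr_deriv ?_
        simp only [hγ]; ring
      have h3' : HasDerivAt (fun t : ℝ => (Pi.single l (c * D.mu (x k + t * u k) - c * D.mu (x k)) : V d))
          (Pi.single l (γ (x k))) 0 := by
        rw [hasDerivAt_pi]
        intro i
        by_cases hi : i = l
        · subst hi; simpa using h2
        · simp only [Pi.single_eq_of_ne hi]; exact hasDerivAt_const _ _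
      exact h1.add h3'
    have hconst : ∀ t, Q (cv t) = Q x := by
      intro t
      have hk : (cv t) k = x k + t * u k := by
        simp [hcv, Pi.single_eq_of_ne (Ne.symm hlk)]
      have : D.xs L k (cv t) = D.xs L k x + t • u := by
        rw [hxs, hxs, hk, hcv]
        simp only
        rw [Pi.single_sub]
        abel
      show P _ = P _
      rw [this]; exact hL.P_u k j _ _
    have hf : HasFDerivAt Q (fderiv ℝ Q x) (cv 0) := by
      rw [h0]; exact (hQs.differentiable (by norm_num) x).hasFDerivAt
    have h4 := hf.comp_hasDerivAt (0 : ℝ) hder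
    have h5 : (Q ∘ cv) = fun _ => Q x := funext hconst
    rw [h5] at h4
    exact h4.unique (hasDerivAt_const _ _)
  have hinvP : ∀ x, fderiv ℝ P x (u + Pi.single l ((fun _ => (0 : ℝ)) (x k))) = 0 := by
    intro x
    simp only [Pi.single_zero, add_zero]
    have h1 : HasDerivAt (fun t : ℝ => x + t • u) u 0 := by
      have := ((hasDerivAt_id (0 : ℝ)).smul_const u).const_add x
      simpa using this
    have hf : HasFDerivAt P (fderiv ℝ P x) ((fun t : ℝ => x + t • u) 0) := by
      simp only [zero_smul, add_zero]
      exact (hPs.differentiable (by norm_num) x).hasFDerivAt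
    have h4 := hf.comp_hasDerivAt (0 : ℝ) h1
    have h5 : (P ∘ fun t : ℝ => x + t • u) = fun _ => P x := funext fun t => hL.P_u k j x t
    rw [h5] at h4
    exact h4.unique (hasDerivAt_const _ _)
  -- the total mass
  have hmass : ∫ x in cell d, Q x = 1 := by
    have hpc : Continuous fun t => 1 - D.psi t := continuous_const.sub hP.psi_sm.continuous
    have hpp : ∀ t, 1 - D.psi (t + 1) = 1 - D.psi t := fun t => by rw [hP.psi_per]
    have m1 := mean_slice h3 u k l hlk huk γ hγ1 hγp Q hQ1 hQp hinv (fun t => 1 - D.psi t) hpc hpp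
    have m2 := mean_slice h3 u k l hlk huk (fun _ => 0) contDiff_const (fun _ => rfl) P
      (hPs.of_le (by norm_num)) (hL.P_per k j) hinvP (fun t => 1 - D.psi t) hpc hpp
    rw [hL.P_int k j, mul_one] at m2
    have e : ∀ x : V d, Q x * (1 - D.psi (x k)) = P x * (1 - D.psi (x k)) := by
      intro x
      by_cases hmu : D.mu (x k) = 0
      · have : D.xs L k x = x := by rw [hxs, hmu]; simp
        show P _ * _ = _
        rw [this]
      · have : pd (x k) ≤ 5 * D.h := by
          have e1 : D.mu (x k - round (x k)) = D.mu (x k) := by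
            have := per_int hP.mu_per (x k - round (x k)) (round (x k))
            rw [sub_add_cancel] at this
            exact this.symm
          have hr := abs_sub_round (x k)
          have hr2 := abs_le.mp hr
          by_contra hcon
          apply hmu
          rw [← e1]
          refine hP.mu_zero _ (by linarith [hr2.1]) hr2.2 ?_
          by_contra h'
          rw [not_or, not_le, not_le] at h'
          apply hcon
          unfold pd
          rw [abs_le]
          constructor <;> linarith [h'.1, h'.2]
        rw [hP.psi_one _ this]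
        simp
    have hpos : 0 < ∫ t in (0 : ℝ)..1, (1 - D.psi t) := by
      refine intervalIntegral.integral_pos (by norm_num) hpc.continuousOn
        (fun t _ => by linarith [(hP.psi_rng t).2]) ⟨1 / 2, by constructor <;> norm_num, ?_⟩
      rw [hP.psi_zero (1 / 2) (pd_of_mem (by linarith) (by linarith))]
      norm_num
    simp_rw [e] at m1
    rw [m2] at m1
    have := mul_left_cancel₀ hpos.ne' (m1.symm.trans (mul_one _).symm)
    exact this
  constructor
  · intro a o ho
    -- the periodic version of the linear function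
    let X : Fin d → ℝ → ℝ := fun i t => if i = k then t - D.S (t + 1 / 4) else t - D.S t
    have hX : ∀ i, ContDiff ℝ ∞ (X i) := by
      intro i
      by_cases hi : i = k
      · simp only [X, hi, if_true]
        exact contDiff_id.sub (hP.S_sm.comp (contDiff_id.add contDiff_const))
      · simp only [X, hi, if_false]
        exact contDiff_id.sub hP.S_sm
    have hXp : ∀ i t, X i (t + 1) = X i t := by
      intro i t
      by_cases hi : i = k
      · simp only [X, hi, if_true]
        rw [show t + 1 + 1 / 4 = (t + 1 / 4) + 1 by ring, hP.S_per]; ring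
      · simp only [X, hi, if_false]
        rw [hP.S_per]; ring
    let φ : V d → ℝ := fun x => a + ∑ i, o i * X i (x i)
    have hφ : ContDiff ℝ ∞ φ := by
      refine contDiff_const.add (ContDiff.sum fun i _ => contDiff_const.mul ?_)
      exact (hX i).comp (contDiff_apply ℝ ℝ i)
    have hφp : Per φ := by
      intro x i
      show a + _ = a + _
      congr 1
      refine Finset.sum_congr rfl fun m _ => ?_
      by_cases him : m = i
      · subst him; simp [hXp]
      · simp [Pi.single_eq_of_ne him]
    have hφd : ∀ x v, fderiv ℝ φ x v = ∑ i, o i * (deriv (X i) (x i) * v i) := by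
      intro x v
      have h1 : HasFDerivAt φ (∑ i, o i • (deriv (X i) (x i) •
          (ContinuousLinearMap.proj i : V d →L[ℝ] ℝ))) x := by
        have h2 : ∀ i ∈ (Finset.univ : Finset (Fin d)), HasFDerivAt (fun y : V d => o i * X i (y i))
            (o i • (deriv (X i) (x i) • (ContinuousLinearMap.proj i : V d →L[ℝ] ℝ))) x := by
          intro i _
          have h1 := ((hX i).differentiable (by norm_num) (x i)).hasDerivAt
          have h2 := h1.comp_hasFDerivAt x (ContinuousLinearMap.proj i : V d →L[ℝ] ℝ).hasFDerivAt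
          exact h2.const_mul (o i)
        exact (HasFDerivAt.fun_sum h2).const_add a
      rw [h1.fderiv]
      simp
    -- first identity
    have hQmu : ∫ x in cell d, Q x * deriv D.mu (x k) = 0 := by
      have m1 := mean_slice h3 u k l hlk huk γ hγ1 hγp Q hQ1 hQp hinv (deriv D.mu)
        (mu_c1 hP).continuous (deriv_per hP.mu_per)
      rw [m1]
      have : ∫ t in (0 : ℝ)..1, deriv D.mu t = 0 := by
        have h6 : ∀ t ∈ Set.uIcc (0 : ℝ) 1, HasDerivAt D.mu (deriv D.mu t) t := fun t _ =>
          (hP.mu_sm.differentiable (by norm_num) t).hasDerivAt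
        rw [intervalIntegral.integral_eq_sub_of_hasDerivAt h6
          ((mu_c1 hP).continuous.intervalIntegrable _ _)]
        have := hP.mu_per 0
        rw [zero_add] at this
        rw [this, sub_self]
      rw [this, zero_mul]
    -- second identity
    have hF : ContDiff ℝ 1 (fun y : V d => deriv D.mu (y k) * (Q y * φ y)) :=
      (((mu_c1 hP).comp (contDiff_apply ℝ ℝ k)).mul (hQs.mul hφ)).of_le (by norm_num)
    have hFp : Per (fun y : V d => deriv D.mu (y k) * (Q y * φ y)) := by
      intro x i
      simp only [hQp x i, hφp x i]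
      by_cases hik : i = k
      · subst hik; simp [deriv_per hP.mu_per]
      · simp [Pi.single_eq_of_ne (Ne.symm hik)]
    have key := div_free h3 u k l hlk γ hγ1 hγp _ hF hFp
    have hG : Differentiable ℝ fun y => Q y * φ y :=
      (hQs.mul hφ).differentiable (by norm_num)
    have e1 : ∀ x : V d, fderiv ℝ (fun y : V d => deriv D.mu (y k) * (Q y * φ y)) x
        (u + Pi.single l (γ (x k))) =
        deriv (deriv D.mu) (x k) * u k * (Q x * φ x) + deriv D.mu (x k) * (Q x *
          ∑ i, o i * (deriv (X i) (x i) * u i)) := by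
      intro x
      rw [fderiv_mul_1d u k l hlk _ (deriv D.mu) ((mu_c1 hP).differentiable (by norm_num)) _ hG]
      congr 2
      have h7 : HasFDerivAt (fun y => Q y * φ y) _ x :=
        (hQs.differentiable (by norm_num) x).hasFDerivAt.mul
          (hφ.differentiable (by norm_num) x).hasFDerivAt
      rw [h7.fderiv]
      simp only [add_apply, smul_apply, smul_eq_mul]
      rw [hinv x, mul_zero, add_zero, hφd]
      congr 1
      refine Finset.sum_congr rfl fun i _ => ?_
      by_cases hi : i = l
      · rw [hi, ho]; simp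
      · simp [Pi.single_eq_of_ne hi]
    simp_rw [e1] at key
    have hper : Per (fun x : V d => deriv (deriv D.mu) (x k) * u k * (Q x * φ x) +
        deriv D.mu (x k) * (Q x * ∑ i, o i * (deriv (X i) (x i) * u i))) := by
      intro x i
      simp only [hQp x i, hφp x i]
      have h8 : deriv D.mu ((x + Pi.single i 1 : V d) k) = deriv D.mu (x k) := by
        by_cases hik : i = k
        · subst hik; simp [deriv_per hP.mu_per]
        · simp [Pi.single_eq_of_ne (Ne.symm hik)]
      have h9 : deriv (deriv D.mu) ((x + Pi.single i 1 : V d) k) = deriv (deriv D.mu) (x k) := by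
        by_cases hik : i = k
        · subst hik; simp [deriv_per (deriv_per hP.mu_per)]
        · simp [Pi.single_eq_of_ne (Ne.symm hik)]
      rw [h8, h9]
      congr 3
      refine Finset.sum_congr rfl fun m _ => ?_
      congr 2
      by_cases him : m = i
      · subst him; simp [deriv_per (hXp m)]
      · simp [Pi.single_eq_of_ne him]
    rw [← hW _ hper k] at key
    -- on the window
    have e2 : ∀ x ∈ win k, deriv (deriv D.mu) (x k) * u k * (Q x * φ x) +
        deriv D.mu (x k) * (Q x * ∑ i, o i * (deriv (X i) (x i) * u i)) =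
        u k * (deriv (deriv D.mu) (x k) * Q x * (a + dot o x)) +
          (dot o u) * (Q x * deriv D.mu (x k)) := by
      intro x hx
      by_cases hQx : Q x = 0
      · rw [hQx]; ring
      have hxk : -(1 / 4) ≤ x k ∧ x k ≤ 3 / 4 := by
        have h1 := hx.1 k
        have h2 := hx.2 k
        simp only [Pi.neg_apply, Pi.single_eq_same, Pi.sub_apply, Pi.one_apply] at h1 h2
        constructor <;> linarith
      by_cases hr : x k < -(D.b / 2) ∨ 4 * D.h + D.b / 2 < x k
      · obtain ⟨h1, h2⟩ := mu_der_zero hP (x k) hxk.1 hxk.2 hr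
        rw [h1, h2]; ring
      · rw [not_or, not_lt, not_lt] at hr
        have hpd : pd (x k) ≤ 5 * D.h := by
          have := pd_le (x k) 0
          simp only [Int.cast_zero, sub_zero] at this
          refine this.trans ?_
          rw [abs_le]
          constructor <;> linarith [hr.1, hr.2]
        obtain ⟨hs, -⟩ := hsupp x hQx hpd
        have hXx : ∀ i, X i (x i) = x i ∧ deriv (X i) (x i) = 1 := by
          intro i
          by_cases hi : i = k
          · have h1 : 2 * D.b < x k + 1 / 4 := by linarith [hr.1]
            have h2 : x k + 1 / 4 < 1 := by linarith [hr.2]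
            rw [hi]
            constructor
            · simp only [X, if_true]
              rw [S_zero hP _ h1.le h2.le, sub_zero]
            · have h10 : HasDerivAt (X k) (1 - 0) (x k) := by
                simp only [X, if_true]
                have h11 : HasDerivAt D.S 0 (x k + 1 / 4) := by
                  rw [← S_der_zero hP _ h1 h2]
                  exact (hP.S_sm.differentiable (by norm_num) _).hasDerivAt
                have h12 := h11.comp_add_const (x k) (1 / 4)
                exact (hasDerivAt_id (x k)).sub h12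
              rw [h10.deriv, sub_zero]
          · have h0 := hs i hi
            have hx1 : 0 ≤ x i ∧ x i ≤ 1 := by
              have h1 := hx.1 i
              have h2 := hx.2 i
              simp only [Pi.neg_apply, Pi.single_eq_of_ne hi, Pi.sub_apply, Pi.one_apply] at h1 h2
              constructor <;> linarith
            have h1 : 2 * D.b < x i := by
              have := pd_le (x i) 0
              simp only [Int.cast_zero, sub_zero] at this
              rw [abs_of_nonneg hx1.1] at this
              linarith
            have h2 : x i < 1 := by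
              have := pd_le (x i) 1
              simp only [Int.cast_one] at this
              rw [abs_of_nonpos (by linarith)] at this
              linarith
            constructor
            · simp only [X, hi, if_false]
              rw [S_zero hP _ h1.le h2.le, sub_zero]
            · have h10 : HasDerivAt (X i) (1 - 0) (x i) := by
                simp only [X, hi, if_false]
                have h11 : HasDerivAt D.S 0 (x i) := by
                  rw [← S_der_zero hP _ h1 h2]
                  exact (hP.S_sm.differentiable (by norm_num) _).hasDerivAt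
                exact (hasDerivAt_id (x i)).sub h11
              rw [h10.deriv, sub_zero]
        have e3 : φ x = a + dot o x := by
          show a + _ = a + _
          congr 1
          exact Finset.sum_congr rfl fun i _ => by rw [(hXx i).1]
        have e4 : ∑ i, o i * (deriv (X i) (x i) * u i) = dot o u :=
          Finset.sum_congr rfl fun i _ => by rw [(hXx i).2, one_mul]
        rw [e3, e4]; ring
    rw [setIntegral_congr_fun (show MeasurableSet (win k) from measurableSet_Icc) e2] at key
    have hQper : Per (fun x : V d => Q x * deriv D.mu (x k)) := by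
      intro x i
      simp only [hQp x i]
      by_cases hik : i = k
      · subst hik; simp [deriv_per hP.mu_per]
      · simp [Pi.single_eq_of_ne (Ne.symm hik)]
    have hdc : Continuous fun x : V d => dot o x := by
      unfold dot
      exact continuous_finsetSum _ fun i _ => continuous_const.mul (continuous_apply i)
    rw [integral_add, integral_const_mul, integral_const_mul, hW _ hQper k, hQmu, mul_zero,
      add_zero] at key
    · exact (mul_eq_zero.mp key).resolve_left huk
    · refine (win_int ?_ k).const_mul _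
      exact (((mu_c2 hP).continuous.comp (continuous_apply k)).mul hQs.continuous).mul
        (continuous_const.add hdc)
    · refine (win_int ?_ k).const_mul _
      exact hQs.continuous.mul ((mu_c1 hP).continuous.comp (continuous_apply k))
  · obtain ⟨hm, hpt⟩ := force_mean hP
    have m1 := mean_slice h3 u k l hlk huk γ hγ1 hγp Q hQ1 hQp hinv
      (fun t => D.thF t * deriv (deriv D.mu) t) (hP.thF_sm.continuous.mul (mu_c2 hP).continuous)
      (fun t => by simp only [hP.thF_per, deriv_per (deriv_per hP.mu_per)])
    rw [hm, hmass, one_mul] at m1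
    have hQper : Per (fun x : V d => Q x * (D.thF (x k) * deriv (deriv D.mu) (x k))) := by
      intro x i
      simp only [hQp x i]
      by_cases hik : i = k
      · subst hik; simp [deriv_per (deriv_per hP.mu_per), hP.thF_per]
      · simp [Pi.single_eq_of_ne (Ne.symm hik)]
    rw [← hW _ hQper k] at m1
    have hms : MeasurableSet {x : V d | |x k| ≤ D.h} :=
      measurableSet_le (measurable_pi_apply k).abs measurable_const
    rw [← setIntegral_indicator hms]
    rw [← m1]
    refine setIntegral_congr_fun (show MeasurableSet (win k) from measurableSet_Icc)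
      fun x hx => ?_
    have hxk : -(1 / 4) ≤ x k ∧ x k ≤ 3 / 4 := by
      have h1 := hx.1 k
      have h2 := hx.2 k
      simp only [Pi.neg_apply, Pi.single_eq_same, Pi.sub_apply, Pi.one_apply] at h1 h2
      constructor <;> linarith
    obtain ⟨h1, h2⟩ := hpt (x k) hxk.1 hxk.2
    by_cases hx' : |x k| ≤ D.h
    · rw [Set.indicator_of_mem (show x ∈ {x : V d | |x k| ≤ D.h} from hx')]
      show _ = Q x * (D.thF (x k) * deriv (deriv D.mu) (x k))
      rw [h1 hx']; exact mul_comm _ _
    · rw [Set.indicator_of_notMem (show x ∉ {x : V d | |x k| ≤ D.h} from hx')]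
      show _ = Q x * (D.thF (x k) * deriv (deriv D.mu) (x k))
      rw [h2 (not_le.mp hx')]; ring

end Pool.Agent.Lib.MP_5df1bf_an
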