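import Pool.Agent.Lib.MP_5df1bf_an.Stmts3

/-!
# MP_5df1bf_an, D7: necessity (module G-D7)
-/

open MeasureTheory Filter Topology
open scoped BigOperators ContDiff

noncomputable section

namespace Pool.Agent.Lib.MP_5df1bf_an

/-- the quadratic forms converge when the tensors do -/
lemma Nec.tendsto_Q {d : ℕ} {Cs : ℕ → Tens d} {C : Tens d}
    (h : ∀ ξ, Tendsto (fun n => (Cs n).C ξ) atTop (𝓝 (C.C ξ))) (ε : M d) :
    Tendsto (fun n => (Cs n).Q ε) atTop (𝓝 (C.Q ε)) := by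
  unfold Tens.Q ip
  refine tendsto_finset_sum _ fun i _ => tendsto_finset_sum _ fun j _ => ?_
  exact ((tendsto_pi_nhds.1 (tendsto_pi_nhds.1 (h ε) i)) j).mul_const _

lemma Nec.nsq_nonneg {d : ℕ} (A : M d) : 0 ≤ nsq A := by
  unfold nsq ip
  exact Finset.sum_nonneg fun i _ => Finset.sum_nonneg fun j _ => mul_self_nonneg _

theorem Nec_ok (d : ℕ) (hHS : StmtHS d) (hHull : StmtHull d) : StmtNec d := by
  intro A f hA hf0 hf1 C hC
  obtain ⟨δ, χ, Cs, hδ0, hδ, hχ, hCs, hlim⟩ := hC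
  have hQlim := Nec.tendsto_Q hlim
  have hA0 : ∀ ξ, 0 ≤ A.Q ξ := by
    obtain ⟨α, hα, h⟩ := hA
    intro ξ
    exact (mul_nonneg hα.le (Nec.nsq_nonneg ξ)).trans (h ξ)
  have hPh : ∀ n x ξ, 0 ≤ (phase A (δ n) (χ n) x).Q ξ := by
    intro n x ξ
    unfold phase
    split_ifs
    · exact hA0 ξ
    · have : (A.scale (δ n)).Q ξ = δ n * A.Q ξ := by
        unfold Tens.Q Tens.scale
        simp only [LinearMap.smul_apply]
        rw [ip_smul_left]
      rw [this]
      exact mul_nonneg (hδ0 n).le (hA0 ξ)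
  have heff : ∀ n ε, 0 ≤ eff (phase A (δ n) (χ n)) ε := by
    intro n ε
    unfold eff
    refine Real.iInf_nonneg fun u => ?_
    unfold energy
    exact integral_nonneg fun x => hPh n x _
  have hPSD : C.PSD := by
    intro ξ
    refine ge_of_tendsto' (hQlim ξ) fun n => ?_
    rw [hCs n ξ]
    exact heff n ξ
  choose w hw0 hwz hwS hwI using fun n => hHS A hA (χ n) (hχ n).1
  have hff : 0 < f * (1 - f) := mul_pos hf0 (by linarith)
  obtain ⟨φ, r, nn, m, hφ, hn1, hm0, hm1, hT⟩ := hHull A hA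
    (fun n k => w n k / (f * (1 - f))) (fun n k => div_nonneg (hw0 n k) hff.le)
    (fun n => by simp [hwz n]) (fun n => by
      have h := hwS n
      rw [(hχ n).2] at h
      have h2 := h.div_const (f * (1 - f))
      rwa [div_self hff.ne'] at h2)
  refine ⟨hPSD, r, nn, m, hn1, hm0, hm1, fun ε q => ?_⟩
  -- pass to the limit in the bound
  have hsub : Tendsto (fun t => (Cs (φ t)).Q ε) atTop (𝓝 (C.Q ε)) :=
    (hQlim ε).comp hφ.tendsto_atTop
  have hδφ : Tendsto (fun t => δ (φ t)) atTop (𝓝 0) := hδ.comp hφ.tendsto_atTop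
  have hts : ∀ t, ∑' k, w (φ t) k * Gam A (zv k) q
      = f * (1 - f) * ∑' k, w (φ t) k / (f * (1 - f)) * Gam A (zv k) q := by
    intro t
    rw [← tsum_mul_left]
    refine tsum_congr fun k => ?_
    have hne := hff.ne'
    rw [div_mul_eq_mul_div, mul_div_cancel₀ _ hne]
  have hR : Tendsto (fun t => A.Q ε - 2 * (1 - f) * ip q (symm ε) + (1 - f) * Inv A q
      - ∑' k, w (φ t) k * Gam A (zv k) q + δ (φ t) * (1 + nsq q + Inv A q) * (1 + nsq ε)) atTop
      (𝓝 (A.Q ε - 2 * (1 - f) * ip q (symm ε) + (1 - f) * Inv A q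
        - f * (1 - f) * ∑ i, m i * Gam A (nn i) q
        + 0 * (1 + nsq q + Inv A q) * (1 + nsq ε))) := by
    simp only [hts]
    refine (Tendsto.sub tendsto_const_nhds ((hT q).const_mul _)).add ?_
    exact (hδφ.mul_const _).mul_const _
  have hle : ∀ᶠ t in atTop, (Cs (φ t)).Q ε ≤ A.Q ε - 2 * (1 - f) * ip q (symm ε)
      + (1 - f) * Inv A q - ∑' k, w (φ t) k * Gam A (zv k) q
      + δ (φ t) * (1 + nsq q + Inv A q) * (1 + nsq ε) := by
    have h1 : ∀ᶠ t in atTop, δ (φ t) < 1 := hδφ.eventually_lt_const one_pos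
    filter_upwards [h1] with t ht
    have h2 := hwI (φ t) q (δ (φ t)) (hδ0 _) ht.le ε
    rw [(hχ (φ t)).2] at h2
    rw [hCs (φ t) ε]
    exact h2
  have hfin := le_of_tendsto_of_tendsto hsub hR hle
  refine hfin.trans (le_of_eq ?_)
  unfold HS
  ring

end Pool.Agent.Lib.MP_5df1bf_an
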