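import Pool.Agent.Lib.MP_5df1bf_an.Stmts1

/-!
# MP_5df1bf_an: calculus of realizable tensors (A11)

`RzBase_ok`, `HomN_ok`, `RzHom_ok`, `RzLim_ok`.
-/

open MeasureTheory Filter Topology
open scoped BigOperators ContDiff

noncomputable section

namespace Pool.Agent.Lib.MP_5df1bf_an

variable {d : ℕ}

namespace RzHomAux

theorem scale_Q (c : ℝ) (T : Tens d) (ξ : M d) : (T.scale c).Q ξ = c * T.Q ξ := by
  show ip (c • T.C ξ) ξ = c * ip (T.C ξ) ξ
  exact ip_smul_left _ _ _

theorem bounds (A : Tens d) (hA : A.PD) :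
    ∃ α > 0, ∃ β > 0, ∀ ξ, α * nsq ξ ≤ A.Q ξ ∧ A.Q ξ ≤ β * nsq ξ := by
  obtain ⟨α, hα, h1⟩ := hA
  obtain ⟨β, hβ, h2⟩ := A.exists_bound
  exact ⟨α, hα, β, hβ, fun ξ => ⟨h1 ξ, (le_abs_self _).trans (h2 ξ)⟩⟩

theorem micro_univ : Micro (Set.univ : Set (V d)) :=
  ⟨MeasurableSet.univ, fun _ _ => by simp⟩

theorem micro_empty : Micro (∅ : Set (V d)) :=
  ⟨MeasurableSet.empty, fun _ _ => by simp⟩

theorem frac_univ (hE : BaseE d) : frac (Set.univ : Set (V d)) = 1 := by
  unfold frac; rw [Set.univ_inter, hE.vol]; simp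

theorem frac_empty : frac (∅ : Set (V d)) = 0 := by
  unfold frac; simp

theorem frac_nonneg (χ : Set (V d)) : 0 ≤ frac χ := ENNReal.toReal_nonneg

theorem frac_le_one (hE : BaseE d) (χ : Set (V d)) : frac χ ≤ 1 := by
  unfold frac
  have h1 : volume (χ ∩ cell d) ≤ 1 := by
    rw [← hE.vol]; exact measure_mono Set.inter_subset_right
  have := ENNReal.toReal_mono ENNReal.one_ne_top h1
  simpa using this

/-- volume fractions are integrals of indicators -/
theorem frac_eq (χ : Set (V d)) (hχ : MeasurableSet χ) :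
    ∫ x in cell d, χ.indicator (fun _ => (1 : ℝ)) x = frac χ := by
  rw [integral_indicator hχ, Measure.restrict_restrict hχ]
  simp [frac, Measure.real]

theorem ind_per (χ : Set (V d)) (hχ : ∀ (x : V d) (i : Fin d), x + Pi.single i 1 ∈ χ ↔ x ∈ χ) :
    Per (χ.indicator (fun _ => (1 : ℝ))) := by
  intro x i
  by_cases h : x ∈ χ
  · rw [Set.indicator_of_mem h, Set.indicator_of_mem ((hχ x i).mpr h)]
  · rw [Set.indicator_of_notMem h, Set.indicator_of_notMem (fun h' => h ((hχ x i).mp h'))]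

theorem ind_bdd (χ : Set (V d)) (x : V d) : |χ.indicator (fun _ => (1 : ℝ)) x| ≤ 1 := by
  by_cases h : x ∈ χ
  · rw [Set.indicator_of_mem h]; simp
  · rw [Set.indicator_of_notMem h]; simp

theorem ind_meas (χ : Set (V d)) (hχ : MeasurableSet χ) :
    Measurable (χ.indicator (fun _ => (1 : ℝ))) := measurable_const.indicator hχ

theorem cell_fin (hE : BaseE d) : volume (cell d) ≠ ⊤ := by
  rw [hE.vol]; exact ENNReal.one_ne_top

theorem ind_int (hE : BaseE d) (χ : Set (V d)) (hχ : MeasurableSet χ) :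
    IntegrableOn (χ.indicator (fun _ => (1 : ℝ))) (cell d) := by
  refine Measure.integrableOn_of_bounded (M := 1) (cell_fin hE)
    (ind_meas χ hχ).aestronglyMeasurable ?_
  exact Eventually.of_forall fun x => by rw [Real.norm_eq_abs]; exact ind_bdd χ x

/-- integer multiples -/
theorem per_nat (χ : Set (V d)) (hχ : ∀ (x : V d) (i : Fin d), x + Pi.single i 1 ∈ χ ↔ x ∈ χ)
    (n : ℕ) (x : V d) (i : Fin d) : (n : ℝ) • (x + Pi.single i 1) ∈ χ ↔ (n : ℝ) • x ∈ χ := by
  have key : ∀ (k : ℕ) (y : V d), y + (k : ℝ) • (Pi.single i 1 : V d) ∈ χ ↔ y ∈ χ := by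
    intro k
    induction k with
    | zero => intro y; simp
    | succ k ih =>
      intro y
      have h1 : y + ((k + 1 : ℕ) : ℝ) • (Pi.single i 1 : V d) =
          (y + (k : ℝ) • (Pi.single i 1 : V d)) + Pi.single i 1 := by
        push_cast
        rw [add_smul, one_smul, add_assoc]
      rw [h1, hχ, ih]
  rw [smul_add, key]

theorem micro_osc {m : ℕ} (idx : V d → Fin m) (hm : Measurable idx) (hp : Per idx)
    (χ : Fin m → Set (V d)) (hχ : ∀ i, Micro (χ i)) (n : ℕ) :
    Micro {x | (n : ℝ) • x ∈ χ (idx x)} := by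
  constructor
  · have h1 : {x | (n : ℝ) • x ∈ χ (idx x)} =
        ⋃ i, ((idx ⁻¹' {i}) ∩ ((fun x : V d => (n : ℝ) • x) ⁻¹' (χ i))) := by
      ext x
      simp only [Set.mem_ofPred_eq, Set.mem_iUnion, Set.mem_inter_iff, Set.mem_preimage,
        Set.mem_singleton_iff]
      constructor
      · intro h; exact ⟨idx x, rfl, h⟩
      · rintro ⟨i, hi, h⟩; rw [hi]; exact h
    rw [h1]
    refine MeasurableSet.iUnion fun i => (hm (measurableSet_singleton i)).inter ?_
    exact (measurable_const_smul (n : ℝ)) (hχ i).1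
  · intro x i
    show (n : ℝ) • (x + Pi.single i 1) ∈ χ (idx (x + Pi.single i 1)) ↔ (n : ℝ) • x ∈ χ (idx x)
    rw [hp x i]
    exact per_nat _ (hχ _).2 n x i

/-- convergence of the volume fractions -/
theorem frac_osc (hE : BaseE d) (hAvg : StmtAvg d) {m : ℕ} (idx : V d → Fin m)
    (hm : Measurable idx) (hp : Per idx) (χ : Fin m → Set (V d)) (hχ : ∀ i, Micro (χ i)) :
    Tendsto (fun n : ℕ => frac {x | (n : ℝ) • x ∈ χ (idx x)}) atTop
      (𝓝 (∑ i, frac {x | idx x = i} * frac (χ i))) := by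
  have hI : ∀ i, MeasurableSet {x | idx x = i} := fun i => hm (measurableSet_singleton i)
  have hIp : ∀ i, ∀ (x : V d) (j : Fin d), x + Pi.single j 1 ∈ {x | idx x = i} ↔
      x ∈ {x | idx x = i} := by
    intro i x j
    show idx (x + Pi.single j 1) = i ↔ idx x = i
    rw [hp x j]
  have h1 : ∀ n : ℕ, frac {x | (n : ℝ) • x ∈ χ (idx x)} =
      ∑ i, ∫ x in cell d, ({x | idx x = i}.indicator (fun _ => (1 : ℝ)) x) *
        ((χ i).indicator (fun _ => (1 : ℝ)) ((n : ℝ) • x)) := by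
    intro n
    rw [← frac_eq _ (micro_osc idx hm hp χ hχ n).1, ← integral_finsetSum]
    · congr 1
      funext x
      rw [Finset.sum_eq_single (idx x)]
      · rw [Set.indicator_of_mem (show x ∈ {y | idx y = idx x} from rfl), one_mul]
        by_cases h : (n : ℝ) • x ∈ χ (idx x)
        · rw [Set.indicator_of_mem h, Set.indicator_of_mem (show x ∈ {x | (n : ℝ) • x ∈ χ (idx x)} from h)]
        · rw [Set.indicator_of_notMem h,
            Set.indicator_of_notMem (show x ∉ {x | (n : ℝ) • x ∈ χ (idx x)} from h)]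
      · intro i _ hi
        rw [Set.indicator_of_notMem (show x ∉ {y | idx y = i} from fun h => hi h.symm), zero_mul]
      · intro h; exact absurd (Finset.mem_univ _) h
    · intro i _
      refine Measure.integrableOn_of_bounded (M := 1) (cell_fin hE) ?_ ?_
      · exact ((ind_meas _ (hI i)).mul
          ((ind_meas _ (hχ i).1).comp (measurable_const_smul (n : ℝ)))).aestronglyMeasurable
      · refine Eventually.of_forall fun x => ?_
        rw [norm_mul, Real.norm_eq_abs, Real.norm_eq_abs]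
        have := ind_bdd {x | idx x = i} x
        have := ind_bdd (χ i) ((n : ℝ) • x)
        calc _ ≤ (1 : ℝ) * 1 := by
              refine mul_le_mul ?_ ?_ (abs_nonneg _) zero_le_one <;> assumption
          _ = 1 := one_mul 1
  simp only [h1]
  refine tendsto_finset_sum _ fun i _ => ?_
  have h2 := hAvg ({x | idx x = i}.indicator (fun _ => (1 : ℝ)))
    ((χ i).indicator (fun _ => (1 : ℝ))) (ind_meas _ (hI i)) (ind_per _ (hIp i))
    ⟨1, ind_bdd _⟩ (ind_meas _ (hχ i).1) (ind_per _ (hχ i).2) (ind_int hE _ (hχ i).1)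
  rwa [frac_eq _ (hI i), frac_eq _ (hχ i).1] at h2

theorem fld_weaken {D : V d → Tens d} {α β : ℝ} (hα : 0 ≤ α) (h : IsFld D α β) : IsFld D 0 β :=
  ⟨h.meas, h.per, fun x A => by
    rw [zero_mul]; exact le_trans (mul_nonneg hα (nsq_nonneg A)) (h.lo x A), h.hi⟩

end RzHomAux

open RzHomAux

/-- A11a -/
theorem RzBase_ok (hE : BaseE d) : StmtRzBase d := by
  intro A hA
  have hpsd := hA.psd
  constructor
  · intro η hη
    refine ⟨1, one_pos, fun δ _ _ => ⟨Set.univ, micro_univ, ?_, ?_⟩⟩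
    · rw [frac_univ hE]; simpa using hη
    · intro ε
      have h1 : phase A δ (Set.univ : Set (V d)) = fun _ => A := by
        funext x; simp [phase]
      rw [h1, hE.eff_const A hpsd ε]
      have h2 := hpsd ε
      have h3 := nsq_nonneg ε
      constructor
      · nlinarith
      · nlinarith
  · intro η hη
    obtain ⟨β, hβ, hb⟩ := A.exists_bound
    refine ⟨η / β, by positivity, fun δ hδ hδ2 => ⟨∅, micro_empty, ?_, ?_⟩⟩
    · rw [frac_empty]; simpa using hη
    · intro ε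
      have h1 : phase A δ (∅ : Set (V d)) = fun _ => A.scale δ := by
        funext x; simp [phase]
      have h0 : (A.scale δ).PSD := by
        intro ξ
        rw [scale_Q]; exact mul_nonneg hδ.le (hpsd ξ)
      have hz : (zeroT d).Q ε = 0 := by
        show ip ((0 : M d →ₗ[ℝ] M d) ε) ε = 0
        simp [ip]
      rw [h1, hE.eff_const _ h0 ε, scale_Q, hz]
      have h2 := hpsd ε
      have h3 := nsq_nonneg ε
      have h4 := (le_abs_self _).trans (hb ε)
      constructor
      · rw [mul_zero]; exact mul_nonneg hδ.le h2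
      · rw [zero_add]
        have h5 : δ * β ≤ η := by
          rw [lt_div_iff₀ hβ] at hδ2; exact hδ2.le
        calc δ * A.Q ε ≤ δ * (β * nsq ε) := mul_le_mul_of_nonneg_left h4 hδ.le
          _ = δ * β * nsq ε := by ring
          _ ≤ η * nsq ε := mul_le_mul_of_nonneg_right h5 h3

/-- A11b' -/
theorem HomN_ok (hE : BaseE d) (hUp : StmtTSup d) (hLo : StmtTSlo d) (hEff : StmtEff d)
    (hMono : StmtMono d) (hCont : StmtCont d) (hAvg : StmtAvg d) : StmtHomN d := by
  intro A hA m idx hm hp T f hT W hW η hη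
  obtain ⟨α, hα, β, hβ, hb⟩ := bounds A hA
  -- a common bound for the `T i`
  obtain ⟨B, hB0, hB⟩ : ∃ B : ℝ, 0 ≤ B ∧ ∀ i ξ, (T i).Q ξ ≤ B * nsq ξ := by
    choose b hb0 hb1 using fun i => (T i).exists_bound
    refine ⟨∑ i, b i, Finset.sum_nonneg fun i _ => (hb0 i).le, fun i ξ => ?_⟩
    refine ((le_abs_self _).trans (hb1 i ξ)).trans (mul_le_mul_of_nonneg_right ?_ (nsq_nonneg _))
    exact Finset.single_le_sum (f := b) (fun j _ => (hb0 j).le) (Finset.mem_univ i)
  have hTf : IsFld (fun x => T (idx x)) 0 B :=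
    hE.step_fld m idx T 0 B hm hp fun i ξ => ⟨by rw [zero_mul]; exact hT i ξ, hB i ξ⟩
  obtain ⟨η₁, hη₁, hc⟩ := hCont (fun x => T (idx x)) B hTf (η / 2) (by positivity)
  refine ⟨min (min η₁ 1) (min (η / 2) (η / (2 * (m + 1)))), by positivity, ?_⟩
  set η' := min (min η₁ 1) (min (η / 2) (η / (2 * (m + 1)))) with hη'
  have e1 : η' ≤ η₁ := (min_le_left _ _).trans (min_le_left _ _)
  have e2 : η' ≤ 1 := (min_le_left _ _).trans (min_le_right _ _)
  have e3 : η' ≤ η / 2 := (min_le_right _ _).trans (min_le_left _ _)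
  have e4 : η' ≤ η / (2 * (m + 1)) := (min_le_right _ _).trans (min_le_right _ _)
  have e0 : 0 < η' := by rw [hη']; positivity
  intro δ hδ hδ1 χ hχ hfr heff
  have hD : ∀ i, IsFld (phase A δ (χ i)) (δ * α) β := fun i =>
    hE.phase_fld A α β hα hb (χ i) (hχ i) δ hδ hδ1.le
  have hδα : 0 < δ * α := mul_pos hδ hα
  have hD0 : ∀ i, IsFld (phase A δ (χ i)) 0 β := fun i => fld_weaken hδα.le (hD i)
  choose Wi hWi hWb using fun i => hEff _ β (hD0 i)
  have hWlo : ∀ i ξ, δ * α * nsq ξ ≤ (Wi i).Q ξ ∧ (Wi i).Q ξ ≤ β * nsq ξ := by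
    intro i ξ
    rw [hWi]
    exact hE.eff_bd _ _ _ hδα.le (hD i) ξ
  have hWf : IsFld (fun x => Wi (idx x)) (δ * α) β := hE.step_fld m idx Wi _ _ hm hp hWlo
  have hWf0 := fld_weaken hδα.le hWf
  obtain ⟨E, hEe, -⟩ := hEff _ β hWf0
  have hF : ∀ n : ℕ, IsFld (fun x => phase A δ (χ (idx x)) ((n : ℝ) • x)) (δ * α) β := fun n =>
    hE.osc_fld m idx (fun i => phase A δ (χ i)) _ _ hm hp hD n
  choose En hEn _ using fun n => hEff _ β (fld_weaken hδα.le (hF n))
  -- convergence
  have hconv : ∀ ξ, Tendsto (fun n => (En n).Q ξ) atTop (𝓝 (E.Q ξ)) := by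
    intro ξ
    rw [Metric.tendsto_atTop]
    intro κ hκ
    obtain ⟨n₁, h1⟩ := hUp m idx hm hp (fun i => phase A δ (χ i)) _ _ hδα hD Wi hWi ξ (κ / 2)
      (by positivity)
    obtain ⟨n₂, h2⟩ := hLo m idx hm hp (fun i => phase A δ (χ i)) _ _ hδα hD Wi hWi ξ (κ / 2)
      (by positivity)
    refine ⟨max n₁ n₂, fun n hn => ?_⟩
    have h3 := h1 n ((le_max_left _ _).trans hn)
    have h4 := h2 n ((le_max_right _ _).trans hn)
    rw [← hEe, ← hEn] at h3 h4
    rw [Real.dist_eq, abs_lt]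
    constructor <;> linarith
  have hτ : 0 < η / 2 * min 1 (δ * α) := by positivity
  have hunif := tens_unif En E hconv _ hτ
  -- volume
  have hvol := (frac_osc hE hAvg idx hm hp χ hχ).eventually
    (Metric.ball_mem_nhds _ (show (0 : ℝ) < η / 2 by positivity))
  obtain ⟨n₀, hn₀⟩ := (hunif.and hvol).exists_forall_of_atTop
  refine ⟨n₀, fun n hn => ?_⟩
  obtain ⟨hu, hv⟩ := hn₀ n hn
  refine ⟨micro_osc idx hm hp χ hχ n, ?_, fun ε => ?_⟩
  · have hv' : |frac {x | (n : ℝ) • x ∈ χ (idx x)} - ∑ i, frac {x | idx x = i} * frac (χ i)| <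
        η / 2 := by
      have := Metric.mem_ball.mp hv
      rwa [Real.dist_eq] at this
    have h5 : |∑ i, frac {x | idx x = i} * frac (χ i) - ∑ i, frac {x | idx x = i} * f i| ≤
        η / 2 := by
      rw [← Finset.sum_sub_distrib]
      refine (Finset.abs_sum_le_sum_abs _ _).trans ?_
      calc ∑ i, |frac {x | idx x = i} * frac (χ i) - frac {x | idx x = i} * f i|
          ≤ ∑ _i : Fin m, η' := by
            refine Finset.sum_le_sum fun i _ => ?_
            rw [← mul_sub, abs_mul, abs_of_nonneg (frac_nonneg _)]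
            calc frac {x | idx x = i} * |frac (χ i) - f i| ≤ 1 * η' :=
                  mul_le_mul (frac_le_one hE _) (hfr i).le (abs_nonneg _) zero_le_one
              _ = η' := one_mul _
        _ = m * η' := by simp
        _ ≤ m * (η / (2 * (m + 1))) := mul_le_mul_of_nonneg_left e4 (Nat.cast_nonneg _)
        _ ≤ η / 2 := by
          rw [mul_div_assoc', div_le_div_iff₀ (by positivity) (by norm_num)]
          nlinarith
    calc |frac {x | (n : ℝ) • x ∈ χ (idx x)} - ∑ i, frac {x | idx x = i} * f i|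
        ≤ |frac {x | (n : ℝ) • x ∈ χ (idx x)} - ∑ i, frac {x | idx x = i} * frac (χ i)| +
          |∑ i, frac {x | idx x = i} * frac (χ i) - ∑ i, frac {x | idx x = i} * f i| :=
          abs_sub_le _ _ _
      _ < η := by linarith
  · have hph : phase A δ {x | (n : ℝ) • x ∈ χ (idx x)} =
        fun x => phase A δ (χ (idx x)) ((n : ℝ) • x) := rfl
    rw [hph, ← hEn]
    have hns := nsq_nonneg ε
    have h6 := hu ε
    rw [abs_le] at h6
    have hmin1 : min 1 (δ * α) ≤ 1 := min_le_left _ _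
    have hmin2 : min 1 (δ * α) ≤ δ * α := min_le_right _ _
    have h7 : η / 2 * min 1 (δ * α) * nsq ε ≤ η / 2 * nsq ε := by
      have : η / 2 * min 1 (δ * α) ≤ η / 2 * 1 := mul_le_mul_of_nonneg_left hmin1 (by positivity)
      rw [mul_one] at this
      exact mul_le_mul_of_nonneg_right this hns
    have hElo : δ * α * nsq ε ≤ E.Q ε := by
      rw [hEe]; exact (hE.eff_bd _ _ _ hδα.le hWf ε).1
    have h8 : η / 2 * min 1 (δ * α) * nsq ε ≤ η / 2 * E.Q ε := by
      have h9 : min 1 (δ * α) * nsq ε ≤ E.Q ε :=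
        (mul_le_mul_of_nonneg_right hmin2 hns).trans hElo
      calc η / 2 * min 1 (δ * α) * nsq ε = η / 2 * (min 1 (δ * α) * nsq ε) := by ring
        _ ≤ _ := mul_le_mul_of_nonneg_left h9 (by positivity)
    -- upper bound for E
    have hEup : E.Q ε ≤ W.Q ε + η / 2 * nsq ε := by
      rw [hEe, hW]
      refine hc _ β hWf0 (fun x ξ => ?_) ε
      show (Wi (idx x)).Q ξ ≤ (T (idx x)).Q ξ + η₁ * nsq ξ
      rw [hWi]
      refine (heff (idx x) ξ).2.trans ?_
      have := mul_le_mul_of_nonneg_right e1 (nsq_nonneg ξ)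
      linarith
    -- lower bound for E
    have hElow : (1 - η') * W.Q ε ≤ E.Q ε := by
      rw [hEe, hW, ← hE.eff_scale _ B hTf (1 - η') (by linarith) ε]
      refine hMono _ _ B β ?_ hWf0 (fun x ξ => ?_) ε
      · refine hE.step_fld m idx (fun i => (T i).scale (1 - η')) 0 B hm hp fun i ξ => ?_
        rw [scale_Q, zero_mul]
        have h1 := hT i ξ
        refine ⟨mul_nonneg (by linarith) h1, le_trans ?_ (hB i ξ)⟩
        nlinarith
      · show ((T (idx x)).scale (1 - η')).Q ξ ≤ (Wi (idx x)).Q ξ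
        rw [scale_Q, hWi]
        exact (heff (idx x) ξ).1
    have hWnn : 0 ≤ W.Q ε := by
      rw [hW]
      refine hE.le_eff _ _ _ fun u => hE.nonneg _ B hTf ε u
    have hEnn : 0 ≤ E.Q ε := le_trans (mul_nonneg hδα.le hns) hElo
    have hEnnn : 0 ≤ (En n).Q ε := by
      rw [hEn]
      exact le_trans (mul_nonneg hδα.le hns) (hE.eff_bd _ _ _ hδα.le (hF n) ε).1
    constructor
    · by_cases h10 : η / 2 ≤ 1
      · have h11 : (1 - η / 2) * E.Q ε ≤ (En n).Q ε := by linarith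
        have h12 : (1 - η / 2) * ((1 - η') * W.Q ε) ≤ (1 - η / 2) * E.Q ε :=
          mul_le_mul_of_nonneg_left hElow (by linarith)
        have h13 : (1 - η / 2) * W.Q ε ≤ (1 - η') * W.Q ε :=
          mul_le_mul_of_nonneg_right (by linarith) hWnn
        have h14 : (1 - η / 2) * ((1 - η / 2) * W.Q ε) ≤ (1 - η / 2) * ((1 - η') * W.Q ε) :=
          mul_le_mul_of_nonneg_left h13 (by linarith)
        have h15 : (1 - η) * W.Q ε ≤ (1 - η / 2) * ((1 - η / 2) * W.Q ε) := by
          nlinarith [sq_nonneg (η / 2)]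
        linarith
      · push Not at h10
        have : (1 - η) * W.Q ε ≤ 0 := mul_nonpos_of_nonpos_of_nonneg (by linarith) hWnn
        linarith
    · linarith

/-- A11b -/
theorem RzHom_ok (h : StmtHomN d) : StmtRzHom d := by
  intro A hA m idx hm hp T f hT hR W hW η hη
  obtain ⟨η', hη', hN⟩ := h A hA m idx hm hp T f hT W hW η hη
  choose δi hδi hRi using fun i => hR i η' hη'
  obtain ⟨δ₀, hδ₀, hle⟩ : ∃ δ₀ : ℝ, 0 < δ₀ ∧ ∀ i, δ₀ ≤ δi i := by
    have h1 : ∀ᶠ x in 𝓝[>] (0 : ℝ), ∀ i, x < δi i := by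
      rw [eventually_all]
      intro i
      exact (gt_mem_nhds (hδi i)).filter_mono nhdsWithin_le_nhds
    obtain ⟨x, hx, hx0⟩ := (h1.and self_mem_nhdsWithin).exists
    exact ⟨x, hx0, fun i => (hx i).le⟩
  refine ⟨min δ₀ 1, by positivity, fun δ hδ hδ2 => ?_⟩
  have hd1 : δ < δ₀ := lt_of_lt_of_le hδ2 (min_le_left _ _)
  have hd2 : δ < 1 := lt_of_lt_of_le hδ2 (min_le_right _ _)
  choose χ hχ hfr heff using fun i => hRi i δ hδ (lt_of_lt_of_le hd1 (hle i))
  obtain ⟨n₀, hn⟩ := hN δ hδ hd2 χ hχ hfr heff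
  exact ⟨_, hn n₀ le_rfl⟩

/-- A11c -/
theorem RzLim_ok : StmtRzLim d := by
  intro A _ C f hC hlim η hη
  obtain ⟨α, hα, hCα⟩ := hC
  set η₃ := min (η / 2) (1 / 2) with h3
  have h30 : 0 < η₃ := by rw [h3]; positivity
  have h31 : η₃ ≤ η / 2 := min_le_left _ _
  have h32 : η₃ ≤ 1 / 2 := min_le_right _ _
  obtain ⟨C', f', hR, hf, hq⟩ := hlim (min η₃ (η₃ * α)) (by positivity)
  obtain ⟨δ₀, hδ₀, hδ⟩ := hR η₃ h30
  refine ⟨δ₀, hδ₀, fun δ hd1 hd2 => ?_⟩
  obtain ⟨χ, hχ, hfr, heff⟩ := hδ δ hd1 hd2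
  refine ⟨χ, hχ, ?_, fun ε => ?_⟩
  · have h4 : |f' - f| < η₃ := lt_of_lt_of_le hf (min_le_left _ _)
    calc |frac χ - f| ≤ |frac χ - f'| + |f' - f| := abs_sub_le _ _ _
      _ < η := by linarith
  · have hns := nsq_nonneg ε
    have h5 := hq ε
    rw [abs_le] at h5
    have h6 : min η₃ (η₃ * α) * nsq ε ≤ η₃ * nsq ε :=
      mul_le_mul_of_nonneg_right (min_le_left _ _) hns
    have h7 : min η₃ (η₃ * α) * nsq ε ≤ η₃ * α * nsq ε :=
      mul_le_mul_of_nonneg_right (min_le_right _ _) hns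
    have h8 := hCα ε
    have h9 : η₃ * α * nsq ε ≤ η₃ * C.Q ε := by
      rw [mul_assoc]; exact mul_le_mul_of_nonneg_left h8 h30.le
    have h10 : 0 ≤ C.Q ε := le_trans (mul_nonneg hα.le hns) h8
    have h11 : (1 - η₃) * C.Q ε ≤ C'.Q ε := by linarith
    obtain ⟨h12, h13⟩ := heff ε
    constructor
    · have h14 : (1 - η₃) * ((1 - η₃) * C.Q ε) ≤ (1 - η₃) * C'.Q ε :=
        mul_le_mul_of_nonneg_left h11 (by linarith)
      have h15 : (1 - η) * C.Q ε ≤ (1 - η₃) * ((1 - η₃) * C.Q ε) := by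
        nlinarith [mul_nonneg (sq_nonneg η₃) h10, mul_le_mul_of_nonneg_right h31 h10]
      linarith
    · have h16 : η₃ * nsq ε ≤ η / 2 * nsq ε := mul_le_mul_of_nonneg_right h31 hns
      linarith

end Pool.Agent.Lib.MP_5df1bf_an
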