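import Pool.Agent.Lib.MP_5df1bf_an.Stmts1

/-!
# MP_5df1bf_an: sequential laminates (A14)
-/

open MeasureTheory Filter Topology
open scoped BigOperators ContDiff

noncomputable section

namespace Pool.Agent.Lib.MP_5df1bf_an

variable {d : ℕ}

/-- the energy of a laminate in terms of the Hashin-Shtrikman function -/
theorem lam_HS_identity (A : Tens d) (ϖ ρ : ℝ) (g : M d → ℝ) (n a : V d) (ε q : M d) :
    (1 - ρ) * A.Q (ε + ρ • sd a n) + ρ * HS A ϖ g (ε - (1 - ρ) • sd a n) q =
      A.Q ε + ρ * (1 - ρ) * A.Q (sd a n) - 2 * (ρ * ϖ) * ip q (symm ε) +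
        2 * ρ * (1 - ρ) * ϖ * ip q (sd a n) + ρ * ϖ * (Inv A q - g q) := by
  unfold HS
  rw [A.Q_add, A.Q_sub, A.Q_smul, A.Q_smul, symm_sub, symm_smul, symm_sd, ip_sub_right,
    ip_smul_right, ip_smul_right, ip_smul_right]
  ring

/-- one lamination step -/
theorem lam_step_glb (A T : Tens d) {ϖ ρ : ℝ} (hϖ : 0 < ϖ) (hρ : 0 < ρ)
    (hρ1 : ρ < 1) (g : M d → ℝ) (n : V d)
    (hG1 : ∀ q a, 2 * ip q (sd a n) - A.Q (sd a n) ≤ Gam A n q)
    (hG2 : ∀ q, ∃ a, 2 * ip q (sd a n) - A.Q (sd a n) = Gam A n q)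
    (hT : ∀ ε, IsGLB (Set.range fun q => HS A ϖ g ε q) (T.Q ε)) (ε : M d) (E : ℝ)
    (hE : IsGLB (Set.range fun a => (1 - ρ) * A.Q (ε + ρ • sd a n) +
      ρ * T.Q (ε - (1 - ρ) • sd a n)) E) :
    IsGLB (Set.range fun q => HS A (ρ * ϖ) (fun q => g q + (1 - ρ) * ϖ * Gam A n q) ε q) E := by
  constructor
  · rintro _ ⟨q, rfl⟩
    obtain ⟨a', ha'⟩ := hG2 q
    have h1 := hE.1 ⟨(-ϖ) • a', rfl⟩
    have h2 := (hT (ε - (1 - ρ) • sd ((-ϖ) • a') n)).1 ⟨q, rfl⟩
    have h3 := lam_HS_identity A ϖ ρ g n ((-ϖ) • a') ε q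
    simp only at h1 h2 ⊢
    have h4 : ρ * T.Q (ε - (1 - ρ) • sd ((-ϖ) • a') n) ≤
        ρ * HS A ϖ g (ε - (1 - ρ) • sd ((-ϖ) • a') n) q := mul_le_mul_of_nonneg_left h2 hρ.le
    refine h1.trans ((add_le_add_right h4 _).trans ?_)
    rw [h3, sd_smul_left, A.Q_smul, ip_smul_right]
    unfold HS
    simp only
    rw [← ha']
    apply le_of_eq
    ring
  · intro b hb
    refine hE.2 ?_
    rintro _ ⟨a, rfl⟩
    simp only
    have h1 : (b - (1 - ρ) * A.Q (ε + ρ • sd a n)) / ρ ≤ T.Q (ε - (1 - ρ) • sd a n) := by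
      refine (hT (ε - (1 - ρ) • sd a n)).2 ?_
      rintro _ ⟨q, rfl⟩
      simp only
      rw [div_le_iff₀ hρ]
      have h2 := hb ⟨q, rfl⟩
      have h3 := lam_HS_identity A ϖ ρ g n a ε q
      have h4 := hG1 q ((-(1 / ϖ)) • a)
      rw [sd_smul_left, A.Q_smul, ip_smul_right] at h4
      have h5 : -(2 * ϖ * ip q (sd a n)) - A.Q (sd a n) ≤ ϖ ^ 2 * Gam A n q := by
        have h6 := mul_le_mul_of_nonneg_left h4 (sq_nonneg ϖ)
        have h7 : ϖ ^ 2 * (2 * (-(1 / ϖ) * ip q (sd a n)) - (-(1 / ϖ)) ^ 2 * A.Q (sd a n)) =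
            -(2 * ϖ * ip q (sd a n)) - A.Q (sd a n) := by
          field_simp
        linarith
      simp only at h2
      unfold HS at h2
      have h8 : 0 < ρ * (1 - ρ) := mul_pos hρ (by linarith)
      have h9 := mul_le_mul_of_nonneg_left h5 h8.le
      have h10 : HS A ϖ g (ε - (1 - ρ) • sd a n) q * ρ = ρ * HS A ϖ g (ε - (1 - ρ) • sd a n) q :=
        mul_comm _ _
      nlinarith [h9, h3, h2, h10]
    rw [div_le_iff₀ hρ] at h1
    linarith

/-- the general induction over the layers -/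
theorem seq_aux (hE : BaseE d) (hLam : StmtLam d) (hVol : StmtLayVol d) (hHom : StmtRzHom d)
    (hBase : StmtRzBase d) (hEff : StmtEff d) (hInv : StmtInvT d) (hGam : StmtGamT d)
    (A : Tens d) (hA : A.PD) :
    ∀ (r : ℕ) (n : Fin r → (Fin d → ℤ)) (c : Fin r → ℝ), (∀ i, n i ≠ 0) → (∀ i, 0 < c i) →
      (∑ i, c i < 1) → ∃ W : Tens d, Rz A W (∑ i, c i) ∧ W.PSD ∧
        ∀ ε, IsGLB (Set.range fun q : M d =>
          HS A (1 - ∑ i, c i) (fun q => ∑ i, c i * Gam A (zv (n i)) q) ε q) (W.Q ε) := by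
  obtain ⟨Ai, -, hAi, hle, hinv⟩ := hInv A hA
  obtain ⟨Γ, -, -, hG1, hG2, -⟩ := hGam A hA
  intro r
  induction r with
  | zero =>
    intro n c _ _ _
    refine ⟨zeroT d, ?_, ?_, ?_⟩
    · simpa using (hBase A hA).2
    · intro ξ
      show 0 ≤ ip ((0 : M d →ₗ[ℝ] M d) ξ) ξ
      simp [ip_zero_left]
    · intro ε
      have h0 : (zeroT d).Q ε = 0 := by
        show ip ((0 : M d →ₗ[ℝ] M d) ε) ε = 0
        simp [ip_zero_left]
      rw [h0]
      have hHS : ∀ q, HS A (1 - ∑ i : Fin 0, c i)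
          (fun q => ∑ i : Fin 0, c i * Gam A (zv (n i)) q) ε q =
          A.Q ε - 2 * ip q (symm ε) + Inv A q := by
        intro q
        unfold HS
        simp
      refine ⟨?_, ?_⟩
      · rintro _ ⟨q, rfl⟩
        simp only
        rw [hHS]
        have := hle ε q
        linarith
      · intro b hb
        have h1 := hb ⟨A.C ε, rfl⟩
        simp only at h1
        rw [hHS, hAi] at h1
        have h2 : Ai.Q (A.C ε) = A.Q ε := by
          unfold Tens.Q
          rw [(hinv ε).1, ip_symm_left, A.symm_C, ip_comm]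
        have h3 : ip (A.C ε) (symm ε) = A.Q ε := by
          rw [A.ip_C_symm]; rfl
        rw [h2, h3] at h1
        linarith
  | succ r ih =>
    intro n c hn hc hsum
    rw [Fin.sum_univ_castSucc] at hsum
    have hpos : 0 < c (Fin.last r) := hc _
    have hnn : 0 ≤ ∑ i : Fin r, c i.castSucc := Finset.sum_nonneg fun i _ => (hc _).le
    obtain ⟨T, hTR, hTP, hTQ⟩ := ih (fun i => n i.castSucc) (fun i => c i.castSucc)
      (fun i => hn _) (fun i => hc _) (by linarith)
    set f : ℝ := ∑ i : Fin r, c i.castSucc with hf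
    set g : M d → ℝ := fun q => ∑ i : Fin r, c i.castSucc * Gam A (zv (n i.castSucc)) q with hg
    set ϖ : ℝ := 1 - f with hϖ
    have hϖ0 : 0 < ϖ := by linarith
    set ρ : ℝ := (ϖ - c (Fin.last r)) / ϖ with hρ
    have hρ0 : 0 < ρ := div_pos (by linarith) hϖ0
    have hρ1 : ρ < 1 := by
      rw [hρ, div_lt_one hϖ0]; linarith
    have hρϖ : ρ * ϖ = ϖ - c (Fin.last r) := by
      rw [hρ]; field_simp
    set k := n (Fin.last r) with hk
    have hk0 : k ≠ 0 := hn _
    -- the laminate
    set L : Set (V d) := lay k (1 - ρ) with hL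
    obtain ⟨hLm, hLf⟩ := hVol k hk0 (1 - ρ) (by linarith) (by linarith)
    classical
    set idx : V d → Fin 2 := fun x => if x ∈ L then 0 else 1 with hidx
    set TT : Fin 2 → Tens d := ![A, T] with hTT
    have hmeas : Measurable idx := Measurable.ite hLm.1 measurable_const measurable_const
    have hper : Per idx := by
      intro x i
      simp only [hidx]
      rw [if_congr (hLm.2 x i) rfl rfl]
    have hTTp : ∀ i, (TT i).PSD := by
      intro i
      fin_cases i
      · exact hA.psd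
      · exact hTP
    obtain ⟨β1, hβ1, hb1⟩ := A.exists_bound
    obtain ⟨β2, hβ2, hb2⟩ := T.exists_bound
    have hfld : IsFld (fun x => TT (idx x)) 0 (max β1 β2) := by
      refine hE.step_fld 2 idx TT 0 (max β1 β2) hmeas hper ?_
      intro i ξ
      refine ⟨by rw [zero_mul]; exact hTTp i ξ, ?_⟩
      fin_cases i
      · exact (le_abs_self _).trans ((hb1 ξ).trans
          (mul_le_mul_of_nonneg_right (le_max_left _ _) (nsq_nonneg _)))
      · exact (le_abs_self _).trans ((hb2 ξ).trans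
          (mul_le_mul_of_nonneg_right (le_max_right _ _) (nsq_nonneg _)))
    obtain ⟨W, hW1, hW2⟩ := hEff (fun x => TT (idx x)) (max β1 β2) hfld
    have hfr0 : frac {x | idx x = 0} = 1 - ρ := by
      have h1 : {x | idx x = 0} = L := by
        ext x
        change idx x = 0 ↔ x ∈ L
        simp only [hidx]
        by_cases hx : x ∈ L
        · simp [hx]
        · simp [hx]
      rw [h1]
      exact hLf
    have hfr1 : frac {x | idx x = 1} = ρ := by
      have h1 : {x | idx x = 1} = Lᶜ := by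
        ext x
        change idx x = 1 ↔ x ∉ L
        simp only [hidx]
        by_cases hx : x ∈ L
        · simp [hx]
        · simp [hx]
      rw [h1]
      have h2 : volume (L ∩ cell d) + volume (Lᶜ ∩ cell d) = 1 := by
        rw [← hE.vol]
        have h3 := measure_inter_add_sdiff (μ := volume) (cell d) hLm.1
        rw [Set.inter_comm L, Set.inter_comm Lᶜ]
        exact h3
      have h4 : (volume (L ∩ cell d)).toReal + (volume (Lᶜ ∩ cell d)).toReal = 1 := by
        rw [← ENNReal.toReal_add, h2, ENNReal.toReal_one]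
        · intro h; rw [h] at h2; simp at h2
        · intro h; rw [h] at h2; simp at h2
      unfold frac at hLf ⊢
      linarith
    refine ⟨W, ?_, fun ξ => (hW2 ξ).1, ?_⟩
    · have h1 := hHom A hA 2 idx hmeas hper TT ![1, f] hTTp (by
        intro i
        fin_cases i
        · exact (hBase A hA).1
        · exact hTR) W hW1
      have h2 : ∑ i, frac {x | idx x = i} * (![1, f] : Fin 2 → ℝ) i = ∑ i, c i := by
        rw [Fin.sum_univ_two, hfr0, hfr1, Fin.sum_univ_castSucc]
        simp only [Matrix.cons_val_zero, Matrix.cons_val_one]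
        have h3 : ρ * ϖ = ρ * (1 - f) := rfl
        rw [hρϖ] at h3
        rw [← hf]
        linarith
      rwa [h2] at h1
    · intro ε
      have hlam := hLam k hk0 (1 - ρ) (by linarith) (by linarith) A T (fun x => TT (idx x))
        hA.psd hTP (by
          intro x hx
          have : idx x = 0 := by simp only [hidx]; exact if_pos hx
          simp only [this]; rfl) (by
          intro x hx
          have : idx x = 1 := by simp only [hidx]; exact if_neg hx
          simp only [this]; rfl) ε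
      rw [show 1 - (1 - ρ) = ρ by ring] at hlam
      have hglb : IsGLB (Set.range fun a => (1 - ρ) * A.Q (ε + ρ • sd a (zv k)) +
          ρ * T.Q (ε - (1 - ρ) • sd a (zv k))) (W.Q ε) := by
        rw [hW1, hlam]
        refine isGLB_ciInf ⟨0, ?_⟩
        rintro _ ⟨a, rfl⟩
        simp only
        have h1 := hA.psd (ε + ρ • sd a (zv k))
        have h2 := hTP (ε - (1 - ρ) • sd a (zv k))
        have h3 : 0 < 1 - ρ := by linarith
        positivity
      have h1 := lam_step_glb A T hϖ0 hρ0 hρ1 g (zv k) (hG1 (zv k)) (hG2 (zv k)) hTQ ε (W.Q ε) hglb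
      have h2 : ρ * ϖ = 1 - ∑ i, c i := by
        rw [hρϖ, Fin.sum_univ_castSucc]; ring
      have h3 : (fun q => g q + (1 - ρ) * ϖ * Gam A (zv k) q) =
          fun q => ∑ i, c i * Gam A (zv (n i)) q := by
        funext q
        rw [Fin.sum_univ_castSucc]
        have h4 : (1 - ρ) * ϖ = c (Fin.last r) := by linarith [hρϖ]
        rw [h4]
      rw [h2, h3] at h1
      exact h1

/-- A14: sequential laminates -/
theorem Seq_ok (d : ℕ) (hE : BaseE d) (hLam : StmtLam d) (hVol : StmtLayVol d)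
    (hHom : StmtRzHom d) (hBase : StmtRzBase d) (hEff : StmtEff d) (hInv : StmtInvT d)
    (hGam : StmtGamT d) : StmtSeq d := by
  intro A hA r n c hn hc f _ hf1 hsum
  obtain ⟨W, h1, h2, h3⟩ := seq_aux hE hLam hVol hHom hBase hEff hInv hGam A hA r n c hn hc
    (by rw [hsum]; exact hf1)
  rw [hsum] at h1
  refine ⟨W, h1, h2, fun ε => ?_⟩
  have h4 := h3 ε
  rw [hsum] at h4
  exact h4.csInf_eq (Set.range_nonempty _) |>.symm

end Pool.Agent.Lib.MP_5df1bf_an
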