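import Pool.Agent.Lib.MP_5df1bf_an.Stmts3

/-!
# MP_5df1bf_an, D8: approximation of real directions by integer directions
-/

open MeasureTheory Filter Topology
open scoped BigOperators ContDiff

noncomputable section

namespace Pool.Agent.Lib.MP_5df1bf_an

variable {d : ℕ}

/-- rational approximation of a direction -/
theorem exists_int_dir (n : V d) (hn : n ≠ 0) (ρ : ℝ) (hρ : 0 < ρ) :
    ∃ (z : Fin d → ℤ) (t : ℝ), z ≠ 0 ∧ t ≠ 0 ∧ ∀ i, |(t • zv z) i - n i| < ρ := by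
  obtain ⟨i₀, hi₀⟩ := Function.ne_iff.1 hn
  have hi₀' : 0 < |n i₀| := abs_pos.2 hi₀
  obtain ⟨N, hN⟩ := exists_nat_gt (max (1 / ρ) (1 / |n i₀|))
  have hN1 : 1 / ρ < N := lt_of_le_of_lt (le_max_left _ _) hN
  have hN2 : 1 / |n i₀| < N := lt_of_le_of_lt (le_max_right _ _) hN
  have hNpos : (0 : ℝ) < N := lt_trans (by positivity) hN1
  have key : ∀ i, |(1 / (N : ℝ)) * (round ((N : ℝ) * n i) : ℝ) - n i| ≤ 1 / (2 * N) := by
    intro i
    have h1 := abs_sub_round ((N : ℝ) * n i)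
    have h2 : (1 / (N : ℝ)) * (round ((N : ℝ) * n i) : ℝ) - n i
        = -(1 / (N : ℝ)) * ((N : ℝ) * n i - round ((N : ℝ) * n i)) := by
      field_simp
      ring
    rw [h2, abs_mul, abs_neg, abs_of_pos (by positivity : (0 : ℝ) < 1 / N)]
    calc 1 / (N : ℝ) * |(N : ℝ) * n i - round ((N : ℝ) * n i)| ≤ 1 / (N : ℝ) * (1 / 2) :=
          mul_le_mul_of_nonneg_left h1 (by positivity)
      _ = 1 / (2 * N) := by field_simp
  refine ⟨fun i => round ((N : ℝ) * n i), 1 / (N : ℝ), ?_, by positivity, ?_⟩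
  · intro h0
    have h1 := key i₀
    have h2 : round ((N : ℝ) * n i₀) = 0 := congrFun h0 i₀
    rw [h2, Int.cast_zero, mul_zero, zero_sub, abs_neg] at h1
    rw [div_lt_iff₀ hi₀'] at hN2
    rw [le_div_iff₀ (by positivity)] at h1
    nlinarith
  · intro i
    have h1 := key i
    have h2 : (1 : ℝ) / (2 * N) < ρ := by
      rw [div_lt_iff₀ hρ] at hN1
      rw [div_lt_iff₀ (by positivity)]
      nlinarith
    have h3 : ((1 / (N : ℝ)) • zv (fun i => round ((N : ℝ) * n i))) i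
        = (1 / (N : ℝ)) * (round ((N : ℝ) * n i) : ℝ) := by
      simp [zv]
    rw [h3]
    exact lt_of_le_of_lt h1 h2

/-- D8 -/
theorem seqR (hSeq : StmtSeq d) (hG : StmtGamT d) (hI : StmtInvT d) : StmtSeqR d := by
  intro A f hA hf0 hf1 C hC hAdm η hη hη1
  obtain ⟨hCpsd, r, n, m, hn, hm0, hm1, hbd⟩ := hAdm
  obtain ⟨α, hα, hCα⟩ := hC
  obtain ⟨β, hβ, hAβ⟩ := A.exists_bound
  obtain ⟨Γ, hΓ1, hΓ2, _, _, hΓ5, _, hΓ7⟩ := hG A hA
  obtain ⟨Ai, hAiPD, hAi, _, _⟩ := hI A hA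
  have hr : 0 < r := by
    rcases Nat.eq_zero_or_pos r with h | h
    · subst h
      simp at hm1
    · exact h
  have hr' : (0 : ℝ) < r := by exact_mod_cast hr
  set ϖ : ℝ := 1 - f with hϖ
  have hϖ0 : 0 < ϖ := by linarith
  set θ : ℝ := η * α / (β + α) with hθ
  have hθ0 : 0 < θ := by positivity
  have hθβ : θ * β ≤ η * α := by
    rw [hθ, div_mul_eq_mul_div, div_le_iff₀ (by positivity)]
    have : 0 < η * α * α := by positivity
    nlinarith
  have hθ1 : θ < 1 := by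
    rw [hθ, div_lt_one (by positivity)]
    nlinarith
  set κ : ℝ := θ * ϖ / 2 with hκ
  have hκ0 : 0 < κ := by positivity
  have hκ1 : κ < 1 := by
    have : ϖ < 1 := by linarith
    rw [hκ]
    nlinarith
  have hn0 : ∀ i, n i ≠ 0 := by
    intro i h
    have := hn i
    rw [h] at this
    simp [dot] at this
  -- integer directions
  have hz : ∀ i, ∃ z : Fin d → ℤ, z ≠ 0 ∧
      ∀ q, |Gam A (zv z) q - Gam A (n i) q| ≤ κ * Inv A q := by
    intro i
    obtain ⟨ρ, hρ, h7⟩ := hΓ7 (n i) (hn0 i) κ hκ0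
    obtain ⟨z, t, hz0, ht0, hcl⟩ := exists_int_dir (n i) (hn0 i) ρ hρ
    refine ⟨z, hz0, fun q => ?_⟩
    rw [← hΓ5 (zv z) q t ht0]
    apply h7 _ _ hcl
    intro h
    apply hz0
    funext j
    have h1 := congrFun h j
    simp only [Pi.smul_apply, smul_eq_mul, zv, Pi.zero_apply, mul_eq_zero, ht0, false_or,
      Int.cast_eq_zero] at h1
    simpa using h1
  choose z hz0 hzG using hz
  set c : Fin r → ℝ := fun i => f * ((1 - κ) * m i + κ / r) with hc
  have hc0 : ∀ i, 0 < c i := by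
    intro i
    have h1 := hm0 i
    have h2 : 0 ≤ (1 - κ) * m i := mul_nonneg (by linarith) h1
    have h3 : 0 < κ / r := by positivity
    exact mul_pos hf0 (by linarith)
  have hcs : ∑ i, c i = f := by
    simp only [hc, ← Finset.mul_sum, Finset.sum_add_distrib, hm1, Finset.sum_const,
      Finset.card_univ, Fintype.card_fin, nsmul_eq_mul]
    field_simp
    ring
  obtain ⟨W, hRz, hWpsd, hW⟩ := hSeq A hA r z c hz0 hc0 f hf0 hf1 hcs
  refine ⟨W, hWpsd, hRz, ?_⟩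
  intro ξ
  rw [hW ξ]
  apply le_ciInf
  intro q
  set I := Inv A q with hIq
  have hI0 : 0 ≤ I := by
    rw [hIq, hAi]
    exact hAiPD.psd q
  set S := ∑ i, m i * Gam A (n i) q with hS
  have hSle : S ≤ I := by
    calc S ≤ ∑ i, m i * I := Finset.sum_le_sum fun i _ =>
          mul_le_mul_of_nonneg_left (hΓ2 (n i) q).2 (hm0 i)
      _ = I := by rw [← Finset.sum_mul, hm1, one_mul]
  have hS0 : 0 ≤ S := Finset.sum_nonneg fun i _ => mul_nonneg (hm0 i) (hΓ2 (n i) q).1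
  have hg : ∑ i, c i * Gam A (zv (z i)) q ≤ f * S + 2 * κ * I := by
    have h1 : ∑ i, c i * Gam A (zv (z i)) q ≤ ∑ i, c i * (Gam A (n i) q + κ * I) := by
      apply Finset.sum_le_sum
      intro i _
      apply mul_le_mul_of_nonneg_left _ (hc0 i).le
      have := (abs_le.1 (hzG i q)).2
      linarith
    have h2 : ∑ i, c i * (Gam A (n i) q + κ * I)
        = f * ((1 - κ) * S + κ / r * ∑ i, Gam A (n i) q) + f * (κ * I) := by
      simp only [mul_add, Finset.sum_add_distrib, ← Finset.sum_mul, hcs]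
      congr 1
      simp only [hc, hS, Finset.mul_sum, ← Finset.sum_add_distrib]
      apply Finset.sum_congr rfl
      intro i _
      ring
    have h3 : ∑ i, Gam A (n i) q ≤ r * I := by
      calc ∑ i, Gam A (n i) q ≤ ∑ _i : Fin r, I :=
            Finset.sum_le_sum fun i _ => (hΓ2 (n i) q).2
        _ = r * I := by simp
    have h4 : κ / r * ∑ i, Gam A (n i) q ≤ κ * I := by
      calc κ / r * ∑ i, Gam A (n i) q ≤ κ / r * (r * I) :=
            mul_le_mul_of_nonneg_left h3 (by positivity)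
        _ = κ * I := by field_simp
    have h5 : f * ((1 - κ) * S + κ / r * ∑ i, Gam A (n i) q) ≤ f * (S + κ * I) := by
      apply mul_le_mul_of_nonneg_left _ hf0.le
      nlinarith
    have h6 : f * (κ * I) ≤ κ * I := by
      have : 0 ≤ κ * I := by positivity
      nlinarith
    nlinarith
  set P := I - f * S with hP
  have hP1 : ϖ * I ≤ P := by
    rw [hP, hϖ]
    nlinarith
  have hP' : (1 - θ) * P ≤ I - ∑ i, c i * Gam A (zv (z i)) q := by
    have h1 : 2 * κ * I = θ * (ϖ * I) := by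
      rw [hκ]
      ring
    have h2 : θ * (ϖ * I) ≤ θ * P := mul_le_mul_of_nonneg_left hP1 hθ0.le
    linarith
  have hhom : HS A (1 - f) (fun q => f * ∑ i, m i * Gam A (n i) q) ξ ((1 - θ) • q)
      = A.Q ξ - 2 * ϖ * (1 - θ) * ip q (symm ξ) + ϖ * (1 - θ) ^ 2 * P := by
    have h1 : Inv A ((1 - θ) • q) = (1 - θ) ^ 2 * I := by
      rw [hIq, hAi, hAi, Tens.Q_smul]
    have h2 : ∀ i, Gam A (n i) ((1 - θ) • q) = (1 - θ) ^ 2 * Gam A (n i) q := by
      intro i
      rw [hΓ1 _ _ (hn0 i), hΓ1 _ _ (hn0 i), Tens.Q_smul]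
    have h3 : ∑ i, m i * Gam A (n i) ((1 - θ) • q) = (1 - θ) ^ 2 * S := by
      rw [hS, Finset.mul_sum]
      apply Finset.sum_congr rfl
      intro i _
      rw [h2]
      ring
    simp only [HS]
    rw [h1, h3, ip_smul_left, ← hϖ, hP]
    ring
  have hb := hbd ξ ((1 - θ) • q)
  rw [hhom] at hb
  have hX : HS A (1 - f) (fun q => ∑ i, c i * Gam A (zv (z i)) q) ξ q
      = A.Q ξ - 2 * ϖ * ip q (symm ξ) + ϖ * (I - ∑ i, c i * Gam A (zv (z i)) q) := by
    simp only [HS, ← hϖ, ← hIq]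
  rw [hX]
  set X := A.Q ξ - 2 * ϖ * ip q (symm ξ) + ϖ * (I - ∑ i, c i * Gam A (zv (z i)) q) with hXdef
  have h1 : A.Q ξ - 2 * ϖ * ip q (symm ξ) + ϖ * ((1 - θ) * P) ≤ X := by
    rw [hXdef]
    have := mul_le_mul_of_nonneg_left hP' hϖ0.le
    linarith
  have h2 : (1 - θ) * (A.Q ξ - 2 * ϖ * ip q (symm ξ) + ϖ * ((1 - θ) * P)) ≤ (1 - θ) * X :=
    mul_le_mul_of_nonneg_left h1 (by linarith)
  have h3 : C.Q ξ - θ * A.Q ξ ≤ (1 - θ) * X := by
    have : (1 - θ) * (A.Q ξ - 2 * ϖ * ip q (symm ξ) + ϖ * ((1 - θ) * P))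
        = (A.Q ξ - 2 * ϖ * (1 - θ) * ip q (symm ξ) + ϖ * (1 - θ) ^ 2 * P) - θ * A.Q ξ := by
      ring
    linarith
  have h4 : θ * A.Q ξ ≤ η * C.Q ξ := by
    have h5 := (abs_le.1 (hAβ ξ)).2
    have h6 := hCα ξ
    have h7 := nsq_nonneg ξ
    calc θ * A.Q ξ ≤ θ * (β * nsq ξ) := mul_le_mul_of_nonneg_left h5 hθ0.le
      _ = (θ * β) * nsq ξ := by ring
      _ ≤ (η * α) * nsq ξ := mul_le_mul_of_nonneg_right hθβ h7
      _ = η * (α * nsq ξ) := by ring
      _ ≤ η * C.Q ξ := mul_le_mul_of_nonneg_left h6 hη.le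
  have h5 : 0 ≤ (1 - η) * C.Q ξ := mul_nonneg (by linarith) (hCpsd ξ)
  have h6 : (1 - η) * C.Q ξ ≤ (1 - θ) * X := by linarith
  have h7 : (1 - θ) * ((1 - η) * C.Q ξ) ≤ (1 - θ) * X := by nlinarith
  exact le_of_mul_le_mul_left h7 (by linarith)

end Pool.Agent.Lib.MP_5df1bf_an
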