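import Pool.Agent.Lib.MP_5df1bf_an.Stmts1

/-!
# MP_5df1bf_an, A12b: sheets are realizable
-/

open MeasureTheory Filter Topology
open scoped BigOperators ContDiff

noncomputable section

namespace Pool.Agent.Lib.MP_5df1bf_an

variable {d : ℕ}

namespace SheetAux

theorem ip_oo_sd (e a n : V d) : ip (oo e) (sd a n) = dot e a * dot e n := by
  simp only [ip, oo, sd, dot, Finset.sum_mul_sum]
  have h1 : ∀ i j : Fin d, e i * e j * ((a i * n j + a j * n i) / 2) =
      (e i * a i * (e j * n j) + e j * a j * (e i * n i)) / 2 := by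
    intro i j; ring
  simp only [h1, ← Finset.sum_div, Finset.sum_add_distrib]
  have h2 : ∑ i, ∑ j, e j * a j * (e i * n i) = ∑ i, ∑ j, e i * a i * (e j * n j) :=
    Finset.sum_comm
  rw [h2]; ring

theorem symm_oo (e : V d) : symm (oo e) = oo e := by
  ext i j; simp [symm, oo]; ring

theorem nsq_oo (e : V d) : nsq (oo e) = (dot e e) ^ 2 := by
  rw [nsq_of_symm (symm_oo e)]
  simp only [ip, oo, dot, sq, Finset.sum_mul_sum]
  exact Finset.sum_congr rfl fun i _ => Finset.sum_congr rfl fun j _ => by ring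

theorem cs_oo (e : V d) (η : M d) : (ip (oo e) η) ^ 2 ≤ (dot e e) ^ 2 * nsq η := by
  have h := cs_symm (oo e) η
  rwa [symm_oo, nsq_oo] at h

theorem zero_Q (ξ : M d) : (zeroT d).Q ξ = 0 := by
  simp [Tens.Q, zeroT, ip]

end SheetAux

open SheetAux in
theorem Sheet_ok (d : ℕ) (hE : BaseE d) (hLam : StmtLam d) (hVol : StmtLayVol d)
    (hHom : StmtRzHom d) (hBase : StmtRzBase d) (hEff : StmtEff d) : StmtSheet d := by
  intro A hA
  obtain ⟨α₀, hα₀, hα⟩ := hA
  obtain ⟨β₀, hβ₀, hβ⟩ := A.exists_bound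
  have hA' : A.PD := ⟨α₀, hα₀, hα⟩
  have hAps : A.PSD := fun ξ => (mul_nonneg hα₀.le (nsq_nonneg ξ)).trans (hα ξ)
  have hZps : (zeroT d).PSD := fun ξ => by rw [zero_Q]
  refine ⟨α₀ / 2, by linarith, β₀, hβ₀, 1 / 2, by norm_num, by norm_num, ?_⟩
  intro z hz
  obtain ⟨hM, hfr⟩ := hVol z hz (1 / 2) (by norm_num) (by norm_num)
  classical
  let idx : V d → Fin 2 := fun x => if x ∈ lay z (1 / 2) then 0 else 1
  have hidx : Measurable idx := Measurable.ite hM.1 measurable_const measurable_const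
  have hper : Per idx := by
    intro x i
    simp only [idx, hM.2 x i]
  let T : Fin 2 → Tens d := ![A, zeroT d]
  have hT0 : T 0 = A := rfl
  have hT1 : T 1 = zeroT d := rfl
  have hbd : ∀ i ξ, 0 * nsq ξ ≤ (T i).Q ξ ∧ (T i).Q ξ ≤ β₀ * nsq ξ := by
    intro i ξ
    fin_cases i
    · exact ⟨by rw [zero_mul]; exact hAps ξ, (le_abs_self _).trans (hβ ξ)⟩
    · refine ⟨?_, ?_⟩
      · show 0 * nsq ξ ≤ (zeroT d).Q ξ
        rw [zero_mul, zero_Q]
      · show (zeroT d).Q ξ ≤ β₀ * nsq ξ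
        rw [zero_Q]; exact mul_nonneg hβ₀.le (nsq_nonneg ξ)
  have hfld := hE.step_fld 2 idx T 0 β₀ hidx hper hbd
  obtain ⟨W, hW, hWb⟩ := hEff _ β₀ hfld
  have hps : ∀ i, (T i).PSD := by
    intro i
    fin_cases i
    · exact hAps
    · exact hZps
  have hRz : ∀ i, Rz A (T i) ((![1, 0] : Fin 2 → ℝ) i) := by
    intro i
    fin_cases i
    · exact (hBase A hA').1
    · exact (hBase A hA').2
  have h1 := hHom A hA' 2 idx hidx hper T ![1, 0] hps hRz W hW
  have hset : {x | idx x = 0} = lay z (1 / 2) := by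
    ext x
    show (if x ∈ lay z (1 / 2) then (0 : Fin 2) else 1) = 0 ↔ x ∈ lay z (1 / 2)
    by_cases h : x ∈ lay z (1 / 2)
    · rw [if_pos h]; exact ⟨fun _ => h, fun _ => rfl⟩
    · rw [if_neg h]; exact ⟨fun h' => absurd h' (by decide), fun h' => absurd h' h⟩
  have hsum : ∑ i : Fin 2, frac {x | idx x = i} * (![1, 0] : Fin 2 → ℝ) i = 1 / 2 := by
    rw [Fin.sum_univ_two, hset, hfr]
    simp
  rw [hsum] at h1
  have hlam : ∀ ξ, W.Q ξ = ⨅ a : V d, (1 / 2 * A.Q (ξ + (1 / 2 : ℝ) • sd a (zv z))) := by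
    intro ξ
    rw [hW ξ, hLam z hz (1 / 2) (by norm_num) (by norm_num) A (zeroT d) _ hAps hZps
      (fun x hx => by simp only [idx, if_pos hx]; rfl)
      (fun x hx => by simp only [idx, if_neg hx]; rfl) ξ]
    congr 1
    funext a
    rw [zero_Q]
    norm_num
  refine ⟨W, h1, fun ξ => (hWb ξ).1, ?_, ?_⟩
  · intro ξ e he
    by_cases he0 : dot e e = 0
    · have h0 : e = 0 := dot_self_eq_zero.mp he0
      subst h0
      have : ip (oo (0 : V d)) ξ = 0 := by simp [ip, oo]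
      rw [this, he0]; simp
    · have hpos : 0 < (dot e e) ^ 2 := by positivity
      rw [mul_comm, ← div_le_iff₀' hpos] 
      rw [hlam ξ]
      refine le_ciInf fun a => ?_
      rw [div_le_iff₀ hpos]
      have h2 := cs_oo e (ξ + (1 / 2 : ℝ) • sd a (zv z))
      rw [ip_add_right, ip_smul_right, ip_oo_sd, he, mul_zero, mul_zero, add_zero] at h2
      have h3 := hα (ξ + (1 / 2 : ℝ) • sd a (zv z))
      nlinarith
  · intro ξ a
    refine ⟨(hWb ξ).1, ?_⟩
    rw [hlam ξ]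
    have hbb : BddBelow (Set.range fun a : V d => (1 / 2 * A.Q (ξ + (1 / 2 : ℝ) • sd a (zv z)))) := by
      refine ⟨0, ?_⟩
      rintro _ ⟨b, rfl⟩
      exact mul_nonneg (by norm_num) (hAps _)
    refine (ciInf_le hbb ((-2 : ℝ) • a)).trans ?_
    have e1 : ξ + (1 / 2 : ℝ) • sd ((-2 : ℝ) • a) (zv z) = ξ - sd a (zv z) := by
      rw [sd_smul_left, smul_smul]
      norm_num
      rw [sub_eq_add_neg]
    simp only [e1]
    have h2 := (le_abs_self _).trans (hβ (ξ - sd a (zv z)))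
    have h3 := mul_nonneg hβ₀.le (nsq_nonneg (ξ - sd a (zv z)))
    linarith

end Pool.Agent.Lib.MP_5df1bf_an
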