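import Pool.Agent.Lib.MP_5df1bf_an.Her
import Pool.Agent.Lib.MP_5df1bf_an.Cov

/-!
# MP_5df1bf_an, D4: one direction of softening
-/

open MeasureTheory Filter Topology
open scoped BigOperators ContDiff

noncomputable section

namespace Pool.Agent.Lib.MP_5df1bf_an

variable {d : ℕ}

theorem soft_lower (C : Tens d) (hC : C.PSD) (E : M d) {t : ℝ} (ht : 0 ≤ t) (ξ : M d) :
    (1 - t) * C.Q ξ ≤ (soft C E t).Q ξ := by
  rw [her_soft_Q]
  have h0 : 0 ≤ C.Q E := hC E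
  have h1 : t * (ip (C.C E) ξ) ^ 2 / C.Q E ≤ t * C.Q ξ := by
    rcases h0.eq_or_lt with h | h
    · rw [← h, div_zero]
      exact mul_nonneg ht (hC ξ)
    · rw [div_le_iff₀ h]
      have := mul_le_mul_of_nonneg_left (Tens.Q_cs hC E ξ) ht
      calc t * (ip (C.C E) ξ) ^ 2 ≤ t * (C.Q E * C.Q ξ) := this
        _ = _ := by ring
  linarith

theorem soft_PD (C : Tens d) (hC : C.PD) (E : M d) {t : ℝ} (ht : 0 ≤ t) (ht1 : t < 1) :
    (soft C E t).PD := by
  obtain ⟨α, hα, h⟩ := id hC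
  refine ⟨(1 - t) * α, mul_pos (by linarith) hα, fun ξ => ?_⟩
  refine le_trans ?_ (soft_lower C hC.psd E ht ξ)
  have := mul_le_mul_of_nonneg_left (h ξ) (by linarith : 0 ≤ 1 - t)
  linarith

theorem pull_PD (B : Matrix (Fin d) (Fin d) ℤ) (hB : B.det ≠ 0) (C : Tens d) (hC : C.PD) :
    (CovPf.pull B C).PD := by
  obtain ⟨α, hα, h⟩ := hC
  obtain ⟨n, B', hn, -, h1, h2⟩ := CovPf.exists_compl B hB
  obtain ⟨K, hK, hK'⟩ := CovPf.nsq_conj_le B'
  have hn' : (0 : ℝ) < n := by exact_mod_cast hn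
  refine ⟨α * ((n : ℝ) ^ 4 / K), by positivity, fun ξ => ?_⟩
  rw [CovPf.pull_Q]
  have h3 := hK' (conj B ξ)
  rw [CovPf.conj_conj, h1, CovPf.conj_smul_one, nsq_smul] at h3
  have h4 : (n : ℝ) ^ 4 / K * nsq ξ ≤ nsq (conj B ξ) := by
    rw [div_mul_eq_mul_div, div_le_iff₀ hK]
    push_cast at h3
    calc (n : ℝ) ^ 4 * nsq ξ = ((n : ℝ) ^ 2) ^ 2 * nsq ξ := by ring
      _ ≤ _ := h3
      _ = _ := by ring
  calc α * ((n : ℝ) ^ 4 / K) * nsq ξ = α * ((n : ℝ) ^ 4 / K * nsq ξ) := by ring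
    _ ≤ α * nsq (conj B ξ) := mul_le_mul_of_nonneg_left h4 hα.le
    _ ≤ _ := h _

theorem pull_ip (B : Matrix (Fin d) (Fin d) ℤ) (C : Tens d) (X Y : M d) :
    ip ((CovPf.pull B C).C X) Y = ip (C.C (conj B X)) (conj B Y) := by
  show ip (conj B.transpose (C.C (conj B X))) Y = _
  rw [CovPf.ip_conj, Matrix.transpose_transpose]

/-- integer directions -/
theorem soft_int (hD : StmtSoftDiag d) (hR : StmtRzCov d) (hd : 2 ≤ d) (A C : Tens d) (f : ℝ)
    (hA : A.PD) (hC : C.PD) (h : Rz A C f) (B : Matrix (Fin d) (Fin d) ℤ) (hB : B.det ≠ 0)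
    (c : Fin d → ℤ) (hc : ∀ k, c k = 1 ∨ c k = -1) (t : ℝ) (ht : 0 ≤ t) (ht1 : t < 1) :
    Rz A (soft C (conj B (dg fun k => (c k : ℝ))) t) f := by
  have hA0 := pull_PD B hB A hA
  have hC0 := pull_PD B hB C hC
  have h1 : Rz (CovPf.pull B A) (CovPf.pull B C) f :=
    (hR B hB (CovPf.pull B A) A (CovPf.pull B C) C f hA0 hA hC0.psd hC.psd
      (fun ξ => (CovPf.pull_Q B A ξ).symm) (fun ξ => (CovPf.pull_Q B C ξ).symm)).2 h
  have h2 := hD hd _ _ f hA0 hC0 h1 c hc t ht ht1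
  refine (hR B hB (CovPf.pull B A) A _ _ f hA0 hA (soft_PD _ hC0 _ ht ht1).psd
    (soft_PD C hC _ ht ht1).psd (fun ξ => (CovPf.pull_Q B A ξ).symm) fun ξ => ?_).1 h2
  rw [her_soft_Q, her_soft_Q, CovPf.pull_Q, CovPf.pull_Q, pull_ip]

theorem soft_smul (C : Tens d) (E : M d) (s t : ℝ) (hs : s ≠ 0) : soft C (s • E) t = soft C E t := by
  apply Tens.ext_Q
  intro ξ
  rw [her_soft_Q, her_soft_Q, map_smul, ip_smul_left, Tens.Q_smul]
  congr 1
  by_cases h : C.Q E = 0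
  · rw [h]; simp
  · field_simp

theorem soft_zero (C : Tens d) (t : ℝ) : soft C 0 t = C := by
  apply Tens.ext_Q
  intro ξ
  rw [her_soft_Q, Tens.Q_zero, div_zero, sub_zero]

theorem Soft_ok (d : ℕ) (hD : StmtSoftDiag d) (hR : StmtRzCov d) (hDe : StmtDense d)
    (hL : StmtRzLim d) : StmtSoft d := by
  intro hd A C f hA hC h E hE t ht ht1
  by_cases hE0 : E = 0
  · rw [hE0, soft_zero]; exact h
  have hnE : 0 < nsq E := by
    refine lt_of_le_of_ne (nsq_nonneg _) fun hz => hE0 ?_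
    have := nsq_eq_zero hz.symm
    rwa [symm_of_tp hE] at this
  have hQE : C.Q E ≠ 0 := by
    obtain ⟨α, hα, h'⟩ := hC
    have := h' E
    have : 0 < C.Q E := lt_of_lt_of_le (mul_pos hα hnE) this
    exact this.ne'
  -- approximating directions
  have hseq : ∀ n : ℕ, ∃ F : M d, nsq (F - E) < 1 / ((n : ℝ) + 1) ∧ Rz A (soft C F t) f := by
    intro n
    obtain ⟨B, c, s, hB, hc, hs, hn⟩ := hDe E hE (1 / ((n : ℝ) + 1)) (by positivity)
    refine ⟨s • conj B (dg fun k => (c k : ℝ)), hn, ?_⟩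
    rw [soft_smul _ _ _ _ hs.ne']
    exact soft_int hD hR hd A C f hA hC h B hB c hc t ht ht1
  choose F hF1 hF2 using hseq
  have hlim : Tendsto (fun n => nsq (F n - E)) atTop (𝓝 0) := by
    refine squeeze_zero (fun n => nsq_nonneg _) (fun n => (hF1 n).le) ?_
    exact tendsto_one_div_add_atTop_nhds_zero_nat
  have hlin : ∀ ξ : M d, Tendsto (fun n => ip (C.C (F n)) ξ) atTop (𝓝 (ip (C.C E) ξ)) := by
    intro ξ
    rw [tendsto_iff_norm_sub_tendsto_zero]
    have h1 : ∀ n, ‖ip (C.C (F n)) ξ - ip (C.C E) ξ‖ ≤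
        Real.sqrt (nsq (F n - E)) * Real.sqrt (nsq (C.C ξ)) := by
      intro n
      have e : ip (C.C (F n)) ξ - ip (C.C E) ξ = ip (symm (F n - E)) (C.C ξ) := by
        rw [← ip_sub_left, ← map_sub, C.sa, ip_symm_left, C.symm_C]
      rw [e]
      exact abs_ip_symm_le _ _
    refine squeeze_zero (fun n => norm_nonneg _) h1 ?_
    have h2 : Tendsto (fun n => Real.sqrt (nsq (F n - E)) * Real.sqrt (nsq (C.C ξ))) atTop
        (𝓝 (Real.sqrt 0 * Real.sqrt (nsq (C.C ξ)))) :=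
      ((Real.continuous_sqrt.tendsto _).comp hlim).mul_const _
    simpa using h2
  have hQ : Tendsto (fun n => C.Q (F n)) atTop (𝓝 (C.Q E)) := by
    obtain ⟨β, hβ, hb⟩ := C.exists_bound
    have h1 : ∀ n, C.Q (F n) = 2 * ip (C.C (F n)) E - C.Q E + C.Q (F n - E) := by
      intro n
      have := C.Q_sub (F n) E
      rw [this]
      ring
    have h2 : Tendsto (fun n => C.Q (F n - E)) atTop (𝓝 0) := by
      rw [tendsto_zero_iff_abs_tendsto_zero]
      refine squeeze_zero (fun n => abs_nonneg _) (fun n => hb _) ?_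
      simpa using hlim.const_mul β
    have h3 : Tendsto (fun n => 2 * ip (C.C (F n)) E - C.Q E + C.Q (F n - E)) atTop
        (𝓝 (2 * ip (C.C E) E - C.Q E + 0)) := (((hlin E).const_mul 2).sub_const _).add h2
    have h4 : 2 * ip (C.C E) E - C.Q E + 0 = C.Q E := by
      unfold Tens.Q
      ring
    rw [h4] at h3
    exact h3.congr fun n => (h1 n).symm
  have hpt : ∀ ξ, Tendsto (fun n => (soft C (F n) t).Q ξ) atTop (𝓝 ((soft C E t).Q ξ)) := by
    intro ξ
    simp only [her_soft_Q]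
    exact (tendsto_const_nhds).sub (((hlin ξ).pow 2).const_mul t |>.div hQ hQE)
  have hunif := tens_unif _ _ hpt
  refine hL A hA (soft C E t) f (soft_PD C hC E ht ht1) fun η hη => ?_
  obtain ⟨n, hn⟩ := (hunif η hη).exists
  exact ⟨soft C (F n) t, f, hF2 n, by simpa using hη, hn⟩

end Pool.Agent.Lib.MP_5df1bf_an
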