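import Pool.Agent.Lib.MP_5df1bf_an.Stmts3

/-!
# MP_5df1bf_an: D2, one direction of softening (diagonal case)
-/

open MeasureTheory Filter Topology
open scoped BigOperators ContDiff

noncomputable section

namespace Pool.Agent.Lib.MP_5df1bf_an

variable {d : ℕ}

namespace SoftDiagAux

open Classical in
/-- lamination of two realizable tensors -/
theorem lamTwo (hE : BaseE d) (hLam : StmtLam d) (hVol : StmtLayVol d) (hHom : StmtRzHom d)
    (hEff : StmtEff d) (A : Tens d) (hA : A.PD) (T₁ T₂ : Tens d) (h₁ : T₁.PSD) (h₂ : T₂.PSD)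
    (f₁ f₂ : ℝ) (hR₁ : Rz A T₁ f₁) (hR₂ : Rz A T₂ f₂) (k : Fin d → ℤ) (hk : k ≠ 0)
    (θ : ℝ) (hθ0 : 0 < θ) (hθ1 : θ < 1) :
    ∃ W : Tens d, Rz A W (θ * f₁ + (1 - θ) * f₂) ∧ W.PSD ∧
      (∀ (ε : M d) (a : V d), W.Q ε ≤ θ * T₁.Q (ε + (1 - θ) • sd a (zv k)) +
        (1 - θ) * T₂.Q (ε - θ • sd a (zv k))) ∧
      (∀ (ε : M d) (c : ℝ), (∀ a : V d, c ≤ θ * T₁.Q (ε + (1 - θ) • sd a (zv k)) +
        (1 - θ) * T₂.Q (ε - θ • sd a (zv k))) → c ≤ W.Q ε) := by
  obtain ⟨hmic, hfr⟩ := hVol k hk θ hθ0.le hθ1.le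
  set idx : V d → Fin 2 := fun x => if x ∈ lay k θ then 0 else 1 with hidx
  set T' : Fin 2 → Tens d := fun i => if i = 0 then T₁ else T₂ with hT'
  set f' : Fin 2 → ℝ := fun i => if i = 0 then f₁ else f₂ with hf'
  have hmeas : Measurable idx := Measurable.ite hmic.1 measurable_const measurable_const
  have hper : Per idx := by
    intro x i
    simp only [hidx]
    have := hmic.2 x i
    by_cases h : x ∈ lay k θ
    · rw [if_pos h, if_pos (this.mpr h)]
    · rw [if_neg h, if_neg (fun h1 => h (this.mp h1))]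
  have hPSD : ∀ i, (T' i).PSD := by
    intro i ξ
    simp only [hT']
    split_ifs
    · exact h₁ ξ
    · exact h₂ ξ
  obtain ⟨β1, hβ1, hb1⟩ := T₁.exists_bound
  obtain ⟨β2, hβ2, hb2⟩ := T₂.exists_bound
  have hfld : IsFld (fun x => T' (idx x)) 0 (max β1 β2) := by
    refine hE.step_fld 2 idx T' 0 _ hmeas hper (fun i ξ => ⟨?_, ?_⟩)
    · rw [zero_mul]; exact hPSD i ξ
    · simp only [hT']
      split_ifs
      · exact (le_abs_self _).trans ((hb1 ξ).trans
          (mul_le_mul_of_nonneg_right (le_max_left _ _) (nsq_nonneg _)))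
      · exact (le_abs_self _).trans ((hb2 ξ).trans
          (mul_le_mul_of_nonneg_right (le_max_right _ _) (nsq_nonneg _)))
  obtain ⟨W, hW1, hW2⟩ := hEff _ _ hfld
  have hRz : Rz A W (∑ i, frac {x | idx x = i} * f' i) := by
    refine hHom A hA 2 idx hmeas hper T' f' hPSD (fun i => ?_) W hW1
    simp only [hT', hf']
    split_ifs
    · exact hR₁
    · exact hR₂
  have hset : {x | idx x = 0} = lay k θ := by
    ext x
    show (if x ∈ lay k θ then (0 : Fin 2) else 1) = 0 ↔ x ∈ lay k θ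
    by_cases h : x ∈ lay k θ
    · rw [if_pos h]; exact ⟨fun _ => h, fun _ => rfl⟩
    · rw [if_neg h]; exact ⟨fun h1 => absurd h1 (by decide), fun h1 => absurd h1 h⟩
  have hset1 : {x | idx x = 1} = (lay k θ)ᶜ := by
    ext x
    show (if x ∈ lay k θ then (0 : Fin 2) else 1) = 1 ↔ x ∉ lay k θ
    by_cases h : x ∈ lay k θ
    · rw [if_pos h]; exact ⟨fun h1 => absurd h1 (by decide), fun h1 => absurd h h1⟩
    · rw [if_neg h]; exact ⟨fun _ => h, fun _ => rfl⟩
  have hcell : volume (cell d) = 1 := hE.vol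
  have hfr1 : frac (lay k θ)ᶜ = 1 - θ := by
    have hmc : MeasurableSet (lay k θ) := hmic.1
    have e : volume (lay k θ ∩ cell d) + volume ((lay k θ)ᶜ ∩ cell d) = volume (cell d) := by
      have h3 : (lay k θ)ᶜ ∩ cell d = cell d \ lay k θ := by
        ext x; simp [and_comm]
      rw [h3, Set.inter_comm]
      exact measure_inter_add_sdiff _ hmc
    rw [hcell] at e
    have f1 : volume (lay k θ ∩ cell d) ≠ ⊤ := by
      intro h; rw [h] at e; simp at e
    have f2 : volume ((lay k θ)ᶜ ∩ cell d) ≠ ⊤ := by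
      intro h; rw [h] at e; simp at e
    have e2 := congrArg ENNReal.toReal e
    rw [ENNReal.toReal_add f1 f2] at e2
    have h4 : frac (lay k θ) = (volume (lay k θ ∩ cell d)).toReal := rfl
    rw [← h4, hfr] at e2
    have h5 : frac (lay k θ)ᶜ = (volume ((lay k θ)ᶜ ∩ cell d)).toReal := rfl
    rw [h5]
    simp at e2
    linarith
  have hsum : ∑ i, frac {x | idx x = i} * f' i = θ * f₁ + (1 - θ) * f₂ := by
    rw [Fin.sum_univ_two, hset, hset1, hfr, hfr1]
    simp [hf']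
  rw [hsum] at hRz
  have hform : ∀ ε, W.Q ε = ⨅ a : V d, (θ * T₁.Q (ε + (1 - θ) • sd a (zv k)) +
      (1 - θ) * T₂.Q (ε - θ • sd a (zv k))) := by
    intro ε
    rw [hW1]
    refine hLam k hk θ hθ0 hθ1 T₁ T₂ _ h₁ h₂ ?_ ?_ ε
    · intro x hx
      have h1 : idx x = 0 := if_pos hx
      show T' (idx x) = T₁
      rw [h1]
      exact if_pos rfl
    · intro x hx
      have h1 : idx x = 1 := if_neg hx
      show T' (idx x) = T₂
      rw [h1]
      exact if_neg (by decide)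
  refine ⟨W, hRz, fun ξ => (hW2 ξ).1, ?_, ?_⟩
  · intro ε a
    rw [hform]
    refine ciInf_le ?_ a
    refine ⟨0, ?_⟩
    rintro _ ⟨b, rfl⟩
    have e1 := h₁ (ε + (1 - θ) • sd b (zv k))
    have e2 := h₂ (ε - θ • sd b (zv k))
    have e3 : 0 < 1 - θ := by linarith
    simp only
    positivity
  · intro ε c hc
    rw [hform]
    exact le_ciInf hc

theorem titu {u v Z X W : ℝ} (hu : 0 < u) (hv : 0 ≤ v) (hZ : 0 ≤ Z) (hW : W ^ 2 ≤ v * Z) :
    (X - W) ^ 2 / (u + v) ≤ Z + X ^ 2 / u := by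
  rw [div_le_iff₀ (by linarith)]
  have h1 : 0 ≤ u ^ 2 * Z + v * X ^ 2 + 2 * u * X * W := by
    rcases hv.eq_or_lt with h | h
    · rw [← h] at hW ⊢
      have hW0 : W = 0 := by
        have : W ^ 2 ≤ 0 := by linarith
        nlinarith [sq_nonneg W]
      rw [hW0]
      have : 0 ≤ u ^ 2 * Z := by positivity
      linarith
    · have h2 : 0 ≤ v * (u ^ 2 * Z + v * X ^ 2 + 2 * u * X * W) := by
        nlinarith [sq_nonneg (u * W + v * X), mul_le_mul_of_nonneg_left hW (sq_nonneg u)]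
      exact nonneg_of_mul_nonneg_right h2 h
  have key : 0 ≤ u * Z + v * (X ^ 2 / u) + 2 * X * W := by
    have h2 : u * Z + v * (X ^ 2 / u) + 2 * X * W = (u ^ 2 * Z + v * X ^ 2 + 2 * u * X * W) / u := by
      field_simp
    rw [h2]; positivity
  have e : (Z + X ^ 2 / u) * (u + v) = u * Z + v * Z + X ^ 2 + v * (X ^ 2 / u) := by
    field_simp; ring
  nlinarith

theorem soft_Q (C : Tens d) (E : M d) (t : ℝ) (ξ : M d) :
    (soft C E t).Q ξ = C.Q ξ - t * (ip (C.C E) ξ) ^ 2 / C.Q E := by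
  show ip (C.C ξ - (t * ip (C.C E) ξ / C.Q E) • C.C E) ξ = _
  rw [ip_sub_left, ip_smul_left]
  show C.Q ξ - _ = _
  ring

theorem symm_dg (c : V d) : symm (dg c) = dg c := by
  funext i j
  simp only [symm, dg]
  by_cases h : i = j
  · subst h; simp
  · rw [if_neg h, if_neg (Ne.symm h)]; simp

end SoftDiagAux

open SoftDiagAux

theorem SoftDiag_ok (d : ℕ) (hE : BaseE d) (hGad : StmtGad d) (hLam : StmtLam d)
    (hVol : StmtLayVol d) (hHom : StmtRzHom d) (hLim : StmtRzLim d) (hEff : StmtEff d)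
    (hGam : StmtGamT d) : StmtSoftDiag d := by
  intro hd A C f hA hC hR c hc t ht0 ht1
  obtain ⟨α, hα, hCα⟩ := hC
  have hC : C.PD := ⟨α, hα, hCα⟩
  have hCp : C.PSD := hC.psd
  obtain ⟨β, hβ, hCβ⟩ := C.exists_bound
  replace hCβ : ∀ ξ, C.Q ξ ≤ β * nsq ξ := fun ξ => (le_abs_self _).trans (hCβ ξ)
  set E : M d := dg fun k => (c k : ℝ) with hEdef
  set q : M d := C.C E with hq
  set N : ℝ := C.Q E with hN
  set i0 : Fin d := ⟨0, by omega⟩ with hi0
  set i1 : Fin d := ⟨1, by omega⟩ with hi1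
  have h01 : i1 ≠ i0 := by
    intro h
    have := congrArg Fin.val h
    simp [hi0, hi1] at this
  have hc2 : ∀ k, ((c k : ℝ)) ^ 2 = 1 := by
    intro k
    rcases hc k with h | h <;> rw [h] <;> norm_num
  have hNpos : 0 < N := by
    have h1 := hCα E
    have h2 := entry_sq_le (symm E) i1 i1
    have h3 : symm E i1 i1 = c i1 := by
      rw [hEdef, symm_dg]; simp [dg]
    rw [h3, hc2] at h2
    have h4 : (1 : ℝ) ≤ nsq E := h2
    have : α * 1 ≤ α * nsq E := mul_le_mul_of_nonneg_left h4 hα.le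
    linarith
  set k : Fin d → ℤ := Pi.single i0 1 with hk
  have hk0 : k ≠ 0 := by
    intro h
    have := congrFun h i0
    simp [hk] at this
  -- the maximizer
  obtain ⟨Γf, -, hG0, hG1, hG2, -⟩ := hGam C hC
  obtain ⟨a0, ha0⟩ := hG2 (zv k) q
  set Γ : ℝ := Gam C (zv k) q with hΓ
  have hΓ0 : 0 ≤ Γ := (hG0 (zv k) q).1
  have hGq : ∀ a, 2 * ip q (sd a (zv k)) - C.Q (sd a (zv k)) ≤ Γ := fun a => hG1 (zv k) q a
  have hGl : ∀ (a : V d) (l : ℝ), 2 * (l * ip q (sd a (zv k))) - l ^ 2 * C.Q (sd a (zv k)) ≤ Γ := by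
    intro a l
    have := hGq (l • a)
    rwa [sd_smul_left, ip_smul_right, C.Q_smul] at this
  have hY : ∀ a, (ip q (sd a (zv k))) ^ 2 ≤ Γ * C.Q (sd a (zv k)) := by
    intro a
    set Y := ip q (sd a (zv k)) with hYd
    set Qs := C.Q (sd a (zv k)) with hQs
    have hQ0 : 0 ≤ Qs := hCp _
    rcases hQ0.eq_or_lt with h | h
    · have h1 : (ip q (sd a (zv k))) ^ 2 ≤ C.Q E * C.Q (sd a (zv k)) := C.Q_cs hCp E _
      rw [← hQs, ← hYd, ← h] at h1
      rw [← h]; linarith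
    · have h1 := hGl a (Y / Qs)
      rw [← hYd, ← hQs] at h1
      have h2 : 2 * (Y / Qs * Y) - (Y / Qs) ^ 2 * Qs = Y ^ 2 / Qs := by field_simp; ring
      rw [h2, div_le_iff₀ h] at h1
      exact h1
  have hs0 : ip q (sd a0 (zv k)) = Γ ∧ C.Q (sd a0 (zv k)) = Γ := by
    set Y := ip q (sd a0 (zv k)) with hYd
    set Qs := C.Q (sd a0 (zv k)) with hQs
    have h1 : 2 * Y - Qs = Γ := ha0
    have h2 : Y ^ 2 ≤ Γ * Qs := hY a0
    have h3 : (Y - Qs) ^ 2 ≤ 0 := by
      rw [← h1] at h2; nlinarith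
    have h4 : Y - Qs = 0 := by nlinarith [sq_nonneg (Y - Qs)]
    constructor <;> linarith
  -- `Γ < N`
  have hkey : ∀ a, (ip q (sd a (zv k))) ^ 2 * (1 / N + α / N ^ 2) ≤ C.Q (sd a (zv k)) := by
    intro a
    set s := sd a (zv k) with hs
    set Y := ip q s with hYd
    have h1 := hCα (s - (Y / N) • E)
    have h2 := entry_sq_le (symm (s - (Y / N) • E)) i1 i1
    have h3 : symm (s - (Y / N) • E) i1 i1 = - (Y / N) * c i1 := by
      rw [symm_sub, symm_smul, hEdef, symm_dg, hs, symm_sd]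
      simp only [Pi.sub_apply, Pi.smul_apply, smul_eq_mul, dg, if_true, sd, zv, hk,
        Pi.single_apply, if_neg h01]
      push_cast
      ring
    rw [h3, mul_pow, hc2, mul_one, neg_sq] at h2
    have h4 : α * (Y / N) ^ 2 ≤ α * nsq (s - (Y / N) • E) := mul_le_mul_of_nonneg_left h2 hα.le
    rw [C.Q_sub, C.Q_smul, ip_smul_right, C.ip_comm_C s E] at h1
    have h5 : ip (C.C E) s = Y := rfl
    rw [h5, ← hN] at h1
    have h6 : C.Q s - 2 * (Y / N * Y) + (Y / N) ^ 2 * N = C.Q s - Y ^ 2 / N := by field_simp; ring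
    rw [h6] at h1
    have h7 : Y ^ 2 * (1 / N + α / N ^ 2) = Y ^ 2 / N + α * (Y / N) ^ 2 := by ring
    rw [h7]
    linarith
  have hΓN : Γ < N := by
    have h1 := hkey a0
    rw [hs0.1, hs0.2] at h1
    rcases hΓ0.eq_or_lt with h | h
    · rw [← h]; exact hNpos
    · have h2 : Γ * (1 / N + α / N ^ 2) ≤ 1 := by
        have : Γ * (Γ * (1 / N + α / N ^ 2)) ≤ Γ * 1 := by nlinarith
        exact le_of_mul_le_mul_left this h
      have h3 : Γ * (N + α) ≤ N ^ 2 := by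
        have h4 := mul_le_mul_of_nonneg_right h2 (sq_nonneg N)
        have h5 : Γ * (1 / N + α / N ^ 2) * N ^ 2 = Γ * (N + α) := by field_simp
        linarith
      nlinarith
  -- the case `t = 0`
  rcases ht0.eq_or_lt with h | htpos
  · have h1 : soft C E t = C := by
      refine Tens.ext_Q fun ξ => ?_
      rw [soft_Q, ← h]; simp
    rw [h1]; exact hR
  -- the parameter of the laminate
  set θ : ℝ := (1 - t) * N / (N - t * Γ) with hθ
  have hden : 0 < N - t * Γ := by nlinarith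
  have hθ0 : 0 < θ := div_pos (mul_pos (by linarith) hNpos) hden
  have hθ1 : θ < 1 := by
    rw [hθ, div_lt_one hden]; nlinarith
  have h1θ : 0 < 1 - θ := by linarith
  set u : ℝ := N - θ * Γ with hu
  have hu0 : 0 < u := by nlinarith
  have htu : t / N = (1 - θ) / u := by
    have h1 : θ * (N - t * Γ) = (1 - t) * N := by rw [hθ]; field_simp
    rw [div_eq_div_iff hNpos.ne' hu0.ne', hu]
    nlinarith
  have hX : ∀ ε, (ip q ε) ^ 2 ≤ N * β * nsq ε := by
    intro ε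
    have h1 : (ip q ε) ^ 2 ≤ C.Q E * C.Q ε := C.Q_cs hCp E ε
    have h2 := mul_le_mul_of_nonneg_left (hCβ ε) hNpos.le
    rw [← hN] at h1
    linarith
  have hsoftPD : (soft C E t).PD := by
    refine ⟨(1 - t) * α, mul_pos (by linarith) hα, fun ξ => ?_⟩
    rw [soft_Q]
    have h1 : (ip (C.C E) ξ) ^ 2 ≤ C.Q E * C.Q ξ := C.Q_cs hCp E ξ
    have h2 : (ip (C.C E) ξ) ^ 2 / C.Q E ≤ C.Q ξ := by
      rw [div_le_iff₀ hNpos]; linarith
    have h3 : t * (ip (C.C E) ξ) ^ 2 / C.Q E = t * ((ip (C.C E) ξ) ^ 2 / C.Q E) := by ring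
    rw [h3]
    have h4 := mul_le_mul_of_nonneg_left h2 ht0
    have h5 := mul_le_mul_of_nonneg_left (hCα ξ) (by linarith : 0 ≤ 1 - t)
    nlinarith
  refine hLim A hA (soft C E t) f hsoftPD fun η hη => ?_
  -- choice of `η'`
  set mF : ℝ → ℝ := fun x => θ - 2 * x / (α * (1 - θ)) with hmF
  set uF : ℝ → ℝ := fun x => N - θ ^ 2 * Γ / mF x with huF
  have hm0 : mF 0 = θ := by simp [hmF]
  have hu00 : uF 0 = u := by
    simp only [huF, hm0, hu]; field_simp
  have hmc : ContinuousAt mF 0 := by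
    simp only [hmF]; fun_prop
  have huc : ContinuousAt uF 0 := by
    have : ContinuousAt (fun x => N - θ ^ 2 * Γ / mF x) 0 :=
      continuousAt_const.sub (continuousAt_const.div hmc (by rw [hm0]; exact hθ0.ne'))
    exact this
  have hψc : ContinuousAt (fun x => (1 - θ) * |1 / uF x - 1 / u| * (N * β)) 0 := by
    refine ContinuousAt.mul (continuousAt_const.mul (ContinuousAt.abs ?_)) continuousAt_const
    exact (continuousAt_const.div huc (by rw [hu00]; exact hu0.ne')).sub continuousAt_const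
  have hψ0 : (1 - θ) * |1 / uF 0 - 1 / u| * (N * β) < η / 2 := by
    rw [hu00]; simp; linarith
  set K : ℝ := 2 + 2 * nsq (sd a0 (zv k)) * (N * β) / u ^ 2 with hK
  have hK0 : 0 < K := by
    have : 0 ≤ nsq (sd a0 (zv k)) := nsq_nonneg _
    positivity
  have ev1 : ∀ᶠ x in 𝓝 (0 : ℝ), 0 < mF x :=
    hmc.tendsto.eventually (lt_mem_nhds (by rw [hm0]; exact hθ0))
  have ev2 : ∀ᶠ x in 𝓝 (0 : ℝ), 0 < uF x :=
    huc.tendsto.eventually (lt_mem_nhds (by rw [hu00]; exact hu0))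
  have ev3 : ∀ᶠ x in 𝓝 (0 : ℝ), (1 - θ) * |1 / uF x - 1 / u| * (N * β) < η / 2 :=
    hψc.tendsto.eventually (gt_mem_nhds hψ0)
  have ev4 : ∀ᶠ x in 𝓝 (0 : ℝ), x < η / 4 := gt_mem_nhds (by linarith)
  have ev5 : ∀ᶠ x in 𝓝 (0 : ℝ), x < η / K := gt_mem_nhds (by positivity)
  obtain ⟨η', ⟨⟨⟨⟨hη1, hη2⟩, hη3⟩, hη4⟩, hη5⟩, hη'⟩ :=
    ((((ev1.and ev2).and ev3).and ev4).and ev5 |>.filter_mono nhdsWithin_le_nhds |>.and
      (self_mem_nhdsWithin : Set.Ioi (0 : ℝ) ∈ 𝓝[>] (0 : ℝ))).exists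
  have hη'0 : 0 < η' := hη'
  obtain ⟨C1, f1, hC1p, hR1, hf1, hC1⟩ := hGad hd A C f hA hC hR c hc η' hη'0
  obtain ⟨W, hRW, hWp, hWup, hWlo⟩ := lamTwo hE hLam hVol hHom hEff A hA C C1 hCp hC1p f f1 hR hR1
    k hk0 θ hθ0 hθ1
  refine ⟨W, θ * f + (1 - θ) * f1, hRW, ?_, ?_⟩
  · have h1 : θ * f + (1 - θ) * f1 - f = (1 - θ) * (f1 - f) := by ring
    rw [h1, abs_mul, abs_of_pos h1θ]
    have : |f1 - f| ≥ 0 := abs_nonneg _
    nlinarith
  -- identities
  have hid : ∀ (ε s : M d), θ * C.Q (ε + (1 - θ) • s) + (1 - θ) * (C.Q (ε - θ • s) -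
      (ip q (ε - θ • s)) ^ 2 / N) = C.Q ε + θ * (1 - θ) * C.Q s -
        (1 - θ) * ((ip q ε - θ * ip q s) ^ 2 / N) := by
    intro ε s
    rw [C.Q_add, C.Q_sub, C.Q_smul, C.Q_smul, ip_smul_right, ip_smul_right, ip_sub_right,
      ip_smul_right]
    ring
  have hC1' : ∀ ξ, |C1.Q ξ - (C.Q ξ - (ip q ξ) ^ 2 / N)| ≤ η' * nsq ξ := by
    intro ξ
    have := hC1 ξ
    rw [soft_Q, one_mul] at this
    exact this
  intro ξ
  have hns : 0 ≤ nsq ξ := nsq_nonneg _
  rw [abs_le]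
  have hsQ : (soft C E t).Q ξ = C.Q ξ - (1 - θ) * ((ip q ξ) ^ 2 / u) := by
    rw [soft_Q]
    have : t * (ip (C.C E) ξ) ^ 2 / C.Q E = t / N * (ip q ξ) ^ 2 := by ring
    rw [this, htu]; ring
  constructor
  · -- lower bound
    have hlow : C.Q ξ - 2 * η' * nsq ξ - (1 - θ) * ((ip q ξ) ^ 2 / uF η') ≤ W.Q ξ := by
      refine hWlo ξ _ fun a => ?_
      set s := sd a (zv k) with hs
      have h1 := (abs_le.mp (hC1' (ξ - θ • s))).1
      have h2 := hid ξ s
      have h3 : nsq (ξ - θ • s) ≤ 2 * nsq ξ + 2 * nsq s := by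
        have e1 := nsq_sub_le ξ (θ • s)
        rw [nsq_smul] at e1
        have e2 : θ ^ 2 ≤ 1 := by nlinarith
        have e3 : 0 ≤ nsq s := nsq_nonneg _
        nlinarith
      have h4 : nsq s ≤ C.Q s / α := by
        rw [le_div_iff₀ hα]; have := hCα s; linarith
      have hQs : 0 ≤ C.Q s := hCp s
      have hT := titu (u := uF η') (v := θ ^ 2 * Γ / mF η') (Z := mF η' * C.Q s) (X := ip q ξ)
        (W := θ * ip q s) hη2 (by positivity) (by positivity) (by
          have e1 := hY a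
          rw [← hs] at e1
          have e2 : θ ^ 2 * Γ / mF η' * (mF η' * C.Q s) = θ ^ 2 * (Γ * C.Q s) := by
            field_simp
          rw [e2, mul_pow]
          exact mul_le_mul_of_nonneg_left e1 (sq_nonneg _))
      have huv : uF η' + θ ^ 2 * Γ / mF η' = N := by simp only [huF]; ring
      rw [huv] at hT
      have hm : (1 - θ) * mF η' = θ * (1 - θ) - 2 * η' / α := by
        simp only [hmF]; field_simp
      have h5 : (1 - θ) * (η' * nsq (ξ - θ • s)) ≤ 2 * η' * nsq ξ + 2 * η' / α * C.Q s := by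
        have e1 : (1 - θ) * (η' * nsq (ξ - θ • s)) ≤ 1 * (η' * nsq (ξ - θ • s)) :=
          mul_le_mul_of_nonneg_right (by linarith) (mul_nonneg hη'0.le (nsq_nonneg _))
        have e2 : η' * nsq (ξ - θ • s) ≤ η' * (2 * nsq ξ + 2 * (C.Q s / α)) :=
          mul_le_mul_of_nonneg_left (by linarith) hη'0.le
        have e3 : η' * (2 * nsq ξ + 2 * (C.Q s / α)) = 2 * η' * nsq ξ + 2 * η' / α * C.Q s := by ring
        linarith
      have h6 : (1 - θ) * C1.Q (ξ - θ • s) ≥ (1 - θ) * (C.Q (ξ - θ • s) - (ip q (ξ - θ • s)) ^ 2 / N)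
          - (1 - θ) * (η' * nsq (ξ - θ • s)) := by
        have := mul_le_mul_of_nonneg_left h1 h1θ.le
        linarith
      have h7 := mul_le_mul_of_nonneg_left hT h1θ.le
      have h8 : (1 - θ) * (mF η' * C.Q s + (ip q ξ) ^ 2 / uF η') =
          (θ * (1 - θ) - 2 * η' / α) * C.Q s + (1 - θ) * ((ip q ξ) ^ 2 / uF η') := by
        rw [← hm]; ring
      rw [h8] at h7
      linarith
    rw [hsQ]
    have h1 : (1 - θ) * ((ip q ξ) ^ 2 / uF η') ≤ (1 - θ) * ((ip q ξ) ^ 2 / u) + η / 2 * nsq ξ := by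
      have e1 : (1 - θ) * ((ip q ξ) ^ 2 / uF η') - (1 - θ) * ((ip q ξ) ^ 2 / u) =
          (1 - θ) * (1 / uF η' - 1 / u) * (ip q ξ) ^ 2 := by ring
      have e2 : (1 - θ) * (1 / uF η' - 1 / u) * (ip q ξ) ^ 2 ≤
          (1 - θ) * |1 / uF η' - 1 / u| * (ip q ξ) ^ 2 :=
        mul_le_mul_of_nonneg_right (mul_le_mul_of_nonneg_left (le_abs_self _) h1θ.le) (sq_nonneg _)
      have e3 : (1 - θ) * |1 / uF η' - 1 / u| * (ip q ξ) ^ 2 ≤
          (1 - θ) * |1 / uF η' - 1 / u| * (N * β * nsq ξ) :=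
        mul_le_mul_of_nonneg_left (hX ξ) (by positivity)
      have e4 : (1 - θ) * |1 / uF η' - 1 / u| * (N * β * nsq ξ) ≤ η / 2 * nsq ξ := by
        have := mul_le_mul_of_nonneg_right hη3.le hns
        linarith
      linarith
    have h2 : 2 * η' * nsq ξ ≤ η / 2 * nsq ξ := mul_le_mul_of_nonneg_right (by linarith) hns
    linarith
  · -- upper bound
    set X := ip q ξ with hXd
    have h0 := hWup ξ ((-(X / u)) • a0)
    rw [sd_smul_left] at h0
    set s := (-(X / u)) • sd a0 (zv k) with hs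
    have h1 := (abs_le.mp (hC1' (ξ - θ • s))).2
    have h2 := hid ξ s
    have hYs : ip q s = -(X / u) * Γ := by rw [hs, ip_smul_right, hs0.1]
    have hQs : C.Q s = (X / u) ^ 2 * Γ := by rw [hs, C.Q_smul, hs0.2, neg_sq]
    have h3 : nsq (ξ - θ • s) ≤ K * nsq ξ := by
      have e1 := nsq_sub_le ξ (θ • s)
      rw [nsq_smul] at e1
      have e2 : θ ^ 2 ≤ 1 := by nlinarith
      have e3 : 0 ≤ nsq s := nsq_nonneg _
      have e4 : nsq s = (X ^ 2 / u ^ 2) * nsq (sd a0 (zv k)) := by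
        rw [hs, nsq_smul, neg_sq]; ring
      have e5 : X ^ 2 ≤ N * β * nsq ξ := hX ξ
      have e6 : (X ^ 2 / u ^ 2) * nsq (sd a0 (zv k)) ≤ (N * β * nsq ξ / u ^ 2) * nsq (sd a0 (zv k)) :=
        mul_le_mul_of_nonneg_right (div_le_div_of_nonneg_right e5 (by positivity)) (nsq_nonneg _)
      have e7 : K * nsq ξ = 2 * nsq ξ + 2 * ((N * β * nsq ξ / u ^ 2) * nsq (sd a0 (zv k))) := by
        rw [hK]; ring
      rw [e7]
      nlinarith
    have h4 : (1 - θ) * (η' * nsq (ξ - θ • s)) ≤ η * nsq ξ := by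
      have e1 : (1 - θ) * (η' * nsq (ξ - θ • s)) ≤ 1 * (η' * nsq (ξ - θ • s)) :=
        mul_le_mul_of_nonneg_right (by linarith) (mul_nonneg hη'0.le (nsq_nonneg _))
      have e2 : η' * nsq (ξ - θ • s) ≤ η' * (K * nsq ξ) := mul_le_mul_of_nonneg_left h3 hη'0.le
      have e3 : η' * K ≤ η := by
        have := hη5.le
        rwa [le_div_iff₀ hK0] at this
      have e4 : η' * (K * nsq ξ) ≤ η * nsq ξ := by
        have := mul_le_mul_of_nonneg_right e3 hns
        linarith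
      linarith
    have h5 : (1 - θ) * C1.Q (ξ - θ • s) ≤ (1 - θ) * (C.Q (ξ - θ • s) - (ip q (ξ - θ • s)) ^ 2 / N)
        + (1 - θ) * (η' * nsq (ξ - θ • s)) := by
      have := mul_le_mul_of_nonneg_left h1 h1θ.le
      linarith
    have h6 : C.Q ξ + θ * (1 - θ) * C.Q s - (1 - θ) * ((ip q ξ - θ * ip q s) ^ 2 / N) =
        C.Q ξ - (1 - θ) * (X ^ 2 / u) := by
      rw [hYs, hQs, ← hXd]
      have e1 : X - θ * (-(X / u) * Γ) = X * N / u := by
        have h7 : N = u + θ * Γ := by rw [hu]; ring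
        have h8 : X - θ * (-(X / u) * Γ) = X * (u + θ * Γ) / u := by
          field_simp
          ring
        rw [h8, ← h7]
      rw [e1]
      have e2 : θ * (1 - θ) * ((X / u) ^ 2 * Γ) - (1 - θ) * ((X * N / u) ^ 2 / N) =
          (1 - θ) * (X ^ 2 / u ^ 2) * (θ * Γ - N) := by
        field_simp
      have e3 : θ * Γ - N = - u := by rw [hu]; ring
      have e4 : (1 - θ) * (X ^ 2 / u ^ 2) * (θ * Γ - N) = - ((1 - θ) * (X ^ 2 / u)) := by
        rw [e3]; field_simp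
      linarith
    rw [hsQ]
    linarith

end Pool.Agent.Lib.MP_5df1bf_an
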