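import Pool.Agent.Lib.MP_5df1bf_an.Stmts3

/-!
# MP_5df1bf_an: D9, D10 (sufficiency)
-/

open MeasureTheory Filter Topology
open scoped BigOperators ContDiff

noncomputable section

namespace Pool.Agent.Lib.MP_5df1bf_an

variable {d : ℕ}

namespace SufAux

/-- linear combinations of tensors -/
def comb (a b : ℝ) (T W : Tens d) : Tens d where
  C := a • T.C + b • W.C
  sa := by
    intro A B
    show ip (a • T.C A + b • W.C A) B = ip A (a • T.C B + b • W.C B)
    rw [ip_add_left, ip_add_right, ip_smul_left, ip_smul_left, ip_smul_right, ip_smul_right,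
      T.sa, W.sa]
  tr := by
    intro A
    show a • T.C (tp A) + b • W.C (tp A) = a • T.C A + b • W.C A
    rw [T.tr, W.tr]

theorem comb_Q (a b : ℝ) (T W : Tens d) (ξ : M d) : (comb a b T W).Q ξ = a * T.Q ξ + b * W.Q ξ := by
  show ip (a • T.C ξ + b • W.C ξ) ξ = _
  rw [ip_add_left, ip_smul_left, ip_smul_left]
  rfl

/-- convergence of the quadratic forms implies convergence of the tensors -/
theorem tens_tendsto (Cs : ℕ → Tens d) (C : Tens d)
    (h : ∀ ξ, Tendsto (fun n => (Cs n).Q ξ) atTop (𝓝 (C.Q ξ))) (ξ : M d) :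
    Tendsto (fun n => (Cs n).C ξ) atTop (𝓝 (C.C ξ)) := by
  have key : ∀ (T : Tens d) (i j : Fin d), T.C ξ i j = (T.Q (ξ + eb i j) - T.Q (ξ - eb i j)) / 4 := by
    intro T i j
    rw [← T.polar, ip_eb]; ring
  refine tendsto_pi_nhds.mpr fun i => tendsto_pi_nhds.mpr fun j => ?_
  simp only [key]
  exact ((h _).sub (h _)).div_const 4

end SufAux

open SufAux

theorem AdmDense_ok (d : ℕ) (hLow : StmtLowPD d) (hGam : StmtGamT d) : StmtAdmDense d := by
  intro hd A f hA hf0 hf1 C hC η hη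
  obtain ⟨hCp, r, n, m, hn, hm0, hm1, hCQ⟩ := hC
  obtain ⟨r', n', c', W, hn', hc', hsum, hRW, ⟨α, hα, hWα⟩, hWQ⟩ := hLow hd A hA f hf0 hf1
  obtain ⟨Γf, -, -, -, -, hhom, -⟩ := hGam A hA
  have hWp : W.PSD := Tens.PD.psd ⟨α, hα, hWα⟩
  obtain ⟨β1, hβ1, hb1⟩ := C.exists_bound
  obtain ⟨β2, hβ2, hb2⟩ := W.exists_bound
  set τ : ℝ := min (1 / 2) (η / (β1 + β2)) with hτ
  have hτ0 : 0 < τ := lt_min (by norm_num) (by positivity)
  have hτ1 : τ ≤ 1 / 2 := min_le_left _ _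
  have hτ2 : τ * (β1 + β2) ≤ η := by
    have : τ ≤ η / (β1 + β2) := min_le_right _ _
    rwa [le_div_iff₀ (by positivity)] at this
  -- normalised directions
  have hzn : ∀ i, zv (n' i) ≠ 0 := by
    intro i h
    refine hn' i ?_
    funext j
    have := congrFun h j
    simpa [zv] using this
  set s : Fin r' → ℝ := fun i => (Real.sqrt (dot (zv (n' i)) (zv (n' i))))⁻¹ with hs
  have hs0 : ∀ i, s i ≠ 0 := by
    intro i
    have : 0 < dot (zv (n' i)) (zv (n' i)) := dot_self_pos (hzn i)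
    exact inv_ne_zero (Real.sqrt_pos.mpr this).ne'
  have hs1 : ∀ i, dot (s i • zv (n' i)) (s i • zv (n' i)) = 1 := by
    intro i
    have h1 : 0 < dot (zv (n' i)) (zv (n' i)) := dot_self_pos (hzn i)
    rw [dot_smul_left, dot_smul_right]
    have h2 := Real.mul_self_sqrt h1.le
    have h3 : Real.sqrt (dot (zv (n' i)) (zv (n' i))) ≠ 0 := (Real.sqrt_pos.mpr h1).ne'
    simp only [hs]
    field_simp
    rw [sq]; exact h2.symm
  refine ⟨comb (1 - τ) τ C W, ⟨τ * α, mul_pos hτ0 hα, fun ξ => ?_⟩, ⟨fun ξ => ?_, r + r',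
    Fin.append n (fun i => s i • zv (n' i)), Fin.append (fun i => (1 - τ) * m i)
      (fun i => τ * (c' i / f)), ?_, ?_, ?_, ?_⟩, fun ξ => ?_⟩
  · rw [comb_Q]
    have h1 := mul_le_mul_of_nonneg_left (hWα ξ) hτ0.le
    have h2 : 0 ≤ (1 - τ) * C.Q ξ := mul_nonneg (by linarith) (hCp ξ)
    linarith
  · rw [comb_Q]
    exact add_nonneg (mul_nonneg (by linarith) (hCp ξ)) (mul_nonneg hτ0.le (hWp ξ))
  · intro i
    refine Fin.addCases (fun i => ?_) (fun i => ?_) i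
    · rw [Fin.append_left]; exact hn i
    · rw [Fin.append_right]; exact hs1 i
  · intro i
    refine Fin.addCases (fun i => ?_) (fun i => ?_) i
    · rw [Fin.append_left]; exact mul_nonneg (by linarith) (hm0 i)
    · rw [Fin.append_right]; exact mul_nonneg hτ0.le (div_nonneg (hc' i).le hf0.le)
  · rw [Fin.sum_univ_add]
    simp only [Fin.append_left, Fin.append_right]
    rw [← Finset.mul_sum, ← Finset.mul_sum, hm1, ← Finset.sum_div, hsum, div_self hf0.ne']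
    ring
  · intro ε q
    rw [comb_Q]
    have h1 := mul_le_mul_of_nonneg_left (hCQ ε q) (by linarith : 0 ≤ 1 - τ)
    have h2 := mul_le_mul_of_nonneg_left (hWQ ε q) hτ0.le
    refine (add_le_add h1 h2).trans (le_of_eq ?_)
    unfold HS
    simp only
    rw [Fin.sum_univ_add]
    simp only [Fin.append_left, Fin.append_right]
    have h3 : ∀ i, Gam A (s i • zv (n' i)) q = Gam A (zv (n' i)) q := fun i =>
      hhom _ _ _ (hs0 i)
    simp only [h3]
    have h4 : ∑ i, (1 - τ) * m i * Gam A (n i) q = (1 - τ) * ∑ i, m i * Gam A (n i) q := by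
      rw [Finset.mul_sum]; exact Finset.sum_congr rfl fun i _ => by ring
    have h5 : f * ∑ i, τ * (c' i / f) * Gam A (zv (n' i)) q = τ * ∑ i, c' i * Gam A (zv (n' i)) q := by
      rw [Finset.mul_sum, Finset.mul_sum]
      refine Finset.sum_congr rfl fun i _ => ?_
      field_simp
    rw [mul_add f, h5, h4]
    ring
  · rw [comb_Q]
    have h1 : (1 - τ) * C.Q ξ + τ * W.Q ξ - C.Q ξ = τ * (W.Q ξ - C.Q ξ) := by ring
    rw [h1, abs_mul, abs_of_pos hτ0]
    have h2 : |W.Q ξ - C.Q ξ| ≤ (β1 + β2) * nsq ξ := by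
      have := abs_sub (W.Q ξ) (C.Q ξ)
      have := hb1 ξ
      have := hb2 ξ
      linarith
    have h3 := mul_le_mul_of_nonneg_left h2 hτ0.le
    have h4 := mul_le_mul_of_nonneg_right hτ2 (nsq_nonneg ξ)
    linarith

theorem Suf_ok (d : ℕ) (hE : BaseE d) (hDen : StmtAdmDense d) (hSeqR : StmtSeqR d) (hHer : StmtHer d)
    (hEx : StmtExact d) (hEff : StmtEff d) : StmtSuf d := by
  intro hd A f hA hf0 hf1 C hC
  obtain ⟨β, hβ, hb⟩ := C.exists_bound
  obtain ⟨α, hα, hAα⟩ := hA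
  have hA : A.PD := ⟨α, hα, hAα⟩
  obtain ⟨βA, hβA, hbA⟩ := A.exists_bound
  -- one approximation
  have step : ∀ n : ℕ, ∃ (δ : ℝ) (χ : Set (V d)) (W : Tens d), 0 < δ ∧ δ ≤ 1 / ((n : ℝ) + 1) ∧
      Micro χ ∧ frac χ = f ∧ (∀ ε, W.Q ε = eff (phase A δ χ) ε) ∧
      ∀ ξ, |W.Q ξ - C.Q ξ| ≤ (β + 4) * (1 / ((n : ℝ) + 1)) * nsq ξ := by
    intro n
    set η : ℝ := 1 / ((n : ℝ) + 1) with hη
    have hn0 : (0 : ℝ) ≤ n := Nat.cast_nonneg n
    have hη0 : 0 < η := by positivity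
    have hη1 : η ≤ 1 := by
      rw [hη, div_le_one (by positivity)]; linarith
    obtain ⟨C1, ⟨α1, hα1, hC1α⟩, hC1A, hC1⟩ := hDen hd A f hA hf0 hf1 C hC η hη0
    have hC1 : ∀ ξ, |C1.Q ξ - C.Q ξ| ≤ η * nsq ξ := hC1
    have hC1pd : C1.PD := ⟨α1, hα1, hC1α⟩
    obtain ⟨W, hWp, hRW, hW⟩ := hSeqR A f hA hf0 hf1 C1 hC1pd hC1A (η / 2) (by positivity)
      (by linarith)
    have hc : 0 < 1 - η / 2 := by linarith
    have hWpd : W.PD := by
      refine ⟨(1 - η / 2) * α1, mul_pos hc hα1, fun ξ => ?_⟩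
      have h1 := hW ξ
      have h2 := mul_le_mul_of_nonneg_left (hC1α ξ) hc.le
      linarith
    set C2 : Tens d := C1.scale (1 - η / 2) with hC2
    have hC2pd : C2.PD := by
      refine ⟨(1 - η / 2) * α1, mul_pos hc hα1, fun ξ => ?_⟩
      rw [hC2, Tens.scale_Q]
      have h2 := mul_le_mul_of_nonneg_left (hC1α ξ) hc.le
      linarith
    have hR2 : Rz A C2 f := hHer hd A W C2 f hA hWpd hC2pd hRW fun ξ => by
      rw [hC2, Tens.scale_Q]; exact hW ξ
    obtain ⟨δ₀, hδ₀, hδ⟩ := hEx hd A hA C2 f hC2pd hf0 hf1 hR2 η hη0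
    set δ : ℝ := min (δ₀ / 2) η with hδd
    have hδ0 : 0 < δ := lt_min (by positivity) hη0
    have hδ1 : δ < δ₀ := (min_le_left _ _).trans_lt (by linarith)
    obtain ⟨χ, hχ, hfr, heff⟩ := hδ δ hδ0 hδ1
    have hfld := hE.phase_fld A α βA hα (fun ξ => ⟨hAα ξ, (le_abs_self _).trans (hbA ξ)⟩) χ hχ δ hδ0
      ((min_le_right _ _).trans hη1)
    have hfld0 : IsFld (phase A δ χ) 0 βA :=
      ⟨hfld.meas, hfld.per, fun x B => by
        rw [zero_mul]
        exact le_trans (mul_nonneg (mul_nonneg hδ0.le hα.le) (nsq_nonneg B)) (hfld.lo x B), hfld.hi⟩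
    obtain ⟨W', hW', -⟩ := hEff _ _ hfld0
    refine ⟨δ, χ, W', hδ0, min_le_right _ _, hχ, hfr, hW', fun ξ => ?_⟩
    have h1 := heff ξ
    rw [← hW', hC2, Tens.scale_Q] at h1
    have h2 := hC1 ξ
    have h3 := hb ξ
    have hns := nsq_nonneg ξ
    have h4 := abs_le.mp h1
    have h5 := abs_le.mp h2
    have h6 := abs_le.mp h3
    have h7 : C1.Q ξ ≤ (β + 1) * nsq ξ := by nlinarith
    have h8 : 0 ≤ C1.Q ξ := hC1pd.psd ξ
    have h9 : η / 2 * C1.Q ξ ≤ η / 2 * ((β + 1) * nsq ξ) := mul_le_mul_of_nonneg_left h7 (by positivity)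
    have h10 : 0 ≤ η / 2 * C1.Q ξ := mul_nonneg (by positivity) h8
    have h11 : 0 ≤ η * nsq ξ := mul_nonneg hη0.le hns
    have h12 : 0 ≤ η * β * nsq ξ := by positivity
    rw [abs_le]
    constructor <;> nlinarith
  choose δ χ Cs h1 h2 h3 h4 h5 h6 using step
  have hlim : Tendsto (fun n : ℕ => 1 / ((n : ℝ) + 1)) atTop (𝓝 0) :=
    tendsto_one_div_add_atTop_nhds_zero_nat
  refine ⟨δ, χ, Cs, h1, ?_, fun n => ⟨h3 n, h4 n⟩, h5, ?_⟩
  · exact squeeze_zero (fun n => (h1 n).le) h2 hlim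
  · refine tens_tendsto Cs C fun ξ => ?_
    rw [tendsto_iff_norm_sub_tendsto_zero]
    refine squeeze_zero (fun n => norm_nonneg _) (fun n => (Real.norm_eq_abs _).le.trans (h6 n ξ)) ?_
    have := (hlim.const_mul (β + 4)).mul_const (nsq ξ)
    simpa using this

end Pool.Agent.Lib.MP_5df1bf_an
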