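import Pool.Agent.Lib.MP_5df1bf_an.Opt

/-!
# MP_5df1bf_an: A8a, upper bound in two-scale homogenization
-/

open MeasureTheory Filter Topology
open scoped BigOperators ContDiff

noncomputable section

namespace Pool.Agent.Lib.MP_5df1bf_an

variable {d : ℕ}

namespace TSupAux

open OptAux

/-! ### periods -/

/-- the group of periods -/
def periods {α : Type*} (f : V d → α) : AddSubgroup (V d) where
  carrier := {v | ∀ x, f (x + v) = f x}
  add_mem' := by
    intro a b ha hb x
    rw [← add_assoc, hb, ha]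
  zero_mem' := by intro x; simp
  neg_mem' := by
    intro a ha x
    have := ha (x + -a)
    rw [← this]; simp

theorem per_int {α : Type*} {f : V d → α} (hf : Per f) (z : Fin d → ℤ) :
    (∑ i, z i • (Pi.single i 1 : V d)) ∈ periods f :=
  sum_mem fun i _ => zsmul_mem (show (Pi.single i 1 : V d) ∈ periods f from fun x => hf x i) _

theorem per_fract {α : Type*} {f : V d → α} (hf : Per f) (x : V d) :
    f (fun i => Int.fract (x i)) = f x := by
  have h := per_int hf (fun i => ⌊x i⌋) (fun i => Int.fract (x i))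
  rw [← h]
  congr 1
  funext j
  simp [Finset.sum_apply, Pi.single_apply]

theorem per_dil {α : Type*} {f : V d → α} (hf : Per f) (n : ℕ) : Per (fun x => f ((n : ℝ) • x)) := by
  intro x i
  show f ((n : ℝ) • (x + Pi.single i 1)) = f ((n : ℝ) • x)
  have h : (n : ℤ) • (Pi.single i 1 : V d) ∈ periods f :=
    zsmul_mem (show (Pi.single i 1 : V d) ∈ periods f from fun x => hf x i) _
  rw [smul_add]
  have e : (n : ℝ) • (Pi.single i 1 : V d) = (n : ℤ) • (Pi.single i 1 : V d) := by
    rw [natCast_zsmul, Nat.cast_smul_eq_nsmul]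
  rw [e]
  exact h _

theorem cont_per_bdd {f : V d → ℝ} (hc : Continuous f) (hf : Per f) : ∃ K, ∀ x, |f x| ≤ K := by
  obtain ⟨K, hK⟩ := (isCompact_Icc (a := (0 : V d)) (b := 1)).exists_bound_of_continuousOn
    hc.continuousOn
  refine ⟨K, fun x => ?_⟩
  rw [← per_fract hf x]
  refine hK _ ⟨fun i => Int.fract_nonneg _, fun i => (Int.fract_lt_one _).le⟩

/-! ### displacements -/

theorem disp_sum (hE : BaseE d) {ι : Type*} (s : Finset ι) (v : ι → Disp d) :
    ∃ w : Disp d, ∀ x, grad w.u x = ∑ i ∈ s, grad (v i).u x := by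
  classical
  induction s using Finset.induction_on with
  | empty =>
    obtain ⟨w, _, hw⟩ := hE.zero
    exact ⟨w, fun x => by simp [hw x]⟩
  | insert a s ha ih =>
    obtain ⟨w, hw⟩ := ih
    obtain ⟨w', _, hw'⟩ := hE.add (v a) w
    exact ⟨w', fun x => by rw [hw' x, hw x, Finset.sum_insert ha]⟩

/-- oscillating displacements -/
theorem disp_osc {φ : V d → ℝ} (hφ : ContDiff ℝ ∞ φ) (hp : Per φ) (w : Disp d) {n : ℕ}
    (hn : 0 < n) : ∃ v : Disp d, ∀ x, grad v.u x = φ x • grad w.u ((n : ℝ) • x) +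
      (1 / (n : ℝ)) • fun i j => w.u ((n : ℝ) • x) i * fderiv ℝ φ x (Pi.single j 1) := by
  have hn' : (n : ℝ) ≠ 0 := by positivity
  refine ⟨⟨fun x => ((1 / (n : ℝ)) * φ x) • w.u ((n : ℝ) • x), ?_, ?_⟩, ?_⟩
  · exact (contDiff_const.mul hφ).smul (w.smooth.comp (contDiff_const_smul _))
  · intro x i
    have h1 := per_dil w.per n x i
    simp only at h1
    show ((1 / (n : ℝ)) * φ (x + Pi.single i 1)) • w.u ((n : ℝ) • (x + Pi.single i 1)) = _
    rw [h1, hp x i]
  · intro x
    have hφd : HasFDerivAt (fun x => (1 / (n : ℝ)) * φ x) ((1 / (n : ℝ)) • fderiv ℝ φ x) x :=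
      ((hφ.differentiable (by simp)).differentiableAt.hasFDerivAt).const_mul _
    have hwd : HasFDerivAt (fun x => w.u ((n : ℝ) • x))
        ((fderiv ℝ w.u ((n : ℝ) • x)).comp ((n : ℝ) • ContinuousLinearMap.id ℝ (V d))) x := by
      have h1 : HasFDerivAt w.u (fderiv ℝ w.u ((n : ℝ) • x)) ((n : ℝ) • x) :=
        (w.smooth.differentiable (by simp)).differentiableAt.hasFDerivAt
      have h2 : HasFDerivAt (fun x : V d => (n : ℝ) • x) ((n : ℝ) • ContinuousLinearMap.id ℝ (V d)) x :=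
        ((n : ℝ) • ContinuousLinearMap.id ℝ (V d)).hasFDerivAt
      exact h1.comp x h2
    have h : HasFDerivAt (fun x => ((1 / (n : ℝ)) * φ x) • w.u ((n : ℝ) • x)) _ x := hφd.smul hwd
    funext i j
    show fderiv ℝ (fun x => ((1 / (n : ℝ)) * φ x) • w.u ((n : ℝ) • x)) x (Pi.single j 1) i = _
    rw [h.fderiv]
    simp only [ContinuousLinearMap.add_apply, ContinuousLinearMap.smul_apply,
      ContinuousLinearMap.comp_apply, ContinuousLinearMap.smulRight_apply,
      ContinuousLinearMap.id_apply, map_smul, Pi.add_apply, Pi.smul_apply, smul_eq_mul, grad]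
    field_simp

/-! ### bilinear expansions -/

theorem bil_sum (hE : BaseE d) {D : V d → Tens d} {β : ℝ} (hD : IsFld D 0 β) {ι : Type*}
    [Fintype ι] (c : ι → ℝ) (H : ι → V d → M d) (hH : ∀ a, SqM (H a)) :
    bil D (fun y => ∑ a, c a • H a y) (fun y => ∑ a, c a • H a y) =
      ∑ a, ∑ b, c a * c b * bil D (H a) (H b) := by
  unfold bil
  have e : ∀ y, ip ((D y).C (∑ a, c a • H a y)) (∑ a, c a • H a y) =
      ∑ a, ∑ b, c a * c b * ip ((D y).C (H a y)) (H b y) := by
    intro y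
    simp only [map_sum, map_smul, ip_sum_left, ip_smul_left, ip_sum_right, ip_smul_right,
      Finset.mul_sum, mul_assoc]
    exact Finset.sum_congr rfl fun a _ => Finset.sum_congr rfl fun b _ => by
      rw [(D y).ip_comm_C (H b y) (H a y)]
  simp only [e]
  rw [integral_finsetSum]
  · refine Finset.sum_congr rfl fun a _ => ?_
    rw [integral_finsetSum]
    · refine Finset.sum_congr rfl fun b _ => ?_
      rw [integral_const_mul]
    · intro b _
      exact (bil_int hE hD (hH a) (hH b)).const_mul _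
  · intro a _
    exact integrable_finsetSum _ fun b _ => (bil_int hE hD (hH a) (hH b)).const_mul _

/-- two-scale limits of energies -/
theorem ts_lim (hE : BaseE d) (hDil : StmtDil d) (hAvg : StmtAvg d) {m : ℕ} {idx : V d → Fin m}
    (hm : Measurable idx) (hp : Per idx) {D : Fin m → V d → Tens d} {β : ℝ}
    (hD : ∀ i, IsFld (D i) 0 β) {ι : Type*} [Fintype ι] (f : ι → V d → ℝ)
    (hf : ∀ a, Measurable (f a) ∧ Per (f a) ∧ ∃ K, ∀ x, |f a x| ≤ K)
    (H : ι → V d → M d) (hH : ∀ a, SqM (H a)) :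
    Tendsto (fun n : ℕ => ∫ x in cell d, (D (idx x) ((n : ℝ) • x)).Q
        (∑ a, f a x • H a ((n : ℝ) • x))) atTop
      (𝓝 (∫ x in cell d, bil (D (idx x)) (fun y => ∑ a, f a x • H a y)
        (fun y => ∑ a, f a x • H a y))) ∧
    IntegrableOn (fun x => bil (D (idx x)) (fun y => ∑ a, f a x • H a y)
        (fun y => ∑ a, f a x • H a y)) (cell d) ∧
    ∀ n : ℕ, 0 < n → IntegrableOn (fun x => (D (idx x) ((n : ℝ) • x)).Q
        (∑ a, f a x • H a ((n : ℝ) • x))) (cell d) := by
  classical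
  set F : Fin m → ι → ι → V d → ℝ :=
    fun i a b x => (if idx x = i then 1 else 0) * f a x * f b x with hF
  set B : Fin m → ι → ι → V d → ℝ := fun i a b y => ip ((D i y).C (H a y)) (H b y) with hB
  have hFm : ∀ i a b, Measurable (F i a b) := by
    intro i a b
    refine ((Measurable.ite ?_ measurable_const measurable_const).mul (hf a).1).mul (hf b).1
    exact hm (measurableSet_singleton i)
  have hFp : ∀ i a b, Per (F i a b) := by
    intro i a b x k
    simp only [hF, hp x k, (hf a).2.1 x k, (hf b).2.1 x k]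
  have hFb : ∀ i a b, ∃ K, ∀ x, |F i a b x| ≤ K := by
    intro i a b
    obtain ⟨Ka, hKa⟩ := (hf a).2.2
    obtain ⟨Kb, hKb⟩ := (hf b).2.2
    refine ⟨Ka * Kb, fun x => ?_⟩
    simp only [hF, abs_mul]
    have h1 : |(if idx x = i then (1 : ℝ) else 0)| ≤ 1 := by
      split_ifs <;> simp
    have h2 : |(if idx x = i then (1 : ℝ) else 0)| * |f a x| ≤ Ka := by
      calc _ ≤ 1 * |f a x| := mul_le_mul_of_nonneg_right h1 (abs_nonneg _)
        _ ≤ Ka := by rw [one_mul]; exact hKa x
    exact mul_le_mul h2 (hKb x) (abs_nonneg _) ((abs_nonneg _).trans (hKa x))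
  have hBm : ∀ i a b, Measurable (B i a b) := by
    intro i a b
    exact hE.meas (D i) (hD i).meas (H a) (H b) (sqM_meas (hH a)) (sqM_meas (hH b))
  have hBp : ∀ i a b, Per (B i a b) := by
    intro i a b x k
    simp only [hB, (hD i).per x k, sqM_per (hH a) x k, sqM_per (hH b) x k]
  have hBi : ∀ i a b, IntegrableOn (B i a b) (cell d) := fun i a b =>
    bil_int hE (hD i) (hH a) (hH b)
  have hpt : ∀ (x z : V d), (D (idx x) z).Q (∑ a, f a x • H a z) =
      ∑ i, ∑ a, ∑ b, F i a b x * B i a b z := by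
    intro x z
    rw [Finset.sum_eq_single (idx x)]
    · unfold Tens.Q
      simp only [map_sum, map_smul, ip_sum_left, ip_smul_left, ip_sum_right, ip_smul_right,
        Finset.mul_sum, hF, hB, if_true, one_mul, mul_assoc]
      exact Finset.sum_congr rfl fun a _ => Finset.sum_congr rfl fun b _ => by
        rw [(D (idx x) z).ip_comm_C (H b z) (H a z)]
    · intro i _ hi
      refine Finset.sum_eq_zero fun a _ => Finset.sum_eq_zero fun b _ => ?_
      simp [hF, Ne.symm hi]
    · intro h; exact absurd (Finset.mem_univ _) h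
  have hpt2 : ∀ x : V d, bil (D (idx x)) (fun y => ∑ a, f a x • H a y)
        (fun y => ∑ a, f a x • H a y) =
      ∑ i, ∑ a, ∑ b, F i a b x * ∫ y in cell d, B i a b y := by
    intro x
    rw [bil_sum hE (hD (idx x)) (fun a => f a x) H hH, Finset.sum_eq_single (idx x)]
    · simp only [hF, hB, if_true, one_mul, bil]
    · intro i _ hi
      refine Finset.sum_eq_zero fun a _ => Finset.sum_eq_zero fun b _ => ?_
      simp [hF, Ne.symm hi]
    · intro h; exact absurd (Finset.mem_univ _) h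
  have hFi : ∀ i a b, IntegrableOn (F i a b) (cell d) := by
    intro i a b
    obtain ⟨K, hK⟩ := hFb i a b
    exact sqP_int hE (sqP_bdd hE (hFm i a b) (hFp i a b) K hK)
  have hL : ∫ x in cell d, bil (D (idx x)) (fun y => ∑ a, f a x • H a y)
        (fun y => ∑ a, f a x • H a y) =
      ∑ i, ∑ a, ∑ b, (∫ x in cell d, F i a b x) * ∫ y in cell d, B i a b y := by
    simp only [hpt2]
    rw [integral_finsetSum]
    · refine Finset.sum_congr rfl fun i _ => ?_
      rw [integral_finsetSum]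
      · refine Finset.sum_congr rfl fun a _ => ?_
        rw [integral_finsetSum]
        · refine Finset.sum_congr rfl fun b _ => ?_
          rw [integral_mul_const]
        · intro b _
          exact (hFi i a b).mul_const _
      · intro a _
        exact integrable_finsetSum _ fun b _ => (hFi i a b).mul_const _
    · intro i _
      exact integrable_finsetSum _ fun a _ => integrable_finsetSum _ fun b _ =>
        (hFi i a b).mul_const _
  have hint : ∀ n : ℕ, 0 < n → ∀ i a b,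
      IntegrableOn (fun x => F i a b x * B i a b ((n : ℝ) • x)) (cell d) := by
    intro n hn i a b
    obtain ⟨K, hK⟩ := hFb i a b
    have := (hDil n hn (B i a b) (hBm i a b) (hBp i a b) (hBi i a b)).1
    exact Integrable.bdd_mul this (hFm i a b).aestronglyMeasurable (Eventually.of_forall hK)
  refine ⟨?_, ?_, ?_⟩
  · rw [hL]
    have h1 : Tendsto (fun n : ℕ => ∑ i, ∑ a, ∑ b, ∫ x in cell d, F i a b x * B i a b ((n : ℝ) • x))
        atTop (𝓝 (∑ i, ∑ a, ∑ b, (∫ x in cell d, F i a b x) * ∫ y in cell d, B i a b y)) := by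
      refine tendsto_finsetSum _ fun i _ => tendsto_finsetSum _ fun a _ => tendsto_finsetSum _
        fun b _ => ?_
      exact hAvg _ _ (hFm i a b) (hFp i a b) (hFb i a b) (hBm i a b) (hBp i a b) (hBi i a b)
    refine h1.congr' ?_
    filter_upwards [eventually_gt_atTop 0] with n hn
    simp only [hpt]
    rw [integral_finsetSum]
    · refine Finset.sum_congr rfl fun i _ => ?_
      rw [integral_finsetSum]
      · refine Finset.sum_congr rfl fun a _ => ?_
        rw [integral_finsetSum]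
        intro b _
        exact hint n hn i a b
      · intro a _
        exact integrable_finsetSum _ fun b _ => hint n hn i a b
    · intro i _
      exact integrable_finsetSum _ fun a _ => integrable_finsetSum _ fun b _ => hint n hn i a b
  · simp only [hpt2]
    exact integrable_finsetSum _ fun i _ => integrable_finsetSum _ fun a _ =>
      integrable_finsetSum _ fun b _ => (hFi i a b).mul_const _
  · intro n hn
    simp only [hpt]
    exact integrable_finsetSum _ fun i _ => integrable_finsetSum _ fun a _ =>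
      integrable_finsetSum _ fun b _ => hint n hn i a b

/-- `∫ nsq` of a linear combination -/
theorem nsq_comb_le {ι : Type*} [Fintype ι] (c : ι → ℝ) (R : ι → V d → M d)
    (hR : ∀ a, SqM (R a)) :
    ∫ y in cell d, nsq (∑ a, c a • R a y) ≤
      Fintype.card ι * ∑ a, c a ^ 2 * ∫ y in cell d, nsq (R a y) := by
  have h1 : ∀ a, IntegrableOn (fun y => c a ^ 2 * nsq (R a y)) (cell d) :=
    fun a => (sqM_nsq_int (hR a)).const_mul _
  have h2 : ∫ y in cell d, (Fintype.card ι : ℝ) * ∑ a, c a ^ 2 * nsq (R a y) =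
      Fintype.card ι * ∑ a, c a ^ 2 * ∫ y in cell d, nsq (R a y) := by
    rw [integral_const_mul, integral_finsetSum _ fun a _ => h1 a]
    simp only [integral_const_mul]
  rw [← h2]
  refine integral_mono_of_nonneg (Eventually.of_forall fun y => nsq_nonneg _)
    ((integrable_finsetSum _ fun a _ => h1 a).const_mul _) (Eventually.of_forall fun y => ?_)
  have h3 := nsq_sum_le Finset.univ (fun a => c a • R a y)
  simpa only [nsq_smul, Finset.card_univ] using h3

/-- good correctors -/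
theorem good_corr (hE : BaseE d) {D : V d → Tens d} {α β : ℝ} (hα : 0 < α) (hD : IsFld D α β)
    {W : Tens d} (hW : ∀ ε, W.Q ε = eff D ε) {η : ℝ} (hη : 0 < η) :
    ∃ w : Fin d × Fin d → Disp d, ∀ c : Fin d × Fin d → ℝ,
      bil D (fun y => ∑ p, c p • (eb p.1 p.2 + sg (w p).u y))
        (fun y => ∑ p, c p • (eb p.1 p.2 + sg (w p).u y)) ≤
        W.Q (∑ p, c p • eb p.1 p.2) + η * ∑ p, c p ^ 2 := by
  obtain ⟨W', G, hW', -, hGM, hGadd, hGsmul, hlim, hwk, hQ, -⟩ := opt_ok d hE D α β hα hD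
  have hWW : W = W' := Tens.ext_Q fun ξ => by rw [hW, hW']
  subst hWW
  have hD0 : IsFld D 0 β := fld0 hα.le hD
  set N : ℝ := ((Fintype.card (Fin d × Fin d) : ℕ) : ℝ) with hN
  have hN0 : 0 ≤ N := Nat.cast_nonneg _
  choose w hw using fun p : Fin d × Fin d =>
    hlim (eb p.1 p.2) (η / ((|β| + 1) * (N + 1))) (by positivity)
  refine ⟨w, fun c => ?_⟩
  set ξ : M d := ∑ p, c p • eb p.1 p.2 with hξ
  set R : Fin d × Fin d → V d → M d :=
    fun p y => (eb p.1 p.2 + sg (w p).u y) - G (eb p.1 p.2) y with hR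
  have hRM : ∀ p, SqM (R p) := fun p =>
    sqM_sub (sqM_add (sqM_const hE _) (sqM_sg hE (w p))) (hGM _)
  have hRl : ∀ p, Lim (R p) := by
    intro p
    have h1 := lim_smul hE (-1) (hlim (eb p.1 p.2))
    have h2 := lim_add hE (sqM_sg hE (w p)) (sqM_smul (-1) (sqM_sub (hGM (eb p.1 p.2))
      (sqM_const hE (eb p.1 p.2)))) (lim_sg (w p)) h1
    have e : R p = fun x => sg (w p).u x + (-1 : ℝ) • (G (eb p.1 p.2) x - eb p.1 p.2) := by
      funext x; simp only [hR]; rw [neg_one_smul]; abel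
    rw [e]
    exact h2
  have hGlin : ∀ y, G ξ y = ∑ p, c p • G (eb p.1 p.2) y := by
    intro y
    let L : M d →ₗ[ℝ] M d :=
      { toFun := fun ε => G ε y
        map_add' := fun a b => hGadd a b y
        map_smul' := fun a b => hGsmul a b y }
    have h1 : L ξ = ∑ p, c p • L (eb p.1 p.2) := by
      rw [hξ, map_sum]
      simp only [map_smul]
    exact h1
  have hdec : (fun y => ∑ p, c p • (eb p.1 p.2 + sg (w p).u y)) =
      fun y => G ξ y + ∑ p, c p • R p y := by
    funext y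
    rw [hGlin, ← Finset.sum_add_distrib]
    refine Finset.sum_congr rfl fun p _ => ?_
    rw [← smul_add]
    simp only [hR]
    congr 1
    abel
  have hRS : ∀ p, SqM (fun y => c p • R p y) := fun p => sqM_smul _ (hRM p)
  have hRSM : SqM (fun y => ∑ p, c p • R p y) := sqM_sum hE _ (fun p y => c p • R p y) hRS
  have hRSl : Lim (fun y => ∑ p, c p • R p y) :=
    lim_sum hE _ (fun p y => c p • R p y) hRS fun p => lim_smul hE _ (hRl p)
  rw [hdec, bil_expand hE hD0 (hGM ξ) hRSM, orth hE hD0 (hGM ξ) hRSM (hwk ξ) hRSl]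
  have h1 : bil D (G ξ) (G ξ) = W.Q ξ := hQ ξ
  rw [h1, mul_zero, add_zero]
  refine add_le_add le_rfl ?_
  refine (bil_le hE hD0 hRSM).trans ?_
  have h2 := nsq_comb_le c R hRM
  have h0 : 0 ≤ ∫ y in cell d, nsq (∑ p, c p • R p y) := integral_nonneg fun x => nsq_nonneg _
  have h3 : ∀ p, ∫ y in cell d, nsq (R p y) ≤ η / ((|β| + 1) * (N + 1)) := by
    intro p
    have e : ∀ y, nsq (R p y) = nsq (G (eb p.1 p.2) y - eb p.1 p.2 - sg (w p).u y) := by
      intro y
      rw [← nsq_neg]; congr 1; simp only [hR]; abel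
    simp only [e]
    exact (hw p).le
  have h4 : ∑ p, c p ^ 2 * ∫ y in cell d, nsq (R p y) ≤
      (∑ p, c p ^ 2) * (η / ((|β| + 1) * (N + 1))) := by
    rw [Finset.sum_mul]
    exact Finset.sum_le_sum fun p _ => mul_le_mul_of_nonneg_left (h3 p) (sq_nonneg _)
  have h5 : 0 ≤ ∑ p, c p ^ 2 := Finset.sum_nonneg fun p _ => sq_nonneg _
  calc β * ∫ y in cell d, nsq (∑ p, c p • R p y)
      ≤ |β| * ∫ y in cell d, nsq (∑ p, c p • R p y) :=
        mul_le_mul_of_nonneg_right (le_abs_self β) h0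
    _ ≤ |β| * (N * ((∑ p, c p ^ 2) * (η / ((|β| + 1) * (N + 1))))) :=
        mul_le_mul_of_nonneg_left (h2.trans (mul_le_mul_of_nonneg_left h4 hN0)) (abs_nonneg β)
    _ = (|β| / (|β| + 1)) * (N / (N + 1)) * (η * ∑ p, c p ^ 2) := by
        field_simp
    _ ≤ 1 * 1 * (η * ∑ p, c p ^ 2) := by
        refine mul_le_mul_of_nonneg_right ?_ (by positivity)
        refine mul_le_mul ?_ ?_ (by positivity) zero_le_one
        · rw [div_le_one (by positivity)]; linarith
        · rw [div_le_one (by positivity)]; linarith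
    _ = η * ∑ p, c p ^ 2 := by ring

theorem sg_bdd (hE : BaseE d) (u : Disp d) : ∃ K, ∀ x i j, |sg u.u x i j| ≤ K := by
  obtain ⟨K, hK⟩ := hE.grad_bdd u
  refine ⟨Real.sqrt K, fun x i j => ?_⟩
  rw [← Real.sqrt_sq_eq_abs]
  refine Real.sqrt_le_sqrt ?_
  have h1 := entry_sq_le (symm (grad u.u x)) i j
  exact h1.trans ((nsq_le_ip _).trans (hK x))

theorem per_fderiv {φ : V d → ℝ} (hp : Per φ) (b : Fin d) :
    Per (fun x => fderiv ℝ φ x (Pi.single b 1)) := by
  intro x i
  have h1 : (fun y => φ (y + Pi.single i 1)) = φ := funext fun y => hp y i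
  have h2 := fderiv_comp_add_right (𝕜 := ℝ) (f := φ) (x := x) (Pi.single i 1)
  rw [h1] at h2
  simp only [h2]

theorem rem_bdd {φ : V d → ℝ} (hφ : ContDiff ℝ ∞ φ) (hp : Per φ) (w : Disp d) :
    ∃ K, 0 ≤ K ∧ ∀ (y x : V d),
      nsq (fun i j => w.u y i * fderiv ℝ φ x (Pi.single j 1)) ≤ K := by
  have h1 : ∀ i, ∃ K, ∀ y, |w.u y i| ≤ K := fun i =>
    cont_per_bdd ((continuous_apply i).comp w.smooth.continuous) (fun x k => by
      show w.u (x + Pi.single k 1) i = w.u x i
      rw [w.per x k])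
  have h2 : ∀ j, ∃ K, ∀ x, |fderiv ℝ φ x (Pi.single j 1)| ≤ K := fun j =>
    cont_per_bdd ((hφ.continuous_fderiv (by simp)).clm_apply continuous_const)
      (per_fderiv hp j)
  choose Kw hKw using h1
  choose Kφ hKφ using h2
  refine ⟨∑ i, ∑ j, (Kw i * Kφ j) ^ 2, Finset.sum_nonneg fun i _ => Finset.sum_nonneg fun j _ =>
    sq_nonneg _, fun y x => ?_⟩
  refine (nsq_le_ip _).trans ?_
  rw [ip_self_eq]
  refine Finset.sum_le_sum fun i _ => Finset.sum_le_sum fun j _ => ?_
  have h3 : |w.u y i * fderiv ℝ φ x (Pi.single j 1)| ≤ Kw i * Kφ j := by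
    rw [abs_mul]
    exact mul_le_mul (hKw i y) (hKφ j x) (abs_nonneg _) ((abs_nonneg _).trans (hKw i y))
  rw [← sq_abs]
  exact pow_le_pow_left₀ (abs_nonneg _) h3 2

theorem bil_young (hE : BaseE d) {D : V d → Tens d} {β : ℝ} (hD : IsFld D 0 β) {X Y : V d → M d}
    (hX : SqM X) (hY : SqM Y) {s : ℝ} (hs : 0 < s) :
    bil D (fun y => X y + Y y) (fun y => X y + Y y) ≤
      (1 + s) * bil D X X + (1 + 1 / s) * bil D Y Y := by
  have h1 := (bil_int hE hD hX hX).const_mul (1 + s)
  have h2 := (bil_int hE hD hY hY).const_mul (1 + 1 / s)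
  have h3 : (1 + s) * bil D X X + (1 + 1 / s) * bil D Y Y =
      ∫ x in cell d, ((1 + s) * ip ((D x).C (X x)) (X x) + (1 + 1 / s) * ip ((D x).C (Y x)) (Y x)) := by
    rw [integral_add h1 h2, integral_const_mul, integral_const_mul]
    rfl
  rw [h3]
  exact integral_mono (bil_int hE hD (sqM_add hX hY) (sqM_add hX hY)) (h1.add h2) fun x =>
    Tens.Q_add_le' (psd hD x) (X x) (Y x) hs

end TSupAux

open OptAux TSupAux in
theorem tsup_ok (d : ℕ) (hE : BaseE d) (hT : StmtTrunc d) (hDil : StmtDil d) (hAvg : StmtAvg d) :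
    StmtTSup d := by
  classical
  intro m idx hm hp D α β hα hD W hW ε η hη
  have hD0 : ∀ i, IsFld (D i) 0 β := fun i => fld0 hα.le (hD i)
  have hWb : ∀ i ξ, α * nsq ξ ≤ (W i).Q ξ ∧ (W i).Q ξ ≤ β * nsq ξ := fun i ξ => by
    rw [hW]; exact hE.eff_bd (D i) α β hα.le (hD i) ξ
  have hWf : IsFld (fun x => W (idx x)) α β := hE.step_fld m idx W α β hm hp hWb
  have hWf0 := fld0 hα.le hWf
  obtain ⟨u, hu⟩ := hE.eff_approx (fun x => W (idx x)) ε (η / 4) (by positivity)
  set E0 := eff (fun x => W (idx x)) ε with hE0d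
  have hE0 : 0 ≤ E0 := hE.le_eff _ _ _ fun u => hE.nonneg _ β hWf0 ε u
  -- the coefficients
  set ξ : Fin d × Fin d → V d → ℝ := fun p x => (ε + sg u.u x) p.1 p.2 with hξd
  have hξM : SqM (fun x => ε + sg u.u x) := sqM_add (sqM_const hE ε) (sqM_sg hE u)
  have hξ : ∀ p, SqP (ξ p) := fun p => hξM p.1 p.2
  have hξb : ∀ p, ∃ K, ∀ x, |ξ p x| ≤ K := by
    intro p
    obtain ⟨K, hK⟩ := sg_bdd hE u
    refine ⟨|ε p.1 p.2| + K, fun x => ?_⟩
    show |ε p.1 p.2 + sg u.u x p.1 p.2| ≤ _
    exact (abs_add_le _ _).trans (add_le_add le_rfl (hK x _ _))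
  have hξe : ∀ x, ∑ p, ξ p x • eb p.1 p.2 = ε + sg u.u x := by
    intro x
    conv_rhs => rw [mat_expand (ε + sg u.u x)]
    rw [Fintype.sum_prod_type]
  set K1 : ℝ := ∑ p, ∫ x in cell d, ξ p x ^ 2 with hK1
  have hK10 : 0 ≤ K1 := Finset.sum_nonneg fun p _ => integral_nonneg fun x => sq_nonneg _
  -- correctors
  set η' : ℝ := η / (16 * (K1 + 1)) with hη'
  have hη'0 : 0 < η' := by positivity
  have hη'1 : η' * K1 ≤ η / 16 := by
    rw [hη', div_mul_eq_mul_div, div_le_div_iff₀ (by positivity) (by norm_num)]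
    nlinarith
  choose w hw using fun i => good_corr hE hα (hD i) (hW i) hη'0
  set N : ℝ := ((Fintype.card (Fin m × (Fin d × Fin d)) : ℕ) : ℝ) with hN
  have hN0 : 0 ≤ N := Nat.cast_nonneg _
  set K2 : ℝ := ∑ q : Fin m × (Fin d × Fin d), ∫ y in cell d, nsq (sg (w q.1 q.2).u y) with hK2
  have hK2le : ∀ q : Fin m × (Fin d × Fin d), ∫ y in cell d, nsq (sg (w q.1 q.2).u y) ≤ K2 :=
    fun q => Finset.single_le_sum
      (f := fun q : Fin m × (Fin d × Fin d) => ∫ y in cell d, nsq (sg (w q.1 q.2).u y))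
      (fun q _ => integral_nonneg fun x => nsq_nonneg _) (Finset.mem_univ q)
  have hK20 : 0 ≤ K2 := Finset.sum_nonneg fun p _ => integral_nonneg fun x => nsq_nonneg _
  set s : ℝ := η / (16 * (E0 + η)) with hs
  have hs0 : 0 < s := by positivity
  set C1 : ℝ := (1 + 1 / s) * (|β| * (N * K2)) with hC1
  have hC10 : 0 ≤ C1 := by positivity
  -- smooth approximation
  set g0 : Fin m × (Fin d × Fin d) → V d → ℝ :=
    fun q x => (if idx x = q.1 then 1 else 0) * ξ q.2 x with hg0
  have hg0S : ∀ q, SqP (g0 q) := by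
    intro q
    obtain ⟨K, hK⟩ := hξb q.2
    refine sqP_bdd hE ?_ ?_ K fun x => ?_
    · exact (Measurable.ite (hm (measurableSet_singleton _)) measurable_const
        measurable_const).mul (hξ q.2).meas
    · intro x k
      simp only [hg0, hp x k, (hξ q.2).per x k]
    · simp only [hg0]
      split_ifs
      · rw [one_mul]; exact hK x
      · rw [zero_mul, abs_zero]; exact (abs_nonneg _).trans (hK x)
  have hφex : ∀ q, ∃ φ : V d → ℝ, ContDiff ℝ ∞ φ ∧ Per φ ∧
      ∫ x in cell d, (g0 q x - φ x) ^ 2 < η / (16 * (C1 + 1) * (N + 1)) := by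
    intro q
    obtain ⟨h1, -, -, -, h5⟩ := hT
    have h6 := h5 (g0 q) (hg0S q)
    have h7 : 0 < η / (16 * (C1 + 1) * (N + 1)) := by positivity
    obtain ⟨n, hn⟩ := (h6.eventually (gt_mem_nhds h7)).exists
    exact ⟨trunc n (g0 q), (h1 n (g0 q) (hg0S q)).1, (h1 n (g0 q) (hg0S q)).2, hn⟩
  choose φ hφs hφp hφa using hφex
  have hφb : ∀ q, ∃ K, ∀ x, |φ q x| ≤ K := fun q => cont_per_bdd (hφs q).continuous (hφp q)
  have hφS : ∀ q, SqP (φ q) := fun q => by
    obtain ⟨K, hK⟩ := hφb q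
    exact sqP_bdd hE (hφs q).continuous.measurable (hφp q) K hK
  -- the two-scale limit
  let f : (Fin d × Fin d) ⊕ (Fin m × (Fin d × Fin d)) → V d → ℝ := Sum.elim ξ φ
  let H : (Fin d × Fin d) ⊕ (Fin m × (Fin d × Fin d)) → V d → M d :=
    Sum.elim (fun p _ => eb p.1 p.2) (fun q => sg (w q.1 q.2).u)
  have hf : ∀ a, Measurable (f a) ∧ Per (f a) ∧ ∃ K, ∀ x, |f a x| ≤ K := by
    rintro (p | q)
    · exact ⟨(hξ p).meas, (hξ p).per, hξb p⟩
    · exact ⟨(hφS q).meas, (hφS q).per, hφb q⟩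
  have hH : ∀ a, SqM (H a) := by
    rintro (p | q)
    · exact sqM_const hE _
    · exact sqM_sg hE _
  have hsum : ∀ x y, ∑ a, f a x • H a y = (ε + sg u.u x) + ∑ q, φ q x • sg (w q.1 q.2).u y := by
    intro x y
    rw [Fintype.sum_sum_type]
    show ∑ p, ξ p x • eb p.1 p.2 + ∑ q, φ q x • sg (w q.1 q.2).u y = _
    rw [hξe]
  obtain ⟨hlim, hLint, hAint⟩ := ts_lim hE hDil hAvg hm hp hD0 f hf H hH
  set L : ℝ := ∫ x in cell d, bil (D (idx x)) (fun y => ∑ a, f a x • H a y)
    (fun y => ∑ a, f a x • H a y) with hL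
  -- pointwise bound
  have hbd : ∀ x, bil (D (idx x)) (fun y => ∑ a, f a x • H a y) (fun y => ∑ a, f a x • H a y) ≤
      (1 + s) * ((W (idx x)).Q (ε + sg u.u x) + η' * ∑ p, ξ p x ^ 2) +
        C1 * ∑ q, (g0 q x - φ q x) ^ 2 := by
    intro x
    set i := idx x with hi
    set X : V d → M d := fun y => ∑ p, ξ p x • (eb p.1 p.2 + sg (w i p).u y) with hX
    set Y : V d → M d := fun y => ∑ q, (φ q x - g0 q x) • sg (w q.1 q.2).u y with hY
    have hXM : SqM X := sqM_sum hE _ (fun p y => ξ p x • (eb p.1 p.2 + sg (w i p).u y))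
      fun p => sqM_smul _ (sqM_add (sqM_const hE _) (sqM_sg hE _))
    have hYM : SqM Y := sqM_sum hE _ (fun q y => (φ q x - g0 q x) • sg (w q.1 q.2).u y)
      fun q => sqM_smul _ (sqM_sg hE _)
    have hdec : (fun y => ∑ a, f a x • H a y) = fun y => X y + Y y := by
      funext y
      rw [hsum]
      simp only [hX, hY, smul_add, Finset.sum_add_distrib, sub_smul, Finset.sum_sub_distrib]
      rw [hξe]
      have h1 : ∑ q, g0 q x • sg (w q.1 q.2).u y = ∑ p, ξ p x • sg (w i p).u y := by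
        rw [Fintype.sum_prod_type, Finset.sum_eq_single i]
        · refine Finset.sum_congr rfl fun p _ => ?_
          simp only [hg0, ← hi, if_true, one_mul]
        · intro j _ hj
          refine Finset.sum_eq_zero fun p _ => ?_
          simp only [hg0, ← hi, if_neg (Ne.symm hj), zero_mul, zero_smul]
        · intro h; exact absurd (Finset.mem_univ _) h
      rw [h1]
      abel
    rw [hdec]
    refine (bil_young hE (hD0 i) hXM hYM hs0).trans ?_
    have h1 : bil (D i) X X ≤ (W i).Q (ε + sg u.u x) + η' * ∑ p, ξ p x ^ 2 := by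
      have := hw i (fun p => ξ p x)
      rw [hξe] at this
      exact this
    have h2 : bil (D i) Y Y ≤ |β| * (N * K2) * ∑ q, (g0 q x - φ q x) ^ 2 := by
      have h3 : ∫ y in cell d, nsq (Y y) ≤
          N * ∑ q, (φ q x - g0 q x) ^ 2 * ∫ y in cell d, nsq (sg (w q.1 q.2).u y) :=
        nsq_comb_le (fun q => φ q x - g0 q x) (fun q => sg (w q.1 q.2).u) fun q => sqM_sg hE _
      have h4 : ∑ q, (φ q x - g0 q x) ^ 2 * ∫ y in cell d, nsq (sg (w q.1 q.2).u y) ≤
          (∑ q, (g0 q x - φ q x) ^ 2) * K2 := by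
        rw [Finset.sum_mul]
        refine Finset.sum_le_sum fun q _ => ?_
        have : (φ q x - g0 q x) ^ 2 = (g0 q x - φ q x) ^ 2 := by ring
        rw [this]
        exact mul_le_mul_of_nonneg_left (hK2le q) (sq_nonneg _)
      have h0 : 0 ≤ ∫ y in cell d, nsq (Y y) := integral_nonneg fun x => nsq_nonneg _
      calc bil (D i) Y Y ≤ β * ∫ y in cell d, nsq (Y y) := bil_le hE (hD0 i) hYM
        _ ≤ |β| * ∫ y in cell d, nsq (Y y) := mul_le_mul_of_nonneg_right (le_abs_self β) h0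
        _ ≤ |β| * (N * ((∑ q, (g0 q x - φ q x) ^ 2) * K2)) :=
            mul_le_mul_of_nonneg_left (h3.trans (mul_le_mul_of_nonneg_left h4 hN0)) (abs_nonneg β)
        _ = |β| * (N * K2) * ∑ q, (g0 q x - φ q x) ^ 2 := by ring
    have h5 : 0 ≤ 1 + 1 / s := by positivity
    have h6 : (1 + 1 / s) * bil (D i) Y Y ≤ C1 * ∑ q, (g0 q x - φ q x) ^ 2 := by
      refine (mul_le_mul_of_nonneg_left h2 h5).trans_eq ?_
      rw [hC1]; ring
    exact add_le_add (mul_le_mul_of_nonneg_left h1 (by positivity)) h6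
  have hLle : L ≤ E0 + η / 2 := by
    have hi1 : IntegrableOn (fun x => (W (idx x)).Q (ε + sg u.u x)) (cell d) :=
      hE.int _ β hWf0 ε u
    have hi2 : IntegrableOn (fun x => ∑ p, ξ p x ^ 2) (cell d) :=
      integrable_finsetSum _ fun p _ => (hξ p).sq
    have hi3 : ∀ q, IntegrableOn (fun x => (g0 q x - φ q x) ^ 2) (cell d) :=
      fun q => (sqP_sub (hg0S q) (hφS q)).sq
    have hi4 : IntegrableOn (fun x => ∑ q, (g0 q x - φ q x) ^ 2) (cell d) :=
      integrable_finsetSum _ fun q _ => hi3 q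
    have hiA : IntegrableOn (fun x => (1 + s) * ((W (idx x)).Q (ε + sg u.u x) +
        η' * ∑ p, ξ p x ^ 2)) (cell d) := (hi1.add (hi2.const_mul η')).const_mul _
    have hiB : IntegrableOn (fun x => C1 * ∑ q, (g0 q x - φ q x) ^ 2) (cell d) :=
      hi4.const_mul _
    have h1 : L ≤ ∫ x in cell d, ((1 + s) * ((W (idx x)).Q (ε + sg u.u x) + η' * ∑ p, ξ p x ^ 2) +
        C1 * ∑ q, (g0 q x - φ q x) ^ 2) := integral_mono hLint (hiA.add hiB) hbd
    rw [integral_add hiA hiB, integral_const_mul, integral_const_mul,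
      integral_add hi1 (hi2.const_mul η'), integral_const_mul,
      integral_finsetSum _ fun p _ => (hξ p).sq, integral_finsetSum _ fun q _ => hi3 q, ← hK1] at h1
    have h2 : ∫ x in cell d, (W (idx x)).Q (ε + sg u.u x) < E0 + η / 4 := hu
    have h3 : ∑ q, ∫ x in cell d, (g0 q x - φ q x) ^ 2 ≤ N * (η / (16 * (C1 + 1) * (N + 1))) := by
      calc ∑ q, ∫ x in cell d, (g0 q x - φ q x) ^ 2
          ≤ ∑ _q : Fin m × (Fin d × Fin d), η / (16 * (C1 + 1) * (N + 1)) :=
            Finset.sum_le_sum fun q _ => (hφa q).le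
        _ = N * (η / (16 * (C1 + 1) * (N + 1))) := by
            rw [Finset.sum_const, Finset.card_univ, nsmul_eq_mul]
    have h4 : C1 * ∑ q, ∫ x in cell d, (g0 q x - φ q x) ^ 2 ≤ η / 16 := by
      calc C1 * ∑ q, ∫ x in cell d, (g0 q x - φ q x) ^ 2
          ≤ C1 * (N * (η / (16 * (C1 + 1) * (N + 1)))) := mul_le_mul_of_nonneg_left h3 hC10
        _ = (C1 / (C1 + 1)) * (N / (N + 1)) * (η / 16) := by field_simp
        _ ≤ 1 * 1 * (η / 16) := by
            refine mul_le_mul_of_nonneg_right ?_ (by positivity)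
            refine mul_le_mul ?_ ?_ (by positivity) zero_le_one
            · rw [div_le_one (by positivity)]; linarith
            · rw [div_le_one (by positivity)]; linarith
        _ = η / 16 := by ring
    have h5 : (1 + s) * ((∫ x in cell d, (W (idx x)).Q (ε + sg u.u x)) + η' * K1) ≤
        E0 + 3 * η / 8 := by
      have h6 : (∫ x in cell d, (W (idx x)).Q (ε + sg u.u x)) + η' * K1 ≤ E0 + 5 * η / 16 := by
        linarith
      have h7 : s * (E0 + η) = η / 16 := by
        rw [hs]; field_simp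
      calc (1 + s) * ((∫ x in cell d, (W (idx x)).Q (ε + sg u.u x)) + η' * K1)
          ≤ (1 + s) * (E0 + 5 * η / 16) := mul_le_mul_of_nonneg_left h6 (by positivity)
        _ ≤ E0 + 3 * η / 8 := by nlinarith
    linarith
  -- remainders
  have hrem : ∀ q, ∃ K, 0 ≤ K ∧ ∀ (y x : V d),
      nsq (fun i j => (w q.1 q.2).u y i * fderiv ℝ (φ q) x (Pi.single j 1)) ≤ K :=
    fun q => rem_bdd (hφs q) (hφp q) (w q.1 q.2)
  choose Kr hKr0 hKr using hrem
  set K3 : ℝ := N * ∑ q, Kr q with hK3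
  have hK30 : 0 ≤ K3 := mul_nonneg hN0 (Finset.sum_nonneg fun q _ => hKr0 q)
  have hen : ∀ n : ℕ, 0 < n → eff (fun x => D (idx x) ((n : ℝ) • x)) ε ≤
      (1 + 1 / (n : ℝ)) * (∫ x in cell d, (D (idx x) ((n : ℝ) • x)).Q
        (∑ a, f a x • H a ((n : ℝ) • x))) + (1 + n) * (|β| * ((1 / (n : ℝ)) ^ 2 * K3)) := by
    intro n hn
    have hn' : (0 : ℝ) < n := by exact_mod_cast hn
    have hDn : IsFld (fun x => D (idx x) ((n : ℝ) • x)) 0 β := hE.osc_fld m idx D 0 β hm hp hD0 n
    choose v hv using fun q => disp_osc (hφs q) (hφp q) (w q.1 q.2) hn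
    obtain ⟨S, hS⟩ := disp_sum hE Finset.univ v
    obtain ⟨U, _, hU⟩ := hE.add u S
    set rr : V d → M d := fun x => ∑ q, symm (fun i j => (w q.1 q.2).u ((n : ℝ) • x) i *
      fderiv ℝ (φ q) x (Pi.single j 1)) with hrr
    have hdec : ∀ x, ε + sg U.u x = ∑ a, f a x • H a ((n : ℝ) • x) + (1 / (n : ℝ)) • rr x := by
      intro x
      rw [hsum]
      have h1 : sg U.u x = sg u.u x + ∑ q, (φ q x • sg (w q.1 q.2).u ((n : ℝ) • x) +
          (1 / (n : ℝ)) • symm (fun i j => (w q.1 q.2).u ((n : ℝ) • x) i *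
            fderiv ℝ (φ q) x (Pi.single j 1))) := by
        unfold sg
        rw [hU x, symm_add, hS x, symm_sum]
        congr 1
        refine Finset.sum_congr rfl fun q _ => ?_
        rw [hv q x, symm_add, symm_smul, symm_smul]
      rw [h1, Finset.sum_add_distrib, hrr, Finset.smul_sum]
      abel
    refine (hE.eff_le _ β hDn ε U).trans ?_
    have hpt : ∀ x, (D (idx x) ((n : ℝ) • x)).Q (ε + sg U.u x) ≤
        (1 + 1 / (n : ℝ)) * (D (idx x) ((n : ℝ) • x)).Q (∑ a, f a x • H a ((n : ℝ) • x)) +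
          (1 + n) * (|β| * ((1 / (n : ℝ)) ^ 2 * K3)) := by
      intro x
      rw [hdec x]
      have h1 := Tens.Q_add_le' (psd hDn x) (∑ a, f a x • H a ((n : ℝ) • x))
        ((1 / (n : ℝ)) • rr x) (s := 1 / (n : ℝ)) (by positivity)
      refine h1.trans (add_le_add le_rfl ?_)
      rw [one_div_one_div]
      refine mul_le_mul_of_nonneg_left ?_ (by positivity)
      have h2 : nsq (rr x) ≤ K3 := by
        refine (nsq_sum_le Finset.univ _).trans ?_
        rw [Finset.card_univ, hK3]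
        refine mul_le_mul_of_nonneg_left (Finset.sum_le_sum fun q _ => ?_) hN0
        rw [nsq_symm]
        exact hKr q _ _
      calc (D (idx x) ((n : ℝ) • x)).Q ((1 / (n : ℝ)) • rr x)
          ≤ β * nsq ((1 / (n : ℝ)) • rr x) := hDn.hi x _
        _ ≤ |β| * nsq ((1 / (n : ℝ)) • rr x) :=
            mul_le_mul_of_nonneg_right (le_abs_self β) (nsq_nonneg _)
        _ ≤ |β| * ((1 / (n : ℝ)) ^ 2 * K3) := by
            rw [nsq_smul]
            exact mul_le_mul_of_nonneg_left (mul_le_mul_of_nonneg_left h2 (sq_nonneg _))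
              (abs_nonneg β)
    have hfin := finite_cell hE
    have hic : IntegrableOn (fun _ : V d => (1 + (n : ℝ)) * (|β| * ((1 / (n : ℝ)) ^ 2 * K3)))
        (cell d) := integrable_const _
    have hiA : IntegrableOn (fun x => (1 + 1 / (n : ℝ)) * (D (idx x) ((n : ℝ) • x)).Q
        (∑ a, f a x • H a ((n : ℝ) • x))) (cell d) := (hAint n hn).const_mul _
    have h3 := integral_mono (hE.int _ β hDn ε U) (hiA.add hic) hpt
    have h4 : ∫ x in cell d, ((1 + 1 / (n : ℝ)) * (D (idx x) ((n : ℝ) • x)).Q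
        (∑ a, f a x • H a ((n : ℝ) • x)) + (1 + (n : ℝ)) * (|β| * ((1 / (n : ℝ)) ^ 2 * K3))) =
        (1 + 1 / (n : ℝ)) * (∫ x in cell d, (D (idx x) ((n : ℝ) • x)).Q
        (∑ a, f a x • H a ((n : ℝ) • x))) + (1 + n) * (|β| * ((1 / (n : ℝ)) ^ 2 * K3)) := by
      rw [integral_add hiA hic, integral_const_mul]
      congr 1
      rw [integral_const]
      simp [Measure.real, hE.vol]
    exact h3.trans_eq h4
  -- the limit
  have hinv : Tendsto (fun n : ℕ => 1 / (n : ℝ)) atTop (𝓝 0) := tendsto_one_div_atTop_nhds_zero_nat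
  have hlim2 : Tendsto (fun n : ℕ => (1 + 1 / (n : ℝ)) * (∫ x in cell d,
      (D (idx x) ((n : ℝ) • x)).Q (∑ a, f a x • H a ((n : ℝ) • x))) +
        (|β| * K3) * (1 / (n : ℝ) * (1 / (n : ℝ)) + 1 / (n : ℝ))) atTop
      (𝓝 ((1 + 0) * L + (|β| * K3) * (0 * 0 + 0))) :=
    ((hinv.const_add 1).mul hlim).add (((hinv.mul hinv).add hinv).const_mul _)
  have hlt : (1 + 0) * L + (|β| * K3) * (0 * 0 + 0) < E0 + η := by linarith
  obtain ⟨n₀, hn₀⟩ := eventually_atTop.1 (hlim2.eventually (gt_mem_nhds hlt))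
  refine ⟨max n₀ 1, fun n hn => ?_⟩
  have h1 := hn₀ n (le_trans (le_max_left _ _) hn)
  have hn1 : 0 < n := lt_of_lt_of_le Nat.one_pos (le_trans (le_max_right _ _) hn)
  have hn' : (n : ℝ) ≠ 0 := by positivity
  refine (hen n hn1).trans ?_
  have h2 : (1 + (n : ℝ)) * (|β| * ((1 / (n : ℝ)) ^ 2 * K3)) =
      (|β| * K3) * (1 / (n : ℝ) * (1 / (n : ℝ)) + 1 / (n : ℝ)) := by
    field_simp
  rw [h2]
  exact h1.le

end Pool.Agent.Lib.MP_5df1bf_an
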