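import Pool.Agent.Lib.MP_5df1bf_an.Opt
import Pool.Agent.Lib.MP_5df1bf_an.Korn
import Pool.Agent.Lib.MP_5df1bf_an.Cov
import Pool.Agent.Lib.MP_5df1bf_an.TSup

/-!
# MP_5df1bf_an, module A8b: lower bound in two-scale homogenization
-/

open MeasureTheory Filter Topology
open scoped BigOperators ContDiff

noncomputable section

namespace Pool.Agent.Lib.MP_5df1bf_an
namespace TSloPf

open OptAux Korn

variable {d : ℕ}

/-! ### pointwise inequalities -/

theorem legendre {T : Tens d} (hT : T.PSD) (ξ G : M d) :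
    2 * ip (T.C ξ) G - T.Q ξ ≤ T.Q G := by
  have h := hT (G - ξ)
  rw [T.Q_sub, T.ip_comm_C G ξ] at h
  linarith

theorem young (δ G : M d) (hδ : symm δ = δ) {l : ℝ} (hl : 0 < l) :
    -(l⁻¹ * nsq δ) - l * nsq G ≤ 2 * ip δ G := by
  have h := nsq_nonneg (δ + l • G)
  rw [nsq_add, nsq_smul, ip_smul_right, hδ] at h
  have h1 : 0 ≤ l⁻¹ * (nsq δ + 2 * (l * ip δ G) + l ^ 2 * nsq G) :=
    mul_nonneg (inv_nonneg.mpr hl.le) h
  have h2 : l⁻¹ * (nsq δ + 2 * (l * ip δ G) + l ^ 2 * nsq G) =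
      l⁻¹ * nsq δ + 2 * ip δ G + l * nsq G := by
    field_simp
  linarith

theorem nsq_add3_le (A B C : M d) : nsq (A + B + C) ≤ 4 * (nsq A + nsq B + nsq C) := by
  have h1 := nsq_add_le (A + B) C
  have h2 := nsq_add_le A B
  have h3 := nsq_nonneg C
  linarith

/-! ### bounded periodic functions -/

/-- measurable, periodic and bounded -/
structure Bp (f : V d → ℝ) : Prop where
  meas : Measurable f
  per : Per f
  bdd : ∃ K, ∀ x, |f x| ≤ K

theorem per_fract {α : Type*} {g : V d → α} (h : Per g) (x : V d) :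
    g x = g (fun i => Int.fract (x i)) := by
  have h1 := CovPf.per_zv h (fun i => Int.fract (x i)) (fun i => ⌊x i⌋)
  rw [← h1]
  congr 1
  funext i
  simp only [zv, Pi.add_apply]
  exact (Int.fract_add_floor (x i)).symm

theorem Bp.of_cont {f : V d → ℝ} (hc : Continuous f) (hp : Per f) : Bp f := by
  refine ⟨hc.measurable, hp, ?_⟩
  obtain ⟨K, hK⟩ := (isCompact_Icc : IsCompact (Set.Icc (0 : V d) 1)).exists_bound_of_continuousOn
    hc.continuousOn
  refine ⟨K, fun x => ?_⟩
  rw [per_fract hp x]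
  exact hK _ ⟨fun i => Int.fract_nonneg _, fun i => (Int.fract_lt_one _).le⟩

theorem Bp.mul {f g : V d → ℝ} (hf : Bp f) (hg : Bp g) : Bp fun x => f x * g x := by
  obtain ⟨K, hK⟩ := hf.bdd
  obtain ⟨L, hL⟩ := hg.bdd
  refine ⟨hf.meas.mul hg.meas, fun x i => by simp only [hf.per x i, hg.per x i], K * L, fun x => ?_⟩
  rw [abs_mul]
  exact mul_le_mul (hK x) (hL x) (abs_nonneg _) ((abs_nonneg _).trans (hK x))

theorem Bp.sub_one {f : V d → ℝ} (hf : Bp f) : Bp fun x => f x - 1 := by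
  obtain ⟨K, hK⟩ := hf.bdd
  refine ⟨hf.meas.sub_const 1, fun x i => by simp only [hf.per x i], K + 1, fun x => ?_⟩
  exact (abs_sub _ _).trans (by rw [abs_one]; linarith [hK x])

theorem Bp.int (hE : BaseE d) {f : V d → ℝ} (hf : Bp f) : IntegrableOn f (cell d) := by
  obtain ⟨K, hK⟩ := hf.bdd
  exact sqP_int hE (sqP_bdd hE hf.meas hf.per K hK)

theorem Bp.sqP (hE : BaseE d) {f : V d → ℝ} (hf : Bp f) : SqP f := by
  obtain ⟨K, hK⟩ := hf.bdd
  exact sqP_bdd hE hf.meas hf.per K hK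

theorem bp_char {m : ℕ} {idx : V d → Fin m} (h : Measurable idx) (hp : Per idx) (i : Fin m) :
    Bp fun x => if idx x = i then (1 : ℝ) else 0 := by
  refine ⟨?_, fun x k => by simp only [hp x k], 1, fun x => ?_⟩
  · exact Measurable.ite (h (measurableSet_singleton i)) measurable_const measurable_const
  · by_cases hx : idx x = i <;> simp [hx]

theorem sqP_bmul {f g : V d → ℝ} (hf : Bp f) (hg : SqP g) : SqP fun x => f x * g x := by
  obtain ⟨K, hK⟩ := hf.bdd
  refine ⟨hf.meas.mul hg.meas, fun x i => by simp only [hf.per x i, hg.per x i], ?_⟩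
  refine Integrable.mono' (hg.sq.const_mul (K ^ 2)) ((hf.meas.mul hg.meas).pow_const 2).aestronglyMeasurable
    (Eventually.of_forall fun x => ?_)
  rw [Real.norm_eq_abs, abs_of_nonneg (sq_nonneg _), mul_pow]
  apply mul_le_mul_of_nonneg_right _ (sq_nonneg _)
  rw [← sq_abs]
  exact pow_le_pow_left₀ (abs_nonneg _) (hK x) 2

theorem sqM_bmul {f : V d → ℝ} {G : V d → M d} (hf : Bp f) (hG : SqM G) :
    SqM fun x => f x • G x := fun i j => sqP_bmul hf (hG i j)

/-- dilation of a periodic function -/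
theorem per_dil {α : Type*} {g : V d → α} (hg : Per g) (n : ℕ) : Per fun x => g ((n : ℝ) • x) := by
  intro x i
  show g ((n : ℝ) • (x + Pi.single i 1)) = g ((n : ℝ) • x)
  rw [smul_add]
  exact CovPf.per_nat hg _ i n

theorem Bp.dil {f : V d → ℝ} (hf : Bp f) (n : ℕ) : Bp fun x => f ((n : ℝ) • x) := by
  obtain ⟨K, hK⟩ := hf.bdd
  exact ⟨hf.meas.comp (measurable_const_smul _), per_dil hf.per n, K, fun x => hK _⟩

theorem sqM_dil (hDil : StmtDil d) {G : V d → M d} (hG : SqM G) {n : ℕ} (hn : 0 < n) :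
    SqM fun x => G ((n : ℝ) • x) := by
  intro i j
  refine ⟨(hG i j).meas.comp (measurable_const_smul _), per_dil (hG i j).per n, ?_⟩
  exact (hDil n hn (fun x => G x i j ^ 2) ((hG i j).meas.pow_const 2)
    (fun x k => by simp only [(hG i j).per x k]) (hG i j).sq).1

theorem meas_ip' {G H : V d → M d} (hG : SqM G) (hH : SqM H) : Measurable fun x => ip (G x) (H x) := by
  unfold ip
  exact Finset.measurable_sum _ fun i _ => Finset.measurable_sum _ fun j _ =>
    (hG i j).meas.mul (hH i j).meas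

theorem meas_nsq {G : V d → M d} (hG : SqM G) : Measurable fun x => nsq (G x) :=
  meas_ip' (sqM_symm hG) (sqM_symm hG)

theorem per_ip {G H : V d → M d} (hG : SqM G) (hH : SqM H) : Per fun x => ip (G x) (H x) := by
  intro x i
  simp only [sqM_per hG x i, sqM_per hH x i]

theorem per_nsq {G : V d → M d} (hG : SqM G) : Per fun x => nsq (G x) := by
  intro x i
  simp only [sqM_per hG x i]

/-- stress fields are square integrable -/
theorem sqM_C (hE : BaseE d) {D : V d → Tens d} {β : ℝ} (hD : IsFld D 0 β) {G : V d → M d}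
    (hG : SqM G) : SqM fun x => (D x).C (G x) := by
  intro i j
  have h1 : (fun x => (D x).C (G x) i j) = fun x => ip ((D x).C (G x)) (eb i j) := by
    funext x; rw [ip_eb]
  have hm : Measurable fun x => (D x).C (G x) i j := by
    rw [h1]
    exact hE.meas D hD.meas G (fun _ => eb i j) (sqM_meas hG) measurable_const
  refine ⟨hm, fun x k => by
    show (D (x + Pi.single k 1)).C (G (x + Pi.single k 1)) i j = (D x).C (G x) i j
    rw [hD.per x k, sqM_per hG x k], ?_⟩
  have hβ : ∀ x ξ, 0 ≤ β * nsq ξ := fun x ξ => by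
    have h2 := hD.lo x ξ
    have h3 := hD.hi x ξ
    rw [zero_mul] at h2
    linarith
  refine Integrable.mono' ((sqM_nsq_int hG).const_mul (β * (β * nsq (eb i j))))
    (hm.pow_const 2).aestronglyMeasurable (Eventually.of_forall fun x => ?_)
  rw [Real.norm_eq_abs, abs_of_nonneg (sq_nonneg _)]
  have h4 : (D x).C (G x) i j = ip ((D x).C (G x)) (eb i j) := (ip_eb _ i j).symm
  show ((D x).C (G x) i j) ^ 2 ≤ _
  rw [h4]
  have h5 := (D x).Q_cs (OptAux.psd hD x) (G x) (eb i j)
  have h6 := hD.hi x (G x)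
  have h7 := hD.hi x (eb i j)
  have h8 : 0 ≤ (D x).Q (eb i j) := OptAux.psd hD x _
  calc _ ≤ (D x).Q (G x) * (D x).Q (eb i j) := h5
    _ ≤ (β * nsq (G x)) * (β * nsq (eb i j)) := mul_le_mul h6 h7 h8 (hβ x _)
    _ = β * (β * nsq (eb i j)) * nsq (G x) := by ring

/-! ### the skew potential -/

theorem grad_pd (u : Disp d) (x : V d) (i j : Fin d) :
    grad u.u x i j = pd (fun y => u.u y i) j x := by
  have h1 : DifferentiableAt ℝ u.u x := (u.smooth.differentiable (by simp)) x
  have h2 := (hasFDerivAt_pi'.mp h1.hasFDerivAt) i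
  unfold grad pd
  rw [h2.fderiv]
  simp

theorem pd_dil {f : V d → ℝ} (hf : ContDiff ℝ ∞ f) (n : ℕ) (c : Fin d) (x : V d) :
    pd (fun y => f ((n : ℝ) • y)) c x = n * pd f c ((n : ℝ) • x) := by
  have h1 : HasFDerivAt f (fderiv ℝ f ((n : ℝ) • x)) ((n : ℝ) • x) :=
    ((hf.differentiable (by simp)) _).hasFDerivAt
  have h2 : HasFDerivAt (fun y : V d => (n : ℝ) • y)
      ((n : ℝ) • ContinuousLinearMap.id ℝ (V d)) x := (hasFDerivAt_id x).fun_const_smul _
  have h3 := (h1.comp x h2).fderiv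
  unfold pd
  rw [show (fun y : V d => f ((n : ℝ) • y)) = f ∘ fun y => (n : ℝ) • y from rfl, h3]
  simp

theorem skew_zero (hP : StmtParts d) {F : Fin d → Fin d → V d → ℝ}
    (hF : ∀ b c, ContDiff ℝ ∞ (F b c)) (hFp : ∀ b c, Per (F b c))
    (hs : ∀ b c x, F b c x = - F c b x) {v : V d → ℝ} (hv : ContDiff ℝ ∞ v) (hvp : Per v) :
    ∑ b, ∑ c, ∫ x in cell d, pd (F b c) c x * pd v b x = 0 := by
  have h1 : ∀ b c, ∫ x in cell d, pd (F b c) c x * pd v b x =
      - ∫ x in cell d, F b c x * pd (pd v b) c x := by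
    intro b c
    have h2 := hP (fun x => F b c x * pd v b x) (((hF b c).mul (pd_smooth hv b)).of_le (by simp))
      (fun x k => by
        show F b c (x + _) * pd v b (x + _) = _
        rw [hFp b c x k, pd_per hvp b x k]) c
    have h3 : ∫ x in cell d, (pd (F b c) c x * pd v b x + F b c x * pd (pd v b) c x) = 0 := by
      rw [← h2]
      congr 1
      funext x
      exact (pd_mul (hF b c) (pd_smooth hv b) c x).symm
    have i1 : IntegrableOn (fun x => pd (F b c) c x * pd v b x) (cell d) :=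
      intg ((pd_smooth (hF b c) c).continuous.mul (pd_smooth hv b).continuous)
    have i2 : IntegrableOn (fun x => F b c x * pd (pd v b) c x) (cell d) :=
      intg ((hF b c).continuous.mul (pd_smooth (pd_smooth hv b) c).continuous)
    rw [integral_add i1 i2] at h3
    linarith
  simp only [h1, Finset.sum_neg_distrib, neg_eq_zero]
  -- antisymmetry
  have h4 : ∀ b c, ∫ x in cell d, F b c x * pd (pd v b) c x =
      - ∫ x in cell d, F c b x * pd (pd v c) b x := by
    intro b c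
    rw [← integral_neg]
    congr 1
    funext x
    rw [hs b c x, pd_comm hv b c x]
    ring
  have h5 : ∑ b, ∑ c, ∫ x in cell d, F b c x * pd (pd v b) c x =
      - ∑ b, ∑ c, ∫ x in cell d, F b c x * pd (pd v b) c x := by
    conv_lhs => rw [Finset.sum_comm]
    rw [← Finset.sum_neg_distrib]
    refine Finset.sum_congr rfl fun b _ => ?_
    rw [← Finset.sum_neg_distrib]
    exact Finset.sum_congr rfl fun c _ => h4 c b
  linarith

/-- almost divergence free -/
theorem pot_bound (hP : StmtParts d) (hE : BaseE d) {φ : V d → ℝ} (hφ : ContDiff ℝ ∞ φ)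
    (hφp : Per φ) {Ψ : Fin d → Fin d → Fin d → V d → ℝ}
    (hΨ : ∀ a b c, ContDiff ℝ ∞ (Ψ a b c) ∧ Per (Ψ a b c)) (hs : ∀ a b c x, Ψ a b c x = - Ψ a c b x)
    {P : V d → M d} (hPP : ∀ y a b, P y a b = ∑ c, pd (Ψ a b c) c y) :
    ∃ C : ℝ, 0 ≤ C ∧ ∀ n : ℕ, 0 < n → ∀ u : Disp d,
      |∫ x in cell d, φ x * ip (P ((n : ℝ) • x)) (grad u.u x)| ≤
        C / n * (1 + ∫ x in cell d, ip (grad u.u x) (grad u.u x)) := by
  -- bounds
  have hB1 : ∀ c, ∃ K, ∀ x, |pd φ c x| ≤ K := fun c =>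
    (Bp.of_cont (pd_smooth hφ c).continuous (pd_per hφp c)).bdd
  choose K₁ hK₁ using hB1
  have hB2 : ∀ a b c, ∃ K, ∀ x, |Ψ a b c x| ≤ K := fun a b c =>
    (Bp.of_cont (hΨ a b c).1.continuous (hΨ a b c).2).bdd
  choose K₂ hK₂ using hB2
  have hK₁0 : ∀ c, 0 ≤ K₁ c := fun c => (abs_nonneg _).trans (hK₁ c 0)
  have hK₂0 : ∀ a b c, 0 ≤ K₂ a b c := fun a b c => (abs_nonneg _).trans (hK₂ a b c 0)
  refine ⟨∑ a, ∑ b, ∑ c, K₁ c * K₂ a b c, Finset.sum_nonneg fun a _ => Finset.sum_nonneg fun b _ =>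
    Finset.sum_nonneg fun c _ => mul_nonneg (hK₁0 c) (hK₂0 a b c), fun n hn u => ?_⟩
  have hn' : (0 : ℝ) < n := by exact_mod_cast hn
  set v : Fin d → V d → ℝ := fun a y => u.u y a with hv
  have hvs : ∀ a, ContDiff ℝ ∞ (v a) := fun a => (contDiff_pi.mp u.smooth) a
  have hvp : ∀ a, Per (v a) := fun a x k => by
    simp only [hv]
    rw [u.per x k]
  have hΨn : ∀ a b c, ContDiff ℝ ∞ (fun y : V d => Ψ a b c ((n : ℝ) • y)) := fun a b c =>
    (hΨ a b c).1.comp (contDiff_id.const_smul (n : ℝ))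
  set F : Fin d → Fin d → Fin d → V d → ℝ := fun a b c x => φ x * Ψ a b c ((n : ℝ) • x) with hF
  have hFs : ∀ a b c, ContDiff ℝ ∞ (F a b c) := fun a b c => hφ.mul (hΨn a b c)
  have hFp : ∀ a b c, Per (F a b c) := fun a b c x k => by
    simp only [hF]
    rw [hφp x k]
    have := per_dil (hΨ a b c).2 n x k
    simp only at this
    rw [this]
  have hFsk : ∀ a b c x, F a b c x = - F a c b x := fun a b c x => by
    simp only [hF]
    rw [hs a b c]; ring
  have hpdF : ∀ a b c x, pd (F a b c) c x =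
      pd φ c x * Ψ a b c ((n : ℝ) • x) + n * (φ x * pd (Ψ a b c) c ((n : ℝ) • x)) := by
    intro a b c x
    rw [hF]
    simp only
    rw [pd_mul hφ (hΨn a b c) c x, pd_dil (hΨ a b c).1]
    ring
  have hc1 : ∀ a b c, Continuous fun x : V d => pd φ c x * Ψ a b c ((n : ℝ) • x) * pd (v a) b x :=
    fun a b c => ((pd_smooth hφ c).continuous.mul (hΨn a b c).continuous).mul
      (pd_smooth (hvs a) b).continuous
  have hc2 : ∀ a b c, Continuous fun x : V d =>
      φ x * pd (Ψ a b c) c ((n : ℝ) • x) * pd (v a) b x := by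
    intro a b c
    have h1 : Continuous fun x : V d => pd (Ψ a b c) c ((n : ℝ) • x) :=
      (pd_smooth (hΨ a b c).1 c).continuous.comp (continuous_const_smul _)
    exact (hφ.continuous.mul h1).mul (pd_smooth (hvs a) b).continuous
  -- the identity for each component
  have hid : ∀ a, ∑ b, ∑ c, ∫ x in cell d, φ x * pd (Ψ a b c) c ((n : ℝ) • x) * pd (v a) b x =
      - (1 / n) * ∑ b, ∑ c, ∫ x in cell d, pd φ c x * Ψ a b c ((n : ℝ) • x) * pd (v a) b x := by
    intro a
    have h1 := skew_zero hP (fun b c => hFs a b c) (fun b c => hFp a b c)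
      (fun b c x => hFsk a b c x) (hvs a) (hvp a)
    have h2 : ∀ b c, ∫ x in cell d, pd (F a b c) c x * pd (v a) b x =
        (∫ x in cell d, pd φ c x * Ψ a b c ((n : ℝ) • x) * pd (v a) b x) +
        n * ∫ x in cell d, φ x * pd (Ψ a b c) c ((n : ℝ) • x) * pd (v a) b x := by
      intro b c
      rw [← integral_const_mul, ← integral_add (intg (hc1 a b c))
        ((intg (hc2 a b c)).const_mul _)]
      congr 1
      funext x
      rw [hpdF]; ring
    simp only [h2, Finset.sum_add_distrib, ← Finset.mul_sum] at h1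
    field_simp
    linarith
  have hint : ∫ x in cell d, φ x * ip (P ((n : ℝ) • x)) (grad u.u x) =
      ∑ a, ∑ b, ∑ c, ∫ x in cell d, φ x * pd (Ψ a b c) c ((n : ℝ) • x) * pd (v a) b x := by
    have h1 : ∀ x, φ x * ip (P ((n : ℝ) • x)) (grad u.u x) =
        ∑ a, ∑ b, ∑ c, φ x * pd (Ψ a b c) c ((n : ℝ) • x) * pd (v a) b x := by
      intro x
      unfold ip
      rw [Finset.mul_sum]
      refine Finset.sum_congr rfl fun a _ => ?_
      rw [Finset.mul_sum]
      refine Finset.sum_congr rfl fun b _ => ?_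
      rw [hPP, grad_pd, Finset.sum_mul, Finset.mul_sum]
      exact Finset.sum_congr rfl fun c _ => by ring
    simp only [h1]
    rw [integral_finsetSum _ fun a _ => integrable_finsetSum _ fun b _ =>
      integrable_finsetSum _ fun c _ => intg (hc2 a b c)]
    refine Finset.sum_congr rfl fun a _ => ?_
    rw [integral_finsetSum _ fun b _ => integrable_finsetSum _ fun c _ => intg (hc2 a b c)]
    refine Finset.sum_congr rfl fun b _ => ?_
    rw [integral_finsetSum _ fun c _ => intg (hc2 a b c)]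
  rw [hint]
  simp only [hid]
  set E : ℝ := 1 + ∫ x in cell d, ip (grad u.u x) (grad u.u x) with hEdef
  have hgi : IntegrableOn (fun x => ip (grad u.u x) (grad u.u x)) (cell d) :=
    sqM_ip_int (sqM_grad hE u) (sqM_grad hE u)
  have hprob : IsProbabilityMeasure ((volume : Measure (V d)).restrict (cell d)) :=
    ⟨by rw [Measure.restrict_apply_univ, hE.vol]⟩
  have hterm : ∀ a b c, |∫ x in cell d, pd φ c x * Ψ a b c ((n : ℝ) • x) * pd (v a) b x| ≤
      K₁ c * K₂ a b c * E := by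
    intro a b c
    have h1 : ∀ x, |pd φ c x * Ψ a b c ((n : ℝ) • x) * pd (v a) b x| ≤
        K₁ c * K₂ a b c * (1 + ip (grad u.u x) (grad u.u x)) := by
      intro x
      rw [abs_mul, abs_mul]
      have h2 : |pd (v a) b x| ≤ 1 + ip (grad u.u x) (grad u.u x) := by
        have h3 := entry_sq_le (grad u.u x) a b
        rw [grad_pd u x a b] at h3
        have h4 : |pd (v a) b x| ≤ 1 + (pd (v a) b x) ^ 2 := by
          rw [← sq_abs]
          nlinarith [sq_nonneg (|pd (v a) b x| - 1), abs_nonneg (pd (v a) b x)]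
        exact h4.trans (by linarith)
      exact mul_le_mul (mul_le_mul (hK₁ c x) (hK₂ a b c _) (abs_nonneg _) (hK₁0 c)) h2
        (abs_nonneg _) (mul_nonneg (hK₁0 c) (hK₂0 a b c))
    calc |∫ x in cell d, pd φ c x * Ψ a b c ((n : ℝ) • x) * pd (v a) b x|
        ≤ ∫ x in cell d, |pd φ c x * Ψ a b c ((n : ℝ) • x) * pd (v a) b x| :=
          abs_integral_le_integral_abs
      _ ≤ ∫ x in cell d, K₁ c * K₂ a b c * (1 + ip (grad u.u x) (grad u.u x)) := by
          refine integral_mono (intg (hc1 a b c)).abs ?_ h1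
          exact ((integrable_const 1).add hgi).const_mul _
      _ = K₁ c * K₂ a b c * E := by
          rw [integral_const_mul, integral_add (integrable_const 1) hgi, integral_const]
          simp [hEdef]
  rw [← Finset.mul_sum, abs_mul, abs_neg, abs_of_pos (by positivity : (0 : ℝ) < 1 / n)]
  have hsum : |∑ a, ∑ b, ∑ c, ∫ x in cell d, pd φ c x * Ψ a b c ((n : ℝ) • x) * pd (v a) b x| ≤
      (∑ a, ∑ b, ∑ c, K₁ c * K₂ a b c) * E := by
    simp only [Finset.sum_mul]
    refine (Finset.abs_sum_le_sum_abs _ _).trans (Finset.sum_le_sum fun a _ => ?_)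
    refine (Finset.abs_sum_le_sum_abs _ _).trans (Finset.sum_le_sum fun b _ => ?_)
    exact (Finset.abs_sum_le_sum_abs _ _).trans (Finset.sum_le_sum fun c _ => hterm a b c)
  calc (1 / (n : ℝ)) * _ ≤ (1 / (n : ℝ)) * ((∑ a, ∑ b, ∑ c, K₁ c * K₂ a b c) * E) :=
        mul_le_mul_of_nonneg_left hsum (by positivity)
    _ = _ := by ring

/-! ### auxiliary facts for the main proof -/

theorem exists_small (A B : ℝ) {a b : ℝ} (ha : 0 < a) (hb : 0 < b) :
    ∃ s : ℝ, 0 < s ∧ A * s ≤ a ∧ B * s ≤ b := by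
  refine ⟨min (a / (|A| + 1)) (b / (|B| + 1)), by positivity, ?_, ?_⟩
  · have h0 : 0 < min (a / (|A| + 1)) (b / (|B| + 1)) := by positivity
    have h2 : min (a / (|A| + 1)) (b / (|B| + 1)) ≤ a / (|A| + 1) := min_le_left _ _
    rw [le_div_iff₀ (by positivity)] at h2
    nlinarith [mul_le_mul_of_nonneg_right (le_abs_self A) h0.le]
  · have h0 : 0 < min (a / (|A| + 1)) (b / (|B| + 1)) := by positivity
    have h2 : min (a / (|A| + 1)) (b / (|B| + 1)) ≤ b / (|B| + 1) := min_le_right _ _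
    rw [le_div_iff₀ (by positivity)] at h2
    nlinarith [mul_le_mul_of_nonneg_right (le_abs_self B) h0.le]

theorem energy_lower (hE : BaseE d) {D : V d → Tens d} {β : ℝ} (hD : IsFld D 0 β)
    {ξ τ δ : V d → M d} (hξ : SqM ξ) (hτ : SqM τ) (hδ : SqM δ)
    (hdec : ∀ x, (D x).C (ξ x) = τ x + δ x) (hδs : ∀ x, symm (δ x) = δ x) {l : ℝ} (hl : 0 < l)
    (ε : M d) (u : Disp d) :
    2 * (∫ x in cell d, ip (τ x) (ε + sg u.u x)) - l⁻¹ * (∫ x in cell d, nsq (δ x)) -
      l * (∫ x in cell d, nsq (ε + sg u.u x)) - (∫ x in cell d, (D x).Q (ξ x)) ≤ energy D ε u := by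
  have hG : SqM (fun x => ε + sg u.u x) := sqM_add (sqM_const hE ε) (sqM_sg hE u)
  have i1 := (sqM_ip_int hτ hG).const_mul 2
  have i2 := (sqM_nsq_int hδ).const_mul l⁻¹
  have i3 := (sqM_nsq_int hG).const_mul l
  have i4 : IntegrableOn (fun x => (D x).Q (ξ x)) (cell d) := bil_int hE hD hξ hξ
  have i12 : IntegrableOn (fun x => 2 * ip (τ x) (ε + sg u.u x) - l⁻¹ * nsq (δ x)) (cell d) :=
    i1.sub i2
  have i123 : IntegrableOn (fun x => 2 * ip (τ x) (ε + sg u.u x) - l⁻¹ * nsq (δ x) -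
      l * nsq (ε + sg u.u x)) (cell d) := i12.sub i3
  have h : ∫ x in cell d, (2 * ip (τ x) (ε + sg u.u x) - l⁻¹ * nsq (δ x) -
      l * nsq (ε + sg u.u x) - (D x).Q (ξ x)) =
      2 * (∫ x in cell d, ip (τ x) (ε + sg u.u x)) - l⁻¹ * (∫ x in cell d, nsq (δ x)) -
      l * (∫ x in cell d, nsq (ε + sg u.u x)) - (∫ x in cell d, (D x).Q (ξ x)) := by
    rw [integral_sub i123 i4, integral_sub i12 i3, integral_sub i1 i2,
      integral_const_mul, integral_const_mul, integral_const_mul]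
  rw [← h]
  refine integral_mono (i123.sub i4) (hE.int D β hD ε u) fun x => ?_
  have h1 := legendre (psd hD x) (ξ x) (ε + sg u.u x)
  rw [hdec x, ip_add_left] at h1
  have h2 := young (δ x) (ε + sg u.u x) (hδs x) hl
  show 2 * ip (τ x) (ε + sg u.u x) - l⁻¹ * nsq (δ x) - l * nsq (ε + sg u.u x) - (D x).Q (ξ x) ≤
    (D x).Q (ε + sg u.u x)
  linarith

/-- approximation of the stress of a cell problem -/
theorem cell_approx (hTr : StmtTrunc d) (hPot : StmtPot d) (hP : StmtParts d) (hE : BaseE d)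
    {τ : V d → M d} (hτ : SqM τ) (hs : ∀ x, symm (τ x) = τ x)
    (hdiv : ∀ u : Disp d, ∫ x in cell d, ip (τ x) (grad u.u x) = 0) {s : ℝ} (hs0 : 0 < s)
    {w : M d} (hw : ∀ i j, ∫ x in cell d, τ x i j = w i j) :
    ∃ P : V d → M d, SqM P ∧ (∀ x, symm (P x) = P x) ∧ (∀ i j, ∫ x in cell d, P x i j = 0) ∧
      (∫ x in cell d, nsq (τ x - w - P x) ≤ s) ∧
      ∀ φ : V d → ℝ, ContDiff ℝ ∞ φ → Per φ → ∃ C : ℝ, 0 ≤ C ∧ ∀ n : ℕ, 0 < n → ∀ u : Disp d,
        |∫ x in cell d, φ x * ip (P ((n : ℝ) • x)) (grad u.u x)| ≤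
        C / n * (1 + ∫ x in cell d, ip (grad u.u x) (grad u.u x)) := by
  obtain ⟨t1, -, -, -, t5⟩ := hTr
  have hlim : Tendsto (fun N => ∑ i, ∑ j, ∫ x in cell d,
      (τ x i j - trunc N (fun y => τ y i j) x) ^ 2) atTop (𝓝 0) := by
    have h := tendsto_finsetSum (Finset.univ : Finset (Fin d)) (fun i _ =>
      tendsto_finsetSum (Finset.univ : Finset (Fin d)) fun j _ => t5 _ (hτ i j))
    simpa using h
  obtain ⟨N, hN⟩ := (hlim.eventually (gt_mem_nhds hs0)).exists
  obtain ⟨Ψ, hΨ, hsk, hΨe⟩ := hPot N τ hτ hdiv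
  set P : V d → M d := fun x i j => ∑ c, pd (Ψ i j c) c x with hPdef
  have hPe : ∀ x i j, P x i j = trunc N (fun y => τ y i j) x - w i j := by
    intro x i j
    rw [hΨe, hw]
    simp only [hPdef, pd]
    ring
  have hsymP : ∀ x, symm (P x) = P x := by
    intro x
    funext i j
    have h1 : (fun y => τ y i j) = fun y => τ y j i := by
      funext y
      rw [← hs y]
      exact symm_swap _ _ _
    have h2 : w i j = w j i := by
      rw [← hw, ← hw, h1]
    show (P x i j + P x j i) / 2 = P x i j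
    rw [hPe x i j, hPe x j i, h1, h2]
    ring
  have hPS : SqM P := by
    intro i j
    have h1 := sqP_sub (Bp.sqP hE (Bp.of_cont (t1 N _ (hτ i j)).1.continuous (t1 N _ (hτ i j)).2))
      (sqP_const hE (w i j))
    have h2 : (fun x => P x i j) = fun x => trunc N (fun y => τ y i j) x - w i j := by
      funext x; exact hPe x i j
    rw [h2]; exact h1
  refine ⟨P, hPS, hsymP, ?_, ?_, ?_⟩
  · intro i j
    simp only [hPdef]
    rw [integral_finsetSum _ fun c _ => intg (pd_smooth (hΨ i j c).1 c).continuous]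
    refine Finset.sum_eq_zero fun c _ => ?_
    exact hP (Ψ i j c) ((hΨ i j c).1.of_le (by simp)) (hΨ i j c).2 c
  · have h1 : ∀ x, nsq (τ x - w - P x) ≤
        ∑ i, ∑ j, (τ x i j - trunc N (fun y => τ y i j) x) ^ 2 := by
      intro x
      refine (nsq_le_ip _).trans_eq ?_
      rw [ip_self_eq]
      refine Finset.sum_congr rfl fun i _ => Finset.sum_congr rfl fun j _ => ?_
      show (τ x i j - w i j - P x i j) ^ 2 = _
      rw [hPe]; ring
    have h2 : ∀ i j, IntegrableOn (fun x => (τ x i j - trunc N (fun y => τ y i j) x) ^ 2) (cell d) :=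
      fun i j => (sqP_sub (hτ i j) (Bp.sqP hE (Bp.of_cont (t1 N _ (hτ i j)).1.continuous
        (t1 N _ (hτ i j)).2))).sq
    have h3 : ∫ x in cell d, nsq (τ x - w - P x) ≤
        ∫ x in cell d, ∑ i, ∑ j, (τ x i j - trunc N (fun y => τ y i j) x) ^ 2 := by
      refine integral_mono (sqM_nsq_int (sqM_sub (sqM_sub hτ (sqM_const hE w)) hPS)) ?_ h1
      exact integrable_finsetSum _ fun i _ => integrable_finsetSum _ fun j _ => h2 i j
    refine h3.trans ?_
    rw [integral_finsetSum _ fun i _ => integrable_finsetSum _ fun j _ => h2 i j]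
    refine le_of_eq_of_le (Finset.sum_congr rfl fun i _ => ?_) hN.le
    exact integral_finsetSum _ fun j _ => h2 i j
  · intro φ hφ hφp
    exact pot_bound hP hE hφ hφp hΨ hsk fun y a b => rfl

theorem sum_char {m : ℕ} (i₀ : Fin m) {κ : Type*} [Fintype κ] {E : Type*} [AddCommGroup E]
    [Module ℝ E] (c : Fin m × κ → ℝ) (F : Fin m × κ → E) :
    ∑ j, ((if i₀ = j.1 then (1 : ℝ) else 0) * c j) • F j = ∑ p, c (i₀, p) • F (i₀, p) := by
  rw [Fintype.sum_prod_type, Finset.sum_eq_single i₀]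
  · simp
  · intro j _ hj
    refine Finset.sum_eq_zero fun p _ => ?_
    simp [Ne.symm hj]
  · intro h; exact absurd (Finset.mem_univ _) h


theorem TSlo_ok (d : ℕ) (hOpt : StmtOpt d) (hTr : StmtTrunc d) (hPot : StmtPot d)
    (hAvg : StmtAvg d) (hDil : StmtDil d) (hKorn : StmtKorn d) (hP : StmtParts d) (hE : BaseE d) :
    StmtTSlo d := by
  classical
  intro m idx hm hp D α β hα hD W hW ε η hη
  have hD0 : ∀ i, IsFld (D i) 0 β := fun i => fld0 hα.le (hD i)
  have hWb : ∀ i ξ, α * nsq ξ ≤ (W i).Q ξ ∧ (W i).Q ξ ≤ β * nsq ξ := fun i ξ => by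
    rw [hW]; exact hE.eff_bd (D i) α β hα.le (hD i) ξ
  have hWf : IsFld (fun x => W (idx x)) α β := hE.step_fld m idx W α β hm hp hWb
  have hWf0 := fld0 hα.le hWf
  obtain ⟨Wb, G, hWb1, hWb2, hGM, -, -, -, hGw, hGQ, hGC⟩ := hOpt _ α β hα hWf
  set Γ : V d → M d := G ε with hΓ
  have hΓM : SqM Γ := hGM ε
  -- cell problems
  have hcell : ∀ i, ∃ g : M d → V d → M d, (∀ ξ, SqM (g ξ)) ∧
      (∀ ξ ξ' x, g (ξ + ξ') x = g ξ x + g ξ' x) ∧ (∀ (c : ℝ) ξ x, g (c • ξ) x = c • g ξ x) ∧
      (∀ ξ, ∀ u : Disp d, ∫ x in cell d, ip ((D i x).C (g ξ x)) (grad u.u x) = 0) ∧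
      (∀ ξ, ∫ x in cell d, (D i x).Q (g ξ x) = (W i).Q ξ) ∧
      (∀ ξ a b, ∫ x in cell d, (D i x).C (g ξ x) a b = (W i).C ξ a b) := by
    intro i
    obtain ⟨W', g, h1, -, h3, h4, h5, -, h7, h8, h9⟩ := hOpt (D i) α β hα (hD i)
    have h10 : W' = W i := Tens.ext_Q fun ξ => by rw [h1, hW]
    rw [h10] at h8 h9
    exact ⟨g, h3, h4, h5, h7, h8, h9⟩
  choose g hgM hgl hgs hgw hgQ hgC using hcell
  have hglin : ∀ i (c : Fin d × Fin d → ℝ) y,
      g i (∑ p, c p • eb p.1 p.2) y = ∑ p, c p • g i (eb p.1 p.2) y := by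
    intro i c y
    let L : M d →ₗ[ℝ] M d :=
      { toFun := fun ξ => g i ξ y
        map_add' := fun a b => hgl i a b y
        map_smul' := fun a b => hgs i a b y }
    have h1 : L (∑ p, c p • eb p.1 p.2) = ∑ p, c p • L (eb p.1 p.2) := by
      rw [map_sum]
      simp only [map_smul]
    exact h1
  -- the index type and the local data
  set N : ℝ := ((Fintype.card (Fin m × (Fin d × Fin d)) : ℕ) : ℝ) with hN
  have hN0 : 0 ≤ N := Nat.cast_nonneg _
  set gg : Fin m × (Fin d × Fin d) → V d → M d := fun j => g j.1 (eb j.2.1 j.2.2) with hgg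
  set w : Fin m × (Fin d × Fin d) → M d := fun j => (W j.1).C (eb j.2.1 j.2.2) with hw
  set τ : Fin m × (Fin d × Fin d) → V d → M d := fun j x => (D j.1 x).C (gg j x) with hτ
  have hggM : ∀ j, SqM (gg j) := fun j => hgM _ _
  have hτM : ∀ j, SqM (τ j) := fun j => sqM_C hE (hD0 j.1) (hggM j)
  have hτs : ∀ j x, symm (τ j x) = τ j x := fun j x => (D j.1 x).symm_C _
  have hws : ∀ j, symm (w j) = w j := fun j => (W j.1).symm_C _
  have hτw : ∀ j a b, ∫ x in cell d, τ j x a b = w j a b := fun j a b => hgC _ _ a b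
  have hτdiv : ∀ j, ∀ u : Disp d, ∫ x in cell d, ip (τ j x) (grad u.u x) = 0 := fun j u => hgw _ _ u
  set χ : Fin m × (Fin d × Fin d) → V d → ℝ := fun j x => if idx x = j.1 then (1 : ℝ) else 0 with hχ
  have hχB : ∀ j, Bp (χ j) := fun j => bp_char hm hp j.1
  set q : Fin m × (Fin d × Fin d) → V d → ℝ := fun j x => χ j x * Γ x j.2.1 j.2.2 with hq
  have hqS : ∀ j, SqP (q j) := fun j => sqP_bmul (hχB j) (hΓM _ _)
  -- parameters
  have hβ : 0 ≤ β * nsq ε := by
    have h1 := hWb2 ε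
    exact (mul_nonneg hα.le (nsq_nonneg ε)).trans (h1.1.trans h1.2)
  set KG : ℝ := (β * nsq ε + 1) / α with hKG
  have hKG0 : 0 < KG := by positivity
  set Ku : ℝ := 1 + (4 * KG + 4 * nsq ε) with hKu
  have hKu0 : 0 ≤ Ku := by have := nsq_nonneg ε; positivity
  set Q0 : ℝ := Wb.Q ε with hQ0
  have hQ00 : 0 ≤ Q0 := (mul_nonneg hα.le (nsq_nonneg ε)).trans (hWb2 ε).1
  set t : ℝ := η / (8 * (Q0 + 1)) with ht
  have ht0 : 0 < t := by positivity
  have htQ : t * Q0 ≤ η / 8 := by
    rw [ht, div_mul_eq_mul_div, div_le_div_iff₀ (by positivity) (by norm_num)]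
    nlinarith
  set l : ℝ := η / (8 * (KG + 1)) with hl
  have hl0 : 0 < l := by positivity
  have hlK : l * KG ≤ η / 8 := by
    rw [hl, div_mul_eq_mul_div, div_le_div_iff₀ (by positivity) (by norm_num)]
    nlinarith
  set T : ℝ := ∑ j, ((∫ x in cell d, nsq (τ j x)) + nsq (w j)) with hT
  obtain ⟨s₁, hs₁, hs₁a, hs₁b⟩ := exists_small ((1 + 1 / t) * |β| * N) (4 * N * T)
    (a := η / 8) (b := l * η / 8) (by positivity) (by positivity)
  -- smooth approximation of the macroscopic field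
  have hφex : ∀ j, ∃ φ : V d → ℝ, ContDiff ℝ ∞ φ ∧ Per φ ∧
      ∫ x in cell d, (q j x - φ x) ^ 2 < s₁ := by
    intro j
    obtain ⟨h1, -, -, -, h5⟩ := hTr
    obtain ⟨n, hn⟩ := ((h5 (q j) (hqS j)).eventually (gt_mem_nhds hs₁)).exists
    exact ⟨trunc n (q j), (h1 n (q j) (hqS j)).1, (h1 n (q j) (hqS j)).2, hn⟩
  choose φ hφs hφp hφa using hφex
  have hφB : ∀ j, Bp (φ j) := fun j => Bp.of_cont (hφs j).continuous (hφp j)
  have hφS : ∀ j, SqP (φ j) := fun j => Bp.sqP hE (hφB j)
  set F : ℝ := ∑ j, ∫ x in cell d, φ j x * φ j x with hF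
  obtain ⟨s₂, hs₂, hs₂a, -⟩ := exists_small (4 * N * F) 0 (a := l * η / 16) (b := 1)
    (by positivity) (by positivity)
  have hPex := fun j => cell_approx hTr hPot hP hE (hτM j) (hτs j) (hτdiv j) hs₂ (hτw j)
  choose P hPM hPs hPi hPa hPb using hPex
  have hCex := fun j => hPb j (φ j) (hφs j) (hφp j)
  choose C hC0 hC using hCex
  -- the sequences
  set f : Fin m × (Fin d × Fin d) → V d → ℝ := fun j x => χ j x * φ j x with hf
  have hfB : ∀ j, Bp (f j) := fun j => (hχB j).mul (hφB j)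
  set e : Fin m × (Fin d × Fin d) → V d → ℝ := fun j x => (χ j x - 1) * φ j x with he
  have heB : ∀ j, Bp (e j) := fun j => (hχB j).sub_one.mul (hφB j)
  set ρ : Fin m × (Fin d × Fin d) → V d → M d := fun j x => τ j x - w j - P j x with hρ
  have hρM : ∀ j, SqM (ρ j) := fun j => sqM_sub (sqM_sub (hτM j) (sqM_const hE _)) (hPM j)
  -- limit of the energies
  obtain ⟨hI, hIi, -⟩ := TSupAux.ts_lim hE hDil hAvg hm hp hD0 f
    (fun j => ⟨(hfB j).meas, (hfB j).per, (hfB j).bdd⟩) gg hggM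
  have hIle : ∫ x in cell d, bil (D (idx x)) (fun y => ∑ a, f a x • gg a y)
      (fun y => ∑ a, f a x • gg a y) ≤ (1 + t) * Q0 + η / 8 := by
    set Δ : V d → M d := fun x => ∑ p : Fin d × Fin d, (φ (idx x, p) x - Γ x p.1 p.2) • eb p.1 p.2
      with hΔ
    have h1 : ∀ x, bil (D (idx x)) (fun y => ∑ a, f a x • gg a y) (fun y => ∑ a, f a x • gg a y) =
        (W (idx x)).Q (Γ x + Δ x) := by
      intro x
      have h2 : (fun y => ∑ a, f a x • gg a y) = fun y => g (idx x) (Γ x + Δ x) y := by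
        funext y
        have h3 : Γ x + Δ x = ∑ p : Fin d × Fin d, φ (idx x, p) x • eb p.1 p.2 := by
          have h4 : Γ x = ∑ p : Fin d × Fin d, Γ x p.1 p.2 • eb p.1 p.2 := by
            conv_lhs => rw [mat_expand (Γ x)]
            rw [Fintype.sum_prod_type]
          conv_lhs => rw [h4, hΔ]
          simp only [sub_smul, Finset.sum_sub_distrib]
          abel
        rw [h3, hglin]
        exact sum_char (idx x) (fun j => φ j x) fun j => gg j y
      rw [h2]
      exact hgQ _ _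
    simp only [h1] at hIi ⊢
    have h2 : ∀ x, (W (idx x)).Q (Γ x + Δ x) ≤ (1 + t) * (W (idx x)).Q (Γ x) +
        (1 + 1 / t) * (|β| * ∑ j, (q j x - φ j x) ^ 2) := by
      intro x
      refine (Tens.Q_add_le' (psd hWf0 x) (Γ x) (Δ x) ht0).trans (add_le_add le_rfl ?_)
      refine mul_le_mul_of_nonneg_left ?_ (by positivity)
      refine ((hWb _ _).2.trans (mul_le_mul_of_nonneg_right (le_abs_self β) (nsq_nonneg _))).trans ?_
      refine mul_le_mul_of_nonneg_left ?_ (abs_nonneg _)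
      refine (nsq_le_ip _).trans ?_
      rw [ip_self_eq]
      have h3 : ∀ a b, Δ x a b = φ (idx x, (a, b)) x - Γ x a b := by
        intro a b
        have h4 := mat_expand (fun a b => φ (idx x, (a, b)) x - Γ x a b)
        have h5 : Δ x = fun a b => φ (idx x, (a, b)) x - Γ x a b := by
          rw [h4, hΔ]
          simp only
          rw [Fintype.sum_prod_type]
        rw [h5]
      have h6 : ∑ j, (q j x - φ j x) ^ 2 ≥ ∑ p : Fin d × Fin d, (q (idx x, p) x - φ (idx x, p) x) ^ 2 := by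
        rw [Fintype.sum_prod_type (f := fun j => (q j x - φ j x) ^ 2)]
        exact Finset.single_le_sum (f := fun i => ∑ p : Fin d × Fin d, (q (i, p) x - φ (i, p) x) ^ 2)
          (fun i _ => Finset.sum_nonneg fun p _ => sq_nonneg _) (Finset.mem_univ (idx x))
      refine le_trans (le_of_eq ?_) h6
      rw [Fintype.sum_prod_type]
      refine Finset.sum_congr rfl fun a _ => Finset.sum_congr rfl fun b _ => ?_
      rw [h3]
      simp only [hq, hχ, if_true, one_mul]
      ring
    have i1 : IntegrableOn (fun x => (W (idx x)).Q (Γ x)) (cell d) := bil_int hE hWf0 hΓM hΓM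
    have i2 : ∀ j, IntegrableOn (fun x => (q j x - φ j x) ^ 2) (cell d) :=
      fun j => (sqP_sub (hqS j) (hφS j)).sq
    have i3 : IntegrableOn (fun x => ∑ j, (q j x - φ j x) ^ 2) (cell d) :=
      integrable_finsetSum _ fun j _ => i2 j
    have h3 := integral_mono hIi ((i1.const_mul (1 + t)).add ((i3.const_mul |β|).const_mul (1 + 1 / t))) h2
    refine h3.trans ?_
    have h4 : ∫ x in cell d, ((1 + t) * (W (idx x)).Q (Γ x) +
        (1 + 1 / t) * (|β| * ∑ j, (q j x - φ j x) ^ 2)) =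
        (1 + t) * Q0 + (1 + 1 / t) * (|β| * ∑ j, ∫ x in cell d, (q j x - φ j x) ^ 2) := by
      rw [integral_add (i1.const_mul (1 + t)) ((i3.const_mul |β|).const_mul (1 + 1 / t)),
        integral_const_mul, integral_const_mul, integral_const_mul,
        integral_finsetSum _ fun j _ => i2 j]
      congr 2
      exact hGQ ε
    refine (le_of_eq h4).trans (add_le_add le_rfl ?_)
    have h5 : ∑ j, ∫ x in cell d, (q j x - φ j x) ^ 2 ≤ N * s₁ := by
      calc ∑ j, ∫ x in cell d, (q j x - φ j x) ^ 2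
          ≤ ∑ _j : Fin m × (Fin d × Fin d), s₁ := Finset.sum_le_sum fun j _ => (hφa j).le
        _ = N * s₁ := by rw [Finset.sum_const, Finset.card_univ, nsmul_eq_mul]
    calc (1 + 1 / t) * (|β| * ∑ j, ∫ x in cell d, (q j x - φ j x) ^ 2)
        ≤ (1 + 1 / t) * (|β| * (N * s₁)) := by
          refine mul_le_mul_of_nonneg_left (mul_le_mul_of_nonneg_left h5 (abs_nonneg _)) (by positivity)
      _ = (1 + 1 / t) * |β| * N * s₁ := by ring
      _ ≤ η / 8 := hs₁a
  -- limit of the remainders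
  set R : ℕ → ℝ := fun n => 4 * N * ∑ j, ((∫ x in cell d, (e j x * e j x) * nsq (τ j ((n : ℝ) • x))) +
    (∫ x in cell d, (φ j x * φ j x) * nsq (ρ j ((n : ℝ) • x))) +
    (∫ x in cell d, (q j x - φ j x) ^ 2) * nsq (w j)) with hR
  have hRlim : Tendsto R atTop (𝓝 (4 * N * ∑ j, ((∫ x in cell d, e j x * e j x) *
      (∫ x in cell d, nsq (τ j x)) + (∫ x in cell d, φ j x * φ j x) * (∫ x in cell d, nsq (ρ j x)) +
      (∫ x in cell d, (q j x - φ j x) ^ 2) * nsq (w j)))) := by
    refine (tendsto_finsetSum _ fun j _ => ?_).const_mul _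
    refine ((?_ : Tendsto _ _ _).add ?_).add tendsto_const_nhds
    · exact hAvg _ _ ((heB j).mul (heB j)).meas ((heB j).mul (heB j)).per ((heB j).mul (heB j)).bdd
        (meas_nsq (hτM j)) (per_nsq (hτM j)) (sqM_nsq_int (hτM j))
    · exact hAvg _ _ ((hφB j).mul (hφB j)).meas ((hφB j).mul (hφB j)).per ((hφB j).mul (hφB j)).bdd
        (meas_nsq (hρM j)) (per_nsq (hρM j)) (sqM_nsq_int (hρM j))
  have hRle : 4 * N * ∑ j, ((∫ x in cell d, e j x * e j x) *
      (∫ x in cell d, nsq (τ j x)) + (∫ x in cell d, φ j x * φ j x) * (∫ x in cell d, nsq (ρ j x)) +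
      (∫ x in cell d, (q j x - φ j x) ^ 2) * nsq (w j)) ≤ l * η / 8 + l * η / 16 := by
    have h1 : ∀ j, (∫ x in cell d, e j x * e j x) * (∫ x in cell d, nsq (τ j x)) +
        (∫ x in cell d, φ j x * φ j x) * (∫ x in cell d, nsq (ρ j x)) +
        (∫ x in cell d, (q j x - φ j x) ^ 2) * nsq (w j) ≤
        s₁ * ((∫ x in cell d, nsq (τ j x)) + nsq (w j)) + (∫ x in cell d, φ j x * φ j x) * s₂ := by
      intro j
      have h2 : ∫ x in cell d, e j x * e j x ≤ s₁ := by
        refine le_trans ?_ (hφa j).le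
        refine integral_mono (((heB j).mul (heB j)).int hE) (sqP_sub (hqS j) (hφS j)).sq fun x => ?_
        show e j x * e j x ≤ (q j x - φ j x) ^ 2
        by_cases hx : idx x = j.1
        · have h3 : e j x = 0 := by simp only [he, hχ, if_pos hx]; ring
          rw [h3, zero_mul]; exact sq_nonneg _
        · have h3 : e j x = q j x - φ j x := by simp only [he, hq, hχ, if_neg hx]; ring
          rw [h3, sq]
      have h3 : 0 ≤ ∫ x in cell d, nsq (τ j x) := integral_nonneg fun x => nsq_nonneg _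
      have h4 : 0 ≤ ∫ x in cell d, φ j x * φ j x := integral_nonneg fun x => mul_self_nonneg _
      have h5 := mul_le_mul_of_nonneg_right h2 h3
      have h6 := mul_le_mul_of_nonneg_left (hPa j) h4
      have h7 := mul_le_mul_of_nonneg_right (hφa j).le (nsq_nonneg (w j))
      linarith
    have h8 : ∑ j, (s₁ * ((∫ x in cell d, nsq (τ j x)) + nsq (w j)) +
        (∫ x in cell d, φ j x * φ j x) * s₂) = s₁ * T + F * s₂ := by
      rw [Finset.sum_add_distrib, ← Finset.mul_sum, ← Finset.sum_mul]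
    have h9 : 4 * N * (s₁ * T + F * s₂) ≤ l * η / 8 + l * η / 16 := by
      have : 4 * N * (s₁ * T + F * s₂) = 4 * N * T * s₁ + 4 * N * F * s₂ := by ring
      rw [this]; exact add_le_add hs₁b hs₂a
    refine le_trans (mul_le_mul_of_nonneg_left ((Finset.sum_le_sum fun j _ => h1 j).trans
      (le_of_eq h8)) (by positivity)) h9

  -- limit of the mean values
  have hA : Tendsto (fun n : ℕ => ∑ j, ∫ x in cell d, φ j x * ip (P j ((n : ℝ) • x)) ε) atTop
      (𝓝 0) := by
    have h1 : ∀ j, ∫ x in cell d, ip (P j x) ε = 0 := by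
      intro j
      unfold ip
      rw [integral_finsetSum _ fun a _ => integrable_finsetSum _ fun b _ =>
        (sqP_int hE (hPM j a b)).mul_const _]
      refine Finset.sum_eq_zero fun a _ => ?_
      rw [integral_finsetSum _ fun b _ => (sqP_int hE (hPM j a b)).mul_const _]
      refine Finset.sum_eq_zero fun b _ => ?_
      rw [integral_mul_const, hPi, zero_mul]
    have h2 := tendsto_finsetSum (Finset.univ : Finset (Fin m × (Fin d × Fin d))) fun j _ =>
      hAvg (φ j) (fun x => ip (P j x) ε) (hφB j).meas (hφB j).per (hφB j).bdd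
        (meas_ip' (hPM j) (sqM_const hE ε)) (per_ip (hPM j) (sqM_const hE ε))
        (sqM_ip_int (hPM j) (sqM_const hE ε))
    simpa [h1] using h2
  have hCn : Tendsto (fun n : ℕ => (∑ j, C j) * Ku * (1 / (n : ℝ))) atTop (𝓝 0) := by
    have h := tendsto_one_div_atTop_nhds_zero_nat.const_mul ((∑ j, C j) * Ku)
    simpa using h
  have e1 := hI.eventually (gt_mem_nhds (lt_of_le_of_lt hIle
    (by linarith : (1 + t) * Q0 + η / 8 < (1 + t) * Q0 + η / 4)))
  have e2 := hRlim.eventually (gt_mem_nhds (lt_of_le_of_lt hRle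
    (by nlinarith [mul_pos hl0 hη] : l * η / 8 + l * η / 16 < l * η / 4)))
  have e3 := hA.eventually (lt_mem_nhds (by linarith : -(η / 16) < 0))
  have e4 := hCn.eventually (gt_mem_nhds (by linarith : 0 < η / 16))
  obtain ⟨n₀, hn₀⟩ := eventually_atTop.1 (e1.and (e2.and (e3.and e4)))
  refine ⟨max n₀ 1, fun n hn => ?_⟩
  obtain ⟨k1, k2, k3, k4⟩ := hn₀ n (le_trans (le_max_left _ _) hn)
  have hn1 : 0 < n := lt_of_lt_of_le Nat.one_pos (le_trans (le_max_right _ _) hn)
  have hDn : IsFld (fun x => D (idx x) ((n : ℝ) • x)) 0 β := hE.osc_fld m idx D 0 β hm hp hD0 n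
  have hDn' : IsFld (fun x => D (idx x) ((n : ℝ) • x)) α β := hE.osc_fld m idx D α β hm hp hD n
  have hW0 : eff (fun x => W (idx x)) ε = Q0 := (hWb1 ε).symm
  rw [hW0]
  refine hE.le_eff _ _ _ fun u => ?_
  by_cases hu : energy (fun x => D (idx x) ((n : ℝ) • x)) ε u ≤ β * nsq ε + 1
  swap
  · have h1 := (hWb2 ε).2
    linarith
  -- bounds for the strain
  have hGS : SqM (fun x => ε + sg u.u x) := sqM_add (sqM_const hE ε) (sqM_sg hE u)
  have hb1 : ∫ x in cell d, nsq (ε + sg u.u x) ≤ KG := by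
    have h1 : α * ∫ x in cell d, nsq (ε + sg u.u x) ≤ energy (fun x => D (idx x) ((n : ℝ) • x)) ε u := by
      rw [← integral_const_mul]
      exact integral_mono ((sqM_nsq_int hGS).const_mul α) (hE.int _ β hDn ε u) fun x => hDn'.lo x _
    rw [hKG, le_div_iff₀ hα]
    linarith
  have hb2 : 1 + ∫ x in cell d, ip (grad u.u x) (grad u.u x) ≤ Ku := by
    have h1 := hKorn u
    have hprob : IsProbabilityMeasure ((volume : Measure (V d)).restrict (cell d)) :=
      ⟨by rw [Measure.restrict_apply_univ, hE.vol]⟩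
    have h2 : ∫ x in cell d, nsq (grad u.u x) ≤ 2 * KG + 2 * nsq ε := by
      have h3 : ∫ x in cell d, nsq (grad u.u x) ≤
          ∫ x in cell d, (2 * nsq (ε + sg u.u x) + 2 * nsq ε) := by
        refine integral_mono (sqM_nsq_int (sqM_grad hE u))
          (((sqM_nsq_int hGS).const_mul 2).add (integrable_const _)) fun x => ?_
        have h4 := nsq_sub_le (ε + sg u.u x) ε
        rw [add_sub_cancel_left] at h4
        have h5 : nsq (sg u.u x) = nsq (grad u.u x) := nsq_symm _
        rw [h5] at h4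
        exact h4
      rw [integral_add ((sqM_nsq_int hGS).const_mul 2) (integrable_const _), integral_const_mul,
        integral_const] at h3
      simp only [probReal_univ, one_smul] at h3
      linarith
    rw [hKu]
    linarith
  -- the fields
  have hPn : ∀ j, SqM fun x => P j ((n : ℝ) • x) := fun j => sqM_dil hDil (hPM j) hn1
  have hφP : ∀ j, SqM fun x => φ j x • P j ((n : ℝ) • x) := fun j => sqM_bmul (hφB j) (hPn j)
  have hWΓ : SqM fun x => (W (idx x)).C (Γ x) := sqM_C hE hWf0 hΓM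
  have hξn : SqM fun x => ∑ j, f j x • gg j ((n : ℝ) • x) :=
    sqM_sum hE _ (fun j x => f j x • gg j ((n : ℝ) • x)) fun j =>
      sqM_bmul (hfB j) (sqM_dil hDil (hggM j) hn1)
  have hτn : SqM fun x => (W (idx x)).C (Γ x) + ∑ j, φ j x • P j ((n : ℝ) • x) :=
    sqM_add hWΓ (sqM_sum hE _ (fun j x => φ j x • P j ((n : ℝ) • x)) hφP)
  set δ : V d → M d := fun x => ∑ j, (e j x • τ j ((n : ℝ) • x) + φ j x • ρ j ((n : ℝ) • x) +
    (φ j x - q j x) • w j) with hδ
  have hδ1 : ∀ j, SqM fun x => e j x • τ j ((n : ℝ) • x) := fun j =>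
    sqM_bmul (heB j) (sqM_dil hDil (hτM j) hn1)
  have hδ2 : ∀ j, SqM fun x => φ j x • ρ j ((n : ℝ) • x) := fun j =>
    sqM_bmul (hφB j) (sqM_dil hDil (hρM j) hn1)
  have hδ3 : ∀ j, SqM fun x => (φ j x - q j x) • w j := by
    intro j a b
    have h1 := sqP_smul (w j a b) (sqP_sub (hφS j) (hqS j))
    have h2 : (fun x => ((φ j x - q j x) • w j) a b) = fun x => w j a b * (φ j x - q j x) := by
      funext x; simp [mul_comm]
    rw [h2]; exact h1
  have hδM : SqM δ := sqM_sum hE _ (fun j x => e j x • τ j ((n : ℝ) • x) +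
    φ j x • ρ j ((n : ℝ) • x) + (φ j x - q j x) • w j) fun j =>
      sqM_add (sqM_add (hδ1 j) (hδ2 j)) (hδ3 j)
  have hδs : ∀ x, symm (δ x) = δ x := by
    intro x
    simp only [hδ, hρ, symm_sum, symm_add, symm_smul, symm_sub, hτs, hws, hPs]
  have hdec : ∀ x, (D (idx x) ((n : ℝ) • x)).C (∑ j, f j x • gg j ((n : ℝ) • x)) =
      ((W (idx x)).C (Γ x) + ∑ j, φ j x • P j ((n : ℝ) • x)) + δ x := by
    intro x
    have h1 : (D (idx x) ((n : ℝ) • x)).C (∑ j, f j x • gg j ((n : ℝ) • x)) =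
        ∑ j, f j x • τ j ((n : ℝ) • x) := by
      have h2 : ∑ j, f j x • gg j ((n : ℝ) • x) = ∑ p, φ (idx x, p) x • gg (idx x, p) ((n : ℝ) • x) :=
        sum_char (idx x) (fun j => φ j x) fun j => gg j ((n : ℝ) • x)
      have h3 : ∑ j, f j x • τ j ((n : ℝ) • x) = ∑ p, φ (idx x, p) x • τ (idx x, p) ((n : ℝ) • x) :=
        sum_char (idx x) (fun j => φ j x) fun j => τ j ((n : ℝ) • x)
      rw [h2, h3, map_sum]
      simp only [map_smul, hτ]
    have h2 : (W (idx x)).C (Γ x) = ∑ j, q j x • w j := by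
      have h3 : ∑ j, q j x • w j = ∑ p : Fin d × Fin d, Γ x p.1 p.2 • w (idx x, p) :=
        sum_char (idx x) (fun j => Γ x j.2.1 j.2.2) w
      rw [h3]
      conv_lhs => rw [mat_expand (Γ x)]
      rw [Fintype.sum_prod_type]
      simp only [map_sum, map_smul, hw]
    rw [h1, h2, ← Finset.sum_add_distrib, hδ]
    simp only
    rw [← Finset.sum_add_distrib]
    refine Finset.sum_congr rfl fun j _ => ?_
    simp only [hf, he, hρ]
    module
  have hlow := energy_lower hE hDn hξn hτn hδM hdec hδs hl0 ε u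
  -- the linear term
  have hlin : ∫ x in cell d, ip ((W (idx x)).C (Γ x) + ∑ j, φ j x • P j ((n : ℝ) • x))
      (ε + sg u.u x) = Q0 + (∑ j, ∫ x in cell d, φ j x * ip (P j ((n : ℝ) • x)) ε) +
        ∑ j, ∫ x in cell d, φ j x * ip (P j ((n : ℝ) • x)) (grad u.u x) := by
    have h1 : ∀ x, ip ((W (idx x)).C (Γ x) + ∑ j, φ j x • P j ((n : ℝ) • x)) (ε + sg u.u x) =
        ip ((W (idx x)).C (Γ x)) ε + ip ((W (idx x)).C (Γ x)) (grad u.u x) +
        ((∑ j, φ j x * ip (P j ((n : ℝ) • x)) ε) +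
          ∑ j, φ j x * ip (P j ((n : ℝ) • x)) (grad u.u x)) := by
      intro x
      have h2 : ip ((W (idx x)).C (Γ x)) (sg u.u x) = ip ((W (idx x)).C (Γ x)) (grad u.u x) :=
        Tens.ip_C_symm _ _ _
      have h3 : ∀ j, ip (P j ((n : ℝ) • x)) (sg u.u x) = ip (P j ((n : ℝ) • x)) (grad u.u x) :=
        fun j => ip_eq_symm _ _ (hPs j _)
      rw [ip_add_left, ip_add_right, ip_add_right, h2]
      simp only [ip_sum_left, ip_smul_left, h3]
    simp only [h1]
    have i1 : IntegrableOn (fun x => ip ((W (idx x)).C (Γ x)) ε) (cell d) :=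
      sqM_ip_int hWΓ (sqM_const hE ε)
    have i2 : IntegrableOn (fun x => ip ((W (idx x)).C (Γ x)) (grad u.u x)) (cell d) :=
      sqM_ip_int hWΓ (sqM_grad hE u)
    have i3 : ∀ j, IntegrableOn (fun x => φ j x * ip (P j ((n : ℝ) • x)) ε) (cell d) := by
      intro j
      have h2 := sqM_ip_int (hφP j) (sqM_const hE ε)
      simpa only [ip_smul_left] using h2
    have i4 : ∀ j, IntegrableOn (fun x => φ j x * ip (P j ((n : ℝ) • x)) (grad u.u x)) (cell d) := by
      intro j
      have h2 := sqM_ip_int (hφP j) (sqM_grad hE u)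
      simpa only [ip_smul_left] using h2
    have i5 : IntegrableOn (fun x => ∑ j, φ j x * ip (P j ((n : ℝ) • x)) ε) (cell d) :=
      integrable_finsetSum _ fun j _ => i3 j
    have i6 : IntegrableOn (fun x => ∑ j, φ j x * ip (P j ((n : ℝ) • x)) (grad u.u x)) (cell d) :=
      integrable_finsetSum _ fun j _ => i4 j
    have i12 : IntegrableOn (fun x => ip ((W (idx x)).C (Γ x)) ε +
        ip ((W (idx x)).C (Γ x)) (grad u.u x)) (cell d) := i1.add i2
    have i56 : IntegrableOn (fun x => (∑ j, φ j x * ip (P j ((n : ℝ) • x)) ε) +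
        ∑ j, φ j x * ip (P j ((n : ℝ) • x)) (grad u.u x)) (cell d) := i5.add i6
    rw [integral_add i12 i56, integral_add i1 i2, integral_add i5 i6,
      integral_finsetSum _ fun j _ => i3 j, integral_finsetSum _ fun j _ => i4 j]
    have h4 : ∫ x in cell d, ip ((W (idx x)).C (Γ x)) (grad u.u x) = 0 := hGw ε u
    have h5 : ∫ x in cell d, ip ((W (idx x)).C (Γ x)) ε = Q0 := by
      have h6 : ∫ x in cell d, ip ((W (idx x)).C (Γ x)) ε = ip (Wb.C ε) ε := by
        unfold ip
        rw [integral_finsetSum _ fun a _ => integrable_finsetSum _ fun b _ =>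
          (sqP_int hE (hWΓ a b)).mul_const _]
        refine Finset.sum_congr rfl fun a _ => ?_
        rw [integral_finsetSum _ fun b _ => (sqP_int hE (hWΓ a b)).mul_const _]
        refine Finset.sum_congr rfl fun b _ => ?_
        rw [integral_mul_const]
        congr 1
        exact hGC ε a b
      exact h6
    rw [h4, h5]
    ring
  -- the remainder
  have hRn : ∫ x in cell d, nsq (δ x) ≤ R n := by
    have h1 : ∀ x, nsq (δ x) ≤ 4 * N * ∑ j, ((e j x * e j x) * nsq (τ j ((n : ℝ) • x)) +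
        (φ j x * φ j x) * nsq (ρ j ((n : ℝ) • x)) + (q j x - φ j x) ^ 2 * nsq (w j)) := by
      intro x
      refine (nsq_sum_le Finset.univ _).trans ?_
      rw [Finset.card_univ, ← hN, mul_comm 4 N, mul_assoc N 4]
      refine mul_le_mul_of_nonneg_left ?_ hN0
      rw [Finset.mul_sum]
      refine Finset.sum_le_sum fun j _ => ?_
      refine (nsq_add3_le _ _ _).trans (le_of_eq ?_)
      rw [nsq_smul, nsq_smul, nsq_smul]
      ring
    have i1 : ∀ j, IntegrableOn (fun x => (e j x * e j x) * nsq (τ j ((n : ℝ) • x))) (cell d) := by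
      intro j
      have h2 := sqM_nsq_int (hδ1 j)
      refine h2.congr (Eventually.of_forall fun x => ?_)
      show nsq (e j x • τ j ((n : ℝ) • x)) = _
      rw [nsq_smul]; ring
    have i2 : ∀ j, IntegrableOn (fun x => (φ j x * φ j x) * nsq (ρ j ((n : ℝ) • x))) (cell d) := by
      intro j
      have h2 := sqM_nsq_int (hδ2 j)
      refine h2.congr (Eventually.of_forall fun x => ?_)
      show nsq (φ j x • ρ j ((n : ℝ) • x)) = _
      rw [nsq_smul]; ring
    have i3 : ∀ j, IntegrableOn (fun x => (q j x - φ j x) ^ 2 * nsq (w j)) (cell d) := fun j =>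
      (sqP_sub (hqS j) (hφS j)).sq.mul_const _
    have i12 : ∀ j, IntegrableOn (fun x => (e j x * e j x) * nsq (τ j ((n : ℝ) • x)) +
        (φ j x * φ j x) * nsq (ρ j ((n : ℝ) • x))) (cell d) := fun j => (i1 j).add (i2 j)
    have i123 : ∀ j, IntegrableOn (fun x => (e j x * e j x) * nsq (τ j ((n : ℝ) • x)) +
        (φ j x * φ j x) * nsq (ρ j ((n : ℝ) • x)) + (q j x - φ j x) ^ 2 * nsq (w j)) (cell d) :=
      fun j => (i12 j).add (i3 j)
    have h2 := integral_mono (sqM_nsq_int hδM)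
      ((integrable_finsetSum _ fun j _ => i123 j).const_mul (4 * N)) h1
    refine h2.trans (le_of_eq ?_)
    rw [integral_const_mul, integral_finsetSum _ fun j _ => i123 j, hR]
    simp only
    congr 1
    refine Finset.sum_congr rfl fun j _ => ?_
    rw [integral_add (i12 j) (i3 j), integral_add (i1 j) (i2 j), integral_mul_const]
  -- the potential term
  have hpot : -((∑ j, C j) * Ku * (1 / (n : ℝ))) ≤
      ∑ j, ∫ x in cell d, φ j x * ip (P j ((n : ℝ) • x)) (grad u.u x) := by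
    have h1 : ∀ j, -(C j * Ku * (1 / (n : ℝ))) ≤
        ∫ x in cell d, φ j x * ip (P j ((n : ℝ) • x)) (grad u.u x) := by
      intro j
      have h2 := hC j n hn1 u
      have h3 : C j / n * (1 + ∫ x in cell d, ip (grad u.u x) (grad u.u x)) ≤ C j * Ku * (1 / (n : ℝ)) := by
        have h4 : 0 ≤ C j / n := div_nonneg (hC0 j) (Nat.cast_nonneg n)
        refine (mul_le_mul_of_nonneg_left hb2 h4).trans (le_of_eq ?_)
        ring
      exact neg_le_of_abs_le (h2.trans h3)
    refine le_trans (le_of_eq ?_) (Finset.sum_le_sum fun j _ => h1 j)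
    rw [Finset.sum_neg_distrib, ← Finset.sum_mul, ← Finset.sum_mul]
  rw [hlin] at hlow
  have h1 : l⁻¹ * (∫ x in cell d, nsq (δ x)) ≤ η / 4 := by
    have h2 : l⁻¹ * (∫ x in cell d, nsq (δ x)) ≤ l⁻¹ * (l * η / 4) :=
      mul_le_mul_of_nonneg_left (hRn.trans k2.le) (inv_nonneg.mpr hl0.le)
    refine h2.trans (le_of_eq ?_)
    field_simp
  have h2 : l * (∫ x in cell d, nsq (ε + sg u.u x)) ≤ η / 8 :=
    (mul_le_mul_of_nonneg_left hb1 hl0.le).trans hlK
  linarith

end TSloPf
end Pool.Agent.Lib.MP_5df1bf_an
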