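import Pool.Agent.Lib.MP_5df1bf_an.Torus

/-!
# MP_5df1bf_an: integrals of periodic functions
-/

open MeasureTheory Filter Topology
open scoped BigOperators ContDiff

noncomputable section

namespace Pool.Agent.Lib.MP_5df1bf_an

variable {d : ℕ}

local instance instMSCircle' : MeasureSpace UnitAddCircle := ⟨AddCircle.haarAddCircle⟩
local instance instHaarCircle' : Measure.IsAddHaarMeasure (volume : Measure UnitAddCircle) :=
  inferInstanceAs (Measure.IsAddHaarMeasure AddCircle.haarAddCircle)
local instance instProbCircle' : IsProbabilityMeasure (volume : Measure UnitAddCircle) :=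
  inferInstanceAs (IsProbabilityMeasure AddCircle.haarAddCircle)

theorem Shift_ok (d : ℕ) : StmtShift d := by
  intro f hf y
  have h1 : ∫ x in cell d, f (x + y) = ∫ θ, torPA f (θ + pr y) := by
    rw [← int_torus (fun θ => torPA f (θ + pr y))]
    refine integral_congr_ae (ae_of_all _ fun x => ?_)
    show f (x + y) = torPA f (pr x + pr y)
    rw [← pr_add, hf.torPA_pr]
  rw [h1, integral_add_right_eq_self (fun θ => torPA f θ) (pr y), hf.int_eq]

/-- the endomorphism of the torus given by an integer matrix -/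
def tmul (B : Matrix (Fin d) (Fin d) ℤ) : UnitAddTorus (Fin d) →+ UnitAddTorus (Fin d) where
  toFun θ i := ∑ j, B i j • θ j
  map_zero' := by funext i; simp
  map_add' θ θ' := by funext i; simp [Finset.sum_add_distrib]

theorem tmul_pr (B : Matrix (Fin d) (Fin d) ℤ) (x : V d) : tmul B (pr x) = pr (imul B x) := by
  funext i
  show ∑ j, B i j • ((x j : ℝ) : UnitAddCircle) = ((∑ j, (B i j : ℝ) * x j : ℝ) : UnitAddCircle)
  have : ∀ s : Finset (Fin d), ∑ j ∈ s, B i j • ((x j : ℝ) : UnitAddCircle) =
      ((∑ j ∈ s, (B i j : ℝ) * x j : ℝ) : UnitAddCircle) := by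
    classical
    intro s
    induction s using Finset.induction_on with
    | empty => simp
    | insert a s ha ih =>
      rw [Finset.sum_insert ha, Finset.sum_insert ha, AddCircle.coe_add, ih, ← zsmul_eq_mul,
        AddCircle.coe_zsmul]
  exact this _

theorem continuous_tmul (B : Matrix (Fin d) (Fin d) ℤ) : Continuous (tmul B) := by
  refine continuous_pi fun i => ?_
  show Continuous fun θ : UnitAddTorus (Fin d) => ∑ j, B i j • θ j
  exact continuous_finsetSum _ fun j _ => (continuous_apply j).zsmul _

theorem surjective_tmul (B : Matrix (Fin d) (Fin d) ℤ) (hB : B.det ≠ 0) :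
    Function.Surjective (tmul B) := by
  intro θ
  set R : Matrix (Fin d) (Fin d) ℝ := B.map (fun z : ℤ => (z : ℝ)) with hR
  have hdet : R.det ≠ 0 := by
    have : R.det = ((B.det : ℤ) : ℝ) := by
      rw [hR]
      exact (Int.cast_det B).symm
    rw [this]; exact_mod_cast hB
  refine ⟨pr (R⁻¹.mulVec (rep θ)), ?_⟩
  rw [tmul_pr]
  have h2 : imul B (R⁻¹.mulVec (rep θ)) = rep θ := by
    have h3 : imul B (R⁻¹.mulVec (rep θ)) = R.mulVec (R⁻¹.mulVec (rep θ)) := by
      funext i
      simp only [imul, hR, Matrix.mulVec, dotProduct, Matrix.map_apply]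
    rw [h3, Matrix.mulVec_mulVec, Matrix.mul_nonsing_inv _ (by simpa using hdet),
      Matrix.one_mulVec]
  rw [h2, pr_rep]

theorem mp_tmul (B : Matrix (Fin d) (Fin d) ℤ) (hB : B.det ≠ 0) :
    MeasurePreserving (tmul B) volume volume :=
  (tmul B).measurePreserving (continuous_tmul B) (surjective_tmul B hB) rfl

theorem Per.imul {α : Type*} {f : V d → α} (h : Per f) (B : Matrix (Fin d) (Fin d) ℤ) :
    Per fun x => f (imul B x) := by
  intro x i
  apply h.of_pr
  rw [← tmul_pr, ← tmul_pr]
  congr 1
  rw [pr_add]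
  have : pr (Pi.single i (1 : ℝ) : V d) = 0 := by
    have h2 : (Pi.single i (1 : ℝ) : V d) = MP_5df1bf_an.zv (Pi.single i 1) := by
      funext j; simp [MP_5df1bf_an.zv, Pi.single_apply]
    rw [h2, pr_zv]
  rw [this, add_zero]

theorem measurable_imul_PA (B : Matrix (Fin d) (Fin d) ℤ) : Measurable (imul (d := d) B) := by
  refine measurable_pi_lambda _ fun i => ?_
  unfold imul
  fun_prop

theorem Mat_ok (d : ℕ) : StmtMat d := by
  intro B hB f hm hf hi
  have hc : (fun x => f (imul B x)) = fun x => torPA f (tmul B (pr x)) := by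
    funext x
    rw [tmul_pr, hf.torPA_pr]
  have hit : Integrable (torPA f) := (hf.integrable_iff hm).1 hi
  constructor
  · rw [hc]
    have h1 : Integrable (fun θ => torPA f (tmul B θ)) :=
      ((mp_tmul B hB).integrable_comp hit.aestronglyMeasurable).2 hit
    exact (mp_pr.integrable_comp h1.aestronglyMeasurable).2 h1
  · rw [hc, int_torus (fun θ => torPA f (tmul B θ)), hf.int_eq]
    have h2 := (mp_tmul B hB).map_eq
    conv_rhs => rw [← h2]
    rw [integral_map (mp_tmul B hB).measurable.aemeasurable
      (measurable_torPA hm).aestronglyMeasurable]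

theorem Dil_ok (d : ℕ) : StmtDil d := by
  intro n hn f hm hf hi
  have hB : ((n : ℤ) • (1 : Matrix (Fin d) (Fin d) ℤ)).det ≠ 0 := by
    rw [Matrix.det_smul, Matrix.det_one, mul_one]
    exact pow_ne_zero _ (by exact_mod_cast hn.ne')
  have h := Mat_ok d _ hB f hm hf hi
  have hc : ∀ x : V d, imul ((n : ℤ) • (1 : Matrix (Fin d) (Fin d) ℤ)) x = (n : ℝ) • x := by
    intro x
    funext i
    simp only [imul, Matrix.smul_apply, smul_eq_mul, Pi.smul_apply]
    rw [Finset.sum_eq_single i]
    · simp
    · intro j _ hj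
      simp [Matrix.one_apply_ne (Ne.symm hj)]
    · intro h; exact absurd (Finset.mem_univ _) h
  simpa only [hc] using h

/-- periodic continuous functions are bounded -/
theorem Per.bddPA {f : V d → ℝ} (h : Per f) (hc : Continuous f) : ∃ K, ∀ x, |f x| ≤ K := by
  have hcomp : IsCompact (cell d : Set (V d)) := isCompact_Icc
  obtain ⟨K, hK⟩ := hcomp.bddAbove_image (f := fun x => |f x|) (hc.abs.continuousOn)
  refine ⟨K, fun x => ?_⟩
  have h2 : rep (pr x) ∈ cell d := by
    constructor
    · intro i
      exact (AddCircle.equivIoc (1 : ℝ) 0 (pr x i)).2.1.le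
    · intro i
      have h4 : (AddCircle.equivIoc (1 : ℝ) 0 (pr x i)).1 ≤ 0 + 1 :=
        (AddCircle.equivIoc (1 : ℝ) 0 (pr x i)).2.2
      exact h4.trans (zero_add (1 : ℝ)).le
  have h3 := hK ⟨_, h2, rfl⟩
  simp only [h.rep_pr] at h3
  exact h3

theorem Per.fderivPA {f : V d → ℝ} (h : Per f) (v : V d) : Per fun x => fderiv ℝ f x v := by
  intro x i
  have h1 : (fun y => f (y + Pi.single i 1)) = f := funext fun y => h y i
  have h2 : _root_.fderiv ℝ f (x + Pi.single i 1) = _root_.fderiv ℝ f x := by
    conv_rhs => rw [← h1]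
    rw [fderiv_comp_add_right]
  show _root_.fderiv ℝ f (x + Pi.single i 1) v = _root_.fderiv ℝ f x v
  rw [h2]

theorem intOn_cell_cont_PA {f : V d → ℝ} (hc : Continuous f) :
    IntegrableOn f (cell d) := hc.continuousOn.integrableOn_compact isCompact_Icc

theorem Parts_ok (d : ℕ) : StmtParts d := by
  intro f hf hp i
  set e : V d := Pi.single i 1 with he
  have hfc : Continuous f := hf.continuous
  have hdc : Continuous (fun x => _root_.fderiv ℝ f x e) :=
    (hf.continuous_fderiv (by norm_num)).clm_apply continuous_const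
  obtain ⟨K, hK⟩ := (hp.fderivPA e).bddPA hdc
  have hder : ∀ x : V d, ∀ t : ℝ, HasDerivAt (fun t : ℝ => f (x + t • e))
      (_root_.fderiv ℝ f (x + t • e) e) t := by
    intro x t
    have h1 : HasFDerivAt f (_root_.fderiv ℝ f (x + t • e)) (x + t • e) :=
      (hf.differentiable (by norm_num) _).hasFDerivAt
    have h2 : HasDerivAt (fun t : ℝ => x + t • e) e t := by
      have := ((hasDerivAt_id t).smul_const e).const_add x
      simpa using this
    exact h1.comp_hasDerivAt t h2
  have key := hasDerivAt_integral_of_dominated_loc_of_deriv_le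
    (μ := volume.restrict (cell d)) (F := fun (t : ℝ) (x : V d) => f (x + t • e))
    (F' := fun (t : ℝ) (x : V d) => _root_.fderiv ℝ f (x + t • e) e) (x₀ := (0 : ℝ))
    (bound := fun _ => K) (s := Set.univ) Filter.univ_mem
    (Eventually.of_forall fun t => (hfc.comp (by fun_prop)).aestronglyMeasurable)
    (by simpa using (intOn_cell_cont_PA hfc).integrable)
    ((hdc.comp (by fun_prop : Continuous fun x : V d => x + (0 : ℝ) • e)).aestronglyMeasurable)
    (ae_of_all _ fun x t _ => by simpa using hK (x + t • e))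
    (intOn_cell_cont_PA continuous_const)
    (ae_of_all _ fun x t _ => hder x t)
  have h0 : HasDerivAt (fun t : ℝ => ∫ x in cell d, f (x + t • e)) 0 0 := by
    have : (fun t : ℝ => ∫ x in cell d, f (x + t • e)) = fun _ => ∫ x in cell d, f x :=
      funext fun t => Shift_ok d f hp (t • e)
    rw [this]
    exact hasDerivAt_const _ _
  have := key.2.unique h0
  simpa using this

end Pool.Agent.Lib.MP_5df1bf_an
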