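import Pool.Agent.Lib.MP_5df1bf_an.Stmts2
import Pool.Agent.Lib.MP_5df1bf_an.BaseE
import Pool.Agent.Lib.MP_5df1bf_an.PerA

/-!
# MP_5df1bf_an: C5d, transport of the force near the plane
-/

open MeasureTheory Filter Topology
open scoped BigOperators ContDiff ENNReal

noncomputable section

namespace Pool.Agent.Lib.MP_5df1bf_an

variable {d : ℕ}

namespace TranAux

/-- slices in the direction `l` -/
theorem slice (l : Fin d) (I : Set ℝ) (hI : MeasurableSet I) (F : V d → ℝ≥0∞)
    (hF : Measurable F) :
    ∫⁻ x in {x : V d | x l ∈ Set.Icc (0 : ℝ) 1}, (∫⁻ t in I, F (Function.update x l t)) =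
      ∫⁻ x in {x : V d | x l ∈ I}, F x := by
  cases d with
  | zero => exact l.elim0
  | succ n =>
    have hA : Measurable fun x : V (n + 1) => ∫⁻ t in I, F (Function.update x l t) := by
      have h1 : Measurable fun p : V (n + 1) × ℝ => F (Function.update p.1 l p.2) :=
        hF.comp (measurable_update' (a := l))
      exact h1.lintegral_prod_right'
    have mp := volume_preserving_piFinSuccAbove (fun _ : Fin (n + 1) => ℝ) l
    have key : ∀ G : V (n + 1) → ℝ≥0∞, Measurable G →
        ∫⁻ x, G x = ∫⁻ y : Fin n → ℝ, ∫⁻ s : ℝ, G (l.insertNth s y) := by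
      intro G hG
      rw [← mp.symm.lintegral_comp_emb (MeasurableEquiv.measurableEmbedding _) G,
        Measure.volume_eq_prod]
      rw [lintegral_prod_symm']
      · rfl
      · exact hG.comp (MeasurableEquiv.measurable _)
    have m1 : MeasurableSet {x : V (n + 1) | x l ∈ Set.Icc (0 : ℝ) 1} :=
      measurableSet_Icc.preimage (measurable_pi_apply l)
    have m2 : MeasurableSet {x : V (n + 1) | x l ∈ I} := hI.preimage (measurable_pi_apply l)
    rw [← lintegral_indicator m1, ← lintegral_indicator m2, key _ (hA.indicator m1),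
      key _ (hF.indicator m2)]
    refine lintegral_congr fun y => ?_
    have e1 : ∀ s : ℝ, ({x : V (n + 1) | x l ∈ Set.Icc (0 : ℝ) 1}.indicator
        (fun x => ∫⁻ t in I, F (Function.update x l t)) (l.insertNth s y)) =
        (Set.Icc (0 : ℝ) 1).indicator (fun _ => ∫⁻ t in I, F (l.insertNth t y)) s := by
      intro s
      by_cases hs : s ∈ Set.Icc (0 : ℝ) 1
      · rw [Set.indicator_of_mem hs, Set.indicator_of_mem]
        · simp only [Fin.update_insertNth]
        · simpa using hs
      · rw [Set.indicator_of_notMem hs, Set.indicator_of_notMem]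
        simpa using hs
    have e2 : ∀ s : ℝ, ({x : V (n + 1) | x l ∈ I}.indicator F (l.insertNth s y)) =
        I.indicator (fun t => F (l.insertNth t y)) s := by
      intro s
      by_cases hs : s ∈ I
      · rw [Set.indicator_of_mem hs, Set.indicator_of_mem]
        simpa using hs
      · rw [Set.indicator_of_notMem hs, Set.indicator_of_notMem]
        simpa using hs
    simp only [e1, e2]
    rw [lintegral_indicator measurableSet_Icc, lintegral_indicator hI, setLIntegral_const]
    simp

theorem cs_one {s : Set (V d)} (hv : volume s ≤ 1) {f : V d → ℝ}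
    (hf : IntegrableOn f s) (hf2 : IntegrableOn (fun x => f x ^ 2) s) :
    ∫ x in s, |f x| ≤ Real.sqrt (∫ x in s, f x ^ 2) := by
  set m := ∫ x in s, |f x| with hm
  have hfin : volume s < ⊤ := lt_of_le_of_lt hv ENNReal.one_lt_top
  have hc : IntegrableOn (fun _ : V d => m ^ 2) s := integrableOn_const hfin.ne
  have ha : IntegrableOn (fun x => 2 * m * |f x|) s := hf.abs.const_mul _
  have h1 : 0 ≤ ∫ x in s, (f x ^ 2 - 2 * m * |f x| + m ^ 2) := by
    refine integral_nonneg fun x => ?_
    show 0 ≤ f x ^ 2 - 2 * m * |f x| + m ^ 2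
    have : f x ^ 2 = |f x| ^ 2 := (sq_abs _).symm
    rw [this]
    nlinarith [sq_nonneg (|f x| - m)]
  have h2 : ∫ x in s, (f x ^ 2 - 2 * m * |f x| + m ^ 2) =
      (∫ x in s, f x ^ 2) - 2 * m * m + m ^ 2 * (volume s).toReal := by
    have e : (fun x => f x ^ 2 - 2 * m * |f x| + m ^ 2) =
        ((fun x => f x ^ 2) - (fun x => 2 * m * |f x|)) + (fun _ => m ^ 2) := rfl
    rw [e, integral_add' (hf2.sub ha) hc, integral_sub' hf2 ha, integral_const_mul, ← hm,
      setIntegral_const, smul_eq_mul, measureReal_def]
    ring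
  have h3 : (volume s).toReal ≤ 1 := by
    have := ENNReal.toReal_mono ENNReal.one_ne_top hv
    simpa using this
  rw [h2] at h1
  apply Real.le_sqrt_of_sq_le
  have h4 : m ^ 2 * (volume s).toReal ≤ m ^ 2 := mul_le_of_le_one_right (sq_nonneg m) h3
  nlinarith

theorem win_eq (k : Fin d) (f : V d → ℝ) (hf : Per f) :
    ∫ x in win k, f x = ∫ x in cell d, f x := by
  have h1 := Shift_ok d f hf (- Pi.single k (1 / 4))
  rw [← h1]
  have mp := measurePreserving_add_right (volume : Measure (V d)) (- Pi.single k (1 / 4))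
  have h2 := mp.setIntegral_preimage_emb (MeasurableEquiv.addRight (- Pi.single k (1 / 4) :
    V d)).measurableEmbedding f (win k)
  rw [← h2]
  congr 2
  ext x
  simp only [Set.mem_preimage, win, cell, Set.mem_Icc]
  constructor
  · rintro ⟨a, b⟩
    refine ⟨?_, ?_⟩
    · intro i
      have := a i
      simp only [Pi.neg_apply, Pi.add_apply, Pi.zero_apply] at this ⊢
      linarith
    · intro i
      have := b i
      simp only [Pi.neg_apply, Pi.add_apply, Pi.sub_apply, Pi.one_apply] at this ⊢
      linarith
  · rintro ⟨a, b⟩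
    refine ⟨?_, ?_⟩
    · intro i
      have := a i
      simp only [Pi.neg_apply, Pi.add_apply, Pi.zero_apply] at this ⊢
      linarith
    · intro i
      have := b i
      simp only [Pi.neg_apply, Pi.add_apply, Pi.sub_apply, Pi.one_apply] at this ⊢
      linarith

/-- the function -/
def gg (ε : M d) (u : Disp d) (c : V d) (Om : M d) (l : Fin d) (x : V d) : ℝ :=
  vv ε u x l - c l - mulV Om x l

/-- its derivative in the direction `l` -/
def gd (ε : M d) (u : Disp d) (l : Fin d) (x : V d) : ℝ := (ε + sg u.u x) l l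

theorem gg_deriv (ε : M d) (u : Disp d) (c : V d) (Om : M d) (l : Fin d) (hO : Om l l = 0)
    (x : V d) (s : ℝ) :
    HasDerivAt (fun s => gg ε u c Om l (Function.update x l s))
      (gd ε u l (Function.update x l s)) s := by
  have hu : HasDerivAt (Function.update x l) (Pi.single l (1 : ℝ)) s := hasDerivAt_update x l s
  have hl : ∀ A : M d, HasDerivAt (fun s => mulV A (Function.update x l s) l) (A l l) s := by
    intro A
    have h1 : ∀ j, HasDerivAt (fun s => Function.update x l s j)
        ((Pi.single l (1 : ℝ) : V d) j) s := fun j => (hasDerivAt_pi.1 hu) j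
    have h2 := HasDerivAt.fun_sum (u := Finset.univ) fun j _ => (h1 j).const_mul (A l j)
    have h3 : ∑ j, A l j * (Pi.single l (1 : ℝ) : V d) j = A l l := by
      rw [Finset.sum_eq_single l]
      · simp
      · intro m _ hm
        simp [Pi.single_eq_of_ne hm]
      · intro h
        exact absurd (Finset.mem_univ _) h
    rw [h3] at h2
    exact h2
  have h3 : HasDerivAt (fun s => u.u (Function.update x l s))
      (fderiv ℝ u.u (Function.update x l s) (Pi.single l 1)) s :=
    ((disp_diff u _).hasFDerivAt).comp_hasDerivAt s hu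
  have h4 := (hasDerivAt_pi.1 h3) l
  have h5 := (((hl (symm ε)).add h4).sub_const (c l)).sub (hl Om)
  have e : gd ε u l (Function.update x l s) =
      symm ε l l + fderiv ℝ u.u (Function.update x l s) (Pi.single l 1) l - Om l l := by
    unfold gd sg symm grad
    simp only [Pi.add_apply]
    rw [hO]
    ring
  rw [e]
  exact h5

theorem continuous_gd (ε : M d) (u : Disp d) (l : Fin d) : Continuous (gd ε u l) := by
  have h : Continuous fun x => ε + sg u.u x := continuous_const.add (sg_continuous u)
  exact (continuous_apply l).comp ((continuous_apply l).comp h)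

theorem continuous_gg (ε : M d) (u : Disp d) (c : V d) (Om : M d) (l : Fin d) :
    Continuous (gg ε u c Om l) := by
  have h1 : ∀ A : M d, Continuous fun x => mulV A x l := by
    intro A
    unfold mulV
    exact continuous_finsetSum _ fun j _ => continuous_const.mul (continuous_apply j)
  have h2 : Continuous fun x => u.u x l := (continuous_apply l).comp u.smooth.continuous
  unfold gg vv
  exact (((h1 _).add h2).sub continuous_const).sub (h1 _)

/-- the material on the lines -/
theorem mat_low (D : Dat d) (α β : ℝ) (hα : 0 < α) (L : ℕ) (C : Tens d)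
    (F : (Fin d → ℤ) → Tens d) (Ls : Tens d) (T : V d → Tens d)
    (hC : ∀ ξ, α * nsq ξ ≤ C.Q ξ) (hF : ∀ z, z ≠ 0 → FibLike α β (zv z) (F z))
    (hG : D.IsGad L C F Ls T) (k : Fin d) (x : V d) (h1 : pd (x k) < D.b)
    (hb : D.b ≤ D.bF) (h2 : ∀ i, i ≠ k → i ≠ D.l k → D.bF ≤ pd (x i)) (ξ : M d) :
    α * (ξ (D.l k) (D.l k)) ^ 2 ≤ (T x).Q ξ := by
  have hRB : x ∈ D.RB → α * (ξ (D.l k) (D.l k)) ^ 2 ≤ (T x).Q ξ := by
    intro hx
    rw [hG.blk x hx]
    refine le_trans (mul_le_mul_of_nonneg_left ?_ hα.le) (hC ξ)
    have h3 := entry_sq_le (symm ξ) (D.l k) (D.l k)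
    have h4 : symm ξ (D.l k) (D.l k) = ξ (D.l k) (D.l k) := by
      unfold symm
      ring
    rw [h4] at h3
    exact h3
  by_cases hp : ∃ j, D.pat k j x
  · obtain ⟨j, hj⟩ := hp
    exact hRB (Or.inr (Or.inr ⟨k, j, h1, hj⟩))
  by_cases hl : pd (x (D.l k)) < D.bF
  · exact hRB (Or.inr (Or.inl ⟨k, D.l k, (D.l_ne k).symm, lt_of_lt_of_le h1 hb, hl⟩))
  have hRS : x ∈ D.RS k := by
    refine ⟨h1, ?_, fun j hj => hp ⟨j, hj⟩⟩
    intro i hi
    by_cases h : i = D.l k
    · rw [h]; exact not_lt.1 hl
    · exact h2 i hi h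
  rw [hG.sht k x hRS]
  have hz : (Pi.single (D.l k) 1 : Fin d → ℤ) ≠ 0 := by
    intro h
    have := congrFun h (D.l k)
    simp at this
  have h3 := (hF _ hz ξ).1
  have hzv : zv (Pi.single (D.l k) 1 : Fin d → ℤ) = (Pi.single (D.l k) 1 : V d) := by
    funext i
    unfold zv
    by_cases h : i = D.l k
    · rw [h]; simp
    · simp [Pi.single_eq_of_ne h]
  rw [hzv] at h3
  have hd : dot (Pi.single (D.l k) 1 : V d) (Pi.single (D.l k) 1) = 1 := by
    unfold dot
    rw [Finset.sum_eq_single (D.l k)]
    · simp
    · intro m _ hm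
      simp [Pi.single_eq_of_ne hm]
    · intro h
      exact absurd (Finset.mem_univ _) h
  have hi : ip (oo (Pi.single (D.l k) 1 : V d)) ξ = ξ (D.l k) (D.l k) := by
    unfold ip oo
    rw [Finset.sum_eq_single (D.l k)]
    · rw [Finset.sum_eq_single (D.l k)]
      · simp
      · intro m _ hm
        simp [Pi.single_eq_of_ne hm]
      · intro h
        exact absurd (Finset.mem_univ _) h
    · intro m _ hm
      refine Finset.sum_eq_zero fun n _ => ?_
      simp [Pi.single_eq_of_ne hm]
    · intro h
      exact absurd (Finset.mem_univ _) h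
  rw [hd, hi, div_one] at h3
  exact h3

theorem pd_le_abs (t : ℝ) : pd t ≤ |t| := by
  have := round_le t 0
  simpa [pd] using this

theorem pd_le_one_sub {t : ℝ} (h : t ≤ 1) : pd t ≤ 1 - t := by
  have := round_le t 1
  unfold pd
  refine this.trans ?_
  rw [Int.cast_one, abs_of_nonpos (by linarith)]
  linarith

theorem le_pd {t s : ℝ} (h1 : s ≤ t) (h2 : t ≤ 1 - s) : s ≤ pd t := by
  unfold pd
  rcases le_or_gt (round t) 0 with h | h
  · have h3 : ((round t : ℤ) : ℝ) ≤ 0 := by exact_mod_cast h
    refine le_trans ?_ (le_abs_self _)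
    linarith
  · have h3 : (1 : ℝ) ≤ ((round t : ℤ) : ℝ) := by exact_mod_cast h
    refine le_trans ?_ (neg_le_abs _)
    linarith

/-- the pointwise bound along a line -/
theorem line_bd (ε : M d) (u : Disp d) (c : V d) (Om : M d) (l : Fin d) (hO : Om l l = 0)
    (x : V d) (hx : x l ∈ Set.Icc (0 : ℝ) 1) (r : ℝ) (hr : 0 < r) (hr1 : r ≤ 1) :
    ‖gg ε u c Om l x‖ₑ ≤ ENNReal.ofReal (1 / r) *
      (∫⁻ t in Set.Icc (0 : ℝ) r, ‖gg ε u c Om l (Function.update x l t)‖ₑ) +
      ∫⁻ s in Set.Icc (0 : ℝ) 1, ‖gd ε u l (Function.update x l s)‖ₑ := by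
  set g := gg ε u c Om l with hg
  set g' := gd ε u l with hg'
  have hcu : Continuous fun s : ℝ => Function.update x l s := by
    exact continuous_const.update l continuous_id
  have hc1 : Continuous fun s : ℝ => g (Function.update x l s) :=
    (continuous_gg ε u c Om l).comp hcu
  have hc2 : Continuous fun s : ℝ => g' (Function.update x l s) := (continuous_gd ε u l).comp hcu
  have i1 : IntegrableOn (fun s : ℝ => g (Function.update x l s)) (Set.Icc 0 r) :=
    hc1.continuousOn.integrableOn_compact isCompact_Icc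
  have i2 : IntegrableOn (fun s : ℝ => g' (Function.update x l s)) (Set.Icc 0 1) :=
    hc2.continuousOn.integrableOn_compact isCompact_Icc
  set J := ∫ s in Set.Icc (0 : ℝ) 1, ‖g' (Function.update x l s)‖ with hJ
  have hpt : ∀ t ∈ Set.Icc (0 : ℝ) 1, |g x| ≤ |g (Function.update x l t)| + J := by
    intro t ht
    have h1 : ∫ s in t..x l, g' (Function.update x l s) =
        g (Function.update x l (x l)) - g (Function.update x l t) :=
      intervalIntegral.integral_eq_sub_of_hasDerivAt
        (fun s _ => gg_deriv ε u c Om l hO x s) (hc2.intervalIntegrable _ _)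
    rw [Function.update_eq_self] at h1
    have h2 : |g x - g (Function.update x l t)| ≤ J := by
      rw [← h1, ← Real.norm_eq_abs]
      refine (intervalIntegral.norm_integral_le_integral_norm_uIoc).trans ?_
      refine setIntegral_mono_set i2.norm (ae_of_all _ fun s => norm_nonneg _) ?_
      refine LE.le.eventuallyLE ?_
      intro s hs
      rw [Set.uIoc, Set.mem_Ioc] at hs
      have h3 : 0 ≤ min t (x l) := le_min ht.1 hx.1
      have h4 : max t (x l) ≤ 1 := max_le ht.2 hx.2
      exact ⟨by linarith [hs.1], by linarith [hs.2]⟩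
    have h5 := abs_sub_abs_le_abs_sub (g x) (g (Function.update x l t))
    linarith
  have hav : |g x| ≤ (1 / r) * (∫ t in Set.Icc (0 : ℝ) r, ‖g (Function.update x l t)‖) + J := by
    have h1 : ∫ _t in Set.Icc (0 : ℝ) r, |g x| ≤
        ∫ t in Set.Icc (0 : ℝ) r, (‖g (Function.update x l t)‖ + J) := by
      refine setIntegral_mono_on (integrableOn_const (by simp))
        (i1.norm.add (integrableOn_const (by simp))) measurableSet_Icc ?_
      intro t ht
      exact hpt t ⟨ht.1, ht.2.trans hr1⟩
    have h2 : ∫ t in Set.Icc (0 : ℝ) r, (‖g (Function.update x l t)‖ + J) =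
        (∫ t in Set.Icc (0 : ℝ) r, ‖g (Function.update x l t)‖) + r * J := by
      have h3 := integral_add' i1.norm (integrableOn_const (C := J) (s := Set.Icc (0 : ℝ) r)
        (μ := volume) (by simp))
      have h4 : ∫ _t in Set.Icc (0 : ℝ) r, J = r * J := by
        rw [setIntegral_const, measureReal_def, Real.volume_Icc, smul_eq_mul, sub_zero,
          ENNReal.toReal_ofReal hr.le]
      rw [h4] at h3
      exact h3
    rw [h2, setIntegral_const, measureReal_def, Real.volume_Icc, smul_eq_mul, sub_zero,
      ENNReal.toReal_ofReal hr.le] at h1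
    have h5 : |g x| = (1 / r) * (r * |g x|) := by field_simp
    have h6 : (1 / r) * (∫ t in Set.Icc (0 : ℝ) r, ‖g (Function.update x l t)‖) + J =
        (1 / r) * ((∫ t in Set.Icc (0 : ℝ) r, ‖g (Function.update x l t)‖) + r * J) := by
      field_simp
    rw [h5, h6]
    exact mul_le_mul_of_nonneg_left h1 (by positivity)
  have hJ0 : 0 ≤ J := integral_nonneg fun _ => norm_nonneg _
  have hI0 : 0 ≤ ∫ t in Set.Icc (0 : ℝ) r, ‖g (Function.update x l t)‖ :=
    integral_nonneg fun _ => norm_nonneg _
  rw [← ofReal_integral_norm_eq_lintegral_enorm i1, ← ofReal_integral_norm_eq_lintegral_enorm i2,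
    ← ENNReal.ofReal_mul (by positivity), ← ENNReal.ofReal_add (by positivity) hJ0,
    Real.enorm_eq_ofReal_abs]
  exact ENNReal.ofReal_le_ofReal hav

end TranAux

open TranAux

theorem Tran_ok (d : ℕ) (h : StmtSupp d) (_hE : BaseE d) : StmtTran d := by
  intro D K η hPr hLi α β hα
  obtain ⟨L₀, hS⟩ := h D K η hPr hLi
  -- lengths
  have hN : (1 : ℝ) ≤ D.N := by exact_mod_cast D.Npos
  have hJ : (1 : ℝ) ≤ D.J := by exact_mod_cast D.Jpos
  have hw0 : 0 < D.w := by unfold Dat.w; positivity
  have hw1 : D.w ≤ 1 := by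
    unfold Dat.w
    rw [div_le_one (by linarith)]
    exact hN
  have hh0 : 0 < D.h := by unfold Dat.h; positivity
  have hhw : D.h ≤ D.w / 64 := by
    unfold Dat.h
    apply div_le_div_of_nonneg_left hw0.le (by norm_num)
    linarith
  have hbF : D.bF = D.h / 4 := rfl
  have hb : D.b = D.h / 64 := rfl
  -- the bound of the density
  have hmu2 : Continuous (deriv (deriv D.mu)) := by
    have h1 := (contDiff_infty_iff_deriv (𝕜 := ℝ)).1 hPr.mu_sm
    have h2 := (contDiff_infty_iff_deriv (𝕜 := ℝ)).1 h1.2
    exact h2.2.continuous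
  obtain ⟨M1, hM1⟩ := (isCompact_Icc (a := -D.h) (b := D.h)).exists_bound_of_continuousOn
    (f := deriv (deriv D.mu)) hmu2.continuousOn
  have hM10 : 0 ≤ M1 := (norm_nonneg _).trans (hM1 0 ⟨by linarith, hh0.le⟩)
  have hmz : ∀ t, |t| ≤ D.h → D.b / 2 < |t| → deriv (deriv D.mu) t = 0 := by
    intro t h1 h2
    rw [abs_le] at h1
    rcases lt_abs.1 h2 with h3 | h3
    · have e1 : deriv D.mu =ᶠ[𝓝 t] fun _ => 1 := by
        filter_upwards [Ioo_mem_nhds h3 (show t < 2 * D.h - D.b / 2 by linarith [h1.2])] with s hs
        exact hPr.mu_one s hs.1.le hs.2.le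
      rw [e1.deriv_eq]
      simp
    · have e1 : D.mu =ᶠ[𝓝 t] fun _ => 0 := by
        filter_upwards [Ioo_mem_nhds (show -(1 / 2 : ℝ) < t by linarith [h1.1])
          (show t < -(D.b / 2) by linarith)] with s hs
        exact hPr.mu_zero s hs.1.le (by linarith [hs.2]) (Or.inl hs.2.le)
      rw [e1.deriv.deriv_eq]
      simp
  refine ⟨M1 * |K| * (1 / (D.bF / 2) + 1 / Real.sqrt α), L₀, by rw [hbF]; positivity, ?_⟩
  intro L hL hL0 C F Ls T hC hF hG hT ε u k j c Om X hO hX
  have hE0 : 0 ≤ energy T ε u := energy_nonneg T β hT ε u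
  set l := D.l k with hl
  have hkl : k ≠ l := (D.l_ne k).symm
  have hOl : Om l l = 0 := by
    have := hO l l
    linarith
  set g := gg ε u c Om l with hg
  set g' := gd ε u l with hg'
  have hgc : Continuous g := continuous_gg ε u c Om l
  have hgc' : Continuous g' := continuous_gd ε u l
  set φ : V d → ℝ := fun x => deriv (deriv D.mu) (x k) * D.P k j (D.xs L k x) with hφ
  set r := D.bF / 2 with hr
  have hr0 : 0 < r := by rw [hr, hbF]; positivity
  have hr1 : r ≤ 1 := by rw [hr, hbF]; linarith
  -- the boxes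
  set lo : V d := fun i => if i = k then -(D.b / 2) else if i = l then 0 else D.bF with hlo
  set hi : V d := fun i => if i = k then D.b / 2 else if i = l then 1 else 1 - D.bF with hhi
  set B : Set (V d) := {x | ∀ i, i ≠ l → x i ∈ Set.Icc (lo i) (hi i)} with hB
  set A : Set (V d) := Set.Icc lo hi with hA
  have hAB : A = {x : V d | x l ∈ Set.Icc (0 : ℝ) 1} ∩ B := by
    ext x
    simp only [hA, hB, Set.mem_inter_iff, Set.mem_ofPred_eq, Set.mem_Icc]
    constructor
    · rintro ⟨h1, h2⟩
      refine ⟨?_, fun i _ => ⟨h1 i, h2 i⟩⟩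
      have h3 := h1 l
      have h4 := h2 l
      simp only [hlo, hhi, if_neg hkl.symm, if_true] at h3 h4
      exact ⟨h3, h4⟩
    · rintro ⟨h1, h2⟩
      constructor
      · intro i
        by_cases hi : i = l
        · subst hi
          simp only [hlo, if_neg hkl.symm, if_true]
          exact h1.1
        · exact (h2 i hi).1
      · intro i
        by_cases hi : i = l
        · subst hi
          simp only [hhi, if_neg hkl.symm, if_true]
          exact h1.2
        · exact (h2 i hi).2
  have mB : MeasurableSet B := by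
    have : B = ⋂ i, {x : V d | i ≠ l → x i ∈ Set.Icc (lo i) (hi i)} := by
      ext x
      simp [hB]
    rw [this]
    refine MeasurableSet.iInter fun i => ?_
    by_cases hi : i = l
    · simp [hi]
    · simp only [ne_eq, hi, not_false_eq_true, forall_const]
      exact measurableSet_Icc.preimage (measurable_pi_apply i)
  -- support
  have hsup : ∀ x ∈ win k ∩ {x : V d | |x k| ≤ D.h}, φ x ≠ 0 → x ∈ A := by
    rintro x ⟨hx1, hx2⟩ hx3
    have h1 : deriv (deriv D.mu) (x k) ≠ 0 := left_ne_zero_of_mul hx3
    have h2 : D.P k j (D.xs L k x) ≠ 0 := right_ne_zero_of_mul hx3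
    have h3 : |x k| ≤ D.b / 2 := by
      by_contra h4
      exact h1 (hmz _ hx2 (not_le.1 h4))
    have h4 : pd (x k) ≤ 5 * D.h := (pd_le_abs _).trans (hx2.out.trans (by linarith))
    have h5 := (hS L hL hL0 k j x h2 h4).1
    rw [abs_le] at h3
    have h6 : ∀ i, i ≠ k → x i ∈ Set.Icc (0 : ℝ) 1 := by
      intro i hi
      have a1 := hx1.1 i
      have a2 := hx1.2 i
      simp only [Pi.neg_apply, Pi.sub_apply, Pi.one_apply, Pi.single_eq_of_ne hi, neg_zero,
        sub_zero] at a1 a2
      exact ⟨a1, a2⟩
    have h7 : ∀ i, i ≠ k → D.bF ≤ x i ∧ x i ≤ 1 - D.bF := by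
      intro i hi
      have a1 := h5 i hi
      have a2 := (pd_le_abs (x i))
      rw [abs_of_nonneg (h6 i hi).1] at a2
      have a3 := pd_le_one_sub (h6 i hi).2
      rw [hbF]
      constructor <;> linarith
    constructor
    · intro i
      simp only [hlo]
      split_ifs with c1 c2
      · rw [c1]; exact h3.1
      · exact (h6 i c1).1
      · exact (h7 i c1).1
    · intro i
      simp only [hhi]
      split_ifs with c1 c2
      · rw [c1]; exact h3.2
      · exact (h6 i c1).2
      · exact (h7 i c1).2
  -- the material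
  have hmat : ∀ x ∈ A, α * g' x ^ 2 ≤ (T x).Q (ε + sg u.u x) := by
    intro x hx
    have h1 : pd (x k) < D.b := by
      refine (pd_le_abs _).trans_lt ?_
      have a1 := hx.1 k
      have a2 := hx.2 k
      simp only [hlo, hhi, if_true] at a1 a2
      have : |x k| ≤ D.b / 2 := abs_le.2 ⟨a1, a2⟩
      have hb0 : 0 < D.b := by rw [hb]; positivity
      linarith
    show α * ((ε + sg u.u x) (D.l k) (D.l k)) ^ 2 ≤ (T x).Q (ε + sg u.u x)
    refine mat_low D α β hα L C F Ls T hC hF hG k x h1 (by rw [hb, hbF]; linarith) ?_ _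
    intro i hi1 hi2
    have a1 := hx.1 i
    have a2 := hx.2 i
    simp only [hlo, hhi, if_neg hi1, if_neg (show i ≠ l from hi2)] at a1 a2
    exact le_pd a1 a2
  -- first integral
  have hvF : volume (D.Fk k) ≤ 1 := by
    unfold Dat.Fk
    rw [Real.volume_Icc_pi]
    refine Finset.prod_le_one' fun i _ => ?_
    rw [ENNReal.ofReal_le_one]
    split_ifs <;> [skip; norm_num]
    linarith
  have hcF : IsCompact (D.Fk k) := isCompact_Icc
  have q1 : ∫ x in D.Fk k, |g x| ≤ Real.sqrt X := by
    refine (cs_one hvF (hgc.continuousOn.integrableOn_compact hcF)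
      ((hgc.pow 2).continuousOn.integrableOn_compact hcF)).trans (Real.sqrt_le_sqrt ?_)
    refine le_trans ?_ hX
    have hcv : Continuous fun x => vv ε u x - c - mulV Om x := by
      refine continuous_pi fun i => ?_
      exact continuous_gg ε u c Om i
    refine setIntegral_mono_on ((hgc.pow 2).continuousOn.integrableOn_compact hcF) ?_
      hcF.measurableSet ?_
    · refine Continuous.integrableOn_Icc ?_
      unfold dot
      exact continuous_finsetSum _ fun i _ => ((continuous_apply i).comp hcv).mul
        ((continuous_apply i).comp hcv)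
    · intro x _
      have h1 : g x = (vv ε u x - c - mulV Om x) l := rfl
      rw [h1]
      unfold dot
      rw [sq]
      exact Finset.single_le_sum (f := fun i => (vv ε u x - c - mulV Om x) i *
        (vv ε u x - c - mulV Om x) i) (fun i _ => mul_self_nonneg _) (Finset.mem_univ l)
  -- second integral
  have hsubw : A ⊆ win k := by
    intro x hx
    have hb0 : 0 < D.b := by rw [hb]; positivity
    have hb1 : D.b / 2 ≤ 1 / 4 := by rw [hb]; linarith
    have hF0 : 0 < D.bF := by rw [hbF]; positivity
    constructor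
    · intro i
      have a1 := hx.1 i
      simp only [hlo] at a1
      simp only [Pi.neg_apply]
      split_ifs at a1 with c1 c2
      · rw [c1, Pi.single_eq_same]; rw [c1] at a1; linarith
      · rw [Pi.single_eq_of_ne c1]; linarith
      · rw [Pi.single_eq_of_ne c1]; linarith
    · intro i
      have a1 := hx.2 i
      simp only [hhi] at a1
      simp only [Pi.sub_apply, Pi.one_apply]
      split_ifs at a1 with c1 c2
      · rw [c1, Pi.single_eq_same]; rw [c1] at a1; linarith
      · rw [Pi.single_eq_of_ne c1]; linarith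
      · rw [Pi.single_eq_of_ne c1]; linarith
  have hvw : volume (win k) ≤ 1 := by
    unfold win
    rw [Real.volume_Icc_pi]
    refine Finset.prod_le_one' fun i _ => ?_
    rw [ENNReal.ofReal_le_one]
    simp
  have hcA : IsCompact A := isCompact_Icc
  set QQ : V d → ℝ := fun x => (T x).Q (ε + sg u.u x) with hQQ
  have hQper : Per QQ := by
    intro x i
    have h1 : sg u.u (x + Pi.single i 1) = sg u.u x := by
      unfold sg
      rw [grad_periodic u x i]
    show (T (x + Pi.single i 1)).Q (ε + sg u.u (x + Pi.single i 1)) = _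
    rw [hT.per x i, h1]
  have hQint : IntegrableOn QQ (win k) := by
    have hmeas : Measurable QQ := meas_ip T hT.meas _ _
      (continuous_const.add (sg_continuous u)).measurable
      (continuous_const.add (sg_continuous u)).measurable
    have hc2 : Continuous fun x => β * nsq (ε + sg u.u x) :=
      continuous_const.mul (continuous_nsq.comp (continuous_const.add (sg_continuous u)))
    have hcw : IsCompact (win k) := isCompact_Icc
    refine Integrable.mono' (hc2.continuousOn.integrableOn_compact hcw)
      hmeas.aestronglyMeasurable (Eventually.of_forall fun x => ?_)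
    rw [Real.norm_eq_abs, abs_of_nonneg (fld_psd hT x _)]
    exact hT.hi x _
  have q2 : ∫ x in A, |g' x| ≤ Real.sqrt (energy T ε u) / Real.sqrt α := by
    refine (cs_one ((measure_mono hsubw).trans hvw)
      (hgc'.continuousOn.integrableOn_compact hcA)
      ((hgc'.pow 2).continuousOn.integrableOn_compact hcA)).trans ?_
    rw [← Real.sqrt_div hE0]
    refine Real.sqrt_le_sqrt ?_
    rw [le_div_iff₀ hα]
    have e1 : (∫ x in A, g' x ^ 2) * α = ∫ x in A, α * g' x ^ 2 := by
      rw [integral_const_mul, mul_comm]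
    rw [e1]
    calc ∫ x in A, α * g' x ^ 2 ≤ ∫ x in A, QQ x := by
          refine setIntegral_mono_on
            ((continuous_const.mul (hgc'.pow 2)).continuousOn.integrableOn_compact hcA)
            (hQint.mono_set hsubw) hcA.measurableSet hmat
      _ ≤ ∫ x in win k, QQ x := by
          refine setIntegral_mono_set hQint (ae_of_all _ fun x => fld_psd hT x _) ?_
          exact LE.le.eventuallyLE hsubw
      _ = ∫ x in cell d, QQ x := win_eq k QQ hQper
      _ = energy T ε u := rfl
  -- the main estimate
  have hmW : MeasurableSet (win k ∩ {x : V d | |x k| ≤ D.h}) := by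
    refine (measurableSet_Icc).inter ?_
    exact (isClosed_le (continuous_abs.comp (continuous_apply k)) continuous_const).measurableSet
  obtain ⟨K1, hK1⟩ : ∃ K1 : ℝ, K1 = M1 * |K| := ⟨_, rfl⟩
  rw [← hK1]
  have hK10 : 0 ≤ K1 := by rw [hK1]; exact mul_nonneg hM10 (abs_nonneg _)
  have s1 : ∫⁻ x in win k ∩ {x : V d | |x k| ≤ D.h}, ‖φ x * g x‖ₑ ≤
      ENNReal.ofReal K1 * ∫⁻ x in A, ‖g x‖ₑ := by
    calc ∫⁻ x in win k ∩ {x : V d | |x k| ≤ D.h}, ‖φ x * g x‖ₑ
        ≤ ∫⁻ x in win k ∩ {x : V d | |x k| ≤ D.h},
            A.indicator (fun x => ENNReal.ofReal K1 * ‖g x‖ₑ) x := by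
          refine setLIntegral_mono' hmW ?_
          intro x hx
          by_cases h0 : φ x = 0
          · rw [h0, zero_mul]
            simp
          · rw [Set.indicator_of_mem (hsup x hx h0), enorm_mul]
            refine mul_le_mul_left ?_ _
            rw [Real.enorm_eq_ofReal_abs]
            refine ENNReal.ofReal_le_ofReal ?_
            rw [hφ, hK1, abs_mul]
            have a1 := hM1 (x k) ⟨(abs_le.1 hx.2.out).1, (abs_le.1 hx.2.out).2⟩
            rw [Real.norm_eq_abs] at a1
            have a2 := hLi.P_rng k j (D.xs L k x)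
            have a3 : |D.P k j (D.xs L k x)| ≤ |K| := by
              rw [abs_of_nonneg a2.1]
              exact a2.2.trans (le_abs_self K)
            exact mul_le_mul a1 a3 (abs_nonneg _) hM10
      _ ≤ ∫⁻ x, A.indicator (fun x => ENNReal.ofReal K1 * ‖g x‖ₑ) x :=
          setLIntegral_le_lintegral _ _
      _ = ENNReal.ofReal K1 * ∫⁻ x in A, ‖g x‖ₑ := by
          rw [lintegral_indicator hcA.measurableSet, lintegral_const_mul]
          exact hgc.measurable.enorm
  have mF0 : Measurable (B.indicator fun x => ‖g x‖ₑ) := (hgc.measurable.enorm).indicator mB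
  have mF1 : Measurable (B.indicator fun x => ‖g' x‖ₑ) := (hgc'.measurable.enorm).indicator mB
  have hupd : ∀ x ∈ B, ∀ t : ℝ, Function.update x l t ∈ B := by
    intro x hx t i hi
    rw [Function.update_of_ne hi]
    exact hx i hi
  have s2 : ∫⁻ x in A, ‖g x‖ₑ ≤
      ENNReal.ofReal (1 / r) * (∫⁻ x in {x : V d | x l ∈ Set.Icc 0 r},
        B.indicator (fun x => ‖g x‖ₑ) x) +
      ∫⁻ x in {x : V d | x l ∈ Set.Icc (0 : ℝ) 1}, B.indicator (fun x => ‖g' x‖ₑ) x := by
    rw [← slice l (Set.Icc 0 r) measurableSet_Icc _ mF0,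
      ← slice l (Set.Icc 0 1) measurableSet_Icc _ mF1]
    have m1 : Measurable fun x : V d => ∫⁻ t in Set.Icc (0 : ℝ) r,
        B.indicator (fun x => ‖g x‖ₑ) (Function.update x l t) := by
      have h1 : Measurable fun p : V d × ℝ =>
          B.indicator (fun x => ‖g x‖ₑ) (Function.update p.1 l p.2) :=
        mF0.comp (measurable_update' (a := l))
      exact h1.lintegral_prod_right'
    rw [← lintegral_const_mul _ m1, ← lintegral_add_left (m1.const_mul _)]
    have hml : MeasurableSet {x : V d | x l ∈ Set.Icc (0 : ℝ) 1} :=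
      measurableSet_Icc.preimage (measurable_pi_apply l)
    have e1 : ∫⁻ x in A, ‖g x‖ₑ = ∫⁻ x in {x : V d | x l ∈ Set.Icc (0 : ℝ) 1},
        B.indicator (fun x => ‖g x‖ₑ) x := by
      rw [lintegral_indicator mB, Measure.restrict_restrict mB, hAB, Set.inter_comm]
    rw [e1]
    refine setLIntegral_mono' hml ?_
    intro x hx
    by_cases hxB : x ∈ B
    · rw [Set.indicator_of_mem hxB]
      have h1 := line_bd ε u c Om l hOl x hx r hr0 hr1
      refine h1.trans (le_of_eq ?_)
      have e2 : ∀ t, B.indicator (fun x => ‖g x‖ₑ) (Function.update x l t) =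
          ‖g (Function.update x l t)‖ₑ := fun t => Set.indicator_of_mem (hupd x hxB t) _
      have e3 : ∀ t, B.indicator (fun x => ‖g' x‖ₑ) (Function.update x l t) =
          ‖g' (Function.update x l t)‖ₑ := fun t => Set.indicator_of_mem (hupd x hxB t) _
      simp only [e2, e3]
      rfl
    · rw [Set.indicator_of_notMem hxB]
      exact zero_le
  have s3 : ∫⁻ x in {x : V d | x l ∈ Set.Icc 0 r}, B.indicator (fun x => ‖g x‖ₑ) x ≤
      ENNReal.ofReal (Real.sqrt X) := by
    rw [lintegral_indicator mB, Measure.restrict_restrict mB]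
    have hsub : B ∩ {x : V d | x l ∈ Set.Icc 0 r} ⊆ D.Fk k := by
      rintro x ⟨hx1, hx2⟩
      have hx2' : 0 ≤ x l ∧ x l ≤ r := hx2
      have hF0 : 0 < D.bF := by rw [hbF]; positivity
      have hxk := hx1 k hkl
      simp only [hlo, hhi, if_true] at hxk
      have hbb : D.b ≤ D.bF := by rw [hb, hbF]; linarith
      constructor
      · intro i
        by_cases c1 : i = k
        · simp only [c1, true_or, if_true]; linarith [hxk.1]
        by_cases c2 : i = l
        · simp only [c2, hl, or_true, if_true]
          have : D.bF / 2 = r := rfl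
          rw [← hl]
          linarith [hx2'.1]
        · have c3 : ¬ (i = k ∨ i = D.l k) := by
            rintro (c | c)
            · exact c1 c
            · exact c2 c
          simp only [if_neg c3]
          have := (hx1 i c2).1
          simp only [hlo, if_neg c1, if_neg c2] at this
          linarith
      · intro i
        by_cases c1 : i = k
        · simp only [c1, true_or, if_true]; linarith [hxk.2]
        by_cases c2 : i = l
        · simp only [c2, hl, or_true, if_true]
          have : D.bF / 2 = r := rfl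
          rw [← hl]
          linarith [hx2'.2]
        · have c3 : ¬ (i = k ∨ i = D.l k) := by
            rintro (c | c)
            · exact c1 c
            · exact c2 c
          simp only [if_neg c3]
          have := (hx1 i c2).2
          simp only [hhi, if_neg c1, if_neg c2] at this
          linarith
    refine (lintegral_mono_set hsub).trans ?_
    rw [← ofReal_integral_norm_eq_lintegral_enorm (hgc.continuousOn.integrableOn_compact hcF)]
    exact ENNReal.ofReal_le_ofReal q1
  have s4 : ∫⁻ x in {x : V d | x l ∈ Set.Icc (0 : ℝ) 1}, B.indicator (fun x => ‖g' x‖ₑ) x ≤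
      ENNReal.ofReal (Real.sqrt (energy T ε u) / Real.sqrt α) := by
    rw [lintegral_indicator mB, Measure.restrict_restrict mB, Set.inter_comm, ← hAB,
      ← ofReal_integral_norm_eq_lintegral_enorm (hgc'.continuousOn.integrableOn_compact hcA)]
    exact ENNReal.ofReal_le_ofReal q2
  have hfin : ENNReal.ofReal |∫ x in win k ∩ {x : V d | |x k| ≤ D.h}, φ x * g x| ≤
      ENNReal.ofReal (K1 * ((1 / r) * Real.sqrt X + Real.sqrt (energy T ε u) / Real.sqrt α)) := by
    rw [← Real.enorm_eq_ofReal_abs, ENNReal.ofReal_mul hK10,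
      ENNReal.ofReal_add (by positivity) (by positivity), ENNReal.ofReal_mul (by positivity)]
    refine (enorm_integral_le_lintegral_enorm _).trans (s1.trans ?_)
    refine mul_le_mul_right ?_ _
    refine s2.trans (add_le_add ?_ s4)
    exact mul_le_mul_right s3 _
  rw [ENNReal.ofReal_le_ofReal_iff (by positivity)] at hfin
  refine hfin.trans ?_
  have a1 : 0 ≤ Real.sqrt X := Real.sqrt_nonneg _
  have a2 : 0 ≤ Real.sqrt (energy T ε u) := Real.sqrt_nonneg _
  have a3 : 0 ≤ 1 / r := by positivity
  have a4 : 0 ≤ 1 / Real.sqrt α := by positivity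
  have e : Real.sqrt (energy T ε u) / Real.sqrt α =
      1 / Real.sqrt α * Real.sqrt (energy T ε u) := by ring
  rw [e, mul_assoc]
  refine mul_le_mul_of_nonneg_left ?_ hK10
  nlinarith [mul_nonneg a3 a2, mul_nonneg a4 a1]

end Pool.Agent.Lib.MP_5df1bf_an
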