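import Pool.Agent.Lib.MP_5df1bf_an.Stmts2

/-!
# MP_5df1bf_an: C7, upper bound for the gadget

The test displacement is `s • easyy`, `s = (C E : ε) / (E : C E)`.
-/

open MeasureTheory Filter Topology
open scoped BigOperators ContDiff

noncomputable section

namespace Pool.Agent.Lib.MP_5df1bf_an

variable {d : ℕ}

namespace UpAux

theorem measurable_pd : Measurable pd := by
  have h : pd = fun t : ℝ => |t - ((⌊t + 1 / 2⌋ : ℤ) : ℝ)| := by
    funext t; unfold pd; rw [round_eq]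
  rw [h]
  have h1 : Measurable fun t : ℝ => ((⌊t + 1 / 2⌋ : ℤ) : ℝ) :=
    (measurable_from_top (f := fun n : ℤ => (n : ℝ))).comp
      (Int.measurable_floor.comp (measurable_id.add_const (1 / 2 : ℝ)))
  exact measurable_abs.comp (measurable_id.sub h1)

theorem measSet_near (s : ℝ) : MeasurableSet {x : V d | ∃ i, pd (x i) ≤ s} := by
  have : {x : V d | ∃ i, pd (x i) ≤ s} = ⋃ i, {x : V d | pd (x i) ≤ s} := by
    ext x; simp
  rw [this]
  refine MeasurableSet.iUnion fun i => ?_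
  exact measurableSet_le (measurable_pd.comp (measurable_pi_apply i)) measurable_const

theorem oo_eq_sd (z : V d) : oo z = sd z z := by
  ext i j; simp [oo, sd]; ring

theorem nsq_oo (z : V d) : nsq (oo z) = (dot z z) ^ 2 := by
  rw [oo_eq_sd, nsq_sd]; ring

theorem symm_oo (z : V d) : symm (oo z) = oo z := by
  rw [oo_eq_sd, symm_sd]

theorem ip_oo_sq_le (z : V d) (ξ : M d) : (ip (oo z) ξ) ^ 2 ≤ (dot z z) ^ 2 * nsq ξ := by
  have h := cs_symm (oo z) ξ
  rwa [symm_oo, nsq_oo] at h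

theorem symm_dg (c : V d) : symm (dg c) = dg c := by
  ext i j
  by_cases h : i = j
  · subst h; simp [symm, dg]
  · simp [symm, dg, h, Ne.symm h]

theorem ip_oo_dg (z c : V d) : ip (oo z) (dg c) = ∑ i, c i * z i ^ 2 := by
  unfold ip oo dg
  refine Finset.sum_congr rfl fun i _ => ?_
  rw [Finset.sum_eq_single i]
  · simp; ring
  · intro b _ hb; simp [Ne.symm hb]
  · intro h; exact absurd (Finset.mem_univ _) h

/-- the fibre bound -/
theorem fib_bd {α β : ℝ} (hβ : 0 ≤ β) {z : V d} (hz : z ≠ 0) {F : Tens d} (hF : FibLike α β z F)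
    (ε G : M d) (s κ : ℝ) (hG : (ip (oo z) G) ^ 2 ≤ κ * (dot z z) ^ 2) :
    F.Q (ε + s • G) ≤ β * (2 * nsq ε + 2 * s ^ 2 * κ) := by
  refine (hF _).2.trans (mul_le_mul_of_nonneg_left ?_ hβ)
  have hz0 : 0 < dot z z := dot_self_pos hz
  rw [div_pow, div_le_iff₀ (by positivity), ip_add_right, ip_smul_right]
  have h1 := ip_oo_sq_le z ε
  have h2 : (ip (oo z) ε + s * ip (oo z) G) ^ 2 ≤
      2 * (ip (oo z) ε) ^ 2 + 2 * s ^ 2 * (ip (oo z) G) ^ 2 := by
    nlinarith [sq_nonneg (ip (oo z) ε - s * ip (oo z) G)]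
  have h3 : 2 * s ^ 2 * (ip (oo z) G) ^ 2 ≤ 2 * s ^ 2 * (κ * (dot z z) ^ 2) :=
    mul_le_mul_of_nonneg_left hG (by positivity)
  nlinarith

theorem g_ne {D : Dat d} {L : ℕ} (hL : 0 < L) (k : Fin d) (j : Fin D.J) : D.g L k j ≠ 0 := by
  intro h
  have h1 := congrFun h k
  have h2 : D.g L k j k = L * D.u j k := by
    unfold Dat.g
    rw [if_neg (D.l_ne k).symm, add_zero]
  rw [h2] at h1
  have h3 := (D.u_rng j k).1
  have h4 : 0 < (L : ℤ) * D.u j k := by positivity
  simp only [Pi.zero_apply] at h1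
  omega

theorem u_ne (D : Dat d) (k : Fin d) (j : Fin D.J) : D.u j ≠ 0 := by
  intro h
  have h1 := congrFun h k
  have h3 := (D.u_rng j k).1
  simp only [Pi.zero_apply] at h1
  omega

theorem zv_ne {z : Fin d → ℤ} (h : z ≠ 0) : zv z ≠ 0 := by
  intro h1
  apply h
  funext i
  have := congrFun h1 i
  simpa [zv] using this

theorem zv_single (i : Fin d) : zv (Pi.single i 1) = Pi.single i (1 : ℝ) := by
  funext j
  unfold zv
  by_cases h : j = i
  · subst h; simp
  · simp [h]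

theorem single_ne (i : Fin d) : (Pi.single i 1 : Fin d → ℤ) ≠ 0 := by
  intro h
  have := congrFun h i
  simp at this

theorem ip_oo_single (i : Fin d) (G : M d) : ip (oo (Pi.single i (1 : ℝ))) G = G i i := by
  unfold ip oo
  rw [Finset.sum_eq_single i, Finset.sum_eq_single i]
  · simp
  · intro b _ hb; simp [hb]
  · intro h; exact absurd (Finset.mem_univ _) h
  · intro b _ hb; simp [hb]
  · intro h; exact absurd (Finset.mem_univ _) h

/-- the common bound outside the blocks -/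
theorem off_bd {B : Comb d} {α β K1 K2 K3 : ℝ} (hβ : 0 ≤ β) (hK1 : 0 ≤ K1)
    (hK3 : 0 ≤ K3) {D : Dat d} (hB : D.toComb = B) {L : ℕ} (hL : 0 < L)
    {C : Tens d} {F : (Fin d → ℤ) → Tens d} {Ls : Tens d} {T : V d → Tens d}
    (hF : ∀ z, z ≠ 0 → FibLike α β (zv z) (F z)) (hLs : ShLike α β (zv D.q0) Ls)
    (hG : D.IsGad L C F Ls T) (hT : IsFld T 0 β)
    (b1 : ∀ x ∈ D.RB, nsq (grad (D.easyy L) x) ≤ K1)
    (b2 : ∀ k, ∀ x ∈ D.RS k, grad (D.easyy L) x (D.l k) (D.l k) = 0)
    (b3 : ∀ k j, ∀ x ∈ D.RU k j, ip (oo (zv (D.u j))) (grad (D.easyy L) x) =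
      - ∑ i, D.E i * (D.u j i : ℝ) ^ 2)
    (b4 : ∀ k j, ∀ x ∈ D.RG k j, |ip (oo (zv (D.g L k j))) (grad (D.easyy L) x)| ≤
      K2 * dot (zv (D.g L k j)) (zv (D.g L k j)))
    (b5 : ∀ x ∈ D.RZ, ∃ a : V d, nsq (grad (D.easyy L) x - sd a (zv D.q0)) ≤ K3)
    (ε : M d) (s : ℝ) (x : V d) :
    (T x).Q (ε + s • sg (D.easyy L) x) ≤
      β * (2 * nsq ε + 2 * s ^ 2 * (K1 + K2 ^ 2 + K3 + nsq (dg B.E))) := by
  have hEn := nsq_nonneg (dg B.E)
  have hε := nsq_nonneg ε
  have mono : ∀ κ : ℝ, κ ≤ K1 + K2 ^ 2 + K3 + nsq (dg B.E) →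
      β * (2 * nsq ε + 2 * s ^ 2 * κ) ≤
        β * (2 * nsq ε + 2 * s ^ 2 * (K1 + K2 ^ 2 + K3 + nsq (dg B.E))) := by
    intro κ hκ
    refine mul_le_mul_of_nonneg_left ?_ hβ
    have := mul_le_mul_of_nonneg_left hκ (show 0 ≤ 2 * s ^ 2 by positivity)
    linarith
  have hsgip : ∀ z : V d, ip (oo z) (sg (D.easyy L) x) = ip (oo z) (grad (D.easyy L) x) :=
    fun z => ip_oo_symm z _
  by_cases h1 : x ∈ D.RB
  · refine (hT.hi x _).trans ((mul_le_mul_of_nonneg_left ?_ hβ).trans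
      (mono K1 (by nlinarith [sq_nonneg K2])))
    refine (nsq_add_le _ _).trans ?_
    rw [nsq_smul]
    have h2 : nsq (sg (D.easyy L) x) ≤ K1 := by
      unfold sg; rw [nsq_symm]; exact b1 x h1
    have := mul_le_mul_of_nonneg_left h2 (show 0 ≤ 2 * s ^ 2 by positivity)
    linarith
  by_cases h2 : ∃ k, x ∈ D.RS k
  · obtain ⟨k, hk⟩ := h2
    rw [hG.sht k x hk]
    refine (fib_bd hβ (zv_ne (single_ne _)) (hF _ (single_ne _)) ε _ s 0 ?_).trans
      (mono 0 (by positivity))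
    rw [hsgip, zv_single, ip_oo_single, b2 k x hk]
    simp
  by_cases h3 : ∃ k j, x ∈ D.RU k j
  · obtain ⟨k, j, hk⟩ := h3
    rw [hG.neg k j x hk]
    refine (fib_bd hβ (zv_ne (u_ne D k j)) (hF _ (u_ne D k j)) ε _ s (nsq (dg B.E)) ?_).trans
      (mono _ (by nlinarith [sq_nonneg K2]))
    rw [hsgip, b3 k j x hk]
    have h4 := ip_oo_sq_le (zv (D.u j)) (dg B.E)
    rw [ip_oo_dg] at h4
    subst hB
    rw [neg_sq, mul_comm (nsq _)]
    exact h4
  by_cases h4 : ∃ k j, x ∈ D.RG k j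
  · obtain ⟨k, j, hk⟩ := h4
    rw [hG.pos k j x hk]
    refine (fib_bd hβ (zv_ne (g_ne hL k j)) (hF _ (g_ne hL k j)) ε _ s (K2 ^ 2) ?_).trans
      (mono _ (by nlinarith))
    rw [hsgip]
    have h5 := b4 k j x hk
    rw [← mul_pow, ← sq_abs]
    exact pow_le_pow_left₀ (abs_nonneg _) h5 2
  by_cases h5 : x ∈ D.RZ
  · rw [hG.ver x h5]
    obtain ⟨a, ha⟩ := b5 x h5
    refine ((hLs.2 _ (s • a)).2).trans ((mul_le_mul_of_nonneg_left ?_ hβ).trans
      (mono K3 (by nlinarith [sq_nonneg K2])))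
    have e : ε + s • sg (D.easyy L) x - sd (s • a) (zv D.q0) =
        ε + s • (sg (D.easyy L) x - sd a (zv D.q0)) := by
      rw [sd_smul_left, smul_sub]; abel
    rw [e]
    refine (nsq_add_le _ _).trans ?_
    rw [nsq_smul]
    have h6 : nsq (sg (D.easyy L) x - sd a (zv D.q0)) ≤ K3 := by
      have : sg (D.easyy L) x - sd a (zv D.q0) = symm (grad (D.easyy L) x - sd a (zv D.q0)) := by
        rw [symm_sub, symm_sd]; rfl
      rw [this, nsq_symm]; exact ha
    have := mul_le_mul_of_nonneg_left h6 (show 0 ≤ 2 * s ^ 2 by positivity)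
    linarith
  · have h6 : x ∈ D.RV := by
      refine ⟨h1, fun k hk => h2 ⟨k, hk⟩, fun k j hk => h3 ⟨k, j, hk⟩, fun k j hk => h4 ⟨k, j, hk⟩,
        h5⟩
    rw [hG.voi x h6]
    have h7 : (zeroT d).Q (ε + s • sg (D.easyy L) x) = 0 := by
      unfold Tens.Q zeroT
      simp [ip_zero_left]
    rw [h7]
    positivity

end UpAux

open UpAux in
theorem upper_ok (d : ℕ) (hE : BaseE d) (hD : StmtEasyDisp d) (hB : StmtEasyB d)
    (hS : StmtEasyS d) (hGG : StmtEasyG d) (hZ : StmtEasyZ d) (hV : StmtVol d) : StmtUpper d := by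
  intro B K α β hα hαβ
  obtain ⟨K1, hK1, hB⟩ := hB B
  obtain ⟨K2, hK2, hGG⟩ := hGG B
  obtain ⟨K3, hK3, hZ⟩ := hZ B K
  have hβ : 0 < β := lt_of_lt_of_le hα hαβ
  set N := nsq (dg B.E) with hN
  have hN0 : 0 ≤ N := nsq_nonneg _
  set κ := K1 + K2 ^ 2 + K3 + N with hκ
  have hκ0 : 0 ≤ κ := by positivity
  set κs := β / (α * N) with hκs
  have hκs0 : 0 ≤ κs := by positivity
  refine ⟨β * (2 + 2 * κs * κ) * (2 * d), by positivity, ?_⟩
  intro D η hDB hP _
  obtain ⟨L₀, hGG⟩ := hGG D K hDB hP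
  refine ⟨L₀ + 1, ?_⟩
  intro L hL C F Ls T hC hF hLs hG hT ε
  have hL0 : 0 < L := by omega
  have hL1 : L₀ ≤ L := by omega
  have hGG := hGG L hL1 hL0
  obtain ⟨hBa, hBb⟩ := hB D K hDB hP L
  obtain ⟨hSa, hSb⟩ := hS D K hP L
  have hZ := hZ D hDB hP L
  obtain ⟨hsm, hper⟩ := hD D K hP L
  have hCpsd : C.PSD := fun ξ => (mul_nonneg hα.le (nsq_nonneg ξ)).trans (hC ξ).1
  set QE := C.Q (dg B.E) with hQE
  set c := ip (C.C (dg B.E)) ε with hc
  set s := c / QE with hs
  -- the test displacement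
  obtain ⟨u, _, hu⟩ := hE.smul s ⟨D.easyy L, hsm, hper⟩
  have hsgu : ∀ x, sg u.u x = s • sg (D.easyy L) x := by
    intro x; unfold sg; rw [hu x, symm_smul]
  -- the size of `s`
  have hsQ : C.Q (ε - s • dg B.E) = C.Q ε - c ^ 2 / QE := by
    rw [Tens.Q_sub, Tens.Q_smul, ip_smul_right, Tens.ip_comm_C, ← hc, ← hQE]
    by_cases h0 : QE = 0
    · simp [hs, h0]
    · rw [hs]; field_simp; ring
  have hs2 : s ^ 2 ≤ κs * nsq ε := by
    by_cases h0 : N = 0
    · have h1 : QE = 0 := by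
        have h2 := (hC (dg B.E)).2
        have h3 := hCpsd (dg B.E)
        rw [← hN, h0, mul_zero] at h2
        exact le_antisymm h2 h3
      have h2 : s = 0 := by rw [hs, h1, div_zero]
      rw [h2]
      have := nsq_nonneg ε
      have : 0 ≤ κs * nsq ε := by positivity
      simpa using this
    · have hNp : 0 < N := lt_of_le_of_ne hN0 (Ne.symm h0)
      have hQp : 0 < QE := lt_of_lt_of_le (by positivity) (hC (dg B.E)).1
      have h1 : c ^ 2 ≤ QE * C.Q ε := Tens.Q_cs hCpsd _ _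
      have h2 : s ^ 2 * QE ≤ C.Q ε := by
        rw [hs, div_pow, div_mul_eq_mul_div, div_le_iff₀ (by positivity)]
        nlinarith
      have h3 : s ^ 2 * (α * N) ≤ β * nsq ε := by
        have h4 : s ^ 2 * (α * N) ≤ s ^ 2 * QE :=
          mul_le_mul_of_nonneg_left (hC (dg B.E)).1 (sq_nonneg s)
        exact (h4.trans h2).trans (hC ε).2
      rw [hκs, div_mul_eq_mul_div, le_div_iff₀ (by positivity)]
      exact h3
  have hq0 : 0 ≤ C.Q ε - c ^ 2 / QE := by rw [← hsQ]; exact hCpsd _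
  -- pointwise bound
  set Mx := β * (2 * nsq ε + 2 * s ^ 2 * κ) with hMx
  have hMx0 : 0 ≤ Mx := by
    have := nsq_nonneg ε
    positivity
  set Z : Set (V d) := {x : V d | ∃ i, pd (x i) ≤ D.h} with hZdef
  have hZm : MeasurableSet Z := measSet_near _
  have hpt : ∀ x, (T x).Q (ε + sg u.u x) ≤
      (C.Q ε - c ^ 2 / QE) + Z.indicator (fun _ => Mx) x := by
    intro x
    by_cases hx : ∀ i, D.h ≤ pd (x i)
    · have h1 : T x = C := hG.blk x (Or.inl hx)
      have h2 : ε + sg u.u x = ε - s • dg B.E := by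
        rw [hsgu]
        unfold sg
        rw [hBa x hx, symm_neg, symm_dg, smul_neg, sub_eq_add_neg]
        subst hDB
        rfl
      rw [h1, h2, hsQ]
      have : 0 ≤ Z.indicator (fun _ => Mx) x := Set.indicator_nonneg (fun _ _ => hMx0) x
      linarith
    · have hxZ : x ∈ Z := by
        push Not at hx
        obtain ⟨i, hi⟩ := hx
        exact ⟨i, hi.le⟩
      rw [Set.indicator_of_mem hxZ, hsgu]
      have := off_bd (α := α) hβ.le hK1 hK3 hDB hL0 hF hLs hG hT hBb hSa hSb hGG hZ ε s x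
      linarith
  have hcell : volume (cell d) = 1 := hE.vol
  have hfin : IsFiniteMeasure (volume.restrict (cell d)) := ⟨by simp [hE.vol]⟩
  have hvZ := hV D D.h (by unfold Dat.h Dat.w; positivity)
  have hint : IntegrableOn (fun x => (T x).Q (ε + sg u.u x)) (cell d) := hE.int T β hT ε u
  have hind : IntegrableOn (Z.indicator fun _ => Mx) (cell d) :=
    (integrable_const Mx).indicator hZm
  calc eff T ε ≤ energy T ε u := hE.eff_le T β hT ε u
    _ ≤ ∫ x in cell d, ((C.Q ε - c ^ 2 / QE) + Z.indicator (fun _ => Mx) x) := by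
        unfold energy
        exact integral_mono hint ((integrable_const _).add hind) hpt
    _ = (C.Q ε - c ^ 2 / QE) + Mx * frac Z := by
        rw [integral_add (integrable_const _) hind, integral_indicator hZm, integral_const,
          integral_const]
        simp only [smul_eq_mul, Measure.real, Measure.restrict_restrict hZm,
          Measure.restrict_apply_univ, hE.vol, frac]
        simp [mul_comm]
    _ ≤ C.Q ε - c ^ 2 / QE + β * (2 + 2 * κs * κ) * (2 * d) * D.w * nsq ε := by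
        have h1 : Mx ≤ β * (2 + 2 * κs * κ) * nsq ε := by
          rw [hMx]
          have : 2 * s ^ 2 * κ ≤ 2 * (κs * nsq ε) * κ := by
            have := mul_le_mul_of_nonneg_right hs2 hκ0
            linarith
          have := mul_le_mul_of_nonneg_left this hβ.le
          linarith
        have hhw : D.h ≤ D.w := by
          unfold Dat.h
          have hJ : (1 : ℝ) ≤ D.J := by exact_mod_cast D.Jpos
          have hw : 0 ≤ D.w := by unfold Dat.w; positivity
          rw [div_le_iff₀ (by positivity)]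
          nlinarith
        have h2 : frac Z ≤ 2 * d * D.w := hvZ.trans (by
          have : (0 : ℝ) ≤ 2 * d := by positivity
          exact mul_le_mul_of_nonneg_left hhw this)
        have h3 : 0 ≤ frac Z := ENNReal.toReal_nonneg
        have h4 : Mx * frac Z ≤ β * (2 + 2 * κs * κ) * nsq ε * (2 * d * D.w) :=
          mul_le_mul h1 h2 h3 (by
            have := nsq_nonneg ε
            positivity)
        nlinarith

end Pool.Agent.Lib.MP_5df1bf_an
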