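import Pool.Agent.Lib.MP_5df1bf_an.Stmts2
import Pool.Agent.Lib.MP_5df1bf_an.BaseE

/-!
# MP_5df1bf_an: C1, the weak divergence identity
-/

open MeasureTheory Filter Topology
open scoped BigOperators ContDiff

noncomputable section

namespace Pool.Agent.Lib.MP_5df1bf_an

variable {d : ℕ}

namespace WeakAux

/-- smooth periodic functions -/
structure SP (f : V d → ℝ) : Prop where
  sm : ContDiff ℝ ∞ f
  per : Per f

theorem SP.diff {f : V d → ℝ} (h : SP f) : Differentiable ℝ f := h.sm.differentiable (by simp)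

theorem SP.mul {f g : V d → ℝ} (hf : SP f) (hg : SP g) : SP fun x => f x * g x :=
  ⟨hf.sm.mul hg.sm, fun x i => by simp only [hf.per x i, hg.per x i]⟩

theorem SP.add {f g : V d → ℝ} (hf : SP f) (hg : SP g) : SP fun x => f x + g x :=
  ⟨hf.sm.add hg.sm, fun x i => by simp only [hf.per x i, hg.per x i]⟩

theorem SP.const (c : ℝ) : SP fun _ : V d => c := ⟨contDiff_const, fun _ _ => rfl⟩

theorem SP.coord {g : ℝ → ℝ} (hg : ContDiff ℝ ∞ g) (hp : ∀ t, g (t + 1) = g t) (k : Fin d) :
    SP fun x : V d => g (x k) := by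
  refine ⟨hg.comp (contDiff_apply ℝ ℝ k), fun x i => ?_⟩
  by_cases h : k = i
  · subst h
    simp only [Pi.add_apply, Pi.single_eq_same, hp]
  · simp only [Pi.add_apply, Pi.single_eq_of_ne h, add_zero]

theorem SP.der {f : V d → ℝ} (hf : SP f) (v : V d) : SP fun x => fderiv ℝ f x v := by
  refine ⟨?_, ?_⟩
  · exact (hf.sm.fderiv_right (m := ∞) (by simp)).clm_apply contDiff_const
  · intro x i
    have h1 : (fun y => f (y + Pi.single i 1)) = f := funext fun y => hf.per y i
    have h2 : fderiv ℝ f (x + Pi.single i 1) = fderiv ℝ f x := by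
      conv_rhs => rw [← h1]
      rw [fderiv_comp_add_right]
    show fderiv ℝ f (x + Pi.single i 1) v = fderiv ℝ f x v
    rw [h2]

theorem SP.intble {f : V d → ℝ} (hf : SP f) : IntegrableOn f (cell d) :=
  integrableOn_cell_of_continuous hf.sm.continuous

theorem vec_sum (v : V d) : v = ∑ m, v m • (Pi.single m (1 : ℝ) : V d) := by
  funext i
  rw [Finset.sum_apply, Finset.sum_eq_single i]
  · simp
  · intro m _ hm
    simp [Pi.single_eq_of_ne (Ne.symm hm)]
  · intro h
    exact absurd (Finset.mem_univ _) h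

theorem SP.int_zero (hP : StmtParts d) {f : V d → ℝ} (hf : SP f) (v : V d) :
    ∫ x in cell d, fderiv ℝ f x v = 0 := by
  have h1 : ∀ x, fderiv ℝ f x v = ∑ m, v m * fderiv ℝ f x (Pi.single m 1) := by
    intro x
    conv_lhs => rw [vec_sum v]
    rw [map_sum]
    refine Finset.sum_congr rfl fun m _ => ?_
    rw [map_smul, smul_eq_mul]
  simp only [h1]
  rw [integral_finsetSum]
  · refine Finset.sum_eq_zero fun m _ => ?_
    rw [integral_const_mul, hP f (hf.sm.of_le (by simp)) hf.per m, mul_zero]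
  · intro m _
    exact (hf.der _).intble.const_mul _

theorem fderiv_mul_ap {f g : V d → ℝ} (hf : SP f) (hg : SP g) (x v : V d) :
    fderiv ℝ (fun y => f y * g y) x v = f x * fderiv ℝ g x v + g x * fderiv ℝ f x v := by
  have h := fderiv_fun_mul (hf.diff x) (hg.diff x)
  rw [h]
  simp

theorem fderiv_add_ap {f g : V d → ℝ} (hf : SP f) (hg : SP g) (x v : V d) :
    fderiv ℝ (fun y => f y + g y) x v = fderiv ℝ f x v + fderiv ℝ g x v := by
  have h := fderiv_fun_add (hf.diff x) (hg.diff x)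
  rw [h]
  simp

theorem fderiv_const_ap (c : ℝ) (x v : V d) : fderiv ℝ (fun _ : V d => c) x v = 0 := by
  rw [fderiv_fun_const]
  rfl

theorem fderiv_coord_ap {g : ℝ → ℝ} (hg : ContDiff ℝ ∞ g) (k : Fin d) (x v : V d) :
    fderiv ℝ (fun y : V d => g (y k)) x v = deriv g (x k) * v k := by
  have h1 : HasFDerivAt (fun y : V d => y k) (ContinuousLinearMap.proj (R := ℝ) k) x :=
    hasFDerivAt_apply k x
  have h2 : HasDerivAt g (deriv g (x k)) (x k) :=
    ((hg.differentiable (by simp)) (x k)).hasDerivAt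
  have h3 := h2.comp_hasFDerivAt x h1
  have h4 : fderiv ℝ (fun y : V d => g (y k)) x =
      deriv g (x k) • (ContinuousLinearMap.proj (R := ℝ) k : V d →L[ℝ] ℝ) := h3.fderiv
  rw [h4]
  simp

theorem deriv_per {g : ℝ → ℝ} (hp : ∀ t, g (t + 1) = g t) (t : ℝ) :
    deriv g (t + 1) = deriv g t := by
  have h1 : (fun s => g (s + 1)) = g := funext hp
  conv_rhs => rw [← h1]
  rw [deriv_comp_add_const]

theorem deriv_sm {g : ℝ → ℝ} (hg : ContDiff ℝ ∞ g) : ContDiff ℝ ∞ (deriv g) := by
  have := (contDiff_infty_iff_deriv (𝕜 := ℝ)).1 hg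
  exact this.2

/-- invariance along a direction -/
theorem inv_zero {f : V d → ℝ} (hf : Differentiable ℝ f) (U : V d)
    (h : ∀ x (t : ℝ), f (x + t • U) = f x) (x : V d) : fderiv ℝ f x U = 0 := by
  have h1 : HasFDerivAt f (fderiv ℝ f x) (x + (0 : ℝ) • U) := by
    rw [zero_smul, add_zero]
    exact (hf x).hasFDerivAt
  have h2 : HasDerivAt (fun t : ℝ => x + t • U) U 0 := by
    have := ((hasDerivAt_id (0 : ℝ)).smul_const U).const_add x
    simpa using this
  have h3 := h1.comp_hasDerivAt (0 : ℝ) h2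
  have h4 : (f ∘ fun t : ℝ => x + t • U) = fun _ => f x := funext fun t => h x t
  rw [h4] at h3
  exact (h3.unique (hasDerivAt_const (0 : ℝ) (f x)))

theorem inv_der {f : V d → ℝ} (U : V d) (h : ∀ x (t : ℝ), f (x + t • U) = f x) (v : V d) :
    ∀ x (t : ℝ), fderiv ℝ f (x + t • U) v = fderiv ℝ f x v := by
  intro x t
  have h1 : (fun y => f (y + t • U)) = f := funext fun y => h y t
  have h2 : fderiv ℝ f (x + t • U) = fderiv ℝ f x := by
    conv_rhs => rw [← h1]
    rw [fderiv_comp_add_right]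
  rw [h2]

/-- the gradient tested with a rank one matrix -/
theorem ip_rank_one (a b : V d) (u : V d → V d) (x : V d) :
    ip (fun i m => a i * b m) (grad u x) = dot a (fderiv ℝ u x b) := by
  unfold ip grad dot
  refine Finset.sum_congr rfl fun i _ => ?_
  conv_rhs => rw [vec_sum b]
  rw [map_sum, Finset.sum_apply, Finset.mul_sum]
  refine Finset.sum_congr rfl fun m _ => ?_
  rw [map_smul, Pi.smul_apply, smul_eq_mul]
  ring

theorem ipoG (a : V d) (u : V d → V d) (x : V d) :
    ip (oo a) (grad u x) = dot a (fderiv ℝ u x a) := ip_rank_one a a u x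

theorem ipsdG (a b : V d) (u : V d → V d) (x : V d) :
    ip (sd a b) (grad u x) = (dot a (fderiv ℝ u x b) + dot b (fderiv ℝ u x a)) / 2 := by
  rw [← ip_rank_one a b u x, ← ip_rank_one b a u x]
  unfold ip sd
  rw [← Finset.sum_add_distrib, Finset.sum_div]
  refine Finset.sum_congr rfl fun i _ => ?_
  rw [← Finset.sum_add_distrib, Finset.sum_div]
  refine Finset.sum_congr rfl fun m _ => ?_
  ring

theorem dot_e (l : Fin d) (v : V d) : dot (Pi.single l 1) v = v l := by
  unfold dot
  rw [Finset.sum_eq_single l]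
  · simp
  · intro m _ hm
    simp [Pi.single_eq_of_ne hm]
  · intro h
    exact absurd (Finset.mem_univ _) h

theorem comp_SP (u : Disp d) (i : Fin d) : SP fun y => u.u y i :=
  ⟨(contDiff_apply ℝ ℝ i).comp u.smooth, fun x m => by
    show u.u (x + Pi.single m 1) i = u.u x i
    rw [u.per x m]⟩

theorem dot_SP (u : Disp d) (a : V d) : SP fun y => dot a (u.u y) := by
  refine ⟨?_, fun x m => ?_⟩
  · unfold dot
    exact ContDiff.sum fun i _ => contDiff_const.mul (comp_SP u i).sm
  · show dot a (u.u (x + Pi.single m 1)) = dot a (u.u x)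
    rw [u.per x m]

theorem fderiv_comp_ap (u : Disp d) (i : Fin d) (x v : V d) :
    fderiv ℝ (fun y => u.u y i) x v = fderiv ℝ u.u x v i := by
  have h1 := (disp_diff u x).hasFDerivAt
  have h2 := ((hasFDerivAt_pi').1 h1) i
  have h3 : fderiv ℝ (fun y => u.u y i) x =
      (ContinuousLinearMap.proj i).comp (fderiv ℝ u.u x) := h2.fderiv
  rw [h3]
  rfl

theorem fderiv_dot_ap (u : Disp d) (a : V d) (x v : V d) :
    fderiv ℝ (fun y => dot a (u.u y)) x v = dot a (fderiv ℝ u.u x v) := by
  have h1 : (fun y => dot a (u.u y)) = fun y => ∑ i, a i * u.u y i := rfl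
  rw [h1]
  have h2 : HasFDerivAt (fun y => ∑ i, a i * u.u y i)
      (∑ i, a i • fderiv ℝ (fun y => u.u y i) x) x := by
    have := HasFDerivAt.fun_sum (u := Finset.univ) (A := fun i y => a i * u.u y i)
      (A' := fun i => a i • fderiv ℝ (fun y => u.u y i) x) (x := x) (fun i _ =>
        (((comp_SP u i).diff x).hasFDerivAt).const_mul (a i))
    exact this
  rw [h2.fderiv]
  unfold dot
  simp only [sum_apply, smul_apply, smul_eq_mul,
    fderiv_comp_ap]

/-- shifted densities -/
theorem shift_SP {P s : V d → ℝ} (hP : SP P) (hs : SP s) (e : V d) :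
    SP fun x => P (x - s x • e) := by
  refine ⟨hP.sm.comp (contDiff_id.sub (hs.sm.smul contDiff_const)), fun x i => ?_⟩
  show P (x + Pi.single i 1 - s (x + Pi.single i 1) • e) = P (x - s x • e)
  rw [hs.per x i]
  have : x + Pi.single i 1 - s x • e = x - s x • e + Pi.single i 1 := by abel
  rw [this, hP.per]

theorem fderiv_shift_ap {P s : V d → ℝ} (hP : SP P) (hs : SP s) (e x v : V d) :
    fderiv ℝ (fun x => P (x - s x • e)) x v =
      fderiv ℝ P (x - s x • e) (v - fderiv ℝ s x v • e) := by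
  have h1 : HasFDerivAt (fun x : V d => x - s x • e)
      (ContinuousLinearMap.id ℝ (V d) - (fderiv ℝ s x).smulRight e) x :=
    (hasFDerivAt_id x).sub ((hs.diff x).hasFDerivAt.smul_const e)
  have h2 := ((hP.diff (x - s x • e)).hasFDerivAt).comp x h1
  have h3 : fderiv ℝ (fun x => P (x - s x • e)) x = (fderiv ℝ P (x - s x • e)).comp
      (ContinuousLinearMap.id ℝ (V d) - (fderiv ℝ s x).smulRight e) := h2.fderiv
  rw [h3]
  rfl

theorem single_eq (l : Fin d) (c : ℝ) : (Pi.single l c : V d) = c • Pi.single l 1 := by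
  funext i
  by_cases h : i = l
  · subst h; simp
  · simp [Pi.single_eq_of_ne h]

theorem int7 {μ : Measure (V d)} {f1 f2 f3 f4 f5 f6 f7 : V d → ℝ} (c2 c3 c4 : ℝ)
    (h1 : Integrable f1 μ) (h2 : Integrable f2 μ) (h3 : Integrable f3 μ) (h4 : Integrable f4 μ)
    (h5 : Integrable f5 μ) (h6 : Integrable f6 μ) (h7 : Integrable f7 μ)
    (z1 : ∫ x, f1 x ∂μ = 0) (z2 : ∫ x, f2 x ∂μ = 0) (z3 : ∫ x, f3 x ∂μ = 0)
    (z4 : ∫ x, f4 x ∂μ = 0) (z5 : ∫ x, f5 x ∂μ = 0) (z6 : ∫ x, f6 x ∂μ = 0)
    (z7 : ∫ x, f7 x ∂μ = 0) :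
    ∫ x, (f1 x - c2 * f2 x - c3 * f3 x + c4 * f4 x + f5 x + f6 x - f7 x) ∂μ = 0 := by
  have a2 : Integrable (fun x => c2 * f2 x) μ := h2.const_mul c2
  have a3 : Integrable (fun x => c3 * f3 x) μ := h3.const_mul c3
  have a4 : Integrable (fun x => c4 * f4 x) μ := h4.const_mul c4
  have e : (fun x => f1 x - c2 * f2 x - c3 * f3 x + c4 * f4 x + f5 x + f6 x - f7 x) =
      ((((((f1 - (fun x => c2 * f2 x)) - (fun x => c3 * f3 x)) + (fun x => c4 * f4 x)) + f5) + f6)
        - f7) := rfl
  rw [e, integral_sub' (((((h1.sub a2).sub a3).add a4).add h5).add h6) h7,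
    integral_add' ((((h1.sub a2).sub a3).add a4).add h5) h6,
    integral_add' (((h1.sub a2).sub a3).add a4) h5,
    integral_add' ((h1.sub a2).sub a3) a4,
    integral_sub' (h1.sub a2) a3, integral_sub' h1 a2,
    integral_const_mul, integral_const_mul, integral_const_mul, z1, z2, z3, z4, z5, z6, z7]
  ring

end WeakAux

open WeakAux

theorem Weak_ok (d : ℕ) (hP : StmtParts d) : StmtWeak d := by
  intro D K η hPr hLi L hL j u
  set U : V d := zv (D.u j) with hU
  -- smooth periodic functions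
  have sr : SP (D.r j) := ⟨hLi.r_sm j, hLi.r_per j⟩
  have sG : ∀ k, SP (D.G k j) := fun k => ⟨hLi.G_sm k j, hLi.G_per k j⟩
  have sPd : ∀ k, SP (D.P k j) := fun k => ⟨hLi.P_sm k j, hLi.P_per k j⟩
  have s1 : ∀ k, SP fun x => fderiv ℝ (D.G k j) x (Pi.single (D.l k) 1) := fun k => (sG k).der _
  have s2 : ∀ k, SP fun x => fderiv ℝ (fun y => fderiv ℝ (D.G k j) y (Pi.single (D.l k) 1)) x
      (Pi.single (D.l k) 1) := fun k => (s1 k).der _
  have p0 : ∀ k, SP fun x : V d => D.psi (x k) := fun k => SP.coord hPr.psi_sm hPr.psi_per k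
  have p1 : ∀ k, SP fun x : V d => deriv D.psi (x k) := fun k =>
    SP.coord (deriv_sm hPr.psi_sm) (deriv_per hPr.psi_per) k
  have p2 : ∀ k, SP fun x : V d => deriv (deriv D.psi) (x k) := fun k =>
    SP.coord (deriv_sm (deriv_sm hPr.psi_sm)) (deriv_per (deriv_per hPr.psi_per)) k
  have m0 : ∀ k, SP fun x : V d => D.mu (x k) := fun k => SP.coord hPr.mu_sm hPr.mu_per k
  have m1 : ∀ k, SP fun x : V d => deriv D.mu (x k) := fun k =>
    SP.coord (deriv_sm hPr.mu_sm) (deriv_per hPr.mu_per) k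
  have m2 : ∀ k, SP fun x : V d => deriv (deriv D.mu) (x k) := fun k =>
    SP.coord (deriv_sm (deriv_sm hPr.mu_sm)) (deriv_per (deriv_per hPr.mu_per)) k
  have hsh : ∀ k, SP fun x : V d => D.sh L k x := fun k => (SP.const _).mul (m0 k)
  have hxs : ∀ k x, D.xs L k x = x - D.sh L k x • (Pi.single (D.l k) 1 : V d) := by
    intro k x
    unfold Dat.xs
    rw [single_eq]
  have sPt : ∀ k, SP fun x => D.P k j (D.xs L k x) := by
    intro k
    have := shift_SP (sPd k) (hsh k) (Pi.single (D.l k) 1 : V d)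
    simpa only [← hxs] using this
  have sU := dot_SP u U
  have sl : ∀ k, SP fun y => u.u y (D.l k) := fun k => comp_SP u (D.l k)
  -- the functions
  set c : Fin d → ℝ := fun k => (D.kk k : ℝ) / L * D.u j k with hc
  have sc : ∀ k, SP fun x : V d => c k * deriv D.mu (x k) := fun k => (SP.const _).mul (m1 k)
  have F0 : SP fun x => D.r j x * dot U (u.u x) := sr.mul sU
  have F1 : ∀ k, SP fun x => D.psi (x k) * (fderiv ℝ (fun y => fderiv ℝ (D.G k j) y
      (Pi.single (D.l k) 1)) x (Pi.single (D.l k) 1) * dot U (u.u x)) := fun k =>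
    (p0 k).mul ((s2 k).mul sU)
  have F2 : ∀ k, SP fun x => deriv D.psi (x k) * (fderiv ℝ (D.G k j) x (Pi.single (D.l k) 1) *
      dot U (u.u x)) := fun k => (p1 k).mul ((s1 k).mul sU)
  have F3 : ∀ k, SP fun x => deriv D.psi (x k) * (fderiv ℝ (D.G k j) x (Pi.single (D.l k) 1) *
      u.u x (D.l k)) := fun k => (p1 k).mul ((s1 k).mul (sl k))
  have F4 : ∀ k, SP fun x => deriv (deriv D.psi) (x k) * (D.G k j x * u.u x (D.l k)) := fun k =>
    (p2 k).mul ((sG k).mul (sl k))
  have F5i : ∀ k, SP fun x => dot U (u.u x) + c k * deriv D.mu (x k) * u.u x (D.l k) := fun k =>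
    sU.add ((sc k).mul (sl k))
  have F5 : ∀ k, SP fun x => D.P k j (D.xs L k x) *
      (dot U (u.u x) + c k * deriv D.mu (x k) * u.u x (D.l k)) := fun k => (sPt k).mul (F5i k)
  have F6 : ∀ k, SP fun x => c k * deriv D.mu (x k) * (D.P k j (D.xs L k x) *
      (dot U (u.u x) + c k * deriv D.mu (x k) * u.u x (D.l k))) := fun k => (sc k).mul (F5 k)
  have F7 : ∀ k, SP fun x => D.P k j x * dot U (u.u x) := fun k => (sPd k).mul sU
  -- the total divergence
  set Phi : V d → ℝ := fun x =>
    fderiv ℝ (fun x => D.r j x * dot U (u.u x)) x U +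
    ∑ k, (fderiv ℝ (fun x => D.psi (x k) * (fderiv ℝ (fun y => fderiv ℝ (D.G k j) y
        (Pi.single (D.l k) 1)) x (Pi.single (D.l k) 1) * dot U (u.u x))) x U -
      D.u j k * fderiv ℝ (fun x => deriv D.psi (x k) * (fderiv ℝ (D.G k j) x
        (Pi.single (D.l k) 1) * dot U (u.u x))) x (Pi.single (D.l k) 1) -
      D.u j k * fderiv ℝ (fun x => deriv D.psi (x k) * (fderiv ℝ (D.G k j) x
        (Pi.single (D.l k) 1) * u.u x (D.l k))) x U +
      (D.u j k : ℝ) ^ 2 * fderiv ℝ (fun x => deriv (deriv D.psi) (x k) *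
        (D.G k j x * u.u x (D.l k))) x (Pi.single (D.l k) 1) +
      fderiv ℝ (fun x => D.P k j (D.xs L k x) *
        (dot U (u.u x) + c k * deriv D.mu (x k) * u.u x (D.l k))) x U +
      fderiv ℝ (fun x => c k * deriv D.mu (x k) * (D.P k j (D.xs L k x) *
        (dot U (u.u x) + c k * deriv D.mu (x k) * u.u x (D.l k)))) x (Pi.single (D.l k) 1) -
      fderiv ℝ (fun x => D.P k j x * dot U (u.u x)) x U) with hPhi
  -- integrability
  have iB : ∀ k, IntegrableOn (fun x => D.bf L k j x * u.u x (D.l k)) (cell d) := by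
    intro k
    have : SP fun x => D.bf L k j x * u.u x (D.l k) := by
      have h := (((SP.const ((D.kk k : ℝ) / L * (D.u j k : ℝ) ^ 2)).mul (m2 k)).mul
        (sPt k)).mul (sl k)
      exact h
    exact this.intble
  have iS : ∀ k, IntegrableOn (fun x =>
      (fderiv ℝ (fun x => D.psi (x k) * (fderiv ℝ (fun y => fderiv ℝ (D.G k j) y
        (Pi.single (D.l k) 1)) x (Pi.single (D.l k) 1) * dot U (u.u x))) x U -
      D.u j k * fderiv ℝ (fun x => deriv D.psi (x k) * (fderiv ℝ (D.G k j) x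
        (Pi.single (D.l k) 1) * dot U (u.u x))) x (Pi.single (D.l k) 1) -
      D.u j k * fderiv ℝ (fun x => deriv D.psi (x k) * (fderiv ℝ (D.G k j) x
        (Pi.single (D.l k) 1) * u.u x (D.l k))) x U +
      (D.u j k : ℝ) ^ 2 * fderiv ℝ (fun x => deriv (deriv D.psi) (x k) *
        (D.G k j x * u.u x (D.l k))) x (Pi.single (D.l k) 1) +
      fderiv ℝ (fun x => D.P k j (D.xs L k x) *
        (dot U (u.u x) + c k * deriv D.mu (x k) * u.u x (D.l k))) x U +
      fderiv ℝ (fun x => c k * deriv D.mu (x k) * (D.P k j (D.xs L k x) *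
        (dot U (u.u x) + c k * deriv D.mu (x k) * u.u x (D.l k)))) x (Pi.single (D.l k) 1) -
      fderiv ℝ (fun x => D.P k j x * dot U (u.u x)) x U)) (cell d) := by
    intro k
    exact (((((((F1 k).der _).intble.sub (((F2 k).der _).intble.const_mul _)).sub
      (((F3 k).der _).intble.const_mul _)).add (((F4 k).der _).intble.const_mul _)).add
      ((F5 k).der _).intble).add ((F6 k).der _).intble).sub ((F7 k).der _).intble
  have iPhi : IntegrableOn Phi (cell d) := by
    rw [hPhi]
    exact (F0.der _).intble.add (integrable_finsetSum _ fun k _ => iS k)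
  have zPhi : ∫ x in cell d, Phi x = 0 := by
    rw [hPhi, integral_add (F0.der _).intble (integrable_finsetSum _ fun k _ => iS k),
      F0.int_zero hP, zero_add, integral_finsetSum _ fun k _ => iS k]
    refine Finset.sum_eq_zero fun k _ => ?_
    exact int7 _ _ _ ((F1 k).der U).intble ((F2 k).der (Pi.single (D.l k) 1)).intble
      ((F3 k).der U).intble ((F4 k).der (Pi.single (D.l k) 1)).intble ((F5 k).der U).intble
      ((F6 k).der (Pi.single (D.l k) 1)).intble ((F7 k).der U).intble
      ((F1 k).int_zero hP _) ((F2 k).int_zero hP _) ((F3 k).int_zero hP _)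
      ((F4 k).int_zero hP _) ((F5 k).int_zero hP _) ((F6 k).int_zero hP _)
      ((F7 k).int_zero hP _)
  -- the pointwise identity
  have hne : ∀ k, k ≠ D.l k := fun k h => D.l_ne k h.symm
  have key : ∀ x, ip (D.Tj L j x) (grad u.u x) =
      Phi x - ∑ k, D.bf L k j x * u.u x (D.l k) := by
    intro x
    have r0 : fderiv ℝ (D.r j) x U = 0 := inv_zero sr.diff U (hLi.r_u j) x
    have t0 : fderiv ℝ (fun x => D.r j x * dot U (u.u x)) x U =
        D.r j x * dot U (fderiv ℝ u.u x U) := by
      rw [fderiv_mul_ap sr sU, fderiv_dot_ap, r0]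
      ring
    have t7 : ∀ k, fderiv ℝ (fun x => D.P k j x * dot U (u.u x)) x U =
        D.P k j x * dot U (fderiv ℝ u.u x U) := by
      intro k
      rw [fderiv_mul_ap (sPd k) sU, fderiv_dot_ap, inv_zero (sPd k).diff U (hLi.P_u k j) x]
      ring
    have hk : ∀ k, (Pi.single (D.l k) (1 : ℝ) : V d) k = 0 := fun k =>
      Pi.single_eq_of_ne (hne k) 1
    have hUk : ∀ k, U k = D.u j k := fun k => rfl
    have tb : ∀ k,
      ip ((D.psi (x k) * (D.P k j x - D.r j x)) • oo U) (grad u.u x) -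
      ip ((2 * D.u j k * deriv D.psi (x k) * fderiv ℝ (D.G k j) x (Pi.single (D.l k) 1)) •
        sd U (Pi.single (D.l k) 1)) (grad u.u x) +
      ip (((D.u j k : ℝ) ^ 2 * deriv (deriv D.psi) (x k) * D.G k j x) •
        oo (Pi.single (D.l k) 1)) (grad u.u x) =
      fderiv ℝ (fun x => D.psi (x k) * (fderiv ℝ (fun y => fderiv ℝ (D.G k j) y
        (Pi.single (D.l k) 1)) x (Pi.single (D.l k) 1) * dot U (u.u x))) x U -
      D.u j k * fderiv ℝ (fun x => deriv D.psi (x k) * (fderiv ℝ (D.G k j) x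
        (Pi.single (D.l k) 1) * dot U (u.u x))) x (Pi.single (D.l k) 1) -
      D.u j k * fderiv ℝ (fun x => deriv D.psi (x k) * (fderiv ℝ (D.G k j) x
        (Pi.single (D.l k) 1) * u.u x (D.l k))) x U +
      (D.u j k : ℝ) ^ 2 * fderiv ℝ (fun x => deriv (deriv D.psi) (x k) *
        (D.G k j x * u.u x (D.l k))) x (Pi.single (D.l k) 1) := by
      intro k
      have g0 := hLi.G_u k j
      have g1 := inv_der U g0 (Pi.single (D.l k) 1)
      have g2 := inv_der (f := fun y => fderiv ℝ (D.G k j) y (Pi.single (D.l k) 1)) U g1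
        (Pi.single (D.l k) 1)
      have z1 := inv_zero (s1 k).diff U g1 x
      have z2 := inv_zero (s2 k).diff U g2 x
      rw [fderiv_mul_ap (p0 k) ((s2 k).mul sU), fderiv_mul_ap (s2 k) sU,
        fderiv_mul_ap (p1 k) ((s1 k).mul sU), fderiv_mul_ap (s1 k) sU,
        fderiv_mul_ap (p1 k) ((s1 k).mul (sl k)), fderiv_mul_ap (s1 k) (sl k),
        fderiv_mul_ap (p2 k) ((sG k).mul (sl k)), fderiv_mul_ap (sG k) (sl k),
        fderiv_coord_ap hPr.psi_sm, fderiv_coord_ap (deriv_sm hPr.psi_sm),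
        fderiv_coord_ap (deriv_sm hPr.psi_sm),
        fderiv_coord_ap (deriv_sm (deriv_sm hPr.psi_sm)),
        fderiv_dot_ap, fderiv_dot_ap, fderiv_comp_ap, fderiv_comp_ap, z1, z2, hk, hUk,
        ip_smul_left, ip_smul_left, ip_smul_left, ipoG, ipsdG, ipoG, dot_e, dot_e,
        hLi.P_eq k j x]
      ring
    have tc : ∀ k,
      ip (D.P k j (D.xs L k x) • oo (D.gv L k j x) - D.P k j x • oo U) (grad u.u x) =
      fderiv ℝ (fun x => D.P k j (D.xs L k x) *
        (dot U (u.u x) + c k * deriv D.mu (x k) * u.u x (D.l k))) x U +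
      fderiv ℝ (fun x => c k * deriv D.mu (x k) * (D.P k j (D.xs L k x) *
        (dot U (u.u x) + c k * deriv D.mu (x k) * u.u x (D.l k)))) x (Pi.single (D.l k) 1) -
      fderiv ℝ (fun x => D.P k j x * dot U (u.u x)) x U - D.bf L k j x * u.u x (D.l k) := by
      intro k
      have hgv : D.gv L k j x = U + (c k * deriv D.mu (x k)) • (Pi.single (D.l k) 1 : V d) := by
        unfold Dat.gv
        rw [single_eq]
      -- derivative of the shifted density along `gv`
      have hder : ∀ v, fderiv ℝ (fun x => D.P k j (D.xs L k x)) x v =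
          fderiv ℝ (D.P k j) (D.xs L k x) (v - ((D.kk k : ℝ) / L * (deriv D.mu (x k) * v k)) •
            (Pi.single (D.l k) 1 : V d)) := by
        intro v
        have h1 := fderiv_shift_ap (sPd k) (hsh k) (Pi.single (D.l k) 1 : V d) x v
        simp only [← hxs] at h1
        rw [h1]
        have h2 : fderiv ℝ (fun x : V d => D.sh L k x) x v =
            (D.kk k : ℝ) / L * (deriv D.mu (x k) * v k) := by
          unfold Dat.sh
          rw [fderiv_mul_ap (SP.const _) (m0 k), fderiv_coord_ap hPr.mu_sm, fderiv_const_ap]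
          ring
        have h3 : fderiv ℝ (D.sh L k) x v = (D.kk k : ℝ) / L * (deriv D.mu (x k) * v k) := h2
        rw [h3]
      have hzero : fderiv ℝ (fun x => D.P k j (D.xs L k x)) x (D.gv L k j x) = 0 := by
        rw [hder]
        have h1 : D.gv L k j x - ((D.kk k : ℝ) / L * (deriv D.mu (x k) * D.gv L k j x k)) •
            (Pi.single (D.l k) 1 : V d) = U := by
          rw [hgv]
          simp only [Pi.add_apply, Pi.smul_apply, hk, smul_zero, add_zero, hUk, hc]
          rw [add_sub_assoc, ← sub_smul]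
          have : (D.kk k : ℝ) / L * (D.u j k : ℝ) * deriv D.mu (x k) -
              (D.kk k : ℝ) / L * (deriv D.mu (x k) * (D.u j k : ℝ)) = 0 := by ring
          rw [this, zero_smul, add_zero]
        rw [h1]
        exact inv_zero (sPd k).diff U (hLi.P_u k j) _
      have hz2 : fderiv ℝ (fun x => D.P k j (D.xs L k x)) x U +
          c k * deriv D.mu (x k) * fderiv ℝ (fun x => D.P k j (D.xs L k x)) x
            (Pi.single (D.l k) 1) = 0 := by
        have h1 := hzero
        rw [hgv, map_add, map_smul, smul_eq_mul] at h1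
        exact h1
      have h5 : ∀ v, fderiv ℝ (fun x => D.P k j (D.xs L k x) *
          (dot U (u.u x) + c k * deriv D.mu (x k) * u.u x (D.l k))) x v =
          D.P k j (D.xs L k x) * (dot U (fderiv ℝ u.u x v) +
            (c k * deriv D.mu (x k) * fderiv ℝ u.u x v (D.l k) +
              u.u x (D.l k) * (c k * (deriv (deriv D.mu) (x k) * v k)))) +
          (dot U (u.u x) + c k * deriv D.mu (x k) * u.u x (D.l k)) *
            fderiv ℝ (fun x => D.P k j (D.xs L k x)) x v := by
        intro v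
        rw [fderiv_mul_ap (sPt k) (F5i k), fderiv_add_ap sU ((sc k).mul (sl k)),
          fderiv_mul_ap (sc k) (sl k), fderiv_mul_ap (SP.const _) (m1 k), fderiv_dot_ap,
          fderiv_comp_ap, fderiv_coord_ap (deriv_sm hPr.mu_sm), fderiv_const_ap]
        ring
      have h6 : fderiv ℝ (fun x => c k * deriv D.mu (x k) * (D.P k j (D.xs L k x) *
          (dot U (u.u x) + c k * deriv D.mu (x k) * u.u x (D.l k)))) x (Pi.single (D.l k) 1) =
          c k * deriv D.mu (x k) * fderiv ℝ (fun x => D.P k j (D.xs L k x) *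
          (dot U (u.u x) + c k * deriv D.mu (x k) * u.u x (D.l k))) x (Pi.single (D.l k) 1) := by
        rw [fderiv_mul_ap (sc k) (F5 k), fderiv_mul_ap (SP.const _) (m1 k),
          fderiv_coord_ap (deriv_sm hPr.mu_sm), fderiv_const_ap, hk]
        ring
      rw [h6, h5, h5, t7, ip_sub_left, ip_smul_left, ip_smul_left, ipoG, ipoG, hk]
      have h7 : dot (D.gv L k j x) (fderiv ℝ u.u x (D.gv L k j x)) =
          dot U (fderiv ℝ u.u x U) + c k * deriv D.mu (x k) *
            dot U (fderiv ℝ u.u x (Pi.single (D.l k) 1)) +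
          c k * deriv D.mu (x k) * (fderiv ℝ u.u x U (D.l k) + c k * deriv D.mu (x k) *
            fderiv ℝ u.u x (Pi.single (D.l k) 1) (D.l k)) := by
        rw [hgv, map_add, map_smul, dot_add_left, dot_smul_left, dot_e, dot_add_right,
          dot_smul_right, Pi.add_apply, Pi.smul_apply, smul_eq_mul]
      rw [h7, hUk]
      unfold Dat.bf
      simp only [hc] at hz2 ⊢
      linear_combination (-(dot U (u.u x) + (D.kk k : ℝ) / L * (D.u j k : ℝ) *
        deriv D.mu (x k) * u.u x (D.l k))) * hz2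
    unfold Dat.Tj
    rw [hPhi, ip_add_left, ip_add_left, ip_sub_left, ip_add_left, ip_sum_left, ip_sum_left,
      ip_sum_left, ip_sum_left]
    simp only []
    rw [t0, ip_smul_left, ipoG]
    have e1 : ∀ k, (fderiv ℝ (fun x => D.psi (x k) * (fderiv ℝ (fun y => fderiv ℝ (D.G k j) y
        (Pi.single (D.l k) 1)) x (Pi.single (D.l k) 1) * dot U (u.u x))) x U -
      D.u j k * fderiv ℝ (fun x => deriv D.psi (x k) * (fderiv ℝ (D.G k j) x
        (Pi.single (D.l k) 1) * dot U (u.u x))) x (Pi.single (D.l k) 1) -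
      D.u j k * fderiv ℝ (fun x => deriv D.psi (x k) * (fderiv ℝ (D.G k j) x
        (Pi.single (D.l k) 1) * u.u x (D.l k))) x U +
      (D.u j k : ℝ) ^ 2 * fderiv ℝ (fun x => deriv (deriv D.psi) (x k) *
        (D.G k j x * u.u x (D.l k))) x (Pi.single (D.l k) 1) +
      fderiv ℝ (fun x => D.P k j (D.xs L k x) *
        (dot U (u.u x) + c k * deriv D.mu (x k) * u.u x (D.l k))) x U +
      fderiv ℝ (fun x => c k * deriv D.mu (x k) * (D.P k j (D.xs L k x) *
        (dot U (u.u x) + c k * deriv D.mu (x k) * u.u x (D.l k)))) x (Pi.single (D.l k) 1) -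
      fderiv ℝ (fun x => D.P k j x * dot U (u.u x)) x U) =
      (ip ((D.psi (x k) * (D.P k j x - D.r j x)) • oo U) (grad u.u x) -
      ip ((2 * D.u j k * deriv D.psi (x k) * fderiv ℝ (D.G k j) x (Pi.single (D.l k) 1)) •
        sd U (Pi.single (D.l k) 1)) (grad u.u x) +
      ip (((D.u j k : ℝ) ^ 2 * deriv (deriv D.psi) (x k) * D.G k j x) •
        oo (Pi.single (D.l k) 1)) (grad u.u x)) +
      (ip (D.P k j (D.xs L k x) • oo (D.gv L k j x) - D.P k j x • oo U) (grad u.u x) +
        D.bf L k j x * u.u x (D.l k)) := by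
      intro k
      rw [tb, tc]
      ring
    simp only [e1]
    simp only [Finset.sum_add_distrib, Finset.sum_sub_distrib]
    ring
  simp only [key]
  rw [integral_sub iPhi (integrable_finsetSum _ fun k _ => iB k), zPhi, zero_sub,
    integral_finsetSum _ fun k _ => iB k]

end Pool.Agent.Lib.MP_5df1bf_an
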