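import Pool.Agent.Lib.MP_5df1bf_an.Avg
import Pool.Agent.Lib.MP_5df1bf_an.Bar
import Pool.Agent.Lib.MP_5df1bf_an.BaseE
import Pool.Agent.Lib.MP_5df1bf_an.Close
import Pool.Agent.Lib.MP_5df1bf_an.CombOk
import Pool.Agent.Lib.MP_5df1bf_an.Cov
import Pool.Agent.Lib.MP_5df1bf_an.Crude
import Pool.Agent.Lib.MP_5df1bf_an.DatOk
import Pool.Agent.Lib.MP_5df1bf_an.Dense
import Pool.Agent.Lib.MP_5df1bf_an.EasyDisp
import Pool.Agent.Lib.MP_5df1bf_an.EasyS
import Pool.Agent.Lib.MP_5df1bf_an.EasyZ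
import Pool.Agent.Lib.MP_5df1bf_an.Eff
import Pool.Agent.Lib.MP_5df1bf_an.Exact
import Pool.Agent.Lib.MP_5df1bf_an.Fib
import Pool.Agent.Lib.MP_5df1bf_an.Final
import Pool.Agent.Lib.MP_5df1bf_an.Gad
import Pool.Agent.Lib.MP_5df1bf_an.GadFld
import Pool.Agent.Lib.MP_5df1bf_an.HOne
import Pool.Agent.Lib.MP_5df1bf_an.HOneMin
import Pool.Agent.Lib.MP_5df1bf_an.HSb
import Pool.Agent.Lib.MP_5df1bf_an.Her
import Pool.Agent.Lib.MP_5df1bf_an.Hull
import Pool.Agent.Lib.MP_5df1bf_an.InvGam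
import Pool.Agent.Lib.MP_5df1bf_an.Iso
import Pool.Agent.Lib.MP_5df1bf_an.KP
import Pool.Agent.Lib.MP_5df1bf_an.Korn
import Pool.Agent.Lib.MP_5df1bf_an.Lam
import Pool.Agent.Lib.MP_5df1bf_an.Lines
import Pool.Agent.Lib.MP_5df1bf_an.LowPD
import Pool.Agent.Lib.MP_5df1bf_an.Lower
import Pool.Agent.Lib.MP_5df1bf_an.Mean
import Pool.Agent.Lib.MP_5df1bf_an.Mom
import Pool.Agent.Lib.MP_5df1bf_an.Nec
import Pool.Agent.Lib.MP_5df1bf_an.Opt
import Pool.Agent.Lib.MP_5df1bf_an.PerA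
import Pool.Agent.Lib.MP_5df1bf_an.Pot
import Pool.Agent.Lib.MP_5df1bf_an.RzHom
import Pool.Agent.Lib.MP_5df1bf_an.Seq
import Pool.Agent.Lib.MP_5df1bf_an.SeqR
import Pool.Agent.Lib.MP_5df1bf_an.Sheet
import Pool.Agent.Lib.MP_5df1bf_an.Soft
import Pool.Agent.Lib.MP_5df1bf_an.SoftDiag
import Pool.Agent.Lib.MP_5df1bf_an.Suf
import Pool.Agent.Lib.MP_5df1bf_an.TSlo
import Pool.Agent.Lib.MP_5df1bf_an.TSup
import Pool.Agent.Lib.MP_5df1bf_an.Tran
import Pool.Agent.Lib.MP_5df1bf_an.Trunc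
import Pool.Agent.Lib.MP_5df1bf_an.Upper
import Pool.Agent.Lib.MP_5df1bf_an.Weak
import Pool.Agent.Lib.MP_5df1bf_an.Zone

/-!
# MP_5df1bf_an: assembly of Q1
-/

noncomputable section

namespace Pool.Agent.Lib.MP_5df1bf_an

variable {d : ℕ}

/-! ### framework -/

theorem sE (d : ℕ) : BaseE d := baseE d
theorem sShift (d : ℕ) : StmtShift d := Shift_ok d
theorem sMat (d : ℕ) : StmtMat d := Mat_ok d
theorem sDil (d : ℕ) : StmtDil d := Dil_ok d
theorem sParts (d : ℕ) : StmtParts d := Parts_ok d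
theorem sKorn (d : ℕ) : StmtKorn d := Korn_ok d (sParts d)
theorem sAvg (d : ℕ) : StmtAvg d := Avg_ok d (sShift d) (sDil d)
theorem sTrunc (d : ℕ) : StmtTrunc d := Trunc_ok d
theorem sPars (d : ℕ) : StmtParseval d := Parseval_ok d
theorem sPot (d : ℕ) : StmtPot d := Pot_ok d
theorem sOpt (d : ℕ) : StmtOpt d := opt_ok d (sE d)
theorem sEff (d : ℕ) : StmtEff d := Eff_ok d (sE d)
theorem sMono (d : ℕ) : StmtMono d := Mono_ok d (sE d)
theorem sCont (d : ℕ) : StmtCont d := Cont_ok d (sE d)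
theorem sTSup (d : ℕ) : StmtTSup d := tsup_ok d (sE d) (sTrunc d) (sDil d) (sAvg d)
theorem sTSlo (d : ℕ) : StmtTSlo d :=
  TSloPf.TSlo_ok d (sOpt d) (sTrunc d) (sPot d) (sAvg d) (sDil d) (sKorn d) (sParts d) (sE d)
theorem sLam (d : ℕ) : StmtLam d := lam_ok d (sE d) (sMat d) (sShift d)
theorem sLayVol (d : ℕ) : StmtLayVol d := layVol_ok d (sMat d)
theorem sRzBase (d : ℕ) : StmtRzBase d := RzBase_ok (sE d)
theorem sHomN (d : ℕ) : StmtHomN d :=
  HomN_ok (sE d) (sTSup d) (sTSlo d) (sEff d) (sMono d) (sCont d) (sAvg d)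
theorem sRzHom (d : ℕ) : StmtRzHom d := RzHom_ok (sHomN d)
theorem sRzLim (d : ℕ) : StmtRzLim d := RzLim_ok
theorem sFib (d : ℕ) : StmtFib d :=
  fib_ok d (sE d) (sLam d) (sLayVol d) (sRzHom d) (sRzBase d) (sEff d)
theorem sSheet (d : ℕ) : StmtSheet d :=
  Sheet_ok d (sE d) (sLam d) (sLayVol d) (sRzHom d) (sRzBase d) (sEff d)
theorem sInvT (d : ℕ) : StmtInvT d := InvT_ok d
theorem sGamT (d : ℕ) : StmtGamT d := GamT_ok d
theorem sHS (d : ℕ) : StmtHS d := HS_ok d (sE d) (sPars d) (sInvT d) (sGamT d)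
theorem sSeq (d : ℕ) : StmtSeq d :=
  Seq_ok d (sE d) (sLam d) (sLayVol d) (sRzHom d) (sRzBase d) (sEff d) (sInvT d) (sGamT d)
theorem sLowPD (d : ℕ) : StmtLowPD d := LowPD_ok d (sSeq d) (sInvT d) (sGamT d)
theorem sRzCov (d : ℕ) : StmtRzCov d := RzCov_ok d (sShift d) (sMat d) (sE d)
theorem sExact (d : ℕ) : StmtExact d :=
  Exact_ok d (sHomN d) (sLowPD d) (sLam d) (sLayVol d) (sMono d) (sEff d) (sE d)

/-! ### gadget -/

theorem sKP (d : ℕ) : StmtKP d := KP_ok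
theorem sBar (d : ℕ) : StmtBar d := Bar_ok d
theorem sLines (d : ℕ) : StmtLines d := Lines_ok d (sMat d)
theorem sComb (d : ℕ) : StmtComb d := Comb_ok d
theorem sGadFld (d : ℕ) : StmtGadFld d := gadFld
theorem sVol (d : ℕ) : StmtVol d := gadVol
theorem sWeak (d : ℕ) : StmtWeak d := Weak_ok d (sParts d)
theorem sMean (d : ℕ) : StmtMean d := Mean_ok d (sParts d)
theorem sSupp (d : ℕ) : StmtSupp d := supp_ok d
theorem sZone (d : ℕ) : StmtZone d := zone_ok d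
theorem sClose (d : ℕ) : StmtClose d := Close_ok d (sVol d)
theorem sWin (d : ℕ) : StmtWin d := win_ok d (sShift d)
theorem sMom (d : ℕ) : StmtMom d := mom_ok d (sWin d) (sSupp d) (sParts d)
theorem sTran (d : ℕ) : StmtTran d := Tran_ok d (sSupp d) (sE d)
theorem sUpper (d : ℕ) : StmtUpper d :=
  upper_ok d (sE d) (stEasyDisp d) (stEasyB d) (easyS_ok d) (easyG_ok d) (easyZ_ok d) (sVol d)

/-! ### assembly -/

theorem sDense (d : ℕ) : StmtDense d := dense d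
theorem sHull (d : ℕ) : StmtHull d := stHull d (sGamT d)
theorem sNec (d : ℕ) : StmtNec d := Nec_ok d (sHS d) (sHull d)
theorem sSeqR (d : ℕ) : StmtSeqR d := seqR (sSeq d) (sGamT d) (sInvT d)
theorem sAdmDense (d : ℕ) : StmtAdmDense d := AdmDense_ok d (sLowPD d) (sGamT d)
theorem sInvIso (d : ℕ) : StmtInvIso d := invIso d
theorem sGamIso (d : ℕ) : StmtGamIso d := gamIso d
theorem sH1 (d : ℕ) : StmtH1 d := H1_ok d (sE d) (sShift d) (sTrunc d)
theorem sH1Min (d : ℕ) : StmtH1Min d :=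
  h1min_ok d (sE d) (sOpt d) (sKorn d) (sParts d) (sPars d) (sH1 d)

section rest
variable (hI : StmtInterp d) (hR : StmtRel d)
include hI hR

theorem sSuf' : StmtSuf d := by
  have hDat : StmtDat d := DatOk_ok d hI (sLines d)
  have hCr : StmtCrude d := crude_ok d (sE d) (sWin d) (sSupp d) (sMom d) hR (sTran d)
  have hLow : StmtLower d :=
    Lower_ok d (sWeak d) (sMean d) (sZone d) (sClose d) hCr (sVol d) (sInvT d) (sE d)
  have hGad : StmtGad d := gad d (sE d) (sComb d) hDat (sGadFld d) (sVol d) hLow (sUpper d)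
    (sFib d) (sSheet d) (sRzHom d) (sRzBase d) (sEff d)
  have hSD : StmtSoftDiag d := SoftDiag_ok d (sE d) hGad (sLam d) (sLayVol d) (sRzHom d) (sRzLim d)
    (sEff d) (sGamT d)
  have hS : StmtSoft d := Soft_ok d hSD (sRzCov d) (sDense d) (sRzLim d)
  exact Suf_ok d (sE d) (sAdmDense d) (sSeqR d) (Her_ok d hS) (sExact d) (sEff d)

end rest

end Pool.Agent.Lib.MP_5df1bf_an
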