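import Pool.Agent.Lib.MP_5df1bf_an.Stmts4
import Pool.Agent.Lib.MP_5df1bf_an.Suf
import Pool.Agent.Lib.MP_5df1bf_an.SeqR

/-!
# MP_5df1bf_an, R10: density of positive definite admissible compliances, approximation
-/

open MeasureTheory Filter Topology
open scoped BigOperators ContDiff

noncomputable section

namespace Pool.Agent.Lib.MP_5df1bf_an

variable {d : ℕ}

open SufAux

namespace DenRAux

/-- Fenchel inequality for inverse tensors -/
theorem fenchel (P T : Tens d) (hT : T.PSD) (h : ∀ ξ, T.C (P.C ξ) = symm ξ) (q ξ : M d) :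
    2 * ip q (symm ξ) - T.Q ξ ≤ P.Q q := by
  have h1 := hT (ξ - P.C q)
  rw [Tens.Q_sub] at h1
  have h2 : T.Q (P.C q) = P.Q q := by
    show ip (T.C (P.C q)) (P.C q) = ip (P.C q) q
    rw [h, ip_comm, ← ip_symm_left, Tens.symm_C]
  have h3 : ip (T.C ξ) (P.C q) = ip q (symm ξ) := by
    rw [T.sa, h, ip_comm, ip_symm_left]
  rw [h2, h3] at h1
  linarith

/-- equality in the Fenchel inequality -/
theorem fenchel_eq (P T : Tens d) (h : ∀ ξ, T.C (P.C ξ) = symm ξ) (q : M d) :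
    2 * ip q (symm (P.C q)) - T.Q (P.C q) = P.Q q := by
  have h2 : T.Q (P.C q) = P.Q q := by
    show ip (T.C (P.C q)) (P.C q) = ip (P.C q) q
    rw [h, ip_comm, ← ip_symm_left, Tens.symm_C]
  have h3 : ip q (symm (P.C q)) = P.Q q := by
    rw [Tens.symm_C, ip_comm]; rfl
  rw [h2, h3]; ring

end DenRAux

open DenRAux

theorem DenR_ok (d : ℕ) (hSeq : StmtSeqRig d) (hQR : StmtQR d) (hInv : StmtInvT d) : StmtDenR d := by
  intro hd A f hA hf0 hf1 S hS η hη
  have hd1 : 1 ≤ d := by omega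
  have hd0 : (0 : ℝ) < d := by exact_mod_cast (by omega : 0 < d)
  obtain ⟨hSp, r, n, m, hn, hm0, hm1, hSQ⟩ := hS
  obtain ⟨α0, hα0, hpos⟩ := (hQR hd1 A hA).1 f hf0 hf1
  have hsum : ∑ _i : Fin d, f / d = f := by
    rw [Finset.sum_const, Finset.card_univ, Fintype.card_fin, nsmul_eq_mul]
    field_simp
  have hne : ∀ i : Fin d, (Pi.single i 1 : Fin d → ℤ) ≠ 0 := by
    intro i h
    have := congrFun h i
    simp at this
  obtain ⟨W, -, hWpd, hWlo, -⟩ := hSeq A hA d (fun i => Pi.single i 1) (fun _ => f / d) hne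
    (fun _ => div_pos hf0 hd0) f hf0 hf1 hsum ⟨α0, hα0, hpos⟩
  obtain ⟨P, ⟨α, hα, hPα⟩, -, -, hPinv⟩ := hInv W hWpd
  obtain ⟨Ai, hAiPD, hAi, hAF, -⟩ := hInv A hA
  have hPp : P.PSD := Tens.PD.psd ⟨α, hα, hPα⟩
  have hzs : ∀ i : Fin d, dot (zv (Pi.single i 1 : Fin d → ℤ)) (zv (Pi.single i 1 : Fin d → ℤ)) = 1 := by
    intro i
    unfold dot zv
    rw [Finset.sum_eq_single i]
    · simp
    · intro j _ hj
      simp [Pi.single_eq_of_ne hj]
    · intro h; exact absurd (Finset.mem_univ i) h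
  -- admissibility of `P`
  have hPQ : ∀ σ q : M d, P.Q σ ≤ Inv A (σ - (1 - f) • q) +
      (1 - f) * ∑ i : Fin d, f / d * Gam A (zv (Pi.single i 1)) q := by
    intro σ q
    have h1 := fenchel_eq P W (fun ξ => (hPinv ξ).2) σ
    have h2 := hWlo (P.C σ) q
    have h3 := hAF (P.C σ) (σ - (1 - f) • q)
    rw [ip_sub_left, ip_smul_left] at h3
    linarith
  obtain ⟨β1, hβ1, hb1⟩ := S.exists_bound
  obtain ⟨β2, hβ2, hb2⟩ := P.exists_bound
  set τ : ℝ := min (1 / 2) (η / (β1 + β2)) with hτ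
  have hτ0 : 0 < τ := lt_min (by norm_num) (by positivity)
  have hτ1 : τ ≤ 1 / 2 := min_le_left _ _
  have hτ2 : τ * (β1 + β2) ≤ η := by
    have : τ ≤ η / (β1 + β2) := min_le_right _ _
    rwa [le_div_iff₀ (by positivity)] at this
  refine ⟨comb (1 - τ) τ S P, ⟨τ * α, mul_pos hτ0 hα, fun ξ => ?_⟩, ⟨fun ξ => ?_, r + d,
    Fin.append n (fun i => zv (Pi.single i 1)), Fin.append (fun i => (1 - τ) * m i)
      (fun _ => τ * (1 / d)), ?_, ?_, ?_, ?_⟩, fun ξ => ?_⟩
  · rw [comb_Q]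
    have h1 := mul_le_mul_of_nonneg_left (hPα ξ) hτ0.le
    have h2 : 0 ≤ (1 - τ) * S.Q ξ := mul_nonneg (by linarith) (hSp ξ)
    linarith
  · rw [comb_Q]
    exact add_nonneg (mul_nonneg (by linarith) (hSp ξ)) (mul_nonneg hτ0.le (hPp ξ))
  · intro i
    refine Fin.addCases (fun i => ?_) (fun i => ?_) i
    · rw [Fin.append_left]; exact hn i
    · rw [Fin.append_right]; exact hzs i
  · intro i
    refine Fin.addCases (fun i => ?_) (fun i => ?_) i
    · rw [Fin.append_left]; exact mul_nonneg (by linarith) (hm0 i)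
    · rw [Fin.append_right]; positivity
  · rw [Fin.sum_univ_add]
    simp only [Fin.append_left, Fin.append_right]
    rw [← Finset.mul_sum, hm1, Finset.sum_const, Finset.card_univ, Fintype.card_fin, nsmul_eq_mul]
    field_simp
    ring
  · intro σ q
    rw [comb_Q]
    have h1 := mul_le_mul_of_nonneg_left (hSQ σ q) (by linarith : 0 ≤ 1 - τ)
    have h2 := mul_le_mul_of_nonneg_left (hPQ σ q) hτ0.le
    refine (add_le_add h1 h2).trans (le_of_eq ?_)
    rw [Fin.sum_univ_add]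
    simp only [Fin.append_left, Fin.append_right]
    have h4 : ∑ i, (1 - τ) * m i * Gam A (n i) q = (1 - τ) * ∑ i, m i * Gam A (n i) q := by
      rw [Finset.mul_sum]; exact Finset.sum_congr rfl fun i _ => by ring
    have h5 : f * ∑ i : Fin d, τ * (1 / d) * Gam A (zv (Pi.single i 1)) q =
        τ * ∑ i : Fin d, f / d * Gam A (zv (Pi.single i 1)) q := by
      rw [Finset.mul_sum, Finset.mul_sum]
      refine Finset.sum_congr rfl fun i _ => ?_
      ring
    have h6 : f * (1 - f) * ((1 - τ) * ∑ i, m i * Gam A (n i) q +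
        ∑ i : Fin d, τ * (1 / d) * Gam A (zv (Pi.single i 1)) q) =
        (1 - τ) * (f * (1 - f) * ∑ i, m i * Gam A (n i) q) +
        (1 - f) * (f * ∑ i : Fin d, τ * (1 / d) * Gam A (zv (Pi.single i 1)) q) := by ring
    rw [h4, h6, h5]
    ring
  · rw [comb_Q]
    have h1 : (1 - τ) * S.Q ξ + τ * P.Q ξ - S.Q ξ = τ * (P.Q ξ - S.Q ξ) := by ring
    rw [h1, abs_mul, abs_of_pos hτ0]
    have h2 : |P.Q ξ - S.Q ξ| ≤ (β1 + β2) * nsq ξ := by
      have := abs_sub (P.Q ξ) (S.Q ξ)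
      have := hb1 ξ
      have := hb2 ξ
      linarith
    have h3 := mul_le_mul_of_nonneg_left h2 hτ0.le
    have h4 := mul_le_mul_of_nonneg_right hτ2 (nsq_nonneg ξ)
    linarith

theorem AppR_ok (d : ℕ) (hSeq : StmtSeqRig d) (hInv : StmtInvT d) (hG : StmtGamT d) : StmtAppR d := by
  intro hd A f hA hf0 hf1 S C hSpd hAdm hSC η hη hη1
  obtain ⟨hSp, r, n, m, hn, hm0, hm1, hSQ⟩ := hAdm
  obtain ⟨α, hα, hSα⟩ := hSpd
  obtain ⟨Γ, hΓ1, hΓ2, _, _, hΓ5, _, hΓ7⟩ := hG A hA
  obtain ⟨Ai, hAiPD, hAi, hAF, hAinv⟩ := hInv A hA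
  obtain ⟨β, hβ, hAβ⟩ := Ai.exists_bound
  have hr : 0 < r := by
    rcases Nat.eq_zero_or_pos r with h | h
    · subst h
      simp at hm1
    · exact h
  have hr' : (0 : ℝ) < r := by exact_mod_cast hr
  have hϖ : 0 < 1 - f := by linarith
  have hn0 : ∀ i, n i ≠ 0 := by
    intro i h
    have := hn i
    rw [h] at this
    simp [dot] at this
  set g : M d → ℝ := fun q => ∑ i, m i * Gam A (n i) q with hg
  have hg0 : ∀ q, 0 ≤ g q := fun q => Finset.sum_nonneg fun i _ =>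
    mul_nonneg (hm0 i) (hΓ2 (n i) q).1
  have hghom : ∀ (s : ℝ) q, g (s • q) = s ^ 2 * g q := by
    intro s q
    simp only [hg]
    rw [Finset.mul_sum]
    refine Finset.sum_congr rfl fun i _ => ?_
    rw [hΓ1 _ _ (hn0 i), hΓ1 _ _ (hn0 i), Tens.Q_smul]
    ring
  -- lower bound for `g`
  have hglo : ∀ q, (1 - f) * α * nsq q ≤ f * g q := by
    intro q
    have h1 := hSQ ((1 - f) • q) q
    rw [sub_self, Tens.Q_smul] at h1
    have h2 : Inv A 0 = 0 := by rw [hAi, Tens.Q_zero]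
    rw [h2, zero_add] at h1
    have h3 := hSα q
    have h4 : (1 - f) * ((1 - f) * S.Q q) ≤ (1 - f) * (f * g q) := by
      calc (1 - f) * ((1 - f) * S.Q q) = (1 - f) ^ 2 * S.Q q := by ring
        _ ≤ f * (1 - f) * g q := h1
        _ = (1 - f) * (f * g q) := by ring
    have h5 := le_of_mul_le_mul_left h4 hϖ
    have h6 := mul_le_mul_of_nonneg_left h3 hϖ.le
    linarith
  -- lower bound for `C`
  have hCp : C.PSD := by
    intro ξ
    have h1 : S.Q (C.C ξ) = C.Q ξ := by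
      show ip (S.C (C.C ξ)) (C.C ξ) = ip (C.C ξ) ξ
      rw [(hSC ξ).1, ip_comm, ← ip_symm_left, Tens.symm_C]
    rw [← h1]; exact hSp _
  have hClo : ∀ ε q, A.Q ε + 2 * (1 - f) * ip q (symm ε) - f * (1 - f) * g q ≤ C.Q ε := by
    intro ε q
    have h1 := fenchel C S hSp (fun ξ => (hSC ξ).1) ε ((1 - f) • q + A.C ε)
    have h2 := hSQ ((1 - f) • q + A.C ε) q
    have h3 : (1 - f) • q + A.C ε - (1 - f) • q = A.C ε := by abel
    rw [h3] at h2
    have h4 : Inv A (A.C ε) = A.Q ε := by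
      rw [hAi]
      show ip (Ai.C (A.C ε)) (A.C ε) = ip (A.C ε) ε
      rw [(hAinv ε).1, ip_comm, ← ip_symm_left, Tens.symm_C]
    rw [h4] at h2
    have h5 : ip ε (symm ((1 - f) • q + A.C ε)) = (1 - f) * ip q (symm ε) + A.Q ε := by
      rw [symm_add, symm_smul, ip_add_right, ip_smul_right, Tens.symm_C]
      have : ip ε (symm q) = ip q (symm ε) := by rw [ip_comm, ip_symm_left]
      rw [this, ip_comm ε]
      rfl
    rw [h5] at h1
    have h6 : f * (1 - f) * g q = f * (1 - f) * ∑ i, m i * Gam A (n i) q := rfl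
    linarith
  -- constants
  set K : ℝ := β * f / ((1 - f) * α) with hK
  have hK0 : 0 < K := by positivity
  have hInvK : ∀ q, Inv A q ≤ K * g q := by
    intro q
    have h1 : Inv A q ≤ β * nsq q := by rw [hAi]; exact (le_abs_self _).trans (hAβ q)
    have h2 := hglo q
    have h3 : nsq q ≤ f * g q / ((1 - f) * α) := by
      rw [le_div_iff₀ (by positivity)]
      linarith
    calc Inv A q ≤ β * nsq q := h1
      _ ≤ β * (f * g q / ((1 - f) * α)) := mul_le_mul_of_nonneg_left h3 hβ.le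
      _ = K * g q := by rw [hK]; ring
  set κ : ℝ := η / (2 * (1 + K)) with hκ
  have hκ0 : 0 < κ := by positivity
  have hκ2 : κ * (1 + K) = η / 2 := by rw [hκ]; field_simp
  have hκ1 : κ < 1 := by nlinarith
  -- integer directions
  have hz : ∀ i, ∃ z : Fin d → ℤ, z ≠ 0 ∧
      ∀ q, |Gam A (zv z) q - Gam A (n i) q| ≤ κ * Inv A q := by
    intro i
    obtain ⟨ρ, hρ, h7⟩ := hΓ7 (n i) (hn0 i) κ hκ0
    obtain ⟨z, t, hz0, ht0, hcl⟩ := exists_int_dir (n i) (hn0 i) ρ hρ
    refine ⟨z, hz0, fun q => ?_⟩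
    rw [← hΓ5 (zv z) q t ht0]
    apply h7 _ _ hcl
    intro h
    apply hz0
    funext j
    have h1 := congrFun h j
    simp only [Pi.smul_apply, smul_eq_mul, zv, Pi.zero_apply, mul_eq_zero, ht0, false_or,
      Int.cast_eq_zero] at h1
    simpa using h1
  choose z hz0 hzG using hz
  set c : Fin r → ℝ := fun i => f * ((1 - κ) * m i + κ / r) with hc
  have hc0 : ∀ i, 0 < c i := by
    intro i
    have h1 := hm0 i
    have h2 : 0 ≤ (1 - κ) * m i := mul_nonneg (by linarith) h1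
    have h3 : 0 < κ / r := by positivity
    exact mul_pos hf0 (by linarith)
  have hcs : ∑ i, c i = f := by
    simp only [hc, ← Finset.mul_sum, Finset.sum_add_distrib, hm1, Finset.sum_const,
      Finset.card_univ, Fintype.card_fin, nsmul_eq_mul]
    field_simp
    ring
  set s : ℝ := 1 + η with hs
  have hs0 : 0 < s := by linarith
  have hkey : ∀ q, f / s * g q ≤ ∑ i, c i * Gam A (zv (z i)) q := by
    intro q
    have h1 : f * (1 - κ) * ∑ i, m i * (Gam A (n i) q - κ * Inv A q) ≤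
        ∑ i, c i * Gam A (zv (z i)) q := by
      rw [Finset.mul_sum]
      refine Finset.sum_le_sum fun i _ => ?_
      have h2 := (abs_le.1 (hzG i q)).1
      have h3 := (hΓ2 (zv (z i)) q).1
      have h4 : m i * (Gam A (n i) q - κ * Inv A q) ≤ m i * Gam A (zv (z i)) q :=
        mul_le_mul_of_nonneg_left (by linarith) (hm0 i)
      have h5 := mul_le_mul_of_nonneg_left h4 (mul_nonneg hf0.le (by linarith : 0 ≤ 1 - κ))
      have h6 : 0 ≤ f * (κ / r) * Gam A (zv (z i)) q := by positivity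
      have h7 : c i * Gam A (zv (z i)) q = f * (1 - κ) * (m i * Gam A (zv (z i)) q) +
          f * (κ / r) * Gam A (zv (z i)) q := by
        simp only [hc]; ring
      linarith
    have h2 : ∑ i, m i * (Gam A (n i) q - κ * Inv A q) = g q - κ * Inv A q := by
      simp only [mul_sub, Finset.sum_sub_distrib, ← Finset.sum_mul, hm1, one_mul, hg]
    rw [h2] at h1
    refine le_trans ?_ h1
    have h3 := mul_le_mul_of_nonneg_left (hInvK q) hκ0.le
    have h4 : (1 - κ * K) * g q ≤ g q - κ * Inv A q := by linarith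
    have h5 := mul_le_mul_of_nonneg_left h4 (mul_nonneg hf0.le (by linarith : 0 ≤ 1 - κ))
    refine le_trans ?_ h5
    have h6 : 1 - η / 2 ≤ (1 - κ) * (1 - κ * K) := by
      have : 0 ≤ κ * (κ * K) := by positivity
      nlinarith
    have h7 : 1 / s ≤ 1 - η / 2 := by
      rw [div_le_iff₀ hs0, hs]
      nlinarith
    have h8 : f / s * g q = (f * g q) * (1 / s) := by ring
    have h9 : f * (1 - κ) * ((1 - κ * K) * g q) = (f * g q) * ((1 - κ) * (1 - κ * K)) := by ring
    rw [h8, h9]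
    exact mul_le_mul_of_nonneg_left (h7.trans h6) (mul_nonneg hf0.le (hg0 q))
  have hpos : ∃ α > 0, ∀ q, α * nsq q ≤ ∑ i, c i * Gam A (zv (z i)) q := by
    refine ⟨(1 - f) * α / s, by positivity, fun q => ?_⟩
    refine le_trans ?_ (hkey q)
    have h1 := hglo q
    calc (1 - f) * α / s * nsq q = ((1 - f) * α * nsq q) / s := by ring
      _ ≤ (f * g q) / s := div_le_div_of_nonneg_right h1 hs0.le
      _ = f / s * g q := by ring
  obtain ⟨W, hRz, hWpd, -, hWhi⟩ := hSeq A hA r z c hz0 hc0 f hf0 hf1 hcs hpos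
  refine ⟨W, hWpd, hRz, fun ξ => ?_⟩
  obtain ⟨q, hq⟩ := hWhi ξ
  rw [hq]
  have h1 := mul_le_mul_of_nonneg_left (hkey q) hϖ.le
  have h2 := hClo ξ ((1 / s) • q)
  rw [hghom, ip_smul_left] at h2
  have h3 := mul_le_mul_of_nonneg_left h2 hs0.le
  have h4 : s * (A.Q ξ + 2 * (1 - f) * (1 / s * ip q (symm ξ)) - f * (1 - f) * ((1 / s) ^ 2 * g q)) =
      s * A.Q ξ + 2 * (1 - f) * ip q (symm ξ) - (1 - f) * (f / s * g q) := by
    field_simp
  rw [h4] at h3
  have h5 : 0 ≤ A.Q ξ := Tens.PD.psd hA ξ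
  have h6 : s * A.Q ξ = A.Q ξ + η * A.Q ξ := by rw [hs]; ring
  have h7 : 0 ≤ η * A.Q ξ := mul_nonneg hη.le h5
  linarith

end Pool.Agent.Lib.MP_5df1bf_an
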