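import Pool.Agent.Lib.MP_5df1bf_an.Stmts4
import Pool.Agent.Lib.MP_5df1bf_an.Exact
import Pool.Agent.Lib.MP_5df1bf_an.RzHom

/-!
# MP_5df1bf_an, module R11: exact volume fractions, rigid second phase
-/

open MeasureTheory Filter Topology
open scoped BigOperators ContDiff

noncomputable section

namespace Pool.Agent.Lib.MP_5df1bf_an
namespace ExactRAux

variable {d : ℕ}

/-- reiteration for given microstructures with a rigid second phase -/
theorem homNR (hE : BaseE d) (hPh : StmtPhaseR d) (hUp : StmtTSup d) (hLo : StmtTSlo d)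
    (hEff : StmtEff d) (hMono : StmtMono d) (hAvg : StmtAvg d) (A : Tens d) (hA : A.PD)
    (m : ℕ) (idx : V d → Fin m) (hm : Measurable idx) (hp : Per idx)
    (T : Fin m → Tens d) (f : Fin m → ℝ) (hT : ∀ i, (T i).PSD) (W : Tens d)
    (hW : ∀ ε, W.Q ε = eff (fun x => T (idx x)) ε) (η : ℝ) (hη : 0 < η) :
    ∃ η' > 0, ∀ δ : ℝ, 0 < δ → δ < 1 → ∀ χ : Fin m → Set (V d), (∀ i, Micro (χ i)) →
    (∀ i, |frac (χ i) - f i| < η') →
    (∀ i ε, (1 - η') * (T i).Q ε ≤ eff (phaseR A δ (χ i)) ε ∧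
      eff (phaseR A δ (χ i)) ε ≤ (1 + η') * (T i).Q ε) →
    ∃ n₀ : ℕ, ∀ n : ℕ, n₀ ≤ n → Micro {x | (n : ℝ) • x ∈ χ (idx x)} ∧
      |frac {x | (n : ℝ) • x ∈ χ (idx x)} - ∑ i, frac {x | idx x = i} * f i| < η ∧
      ∀ ε, (1 - η) * W.Q ε ≤ eff (phaseR A δ {x | (n : ℝ) • x ∈ χ (idx x)}) ε ∧
        eff (phaseR A δ {x | (n : ℝ) • x ∈ χ (idx x)}) ε ≤ (1 + η) * W.Q ε := by
  obtain ⟨α, hα, β, hβ, hb⟩ := RzHomAux.bounds A hA
  -- a common bound for the `T i`
  obtain ⟨B, hB0, hB⟩ : ∃ B : ℝ, 0 ≤ B ∧ ∀ i ξ, (T i).Q ξ ≤ B * nsq ξ := by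
    choose b hb0 hb1 using fun i => (T i).exists_bound
    refine ⟨∑ i, b i, Finset.sum_nonneg fun i _ => (hb0 i).le, fun i ξ => ?_⟩
    refine ((le_abs_self _).trans (hb1 i ξ)).trans (mul_le_mul_of_nonneg_right ?_ (nsq_nonneg _))
    exact Finset.single_le_sum (f := b) (fun j _ => (hb0 j).le) (Finset.mem_univ i)
  have hTf : IsFld (fun x => T (idx x)) 0 B :=
    hE.step_fld m idx T 0 B hm hp fun i ξ => ⟨by rw [zero_mul]; exact hT i ξ, hB i ξ⟩
  refine ⟨min (min (η / 4) (1 / 2)) (η / (2 * (m + 1))), by positivity, ?_⟩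
  set η' := min (min (η / 4) (1 / 2)) (η / (2 * (m + 1))) with hη'
  have e1 : η' ≤ η / 4 := (min_le_left _ _).trans (min_le_left _ _)
  have e2 : η' ≤ 1 / 2 := (min_le_left _ _).trans (min_le_right _ _)
  have e4 : η' ≤ η / (2 * (m + 1)) := min_le_right _ _
  have e0 : 0 < η' := by rw [hη']; positivity
  intro δ hδ hδ1 χ hχ hfr heff
  have hβ' : 0 < δ⁻¹ * β := by positivity
  have hD : ∀ i, IsFld (phaseR A δ (χ i)) α (δ⁻¹ * β) := fun i =>
    hPh A α β hα hb (χ i) (hχ i) δ hδ hδ1.le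
  have hD0 : ∀ i, IsFld (phaseR A δ (χ i)) 0 (δ⁻¹ * β) := fun i =>
    RzHomAux.fld_weaken hα.le (hD i)
  choose Wi hWi hWb using fun i => hEff _ _ (hD0 i)
  have hWlo : ∀ i ξ, α * nsq ξ ≤ (Wi i).Q ξ ∧ (Wi i).Q ξ ≤ (δ⁻¹ * β) * nsq ξ := by
    intro i ξ
    rw [hWi]
    exact hE.eff_bd _ _ _ hα.le (hD i) ξ
  have hWf : IsFld (fun x => Wi (idx x)) α (δ⁻¹ * β) := hE.step_fld m idx Wi _ _ hm hp hWlo
  have hWf0 := RzHomAux.fld_weaken hα.le hWf
  obtain ⟨E, hEe, -⟩ := hEff _ _ hWf0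
  have hF : ∀ n : ℕ, IsFld (fun x => phaseR A δ (χ (idx x)) ((n : ℝ) • x)) α (δ⁻¹ * β) := fun n =>
    hE.osc_fld m idx (fun i => phaseR A δ (χ i)) _ _ hm hp hD n
  choose En hEn _ using fun n => hEff _ _ (RzHomAux.fld_weaken hα.le (hF n))
  -- convergence
  have hconv : ∀ ξ, Tendsto (fun n => (En n).Q ξ) atTop (𝓝 (E.Q ξ)) := by
    intro ξ
    rw [Metric.tendsto_atTop]
    intro κ hκ
    obtain ⟨n₁, h1⟩ := hUp m idx hm hp (fun i => phaseR A δ (χ i)) _ _ hα hD Wi hWi ξ (κ / 2)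
      (by positivity)
    obtain ⟨n₂, h2⟩ := hLo m idx hm hp (fun i => phaseR A δ (χ i)) _ _ hα hD Wi hWi ξ (κ / 2)
      (by positivity)
    refine ⟨max n₁ n₂, fun n hn => ?_⟩
    have h3 := h1 n ((le_max_left _ _).trans hn)
    have h4 := h2 n ((le_max_right _ _).trans hn)
    rw [← hEe, ← hEn] at h3 h4
    rw [Real.dist_eq, abs_lt]
    constructor <;> linarith
  have hτ : 0 < η' * α := by positivity
  have hunif := tens_unif En E hconv _ hτ
  -- volume
  have hvol := (RzHomAux.frac_osc hE hAvg idx hm hp χ hχ).eventually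
    (Metric.ball_mem_nhds _ (show (0 : ℝ) < η / 2 by positivity))
  obtain ⟨n₀, hn₀⟩ := (hunif.and hvol).exists_forall_of_atTop
  refine ⟨n₀, fun n hn => ?_⟩
  obtain ⟨hu, hv⟩ := hn₀ n hn
  refine ⟨RzHomAux.micro_osc idx hm hp χ hχ n, ?_, fun ε => ?_⟩
  · have hv' : |frac {x | (n : ℝ) • x ∈ χ (idx x)} - ∑ i, frac {x | idx x = i} * frac (χ i)| <
        η / 2 := by
      have := Metric.mem_ball.mp hv
      rwa [Real.dist_eq] at this
    have h5 : |∑ i, frac {x | idx x = i} * frac (χ i) - ∑ i, frac {x | idx x = i} * f i| ≤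
        η / 2 := by
      rw [← Finset.sum_sub_distrib]
      refine (Finset.abs_sum_le_sum_abs _ _).trans ?_
      calc ∑ i, |frac {x | idx x = i} * frac (χ i) - frac {x | idx x = i} * f i|
          ≤ ∑ _i : Fin m, η' := by
            refine Finset.sum_le_sum fun i _ => ?_
            rw [← mul_sub, abs_mul, abs_of_nonneg (RzHomAux.frac_nonneg _)]
            calc frac {x | idx x = i} * |frac (χ i) - f i| ≤ 1 * η' :=
                  mul_le_mul (RzHomAux.frac_le_one hE _) (hfr i).le (abs_nonneg _) zero_le_one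
              _ = η' := one_mul _
        _ = m * η' := by simp
        _ ≤ m * (η / (2 * (m + 1))) := mul_le_mul_of_nonneg_left e4 (Nat.cast_nonneg _)
        _ ≤ η / 2 := by
          rw [mul_div_assoc', div_le_div_iff₀ (by positivity) (by norm_num)]
          nlinarith
    calc |frac {x | (n : ℝ) • x ∈ χ (idx x)} - ∑ i, frac {x | idx x = i} * f i|
        ≤ |frac {x | (n : ℝ) • x ∈ χ (idx x)} - ∑ i, frac {x | idx x = i} * frac (χ i)| +
          |∑ i, frac {x | idx x = i} * frac (χ i) - ∑ i, frac {x | idx x = i} * f i| :=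
          abs_sub_le _ _ _
      _ < η := by linarith
  · have hph : phaseR A δ {x | (n : ℝ) • x ∈ χ (idx x)} =
        fun x => phaseR A δ (χ (idx x)) ((n : ℝ) • x) := rfl
    rw [hph, ← hEn]
    have hns := nsq_nonneg ε
    have h6 := hu ε
    rw [abs_le] at h6
    have hElo : α * nsq ε ≤ E.Q ε := by
      rw [hEe]; exact (hE.eff_bd _ _ _ hα.le hWf ε).1
    have h8 : η' * α * nsq ε ≤ η' * E.Q ε := by
      rw [mul_assoc]
      exact mul_le_mul_of_nonneg_left hElo e0.le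
    -- upper bound for E
    have hEup : E.Q ε ≤ (1 + η') * W.Q ε := by
      rw [hEe, hW, ← hE.eff_scale _ B hTf (1 + η') (by linarith) ε]
      refine hMono _ _ (δ⁻¹ * β) ((1 + η') * B) hWf0 ?_ (fun x ξ => ?_) ε
      · refine hE.step_fld m idx (fun i => (T i).scale (1 + η')) 0 ((1 + η') * B) hm hp
          fun i ξ => ?_
        rw [RzHomAux.scale_Q, zero_mul, mul_assoc]
        exact ⟨mul_nonneg (by linarith) (hT i ξ),
          mul_le_mul_of_nonneg_left (hB i ξ) (by linarith)⟩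
      · show (Wi (idx x)).Q ξ ≤ ((T (idx x)).scale (1 + η')).Q ξ
        rw [RzHomAux.scale_Q, hWi]
        exact (heff (idx x) ξ).2
    -- lower bound for E
    have hElow : (1 - η') * W.Q ε ≤ E.Q ε := by
      rw [hEe, hW, ← hE.eff_scale _ B hTf (1 - η') (by linarith) ε]
      refine hMono _ _ B (δ⁻¹ * β) ?_ hWf0 (fun x ξ => ?_) ε
      · refine hE.step_fld m idx (fun i => (T i).scale (1 - η')) 0 B hm hp fun i ξ => ?_
        rw [RzHomAux.scale_Q, zero_mul]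
        have h1 := hT i ξ
        refine ⟨mul_nonneg (by linarith) h1, le_trans ?_ (hB i ξ)⟩
        nlinarith
      · show ((T (idx x)).scale (1 - η')).Q ξ ≤ (Wi (idx x)).Q ξ
        rw [RzHomAux.scale_Q, hWi]
        exact (heff (idx x) ξ).1
    have hWnn : 0 ≤ W.Q ε := by
      rw [hW]
      refine hE.le_eff _ _ _ fun u => hE.nonneg _ B hTf ε u
    have hEnn : 0 ≤ E.Q ε := le_trans (mul_nonneg hα.le hns) hElo
    have q1 : (1 - η') * ((1 - η') * W.Q ε) ≤ (1 - η') * E.Q ε :=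
      mul_le_mul_of_nonneg_left hElow (by linarith)
    have q2 : (1 + η') * E.Q ε ≤ (1 + η') * ((1 + η') * W.Q ε) :=
      mul_le_mul_of_nonneg_left hEup (by linarith)
    have q3 : η' * W.Q ε ≤ η / 4 * W.Q ε := mul_le_mul_of_nonneg_right e1 hWnn
    have q4 : η' * (η' * W.Q ε) ≤ 1 / 2 * (η' * W.Q ε) :=
      mul_le_mul_of_nonneg_right e2 (mul_nonneg e0.le hWnn)
    have q5 : 0 ≤ η' * (η' * W.Q ε) := by positivity
    have q6 : 0 ≤ η * W.Q ε := by positivity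
    constructor
    · have : (1 - η') * ((1 - η') * W.Q ε) = W.Q ε - 2 * (η' * W.Q ε) + η' * (η' * W.Q ε) := by
        ring
      linarith
    · have : (1 + η') * ((1 + η') * W.Q ε) = W.Q ε + 2 * (η' * W.Q ε) + η' * (η' * W.Q ε) := by
        ring
      linarith

/-- from `RzR` to microstructures -/
theorem rzR_micro {A C : Tens d} {f : ℝ} (hC : C.PD) (h : RzR A C f) (η : ℝ) (hη : 0 < η) :
    ∃ δ₀ > 0, ∀ δ, 0 < δ → δ < δ₀ → ∃ χ, Micro χ ∧ |frac χ - f| < η ∧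
      ∀ ε, (1 - η) * C.Q ε ≤ eff (phaseR A δ χ) ε ∧ eff (phaseR A δ χ) ε ≤ (1 + η) * C.Q ε := by
  obtain ⟨α, hα, hCα⟩ := hC
  obtain ⟨δ₀, hδ₀, h1⟩ := h (η / 2) (by positivity)
  refine ⟨δ₀, hδ₀, fun δ hδ hδ1 => ?_⟩
  obtain ⟨T, f', hG, hf', hT⟩ := h1 δ hδ hδ1
  obtain ⟨χ, hχ, hfr, heff⟩ := hG (min (η / 2) (η / 2 * α)) (by positivity)
  refine ⟨χ, hχ, ?_, fun ε => ?_⟩
  · have h2 : |frac χ - f'| < η / 2 := hfr.trans_le (min_le_left _ _)
    calc |frac χ - f| ≤ |frac χ - f'| + |f' - f| := abs_sub_le _ _ _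
      _ < η := by linarith
  · have h3 := heff ε
    rw [abs_le] at h3
    have h4 : min (η / 2) (η / 2 * α) * nsq ε ≤ η / 2 * α * nsq ε :=
      mul_le_mul_of_nonneg_right (min_le_right _ _) (nsq_nonneg ε)
    have h5 : η / 2 * α * nsq ε ≤ η / 2 * C.Q ε := by
      rw [mul_assoc]
      exact mul_le_mul_of_nonneg_left (hCα ε) (by positivity)
    obtain ⟨h6, h7⟩ := hT ε
    constructor
    · have : (1 - η / 2) * C.Q ε - η / 2 * C.Q ε = (1 - η) * C.Q ε := by ring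
      linarith
    · have : (1 + η / 2) * C.Q ε + η / 2 * C.Q ε = (1 + η) * C.Q ε := by ring
      linarith

end ExactRAux

open ExactPf ExactRAux

theorem ExactR_ok (d : ℕ) (hPh : StmtPhaseR d) (hUp : StmtTSup d) (hLo : StmtTSlo d)
    (hAvg : StmtAvg d) (hSR : StmtSeqRig d) (hQR : StmtQR d) (hLam : StmtLam d)
    (hL : StmtLayVol d) (hMo : StmtMono d) (hEff : StmtEff d) (hE : BaseE d) : StmtExactR d := by
  classical
  intro hd A hA C f hC hf0 hf1 hRz η hη
  -- a quasi-rigid tensor with elastic fraction `f / 2`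
  have hdr : (0 : ℝ) < d := by exact_mod_cast (by omega : 0 < d)
  obtain ⟨T, hRT, hT, -, -⟩ := hSR A hA d (fun i => Pi.single i 1) (fun _ => f / 2 / d)
    (fun i h => by have := congrFun h i; simp at this) (fun _ => by positivity) (f / 2)
    (by linarith) (by linarith) (by
      rw [Finset.sum_const, Finset.card_univ, Fintype.card_fin, nsmul_eq_mul]
      field_simp) ((hQR (by omega) A hA).1 (f / 2) (by linarith) (by linarith))
  have hApsd := hA.psd
  have hCpsd := hC.psd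
  have hTpsd := hT.psd
  have hT' := hT
  have hC' := hC
  have hA' := hA
  obtain ⟨τ, hτ, hτA⟩ := hA
  obtain ⟨κA, hκA, hκA'⟩ := A.exists_bound
  obtain ⟨κC, hκC, hκC'⟩ := C.exists_bound
  obtain ⟨κT, hκT, hκT'⟩ := T.exists_bound
  have bA : ∀ ξ, A.Q ξ ≤ κA * nsq ξ := fun ξ => (le_abs_self _).trans (hκA' ξ)
  have bC : ∀ ξ, C.Q ξ ≤ κC * nsq ξ := fun ξ => (le_abs_self _).trans (hκC' ξ)
  have bT : ∀ ξ, T.Q ξ ≤ κT * nsq ξ := fun ξ => (le_abs_self _).trans (hκT' ξ)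
  -- the slab
  set i0 : Fin d := ⟨0, by omega⟩ with hi0
  set k : Fin d → ℤ := Pi.single i0 1 with hk
  have hk0 : k ≠ 0 := by
    intro h
    have := congrFun h i0
    simp [hk] at this
  set K : ℝ := κA + κT + (κC + τ + 8 * κC ^ 2 / τ) with hK
  have hK0 : 0 < K := by positivity
  set ρ : ℝ := min (1 / 2) (η / (4 * K)) with hρ
  have hρ0 : 0 < ρ := lt_min (by norm_num) (by positivity)
  have hρh : ρ ≤ 1 / 2 := min_le_left _ _
  have hρK : ρ * K ≤ η / 4 := by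
    have : ρ ≤ η / (4 * K) := min_le_right _ _
    rw [le_div_iff₀ (by positivity)] at this
    linarith
  obtain ⟨hmic, hfrl⟩ := hL k hk0 ρ hρ0.le (by linarith)
  -- index function
  set idx : V d → Fin 2 := fun x => if x ∈ lay k ρ then 0 else 1 with hidx
  have hidxm : Measurable idx := Measurable.ite hmic.1 measurable_const measurable_const
  have hidxp : Per idx := by
    intro x i
    simp only [hidx, hmic.2 x i]
  have hset0 : {x | idx x = 0} = lay k ρ := by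
    ext x
    simp only [hidx, Set.mem_ofPred_eq]
    by_cases h : x ∈ lay k ρ
    · simp [h]
    · simp [h]
  have hset1 : {x | idx x = 1} = (lay k ρ)ᶜ := by
    ext x
    simp only [hidx, Set.mem_ofPred_eq, Set.mem_compl_iff]
    by_cases h : x ∈ lay k ρ
    · simp [h]
    · simp [h]
  have hfr0 : frac {x | idx x = 0} = ρ := by rw [hset0, hfrl]
  have hfr1 : frac {x | idx x = 1} = 1 - ρ := by rw [hset1, frac_compl hE hmic.1, hfrl]
  -- the two laminates
  let Tm : Fin 2 → Tens d := ![T, C]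
  let Tp : Fin 2 → Tens d := ![A, C]
  let fm : Fin 2 → ℝ := ![f / 2, f]
  let fp : Fin 2 → ℝ := ![1, f]
  set β : ℝ := κA + κC + κT with hβ
  have hstep : ∀ S : Tens d, S.PSD → (∀ ξ, S.Q ξ ≤ β * nsq ξ) →
      IsFld (fun x => (![S, C] : Fin 2 → Tens d) (idx x)) 0 β := by
    intro S hS hSβ
    refine hE.step_fld 2 idx ![S, C] 0 β hidxm hidxp fun i ξ => ?_
    have hn := nsq_nonneg ξ
    fin_cases i
    · exact ⟨by rw [zero_mul]; exact hS ξ, hSβ ξ⟩
    · refine ⟨by rw [zero_mul]; exact hCpsd ξ, (bC ξ).trans ?_⟩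
      exact mul_le_mul_of_nonneg_right (by rw [hβ]; linarith) hn
  obtain ⟨Wm, hWm, hWmb⟩ := hEff _ β (hstep T hTpsd fun ξ => (bT ξ).trans
    (mul_le_mul_of_nonneg_right (by rw [hβ]; linarith) (nsq_nonneg ξ)))
  obtain ⟨Wp, hWp, hWpb⟩ := hEff _ β (hstep A hApsd fun ξ => (bA ξ).trans
    (mul_le_mul_of_nonneg_right (by rw [hβ]; linarith) (nsq_nonneg ξ)))
  have hin : ∀ S : Tens d, ∀ x ∈ lay k ρ, (![S, C] : Fin 2 → Tens d) (idx x) = S := by
    intro S x hx
    simp only [hidx, if_pos hx]; rfl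
  have hout : ∀ S : Tens d, ∀ x ∉ lay k ρ, (![S, C] : Fin 2 → Tens d) (idx x) = C := by
    intro S x hx
    simp only [hidx, if_neg hx]; rfl
  have hWm_le : ∀ ε, Wm.Q ε ≤ C.Q ε + η / 4 * nsq ε := by
    intro ε
    rw [hWm]
    refine (lam_upper hLam hk0 hρ0 (by linarith) hTpsd hCpsd (hin T) (hout T) bT ε).trans ?_
    have h1 : ρ * κT ≤ η / 4 := by
      refine le_trans ?_ hρK
      apply mul_le_mul_of_nonneg_left _ hρ0.le
      rw [hK]
      have : 0 < κC + τ + 8 * κC ^ 2 / τ := by positivity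
      linarith
    have := mul_le_mul_of_nonneg_right h1 (nsq_nonneg ε)
    linarith
  have hWp_ge : ∀ ε, C.Q ε - η / 4 * nsq ε ≤ Wp.Q ε := by
    intro ε
    rw [hWp]
    refine le_trans ?_ (lam_lower hLam hk0 hρ0 hρh hCpsd (hin A) (hout A) hτ hκC.le hτA bC ε)
    have h1 : ρ * (κC + τ + 8 * κC ^ 2 / τ) ≤ η / 4 := by
      refine le_trans ?_ hρK
      apply mul_le_mul_of_nonneg_left _ hρ0.le
      rw [hK]
      linarith
    have := mul_le_mul_of_nonneg_right h1 (nsq_nonneg ε)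
    linarith
  -- tolerance
  have hβ0 : 0 < β := by rw [hβ]; positivity
  set η₂ : ℝ := min (min (ρ * (f / 2)) (ρ * (1 - f))) (η / (4 * β)) with hη₂
  have h1f : 0 < 1 - f := by linarith
  have hη₂0 : 0 < η₂ := lt_min (lt_min (by positivity) (by positivity)) (by positivity)
  have hη₂a : η₂ ≤ ρ * (f / 2) := (min_le_left _ _).trans (min_le_left _ _)
  have hη₂b : η₂ ≤ ρ * (1 - f) := (min_le_left _ _).trans (min_le_right _ _)
  have hη₂d : η₂ * β ≤ η / 4 := by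
    have : η₂ ≤ η / (4 * β) := min_le_right _ _
    rw [le_div_iff₀ (by positivity)] at this
    linarith
  obtain ⟨ηm, hηm, hHm⟩ := homNR hE hPh hUp hLo hEff hMo hAvg A hA' 2 idx hidxm hidxp Tm fm (by
    intro i; fin_cases i
    · exact hTpsd
    · exact hCpsd) Wm hWm η₂ hη₂0
  obtain ⟨ηp, hηp, hHp⟩ := homNR hE hPh hUp hLo hEff hMo hAvg A hA' 2 idx hidxm hidxp Tp fp (by
    intro i; fin_cases i
    · exact hApsd
    · exact hCpsd) Wp hWp η₂ hη₂0
  obtain ⟨δT, hδT, hRT'⟩ := rzR_micro hT' hRT (min ηm ηp) (lt_min hηm hηp)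
  obtain ⟨δC, hδC, hRC'⟩ := rzR_micro hC' hRz (min ηm ηp) (lt_min hηm hηp)
  refine ⟨min (min δT δC) 1, lt_min (lt_min hδT hδC) one_pos, fun δ hδ0 hδ1 => ?_⟩
  have hδlt : δ < 1 := hδ1.trans_le (min_le_right _ _)
  obtain ⟨χT, hχT, hfT, hTe⟩ := hRT' δ hδ0 (hδ1.trans_le ((min_le_left _ _).trans (min_le_left _ _)))
  obtain ⟨χC, hχC, hfC, hCe⟩ := hRC' δ hδ0 (hδ1.trans_le ((min_le_left _ _).trans (min_le_right _ _)))
  -- weaken the tolerances
  have weak : ∀ {S : Tens d}, S.PSD → ∀ {χ : Set (V d)} {η' : ℝ}, min ηm ηp ≤ η' →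
      (∀ ε, (1 - min ηm ηp) * S.Q ε ≤ eff (phaseR A δ χ) ε ∧
        eff (phaseR A δ χ) ε ≤ (1 + min ηm ηp) * S.Q ε) →
      ∀ ε, (1 - η') * S.Q ε ≤ eff (phaseR A δ χ) ε ∧
        eff (phaseR A δ χ) ε ≤ (1 + η') * S.Q ε := by
    intro S hS χ η' hle h ε
    obtain ⟨h1, h2⟩ := h ε
    have h3 := hS ε
    exact ⟨by nlinarith, by nlinarith⟩
  have hph_univ : ∀ ε, eff (phaseR A δ Set.univ) ε = A.Q ε := by
    intro ε
    have : phaseR A δ (Set.univ : Set (V d)) = fun _ => A := by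
      funext x; simp [phaseR]
    rw [this, hE.eff_const A hApsd]
  obtain ⟨n1, hn1⟩ := hHm δ hδ0 hδlt ![χT, χC] (by
      intro i; fin_cases i
      · exact hχT
      · exact hχC) (by
      intro i; fin_cases i
      · exact hfT.trans_le (min_le_left _ _)
      · exact hfC.trans_le (min_le_left _ _)) (by
      intro i; fin_cases i
      · exact weak hTpsd (min_le_left _ _) hTe
      · exact weak hCpsd (min_le_left _ _) hCe)
  obtain ⟨n2, hn2⟩ := hHp δ hδ0 hδlt ![Set.univ, χC] (by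
      intro i; fin_cases i
      · exact micro_univ
      · exact hχC) (by
      intro i; fin_cases i
      · show |frac (Set.univ : Set (V d)) - 1| < ηp
        rw [frac_univ hE, sub_self, abs_zero]; exact hηp
      · exact hfC.trans_le (min_le_right _ _)) (by
      intro i; fin_cases i
      · intro ε
        show (1 - ηp) * A.Q ε ≤ eff (phaseR A δ Set.univ) ε ∧
          eff (phaseR A δ Set.univ) ε ≤ (1 + ηp) * A.Q ε
        rw [hph_univ]
        have h3 := hApsd ε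
        exact ⟨by nlinarith, by nlinarith⟩
      · exact weak hCpsd (min_le_right _ _) hCe)
  set n : ℕ := max n1 n2 with hn
  obtain ⟨mm, frm, effm⟩ := hn1 n (le_max_left _ _)
  obtain ⟨mp, frp, effp⟩ := hn2 n (le_max_right _ _)
  set Xm : Set (V d) := {x | (n : ℝ) • x ∈ (![χT, χC] : Fin 2 → Set (V d)) (idx x)} with hXm
  set Xp : Set (V d) := {x | (n : ℝ) • x ∈ (![Set.univ, χC] : Fin 2 → Set (V d)) (idx x)} with hXp
  have hXpm : Xp = Xm ∪ lay k ρ := by
    ext x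
    simp only [hXp, hXm, Set.mem_ofPred_eq, Set.mem_union]
    by_cases h : x ∈ lay k ρ
    · simp [hidx, h]
    · simp [hidx, h]
  simp only [Fin.sum_univ_two] at frm frp
  rw [hfr0, hfr1] at frm frp
  have frm' : |frac Xm - (ρ * (f / 2) + (1 - ρ) * f)| < η₂ := frm
  have frp' : |frac Xp - (ρ * 1 + (1 - ρ) * f)| < η₂ := frp
  obtain ⟨a1, a2⟩ := abs_lt.mp frm'
  obtain ⟨b1, b2⟩ := abs_lt.mp frp'
  obtain ⟨s, hsρ, hms, hfs⟩ := exists_frac hE hL hk0 mm hρ0.le (by linarith)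
    (show frac Xm ≤ f by nlinarith) (by rw [← hXpm]; nlinarith)
  refine ⟨Xm ∪ lay k s, hms, hfs, fun ε => ?_⟩
  -- monotonicity
  have hfld : ∀ χ : Set (V d), Micro χ → IsFld (phaseR A δ χ) 0 (δ⁻¹ * κA) := fun χ hχ =>
    RzHomAux.fld_weaken hτ.le (hPh A τ κA hτ (fun ξ => ⟨hτA ξ, bA ξ⟩) χ hχ δ hδ0 hδlt.le)
  have hinv : 1 ≤ δ⁻¹ := (one_le_inv₀ hδ0).mpr hδlt.le
  have hmono : ∀ {χ χ' : Set (V d)}, Micro χ → Micro χ' → χ ⊆ χ' →
      eff (phaseR A δ χ') ε ≤ eff (phaseR A δ χ) ε := by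
    intro χ χ' h1 h2 hsub
    refine hMo _ _ _ _ (hfld χ' h2) (hfld χ h1) (fun x ξ => ?_) ε
    unfold phaseR
    have hpos := hApsd ξ
    by_cases hx : x ∈ χ
    · rw [if_pos hx, if_pos (hsub hx)]
    · by_cases hx' : x ∈ χ'
      · rw [if_neg hx, if_pos hx', Tens.scale_Q]; nlinarith
      · rw [if_neg hx, if_neg hx']
  have hup := hmono mm hms Set.subset_union_left
  have hlow := hmono hms mp (by
    rw [hXpm]; exact Set.union_subset_union_right _ (lay_mono k hsρ))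
  obtain ⟨-, e1⟩ := effm ε
  obtain ⟨e2, -⟩ := effp ε
  have hn0 := nsq_nonneg ε
  have g1 := hWm_le ε
  have g2 := hWp_ge ε
  have g3 := (hWmb ε).2
  have g3' := (hWpb ε).2
  have g4 : ∀ t : ℝ, t ≤ β * nsq ε → η₂ * t ≤ η / 4 * nsq ε := fun t ht => by
    calc η₂ * t ≤ η₂ * (β * nsq ε) := mul_le_mul_of_nonneg_left ht hη₂0.le
      _ = (η₂ * β) * nsq ε := by ring
      _ ≤ η / 4 * nsq ε := mul_le_mul_of_nonneg_right hη₂d hn0
  have g5 := g4 _ g3
  have g5' := g4 _ g3'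
  have g6 : 0 ≤ η * nsq ε := by positivity
  rw [abs_le]
  constructor
  · have : (1 - η₂) * Wp.Q ε = Wp.Q ε - η₂ * Wp.Q ε := by ring
    linarith
  · have : (1 + η₂) * Wm.Q ε = Wm.Q ε + η₂ * Wm.Q ε := by ring
    linarith

end Pool.Agent.Lib.MP_5df1bf_an
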