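import Pool.Agent.Lib.MP_5df1bf_an.Stmts3

/-!
# MP_5df1bf_an, Q2 (rigid second phase): definitions and statements
Proofs: team-store `MP_5df1bf_blueprint2.md`.
-/

open MeasureTheory Filter Topology
open scoped BigOperators ContDiff

noncomputable section

namespace Pool.Agent.Lib.MP_5df1bf_an

variable {d : ℕ}

/-- `T` is in the G-closure of `A` (fraction `f`) and `δ⁻¹ A` -/
def Gd (A : Tens d) (δ : ℝ) (T : Tens d) (f : ℝ) : Prop :=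
  ∀ η > 0, ∃ χ, Micro χ ∧ |frac χ - f| < η ∧ ∀ ε, |eff (phaseR A δ χ) ε - T.Q ε| ≤ η * nsq ε

/-- realizable with a rigid second phase -/
def RzR (A C : Tens d) (f : ℝ) : Prop :=
  ∀ η > 0, ∃ δ₀ > 0, ∀ δ, 0 < δ → δ < δ₀ → ∃ (T : Tens d) (f' : ℝ), Gd A δ T f' ∧ |f' - f| < η ∧
    ∀ ε, (1 - η) * C.Q ε ≤ T.Q ε ∧ T.Q ε ≤ (1 + η) * C.Q ε

/-! ### the calculus -/

/-- R0: bounds of the phase field -/
def StmtPhaseR (d : ℕ) : Prop := ∀ (A : Tens d) (α β : ℝ), 0 < α →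
  (∀ ξ, α * nsq ξ ≤ A.Q ξ ∧ A.Q ξ ≤ β * nsq ξ) → ∀ χ : Set (V d), Micro χ → ∀ δ : ℝ, 0 < δ → δ ≤ 1 →
  IsFld (phaseR A δ χ) α (δ⁻¹ * β)

/-- R1a -/
def StmtGdBase (d : ℕ) : Prop := ∀ A : Tens d, A.PD → ∀ δ, 0 < δ → δ < 1 →
  Gd A δ A 1 ∧ Gd A δ (A.scale δ⁻¹) 0

/-- R1b: reiteration with fixed `δ` -/
def StmtGdHom (d : ℕ) : Prop := ∀ A : Tens d, A.PD → ∀ δ, 0 < δ → δ < 1 →
  ∀ (m : ℕ) (idx : V d → Fin m), Measurable idx → Per idx →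
  ∀ (T : Fin m → Tens d) (f : Fin m → ℝ), (∀ i, (T i).PD) → (∀ i, Gd A δ (T i) (f i)) →
  ∀ W : Tens d, (∀ ε, W.Q ε = eff (fun x => T (idx x)) ε) →
    Gd A δ W (∑ i, frac {x | idx x = i} * f i)

/-- R1c -/
def StmtRRBase (d : ℕ) : Prop := ∀ A : Tens d, A.PD → RzR A A 1

/-- R1d: reiteration -/
def StmtRRHom (d : ℕ) : Prop := ∀ A : Tens d, A.PD →
  ∀ (m : ℕ) (idx : V d → Fin m), Measurable idx → Per idx →
  ∀ (T : Fin m → Tens d) (f : Fin m → ℝ), (∀ i, (T i).PD) → (∀ i, RzR A (T i) (f i)) →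
  ∀ W : Tens d, (∀ ε, W.Q ε = eff (fun x => T (idx x)) ε) →
    RzR A W (∑ i, frac {x | idx x = i} * f i)

/-- R1e: closure -/
def StmtRRLim (d : ℕ) : Prop := ∀ A : Tens d, A.PD → ∀ (C : Tens d) (f : ℝ), C.PD →
  (∀ η > 0, ∃ (C' : Tens d) (f' : ℝ), RzR A C' f' ∧ |f' - f| < η ∧ ∀ ξ, |C'.Q ξ - C.Q ξ| ≤ η * nsq ξ) →
  RzR A C f

/-- R1f: realizable tensors are stiffer than `A` -/
def StmtRRLow (d : ℕ) : Prop := ∀ A : Tens d, A.PD → ∀ (C : Tens d) (f : ℝ), RzR A C f →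
  ∀ ξ, A.Q ξ ≤ C.Q ξ

/-- R2a: sequential laminates with fixed `δ` -/
def StmtSeqD (d : ℕ) : Prop := ∀ A : Tens d, A.PD → ∀ (r : ℕ) (n : Fin r → (Fin d → ℤ)) (c : Fin r → ℝ),
  (∀ i, n i ≠ 0) → (∀ i, 0 < c i) → ∀ f : ℝ, 0 < f → f < 1 → (∑ i, c i = f) →
  ∀ δ, 0 < δ → δ < 1 → ∃ W : Tens d, Gd A δ W f ∧ W.PD ∧
    (∀ ε q, A.Q ε + 2 * (1 - f) * ip q (symm ε) - (1 - f) * (δ / (1 - δ) * Inv A q +
      ∑ i, c i * Gam A (zv (n i)) q) ≤ W.Q ε) ∧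
    (∀ ε, ∃ q, W.Q ε = A.Q ε + 2 * (1 - f) * ip q (symm ε) - (1 - f) * (δ / (1 - δ) * Inv A q +
      ∑ i, c i * Gam A (zv (n i)) q))

/-- R2b: sequential laminates with rigid core -/
def StmtSeqRig (d : ℕ) : Prop := ∀ A : Tens d, A.PD → ∀ (r : ℕ) (n : Fin r → (Fin d → ℤ))
  (c : Fin r → ℝ), (∀ i, n i ≠ 0) → (∀ i, 0 < c i) → ∀ f : ℝ, 0 < f → f < 1 → (∑ i, c i = f) →
  (∃ α > 0, ∀ q, α * nsq q ≤ ∑ i, c i * Gam A (zv (n i)) q) → ∃ W : Tens d, RzR A W f ∧ W.PD ∧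
    (∀ ε q, A.Q ε + 2 * (1 - f) * ip q (symm ε) - (1 - f) * ∑ i, c i * Gam A (zv (n i)) q ≤ W.Q ε) ∧
    (∀ ε, ∃ q, W.Q ε =
      A.Q ε + 2 * (1 - f) * ip q (symm ε) - (1 - f) * ∑ i, c i * Gam A (zv (n i)) q)

/-- R3: quasi-rigid materials; coordinate directions -/
def StmtQR (d : ℕ) : Prop := 1 ≤ d → ∀ A : Tens d, A.PD →
  (∀ f : ℝ, 0 < f → f < 1 → ∃ α > 0, ∀ q,
    α * nsq q ≤ ∑ i : Fin d, f / d * Gam A (zv (Pi.single i 1)) q) ∧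
  ∀ M : ℝ, ∃ (R : Tens d) (f : ℝ), 0 ≤ f ∧ f ≤ 1 ∧ RzR A R f ∧ R.PD ∧ ∀ ξ, M * nsq ξ ≤ R.Q ξ

/-- R4: stiff fibres in the direction `z` -/
def StmtFibR (d : ℕ) : Prop := 1 ≤ d → ∀ A : Tens d, A.PD → ∀ z : Fin d → ℤ, z ≠ 0 → ∃ β > 0, ∀ M : ℝ,
  ∃ (F : Tens d) (f : ℝ), 0 ≤ f ∧ f ≤ 1 ∧ RzR A F f ∧ F.PD ∧
    (∀ ξ, M * (ip (oo (zv z)) ξ) ^ 2 ≤ F.Q ξ) ∧ (∀ ξ, ip (oo (zv z)) ξ = 0 → F.Q ξ ≤ β * nsq ξ)

/-! ### the gadget -/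

/-- combinatorial data: a symmetric integer matrix without zero entries -/
structure RD (d : ℕ) where
  A₀ : Fin d → Fin d → ℤ
  sym : ∀ i j, A₀ i j = A₀ j i
  ne : ∀ i j, A₀ i j ≠ 0
  /-- number of cubes per unit length -/
  N : ℕ
  Npos : 2 ≤ N

namespace RD
variable (D : RD d)
/-- fibre direction of the bars in direction `k` -/
def z (k : Fin d) : Fin d → ℤ := fun i => D.A₀ i k
/-- the matrix `A₀` -/
def A₀r : M d := fun i j => (D.A₀ i j : ℝ)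
/-- relative width of the gaps -/
def γ : ℝ := 1 / (8 * (1 + ∑ i, ∑ j, |(D.A₀ i j : ℝ)|))
/-- half side of the cubes (in units of `1 / N`) -/
def hb : ℝ := (1 - D.γ) / 2
/-- the tube around the lattice lines of direction `k` -/
def tube (k : Fin d) : Set (V d) := {x | ∀ i, i ≠ k → pd (x i) ≤ D.hb / D.N}
/-- rigid cubes -/
def body : Set (V d) := {x | ∃ k, x ∈ D.tube k ∧ pd (D.N * x k) ≤ D.hb}
/-- fibre zones -/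
def gap (k : Fin d) : Set (V d) := {x | x ∈ D.tube k ∧ D.hb < pd (D.N * x k)}

/-- the material field of the gadget -/
structure IsG (D : RD d) (C R : Tens d) (F : Fin d → Tens d) (T : V d → Tens d) : Prop where
  body : ∀ x ∈ D.body, T x = R
  gap : ∀ k, ∀ x ∈ D.gap k, T x = F k
  rest : ∀ x, x ∉ D.body → (∀ k, x ∉ D.gap k) → T x = C
end RD

/-- R5a: the field exists and the volume of the tubes is small -/
def StmtRFld (d : ℕ) : Prop := 2 ≤ d → ∀ (D : RD d),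
  (∀ (C R : Tens d) (F : Fin d → Tens d), ∃ (m : ℕ) (idx : V d → Fin m) (val : Fin m → Tens d),
    Measurable idx ∧ Per idx ∧ D.IsG C R F (fun x => val (idx x)) ∧
    (∀ i, val i = C ∨ val i = R ∨ ∃ k, val i = F k)) ∧
  MeasurableSet {x : V d | ∃ k : Fin d, ∀ i, i ≠ k → pd (x i) < 1 / D.N} ∧
  frac {x : V d | ∃ k : Fin d, ∀ i, i ≠ k → pd (x i) < 1 / D.N} ≤ d * 2 ^ d / D.N

/-- R5b: for `A₀ : ε = 0` there is a gradient with symmetric part `ε` compatible with all fibres -/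
def StmtSkew (d : ℕ) : Prop := ∀ D : RD d, ∃ K : ℝ, 0 ≤ K ∧ ∀ ε : M d, tp ε = ε → ip D.A₀r ε = 0 →
  ∃ G : M d, symm G = ε ∧ (∀ k, ∑ i, (D.A₀ i k : ℝ) * G i k = 0) ∧ ip G G ≤ K * nsq ε

/-- R5c: displacement of the gadget (`G` = macroscopic gradient) -/
def StmtRDisp (d : ℕ) : Prop := 2 ≤ d → ∀ A₀ : Fin d → Fin d → ℤ, ∃ K : ℝ, 0 ≤ K ∧
  ∀ D : RD d, D.A₀ = A₀ → ∀ G : M d, (∀ k, ∑ i, (D.A₀ i k : ℝ) * G i k = 0) → ∃ u : Disp d,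
    (∀ x ∈ D.body, symm (G + grad u.u x) = 0) ∧
    (∀ k, ∀ x ∈ D.gap k, ip (oo (zv (D.z k))) (G + grad u.u x) = 0) ∧
    (∀ x, ip (G + grad u.u x) (G + grad u.u x) ≤ K * ip G G) ∧
    (∀ x, (¬ ∃ k : Fin d, ∀ i, i ≠ k → pd (x i) < 1 / D.N) → grad u.u x = 0)

/-- R5d: upper bound -/
def StmtRUp (d : ℕ) : Prop := 2 ≤ d → ∀ A₀ : Fin d → Fin d → ℤ, ∀ (C : Tens d), C.PD → ∀ β : ℝ,
  0 < β → ∃ K : ℝ, 0 ≤ K ∧ ∀ D : RD d, D.A₀ = A₀ →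
  ∀ (R : Tens d) (F : Fin d → Tens d) (T : V d → Tens d) (β' : ℝ), D.IsG C R F T → IsFld T 0 β' →
    (∀ k ξ, ip (oo (zv (D.z k))) ξ = 0 → (F k).Q ξ ≤ β * nsq ξ) →
    ∀ ε, ip D.A₀r (symm ε) = 0 → eff T ε ≤ C.Q ε + K / D.N * nsq ε

/-- R5e: stiffness in the direction `A₀` -/
def StmtRStiff (d : ℕ) : Prop := 2 ≤ d → ∀ D : RD d, ∃ K : ℝ, 0 < K ∧
  ∀ (M β' : ℝ), 0 < M → ∀ (C R : Tens d) (F : Fin d → Tens d) (T : V d → Tens d), D.IsG C R F T →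
    IsFld T 0 β' → (∀ ξ, M * nsq ξ ≤ R.Q ξ) →
    (∀ k ξ, M * (ip (oo (zv (D.z k))) ξ) ^ 2 ≤ (F k).Q ξ) →
    ∀ (ε : Pool.Agent.Lib.MP_5df1bf_an.M d) (u : Disp d),
      M * (ip D.A₀r (symm ε)) ^ 2 ≤ K * energy T ε u

/-- R5f: lower bound -/
def StmtRLow (d : ℕ) : Prop := 2 ≤ d → ∀ (A₀ : Fin d → Fin d → ℤ) (C : Tens d) (α : ℝ), C.PD →
  0 < α → ∃ K : ℝ, 0 ≤ K ∧ ∀ D : RD d, D.A₀ = A₀ → ∃ K' : ℝ, 0 < K' ∧ ∀ (M β' : ℝ), 0 < M →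
  ∀ (R : Tens d) (F : Fin d → Tens d) (T : V d → Tens d), D.IsG C R F T → IsFld T α β' →
    (∀ ξ, M * nsq ξ ≤ R.Q ξ) → (∀ k ξ, M * (ip (oo (zv (D.z k))) ξ) ^ 2 ≤ (F k).Q ξ) →
    ∀ ε : Pool.Agent.Lib.MP_5df1bf_an.M d,
      C.Q ε - K / D.N * nsq ε + M / K' * (ip D.A₀r (symm ε)) ^ 2 ≤ eff T ε

/-! ### assembly -/

/-- `C + lam E ⊗ E` (`E` symmetrised) -/
def addSq (C : Tens d) (E : M d) (lam : ℝ) : Tens d where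
  C :=
    { toFun := fun ξ => C.C ξ + (lam * ip (symm E) ξ) • symm E
      map_add' := by
        intro x y
        rw [map_add, ip_add_right, mul_add, add_smul]
        abel
      map_smul' := by
        intro c x
        rw [map_smul, ip_smul_right, RingHom.id_apply, smul_add, smul_smul]
        congr 2
        ring }
  sa := by
    intro A B
    show ip (C.C A + (lam * ip (symm E) A) • symm E) B =
      ip A (C.C B + (lam * ip (symm E) B) • symm E)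
    rw [ip_add_left, ip_add_right, ip_smul_left, ip_smul_right, C.sa, ip_comm A (symm E)]
    ring
  tr := by
    intro A
    show C.C (tp A) + (lam * ip (symm E) (tp A)) • symm E = C.C A + (lam * ip (symm E) A) • symm E
    rw [C.tr, ← ip_tp_left, tp_symm]

theorem addSq_Q (C : Tens d) (E : M d) (lam : ℝ) (ξ : M d) :
    (addSq C E lam).Q ξ = C.Q ξ + lam * (ip (symm E) ξ) ^ 2 := by
  show ip (C.C ξ + (lam * ip (symm E) ξ) • symm E) ξ = _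
  rw [ip_add_left, ip_smul_left]
  unfold Tens.Q
  ring

/-- R6a: stiffening, integer matrices without zero entries -/
def StmtStiffI (d : ℕ) : Prop := 2 ≤ d → ∀ (A C : Tens d) (f : ℝ), A.PD → C.PD → RzR A C f →
  ∀ A₀ : Fin d → Fin d → ℤ, (∀ i j, A₀ i j = A₀ j i) → (∀ i j, A₀ i j ≠ 0) → ∀ lam, 0 ≤ lam →
    RzR A (addSq C (fun i j => (A₀ i j : ℝ)) lam) f

/-- R6b: stiffening -/
def StmtStiff (d : ℕ) : Prop := 2 ≤ d → ∀ (A C : Tens d) (f : ℝ), A.PD → C.PD → RzR A C f →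
  ∀ (E : M d) (lam : ℝ), 0 ≤ lam → RzR A (addSq C E lam) f

/-- R7: everything above a realizable tensor is realizable -/
def StmtHerR (d : ℕ) : Prop := 2 ≤ d → ∀ (A C C' : Tens d) (f : ℝ), A.PD → C.PD → RzR A C f →
  (∀ ξ, C.Q ξ ≤ C'.Q ξ) → RzR A C' f

/-- R8: Hashin–Shtrikman lower bound -/
def StmtHSR (d : ℕ) : Prop := ∀ A : Tens d, A.PD → ∀ χ : Set (V d), Micro χ →
  ∃ w : (Fin d → ℤ) → ℝ, (∀ k, 0 ≤ w k) ∧ w 0 = 0 ∧ HasSum w (frac χ * (1 - frac χ)) ∧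
  ∀ (q : M d) (δ : ℝ), 0 < δ → δ < 1 → ∀ ε : M d,
    A.Q ε + 2 * (1 - frac χ) * ip q (symm ε) - ∑' k, w k * Gam A (zv k) q
      - δ / (1 - δ) * (1 - frac χ) * Inv A q ≤ eff (phaseR A δ χ) ε

/-- the G-closure with a rigid phase (compliances, smooth displacements) -/
def Gr (A : Tens d) (f : ℝ) : Set (Tens d) :=
  {S | ∃ (δ : ℕ → ℝ) (χ : ℕ → Set (V d)) (Cs Ss : ℕ → Tens d), (∀ n, 0 < δ n ∧ δ n < 1) ∧
    Tendsto δ atTop (𝓝 0) ∧ (∀ n, Micro (χ n) ∧ frac (χ n) = f) ∧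
    (∀ n ε, (Cs n).Q ε = eff (phaseR A (δ n) (χ n)) ε) ∧
    (∀ n ξ, (Ss n).C ((Cs n).C ξ) = symm ξ ∧ (Cs n).C ((Ss n).C ξ) = symm ξ) ∧
    ∀ ξ, Tendsto (fun n => (Ss n).C ξ) atTop (𝓝 (S.C ξ))}

/-- the characterization -/
def AdmR (A : Tens d) (f : ℝ) (S : Tens d) : Prop :=
  S.PSD ∧ ∃ (r : ℕ) (n : Fin r → V d) (m : Fin r → ℝ), (∀ i, dot (n i) (n i) = 1) ∧
    (∀ i, 0 ≤ m i) ∧ (∑ i, m i = 1) ∧
    ∀ σ q : M d, S.Q σ ≤ Inv A (σ - (1 - f) • q) + f * (1 - f) * ∑ i, m i * Gam A (n i) q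

/-- R9: necessity -/
def StmtNecR (d : ℕ) : Prop := ∀ (A : Tens d) (f : ℝ), A.PD → 0 < f → f < 1 →
  ∀ S ∈ Gr A f, AdmR A f S

/-- R10a: positive definite admissible compliances are dense -/
def StmtDenR (d : ℕ) : Prop := 2 ≤ d → ∀ (A : Tens d) (f : ℝ), A.PD → 0 < f → f < 1 →
  ∀ S : Tens d, AdmR A f S → ∀ η > 0, ∃ S' : Tens d, S'.PD ∧ AdmR A f S' ∧
    ∀ ξ, |S'.Q ξ - S.Q ξ| ≤ η * nsq ξ

/-- R10b: the inverse of a positive definite admissible compliance is realizable up to a factor -/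
def StmtAppR (d : ℕ) : Prop := 2 ≤ d → ∀ (A : Tens d) (f : ℝ), A.PD → 0 < f → f < 1 →
  ∀ (S C : Tens d), S.PD → AdmR A f S → (∀ ξ, S.C (C.C ξ) = symm ξ ∧ C.C (S.C ξ) = symm ξ) →
  ∀ η > 0, η < 1 → ∃ W : Tens d, W.PD ∧ RzR A W f ∧ ∀ ξ, W.Q ξ ≤ (1 + η) * C.Q ξ

/-- R11: exact volume fractions -/
def StmtExactR (d : ℕ) : Prop := 2 ≤ d → ∀ A : Tens d, A.PD → ∀ (C : Tens d) (f : ℝ), C.PD →
  0 < f → f < 1 → RzR A C f → ∀ η > 0, ∃ δ₀ > 0, ∀ δ, 0 < δ → δ < δ₀ → ∃ χ, Micro χ ∧ frac χ = f ∧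
    ∀ ε, |eff (phaseR A δ χ) ε - C.Q ε| ≤ η * nsq ε

/-- R12: sufficiency -/
def StmtSufR (d : ℕ) : Prop := 2 ≤ d → ∀ (A : Tens d) (f : ℝ), A.PD → 0 < f → f < 1 →
  ∀ S : Tens d, AdmR A f S → S ∈ Gr A f

end Pool.Agent.Lib.MP_5df1bf_an
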