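import Pool.Agent.Lib.MP_5df1bf_an.Fib
import Pool.Agent.Lib.MP_5df1bf_an.Stmts4

/-!
# MP_5df1bf_an, R4: stiff fibres (rigid second phase)
-/

open MeasureTheory Filter Topology
open scoped BigOperators ContDiff

noncomputable section

namespace Pool.Agent.Lib.MP_5df1bf_an

variable {d : ℕ}

namespace FibRAux

theorem frac_compl' (hE : BaseE d) {S : Set (V d)} (hS : MeasurableSet S) :
    frac Sᶜ = 1 - frac S := by
  unfold frac
  have hc : MeasurableSet (cell d) := measurableSet_Icc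
  have h1 : volume (S ∩ cell d) + volume (Sᶜ ∩ cell d) = 1 := by
    rw [← hE.vol, Set.inter_comm S, Set.inter_comm Sᶜ]
    have := measure_inter_add_diff (μ := volume) (cell d) hS
    rw [Set.diff_eq] at this
    exact this
  have hf1 : volume (S ∩ cell d) ≠ ⊤ := by
    intro h
    rw [h] at h1
    simp at h1
  have hf2 : volume (Sᶜ ∩ cell d) ≠ ⊤ := by
    intro h
    rw [h] at h1
    simp at h1
  have h2 := congrArg ENNReal.toReal h1
  rw [ENNReal.toReal_add hf1 hf2, ENNReal.toReal_one] at h2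
  linarith

open Classical in
/-- lamination (volume fraction `1/2`) of a realizable tensor with `A` -/
theorem lamA (hE : BaseE d) (hLam : StmtLam d) (hVol : StmtLayVol d) (hHom : StmtRRHom d)
    (hBase : StmtRRBase d) (hEff : StmtEff d) (A : Tens d) (hA : A.PD) (T : Tens d) (hT : T.PD)
    (g : ℝ) (hR : RzR A T g) (k : Fin d → ℤ) (hk : k ≠ 0) :
    ∃ W : Tens d, RzR A W (1 / 2 * g + 1 / 2) ∧ W.PD ∧
      (∀ (ε : M d) (a : V d),
        W.Q ε ≤ 1 / 2 * T.Q (ε + sd a (zv k)) + 1 / 2 * A.Q (ε - sd a (zv k))) ∧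
      (∀ (ε : M d) (c : ℝ),
        (∀ a : V d, c ≤ 1 / 2 * T.Q (ε + sd a (zv k)) + 1 / 2 * A.Q (ε - sd a (zv k))) →
          c ≤ W.Q ε) := by
  obtain ⟨hmic, hfr⟩ := hVol k hk (1 / 2) (by norm_num) (by norm_num)
  set idx : V d → Fin 2 := fun x => if x ∈ lay k (1 / 2) then 0 else 1 with hidx
  set T' : Fin 2 → Tens d := fun i => if i = 0 then T else A with hT'
  set f' : Fin 2 → ℝ := fun i => if i = 0 then g else 1 with hf'
  have hmeas : Measurable idx := Measurable.ite hmic.1 measurable_const measurable_const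
  have hper : Per idx := by
    intro x i
    simp only [hidx]
    have := hmic.2 x i
    by_cases h : x ∈ lay k (1 / 2)
    · rw [if_pos h, if_pos (this.mpr h)]
    · rw [if_neg h, if_neg (fun h1 => h (this.mp h1))]
  have hPD : ∀ i, (T' i).PD := by
    intro i
    simp only [hT']
    split_ifs
    · exact hT
    · exact hA
  obtain ⟨β₁, hβ₁, hTβ⟩ := T.exists_bound
  obtain ⟨β₂, hβ₂, hAβ⟩ := A.exists_bound
  obtain ⟨α₁, hα₁, hTα⟩ := id hT
  obtain ⟨α₂, hα₂, hAα⟩ := id hA
  have hfld : IsFld (fun x => T' (idx x)) (min α₁ α₂) (max β₁ β₂) := by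
    refine hE.step_fld 2 idx T' _ _ hmeas hper (fun i ξ => ?_)
    simp only [hT']
    split_ifs
    · exact ⟨(mul_le_mul_of_nonneg_right (min_le_left _ _) (nsq_nonneg _)).trans (hTα ξ),
        ((le_abs_self _).trans (hTβ ξ)).trans
          (mul_le_mul_of_nonneg_right (le_max_left _ _) (nsq_nonneg _))⟩
    · exact ⟨(mul_le_mul_of_nonneg_right (min_le_right _ _) (nsq_nonneg _)).trans (hAα ξ),
        ((le_abs_self _).trans (hAβ ξ)).trans
          (mul_le_mul_of_nonneg_right (le_max_right _ _) (nsq_nonneg _))⟩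
  have hα0 : 0 < min α₁ α₂ := lt_min hα₁ hα₂
  have hfld0 : IsFld (fun x => T' (idx x)) 0 (max β₁ β₂) :=
    ⟨hfld.meas, hfld.per, fun x ξ => by
      rw [zero_mul]
      exact (mul_nonneg hα0.le (nsq_nonneg _)).trans (hfld.lo x ξ), hfld.hi⟩
  obtain ⟨W, hW1, hW2⟩ := hEff _ _ hfld0
  have hWPD : W.PD := ⟨min α₁ α₂, hα0, fun ξ => by
    rw [hW1]
    exact (hE.eff_bd _ _ _ hα0.le hfld ξ).1⟩
  have hRz : RzR A W (∑ i, frac {x | idx x = i} * f' i) := by
    refine hHom A hA 2 idx hmeas hper T' f' hPD (fun i => ?_) W hW1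
    simp only [hT', hf']
    split_ifs
    · exact hR
    · exact hBase A hA
  have hset : {x | idx x = 0} = lay k (1 / 2) := by
    ext x
    show (if x ∈ lay k (1 / 2) then (0 : Fin 2) else 1) = 0 ↔ x ∈ lay k (1 / 2)
    by_cases h : x ∈ lay k (1 / 2)
    · rw [if_pos h]; exact ⟨fun _ => h, fun _ => rfl⟩
    · rw [if_neg h]; exact ⟨fun h1 => absurd h1 (by decide), fun h1 => absurd h1 h⟩
  have hset1 : {x | idx x = 1} = (lay k (1 / 2))ᶜ := by
    ext x
    show (if x ∈ lay k (1 / 2) then (0 : Fin 2) else 1) = 1 ↔ x ∉ lay k (1 / 2)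
    by_cases h : x ∈ lay k (1 / 2)
    · rw [if_pos h]; exact ⟨fun h1 => absurd h1 (by decide), fun h1 => absurd h h1⟩
    · rw [if_neg h]; exact ⟨fun _ => h, fun _ => rfl⟩
  have hsum : ∑ i, frac {x | idx x = i} * f' i = 1 / 2 * g + 1 / 2 := by
    rw [Fin.sum_univ_two, hset, hset1, frac_compl' hE hmic.1, hfr]
    simp [hf']
    norm_num
  rw [hsum] at hRz
  -- the laminate formula
  have hform : ∀ ε, W.Q ε = ⨅ a : V d, (1 / 2 * T.Q (ε + (1 - 1 / 2 : ℝ) • sd a (zv k)) +
      (1 - 1 / 2) * A.Q (ε - (1 / 2 : ℝ) • sd a (zv k))) := by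
    intro ε
    rw [hW1]
    refine hLam k hk (1 / 2) (by norm_num) (by norm_num) T A _ hT.psd hA.psd ?_ ?_ ε
    · intro x hx
      have h1 : idx x = 0 := if_pos hx
      show T' (idx x) = T
      rw [h1]
      exact if_pos rfl
    · intro x hx
      have h1 : idx x = 1 := if_neg hx
      show T' (idx x) = A
      rw [h1]
      exact if_neg (by decide)
  refine ⟨W, hRz, hWPD, ?_, ?_⟩
  · intro ε a
    rw [hform]
    refine (ciInf_le ?_ ((2 : ℝ) • a)).trans (le_of_eq ?_)
    · refine ⟨0, ?_⟩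
      rintro _ ⟨b, rfl⟩
      have h1 := hT.psd (ε + (1 - 1 / 2 : ℝ) • sd b (zv k))
      have h2 := hA.psd (ε - (1 / 2 : ℝ) • sd b (zv k))
      simp only
      linarith
    · rw [sd_smul_left, smul_smul, smul_smul]
      norm_num
  · intro ε c hc
    rw [hform]
    refine le_ciInf fun b => ?_
    have := hc ((1 / 2 : ℝ) • b)
    rw [sd_smul_left] at this
    have e : (1 - 1 / 2 : ℝ) = 1 / 2 := by norm_num
    rw [e]
    exact this

/-- the size of the coefficients -/
def sz (c : Fin d → V d) : ℝ := ∑ b, dot (c b) (c b)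

theorem sz_nonneg (c : Fin d → V d) : 0 ≤ sz c := Finset.sum_nonneg fun b _ => dot_self_nonneg _

theorem le_sz (c : Fin d → V d) (b : Fin d) : dot (c b) (c b) ≤ sz c :=
  Finset.single_le_sum (f := fun b => dot (c b) (c b)) (fun b _ => dot_self_nonneg _)
    (Finset.mem_univ b)

theorem dot_cs (a b : V d) : (dot a b) ^ 2 ≤ dot a a * dot b b := by
  unfold dot
  have := Finset.sum_mul_sq_le_sq_mul_sq Finset.univ a b
  simpa only [sq] using this

theorem nsq_sd_le (a n : V d) : nsq (sd a n) ≤ dot n n * dot a a := by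
  rw [nsq_sd]
  have := dot_cs a n
  nlinarith

theorem sum_bd (n : Fin d → V d) (S : Finset (Fin d)) : ∃ K : ℝ, 0 ≤ K ∧ ∀ c : Fin d → V d,
    nsq (∑ b ∈ S, sd (c b) (n b)) ≤ K * sz c := by
  refine ⟨S.card * ∑ b ∈ S, dot (n b) (n b), ?_, fun c => ?_⟩
  · exact mul_nonneg (Nat.cast_nonneg _) (Finset.sum_nonneg fun b _ => dot_self_nonneg _)
  · refine (nsq_sum_le S _).trans ?_
    rw [mul_assoc]
    refine mul_le_mul_of_nonneg_left ?_ (Nat.cast_nonneg _)
    rw [Finset.sum_mul]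
    refine Finset.sum_le_sum fun b _ => ?_
    exact (nsq_sd_le _ _).trans (mul_le_mul_of_nonneg_left (le_sz c b) (dot_self_nonneg _))

/-- iterated lamination -/
theorem iter (hE : BaseE d) (hLam : StmtLam d) (hVol : StmtLayVol d) (hHom : StmtRRHom d)
    (hBase : StmtRRBase d) (hEff : StmtEff d) (A : Tens d) (hA : A.PD)
    (z : Fin d → ℤ) (a : Fin d) (ha : z a ≠ 0) (S : Finset (Fin d)) (hS : a ∉ S) :
    ∃ B : ℝ, 0 ≤ B ∧ ∀ (R : Tens d) (g M₀ : ℝ), RzR A R g → R.PD → 0 ≤ g → g ≤ 1 → 0 ≤ M₀ →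
      (∀ ξ, M₀ * nsq ξ ≤ R.Q ξ) →
    ∃ (W : Tens d) (g' : ℝ), RzR A W g' ∧ W.PD ∧ 0 ≤ g' ∧ g' ≤ 1 ∧
      (∀ ξ, (1 / 2) ^ S.card * (M₀ * (ip (oo (zv z)) ξ / dot (zv z) (zv z)) ^ 2) ≤ W.Q ξ) ∧
      ∀ c : Fin d → V d, W.Q (∑ b ∈ S, sd (c b) (zv (fdir z a b))) ≤ B * sz c := by
  classical
  have hz : 0 < dot (zv z) (zv z) := by
    apply dot_self_pos
    intro h
    have h1 := congrFun h a
    simp only [zv, Pi.zero_apply, Int.cast_eq_zero] at h1
    exact ha h1
  obtain ⟨β, hβ0, hβ⟩ := A.exists_bound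
  induction S using Finset.induction_on with
  | empty =>
    refine ⟨0, le_refl _, fun R g M₀ hR hRPD hg0 hg1 hM hRM => ⟨R, g, hR, hRPD, hg0, hg1, ?_, ?_⟩⟩
    · intro ξ
      rw [Finset.card_empty, pow_zero, one_mul]
      refine le_trans ?_ (hRM ξ)
      refine mul_le_mul_of_nonneg_left ?_ hM
      rw [div_pow, div_le_iff₀ (by positivity)]
      exact ip_oo_cs _ _
    · intro c
      rw [Finset.sum_empty, zero_mul]
      have : R.Q 0 = 0 := by
        have := R.Q_smul 0 0
        simpa using this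
      rw [this]
  | insert b S hb ih =>
    have haS : a ∉ S := fun h => hS (Finset.mem_insert_of_mem h)
    have hba : b ≠ a := fun h => hS (h ▸ Finset.mem_insert_self _ _)
    obtain ⟨B, hB, hit⟩ := ih haS
    obtain ⟨K, hK, hsum⟩ := sum_bd (fun b => zv (fdir z a b)) S
    refine ⟨1 / 2 * B + 1 / 2 * (β * (2 * (4 * dot (zv (fdir z a b)) (zv (fdir z a b))) + 2 * K)),
      ?_, ?_⟩
    · have := dot_self_nonneg (zv (fdir z a b))
      positivity
    intro R g M₀ hR hRPD hg0 hg1 hM hRM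
    obtain ⟨T, g', hRT, hT, hg'0, hg'1, hlo, hup⟩ := hit R g M₀ hR hRPD hg0 hg1 hM hRM
    obtain ⟨W, hRW, hW, hWup, hWlo⟩ := lamA hE hLam hVol hHom hBase hEff A hA T hT _ hRT
      (fdir z a b) (fdir_ne z a b hba ha)
    have hcard : (1 / 2 : ℝ) ^ (insert b S).card = 1 / 2 * (1 / 2) ^ S.card := by
      rw [Finset.card_insert_of_notMem hb, pow_succ, mul_comm]
    rw [hcard]
    refine ⟨W, _, hRW, hW, by positivity, by linarith, ?_, ?_⟩
    · intro ξ
      refine hWlo ξ _ fun e => ?_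
      have h1 := hlo (ξ + sd e (zv (fdir z a b)))
      rw [ip_add_right, ip_oo_sd _ _ _ (dot_fdir z a b), add_zero] at h1
      have h2 := hA.psd (ξ - sd e (zv (fdir z a b)))
      rw [mul_assoc]
      have h3 := mul_le_mul_of_nonneg_left h1 (by norm_num : (0 : ℝ) ≤ 1 / 2)
      linarith
    · intro c
      have h1 := hWup (∑ b ∈ insert b S, sd (c b) (zv (fdir z a b))) (-(c b))
      have e1 : (∑ b ∈ insert b S, sd (c b) (zv (fdir z a b))) + sd (-(c b)) (zv (fdir z a b)) =
          ∑ b ∈ S, sd (c b) (zv (fdir z a b)) := by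
        rw [Finset.sum_insert hb, sd_neg_left]
        abel
      have e2 : (∑ b ∈ insert b S, sd (c b) (zv (fdir z a b))) - sd (-(c b)) (zv (fdir z a b)) =
          (2 : ℝ) • sd (c b) (zv (fdir z a b)) + ∑ b ∈ S, sd (c b) (zv (fdir z a b)) := by
        rw [Finset.sum_insert hb, sd_neg_left, two_smul]
        abel
      rw [e1, e2] at h1
      refine h1.trans ?_
      have h2 := hup c
      have h3 : A.Q ((2 : ℝ) • sd (c b) (zv (fdir z a b)) + ∑ b ∈ S, sd (c b) (zv (fdir z a b))) ≤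
          β * ((2 * (4 * dot (zv (fdir z a b)) (zv (fdir z a b))) + 2 * K) * sz c) := by
        refine ((le_abs_self _).trans (hβ _)).trans (mul_le_mul_of_nonneg_left ?_ hβ0.le)
        refine (nsq_add_le _ _).trans ?_
        rw [nsq_smul]
        have h4 := hsum c
        have h5 := nsq_sd_le (c b) (zv (fdir z a b))
        have h6 := mul_le_mul_of_nonneg_left (le_sz c b)
          (dot_self_nonneg (zv (fdir z a b)))
        nlinarith
      have h7 := mul_le_mul_of_nonneg_left h2 (by norm_num : (0 : ℝ) ≤ 1 / 2)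
      have h8 := mul_le_mul_of_nonneg_left h3 (by norm_num : (0 : ℝ) ≤ 1 / 2)
      refine (add_le_add h7 h8).trans (le_of_eq ?_)
      ring

/-- symmetric matrices `N` with `z · N z = 0` are sums of the allowed jumps, with a bound -/
theorem decomp (z : Fin d → ℤ) (a : Fin d) (ha : z a ≠ 0) : ∃ K : ℝ, 0 ≤ K ∧
    ∀ N : M d, symm N = N → ip (oo (zv z)) N = 0 → ∃ c : Fin d → V d,
      N = ∑ b ∈ Finset.univ.erase a, sd (c b) (zv (fdir z a b)) ∧ sz c ≤ K * nsq N := by
  classical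
  have hza : (z a : ℝ) ≠ 0 := by exact_mod_cast ha
  refine ⟨2 / (z a : ℝ) ^ 2 + 2 * dot (zv z) (zv z) / (z a : ℝ) ^ 4, ?_, ?_⟩
  · have := dot_self_nonneg (zv z)
    positivity
  intro N hN h0
  have hNs : ∀ i j, N i j = N j i := fun i j => by rw [← hN]; exact symm_swap _ _ _
  set w : V d := mulV N (zv z) with hw
  have hw0 : ∑ b, (z b : ℝ) * w b = 0 := by
    have h1 := ip_oo (zv z) N
    rw [h0] at h1
    simpa [dot, zv] using h1.symm
  have hwi : ∀ i, ∑ b, (z b : ℝ) * N b i = w i := by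
    intro i
    rw [hw]
    simp only [mulV, zv]
    exact Finset.sum_congr rfl fun b _ => by rw [hNs b i]; ring
  refine ⟨fun b i => N b i / z a + w b / (z a) ^ 2 * (if i = a then 1 else 0), ?_, ?_⟩
  · have hfull : ∑ b ∈ Finset.univ.erase a,
        sd (fun i => N b i / z a + w b / (z a) ^ 2 * (if i = a then 1 else 0)) (zv (fdir z a b)) =
        ∑ b, sd (fun i => N b i / z a + w b / (z a) ^ 2 * (if i = a then 1 else 0))
          (zv (fdir z a b)) := by
      rw [Finset.sum_erase]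
      have h1 : zv (fdir z a a) = 0 := by
        ext j
        rw [zv_fdir]
        simp
      rw [h1, sd_zero_right]
    rw [hfull]
    -- the non-symmetrised sum
    have key : ∀ i j, ∑ b, (N b i / z a + w b / (z a) ^ 2 * (if i = a then 1 else 0)) *
        (zv (fdir z a b) j) = N j i + w j / z a * (if i = a then 1 else 0) -
          w i / z a * (if j = a then 1 else 0) := by
      intro i j
      simp only [zv_fdir]
      have e1 : ∀ b, (N b i / z a + w b / (z a : ℝ) ^ 2 * (if i = a then 1 else 0)) *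
          ((z a : ℝ) * (if j = b then 1 else 0) - (z b : ℝ) * (if j = a then 1 else 0)) =
          (if j = b then (N b i + w b / z a * (if i = a then 1 else 0)) else 0) -
          ((z b : ℝ) * N b i) * (1 / z a * (if j = a then 1 else 0)) -
          ((z b : ℝ) * w b) * (1 / (z a : ℝ) ^ 2 * (if i = a then 1 else 0) *
            (if j = a then 1 else 0)) := by
        intro b
        split_ifs <;> field_simp <;> ring_nf
      rw [Finset.sum_congr rfl fun b _ => e1 b, Finset.sum_sub_distrib, Finset.sum_sub_distrib,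
        ← Finset.sum_mul, ← Finset.sum_mul, hw0, hwi]
      simp
      ring
    ext i j
    rw [Finset.sum_apply, Finset.sum_apply]
    simp only [sd]
    rw [← Finset.sum_div, Finset.sum_add_distrib, key i j, key j i, hNs j i]
    ring
  · have hNN : nsq N = ∑ b, ∑ i, (N b i) ^ 2 := by
      rw [nsq_eq, hN]
    have hww : ∀ b, (w b) ^ 2 ≤ (∑ i, (N b i) ^ 2) * dot (zv z) (zv z) := by
      intro b
      have h1 := Finset.sum_mul_sq_le_sq_mul_sq Finset.univ (N b) (zv z)
      have h2 : dot (zv z) (zv z) = ∑ i, (zv z i) ^ 2 := by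
        simp only [dot, sq]
      rw [h2]
      exact h1
    have hpt : ∀ b, dot (fun i => N b i / z a + w b / (z a : ℝ) ^ 2 * (if i = a then 1 else 0))
        (fun i => N b i / z a + w b / (z a : ℝ) ^ 2 * (if i = a then 1 else 0)) ≤
        (2 / (z a : ℝ) ^ 2) * (∑ i, (N b i) ^ 2) + 2 / (z a : ℝ) ^ 4 * (w b) ^ 2 := by
      intro b
      have h1 : ∀ i, (N b i / z a + w b / (z a : ℝ) ^ 2 * (if i = a then 1 else 0)) *
          (N b i / z a + w b / (z a : ℝ) ^ 2 * (if i = a then 1 else 0)) ≤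
          (2 / (z a : ℝ) ^ 2) * (N b i) ^ 2 +
            (if i = a then 2 / (z a : ℝ) ^ 4 * (w b) ^ 2 else 0) := by
        intro i
        have e1 : 2 / (z a : ℝ) ^ 2 * (N b i) ^ 2 = 2 * (N b i / z a) ^ 2 := by
          field_simp
        have e2 : 2 / (z a : ℝ) ^ 4 * (w b) ^ 2 = 2 * (w b / (z a : ℝ) ^ 2) ^ 2 := by
          field_simp
        rw [e1, e2]
        split_ifs
        · nlinarith [sq_nonneg (N b i / z a - w b / (z a : ℝ) ^ 2)]
        · nlinarith [sq_nonneg (N b i / z a)]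
      unfold dot
      refine (Finset.sum_le_sum fun i _ => h1 i).trans (le_of_eq ?_)
      rw [Finset.sum_add_distrib, ← Finset.mul_sum]
      simp
    unfold sz
    refine (Finset.sum_le_sum fun b _ => hpt b).trans ?_
    rw [Finset.sum_add_distrib, ← Finset.mul_sum, ← Finset.mul_sum, ← hNN, add_mul]
    refine add_le_add (le_refl _) ?_
    have h3 : ∑ b, (w b) ^ 2 ≤ nsq N * dot (zv z) (zv z) := by
      rw [hNN, Finset.sum_mul]
      exact Finset.sum_le_sum fun b _ => hww b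
    have h4 : 0 ≤ 2 / (z a : ℝ) ^ 4 := by positivity
    refine (mul_le_mul_of_nonneg_left h3 h4).trans (le_of_eq ?_)
    ring

end FibRAux

open FibRAux in
/-- R4 -/
theorem fibR_ok (d : ℕ) (hE : BaseE d) (hQR : StmtQR d) (hLam : StmtLam d) (hVol : StmtLayVol d)
    (hHom : StmtRRHom d) (hBase : StmtRRBase d) (hEff : StmtEff d) : StmtFibR d := by
  intro hd A hA z hz
  obtain ⟨a, ha⟩ := Function.ne_iff.mp hz
  simp only [Pi.zero_apply] at ha
  have hzz : 0 < dot (zv z) (zv z) := by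
    apply dot_self_pos
    intro h
    have h1 := congrFun h a
    simp only [zv, Pi.zero_apply, Int.cast_eq_zero] at h1
    exact ha h1
  obtain ⟨B, hB, hit⟩ := iter hE hLam hVol hHom hBase hEff A hA z a ha
    (Finset.univ.erase a) (Finset.notMem_erase a _)
  obtain ⟨K, hK, hdec⟩ := decomp z a ha
  refine ⟨B * K + 1, by positivity, fun M => ?_⟩
  set M₀ : ℝ := |M| * 2 ^ (Finset.univ.erase a : Finset (Fin d)).card *
    (dot (zv z) (zv z)) ^ 2 with hM₀
  have hM₀0 : 0 ≤ M₀ := by positivity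
  obtain ⟨R, g, hg0, hg1, hR, hRPD, hRM⟩ := (hQR hd A hA).2 M₀
  obtain ⟨W, g', hRW, hW, hg'0, hg'1, hlo, hup⟩ := hit R g M₀ hR hRPD hg0 hg1 hM₀0 hRM
  refine ⟨W, g', hg'0, hg'1, hRW, hW, fun ξ => ?_, fun ξ hξ => ?_⟩
  · refine le_trans ?_ (hlo ξ)
    have e1 : (1 / 2 : ℝ) ^ (Finset.univ.erase a : Finset (Fin d)).card *
        (M₀ * (ip (oo (zv z)) ξ / dot (zv z) (zv z)) ^ 2) = |M| * (ip (oo (zv z)) ξ) ^ 2 := by
      have h2 : (1 / 2 : ℝ) ^ (Finset.univ.erase a : Finset (Fin d)).card *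
          2 ^ (Finset.univ.erase a : Finset (Fin d)).card = 1 := by
        rw [← mul_pow]
        norm_num
      have h3 : (dot (zv z) (zv z)) ^ 2 * (ip (oo (zv z)) ξ / dot (zv z) (zv z)) ^ 2 =
          (ip (oo (zv z)) ξ) ^ 2 := by
        rw [← mul_pow, mul_div_cancel₀ _ hzz.ne']
      rw [hM₀]
      calc (1 / 2 : ℝ) ^ (Finset.univ.erase a : Finset (Fin d)).card *
            (|M| * 2 ^ (Finset.univ.erase a : Finset (Fin d)).card * (dot (zv z) (zv z)) ^ 2 *
              (ip (oo (zv z)) ξ / dot (zv z) (zv z)) ^ 2)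
          = |M| * ((1 / 2 : ℝ) ^ (Finset.univ.erase a : Finset (Fin d)).card *
              2 ^ (Finset.univ.erase a : Finset (Fin d)).card) *
            ((dot (zv z) (zv z)) ^ 2 * (ip (oo (zv z)) ξ / dot (zv z) (zv z)) ^ 2) := by ring
        _ = |M| * (ip (oo (zv z)) ξ) ^ 2 := by rw [h2, h3, mul_one]
    rw [e1]
    exact mul_le_mul_of_nonneg_right (le_abs_self M) (sq_nonneg _)
  · have h1 : symm (symm ξ) = symm ξ := by
      ext i j
      simp only [symm]
      ring
    have h2 : ip (oo (zv z)) (symm ξ) = 0 := by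
      rw [ip_oo_symm]
      exact hξ
    obtain ⟨c, hc, hcz⟩ := hdec (symm ξ) h1 h2
    have h3 := hup c
    rw [← hc, Tens.Q_symm] at h3
    have h4 : nsq (symm ξ) = nsq ξ := by
      unfold nsq
      rw [h1]
    rw [h4] at hcz
    have h5 := mul_le_mul_of_nonneg_left hcz hB
    have h6 := nsq_nonneg ξ
    calc W.Q ξ ≤ B * sz c := h3
      _ ≤ B * (K * nsq ξ) := h5
      _ ≤ (B * K + 1) * nsq ξ := by nlinarith

end Pool.Agent.Lib.MP_5df1bf_an
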