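import Pool.Agent.Lib.MP_5df1bf_an.Final
import Pool.Agent.Lib.MP_5df1bf_an.Stmts4

/-!
# MP_5df1bf_an: final form of the theorem, Q2
-/

open MeasureTheory Filter Topology
open scoped BigOperators ContDiff

noncomputable section

namespace Pool.Agent.Lib.MP_5df1bf_an

variable {d : ℕ}

theorem isEffective_phaseR_iff (hH : StmtH1 d) (hM : StmtH1Min d) (hF : StmtPhaseR d) {A : Tens d}
    (hA : A.PD) {χ : Set (V d)} (hχ : Micro χ) {δ : ℝ} (hδ : 0 < δ) (hδ1 : δ ≤ 1) (C : Tens d) :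
    IsEffective (phaseR A δ χ) C ↔ ∀ ε, C.Q ε = eff (phaseR A δ χ) ε := by
  obtain ⟨α, hα, hlo⟩ := hA
  obtain ⟨β, _, hhi⟩ := A.exists_bound
  have hF' := hF A α β hα (fun ξ => ⟨hlo ξ, (le_abs_self _).trans (hhi ξ)⟩) χ hχ δ hδ hδ1
  exact isEffective_iff hH hM hα hF' (IsFld.zero_lo hα.le hF') C

theorem grigid_eq (hH : StmtH1 d) (hM : StmtH1Min d) (hF : StmtPhaseR d) {κ μ : ℝ}
    (hA : (iso κ μ : Tens d).PD) (f : ℝ) (S : Tens d) :
    S ∈ GRigid κ μ f ↔ S ∈ Gr (iso κ μ) f := by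
  constructor
  · rintro ⟨δ, χ, Cs, Ss, h1, h2, h3, h4, h5, h6⟩
    obtain ⟨n₀, hn₀⟩ : ∃ n₀, ∀ n, n₀ ≤ n → δ n < 1 := by
      have := h2.eventually (gt_mem_nhds (zero_lt_one' ℝ))
      rw [eventually_atTop] at this
      exact this
    refine ⟨fun n => δ (n + n₀), fun n => χ (n + n₀), fun n => Cs (n + n₀), fun n => Ss (n + n₀),
      fun n => ⟨h1 _, hn₀ _ (by omega)⟩, (tendsto_add_atTop_iff_nat n₀).mpr h2, fun n => h3 _, ?_,
      fun n => h5 _, fun ξ => (tendsto_add_atTop_iff_nat n₀).mpr (h6 ξ)⟩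
    intro n
    exact (isEffective_phaseR_iff hH hM hF hA (h3 _).1 (h1 _) (hn₀ _ (by omega)).le _).mp (h4 _)
  · rintro ⟨δ, χ, Cs, Ss, h1, h2, h3, h4, h5, h6⟩
    exact ⟨δ, χ, Cs, Ss, fun n => (h1 n).1, h2, h3,
      fun n => (isEffective_phaseR_iff hH hM hF hA (h3 n).1 (h1 n).1 (h1 n).2.le (Cs n)).mpr (h4 n),
      h5, h6⟩

/-- The characterization: `0 ≤ S ≤ P`, `P = f ((1-f) I + f Γ_m C₁)⁻¹ Γ_m`. -/
def CharR (κ μ f : ℝ) (S : Tens d) : Prop :=
  (∀ σ, 0 ≤ S.Q σ) ∧ ∃ (r : ℕ) (n : Fin r → V d) (m : Fin r → ℝ), (∀ i, dot (n i) (n i) = 1) ∧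
    (∀ i, 0 ≤ m i) ∧ (∑ i, m i = 1) ∧ ∃ P : Tens d,
      (∀ σ, (1 - f) • P.C σ + f • (Gm κ μ n m).C ((iso κ μ).C (P.C σ)) =
        f • (Gm κ μ n m).C σ) ∧
      ∀ σ, S.Q σ ≤ P.Q σ

/-- `σ ↦ B σ - B (R (B σ))` -/
def BRB (B R : Tens d) : Tens d where
  C := B.C - B.C ∘ₗ R.C ∘ₗ B.C
  sa := by
    intro X Y
    simp only [LinearMap.sub_apply, LinearMap.comp_apply, ip_sub_left, ip_sub_right]
    rw [B.sa X Y, B.sa (R.C (B.C X)) Y, R.sa (B.C X) (B.C Y), B.sa X (R.C (B.C Y))]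
  tr := by
    intro X
    simp only [LinearMap.sub_apply, LinearMap.comp_apply, Tens.tr]

theorem BRB_C (B R : Tens d) (σ : M d) : (BRB B R).C σ = B.C σ - B.C (R.C (B.C σ)) := rfl

theorem admR_iff_charR (hd : 1 ≤ d) (hI : StmtInvIso d) (hG : StmtGamIso d) (hInv : StmtInvT d)
    (hGT : StmtGamT d) {κ μ f : ℝ} (hκ : 0 < κ) (hμ : 0 < μ) (hf0 : 0 < f) (hf1 : f < 1)
    (S : Tens d) : AdmR (iso κ μ) f S ↔ CharR κ μ f S := by
  obtain ⟨hPD, _⟩ := hI hd κ μ hκ hμ (iso κ μ) (isIso_iso κ μ)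
  have hGamQ := hG hd κ μ hκ hμ (iso κ μ) (isIso_iso κ μ)
  set A : Tens d := iso κ μ with hAdef
  have hgam : ∀ n : V d, dot n n = 1 → ∀ q, Gam A n q = (gamma κ μ n).Q q := by
    intro n hn q
    rw [hGamQ n hn q, gamma_Q]
  obtain ⟨B, hBPD, hBQ, _, hB⟩ := hInv A hPD
  obtain ⟨Γ, _, hΓ2, _, _, _, _, _⟩ := hGT A hPD
  have h1f : 0 < 1 - f := by linarith
  have hGm0 : ∀ {r : ℕ} (n : Fin r → V d) (m : Fin r → ℝ), (∀ i, dot (n i) (n i) = 1) →
      (∀ i, 0 ≤ m i) → ∀ q, 0 ≤ (Gm κ μ n m).Q q := by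
    intro r n m hn hm q
    rw [Gm_Q]
    refine Finset.sum_nonneg fun i _ => mul_nonneg (hm i) ?_
    rw [← hgam (n i) (hn i) q]
    exact (hΓ2 (n i) q).1
  have hsum : ∀ {r : ℕ} (n : Fin r → V d) (m : Fin r → ℝ), (∀ i, dot (n i) (n i) = 1) → ∀ q,
      ∑ i, m i * Gam A (n i) q = (Gm κ μ n m).Q q := by
    intro r n m hn q
    rw [Gm_Q]
    exact Finset.sum_congr rfl fun i _ => by rw [hgam (n i) (hn i) q]
  constructor
  · rintro ⟨hS, r, n, m, hn, hm, hs, hle⟩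
    refine ⟨hS, r, n, m, hn, hm, hs, ?_⟩
    set G := Gm κ μ n m with hGdef
    have hS2 : (B + G.scale (f / (1 - f))).PD := by
      obtain ⟨a, ha, hlo⟩ := hBPD
      refine ⟨a, ha, fun q => ?_⟩
      rw [Tens.add_Q, Tens.scale_Q]
      have := mul_nonneg (div_nonneg hf0.le h1f.le) (hGm0 n m hn hm q)
      linarith [hlo q]
    obtain ⟨R, _, _, _, hR⟩ := hInv _ hS2
    have hR2 : ∀ ξ, B.C (R.C ξ) + (f / (1 - f)) • G.C (R.C ξ) = symm ξ := by
      intro ξ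
      have := (hR ξ).2
      rwa [Tens.add_C, Tens.scale_C] at this
    refine ⟨BRB B R, ?_, ?_⟩
    · intro σ
      rw [BRB_C, map_sub, (hB σ).2, (hB (R.C (B.C σ))).2, Tens.symm_C, map_sub, Tens.C_symm,
        smul_sub, smul_sub]
      have h := hR2 (B.C σ)
      rw [Tens.symm_C] at h
      have h2 : (1 - f) • B.C (R.C (B.C σ)) + f • G.C (R.C (B.C σ)) = (1 - f) • B.C σ := by
        conv_rhs => rw [← h]
        rw [smul_add, smul_smul]
        congr 2
        field_simp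
      rw [← h2]
      abel
    · intro σ
      have h1 := hle σ ((1 / (1 - f)) • R.C (B.C σ))
      rw [hsum n m hn, ← hGdef, hBQ, Tens.Q_smul, smul_smul,
        mul_one_div_cancel h1f.ne', one_smul, Tens.Q_sub] at h1
      have e1 : ip (B.C σ) (R.C (B.C σ)) = R.Q (B.C σ) := by rw [ip_comm]; rfl
      have e2 : B.Q (R.C (B.C σ)) + (f / (1 - f)) * G.Q (R.C (B.C σ)) = R.Q (B.C σ) := by
        have h := hR2 (B.C σ)
        have : ip (B.C (R.C (B.C σ)) + (f / (1 - f)) • G.C (R.C (B.C σ))) (R.C (B.C σ)) =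
            ip (symm (B.C σ)) (R.C (B.C σ)) := by rw [h]
        rw [ip_add_left, ip_smul_left, Tens.symm_C, e1] at this
        exact this
      have e3 : (BRB B R).Q σ = B.Q σ - R.Q (B.C σ) := by
        unfold Tens.Q
        rw [BRB_C, ip_sub_left]
        congr 1
        rw [B.sa, ip_comm]
      have e4 : f * (1 - f) * ((1 / (1 - f)) ^ 2 * G.Q (R.C (B.C σ))) =
          f / (1 - f) * G.Q (R.C (B.C σ)) := by
        field_simp
      rw [e3]
      rw [e1, e4] at h1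
      linarith
  · rintro ⟨hS, r, n, m, hn, hm, hs, P, hP, hle⟩
    refine ⟨hS, r, n, m, hn, hm, hs, ?_⟩
    intro σ q
    rw [hsum n m hn, hBQ]
    set G := Gm κ μ n m with hGdef
    refine (hle σ).trans ?_
    -- the stationary point
    set X : M d := P.C σ with hX
    have hXs : symm X = X := by rw [hX, Tens.symm_C]
    set y : M d := (1 / (1 - f)) • (σ - A.C X) with hy
    have hy1 : (1 - f) • y = σ - A.C X := by
      rw [hy, smul_smul, mul_one_div_cancel h1f.ne', one_smul]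
    have hGy : f • G.C y = X := by
      have h := hP σ
      rw [← hX] at h
      have h2 : (1 - f) • X = f • G.C ((1 - f) • y) := by
        rw [hy1, map_sub, smul_sub, ← h]; abel
      rw [map_smul, smul_comm] at h2
      have h3 := congrArg (fun Z => (1 / (1 - f)) • Z) h2
      simp only [smul_smul, one_div_mul_cancel h1f.ne', one_smul] at h3
      rw [h3, ← mul_assoc, one_div_mul_cancel h1f.ne', one_mul]
    have hBy : B.C (σ - (1 - f) • y) = X := by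
      rw [hy1, sub_sub_cancel, (hB X).1, hXs]
    have hF : B.Q (σ - (1 - f) • y) + f * (1 - f) * G.Q y = P.Q σ := by
      have e1 : B.Q (σ - (1 - f) • y) = ip X σ - (1 - f) * ip X y := by
        unfold Tens.Q
        rw [hBy, ip_sub_right, ip_smul_right]
      have e2 : f * G.Q y = ip X y := by
        unfold Tens.Q
        rw [← ip_smul_left, hGy]
      have e3 : P.Q σ = ip X σ := rfl
      rw [e1, e3]
      have : f * (1 - f) * G.Q y = (1 - f) * (f * G.Q y) := by ring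
      rw [this, e2]; ring
    rw [← hF]
    have hq : q = y + (q - y) := by abel
    have e5 : σ - (1 - f) • q = (σ - (1 - f) • y) - (1 - f) • (q - y) := by
      rw [smul_sub]; abel
    have e6 : B.Q (σ - (1 - f) • q) = B.Q (σ - (1 - f) • y) - 2 * ((1 - f) * ip X (q - y)) +
        (1 - f) ^ 2 * B.Q (q - y) := by
      rw [e5, Tens.Q_sub, hBy, ip_smul_right, Tens.Q_smul]
    have e7 : G.Q q = G.Q y + 2 * ip (G.C y) (q - y) + G.Q (q - y) := by
      conv_lhs => rw [hq]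
      rw [Tens.Q_add]
    have e8 : f * ip (G.C y) (q - y) = ip X (q - y) := by
      rw [← ip_smul_left, hGy]
    have hB0 := hBPD.psd (q - y)
    have hG0 := hGm0 n m hn hm (q - y)
    rw [e6, e7]
    have : f * (1 - f) * (G.Q y + 2 * ip (G.C y) (q - y) + G.Q (q - y)) =
        f * (1 - f) * G.Q y + 2 * (1 - f) * (f * ip (G.C y) (q - y)) +
          f * (1 - f) * G.Q (q - y) := by ring
    rw [this, e8]
    have h9 : 0 ≤ f * (1 - f) * G.Q (q - y) := mul_nonneg (mul_nonneg hf0.le h1f.le) hG0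
    have h10 : 0 ≤ (1 - f) ^ 2 * B.Q (q - y) := mul_nonneg (sq_nonneg _) hB0
    linarith

/-- The G-closure theorem for the rigid phase, from the statements of the modules. -/
theorem gclosureR (hd : 2 ≤ d) (hNec : StmtNecR d) (hSuf : StmtSufR d) (hF : StmtPhaseR d)
    (hH : StmtH1 d) (hM : StmtH1Min d) (hI : StmtInvIso d) (hG : StmtGamIso d) (hInv : StmtInvT d)
    (hGT : StmtGamT d) {κ μ f : ℝ} (hκ : 0 < κ) (hμ : 0 < μ) (hf0 : 0 < f) (hf1 : f < 1)
    (S : Tens d) : S ∈ GRigid κ μ f ↔ CharR κ μ f S := by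
  have hd1 : 1 ≤ d := by omega
  obtain ⟨hPD, _⟩ := hI hd1 κ μ hκ hμ (iso κ μ) (isIso_iso κ μ)
  rw [grigid_eq hH hM hF hPD f S, ← admR_iff_charR hd1 hI hG hInv hGT hκ hμ hf0 hf1 S]
  exact ⟨fun h => hNec (iso κ μ) f hPD hf0 hf1 S h, fun h => hSuf hd (iso κ μ) f hPD hf0 hf1 S h⟩

end Pool.Agent.Lib.MP_5df1bf_an
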