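import Pool.Agent.Lib.MP_5df1bf_an.Stmts4
import Pool.Agent.Lib.MP_5df1bf_an.RzHom

/-!
# MP_5df1bf_an: rigid phase, calculus with fixed contrast (R-1a)

`PhaseR_ok`, `GdBase_ok`, `GdHom_ok`.
-/

open MeasureTheory Filter Topology
open scoped BigOperators ContDiff

noncomputable section

namespace Pool.Agent.Lib.MP_5df1bf_an

variable {d : ℕ}

open RzHomAux

/-- R0 -/
theorem PhaseR_ok : StmtPhaseR d := by
  intro A α β hα hA χ hχ δ hδ hδ1
  classical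
  have hA0 : ∀ ξ, 0 ≤ A.Q ξ := fun ξ => le_trans (mul_nonneg hα.le (nsq_nonneg ξ)) (hA ξ).1
  have hi1 : 1 ≤ δ⁻¹ := (one_le_inv₀ hδ).2 hδ1
  have hi0 : 0 ≤ δ⁻¹ := le_trans zero_le_one hi1
  refine ⟨fun P R => ?_, fun x i => ?_, fun x ξ => ?_, fun x ξ => ?_⟩
  · have h : (fun x => ip ((phaseR A δ χ x).C P) R) = fun x =>
        if x ∈ χ then ip (A.C P) R else ip ((A.scale δ⁻¹).C P) R := by
      funext x
      unfold phaseR
      split_ifs <;> rfl
    rw [h]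
    exact Measurable.ite hχ.1 measurable_const measurable_const
  · unfold phaseR
    by_cases hx : x ∈ χ
    · rw [if_pos hx, if_pos ((hχ.2 x i).2 hx)]
    · rw [if_neg hx, if_neg fun h => hx ((hχ.2 x i).1 h)]
  · unfold phaseR
    have h1 := (hA ξ).1
    split_ifs
    · exact h1
    · rw [RzHomAux.scale_Q]
      have : 1 * A.Q ξ ≤ δ⁻¹ * A.Q ξ := mul_le_mul_of_nonneg_right hi1 (hA0 ξ)
      linarith
  · unfold phaseR
    have h1 := (hA ξ).2
    have h0 : 0 ≤ β * nsq ξ := (hA0 ξ).trans h1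
    split_ifs
    · have : 1 * (β * nsq ξ) ≤ δ⁻¹ * (β * nsq ξ) := mul_le_mul_of_nonneg_right hi1 h0
      rw [mul_assoc]; linarith
    · rw [RzHomAux.scale_Q, mul_assoc]
      exact mul_le_mul_of_nonneg_left h1 hi0

/-- R1a -/
theorem GdBase_ok (hE : BaseE d) : StmtGdBase d := by
  intro A hA δ hδ hδ1
  have hpsd := hA.psd
  constructor
  · intro η hη
    refine ⟨Set.univ, micro_univ, ?_, fun ε => ?_⟩
    · rw [frac_univ hE]; simpa using hη
    · have h1 : phaseR A δ (Set.univ : Set (V d)) = fun _ => A := by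
        funext x; simp [phaseR]
      rw [h1, hE.eff_const A hpsd ε, sub_self, abs_zero]
      exact mul_nonneg hη.le (nsq_nonneg ε)
  · intro η hη
    refine ⟨∅, micro_empty, ?_, fun ε => ?_⟩
    · rw [frac_empty]; simpa using hη
    · have h1 : phaseR A δ (∅ : Set (V d)) = fun _ => A.scale δ⁻¹ := by
        funext x; simp [phaseR]
      have h0 : (A.scale δ⁻¹).PSD := by
        intro ξ
        rw [RzHomAux.scale_Q]; exact mul_nonneg (inv_nonneg.2 hδ.le) (hpsd ξ)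
      rw [h1, hE.eff_const _ h0 ε, sub_self, abs_zero]
      exact mul_nonneg hη.le (nsq_nonneg ε)

namespace GdHomAux

/-- finitely many positive numbers have a common positive lower bound -/
theorem common_lo {m : ℕ} (a : Fin m → ℝ) (ha : ∀ i, 0 < a i) : ∃ b : ℝ, 0 < b ∧ ∀ i, b ≤ a i := by
  have h1 : ∀ᶠ x in 𝓝[>] (0 : ℝ), ∀ i, x < a i := by
    rw [eventually_all]
    intro i
    exact (gt_mem_nhds (ha i)).filter_mono nhdsWithin_le_nhds
  obtain ⟨x, hx, hx0⟩ := (h1.and self_mem_nhdsWithin).exists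
  exact ⟨x, hx0, fun i => (hx i).le⟩

/-- common bounds for finitely many positive definite tensors -/
theorem common_bd {m : ℕ} (T : Fin m → Tens d) (hT : ∀ i, (T i).PD) :
    ∃ a > 0, ∃ B > 0, ∀ i ξ, a * nsq ξ ≤ (T i).Q ξ ∧ (T i).Q ξ ≤ B * nsq ξ := by
  choose a ha h1 using hT
  obtain ⟨b, hb, hba⟩ := common_lo a ha
  choose c hc0 hc1 using fun i => (T i).exists_bound
  refine ⟨b, hb, 1 + ∑ i, c i, ?_, fun i ξ => ⟨?_, ?_⟩⟩
  · have : 0 ≤ ∑ i, c i := Finset.sum_nonneg fun i _ => (hc0 i).le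
    linarith
  · exact (mul_le_mul_of_nonneg_right (hba i) (nsq_nonneg ξ)).trans (h1 i ξ)
  · refine ((le_abs_self _).trans (hc1 i ξ)).trans (mul_le_mul_of_nonneg_right ?_ (nsq_nonneg _))
    have := Finset.single_le_sum (f := c) (fun j _ => (hc0 j).le) (Finset.mem_univ i)
    linarith

/-- two-sided comparison of effective tensors of piecewise constant fields -/
theorem step_cmp (hE : BaseE d) (hMono : StmtMono d) {m : ℕ} (idx : V d → Fin m)
    (hm : Measurable idx) (hp : Per idx) (T T' : Fin m → Tens d) (B B' τ : ℝ) (hτ : 0 ≤ τ)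
    (hτ1 : τ ≤ 1) (hT : ∀ i ξ, 0 ≤ (T i).Q ξ ∧ (T i).Q ξ ≤ B * nsq ξ)
    (hT' : ∀ i ξ, 0 ≤ (T' i).Q ξ ∧ (T' i).Q ξ ≤ B' * nsq ξ)
    (h : ∀ i ξ, (1 - τ) * (T i).Q ξ ≤ (T' i).Q ξ ∧ (T' i).Q ξ ≤ (1 + τ) * (T i).Q ξ) (ε : M d) :
    (1 - τ) * eff (fun x => T (idx x)) ε ≤ eff (fun x => T' (idx x)) ε ∧
      eff (fun x => T' (idx x)) ε ≤ (1 + τ) * eff (fun x => T (idx x)) ε := by
  have hTf : IsFld (fun x => T (idx x)) 0 B :=
    hE.step_fld m idx T 0 B hm hp fun i ξ => ⟨by rw [zero_mul]; exact (hT i ξ).1, (hT i ξ).2⟩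
  have hTf' : IsFld (fun x => T' (idx x)) 0 B' :=
    hE.step_fld m idx T' 0 B' hm hp fun i ξ => ⟨by rw [zero_mul]; exact (hT' i ξ).1, (hT' i ξ).2⟩
  have hsc : ∀ c : ℝ, 0 ≤ c → IsFld (fun x => ((T (idx x)).scale c)) 0 (c * B) := fun c hc =>
    hE.step_fld m idx (fun i => (T i).scale c) 0 (c * B) hm hp fun i ξ => by
      rw [RzHomAux.scale_Q, zero_mul]
      refine ⟨mul_nonneg hc (hT i ξ).1, ?_⟩
      rw [mul_assoc]; exact mul_le_mul_of_nonneg_left (hT i ξ).2 hc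
  constructor
  · rw [← hE.eff_scale _ B hTf (1 - τ) (by linarith) ε]
    refine hMono _ _ _ _ (hsc (1 - τ) (by linarith)) hTf' (fun x ξ => ?_) ε
    show ((T (idx x)).scale (1 - τ)).Q ξ ≤ (T' (idx x)).Q ξ
    rw [RzHomAux.scale_Q]
    exact (h (idx x) ξ).1
  · rw [← hE.eff_scale _ B hTf (1 + τ) (by linarith) ε]
    refine hMono _ _ _ _ hTf' (hsc (1 + τ) (by linarith)) (fun x ξ => ?_) ε
    show (T' (idx x)).Q ξ ≤ ((T (idx x)).scale (1 + τ)).Q ξ
    rw [RzHomAux.scale_Q]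
    exact (h (idx x) ξ).2

end GdHomAux

open GdHomAux

/-- R1b' (for given microstructures): reiteration with fixed contrast, quantitative form -/
theorem GdHomN_ok (hE : BaseE d) (hUp : StmtTSup d) (hLo : StmtTSlo d) (hEff : StmtEff d)
    (hMono : StmtMono d) (hAvg : StmtAvg d) (A : Tens d) (hA : A.PD) (δ : ℝ) (hδ : 0 < δ)
    (hδ1 : δ < 1) (m : ℕ) (idx : V d → Fin m) (hm : Measurable idx) (hp : Per idx)
    (T : Fin m → Tens d) (f : Fin m → ℝ) (a B τ : ℝ) (ha : 0 < a) (hτ : 0 < τ) (hτ1 : τ ≤ 1)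
    (hT : ∀ i ξ, a * nsq ξ ≤ (T i).Q ξ ∧ (T i).Q ξ ≤ B * nsq ξ)
    (W : Tens d) (hW : ∀ ε, W.Q ε = eff (fun x => T (idx x)) ε)
    (χ : Fin m → Set (V d)) (hχ : ∀ i, Micro (χ i)) (κ : ℝ)
    (hfr : ∀ i, |frac (χ i) - f i| ≤ κ)
    (heff : ∀ i ε, (1 - τ) * (T i).Q ε ≤ eff (phaseR A δ (χ i)) ε ∧
      eff (phaseR A δ (χ i)) ε ≤ (1 + τ) * (T i).Q ε) :
    ∀ η > 0, ∃ n₀ : ℕ, ∀ n : ℕ, n₀ ≤ n → Micro {x | (n : ℝ) • x ∈ χ (idx x)} ∧
      |frac {x | (n : ℝ) • x ∈ χ (idx x)} - ∑ i, frac {x | idx x = i} * f i| ≤ η + m * κ ∧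
      ∀ ε, |eff (phaseR A δ {x | (n : ℝ) • x ∈ χ (idx x)}) ε - W.Q ε| ≤
        τ * W.Q ε + η * nsq ε := by
  intro η hη
  obtain ⟨α, hα, β, hβ, hb⟩ := bounds A hA
  have hD : ∀ i, IsFld (phaseR A δ (χ i)) α (δ⁻¹ * β) := fun i =>
    PhaseR_ok A α β hα hb (χ i) (hχ i) δ hδ hδ1.le
  have hD0 : ∀ i, IsFld (phaseR A δ (χ i)) 0 (δ⁻¹ * β) := fun i => fld_weaken hα.le (hD i)
  choose Wi hWi hWb using fun i => hEff _ _ (hD0 i)
  have hWlo : ∀ i ξ, α * nsq ξ ≤ (Wi i).Q ξ ∧ (Wi i).Q ξ ≤ δ⁻¹ * β * nsq ξ := by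
    intro i ξ
    rw [hWi]
    exact hE.eff_bd _ _ _ hα.le (hD i) ξ
  have hWf : IsFld (fun x => Wi (idx x)) α (δ⁻¹ * β) := hE.step_fld m idx Wi _ _ hm hp hWlo
  have hWf0 := fld_weaken hα.le hWf
  obtain ⟨E, hEe, -⟩ := hEff _ _ hWf0
  have hF : ∀ n : ℕ, IsFld (fun x => phaseR A δ (χ (idx x)) ((n : ℝ) • x)) α (δ⁻¹ * β) := fun n =>
    hE.osc_fld m idx (fun i => phaseR A δ (χ i)) _ _ hm hp hD n
  choose En hEn _ using fun n => hEff _ _ (fld_weaken hα.le (hF n))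
  have hconv : ∀ ξ, Tendsto (fun n => (En n).Q ξ) atTop (𝓝 (E.Q ξ)) := by
    intro ξ
    rw [Metric.tendsto_atTop]
    intro κ' hκ'
    obtain ⟨n₁, h1⟩ := hUp m idx hm hp (fun i => phaseR A δ (χ i)) _ _ hα hD Wi hWi ξ (κ' / 2)
      (by positivity)
    obtain ⟨n₂, h2⟩ := hLo m idx hm hp (fun i => phaseR A δ (χ i)) _ _ hα hD Wi hWi ξ (κ' / 2)
      (by positivity)
    refine ⟨max n₁ n₂, fun n hn => ?_⟩
    have h3 := h1 n ((le_max_left _ _).trans hn)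
    have h4 := h2 n ((le_max_right _ _).trans hn)
    rw [← hEe, ← hEn] at h3 h4
    rw [Real.dist_eq, abs_lt]
    constructor <;> linarith
  have hunif := tens_unif En E hconv η hη
  have hvol := (frac_osc hE hAvg idx hm hp χ hχ).eventually
    (Metric.ball_mem_nhds _ (show (0 : ℝ) < η by positivity))
  obtain ⟨n₀, hn₀⟩ := (hunif.and hvol).exists_forall_of_atTop
  refine ⟨n₀, fun n hn => ?_⟩
  obtain ⟨hu, hv⟩ := hn₀ n hn
  refine ⟨micro_osc idx hm hp χ hχ n, ?_, fun ε => ?_⟩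
  · have hv' : |frac {x | (n : ℝ) • x ∈ χ (idx x)} - ∑ i, frac {x | idx x = i} * frac (χ i)| <
        η := by
      have := Metric.mem_ball.mp hv
      rwa [Real.dist_eq] at this
    have h5 : |∑ i, frac {x | idx x = i} * frac (χ i) - ∑ i, frac {x | idx x = i} * f i| ≤
        m * κ := by
      rw [← Finset.sum_sub_distrib]
      refine (Finset.abs_sum_le_sum_abs _ _).trans ?_
      calc ∑ i, |frac {x | idx x = i} * frac (χ i) - frac {x | idx x = i} * f i|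
          ≤ ∑ _i : Fin m, κ := by
            refine Finset.sum_le_sum fun i _ => ?_
            rw [← mul_sub, abs_mul, abs_of_nonneg (frac_nonneg _)]
            calc frac {x | idx x = i} * |frac (χ i) - f i| ≤ 1 * κ :=
                  mul_le_mul (frac_le_one hE _) (hfr i) (abs_nonneg _) zero_le_one
              _ = κ := one_mul _
        _ = m * κ := by simp
    calc |frac {x | (n : ℝ) • x ∈ χ (idx x)} - ∑ i, frac {x | idx x = i} * f i|
        ≤ |frac {x | (n : ℝ) • x ∈ χ (idx x)} - ∑ i, frac {x | idx x = i} * frac (χ i)| +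
          |∑ i, frac {x | idx x = i} * frac (χ i) - ∑ i, frac {x | idx x = i} * f i| :=
          abs_sub_le _ _ _
      _ ≤ η + m * κ := by linarith
  · have hph : phaseR A δ {x | (n : ℝ) • x ∈ χ (idx x)} =
        fun x => phaseR A δ (χ (idx x)) ((n : ℝ) • x) := rfl
    rw [hph, ← hEn]
    have h6 := hu ε
    have hT0 : ∀ i ξ, 0 ≤ (T i).Q ξ ∧ (T i).Q ξ ≤ B * nsq ξ := fun i ξ =>
      ⟨le_trans (mul_nonneg ha.le (nsq_nonneg ξ)) (hT i ξ).1, (hT i ξ).2⟩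
    have hWi0 : ∀ i ξ, 0 ≤ (Wi i).Q ξ ∧ (Wi i).Q ξ ≤ δ⁻¹ * β * nsq ξ := fun i ξ =>
      ⟨le_trans (mul_nonneg hα.le (nsq_nonneg ξ)) (hWlo i ξ).1, (hWlo i ξ).2⟩
    have hcmp := step_cmp hE hMono idx hm hp T Wi B (δ⁻¹ * β) τ hτ.le hτ1 hT0 hWi0
      (fun i ξ => by rw [hWi]; exact heff i ξ) ε
    rw [← hW, ← hEe] at hcmp
    have h7 : |E.Q ε - W.Q ε| ≤ τ * W.Q ε := by
      rw [abs_le]
      constructor <;> linarith [hcmp.1, hcmp.2]
    calc |(En n).Q ε - W.Q ε| ≤ |(En n).Q ε - E.Q ε| + |E.Q ε - W.Q ε| := abs_sub_le _ _ _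
      _ ≤ τ * W.Q ε + η * nsq ε := by linarith

/-- R1b -/
theorem GdHom_ok (hE : BaseE d) (hUp : StmtTSup d) (hLo : StmtTSlo d) (hEff : StmtEff d)
    (hMono : StmtMono d) (hAvg : StmtAvg d) : StmtGdHom d := by
  intro A hA δ hδ hδ1 m idx hm hp T f hT hG W hW η hη
  obtain ⟨a, ha, B, hB, hbd⟩ := common_bd T hT
  set τ : ℝ := min 1 (η / (2 * B)) with hτd
  have hτ : 0 < τ := by rw [hτd]; positivity
  have hτ1 : τ ≤ 1 := min_le_left _ _
  have hτ2 : τ * B ≤ η / 2 := by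
    have : τ ≤ η / (2 * B) := min_le_right _ _
    rw [le_div_iff₀ (by positivity)] at this
    linarith
  set κ : ℝ := min (τ * a) (η / (4 * (m + 1))) with hκd
  have hκ : 0 < κ := by rw [hκd]; positivity
  choose χ hχ hfr heff using fun i => hG i κ hκ
  have hheff : ∀ i ε, (1 - τ) * (T i).Q ε ≤ eff (phaseR A δ (χ i)) ε ∧
      eff (phaseR A δ (χ i)) ε ≤ (1 + τ) * (T i).Q ε := by
    intro i ε
    have h1 := heff i ε
    have h2 : κ * nsq ε ≤ τ * (T i).Q ε := by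
      calc κ * nsq ε ≤ τ * a * nsq ε := mul_le_mul_of_nonneg_right (min_le_left _ _) (nsq_nonneg _)
        _ = τ * (a * nsq ε) := by ring
        _ ≤ τ * (T i).Q ε := mul_le_mul_of_nonneg_left (hbd i ε).1 hτ.le
    rw [abs_le] at h1
    constructor <;> linarith [h1.1, h1.2]
  obtain ⟨n₀, hn₀⟩ := GdHomN_ok hE hUp hLo hEff hMono hAvg A hA δ hδ hδ1 m idx hm hp T f a B τ ha hτ
    hτ1 hbd W hW χ hχ κ (fun i => (hfr i).le) hheff (η / 2) (by positivity)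
  obtain ⟨h1, h2, h3⟩ := hn₀ n₀ le_rfl
  refine ⟨_, h1, ?_, fun ε => ?_⟩
  · have h4 : (m : ℝ) * κ ≤ η / 4 := by
      calc (m : ℝ) * κ ≤ m * (η / (4 * (m + 1))) :=
            mul_le_mul_of_nonneg_left (min_le_right _ _) (Nat.cast_nonneg _)
        _ ≤ η / 4 := by
          rw [mul_div_assoc', div_le_div_iff₀ (by positivity) (by norm_num)]
          nlinarith
    linarith
  · have h4 := h3 ε
    have hns := nsq_nonneg ε
    have hWB : W.Q ε ≤ B * nsq ε := by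
      rw [hW]
      refine (hE.eff_bd _ 0 B le_rfl ?_ ε).2
      exact hE.step_fld m idx T 0 B hm hp fun i ξ =>
        ⟨by rw [zero_mul]; exact le_trans (mul_nonneg ha.le (nsq_nonneg ξ)) (hbd i ξ).1,
          (hbd i ξ).2⟩
    have h5 : τ * W.Q ε ≤ η / 2 * nsq ε := by
      calc τ * W.Q ε ≤ τ * (B * nsq ε) := mul_le_mul_of_nonneg_left hWB hτ.le
        _ = τ * B * nsq ε := by ring
        _ ≤ η / 2 * nsq ε := mul_le_mul_of_nonneg_right hτ2 hns
    linarith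

end Pool.Agent.Lib.MP_5df1bf_an
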