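import Pool.Agent.Lib.MP_5df1bf_an.Stmts4
import Pool.Agent.Lib.MP_5df1bf_an.HSb

/-!
# MP_5df1bf_an, R8: the Hashin–Shtrikman lower bound for a rigid second phase
-/

open MeasureTheory Filter Topology
open scoped BigOperators ContDiff

noncomputable section

namespace Pool.Agent.Lib.MP_5df1bf_an
namespace HSRb

open HSb

variable {d : ℕ}

/-- Euler-Lagrange equation of the maximiser -/
lemma el {A : Tens d} {q : M d} {n a₀ : V d}
    (h : ∀ a, 2 * ip q (sd a n) - A.Q (sd a n) ≤ 2 * ip q (sd a₀ n) - A.Q (sd a₀ n)) (b : V d) :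
    ip q (sd b n) = ip (A.C (sd a₀ n)) (sd b n) := by
  by_contra hne
  set c := ip q (sd b n) - ip (A.C (sd a₀ n)) (sd b n) with hc
  set e := A.Q (sd b n) with he
  have hc0 : c ≠ 0 := sub_ne_zero.mpr hne
  have h1 : ∀ t : ℝ, 2 * t * c ≤ t ^ 2 * e := by
    intro t
    have h2 := h (a₀ + t • b)
    rw [sd_add_left, sd_smul_left, ip_add_right, ip_smul_right, A.Q_add, A.Q_smul,
      ip_smul_right] at h2
    rw [hc, he]
    linarith
  have h3 := h1 (c / (|e| + 1))
  have h4 : 0 < |e| + 1 := by positivity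
  have h5 : e ≤ |e| := le_abs_self e
  rw [div_pow, mul_assoc, div_mul_eq_mul_div, mul_div_assoc', div_mul_eq_mul_div,
    div_le_div_iff₀ h4 (by positivity)] at h3
  have h6 : 0 < c ^ 2 := by positivity
  have h7 : 2 * (c * c) * (|e| + 1) ^ 2 = (2 * c ^ 2 * (|e| + 1)) * (|e| + 1) := by ring
  rw [h7] at h3
  have h8 := le_of_mul_le_mul_right h3 h4
  nlinarith [mul_pos h6 h4]

/-- divergence free fields with one frequency -/
lemma int_am_div (hPa : StmtParts d) (α β : ℝ) (k : Fin d → ℤ) (τ : M d)
    (hτ : ∀ b : V d, ip τ (sd b (zv k)) = 0) (u : Disp d) :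
    ∫ x in cell d, am α β k x * ip τ (sg u.u x) = 0 := by
  have hphd : ContDiff ℝ ∞ (ph k) := (ph k).contDiff
  have hamd : ContDiff ℝ 1 (am α β k) := by
    have h1 : ContDiff ℝ ∞ (am α β k) := by
      unfold am
      exact ((Real.contDiff_cos.comp hphd).const_smul α).add
        ((Real.contDiff_sin.comp hphd).const_smul β)
    exact h1.of_le (by exact_mod_cast le_top)
  have hud : ContDiff ℝ 1 u.u := u.smooth.of_le (by exact_mod_cast le_top)
  have hui : ∀ i, ContDiff ℝ 1 (fun y => u.u y i) := fun i => (contDiff_pi.mp hud) i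
  set f : Fin d → V d → ℝ := fun i y => am α β k y * u.u y i with hf
  have hfd : ∀ i, ContDiff ℝ 1 (f i) := fun i => hamd.mul (hui i)
  have hamper : Per (am α β k) := by
    intro x i
    have h1 := sin_per k x i
    have h2 := cos_per k x i
    simp only at h1 h2
    simp only [am, h1, h2]
  have hfper : ∀ i, Per (f i) := by
    intro i x j
    simp only [hf]
    rw [hamper x j, u.per x j]
  have hder : ∀ x (i j : Fin d), fderiv ℝ (f i) x (Pi.single j 1) =
      am α β k x * grad u.u x i j +
        u.u x i * ((2 * Real.pi * (β * Real.cos (ph k x) - α * Real.sin (ph k x))) * k j) := by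
    intro x i j
    have hph : HasFDerivAt (fun x => ph k x) (ph k) x := (ph k).hasFDerivAt
    have h1 : HasFDerivAt (am α β k)
        (α • (-Real.sin (ph k x) • ph k) + β • (Real.cos (ph k x) • ph k)) x :=
      (hph.cos.const_mul α).add (hph.sin.const_mul β)
    have h2 : HasFDerivAt u.u (fderiv ℝ u.u x) x :=
      (hud.differentiable one_ne_zero x).hasFDerivAt
    have h3 : HasFDerivAt (fun y => u.u y i)
        ((ContinuousLinearMap.proj (R := ℝ) (φ := fun _ : Fin d => ℝ) i).comp
          (fderiv ℝ u.u x)) x :=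
      (ContinuousLinearMap.proj (R := ℝ) (φ := fun _ : Fin d => ℝ) i).hasFDerivAt.comp x h2
    have h4 := (h1.mul h3).fderiv
    have h5 : fderiv ℝ (f i) x = _ := h4
    rw [h5]
    simp only [add_apply, smul_apply, ContinuousLinearMap.comp_apply,
      ContinuousLinearMap.proj_apply, ph_single, smul_eq_mul, grad]
    ring
  have hpt : ∀ x, am α β k x * ip τ (sg u.u x) =
      ∑ i, ∑ j, symm τ i j * fderiv ℝ (f i) x (Pi.single j 1) := by
    intro x
    have h1 : ip τ (sg u.u x) = ∑ i, ∑ j, symm τ i j * grad u.u x i j := by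
      rw [sg, ← ip_symm_left]
      rfl
    have h2 : ∑ i, ∑ j, symm τ i j * (u.u x i * (k j : ℝ)) = 0 := by
      have h3 := hτ (u.u x)
      rw [ip_sd] at h3
      rw [← h3]
      unfold dot mulV zv
      refine Finset.sum_congr rfl fun i _ => ?_
      rw [Finset.mul_sum]
      exact Finset.sum_congr rfl fun j _ => by ring
    have h4 : ∑ i, ∑ j, symm τ i j * fderiv ℝ (f i) x (Pi.single j 1) =
        am α β k x * (∑ i, ∑ j, symm τ i j * grad u.u x i j) +
        (2 * Real.pi * (β * Real.cos (ph k x) - α * Real.sin (ph k x))) *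
          ∑ i, ∑ j, symm τ i j * (u.u x i * (k j : ℝ)) := by
      simp only [hder, Finset.mul_sum]
      rw [← Finset.sum_add_distrib]
      refine Finset.sum_congr rfl fun i _ => ?_
      rw [← Finset.sum_add_distrib]
      exact Finset.sum_congr rfl fun j _ => by ring
    rw [h4, h2, h1, mul_zero, add_zero]
  simp only [hpt]
  have hcont : ∀ i j, Continuous fun x => symm τ i j * fderiv ℝ (f i) x (Pi.single j 1) := by
    intro i j
    exact continuous_const.mul (((hfd i).continuous_fderiv one_ne_zero).clm_apply continuous_const)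
  rw [integral_finsetSum _ fun i _ => iio (continuous_finsetSum _ fun j _ => hcont i j)]
  refine Finset.sum_eq_zero fun i _ => ?_
  rw [integral_finsetSum _ fun j _ => iio (hcont i j)]
  refine Finset.sum_eq_zero fun j _ => ?_
  rw [integral_const_mul, hPa (f i) (hfd i) (hfper i) j, mul_zero]

/-- the truncated indicator -/
lemma trunc_vi (hE : BaseE d) {χ : Set (V d)} (h : Micro χ) (N : ℕ) (x : V d) :
    trunc N (vi χ) x = ∑ k ∈ bx d N, am (ca χ k) (cb χ k) k x := by
  unfold trunc
  rw [Complex.re_sum]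
  refine Finset.sum_congr rfl fun k _ => ?_
  have hk := (ph k).continuous
  have e : ∀ x : V d, (vi χ x : ℂ) * ek (-k) x =
      ((vi χ x * Real.cos (ph k x) : ℝ) : ℂ) - ((vi χ x * Real.sin (ph k x) : ℝ) : ℂ) * Complex.I := by
    intro x
    have h1 : ek (-k) x = Complex.exp (((-ph k x : ℝ) : ℂ) * Complex.I) := by
      unfold ek
      congr 1
      have : (-ph k x : ℝ) = 2 * Real.pi * dot (zv (-k)) x := by
        rw [← ph_neg, ph_apply]
      rw [this]
      push_cast
      ring
    rw [h1, Complex.exp_mul_I, ← Complex.ofReal_cos, ← Complex.ofReal_sin, Real.cos_neg,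
      Real.sin_neg]
    push_cast
    ring
  have h2 : fc (vi χ) k = ((ca χ k : ℝ) : ℂ) - ((cb χ k : ℝ) : ℂ) * Complex.I := by
    unfold fc
    simp only [e]
    rw [integral_sub, integral_mul_const, integral_complex_ofReal, integral_complex_ofReal]
    · rfl
    · exact (iv hE h (by fun_prop)).ofReal
    · exact (iv hE h (by fun_prop)).ofReal.mul_const _
  have h3 : ek k x = Complex.exp (((ph k x : ℝ) : ℂ) * Complex.I) := by
    unfold ek
    congr 1
    rw [ph_apply]
    push_cast
    ring
  rw [h2, h3, Complex.exp_mul_I, ← Complex.ofReal_cos, ← Complex.ofReal_sin]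
  simp only [Complex.mul_re, Complex.sub_re, Complex.ofReal_re, Complex.mul_im, Complex.I_re,
    Complex.I_im, Complex.ofReal_im, Complex.add_re, Complex.add_im, Complex.sub_im, am]
  ring

lemma sqP_vi (hE : BaseE d) {χ : Set (V d)} (h : Micro χ) : SqP (vi χ) :=
  ⟨vi_meas h, vi_per h, by
    simp only [vi_sq]
    have := iv hE h (continuous_const (y := (1 : ℝ)))
    simpa using this⟩

end HSRb

open HSb HSRb in
/-- R8 -/
theorem HSR_ok (d : ℕ) (hE : BaseE d) (hP : StmtParseval d) (hI : StmtInvT d) (hG : StmtGamT d)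
    (hT : StmtTrunc d) (hPa : StmtParts d) : StmtHSR d := by
  classical
  intro A hA χ hχ
  refine ⟨wt χ, wt_nonneg χ, by simp [wt], wt_sum hE hP hχ, ?_⟩
  intro q δ hδ hδ1 ε
  obtain ⟨Ai, hAiPD, hAiQ, hInv, -⟩ := hI A hA
  obtain ⟨Γ, hΓ1, hΓ2, hΓ3, hΓ4, -, -, -⟩ := hG A hA
  have hAP : A.PSD := hA.psd
  have hInv0 : 0 ≤ Inv A q := by rw [hAiQ]; exact hAiPD.psd q
  apply hE.le_eff
  intro u
  have hcpos : 0 < δ⁻¹ - 1 := by
    have := (one_lt_inv₀ hδ).mpr hδ1
    linarith
  set c : ℝ := δ⁻¹ - 1 with hc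
  have hcinv : c⁻¹ = δ / (1 - δ) := by
    have h1 : 1 - δ ≠ 0 := by linarith
    rw [hc]
    field_simp
  -- maximisers
  choose a₀ ha₀ using fun n => hΓ4 n q
  have hEL : ∀ n b, ip q (sd b n) = ip (A.C (sd (a₀ n) n)) (sd b n) := by
    intro n b
    refine el (fun a => ?_) b
    rw [ha₀ n]
    exact hΓ3 n q a
  have hGam : ∀ n, A.Q (sd (a₀ n) n) = Gam A n q := by
    intro n
    have h1 := hEL n (a₀ n)
    have h2 := ha₀ n
    unfold Tens.Q at h2 ⊢
    linarith
  set a : (Fin d → ℤ) → V d := fun k => - a₀ (zv k) with ha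
  -- the strain
  have hecont : Continuous (fun x => sg u.u x) := by
    have h1 := hE.grad_cont u
    have h2 : Continuous (symm : M d → M d) := by
      unfold symm
      fun_prop
    exact h2.comp h1
  have hesymm : ∀ x, symm (sg u.u x) = sg u.u x := by
    intro x
    unfold sg
    ext i j
    simp only [symm]
    ring
  have hmean : ∀ B : M d, ∫ x in cell d, ip B (sg u.u x) = 0 := by
    intro B
    have h1 : ∀ x, ip B (sg u.u x) = ip (symm B) (grad u.u x) := by
      intro x
      rw [sg, ip_symm_left]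
    simp only [h1]
    exact hE.mean (symm B) u
  have hipc : ∀ B : M d, Continuous fun x => ip B (sg u.u x) := by
    intro B
    have h1 : Continuous fun C : M d => ip B C := by
      unfold ip
      fun_prop
    exact h1.comp hecont
  set g : V d → ℝ := fun x => ip q (sg u.u x) with hg
  have hgc : Continuous g := hipc q
  set G2 : ℝ := ∫ x in cell d, g x ^ 2 with hG2
  have hG20 : 0 ≤ G2 := integral_nonneg fun x => sq_nonneg _
  set θ := frac χ with hθ
  set W : ℝ := ∑' k, wt χ k * Gam A (zv k) q with hW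
  refine le_of_forall_pos_le_add fun η hη => ?_
  set s : ℝ := 2 * (G2 + 1) / η with hs
  have hs0 : 0 < s := by positivity
  have hsG : s⁻¹ * G2 ≤ η / 2 := by
    rw [hs, inv_div, div_mul_eq_mul_div, div_le_div_iff₀ (by positivity) (by positivity)]
    nlinarith
  have hlim := hT.2.2.2.2 (vi χ) (sqP_vi hE hχ)
  obtain ⟨N, hN⟩ := ((hlim.eventually (gt_mem_nhds (show 0 < η / (2 * s) by positivity)))).exists
  have hN2 : s * ∫ x in cell d, (vi χ x - trunc N (vi χ) x) ^ 2 ≤ η / 2 := by
    have h1 : η / 2 = s * (η / (2 * s)) := by field_simp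
    rw [h1]
    exact mul_le_mul_of_nonneg_left hN.le hs0.le
  set t : V d → ℝ := fun x => ∑ k ∈ bx d N, am (ca χ k) (cb χ k) k x with ht
  have htt : ∀ x, trunc N (vi χ) x = t x := fun x => trunc_vi hE hχ N x
  simp only [htt] at hN2
  have hamc : ∀ k, Continuous (am (ca χ k) (cb χ k) k) := fun k => am_cont _ _ _
  have htc : Continuous t := continuous_finsetSum _ fun k _ => hamc k
  -- the test stress
  set S : V d → M d := fun x => ∑ k ∈ (bx d N).erase 0,
    am (ca χ k) (cb χ k) k x • sd (a k) (zv k) with hS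
  have hSc : Continuous S := continuous_finsetSum _ fun k _ => (hamc k).smul continuous_const
  have h00 : (0 : Fin d → ℤ) ∉ (bx d N).erase 0 := Finset.notMem_erase _ _
  have hsd0 : ∀ b : V d, sd b (zv (0 : Fin d → ℤ)) = 0 := by
    intro b
    ext i j
    simp [sd, zv]
  have hS' : ∀ x, S x = ∑ k ∈ bx d N, am (ca χ k) (cb χ k) k x • sd (a k) (zv k) := by
    intro x
    rw [hS]
    by_cases hmem : (0 : Fin d → ℤ) ∈ bx d N
    · rw [← Finset.add_sum_erase _ _ hmem, hsd0, smul_zero, zero_add]
    · rw [Finset.erase_eq_of_notMem hmem]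
  set τ : (Fin d → ℤ) → M d := fun k => A.C (sd (a k) (zv k)) + q with hτ
  have hτ0 : ∀ k (b : V d), ip (τ k) (sd b (zv k)) = 0 := by
    intro k b
    rw [hτ]
    simp only [ha]
    rw [ip_add_left, sd_neg_left, map_neg, ip_neg_left, hEL (zv k) b]
    ring
  have hlin : ∀ x, ip (A.C (S x)) (sg u.u x) + t x * g x =
      ∑ k ∈ bx d N, am (ca χ k) (cb χ k) k x * ip (τ k) (sg u.u x) := by
    intro x
    rw [hS' x, map_sum, ip_sum_left, ht, Finset.sum_mul, ← Finset.sum_add_distrib]
    refine Finset.sum_congr rfl fun k _ => ?_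
    rw [hτ]
    simp only [ip_add_left, map_smul, ip_smul_left, hg]
    ring
  have hlinint : ∫ x in cell d, (ip (A.C (S x)) (sg u.u x) + t x * g x) = 0 := by
    simp only [hlin]
    have hc1 : ∀ k, Continuous fun x => am (ca χ k) (cb χ k) k x * ip (τ k) (sg u.u x) :=
      fun k => (hamc k).mul (hipc (τ k))
    rw [integral_finsetSum _ fun k _ => iio (hc1 k)]
    exact Finset.sum_eq_zero fun k _ => int_am_div hPa _ _ k (τ k) (hτ0 k) u
  have hACS : Continuous fun x => ip (A.C (S x)) (sg u.u x) := by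
    have h1 : Continuous fun x => ∑ k ∈ bx d N, am (ca χ k) (cb χ k) k x * ip (τ k) (sg u.u x) :=
      continuous_finsetSum _ fun k _ => (hamc k).mul (hipc (τ k))
    have h2 : (fun x => ip (A.C (S x)) (sg u.u x)) = fun x =>
        (∑ k ∈ bx d N, am (ca χ k) (cb χ k) k x * ip (τ k) (sg u.u x)) - t x * g x := by
      funext x
      rw [← hlin x]
      ring
    rw [h2]
    exact h1.sub (htc.mul hgc)
  have hQSc : Continuous fun x => A.Q (S x) := A.continuous_Q.comp hSc
  have hQS : ∫ x in cell d, A.Q (S x) ≤ W := by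
    have h1 := int_Q hE A hAP χ a _ h00 0
    simp only [zero_add] at h1
    have h2 : A.Q 0 = 0 := by
      unfold Tens.Q
      rw [ip_zero_right]
    rw [h2, zero_add] at h1
    refine h1.trans ?_
    have h3 : ∀ k, wt χ k * A.Q (sd (a k) (zv k)) = wt χ k * Gam A (zv k) q := by
      intro k
      rw [← hGam (zv k), ha]
      simp only [sd_neg_left, A.Q_neg]
    simp only [h3]
    have hsummable : Summable fun k => wt χ k * Gam A (zv k) q := by
      refine Summable.of_nonneg_of_le (fun k => mul_nonneg (wt_nonneg χ k) (hΓ2 _ _).1)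
        (fun k => mul_le_mul_of_nonneg_left (hΓ2 _ _).2 (wt_nonneg χ k))
        ((wt_sum hE hP hχ).summable.mul_right _)
    exact hsummable.sum_le_tsum _ fun k _ => mul_nonneg (wt_nonneg χ k) (hΓ2 _ _).1
  -- the pointwise bound
  set c0 : ℝ := 2 * ip q (symm ε) - c⁻¹ * Inv A q with hc0
  set P1 : V d → ℝ := fun x => (A.Q ε + 2 * ip (A.C ε) (sg u.u x)) +
    2 * (ip (A.C (S x)) (sg u.u x) + t x * g x) with hP1
  set P2 : V d → ℝ := fun x => A.Q (S x) + s⁻¹ * g x ^ 2 with hP2
  set P3 : V d → ℝ := fun x => vi χ x * c0 with hP3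
  set P4 : V d → ℝ := fun x => s * (vi χ x - t x) ^ 2 with hP4
  have hpt : ∀ x, P1 x - P2 x + P3 x - P4 x ≤ (phaseR A δ χ x).Q (ε + sg u.u x) := by
    intro x
    have h1 : A.Q (ε + sg u.u x) = A.Q ε + 2 * ip (A.C ε) (sg u.u x) + A.Q (sg u.u x) :=
      A.Q_add _ _
    have h2 : 2 * ip (A.C (S x)) (sg u.u x) - A.Q (S x) ≤ A.Q (sg u.u x) := by
      have := hAP (S x - sg u.u x)
      rw [A.Q_sub] at this
      linarith
    have h3 : 2 * (t x - vi χ x) * g x ≤ s * (vi χ x - t x) ^ 2 + s⁻¹ * g x ^ 2 := by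
      have h4 : 0 ≤ s⁻¹ * (s * (vi χ x - t x) + g x) ^ 2 := by positivity
      have h5 : s⁻¹ * (s * (vi χ x - t x) + g x) ^ 2 =
          s * (vi χ x - t x) ^ 2 + 2 * (vi χ x - t x) * g x + s⁻¹ * g x ^ 2 := by
        field_simp
        ring
      rw [h5] at h4
      linarith
    have h6 : A.Q (ε + sg u.u x) + vi χ x * (2 * ip q (symm ε) + 2 * g x - c⁻¹ * Inv A q) ≤
        (phaseR A δ χ x).Q (ε + sg u.u x) := by
      by_cases hx : x ∈ χ
      · simp [phaseR, vi, hx]
      · have e1 : (phaseR A δ χ x).Q (ε + sg u.u x) = δ⁻¹ * A.Q (ε + sg u.u x) := by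
          simp only [phaseR, hx, if_false, Tens.Q, Tens.scale, LinearMap.smul_apply]
          rw [ip_smul_left]
        rw [e1]
        simp only [vi, hx, if_false]
        have h7 := hInv (c • (ε + sg u.u x)) q
        rw [symm_smul, ip_smul_right, A.Q_smul, symm_add, ip_add_right, hesymm x] at h7
        have h8 : c⁻¹ * (2 * (c * (ip q (symm ε) + ip q (sg u.u x))) -
            c ^ 2 * A.Q (ε + sg u.u x)) ≤ c⁻¹ * Inv A q :=
          mul_le_mul_of_nonneg_left h7 (inv_pos.mpr hcpos).le
        have h9 : c⁻¹ * (2 * (c * (ip q (symm ε) + ip q (sg u.u x))) -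
            c ^ 2 * A.Q (ε + sg u.u x)) =
            2 * (ip q (symm ε) + ip q (sg u.u x)) - c * A.Q (ε + sg u.u x) := by
          field_simp
        rw [h9] at h8
        have h10 : δ⁻¹ = c + 1 := by rw [hc]; ring
        rw [h10]
        simp only [hg]
        linarith
    simp only [hP1, hP2, hP3, hP4, hc0]
    have h11 : 2 * ip (A.C (S x)) (sg u.u x) - A.Q (S x) + (A.Q ε + 2 * ip (A.C ε) (sg u.u x)) ≤
        A.Q (ε + sg u.u x) := by linarith
    nlinarith
  -- integrability
  have i1 : Continuous P1 := (continuous_const.add (continuous_const.mul (hipc _))).add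
    (continuous_const.mul (hACS.add (htc.mul hgc)))
  have i2 : Continuous P2 := hQSc.add (continuous_const.mul (hgc.pow 2))
  have i3 : IntegrableOn P3 (cell d) := iv hE hχ continuous_const
  have i4 : IntegrableOn P4 (cell d) := by
    have e1 : P4 = fun x => s * (vi χ x * (1 - 2 * t x)) + s * t x ^ 2 := by
      funext x
      simp only [hP4]
      have := vi_sq χ x
      linear_combination s * this
    rw [e1]
    exact ((iv hE hχ (continuous_const.sub (continuous_const.mul htc))).const_mul s).add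
      (iio (continuous_const.mul (htc.pow 2)))
  have hfld : IntegrableOn (fun x => (phaseR A δ χ x).Q (ε + sg u.u x)) (cell d) := by
    have e1 : (fun x => (phaseR A δ χ x).Q (ε + sg u.u x)) = fun x =>
        A.Q (ε + sg u.u x) + c * (vi χ x * A.Q (ε + sg u.u x)) := by
      funext x
      by_cases hx : x ∈ χ
      · simp [phaseR, vi, hx]
      · have e1 : (phaseR A δ χ x).Q (ε + sg u.u x) = δ⁻¹ * A.Q (ε + sg u.u x) := by
          simp only [phaseR, hx, if_false, Tens.Q, Tens.scale, LinearMap.smul_apply]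
          rw [ip_smul_left]
        rw [e1]
        simp only [vi, hx, if_false]
        rw [hc]
        ring
    have hq : Continuous fun x => A.Q (ε + sg u.u x) :=
      A.continuous_Q.comp (continuous_const.add hecont)
    rw [e1]
    exact (iio hq).add ((iv hE hχ hq).const_mul c)
  have hint : ∫ x in cell d, (P1 x - P2 x + P3 x - P4 x) ≤ energy (phaseR A δ χ) ε u := by
    unfold energy
    refine integral_mono ?_ hfld hpt
    exact (((iio i1).sub (iio i2)).add i3).sub i4
  have hsplit : ∫ x in cell d, (P1 x - P2 x + P3 x - P4 x) =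
      (∫ x in cell d, P1 x) - (∫ x in cell d, P2 x) + (∫ x in cell d, P3 x) -
        ∫ x in cell d, P4 x := by
    have j1 : IntegrableOn (fun x => P1 x - P2 x) (cell d) := (iio i1).sub (iio i2)
    have j2 : IntegrableOn (fun x => P1 x - P2 x + P3 x) (cell d) := j1.add i3
    rw [integral_sub j2 i4, integral_add j1 i3, integral_sub (iio i1) (iio i2)]
  have hI1 : ∫ x in cell d, P1 x = A.Q ε := by
    simp only [hP1]
    have k1 : Continuous fun x => 2 * ip (A.C ε) (sg u.u x) := continuous_const.mul (hipc _)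
    have k2 : Continuous fun x => A.Q ε + 2 * ip (A.C ε) (sg u.u x) := continuous_const.add k1
    have k3 : Continuous fun x => 2 * (ip (A.C (S x)) (sg u.u x) + t x * g x) :=
      continuous_const.mul (hACS.add (htc.mul hgc))
    rw [ia k2 k3, ia continuous_const k1, int_one hE, integral_const_mul, hmean,
      integral_const_mul, hlinint]
    ring
  have hI2 : ∫ x in cell d, P2 x ≤ W + η / 2 := by
    simp only [hP2]
    have k1 : Continuous fun x => s⁻¹ * g x ^ 2 := continuous_const.mul (hgc.pow 2)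
    rw [ia hQSc k1, integral_const_mul]
    exact add_le_add hQS hsG
  have hI3 : ∫ x in cell d, P3 x = (1 - θ) * c0 := by
    simp only [hP3]
    rw [integral_mul_const, int_vi hE hχ]
  have hI4 : ∫ x in cell d, P4 x ≤ η / 2 := by
    simp only [hP4]
    rw [integral_const_mul]
    exact hN2
  rw [hsplit, hI1, hI3] at hint
  rw [← hcinv]
  have hfin : (1 - θ) * c0 = 2 * (1 - θ) * ip q (symm ε) - c⁻¹ * (1 - θ) * Inv A q := by
    rw [hc0]
    ring
  rw [hfin] at hint
  linarith

end Pool.Agent.Lib.MP_5df1bf_an
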