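import Pool.Agent.Lib.MP_5df1bf_an.Stmts4

/-!
# MP_5df1bf_an, R9: necessity with a rigid second phase
-/

open MeasureTheory Filter Topology
open scoped BigOperators ContDiff

noncomputable section

namespace Pool.Agent.Lib.MP_5df1bf_an

/-- the quadratic forms converge when the tensors do -/
lemma NecR.tendsto_Q {d : ℕ} {Cs : ℕ → Tens d} {C : Tens d}
    (h : ∀ ξ, Tendsto (fun n => (Cs n).C ξ) atTop (𝓝 (C.C ξ))) (ε : M d) :
    Tendsto (fun n => (Cs n).Q ε) atTop (𝓝 (C.Q ε)) := by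
  unfold Tens.Q ip
  refine tendsto_finsetSum _ fun i _ => tendsto_finsetSum _ fun j _ => ?_
  exact ((tendsto_pi_nhds.1 (tendsto_pi_nhds.1 (h ε) i)) j).mul_const _

/-- R9 -/
theorem NecR_ok (d : ℕ) (hHS : StmtHSR d) (hHull : StmtHull d) (hI : StmtInvT d) :
    StmtNecR d := by
  intro A f hA hf0 hf1 S hS
  obtain ⟨δ, χ, Cs, Ss, hδ0, hδ, hχ, hCs, hinv, hlim⟩ := hS
  have hQlim := NecR.tendsto_Q hlim
  obtain ⟨Ai, hAiPD, hAiQ, hInv, -⟩ := hI A hA
  have hA0 : ∀ ξ, 0 ≤ A.Q ξ := hA.psd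
  have hPh : ∀ n x ξ, 0 ≤ (phaseR A (δ n) (χ n) x).Q ξ := by
    intro n x ξ
    unfold phaseR
    split_ifs
    · exact hA0 ξ
    · have : (A.scale (δ n)⁻¹).Q ξ = (δ n)⁻¹ * A.Q ξ := by
        unfold Tens.Q Tens.scale
        simp only [LinearMap.smul_apply]
        rw [ip_smul_left]
      rw [this]
      exact mul_nonneg (inv_pos.mpr (hδ0 n).1).le (hA0 ξ)
  have heff : ∀ n ε, 0 ≤ eff (phaseR A (δ n) (χ n)) ε := by
    intro n ε
    unfold eff
    refine Real.iInf_nonneg fun u => ?_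
    unfold energy
    exact integral_nonneg fun x => hPh n x _
  -- the complementary energy
  have hdual : ∀ n σ, (Ss n).Q σ = 2 * ip σ (symm ((Ss n).C σ)) - (Cs n).Q ((Ss n).C σ) ∧
      (Ss n).Q σ = (Cs n).Q ((Ss n).C σ) := by
    intro n σ
    have hsym : symm ((Ss n).C σ) = (Ss n).C σ := by
      ext i j
      unfold symm
      rw [(Ss n).C_swap σ j i]
      ring
    have h1 : (Ss n).Q σ = ip σ ((Ss n).C σ) := by
      unfold Tens.Q
      exact ip_comm _ _
    have h2 : (Cs n).Q ((Ss n).C σ) = ip σ ((Ss n).C σ) := by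
      have h3 := (hinv n σ).2
      unfold Tens.Q
      rw [h3, ip_symm_left, hsym]
    rw [hsym, h1, h2]
    constructor
    · ring
    · rfl
  have hPSD : S.PSD := by
    intro ξ
    refine ge_of_tendsto' (hQlim ξ) fun n => ?_
    rw [(hdual n ξ).2, hCs n]
    exact heff n _
  choose w hw0 hwz hwS hwI using fun n => hHS A hA (χ n) (hχ n).1
  have hff : 0 < f * (1 - f) := mul_pos hf0 (by linarith)
  obtain ⟨φ, r, nn, m, hφ, hn1, hm0, hm1, hT⟩ := hHull A hA
    (fun n k => w n k / (f * (1 - f))) (fun n k => div_nonneg (hw0 n k) hff.le)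
    (fun n => by simp [hwz n]) (fun n => by
      have h := hwS n
      rw [(hχ n).2] at h
      have h2 := h.div_const (f * (1 - f))
      rwa [div_self hff.ne'] at h2)
  refine ⟨hPSD, r, nn, m, hn1, hm0, hm1, fun σ q => ?_⟩
  have hsub : Tendsto (fun t => (Ss (φ t)).Q σ) atTop (𝓝 (S.Q σ)) :=
    (hQlim σ).comp hφ.tendsto_atTop
  have hδφ : Tendsto (fun t => δ (φ t)) atTop (𝓝 0) := hδ.comp hφ.tendsto_atTop
  have hts : ∀ t, ∑' k, w (φ t) k * Gam A (zv k) q
      = f * (1 - f) * ∑' k, w (φ t) k / (f * (1 - f)) * Gam A (zv k) q := by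
    intro t
    rw [← tsum_mul_left]
    refine tsum_congr fun k => ?_
    have hne := hff.ne'
    rw [div_mul_eq_mul_div, mul_div_cancel₀ _ hne]
  have hdd : Tendsto (fun t => δ (φ t) / (1 - δ (φ t))) atTop (𝓝 (0 / (1 - 0))) :=
    hδφ.div (tendsto_const_nhds.sub hδφ) (by norm_num)
  have hR : Tendsto (fun t => Inv A (σ - (1 - f) • q) + ∑' k, w (φ t) k * Gam A (zv k) q
      + δ (φ t) / (1 - δ (φ t)) * (1 - f) * Inv A q) atTop
      (𝓝 (Inv A (σ - (1 - f) • q) + f * (1 - f) * ∑ i, m i * Gam A (nn i) q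
        + 0 / (1 - 0) * (1 - f) * Inv A q)) := by
    simp only [hts]
    refine (Tendsto.add tendsto_const_nhds ((hT q).const_mul _)).add ?_
    exact (hdd.mul_const _).mul_const _
  have hle : ∀ t, (Ss (φ t)).Q σ ≤ Inv A (σ - (1 - f) • q) + ∑' k, w (φ t) k * Gam A (zv k) q
      + δ (φ t) / (1 - δ (φ t)) * (1 - f) * Inv A q := by
    intro t
    have h2 := hwI (φ t) q (δ (φ t)) (hδ0 _).1 (hδ0 _).2 ((Ss (φ t)).C σ)
    rw [(hχ (φ t)).2, ← hCs (φ t)] at h2
    have h3 := (hdual (φ t) σ).1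
    have h4 := hInv ((Ss (φ t)).C σ) (σ - (1 - f) • q)
    rw [ip_sub_left, ip_smul_left] at h4
    linarith
  have hfin := le_of_tendsto_of_tendsto' hsub hR hle
  refine hfin.trans (le_of_eq ?_)
  ring

end Pool.Agent.Lib.MP_5df1bf_an
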