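import Pool.Agent.Lib.MP_5df1bf_an.Defs

/-!
# MP_5df1bf_an: algebra of matrices and elasticity tensors
-/

open MeasureTheory Filter Topology
open scoped BigOperators ContDiff

noncomputable section

namespace Pool.Agent.Lib.MP_5df1bf_an

variable {d : ℕ}

/-! ### the product `ip` -/

theorem ip_comm (A B : M d) : ip A B = ip B A := by
  simp [ip, mul_comm]

theorem ip_add_left (A A' B : M d) : ip (A + A') B = ip A B + ip A' B := by
  simp [ip, add_mul, Finset.sum_add_distrib]

theorem ip_add_right (A B B' : M d) : ip A (B + B') = ip A B + ip A B' := by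
  simp [ip, mul_add, Finset.sum_add_distrib]

theorem ip_sub_left (A A' B : M d) : ip (A - A') B = ip A B - ip A' B := by
  simp [ip, sub_mul, Finset.sum_sub_distrib]

theorem ip_sub_right (A B B' : M d) : ip A (B - B') = ip A B - ip A B' := by
  simp [ip, mul_sub, Finset.sum_sub_distrib]

theorem ip_neg_left (A B : M d) : ip (-A) B = - ip A B := by
  simp [ip]

theorem ip_neg_right (A B : M d) : ip A (-B) = - ip A B := by
  simp [ip]

theorem ip_smul_left (c : ℝ) (A B : M d) : ip (c • A) B = c * ip A B := by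
  simp [ip, Finset.mul_sum, mul_assoc]

theorem ip_smul_right (c : ℝ) (A B : M d) : ip A (c • B) = c * ip A B := by
  rw [ip_comm, ip_smul_left, ip_comm]

theorem ip_zero_left (B : M d) : ip 0 B = 0 := by simp [ip]

theorem ip_zero_right (B : M d) : ip B 0 = 0 := by simp [ip]

theorem ip_sum_left {ι : Type*} (s : Finset ι) (A : ι → M d) (B : M d) :
    ip (∑ i ∈ s, A i) B = ∑ i ∈ s, ip (A i) B := by
  classical
  induction s using Finset.induction_on with
  | empty => simp [ip_zero_left]
  | insert a s ha ih => rw [Finset.sum_insert ha, Finset.sum_insert ha, ip_add_left, ih]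

theorem ip_sum_right {ι : Type*} (s : Finset ι) (A : ι → M d) (B : M d) :
    ip B (∑ i ∈ s, A i) = ∑ i ∈ s, ip B (A i) := by
  rw [ip_comm, ip_sum_left]
  exact Finset.sum_congr rfl fun i _ => ip_comm _ _

theorem ip_self_nonneg (A : M d) : 0 ≤ ip A A :=
  Finset.sum_nonneg fun i _ => Finset.sum_nonneg fun j _ => mul_self_nonneg _

theorem ip_self_eq (A : M d) : ip A A = ∑ i, ∑ j, (A i j) ^ 2 := by
  simp [ip, sq]

theorem ip_self_add (A B : M d) : ip (A + B) (A + B) = ip A A + 2 * ip A B + ip B B := by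
  rw [ip_add_left, ip_add_right, ip_add_right, ip_comm B A]; ring

theorem entry_sq_le (A : M d) (i j : Fin d) : (A i j) ^ 2 ≤ ip A A := by
  rw [ip_self_eq]
  calc (A i j) ^ 2 ≤ ∑ j, (A i j) ^ 2 :=
        Finset.single_le_sum (f := fun j => (A i j) ^ 2) (fun _ _ => sq_nonneg _) (Finset.mem_univ j)
    _ ≤ _ := Finset.single_le_sum (f := fun i => ∑ j, (A i j) ^ 2)
        (fun _ _ => Finset.sum_nonneg fun _ _ => sq_nonneg _) (Finset.mem_univ i)

/-- Cauchy–Schwarz -/
theorem ip_cs (A B : M d) : (ip A B) ^ 2 ≤ ip A A * ip B B := by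
  by_cases hB : ip B B = 0
  · have hz : ∀ i j, B i j = 0 := by
      intro i j
      have := entry_sq_le B i j
      rw [hB] at this
      exact pow_eq_zero_iff (two_ne_zero) |>.mp (le_antisymm this (sq_nonneg _))
    have : ip A B = 0 := by simp [ip, hz]
    rw [this, hB]; simp
  · have hpos : 0 < ip B B := lt_of_le_of_ne (ip_self_nonneg B) (Ne.symm hB)
    have h := ip_self_nonneg (A - (ip A B / ip B B) • B)
    have e : ip (A - (ip A B / ip B B) • B) (A - (ip A B / ip B B) • B) =
        ip A A - (ip A B) ^ 2 / ip B B := by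
      rw [ip_sub_left, ip_sub_right, ip_sub_right, ip_smul_left, ip_smul_right, ip_smul_left,
        ip_smul_right, ip_comm B A]
      field_simp
      ring
    rw [e] at h
    have h2 : (ip A B) ^ 2 / ip B B ≤ ip A A := by linarith
    rwa [div_le_iff₀ hpos] at h2

theorem abs_ip_le (A B : M d) : |ip A B| ≤ Real.sqrt (ip A A) * Real.sqrt (ip B B) := by
  rw [← Real.sqrt_mul (ip_self_nonneg A), ← Real.sqrt_sq_eq_abs]
  exact Real.sqrt_le_sqrt (ip_cs A B)

/-! ### transpose and symmetric part -/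

@[simp] theorem tp_tp (A : M d) : tp (tp A) = A := rfl

theorem tp_add (A B : M d) : tp (A + B) = tp A + tp B := rfl

theorem tp_smul (c : ℝ) (A : M d) : tp (c • A) = c • tp A := rfl

theorem ip_tp (A B : M d) : ip (tp A) (tp B) = ip A B := by
  unfold ip tp
  exact Finset.sum_comm

theorem ip_tp_left (A B : M d) : ip (tp A) B = ip A (tp B) := by
  rw [← ip_tp (tp A) B]; rfl

theorem symm_eq (A : M d) : symm A = (1 / 2 : ℝ) • (A + tp A) := by
  ext i j; simp [symm, tp]; ring

theorem symm_add (A B : M d) : symm (A + B) = symm A + symm B := by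
  ext i j; simp [symm]; ring

theorem symm_sub (A B : M d) : symm (A - B) = symm A - symm B := by
  ext i j; simp [symm]; ring

theorem symm_neg (A : M d) : symm (-A) = - symm A := by
  ext i j; simp [symm]; ring

theorem symm_smul (c : ℝ) (A : M d) : symm (c • A) = c • symm A := by
  ext i j; simp [symm]; ring

@[simp] theorem symm_zero : symm (0 : M d) = 0 := by
  ext i j; simp [symm]

@[simp] theorem symm_symm (A : M d) : symm (symm A) = symm A := by
  ext i j; simp [symm]; ring

@[simp] theorem symm_tp (A : M d) : symm (tp A) = symm A := by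
  ext i j; simp [symm, tp]; ring

@[simp] theorem tp_symm (A : M d) : tp (symm A) = symm A := by
  ext i j; simp [symm, tp]; ring

theorem symm_swap (A : M d) (i j : Fin d) : symm A i j = symm A j i := by
  simp [symm]; ring

theorem symm_of_tp {A : M d} (h : tp A = A) : symm A = A := by
  rw [symm_eq, h]; ext i j; simp; ring

theorem tp_of_symm {A : M d} (h : symm A = A) : tp A = A := by
  rw [← h, tp_symm]

theorem symm_sum {ι : Type*} (s : Finset ι) (A : ι → M d) :
    symm (∑ i ∈ s, A i) = ∑ i ∈ s, symm (A i) := by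
  classical
  induction s using Finset.induction_on with
  | empty => simp
  | insert a s ha ih => rw [Finset.sum_insert ha, Finset.sum_insert ha, symm_add, ih]

theorem ip_symm_left (A B : M d) : ip (symm A) B = ip A (symm B) := by
  rw [symm_eq, symm_eq, ip_smul_left, ip_smul_right, ip_add_left, ip_add_right, ip_tp_left]

theorem ip_symm_symm (A B : M d) : ip (symm A) (symm B) = ip (symm A) B := by
  rw [← ip_symm_left, symm_symm]

theorem ip_eq_symm (A B : M d) (h : symm A = A) : ip A (symm B) = ip A B := by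
  rw [← ip_symm_left, h]

/-! ### `nsq` -/

theorem nsq_nonneg (A : M d) : 0 ≤ nsq A := ip_self_nonneg _

theorem nsq_eq (A : M d) : nsq A = ∑ i, ∑ j, (symm A i j) ^ 2 := ip_self_eq _

theorem nsq_eq' (A : M d) : nsq A = (ip A A + ip A (tp A)) / 2 := by
  unfold nsq
  rw [ip_symm_symm, symm_eq, ip_smul_left, ip_add_left, ip_tp_left]; ring

@[simp] theorem nsq_symm (A : M d) : nsq (symm A) = nsq A := by
  unfold nsq; rw [symm_symm]

@[simp] theorem nsq_zero : nsq (0 : M d) = 0 := by simp [nsq, ip_zero_left]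

theorem nsq_smul (c : ℝ) (A : M d) : nsq (c • A) = c ^ 2 * nsq A := by
  unfold nsq; rw [symm_smul, ip_smul_left, ip_smul_right]; ring

theorem nsq_neg (A : M d) : nsq (-A) = nsq A := by
  unfold nsq; rw [symm_neg, ip_neg_left, ip_neg_right]; ring

theorem nsq_add (A B : M d) : nsq (A + B) = nsq A + 2 * ip (symm A) B + nsq B := by
  unfold nsq; rw [symm_add, ip_self_add, ip_symm_symm A B]

theorem nsq_sub (A B : M d) : nsq (A - B) = nsq A - 2 * ip (symm A) B + nsq B := by
  rw [sub_eq_add_neg, nsq_add, nsq_neg, ip_neg_right]; ring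

theorem nsq_add_le (A B : M d) : nsq (A + B) ≤ 2 * nsq A + 2 * nsq B := by
  have h := nsq_nonneg (A - B)
  rw [nsq_sub] at h; rw [nsq_add]; linarith

theorem nsq_sub_le (A B : M d) : nsq (A - B) ≤ 2 * nsq A + 2 * nsq B := by
  rw [sub_eq_add_neg]; have := nsq_add_le A (-B); rwa [nsq_neg] at this

theorem nsq_le_ip (A : M d) : nsq A ≤ ip A A := by
  rw [nsq_eq']
  have h := ip_cs A (tp A)
  have h3 : ip (tp A) (tp A) = ip A A := ip_tp A A
  rw [h3] at h
  have h2 : ip A (tp A) ≤ ip A A := by
    nlinarith [ip_self_nonneg A, sq_nonneg (ip A (tp A) - ip A A)]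
  linarith

theorem nsq_of_symm {A : M d} (h : symm A = A) : nsq A = ip A A := by
  unfold nsq; rw [h]

theorem cs_symm (A B : M d) : (ip (symm A) B) ^ 2 ≤ nsq A * nsq B := by
  rw [← ip_symm_symm]; exact ip_cs _ _

theorem abs_ip_symm_le (A B : M d) : |ip (symm A) B| ≤ Real.sqrt (nsq A) * Real.sqrt (nsq B) := by
  rw [← ip_symm_symm]; exact abs_ip_le _ _

theorem nsq_eq_zero {A : M d} (h : nsq A = 0) : symm A = 0 := by
  ext i j
  have := entry_sq_le (symm A) i j
  have h' : ip (symm A) (symm A) = 0 := h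
  rw [h'] at this
  simpa using pow_eq_zero_iff (two_ne_zero) |>.mp (le_antisymm this (sq_nonneg _))

theorem nsq_sum_le {ι : Type*} (s : Finset ι) (A : ι → M d) :
    nsq (∑ i ∈ s, A i) ≤ s.card * ∑ i ∈ s, nsq (A i) := by
  rw [nsq_eq]
  have h1 : ∀ i j, (symm (∑ k ∈ s, A k) i j) ^ 2 ≤ s.card * ∑ k ∈ s, (symm (A k) i j) ^ 2 := by
    intro i j
    rw [symm_sum, Finset.sum_apply, Finset.sum_apply]
    exact sq_sum_le_card_mul_sum_sq
  calc ∑ i, ∑ j, (symm (∑ k ∈ s, A k) i j) ^ 2
      ≤ ∑ i, ∑ j, (s.card * ∑ k ∈ s, (symm (A k) i j) ^ 2) :=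
        Finset.sum_le_sum fun i _ => Finset.sum_le_sum fun j _ => h1 i j
    _ = s.card * ∑ k ∈ s, nsq (A k) := by
        simp only [nsq_eq, ← Finset.mul_sum]
        congr 1
        refine (Finset.sum_congr rfl fun i _ => Finset.sum_comm).trans ?_
        exact Finset.sum_comm

/-! ### `sd`, `dot`, `mulV` -/

theorem dot_comm (a b : V d) : dot a b = dot b a := by simp [dot, mul_comm]

theorem dot_self_nonneg (a : V d) : 0 ≤ dot a a := Finset.sum_nonneg fun i _ => mul_self_nonneg _

theorem dot_add_left (a b c : V d) : dot (a + b) c = dot a c + dot b c := by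
  simp [dot, add_mul, Finset.sum_add_distrib]

theorem dot_add_right (a b c : V d) : dot a (b + c) = dot a b + dot a c := by
  simp [dot, mul_add, Finset.sum_add_distrib]

theorem dot_smul_left (t : ℝ) (a b : V d) : dot (t • a) b = t * dot a b := by
  simp [dot, Finset.mul_sum, mul_assoc]

theorem dot_smul_right (t : ℝ) (a b : V d) : dot a (t • b) = t * dot a b := by
  rw [dot_comm, dot_smul_left, dot_comm]

theorem dot_neg_left (a b : V d) : dot (-a) b = - dot a b := by simp [dot]

theorem dot_neg_right (a b : V d) : dot a (-b) = - dot a b := by simp [dot]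

theorem dot_sub_left (a b c : V d) : dot (a - b) c = dot a c - dot b c := by
  simp [dot, sub_mul, Finset.sum_sub_distrib]

theorem dot_sub_right (a b c : V d) : dot a (b - c) = dot a b - dot a c := by
  simp [dot, mul_sub, Finset.sum_sub_distrib]

theorem dot_self_eq_zero {a : V d} : dot a a = 0 ↔ a = 0 := by
  constructor
  · intro h
    have h2 : ∀ i ∈ Finset.univ, a i * a i = 0 :=
      (Finset.sum_eq_zero_iff_of_nonneg fun i _ => mul_self_nonneg _).mp h
    ext i; simpa using h2 i (Finset.mem_univ i)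
  · rintro rfl; simp [dot]

theorem dot_self_pos {a : V d} (h : a ≠ 0) : 0 < dot a a :=
  lt_of_le_of_ne (dot_self_nonneg a) fun e => h (dot_self_eq_zero.mp e.symm)

@[simp] theorem symm_sd (a n : V d) : symm (sd a n) = sd a n := by
  ext i j; simp [symm, sd]; ring

theorem sd_comm (a n : V d) : sd a n = sd n a := by
  ext i j; simp [sd]; ring

theorem sd_add_left (a b n : V d) : sd (a + b) n = sd a n + sd b n := by
  ext i j; simp [sd]; ring

theorem sd_smul_left (t : ℝ) (a n : V d) : sd (t • a) n = t • sd a n := by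
  ext i j; simp [sd]; ring

theorem sd_smul_right (t : ℝ) (a n : V d) : sd a (t • n) = t • sd a n := by
  ext i j; simp [sd]; ring

@[simp] theorem sd_zero_left (n : V d) : sd 0 n = 0 := by
  ext i j; simp [sd]

@[simp] theorem sd_zero_right (n : V d) : sd n 0 = 0 := by
  ext i j; simp [sd]

theorem sd_neg_left (a n : V d) : sd (-a) n = - sd a n := by
  ext i j; simp [sd]; ring

/-- `q : (a ⊙ n) = a · (sym q) n` -/
theorem ip_sd (q : M d) (a n : V d) : ip q (sd a n) = dot a (mulV (symm q) n) := by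
  have h : ip q (sd a n) = ip (symm q) (fun i j => a i * n j) := by
    rw [ip_symm_left]; rfl
  rw [h]
  simp only [ip, dot, mulV, Finset.mul_sum]
  exact Finset.sum_congr rfl fun i _ => Finset.sum_congr rfl fun j _ => by ring

theorem nsq_sd (a n : V d) : nsq (sd a n) = (dot a a * dot n n + (dot a n) ^ 2) / 2 := by
  unfold nsq
  rw [symm_sd, ip_sd, symm_sd]
  have h : mulV (sd a n) n = (1 / 2 : ℝ) • (dot n n • a + dot a n • n) := by
    ext i
    simp only [mulV, sd, Pi.smul_apply, Pi.add_apply, smul_eq_mul, dot, Finset.sum_mul,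
      Finset.mul_sum, ← Finset.sum_add_distrib]
    exact Finset.sum_congr rfl fun j _ => by ring
  rw [h, dot_smul_right, dot_add_right, dot_smul_right, dot_smul_right]
  ring

theorem ip_oo (z : V d) (A : M d) : ip (oo z) A = dot z (mulV A z) := by
  simp only [ip, oo, dot, mulV, Finset.mul_sum]
  exact Finset.sum_congr rfl fun i _ => Finset.sum_congr rfl fun j _ => by ring

theorem ip_oo_symm (z : V d) (A : M d) : ip (oo z) (symm A) = ip (oo z) A := by
  apply ip_eq_symm
  ext i j; simp [symm, oo]; ring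

/-! ### tensors -/

namespace Tens

variable (T T' : Tens d)

@[simp] theorem C_symm (A : M d) : T.C (symm A) = T.C A := by
  rw [symm_eq, map_smul, map_add, T.tr, ← two_smul ℝ (T.C A), smul_smul]; norm_num

@[simp] theorem symm_C (A : M d) : symm (T.C A) = T.C A := by
  have h : ∀ B, ip (symm (T.C A) - T.C A) B = 0 := by
    intro B
    rw [ip_sub_left, ip_symm_left, T.sa, T.sa, C_symm]; ring
  have h2 := h (symm (T.C A) - T.C A)
  ext i j
  have := entry_sq_le (symm (T.C A) - T.C A) i j
  rw [h2] at this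
  have h3 := pow_eq_zero_iff (two_ne_zero) |>.mp (le_antisymm this (sq_nonneg _))
  simpa [sub_eq_zero] using h3

theorem C_swap (A : M d) (i j : Fin d) : T.C A i j = T.C A j i := by
  rw [← T.symm_C A]; exact symm_swap _ _ _

theorem ip_comm_C (A B : M d) : ip (T.C A) B = ip (T.C B) A := by
  rw [T.sa, _root_.Pool.Agent.Lib.MP_5df1bf_an.ip_comm]

@[simp] theorem ip_C_symm (A B : M d) : ip (T.C A) (symm B) = ip (T.C A) B :=
  ip_eq_symm _ _ (T.symm_C A)

@[simp] theorem Q_symm (A : M d) : T.Q (symm A) = T.Q A := by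
  unfold Q; rw [C_symm, ip_C_symm]

@[simp] theorem Q_zero : T.Q 0 = 0 := by simp [Q, ip_zero_right]

theorem Q_add (A B : M d) : T.Q (A + B) = T.Q A + 2 * ip (T.C A) B + T.Q B := by
  unfold Q; rw [map_add, ip_add_left, ip_add_right, ip_add_right, T.ip_comm_C B A]; ring

theorem Q_smul (c : ℝ) (A : M d) : T.Q (c • A) = c ^ 2 * T.Q A := by
  unfold Q; rw [map_smul, ip_smul_left, ip_smul_right]; ring

theorem Q_neg (A : M d) : T.Q (-A) = T.Q A := by
  have := T.Q_smul (-1) A
  simpa using this

theorem Q_sub (A B : M d) : T.Q (A - B) = T.Q A - 2 * ip (T.C A) B + T.Q B := by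
  rw [sub_eq_add_neg, Q_add, Q_neg, ip_neg_right]; ring

theorem parallelogram (A B : M d) : T.Q (A + B) + T.Q (A - B) = 2 * T.Q A + 2 * T.Q B := by
  rw [Q_add, Q_sub]; ring

theorem polar (A B : M d) : 4 * ip (T.C A) B = T.Q (A + B) - T.Q (A - B) := by
  rw [Q_add, Q_sub]; ring

theorem ext_Q {T T' : Tens d} (h : ∀ ξ, T.Q ξ = T'.Q ξ) : T = T' := by
  have h2 : ∀ A B, ip (T.C A - T'.C A) B = 0 := by
    intro A B
    have h3 := T.polar A B
    have h4 := T'.polar A B
    rw [h, h] at h3
    rw [ip_sub_left]; linarith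
  refine Tens.ext (LinearMap.ext fun A => ?_)
  funext i j
  have := entry_sq_le (T.C A - T'.C A) i j
  rw [h2] at this
  have h3 := pow_eq_zero_iff (two_ne_zero) |>.mp (le_antisymm this (sq_nonneg _))
  simpa [sub_eq_zero] using h3

variable {T}

theorem PD.psd (h : T.PD) : T.PSD := by
  obtain ⟨α, hα, h⟩ := h
  exact fun A => le_trans (mul_nonneg hα.le (nsq_nonneg A)) (h A)

/-- Cauchy–Schwarz -/
theorem Q_cs (h : T.PSD) (A B : M d) : (ip (T.C A) B) ^ 2 ≤ T.Q A * T.Q B := by
  have key : ∀ t : ℝ, 0 ≤ T.Q B * (t * t) + (2 * ip (T.C A) B) * t + T.Q A := by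
    intro t
    have := h (A + t • B)
    rw [Q_add, Q_smul, ip_smul_right] at this
    nlinarith
  have := discrim_le_zero key
  unfold discrim at this
  nlinarith

theorem abs_ip_C_le (h : T.PSD) (A B : M d) :
    |ip (T.C A) B| ≤ Real.sqrt (T.Q A) * Real.sqrt (T.Q B) := by
  rw [← Real.sqrt_mul (h A), ← Real.sqrt_sq_eq_abs]
  exact Real.sqrt_le_sqrt (Q_cs h A B)

theorem Q_add_le (h : T.PSD) (A B : M d) : T.Q (A + B) ≤ 2 * T.Q A + 2 * T.Q B := by
  have h1 := h (A - B)
  rw [Q_sub] at h1; rw [Q_add]; linarith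

/-- Young's inequality -/
theorem Q_add_le' (h : T.PSD) (A B : M d) {s : ℝ} (hs : 0 < s) :
    T.Q (A + B) ≤ (1 + s) * T.Q A + (1 + 1 / s) * T.Q B := by
  have h1 := h (s • A - B)
  rw [Q_sub, Q_smul, map_smul, ip_smul_left] at h1
  rw [Q_add]
  have h2 : 2 * ip (T.C A) B ≤ s * T.Q A + 1 / s * T.Q B := by
    have : s * (2 * ip (T.C A) B) ≤ s * (s * T.Q A + 1 / s * T.Q B) := by
      field_simp
      nlinarith
    exact le_of_mul_le_mul_left this hs
  linarith

variable (T)

@[simp] theorem scale_C (c : ℝ) (A : M d) : (T.scale c).C A = c • T.C A := rfl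

@[simp] theorem scale_Q (c : ℝ) (A : M d) : (T.scale c).Q A = c * T.Q A := by
  unfold Q; rw [scale_C, ip_smul_left]

end Tens

/-- the `(i, j)` matrix unit -/
def eb (i j : Fin d) : M d := Pi.single i (Pi.single j 1)

theorem eb_apply (i j a b : Fin d) : eb i j a b = if a = i ∧ b = j then 1 else 0 := by
  unfold eb
  by_cases h : a = i
  · subst h
    by_cases h2 : b = j
    · subst h2; simp
    · simp [h2]
  · simp [h]

theorem mat_expand (A : M d) : A = ∑ i, ∑ j, A i j • eb i j := by
  ext a b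
  simp only [Finset.sum_apply, Pi.smul_apply, smul_eq_mul, eb_apply]
  rw [Finset.sum_eq_single a, Finset.sum_eq_single b]
  · simp
  · intro j _ hj; simp [Ne.symm hj]
  · intro h; exact absurd (Finset.mem_univ _) h
  · intro i _ hi
    refine Finset.sum_eq_zero fun j _ => ?_
    simp [Ne.symm hi]
  · intro h; exact absurd (Finset.mem_univ _) h

theorem ip_eb (A : M d) (i j : Fin d) : ip A (eb i j) = A i j := by
  unfold ip
  rw [Finset.sum_eq_single i, Finset.sum_eq_single j]
  · simp [eb_apply]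
  · intro b _ hb; simp [eb_apply, hb]
  · intro h; exact absurd (Finset.mem_univ _) h
  · intro a _ ha
    refine Finset.sum_eq_zero fun b _ => ?_
    simp [eb_apply, ha]
  · intro h; exact absurd (Finset.mem_univ _) h

theorem Tens.C_expand (T : Tens d) (A : M d) : T.C A = ∑ i, ∑ j, A i j • T.C (eb i j) := by
  conv_lhs => rw [mat_expand A]
  simp only [map_sum, map_smul]

theorem Tens.ip_expand (T : Tens d) (A B : M d) :
    ip (T.C A) B = ∑ i, ∑ j, ∑ k, ∑ l, A i j * B k l * ip (T.C (eb i j)) (eb k l) := by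
  rw [T.C_expand A]
  simp only [ip_sum_left, ip_smul_left]
  refine Finset.sum_congr rfl fun i _ => Finset.sum_congr rfl fun j _ => ?_
  conv_lhs => rw [mat_expand B]
  simp only [ip_sum_right, ip_smul_right, Finset.mul_sum]
  exact Finset.sum_congr rfl fun k _ => Finset.sum_congr rfl fun l _ => by ring

theorem Tens.Q_expand (T : Tens d) (A : M d) :
    T.Q A = ∑ i, ∑ j, ∑ k, ∑ l, A i j * A k l * ip (T.C (eb i j)) (eb k l) := T.ip_expand A A

/-- the identity on symmetric matrices: quadratic form `nsq` -/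
def idT (d : ℕ) : Tens d where
  C :=
    { toFun := symm
      map_add' := symm_add
      map_smul' := fun c x => symm_smul c x }
  sa := fun A B => ip_symm_left A B
  tr := fun A => symm_tp A

@[simp] theorem idT_Q (A : M d) : (idT d).Q A = nsq A := by
  show ip (symm A) A = nsq A
  rw [← ip_symm_symm]; rfl

/-- sum of tensors -/
instance : Add (Tens d) where
  add S T :=
    { C := S.C + T.C
      sa := by
        intro A B
        simp only [LinearMap.add_apply, ip_add_left, ip_add_right, S.sa, T.sa]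
      tr := by
        intro A
        simp only [LinearMap.add_apply, S.tr, T.tr] }

@[simp] theorem Tens.add_C (S T : Tens d) (A : M d) : (S + T).C A = S.C A + T.C A := rfl

@[simp] theorem Tens.add_Q (S T : Tens d) (A : M d) : (S + T).Q A = S.Q A + T.Q A := by
  unfold Tens.Q; rw [Tens.add_C, ip_add_left]

/-- every tensor is bounded -/
theorem Tens.exists_bound (T : Tens d) : ∃ β : ℝ, 0 < β ∧ ∀ A, |T.Q A| ≤ β * nsq A := by
  refine ⟨(∑ i, ∑ j, ∑ k, ∑ l, |ip (T.C (eb i j)) (eb k l)|) + 1, ?_, ?_⟩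
  · have : 0 ≤ ∑ i, ∑ j, ∑ k, ∑ l, |ip (T.C (eb i j)) (eb k l)| :=
      Finset.sum_nonneg fun _ _ => Finset.sum_nonneg fun _ _ => Finset.sum_nonneg fun _ _ =>
        Finset.sum_nonneg fun _ _ => abs_nonneg _
    linarith
  · intro A
    rw [← T.Q_symm, T.Q_expand]
    have h : |∑ i, ∑ j, ∑ k, ∑ l, symm A i j * symm A k l * ip (T.C (eb i j)) (eb k l)| ≤
        ∑ i, ∑ j, ∑ k, ∑ l, nsq A * |ip (T.C (eb i j)) (eb k l)| := by
      refine (Finset.abs_sum_le_sum_abs _ _).trans (Finset.sum_le_sum fun i _ => ?_)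
      refine (Finset.abs_sum_le_sum_abs _ _).trans (Finset.sum_le_sum fun j _ => ?_)
      refine (Finset.abs_sum_le_sum_abs _ _).trans (Finset.sum_le_sum fun k _ => ?_)
      refine (Finset.abs_sum_le_sum_abs _ _).trans (Finset.sum_le_sum fun l _ => ?_)
      rw [abs_mul]
      refine mul_le_mul_of_nonneg_right ?_ (abs_nonneg _)
      rw [abs_mul]
      have h1 : (symm A i j) ^ 2 ≤ nsq A := entry_sq_le (symm A) i j
      have h2 : (symm A k l) ^ 2 ≤ nsq A := entry_sq_le (symm A) k l
      nlinarith [sq_abs (symm A i j), sq_abs (symm A k l), sq_nonneg (|symm A i j| - |symm A k l|)]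
    refine h.trans ?_
    simp only [← Finset.mul_sum]
    have := nsq_nonneg A
    nlinarith

theorem continuous_nsq : Continuous (nsq : M d → ℝ) := by
  have : (nsq : M d → ℝ) = fun A => ∑ i, ∑ j, (symm A i j) ^ 2 := by
    funext A; exact nsq_eq A
  rw [this]
  unfold symm
  fun_prop

theorem Tens.continuous_Q (T : Tens d) : Continuous T.Q := by
  have : T.Q = fun A => ∑ i, ∑ j, ∑ k, ∑ l, A i j * A k l * ip (T.C (eb i j)) (eb k l) := by
    funext A; exact T.Q_expand A
  rw [this]
  fun_prop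

private theorem bil_aux (q : M d → ℝ) (β : ℝ) (hq : ∀ A, |q A| ≤ β * nsq A)
    (hpar : ∀ A B, q (A + B) + q (A - B) = 2 * q A + 2 * q B) :
    ∃ b : M d → M d →ₗ[ℝ] ℝ, (∀ x y, b x y = b y x) ∧ (∀ x, b x x = q x) ∧
      (∀ x y, nsq y = 0 → b x y = 0) := by
  have h0 : q 0 = 0 := by
    have := hpar 0 0
    simp only [add_zero, sub_zero] at this
    linarith
  have heven : ∀ B, q (-B) = q B := by
    intro B
    have := hpar 0 B
    simp only [zero_add, zero_sub, h0] at this
    linarith
  set b0 : M d → M d → ℝ := fun x y => (q (x + y) - q (x - y)) / 4 with hb0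
  have hsym : ∀ x y, b0 x y = b0 y x := by
    intro x y
    simp only [hb0]
    rw [add_comm y x, show y - x = -(x - y) by abel, heven]
  have hadd : ∀ x x' y, b0 (x + x') y = b0 x y + b0 x' y := by
    intro x x' y
    have h1 := hpar (x + y) x'
    have h2 := hpar (x - y) x'
    have h3 := hpar (x' + y) x
    have h4 := hpar (x' - y) x
    have e1 : x + y + x' = x + x' + y := by abel
    have e2 : x - y + x' = x + x' - y := by abel
    have e3 : x' + y + x = x + x' + y := by abel
    have e4 : x' - y + x = x + x' - y := by abel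
    have e5 : q (x' + y - x) = q (x - y - x') := by
      rw [← heven]; congr 1; abel
    have e6 : q (x' - y - x) = q (x + y - x') := by
      rw [← heven]; congr 1; abel
    rw [e1] at h1
    rw [e2] at h2
    rw [e3, e5] at h3
    rw [e4, e6] at h4
    simp only [hb0]
    linarith
  have hbd : ∀ x y, |b0 x y| ≤ |β| * (nsq x + nsq y) := by
    intro x y
    have h1 := (hq (x + y)).trans (mul_le_mul_of_nonneg_right (le_abs_self β) (nsq_nonneg _))
    have h2 := (hq (x - y)).trans (mul_le_mul_of_nonneg_right (le_abs_self β) (nsq_nonneg _))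
    have h3 : nsq (x + y) + nsq (x - y) = 2 * nsq x + 2 * nsq y := by
      rw [nsq_add, nsq_sub]; ring
    have h4 : |b0 x y| ≤ (|q (x + y)| + |q (x - y)|) / 4 := by
      simp only [hb0, abs_div]
      rw [show |(4 : ℝ)| = 4 by norm_num]
      gcongr
      exact abs_sub _ _
    have h5 : 0 ≤ |β| * (nsq x + nsq y) := by
      have := nsq_nonneg x; have := nsq_nonneg y; positivity
    have h6 : |β| * nsq (x + y) + |β| * nsq (x - y) = 2 * (|β| * (nsq x + nsq y)) := by
      rw [← mul_add, h3]; ring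
    linarith
  -- additive in the second variable
  let f : M d → M d →+ ℝ := fun x =>
    { toFun := fun y => b0 x y
      map_zero' := by
        simp only [hb0]; simp
      map_add' := by
        intro y y'
        rw [hsym, hadd, hsym y, hsym y'] }
  have hf : ∀ x y, f x y = b0 x y := fun _ _ => rfl
  have hnat : ∀ x y (n : ℕ), f x ((n : ℝ) • y) = n * f x y := by
    intro x y n
    rw [Nat.cast_smul_eq_nsmul, map_nsmul, nsmul_eq_mul]
  have hcont : ∀ x, Continuous (f x) := by
    intro x
    apply continuous_of_continuousAt_zero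
    rw [Metric.continuousAt_iff']
    intro ε hε
    obtain ⟨n, hn⟩ := exists_nat_gt ((|β| * (nsq x + 1) + 1) / ε)
    have hn0 : 0 < (n : ℝ) := lt_of_le_of_lt (by
      have := nsq_nonneg x; positivity) hn
    have hev : ∀ᶠ y in 𝓝 (0 : M d), nsq y < 1 / (n : ℝ) ^ 2 := by
      have : Tendsto (nsq : M d → ℝ) (𝓝 0) (𝓝 0) := by
        have := (continuous_nsq (d := d)).tendsto 0
        rwa [nsq_zero] at this
      exact this.eventually (gt_mem_nhds (by positivity))
    filter_upwards [hev] with y hy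
    rw [map_zero, dist_zero_right, Real.norm_eq_abs]
    have h1 := hbd x ((n : ℝ) • y)
    rw [← hf, hnat, abs_mul, abs_of_pos hn0, nsq_smul] at h1
    have h2 : (n : ℝ) ^ 2 * nsq y ≤ 1 := by
      have : 0 < (n : ℝ) ^ 2 := by positivity
      rw [lt_div_iff₀ this] at hy
      linarith
    have h3 : n * |f x y| ≤ |β| * (nsq x + 1) :=
      h1.trans (mul_le_mul_of_nonneg_left (by linarith) (abs_nonneg _))
    rw [div_lt_iff₀ hε] at hn
    by_contra hcon
    push Not at hcon
    have : n * ε ≤ n * |f x y| := mul_le_mul_of_nonneg_left hcon hn0.le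
    linarith
  refine ⟨fun x => ((f x).toRealLinearMap (hcont x)).toLinearMap, ?_, ?_, ?_⟩
  · intro x y
    exact hsym x y
  · intro x
    show b0 x x = q x
    have := hpar x x
    simp only [hb0]
    rw [sub_self, h0] at this ⊢
    linarith
  · intro x y hy
    show b0 x y = 0
    have h1 : ∀ n : ℕ, (n : ℝ) * |b0 x y| ≤ |β| * nsq x := by
      intro n
      have h2 := hbd x ((n : ℝ) • y)
      rw [← hf, hnat, abs_mul, nsq_smul, hy, mul_zero, add_zero, Nat.abs_cast] at h2
      exact h2
    by_contra hne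
    have hpos : 0 < |b0 x y| := abs_pos.mpr hne
    obtain ⟨n, hn⟩ := exists_nat_gt (|β| * nsq x / |b0 x y|)
    rw [div_lt_iff₀ hpos] at hn
    exact absurd (h1 n) (not_le.mpr hn)

/-- a quadratic function which is controlled by `nsq` is the quadratic form of a tensor -/
theorem exists_tens (q : M d → ℝ) (β : ℝ) (hq : ∀ A, |q A| ≤ β * nsq A)
    (hpar : ∀ A B, q (A + B) + q (A - B) = 2 * q A + 2 * q B) :
    ∃ T : Tens d, ∀ A, T.Q A = q A := by
  obtain ⟨b, hsym, hdiag, hzero⟩ := bil_aux q β hq hpar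
  have hexp : ∀ A B, b A B = ∑ i, ∑ j, B i j * b A (eb i j) := by
    intro A B
    conv_lhs => rw [mat_expand B]
    simp only [map_sum, map_smul, smul_eq_mul]
  have hip : ∀ A B, ip (fun i j => b A (eb i j)) B = b A B := by
    intro A B
    rw [hexp]; unfold ip
    exact Finset.sum_congr rfl fun i _ => Finset.sum_congr rfl fun j _ => by ring
  refine ⟨{ C := { toFun := fun A i j => b A (eb i j), map_add' := ?_, map_smul' := ?_ },
            sa := ?_, tr := ?_ }, ?_⟩
  · intro A B
    funext i j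
    show b (A + B) (eb i j) = b A (eb i j) + b B (eb i j)
    rw [hsym, map_add, hsym _ A, hsym _ B]
  · intro c A
    funext i j
    show b (c • A) (eb i j) = c * b A (eb i j)
    rw [hsym, map_smul, hsym _ A, smul_eq_mul]
  · intro A B
    show ip (fun i j => b A (eb i j)) B = ip A (fun i j => b B (eb i j))
    rw [hip, ip_comm, hip, hsym]
  · intro A
    funext i j
    show b (tp A) (eb i j) = b A (eb i j)
    have h1 : nsq (tp A - A) = 0 := by
      unfold nsq; rw [symm_sub, symm_tp, sub_self, ip_zero_left]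
    have h2 := hzero (eb i j) (tp A - A) h1
    rw [map_sub] at h2
    rw [hsym (tp A), hsym A]; linarith
  · intro A
    show ip (fun i j => b A (eb i j)) A = q A
    rw [hip, hdiag]

/-- pointwise convergence of quadratic forms is uniform -/
theorem tens_unif (T : ℕ → Tens d) (W : Tens d)
    (h : ∀ ξ, Tendsto (fun n => (T n).Q ξ) atTop (𝓝 (W.Q ξ))) :
    ∀ η > 0, ∀ᶠ n in atTop, ∀ ξ, |(T n).Q ξ - W.Q ξ| ≤ η * nsq ξ := by
  intro η hη
  have hip : ∀ A B, Tendsto (fun n => ip ((T n).C A) B) atTop (𝓝 (ip (W.C A) B)) := by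
    intro A B
    have h1 : ∀ S : Tens d, ip (S.C A) B = (S.Q (A + B) - S.Q (A - B)) / 4 := by
      intro S; have := S.polar A B; linarith
    simp only [h1]
    exact ((h _).sub (h _)).div_const 4
  set c : ℝ := η / (d ^ 4 + 1) with hc
  have hcpos : 0 < c := by positivity
  have hall : ∀ᶠ n in atTop, ∀ i j k l : Fin d,
      |ip ((T n).C (eb i j)) (eb k l) - ip (W.C (eb i j)) (eb k l)| < c := by
    simp only [Filter.eventually_all]
    intro i j k l
    have := (hip (eb i j) (eb k l)).eventually (Metric.ball_mem_nhds _ hcpos)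
    filter_upwards [this] with n hn
    rwa [Real.dist_eq] at hn
  filter_upwards [hall] with n hn ξ
  rw [← (T n).Q_symm, ← W.Q_symm, (T n).Q_expand, W.Q_expand]
  simp only [← Finset.sum_sub_distrib, ← mul_sub]
  have hb : ∀ i j k l : Fin d, |symm ξ i j * symm ξ k l *
      (ip ((T n).C (eb i j)) (eb k l) - ip (W.C (eb i j)) (eb k l))| ≤ nsq ξ * c := by
    intro i j k l
    rw [abs_mul]
    refine mul_le_mul ?_ (hn i j k l).le (abs_nonneg _) (nsq_nonneg _)
    rw [abs_mul]
    have h1 : (symm ξ i j) ^ 2 ≤ nsq ξ := entry_sq_le (symm ξ) i j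
    have h2 : (symm ξ k l) ^ 2 ≤ nsq ξ := entry_sq_le (symm ξ) k l
    nlinarith [sq_abs (symm ξ i j), sq_abs (symm ξ k l), sq_nonneg (|symm ξ i j| - |symm ξ k l|)]
  calc |∑ i, ∑ j, ∑ k, ∑ l, symm ξ i j * symm ξ k l *
        (ip ((T n).C (eb i j)) (eb k l) - ip (W.C (eb i j)) (eb k l))|
      ≤ ∑ i : Fin d, ∑ j : Fin d, ∑ k : Fin d, ∑ l : Fin d, nsq ξ * c := by
        refine (Finset.abs_sum_le_sum_abs _ _).trans (Finset.sum_le_sum fun i _ => ?_)
        refine (Finset.abs_sum_le_sum_abs _ _).trans (Finset.sum_le_sum fun j _ => ?_)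
        refine (Finset.abs_sum_le_sum_abs _ _).trans (Finset.sum_le_sum fun k _ => ?_)
        exact (Finset.abs_sum_le_sum_abs _ _).trans (Finset.sum_le_sum fun l _ => hb i j k l)
    _ = (d : ℝ) ^ 4 * (nsq ξ * c) := by
        simp only [Finset.sum_const, Finset.card_univ, Fintype.card_fin, nsmul_eq_mul]; ring
    _ ≤ η * nsq ξ := by
        rw [hc]
        have h1 := nsq_nonneg ξ
        have h2 : (d : ℝ) ^ 4 * (η / (d ^ 4 + 1)) ≤ η := by
          rw [mul_div_assoc', div_le_iff₀ (by positivity)]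
          nlinarith [pow_nonneg (Nat.cast_nonneg (α := ℝ) d) 4]
        nlinarith

/-- bounded sequences of tensors have convergent subsequences -/
theorem tens_compact (T : ℕ → Tens d) (β : ℝ) (hT : ∀ n ξ, |(T n).Q ξ| ≤ β * nsq ξ) :
    ∃ φ : ℕ → ℕ, StrictMono φ ∧ ∃ W : Tens d, ∀ ξ, Tendsto (fun n => (T (φ n)).Q ξ) atTop (𝓝 (W.Q ξ)) := by
  -- entries as a bounded sequence in a finite-dimensional space
  set E : ℕ → (Fin d × Fin d × Fin d × Fin d → ℝ) :=
    fun n p => ip ((T n).C (eb p.1 p.2.1)) (eb p.2.2.1 p.2.2.2) with hE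
  have hbd : ∀ n p, |E n p| ≤ |β| * (nsq (eb p.1 p.2.1) + nsq (eb p.2.2.1 p.2.2.2)) := by
    intro n p
    set A := eb p.1 p.2.1
    set B := eb p.2.2.1 p.2.2.2
    have h1 := (hT n (A + B)).trans (mul_le_mul_of_nonneg_right (le_abs_self β) (nsq_nonneg _))
    have h2 := (hT n (A - B)).trans (mul_le_mul_of_nonneg_right (le_abs_self β) (nsq_nonneg _))
    have h3 : nsq (A + B) + nsq (A - B) = 2 * nsq A + 2 * nsq B := by
      rw [nsq_add, nsq_sub]; ring
    have h4 : E n p = ((T n).Q (A + B) - (T n).Q (A - B)) / 4 := by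
      have := (T n).polar A B
      simp only [hE]; linarith
    have h5 : 0 ≤ |β| * (nsq A + nsq B) := by
      have := nsq_nonneg A; have := nsq_nonneg B; positivity
    have h6 : |E n p| ≤ (|(T n).Q (A + B)| + |(T n).Q (A - B)|) / 4 := by
      rw [h4, abs_div, show |(4 : ℝ)| = 4 by norm_num]
      gcongr
      exact abs_sub _ _
    have h7 : |β| * nsq (A + B) + |β| * nsq (A - B) = 2 * (|β| * (nsq A + nsq B)) := by
      rw [← mul_add, h3]; ring
    linarith
  obtain ⟨K, hK⟩ : ∃ K : ℝ, ∀ n, E n ∈ Set.pi Set.univ (fun _ : Fin d × Fin d × Fin d × Fin d =>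
      Set.Icc (-K) K) := by
    refine ⟨∑ p : Fin d × Fin d × Fin d × Fin d,
      |β| * (nsq (eb p.1 p.2.1) + nsq (eb p.2.2.1 p.2.2.2)), fun n p _ => ?_⟩
    have h1 : |β| * (nsq (eb p.1 p.2.1) + nsq (eb p.2.2.1 p.2.2.2)) ≤
        ∑ p : Fin d × Fin d × Fin d × Fin d,
          |β| * (nsq (eb p.1 p.2.1) + nsq (eb p.2.2.1 p.2.2.2)) :=
      Finset.single_le_sum (f := fun p : Fin d × Fin d × Fin d × Fin d =>
        |β| * (nsq (eb p.1 p.2.1) + nsq (eb p.2.2.1 p.2.2.2))) (fun p _ => by
        have := nsq_nonneg (eb p.1 p.2.1)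
        have := nsq_nonneg (eb p.2.2.1 p.2.2.2)
        positivity) (Finset.mem_univ p)
    have h2 := (hbd n p).trans h1
    rw [abs_le] at h2
    exact ⟨h2.1, h2.2⟩
  have hcomp : IsCompact (Set.pi Set.univ (fun _ : Fin d × Fin d × Fin d × Fin d =>
      Set.Icc (-K) K)) := isCompact_univ_pi fun _ => isCompact_Icc
  obtain ⟨e, _, φ, hφ, hlim⟩ := hcomp.tendsto_subseq hK
  rw [tendsto_pi_nhds] at hlim
  have hQ : ∀ ξ, Tendsto (fun n => (T (φ n)).Q ξ) atTop
      (𝓝 (∑ i, ∑ j, ∑ k, ∑ l, ξ i j * ξ k l * e (i, j, k, l))) := by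
    intro ξ
    simp only [Tens.Q_expand]
    refine tendsto_finset_sum _ fun i _ => tendsto_finset_sum _ fun j _ => tendsto_finset_sum _
      fun k _ => tendsto_finset_sum _ fun l _ => ?_
    exact (hlim (i, j, k, l)).const_mul _
  obtain ⟨W, hW⟩ := exists_tens
    (fun ξ => ∑ i, ∑ j, ∑ k, ∑ l, ξ i j * ξ k l * e (i, j, k, l)) β
    (fun A => by
      refine le_of_tendsto (hQ A).abs ?_
      exact Eventually.of_forall fun n => hT _ _)
    (fun A B => by
      have h1 := (hQ (A + B)).add (hQ (A - B))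
      have h2 := ((hQ A).const_mul 2).add ((hQ B).const_mul 2)
      refine tendsto_nhds_unique h1 (h2.congr fun n => ?_)
      rw [← Tens.parallelogram])
  exact ⟨φ, hφ, W, fun ξ => by rw [hW]; exact hQ ξ⟩

end Pool.Agent.Lib.MP_5df1bf_an
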