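import Pool.Agent.Lib.MP_5df1bf_an.Stmts4
import Pool.Agent.Lib.MP_5df1bf_an.GadFld
import Pool.Agent.Lib.MP_5df1bf_an.BaseA

/-!
# MP_5df1bf_an, R5a and R5b: the material field of the rigid gadget, volume of the tubes, and
gradients compatible with the fibres
-/

open MeasureTheory Filter Topology
open scoped BigOperators ContDiff

noncomputable section

namespace Pool.Agent.Lib.MP_5df1bf_an

variable {d : ℕ}

namespace RD

variable (D : RD d)

theorem gam_pos : 0 < D.γ := by
  unfold γ
  have : 0 ≤ ∑ i, ∑ j, |(D.A₀ i j : ℝ)| :=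
    Finset.sum_nonneg fun i _ => Finset.sum_nonneg fun j _ => abs_nonneg _
  positivity

theorem gam_le : D.γ ≤ 1 / 8 := by
  unfold γ
  have : 0 ≤ ∑ i, ∑ j, |(D.A₀ i j : ℝ)| :=
    Finset.sum_nonneg fun i _ => Finset.sum_nonneg fun j _ => abs_nonneg _
  apply one_div_le_one_div_of_le (by norm_num)
  linarith

theorem Nr_pos : (0 : ℝ) < D.N := by
  have := D.Npos
  exact_mod_cast (by omega : 0 < D.N)

theorem hb_pos : 0 < D.hb := by
  have := D.gam_le
  unfold hb
  linarith

theorem hb_lt : D.hb < 1 / 2 := by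
  have := D.gam_pos
  unfold hb
  linarith

theorem pd_le_abs_int (t : ℝ) (z : ℤ) : pd t ≤ |t - z| := round_le t z

theorem pd_nat_mul (n : ℕ) (t : ℝ) : pd (n * t) ≤ n * pd t := by
  have h := pd_le_abs_int (n * t) (n * round t)
  have h2 : |(n : ℝ) * t - (((n : ℤ) * round t : ℤ) : ℝ)| = n * pd t := by
    unfold pd
    push_cast
    rw [← mul_sub, abs_mul, Nat.abs_cast]
  rw [h2] at h
  exact h

/-- points of other tubes are not in the gaps -/
theorem tube_body {k k' : Fin d} (h : k ≠ k') {x : V d} (hx : x ∈ D.tube k') :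
    pd (D.N * x k) ≤ D.hb := by
  have h1 := hx k h
  have h2 := pd_nat_mul D.N (x k)
  have h3 := D.Nr_pos
  calc pd (D.N * x k) ≤ D.N * pd (x k) := h2
    _ ≤ D.N * (D.hb / D.N) := mul_le_mul_of_nonneg_left h1 h3.le
    _ = D.hb := by field_simp

theorem gap_body {k : Fin d} {x : V d} (h : x ∈ D.gap k) : x ∉ D.body := by
  rintro ⟨k', h1, h2⟩
  by_cases hk : k = k'
  · subst hk
    exact absurd h2 (not_le.2 h.2)
  · exact absurd (D.tube_body hk h1) (not_le.2 h.2)

theorem gap_gap {k k' : Fin d} {x : V d} (h : x ∈ D.gap k) (h' : x ∈ D.gap k') : k = k' := by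
  by_contra hk
  exact absurd (D.tube_body hk h'.1) (not_le.2 h.2)

/-- the regions -/
def Reg : Bool ⊕ Fin d → Set (V d)
  | Sum.inl true => D.body
  | Sum.inl false => {x | x ∉ D.body ∧ ∀ k, x ∉ D.gap k}
  | Sum.inr k => D.gap k

theorem reg_exists (x : V d) : ∃ i, x ∈ D.Reg i := by
  by_cases h1 : x ∈ D.body
  · exact ⟨Sum.inl true, h1⟩
  by_cases h2 : ∃ k, x ∈ D.gap k
  · obtain ⟨k, h2⟩ := h2
    exact ⟨Sum.inr k, h2⟩
  push Not at h2
  exact ⟨Sum.inl false, h1, h2⟩

theorem reg_unique (x : V d) (i i' : Bool ⊕ Fin d) (h : x ∈ D.Reg i) (h' : x ∈ D.Reg i') :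
    i = i' := by
  rcases i with i | k <;> rcases i' with i' | k'
  · cases i <;> cases i' <;> first | rfl | skip
    · exact absurd h' h.1
    · exact absurd h h'.1
  · cases i
    · exact absurd h' (h.2 k')
    · exact absurd h (D.gap_body h')
  · cases i'
    · exact absurd h (h'.2 k)
    · exact absurd h' (D.gap_body h)
  · rw [D.gap_gap h h']

theorem meas_pdN (k : Fin d) : Measurable fun x : V d => pd (D.N * x k) :=
  measurable_pd.comp ((measurable_pi_apply k).const_mul _)

theorem meas_pdi (k : Fin d) : Measurable fun x : V d => pd (x k) :=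
  measurable_pd.comp (measurable_pi_apply k)

theorem meas_tube (k : Fin d) : MeasurableSet (D.tube k) := by
  have : D.tube k = ⋂ i, ⋂ (_ : i ≠ k), {x : V d | pd (x i) ≤ D.hb / D.N} := by
    ext x
    simp [tube]
  rw [this]
  exact MeasurableSet.iInter fun i => MeasurableSet.iInter fun _ =>
    measurableSet_le (meas_pdi i) measurable_const

theorem meas_body : MeasurableSet D.body := by
  have : D.body = ⋃ k, (D.tube k ∩ {x : V d | pd (D.N * x k) ≤ D.hb}) := by
    ext x
    simp [body]
  rw [this]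
  exact MeasurableSet.iUnion fun k => (D.meas_tube k).inter
    (measurableSet_le (D.meas_pdN k) measurable_const)

theorem meas_gap (k : Fin d) : MeasurableSet (D.gap k) := by
  have : D.gap k = D.tube k ∩ {x : V d | D.hb < pd (D.N * x k)} := by
    ext x
    simp [gap]
  rw [this]
  exact (D.meas_tube k).inter (measurableSet_lt measurable_const (D.meas_pdN k))

theorem meas_reg (i) : MeasurableSet (D.Reg i) := by
  rcases i with i | k
  · cases i
    · have : D.Reg (Sum.inl false) = (D.body)ᶜ ∩ ⋂ k, (D.gap k)ᶜ := by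
        ext x
        simp [Reg]
      rw [this]
      exact D.meas_body.compl.inter (MeasurableSet.iInter fun k => (D.meas_gap k).compl)
    · exact D.meas_body
  · exact D.meas_gap k

theorem pd_single (x : V d) (j i : Fin d) :
    pd ((x + Pi.single j 1 : V d) i) = pd (x i) := by
  by_cases h : i = j
  · subst h
    have := pd_add_int (x i) 1
    simpa using this
  · simp [h]

theorem pdN_single (x : V d) (j i : Fin d) :
    pd (D.N * (x + Pi.single j 1 : V d) i) = pd (D.N * x i) := by
  by_cases h : i = j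
  · subst h
    have := pd_add_int (D.N * x i) (D.N : ℤ)
    simp only [Pi.add_apply, Pi.single_eq_same, mul_add, mul_one]
    push_cast at this
    exact this
  · simp [h]

theorem tube_single (k : Fin d) (x : V d) (j : Fin d) :
    x + Pi.single j 1 ∈ D.tube k ↔ x ∈ D.tube k := by
  simp only [tube, Set.mem_setOf_eq, pd_single]

theorem body_single (x : V d) (j : Fin d) : x + Pi.single j 1 ∈ D.body ↔ x ∈ D.body := by
  simp only [body, Set.mem_setOf_eq, tube_single, pdN_single]

theorem gap_single (k : Fin d) (x : V d) (j : Fin d) :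
    x + Pi.single j 1 ∈ D.gap k ↔ x ∈ D.gap k := by
  simp only [gap, Set.mem_setOf_eq, tube_single, pdN_single]

theorem reg_single (i) (x : V d) (j : Fin d) : x + Pi.single j 1 ∈ D.Reg i ↔ x ∈ D.Reg i := by
  rcases i with i | k
  · cases i
    · simp only [Reg, Set.mem_setOf_eq, body_single, gap_single]
    · exact D.body_single x j
  · exact D.gap_single k x j

end RD

theorem pd_cell {t : ℝ} (h0 : 0 ≤ t) (h1 : t ≤ 1) {s : ℝ} (h : pd t < s) :
    t ∈ Set.Icc 0 s ∪ Set.Icc (1 - s) 1 := by
  unfold pd at h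
  have h2 : round t = 0 ∨ round t = 1 := by
    have h3 : (-1 : ℝ) < round t := by
      have := (abs_le.1 (abs_sub_round t)).2
      linarith
    have h4 : (round t : ℝ) < 2 := by
      have := (abs_le.1 (abs_sub_round t)).1
      linarith
    have h5 : -1 < round t := by exact_mod_cast h3
    have h6 : round t < 2 := by exact_mod_cast h4
    omega
  rcases h2 with h2 | h2
  · left
    rw [h2, Int.cast_zero, sub_zero] at h
    exact ⟨h0, (abs_lt.1 h).2.le⟩
  · right
    rw [h2, Int.cast_one] at h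
    have := (abs_lt.1 h).1
    exact ⟨by linarith, h1⟩

/-- R5a -/
theorem rfld_field (D : RD d) (C R : Tens d) (F : Fin d → Tens d) :
    ∃ (m : ℕ) (idx : V d → Fin m) (val : Fin m → Tens d),
    Measurable idx ∧ Per idx ∧ D.IsG C R F (fun x => val (idx x)) ∧
    (∀ i, val i = C ∨ val i = R ∨ ∃ k, val i = F k) := by
  classical
  let ι := Bool ⊕ Fin d
  let e : ι ≃ Fin (Fintype.card ι) := Fintype.equivFin ι
  let cls : V d → ι := fun x => (D.reg_exists x).choose
  have hcls : ∀ x, x ∈ D.Reg (cls x) := fun x => (D.reg_exists x).choose_spec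
  have hcls' : ∀ x i, x ∈ D.Reg i → cls x = i := fun x i h => D.reg_unique x _ _ (hcls x) h
  let v : ι → Tens d := fun i => match i with
    | Sum.inl true => R
    | Sum.inl false => C
    | Sum.inr k => F k
  have hval : ∀ x i, x ∈ D.Reg i → v (e.symm (e (cls x))) = v i := by
    intro x i h
    rw [Equiv.symm_apply_apply, hcls' x i h]
  refine ⟨Fintype.card ι, fun x => e (cls x), fun i => v (e.symm i), ?_, ?_, ?_, ?_⟩
  · apply measurable_to_countable'
    intro i
    have : (fun x => e (cls x)) ⁻¹' {i} = D.Reg (e.symm i) := by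
      ext x
      simp only [Set.mem_preimage, Set.mem_singleton_iff]
      constructor
      · intro h
        rw [← h, Equiv.symm_apply_apply]
        exact hcls x
      · intro h
        rw [hcls' x _ h, Equiv.apply_symm_apply]
    rw [this]
    exact D.meas_reg _
  · intro x i
    show e (cls (x + Pi.single i 1)) = e (cls x)
    congr 1
    apply hcls'
    rw [D.reg_single]
    exact hcls x
  · constructor
    · intro x hx
      exact hval x (Sum.inl true) hx
    · intro k x hx
      exact hval x (Sum.inr k) hx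
    · intro x h1 h2
      exact hval x (Sum.inl false) ⟨h1, h2⟩
  · intro i
    rcases h : e.symm i with a | k
    · cases a
      · left
        simp only [h]
        rfl
      · right; left
        simp only [h]
        rfl
    · right; right
      refine ⟨k, ?_⟩
      simp only [h]
      rfl

theorem rtube_meas (s : ℝ) : MeasurableSet {x : V d | ∃ k : Fin d, ∀ i, i ≠ k → pd (x i) < s} := by
  have : {x : V d | ∃ k : Fin d, ∀ i, i ≠ k → pd (x i) < s}
      = ⋃ k : Fin d, ⋂ i, ⋂ (_ : i ≠ k), {x : V d | pd (x i) < s} := by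
    ext x
    simp
  rw [this]
  exact MeasurableSet.iUnion fun k => MeasurableSet.iInter fun i => MeasurableSet.iInter fun _ =>
    measurableSet_lt (RD.meas_pdi i) measurable_const

theorem rtube_vol (s : ℝ) (hs : 0 ≤ s) (k : Fin d) :
    volume ({x : V d | ∀ i, i ≠ k → pd (x i) < s} ∩ cell d) ≤ ENNReal.ofReal (2 * s) ^ (d - 1) := by
  have hsub : {x : V d | ∀ i, i ≠ k → pd (x i) < s} ∩ cell d ⊆
      Set.pi Set.univ (fun i => if i = k then Set.Icc (0 : ℝ) 1 else
        Set.Icc 0 s ∪ Set.Icc (1 - s) 1) := by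
    rintro x ⟨h1, h2, h3⟩ i _
    by_cases hi : i = k
    · simp only [hi, if_true]
      exact ⟨h2 k, h3 k⟩
    · simp only [hi, if_false]
      exact pd_cell (h2 i) (h3 i) (h1 i hi)
  refine (measure_mono hsub).trans ?_
  rw [volume_pi_pi, ← Finset.mul_prod_erase Finset.univ _ (Finset.mem_univ k)]
  simp only [if_true, Real.volume_Icc, sub_zero, ENNReal.ofReal_one, one_mul]
  have hcard : (Finset.univ.erase k).card = d - 1 := by
    rw [Finset.card_erase_of_mem (Finset.mem_univ k), Finset.card_univ, Fintype.card_fin]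
  rw [← hcard]
  apply Finset.prod_le_pow_card
  intro i hi
  rw [if_neg (Finset.ne_of_mem_erase hi)]
  refine (measure_union_le _ _).trans ?_
  rw [Real.volume_Icc, Real.volume_Icc, ← ENNReal.ofReal_add (by linarith) (by linarith)]
  apply le_of_eq
  congr 1
  ring

theorem rfld_ok : StmtRFld d := by
  intro hd D
  refine ⟨rfld_field D, rtube_meas _, ?_⟩
  have hN := D.Nr_pos
  have hN2 : (2 : ℝ) ≤ D.N := by exact_mod_cast D.Npos
  unfold frac
  have h1 : volume ({x : V d | ∃ k : Fin d, ∀ i, i ≠ k → pd (x i) < 1 / D.N} ∩ cell d) ≤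
      ∑ _k : Fin d, ENNReal.ofReal (2 * (1 / D.N)) ^ (d - 1) := by
    have hsub : {x : V d | ∃ k : Fin d, ∀ i, i ≠ k → pd (x i) < 1 / D.N} ∩ cell d ⊆
        ⋃ k : Fin d, ({x : V d | ∀ i, i ≠ k → pd (x i) < 1 / D.N} ∩ cell d) := by
      rintro x ⟨⟨k, hk⟩, hx⟩
      exact Set.mem_iUnion.2 ⟨k, hk, hx⟩
    refine (measure_mono hsub).trans ((measure_iUnion_fintype_le _ _).trans ?_)
    exact Finset.sum_le_sum fun k _ => rtube_vol _ (by positivity) k
  have h2 : ∑ _k : Fin d, ENNReal.ofReal (2 * (1 / D.N)) ^ (d - 1)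
      = ENNReal.ofReal (d * (2 * (1 / D.N)) ^ (d - 1)) := by
    rw [Finset.sum_const, Finset.card_univ, Fintype.card_fin, nsmul_eq_mul,
      ← ENNReal.ofReal_pow (by positivity), ← ENNReal.ofReal_natCast,
      ← ENNReal.ofReal_mul (by positivity)]
  rw [h2] at h1
  refine (ENNReal.toReal_le_of_le_ofReal (by positivity) h1).trans ?_
  have h3 : (2 * (1 / (D.N : ℝ))) ^ (d - 1) ≤ 2 ^ d / D.N := by
    have hx : 2 * (1 / (D.N : ℝ)) = 2 / D.N := by ring
    rw [hx, div_pow]
    have h4 : (2 : ℝ) ^ (d - 1) ≤ 2 ^ d := pow_le_pow_right₀ (by norm_num) (by omega)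
    have h5 : (D.N : ℝ) ≤ (D.N : ℝ) ^ (d - 1) := by
      calc (D.N : ℝ) = (D.N : ℝ) ^ 1 := (pow_one _).symm
        _ ≤ (D.N : ℝ) ^ (d - 1) := pow_le_pow_right₀ (by linarith) (by omega)
    gcongr
  calc (d : ℝ) * (2 * (1 / D.N)) ^ (d - 1) ≤ d * (2 ^ d / D.N) := by gcongr
    _ = d * 2 ^ d / D.N := by ring

/-- R5b -/
theorem skew_ok : StmtSkew d := by
  intro D
  set S : ℝ := ∑ l, ∑ k, (D.A₀ l k : ℝ) ^ 2 with hS
  have hS0 : 0 ≤ S := Finset.sum_nonneg fun i _ => Finset.sum_nonneg fun j _ => sq_nonneg _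
  refine ⟨2 + 8 * d ^ 2 * S, by positivity, ?_⟩
  intro ε hε h0
  by_cases hd : d = 0
  · subst hd
    refine ⟨ε, ?_, fun k => k.elim0, ?_⟩
    · exact symm_of_tp hε
    · simp [ip, nsq]
  have hd1 : (1 : ℝ) ≤ d := by exact_mod_cast Nat.one_le_iff_ne_zero.2 hd
  have hsym : ∀ i j, ε i j = ε j i := fun i j => (congrFun (congrFun hε i) j).symm
  set r : Fin d → ℝ := fun k => ∑ l, (D.A₀ l k : ℝ) * ε l k with hr
  have hr0 : ∑ k, r k = 0 := by
    rw [hr, Finset.sum_comm]
    exact h0
  set W : M d := fun l k => (r l - r k) / (d * D.A₀ l k) with hW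
  have hne : ∀ l k, (D.A₀ l k : ℝ) ≠ 0 := fun l k => by exact_mod_cast D.ne l k
  have hdr : (d : ℝ) ≠ 0 := by positivity
  have hWs : symm W = 0 := by
    funext l k
    simp only [symm, hW, Pi.zero_apply, D.sym l k]
    have h1 := hne k l
    field_simp
    ring
  have hεs : symm ε = ε := symm_of_tp hε
  refine ⟨ε + W, ?_, ?_, ?_⟩
  · rw [symm_add, hWs, add_zero, hεs]
  · intro k
    have h1 : ∀ i, (D.A₀ i k : ℝ) * (ε + W) i k = D.A₀ i k * ε i k + (r i - r k) / d := by
      intro i
      simp only [Pi.add_apply, hW]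
      have := hne i k
      field_simp
    simp only [h1, Finset.sum_add_distrib, ← Finset.sum_div, Finset.sum_sub_distrib, hr0,
      Finset.sum_const, Finset.card_univ, Fintype.card_fin, nsmul_eq_mul]
    show r k + (0 - d * r k) / d = 0
    field_simp
    ring
  · have hn : nsq ε = ip ε ε := nsq_of_symm hεs
    have hrb : ∀ k, (r k) ^ 2 ≤ S * ip ε ε := by
      intro k
      have h1 : (r k) ^ 2 ≤ (∑ l, (D.A₀ l k : ℝ) ^ 2) * ∑ l, (ε l k) ^ 2 :=
        Finset.sum_mul_sq_le_sq_mul_sq _ _ _
      have h2 : ∑ l, (D.A₀ l k : ℝ) ^ 2 ≤ S := by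
        rw [hS, Finset.sum_comm]
        exact Finset.single_le_sum (f := fun k => ∑ l, (D.A₀ l k : ℝ) ^ 2)
          (fun i _ => Finset.sum_nonneg fun j _ => sq_nonneg _) (Finset.mem_univ k)
      have h3 : ∑ l, (ε l k) ^ 2 ≤ ip ε ε := by
        rw [ip_self_eq, Finset.sum_comm]
        exact Finset.single_le_sum (f := fun k => ∑ l, (ε l k) ^ 2)
          (fun i _ => Finset.sum_nonneg fun j _ => sq_nonneg _) (Finset.mem_univ k)
      exact h1.trans (mul_le_mul h2 h3 (Finset.sum_nonneg fun j _ => sq_nonneg _) hS0)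
    have hWb : ∀ l k, (W l k) ^ 2 ≤ 4 * (S * ip ε ε) := by
      intro l k
      have h1 : 1 ≤ ((d : ℝ) * D.A₀ l k) ^ 2 := by
        have h2 : (1 : ℝ) ≤ (D.A₀ l k : ℝ) ^ 2 := by
          have h3 : (1 : ℤ) ≤ (D.A₀ l k) ^ 2 := by
            have h4 := D.ne l k
            have : 0 < (D.A₀ l k) ^ 2 := by positivity
            omega
          exact_mod_cast h3
        rw [mul_pow]
        nlinarith [sq_nonneg ((D.A₀ l k : ℝ))]
      have h2 : (W l k) ^ 2 ≤ (r l - r k) ^ 2 := by
        rw [hW]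
        simp only [div_pow]
        exact div_le_self (sq_nonneg _) h1
      nlinarith [hrb l, hrb k, sq_nonneg (r l + r k)]
    have hWW : ip W W ≤ d ^ 2 * (4 * (S * ip ε ε)) := by
      rw [ip_self_eq]
      calc ∑ i, ∑ j, (W i j) ^ 2 ≤ ∑ _i : Fin d, ∑ _j : Fin d, 4 * (S * ip ε ε) :=
            Finset.sum_le_sum fun i _ => Finset.sum_le_sum fun j _ => hWb i j
        _ = _ := by
            simp only [Finset.sum_const, Finset.card_univ, Fintype.card_fin, nsmul_eq_mul]
            ring
    have hsum : ip (ε + W) (ε + W) ≤ 2 * ip ε ε + 2 * ip W W := by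
      have h1 := ip_self_nonneg (ε - W)
      have h2 := ip_self_add ε W
      have h3 : ip (ε - W) (ε - W) = ip ε ε - 2 * ip ε W + ip W W := by
        rw [ip_sub_left, ip_sub_right, ip_sub_right, ip_comm W ε]
        ring
      linarith
    rw [hn]
    nlinarith

end Pool.Agent.Lib.MP_5df1bf_an
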