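import Pool.Agent.Lib.MP_5df1bf_an.Stmts4
import Pool.Agent.Lib.MP_5df1bf_an.RFld
import Pool.Agent.Lib.MP_5df1bf_an.DatOk
import Pool.Agent.Lib.MP_5df1bf_an.Zone

/-!
# MP_5df1bf_an, R5c: the displacement of the rigid gadget
-/

open MeasureTheory Filter Topology
open scoped BigOperators ContDiff

noncomputable section

namespace Pool.Agent.Lib.MP_5df1bf_an

variable {d : ℕ}

namespace RDispAux

open DatOk

/-- half side of the cubes, as a function of `A₀` -/
def hbA (A₀ : Fin d → Fin d → ℤ) : ℝ := (1 - 1 / (8 * (1 + ∑ i, ∑ j, |(A₀ i j : ℝ)|))) / 2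

lemma hbA_eq (D : RD d) : D.hb = hbA D.A₀ := rfl

lemma pdr (t : ℝ) : pd t = |t - round t| := rfl

/-- staircase minus identity: profile -/
def ph (h1 h2 x : ℝ) : ℝ := -(x * ccg h1 h2 x)

lemma ph_contDiff (h1 h2 : ℝ) : ContDiff ℝ ∞ (ph h1 h2) :=
  (contDiff_id.mul (ccg_contDiff h1 h2)).neg

lemma ph_zero {h1 h2 : ℝ} (h : h1 < h2) (x : ℝ) (hx : h2 ≤ |x|) : ph h1 h2 x = 0 := by
  unfold ph
  rw [ccg_zero h hx]
  simp

/-- `φ` -/
def fi (h1 h2 : ℝ) : ℝ → ℝ := perz (ph h1 h2)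

lemma fi_contDiff {h1 h2 : ℝ} (h : h1 < h2) (h' : h2 < 1 / 2) : ContDiff ℝ ∞ (fi h1 h2) :=
  perz_contDiff h' (ph_zero h) (ph_contDiff h1 h2)

lemma fi_bd (h1 h2 t : ℝ) : |fi h1 h2 t| ≤ 1 / 2 := by
  unfold fi perz ph
  have h := ccg_rng h1 h2 (t - round t)
  rw [abs_neg, abs_mul, abs_of_nonneg h.1]
  have := abs_sub_round t
  nlinarith [abs_nonneg (t - round t)]

/-- near points with `pd t < h1` it is `round t - s` -/
lemma fi_near {h1 h2 : ℝ} (h : h1 < h2) (h' : h2 < 1 / 2) {t : ℝ} (ht : pd t < h1) :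
    fi h1 h2 =ᶠ[𝓝 t] fun s => (round t : ℝ) - s := by
  rw [pdr] at ht
  have hc1 : Continuous fun s : ℝ => |s - round t| := by fun_prop
  have hev : ∀ᶠ s : ℝ in 𝓝 t, |s - (round t : ℝ)| < h1 := hc1.continuousAt.eventually_lt_const ht
  filter_upwards [hev] with s hs
  unfold fi
  rw [perz_eq _ (n := round t) (by linarith)]
  unfold ph
  rw [ccg_one h hs.le]
  ring

lemma fi_deriv_near {h1 h2 : ℝ} (h : h1 < h2) (h' : h2 < 1 / 2) {t : ℝ} (ht : pd t < h1) :
    deriv (fi h1 h2) t = -1 := by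
  rw [(fi_near h h' ht).deriv_eq]
  simp

lemma fi_per {h1 h2 : ℝ} (t : ℝ) (n : ℤ) : fi h1 h2 (t + n) = fi h1 h2 t := perz_add_int _ _ _

lemma per_bd {f : ℝ → ℝ} (hf : Continuous f) (hp : ∀ t, f (t + 1) = f t) :
    ∃ K : ℝ, 0 ≤ K ∧ ∀ t, |f t| ≤ K := by
  obtain ⟨K, hK⟩ := (isCompact_Icc (a := (0 : ℝ)) (b := 1)).exists_bound_of_continuousOn
    hf.continuousOn
  have hper : Function.Periodic f 1 := hp
  refine ⟨max K 0, le_max_right _ _, fun t => ?_⟩
  obtain ⟨y, hy, hyt⟩ := hper.exists_mem_Ico₀ one_pos t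
  rw [hyt]
  exact (hK y ⟨hy.1, hy.2.le⟩).trans (le_max_left _ _)

lemma deriv_per {f : ℝ → ℝ} (hp : ∀ t, f (t + 1) = f t) (t : ℝ) :
    deriv f (t + 1) = deriv f t := by
  have h : (fun s => f (s + 1)) = f := funext hp
  have h1 := deriv_comp_add_const f 1 t
  rw [h] at h1
  exact h1.symm

/-- cut-off -/
def et (N : ℕ) (h1 h2 : ℝ) : ℝ → ℝ := perz fun y => ccg h1 h2 (N * y)

lemma et_zero {N : ℕ} (hN : 0 < N) {h1 h2 : ℝ} (h : h1 < h2) (x : ℝ) (hx : h2 / N ≤ |x|) :
    ccg h1 h2 (N * x) = 0 := by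
  have hN' : (0 : ℝ) < N := by exact_mod_cast hN
  apply ccg_zero h
  rw [abs_mul, abs_of_pos hN']
  rw [div_le_iff₀ hN'] at hx
  linarith

lemma h2N {N : ℕ} (hN : 2 ≤ N) {h2 : ℝ} (h' : h2 < 1 / 2) (h0 : 0 < h2) : h2 / N < 1 / 2 := by
  have hN' : (2 : ℝ) ≤ N := by exact_mod_cast hN
  rw [div_lt_iff₀ (by linarith)]
  nlinarith

lemma et_contDiff {N : ℕ} (hN : 2 ≤ N) {h1 h2 : ℝ} (h0 : 0 < h2) (h : h1 < h2) (h' : h2 < 1 / 2) :
    ContDiff ℝ ∞ (et N h1 h2) := by
  refine perz_contDiff (h2N hN h' h0) (et_zero (by omega) h) ?_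
  exact (ccg_contDiff h1 h2).comp (contDiff_const.mul contDiff_id)

lemma et_rng (N : ℕ) (h1 h2 t : ℝ) : 0 ≤ et N h1 h2 t ∧ et N h1 h2 t ≤ 1 := ccg_rng _ _ _

lemma et_one {N : ℕ} (hN : 2 ≤ N) {h1 h2 : ℝ} (h : h1 < h2) {t : ℝ} (ht : pd t < h1 / N) :
    et N h1 h2 =ᶠ[𝓝 t] fun _ => 1 := by
  rw [pdr] at ht
  have hN' : (0 : ℝ) < N := by exact_mod_cast (by omega : 0 < N)
  have hc1 : Continuous fun s : ℝ => |s - round t| := by fun_prop
  have hev : ∀ᶠ s : ℝ in 𝓝 t, |s - (round t : ℝ)| < h1 / N :=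
    hc1.continuousAt.eventually_lt_const ht
  filter_upwards [hev] with s hs
  unfold et perz
  apply ccg_one h
  rw [abs_mul, abs_of_pos hN']
  have h3 : |s - round s| ≤ |s - round t| := round_le s (round t)
  rw [lt_div_iff₀ hN'] at hs
  nlinarith

lemma et_nil {N : ℕ} (hN : 2 ≤ N) {h1 h2 : ℝ} (h : h1 < h2) {t : ℝ} (ht : h2 / N < pd t) :
    et N h1 h2 =ᶠ[𝓝 t] fun _ => 0 := by
  have hev : ∀ᶠ s : ℝ in 𝓝 t, h2 / N < pd s :=
    ZoneAux.pd_cont.continuousAt.eventually_const_lt ht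
  filter_upwards [hev] with s hs
  unfold et perz
  exact et_zero (by omega) h _ hs.le

lemma et_per {N : ℕ} {h1 h2 : ℝ} (t : ℝ) (n : ℤ) : et N h1 h2 (t + n) = et N h1 h2 t :=
  perz_add_int _ _ _

lemma ccg_deriv_bd {h1 h2 : ℝ} (h : h1 < h2) : ∃ K : ℝ, 0 ≤ K ∧ ∀ x, |deriv (ccg h1 h2) x| ≤ K := by
  have hs : ContDiff ℝ ∞ (deriv (ccg h1 h2)) := (contDiff_infty_iff_deriv.1 (ccg_contDiff h1 h2)).2
  have hsupp : HasCompactSupport (ccg h1 h2) := by
    refine HasCompactSupport.intro (isCompact_Icc (a := -h2) (b := h2)) fun x hx => ?_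
    refine ccg_zero h ?_
    rw [Set.mem_Icc, not_and_or, not_le, not_le] at hx
    rcases hx with h | h
    · exact le_abs.2 (Or.inr (by linarith))
    · exact le_abs.2 (Or.inl h.le)
  obtain ⟨K, hK⟩ := hs.continuous.bounded_above_of_compact_support hsupp.deriv
  exact ⟨K, (norm_nonneg _).trans (hK 0), hK⟩

lemma et_deriv_bd {h1 h2 : ℝ} (h0 : 0 < h2) (h : h1 < h2) (h' : h2 < 1 / 2) :
    ∃ K : ℝ, 0 ≤ K ∧ ∀ (N : ℕ), 2 ≤ N → ∀ t, |deriv (et N h1 h2) t| ≤ K * N := by
  obtain ⟨K, hK0, hK⟩ := ccg_deriv_bd h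
  refine ⟨K, hK0, fun N hN t => ?_⟩
  unfold et
  rw [perz_deriv (h2N hN h' h0) (et_zero (by omega) h)]
  unfold perz
  have h3 : deriv (fun y => ccg h1 h2 (N * y)) (t - round t) =
      deriv (ccg h1 h2) (N * (t - round t)) * N := by
    have hd : DifferentiableAt ℝ (ccg h1 h2) (N * (t - round t)) :=
      ((ccg_contDiff h1 h2).differentiable (by simp)) _
    have h4 := (hd.hasDerivAt).comp (t - round t) ((hasDerivAt_id _).const_mul (N : ℝ))
    have h5 : deriv (fun y => ccg h1 h2 (N * y)) (t - round t) =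
      deriv (ccg h1 h2) (N * (t - round t)) * (N * 1) := h4.deriv
    rw [h5, mul_one]
  rw [h3, abs_mul, Nat.abs_cast]
  exact mul_le_mul_of_nonneg_right (hK _) (by positivity)

/-- derivative of a product of functions with values in `[-1, 1]` -/
lemma prod_bd {ι : Type*} (s : Finset ι) (f : ι → V d → ℝ) (f' : ι → V d →L[ℝ] ℝ)
    (x : V d) (hf : ∀ i ∈ s, HasFDerivAt (f i) (f' i) x) (hb : ∀ i ∈ s, |f i x| ≤ 1) :
    ∃ F' : V d →L[ℝ] ℝ, HasFDerivAt (fun y => ∏ i ∈ s, f i y) F' x ∧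
      ∀ v, |F' v| ≤ ∑ i ∈ s, |f' i v| := by
  classical
  refine ⟨_, HasFDerivAt.finsetProd hf, fun v => ?_⟩
  rw [ContinuousLinearMap.sum_apply]
  refine (Finset.abs_sum_le_sum_abs _ _).trans (Finset.sum_le_sum fun i hi => ?_)
  rw [ContinuousLinearMap.smul_apply, smul_eq_mul, abs_mul]
  have h1 : |∏ j ∈ s.erase i, f j x| ≤ 1 := by
    rw [Finset.abs_prod]
    exact Finset.prod_le_one (fun _ _ => abs_nonneg _) fun j hj => hb j (Finset.mem_of_mem_erase hj)
  nlinarith [abs_nonneg (f' i v)]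

lemma coord_hasFDerivAt {g : ℝ → ℝ} {g' : ℝ} (i : Fin d) (x : V d) (hg : HasDerivAt g g' (x i)) :
    HasFDerivAt (fun y : V d => g (y i))
      (g' • ContinuousLinearMap.proj (R := ℝ) (φ := fun _ : Fin d => ℝ) i) x :=
  hg.comp_hasFDerivAt x
    (ContinuousLinearMap.proj (R := ℝ) (φ := fun _ : Fin d => ℝ) i).hasFDerivAt

/-- the cut-off around the tubes -/
def ze (N : ℕ) (h1 h2 : ℝ) (x : V d) : ℝ :=
  1 - ∏ k : Fin d, (1 - ∏ i ∈ Finset.univ.erase k, et N h1 h2 (x i))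

lemma pk_rng (N : ℕ) (h1 h2 : ℝ) (x : V d) (k : Fin d) :
    0 ≤ ∏ i ∈ Finset.univ.erase k, et N h1 h2 (x i) ∧
      ∏ i ∈ Finset.univ.erase k, et N h1 h2 (x i) ≤ 1 :=
  ⟨Finset.prod_nonneg fun i _ => (et_rng N h1 h2 (x i)).1,
    Finset.prod_le_one (fun i _ => (et_rng N h1 h2 (x i)).1) fun i _ => (et_rng N h1 h2 (x i)).2⟩

lemma ze_rng (N : ℕ) (h1 h2 : ℝ) (x : V d) : 0 ≤ ze N h1 h2 x ∧ ze N h1 h2 x ≤ 1 := by
  unfold ze
  have hp := fun k => pk_rng N h1 h2 x k
  have h1' : 0 ≤ ∏ k : Fin d, (1 - ∏ i ∈ Finset.univ.erase k, et N h1 h2 (x i)) :=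
    Finset.prod_nonneg fun k _ => by linarith [(hp k).2]
  have h2' : ∏ k : Fin d, (1 - ∏ i ∈ Finset.univ.erase k, et N h1 h2 (x i)) ≤ 1 :=
    Finset.prod_le_one (fun k _ => by linarith [(hp k).2]) fun k _ => by linarith [(hp k).1]
  constructor <;> linarith

lemma ze_contDiff {N : ℕ} (hN : 2 ≤ N) {h1 h2 : ℝ} (h0 : 0 < h2) (h : h1 < h2) (h' : h2 < 1 / 2) :
    ContDiff ℝ ∞ (ze (d := d) N h1 h2) := by
  unfold ze
  refine contDiff_const.sub (contDiff_prod fun k _ => contDiff_const.sub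
    (contDiff_prod fun i _ => ?_))
  exact (et_contDiff hN h0 h h').comp (contDiff_apply ℝ ℝ i)

lemma ze_deriv_bd {N : ℕ} (hN : 2 ≤ N) {h1 h2 K : ℝ} (h0 : 0 < h2) (h : h1 < h2) (h' : h2 < 1 / 2)
    (hK0 : 0 ≤ K) (hK : ∀ t, |deriv (et N h1 h2) t| ≤ K * N) (x : V d) (j : Fin d) :
    |fderiv ℝ (ze (d := d) N h1 h2) x (Pi.single j 1)| ≤ d * (K * N) := by
  have hη : ∀ i : Fin d, HasFDerivAt (fun y : V d => et N h1 h2 (y i))
      (deriv (et N h1 h2) (x i) •
        ContinuousLinearMap.proj (R := ℝ) (φ := fun _ : Fin d => ℝ) i) x := fun i =>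
    coord_hasFDerivAt i x
      (((et_contDiff hN h0 h h').differentiable (by simp) _).hasDerivAt)
  have hp : ∀ k : Fin d, ∃ F' : V d →L[ℝ] ℝ,
      HasFDerivAt (fun y : V d => ∏ i ∈ Finset.univ.erase k, et N h1 h2 (y i)) F' x ∧
      |F' (Pi.single j 1)| ≤ K * N := by
    intro k
    obtain ⟨F', hF, hb⟩ := prod_bd (Finset.univ.erase k) _ _ x (fun i _ => hη i) (fun i _ => by
      rw [abs_of_nonneg (et_rng N h1 h2 (x i)).1]
      exact (et_rng N h1 h2 (x i)).2)
    refine ⟨F', hF, (hb _).trans ?_⟩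
    have h3 : ∑ i ∈ Finset.univ.erase k, |(deriv (et N h1 h2) (x i) •
        ContinuousLinearMap.proj (R := ℝ) (φ := fun _ : Fin d => ℝ) i) (Pi.single j 1)| ≤
        ∑ i : Fin d, if i = j then K * N else 0 := by
      refine (Finset.sum_le_sum_of_subset_of_nonneg (Finset.erase_subset _ _)
        fun i _ _ => abs_nonneg _).trans (Finset.sum_le_sum fun i _ => ?_)
      rw [ContinuousLinearMap.smul_apply, smul_eq_mul, ContinuousLinearMap.proj_apply]
      by_cases hij : i = j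
      · subst hij
        simp only [Pi.single_eq_same, mul_one, if_true]
        exact hK _
      · simp [hij]
    refine h3.trans ?_
    simp
  choose F' hF hb using hp
  have h1m : ∀ k ∈ (Finset.univ : Finset (Fin d)),
      HasFDerivAt (fun y : V d => 1 - ∏ i ∈ Finset.univ.erase k, et N h1 h2 (y i)) (-F' k) x :=
    fun k _ => (hF k).const_sub 1
  obtain ⟨G', hG, hGb⟩ := prod_bd Finset.univ _ _ x h1m (fun k _ => by
    have := pk_rng N h1 h2 x k
    rw [abs_of_nonneg (by linarith [this.2])]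
    linarith [this.1])
  have hz : HasFDerivAt (ze (d := d) N h1 h2) (-G') x := hG.const_sub 1
  rw [hz.fderiv, ContinuousLinearMap.neg_apply, abs_neg]
  refine (hGb _).trans ?_
  calc ∑ k : Fin d, |(-F' k) (Pi.single j 1)| ≤ ∑ _k : Fin d, K * N :=
        Finset.sum_le_sum fun k _ => by rw [ContinuousLinearMap.neg_apply, abs_neg]; exact hb k
    _ = d * (K * N) := by simp

lemma ze_per {N : ℕ} {h1 h2 : ℝ} : Per (ze (d := d) N h1 h2) := by
  intro x i
  unfold ze
  congr 1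
  refine Finset.prod_congr rfl fun k _ => ?_
  congr 1
  refine Finset.prod_congr rfl fun m _ => ?_
  by_cases hm : m = i
  · subst hm
    have := et_per (N := N) (h1 := h1) (h2 := h2) (x m) 1
    simpa using this
  · simp [hm]

lemma ze_one {N : ℕ} (hN : 2 ≤ N) {h1 h2 : ℝ} (h : h1 < h2) {x : V d} {k : Fin d}
    (hx : ∀ i, i ≠ k → pd (x i) < h1 / N) : ze N h1 h2 =ᶠ[𝓝 x] fun _ => 1 := by
  have hev : ∀ᶠ y : V d in 𝓝 x, ∀ i, i ≠ k → et N h1 h2 (y i) = 1 := by
    rw [Filter.eventually_all]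
    intro i
    by_cases hi : i = k
    · exact Filter.Eventually.of_forall fun y hik => absurd hi hik
    · have h3 := ((continuous_apply i).tendsto x).eventually (et_one hN h (hx i hi))
      filter_upwards [h3] with y hy _
      exact hy
  filter_upwards [hev] with y hy
  unfold ze
  have h3 : ∏ i ∈ Finset.univ.erase k, et N h1 h2 (y i) = 1 :=
    Finset.prod_eq_one fun i hi => hy i (Finset.ne_of_mem_erase hi)
  rw [Finset.prod_eq_zero (Finset.mem_univ k) (by rw [h3, sub_self])]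
  simp

lemma ze_nil {N : ℕ} (hN : 2 ≤ N) {h1 h2 : ℝ} (h : h1 < h2) {x : V d}
    (hx : ∀ k : Fin d, ∃ i, i ≠ k ∧ h2 / N < pd (x i)) : ze N h1 h2 =ᶠ[𝓝 x] fun _ => 0 := by
  have hev : ∀ᶠ y : V d in 𝓝 x, ∀ k : Fin d, ∃ i, i ≠ k ∧ et N h1 h2 (y i) = 0 := by
    rw [Filter.eventually_all]
    intro k
    obtain ⟨i, hik, hi⟩ := hx k
    have h3 := ((continuous_apply i).tendsto x).eventually (et_nil hN h hi)
    filter_upwards [h3] with y hy
    exact ⟨i, hik, hy⟩
  filter_upwards [hev] with y hy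
  unfold ze
  have h3 : ∏ k : Fin d, (1 - ∏ i ∈ Finset.univ.erase k, et N h1 h2 (y i)) = 1 := by
    refine Finset.prod_eq_one fun k _ => ?_
    obtain ⟨i, hik, hi⟩ := hy k
    rw [Finset.prod_eq_zero (Finset.mem_erase.2 ⟨hik, Finset.mem_univ i⟩) hi]
    simp
  rw [h3]
  simp

/-- `N⁻¹ St (N x) - x` -/
def om (N : ℕ) (h1 h2 : ℝ) (t : ℝ) : ℝ := fi h1 h2 (N * t) / N

lemma om_contDiff {N : ℕ} {h1 h2 : ℝ} (h : h1 < h2) (h' : h2 < 1 / 2) :
    ContDiff ℝ ∞ (om N h1 h2) :=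
  ((fi_contDiff h h').comp (contDiff_const.mul contDiff_id)).div_const _

lemma om_deriv {N : ℕ} (hN : 2 ≤ N) {h1 h2 : ℝ} (h : h1 < h2) (h' : h2 < 1 / 2) (t : ℝ) :
    HasDerivAt (om N h1 h2) (deriv (fi h1 h2) (N * t)) t := by
  have hN' : (N : ℝ) ≠ 0 := by exact_mod_cast (by omega : N ≠ 0)
  have hd : DifferentiableAt ℝ (fi h1 h2) (N * t) := ((fi_contDiff h h').differentiable (by simp)) _
  have h4 := ((hd.hasDerivAt).comp t ((hasDerivAt_id t).const_mul (N : ℝ))).div_const (N : ℝ)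
  have h5 : deriv (fi h1 h2) (N * t) * (N * 1) / N = deriv (fi h1 h2) (N * t) := by
    field_simp
  rw [h5] at h4
  exact h4

lemma om_bd {N : ℕ} (hN : 2 ≤ N) (h1 h2 t : ℝ) : |om N h1 h2 t| ≤ 1 / N := by
  have hN' : (0 : ℝ) < N := by exact_mod_cast (by omega : 0 < N)
  unfold om
  rw [abs_div, Nat.abs_cast]
  apply div_le_div_of_nonneg_right _ hN'.le
  have := fi_bd h1 h2 (N * t)
  linarith

lemma om_per {N : ℕ} {h1 h2 : ℝ} (t : ℝ) : om N h1 h2 (t + 1) = om N h1 h2 t := by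
  unfold om
  have := fi_per (h1 := h1) (h2 := h2) (N * t) N
  rw [mul_add, mul_one]
  push_cast at this
  rw [this]

/-- the displacement -/
def uu (N : ℕ) (h1 h2 : ℝ) (G : M d) (x : V d) : V d := fun i =>
  ze N h1 h2 x * ∑ j, G i j * om N h1 h2 (x j)

lemma uu_contDiff {N : ℕ} (hN : 2 ≤ N) {h1 h2 : ℝ} (h0 : 0 < h2) (h : h1 < h2) (h' : h2 < 1 / 2)
    (G : M d) : ContDiff ℝ ∞ (uu N h1 h2 G) := by
  rw [contDiff_pi]
  intro i
  refine (ze_contDiff hN h0 h h').mul (ContDiff.sum fun j _ => contDiff_const.mul ?_)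
  exact (om_contDiff h h').comp (contDiff_apply ℝ ℝ j)

lemma uu_per {N : ℕ} {h1 h2 : ℝ} (G : M d) : Per (uu N h1 h2 G) := by
  intro x i
  funext m
  unfold uu
  rw [ze_per x i]
  congr 1
  refine Finset.sum_congr rfl fun j _ => ?_
  congr 1
  by_cases hj : j = i
  · subst hj
    have := om_per (N := N) (h1 := h1) (h2 := h2) (x j)
    simpa using this
  · simp [hj]

lemma grad_entry {N : ℕ} (hN : 2 ≤ N) {h1 h2 : ℝ} (h0 : 0 < h2) (h : h1 < h2) (h' : h2 < 1 / 2)
    (G : M d) (x : V d) (i j : Fin d) : grad (uu N h1 h2 G) x i j =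
      ze N h1 h2 x * (G i j * deriv (fi h1 h2) (N * x j)) +
      (∑ l, G i l * om N h1 h2 (x l)) * fderiv ℝ (ze N h1 h2) x (Pi.single j 1) := by
  have hz : HasFDerivAt (ze (d := d) N h1 h2) (fderiv ℝ (ze N h1 h2) x) x :=
    ((ze_contDiff hN h0 h h').differentiable (by simp) x).hasFDerivAt
  have hs : HasFDerivAt (fun y : V d => ∑ l, G i l * om N h1 h2 (y l))
      (∑ l, G i l • (deriv (fi h1 h2) (N * x l) •
        ContinuousLinearMap.proj (R := ℝ) (φ := fun _ : Fin d => ℝ) l)) x :=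
    HasFDerivAt.fun_sum fun l _ =>
      (coord_hasFDerivAt l x (om_deriv hN h h' (x l))).const_mul (G i l)
  have hm := hz.mul hs
  have hu : HasFDerivAt (uu N h1 h2 G) (fderiv ℝ (uu N h1 h2 G) x) x :=
    ((uu_contDiff hN h0 h h' G).differentiable (by simp) x).hasFDerivAt
  have hui := hasFDerivAt_pi'.1 hu i
  have huniq := hui.unique hm
  have h3 : grad (uu N h1 h2 G) x i j = ((ContinuousLinearMap.proj (R := ℝ)
      (φ := fun _ : Fin d => ℝ) i).comp (fderiv ℝ (uu N h1 h2 G) x)) (Pi.single j 1) := rfl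
  rw [h3, huniq]
  simp only [ContinuousLinearMap.add_apply, ContinuousLinearMap.smul_apply,
    ContinuousLinearMap.sum_apply, smul_eq_mul, ContinuousLinearMap.proj_apply]
  congr 2
  rw [Finset.sum_eq_single j]
  · simp
  · intro l _ hl
    simp [hl]
  · intro hj
    exact absurd (Finset.mem_univ j) hj

end RDispAux

open RDispAux in
/-- R5c -/
theorem rdisp_ok : StmtRDisp d := by
  intro _ A₀
  have hS : (0 : ℝ) ≤ ∑ i, ∑ j, |(A₀ i j : ℝ)| :=
    Finset.sum_nonneg fun i _ => Finset.sum_nonneg fun j _ => abs_nonneg _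
  have hb1 : hbA A₀ < 1 / 2 := by
    unfold hbA
    have : 0 < 1 / (8 * (1 + ∑ i, ∑ j, |(A₀ i j : ℝ)|)) := by positivity
    linarith
  have hb0 : 0 < hbA A₀ := by
    unfold hbA
    have : 1 / (8 * (1 + ∑ i, ∑ j, |(A₀ i j : ℝ)|)) ≤ 1 / 8 := by
      apply one_div_le_one_div_of_le (by norm_num)
      linarith
    linarith
  obtain ⟨h1, h1a, h1b⟩ := exists_between hb1
  obtain ⟨h2, h2a, h2b⟩ := exists_between h1b
  have h20 : 0 < h2 := by linarith
  obtain ⟨K1, hK10, hK1⟩ := et_deriv_bd h20 h2a h2b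
  obtain ⟨K2, hK20, hK2⟩ := per_bd (f := deriv (fi h1 h2))
    ((fi_contDiff h2a h2b).continuous_deriv (by simp))
    (deriv_per fun t => by simpa using fi_per (h1 := h1) (h2 := h2) t 1)
  set Kc : ℝ := 1 + K2 + d ^ 2 * K1 with hKc
  have hKc0 : 0 ≤ Kc := by positivity
  refine ⟨d ^ 2 * Kc ^ 2, by positivity, ?_⟩
  intro D hD G hG
  have hhb : D.hb = hbA A₀ := by rw [hbA_eq, hD]
  have hN := D.Npos
  have hNr := D.Nr_pos
  refine ⟨⟨uu D.N h1 h2 G, uu_contDiff hN h20 h2a h2b G, uu_per G⟩, ?_, ?_, ?_, ?_⟩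
  · -- bodies
    intro x hx
    obtain ⟨k, hk, hk2⟩ := hx
    have hz := ze_one hN h2a (x := x) (k := k) fun i hi => by
      refine (hk i hi).trans_lt ?_
      rw [hhb]
      exact div_lt_div_of_pos_right h1a hNr
    have hz1 : ze D.N h1 h2 x = 1 := hz.eq_of_nhds
    have hz2 : fderiv ℝ (ze D.N h1 h2) x = 0 := by
      rw [hz.fderiv_eq]
      simp
    have hall : G + grad (uu D.N h1 h2 G) x = 0 := by
      funext i j
      rw [Pi.add_apply, Pi.add_apply, grad_entry hN h20 h2a h2b, hz1, hz2]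
      have hj : deriv (fi h1 h2) (D.N * x j) = -1 := by
        apply fi_deriv_near h2a h2b
        refine lt_of_le_of_lt ?_ h1a
        rw [← hhb]
        by_cases hjk : j = k
        · subst hjk
          exact hk2
        · exact D.tube_body hjk hk
      rw [hj]
      simp
    show symm (G + grad (uu D.N h1 h2 G) x) = 0
    rw [hall, symm_zero]
  · -- fibre zones
    intro k x hx
    have hz := ze_one hN h2a (x := x) (k := k) fun i hi => by
      refine (hx.1 i hi).trans_lt ?_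
      rw [hhb]
      exact div_lt_div_of_pos_right h1a hNr
    have hz1 : ze D.N h1 h2 x = 1 := hz.eq_of_nhds
    have hz2 : fderiv ℝ (ze D.N h1 h2) x = 0 := by
      rw [hz.fderiv_eq]
      simp
    have hall : ∀ i j, (G + grad (uu D.N h1 h2 G) x) i j =
        if j = k then G i k * (1 + deriv (fi h1 h2) (D.N * x k)) else 0 := by
      intro i j
      rw [Pi.add_apply, Pi.add_apply, grad_entry hN h20 h2a h2b, hz1, hz2]
      by_cases hjk : j = k
      · subst hjk
        simp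
        ring
      · have hj : deriv (fi h1 h2) (D.N * x j) = -1 := by
          apply fi_deriv_near h2a h2b
          refine lt_of_le_of_lt ?_ h1a
          rw [← hhb]
          exact D.tube_body hjk hx.1
        rw [hj]
        simp [hjk]
    show ip (oo (zv (D.z k))) (G + grad (uu D.N h1 h2 G) x) = 0
    have h3 : ip (oo (zv (D.z k))) (G + grad (uu D.N h1 h2 G) x) =
        (D.A₀ k k : ℝ) * (1 + deriv (fi h1 h2) (D.N * x k)) * ∑ i, (D.A₀ i k : ℝ) * G i k := by
      unfold ip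
      rw [Finset.mul_sum]
      refine Finset.sum_congr rfl fun i _ => ?_
      rw [Finset.sum_eq_single k]
      · rw [hall, if_pos rfl]
        simp only [oo, zv, RD.z]
        ring
      · intro j _ hj
        rw [hall, if_neg hj, mul_zero]
      · intro hk
        exact absurd (Finset.mem_univ k) hk
    rw [h3, hG k, mul_zero]
  · -- global bound
    intro x
    show ip (G + grad (uu D.N h1 h2 G) x) (G + grad (uu D.N h1 h2 G) x) ≤ _
    set g : ℝ := Real.sqrt (ip G G) with hg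
    have hg0 : 0 ≤ g := Real.sqrt_nonneg _
    have hg2 : g ^ 2 = ip G G := Real.sq_sqrt (ip_self_nonneg G)
    have hGij : ∀ i j, |G i j| ≤ g := fun i j => by
      rw [hg]
      apply Real.le_sqrt_of_sq_le
      rw [sq_abs]
      exact entry_sq_le G i j
    have hent : ∀ i j, ((G + grad (uu D.N h1 h2 G) x) i j) ^ 2 ≤ (Kc * g) ^ 2 := by
      intro i j
      apply sq_le_sq'
      all_goals
        have hmain : |(G + grad (uu D.N h1 h2 G) x) i j| ≤ Kc * g := by
          rw [Pi.add_apply, Pi.add_apply, grad_entry hN h20 h2a h2b]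
          have hz := ze_rng (d := d) D.N h1 h2 x
          have e1 : |ze D.N h1 h2 x * (G i j * deriv (fi h1 h2) (D.N * x j))| ≤ g * K2 := by
            rw [abs_mul, abs_mul, abs_of_nonneg hz.1]
            have h3 : |G i j| * |deriv (fi h1 h2) (D.N * x j)| ≤ g * K2 :=
              mul_le_mul (hGij i j) (hK2 _) (abs_nonneg _) hg0
            have h4 : 0 ≤ |G i j| * |deriv (fi h1 h2) (D.N * x j)| := by positivity
            nlinarith
          have e2 : |∑ l, G i l * om D.N h1 h2 (x l)| ≤ d * (g * (1 / D.N)) := by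
            refine (Finset.abs_sum_le_sum_abs _ _).trans ?_
            calc ∑ l, |G i l * om D.N h1 h2 (x l)| ≤ ∑ _l : Fin d, g * (1 / D.N) :=
                  Finset.sum_le_sum fun l _ => by
                    rw [abs_mul]
                    exact mul_le_mul (hGij i l) (om_bd hN _ _ _) (abs_nonneg _) hg0
              _ = d * (g * (1 / D.N)) := by simp
          have e3 := ze_deriv_bd (d := d) hN h20 h2a h2b hK10 (hK1 D.N hN) x j
          have e4 : |(∑ l, G i l * om D.N h1 h2 (x l)) *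
              fderiv ℝ (ze D.N h1 h2) x (Pi.single j 1)| ≤ (d ^ 2 * K1) * g := by
            rw [abs_mul]
            calc _ ≤ (d * (g * (1 / D.N))) * (d * (K1 * D.N)) :=
                  mul_le_mul e2 e3 (abs_nonneg _) (by positivity)
              _ = (d ^ 2 * K1) * g := by
                  field_simp
          calc _ ≤ |G i j| + (|ze D.N h1 h2 x * (G i j * deriv (fi h1 h2) (D.N * x j))| +
                |(∑ l, G i l * om D.N h1 h2 (x l)) *
                  fderiv ℝ (ze D.N h1 h2) x (Pi.single j 1)|) :=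
                (abs_add_le _ _).trans (add_le_add le_rfl (abs_add_le _ _))
            _ ≤ g + (g * K2 + (d ^ 2 * K1) * g) := add_le_add (hGij i j) (add_le_add e1 e4)
            _ = Kc * g := by rw [hKc]; ring
      · exact (abs_le.1 hmain).1
      · exact (abs_le.1 hmain).2
    rw [ip_self_eq]
    calc ∑ i, ∑ j, ((G + grad (uu D.N h1 h2 G) x) i j) ^ 2
        ≤ ∑ _i : Fin d, ∑ _j : Fin d, (Kc * g) ^ 2 :=
          Finset.sum_le_sum fun i _ => Finset.sum_le_sum fun j _ => hent i j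
      _ = d ^ 2 * Kc ^ 2 * ip G G := by
          rw [← hg2]
          simp only [Finset.sum_const, Finset.card_univ, Fintype.card_fin, nsmul_eq_mul]
          ring
  · -- outside the tubes
    intro x hx
    push Not at hx
    have hz := ze_nil hN h2a (x := x) fun k => by
      obtain ⟨i, hik, hi⟩ := hx k
      refine ⟨i, hik, lt_of_lt_of_le ?_ hi⟩
      exact div_lt_div_of_pos_right (by linarith) hNr
    have hu : uu D.N h1 h2 G =ᶠ[𝓝 x] fun _ => 0 := by
      filter_upwards [hz] with y hy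
      funext i
      unfold uu
      rw [hy]
      simp
    show grad (uu D.N h1 h2 G) x = 0
    funext i j
    unfold grad
    rw [hu.fderiv_eq]
    simp

end Pool.Agent.Lib.MP_5df1bf_an
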