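import Pool.Agent.Lib.MP_5df1bf_an.GdHom

/-!
# MP_5df1bf_an: rigid phase, calculus of realizable tensors (R-1b)

`RRBase_ok`, `RRHom_ok`, `RRLim_ok`, `RRLow_ok`.
-/

open MeasureTheory Filter Topology
open scoped BigOperators ContDiff

noncomputable section

namespace Pool.Agent.Lib.MP_5df1bf_an

variable {d : ℕ}

open RzHomAux GdHomAux

/-- R1c -/
theorem RRBase_ok (hB : StmtGdBase d) : StmtRRBase d := by
  intro A hA η hη
  have hpsd := hA.psd
  refine ⟨1, one_pos, fun δ hδ hδ1 => ⟨A, 1, (hB A hA δ hδ hδ1).1, by simpa using hη, fun ε => ?_⟩⟩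
  have := mul_nonneg hη.le (hpsd ε)
  constructor <;> linarith

/-- R1d -/
theorem RRHom_ok (hE : BaseE d) (hG : StmtGdHom d) (hEff : StmtEff d) (hMono : StmtMono d) :
    StmtRRHom d := by
  intro A hA m idx hm hp T f hT hR W hW η hη
  obtain ⟨a, ha, B, hB, hbd⟩ := common_bd T hT
  set κ : ℝ := min (min η (1 / 2)) (η / (2 * (m + 1))) with hκd
  have hκ : 0 < κ := by rw [hκd]; positivity
  have k1 : κ ≤ η := (min_le_left _ _).trans (min_le_left _ _)
  have k2 : κ ≤ 1 / 2 := (min_le_left _ _).trans (min_le_right _ _)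
  have k3 : κ ≤ η / (2 * (m + 1)) := min_le_right _ _
  choose δi hδi hRi using fun i => hR i κ hκ
  obtain ⟨δ₀, hδ₀, hle⟩ := common_lo δi hδi
  refine ⟨min δ₀ 1, by positivity, fun δ hδ hδ2 => ?_⟩
  have hd1 : δ < δ₀ := lt_of_lt_of_le hδ2 (min_le_left _ _)
  have hd2 : δ < 1 := lt_of_lt_of_le hδ2 (min_le_right _ _)
  choose T' f' hG' hf' hq' using fun i => hRi i δ hδ (lt_of_lt_of_le hd1 (hle i))
  have hT0 : ∀ i ξ, 0 ≤ (T i).Q ξ ∧ (T i).Q ξ ≤ B * nsq ξ := fun i ξ =>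
    ⟨le_trans (mul_nonneg ha.le (nsq_nonneg ξ)) (hbd i ξ).1, (hbd i ξ).2⟩
  have hT'lo : ∀ i ξ, a / 2 * nsq ξ ≤ (T' i).Q ξ := by
    intro i ξ
    refine le_trans ?_ (hq' i ξ).1
    have h1 : (1 / 2) * (T i).Q ξ ≤ (1 - κ) * (T i).Q ξ :=
      mul_le_mul_of_nonneg_right (by linarith) (hT0 i ξ).1
    have h2 := (hbd i ξ).1
    linarith
  have hT'hi : ∀ i ξ, (T' i).Q ξ ≤ 2 * B * nsq ξ := by
    intro i ξ
    refine (hq' i ξ).2.trans ?_
    have h1 : (1 + κ) * (T i).Q ξ ≤ 2 * (T i).Q ξ :=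
      mul_le_mul_of_nonneg_right (by linarith) (hT0 i ξ).1
    have h2 := (hbd i ξ).2
    linarith
  have hT'PD : ∀ i, (T' i).PD := fun i => ⟨a / 2, by positivity, hT'lo i⟩
  have hT'0 : ∀ i ξ, 0 ≤ (T' i).Q ξ ∧ (T' i).Q ξ ≤ 2 * B * nsq ξ := fun i ξ =>
    ⟨le_trans (mul_nonneg (by positivity) (nsq_nonneg ξ)) (hT'lo i ξ), hT'hi i ξ⟩
  have hfld : IsFld (fun x => T' (idx x)) 0 (2 * B) :=
    hE.step_fld m idx T' 0 (2 * B) hm hp fun i ξ => by rw [zero_mul]; exact hT'0 i ξ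
  obtain ⟨W', hW', -⟩ := hEff _ _ hfld
  refine ⟨W', ∑ i, frac {x | idx x = i} * f' i,
    hG A hA δ hδ hd2 m idx hm hp T' f' hT'PD hG' W' hW', ?_, fun ε => ?_⟩
  · rw [← Finset.sum_sub_distrib]
    have h5 : |∑ i, (frac {x | idx x = i} * f' i - frac {x | idx x = i} * f i)| ≤ m * κ := by
      refine (Finset.abs_sum_le_sum_abs _ _).trans ?_
      calc ∑ i, |frac {x | idx x = i} * f' i - frac {x | idx x = i} * f i|
          ≤ ∑ _i : Fin m, κ := by
            refine Finset.sum_le_sum fun i _ => ?_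
            rw [← mul_sub, abs_mul, abs_of_nonneg (frac_nonneg _)]
            calc frac {x | idx x = i} * |f' i - f i| ≤ 1 * κ :=
                  mul_le_mul (frac_le_one hE _) (hf' i).le (abs_nonneg _) zero_le_one
              _ = κ := one_mul _
        _ = m * κ := by simp
    have h4 : (m : ℝ) * κ ≤ η / 2 := by
      calc (m : ℝ) * κ ≤ m * (η / (2 * (m + 1))) :=
            mul_le_mul_of_nonneg_left k3 (Nat.cast_nonneg _)
        _ ≤ η / 2 := by
          rw [mul_div_assoc', div_le_div_iff₀ (by positivity) (by norm_num)]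
          nlinarith
    linarith
  · have hcmp := step_cmp hE hMono idx hm hp T T' B (2 * B) κ hκ.le (by linarith) hT0 hT'0 hq' ε
    rw [← hW, ← hW'] at hcmp
    have hWnn : 0 ≤ W.Q ε := by
      rw [hW]
      exact le_trans (mul_nonneg ha.le (nsq_nonneg ε))
        (hE.eff_bd _ a B ha.le (hE.step_fld m idx T a B hm hp hbd) ε).1
    have h6 : κ * W.Q ε ≤ η * W.Q ε := mul_le_mul_of_nonneg_right k1 hWnn
    constructor <;> linarith [hcmp.1, hcmp.2]

/-- R1e -/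
theorem RRLim_ok : StmtRRLim d := by
  intro A _ C f hC hlim η hη
  obtain ⟨α, hα, hCα⟩ := hC
  set η₃ := min (η / 3) (1 / 2) with h3
  have h30 : 0 < η₃ := by rw [h3]; positivity
  have h31 : η₃ ≤ η / 3 := min_le_left _ _
  have h32 : η₃ ≤ 1 / 2 := min_le_right _ _
  obtain ⟨C', f', hR, hf, hq⟩ := hlim (min η₃ (η₃ * α)) (by positivity)
  obtain ⟨δ₀, hδ₀, hδ⟩ := hR η₃ h30
  refine ⟨δ₀, hδ₀, fun δ hd1 hd2 => ?_⟩
  obtain ⟨T, f'', hG, hfr, heff⟩ := hδ δ hd1 hd2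
  refine ⟨T, f'', hG, ?_, fun ε => ?_⟩
  · have h4 : |f' - f| < η₃ := lt_of_lt_of_le hf (min_le_left _ _)
    calc |f'' - f| ≤ |f'' - f'| + |f' - f| := abs_sub_le _ _ _
      _ < η := by linarith
  · have hns := nsq_nonneg ε
    have h5 := hq ε
    rw [abs_le] at h5
    have h7 : min η₃ (η₃ * α) * nsq ε ≤ η₃ * α * nsq ε :=
      mul_le_mul_of_nonneg_right (min_le_right _ _) hns
    have h8 := hCα ε
    have h9 : η₃ * α * nsq ε ≤ η₃ * C.Q ε := by
      rw [mul_assoc]; exact mul_le_mul_of_nonneg_left h8 h30.le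
    have h10 : 0 ≤ C.Q ε := le_trans (mul_nonneg hα.le hns) h8
    have h11 : (1 - η₃) * C.Q ε ≤ C'.Q ε := by linarith
    have h11' : C'.Q ε ≤ (1 + η₃) * C.Q ε := by linarith
    obtain ⟨h12, h13⟩ := heff ε
    constructor
    · have h14 : (1 - η₃) * ((1 - η₃) * C.Q ε) ≤ (1 - η₃) * C'.Q ε :=
        mul_le_mul_of_nonneg_left h11 (by linarith)
      have h15 : (1 - η) * C.Q ε ≤ (1 - η₃) * ((1 - η₃) * C.Q ε) := by
        nlinarith [mul_nonneg (sq_nonneg η₃) h10, mul_le_mul_of_nonneg_right h31 h10]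
      linarith
    · have h14 : (1 + η₃) * C'.Q ε ≤ (1 + η₃) * ((1 + η₃) * C.Q ε) :=
        mul_le_mul_of_nonneg_left h11' (by linarith)
      have h16 : η₃ * η₃ ≤ 1 / 2 * η₃ := mul_le_mul_of_nonneg_right h32 h30.le
      have h17 : (1 + η₃) * (1 + η₃) ≤ 1 + η := by nlinarith
      have h18 : (1 + η₃) * ((1 + η₃) * C.Q ε) ≤ (1 + η) * C.Q ε := by
        rw [← mul_assoc]; exact mul_le_mul_of_nonneg_right h17 h10
      linarith

/-- tensors in the G-closure with a stiff phase are stiffer than `A` -/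
theorem Gd_low (hE : BaseE d) (hMono : StmtMono d) (A : Tens d) (hA : A.PD) (δ : ℝ) (hδ : 0 < δ)
    (hδ1 : δ < 1) (T : Tens d) (f : ℝ) (hG : Gd A δ T f) (ξ : M d) : A.Q ξ ≤ T.Q ξ := by
  obtain ⟨α, hα, β, hβ, hb⟩ := bounds A hA
  have hpsd := hA.psd
  have key : ∀ χ : Set (V d), Micro χ → A.Q ξ ≤ eff (phaseR A δ χ) ξ := by
    intro χ hχ
    have h1 : phaseR A δ (Set.univ : Set (V d)) = fun _ => A := by
      funext x; simp [phaseR]
    have h2 := fld_weaken hα.le (PhaseR_ok A α β hα hb Set.univ micro_univ δ hδ hδ1.le)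
    have h3 := fld_weaken hα.le (PhaseR_ok A α β hα hb χ hχ δ hδ hδ1.le)
    have h4 := hMono _ _ _ _ h2 h3 (fun x ζ => ?_) ξ
    · rw [h1, hE.eff_const A hpsd ξ] at h4
      exact h4
    · rw [h1]
      show A.Q ζ ≤ (phaseR A δ χ x).Q ζ
      unfold phaseR
      split_ifs
      · exact le_rfl
      · rw [RzHomAux.scale_Q]
        have hi1 : 1 ≤ δ⁻¹ := (one_le_inv₀ hδ).2 hδ1.le
        have : 1 * A.Q ζ ≤ δ⁻¹ * A.Q ζ := mul_le_mul_of_nonneg_right hi1 (hpsd ζ)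
        linarith
  have h5 : ∀ η > 0, A.Q ξ ≤ T.Q ξ + η * (1 + nsq ξ) := by
    intro η hη
    obtain ⟨χ, hχ, -, he⟩ := hG η hη
    have h6 := key χ hχ
    have h7 := he ξ
    rw [abs_le] at h7
    nlinarith [h7.2]
  refine le_of_forall_pos_le_add fun κ hκ => ?_
  have h8 : 0 < 1 + nsq ξ := by have := nsq_nonneg ξ; linarith
  have h9 := h5 (κ / (1 + nsq ξ)) (by positivity)
  rwa [div_mul_cancel₀ _ h8.ne'] at h9

/-- R1f -/
theorem RRLow_ok (hE : BaseE d) (hMono : StmtMono d) : StmtRRLow d := by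
  intro A hA C f hR ξ
  have h1 : ∀ η > 0, A.Q ξ ≤ (1 + η) * C.Q ξ := by
    intro η hη
    obtain ⟨δ₀, hδ₀, h⟩ := hR η hη
    have h2 : 0 < min δ₀ 1 / 2 := by positivity
    have h3 : min δ₀ 1 / 2 < δ₀ := by
      have : min δ₀ 1 ≤ δ₀ := min_le_left _ _
      linarith
    have h4 : min δ₀ 1 / 2 < 1 := by
      have : min δ₀ 1 ≤ 1 := min_le_right _ _
      linarith
    obtain ⟨T, f', hG, -, hq⟩ := h _ h2 h3
    exact (Gd_low hE hMono A hA _ h2 h4 T f' hG ξ).trans (hq ξ).2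
  have h5 : Tendsto (fun n : ℕ => (1 + 1 / ((n : ℝ) + 1)) * C.Q ξ) atTop (𝓝 ((1 + 0) * C.Q ξ)) :=
    (tendsto_const_nhds.add tendsto_one_div_add_atTop_nhds_zero_nat).mul_const _
  rw [add_zero, one_mul] at h5
  exact ge_of_tendsto' h5 fun n => h1 _ (by positivity)

end Pool.Agent.Lib.MP_5df1bf_an
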