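import Pool.Agent.Lib.MP_5df1bf_an.Stmts4

/-!
# MP_5df1bf_an, Q2, R5d: upper bound for the gadget
-/

open MeasureTheory Filter Topology
open scoped BigOperators ContDiff

noncomputable section

namespace Pool.Agent.Lib.MP_5df1bf_an
namespace RUpP

variable {d : ℕ}

/-- the small set around the lattice lines -/
def sml (d N : ℕ) : Set (V d) := {x : V d | ∃ k : Fin d, ∀ i, i ≠ k → pd (x i) < 1 / (N : ℝ)}

theorem gam_pos (D : RD d) : 0 < D.γ := by
  unfold RD.γ
  have h : 0 ≤ ∑ i, ∑ j, |(D.A₀ i j : ℝ)| :=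
    Finset.sum_nonneg fun i _ => Finset.sum_nonneg fun j _ => abs_nonneg _
  positivity

theorem hb_lt (D : RD d) : D.hb < 1 := by
  have := gam_pos D
  unfold RD.hb
  linarith

theorem N_pos (D : RD d) : (0 : ℝ) < D.N := by
  have := D.Npos
  exact_mod_cast (by omega : 0 < D.N)

theorem tube_sub (D : RD d) (k : Fin d) {x : V d} (hx : x ∈ D.tube k) : x ∈ sml d D.N := by
  refine ⟨k, fun i hi => (hx i hi).trans_lt ?_⟩
  rw [div_lt_div_iff_of_pos_right (N_pos D)]
  exact hb_lt D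

theorem body_sub (D : RD d) {x : V d} (hx : x ∈ D.body) : x ∈ sml d D.N := by
  obtain ⟨k, hk, _⟩ := hx
  exact tube_sub D k hk

theorem gap_sub (D : RD d) (k : Fin d) {x : V d} (hx : x ∈ D.gap k) : x ∈ sml d D.N :=
  tube_sub D k hx.1

/-- the integral of the indicator -/
theorem ind_int (hE : BaseE d) {s : Set (V d)} (hs : MeasurableSet s) :
    Integrable (s.indicator fun _ => (1:ℝ)) ((volume : Measure (V d)).restrict (cell d)) ∧
      ∫ x in cell d, s.indicator (fun _ => (1:ℝ)) x = frac s := by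
  have hfin : IsFiniteMeasure ((volume : Measure (V d)).restrict (cell d)) := ⟨by simp [hE.vol]⟩
  refine ⟨(integrable_const (1:ℝ)).indicator hs, ?_⟩
  rw [integral_indicator hs, Measure.restrict_restrict hs]
  simp [frac, Measure.real]

theorem int_affine (hE : BaseE d) {s : Set (V d)} (hs : MeasurableSet s) (a b : ℝ) :
    Integrable (fun x => a + b * s.indicator (fun _ => (1:ℝ)) x)
        ((volume : Measure (V d)).restrict (cell d)) ∧
      ∫ x in cell d, (a + b * s.indicator (fun _ => (1:ℝ)) x) = a + b * frac s := by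
  have hfin : IsFiniteMeasure ((volume : Measure (V d)).restrict (cell d)) := ⟨by simp [hE.vol]⟩
  obtain ⟨h1, h2⟩ := ind_int hE hs
  refine ⟨(integrable_const a).add (h1.const_mul b), ?_⟩
  rw [integral_add (integrable_const a) (h1.const_mul b), integral_const_mul, h2, integral_const]
  simp [Measure.real, hE.vol]

theorem Q_eq_grad (T : Tens d) {ε G : M d} (h : symm G = symm ε) (u : V d → V d) (x : V d) :
    T.Q (ε + sg u x) = T.Q (G + grad u x) := by
  rw [← T.Q_symm (ε + sg u x), ← T.Q_symm (G + grad u x), symm_add, symm_add, h]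
  unfold sg
  rw [symm_symm]

end RUpP

open RUpP in
/-- R5d -/
theorem RUp_ok (d : ℕ) (hE : BaseE d) (hD : StmtRDisp d) (hS : StmtSkew d) (hF : StmtRFld d) :
    StmtRUp d := by
  intro hd A₀ C hC β hβ
  by_cases hne : ∃ D : RD d, D.A₀ = A₀
  swap
  · exact ⟨0, le_rfl, fun D hDA => absurd ⟨D, hDA⟩ hne⟩
  obtain ⟨D₀, hD₀⟩ := hne
  obtain ⟨K1, hK1, hS1⟩ := hS D₀
  obtain ⟨K2, hK2, hD2⟩ := hD hd A₀
  obtain ⟨βC, hβC, hCb⟩ := C.exists_bound
  refine ⟨(β + βC) * (K2 * K1) * (d * 2 ^ d), by positivity, ?_⟩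
  intro D hDA R F T β' hG hT hFb ε hε
  have hAr : D₀.A₀r = D.A₀r := by
    unfold RD.A₀r
    rw [hD₀, hDA]
  have hA0 : D₀.A₀ = D.A₀ := by rw [hD₀, hDA]
  obtain ⟨G, hG1, hG2, hG3⟩ := hS1 (symm ε) (tp_symm ε) (by rw [hAr]; exact hε)
  rw [hA0] at hG2
  obtain ⟨u, hu1, hu2, hu3, hu4⟩ := hD2 D hDA G hG2
  obtain ⟨-, hms, hfr⟩ := hF hd D
  rw [nsq_symm] at hG3
  have hnε : 0 ≤ nsq ε := nsq_nonneg ε
  have hgr : ∀ x, nsq (G + grad u.u x) ≤ K2 * K1 * nsq ε := by
    intro x
    refine (nsq_le_ip _).trans ((hu3 x).trans ?_)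
    rw [mul_assoc]
    exact mul_le_mul_of_nonneg_left hG3 hK2
  have hCε : 0 ≤ C.Q ε := hC.psd ε
  set b : ℝ := (β + βC) * (K2 * K1) * nsq ε with hb
  have hb0 : 0 ≤ b := by positivity
  have hpt : ∀ x, (T x).Q (ε + sg u.u x) ≤
      C.Q ε + b * (sml d D.N).indicator (fun _ => (1:ℝ)) x := by
    intro x
    rw [Q_eq_grad (T x) hG1 u.u x]
    have hprod : 0 ≤ K2 * K1 * nsq ε := by positivity
    by_cases hbod : x ∈ D.body
    · rw [hG.body x hbod, ← R.Q_symm, hu1 x hbod, Tens.Q_zero]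
      have : 0 ≤ (sml d D.N).indicator (fun _ => (1:ℝ)) x := Set.indicator_nonneg (fun _ _ => zero_le_one) x
      positivity
    by_cases hgap : ∃ k, x ∈ D.gap k
    · obtain ⟨k, hk⟩ := hgap
      rw [hG.gap k x hk, Set.indicator_of_mem (gap_sub D k hk), mul_one]
      have h1 := hFb k _ (hu2 k x hk)
      have h2 : β * nsq (G + grad u.u x) ≤ β * (K2 * K1 * nsq ε) :=
        mul_le_mul_of_nonneg_left (hgr x) hβ.le
      have h3 : 0 ≤ βC * (K2 * K1 * nsq ε) := by positivity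
      have h4 : b = β * (K2 * K1 * nsq ε) + βC * (K2 * K1 * nsq ε) := by rw [hb]; ring
      linarith
    · push Not at hgap
      rw [hG.rest x hbod hgap]
      by_cases hx : x ∈ sml d D.N
      · rw [Set.indicator_of_mem hx, mul_one]
        have h1 := (le_abs_self _).trans (hCb (G + grad u.u x))
        have h2 : βC * nsq (G + grad u.u x) ≤ βC * (K2 * K1 * nsq ε) :=
          mul_le_mul_of_nonneg_left (hgr x) hβC.le
        have h3 : 0 ≤ β * (K2 * K1 * nsq ε) := by positivity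
        have h4 : b = β * (K2 * K1 * nsq ε) + βC * (K2 * K1 * nsq ε) := by rw [hb]; ring
        linarith
      · rw [Set.indicator_of_notMem hx, mul_zero, add_zero, hu4 x hx, add_zero, ← C.Q_symm, hG1]
        exact (C.Q_symm ε).le
  obtain ⟨hi, hv⟩ := int_affine hE (s := sml d D.N) hms (C.Q ε) b
  refine (hE.eff_le T β' hT ε u).trans ?_
  have h1 : energy T ε u ≤ C.Q ε + b * frac (sml d D.N) := by
    unfold energy
    rw [← hv]
    exact integral_mono (hE.int T β' hT ε u) hi hpt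
  refine h1.trans ?_
  have h2 : b * frac (sml d D.N) ≤ b * (d * 2 ^ d / D.N) := mul_le_mul_of_nonneg_left hfr hb0
  have h3 : b * (d * 2 ^ d / D.N) = (β + βC) * (K2 * K1) * (d * 2 ^ d) / D.N * nsq ε := by
    rw [hb]; ring
  linarith

end Pool.Agent.Lib.MP_5df1bf_an
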