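import Pool.Agent.Lib.MP_5df1bf_an.Stmts4

/-!
# MP_5df1bf_an, Q2: sequential laminates with fixed `δ` (R2a)
-/

open MeasureTheory Filter Topology
open scoped BigOperators ContDiff

noncomputable section

namespace Pool.Agent.Lib.MP_5df1bf_an

variable {d : ℕ}

namespace SeqD

/-- the function to be maximised over `q` -/
def RF (A : Tens d) (ϖ : ℝ) (s : M d → ℝ) (ε q : M d) : ℝ :=
  A.Q ε + 2 * ϖ * ip q (symm ε) - ϖ * s q

/-- a quadratic polynomial without constant term which is nonnegative has no linear term -/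
theorem quad0 {a b : ℝ} (h : ∀ t : ℝ, 0 ≤ t ^ 2 * a + 2 * t * b) : b = 0 := by
  by_contra hb
  have h1 := h (-b / (|a| + 1))
  have hp : 0 < |a| + 1 := by positivity
  have e : (-b / (|a| + 1)) ^ 2 * a + 2 * (-b / (|a| + 1)) * b
      = (b ^ 2 * a - 2 * b ^ 2 * (|a| + 1)) / (|a| + 1) ^ 2 := by
    field_simp
    ring
  rw [e] at h1
  have h2 : b ^ 2 * a - 2 * b ^ 2 * (|a| + 1) < 0 := by
    have h3 : 0 < b ^ 2 := by positivity
    have h4 := le_abs_self a
    have h5 := abs_nonneg a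
    nlinarith
  have h3 : (b ^ 2 * a - 2 * b ^ 2 * (|a| + 1)) / (|a| + 1) ^ 2 < 0 :=
    div_neg_of_neg_of_pos h2 (by positivity)
  linarith

/-- envelope -/
theorem env (G : Tens d) (K : ℝ) (q₀ s : M d) (h : ∀ q, 2 * ip q s - K ≤ G.Q q)
    (h0 : 2 * ip q₀ s - K = G.Q q₀) (p : M d) : ip (G.C q₀) p = ip p s := by
  have := quad0 (a := G.Q p) (b := ip (G.C q₀) p - ip p s) (fun t => by
    have h1 := h (q₀ + t • p)
    rw [ip_add_left, ip_smul_left, G.Q_add, G.Q_smul, ip_smul_right] at h1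
    linarith)
  linarith

/-- the energy of the laminate -/
theorem lam_identity (A : Tens d) (ϖ ρ : ℝ) (s : M d → ℝ) (n a : V d) (ε q : M d) :
    (1 - ρ) * A.Q (ε + ρ • sd a n) + ρ * RF A ϖ s (ε - (1 - ρ) • sd a n) q =
      A.Q ε + ρ * (1 - ρ) * A.Q (sd a n) + 2 * (ρ * ϖ) * ip q (symm ε) -
        2 * ρ * (1 - ρ) * ϖ * ip q (sd a n) - ρ * ϖ * s q := by
  unfold RF
  rw [A.Q_add, A.Q_sub, A.Q_smul, A.Q_smul, symm_sub, symm_smul, symm_sd, ip_sub_right,
    ip_smul_right, ip_smul_right, ip_smul_right]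
  ring

/-- one lamination step -/
theorem step (A T S Gn : Tens d) {ϖ ρ : ℝ} (hϖ : 0 < ϖ) (hρ : 0 < ρ) (hρ1 : ρ < 1) (n : V d)
    (hG0 : ∀ q, Gam A n q = Gn.Q q)
    (hG1 : ∀ q a, 2 * ip q (sd a n) - A.Q (sd a n) ≤ Gam A n q)
    (hG2 : ∀ q, ∃ a, 2 * ip q (sd a n) - A.Q (sd a n) = Gam A n q)
    (hS : S.PSD) (hT1 : ∀ ε q, RF A ϖ S.Q ε q ≤ T.Q ε) (hT2 : ∀ ε, ∃ q, T.Q ε = RF A ϖ S.Q ε q)
    (hinv : ∀ ε : M d, ∃ q, (S + Gn.scale ((1 - ρ) * ϖ)).C q = symm ε)
    (ε : M d) (E : ℝ)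
    (hE : IsGLB (Set.range fun a => (1 - ρ) * A.Q (ε + ρ • sd a n) +
      ρ * T.Q (ε - (1 - ρ) • sd a n)) E) :
    (∀ q, RF A (ρ * ϖ) (S + Gn.scale ((1 - ρ) * ϖ)).Q ε q ≤ E) ∧
    ∃ q, E = RF A (ρ * ϖ) (S + Gn.scale ((1 - ρ) * ϖ)).Q ε q := by
  have h8 : 0 < ρ * (1 - ρ) := mul_pos hρ (by linarith)
  have hup : ∀ q, RF A (ρ * ϖ) (S + Gn.scale ((1 - ρ) * ϖ)).Q ε q ≤ E := by
    intro q
    refine hE.2 ?_
    rintro _ ⟨a, rfl⟩
    simp only
    have h1 := mul_le_mul_of_nonneg_left (hT1 (ε - (1 - ρ) • sd a n) q) hρ.le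
    have h3 := lam_identity A ϖ ρ S.Q n a ε q
    have h4 := hG1 q ((1 / ϖ) • a)
    rw [sd_smul_left, A.Q_smul, ip_smul_right, hG0] at h4
    have h5 : 2 * ϖ * ip q (sd a n) - A.Q (sd a n) ≤ ϖ ^ 2 * Gn.Q q := by
      have h6 := mul_le_mul_of_nonneg_left h4 (sq_nonneg ϖ)
      have h7 : ϖ ^ 2 * (2 * (1 / ϖ * ip q (sd a n)) - (1 / ϖ) ^ 2 * A.Q (sd a n)) =
          2 * ϖ * ip q (sd a n) - A.Q (sd a n) := by
        field_simp
      linarith
    have h9 := mul_le_mul_of_nonneg_left h5 h8.le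
    have e : RF A (ρ * ϖ) (S + Gn.scale ((1 - ρ) * ϖ)).Q ε q =
        A.Q ε + 2 * (ρ * ϖ) * ip q (symm ε) - ρ * ϖ * (S.Q q + (1 - ρ) * ϖ * Gn.Q q) := by
      unfold RF
      rw [Tens.add_Q, Tens.scale_Q]
    rw [e]
    nlinarith [h9, h3, h1]
  refine ⟨hup, ?_⟩
  obtain ⟨q, hq⟩ := hinv ε
  refine ⟨q, le_antisymm ?_ (hup q)⟩
  obtain ⟨a, ha⟩ := hG2 (ϖ • q)
  have hGs : Gam A n (ϖ • q) = ϖ ^ 2 * Gn.Q q := by rw [hG0, Gn.Q_smul]
  -- the derivative of `Gam`
  have hd : ∀ p, ip (Gn.C (ϖ • q)) p = ip p (sd a n) := fun p =>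
    env Gn (A.Q (sd a n)) (ϖ • q) (sd a n) (fun q' => by rw [← hG0]; exact hG1 q' a)
      (by rw [← hG0]; exact ha) p
  have hd' : ∀ p, ϖ * ip (Gn.C q) p = ip p (sd a n) := by
    intro p
    rw [← hd p, map_smul, ip_smul_left]
  set x : M d := ε - (1 - ρ) • sd a n with hx
  -- `q` is a maximiser at `x`
  have hmax : T.Q x ≤ RF A ϖ S.Q x q := by
    obtain ⟨q₁, hq₁⟩ := hT2 x
    rw [hq₁]
    obtain ⟨p, e0⟩ : ∃ p, q₁ = q + p := ⟨q₁ - q, by abel⟩
    have h1 : ip (S.C q) p = ip p (symm x) := by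
      have h2 : ip ((S + Gn.scale ((1 - ρ) * ϖ)).C q) p = ip (symm ε) p := by rw [hq]
      rw [Tens.add_C, Tens.scale_C, ip_add_left, ip_smul_left] at h2
      rw [hx, symm_sub, symm_smul, symm_sd, ip_sub_right, ip_smul_right, ← hd' p, ip_comm p]
      linarith
    have h3 := hS p
    rw [e0]
    unfold RF
    rw [ip_add_left, S.Q_add, h1]
    nlinarith
  have hEa := hE.1 ⟨a, rfl⟩
  simp only at hEa
  have h1 := mul_le_mul_of_nonneg_left hmax hρ.le
  have h3 := lam_identity A ϖ ρ S.Q n a ε q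
  rw [ip_smul_left, hGs] at ha
  have e : RF A (ρ * ϖ) (S + Gn.scale ((1 - ρ) * ϖ)).Q ε q =
      A.Q ε + 2 * (ρ * ϖ) * ip q (symm ε) - ρ * ϖ * (S.Q q + (1 - ρ) * ϖ * Gn.Q q) := by
    unfold RF
    rw [Tens.add_Q, Tens.scale_Q]
  rw [e]
  have h9 : ρ * (1 - ρ) * (2 * (ϖ * ip q (sd a n)) - A.Q (sd a n))
      = ρ * (1 - ρ) * (ϖ ^ 2 * Gn.Q q) := by rw [ha]
  rw [← hx] at hEa h3
  nlinarith [h9, h3, h1, hEa]

/-- the general induction over the layers -/
theorem seqD_aux (hE : BaseE d) (hLam : StmtLam d) (hVol : StmtLayVol d) (hHom : StmtGdHom d)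
    (hBase : StmtGdBase d) (hEff : StmtEff d) (hInv : StmtInvT d) (hGam : StmtGamT d)
    (A : Tens d) (hA : A.PD) (δ : ℝ) (hδ : 0 < δ) (hδ1 : δ < 1) :
    ∀ (r : ℕ) (n : Fin r → (Fin d → ℤ)) (c : Fin r → ℝ), (∀ i, n i ≠ 0) → (∀ i, 0 < c i) →
      (∑ i, c i < 1) → ∃ W S : Tens d, Gd A δ W (∑ i, c i) ∧ W.PD ∧ S.PD ∧
        (∀ q, S.Q q = δ / (1 - δ) * Inv A q + ∑ i, c i * Gam A (zv (n i)) q) ∧
        (∀ ε q, RF A (1 - ∑ i, c i) S.Q ε q ≤ W.Q ε) ∧
        (∀ ε, ∃ q, W.Q ε = RF A (1 - ∑ i, c i) S.Q ε q) := by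
  obtain ⟨Ai, hAiPD, hAi, hle, hinv⟩ := hInv A hA
  obtain ⟨Γ, hG0, hGnn, hG1, hG2, -⟩ := hGam A hA
  have hδ' : 0 < 1 - δ := by linarith
  have hκ : 0 < δ / (1 - δ) := by positivity
  intro r
  induction r with
  | zero =>
    intro n c _ _ _
    refine ⟨A.scale δ⁻¹, Ai.scale (δ / (1 - δ)), ?_, ?_, ?_, ?_, ?_, ?_⟩
    · simpa using (hBase A hA δ hδ hδ1).2
    · obtain ⟨α, hα, hα'⟩ := hA
      refine ⟨δ⁻¹ * α, by positivity, fun ξ => ?_⟩
      rw [Tens.scale_Q, mul_assoc]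
      exact mul_le_mul_of_nonneg_left (hα' ξ) (by positivity)
    · obtain ⟨α, hα, hα'⟩ := hAiPD
      refine ⟨δ / (1 - δ) * α, by positivity, fun ξ => ?_⟩
      rw [Tens.scale_Q, mul_assoc]
      exact mul_le_mul_of_nonneg_left (hα' ξ) (by positivity)
    · intro q
      rw [Tens.scale_Q, hAi]
      simp
    · intro ε q
      unfold RF
      rw [Tens.scale_Q, Tens.scale_Q]
      have h1 := hle (((1 - δ) / δ) • ε) q
      rw [symm_smul, ip_smul_right, A.Q_smul, hAi] at h1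
      have h2 := mul_le_mul_of_nonneg_left h1 hκ.le
      have h3 : δ / (1 - δ) * (2 * ((1 - δ) / δ * ip q (symm ε)) - ((1 - δ) / δ) ^ 2 * A.Q ε)
          = 2 * ip q (symm ε) - (δ⁻¹ - 1) * A.Q ε := by
        field_simp
      rw [h3] at h2
      simp only [Finset.univ_eq_empty, Finset.sum_empty, sub_zero, mul_one, one_mul]
      linarith
    · intro ε
      refine ⟨((1 - δ) / δ) • A.C ε, ?_⟩
      unfold RF
      have h2 : Ai.Q (A.C ε) = A.Q ε := by
        unfold Tens.Q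
        rw [(hinv ε).1, ip_symm_left, A.symm_C, ip_comm]
      have h3 : ip (A.C ε) (symm ε) = A.Q ε := by
        rw [A.ip_C_symm]; rfl
      rw [Tens.scale_Q, Tens.scale_Q, Ai.Q_smul, ip_smul_left, h2, h3]
      simp only [Finset.univ_eq_empty, Finset.sum_empty, sub_zero, mul_one, one_mul]
      field_simp
      ring
  | succ r ih =>
    intro n c hn hc hsum
    rw [Fin.sum_univ_castSucc] at hsum
    have hpos : 0 < c (Fin.last r) := hc _
    have hnn : 0 ≤ ∑ i : Fin r, c i.castSucc := Finset.sum_nonneg fun i _ => (hc _).le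
    obtain ⟨T, S, hTR, hTP, hSP, hSQ, hT1, hT2⟩ := ih (fun i => n i.castSucc)
      (fun i => c i.castSucc) (fun i => hn _) (fun i => hc _) (by linarith)
    set f : ℝ := ∑ i : Fin r, c i.castSucc with hf
    set ϖ : ℝ := 1 - f with hϖ
    have hϖ0 : 0 < ϖ := by linarith
    set ρ : ℝ := (ϖ - c (Fin.last r)) / ϖ with hρ
    have hρ0 : 0 < ρ := div_pos (by linarith) hϖ0
    have hρ1 : ρ < 1 := by
      rw [hρ, div_lt_one hϖ0]; linarith
    have hρϖ : ρ * ϖ = ϖ - c (Fin.last r) := by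
      rw [hρ]; field_simp
    set k := n (Fin.last r) with hk
    have hk0 : k ≠ 0 := hn _
    have hzk : zv k ≠ 0 := by
      intro h
      apply hk0
      ext i
      have := congrFun h i
      simpa [zv] using this
    -- the laminate
    set L : Set (V d) := lay k (1 - ρ) with hL
    obtain ⟨hLm, hLf⟩ := hVol k hk0 (1 - ρ) (by linarith) (by linarith)
    classical
    set idx : V d → Fin 2 := fun x => if x ∈ L then 0 else 1 with hidx
    set TT : Fin 2 → Tens d := ![A, T] with hTT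
    have hmeas : Measurable idx := Measurable.ite hLm.1 measurable_const measurable_const
    have hper : Per idx := by
      intro x i
      simp only [hidx]
      rw [if_congr (hLm.2 x i) rfl rfl]
    have hTTp : ∀ i, (TT i).PD := by
      intro i
      fin_cases i
      · exact hA
      · exact hTP
    obtain ⟨β1, hβ1, hb1⟩ := A.exists_bound
    obtain ⟨β2, hβ2, hb2⟩ := T.exists_bound
    have hfld : IsFld (fun x => TT (idx x)) 0 (max β1 β2) := by
      refine hE.step_fld 2 idx TT 0 (max β1 β2) hmeas hper ?_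
      intro i ξ
      refine ⟨by rw [zero_mul]; exact (hTTp i).psd ξ, ?_⟩
      fin_cases i
      · exact (le_abs_self _).trans ((hb1 ξ).trans
          (mul_le_mul_of_nonneg_right (le_max_left _ _) (nsq_nonneg _)))
      · exact (le_abs_self _).trans ((hb2 ξ).trans
          (mul_le_mul_of_nonneg_right (le_max_right _ _) (nsq_nonneg _)))
    obtain ⟨W, hW1, hW2⟩ := hEff (fun x => TT (idx x)) (max β1 β2) hfld
    have hfr0 : frac {x | idx x = 0} = 1 - ρ := by
      have h1 : {x | idx x = 0} = L := by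
        ext x
        change idx x = 0 ↔ x ∈ L
        simp only [hidx]
        by_cases hx : x ∈ L
        · simp [hx]
        · simp [hx]
      rw [h1]
      exact hLf
    have hfr1 : frac {x | idx x = 1} = ρ := by
      have h1 : {x | idx x = 1} = Lᶜ := by
        ext x
        change idx x = 1 ↔ x ∉ L
        simp only [hidx]
        by_cases hx : x ∈ L
        · simp [hx]
        · simp [hx]
      rw [h1]
      have h2 : volume (L ∩ cell d) + volume (Lᶜ ∩ cell d) = 1 := by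
        rw [← hE.vol]
        have h3 := measure_inter_add_sdiff (μ := volume) (cell d) hLm.1
        rw [Set.inter_comm L, Set.inter_comm Lᶜ]
        exact h3
      have h4 : (volume (L ∩ cell d)).toReal + (volume (Lᶜ ∩ cell d)).toReal = 1 := by
        rw [← ENNReal.toReal_add, h2, ENNReal.toReal_one]
        · intro h; rw [h] at h2; simp at h2
        · intro h; rw [h] at h2; simp at h2
      unfold frac at hLf ⊢
      linarith
    have hρϖ' : (1 - ρ) * ϖ = c (Fin.last r) := by linarith [hρϖ]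
    have hc0 : 0 ≤ (1 - ρ) * ϖ := by rw [hρϖ']; exact hpos.le
    have hS'Q : ∀ q, (S + (Γ (zv k)).scale ((1 - ρ) * ϖ)).Q q
        = δ / (1 - δ) * Inv A q + ∑ i, c i * Gam A (zv (n i)) q := by
      intro q
      rw [Tens.add_Q, Tens.scale_Q, hSQ, Fin.sum_univ_castSucc, hρϖ', ← hG0 _ _ hzk]
      ring
    have hS'PD : (S + (Γ (zv k)).scale ((1 - ρ) * ϖ)).PD := by
      obtain ⟨α, hα, hα'⟩ := hSP
      refine ⟨α, hα, fun ξ => (hα' ξ).trans ?_⟩
      rw [Tens.add_Q, Tens.scale_Q, ← hG0 _ _ hzk]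
      have := mul_nonneg hc0 (hGnn (zv k) ξ).1
      linarith
    have hglb : ∀ ε, IsGLB (Set.range fun a => (1 - ρ) * A.Q (ε + ρ • sd a (zv k)) +
          ρ * T.Q (ε - (1 - ρ) • sd a (zv k))) (W.Q ε) := by
      intro ε
      have hlam := hLam k hk0 (1 - ρ) (by linarith) (by linarith) A T (fun x => TT (idx x))
        hA.psd hTP.psd (by
          intro x hx
          have : idx x = 0 := by simp only [hidx]; exact if_pos hx
          simp only [this]; rfl) (by
          intro x hx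
          have : idx x = 1 := by simp only [hidx]; exact if_neg hx
          simp only [this]; rfl) ε
      rw [show 1 - (1 - ρ) = ρ by ring] at hlam
      rw [hW1, hlam]
      refine isGLB_ciInf ⟨0, ?_⟩
      rintro _ ⟨a, rfl⟩
      simp only
      have h1 := hA.psd (ε + ρ • sd a (zv k))
      have h2 := hTP.psd (ε - (1 - ρ) • sd a (zv k))
      have h3 : 0 < 1 - ρ := by linarith
      positivity
    have hinvS : ∀ ε : M d, ∃ q, (S + (Γ (zv k)).scale ((1 - ρ) * ϖ)).C q = symm ε := by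
      obtain ⟨Si, -, -, -, hSi⟩ := hInv _ hS'PD
      exact fun ε => ⟨Si.C ε, (hSi ε).2⟩
    have hstep := fun ε => step A T S (Γ (zv k)) hϖ0 hρ0 hρ1 (zv k) (fun q => hG0 _ q hzk)
      (hG1 (zv k)) (hG2 (zv k)) hSP.psd hT1 hT2 hinvS ε (W.Q ε) (hglb ε)
    have h2 : ρ * ϖ = 1 - ∑ i, c i := by
      rw [hρϖ, Fin.sum_univ_castSucc]; ring
    rw [h2] at hstep
    refine ⟨W, S + (Γ (zv k)).scale ((1 - ρ) * ϖ), ?_, ?_, hS'PD, hS'Q,
      fun ε => (hstep ε).1, fun ε => (hstep ε).2⟩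
    · have h1 := hHom A hA δ hδ hδ1 2 idx hmeas hper TT ![1, f] hTTp (by
        intro i
        fin_cases i
        · exact (hBase A hA δ hδ hδ1).1
        · exact hTR) W hW1
      have h2 : ∑ i, frac {x | idx x = i} * (![1, f] : Fin 2 → ℝ) i = ∑ i, c i := by
        rw [Fin.sum_univ_two, hfr0, hfr1, Fin.sum_univ_castSucc]
        simp only [Matrix.cons_val_zero, Matrix.cons_val_one]
        have h3 : ρ * ϖ = ρ * (1 - f) := rfl
        rw [hρϖ] at h3
        rw [← hf]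
        linarith
      rwa [h2] at h1
    · obtain ⟨α, hα, hα'⟩ := hA
      refine ⟨α, hα, fun ξ => (hα' ξ).trans ?_⟩
      have h3 := (hstep ξ).1 0
      unfold RF at h3
      rw [ip_zero_left, Tens.Q_zero] at h3
      linarith

end SeqD

open SeqD in
/-- R2a: sequential laminates with fixed `δ` -/
theorem SeqD_ok (d : ℕ) (hE : BaseE d) (hLam : StmtLam d) (hVol : StmtLayVol d)
    (hHom : StmtGdHom d) (hBase : StmtGdBase d) (hEff : StmtEff d) (hInv : StmtInvT d)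
    (hGam : StmtGamT d) : StmtSeqD d := by
  intro A hA r n c hn hc f _ hf1 hsum δ hδ hδ1
  obtain ⟨W, S, h1, h2, -, h3, h4, h5⟩ := seqD_aux hE hLam hVol hHom hBase hEff hInv hGam A hA δ
    hδ hδ1 r n c hn hc (by rw [hsum]; exact hf1)
  rw [hsum] at h1 h4 h5
  refine ⟨W, h1, h2, fun ε q => ?_, fun ε => ?_⟩
  · have := h4 ε q
    unfold RF at this
    rwa [h3] at this
  · obtain ⟨q, hq⟩ := h5 ε
    refine ⟨q, ?_⟩
    unfold RF at hq
    rwa [h3] at hq

end Pool.Agent.Lib.MP_5df1bf_an
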