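import Pool.Agent.Lib.MP_5df1bf_an.Stmts4
import Pool.Agent.Lib.MP_5df1bf_an.LowPD

/-!
# MP_5df1bf_an, R2b and R3: sequential laminates with rigid core, quasi-rigid materials
-/

open MeasureTheory Filter Topology
open scoped BigOperators ContDiff

noncomputable section

namespace Pool.Agent.Lib.MP_5df1bf_an

variable {d : ℕ}

namespace SeqRigAux

/-- linear combinations of tensors -/
def sumT {r : ℕ} (c : Fin r → ℝ) (T : Fin r → Tens d) : Tens d where
  C := ∑ i, c i • (T i).C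
  sa := by
    intro A B
    rw [LinearMap.sum_apply, LinearMap.sum_apply, ip_sum_left, ip_sum_right]
    refine Finset.sum_congr rfl fun i _ => ?_
    rw [LinearMap.smul_apply, LinearMap.smul_apply, ip_smul_left, ip_smul_right, (T i).sa]
  tr := by
    intro A
    rw [LinearMap.sum_apply, LinearMap.sum_apply]
    exact Finset.sum_congr rfl fun i _ => by
      rw [LinearMap.smul_apply, LinearMap.smul_apply, (T i).tr]

theorem sumT_Q {r : ℕ} (c : Fin r → ℝ) (T : Fin r → Tens d) (ξ : M d) :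
    (sumT c T).Q ξ = ∑ i, c i * (T i).Q ξ := by
  show ip ((∑ i, c i • (T i).C) ξ) ξ = _
  rw [LinearMap.sum_apply, ip_sum_left]
  refine Finset.sum_congr rfl fun i _ => ?_
  rw [LinearMap.smul_apply, ip_smul_left]
  rfl

theorem zv_ne {n : Fin d → ℤ} (h : n ≠ 0) : zv n ≠ 0 := by
  intro e
  apply h
  funext j
  have := congrFun e j
  simpa [zv] using this

theorem ip_swap (q ε : M d) : ip ε (symm q) = ip q (symm ε) := by
  rw [← ip_symm_left, ip_comm]

end SeqRigAux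

open SeqRigAux

/-- R2b -/
theorem seqRig (hS : StmtSeqD d) (hI : StmtInvT d) (hG : StmtGamT d) : StmtSeqRig d := by
  intro A hA r n c hn hc f hf0 hf1 hcs hpd
  obtain ⟨Ai, hAiPD, hAi, -, -⟩ := hI A hA
  obtain ⟨Γ, hΓ1, hΓ2, -, -, -, -, -⟩ := hG A hA
  obtain ⟨α, hα, hαg⟩ := hpd
  set S : Tens d := sumT c (fun i => Γ (zv (n i))) with hSdef
  have hSQ : ∀ q, ∑ i, c i * Gam A (zv (n i)) q = S.Q q := by
    intro q
    rw [hSdef, sumT_Q]
    exact Finset.sum_congr rfl fun i _ => by rw [hΓ1 _ _ (zv_ne (hn i))]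
  have hSPD : S.PD := ⟨α, hα, fun q => by rw [← hSQ]; exact hαg q⟩
  obtain ⟨Si, hSiPD, hSi, hSi2, hSi3⟩ := hI S hSPD
  set W : Tens d := sumT ![1, 1 - f] ![A, Si] with hWdef
  have hWQ : ∀ ξ, W.Q ξ = A.Q ξ + (1 - f) * Si.Q ξ := by
    intro ξ
    rw [hWdef, sumT_Q, Fin.sum_univ_two]
    simp
  have hϖ : 0 < 1 - f := by linarith
  have hW1 : ∀ ε q, A.Q ε + 2 * (1 - f) * ip q (symm ε) - (1 - f) * S.Q q ≤ W.Q ε := by
    intro ε q
    have h1 := hSi2 q ε
    rw [hSi, ip_swap] at h1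
    rw [hWQ]
    nlinarith
  have hW2 : ∀ ε, ∃ q, W.Q ε = A.Q ε + 2 * (1 - f) * ip q (symm ε) - (1 - f) * S.Q q := by
    intro ε
    refine ⟨Si.C ε, ?_⟩
    have h1 : ip (Si.C ε) (symm ε) = Si.Q ε := by rw [Tens.ip_C_symm]; rfl
    have h2 : S.Q (Si.C ε) = Si.Q ε := by
      show ip (S.C (Si.C ε)) (Si.C ε) = _
      rw [(hSi3 ε).2, ip_comm, h1]
    rw [h1, h2, hWQ]
    ring
  have hAp := Tens.PD.psd hA
  have hSip := Tens.PD.psd hSiPD
  have hWp : ∀ ξ, 0 ≤ W.Q ξ := by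
    intro ξ
    rw [hWQ]
    have := mul_nonneg hϖ.le (hSip ξ)
    linarith [hAp ξ]
  refine ⟨W, ?_, ?_, ?_, ?_⟩
  · -- realizability
    intro η hη
    obtain ⟨K, hK, hKA⟩ := Ai.exists_bound
    refine ⟨min (1 / 2) (η * α / (2 * K)), lt_min (by norm_num) (by positivity), ?_⟩
    intro δ hδ0 hδ
    have hδ1 : δ < 1 / 2 := lt_of_lt_of_le hδ (min_le_left _ _)
    have hδ2 : δ < η * α / (2 * K) := lt_of_lt_of_le hδ (min_le_right _ _)
    rw [lt_div_iff₀ (by positivity)] at hδ2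
    obtain ⟨Wd, hGd, -, hWd1, hWd2⟩ := hS A hA r n c hn hc f hf0 hf1 hcs δ hδ0 (by linarith)
    refine ⟨Wd, f, hGd, by rw [sub_self, abs_zero]; exact hη, ?_⟩
    set κ : ℝ := δ / (1 - δ) with hκ
    have hκ0 : 0 < κ := div_pos hδ0 (by linarith)
    have hκ1 : κ * K ≤ η * α := by
      rw [hκ, div_mul_eq_mul_div, div_le_iff₀ (by linarith)]
      have : η * α * (1 / 2) ≤ η * α * (1 - δ) :=
        mul_le_mul_of_nonneg_left (by linarith) (by positivity)
      nlinarith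
    have hInv : ∀ q, κ * Inv A q ≤ η * S.Q q := by
      intro q
      have h1 : Inv A q ≤ K * nsq q := by
        rw [hAi]
        exact (abs_le.1 (hKA q)).2
      have h2 : α * nsq q ≤ S.Q q := by rw [← hSQ]; exact hαg q
      calc κ * Inv A q ≤ κ * (K * nsq q) := mul_le_mul_of_nonneg_left h1 hκ0.le
        _ = (κ * K) * nsq q := by ring
        _ ≤ (η * α) * nsq q := mul_le_mul_of_nonneg_right hκ1 (nsq_nonneg q)
        _ = η * (α * nsq q) := by ring
        _ ≤ η * S.Q q := mul_le_mul_of_nonneg_left h2 hη.le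
    have hInv0 : ∀ q, 0 ≤ Inv A q := fun q => by rw [hAi]; exact Tens.PD.psd hAiPD q
    intro ε
    constructor
    · obtain ⟨q, hq⟩ := hW2 ε
      set s : ℝ := 1 / (1 + η) with hs
      have hs0 : 0 < s := by positivity
      have hs1 : s * (1 + η) = 1 := by rw [hs]; field_simp
      have hs2 : 1 - η ≤ s := by
        rw [hs, le_div_iff₀ (by positivity)]
        nlinarith [sq_nonneg η]
      have hs3 : s ≤ 1 := by
        rw [hs, div_le_one (by positivity)]
        linarith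
      have h1 := hWd1 ε (s • q)
      rw [hSQ, ip_smul_left, Tens.Q_smul, hAi, Tens.Q_smul, ← hAi] at h1
      have h2 := hInv q
      have h3 : κ * (s ^ 2 * Inv A q) + s ^ 2 * S.Q q ≤ s * S.Q q := by
        calc κ * (s ^ 2 * Inv A q) + s ^ 2 * S.Q q = s ^ 2 * (κ * Inv A q + S.Q q) := by ring
          _ ≤ s ^ 2 * (η * S.Q q + S.Q q) :=
            mul_le_mul_of_nonneg_left (by linarith) (by positivity)
          _ = (s * (1 + η)) * (s * S.Q q) := by ring
          _ = s * S.Q q := by rw [hs1, one_mul]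
      have h4 := mul_le_mul_of_nonneg_left h3 hϖ.le
      have h5 : A.Q ε + s * (W.Q ε - A.Q ε) ≤ Wd.Q ε := by
        rw [hq]
        linarith
      have h6 : (1 - η) * W.Q ε ≤ s * W.Q ε := mul_le_mul_of_nonneg_right hs2 (hWp ε)
      have h7 : s * A.Q ε ≤ A.Q ε := by nlinarith [hAp ε]
      linarith
    · obtain ⟨q, hq⟩ := hWd2 ε
      have h1 := hW1 ε q
      have h2 : 0 ≤ (1 - f) * (κ * Inv A q) :=
        mul_nonneg hϖ.le (mul_nonneg hκ0.le (hInv0 q))
      rw [hSQ] at hq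
      have h3 : 0 ≤ η * W.Q ε := mul_nonneg hη.le (hWp ε)
      linarith
  · obtain ⟨a, ha, hAa⟩ := hA
    refine ⟨a, ha, fun ξ => ?_⟩
    rw [hWQ]
    have := mul_nonneg hϖ.le (hSip ξ)
    linarith [hAa ξ]
  · intro ε q
    rw [hSQ]
    exact hW1 ε q
  · intro ε
    obtain ⟨q, hq⟩ := hW2 ε
    exact ⟨q, by rw [hSQ]; exact hq⟩

namespace SeqRigAux

/-- the coordinate directions detect the symmetric part -/
theorem gam_pos {A : Tens d} (hle : ∀ n q a, 2 * ip q (sd a n) - A.Q (sd a n) ≤ Gam A n q)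
    (n : V d) (q : M d) (h : mulV (symm q) n ≠ 0) : 0 < Gam A n q := by
  set v : V d := mulV (symm q) n with hv
  have hD : 0 < dot v v := dot_self_pos h
  set B : ℝ := A.Q (sd v n) with hB
  set t : ℝ := dot v v / (|B| + 1) with ht
  have ht0 : 0 < t := by positivity
  have h1 := hle n q (t • v)
  rw [sd_smul_left, ip_smul_right, ip_sd, ← hv, Tens.Q_smul, ← hB] at h1
  have h2 : t * (|B| + 1) = dot v v := by rw [ht]; field_simp
  have h3 : t ^ 2 * B ≤ t * dot v v := by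
    calc t ^ 2 * B ≤ t ^ 2 * (|B| + 1) :=
          mul_le_mul_of_nonneg_left (by linarith [le_abs_self B]) (by positivity)
      _ = t * (t * (|B| + 1)) := by ring
      _ = t * dot v v := by rw [h2]
  have h4 : 0 < t * dot v v := mul_pos ht0 hD
  linarith

theorem exists_col {q : M d} (h : symm q ≠ 0) :
    ∃ i : Fin d, mulV (symm q) (zv (Pi.single i 1)) ≠ 0 := by
  by_contra hcon
  push Not at hcon
  apply h
  funext a b
  have h1 := congrFun (hcon b) a
  unfold mulV at h1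
  have h2 : ∑ j, symm q a j * zv (Pi.single b (1 : ℤ)) j = symm q a b := by
    rw [Finset.sum_eq_single b]
    · simp [zv]
    · intro j _ hj
      simp [zv, Pi.single_apply, hj]
    · intro hb
      exact absurd (Finset.mem_univ b) hb
  rw [h2] at h1
  exact h1

end SeqRigAux

/-- R3 -/
theorem qR (hSR : StmtSeqRig d) (hI : StmtInvT d) (hG : StmtGamT d) : StmtQR d := by
  intro hd A hA
  obtain ⟨Ai, hAiPD, hAi, -, hAi3⟩ := hI A hA
  obtain ⟨Γ, hΓ1, hΓ2, hΓ3, -, -, -, -⟩ := hG A hA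
  have hd' : (0 : ℝ) < d := by exact_mod_cast hd
  have hn : ∀ i : Fin d, (Pi.single i 1 : Fin d → ℤ) ≠ 0 := by
    intro i h
    have := congrFun h i
    simp at this
  have part1 : ∀ f : ℝ, 0 < f → f < 1 → ∃ α > 0, ∀ q,
      α * nsq q ≤ ∑ i : Fin d, f / d * Gam A (zv (Pi.single i 1)) q := by
    intro f hf0 hf1
    set S : Tens d := sumT (fun _ : Fin d => f / d) (fun i => Γ (zv (Pi.single i 1))) with hS
    have hSQ : ∀ q, ∑ i : Fin d, f / d * Gam A (zv (Pi.single i 1)) q = S.Q q := by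
      intro q
      rw [hS, sumT_Q]
      exact Finset.sum_congr rfl fun i _ => by rw [hΓ1 _ _ (zv_ne (hn i))]
    obtain ⟨κ, hκ, h⟩ := LowPD.pd_of_pos S.Q S.continuous_Q (fun t q => S.Q_smul t q)
      (fun q => S.Q_symm q) (by
        intro q hq
        rw [← hSQ]
        obtain ⟨i, hi⟩ := exists_col hq
        refine Finset.sum_pos' (fun j _ => ?_) ⟨i, Finset.mem_univ i, ?_⟩
        · exact mul_nonneg (by positivity) (hΓ2 _ q).1
        · exact mul_pos (by positivity) (gam_pos hΓ3 _ q hi))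
    exact ⟨κ, hκ, fun q => by rw [hSQ]; exact h q⟩
  refine ⟨part1, ?_⟩
  intro M₀
  obtain ⟨a, ha, hAa⟩ := id hA
  have hAp := Tens.PD.psd hA
  set f : ℝ := min (1 / 2) (a / (|M₀| + 1)) with hf
  have hf0 : 0 < f := lt_min (by norm_num) (by positivity)
  have hf1 : f < 1 := lt_of_le_of_lt (min_le_left _ _) (by norm_num)
  have hf2 : f * (|M₀| + 1) ≤ a := by
    have := min_le_right (1 / 2 : ℝ) (a / (|M₀| + 1))
    rw [← hf, le_div_iff₀ (by positivity)] at this
    exact this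
  obtain ⟨W, hW1, hW2, hW3, -⟩ := hSR A hA d (fun i => Pi.single i 1) (fun _ => f / d) hn
    (fun _ => by positivity) f hf0 hf1 (by
      simp only [Finset.sum_const, Finset.card_univ, Fintype.card_fin, nsmul_eq_mul]
      field_simp) (part1 f hf0 hf1)
  refine ⟨W, f, hf0.le, hf1.le, hW1, hW2, ?_⟩
  intro ξ
  have h1 := hW3 ξ ((1 / f) • A.C ξ)
  have h2 : ip ((1 / f) • A.C ξ) (symm ξ) = 1 / f * A.Q ξ := by
    rw [ip_smul_left, Tens.ip_C_symm]
    rfl
  have h3 : ∑ i : Fin d, f / d * Gam A (zv (Pi.single i 1)) ((1 / f) • A.C ξ) ≤ 1 / f * A.Q ξ := by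
    have h4 : Inv A ((1 / f) • A.C ξ) = (1 / f) ^ 2 * A.Q ξ := by
      rw [hAi, Tens.Q_smul]
      congr 1
      show ip (Ai.C (A.C ξ)) (A.C ξ) = _
      rw [(hAi3 ξ).1, ip_comm, Tens.ip_C_symm]
      rfl
    calc ∑ i : Fin d, f / d * Gam A (zv (Pi.single i 1)) ((1 / f) • A.C ξ)
        ≤ ∑ _i : Fin d, f / d * Inv A ((1 / f) • A.C ξ) :=
          Finset.sum_le_sum fun i _ => mul_le_mul_of_nonneg_left (hΓ2 _ _).2 (by positivity)
      _ = f * Inv A ((1 / f) • A.C ξ) := by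
          simp only [Finset.sum_const, Finset.card_univ, Fintype.card_fin, nsmul_eq_mul]
          field_simp
      _ = 1 / f * A.Q ξ := by
          rw [h4]
          field_simp
  rw [h2] at h1
  have h5 := mul_le_mul_of_nonneg_left h3 (by linarith : (0 : ℝ) ≤ 1 - f)
  have h6 : 1 / f * A.Q ξ ≤ W.Q ξ := by
    have h7 : f * (1 / f * A.Q ξ) = A.Q ξ := by field_simp
    nlinarith
  have h8 : (|M₀| + 1) * nsq ξ ≤ 1 / f * A.Q ξ := by
    rw [div_mul_eq_mul_div, one_mul, le_div_iff₀ hf0]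
    calc (|M₀| + 1) * nsq ξ * f = (f * (|M₀| + 1)) * nsq ξ := by ring
      _ ≤ a * nsq ξ := mul_le_mul_of_nonneg_right hf2 (nsq_nonneg ξ)
      _ ≤ A.Q ξ := hAa ξ
  have h9 : M₀ * nsq ξ ≤ (|M₀| + 1) * nsq ξ :=
    mul_le_mul_of_nonneg_right (by linarith [le_abs_self M₀]) (nsq_nonneg ξ)
  linarith

end Pool.Agent.Lib.MP_5df1bf_an
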