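import Pool.Agent.Lib.MP_5df1bf_an.Stmts4
import Pool.Agent.Lib.MP_5df1bf_an.Her

/-!
# MP_5df1bf_an, R6b and R7: stiffening by the square of a real linear form; everything above a
realizable tensor is realizable
-/

open MeasureTheory Filter Topology
open scoped BigOperators ContDiff

noncomputable section

namespace Pool.Agent.Lib.MP_5df1bf_an

variable {d : ℕ}

namespace StiffHerAux

theorem addSq_PD {C : Tens d} (hC : C.PD) (E : M d) {lam : ℝ} (hl : 0 ≤ lam) :
    (addSq C E lam).PD := by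
  obtain ⟨α, hα, h⟩ := hC
  refine ⟨α, hα, fun ξ => ?_⟩
  rw [addSq_Q]
  have h1 := h ξ
  have h2 : 0 ≤ lam * (ip (symm E) ξ) ^ 2 := by positivity
  linarith

/-- a nonzero integer near `s t` -/
def ia (s t : ℝ) : ℤ := if ⌊s * t⌋ = 0 then 1 else ⌊s * t⌋

theorem ia_ne (s t : ℝ) : ia s t ≠ 0 := by
  unfold ia
  split_ifs with h
  · norm_num
  · exact h

theorem ia_near (s t : ℝ) : |(ia s t : ℝ) - s * t| ≤ 1 := by
  have h1 := Int.floor_le (s * t)
  have h2 := Int.lt_floor_add_one (s * t)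
  unfold ia
  split_ifs with h
  · rw [h] at h1 h2
    push_cast at h1 h2 ⊢
    rw [abs_le]
    constructor <;> linarith
  · rw [abs_le]
    constructor <;> linarith

theorem key (C : Tens d) (E : M d) {lam : ℝ} (hl : 0 ≤ lam) {η : ℝ} (hη : 0 < η) :
    ∃ (A₀ : Fin d → Fin d → ℤ) (μ : ℝ), (∀ i j, A₀ i j = A₀ j i) ∧ (∀ i j, A₀ i j ≠ 0) ∧ 0 ≤ μ ∧
      ∀ ξ, |(addSq C (fun i j => (A₀ i j : ℝ)) μ).Q ξ - (addSq C E lam).Q ξ| ≤ η * nsq ξ := by
  set R : ℝ := Real.sqrt (nsq E) with hR
  have hR0 : 0 ≤ R := Real.sqrt_nonneg _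
  obtain ⟨n, hn⟩ := exists_nat_gt (lam * ((d : ℝ) ^ 2 + 2 * d * R) / η)
  set s : ℝ := (n : ℝ) + 1 with hs
  have hs1 : 1 ≤ s := by rw [hs]; linarith [(Nat.cast_nonneg n : (0 : ℝ) ≤ n)]
  have hs0 : 0 < s := by linarith
  have hsη : lam * ((d : ℝ) ^ 2 + 2 * d * R) ≤ s * η := by
    rw [div_lt_iff₀ hη] at hn
    nlinarith
  refine ⟨fun i j => ia s (symm E i j), lam / s ^ 2, ?_, ?_, by positivity, ?_⟩
  · intro i j
    simp only
    rw [symm_swap]
  · intro i j
    exact ia_ne _ _
  · intro ξ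
    rw [addSq_Q, addSq_Q]
    -- the difference of the matrices
    set D : M d := fun i j => (ia s (symm E i j) : ℝ) / s - symm E i j with hD
    have hDs : symm D = D := by
      apply symm_of_tp
      ext i j
      show D j i = D i j
      simp only [hD]
      rw [symm_swap]
    have hB : symm (fun i j => ((ia s (symm E i j) : ℤ) : ℝ)) = s • (D + symm E) := by
      have e1 : (fun i j => ((ia s (symm E i j) : ℤ) : ℝ)) = s • (D + symm E) := by
        ext i j
        simp only [hD, Pi.smul_apply, Pi.add_apply, smul_eq_mul]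
        field_simp
        ring
      rw [e1, symm_smul, symm_add, symm_symm, hDs]
    rw [hB, ip_smul_left]
    have hDD : nsq D ≤ (d / s) ^ 2 := by
      rw [nsq_of_symm hDs, ip_self_eq]
      have h1 : ∀ i j, (D i j) ^ 2 ≤ 1 / s ^ 2 := by
        intro i j
        have h2 : D i j = ((ia s (symm E i j) : ℝ) - s * symm E i j) / s := by
          simp only [hD]
          field_simp
        rw [h2, div_pow]
        have h3 := ia_near s (symm E i j)
        have h4 : ((ia s (symm E i j) : ℝ) - s * symm E i j) ^ 2 ≤ 1 := by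
          rw [← sq_abs]
          nlinarith [abs_nonneg ((ia s (symm E i j) : ℝ) - s * symm E i j)]
        exact div_le_div_of_nonneg_right h4 (by positivity)
      calc ∑ i, ∑ j, (D i j) ^ 2 ≤ ∑ _i : Fin d, ∑ _j : Fin d, 1 / s ^ 2 :=
            Finset.sum_le_sum fun i _ => Finset.sum_le_sum fun j _ => h1 i j
        _ = (d / s) ^ 2 := by
            simp only [Finset.sum_const, Finset.card_univ, Fintype.card_fin, nsmul_eq_mul]
            field_simp
    set N : ℝ := Real.sqrt (nsq ξ) with hN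
    have hN0 : 0 ≤ N := Real.sqrt_nonneg _
    have hNN : N ^ 2 = nsq ξ := Real.sq_sqrt (nsq_nonneg ξ)
    have hx : |ip D ξ| ≤ d / s * N := by
      have h1 := abs_ip_symm_le D ξ
      rw [hDs] at h1
      refine h1.trans (mul_le_mul_of_nonneg_right ?_ hN0)
      exact (Real.sqrt_le_sqrt hDD).trans (le_of_eq (Real.sqrt_sq (by positivity)))
    have hy : |ip (symm E) ξ| ≤ R * N := abs_ip_symm_le E ξ
    have e2 : C.Q ξ + lam / s ^ 2 * (s * ip (D + symm E) ξ) ^ 2
        - (C.Q ξ + lam * (ip (symm E) ξ) ^ 2)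
        = lam * (ip D ξ ^ 2 + 2 * (ip D ξ * ip (symm E) ξ)) := by
      rw [ip_add_left]
      field_simp
      ring
    rw [e2, abs_mul, abs_of_nonneg hl]
    have h3 : |ip D ξ ^ 2 + 2 * (ip D ξ * ip (symm E) ξ)| ≤
        (d / s * N) ^ 2 + 2 * ((d / s * N) * (R * N)) := by
      refine (abs_add_le _ _).trans (add_le_add ?_ ?_)
      · rw [abs_pow]
        exact pow_le_pow_left₀ (abs_nonneg _) hx 2
      · rw [abs_mul, abs_mul, abs_two]
        refine mul_le_mul_of_nonneg_left ?_ zero_le_two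
        exact mul_le_mul hx hy (abs_nonneg _) (by positivity)
    calc lam * |ip D ξ ^ 2 + 2 * (ip D ξ * ip (symm E) ξ)|
        ≤ lam * ((d / s * N) ^ 2 + 2 * ((d / s * N) * (R * N))) :=
          mul_le_mul_of_nonneg_left h3 hl
      _ = lam * (((d : ℝ) ^ 2 / s + 2 * d * R) / s) * N ^ 2 := by
          field_simp
      _ ≤ η * N ^ 2 := by
          refine mul_le_mul_of_nonneg_right ?_ (sq_nonneg _)
          have h5 : (d : ℝ) ^ 2 / s ≤ (d : ℝ) ^ 2 := div_le_self (by positivity) hs1
          rw [← mul_div_assoc, div_le_iff₀ hs0]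
          calc lam * ((d : ℝ) ^ 2 / s + 2 * d * R) ≤ lam * ((d : ℝ) ^ 2 + 2 * d * R) :=
                mul_le_mul_of_nonneg_left (by linarith) hl
            _ ≤ s * η := hsη
            _ = η * s := mul_comm _ _
      _ = η * nsq ξ := by rw [hNN]

/-- the chain -/
def chA (C : Tens d) (ds : ℕ → M d) : ℕ → Tens d
  | 0 => C
  | m + 1 => addSq (chA C ds m) (ds m) 1

theorem chA_Q (C : Tens d) (ds : ℕ → M d) (h : ∀ k, tp (ds k) = ds k) (m : ℕ) (ξ : M d) :
    (chA C ds m).Q ξ = C.Q ξ + ∑ k ∈ Finset.range m, (ip (ds k) ξ) ^ 2 := by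
  induction m with
  | zero => simp [chA]
  | succ m ih =>
    rw [chA, addSq_Q, ih, Finset.sum_range_succ, symm_of_tp (h m)]
    ring

end StiffHerAux

open StiffHerAux

/-- R6b: stiffening -/
theorem Stiff_ok (d : ℕ) (hI : StmtStiffI d) (hL : StmtRRLim d) : StmtStiff d := by
  intro hd A C f hA hC hR E lam hl
  refine hL A hA _ f (addSq_PD hC E hl) fun η hη => ?_
  obtain ⟨A₀, μ, h1, h2, h3, h4⟩ := key C E hl hη
  exact ⟨_, f, hI hd A C f hA hC hR A₀ h1 h2 μ h3, by simpa using hη, h4⟩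

/-- R7: everything above a realizable tensor is realizable -/
theorem HerR_ok (d : ℕ) (hS : StmtStiff d) : StmtHerR d := by
  intro hd A C C' f hA hC hR hle
  obtain ⟨n, ds, hds, hsq⟩ := exists_squares C' C hle
  have hPD : ∀ m, (chA C ds m).PD := by
    intro m
    induction m with
    | zero => exact hC
    | succ m ih => exact addSq_PD ih _ zero_le_one
  have h : ∀ m, RzR A (chA C ds m) f := by
    intro m
    induction m with
    | zero => exact hR
    | succ m ih => exact hS hd A _ f hA (hPD m) ih (ds m) 1 zero_le_one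
  have e : chA C ds n = C' := by
    apply Tens.ext_Q
    intro ξ
    rw [chA_Q C ds hds, ← hsq ξ]
    ring
  rw [← e]
  exact h n

end Pool.Agent.Lib.MP_5df1bf_an
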