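import Pool.Agent.Lib.MP_5df1bf_an.Stmts4
import Pool.Agent.Lib.MP_5df1bf_an.BaseE
import Pool.Agent.Lib.MP_5df1bf_an.Gad

/-!
# MP_5df1bf_an: R6a, stiffening in the direction of an integer matrix without zero entries
-/

open MeasureTheory Filter Topology
open scoped BigOperators ContDiff

noncomputable section

namespace Pool.Agent.Lib.MP_5df1bf_an

variable {d : ℕ}

namespace StiffIAux

open Classical in
/-- lamination of two realizable tensors -/
theorem lamTwoR (hE : BaseE d) (hLam : StmtLam d) (hVol : StmtLayVol d) (hHom : StmtRRHom d)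
    (hEff : StmtEff d) (A : Tens d) (hA : A.PD) (T₁ T₂ : Tens d) (h₁ : T₁.PD) (h₂ : T₂.PD)
    (f₁ f₂ : ℝ) (hR₁ : RzR A T₁ f₁) (hR₂ : RzR A T₂ f₂) (k : Fin d → ℤ) (hk : k ≠ 0)
    (θ : ℝ) (hθ0 : 0 < θ) (hθ1 : θ < 1) :
    ∃ W : Tens d, RzR A W (θ * f₁ + (1 - θ) * f₂) ∧
      (∀ (ε : M d) (a : V d), W.Q ε ≤ θ * T₁.Q (ε + (1 - θ) • sd a (zv k)) +
        (1 - θ) * T₂.Q (ε - θ • sd a (zv k))) ∧
      (∀ (ε : M d) (c : ℝ), (∀ a : V d, c ≤ θ * T₁.Q (ε + (1 - θ) • sd a (zv k)) +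
        (1 - θ) * T₂.Q (ε - θ • sd a (zv k))) → c ≤ W.Q ε) := by
  obtain ⟨hmic, hfr⟩ := hVol k hk θ hθ0.le hθ1.le
  set idx : V d → Fin 2 := fun x => if x ∈ lay k θ then 0 else 1 with hidx
  set T' : Fin 2 → Tens d := fun i => if i = 0 then T₁ else T₂ with hT'
  set f' : Fin 2 → ℝ := fun i => if i = 0 then f₁ else f₂ with hf'
  have hmeas : Measurable idx := Measurable.ite hmic.1 measurable_const measurable_const
  have hper : Per idx := by
    intro x i
    simp only [hidx]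
    have := hmic.2 x i
    by_cases h : x ∈ lay k θ
    · rw [if_pos h, if_pos (this.mpr h)]
    · rw [if_neg h, if_neg (fun h1 => h (this.mp h1))]
  have hPD : ∀ i, (T' i).PD := by
    intro i
    simp only [hT']
    split_ifs
    · exact h₁
    · exact h₂
  have hPSD : ∀ i, (T' i).PSD := fun i => (hPD i).psd
  obtain ⟨β1, hβ1, hb1⟩ := T₁.exists_bound
  obtain ⟨β2, hβ2, hb2⟩ := T₂.exists_bound
  have hfld : IsFld (fun x => T' (idx x)) 0 (max β1 β2) := by
    refine hE.step_fld 2 idx T' 0 _ hmeas hper (fun i ξ => ⟨?_, ?_⟩)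
    · rw [zero_mul]; exact hPSD i ξ
    · simp only [hT']
      split_ifs
      · exact (le_abs_self _).trans ((hb1 ξ).trans
          (mul_le_mul_of_nonneg_right (le_max_left _ _) (nsq_nonneg _)))
      · exact (le_abs_self _).trans ((hb2 ξ).trans
          (mul_le_mul_of_nonneg_right (le_max_right _ _) (nsq_nonneg _)))
  obtain ⟨W, hW1, hW2⟩ := hEff _ _ hfld
  have hRz : RzR A W (∑ i, frac {x | idx x = i} * f' i) := by
    refine hHom A hA 2 idx hmeas hper T' f' hPD (fun i => ?_) W hW1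
    simp only [hT', hf']
    split_ifs
    · exact hR₁
    · exact hR₂
  have hset : {x | idx x = 0} = lay k θ := by
    ext x
    show (if x ∈ lay k θ then (0 : Fin 2) else 1) = 0 ↔ x ∈ lay k θ
    by_cases h : x ∈ lay k θ
    · rw [if_pos h]; exact ⟨fun _ => h, fun _ => rfl⟩
    · rw [if_neg h]; exact ⟨fun h1 => absurd h1 (by decide), fun h1 => absurd h1 h⟩
  have hset1 : {x | idx x = 1} = (lay k θ)ᶜ := by
    ext x
    show (if x ∈ lay k θ then (0 : Fin 2) else 1) = 1 ↔ x ∉ lay k θ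
    by_cases h : x ∈ lay k θ
    · rw [if_pos h]; exact ⟨fun h1 => absurd h1 (by decide), fun h1 => absurd h h1⟩
    · rw [if_neg h]; exact ⟨fun _ => h, fun _ => rfl⟩
  have hcell : volume (cell d) = 1 := hE.vol
  have hfr1 : frac (lay k θ)ᶜ = 1 - θ := by
    have hmc : MeasurableSet (lay k θ) := hmic.1
    have e : volume (lay k θ ∩ cell d) + volume ((lay k θ)ᶜ ∩ cell d) = volume (cell d) := by
      have h3 : (lay k θ)ᶜ ∩ cell d = cell d \ lay k θ := by
        ext x; simp [and_comm]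
      rw [h3, Set.inter_comm]
      exact measure_inter_add_sdiff _ hmc
    rw [hcell] at e
    have f1 : volume (lay k θ ∩ cell d) ≠ ⊤ := by
      intro h; rw [h] at e; simp at e
    have f2 : volume ((lay k θ)ᶜ ∩ cell d) ≠ ⊤ := by
      intro h; rw [h] at e; simp at e
    have e2 := congrArg ENNReal.toReal e
    rw [ENNReal.toReal_add f1 f2] at e2
    have h4 : frac (lay k θ) = (volume (lay k θ ∩ cell d)).toReal := rfl
    rw [← h4, hfr] at e2
    have h5 : frac (lay k θ)ᶜ = (volume ((lay k θ)ᶜ ∩ cell d)).toReal := rfl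
    rw [h5]
    simp at e2
    linarith
  have hsum : ∑ i, frac {x | idx x = i} * f' i = θ * f₁ + (1 - θ) * f₂ := by
    rw [Fin.sum_univ_two, hset, hset1, hfr, hfr1]
    simp [hf']
  rw [hsum] at hRz
  have hform : ∀ ε, W.Q ε = ⨅ a : V d, (θ * T₁.Q (ε + (1 - θ) • sd a (zv k)) +
      (1 - θ) * T₂.Q (ε - θ • sd a (zv k))) := by
    intro ε
    rw [hW1]
    refine hLam k hk θ hθ0 hθ1 T₁ T₂ _ h₁.psd h₂.psd ?_ ?_ ε
    · intro x hx
      have h1 : idx x = 0 := if_pos hx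
      show T' (idx x) = T₁
      rw [h1]
      exact if_pos rfl
    · intro x hx
      have h1 : idx x = 1 := if_neg hx
      show T' (idx x) = T₂
      rw [h1]
      exact if_neg (by decide)
  refine ⟨W, hRz, ?_, ?_⟩
  · intro ε a
    rw [hform]
    refine ciInf_le ?_ a
    refine ⟨0, ?_⟩
    rintro _ ⟨b, rfl⟩
    have e1 := h₁.psd (ε + (1 - θ) • sd b (zv k))
    have e2 := h₂.psd (ε - θ • sd b (zv k))
    have e3 : 0 < 1 - θ := by linarith
    simp only
    positivity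
  · intro ε c hc
    rw [hform]
    exact le_ciInf hc

/-- the gadget in the calculus of realizable tensors -/
theorem gadR (hd : 2 ≤ d) (hE : BaseE d) (hUp : StmtRUp d) (hLow : StmtRLow d) (hFld : StmtRFld d)
    (hQR : StmtQR d) (hFib : StmtFibR d) (hHom : StmtRRHom d) (hRLow : StmtRRLow d)
    (hEff : StmtEff d) (A C : Tens d) (f : ℝ) (hA : A.PD) (hC : C.PD) (hRz : RzR A C f)
    (A₀ : Fin d → Fin d → ℤ) (hsym : ∀ i j, A₀ i j = A₀ j i) (hne : ∀ i j, A₀ i j ≠ 0) :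
    ∃ K : ℝ, 0 ≤ K ∧ ∀ (N : ℕ), 2 ≤ N → ∀ Λ : ℝ, 0 ≤ Λ → ∃ (W : Tens d) (f' : ℝ),
      RzR A W f' ∧ W.PD ∧ |f' - f| ≤ K / N ∧
      (∀ ε : M d, ip (fun i j => (A₀ i j : ℝ)) (symm ε) = 0 → W.Q ε ≤ C.Q ε + K / N * nsq ε) ∧
      (∀ ε : M d, C.Q ε - K / N * nsq ε + Λ * (ip (fun i j => (A₀ i j : ℝ)) (symm ε)) ^ 2
        ≤ W.Q ε) := by
  classical
  have hd1 : 1 ≤ d := by omega
  obtain ⟨αA, hαA, hA1⟩ := hA
  have hA : A.PD := ⟨αA, hαA, hA1⟩
  obtain ⟨αC, hαC, hC1⟩ := hC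
  have hC : C.PD := ⟨αC, hαC, hC1⟩
  set α : ℝ := min αA αC with hαd
  have hα : 0 < α := lt_min hαA hαC
  have hAα : ∀ ξ, α * nsq ξ ≤ A.Q ξ := fun ξ =>
    (mul_le_mul_of_nonneg_right (min_le_left _ _) (nsq_nonneg _)).trans (hA1 ξ)
  have hCα : ∀ ξ, α * nsq ξ ≤ C.Q ξ := fun ξ =>
    (mul_le_mul_of_nonneg_right (min_le_right _ _) (nsq_nonneg _)).trans (hC1 ξ)
  set z : Fin d → Fin d → ℤ := fun k i => A₀ i k with hz
  have hz0 : ∀ k, z k ≠ 0 := by
    intro k h
    exact hne ⟨0, by omega⟩ k (congrFun h ⟨0, by omega⟩)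
  have hFib' : ∀ k : Fin d, ∃ β > 0, ∀ M : ℝ, ∃ (F : Tens d) (f : ℝ), 0 ≤ f ∧ f ≤ 1 ∧ RzR A F f ∧
      F.PD ∧ (∀ ξ, M * (ip (oo (zv (z k))) ξ) ^ 2 ≤ F.Q ξ) ∧
      (∀ ξ, ip (oo (zv (z k))) ξ = 0 → F.Q ξ ≤ β * nsq ξ) := fun k =>
    hFib hd1 A hA (z k) (hz0 k)
  choose β hβ hF using hFib'
  set b : ℝ := ∑ k, β k with hb
  have hβb : ∀ k, β k ≤ b := fun k =>
    Finset.single_le_sum (f := β) (fun i _ => (hβ i).le) (Finset.mem_univ k)
  have hb0 : 0 < b := (hβ ⟨0, by omega⟩).trans_le (hβb _)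
  obtain ⟨K1, hK1, hup⟩ := hUp hd A₀ C hC b hb0
  obtain ⟨K2, hK2, hlow⟩ := hLow hd A₀ C α hC hα
  set K3 : ℝ := (1 + |f|) * (d * 2 ^ d) with hK3
  have hK30 : 0 ≤ K3 := by positivity
  refine ⟨K1 + K2 + K3, by positivity, fun N hN Λ hΛ => ?_⟩
  have hN0 : (0 : ℝ) < N := by
    have : 0 < N := by omega
    exact_mod_cast this
  set D : RD d := ⟨A₀, hsym, hne, N, hN⟩ with hD
  obtain ⟨K', hK', hlow'⟩ := hlow D rfl
  set Mm : ℝ := Λ * K' + 1 with hMm
  have hM0 : 0 < Mm := by positivity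
  obtain ⟨R, fR, hfR0, hfR1, hR, hRPD, hRM⟩ := (hQR hd1 A hA).2 Mm
  choose F fF hfF0 hfF1 hFR hFPD hFM hFβ using fun k => hF k Mm
  obtain ⟨⟨m, idx, val, hidx, hper, hG, hval⟩, -⟩ :
      (∃ (m : ℕ) (idx : V d → Fin m) (val : Fin m → Tens d),
        Measurable idx ∧ Per idx ∧ D.IsG C R F (fun x => val (idx x)) ∧
        (∀ i, val i = C ∨ val i = R ∨ ∃ k, val i = F k)) ∧ True :=
    ⟨(hFld hd D).1 C R F, trivial⟩
  obtain ⟨-, -, hvol⟩ := hFld hd D
  -- the field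
  have hlo : ∀ i ξ, α * nsq ξ ≤ (val i).Q ξ := by
    intro i ξ
    rcases hval i with h | h | ⟨k, h⟩
    · rw [h]; exact hCα ξ
    · rw [h]; exact (hAα ξ).trans (hRLow A hA R fR hR ξ)
    · rw [h]; exact (hAα ξ).trans (hRLow A hA (F k) (fF k) (hFR k) ξ)
  choose bb hbb0 hbb using fun i => (val i).exists_bound
  set β' : ℝ := ∑ i, bb i with hβ'
  have hhi : ∀ i ξ, (val i).Q ξ ≤ β' * nsq ξ := by
    intro i ξ
    have h1 : bb i ≤ β' := Finset.single_le_sum (f := bb) (fun i _ => (hbb0 i).le)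
      (Finset.mem_univ i)
    exact (le_abs_self _).trans ((hbb i ξ).trans (mul_le_mul_of_nonneg_right h1 (nsq_nonneg _)))
  have hfld : IsFld (fun x => val (idx x)) α β' :=
    hE.step_fld m idx val α β' hidx hper fun i ξ => ⟨hlo i ξ, hhi i ξ⟩
  have hfld0 : IsFld (fun x => val (idx x)) 0 β' := fld_lo_zero hα.le hfld
  obtain ⟨W, hW1, -⟩ := hEff _ β' hfld0
  have hPD : ∀ i, (val i).PD := fun i => ⟨α, hα, hlo i⟩
  -- volume fractions
  have hfex : ∀ i, ∃ g : ℝ, RzR A (val i) g ∧ |g - f| ≤ 1 + |f| ∧ (val i = C → g = f) := by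
    intro i
    have hbd : ∀ g : ℝ, 0 ≤ g → g ≤ 1 → |g - f| ≤ 1 + |f| := by
      intro g h0 h1
      calc |g - f| ≤ |g| + |f| := abs_sub _ _
        _ ≤ 1 + |f| := by
          rw [abs_of_nonneg h0]
          linarith
    by_cases h0 : val i = C
    · refine ⟨f, by rw [h0]; exact hRz, ?_, fun _ => rfl⟩
      rw [sub_self, abs_zero]
      positivity
    rcases hval i with h | h | ⟨k, h⟩
    · exact absurd h h0
    · exact ⟨fR, by rw [h]; exact hR, hbd _ hfR0 hfR1, fun h' => absurd h' h0⟩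
    · exact ⟨fF k, by rw [h]; exact hFR k, hbd _ (hfF0 k) (hfF1 k), fun h' => absurd h' h0⟩
  choose g hg1 hg2 hg3 using hfex
  have hKN : ∀ a b : ℝ, a ≤ b → a / N ≤ b / N := fun a b h => by gcongr
  refine ⟨W, ∑ i, frac {x | idx x = i} * g i, hHom A hA m idx hidx hper val g hPD hg1 W hW1,
    ⟨α, hα, fun ξ => ?_⟩, ?_, fun ε hε => ?_, fun ε => ?_⟩
  · rw [hW1]
    exact (hE.eff_bd _ α β' hα.le hfld ξ).1
  · have h1 := GadAux.frac_diff hidx g f (1 + |f|) (Finset.univ.filter (fun i => val i ≠ C))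
      (fun i hi => hg3 i (by simpa using hi)) hg2
    have h2 : frac {x | idx x ∈ Finset.univ.filter (fun i => val i ≠ C)} ≤ d * 2 ^ d / N := by
      refine (GadAux.frac_mono ?_).trans hvol
      intro x hx
      simp only [Finset.mem_filter, Finset.mem_univ, true_and, Set.mem_setOf_eq] at hx
      by_contra hcon
      have hγ : 0 < D.γ := by
        unfold RD.γ
        have : 0 ≤ ∑ i, ∑ j, |(D.A₀ i j : ℝ)| :=
          Finset.sum_nonneg fun i _ => Finset.sum_nonneg fun j _ => abs_nonneg _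
        positivity
      have htube : ∀ k, x ∉ D.tube k := by
        intro k hk
        apply hcon
        refine ⟨k, fun i hi => (hk i hi).trans_lt ?_⟩
        have h3 : D.hb < 1 := by unfold RD.hb; linarith
        have h4 : (0 : ℝ) < D.N := hN0
        exact div_lt_div_of_pos_right h3 h4
      apply hx
      refine hG.rest x ?_ ?_
      · rintro ⟨k, hk, -⟩
        exact htube k hk
      · rintro k ⟨hk, -⟩
        exact htube k hk
    calc |∑ i, frac {x | idx x = i} * g i - f| ≤ (1 + |f|) *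
          frac {x | idx x ∈ Finset.univ.filter (fun i => val i ≠ C)} := h1
      _ ≤ (1 + |f|) * (d * 2 ^ d / N) := mul_le_mul_of_nonneg_left h2 (by positivity)
      _ = K3 / N := by rw [hK3]; ring
      _ ≤ _ := hKN _ _ (by linarith)
  · rw [hW1]
    have h1 := hup D rfl R F _ β' hG hfld0
      (fun k ξ h => (hFβ k ξ h).trans (mul_le_mul_of_nonneg_right (hβb k) (nsq_nonneg _))) ε hε
    have h2 := mul_le_mul_of_nonneg_right (hKN K1 (K1 + K2 + K3) (by linarith)) (nsq_nonneg ε)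
    have h3 : K1 / (D.N : ℝ) = K1 / N := rfl
    rw [h3] at h1
    linarith
  · rw [hW1]
    have h1 := hlow' Mm β' hM0 R F _ hG hfld hRM (fun k ξ => hFM k ξ) ε
    have h2 := mul_le_mul_of_nonneg_right (hKN K2 (K1 + K2 + K3) (by linarith)) (nsq_nonneg ε)
    have h3 : K2 / (D.N : ℝ) = K2 / N := rfl
    rw [h3] at h1
    have h4 : Λ ≤ Mm / K' := by
      rw [le_div_iff₀ hK', hMm]
      linarith
    have h5 := mul_le_mul_of_nonneg_right h4 (sq_nonneg (ip D.A₀r (symm ε)))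
    have h6 : ip D.A₀r (symm ε) = ip (fun i j => (A₀ i j : ℝ)) (symm ε) := rfl
    rw [h6] at h1 h5
    linarith

theorem conv_id (T : Tens d) (ε s : M d) (θ : ℝ) :
    θ * T.Q (ε + (1 - θ) • s) + (1 - θ) * T.Q (ε - θ • s) = T.Q ε + θ * (1 - θ) * T.Q s := by
  rw [T.Q_add, T.Q_sub, T.Q_smul, T.Q_smul, ip_smul_right, ip_smul_right]
  ring

theorem sq_aux {x y τ : ℝ} (hτ : 0 < τ) : (1 - τ) * x ^ 2 - 1 / τ * y ^ 2 ≤ (x - y) ^ 2 := by
  have h1 : 0 ≤ (τ * x - y) ^ 2 / τ := by positivity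
  have h2 : (τ * x - y) ^ 2 / τ = τ * x ^ 2 - 2 * (x * y) + 1 / τ * y ^ 2 := by
    field_simp
    ring
  nlinarith [sq_nonneg y]

end StiffIAux

open StiffIAux in
/-- R6a -/
theorem StiffI_ok (d : ℕ) (hE : BaseE d) (hUp : StmtRUp d) (hLow : StmtRLow d)
    (hFld : StmtRFld d) (hQR : StmtQR d) (hFib : StmtFibR d) (hHom : StmtRRHom d)
    (hLim : StmtRRLim d) (hRLow : StmtRRLow d) (hLam : StmtLam d) (hVol : StmtLayVol d)
    (hGam : StmtGamT d) (hEff : StmtEff d) : StmtStiffI d := by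
  intro hd A C f hA hC hRz A₀ hsym hne lam hlam
  set E : M d := fun i j => (A₀ i j : ℝ) with hEdef
  have hEs : symm E = E := by
    ext i j
    simp only [symm, hEdef]
    rw [hsym j i]
    ring
  rcases hlam.eq_or_lt with h0 | hlam
  · -- `lam = 0`
    intro η hη
    obtain ⟨δ₀, hδ₀, h⟩ := hRz η hη
    refine ⟨δ₀, hδ₀, fun δ hδ hδ' => ?_⟩
    obtain ⟨T, f', h1, h2, h3⟩ := h δ hδ hδ'
    refine ⟨T, f', h1, h2, fun ε => ?_⟩
    rw [addSq_Q, ← h0, zero_mul, add_zero]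
    exact h3 ε
  obtain ⟨αC, hαC, hC1⟩ := hC
  have hC : C.PD := ⟨αC, hαC, hC1⟩
  set i0 : Fin d := ⟨0, by omega⟩ with hi0
  set kz : Fin d → ℤ := Pi.single i0 1 with hkz
  have hkz0 : kz ≠ 0 := by
    intro h
    have := congrFun h i0
    simp [hkz] at this
  set n : V d := zv kz with hn
  obtain ⟨-, -, g2, g3, g4, -⟩ := hGam C hC
  set k0 : ℝ := Gam C n E with hk0
  have hk00 : 0 ≤ k0 := (g2 n E).1
  -- Cauchy–Schwarz for the optimal constant
  have hcs : ∀ a : V d, (ip E (sd a n)) ^ 2 ≤ k0 * C.Q (sd a n) := by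
    intro a
    have key : ∀ t : ℝ, 0 ≤ C.Q (sd a n) * (t * t) + (-(2 * ip E (sd a n))) * t + k0 := by
      intro t
      have := g3 n E (t • a)
      rw [sd_smul_left, ip_smul_right, C.Q_smul] at this
      rw [← hk0] at this
      nlinarith
    have := discrim_le_zero key
    unfold discrim at this
    nlinarith
  obtain ⟨as, has⟩ := g4 n E
  rw [← hk0] at has
  have hps : ip E (sd as n) = k0 ∧ C.Q (sd as n) = k0 := by
    have h1 := hcs as
    have h2 : (ip E (sd as n) - C.Q (sd as n)) ^ 2 ≤ 0 := by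
      rw [← has] at h1
      linarith [h1]
    have h3 : ip E (sd as n) - C.Q (sd as n) = 0 := by
      have := sq_nonneg (ip E (sd as n) - C.Q (sd as n))
      exact pow_eq_zero_iff two_ne_zero |>.mp (le_antisymm h2 this)
    constructor <;> linarith
  have hnn : sd n n = eb i0 i0 := by
    ext i j
    rw [eb_apply]
    simp only [sd, hn, zv, hkz]
    by_cases h1 : i = i0
    · by_cases h2 : j = i0
      · subst h1; subst h2; simp
      · subst h1; simp [h2]
    · by_cases h2 : j = i0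
      · subst h2; simp [h1]
      · simp [h1, h2]
  have hk0p : 0 < k0 := by
    rcases hk00.eq_or_lt with h | h
    · exfalso
      have h1 := hcs n
      rw [← h, zero_mul, hnn, ip_eb] at h1
      have h2 : E i0 i0 = 0 := pow_eq_zero_iff two_ne_zero |>.mp (le_antisymm h1 (sq_nonneg _))
      have h3 : (A₀ i0 i0 : ℝ) = 0 := h2
      exact hne i0 i0 (by exact_mod_cast h3)
    · exact h
  set θ : ℝ := 1 / (1 + lam * k0) with hθ
  have hlk : 0 < lam * k0 := mul_pos hlam hk0p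
  have hθ0 : 0 < θ := by positivity
  have hθ1 : θ < 1 := by
    rw [hθ, div_lt_one (by linarith)]
    linarith
  have h1θ : 0 < 1 - θ := by linarith
  have hθlam : θ * (1 - θ) = lam * θ ^ 2 * k0 := by
    rw [hθ]
    field_simp
    ring
  obtain ⟨K, hK, hgad⟩ := gadR hd hE hUp hLow hFld hQR hFib hHom hRLow hEff A C f hA hC hRz A₀
    hsym hne
  set K3 : ℝ := nsq E with hK3
  have hK30 : 0 ≤ K3 := nsq_nonneg E
  have hEcs : ∀ ε : M d, (ip E ε) ^ 2 ≤ K3 * nsq ε := by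
    intro ε
    have := cs_symm E ε
    rwa [hEs] at this
  have hEsy : ∀ ε : M d, ip E (symm ε) = ip E ε := fun ε => ip_eq_symm _ _ hEs
  have hCPD : (addSq C E lam).PD := by
    refine ⟨αC, hαC, fun ξ => ?_⟩
    rw [addSq_Q]
    have h1 := hC1 ξ
    have h2 : 0 ≤ lam * (ip (symm E) ξ) ^ 2 := by positivity
    linarith
  refine hLim A hA _ f hCPD fun η hη => ?_
  -- the parameters
  set τ : ℝ := min 1 (η / (4 * (lam * K3 + 1))) with hτ
  have hτ0 : 0 < τ := lt_min one_pos (by positivity)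
  have hτ1 : τ ≤ 1 := min_le_left _ _
  have hτη : 2 * τ * lam * K3 ≤ η / 2 := by
    have h1 : τ * (4 * (lam * K3 + 1)) ≤ η := by
      have h2 : τ ≤ η / (4 * (lam * K3 + 1)) := min_le_right _ _
      rwa [le_div_iff₀ (by positivity)] at h2
    nlinarith
  set c1 : ℝ := 2 + 2 * K3 / (k0 * αC) with hc1
  have hc10 : 0 < c1 := by positivity
  set κ₀ : ℝ := min (η / c1) (min (η / 4) (τ * αC / 2)) with hκ₀
  have hκ₀0 : 0 < κ₀ := lt_min (by positivity) (lt_min (by positivity) (by positivity))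
  obtain ⟨N, hN⟩ := exists_nat_ge (K / κ₀)
  set N' : ℕ := N + 2 with hN'
  have hN'0 : (0 : ℝ) < N' := by positivity
  set κ : ℝ := K / N' with hκ
  have hκ0 : 0 ≤ κ := by positivity
  have hκκ : κ ≤ κ₀ := by
    rw [hκ, div_le_iff₀ hN'0]
    rw [div_le_iff₀ hκ₀0] at hN
    have h1 : (N : ℝ) ≤ N' := by rw [hN']; push_cast; linarith
    nlinarith
  have hκ1 : κ * c1 ≤ η := by
    have h1 : κ ≤ η / c1 := hκκ.trans (min_le_left _ _)
    rwa [le_div_iff₀ hc10] at h1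
  have hκ2 : κ ≤ η / 4 := hκκ.trans ((min_le_right _ _).trans (min_le_left _ _))
  have hκ3 : κ ≤ τ * αC / 2 := hκκ.trans ((min_le_right _ _).trans (min_le_right _ _))
  set Λ : ℝ := lam / (τ * (1 - θ)) with hΛ
  have hΛ0 : 0 ≤ Λ := by positivity
  have hΛ1 : (1 - θ) * Λ = lam / τ := by rw [hΛ]; field_simp
  obtain ⟨W₀, f₀, hR₀, hPD₀, hf₀, hup₀, hlow₀⟩ := hgad N' (by omega) Λ hΛ0
  obtain ⟨W, hRW, hWup, hWlow⟩ := lamTwoR hE hLam hVol hHom hEff A hA C W₀ hC hPD₀ f f₀ hRz hR₀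
    kz hkz0 θ hθ0 hθ1
  refine ⟨W, _, hRW, ?_, fun ε => ?_⟩
  · have h1 : θ * f + (1 - θ) * f₀ - f = (1 - θ) * (f₀ - f) := by ring
    rw [h1, abs_mul, abs_of_pos h1θ]
    have h2 : (1 - θ) * |f₀ - f| ≤ 1 * κ :=
      mul_le_mul (by linarith) hf₀ (abs_nonneg _) zero_le_one
    linarith
  rw [addSq_Q, hEs]
  set x : ℝ := ip E ε with hx
  have hns := nsq_nonneg ε
  have hxK := hEcs ε
  rw [← hx] at hxK
  rw [abs_le]
  constructor
  · -- lower bound
    have key : ∀ a : V d, C.Q ε + lam * x ^ 2 - η * nsq ε ≤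
        θ * C.Q (ε + (1 - θ) • sd a (zv kz)) + (1 - θ) * W₀.Q (ε - θ • sd a (zv kz)) := by
      intro a
      rw [← hn]
      set s : M d := sd a n with hs
      set p : ℝ := ip E s with hp
      set y : ℝ := x - θ * p with hy
      have h1 := hlow₀ (ε - θ • s)
      rw [hEsy, ip_sub_right, ip_smul_right, ← hx, ← hp, ← hy] at h1
      have h2 : nsq (ε - θ • s) ≤ 2 * nsq ε + 2 * (θ ^ 2 * nsq s) := by
        have := nsq_sub_le ε (θ • s)
        rwa [nsq_smul] at this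
      have h3 := hC1 s
      have h4 := conv_id C ε s θ
      have h5 : p ^ 2 ≤ k0 * C.Q s := hcs a
      have h6 : lam * (x - y) ^ 2 ≤ θ * (1 - θ) * C.Q s := by
        rw [hθlam]
        have h7 : x - y = θ * p := by rw [hy]; ring
        rw [h7]
        calc lam * (θ * p) ^ 2 = lam * θ ^ 2 * p ^ 2 := by ring
          _ ≤ lam * θ ^ 2 * (k0 * C.Q s) := by gcongr
          _ = _ := by ring
      have h8 := sq_aux (x := x) (y := y) hτ0
      have hCs : 0 ≤ C.Q s := hC.psd s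
      -- the error of the gadget
      have h9 : (1 - θ) * (κ * nsq (ε - θ • s)) ≤ 2 * κ * nsq ε + τ * (θ * (1 - θ) * C.Q s) := by
        have e1 : κ * nsq s ≤ τ / 2 * C.Q s := by
          calc κ * nsq s ≤ τ * αC / 2 * nsq s := mul_le_mul_of_nonneg_right hκ3 (nsq_nonneg _)
            _ = τ / 2 * (αC * nsq s) := by ring
            _ ≤ _ := mul_le_mul_of_nonneg_left h3 (by positivity)
        have e2 : (1 - θ) * (κ * nsq (ε - θ • s)) ≤
            (1 - θ) * (κ * (2 * nsq ε + 2 * (θ ^ 2 * nsq s))) := by gcongr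
        have e3 : (1 - θ) * (κ * (2 * nsq ε + 2 * (θ ^ 2 * nsq s))) =
            (1 - θ) * (2 * κ * nsq ε) + 2 * θ ^ 2 * (1 - θ) * (κ * nsq s) := by ring
        have e4 : 2 * θ ^ 2 * (1 - θ) * (κ * nsq s) ≤ 2 * θ ^ 2 * (1 - θ) * (τ / 2 * C.Q s) :=
          mul_le_mul_of_nonneg_left e1 (by positivity)
        have e5 : 2 * θ ^ 2 * (1 - θ) * (τ / 2 * C.Q s) = θ * (τ * (θ * (1 - θ) * C.Q s)) := by
          ring
        have e6 : θ * (τ * (θ * (1 - θ) * C.Q s)) ≤ 1 * (τ * (θ * (1 - θ) * C.Q s)) :=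
          mul_le_mul_of_nonneg_right hθ1.le (by positivity)
        have e7 : (1 - θ) * (2 * κ * nsq ε) ≤ 1 * (2 * κ * nsq ε) :=
          mul_le_mul_of_nonneg_right (by linarith) (by positivity)
        linarith
      have h10 : (1 - θ) * (C.Q (ε - θ • s) - κ * nsq (ε - θ • s) + Λ * y ^ 2) ≤
          (1 - θ) * W₀.Q (ε - θ • s) := mul_le_mul_of_nonneg_left h1 h1θ.le
      have h11 : (1 - θ) * (C.Q (ε - θ • s) - κ * nsq (ε - θ • s) + Λ * y ^ 2) =
          (1 - θ) * C.Q (ε - θ • s) - (1 - θ) * (κ * nsq (ε - θ • s)) + lam / τ * y ^ 2 := by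
        rw [← hΛ1]; ring
      have h12 : (1 - τ) * (lam * (x - y) ^ 2) ≤ (1 - τ) * (θ * (1 - θ) * C.Q s) :=
        mul_le_mul_of_nonneg_left h6 (by linarith)
      have h13 : (1 - τ) * (lam * ((1 - τ) * x ^ 2 - 1 / τ * y ^ 2)) ≤
          (1 - τ) * (lam * (x - y) ^ 2) := by
        have : 0 ≤ 1 - τ := by linarith
        gcongr
      have h14 : (1 - τ) * (lam * (1 / τ * y ^ 2)) ≤ lam / τ * y ^ 2 := by
        have e1 : lam / τ * y ^ 2 = 1 * (lam * (1 / τ * y ^ 2)) := by ring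
        rw [e1]
        exact mul_le_mul_of_nonneg_right (by linarith) (by positivity)
      have h15 : lam * x ^ 2 - 2 * τ * (lam * x ^ 2) ≤ (1 - τ) * (lam * ((1 - τ) * x ^ 2)) := by
        have e1 : (1 - τ) * (lam * ((1 - τ) * x ^ 2)) =
            lam * x ^ 2 - 2 * τ * (lam * x ^ 2) + τ ^ 2 * (lam * x ^ 2) := by ring
        have e2 : 0 ≤ τ ^ 2 * (lam * x ^ 2) := by positivity
        linarith
      have h16 : 2 * τ * (lam * x ^ 2) ≤ η / 2 * nsq ε := by
        calc 2 * τ * (lam * x ^ 2) ≤ 2 * τ * (lam * (K3 * nsq ε)) := by gcongr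
          _ = 2 * τ * lam * K3 * nsq ε := by ring
          _ ≤ _ := mul_le_mul_of_nonneg_right hτη hns
      have h17 : 2 * κ * nsq ε ≤ η / 2 * nsq ε :=
        mul_le_mul_of_nonneg_right (by linarith) hns
      have h18 : (1 - τ) * (lam * ((1 - τ) * x ^ 2 - 1 / τ * y ^ 2)) =
          (1 - τ) * (lam * ((1 - τ) * x ^ 2)) - (1 - τ) * (lam * (1 / τ * y ^ 2)) := by ring
      linarith
    have := hWlow ε _ key
    linarith
  · -- upper bound
    set t : ℝ := x / (θ * k0) with ht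
    have h1 := hWup ε (t • as)
    rw [← hn, sd_smul_left] at h1
    set s : M d := sd as n with hs
    obtain ⟨hp, hc⟩ := hps
    have h2 : ip E (symm (ε - θ • t • s)) = 0 := by
      rw [hEsy, ip_sub_right, ip_smul_right, ip_smul_right, hp, ← hx, ht]
      field_simp
      ring
    have h3 := hup₀ _ h2
    have h4 := conv_id C ε (t • s) θ
    have h5 : θ * (1 - θ) * C.Q (t • s) = lam * x ^ 2 := by
      rw [C.Q_smul, hc, hθlam, ht]
      field_simp
    have h6 : nsq (ε - θ • t • s) ≤ c1 * nsq ε := by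
      have e1 := nsq_sub_le ε (θ • t • s)
      rw [nsq_smul, nsq_smul] at e1
      have e2 : αC * nsq s ≤ k0 := by
        have := hC1 s
        rwa [hc] at this
      have e3 : θ ^ 2 * (t ^ 2 * nsq s) ≤ K3 / (k0 * αC) * nsq ε := by
        have e4 : θ ^ 2 * (t ^ 2 * nsq s) = x ^ 2 / k0 ^ 2 * nsq s := by
          rw [ht]; field_simp
        have e5 : nsq s ≤ k0 / αC := by
          rw [le_div_iff₀ hαC]; linarith
        rw [e4]
        calc x ^ 2 / k0 ^ 2 * nsq s ≤ x ^ 2 / k0 ^ 2 * (k0 / αC) :=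
              mul_le_mul_of_nonneg_left e5 (by positivity)
          _ = x ^ 2 * (1 / (k0 * αC)) := by field_simp
          _ ≤ (K3 * nsq ε) * (1 / (k0 * αC)) := mul_le_mul_of_nonneg_right hxK (by positivity)
          _ = _ := by ring
      have e6 : c1 * nsq ε = 2 * nsq ε + 2 * (K3 / (k0 * αC) * nsq ε) := by rw [hc1]; ring
      linarith
    have h7 : (1 - θ) * W₀.Q (ε - θ • t • s) ≤
        (1 - θ) * C.Q (ε - θ • t • s) + η * nsq ε := by
      have e1 : (1 - θ) * W₀.Q (ε - θ • t • s) ≤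
          (1 - θ) * (C.Q (ε - θ • t • s) + κ * nsq (ε - θ • t • s)) :=
        mul_le_mul_of_nonneg_left h3 h1θ.le
      have e2 : (1 - θ) * (κ * nsq (ε - θ • t • s)) ≤ 1 * (κ * (c1 * nsq ε)) :=
        mul_le_mul (by linarith) (mul_le_mul_of_nonneg_left h6 hκ0)
          (mul_nonneg hκ0 (nsq_nonneg _)) zero_le_one
      have e3 : κ * (c1 * nsq ε) ≤ η * nsq ε := by
        have := mul_le_mul_of_nonneg_right hκ1 hns
        linarith
      linarith
    linarith

end Pool.Agent.Lib.MP_5df1bf_an
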