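import Pool.Agent.Lib.MP_5df1bf_an.DenR

/-!
# MP_5df1bf_an, R12: sufficiency (rigid second phase)
-/

open MeasureTheory Filter Topology
open scoped BigOperators ContDiff

noncomputable section

namespace Pool.Agent.Lib.MP_5df1bf_an

variable {d : ℕ}

open SufAux DenRAux

namespace SufRAux

/-- comparison of inverses -/
theorem inv_anti (P₁ P₂ T₁ T₂ : Tens d) (hT : T₁.PSD) (h₁ : ∀ ξ, T₁.C (P₁.C ξ) = symm ξ)
    (h₂ : ∀ ξ, T₂.C (P₂.C ξ) = symm ξ) (c : ℝ) (hc : 0 < c) (h : ∀ ξ, T₁.Q ξ ≤ c * T₂.Q ξ) (q : M d) :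
    P₂.Q q ≤ c * P₁.Q q := by
  have h3 := fenchel P₁ T₁ hT h₁ q ((1 / c) • P₂.C q)
  have h4 := h ((1 / c) • P₂.C q)
  have h40 : T₂.Q ((1 / c) • P₂.C q) = (1 / c) ^ 2 * T₂.Q (P₂.C q) := Tens.Q_smul _ _ _
  rw [h40] at h4
  rw [symm_smul, ip_smul_right] at h3
  have h5 := fenchel_eq P₂ T₂ h₂ q
  have h6 : ip q (symm (P₂.C q)) = P₂.Q q := by
    rw [Tens.symm_C, ip_comm]; rfl
  rw [h6] at h3 h5
  have h7 : T₂.Q (P₂.C q) = P₂.Q q := by linarith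
  rw [h7] at h4
  have h8 : c * ((1 / c) ^ 2 * P₂.Q q) = P₂.Q q / c := by field_simp
  have h9 : 2 * (1 / c * P₂.Q q) = 2 * (P₂.Q q / c) := by ring
  have h10 : P₂.Q q / c ≤ P₁.Q q := by rw [h8] at h4; rw [h9] at h3; linarith
  rw [div_le_iff₀ hc] at h10
  linarith

end SufRAux

open SufRAux

theorem SufR_ok (d : ℕ) (hPh : StmtPhaseR d) (hDen : StmtDenR d) (hApp : StmtAppR d)
    (hHer : StmtHerR d) (hEx : StmtExactR d) (hInv : StmtInvT d) (hEff : StmtEff d) :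
    StmtSufR d := by
  intro hd A f hA hf0 hf1 S hS
  obtain ⟨β, hβ, hb⟩ := S.exists_bound
  obtain ⟨α, hα, hAα⟩ := hA
  have hA : A.PD := ⟨α, hα, hAα⟩
  obtain ⟨βA, hβA, hbA⟩ := A.exists_bound
  -- one approximation
  have step : ∀ n : ℕ, ∃ (δ : ℝ) (χ : Set (V d)) (C' P' : Tens d), 0 < δ ∧ δ ≤ 1 / ((n : ℝ) + 2) ∧
      Micro χ ∧ frac χ = f ∧ (∀ ε, C'.Q ε = eff (phaseR A δ χ) ε) ∧
      (∀ ξ, P'.C (C'.C ξ) = symm ξ ∧ C'.C (P'.C ξ) = symm ξ) ∧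
      ∀ ξ, |P'.Q ξ - S.Q ξ| ≤ (2 * β + 3) * (1 / ((n : ℝ) + 2)) * nsq ξ := by
    intro n
    set η : ℝ := 1 / ((n : ℝ) + 2) with hη
    have hn0 : (0 : ℝ) ≤ n := Nat.cast_nonneg n
    have hη0 : 0 < η := by positivity
    have hη1 : η ≤ 1 / 2 := by
      rw [hη]
      exact one_div_le_one_div_of_le (by norm_num) (by linarith)
    obtain ⟨S1, hS1pd, hS1A, hS1⟩ := hDen hd A f hA hf0 hf1 S hS η hη0
    obtain ⟨C, hCpd, -, -, hSC⟩ := hInv S1 hS1pd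
    obtain ⟨W, hWpd, hRW, hW⟩ := hApp hd A f hA hf0 hf1 S1 C hS1pd hS1A
      (fun ξ => ⟨(hSC ξ).2, (hSC ξ).1⟩) η hη0 (by linarith)
    have hc : 0 < 1 + η := by linarith
    obtain ⟨γ, hγ, hCγ⟩ := hCpd
    have hCpd : C.PD := ⟨γ, hγ, hCγ⟩
    set C2 : Tens d := C.scale (1 + η) with hC2
    have hC2pd : C2.PD := by
      refine ⟨(1 + η) * γ, mul_pos hc hγ, fun ξ => ?_⟩
      rw [hC2, Tens.scale_Q]
      have h2 := mul_le_mul_of_nonneg_left (hCγ ξ) hc.le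
      linarith
    have hR2 : RzR A C2 f := hHer hd A W C2 f hA hWpd hRW fun ξ => by
      rw [hC2, Tens.scale_Q]; exact hW ξ
    obtain ⟨δ₀, hδ₀, hδ⟩ := hEx hd A hA C2 f hC2pd hf0 hf1 hR2 (η * γ) (mul_pos hη0 hγ)
    set δ : ℝ := min (δ₀ / 2) η with hδd
    have hδ0 : 0 < δ := lt_min (by positivity) hη0
    have hδ1 : δ < δ₀ := (min_le_left _ _).trans_lt (by linarith)
    obtain ⟨χ, hχ, hfr, heff⟩ := hδ δ hδ0 hδ1
    have hfld := hPh A α βA hα (fun ξ => ⟨hAα ξ, (le_abs_self _).trans (hbA ξ)⟩) χ hχ δ hδ0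
      ((min_le_right _ _).trans (by linarith))
    have hfld0 : IsFld (phaseR A δ χ) 0 (δ⁻¹ * βA) :=
      ⟨hfld.meas, hfld.per, fun x B => by
        rw [zero_mul]
        exact le_trans (mul_nonneg hα.le (nsq_nonneg B)) (hfld.lo x B), hfld.hi⟩
    obtain ⟨C', hC', -⟩ := hEff _ _ hfld0
    -- `C'` is close to `C`
    have hlo : ∀ ξ, (1 - η) * C.Q ξ ≤ C'.Q ξ := by
      intro ξ
      have h1 := (abs_le.1 (heff ξ)).1
      rw [← hC', hC2, Tens.scale_Q] at h1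
      have h2 := mul_le_mul_of_nonneg_left (hCγ ξ) hη0.le
      have h3 : 0 ≤ C.Q ξ := hCpd.psd ξ
      have h4 : 0 ≤ η * C.Q ξ := mul_nonneg hη0.le h3
      have h5 : η * γ * nsq ξ = η * (γ * nsq ξ) := by ring
      rw [h5] at h1
      linarith
    have hhi : ∀ ξ, C'.Q ξ ≤ (1 + 2 * η) * C.Q ξ := by
      intro ξ
      have h1 := (abs_le.1 (heff ξ)).2
      rw [← hC', hC2, Tens.scale_Q] at h1
      have h2 := mul_le_mul_of_nonneg_left (hCγ ξ) hη0.le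
      have h5 : η * γ * nsq ξ = η * (γ * nsq ξ) := by ring
      rw [h5] at h1
      linarith
    have hC'pd : C'.PD := by
      refine ⟨(1 - η) * γ, mul_pos (by linarith) hγ, fun ξ => ?_⟩
      have h2 := mul_le_mul_of_nonneg_left (hCγ ξ) (by linarith : 0 ≤ 1 - η)
      have h3 := hlo ξ
      linarith
    obtain ⟨P', hP'pd, -, -, hP'⟩ := hInv C' hC'pd
    refine ⟨δ, χ, C', P', hδ0, min_le_right _ _, hχ, hfr, hC', hP', fun ξ => ?_⟩
    -- comparison of the compliances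
    have h1 : S1.Q ξ ≤ (1 + 2 * η) * P'.Q ξ :=
      inv_anti P' S1 C' C hC'pd.psd (fun ξ => (hP' ξ).2) (fun ξ => (hSC ξ).1) (1 + 2 * η)
        (by linarith) hhi ξ
    have h2 : P'.Q ξ ≤ 1 / (1 - η) * S1.Q ξ := by
      refine inv_anti S1 P' C C' hCpd.psd (fun ξ => (hSC ξ).1) (fun ξ => (hP' ξ).2) (1 / (1 - η))
        (by have : 0 < 1 - η := by linarith
            positivity) (fun ξ => ?_) ξ
      have h3 : 0 < 1 - η := by linarith
      rw [one_div, inv_mul_eq_div, le_div_iff₀ h3, mul_comm]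
      exact hlo ξ
    have hns := nsq_nonneg ξ
    have hS1n : 0 ≤ S1.Q ξ := hS1pd.psd ξ
    have hP'n : 0 ≤ P'.Q ξ := hP'pd.psd ξ
    have h3 := abs_le.1 (hS1 ξ)
    have h4 := abs_le.1 (hb ξ)
    have h5 : S1.Q ξ ≤ (β + 1) * nsq ξ := by nlinarith
    have h6 : 1 / (1 - η) ≤ 1 + 2 * η := by
      rw [div_le_iff₀ (by linarith)]
      nlinarith
    have h7 : P'.Q ξ ≤ (1 + 2 * η) * S1.Q ξ := h2.trans (mul_le_mul_of_nonneg_right h6 hS1n)
    have h8 : (1 - 2 * η) * S1.Q ξ ≤ P'.Q ξ := by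
      have h9 := mul_le_mul_of_nonneg_left h1 (by linarith : 0 ≤ 1 - 2 * η)
      have h10 : (1 - 2 * η) * ((1 + 2 * η) * P'.Q ξ) = P'.Q ξ - 4 * η ^ 2 * P'.Q ξ := by ring
      have h11 : 0 ≤ 4 * η ^ 2 * P'.Q ξ := by positivity
      linarith
    have h9 : η * S1.Q ξ ≤ η * ((β + 1) * nsq ξ) := mul_le_mul_of_nonneg_left h5 hη0.le
    have h10 : (2 * β + 3) * η * nsq ξ = 2 * (η * ((β + 1) * nsq ξ)) + η * nsq ξ := by ring
    rw [abs_le, h10]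
    constructor <;> nlinarith
  choose δ χ Cs Ps h1 h2 h3 h4 h5 h6 h7 using step
  have hlim0 : Tendsto (fun n : ℕ => 1 / ((n : ℝ) + 1)) atTop (𝓝 0) :=
    tendsto_one_div_add_atTop_nhds_zero_nat
  have hlim : Tendsto (fun n : ℕ => 1 / ((n : ℝ) + 2)) atTop (𝓝 0) := by
    refine squeeze_zero (fun n => by positivity) (fun n => ?_) hlim0
    exact one_div_le_one_div_of_le (by positivity) (by linarith)
  refine ⟨δ, χ, Cs, Ps, fun n => ⟨h1 n, (h2 n).trans_lt ?_⟩, ?_, fun n => ⟨h3 n, h4 n⟩, h5, h6, ?_⟩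
  · rw [div_lt_one (by positivity)]
    have : (0 : ℝ) ≤ n := Nat.cast_nonneg n
    linarith
  · exact squeeze_zero (fun n => (h1 n).le) h2 hlim
  · refine tens_tendsto Ps S fun ξ => ?_
    rw [tendsto_iff_norm_sub_tendsto_zero]
    refine squeeze_zero (fun n => norm_nonneg _) (fun n => (Real.norm_eq_abs _).le.trans (h7 n ξ)) ?_
    have := (hlim.const_mul (2 * β + 3)).mul_const (nsq ξ)
    simpa using this

end Pool.Agent.Lib.MP_5df1bf_an
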