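import Pool.Agent.Lib.MP_5df1bf_an.Asm1
import Pool.Agent.Lib.MP_5df1bf_an.FinalR
import Pool.Agent.Lib.MP_5df1bf_an.GdHom
import Pool.Agent.Lib.MP_5df1bf_an.RRCal
import Pool.Agent.Lib.MP_5df1bf_an.SeqD
import Pool.Agent.Lib.MP_5df1bf_an.SeqRig
import Pool.Agent.Lib.MP_5df1bf_an.FibR
import Pool.Agent.Lib.MP_5df1bf_an.RFld
import Pool.Agent.Lib.MP_5df1bf_an.RDisp
import Pool.Agent.Lib.MP_5df1bf_an.RUp
import Pool.Agent.Lib.MP_5df1bf_an.RLow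
import Pool.Agent.Lib.MP_5df1bf_an.StiffI
import Pool.Agent.Lib.MP_5df1bf_an.StiffHer
import Pool.Agent.Lib.MP_5df1bf_an.HSRb
import Pool.Agent.Lib.MP_5df1bf_an.NecR
import Pool.Agent.Lib.MP_5df1bf_an.DenR
import Pool.Agent.Lib.MP_5df1bf_an.ExactR
import Pool.Agent.Lib.MP_5df1bf_an.SufR

/-!
# MP_5df1bf_an: assembly of Q2
-/

noncomputable section

namespace Pool.Agent.Lib.MP_5df1bf_an

variable {d : ℕ}

theorem sPhaseR (d : ℕ) : StmtPhaseR d := PhaseR_ok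
theorem sGdBase (d : ℕ) : StmtGdBase d := GdBase_ok (sE d)
theorem sGdHom (d : ℕ) : StmtGdHom d :=
  GdHom_ok (sE d) (sTSup d) (sTSlo d) (sEff d) (sMono d) (sAvg d)
theorem sRRBase (d : ℕ) : StmtRRBase d := RRBase_ok (sGdBase d)
theorem sRRHom (d : ℕ) : StmtRRHom d := RRHom_ok (sE d) (sGdHom d) (sEff d) (sMono d)
theorem sRRLim (d : ℕ) : StmtRRLim d := RRLim_ok
theorem sRRLow (d : ℕ) : StmtRRLow d := RRLow_ok (sE d) (sMono d)
theorem sSeqD (d : ℕ) : StmtSeqD d :=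
  SeqD_ok d (sE d) (sLam d) (sLayVol d) (sGdHom d) (sGdBase d) (sEff d) (sInvT d) (sGamT d)
theorem sSeqRig (d : ℕ) : StmtSeqRig d := seqRig (sSeqD d) (sInvT d) (sGamT d)
theorem sQR (d : ℕ) : StmtQR d := qR (sSeqRig d) (sInvT d) (sGamT d)
theorem sFibR (d : ℕ) : StmtFibR d :=
  fibR_ok d (sE d) (sQR d) (sLam d) (sLayVol d) (sRRHom d) (sRRBase d) (sEff d)
theorem sRFld (d : ℕ) : StmtRFld d := rfld_ok
theorem sSkew (d : ℕ) : StmtSkew d := skew_ok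
theorem sRDisp (d : ℕ) : StmtRDisp d := rdisp_ok
theorem sRUp (d : ℕ) : StmtRUp d := RUp_ok d (sE d) (sRDisp d) (sSkew d) (sRFld d)
theorem sHSR (d : ℕ) : StmtHSR d :=
  HSR_ok d (sE d) (sPars d) (sInvT d) (sGamT d) (sTrunc d) (sParts d)
theorem sNecR (d : ℕ) : StmtNecR d := NecR_ok d (sHSR d) (sHull d) (sInvT d)
theorem sDenR (d : ℕ) : StmtDenR d := DenR_ok d (sSeqRig d) (sQR d) (sInvT d)
theorem sAppR (d : ℕ) : StmtAppR d := AppR_ok d (sSeqRig d) (sInvT d) (sGamT d)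
theorem sExactR (d : ℕ) : StmtExactR d :=
  ExactR_ok d (sPhaseR d) (sTSup d) (sTSlo d) (sAvg d) (sSeqRig d) (sQR d) (sLam d) (sLayVol d)
    (sMono d) (sEff d) (sE d)

theorem sSufR' (hS : StmtRStiff d) : StmtSufR d := by
  have hLow : StmtRLow d := RLow_ok d (sE d) hS (sRFld d)
  have hI : StmtStiffI d := StiffI_ok d (sE d) (sRUp d) hLow (sRFld d) (sQR d) (sFibR d) (sRRHom d)
    (sRRLim d) (sRRLow d) (sLam d) (sLayVol d) (sGamT d) (sEff d)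
  have hHer : StmtHerR d := HerR_ok d (Stiff_ok d hI (sRRLim d))
  exact SufR_ok d (sPhaseR d) (sDenR d) (sAppR d) hHer (sExactR d) (sInvT d) (sEff d)

end Pool.Agent.Lib.MP_5df1bf_an
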