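import Pool.Agent.Lib.MP_5df1bf_an.Stmts4
import Pool.Agent.Lib.MP_5df1bf_an.BaseE
import Pool.Agent.Lib.MP_5df1bf_an.PerA

/-!
# MP_5df1bf_an, Q2: R5e, stiffness of the gadget
-/

open MeasureTheory Filter Topology
open scoped BigOperators ContDiff

noncomputable section

namespace Pool.Agent.Lib.MP_5df1bf_an

variable {d : ℕ}

namespace RStiffAux

theorem tbox (lo hi y : V d) (f : V d → ℝ) :
    ∫ x in Set.Icc lo hi, f (x + y) = ∫ x in Set.Icc (lo + y) (hi + y), f x := by
  have mp := measurePreserving_add_right (volume : Measure (V d)) y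
  have h2 := mp.setIntegral_preimage_emb (MeasurableEquiv.addRight y).measurableEmbedding f
    (Set.Icc (lo + y) (hi + y))
  rw [← h2]
  congr 2
  ext x
  simp only [Set.mem_preimage, Set.mem_Icc]
  constructor
  · rintro ⟨a, b⟩
    refine ⟨fun i => ?_, fun i => ?_⟩
    · have := a i
      simp only [Pi.add_apply]
      linarith
    · have := b i
      simp only [Pi.add_apply]
      linarith
  · rintro ⟨a, b⟩
    refine ⟨fun i => ?_, fun i => ?_⟩
    · have := a i
      simp only [Pi.add_apply] at this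
      linarith
    · have := b i
      simp only [Pi.add_apply] at this
      linarith

theorem box_cell (y : V d) (f : V d → ℝ) (hf : Per f) :
    ∫ x in Set.Icc y (y + 1), f x = ∫ x in cell d, f x := by
  rw [← Shift_ok d f hf y]
  have h := tbox 0 1 y f
  rw [zero_add, add_comm 1 y] at h
  exact h.symm

theorem dot_cs (a b : V d) : (dot a b) ^ 2 ≤ dot a a * dot b b := by
  unfold dot
  have := Finset.sum_mul_sq_le_sq_mul_sq Finset.univ a b
  simpa only [sq] using this

theorem continuous_dotl (q : V d) : Continuous fun x : V d => dot q x := by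
  unfold dot
  exact continuous_finsetSum _ fun j _ => continuous_const.mul (continuous_apply j)

theorem vol_box {lo hi : V d} (h : ∀ i, lo i < hi i) :
    0 < (volume (Set.Icc lo hi)).toReal := by
  rw [Real.volume_Icc_pi_toReal (fun i => (h i).le)]
  exact Finset.prod_pos fun i _ => sub_pos.2 (h i)

theorem intC {f : V d → ℝ} (hf : Continuous f) (lo hi : V d) : IntegrableOn f (Set.Icc lo hi) :=
  hf.continuousOn.integrableOn_compact isCompact_Icc

theorem int_const_box (lo hi : V d) (c : ℝ) :
    ∫ _x in Set.Icc lo hi, c = (volume (Set.Icc lo hi)).toReal * c := by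
  rw [setIntegral_const, smul_eq_mul, measureReal_def]

theorem int_lin2 {f g : V d → ℝ} (hf : Continuous f) (hg : Continuous g) (a b : ℝ) (lo hi : V d) :
    ∫ x in Set.Icc lo hi, (a * f x + b * g x) =
      a * (∫ x in Set.Icc lo hi, f x) + b * ∫ x in Set.Icc lo hi, g x := by
  have h1 : IntegrableOn (fun x => a * f x) (Set.Icc lo hi) := intC (continuous_const.mul hf) _ _
  have h2 : IntegrableOn (fun x => b * g x) (Set.Icc lo hi) := intC (continuous_const.mul hg) _ _
  rw [integral_add h1 h2, integral_const_mul, integral_const_mul]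

theorem int_lin3 {f g h : V d → ℝ} (hf : Continuous f) (hg : Continuous g) (hh : Continuous h)
    (a b c : ℝ) (lo hi : V d) :
    ∫ x in Set.Icc lo hi, (a * f x + b * g x + c * h x) =
      a * (∫ x in Set.Icc lo hi, f x) + b * (∫ x in Set.Icc lo hi, g x) +
        c * ∫ x in Set.Icc lo hi, h x := by
  have h1 : IntegrableOn (fun x => a * f x + b * g x) (Set.Icc lo hi) :=
    intC ((continuous_const.mul hf).add (continuous_const.mul hg)) _ _
  have h2 : IntegrableOn (fun x => c * h x) (Set.Icc lo hi) := intC (continuous_const.mul hh) _ _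
  rw [integral_add h1 h2, int_lin2 hf hg, integral_const_mul]

theorem int_linc {f : V d → ℝ} (hf : Continuous f) (a b : ℝ) (lo hi : V d) :
    ∫ x in Set.Icc lo hi, (a * f x + b) =
      a * (∫ x in Set.Icc lo hi, f x) + (volume (Set.Icc lo hi)).toReal * b := by
  have h1 : IntegrableOn (fun x => a * f x) (Set.Icc lo hi) := intC (continuous_const.mul hf) _ _
  have h2 : IntegrableOn (fun _ : V d => b) (Set.Icc lo hi) := intC continuous_const _ _
  rw [integral_add h1 h2, integral_const_mul, int_const_box]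

/-- affine functions on boxes -/
theorem aff (lo hi : V d) (h : ∀ i, lo i < hi i) : ∃ K : ℝ, 0 ≤ K ∧ ∀ (p : ℝ) (q : V d),
    p ^ 2 ≤ K * ∫ x in Set.Icc lo hi, (p + dot q x) ^ 2 ∧
      ∀ j, q j ^ 2 ≤ K * ∫ x in Set.Icc lo hi, (p + dot q x) ^ 2 := by
  set vol := (volume (Set.Icc lo hi)).toReal with hvol
  have hvol0 : 0 < vol := vol_box h
  set hh : Fin d → V d := fun j => Function.update hi j ((lo j + hi j) / 2) with hhh
  have hlt : ∀ j i, lo i < hh j i := by
    intro j i
    simp only [hhh]
    by_cases hij : i = j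
    · subst hij
      rw [Function.update_self]
      linarith [h i]
    · rw [Function.update_of_ne hij]
      exact h i
  set vj : Fin d → ℝ := fun j => (volume (Set.Icc lo (hh j))).toReal with hvj
  have hvj0 : ∀ j, 0 < vj j := fun j => vol_box (hlt j)
  set m : Fin d → ℝ := fun j => (hi j - lo j) / 2 with hm
  have hm0 : ∀ j, 0 < m j := fun j => by simp only [hm]; linarith [h j]
  set S : ℝ := ∑ j, 4 / (m j ^ 2 * vj j) with hS
  have hS0 : 0 ≤ S := Finset.sum_nonneg fun j _ => by
    have := hvj0 j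
    have := hm0 j
    positivity
  set R : ℝ := ∑ j, (|lo j| + |hi j|) ^ 2 with hR
  have hR0 : 0 ≤ R := Finset.sum_nonneg fun j _ => sq_nonneg _
  refine ⟨S + (2 / vol + 2 * R * S), by positivity, ?_⟩
  intro p q
  set f : V d → ℝ := fun x => (p + dot q x) ^ 2 with hf
  have hfc : Continuous f := (continuous_const.add (continuous_dotl q)).pow 2
  have hf0 : ∀ x, 0 ≤ f x := fun x => sq_nonneg _
  set I := ∫ x in Set.Icc lo hi, f x with hI
  have hI0 : 0 ≤ I := integral_nonneg hf0
  have hq : ∀ j, q j ^ 2 ≤ 4 / (m j ^ 2 * vj j) * I := by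
    intro j
    set e : V d := Pi.single j (m j) with he
    have h1 : ∀ x, (q j * m j) ^ 2 ≤ 2 * f (x + e) + 2 * f x := by
      intro x
      have h2 : dot q (x + e) = dot q x + q j * m j := by
        rw [dot_add_right]
        congr 1
        unfold dot
        rw [Finset.sum_eq_single j]
        · rw [he, Pi.single_eq_same]
        · intro b _ hb
          rw [he, Pi.single_eq_of_ne hb, mul_zero]
        · intro hh
          exact absurd (Finset.mem_univ _) hh
      simp only [hf]
      rw [h2]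
      nlinarith [sq_nonneg ((p + (dot q x + q j * m j)) + (p + dot q x))]
    have hce : Continuous fun x => f (x + e) := hfc.comp (continuous_id.add continuous_const)
    have h3 : ∫ _x in Set.Icc lo (hh j), (q j * m j) ^ 2 ≤
        ∫ x in Set.Icc lo (hh j), (2 * f (x + e) + 2 * f x) := by
      refine setIntegral_mono_on (intC continuous_const _ _) (intC ?_ _ _) measurableSet_Icc
        fun x _ => h1 x
      exact (continuous_const.mul hce).add (continuous_const.mul hfc)
    have h4 : ∫ x in Set.Icc lo (hh j), (2 * f (x + e) + 2 * f x) =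
        2 * (∫ x in Set.Icc lo (hh j), f (x + e)) + 2 * ∫ x in Set.Icc lo (hh j), f x := by
      exact int_lin2 hce hfc _ _ _ _
    have h5 : ∫ x in Set.Icc lo (hh j), f (x + e) ≤ I := by
      rw [tbox]
      refine setIntegral_mono_set (intC hfc _ _) (ae_of_all _ hf0) (LE.le.eventuallyLE ?_)
      apply Set.Icc_subset_Icc
      · intro i
        simp only [Pi.add_apply, he]
        by_cases hij : i = j
        · subst hij
          rw [Pi.single_eq_same]
          linarith [hm0 i]
        · rw [Pi.single_eq_of_ne hij]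
          linarith
      · intro i
        simp only [Pi.add_apply, he, hhh]
        by_cases hij : i = j
        · subst hij
          rw [Pi.single_eq_same, Function.update_self]
          simp only [hm]
          linarith
        · rw [Pi.single_eq_of_ne hij, Function.update_of_ne hij]
          linarith
    have h6 : ∫ x in Set.Icc lo (hh j), f x ≤ I := by
      refine setIntegral_mono_set (intC hfc _ _) (ae_of_all _ hf0) (LE.le.eventuallyLE ?_)
      apply Set.Icc_subset_Icc le_rfl
      intro i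
      simp only [hhh]
      by_cases hij : i = j
      · subst hij
        rw [Function.update_self]
        linarith [h i]
      · rw [Function.update_of_ne hij]
    rw [int_const_box, h4] at h3
    have h7 : vj j * (q j * m j) ^ 2 ≤ 4 * I := by
      have : (volume (Set.Icc lo (hh j))).toReal = vj j := rfl
      rw [this] at h3
      linarith
    have hv := hvj0 j
    have hmj := hm0 j
    have h8 : q j ^ 2 = vj j * (q j * m j) ^ 2 / (m j ^ 2 * vj j) := by
      field_simp
    rw [h8, div_mul_eq_mul_div]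
    exact div_le_div_of_nonneg_right h7 (by positivity)
  have hsum : dot q q ≤ S * I := by
    unfold dot
    rw [hS, Finset.sum_mul]
    refine Finset.sum_le_sum fun j _ => ?_
    have := hq j
    rwa [sq] at this
  have hp : p ^ 2 ≤ (2 / vol + 2 * R * S) * I := by
    have h1 : ∀ x ∈ Set.Icc lo hi, p ^ 2 ≤ 2 * f x + 2 * (dot q q * R) := by
      intro x hx
      have h2 : (dot q x) ^ 2 ≤ dot q q * R := by
        refine (dot_cs q x).trans (mul_le_mul_of_nonneg_left ?_ (dot_self_nonneg q))
        unfold dot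
        rw [hR]
        refine Finset.sum_le_sum fun j _ => ?_
        have a1 := hx.1 j
        have a2 := hx.2 j
        have a3 : |x j| ≤ |lo j| + |hi j| := by
          rw [abs_le]
          constructor
          · linarith [neg_abs_le (lo j), abs_nonneg (hi j)]
          · linarith [le_abs_self (hi j), abs_nonneg (lo j)]
        have a4 : x j * x j = |x j| ^ 2 := by rw [sq_abs, sq]
        rw [a4]
        exact pow_le_pow_left₀ (abs_nonneg _) a3 2
      simp only [hf]
      nlinarith [sq_nonneg (p + 2 * dot q x), sq_nonneg (p + dot q x + dot q x)]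
    have h3 : ∫ _x in Set.Icc lo hi, p ^ 2 ≤
        ∫ x in Set.Icc lo hi, (2 * f x + 2 * (dot q q * R)) := by
      refine setIntegral_mono_on (intC continuous_const _ _) (intC ?_ _ _) measurableSet_Icc h1
      exact (continuous_const.mul hfc).add continuous_const
    rw [int_const_box, int_linc hfc] at h3
    have h4 : vol * p ^ 2 ≤ 2 * I + vol * (2 * (dot q q * R)) := h3
    have h5 : dot q q * R ≤ S * I * R := mul_le_mul_of_nonneg_right hsum hR0
    have h6 : p ^ 2 = vol * p ^ 2 / vol := by field_simp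
    have h7 : (2 / vol + 2 * R * S) * I = (2 * I + vol * (2 * (S * I * R))) / vol := by
      field_simp
    rw [h6, h7]
    refine div_le_div_of_nonneg_right (h4.trans ?_) hvol0.le
    nlinarith [mul_le_mul_of_nonneg_left h5 hvol0.le]
  constructor
  · refine hp.trans (mul_le_mul_of_nonneg_right ?_ hI0)
    linarith
  · intro j
    refine (hq j).trans (mul_le_mul_of_nonneg_right ?_ hI0)
    have h1 : 4 / (m j ^ 2 * vj j) ≤ S := by
      rw [hS]
      refine Finset.single_le_sum (f := fun j => 4 / (m j ^ 2 * vj j)) (fun i _ => ?_)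
        (Finset.mem_univ j)
      have := hvj0 i
      have := hm0 i
      positivity
    have h2 : 0 ≤ 2 / vol + 2 * R * S := by positivity
    linarith

/-! ### the displacement -/

/-- matrices as linear maps -/
def mL (A : M d) : V d →ₗ[ℝ] V d where
  toFun := mulV A
  map_add' x y := by
    funext i
    simp only [mulV, Pi.add_apply, mul_add, Finset.sum_add_distrib]
  map_smul' c x := by
    funext i
    simp only [mulV, Pi.smul_apply, smul_eq_mul, RingHom.id_apply, Finset.mul_sum]
    refine Finset.sum_congr rfl fun j _ => ?_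
    ring

theorem mulV_add (A : M d) (x y : V d) : mulV A (x + y) = mulV A x + mulV A y := (mL A).map_add x y

theorem contDiff_mulV (A : M d) : ContDiff ℝ ∞ (mulV A) :=
  (LinearMap.toContinuousLinearMap (mL A)).contDiff

theorem mulV_single (A : M d) (j i : Fin d) : mulV A (Pi.single j 1) i = A i j := by
  unfold mulV
  rw [Finset.sum_eq_single j]
  · simp
  · intro b _ hb
    simp [Pi.single_eq_of_ne hb]
  · intro h
    exact absurd (Finset.mem_univ _) h

theorem contDiff_vv (ε : M d) (u : Disp d) : ContDiff ℝ ∞ (vv ε u) :=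
  (contDiff_mulV (symm ε)).add u.smooth

theorem grad_vv (ε : M d) (u : Disp d) (x : V d) : grad (vv ε u) x = symm ε + grad u.u x := by
  have h1 : HasFDerivAt (vv ε u)
      ((LinearMap.toContinuousLinearMap (mL (symm ε))) + fderiv ℝ u.u x) x :=
    ((LinearMap.toContinuousLinearMap (mL (symm ε))).hasFDerivAt).add (disp_diff u x).hasFDerivAt
  funext i j
  unfold grad
  rw [h1.fderiv]
  show mulV (symm ε) (Pi.single j 1) i + fderiv ℝ u.u x (Pi.single j 1) i = _
  rw [mulV_single]
  rfl

theorem symm_grad_vv (ε : M d) (u : Disp d) (x : V d) :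
    symm (grad (vv ε u) x) = symm (ε + sg u.u x) := by
  rw [grad_vv, symm_add, symm_add, symm_symm]
  unfold sg
  rw [symm_symm]

theorem nsq_grad_vv (ε : M d) (u : Disp d) (x : V d) :
    nsq (grad (vv ε u) x) = nsq (ε + sg u.u x) := by
  unfold nsq
  rw [symm_grad_vv]

theorem ip_grad_vv (ε : M d) (u : Disp d) (x : V d) (z : V d) :
    ip (oo z) (grad (vv ε u) x) = ip (oo z) (ε + sg u.u x) := by
  rw [← ip_oo_symm, symm_grad_vv, ip_oo_symm]

theorem ip_oo_smul (c : ℝ) (z : V d) (A : M d) : ip (oo (c • z)) A = c ^ 2 * ip (oo z) A := by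
  rw [ip_oo, ip_oo, dot_smul_left]
  have : mulV A (c • z) = c • mulV A z := (mL A).map_smul c z
  rw [this, dot_smul_right]
  ring

theorem symm_oo (z : V d) : symm (oo z) = oo z := by
  funext i j
  unfold symm oo
  ring

theorem ip_oo_sq_le (z : V d) (A : M d) : (ip (oo z) A) ^ 2 ≤ nsq (oo z) * nsq A := by
  have := cs_symm (oo z) A
  rwa [symm_oo] at this

theorem pd_le (t : ℝ) (n : ℤ) : pd t ≤ |t - n| := round_le t n

/-- transpose applied to a vector -/
def mulT (A : M d) (z : V d) : V d := fun j => ∑ i, z i * A i j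

theorem dot_mulV (A : M d) (z x : V d) : dot z (mulV A x) = dot (mulT A z) x := by
  unfold dot mulV mulT
  simp only [Finset.mul_sum, Finset.sum_mul]
  rw [Finset.sum_comm]
  refine Finset.sum_congr rfl fun j _ => Finset.sum_congr rfl fun i _ => ?_
  ring

theorem dot_skew (A : M d) (hA : ∀ i j, A i j = - A j i) (z : V d) : dot z (mulV A z) = 0 := by
  have h1 : dot z (mulV A z) = ∑ i, ∑ j, z i * A i j * z j := by
    unfold dot mulV
    refine Finset.sum_congr rfl fun i _ => ?_
    rw [Finset.mul_sum]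
    refine Finset.sum_congr rfl fun j _ => ?_
    ring
  have h2 : ∑ i, ∑ j, z i * A i j * z j = - ∑ i, ∑ j, z i * A i j * z j := by
    conv_lhs => rw [Finset.sum_comm]
    rw [← Finset.sum_neg_distrib]
    refine Finset.sum_congr rfl fun i _ => ?_
    rw [← Finset.sum_neg_distrib]
    refine Finset.sum_congr rfl fun j _ => ?_
    rw [hA j i]
    ring
  rw [h1]
  linarith

theorem comp_sq_le (r : V d) (j : Fin d) : (r j) ^ 2 ≤ dot r r := by
  unfold dot
  rw [sq]
  exact Finset.single_le_sum (f := fun i => r i * r i) (fun i _ => mul_self_nonneg _)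
    (Finset.mem_univ j)

/-! ### the boxes -/

variable (D : RD d)

/-- centre coordinate -/
def ce (k : Fin d) (i : ℕ) (l : Fin d) : ℝ := if l = k then (i : ℝ) / D.N else 0

/-- rigid cubes -/
def loB (k : Fin d) (i : ℕ) : V d := fun l => ce D k i l - D.hb / D.N
/-- rigid cubes -/
def hiB (k : Fin d) (i : ℕ) : V d := fun l => ce D k i l + D.hb / D.N
/-- feet of the bars -/
def loX (k : Fin d) (i : ℕ) : V d :=
  fun l => ce D k i l + if l = k then (D.hb - D.γ) / D.N else -(1 / (8 * D.N))
/-- feet of the bars -/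
def hiX (k : Fin d) (i : ℕ) : V d :=
  fun l => ce D k i l + if l = k then D.hb / D.N else 1 / (8 * D.N)
/-- factor of the bars -/
def tau (k : Fin d) : ℝ := 2 * D.γ / (D.N * D.A₀ k k)
/-- bars -/
def zz (k : Fin d) : V d := tau D k • zv (D.z k)

theorem N_pos : (0 : ℝ) < D.N := by
  have := D.Npos
  exact_mod_cast (by omega : 0 < D.N)

theorem abs_A_ge (i j : Fin d) : (1 : ℝ) ≤ |(D.A₀ i j : ℝ)| := by
  have h := D.ne i j
  have h1 : 1 ≤ |D.A₀ i j| := Int.one_le_abs h
  exact_mod_cast h1

theorem abs_A_le (i j : Fin d) : |(D.A₀ i j : ℝ)| ≤ ∑ i, ∑ j, |(D.A₀ i j : ℝ)| := by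
  refine (Finset.single_le_sum (f := fun j => |(D.A₀ i j : ℝ)|) (fun _ _ => abs_nonneg _)
    (Finset.mem_univ j)).trans ?_
  exact Finset.single_le_sum (f := fun i => ∑ j, |(D.A₀ i j : ℝ)|)
    (fun _ _ => Finset.sum_nonneg fun _ _ => abs_nonneg _) (Finset.mem_univ i)

theorem gam_pos : 0 < D.γ := by
  unfold RD.γ
  have : 0 ≤ ∑ i, ∑ j, |(D.A₀ i j : ℝ)| :=
    Finset.sum_nonneg fun _ _ => Finset.sum_nonneg fun _ _ => abs_nonneg _
  positivity

theorem gam_A (i j : Fin d) : D.γ * |(D.A₀ i j : ℝ)| ≤ 1 / 8 := by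
  have h1 := abs_A_le D i j
  unfold RD.γ
  set S := ∑ i, ∑ j, |(D.A₀ i j : ℝ)| with hS
  have h0 : 0 ≤ S := (abs_nonneg _).trans h1
  rw [div_mul_eq_mul_div, one_mul, div_le_div_iff₀ (by positivity) (by norm_num)]
  linarith

theorem gam_le (k : Fin d) : D.γ ≤ 1 / 16 := by
  have h1 := (abs_A_ge D k k).trans (abs_A_le D k k)
  unfold RD.γ
  rw [div_le_div_iff₀ (by positivity) (by norm_num)]
  linarith

theorem gam_hb : D.γ = 1 - 2 * D.hb := by
  unfold RD.hb
  ring

theorem tau_ne (k : Fin d) : tau D k ≠ 0 := by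
  unfold tau
  have h1 := gam_pos D
  have h2 := N_pos D
  have h3 : (D.A₀ k k : ℝ) ≠ 0 := by exact_mod_cast D.ne k k
  have h4 := mul_ne_zero h2.ne' h3
  exact div_ne_zero (by positivity) h4

theorem zz_k (k : Fin d) : zz D k k = 2 * D.γ / D.N := by
  unfold zz tau
  simp only [Pi.smul_apply, smul_eq_mul, zv, RD.z]
  have h2 := N_pos D
  have h3 : (D.A₀ k k : ℝ) ≠ 0 := by exact_mod_cast D.ne k k
  field_simp

theorem zz_l (k l : Fin d) : |zz D k l| ≤ 1 / (4 * D.N) := by
  unfold zz tau
  simp only [Pi.smul_apply, smul_eq_mul, zv, RD.z]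
  have h2 := N_pos D
  have h3 := abs_A_ge D k k
  have h4 := gam_A D l k
  have h5 := gam_pos D
  rw [abs_mul, abs_div, abs_mul, abs_mul, abs_of_pos h5, abs_of_pos (show (0 : ℝ) < 2 by norm_num),
    abs_of_pos h2, div_mul_eq_mul_div, div_le_div_iff₀ (by positivity) (by positivity)]
  have h6 : 2 * D.γ * |(D.A₀ l k : ℝ)| ≤ 1 / 4 := by linarith
  nlinarith [mul_le_mul_of_nonneg_right h6 (show (0 : ℝ) ≤ 4 * D.N by positivity),
    mul_le_mul_of_nonneg_left h3 h2.le]

/-! ### the energy density -/

/-- the energy density -/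
def qd (T : V d → Tens d) (ε : M d) (u : Disp d) (x : V d) : ℝ := (T x).Q (ε + sg u.u x)

theorem qd_per {T : V d → Tens d} {β : ℝ} (hT : IsFld T 0 β) (ε : M d) (u : Disp d) :
    Per (qd T ε u) := by
  intro x i
  have h1 : sg u.u (x + Pi.single i 1) = sg u.u x := by
    unfold sg
    rw [grad_periodic u x i]
  unfold qd
  rw [hT.per x i, h1]

theorem qd_int {T : V d → Tens d} {β : ℝ} (hT : IsFld T 0 β) (ε : M d) (u : Disp d) (lo hi : V d) :
    IntegrableOn (qd T ε u) (Set.Icc lo hi) := by
  have hmeas : Measurable (qd T ε u) := meas_ip T hT.meas _ _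
    (continuous_const.add (sg_continuous u)).measurable
    (continuous_const.add (sg_continuous u)).measurable
  have hc2 : Continuous fun x => β * nsq (ε + sg u.u x) :=
    continuous_const.mul (continuous_nsq.comp (continuous_const.add (sg_continuous u)))
  refine Integrable.mono' (intC hc2 lo hi) hmeas.aestronglyMeasurable
    (Eventually.of_forall fun x => ?_)
  have hq0 : 0 ≤ qd T ε u x := fld_psd hT x _
  rw [Real.norm_eq_abs, abs_of_nonneg hq0]
  exact hT.hi x _

theorem qd_le {T : V d → Tens d} {β : ℝ} (hT : IsFld T 0 β) (ε : M d) (u : Disp d) (lo hi : V d)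
    (h : ∀ i, hi i ≤ lo i + 1) : ∫ x in Set.Icc lo hi, qd T ε u x ≤ energy T ε u := by
  have h1 : ∫ x in Set.Icc lo (lo + 1), qd T ε u x = energy T ε u :=
    box_cell lo _ (qd_per hT ε u)
  rw [← h1]
  refine setIntegral_mono_set (qd_int hT ε u _ _) (ae_of_all _ fun x => fld_psd hT x _)
    (LE.le.eventuallyLE (Set.Icc_subset_Icc le_rfl fun i => ?_))
  exact h i

/-! ### rigid approximations -/

theorem loB_lt (k : Fin d) (i : ℕ) (l : Fin d) : loB D k i l < hiB D k i l := by
  unfold loB hiB
  have h1 := N_pos D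
  have h2 := gam_le D k
  have h3 := gam_hb D
  have h4 : 0 < D.hb := by linarith
  have h5 : 0 < D.hb / D.N := by positivity
  linarith

theorem loX_lt (k : Fin d) (i : ℕ) (l : Fin d) : loX D k i l < hiX D k i l := by
  unfold loX hiX
  have h1 := N_pos D
  have h2 := gam_pos D
  split_ifs
  · have : (D.hb - D.γ) / D.N < D.hb / D.N := div_lt_div_of_pos_right (by linarith) h1
    linarith
  · have : (0 : ℝ) < 1 / (8 * D.N) := by positivity
    linarith

theorem box_zero (k k' : Fin d) : loB D k 0 = loB D k' 0 ∧ hiB D k 0 = hiB D k' 0 := by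
  have : ∀ k l, ce D k 0 l = 0 := by
    intro k l
    unfold ce
    split_ifs <;> simp
  constructor
  · funext l
    unfold loB
    rw [this, this]
  · funext l
    unfold hiB
    rw [this, this]

theorem rig (hKP : StmtKP d) (k0 : Fin d) : ∃ K1 : Fin d → ℕ → ℝ, (∀ k i, 0 ≤ K1 k i) ∧
    ∀ v : V d → V d, ContDiff ℝ 1 v → ∃ (a : Fin d → ℕ → V d) (Om : Fin d → ℕ → M d),
      (∀ k, a k 0 = a k0 0 ∧ Om k 0 = Om k0 0) ∧ (∀ k i r s, Om k i r s = - Om k i s r) ∧
      ∀ k i, ∫ x in Set.Icc (loB D k i) (hiB D k i),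
        dot (v x - a k i - mulV (Om k i) x) (v x - a k i - mulV (Om k i) x) ≤
        K1 k i * ∫ x in Set.Icc (loB D k i) (hiB D k i), nsq (grad v x) := by
  choose K h0 hK using fun (k : Fin d) (i : ℕ) => hKP (loB D k i) (hiB D k i) (loB_lt D k i)
  refine ⟨fun k i => if i = 0 then K k0 0 else K k i, fun k i => ?_, fun v hv => ?_⟩
  · simp only
    split_ifs
    · exact h0 _ _
    · exact h0 _ _
  · choose a Om hs hI using fun (k : Fin d) (i : ℕ) => hK k i v hv
    refine ⟨fun k i => if i = 0 then a k0 0 else a k i,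
      fun k i => if i = 0 then Om k0 0 else Om k i, ?_, ?_, ?_⟩
    · intro k
      simp
    · intro k i r s
      simp only
      split_ifs
      · exact hs _ _ _ _
      · exact hs _ _ _ _
    · intro k i
      by_cases hi : i = 0
      · subst hi
        simp only [if_true]
        rw [(box_zero D k k0).1, (box_zero D k k0).2]
        exact hI k0 0
      · simp only [if_neg hi]
        exact hI k i

theorem mem_tube_of (k : Fin d) (y : V d) (h : ∀ l, l ≠ k → |y l| ≤ D.hb / D.N) : y ∈ D.tube k := by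
  intro l hl
  have := pd_le (y l) 0
  rw [Int.cast_zero, sub_zero] at this
  exact this.trans (h l hl)

theorem box_body (k : Fin d) (i : ℕ) (y : V d) (hy : y ∈ Set.Icc (loB D k i) (hiB D k i)) :
    y ∈ D.body := by
  have h1 := N_pos D
  refine ⟨k, mem_tube_of D k y fun l hl => ?_, ?_⟩
  · have a1 := hy.1 l
    have a2 := hy.2 l
    unfold loB ce at a1
    unfold hiB ce at a2
    rw [if_neg hl] at a1 a2
    rw [abs_le]
    constructor <;> linarith
  · have a1 := hy.1 k
    have a2 := hy.2 k
    unfold loB ce at a1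
    unfold hiB ce at a2
    rw [if_pos rfl] at a1 a2
    refine (pd_le _ (i : ℤ)).trans ?_
    rw [Int.cast_natCast, abs_le]
    have e1 : (D.N : ℝ) * ((i : ℝ) / D.N - D.hb / D.N) = i - D.hb := by field_simp
    have e2 : (D.N : ℝ) * ((i : ℝ) / D.N + D.hb / D.N) = i + D.hb := by field_simp
    have b1 := mul_le_mul_of_nonneg_left a1 h1.le
    have b2 := mul_le_mul_of_nonneg_left a2 h1.le
    rw [e1] at b1
    rw [e2] at b2
    constructor <;> linarith

/-- the energy controls the gradient in the cubes -/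
theorem box_grad {m β : ℝ} (hm : 0 < m) {C R : Tens d} {F : Fin d → Tens d} {T : V d → Tens d}
    (hG : D.IsG C R F T) (hT : IsFld T 0 β) (hR : ∀ ξ, m * nsq ξ ≤ R.Q ξ) (ε : M d) (u : Disp d)
    (k : Fin d) (i : ℕ) :
    ∫ x in Set.Icc (loB D k i) (hiB D k i), nsq (grad (vv ε u) x) ≤ energy T ε u / m := by
  have hc : Continuous fun x => nsq (grad (vv ε u) x) := by
    simp only [nsq_grad_vv]
    exact continuous_nsq.comp (continuous_const.add (sg_continuous u))
  rw [le_div_iff₀ hm]
  have h1 : (∫ x in Set.Icc (loB D k i) (hiB D k i), nsq (grad (vv ε u) x)) * m =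
      ∫ x in Set.Icc (loB D k i) (hiB D k i), m * nsq (grad (vv ε u) x) := by
    rw [integral_const_mul, mul_comm]
  rw [h1]
  refine le_trans ?_ (qd_le hT ε u (loB D k i) (hiB D k i) fun l => ?_)
  · refine setIntegral_mono_on (intC (continuous_const.mul hc) _ _) (qd_int hT ε u _ _)
      measurableSet_Icc fun x hx => ?_
    rw [nsq_grad_vv]
    unfold qd
    rw [hG.body x (box_body D k i x hx)]
    exact hR _
  · unfold loB hiB
    have h1 := N_pos D
    have h2 := gam_pos D
    have h3 := gam_hb D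
    have h4 : (1 : ℝ) ≤ D.N := by
      have := D.Npos
      exact_mod_cast (by omega : 1 ≤ D.N)
    have h5 : D.hb / D.N ≤ 1 / 2 := by
      rw [div_le_div_iff₀ h1 (by norm_num)]
      linarith
    linarith

/-- the energy controls the fibre strain in the tubes -/
theorem tube_bd {m β : ℝ} (hm : 0 < m) {C R : Tens d} {F : Fin d → Tens d} {T : V d → Tens d}
    (hG : D.IsG C R F T) (hT : IsFld T 0 β) (hR : ∀ ξ, m * nsq ξ ≤ R.Q ξ)
    (hF : ∀ k ξ, m * (ip (oo (zv (D.z k))) ξ) ^ 2 ≤ (F k).Q ξ) (k : Fin d) (y : V d)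
    (hy : y ∈ D.tube k) (ξ : M d) :
    m * (ip (oo (zv (D.z k))) ξ) ^ 2 ≤ (1 + nsq (oo (zv (D.z k)))) * (T y).Q ξ := by
  have h0 : 0 ≤ (T y).Q ξ := fld_psd hT y ξ
  have h1 : 0 ≤ nsq (oo (zv (D.z k))) := nsq_nonneg _
  by_cases h : pd (D.N * y k) ≤ D.hb
  · have hb : y ∈ D.body := ⟨k, hy, h⟩
    rw [hG.body y hb] at h0 ⊢
    have h2 := ip_oo_sq_le (zv (D.z k)) ξ
    calc m * (ip (oo (zv (D.z k))) ξ) ^ 2 ≤ m * (nsq (oo (zv (D.z k))) * nsq ξ) :=
          mul_le_mul_of_nonneg_left h2 hm.le
      _ = nsq (oo (zv (D.z k))) * (m * nsq ξ) := by ring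
      _ ≤ nsq (oo (zv (D.z k))) * R.Q ξ := mul_le_mul_of_nonneg_left (hR ξ) h1
      _ ≤ (1 + nsq (oo (zv (D.z k)))) * R.Q ξ := by nlinarith
  · have hg : y ∈ D.gap k := ⟨hy, not_le.1 h⟩
    rw [hG.gap k y hg] at h0 ⊢
    calc m * (ip (oo (zv (D.z k))) ξ) ^ 2 ≤ (F k).Q ξ := hF k ξ
      _ ≤ (1 + nsq (oo (zv (D.z k)))) * (F k).Q ξ := by nlinarith

theorem bars (hB : StmtBar d) {m β : ℝ} (hm : 0 < m) {C R : Tens d} {F : Fin d → Tens d}
    {T : V d → Tens d} (hG : D.IsG C R F T) (hT : IsFld T 0 β) (hR : ∀ ξ, m * nsq ξ ≤ R.Q ξ)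
    (hF : ∀ k ξ, m * (ip (oo (zv (D.z k))) ξ) ^ 2 ≤ (F k).Q ξ) (ε : M d) (u : Disp d)
    (k : Fin d) (i : ℕ) :
    ∫ x in Set.Icc (loX D k i) (hiX D k i),
      (dot (zz D k) (vv ε u (x + zz D k) - vv ε u x)) ^ 2 ≤
      tau D k ^ 4 * (1 + nsq (oo (zv (D.z k)))) * (energy T ε u / m) := by
  have hv : ContDiff ℝ 1 (vv ε u) := (contDiff_vv ε u).of_le (by simp)
  refine (hB (loX D k i) (hiX D k i) (zz D k) (vv ε u) hv).trans ?_
  set K := tau D k ^ 4 * (1 + nsq (oo (zv (D.z k)))) * (energy T ε u / m) with hK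
  have hN := N_pos D
  have hpt : ∀ t ∈ Set.Icc (0 : ℝ) 1, ‖∫ x in Set.Icc (loX D k i) (hiX D k i),
      (ip (oo (zz D k)) (grad (vv ε u) (x + t • zz D k))) ^ 2‖ ≤ K := by
    intro t ht
    rw [Real.norm_eq_abs, abs_of_nonneg (integral_nonneg fun x => sq_nonneg _)]
    rw [tbox (loX D k i) (hiX D k i) (t • zz D k)
      (fun y => (ip (oo (zz D k)) (grad (vv ε u) y)) ^ 2)]
    have hc : Continuous fun y => (ip (oo (zz D k)) (grad (vv ε u) y)) ^ 2 := by
      simp only [ip_grad_vv]
      exact (continuous_ip.comp (continuous_const.prodMk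
        (continuous_const.add (sg_continuous u)))).pow 2
    have h1 : ∀ y ∈ Set.Icc (loX D k i + t • zz D k) (hiX D k i + t • zz D k),
        (ip (oo (zz D k)) (grad (vv ε u) y)) ^ 2 ≤
          tau D k ^ 4 * (1 + nsq (oo (zv (D.z k)))) / m * qd T ε u y := by
      intro y hy
      have hty : y ∈ D.tube k := by
        refine mem_tube_of D k y fun l hl => ?_
        have a1 := hy.1 l
        have a2 := hy.2 l
        simp only [Pi.add_apply, Pi.smul_apply, smul_eq_mul, loX, hiX, ce, if_neg hl] at a1 a2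
        have a3 := abs_le.1 (zz_l D k l)
        have h5 := gam_hb D
        have h6 := gam_le D k
        have e1 : D.hb / D.N = 1 / (8 * D.N) + 1 / (4 * D.N) + (D.hb - 3 / 8) / D.N := by
          field_simp
          ring
        have e2 : 0 ≤ (D.hb - 3 / 8) / D.N := by
          apply div_nonneg _ hN.le
          linarith
        have e3 : (0 : ℝ) < 1 / (4 * D.N) := by positivity
        have e4 : t * zz D k l ≤ 1 / (4 * D.N) := by nlinarith [ht.1, ht.2]
        have e5 : -(1 / (4 * D.N)) ≤ t * zz D k l := by nlinarith [ht.1, ht.2]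
        rw [abs_le]
        constructor <;> linarith
      have h2 := tube_bd D hm hG hT hR hF k y hty (ε + sg u.u y)
      rw [ip_grad_vv]
      unfold zz
      rw [ip_oo_smul, mul_pow, ← pow_mul, div_mul_eq_mul_div, le_div_iff₀ hm]
      norm_num
      have h3 : 0 ≤ tau D k ^ 4 := by positivity
      have h4 := mul_le_mul_of_nonneg_left h2 h3
      unfold qd
      linarith
    calc ∫ y in Set.Icc (loX D k i + t • zz D k) (hiX D k i + t • zz D k),
          (ip (oo (zz D k)) (grad (vv ε u) y)) ^ 2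
        ≤ ∫ y in Set.Icc (loX D k i + t • zz D k) (hiX D k i + t • zz D k),
          tau D k ^ 4 * (1 + nsq (oo (zv (D.z k)))) / m * qd T ε u y := by
          refine setIntegral_mono_on (intC hc _ _) ((qd_int hT ε u _ _).const_mul _)
            measurableSet_Icc h1
      _ = tau D k ^ 4 * (1 + nsq (oo (zv (D.z k)))) / m *
          ∫ y in Set.Icc (loX D k i + t • zz D k) (hiX D k i + t • zz D k), qd T ε u y :=
          integral_const_mul _ _
      _ ≤ tau D k ^ 4 * (1 + nsq (oo (zv (D.z k)))) / m * energy T ε u := by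
          refine mul_le_mul_of_nonneg_left (qd_le hT ε u _ _ fun l => ?_) ?_
          · simp only [Pi.add_apply, loX, hiX]
            have h1 := gam_pos D
            have h2 := gam_hb D
            have h4 : (1 : ℝ) ≤ D.N := by
              have := D.Npos
              exact_mod_cast (by omega : 1 ≤ D.N)
            split_ifs
            · have e1 : D.hb / D.N = (D.hb - D.γ) / D.N + D.γ / D.N := by ring
              have e2 : D.γ / D.N ≤ 1 := by
                rw [div_le_one hN]
                have := gam_le D k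
                linarith
              linarith
            · have e1 : 1 / (8 * D.N : ℝ) ≤ 1 / 2 := by
                rw [div_le_div_iff₀ (by positivity) (by norm_num)]
                linarith
              linarith
          · have := nsq_nonneg (oo (zv (D.z k)))
            positivity
      _ = K := by rw [hK]; ring
  have h3 := norm_setIntegral_le_of_norm_le_const (μ := volume) (s := Set.Icc (0 : ℝ) 1)
    (by simp) hpt
  rw [Real.norm_eq_abs] at h3
  refine (le_abs_self _).trans (h3.trans ?_)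
  simp

/-! ### steps along the tubes -/

theorem cont_res {v : V d → V d} (hv : Continuous v) (a : V d) (Om : M d) :
    Continuous fun x => dot (v x - a - mulV Om x) (v x - a - mulV Om x) := by
  have h1 : Continuous fun x => v x - a - mulV Om x :=
    (hv.sub continuous_const).sub (contDiff_mulV Om).continuous
  unfold dot
  exact continuous_finsetSum _ fun i _ => ((continuous_apply i).comp h1).mul
    ((continuous_apply i).comp h1)

theorem X_sub (k : Fin d) (i : ℕ) :
    Set.Icc (loX D k i) (hiX D k i) ⊆ Set.Icc (loB D k i) (hiB D k i) := by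
  have hN := N_pos D
  have h1 := gam_pos D
  have h2 := gam_hb D
  have h3 := gam_le D k
  have e2 : (1 : ℝ) / (8 * D.N) ≤ D.hb / D.N := by
    have : D.hb / D.N = 1 / (8 * D.N) + (D.hb - 1 / 8) / D.N := by
      field_simp
      ring
    have h4 : 0 ≤ (D.hb - 1 / 8) / D.N := div_nonneg (by linarith) hN.le
    linarith
  apply Set.Icc_subset_Icc
  · intro l
    simp only [loX, loB]
    split_ifs
    · have e1 : (D.hb - D.γ) / D.N = -(D.hb / D.N) + (2 * D.hb - D.γ) / D.N := by ring
      have e3 : 0 ≤ (2 * D.hb - D.γ) / D.N := div_nonneg (by linarith) hN.le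
      linarith
    · linarith
  · intro l
    simp only [hiX, hiB]
    split_ifs
    · exact le_rfl
    · linarith

theorem X_sub' (k : Fin d) (i : ℕ) :
    Set.Icc (loX D k i + zz D k) (hiX D k i + zz D k) ⊆
      Set.Icc (loB D k (i + 1)) (hiB D k (i + 1)) := by
  have hN := N_pos D
  have h1 := gam_pos D
  have h2 := gam_hb D
  have h3 := gam_le D k
  have e2 : (1 : ℝ) / (8 * D.N) + 1 / (4 * D.N) ≤ D.hb / D.N := by
    have : D.hb / D.N = 1 / (8 * D.N) + 1 / (4 * D.N) + (D.hb - 3 / 8) / D.N := by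
      field_simp
      ring
    have h4 : 0 ≤ (D.hb - 3 / 8) / D.N := div_nonneg (by linarith) hN.le
    linarith
  apply Set.Icc_subset_Icc
  · intro l
    simp only [loX, loB, Pi.add_apply, ce]
    split_ifs with hl
    · rw [hl, zz_k]
      push_cast
      have e1 : ((i : ℝ) + 1) / D.N - D.hb / D.N =
          (i : ℝ) / D.N + (D.hb - D.γ) / D.N + 2 * D.γ / D.N := by
        rw [h2]
        field_simp
        ring
      linarith
    · have := abs_le.1 (zz_l D k l)
      linarith
  · intro l
    simp only [hiX, hiB, Pi.add_apply, ce]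
    split_ifs with hl
    · rw [hl, zz_k]
      push_cast
      have e1 : ((i : ℝ) + 1) / D.N + D.hb / D.N =
          (i : ℝ) / D.N + D.hb / D.N + 2 * D.γ / D.N + (1 - 2 * D.γ) / D.N := by
        field_simp
        ring
      have e3 : 0 ≤ (1 - 2 * D.γ) / D.N := div_nonneg (by linarith) hN.le
      linarith
    · have := abs_le.1 (zz_l D k l)
      linarith

theorem stepD (k : Fin d) (i : ℕ) (KX : ℝ) (hKX0 : 0 ≤ KX)
    (hKX : ∀ (p : ℝ) (q : V d), p ^ 2 ≤ KX *
      ∫ x in Set.Icc (loX D k i) (hiX D k i), (p + dot q x) ^ 2)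
    (v : V d → V d) (hv : Continuous v) (a a' : V d) (Om Om' : M d)
    (hs : ∀ r s, Om' r s = - Om' s r) (c1 c2 c3 : ℝ)
    (h1 : ∫ x in Set.Icc (loB D k i) (hiB D k i),
      dot (v x - a - mulV Om x) (v x - a - mulV Om x) ≤ c1)
    (h2 : ∫ x in Set.Icc (loB D k (i + 1)) (hiB D k (i + 1)),
      dot (v x - a' - mulV Om' x) (v x - a' - mulV Om' x) ≤ c2)
    (h3 : ∫ x in Set.Icc (loX D k i) (hiX D k i), (dot (zz D k) (v (x + zz D k) - v x)) ^ 2 ≤ c3) :
    tau D k ^ 2 * (dot (zv (D.z k)) (a' - a)) ^ 2 ≤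
      KX * (3 * c3 + 3 * dot (zz D k) (zz D k) * c2 + 3 * dot (zz D k) (zz D k) * c1) := by
  set z := zz D k with hz
  set q : V d := mulT (Om' - Om) z with hq
  set r : V d → V d := fun x => v x - a - mulV Om x with hr
  set r' : V d → V d := fun x => v x - a' - mulV Om' x with hr'
  have hz0 : 0 ≤ dot z z := dot_self_nonneg z
  have hid : ∀ x, dot z (a' - a) + dot q x =
      dot z (v (x + z) - v x) - dot z (r' (x + z)) + dot z (r x) := by
    intro x
    have e1 : dot q x = dot z (mulV Om' x) - dot z (mulV Om x) := by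
      rw [hq, ← dot_mulV, ← dot_sub_right]
      congr 1
      funext j
      simp only [mulV, Pi.sub_apply, sub_mul, Finset.sum_sub_distrib]
    have e2 : dot z (mulV Om' z) = 0 := dot_skew Om' hs z
    rw [e1]
    simp only [hr, hr']
    rw [mulV_add]
    simp only [dot_sub_right, dot_add_right]
    rw [e2]
    ring
  have hpt : ∀ x, (dot z (a' - a) + dot q x) ^ 2 ≤
      3 * (dot z (v (x + z) - v x)) ^ 2 + 3 * dot z z * dot (r' (x + z)) (r' (x + z)) +
        3 * dot z z * dot (r x) (r x) := by
    intro x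
    rw [hid]
    have e1 := dot_cs z (r' (x + z))
    have e2 := dot_cs z (r x)
    nlinarith [sq_nonneg (dot z (v (x + z) - v x) + dot z (r' (x + z))),
      sq_nonneg (dot z (v (x + z) - v x) - dot z (r x)),
      sq_nonneg (dot z (r' (x + z)) + dot z (r x))]
  have cr : Continuous fun x => dot (r x) (r x) := cont_res hv a Om
  have cr' : Continuous fun x => dot (r' x) (r' x) := cont_res hv a' Om'
  have crs : Continuous fun x => dot (r' (x + z)) (r' (x + z)) :=
    cr'.comp (continuous_id.add continuous_const)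
  have cv : Continuous fun x => (dot z (v (x + z) - v x)) ^ 2 := by
    refine Continuous.pow ?_ 2
    exact (continuous_dotl z).comp ((hv.comp (continuous_id.add continuous_const)).sub hv)
  have hI : ∫ x in Set.Icc (loX D k i) (hiX D k i), (dot z (a' - a) + dot q x) ^ 2 ≤
      3 * c3 + 3 * dot z z * c2 + 3 * dot z z * c1 := by
    refine (setIntegral_mono_on (intC ((continuous_const.add (continuous_dotl q)).pow 2) _ _)
      (intC ?_ _ _) measurableSet_Icc fun x _ => hpt x).trans ?_
    · exact ((continuous_const.mul cv).add (continuous_const.mul crs)).add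
        (continuous_const.mul cr)
    · rw [int_lin3 cv crs cr]
      have b1 : ∫ x in Set.Icc (loX D k i) (hiX D k i), dot (r x) (r x) ≤ c1 :=
        (setIntegral_mono_set (intC cr _ _) (ae_of_all _ fun x => dot_self_nonneg _)
          (LE.le.eventuallyLE (X_sub D k i))).trans h1
      have b2 : ∫ x in Set.Icc (loX D k i) (hiX D k i), dot (r' (x + z)) (r' (x + z)) ≤ c2 := by
        rw [tbox (loX D k i) (hiX D k i) z (fun x => dot (r' x) (r' x))]
        exact (setIntegral_mono_set (intC cr' _ _) (ae_of_all _ fun x => dot_self_nonneg _)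
          (LE.le.eventuallyLE (X_sub' D k i))).trans h2
      have b3 : 0 ≤ 3 * dot z z := by linarith
      nlinarith [mul_le_mul_of_nonneg_left b1 b3, mul_le_mul_of_nonneg_left b2 b3]
  have h4 := (hKX (dot z (a' - a)) q).trans (mul_le_mul_of_nonneg_left hI hKX0)
  have h5 : dot z (a' - a) = tau D k * dot (zv (D.z k)) (a' - a) := by
    rw [hz]
    unfold zz
    rw [dot_smul_left]
  rw [h5, mul_pow] at h4
  exact h4

theorem vv_per (ε : M d) (u : Disp d) (x : V d) (k : Fin d) :
    vv ε u (x + Pi.single k 1) = vv ε u x + mulV (symm ε) (Pi.single k 1) := by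
  unfold vv
  rw [mulV_add, u.per x k]
  abel

theorem box_N (k : Fin d) : loB D k D.N = loB D k 0 + Pi.single k 1 ∧
    hiB D k D.N = hiB D k 0 + Pi.single k 1 := by
  have hN := (N_pos D).ne'
  constructor
  · funext l
    simp only [loB, ce, Pi.add_apply]
    by_cases hl : l = k
    · rw [hl, if_pos rfl, if_pos rfl, Pi.single_eq_same, div_self hN]
      push_cast
      ring
    · rw [if_neg hl, if_neg hl, Pi.single_eq_of_ne hl]
      ring
  · funext l
    simp only [hiB, ce, Pi.add_apply]
    by_cases hl : l = k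
    · rw [hl, if_pos rfl, if_pos rfl, Pi.single_eq_same, div_self hN]
      push_cast
      ring
    · rw [if_neg hl, if_neg hl, Pi.single_eq_of_ne hl]
      ring

theorem stepP (k : Fin d) (K0 : ℝ) (hK00 : 0 ≤ K0)
    (hK0 : ∀ (p : ℝ) (q : V d), p ^ 2 ≤ K0 *
      ∫ x in Set.Icc (loB D k 0) (hiB D k 0), (p + dot q x) ^ 2 ∧
      ∀ j, q j ^ 2 ≤ K0 * ∫ x in Set.Icc (loB D k 0) (hiB D k 0), (p + dot q x) ^ 2)
    (ε : M d) (u : Disp d) (a0 aN : V d) (Om0 OmN : M d) (c1 c2 : ℝ)
    (h1 : ∫ x in Set.Icc (loB D k 0) (hiB D k 0),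
      dot (vv ε u x - a0 - mulV Om0 x) (vv ε u x - a0 - mulV Om0 x) ≤ c1)
    (h2 : ∫ x in Set.Icc (loB D k D.N) (hiB D k D.N),
      dot (vv ε u x - aN - mulV OmN x) (vv ε u x - aN - mulV OmN x) ≤ c2) (j : Fin d) :
    ((mulV (symm ε) (Pi.single k 1) + a0 - aN - mulV OmN (Pi.single k 1)) j) ^ 2 ≤
      K0 * (2 * c2 + 2 * c1) ∧ ∀ l, (OmN j l - Om0 j l) ^ 2 ≤ K0 * (2 * c2 + 2 * c1) := by
  set e : V d := Pi.single k 1 with he
  have hv : Continuous (vv ε u) := (contDiff_vv ε u).continuous
  set r : V d → V d := fun x => vv ε u x - a0 - mulV Om0 x with hr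
  set r' : V d → V d := fun x => vv ε u x - aN - mulV OmN x with hr'
  set p : ℝ := (mulV (symm ε) e + a0 - aN - mulV OmN e) j with hp
  set q : V d := fun l => -(OmN j l - Om0 j l) with hq
  have hid : ∀ x, p + dot q x = r' (x + e) j - r x j := by
    intro x
    have e1 : dot q x = mulV Om0 x j - mulV OmN x j := by
      simp only [hq, dot, mulV]
      rw [← Finset.sum_sub_distrib]
      refine Finset.sum_congr rfl fun l _ => ?_
      ring
    rw [e1]
    simp only [hr, hr', hp]
    rw [vv_per, mulV_add]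
    simp only [Pi.add_apply, Pi.sub_apply]
    ring
  have hpt : ∀ x, (p + dot q x) ^ 2 ≤ 2 * dot (r' (x + e)) (r' (x + e)) + 2 * dot (r x) (r x) := by
    intro x
    rw [hid]
    have e1 := comp_sq_le (r' (x + e)) j
    have e2 := comp_sq_le (r x) j
    nlinarith [sq_nonneg (r' (x + e) j + r x j)]
  have cr : Continuous fun x => dot (r x) (r x) := cont_res hv a0 Om0
  have cr' : Continuous fun x => dot (r' x) (r' x) := cont_res hv aN OmN
  have crs : Continuous fun x => dot (r' (x + e)) (r' (x + e)) :=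
    cr'.comp (continuous_id.add continuous_const)
  have hI : ∫ x in Set.Icc (loB D k 0) (hiB D k 0), (p + dot q x) ^ 2 ≤ 2 * c2 + 2 * c1 := by
    refine (setIntegral_mono_on (intC ((continuous_const.add (continuous_dotl q)).pow 2) _ _)
      (intC ?_ _ _) measurableSet_Icc fun x _ => hpt x).trans ?_
    · exact (continuous_const.mul crs).add (continuous_const.mul cr)
    · rw [int_lin2 crs cr, tbox _ _ e (fun x => dot (r' x) (r' x)), ← (box_N D k).1,
        ← (box_N D k).2]
      have b1 : ∫ x in Set.Icc (loB D k 0) (hiB D k 0), dot (r x) (r x) ≤ c1 := h1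
      have b2 : ∫ x in Set.Icc (loB D k D.N) (hiB D k D.N), dot (r' x) (r' x) ≤ c2 := h2
      linarith
  obtain ⟨h3, h4⟩ := hK0 p q
  refine ⟨h3.trans (mul_le_mul_of_nonneg_left hI hK00), fun l => ?_⟩
  have h5 := (h4 l).trans (mul_le_mul_of_nonneg_left hI hK00)
  simp only [hq] at h5
  rwa [neg_sq] at h5

theorem dot_single (l : Fin d) (z : V d) (A : M d) :
    dot z (mulV A (Pi.single l 1)) = ∑ j, z j * A j l := by
  unfold dot
  refine Finset.sum_congr rfl fun j _ => ?_
  rw [mulV_single]

end RStiffAux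

open RStiffAux

theorem RStiff_ok (d : ℕ) (hKP : StmtKP d) (hB : StmtBar d) : StmtRStiff d := by
  intro hd D
  set k0 : Fin d := ⟨0, by omega⟩ with hk0
  obtain ⟨K1, hK10, hK1⟩ := rig D hKP k0
  choose KX hKX0 hKX using fun (k : Fin d) (i : ℕ) => aff (loX D k i) (hiX D k i) (loX_lt D k i)
  choose K0 hK00 hK0 using fun (k : Fin d) => aff (loB D k 0) (hiB D k 0) (loB_lt D k 0)
  -- constants
  obtain ⟨Kb, hKb⟩ : ∃ Kb : Fin d → ℝ, ∀ k, Kb k = tau D k ^ 4 * (1 + nsq (oo (zv (D.z k)))) :=
    ⟨_, fun _ => rfl⟩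
  have hKb0 : ∀ k, 0 ≤ Kb k := fun k => by
    rw [hKb]
    have := nsq_nonneg (oo (zv (D.z k)))
    positivity
  obtain ⟨KD, hKD⟩ : ∃ KD : Fin d → ℕ → ℝ, ∀ k i, KD k i = KX k i * (3 * Kb k +
      3 * dot (zz D k) (zz D k) * K1 k (i + 1) + 3 * dot (zz D k) (zz D k) * K1 k i) /
        tau D k ^ 2 := ⟨_, fun _ _ => rfl⟩
  obtain ⟨KP, hKPd⟩ : ∃ KP : Fin d → ℝ, ∀ k, KP k = K0 k * (2 * K1 k D.N + 2 * K1 k 0) :=
    ⟨_, fun _ => rfl⟩
  obtain ⟨KS, hKS⟩ : ∃ KS : Fin d → ℝ, ∀ k, KS k = 3 * (D.N * ∑ i ∈ Finset.range D.N, KD k i) +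
      6 * dot (zv (D.z k)) (zv (D.z k)) * (d * KP k) := ⟨_, fun _ => rfl⟩
  have hzz0 : ∀ k, 0 ≤ dot (zz D k) (zz D k) := fun k => dot_self_nonneg _
  have hz0 : ∀ k, 0 ≤ dot (zv (D.z k)) (zv (D.z k)) := fun k => dot_self_nonneg _
  have hKD0 : ∀ k i, 0 ≤ KD k i := fun k i => by
    rw [hKD]
    have := hKX0 k i
    have := hKb0 k
    have := hK10 k i
    have := hK10 k (i + 1)
    have := hzz0 k
    positivity
  have hKP0 : ∀ k, 0 ≤ KP k := fun k => by
    rw [hKPd]
    have := hK00 k
    have := hK10 k D.N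
    have := hK10 k 0
    positivity
  have hKS0 : ∀ k, 0 ≤ KS k := fun k => by
    rw [hKS]
    have := hz0 k
    have := hKP0 k
    have : 0 ≤ ∑ i ∈ Finset.range D.N, KD k i := Finset.sum_nonneg fun i _ => hKD0 k i
    positivity
  refine ⟨d * (∑ k, KS k) + 1, by
    have : 0 ≤ ∑ k, KS k := Finset.sum_nonneg fun k _ => hKS0 k
    positivity, ?_⟩
  intro m β' hm C R F T hG hT hR hF ε u
  set E := energy T ε u with hE
  have hE0 : 0 ≤ E := energy_nonneg T β' hT ε u
  obtain ⟨g, hg⟩ : ∃ g, g = E / m := ⟨_, rfl⟩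
  have hg0 : 0 ≤ g := by rw [hg]; positivity
  have hv1 : ContDiff ℝ 1 (vv ε u) := (contDiff_vv ε u).of_le (by simp)
  have hvc : Continuous (vv ε u) := hv1.continuous
  obtain ⟨a, Om, hcom, hskew, hres⟩ := hK1 (vv ε u) hv1
  have hres' : ∀ k i, ∫ x in Set.Icc (loB D k i) (hiB D k i),
      dot (vv ε u x - a k i - mulV (Om k i) x) (vv ε u x - a k i - mulV (Om k i) x) ≤
      K1 k i * g := by
    intro k i
    refine (hres k i).trans (mul_le_mul_of_nonneg_left ?_ (hK10 k i))
    rw [hg]
    exact box_grad D hm hG hT hR ε u k i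
  have hbar : ∀ k i, ∫ x in Set.Icc (loX D k i) (hiX D k i),
      (dot (zz D k) (vv ε u (x + zz D k) - vv ε u x)) ^ 2 ≤ Kb k * g := by
    intro k i
    rw [hKb, hg]
    exact bars D hB hm hG hT hR hF ε u k i
  have hD : ∀ k i, (dot (zv (D.z k)) (a k (i + 1) - a k i)) ^ 2 ≤ KD k i * g := by
    intro k i
    have h := stepD D k i (KX k i) (hKX0 k i) (fun p q => (hKX k i p q).1) (vv ε u) hvc (a k i)
      (a k (i + 1)) (Om k i) (Om k (i + 1)) (hskew k (i + 1)) _ _ _ (hres' k i) (hres' k (i + 1))
      (hbar k i)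
    have ht : 0 < tau D k ^ 2 := by
      have := tau_ne D k
      positivity
    rw [hKD, div_mul_eq_mul_div, le_div_iff₀ ht]
    nlinarith
  have hPp : ∀ k j, ((mulV (symm ε) (Pi.single k 1) + a k 0 - a k D.N -
      mulV (Om k D.N) (Pi.single k 1)) j) ^ 2 ≤ KP k * g ∧
      ∀ l, (Om k D.N j l - Om k 0 j l) ^ 2 ≤ KP k * g := by
    intro k j
    have h := stepP D k (K0 k) (hK00 k) (hK0 k) ε u (a k 0) (a k D.N) (Om k 0) (Om k D.N) _ _
      (hres' k 0) (hres' k D.N) j
    have e : K0 k * (2 * (K1 k D.N * g) + 2 * (K1 k 0 * g)) = KP k * g := by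
      rw [hKPd]
      ring
    rwa [e] at h
  -- the combination for every direction
  have hS : ∀ k, (dot (zv (D.z k)) (mulV (symm ε) (Pi.single k 1)) -
      dot (zv (D.z k)) (mulV (Om k0 0) (Pi.single k 1))) ^ 2 ≤ KS k * g := by
    intro k
    set w := zv (D.z k) with hw
    obtain ⟨p, hp⟩ : ∃ p : V d, p = mulV (symm ε) (Pi.single k 1) + a k 0 - a k D.N -
      mulV (Om k D.N) (Pi.single k 1) := ⟨_, rfl⟩
    obtain ⟨o, ho⟩ : ∃ o : V d, o = fun j => Om k D.N j k - Om k 0 j k := ⟨_, rfl⟩
    have htel : dot w (a k D.N - a k 0) =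
        ∑ i ∈ Finset.range D.N, dot w (a k (i + 1) - a k i) := by
      simp only [dot_sub_right]
      rw [Finset.sum_range_sub (fun i => dot w (a k i))]
    have ha : (dot w (a k D.N - a k 0)) ^ 2 ≤ D.N * ∑ i ∈ Finset.range D.N, KD k i * g := by
      rw [htel]
      have h1 := sq_sum_le_card_mul_sum_sq (s := Finset.range D.N)
        (f := fun i => dot w (a k (i + 1) - a k i))
      rw [Finset.card_range] at h1
      refine h1.trans (mul_le_mul_of_nonneg_left ?_ (N_pos D).le)
      exact Finset.sum_le_sum fun i _ => hD k i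
    have hpp : dot p p ≤ d * (KP k * g) := by
      unfold dot
      have h1 : ∀ j ∈ (Finset.univ : Finset (Fin d)), p j * p j ≤ KP k * g := by
        intro j _
        rw [← sq, hp]
        exact (hPp k j).1
      have h2 := Finset.sum_le_card_nsmul _ _ _ h1
      rw [nsmul_eq_mul, Finset.card_univ, Fintype.card_fin] at h2
      exact h2
    have hoo : dot o o ≤ d * (KP k * g) := by
      unfold dot
      have h1 : ∀ j ∈ (Finset.univ : Finset (Fin d)), o j * o j ≤ KP k * g := by
        intro j _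
        rw [← sq, ho]
        exact (hPp k j).2 k
      have h2 := Finset.sum_le_card_nsmul _ _ _ h1
      rw [nsmul_eq_mul, Finset.card_univ, Fintype.card_fin] at h2
      exact h2
    have hid : dot w (mulV (symm ε) (Pi.single k 1)) -
        dot w (mulV (Om k0 0) (Pi.single k 1)) =
        dot w (a k D.N - a k 0) + dot w p + dot w o := by
      have e1 : dot w o = dot w (mulV (Om k D.N) (Pi.single k 1)) -
          dot w (mulV (Om k0 0) (Pi.single k 1)) := by
        rw [dot_single, dot_single, ← Finset.sum_sub_distrib, ho, ← (hcom k).2]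
        unfold dot
        refine Finset.sum_congr rfl fun j _ => ?_
        ring
      rw [e1, hp]
      simp only [dot_sub_right, dot_add_right]
      ring
    rw [hid]
    have c1 := dot_cs w p
    have c2 := dot_cs w o
    have hw0 : 0 ≤ dot w w := dot_self_nonneg w
    have c3 := c1.trans (mul_le_mul_of_nonneg_left hpp hw0)
    have c4 := c2.trans (mul_le_mul_of_nonneg_left hoo hw0)
    have c5 : (dot w (a k D.N - a k 0) + dot w p + dot w o) ^ 2 ≤
        3 * (dot w (a k D.N - a k 0)) ^ 2 + 3 * (dot w p) ^ 2 + 3 * (dot w o) ^ 2 := by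
      nlinarith [sq_nonneg (dot w (a k D.N - a k 0) - dot w p),
        sq_nonneg (dot w (a k D.N - a k 0) - dot w o), sq_nonneg (dot w p - dot w o)]
    have c6 : KS k * g = 3 * (D.N * ∑ i ∈ Finset.range D.N, KD k i * g) +
        3 * (dot w w * (d * (KP k * g))) + 3 * (dot w w * (d * (KP k * g))) := by
      rw [hKS, ← Finset.sum_mul]
      ring
    rw [c6]
    linarith
  -- the sum over the directions
  have hsum : ip D.A₀r (symm ε) = ∑ k, (dot (zv (D.z k)) (mulV (symm ε) (Pi.single k 1)) -
      dot (zv (D.z k)) (mulV (Om k0 0) (Pi.single k 1))) := by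
    rw [Finset.sum_sub_distrib]
    have e1 : ∑ k, dot (zv (D.z k)) (mulV (symm ε) (Pi.single k 1)) = ip D.A₀r (symm ε) := by
      simp only [dot_single]
      unfold ip
      rw [Finset.sum_comm]
      rfl
    have e2 : ∑ k, dot (zv (D.z k)) (mulV (Om k0 0) (Pi.single k 1)) = 0 := by
      simp only [dot_single]
      have h1 : ∑ k, ∑ j, zv (D.z k) j * Om k0 0 j k =
          - ∑ k, ∑ j, zv (D.z k) j * Om k0 0 j k := by
        conv_lhs => rw [Finset.sum_comm]
        rw [← Finset.sum_neg_distrib]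
        refine Finset.sum_congr rfl fun j _ => ?_
        rw [← Finset.sum_neg_distrib]
        refine Finset.sum_congr rfl fun k _ => ?_
        have h2 : zv (D.z k) j = zv (D.z j) k := by
          unfold zv RD.z
          rw [D.sym]
        rw [h2, hskew k0 0 j k]
        ring
      linarith
    rw [e1, e2, sub_zero]
  have hfin : (ip D.A₀r (symm ε)) ^ 2 ≤ d * (∑ k, KS k) * g := by
    rw [hsum]
    have h1 := sq_sum_le_card_mul_sum_sq (s := (Finset.univ : Finset (Fin d)))
      (f := fun k => dot (zv (D.z k)) (mulV (symm ε) (Pi.single k 1)) -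
        dot (zv (D.z k)) (mulV (Om k0 0) (Pi.single k 1)))
    rw [Finset.card_univ, Fintype.card_fin] at h1
    refine h1.trans ?_
    rw [mul_assoc, Finset.sum_mul]
    exact mul_le_mul_of_nonneg_left (Finset.sum_le_sum fun k _ => hS k) (Nat.cast_nonneg d)
  have h1 := mul_le_mul_of_nonneg_left hfin hm.le
  have h2 : m * (d * (∑ k, KS k) * g) = d * (∑ k, KS k) * E := by
    rw [hg]
    field_simp
  rw [h2] at h1
  linarith

end Pool.Agent.Lib.MP_5df1bf_an
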