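import Pool.Agent.Lib.MP_5df1bf_an.Asm2
import Pool.Agent.Lib.MP_5df1bf_an.RStiff

/-!
# MP_5df1bf_an: Q2
-/

noncomputable section

namespace Pool.Agent.Lib.MP_5df1bf_an

variable {d : ℕ}

theorem sSufR (d : ℕ) : StmtSufR d := sSufR' (RStiff_ok d (sKP d) (sBar d))

theorem rigidClosure (hd : 2 ≤ d) {κ μ f : ℝ} (hκ : 0 < κ) (hμ : 0 < μ) (hf0 : 0 < f)
    (hf1 : f < 1) (S : Tens d) : S ∈ GRigid κ μ f ↔ CharR κ μ f S :=
  gclosureR hd (sNecR d) (sSufR d) (sPhaseR d) (sH1 d) (sH1Min d) (sInvIso d) (sGamIso d) (sInvT d)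
    (sGamT d) hκ hμ hf0 hf1 S

end Pool.Agent.Lib.MP_5df1bf_an
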