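import Pool.Agent.Lib.MP_5df1bf_an.Stmts2

/-!
# MP_5df1bf_an: one-dimensional concentration on lines (B3)
-/

open MeasureTheory Filter Topology
open scoped BigOperators ContDiff

noncomputable section

namespace Pool.Agent.Lib.MP_5df1bf_an

variable {d : ℕ}

namespace InterpAux

/-! ### smooth parametric integrals -/

theorem contDiff_int_nat {E : Type} [NormedAddCommGroup E] [NormedSpace ℝ E]
    [FiniteDimensional ℝ E] (n : ℕ) :
    ∀ (F : Type) [NormedAddCommGroup F] [NormedSpace ℝ F] [CompleteSpace F] (f : E × ℝ → F),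
      ContDiff ℝ ∞ f → ContDiff ℝ n (fun x => ∫ s in (0 : ℝ)..1, f (x, s)) := by
  have : ProperSpace E := FiniteDimensional.proper ℝ E
  induction n with
  | zero =>
    intro F _ _ _ f hf
    have h0 : ((0 : ℕ) : WithTop ℕ∞) = 0 := rfl
    rw [h0, contDiff_zero]
    exact intervalIntegral.continuous_parametric_intervalIntegral_of_continuous'
      (f := fun x s => f (x, s)) hf.continuous 0 1
  | succ n ih =>
    intro F _ _ _ f hf
    have h0 : ((n + 1 : ℕ) : WithTop ℕ∞) = n + 1 := by push_cast; rfl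
    rw [h0, contDiff_succ_iff_hasFDerivAt]
    set f' : E × ℝ → (E →L[ℝ] F) := fun p =>
      (fderiv ℝ f p).comp (ContinuousLinearMap.inl ℝ E ℝ) with hf'
    have hf's : ContDiff ℝ ∞ f' := by
      have h1 : ContDiff ℝ ∞ (fderiv ℝ f) := (contDiff_infty_iff_fderiv.1 hf).2
      exact h1.clm_comp contDiff_const
    refine ⟨fun x => ∫ s in (0 : ℝ)..1, f' (x, s), ih _ f' hf's, fun x => ?_⟩
    have hc : Continuous f' := hf's.continuous
    -- bound on a compact set
    obtain ⟨C, hC⟩ := ((isCompact_closedBall x 1).prod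
      (isCompact_Icc (a := (0 : ℝ)) (b := 1))).exists_bound_of_continuousOn hc.continuousOn
    refine intervalIntegral.hasFDerivAt_integral_of_dominated_of_fderiv_le
      (F := fun x s => f (x, s)) (F' := fun x s => f' (x, s)) (bound := fun _ => C)
      (s := Metric.closedBall x 1) (Metric.closedBall_mem_nhds x one_pos) ?_ ?_ ?_ ?_ ?_ ?_
    · exact Eventually.of_forall fun y =>
        (hf.continuous.comp (by fun_prop : Continuous fun s : ℝ => (y, s))).aestronglyMeasurable
    · exact (hf.continuous.comp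
        (by fun_prop : Continuous fun s : ℝ => (x, s))).intervalIntegrable _ _
    · exact (hc.comp (by fun_prop : Continuous fun s : ℝ => (x, s))).aestronglyMeasurable
    · refine Eventually.of_forall fun s hs y hy => hC (y, s) ⟨hy, ?_⟩
      rw [Set.uIoc_of_le zero_le_one] at hs
      exact ⟨hs.1.le, hs.2⟩
    · exact intervalIntegrable_const
    · refine Eventually.of_forall fun s _ y _ => ?_
      have h1 : HasFDerivAt f (fderiv ℝ f (y, s)) (y, s) :=
        ((hf.differentiable (by simp)) _).hasFDerivAt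
      have h2 : HasFDerivAt (fun y : E => (y, s)) (ContinuousLinearMap.inl ℝ E ℝ) y :=
        hasFDerivAt_prodMk_left y s
      exact h1.comp y h2

theorem contDiff_int {E : Type} [NormedAddCommGroup E] [NormedSpace ℝ E]
    [FiniteDimensional ℝ E] {f : E × ℝ → ℝ} (hf : ContDiff ℝ ∞ f) :
    ContDiff ℝ ∞ (fun x => ∫ s in (0 : ℝ)..1, f (x, s)) :=
  contDiff_infty.2 fun n => contDiff_int_nat n ℝ f hf

/-! ### the profile -/

theorem prim_deriv {g : ℝ → ℝ} (hg : Continuous g) (a z : ℝ) :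
    HasDerivAt (fun z => ∫ y in a..z, g y) (g z) z :=
  intervalIntegral.integral_hasDerivAt_right (hg.intervalIntegrable _ _)
    (hg.stronglyMeasurableAtFilter _ _) hg.continuousAt

theorem prim_smooth {g : ℝ → ℝ} (hg : ContDiff ℝ ∞ g) (a : ℝ) :
    ContDiff ℝ ∞ (fun z => ∫ y in a..z, g y) := by
  rw [contDiff_infty_iff_deriv]
  have h1 : deriv (fun z => ∫ y in a..z, g y) = g := by
    funext z; exact (prim_deriv hg.continuous a z).deriv
  refine ⟨fun z => (prim_deriv hg.continuous a z).differentiableAt, ?_⟩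
  rw [h1]; exact hg

theorem exists_profile (ρ : ℝ) (hρ : 0 < ρ) (hρ4 : ρ < 1 / 4) : ∃ (K : ℝ) (c : ℝ → ℝ), 0 ≤ K ∧
    ContDiff ℝ ∞ c ∧ (∀ z, z ≤ -ρ → c z = 0) ∧ (∀ z, ρ ≤ z → c z = z) ∧
    (∀ z, 0 ≤ deriv c z ∧ deriv c z ≤ 1) ∧ (∀ z, z ≤ -ρ → deriv c z = 0) ∧
    (∀ z, ρ ≤ z → deriv c z = 1) ∧
    (∀ z, 0 ≤ deriv (deriv c) z ∧ deriv (deriv c) z ≤ K) ∧
    (∀ z, ρ < |z| → deriv (deriv c) z = 0) ∧ (∀ z, |z| ≤ 3 / 4 → |c z| ≤ 1) := by
  set φ : ContDiffBump (0 : ℝ) := ⟨ρ / 2, ρ, by positivity, by linarith⟩ with hφ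
  set b : ℝ → ℝ := φ.normed volume with hb
  have hbs : ContDiff ℝ ∞ b := φ.contDiff_normed
  have hbc : Continuous b := hbs.continuous
  have hb0 : ∀ z, 0 ≤ b z := φ.nonneg_normed
  have hbsupp : ∀ z, ρ ≤ |z| → b z = 0 := by
    intro z hz
    by_contra hne
    have h1 : z ∈ Function.support b := hne
    rw [hb, φ.support_normed_eq] at h1
    have h2 : |z| < ρ := by simpa using h1
    linarith
  have hbev : ∀ z, b (-z) = b z := φ.normed_neg
  have hbint : ∫ z in (-1 : ℝ)..1, b z = 1 := by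
    have h1 : ∫ z in (-1 : ℝ)..1, b z = ∫ z, b z := by
      refine intervalIntegral.integral_eq_integral_of_support_subset ?_
      intro z hz
      have h2 : |z| < ρ := by
        by_contra hcon
        exact hz (hbsupp z (not_lt.1 hcon))
      rw [abs_lt] at h2
      exact ⟨by linarith, by linarith⟩
    rw [h1]
    exact φ.integral_normed
  set c1 : ℝ → ℝ := fun z => ∫ y in (-1 : ℝ)..z, b y with hc1
  set c : ℝ → ℝ := fun z => ∫ y in (-1 : ℝ)..z, c1 y with hc
  have hc1s : ContDiff ℝ ∞ c1 := prim_smooth hbs _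
  have hcs : ContDiff ℝ ∞ c := prim_smooth hc1s _
  have hc1d : ∀ z, HasDerivAt c1 (b z) z := fun z => prim_deriv hbc _ z
  have hcd : ∀ z, HasDerivAt c (c1 z) z := fun z => prim_deriv hc1s.continuous _ z
  have d1 : deriv c = c1 := by funext z; exact (hcd z).deriv
  have d2 : deriv c1 = b := by funext z; exact (hc1d z).deriv
  have c1m : Monotone c1 := monotone_of_deriv_nonneg (fun z => (hc1d z).differentiableAt)
    fun z => by rw [d2]; exact hb0 z
  have c10 : ∀ z, z ≤ -ρ → c1 z = 0 := by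
    intro z hz
    refine intervalIntegral.integral_zero_ae ?_ 
    refine Eventually.of_forall fun y hy => hbsupp y ?_
    have h3 : y ≤ -ρ := by
      rcases Set.mem_uIoc.1 hy with h | h
      · linarith [h.2]
      · linarith [h.2]
    rw [abs_of_nonpos (by linarith)]; linarith
  have c1s : ∀ z, c1 z + c1 (-z) = 1 := by
    have h1 : ∀ z, HasDerivAt (fun z => c1 z + c1 (-z)) 0 z := by
      intro z
      have h2 : HasDerivAt (fun z => c1 (-z)) (b (-z) * -1) z :=
        (hc1d (-z)).comp z (hasDerivAt_neg z)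
      have h3 := (hc1d z).add h2
      rw [hbev, mul_neg_one, add_neg_cancel] at h3
      exact h3
    have h4 : ∀ x y, (fun z => c1 z + c1 (-z)) x = (fun z => c1 z + c1 (-z)) y :=
      is_const_of_deriv_eq_zero (fun z => (h1 z).differentiableAt) fun z => (h1 z).deriv
    intro z
    have h5 := h4 z 1
    simp only at h5
    rw [h5, c10 (-1) (by linarith), add_zero]
    exact hbint
  have c11 : ∀ z, ρ ≤ z → c1 z = 1 := by
    intro z hz
    have := c1s z
    rw [c10 (-z) (by linarith)] at this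
    linarith
  have c1r : ∀ z, 0 ≤ c1 z ∧ c1 z ≤ 1 := by
    intro z
    constructor
    · have h1 := c1m (min_le_left z (-ρ))
      rwa [c10 _ (min_le_right z (-ρ))] at h1
    · have h1 := c1m (le_max_left z ρ)
      rwa [c11 _ (le_max_right z ρ)] at h1
  have c0 : ∀ z, z ≤ -ρ → c z = 0 := by
    intro z hz
    refine intervalIntegral.integral_zero_ae ?_
    refine Eventually.of_forall fun y hy => c10 y ?_
    rcases Set.mem_uIoc.1 hy with h | h
    · linarith [h.2]
    · linarith [h.2]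
  have cs : ∀ z, c z - c (-z) = z := by
    have h1 : ∀ z, HasDerivAt (fun z => c z - c (-z) - z) 0 z := by
      intro z
      have h2 : HasDerivAt (fun z => c (-z)) (c1 (-z) * -1) z :=
        (hcd (-z)).comp z (hasDerivAt_neg z)
      have h3 := ((hcd z).sub h2).sub (hasDerivAt_id z)
      have h4 : c1 z - c1 (-z) * -1 - 1 = 0 := by
        have := c1s z; linarith
      rw [h4] at h3
      exact h3
    have h4 : ∀ x y, (fun z => c z - c (-z) - z) x = (fun z => c z - c (-z) - z) y :=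
      is_const_of_deriv_eq_zero (fun z => (h1 z).differentiableAt) fun z => (h1 z).deriv
    intro z
    have h5 := h4 z 0
    simp only [neg_zero, sub_self] at h5
    linarith
  have cz : ∀ z, ρ ≤ z → c z = z := by
    intro z hz
    have := cs z
    rw [c0 (-z) (by linarith)] at this
    linarith
  have cm : Monotone c := monotone_of_deriv_nonneg (fun z => (hcd z).differentiableAt)
    fun z => by rw [d1]; exact (c1r z).1
  obtain ⟨K, hK⟩ := (isCompact_Icc (a := -ρ) (b := ρ)).exists_bound_of_continuousOn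
    hbc.continuousOn
  have hK0 : 0 ≤ K := (norm_nonneg _).trans (hK 0 ⟨by linarith, by linarith⟩)
  refine ⟨K, c, hK0, hcs, c0, cz, ?_, ?_, ?_, ?_, ?_, ?_⟩
  · rw [d1]; exact c1r
  · rw [d1]; exact c10
  · rw [d1]; exact c11
  · rw [d1, d2]
    intro z
    refine ⟨hb0 z, ?_⟩
    by_cases hz : |z| ≤ ρ
    · exact (le_abs_self _).trans (hK z (abs_le.1 hz))
    · rw [hbsupp z (not_le.1 hz).le]; exact hK0
  · rw [d1, d2]
    intro z hz
    exact hbsupp z hz.le
  · intro z hz
    rw [abs_le] at hz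
    have h1 := cm (show -1 ≤ z by linarith)
    have h2 := cm (show z ≤ 1 by linarith)
    rw [c0 (-1) (by linarith)] at h1
    rw [cz 1 (by linarith)] at h2
    rw [abs_of_nonneg h1]; exact h2

/-! ### the Taylor remainder along the lines -/

variable (r : V d → ℝ) (l : Fin d)

/-- unit vector -/
def ev (l : Fin d) : V d := Pi.single l 1

/-- second order Taylor remainder of the second antiderivative of `r` along `e_l` -/
def q (x : V d) (h : ℝ) : ℝ := h ^ 2 * ∫ s in (0 : ℝ)..1, (1 - s) * r (x + (s * h) • ev l)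

variable {r}

theorem q_smooth (hr : ContDiff ℝ ∞ r) : ContDiff ℝ ∞ fun p : V d × ℝ => q r l p.1 p.2 := by
  unfold q
  refine (contDiff_snd.pow 2).mul ?_
  refine contDiff_int (f := fun p : (V d × ℝ) × ℝ =>
    (1 - p.2) * r (p.1.1 + (p.2 * p.1.2) • ev l)) ?_
  refine (contDiff_const.sub contDiff_snd).mul (hr.comp ?_)
  refine (contDiff_fst.fst).add ?_
  exact (contDiff_snd.mul contDiff_fst.snd).smul contDiff_const

theorem q_line (x : V d) (h s : ℝ) :
    q r l (x + s • ev l) (h - s) = ∫ y in s..h, (h - y) * r (x + y • ev l) := by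
  have h1 := intervalIntegral.smul_integral_comp_add_mul
    (fun y => (h - y) * r (x + y • ev l)) (h - s) s (a := 0) (b := 1)
  rw [mul_zero, mul_one, add_zero, add_sub_cancel] at h1
  rw [← h1]
  unfold q
  rw [smul_eq_mul, sq, mul_assoc]
  congr 1
  rw [← intervalIntegral.integral_const_mul]
  congr 1
  funext t
  have e1 : x + s • ev l + (t * (h - s)) • ev l = x + (s + (h - s) * t) • ev l := by
    module
  rw [e1]
  ring

theorem cont_line (hr : ContDiff ℝ ∞ r) (x : V d) : Continuous fun y : ℝ => r (x + y • ev l) :=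
  hr.continuous.comp (by fun_prop)

theorem q_line_deriv (hr : ContDiff ℝ ∞ r) (x : V d) (h : ℝ) :
    HasDerivAt (fun s : ℝ => q r l (x + s • ev l) (h - s)) (-(h * r x)) 0 := by
  have hc : Continuous fun y : ℝ => (h - y) * r (x + y • ev l) :=
    (continuous_const.sub continuous_id).mul (cont_line l hr x)
  have h1 : (fun s : ℝ => q r l (x + s • ev l) (h - s)) =
      fun s => ∫ y in s..h, (h - y) * r (x + y • ev l) := by
    funext s; exact q_line l x h s
  rw [h1]
  have h2 := intervalIntegral.integral_hasDerivAt_left (hc.intervalIntegrable 0 h)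
    (hc.stronglyMeasurableAtFilter _ _) hc.continuousAt
  simpa using h2

theorem q_zero_line (x : V d) (h : ℝ) :
    q r l x h = ∫ y in (0 : ℝ)..h, (h - y) * r (x + y • ev l) := by
  have := q_line (r := r) l x h 0
  rwa [zero_smul, add_zero, sub_zero] at this

theorem q_deriv (hr : ContDiff ℝ ∞ r) (x : V d) (h : ℝ) :
    HasDerivAt (fun h : ℝ => q r l x h) (∫ y in (0 : ℝ)..h, r (x + y • ev l)) h := by
  have hc := cont_line l hr x
  have hc2 : Continuous fun y : ℝ => y * r (x + y • ev l) := continuous_id.mul hc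
  have h1 : (fun h : ℝ => q r l x h) = fun h => h * (∫ y in (0 : ℝ)..h, r (x + y • ev l)) -
      ∫ y in (0 : ℝ)..h, y * r (x + y • ev l) := by
    funext h
    rw [q_zero_line l]
    simp only [sub_mul]
    have i1 : IntervalIntegrable (fun y => h * r (x + y • ev l)) volume 0 h :=
      (continuous_const.mul hc).intervalIntegrable _ _
    rw [intervalIntegral.integral_sub i1 (hc2.intervalIntegrable _ _),
      intervalIntegral.integral_const_mul]
  rw [h1]
  have h2 := ((hasDerivAt_id h).mul (prim_deriv hc 0 h)).sub (prim_deriv hc2 0 h)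
  have h3 : 1 * (∫ y in (0 : ℝ)..h, r (x + y • ev l)) + id h * r (x + h • ev l) -
      h * r (x + h • ev l) = ∫ y in (0 : ℝ)..h, r (x + y • ev l) := by
    simp
  rw [h3] at h2
  exact h2

/-- second difference -/
def dq (r : V d → ℝ) (l : Fin d) (w : ℝ) (x : V d) (h : ℝ) : ℝ :=
  q r l x (h + w) - 2 * q r l x h + q r l x (h - w)

theorem dq_bounds (hr : ContDiff ℝ ∞ r) {R : ℝ} (hR : ∀ x, 0 ≤ r x ∧ r x ≤ R) {w : ℝ}
    (hw : 0 < w) (x : V d) (h : ℝ) : 0 ≤ dq r l w x h ∧ dq r l w x h ≤ 2 * w ^ 2 * R := by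
  have hc := cont_line l hr x
  have hd : ∀ h, HasDerivAt (fun h : ℝ => q r l x h) (∫ y in (0 : ℝ)..h, r (x + y • ev l)) h :=
    fun h => q_deriv l hr x h
  have hcq : Continuous fun h : ℝ => q r l x h :=
    continuous_iff_continuousAt.2 fun h => (hd h).continuousAt
  obtain ⟨a, ha, ha2⟩ := exists_hasDerivAt_eq_slope (fun h : ℝ => q r l x h)
    (fun h => ∫ y in (0 : ℝ)..h, r (x + y • ev l)) (show h < h + w by linarith)
    hcq.continuousOn fun h _ => hd h
  obtain ⟨b, hb, hb2⟩ := exists_hasDerivAt_eq_slope (fun h : ℝ => q r l x h)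
    (fun h => ∫ y in (0 : ℝ)..h, r (x + y • ev l)) (show h - w < h by linarith)
    hcq.continuousOn fun h _ => hd h
  have e : dq r l w x h = w * ∫ y in b..a, r (x + y • ev l) := by
    have e1 : ∫ y in b..a, r (x + y • ev l) = (∫ y in (0 : ℝ)..a, r (x + y • ev l)) -
        ∫ y in (0 : ℝ)..b, r (x + y • ev l) :=
      (intervalIntegral.integral_interval_sub_left (hc.intervalIntegrable _ _)
        (hc.intervalIntegrable _ _)).symm
    rw [e1, ha2, hb2]
    unfold dq
    have h1 : h + w - h = w := by ring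
    have h2 : h - (h - w) = w := by ring
    rw [h1, h2]
    field_simp
    ring
  have hba : b ≤ a := (hb.2.trans ha.1).le
  have i1 : 0 ≤ ∫ y in b..a, r (x + y • ev l) :=
    intervalIntegral.integral_nonneg hba fun y _ => (hR _).1
  have i2 : ∫ y in b..a, r (x + y • ev l) ≤ (a - b) * R := by
    have i3 : IntervalIntegrable (fun _ : ℝ => R) volume b a :=
      continuous_const.intervalIntegrable b a
    have := intervalIntegral.integral_mono_on hba (hc.intervalIntegrable b a)
      i3 fun y _ => (hR (x + y • ev l)).2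
    simpa using this
  have hR0 : 0 ≤ R := (hR x).1.trans (hR x).2
  rw [e]
  refine ⟨mul_nonneg hw.le i1, ?_⟩
  have h5 : a - b ≤ 2 * w := by linarith [ha.2, hb.1]
  calc w * ∫ y in b..a, r (x + y • ev l) ≤ w * ((a - b) * R) :=
        mul_le_mul_of_nonneg_left i2 hw.le
    _ ≤ w * ((2 * w) * R) := by
        refine mul_le_mul_of_nonneg_left (mul_le_mul_of_nonneg_right h5 hR0) hw.le
    _ = 2 * w ^ 2 * R := by ring

theorem q_bounds {R : ℝ} (hR : ∀ x, 0 ≤ r x ∧ r x ≤ R) (x : V d) (h : ℝ) :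
    |q r l x h| ≤ h ^ 2 * R := by
  unfold q
  rw [abs_mul, abs_of_nonneg (sq_nonneg h)]
  refine mul_le_mul_of_nonneg_left ?_ (sq_nonneg h)
  have h1 := intervalIntegral.norm_integral_le_of_norm_le_const (a := (0 : ℝ)) (b := 1) (C := R)
    (f := fun s => (1 - s) * r (x + (s * h) • ev l)) (fun s hs => by
      rw [Set.uIoc_of_le zero_le_one] at hs
      rw [Real.norm_eq_abs, abs_mul, abs_of_nonneg (by linarith [hs.2] : (0 : ℝ) ≤ 1 - s),
        abs_of_nonneg (hR _).1]
      have h2 := (hR (x + (s * h) • ev l)).2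
      have h3 := (hR (x + (s * h) • ev l)).1
      nlinarith [hs.1, hs.2])
  simpa using h1

theorem q_eq_zero {x : V d} {h a : ℝ} (ha : |h| ≤ a)
    (hz : ∀ s, |s| ≤ a → r (x + s • ev l) = 0) : q r l x h = 0 := by
  unfold q
  have h1 : ∫ s in (0 : ℝ)..1, (1 - s) * r (x + (s * h) • ev l) = 0 := by
    refine intervalIntegral.integral_zero_ae ?_
    refine Eventually.of_forall fun s hs => ?_
    rw [Set.uIoc_of_le zero_le_one] at hs
    rw [hz (s * h), mul_zero]
    rw [abs_mul, abs_of_nonneg hs.1.le]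
    nlinarith [abs_nonneg h, hs.2]
  rw [h1, mul_zero]

theorem q_congr {x x' : V d} (hx : ∀ t : ℝ, r (x' + t • ev l) = r (x + t • ev l)) (h : ℝ) :
    q r l x' h = q r l x h := by
  unfold q
  simp only [hx]

/-! ### the functions `G`, `∂_l G`, `P` in local coordinates -/

/-- local form of `G` -/
def Gm (r : V d → ℝ) (l : Fin d) (c : ℝ → ℝ) (w : ℝ) (x : V d) (z : ℝ) : ℝ :=
  q r l x (-(w * z)) + z * (q r l x (-(w * z)) - q r l x (-(w * z) - w)) +
    dq r l w x (-(w * z)) * c z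

/-- local form of `∂_l G` -/
def Gm1 (r : V d → ℝ) (l : Fin d) (c : ℝ → ℝ) (w : ℝ) (x : V d) (z : ℝ) : ℝ :=
  1 / w * ((q r l x (-(w * z)) - q r l x (-(w * z) - w)) + dq r l w x (-(w * z)) * deriv c z)

/-- local form of `P` -/
def Pm (r : V d → ℝ) (l : Fin d) (c : ℝ → ℝ) (w : ℝ) (x : V d) (z : ℝ) : ℝ :=
  1 / w ^ 2 * (dq r l w x (-(w * z)) * deriv (deriv c) z)

/-- the profile -/
structure Pr (ρ K : ℝ) (c : ℝ → ℝ) : Prop where
  ρ0 : 0 < ρ
  ρ4 : ρ < 1 / 4
  K0 : 0 ≤ K
  sm : ContDiff ℝ ∞ c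
  c0 : ∀ z, z ≤ -ρ → c z = 0
  cz : ∀ z, ρ ≤ z → c z = z
  d1 : ∀ z, 0 ≤ deriv c z ∧ deriv c z ≤ 1
  d10 : ∀ z, z ≤ -ρ → deriv c z = 0
  d11 : ∀ z, ρ ≤ z → deriv c z = 1
  d2 : ∀ z, 0 ≤ deriv (deriv c) z ∧ deriv (deriv c) z ≤ K
  d20 : ∀ z, ρ < |z| → deriv (deriv c) z = 0
  cb : ∀ z, |z| ≤ 3 / 4 → |c z| ≤ 1

section loc

variable {c : ℝ → ℝ} {ρ K w : ℝ}

theorem Gm_shift (hc : Pr ρ K c) (x : V d) {z : ℝ} (h1 : 1 / 4 < z) (h2 : z < 3 / 4) :
    Gm r l c w x z = Gm r l c w x (z - 1) := by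
  have h4 := hc.ρ4
  unfold Gm dq
  rw [hc.cz z (by linarith), hc.c0 (z - 1) (by linarith)]
  have e1 : -(w * (z - 1)) = -(w * z) + w := by ring
  have e2 : -(w * z) + w - w = -(w * z) := by ring
  rw [e1, e2]
  ring

theorem Gm1_shift (hc : Pr ρ K c) (x : V d) {z : ℝ} (h1 : 1 / 4 < z) (h2 : z < 3 / 4) :
    Gm1 r l c w x z = Gm1 r l c w x (z - 1) := by
  have h4 := hc.ρ4
  unfold Gm1 dq
  rw [hc.d11 z (by linarith), hc.d10 (z - 1) (by linarith)]
  have e1 : -(w * (z - 1)) = -(w * z) + w := by ring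
  have e2 : -(w * z) + w - w = -(w * z) := by ring
  rw [e1, e2]
  ring

theorem Pm_shift (hc : Pr ρ K c) (x : V d) {z : ℝ} (h1 : 1 / 4 < z) (h2 : z < 3 / 4) :
    Pm r l c w x z = Pm r l c w x (z - 1) := by
  have h4 := hc.ρ4
  unfold Pm
  rw [hc.d20 z (by rw [abs_of_pos (by linarith)]; linarith),
    hc.d20 (z - 1) (by rw [abs_of_neg (by linarith)]; linarith)]
  ring

theorem Gm_smooth (hr : ContDiff ℝ ∞ r) (hc : Pr ρ K c) :
    ContDiff ℝ ∞ fun p : V d × ℝ => Gm r l c w p.1 p.2 := by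
  have hq : ∀ g : V d × ℝ → ℝ, ContDiff ℝ ∞ g →
      ContDiff ℝ ∞ fun p : V d × ℝ => q r l p.1 (g p) := fun g hg =>
    (q_smooth l hr).comp (contDiff_fst.prodMk hg)
  have h0 : ContDiff ℝ ∞ fun p : V d × ℝ => -(w * p.2) := (contDiff_const.mul contDiff_snd).neg
  have h1 : ContDiff ℝ ∞ fun p : V d × ℝ => -(w * p.2) - w := h0.sub contDiff_const
  have h2 : ContDiff ℝ ∞ fun p : V d × ℝ => -(w * p.2) + w := h0.add contDiff_const
  have h3 : ContDiff ℝ ∞ fun p : V d × ℝ => c p.2 := hc.sm.comp contDiff_snd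
  unfold Gm dq
  exact ((hq _ h0).add (contDiff_snd.mul ((hq _ h0).sub (hq _ h1)))).add
    ((((hq _ h2).sub (contDiff_const.mul (hq _ h0))).add (hq _ h1)).mul h3)

theorem Pm_smooth (hr : ContDiff ℝ ∞ r) (hc : Pr ρ K c) :
    ContDiff ℝ ∞ fun p : V d × ℝ => Pm r l c w p.1 p.2 := by
  have hq : ∀ g : V d × ℝ → ℝ, ContDiff ℝ ∞ g →
      ContDiff ℝ ∞ fun p : V d × ℝ => q r l p.1 (g p) := fun g hg =>
    (q_smooth l hr).comp (contDiff_fst.prodMk hg)
  have h0 : ContDiff ℝ ∞ fun p : V d × ℝ => -(w * p.2) := (contDiff_const.mul contDiff_snd).neg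
  have h1 : ContDiff ℝ ∞ fun p : V d × ℝ => -(w * p.2) - w := h0.sub contDiff_const
  have h2 : ContDiff ℝ ∞ fun p : V d × ℝ => -(w * p.2) + w := h0.add contDiff_const
  have hs1 := (contDiff_infty_iff_deriv.1 hc.sm).2
  have hs2 := (contDiff_infty_iff_deriv.1 hs1).2
  have h3 : ContDiff ℝ ∞ fun p : V d × ℝ => deriv (deriv c) p.2 := hs2.comp contDiff_snd
  unfold Pm dq
  exact contDiff_const.mul
    ((((hq _ h2).sub (contDiff_const.mul (hq _ h0))).add (hq _ h1)).mul h3)

/-- derivatives along the line of the shifted arguments -/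
theorem q_arg_deriv (hr : ContDiff ℝ ∞ r) (hw : 0 < w) (x : V d) (z a : ℝ) :
    HasDerivAt (fun s : ℝ => q r l (x + s • ev l) (-(w * (z + s / w)) + a))
      (-((-(w * z) + a) * r x)) 0 := by
  have h := q_line_deriv l hr x (-(w * z) + a)
  have e : (fun s : ℝ => q r l (x + s • ev l) (-(w * (z + s / w)) + a)) =
      fun s : ℝ => q r l (x + s • ev l) (-(w * z) + a - s) := by
    funext s
    congr 1
    field_simp
    ring
  rw [e]; exact h

theorem z_deriv (z : ℝ) : HasDerivAt (fun s : ℝ => z + s / w) (1 / w) 0 :=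
  ((hasDerivAt_id (0 : ℝ)).div_const w).const_add z

theorem dq_deriv (hr : ContDiff ℝ ∞ r) (hw : 0 < w) (x : V d) (z : ℝ) :
    HasDerivAt (fun s : ℝ => dq r l w (x + s • ev l) (-(w * (z + s / w)))) 0 0 := by
  have h0 := q_arg_deriv l hr hw x z 0
  have h1 := q_arg_deriv l hr hw x z w
  have h2 := q_arg_deriv l hr hw x z (-w)
  simp only [add_zero] at h0
  simp only [← sub_eq_add_neg] at h2
  have h3 := (h1.sub (h0.const_mul 2)).add h2
  have e : -((-(w * z) + w) * r x) - 2 * -(-(w * z) * r x) + -((-(w * z) - w) * r x) = 0 := by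
    ring
  rw [e] at h3
  exact h3

theorem Gm_deriv (hr : ContDiff ℝ ∞ r) (hc : Pr ρ K c) (hw : 0 < w) (x : V d) (z : ℝ) :
    HasDerivAt (fun s : ℝ => Gm r l c w (x + s • ev l) (z + s / w)) (Gm1 r l c w x z) 0 := by
  have h0 := q_arg_deriv l hr hw x z 0
  have h2 := q_arg_deriv l hr hw x z (-w)
  simp only [add_zero] at h0
  simp only [← sub_eq_add_neg] at h2
  have hz := z_deriv (w := w) z
  have hcz : HasDerivAt c (deriv c z) (z + 0 / w) := by
    rw [zero_div, add_zero]
    exact (hc.sm.differentiable (by simp) z).hasDerivAt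
  have hcc : HasDerivAt (fun s : ℝ => c (z + s / w)) (deriv c z * (1 / w)) 0 :=
    hcz.comp (0 : ℝ) hz
  have h3 := (h0.add (hz.mul (h0.sub h2))).add ((dq_deriv l hr hw x z).mul hcc)
  refine h3.congr_deriv ?_
  unfold Gm1
  simp only [zero_div, add_zero, zero_smul, zero_mul, zero_add, Pi.sub_apply]
  ring

theorem Gm1_deriv (hr : ContDiff ℝ ∞ r) (hc : Pr ρ K c) (hw : 0 < w) (x : V d) (z : ℝ) :
    HasDerivAt (fun s : ℝ => Gm1 r l c w (x + s • ev l) (z + s / w))
      (Pm r l c w x z - r x) 0 := by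
  have h0 := q_arg_deriv l hr hw x z 0
  have h2 := q_arg_deriv l hr hw x z (-w)
  simp only [add_zero] at h0
  simp only [← sub_eq_add_neg] at h2
  have hz := z_deriv (w := w) z
  have hs1 := (contDiff_infty_iff_deriv.1 hc.sm).2
  have hcz : HasDerivAt (deriv c) (deriv (deriv c) z) (z + 0 / w) := by
    rw [zero_div, add_zero]
    exact (hs1.differentiable (by simp) z).hasDerivAt
  have hcc : HasDerivAt (fun s : ℝ => deriv c (z + s / w)) (deriv (deriv c) z * (1 / w)) 0 :=
    HasDerivAt.comp (h₂ := deriv c) (h := fun s : ℝ => z + s / w) (0 : ℝ) hcz hz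
  have h3 := ((h0.sub h2).add ((dq_deriv l hr hw x z).mul hcc)).const_mul (1 / w)
  refine h3.congr_deriv ?_
  unfold Pm
  simp only [zero_div, add_zero, zero_smul, zero_mul, zero_add]
  field_simp
  ring

end loc

/-! ### global definitions -/

section glob

variable {c : ℝ → ℝ} {ρ K : ℝ}

/-- the coordinate `(ξ - t_0) / w` -/
def Yc (k l : Fin d) (u : V d) (N : ℕ) (p : ℝ) (x : V d) : ℝ :=
  (x l - u l / u k * x k) * N - p

theorem Yc_smooth (k l : Fin d) (u : V d) (N : ℕ) (p : ℝ) : ContDiff ℝ ∞ (Yc k l u N p) := by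
  unfold Yc
  exact (((contDiff_apply ℝ ℝ l).sub (contDiff_const.mul (contDiff_apply ℝ ℝ k))).mul
    contDiff_const).sub contDiff_const

theorem Yc_line {k l : Fin d} (hkl : k ≠ l) (u : V d) {N : ℕ} (p : ℝ) (x : V d)
    (s : ℝ) : Yc k l u N p (x + s • ev l) = Yc k l u N p x + s * N := by
  unfold Yc ev
  simp only [Pi.add_apply, Pi.smul_apply, Pi.single_eq_same, smul_eq_mul, mul_one,
    Pi.single_eq_of_ne hkl, mul_zero, add_zero]
  ring

theorem Yc_u {k l : Fin d} {u : V d} (hu : u k ≠ 0) (N : ℕ) (p : ℝ) (x : V d)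
    (s : ℝ) : Yc k l u N p (x + s • u) = Yc k l u N p x := by
  unfold Yc
  simp only [Pi.add_apply, Pi.smul_apply, smul_eq_mul]
  field_simp
  ring

theorem Yc_per {k l : Fin d} {u : V d} {N : ℕ} (hz : ∃ z : ℤ, (N : ℝ) * (u l / u k) = z)
    (p : ℝ) (x : V d) (i : Fin d) :
    ∃ m : ℤ, Yc k l u N p (x + Pi.single i 1) = Yc k l u N p x + m := by
  obtain ⟨z, hz⟩ := hz
  have h1 : ∀ j : Fin d, ∃ m : ℤ, (Pi.single i 1 : V d) j = m := by
    intro j
    by_cases hij : j = i
    · subst hij; exact ⟨1, by simp⟩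
    · exact ⟨0, by simp [hij]⟩
  obtain ⟨a, ha⟩ := h1 l
  obtain ⟨b, hb⟩ := h1 k
  refine ⟨a * N - z * b, ?_⟩
  unfold Yc
  simp only [Pi.add_apply, ha, hb]
  push_cast
  rw [← hz]
  ring

/-- fractional coordinate -/
def Zc (k l : Fin d) (u : V d) (N : ℕ) (p : ℝ) (x : V d) : ℝ :=
  Yc k l u N p x - round (Yc k l u N p x)

theorem Zc_abs (k l : Fin d) (u : V d) (N : ℕ) (p : ℝ) (x : V d) :
    |Zc k l u N p x| ≤ 1 / 2 := abs_sub_round _

theorem Zc_per {k l : Fin d} {u : V d} {N : ℕ} (hz : ∃ z : ℤ, (N : ℝ) * (u l / u k) = z)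
    (p : ℝ) (x : V d) (i : Fin d) :
    Zc k l u N p (x + Pi.single i 1) = Zc k l u N p x := by
  obtain ⟨m, hm⟩ := Yc_per hz p x i
  unfold Zc
  rw [hm, round_add_intCast]
  push_cast
  ring

theorem Zc_u {k l : Fin d} {u : V d} (hu : u k ≠ 0) (N : ℕ) (p : ℝ) (x : V d)
    (s : ℝ) : Zc k l u N p (x + s • u) = Zc k l u N p x := by
  unfold Zc
  rw [Yc_u hu]

/-- independence of the choice of the nearest node -/
theorem near {Φ : ℝ → ℝ} (hΦ : ∀ z, 1 / 4 < z → z < 3 / 4 → Φ z = Φ (z - 1)) (y : ℝ) (n : ℤ)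
    (h : |y - n| < 3 / 4) : Φ (y - round y) = Φ (y - n) := by
  have h1 := abs_sub_round y
  rw [abs_le] at h1
  rw [abs_lt] at h
  have h2 : ((round y : ℤ) : ℝ) - n < 2 := by linarith [h1.1, h.2]
  have h3 : -2 < ((round y : ℤ) : ℝ) - n := by linarith [h1.2, h.1]
  have h4 : round y - n < 2 := by exact_mod_cast h2
  have h5 : -2 < round y - n := by exact_mod_cast h3
  have h6 : round y = n - 1 ∨ round y = n ∨ round y = n + 1 := by omega
  rcases h6 with h6 | h6 | h6
  · rw [h6] at h1 ⊢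
    push_cast at h1 ⊢
    have e := hΦ (y - (n - 1)) (by linarith [h.1]) (by linarith [h1.2])
    rw [e]
    congr 1
    ring
  · rw [h6]
  · rw [h6] at h1 ⊢
    push_cast at h1 ⊢
    have e := hΦ (y - n) (by linarith [h1.1]) (by linarith [h.2])
    rw [e]
    congr 1
    ring

theorem near_ev (k l : Fin d) (u : V d) (N : ℕ) (p : ℝ) (x : V d) :
    ∀ᶠ x' in 𝓝 x, |Yc k l u N p x' - round (Yc k l u N p x)| < 3 / 4 := by
  have hc : Continuous fun x' => |Yc k l u N p x' - round (Yc k l u N p x)| :=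
    ((Yc_smooth k l u N p).continuous.sub continuous_const).abs
  refine hc.continuousAt.eventually_lt continuousAt_const ?_
  exact lt_of_le_of_lt (abs_sub_round _) (by norm_num)

variable {w : ℝ}

/-- a function given by a local form is smooth -/
theorem glob_smooth {Φ : V d → ℝ → ℝ} (hs : ContDiff ℝ ∞ fun p : V d × ℝ => Φ p.1 p.2)
    (hΦ : ∀ x z, 1 / 4 < z → z < 3 / 4 → Φ x z = Φ x (z - 1)) (k l : Fin d) (u : V d) (N : ℕ)
    (p : ℝ) : ContDiff ℝ ∞ fun x => Φ x (Zc k l u N p x) := by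
  rw [contDiff_iff_contDiffAt]
  intro x
  set n := round (Yc k l u N p x) with hn
  have h1 : ContDiffAt ℝ ∞ (fun x' => Φ x' (Yc k l u N p x' - n)) x :=
    (hs.comp (contDiff_id.prodMk ((Yc_smooth k l u N p).sub contDiff_const))).contDiffAt
  refine h1.congr_of_eventuallyEq ?_
  filter_upwards [near_ev k l u N p x] with x' hx'
  exact near (hΦ x') _ _ hx'

/-- the derivative along `e_l` -/
theorem glob_deriv {Φ Ψ : V d → ℝ → ℝ} {k l : Fin d} (hkl : k ≠ l) (u : V d) {N : ℕ}
    (_hN : 0 < N) (p : ℝ) (hd : Differentiable ℝ fun x => Φ x (Zc k l u N p x))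
    (hΦ : ∀ x z, 1 / 4 < z → z < 3 / 4 → Φ x z = Φ x (z - 1))
    (hder : ∀ x z, HasDerivAt (fun s : ℝ => Φ (x + s • ev l) (z + s / (1 / (N : ℝ)))) (Ψ x z) 0)
    (x : V d) :
    fderiv ℝ (fun x => Φ x (Zc k l u N p x)) x (Pi.single l 1) = Ψ x (Zc k l u N p x) := by
  set n := round (Yc k l u N p x) with hn
  have hline : HasDerivAt (fun s : ℝ => x + s • ev l) (ev l) 0 := by
    have := ((hasDerivAt_id (0 : ℝ)).smul_const (ev l)).const_add x
    simpa using this
  have hf : HasFDerivAt (fun x => Φ x (Zc k l u N p x))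
      (fderiv ℝ (fun x => Φ x (Zc k l u N p x)) x) (x + (0 : ℝ) • ev l) := by
    rw [zero_smul, add_zero]
    exact (hd x).hasFDerivAt
  have h1 : HasDerivAt (fun s : ℝ => Φ (x + s • ev l) (Zc k l u N p (x + s • ev l)))
      (fderiv ℝ (fun x => Φ x (Zc k l u N p x)) x (ev l)) 0 :=
    HasFDerivAt.comp_hasDerivAt (f := fun s : ℝ => x + s • ev l)
      (l := fun x => Φ x (Zc k l u N p x)) (0 : ℝ) hf hline
  have h2 : HasDerivAt (fun s : ℝ => Φ (x + s • ev l) (Zc k l u N p (x + s • ev l)))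
      (Ψ x (Yc k l u N p x - n)) 0 := by
    refine (hder x (Yc k l u N p x - n)).congr_of_eventuallyEq ?_
    have hcl : Tendsto (fun s : ℝ => x + s • ev l) (𝓝 0) (𝓝 x) := by
      have := hline.continuousAt
      have e : x = x + (0 : ℝ) • ev l := by rw [zero_smul, add_zero]
      conv => rhs; rw [e]
      exact this
    filter_upwards [hcl.eventually (near_ev k l u N p x)] with s hs
    have h3 := near (hΦ (x + s • ev l)) _ _ hs
    have h4 : Yc k l u N p x - n + s / (1 / (N : ℝ)) = Yc k l u N p (x + s • ev l) - n := by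
      rw [Yc_line hkl, one_div, div_inv_eq_mul]; ring
    rw [h4]
    exact h3
  exact h1.unique h2

end glob

end InterpAux

open InterpAux in
/-- B3 -/
theorem Interp_ok (hP : StmtParts d) : StmtInterp d := by
  intro ρ hρ hρ4
  obtain ⟨K, c, k1, k2, k3, k4, k5, k6, k7, k8, k9, k10⟩ := exists_profile ρ hρ hρ4
  have hc : Pr ρ K c := ⟨hρ, hρ4, k1, k2, k3, k4, k5, k6, k7, k8, k9, k10⟩
  refine ⟨7 + 2 * K, by linarith, ?_⟩
  intro k l hkl u hu N hN hz p R r hr hper hinv hR
  have hN' : (0 : ℝ) < N := by exact_mod_cast hN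
  set w : ℝ := 1 / (N : ℝ) with hw
  have hw0 : 0 < w := by positivity
  have hR0 : 0 ≤ R := (hR 0).1.trans (hR 0).2
  set Z := Zc k l u N p with hZ
  have hZa : ∀ x, |Z x| ≤ 1 / 2 := Zc_abs k l u N p
  set G : V d → ℝ := fun x => Gm r l c w x (Z x) with hG
  set G1 : V d → ℝ := fun x => Gm1 r l c w x (Z x) with hG1
  set P : V d → ℝ := fun x => Pm r l c w x (Z x) with hPd
  have hGs : ContDiff ℝ ∞ G := glob_smooth (Gm_smooth l hr hc)
    (fun x z h1 h2 => Gm_shift l hc x h1 h2) k l u N p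
  have hPs : ContDiff ℝ ∞ P := glob_smooth (Pm_smooth l hr hc)
    (fun x z h1 h2 => Pm_shift l hc x h1 h2) k l u N p
  have hGd : ∀ x, fderiv ℝ G x (Pi.single l 1) = G1 x := fun x =>
    glob_deriv hkl u hN p (hGs.differentiable (by simp))
      (fun x z h1 h2 => Gm_shift l hc x h1 h2) (fun x z => Gm_deriv l hr hc hw0 x z) x
  have hG1s : ContDiff ℝ ∞ G1 := by
    have h1 : G1 = fun x => fderiv ℝ G x (Pi.single l 1) := by funext x; rw [hGd]
    rw [h1]
    exact ((contDiff_infty_iff_fderiv.1 hGs).2).clm_apply contDiff_const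
  have hG1d : ∀ x, fderiv ℝ G1 x (Pi.single l 1) = P x - r x := fun x =>
    glob_deriv (Φ := Gm1 r l c w) (Ψ := fun x z => Pm r l c w x z - r x) hkl u hN p
      (hG1s.differentiable (by simp))
      (fun x z h1 h2 => Gm1_shift l hc x h1 h2) (fun x z => Gm1_deriv l hr hc hw0 x z) x
  -- periodicity
  have hqp : ∀ (x : V d) (i : Fin d) (h : ℝ), q r l (x + Pi.single i 1) h = q r l x h := by
    intro x i h
    refine q_congr l (fun t => ?_) h
    rw [add_right_comm]
    exact hper _ i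
  have hqu : ∀ (x : V d) (t h : ℝ), q r l (x + t • u) h = q r l x h := by
    intro x t h
    refine q_congr l (fun s => ?_) h
    rw [add_right_comm]
    exact hinv _ t
  have hZp : ∀ x i, Z (x + Pi.single i 1) = Z x := fun x i => Zc_per hz p x i
  have hZu : ∀ x (t : ℝ), Z (x + t • u) = Z x := fun x t => Zc_u hu N p x t
  have hGp : Per G := by
    intro x i
    simp only [hG, hZp, Gm, dq, hqp]
  have hG1p : Per G1 := by
    intro x i
    simp only [hG1, hZp, Gm1, dq, hqp]
  have hPp : Per P := by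
    intro x i
    simp only [hPd, hZp, Pm, dq, hqp]
  -- bounds
  have qb : ∀ x h, |h| ≤ 3 / 2 * w → |q r l x h| ≤ 9 / 4 * w ^ 2 * R := by
    intro x h hh
    refine (q_bounds l hR x h).trans ?_
    refine mul_le_mul_of_nonneg_right ?_ hR0
    have h1 : h ^ 2 ≤ (3 / 2 * w) ^ 2 := by
      rw [← sq_abs h]
      exact pow_le_pow_left₀ (abs_nonneg _) hh 2
    nlinarith
  have a0 : ∀ x, |-(w * Z x)| ≤ 3 / 2 * w := by
    intro x
    rw [abs_neg, abs_mul, abs_of_pos hw0]
    have := hZa x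
    nlinarith
  have a1 : ∀ x, |-(w * Z x) - w| ≤ 3 / 2 * w := by
    intro x
    have h1 := abs_le.1 (hZa x)
    rw [abs_le]
    constructor <;> nlinarith [h1.1, h1.2]
  have a2 : ∀ x, |-(w * Z x) + w| ≤ 3 / 2 * w := by
    intro x
    have h1 := abs_le.1 (hZa x)
    rw [abs_le]
    constructor <;> nlinarith [h1.1, h1.2]
  have hS : 0 ≤ w ^ 2 * R := by positivity
  refine ⟨G, P, hGs, hPs, hGp, hPp, ?_, ?_, ?_, ?_, ?_, ?_, ?_, ?_, ?_⟩
  · intro x t
    simp only [hG, hZu, Gm, dq, hqu]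
  · intro x t
    simp only [hPd, hZu, Pm, dq, hqu]
  · intro x
    have b0 := abs_le.1 (qb x _ (a0 x))
    have b1 := abs_le.1 (qb x _ (a1 x))
    have b2 := dq_bounds l hr hR hw0 x (-(w * Z x))
    have b3 := abs_le.1 (hc.cb (Z x) ((hZa x).trans (by norm_num)))
    have b4 := abs_le.1 (hZa x)
    show |Gm r l c w x (Z x)| ≤ (7 + 2 * K) * R * w ^ 2
    unfold Gm
    have t1 : |Z x * (q r l x (-(w * Z x)) - q r l x (-(w * Z x) - w))| ≤
        9 / 4 * w ^ 2 * R := by
      rw [abs_mul]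
      have h5 : |q r l x (-(w * Z x)) - q r l x (-(w * Z x) - w)| ≤ 9 / 2 * w ^ 2 * R := by
        rw [abs_le]; constructor <;> linarith [b0.1, b0.2, b1.1, b1.2]
      have h6 := hZa x
      have h7 := abs_nonneg (Z x)
      have h8 := abs_nonneg (q r l x (-(w * Z x)) - q r l x (-(w * Z x) - w))
      nlinarith
    have t2 : |dq r l w x (-(w * Z x)) * c (Z x)| ≤ 2 * w ^ 2 * R := by
      rw [abs_mul, abs_of_nonneg b2.1]
      have h6 := hc.cb (Z x) ((hZa x).trans (by norm_num))
      calc _ ≤ (2 * w ^ 2 * R) * 1 :=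
            mul_le_mul b2.2 h6 (abs_nonneg _) (by positivity)
        _ = _ := mul_one _
    have t3 := abs_add_three (q r l x (-(w * Z x)))
      (Z x * (q r l x (-(w * Z x)) - q r l x (-(w * Z x) - w)))
      (dq r l w x (-(w * Z x)) * c (Z x))
    have t0 := qb x _ (a0 x)
    nlinarith [mul_nonneg hc.K0 hS]
  · intro x
    rw [hGd]
    have b0 := abs_le.1 (qb x _ (a0 x))
    have b1 := abs_le.1 (qb x _ (a1 x))
    have b2 := dq_bounds l hr hR hw0 x (-(w * Z x))
    show |Gm1 r l c w x (Z x)| ≤ (7 + 2 * K) * R * w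
    unfold Gm1
    have h5 : |q r l x (-(w * Z x)) - q r l x (-(w * Z x) - w)| ≤ 9 / 2 * w ^ 2 * R := by
      rw [abs_le]; constructor <;> linarith [b0.1, b0.2, b1.1, b1.2]
    have t2 : |dq r l w x (-(w * Z x)) * deriv c (Z x)| ≤ 2 * w ^ 2 * R := by
      rw [abs_mul, abs_of_nonneg b2.1, abs_of_nonneg (hc.d1 _).1]
      calc _ ≤ (2 * w ^ 2 * R) * 1 :=
            mul_le_mul b2.2 (hc.d1 _).2 (hc.d1 _).1 (by positivity)
        _ = _ := mul_one _
    rw [abs_mul, abs_of_pos (one_div_pos.2 hw0)]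
    have t3 := abs_add_le (q r l x (-(w * Z x)) - q r l x (-(w * Z x) - w))
      (dq r l w x (-(w * Z x)) * deriv c (Z x))
    have t4 : |q r l x (-(w * Z x)) - q r l x (-(w * Z x) - w) +
        dq r l w x (-(w * Z x)) * deriv c (Z x)| ≤ (7 + 2 * K) * (w ^ 2 * R) := by
      nlinarith [mul_nonneg hc.K0 hS]
    calc 1 / w * |q r l x (-(w * Z x)) - q r l x (-(w * Z x) - w) +
        dq r l w x (-(w * Z x)) * deriv c (Z x)| ≤ 1 / w * ((7 + 2 * K) * (w ^ 2 * R)) :=
          mul_le_mul_of_nonneg_left t4 (by positivity)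
      _ = (7 + 2 * K) * R * w := by field_simp
  · intro x
    have b2 := dq_bounds l hr hR hw0 x (-(w * Z x))
    show 0 ≤ Pm r l c w x (Z x) ∧ Pm r l c w x (Z x) ≤ (7 + 2 * K) * R
    unfold Pm
    refine ⟨mul_nonneg (by positivity) (mul_nonneg b2.1 (hc.d2 _).1), ?_⟩
    have h1 : dq r l w x (-(w * Z x)) * deriv (deriv c) (Z x) ≤ (2 * w ^ 2 * R) * K :=
      mul_le_mul b2.2 (hc.d2 _).2 (hc.d2 _).1 (by positivity)
    calc 1 / w ^ 2 * (dq r l w x (-(w * Z x)) * deriv (deriv c) (Z x))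
        ≤ 1 / w ^ 2 * ((2 * w ^ 2 * R) * K) := mul_le_mul_of_nonneg_left h1 (by positivity)
      _ = 2 * K * R := by field_simp
      _ ≤ (7 + 2 * K) * R := by nlinarith
  · intro x
    have e : (fun y => fderiv ℝ G y (Pi.single l 1)) = G1 := by funext y; exact hGd y
    rw [e, hG1d]; ring
  · have e1 : ∀ x, P x = r x + fderiv ℝ G1 x (Pi.single l 1) := by
      intro x; rw [hG1d]; ring
    have hcomp : IsCompact (cell d) := isCompact_Icc
    have i1 : IntegrableOn r (cell d) := hr.continuous.continuousOn.integrableOn_compact hcomp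
    have hfc : Continuous fun x => fderiv ℝ G1 x (Pi.single l 1) :=
      (hG1s.continuous_fderiv (by simp)).clm_apply continuous_const
    have i2 : IntegrableOn (fun x => fderiv ℝ G1 x (Pi.single l 1)) (cell d) :=
      hfc.continuousOn.integrableOn_compact hcomp
    simp only [e1]
    rw [integral_add i1 i2, hP G1 (hG1s.of_le (by exact_mod_cast le_top)) hG1p l, add_zero]
  · intro x hx
    by_contra hcon
    push Not at hcon
    apply hx
    have hz0 : ∀ s, |s| ≤ 3 / 2 * w → r (x + s • ev l) = 0 := by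
      intro s hs
      have h1 := hcon s (hs.trans (by rw [hw]; ring_nf; nlinarith [inv_pos.2 hN']))
      rwa [show (Pi.single l s : V d) = s • ev l by
        unfold ev; rw [← Pi.single_smul]; simp] at h1
    show Gm r l c w x (Z x) = 0
    unfold Gm dq
    rw [q_eq_zero l (a0 x) hz0, q_eq_zero l (a1 x) hz0, q_eq_zero l (a2 x) hz0]
    ring
  · intro x hx
    refine ⟨?_, ?_⟩
    · by_contra hcon
      push Not at hcon
      apply hx
      have hz0 : ∀ s, |s| ≤ 3 / 2 * w → r (x + s • ev l) = 0 := by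
        intro s hs
        have h1 := hcon s (hs.trans (by rw [hw]; ring_nf; nlinarith [inv_pos.2 hN']))
        rwa [show (Pi.single l s : V d) = s • ev l by
          unfold ev; rw [← Pi.single_smul]; simp] at h1
      show Pm r l c w x (Z x) = 0
      unfold Pm dq
      rw [q_eq_zero l (a0 x) hz0, q_eq_zero l (a1 x) hz0, q_eq_zero l (a2 x) hz0]
      ring
    · have h1 : |Z x| ≤ ρ := by
        by_contra hcon
        apply hx
        show Pm r l c w x (Z x) = 0
        unfold Pm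
        rw [hc.d20 _ (not_le.1 hcon)]
        ring
      refine ⟨round (Yc k l u N p x), ?_⟩
      have e : x l - u l / u k * x k - (p + round (Yc k l u N p x)) / N = Z x / N := by
        rw [hZ]
        unfold Zc
        have h2 : Yc k l u N p x = (x l - u l / u k * x k) * N - p := rfl
        generalize round (Yc k l u N p x) = m
        rw [h2]
        field_simp
        ring
      rw [e, abs_div, abs_of_pos hN']
      exact div_le_div_of_nonneg_right h1 hN'.le


end Pool.Agent.Lib.MP_5df1bf_an
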