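import Pool.Agent.Lib.MP_5df1bf_an.KP

/-!
# MP_5df1bf_an: relative rigid motion of the block and the frame (C5c)
-/

open MeasureTheory Filter Topology
open scoped BigOperators ContDiff

noncomputable section

namespace Pool.Agent.Lib.MP_5df1bf_an

variable {d : ℕ}

namespace RelAux

open KPAux

/-! ### finite dimensional lemmas -/

theorem sq_sum_le {ι : Type*} [Fintype ι] (a b : ι → ℝ) :
    (∑ i, a i * b i) ^ 2 ≤ (∑ i, (a i) ^ 2) * ∑ i, (b i) ^ 2 :=
  Finset.sum_mul_sq_le_sq_mul_sq Finset.univ a b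

theorem dot_sq_le (a b : V d) : (dot a b) ^ 2 ≤ dot a a * dot b b := by
  have h := sq_sum_le a b
  unfold dot
  simpa only [sq] using h

theorem dot_add_le (a b : V d) : dot (a + b) (a + b) ≤ 2 * dot a a + 2 * dot b b := by
  have h := dot_self_nonneg (a - b)
  rw [dot_sub_left, dot_sub_right, dot_sub_right] at h
  rw [dot_add_left, dot_add_right, dot_add_right]
  linarith

theorem mulV_sub (A B : M d) (x : V d) : mulV (A - B) x = mulV A x - mulV B x := by
  ext i
  simp only [mulV, Pi.sub_apply, sub_mul, Finset.sum_sub_distrib]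

theorem mulV_add (A : M d) (x y : V d) : mulV A (x + y) = mulV A x + mulV A y := by
  ext i
  simp only [mulV, Pi.add_apply, mul_add, Finset.sum_add_distrib]

theorem mulV_sq_le (S : M d) (x : V d) : dot (mulV S x) (mulV S x) ≤ ip S S * dot x x := by
  unfold dot ip
  rw [Finset.sum_mul]
  refine Finset.sum_le_sum fun i _ => ?_
  have h := sq_sum_le (S i) x
  simp only [mulV]
  simpa only [sq] using h

theorem skew_quad {S : M d} (hS : ∀ i j, S i j = - S j i) (z : V d) : dot z (mulV S z) = 0 := by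
  have h : dot z (mulV S z) = - dot z (mulV S z) := by
    conv_lhs => unfold dot mulV
    simp only [Finset.mul_sum]
    rw [Finset.sum_comm]
    unfold dot mulV
    simp only [Finset.mul_sum, ← Finset.sum_neg_distrib]
    refine Finset.sum_congr rfl fun i _ => Finset.sum_congr rfl fun j _ => ?_
    rw [hS j i]; ring
  linarith

theorem int_lin {K : Set (V d)} (hK : IsCompact K) {f g : V d → ℝ} (hf : Continuous f)
    (hg : Continuous g) (a b : ℝ) :
    ∫ x in K, (a * f x + b * g x) = a * (∫ x in K, f x) + b * ∫ x in K, g x := by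
  have i1 : IntegrableOn (fun x => a * f x) K := cint (continuous_const.mul hf) hK
  have i2 : IntegrableOn (fun x => b * g x) K := cint (continuous_const.mul hg) hK
  rw [integral_add i1 i2, integral_const_mul, integral_const_mul]

theorem int_lin_const {K : Set (V d)} (hK : IsCompact K) {f : V d → ℝ} (hf : Continuous f)
    (a b : ℝ) :
    ∫ x in K, (a * f x + b) = a * (∫ x in K, f x) + volume.real K * b := by
  have i1 : IntegrableOn (fun x => a * f x) K := cint (continuous_const.mul hf) hK
  have i2 : IntegrableOn (fun _ : V d => b) K := cint continuous_const hK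
  rw [integral_add i1 i2, integral_const_mul, setIntegral_const, smul_eq_mul]

/-- the linear part determines the coefficients of an affine function -/
theorem affine_coef (lo hi : V d) (hlh : ∀ i, lo i < hi i) : ∃ K : ℝ, 0 ≤ K ∧
    ∀ (g0 : ℝ) (g : V d), g0 ^ 2 + dot g g ≤ K * ∫ x in Set.Icc lo hi, (g0 + dot g x) ^ 2 := by
  set X := Set.Icc lo hi with hX
  have hXc : IsCompact X := isCompact_Icc
  have hXm : MeasurableSet X := measurableSet_Icc
  set mid : V d := fun i => (lo i + hi i) / 2 with hmid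
  set X' := Set.Icc lo mid with hX'
  have hX'c : IsCompact X' := isCompact_Icc
  have hX'm : MeasurableSet X' := measurableSet_Icc
  have hsub : X' ⊆ X := by
    intro x hx
    refine ⟨hx.1, fun i => ?_⟩
    have h1 : x i ≤ (lo i + hi i) / 2 := hx.2 i
    have := hlh i
    linarith
  have hv' : 0 < volume.real X' := by
    refine ENNReal.toReal_pos ?_ hX'c.measure_lt_top.ne
    rw [hX', Real.volume_Icc_pi, Finset.prod_ne_zero_iff]
    intro i _
    have := hlh i
    simp only [hmid, ne_eq, ENNReal.ofReal_eq_zero, not_le]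
    linarith
  have hv : 0 < volume.real X := by
    refine lt_of_lt_of_le hv' ?_
    exact ENNReal.toReal_mono hXc.measure_lt_top.ne (measure_mono hsub)
  -- the coefficients
  have cG : ∀ (g0 : ℝ) (g : V d), Continuous fun x => (g0 + dot g x) ^ 2 := by
    intro g0 g
    unfold dot
    fun_prop
  have h1 : ∀ (g0 : ℝ) (g : V d) (j : Fin d), (g j) ^ 2 ≤
      4 / (((hi j - lo j) / 2) ^ 2 * volume.real X') * ∫ x in X, (g0 + dot g x) ^ 2 := by
    intro g0 g j
    set t := (hi j - lo j) / 2 with ht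
    have ht0 : 0 < t := by have := hlh j; linarith
    set I := ∫ x in X, (g0 + dot g x) ^ 2 with hI
    have hmem : ∀ x ∈ X', (Pi.single j t : V d) + (1 : ℝ) • x ∈ X := by
      intro x hx
      rw [one_smul]
      refine ⟨fun i => ?_, fun i => ?_⟩
      · have h2 := hx.1 i
        by_cases hij : i = j
        · subst hij
          simp only [Pi.add_apply, Pi.single_eq_same]; linarith
        · simp only [Pi.add_apply, Pi.single_eq_of_ne hij, zero_add]; exact h2
      · have h2 : x i ≤ (lo i + hi i) / 2 := hx.2 i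
        have h3 := hlh i
        by_cases hij : i = j
        · subst hij
          simp only [Pi.add_apply, Pi.single_eq_same]; linarith
        · simp only [Pi.add_apply, Pi.single_eq_of_ne hij, zero_add]; linarith
    have e1 := sub_int hX'm hXc (cG g0 g) (fun x => sq_nonneg _) (Pi.single j t) (t := 1)
      one_pos hmem
    simp only [one_pow, inv_one, one_mul, one_smul] at e1
    have e2 : ∫ x in X', (g0 + dot g x) ^ 2 ≤ I :=
      setIntegral_mono_set (cint (cG g0 g) hXc) (Eventually.of_forall fun x => sq_nonneg _)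
        (LE.le.eventuallyLE hsub)
    have c1 : Continuous fun x : V d => (g0 + dot g (Pi.single j t + x)) ^ 2 :=
      (cG g0 g).comp (by fun_prop : Continuous fun x : V d => (Pi.single j t + x : V d))
    have e3 : ∫ _x in X', (t * g j) ^ 2 ≤ ∫ x in X',
        (2 * (g0 + dot g (Pi.single j t + x)) ^ 2 + 2 * (g0 + dot g x) ^ 2) := by
      refine setIntegral_mono_on (cint continuous_const hX'c)
        (cint ((continuous_const.mul c1).add (continuous_const.mul (cG g0 g))) hX'c) hX'm
        fun x _ => ?_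
      have e4 : t * g j = (g0 + dot g (Pi.single j t + x)) - (g0 + dot g x) := by
        rw [dot_add_right, dot_comm g (Pi.single j t), dot_single]; ring
      rw [e4]
      nlinarith [sq_nonneg ((g0 + dot g (Pi.single j t + x)) + (g0 + dot g x))]
    rw [setIntegral_const, smul_eq_mul, int_lin hX'c c1 (cG g0 g)] at e3
    have e5 : volume.real X' * (t * g j) ^ 2 ≤ 4 * I := by linarith
    rw [div_mul_eq_mul_div, le_div_iff₀ (by positivity)]
    calc (g j) ^ 2 * (t ^ 2 * volume.real X') = volume.real X' * (t * g j) ^ 2 := by ring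
      _ ≤ 4 * I := e5
  set K1 := ∑ j : Fin d, 4 / (((hi j - lo j) / 2) ^ 2 * volume.real X') with hK1
  have hK10 : 0 ≤ K1 := Finset.sum_nonneg fun j _ => by
    have := hlh j; positivity
  obtain ⟨R, hR0, hR⟩ : ∃ R : ℝ, 0 ≤ R ∧ ∀ x ∈ X, dot x x ≤ R := by
    have hc : Continuous fun x : V d => dot x x := by unfold dot; fun_prop
    obtain ⟨R, hR⟩ := hXc.exists_bound_of_continuousOn hc.continuousOn
    exact ⟨|R|, abs_nonneg _, fun x hx => (le_abs_self _).trans ((hR x hx).trans (le_abs_self _))⟩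
  refine ⟨K1 + (2 / volume.real X + 2 * K1 * R), by positivity, fun g0 g => ?_⟩
  set I := ∫ x in X, (g0 + dot g x) ^ 2 with hI
  have hI0 : 0 ≤ I := integral_nonneg fun x => sq_nonneg _
  have h2 : dot g g ≤ K1 * I := by
    unfold dot
    rw [hK1, Finset.sum_mul]
    refine Finset.sum_le_sum fun j _ => ?_
    rw [← sq]
    exact h1 g0 g j
  have h3 : volume.real X * g0 ^ 2 ≤ 2 * I + volume.real X * (2 * (K1 * I) * R) := by
    have e3 : ∫ _x in X, g0 ^ 2 ≤ ∫ x in X, (2 * (g0 + dot g x) ^ 2 + 2 * (K1 * I) * R) := by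
      refine setIntegral_mono_on (cint continuous_const hXc)
        (cint ((continuous_const.mul (cG g0 g)).add continuous_const) hXc) hXm fun x hx => ?_
      have e4 : (dot g x) ^ 2 ≤ (K1 * I) * R :=
        (dot_sq_le g x).trans (mul_le_mul h2 (hR x hx) (dot_self_nonneg _) (by positivity))
      nlinarith [sq_nonneg (g0 + 2 * dot g x)]
    rw [setIntegral_const, smul_eq_mul, int_lin_const hXc (cG g0 g)] at e3
    exact e3
  have h4 : g0 ^ 2 ≤ (2 / volume.real X + 2 * K1 * R) * I := by
    have h5 : g0 ^ 2 = (volume.real X * g0 ^ 2) / volume.real X := by field_simp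
    rw [h5, div_le_iff₀ hv]
    refine h3.trans (le_of_eq ?_)
    field_simp
  linarith

/-- the directions `dd` control everything orthogonal to `q0` -/
theorem span_bound (B : Comb d) : ∃ K : ℝ, 0 ≤ K ∧ ∀ x : V d, ∃ c : ℝ,
    dot (x - c • zv B.q0) (x - c • zv B.q0) ≤ K * ∑ i, (dot (zv (B.dd i)) x) ^ 2 := by
  classical
  set Q := zv B.q0 with hQ
  -- the functionals
  set Lf : Fin B.I → (V d →ₗ[ℝ] ℝ) := fun i =>
    { toFun := fun x => dot (zv (B.dd i)) x
      map_add' := fun x y => dot_add_right _ _ _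
      map_smul' := fun c x => dot_smul_right _ _ _ } with hLf
  set Kf : Fin d → (V d →ₗ[ℝ] ℝ) := fun j =>
    { toFun := fun x => (x - (dot Q x / dot Q Q) • Q) j
      map_add' := fun x y => by
        simp only [dot_add_right, Pi.sub_apply, Pi.add_apply, Pi.smul_apply, smul_eq_mul]; ring
      map_smul' := fun c x => by
        simp only [dot_smul_right, Pi.sub_apply, Pi.smul_apply, smul_eq_mul, RingHom.id_apply]
        ring } with hKf
  have hspan : ∀ j, ∃ c : Fin B.I → ℝ, ∑ i, c i • Lf i = Kf j := by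
    intro j
    have h1 : Kf j ∈ Submodule.span ℝ (Set.range Lf) := by
      refine mem_span_of_iInf_ker_le_ker ?_
      intro x hx
      rw [Submodule.mem_iInf] at hx
      have h2 : ∀ i, dot (zv (B.dd i)) x = 0 := fun i => hx i
      obtain ⟨t, ht⟩ := B.dd_span x h2
      show (x - (dot Q x / dot Q Q) • Q) j = 0
      by_cases hQ0 : dot Q Q = 0
      · have hQz : Q = 0 := dot_self_eq_zero.1 hQ0
        rw [ht, ← hQ, hQz]; simp
      · rw [ht, ← hQ, dot_smul_right, mul_div_assoc, div_self hQ0, mul_one, sub_self]; rfl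
    rw [Submodule.mem_span_range_iff_exists_fun] at h1
    exact h1
  choose c hc using hspan
  refine ⟨∑ j, ∑ i, (c j i) ^ 2, Finset.sum_nonneg fun j _ => Finset.sum_nonneg fun i _ =>
    sq_nonneg _, fun x => ⟨dot Q x / dot Q Q, ?_⟩⟩
  have h3 : ∀ j, (x - (dot Q x / dot Q Q) • Q) j = ∑ i, c j i * dot (zv (B.dd i)) x := by
    intro j
    have h4 := congrArg (fun f : V d →ₗ[ℝ] ℝ => f x) (hc j)
    simp only [LinearMap.sum_apply, LinearMap.smul_apply, smul_eq_mul] at h4
    exact h4.symm
  rw [Finset.sum_mul]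
  refine Finset.sum_le_sum fun j _ => ?_
  rw [h3 j, ← sq]
  exact sq_sum_le _ _

/-- skew matrices are controlled by their values on the directions `dd` -/
theorem skew_bound (B : Comb d) : ∃ K : ℝ, 0 ≤ K ∧ ∀ S : M d, (∀ i j, S i j = - S j i) →
    ip S S ≤ K * ∑ i, ∑ j, (∑ m, (zv (B.dd i)) m * S m j) ^ 2 := by
  obtain ⟨K, hK, hspan⟩ := span_bound B
  set q2 : ℝ := dot (zv B.q0) (zv B.q0) with hq2
  have hq20 : 0 ≤ q2 := dot_self_nonneg _
  refine ⟨2 * K + 2 * q2 * K, by positivity, fun S hS => ?_⟩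
  choose c hc using fun j : Fin d => hspan (fun m => S m j)
  set Y := ∑ i, ∑ j, (∑ m, (zv (B.dd i)) m * S m j) ^ 2 with hY
  have hq1 : ∀ j, 1 ≤ (zv B.q0 j) ^ 2 := by
    intro j
    have h1 := B.q0_ne j
    have h2 : (1 : ℤ) ≤ (B.q0 j) ^ 2 := by
      have : 0 < (B.q0 j) ^ 2 := by positivity
      omega
    unfold zv
    exact_mod_cast h2
  -- the rest
  set r : Fin d → V d := fun j => (fun m => S m j) - c j • zv B.q0 with hr
  have hrY : ∑ j, dot (r j) (r j) ≤ K * Y := by
    calc ∑ j, dot (r j) (r j) ≤ ∑ j, K * ∑ i, (dot (zv (B.dd i)) (fun m => S m j)) ^ 2 :=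
          Finset.sum_le_sum fun j _ => hc j
      _ = K * Y := by
          rw [← Finset.mul_sum, Finset.sum_comm]
          rfl
  have hSe : ∀ m j, S m j = c j * zv B.q0 m + r j m := by
    intro m j
    simp only [hr, Pi.sub_apply, Pi.smul_apply, smul_eq_mul]; ring
  have hcj : ∀ j, (c j) ^ 2 ≤ (r j j) ^ 2 := by
    intro j
    have h1 : S j j = 0 := by have := hS j j; linarith
    rw [hSe j j] at h1
    have h2 : c j * zv B.q0 j = - r j j := by linarith
    have h3 : (c j) ^ 2 * (zv B.q0 j) ^ 2 = (r j j) ^ 2 := by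
      rw [← mul_pow, h2]; ring
    rw [← h3]
    nlinarith [hq1 j, sq_nonneg (c j)]
  have hdiag : ∀ j, (r j j) ^ 2 ≤ dot (r j) (r j) := by
    intro j
    have := Finset.single_le_sum (f := fun m => r j m * r j m) (fun m _ => mul_self_nonneg _)
      (Finset.mem_univ j)
    rw [sq]; exact this
  have hcol : ∀ j, ∑ m, (S m j) ^ 2 ≤ 2 * q2 * dot (r j) (r j) + 2 * dot (r j) (r j) := by
    intro j
    have h1 : ∀ m, (S m j) ^ 2 ≤ 2 * (c j) ^ 2 * (zv B.q0 m * zv B.q0 m) +
        2 * (r j m * r j m) := by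
      intro m
      rw [hSe m j]
      nlinarith [sq_nonneg (c j * zv B.q0 m - r j m)]
    calc ∑ m, (S m j) ^ 2 ≤ ∑ m, (2 * (c j) ^ 2 * (zv B.q0 m * zv B.q0 m) +
        2 * (r j m * r j m)) := Finset.sum_le_sum fun m _ => h1 m
      _ = 2 * (c j) ^ 2 * q2 + 2 * dot (r j) (r j) := by
          rw [Finset.sum_add_distrib, ← Finset.mul_sum, ← Finset.mul_sum]; rfl
      _ ≤ 2 * q2 * dot (r j) (r j) + 2 * dot (r j) (r j) := by
          have h2 := (hcj j).trans (hdiag j)
          nlinarith
  have e1 : ip S S = ∑ j, ∑ m, (S m j) ^ 2 := by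
    rw [ip_self_eq, Finset.sum_comm]
  rw [e1]
  calc ∑ j, ∑ m, (S m j) ^ 2 ≤ ∑ j, (2 * q2 * dot (r j) (r j) + 2 * dot (r j) (r j)) :=
        Finset.sum_le_sum fun j _ => hcol j
    _ = (2 * q2 + 2) * ∑ j, dot (r j) (r j) := by
        rw [Finset.mul_sum]
        exact Finset.sum_congr rfl fun j _ => by ring
    _ ≤ (2 * q2 + 2) * (K * Y) := mul_le_mul_of_nonneg_left hrY (by positivity)
    _ = (2 * K + 2 * q2 * K) * Y := by ring

/-! ### distance to the integers -/

theorem pd_ge {s h : ℝ} (h1 : h ≤ s) (h2 : s ≤ 1 - h) : h ≤ pd s := by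
  unfold pd
  rcases le_or_gt (round s) 0 with hm | hm
  · have h3 : ((round s : ℤ) : ℝ) ≤ 0 := by exact_mod_cast hm
    exact le_trans (by linarith) (le_abs_self _)
  · have h3 : (1 : ℝ) ≤ ((round s : ℤ) : ℝ) := by exact_mod_cast hm
    exact le_trans (by linarith) (neg_le_abs _)

theorem pd_small {s : ℝ} (h : |s| < 1 / 2) : pd s = |s| := by
  have h1 := abs_lt.1 h
  have h2 : round s = 0 := round_eq_zero_iff.2 ⟨by linarith, by linarith⟩
  unfold pd
  rw [h2]; simp

/-! ### sizes -/

theorem w_pos (D : Dat d) : 0 < D.w := by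
  have : (0 : ℝ) < D.N := by exact_mod_cast D.Npos
  unfold Dat.w; positivity

theorem w_le (D : Dat d) : D.w ≤ 1 / 6 := by
  have h1 : 6 ≤ D.N := Nat.le_of_dvd D.Npos D.Ndvd
  have h2 : (6 : ℝ) ≤ D.N := by exact_mod_cast h1
  unfold Dat.w
  exact one_div_le_one_div_of_le (by norm_num) h2

theorem h_pos (D : Dat d) : 0 < D.h := by
  have h1 : (0 : ℝ) < D.J := by exact_mod_cast D.Jpos
  have := w_pos D
  unfold Dat.h; positivity

theorem h_le (D : Dat d) : D.h ≤ 1 / 384 := by
  have h1 : (1 : ℝ) ≤ D.J := by exact_mod_cast D.Jpos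
  have h2 := w_le D
  have h3 := w_pos D
  unfold Dat.h
  rw [div_le_iff₀ (by positivity)]
  nlinarith

/-! ### admissible data -/

/-- admissible data -/
structure Dt (D : Dat d) (α β : ℝ) where
  L : ℕ
  C : Tens d
  F : (Fin d → ℤ) → Tens d
  Ls : Tens d
  T : V d → Tens d
  hC : ∀ ξ, α * nsq ξ ≤ C.Q ξ
  hLs : ShLike α β (zv D.q0) Ls
  hG : D.IsGad L C F Ls T
  hT : IsFld T 0 β
  ε : M d
  u : Disp d

namespace Dt

variable {D : Dat d} {α β : ℝ} (t : Dt D α β)

/-- the displacement -/
def v : V d → V d := vv t.ε t.u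
/-- the energy density -/
def g (x : V d) : ℝ := (t.T x).Q (t.ε + sg t.u.u x)
/-- the energy -/
def E : ℝ := energy t.T t.ε t.u

theorem lin_smooth (A : M d) : ContDiff ℝ ∞ (mulV A) := by
  refine contDiff_pi.2 fun i => ?_
  unfold mulV
  exact ContDiff.sum fun j _ => contDiff_const.mul (contDiff_apply ℝ ℝ j)

theorem v_smooth : ContDiff ℝ 1 t.v := by
  have h1 : ContDiff ℝ ∞ t.v := (lin_smooth (symm t.ε)).add t.u.smooth
  exact h1.of_le (by exact_mod_cast le_top)

theorem grad_v (x : V d) : grad t.v x = symm t.ε + grad t.u.u x := by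
  have h1 : HasFDerivAt (mulV (symm t.ε)) (fderiv ℝ (mulV (symm t.ε)) x) x :=
    ((lin_smooth (symm t.ε)).differentiable (by simp) x).hasFDerivAt
  have h2 : HasFDerivAt t.u.u (fderiv ℝ t.u.u x) x :=
    (t.u.smooth.differentiable (by simp) x).hasFDerivAt
  have h3 : HasFDerivAt t.v (fderiv ℝ (mulV (symm t.ε)) x + fderiv ℝ t.u.u x) x := h1.add h2
  have h4 : ∀ z : V d, fderiv ℝ (mulV (symm t.ε)) x z = mulV (symm t.ε) z := by
    intro z
    set Lm : V d →ₗ[ℝ] V d :=
      { toFun := mulV (symm t.ε)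
        map_add' := fun a b => mulV_add _ a b
        map_smul' := fun c a => by
          ext i
          simp only [mulV, Pi.smul_apply, smul_eq_mul, RingHom.id_apply, Finset.mul_sum]
          exact Finset.sum_congr rfl fun j _ => by ring } with hLm
    have h5 : HasFDerivAt (mulV (symm t.ε)) (LinearMap.toContinuousLinearMap Lm) x :=
      (LinearMap.toContinuousLinearMap Lm).hasFDerivAt
    rw [h5.fderiv]
    rfl
  ext i j
  unfold grad
  rw [h3.fderiv]
  show (fderiv ℝ (mulV (symm t.ε)) x (Pi.single j 1) + fderiv ℝ t.u.u x (Pi.single j 1)) i = _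
  rw [h4]
  have h6 : mulV (symm t.ε) (Pi.single j 1) i = symm t.ε i j := by
    unfold mulV
    rw [Finset.sum_eq_single j]
    · simp
    · intro m _ hm; simp [hm]
    · intro hj; exact absurd (Finset.mem_univ _) hj
  simp only [Pi.add_apply, h6]

theorem g_eq (x : V d) : t.g x = (t.T x).Q (grad t.v x) := by
  unfold g
  rw [grad_v, ← (t.T x).Q_symm (t.ε + sg t.u.u x), ← (t.T x).Q_symm (symm t.ε + grad t.u.u x)]
  congr 1
  rw [symm_add, symm_add, symm_symm]
  congr 1
  unfold sg
  rw [symm_symm]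

theorem g_nonneg (x : V d) : 0 ≤ t.g x := by
  have := t.hT.lo x (t.ε + sg t.u.u x)
  rw [zero_mul] at this
  exact this

theorem sg_per : Per (sg t.u.u) := by
  intro x i
  have h1 : ∀ y, t.u.u (y + Pi.single i 1) = t.u.u y := fun y => t.u.per y i
  have h2 : fderiv ℝ t.u.u (x + Pi.single i 1) = fderiv ℝ t.u.u x := by
    have h3 := fderiv_comp_add_right (𝕜 := ℝ) (f := t.u.u) (x := x) (Pi.single i 1 : V d)
    rw [← h3]
    congr 1
    funext y
    exact h1 y
  unfold sg grad
  rw [h2]

theorem g_per : Per t.g := by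
  intro x i
  unfold g
  rw [t.hT.per x i, t.sg_per x i]

variable (hE : BaseE d)
include hE

theorem g_meas : Measurable t.g := by
  have h1 : Measurable fun x => t.ε + sg t.u.u x := by
    have h2 := (hE.grad_cont t.u).measurable
    have h3 : Measurable (symm : M d → M d) := by
      refine measurable_pi_lambda _ fun i => measurable_pi_lambda _ fun j => ?_
      unfold symm
      fun_prop
    exact measurable_const.add (h3.comp h2)
  exact hE.meas t.T t.hT.meas _ _ h1 h1

theorem g_bdd : ∃ B, ∀ x, |t.g x| ≤ B := by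
  obtain ⟨K, hK⟩ := hE.grad_bdd t.u
  refine ⟨|β| * (2 * nsq t.ε + 2 * K), fun x => ?_⟩
  rw [abs_of_nonneg (t.g_nonneg x)]
  have h1 := t.hT.hi x (t.ε + sg t.u.u x)
  have h2 := nsq_add_le t.ε (sg t.u.u x)
  have h3 : nsq (sg t.u.u x) ≤ K := by
    unfold sg
    rw [nsq_symm]
    exact (nsq_le_ip _).trans (hK x)
  have h4 := nsq_nonneg (t.ε + sg t.u.u x)
  calc t.g x ≤ β * nsq (t.ε + sg t.u.u x) := h1
    _ ≤ |β| * nsq (t.ε + sg t.u.u x) := mul_le_mul_of_nonneg_right (le_abs_self _) h4
    _ ≤ |β| * (2 * nsq t.ε + 2 * K) := mul_le_mul_of_nonneg_left (by linarith) (abs_nonneg _)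

theorem E_nn : 0 ≤ t.E := hE.nonneg t.T β t.hT t.ε t.u

theorem g_int (y : V d) {A : Set (V d)} (hA : volume A ≠ ⊤) :
    IntegrableOn (fun x => t.g (x + y)) A := by
  obtain ⟨B, hB⟩ := t.g_bdd hE
  refine Measure.integrableOn_of_bounded (M := B) hA ?_ ?_
  · exact ((t.g_meas hE).comp (measurable_add_const y)).aestronglyMeasurable
  · exact Eventually.of_forall fun x => by rw [Real.norm_eq_abs]; exact hB _

/-- the energy in a set contained in a cell -/
theorem reg (hSh : StmtShift d) {A : Set (V d)} (hA : MeasurableSet A) (y : V d)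
    (h : ∀ x ∈ A, x - y ∈ cell d) : ∫ x in A, t.g x ≤ t.E := by
  have hcm : MeasurableSet (cell d) := measurableSet_Icc
  have hcf : volume (cell d) ≠ ⊤ := by rw [hE.vol]; exact ENNReal.one_ne_top
  have e1 : ∫ x in A, t.g x = ∫ x, A.indicator t.g (x + y) := by
    rw [← integral_indicator hA]
    exact (integral_add_right_eq_self (fun x => A.indicator t.g x) y).symm
  have e2 : t.E = ∫ x, (cell d).indicator (fun x => t.g (x + y)) x := by
    rw [integral_indicator hcm]
    exact (hSh t.g t.g_per y).symm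
  rw [e1, e2]
  refine integral_mono_of_nonneg ?_ ?_ ?_
  · exact Eventually.of_forall fun x => Set.indicator_nonneg (fun z _ => t.g_nonneg z) _
  · rw [integrable_indicator_iff hcm]
    exact t.g_int hE y hcf
  · refine Eventually.of_forall fun x => ?_
    by_cases hx : x + y ∈ A
    · have h2 := h _ hx
      rw [add_sub_cancel_right] at h2
      simp only [Set.indicator_of_mem hx, Set.indicator_of_mem h2]
      exact le_rfl
    · simp only [Set.indicator_of_notMem hx]
      exact Set.indicator_nonneg (fun z _ => t.g_nonneg _) _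

end Dt

/-! ### quantities bounded by the energy -/

/-- `f` is bounded by a multiple of the energy -/
def UB {D : Dat d} {α β : ℝ} (f : Dt D α β → ℝ) : Prop := ∃ K : ℝ, 0 ≤ K ∧ ∀ t, f t ≤ K * t.E

section ub

variable {D : Dat d} {α β : ℝ} {f g : Dt D α β → ℝ}

theorem UB.add (hf : UB f) (hg : UB g) : UB fun t => f t + g t := by
  obtain ⟨K, hK, h1⟩ := hf
  obtain ⟨K', hK', h2⟩ := hg
  exact ⟨K + K', add_nonneg hK hK', fun t => by
    have := h1 t; have := h2 t; rw [add_mul]; linarith⟩

theorem UB.mul {c : ℝ} (hc : 0 ≤ c) (hf : UB f) : UB fun t => c * f t := by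
  obtain ⟨K, hK, h1⟩ := hf
  exact ⟨c * K, mul_nonneg hc hK, fun t => by
    rw [mul_assoc]; exact mul_le_mul_of_nonneg_left (h1 t) hc⟩

theorem UB.mono (hf : UB f) (h : ∀ t, g t ≤ f t) : UB g := by
  obtain ⟨K, hK, h1⟩ := hf
  exact ⟨K, hK, fun t => (h t).trans (h1 t)⟩

theorem UB.sum {ι : Type*} (s : Finset ι) {F : ι → Dt D α β → ℝ} (h : ∀ i ∈ s, UB (F i)) :
    UB fun t => ∑ i ∈ s, F i t := by
  classical
  induction s using Finset.induction_on with
  | empty => exact ⟨0, le_rfl, fun t => by simp⟩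
  | insert a s ha ih =>
    have h1 := (h a (Finset.mem_insert_self _ _)).add
      (ih fun i hi => h i (Finset.mem_insert_of_mem hi))
    refine h1.mono fun t => ?_
    rw [Finset.sum_insert ha]

theorem UB.energy : UB fun t : Dt D α β => t.E := ⟨1, zero_le_one, fun t => by rw [one_mul]⟩

end ub

/-- deviation from a rigid motion -/
def dev (v : V d → V d) (a : V d) (Om : M d) (x : V d) : V d := v x - a - mulV Om x

theorem dev_cont {v : V d → V d} (hv : Continuous v) (a : V d) (Om : M d) :
    Continuous (dev v a Om) := by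
  unfold dev
  exact (hv.sub continuous_const).sub (Dt.lin_smooth Om).continuous

theorem dot_cont {f g : V d → V d} (hf : Continuous f) (hg : Continuous g) :
    Continuous fun x => dot (f x) (g x) := by
  unfold dot
  exact continuous_finsetSum _ fun i _ =>
    ((continuous_apply i).comp hf).mul ((continuous_apply i).comp hg)

section main

variable {D : Dat d} {α β : ℝ} (hα : 0 < α) (hE : BaseE d) (hSh : StmtShift d)
  (hKP : StmtKP d) (hBar : StmtBar d)

include hα in
theorem nsq_le_RB (t : Dt D α β) {x : V d} (hx : x ∈ D.RB) :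
    nsq (grad t.v x) ≤ 1 / α * t.g x := by
  rw [t.g_eq, t.hG.blk x hx]
  have h1 := t.hC (grad t.v x)
  rw [one_div, inv_mul_eq_div, le_div_iff₀ hα]
  linarith

include hα hE hSh hKP in
/-- rigid motions on boxes contained in the block material -/
theorem rigid (lo hi : V d) (hlh : ∀ i, lo i < hi i) (hRB : Set.Icc lo hi ⊆ D.RB) (y : V d)
    (hy : ∀ x ∈ Set.Icc lo hi, x - y ∈ cell d) :
    ∃ (a : Dt D α β → V d) (Om : Dt D α β → M d), (∀ t i j, Om t i j = - Om t j i) ∧
      UB fun t => ∫ x in Set.Icc lo hi, dot (dev t.v (a t) (Om t) x) (dev t.v (a t) (Om t) x) := by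
  obtain ⟨K, hK, h1⟩ := hKP lo hi hlh
  choose a Om h2 h3 using fun t : Dt D α β => h1 t.v t.v_smooth
  refine ⟨a, Om, h2, K * (1 / α), by positivity, fun t => ?_⟩
  refine (h3 t).trans ?_
  rw [mul_assoc]
  refine mul_le_mul_of_nonneg_left ?_ hK
  have hm : MeasurableSet (Set.Icc lo hi) := measurableSet_Icc
  have hc : IsCompact (Set.Icc lo hi) := isCompact_Icc
  have i1 : IntegrableOn (fun x => nsq (grad t.v x)) (Set.Icc lo hi) :=
    cint (cont_g t.v_smooth) hc
  have i2 : IntegrableOn (fun x => t.g x) (Set.Icc lo hi) := by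
    have := t.g_int hE 0 hc.measure_lt_top.ne
    simpa only [add_zero] using this
  calc ∫ x in Set.Icc lo hi, nsq (grad t.v x) ≤ ∫ x in Set.Icc lo hi, 1 / α * t.g x :=
        setIntegral_mono_on i1 (i2.const_mul _) hm fun x hx => nsq_le_RB hα t (hRB hx)
    _ = 1 / α * ∫ x in Set.Icc lo hi, t.g x := integral_const_mul _ _
    _ ≤ 1 / α * t.E := mul_le_mul_of_nonneg_left (t.reg hE hSh hm y hy) (by positivity)

/-- the common part of all frames -/
def X0 (D : Dat d) : Set (V d) := Set.Icc (fun _ => D.b) (fun _ => D.bF / 2)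

/-- the vectors of the tubes -/
def zt (D : Dat d) (i : Fin D.I) : V d := D.h • zv (D.dd i)

theorem zt_rng (D : Dat d) (i : Fin D.I) (m : Fin d) : D.h ≤ zt D i m ∧ zt D i m ≤ 3 * D.h := by
  have h0 := h_pos D
  have h1 := D.dd_rng i m
  have h2 : (1 : ℝ) ≤ (D.dd i m : ℝ) := by exact_mod_cast h1.1
  have h3 : (D.dd i m : ℝ) ≤ 3 := by exact_mod_cast h1.2
  have e : zt D i m = D.h * (D.dd i m : ℝ) := rfl
  rw [e]
  constructor <;> nlinarith

theorem tube_mem (D : Dat d) (i : Fin D.I) {x : V d} (hx : x ∈ X0 D) {s : ℝ}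
    (hs : s ∈ Set.Icc (0 : ℝ) 1) (m : Fin d) :
    D.b ≤ (x + s • zt D i) m ∧ (x + s • zt D i) m ≤ D.bF / 2 + 3 * D.h := by
  have h0 := h_pos D
  have h1 := zt_rng D i m
  have h2 : D.b ≤ x m := hx.1 m
  have h3 : x m ≤ D.bF / 2 := hx.2 m
  simp only [Pi.add_apply, Pi.smul_apply, smul_eq_mul]
  constructor
  · nlinarith [hs.1]
  · have h4 : s * zt D i m ≤ 1 * (3 * D.h) :=
      mul_le_mul hs.2 h1.2 (h0.le.trans h1.1) zero_le_one
    linarith

theorem tube_est (t : Dt D α β) (hα : 0 < α) (i : Fin D.I) {x : V d} (hx : x ∈ X0 D) {s : ℝ}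
    (hs : s ∈ Set.Icc (0 : ℝ) 1) :
    (ip (oo (zt D i)) (grad t.v (x + s • zt D i))) ^ 2 ≤
      (dot (zt D i) (zt D i)) ^ 2 / α * t.g (x + s • zt D i) := by
  have h0 := h_pos D
  have hle := h_le D
  have hbF : D.bF = D.h / 4 := rfl
  have hb : D.b = D.h / 64 := rfl
  set p := x + s • zt D i with hp
  have hm := tube_mem D i hx hs
  by_cases hRB : p ∈ D.RB
  · have h1 := oo_sq_le (zt D i) (grad t.v p)
    have h2 := nsq_le_RB hα t hRB
    refine h1.trans ?_
    calc (dot (zt D i) (zt D i)) ^ 2 * nsq (grad t.v p) ≤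
        (dot (zt D i) (zt D i)) ^ 2 * (1 / α * t.g p) :=
          mul_le_mul_of_nonneg_left h2 (sq_nonneg _)
      _ = _ := by ring
  · have hRZ : p ∈ D.RZ := by
      refine ⟨fun m => ?_, hRB, fun k hk => ?_⟩
      · have h1 := hm m
        have h2 : Int.fract (p m) = p m := by
          rw [Int.fract_eq_self]
          constructor <;> linarith
        rw [h2]; linarith
      · have h1 := hk.1
        have h2 := hm k
        have h3 : pd (p k) = p k := by
          rw [pd_small (by rw [abs_of_pos (by linarith)]; linarith), abs_of_pos (by linarith)]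
        rw [h3] at h1
        linarith
    rw [t.g_eq, t.hG.ver p hRZ]
    have horth : dot (zt D i) (zv D.q0) = 0 := by
      unfold zt
      rw [dot_smul_left, D.dd_q0, mul_zero]
    have h1 := t.hLs.1 (grad t.v p) (zt D i) horth
    rw [div_mul_eq_mul_div, le_div_iff₀ hα]
    linarith

include hα hE hSh hBar in
/-- the tubes -/
theorem tube (i : Fin D.I) : UB fun t : Dt D α β =>
    ∫ x in X0 D, (dot (zt D i) (t.v (x + zt D i) - t.v x)) ^ 2 := by
  have h0 := h_pos D
  have hle := h_le D
  have hbF : D.bF = D.h / 4 := rfl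
  have hb : D.b = D.h / 64 := rfl
  have hXm : MeasurableSet (X0 D) := measurableSet_Icc
  have hXc : IsCompact (X0 D) := isCompact_Icc
  refine ⟨(dot (zt D i) (zt D i)) ^ 2 / α, by positivity, fun t => ?_⟩
  have h1 := hBar (fun _ => D.b) (fun _ => D.bF / 2) (zt D i) t.v t.v_smooth
  refine h1.trans ?_
  have hcg : Continuous fun y => ip (oo (zt D i)) (grad t.v y) := by
    have h6 := continuous_grad t.v_smooth
    unfold ip
    refine continuous_finsetSum _ fun a _ => continuous_finsetSum _ fun b _ => ?_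
    exact continuous_const.mul ((continuous_apply b).comp ((continuous_apply a).comp h6))
  have h2 : ∀ s ∈ Set.Icc (0 : ℝ) 1,
      ∫ x in Set.Icc (fun _ => D.b) (fun _ => D.bF / 2),
        (ip (oo (zt D i)) (grad t.v (x + s • zt D i))) ^ 2 ≤
      (dot (zt D i) (zt D i)) ^ 2 / α * t.E := by
    intro s hs
    have i1 : IntegrableOn (fun x => (ip (oo (zt D i)) (grad t.v (x + s • zt D i))) ^ 2)
        (X0 D) := cint ((hcg.comp (by fun_prop : Continuous fun x : V d => x + s • zt D i)).pow 2)
        hXc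
    have i2 : IntegrableOn (fun x => t.g (x + s • zt D i)) (X0 D) :=
      t.g_int hE _ hXc.measure_lt_top.ne
    calc ∫ x in X0 D, (ip (oo (zt D i)) (grad t.v (x + s • zt D i))) ^ 2
        ≤ ∫ x in X0 D, (dot (zt D i) (zt D i)) ^ 2 / α * t.g (x + s • zt D i) :=
          setIntegral_mono_on i1 (i2.const_mul _) hXm fun x hx => tube_est t hα i hx hs
      _ = (dot (zt D i) (zt D i)) ^ 2 / α * ∫ x in X0 D, t.g (x + s • zt D i) :=
          integral_const_mul _ _
      _ ≤ (dot (zt D i) (zt D i)) ^ 2 / α * t.E := by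
          refine mul_le_mul_of_nonneg_left ?_ (by positivity)
          -- translation
          have hA : MeasurableSet ((fun x : V d => x - s • zt D i) ⁻¹' (X0 D)) :=
            (measurable_sub_const _) hXm
          have e1 : ∫ x in X0 D, t.g (x + s • zt D i) =
              ∫ x in (fun x : V d => x - s • zt D i) ⁻¹' (X0 D), t.g x := by
            rw [← integral_indicator hXm, ← integral_indicator hA]
            rw [← integral_add_right_eq_self (fun x =>
              ((fun x : V d => x - s • zt D i) ⁻¹' (X0 D)).indicator t.g x) (s • zt D i)]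
            congr 1
            funext x
            by_cases hx : x ∈ X0 D
            · have hx' : x + s • zt D i ∈ (fun x : V d => x - s • zt D i) ⁻¹' (X0 D) := by
                show x + s • zt D i - s • zt D i ∈ X0 D
                rwa [add_sub_cancel_right]
              rw [Set.indicator_of_mem hx, Set.indicator_of_mem hx']
            · have hx' : x + s • zt D i ∉ (fun x : V d => x - s • zt D i) ⁻¹' (X0 D) := by
                show ¬ (x + s • zt D i - s • zt D i ∈ X0 D)
                rwa [add_sub_cancel_right]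
              rw [Set.indicator_of_notMem hx, Set.indicator_of_notMem hx']
          rw [e1]
          refine t.reg hE hSh hA 0 fun x hx => ?_
          have hx' : x - s • zt D i ∈ X0 D := hx
          have h3 := tube_mem D i hx' hs
          rw [sub_add_cancel] at h3
          rw [sub_zero]
          refine ⟨fun m => ?_, fun m => ?_⟩
          · have := (h3 m).1
            show (0 : ℝ) ≤ x m
            linarith
          · have := (h3 m).2
            show x m ≤ (1 : ℝ)
            linarith
  have i3 : IntegrableOn (fun s : ℝ => ∫ x in Set.Icc (fun _ => D.b) (fun _ => D.bF / 2),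
        (ip (oo (zt D i)) (grad t.v (x + s • zt D i))) ^ 2) (Set.Icc (0 : ℝ) 1) := by
    refine cint ?_ isCompact_Icc
    refine cont_par isCompact_Icc (f := fun (s : ℝ) (x : V d) =>
      (ip (oo (zt D i)) (grad t.v (x + s • zt D i))) ^ 2) ?_
    exact (hcg.comp (by fun_prop : Continuous fun p : ℝ × V d => p.2 + p.1 • zt D i)).pow 2
  have h4 := setIntegral_mono_on i3
    (cint (f := fun _ : ℝ => (dot (zt D i) (zt D i)) ^ 2 / α * t.E) continuous_const
      isCompact_Icc) measurableSet_Icc h2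
  refine h4.trans (le_of_eq ?_)
  rw [setIntegral_const]
  simp

theorem dot4 (a b c e : V d) : dot (a + b + (c + e)) (a + b + (c + e)) ≤
    4 * (dot a a + dot b b + (dot c c + dot e e)) := by
  have h1 := dot_add_le (a + b) (c + e)
  have h2 := dot_add_le a b
  have h3 := dot_add_le c e
  linarith

theorem skew_sub {A B : M d} (hA : ∀ i j, A i j = - A j i) (hB : ∀ i j, B i j = - B j i) :
    ∀ i j, (A - B) i j = - (A - B) j i := by
  intro i j
  simp only [Pi.sub_apply]
  rw [hA i j, hB i j]; ring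

/-- the affine functions on `X0` -/
theorem step_D (i : Fin D.I) {k : Fin d} {a ak : Dt D α β → V d} {Om Omk : Dt D α β → M d}
    (hOm : ∀ t i j, Om t i j = - Om t j i)
    (hX0F : X0 D ⊆ D.Fk k)
    (ub0 : UB fun t : Dt D α β =>
      ∫ x in D.K0, dot (dev t.v (a t) (Om t) x) (dev t.v (a t) (Om t) x))
    (ubk : UB fun t : Dt D α β =>
      ∫ x in D.Fk k, dot (dev t.v (ak t) (Omk t) x) (dev t.v (ak t) (Omk t) x))
    (ubt : UB fun t : Dt D α β => ∫ x in X0 D, (dot (zt D i) (t.v (x + zt D i) - t.v x)) ^ 2) :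
    UB fun t : Dt D α β => ∫ x in X0 D, (dot (zt D i) (ak t - a t) +
      dot (fun j => ∑ m, zt D i m * (Omk t - Om t) m j) x) ^ 2 := by
  have h0 := h_pos D
  have hle := h_le D
  have hbF : D.bF = D.h / 4 := rfl
  have hb : D.b = D.h / 64 := rfl
  have hXm : MeasurableSet (X0 D) := measurableSet_Icc
  have hXc : IsCompact (X0 D) := isCompact_Icc
  have hKc : IsCompact D.K0 := isCompact_Icc
  have hFc : IsCompact (D.Fk k) := isCompact_Icc
  set z := zt D i with hz
  have hzz : 0 ≤ dot z z := dot_self_nonneg _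
  have ub := (((ub0.mul hzz).add (ubk.mul hzz)).add ubt).mul (show (0 : ℝ) ≤ 3 by norm_num)
  refine ub.mono fun t => ?_
  set P0 := dev t.v (a t) (Om t) with hP0
  set Pk := dev t.v (ak t) (Omk t) with hPk
  have hvc : Continuous t.v := t.v_smooth.continuous
  have c0 : Continuous P0 := dev_cont hvc _ _
  have ck : Continuous Pk := dev_cont hvc _ _
  have c0' : Continuous fun x : V d => P0 (z + x) :=
    c0.comp (by fun_prop : Continuous fun x : V d => z + x)
  have cz : Continuous fun x : V d => t.v (x + z) :=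
    hvc.comp (by fun_prop : Continuous fun x : V d => x + z)
  -- pointwise
  have hpt : ∀ x, dot z (ak t - a t) + dot (fun j => ∑ m, z m * (Omk t - Om t) m j) x =
      dot z (P0 (z + x)) - dot z (Pk x) - dot z (t.v (x + z) - t.v x) := by
    intro x
    have e1 : dot (fun j => ∑ m, z m * (Omk t - Om t) m j) x = dot z (mulV (Omk t - Om t) x) := by
      unfold dot mulV
      simp only [Finset.sum_mul, Finset.mul_sum]
      rw [Finset.sum_comm]
      exact Finset.sum_congr rfl fun m _ => Finset.sum_congr rfl fun j _ => by ring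
    have e2 : dot z (mulV (Om t) z) = 0 := skew_quad (hOm t) z
    rw [e1, hP0, hPk]
    unfold dev
    rw [add_comm z x, mulV_add, mulV_sub]
    simp only [dot_sub_right, dot_add_right, e2]
    ring
  have hsq : ∀ x, (dot z (ak t - a t) + dot (fun j => ∑ m, z m * (Omk t - Om t) m j) x) ^ 2 ≤
      3 * (dot z z * dot (P0 (z + x)) (P0 (z + x)) + dot z z * dot (Pk x) (Pk x)) +
      3 * (dot z (t.v (x + z) - t.v x)) ^ 2 := by
    intro x
    rw [hpt x]
    have h1 := dot_sq_le z (P0 (z + x))
    have h2 := dot_sq_le z (Pk x)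
    set p := dot z (P0 (z + x))
    set q := dot z (Pk x)
    set r := dot z (t.v (x + z) - t.v x)
    have h3 : (p - q - r) ^ 2 ≤ 3 * (p ^ 2 + q ^ 2 + r ^ 2) := by
      nlinarith [sq_nonneg (p + q), sq_nonneg (p + r), sq_nonneg (q - r)]
    linarith
  have cA : Continuous fun x => dot (P0 (z + x)) (P0 (z + x)) := dot_cont c0' c0'
  have cB : Continuous fun x => dot (Pk x) (Pk x) := dot_cont ck ck
  have cC : Continuous fun x => (dot z (t.v (x + z) - t.v x)) ^ 2 :=
    (dot_cont continuous_const (cz.sub hvc)).pow 2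
  have cD : Continuous fun x =>
      (dot z (ak t - a t) + dot (fun j => ∑ m, z m * (Omk t - Om t) m j) x) ^ 2 :=
    (continuous_const.add (dot_cont continuous_const continuous_id)).pow 2
  have cAB : Continuous fun x => dot z z * dot (P0 (z + x)) (P0 (z + x)) +
      dot z z * dot (Pk x) (Pk x) :=
    (continuous_const.mul cA).add (continuous_const.mul cB)
  have cR : Continuous fun x => 3 * (dot z z * dot (P0 (z + x)) (P0 (z + x)) +
      dot z z * dot (Pk x) (Pk x)) + 3 * (dot z (t.v (x + z) - t.v x)) ^ 2 :=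
    (continuous_const.mul cAB).add (continuous_const.mul cC)
  have s1 := setIntegral_mono_on (cint cD hXc) (cint cR hXc) hXm fun x _ => hsq x
  rw [int_lin hXc cAB cC, int_lin hXc cA cB] at s1
  -- the block
  have sA : ∫ x in X0 D, dot (P0 (z + x)) (P0 (z + x)) ≤ ∫ x in D.K0, dot (P0 x) (P0 x) := by
    have h5 := sub_int hXm hKc (dot_cont c0 c0) (fun x => dot_self_nonneg _) z (t := 1) one_pos
      (fun x hx => by
        have h6 := tube_mem D i hx (s := 1) ⟨zero_le_one, le_rfl⟩
        have h7 := fun m => zt_rng D i m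
        refine ⟨fun m => ?_, fun m => ?_⟩
        · have h8 : D.b ≤ x m := hx.1 m
          have h9 := (h7 m).1
          simp only [one_smul, Pi.add_apply]
          show D.h ≤ z m + x m
          rw [hz]; linarith
        · have h8 : x m ≤ D.bF / 2 := hx.2 m
          have h9 := (h7 m).2
          simp only [one_smul, Pi.add_apply]
          show z m + x m ≤ 1 - D.h
          rw [hz]; linarith)
    simpa only [one_pow, inv_one, one_mul, one_smul] using h5
  have sB : ∫ x in X0 D, dot (Pk x) (Pk x) ≤ ∫ x in D.Fk k, dot (Pk x) (Pk x) :=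
    setIntegral_mono_set (cint (dot_cont ck ck) hFc)
      (Eventually.of_forall fun x => dot_self_nonneg _) (LE.le.eventuallyLE hX0F)
  have sA' := mul_le_mul_of_nonneg_left sA hzz
  have sB' := mul_le_mul_of_nonneg_left sB hzz
  refine s1.trans ?_
  linarith

/-- coefficients -/
theorem step_E {k : Fin d} {a ak : Dt D α β → V d} {Om Omk : Dt D α β → M d}
    (hOm : ∀ t i j, Om t i j = - Om t j i) (hOmk : ∀ t i j, Omk t i j = - Omk t j i)
    (hX0F : X0 D ⊆ D.Fk k)
    (ub0 : UB fun t : Dt D α β =>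
      ∫ x in D.K0, dot (dev t.v (a t) (Om t) x) (dev t.v (a t) (Om t) x))
    (ubk : UB fun t : Dt D α β =>
      ∫ x in D.Fk k, dot (dev t.v (ak t) (Omk t) x) (dev t.v (ak t) (Omk t) x))
    (ubt : ∀ i, UB fun t : Dt D α β =>
      ∫ x in X0 D, (dot (zt D i) (t.v (x + zt D i) - t.v x)) ^ 2) :
    ∃ Vk : Dt D α β → ℝ,
      (UB fun t => dot (ak t - a t - Vk t • zv D.q0) (ak t - a t - Vk t • zv D.q0)) ∧
      UB fun t => ip (Omk t - Om t) (Omk t - Om t) := by
  have h0 := h_pos D
  obtain ⟨Ka, hKa, haff⟩ := affine_coef (d := d) (fun _ => D.b) (fun _ => D.bF / 2) (fun _ => by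
    have hbF : D.bF = D.h / 4 := rfl
    have hb : D.b = D.h / 64 := rfl
    rw [hbF, hb]; linarith)
  have u1 : ∀ i, UB fun t : Dt D α β => (dot (zt D i) (ak t - a t)) ^ 2 +
      dot (fun j => ∑ m, zt D i m * (Omk t - Om t) m j)
        (fun j => ∑ m, zt D i m * (Omk t - Om t) m j) := fun i =>
    ((step_D i hOm hX0F ub0 ubk (ubt i)).mul hKa).mono fun t => haff _ _
  have u2 : ∀ i, UB fun t : Dt D α β => (dot (zv (D.dd i)) (ak t - a t)) ^ 2 := fun i =>
    ((u1 i).mul (show (0 : ℝ) ≤ 1 / D.h ^ 2 by positivity)).mono fun t => by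
      have e : dot (zt D i) (ak t - a t) = D.h * dot (zv (D.dd i)) (ak t - a t) :=
        dot_smul_left _ _ _
      have h1 := dot_self_nonneg (fun j => ∑ m, zt D i m * (Omk t - Om t) m j)
      rw [e]
      have h2 : (dot (zv (D.dd i)) (ak t - a t)) ^ 2 =
          1 / D.h ^ 2 * ((D.h * dot (zv (D.dd i)) (ak t - a t)) ^ 2) := by
        field_simp
      rw [h2]
      exact mul_le_mul_of_nonneg_left (by linarith) (by positivity)
  have u3 : ∀ i, UB fun t : Dt D α β =>
      ∑ j, (∑ m, (zv (D.dd i)) m * (Omk t - Om t) m j) ^ 2 := fun i =>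
    ((u1 i).mul (show (0 : ℝ) ≤ 1 / D.h ^ 2 by positivity)).mono fun t => by
      have e : ∀ j, ∑ m, zt D i m * (Omk t - Om t) m j =
          D.h * ∑ m, (zv (D.dd i)) m * (Omk t - Om t) m j := by
        intro j
        rw [Finset.mul_sum]
        refine Finset.sum_congr rfl fun m _ => ?_
        unfold zt
        simp only [Pi.smul_apply, smul_eq_mul]
        ring
      have h1 : dot (fun j => ∑ m, zt D i m * (Omk t - Om t) m j)
          (fun j => ∑ m, zt D i m * (Omk t - Om t) m j) =
          D.h ^ 2 * ∑ j, (∑ m, (zv (D.dd i)) m * (Omk t - Om t) m j) ^ 2 := by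
        unfold dot
        simp only [e]
        rw [Finset.mul_sum]
        exact Finset.sum_congr rfl fun j _ => by ring
      rw [h1]
      have h2 := sq_nonneg (dot (zt D i) (ak t - a t))
      have h3 : ∑ j, (∑ m, (zv (D.dd i)) m * (Omk t - Om t) m j) ^ 2 = 1 / D.h ^ 2 *
          (D.h ^ 2 * ∑ j, (∑ m, (zv (D.dd i)) m * (Omk t - Om t) m j) ^ 2) := by
        field_simp
      conv_lhs => rw [h3]
      exact mul_le_mul_of_nonneg_left (by linarith) (by positivity)
  obtain ⟨K1, hK1, hs1⟩ := span_bound D.toComb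
  obtain ⟨K2, hK2, hs2⟩ := skew_bound D.toComb
  choose Vk hVk using fun t : Dt D α β => hs1 (ak t - a t)
  refine ⟨Vk, ?_, ?_⟩
  · exact ((UB.sum Finset.univ fun i _ => u2 i).mul hK1).mono hVk
  · exact ((UB.sum Finset.univ fun i _ => u3 i).mul hK2).mono fun t =>
      hs2 _ (skew_sub (hOmk t) (hOm t))

theorem exists_R {X : Set (V d)} (hX : IsCompact X) : ∃ R : ℝ, 0 ≤ R ∧ ∀ x ∈ X, dot x x ≤ R := by
  have hc : Continuous fun x : V d => dot x x := dot_cont continuous_id continuous_id
  obtain ⟨R, hR⟩ := hX.exists_bound_of_continuousOn hc.continuousOn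
  exact ⟨|R|, abs_nonneg _, fun x hx => (le_abs_self _).trans ((hR x hx).trans (le_abs_self _))⟩

/-- comparison of the translations -/
theorem step_G {k k' : Fin d} {a ak ak' : Dt D α β → V d} {Om Omk Omk' : Dt D α β → M d}
    {Vk Vk' : Dt D α β → ℝ}
    (hX0F : X0 D ⊆ D.Fk k) (hX0F' : X0 D ⊆ D.Fk k')
    (ubk : UB fun t : Dt D α β =>
      ∫ x in D.Fk k, dot (dev t.v (ak t) (Omk t) x) (dev t.v (ak t) (Omk t) x))
    (ubk' : UB fun t : Dt D α β =>
      ∫ x in D.Fk k', dot (dev t.v (ak' t) (Omk' t) x) (dev t.v (ak' t) (Omk' t) x))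
    (ue : UB fun t => dot (ak t - a t - Vk t • zv D.q0) (ak t - a t - Vk t • zv D.q0))
    (ue' : UB fun t => dot (ak' t - a t - Vk' t • zv D.q0) (ak' t - a t - Vk' t • zv D.q0))
    (us : UB fun t => ip (Omk t - Om t) (Omk t - Om t))
    (us' : UB fun t => ip (Omk' t - Om t) (Omk' t - Om t)) :
    UB fun t => (Vk t - Vk' t) ^ 2 := by
  have h0 := h_pos D
  have hXm : MeasurableSet (X0 D) := measurableSet_Icc
  have hXc : IsCompact (X0 D) := isCompact_Icc
  have hFc : IsCompact (D.Fk k) := isCompact_Icc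
  have hFc' : IsCompact (D.Fk k') := isCompact_Icc
  obtain ⟨R, hR0, hR⟩ := exists_R hXc
  have hvol : 0 < volume.real (X0 D) := by
    refine ENNReal.toReal_pos ?_ hXc.measure_lt_top.ne
    unfold X0
    rw [Real.volume_Icc_pi, Finset.prod_ne_zero_iff]
    intro i _
    have hbF : D.bF = D.h / 4 := rfl
    have hb : D.b = D.h / 64 := rfl
    rw [hbF, hb]
    simp only [ne_eq, ENNReal.ofReal_eq_zero, not_le]
    linarith
  have hq : 1 ≤ dot (zv D.q0) (zv D.q0) := by
    have h1 : (zv D.q0 k) * (zv D.q0 k) ≤ dot (zv D.q0) (zv D.q0) :=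
      Finset.single_le_sum (f := fun i => zv D.q0 i * zv D.q0 i) (fun i _ => mul_self_nonneg _)
        (Finset.mem_univ k)
    have h2 : (1 : ℝ) ≤ (zv D.q0 k) * (zv D.q0 k) := by
      have h3 := D.q0_ne k
      have h4 : (1 : ℤ) ≤ D.q0 k * D.q0 k := by
        have : 0 < D.q0 k * D.q0 k := mul_self_pos.2 h3
        omega
      unfold zv
      exact_mod_cast h4
    linarith
  have ub := ((((ubk.add ubk').add ((us.add us').mul
    (show 0 ≤ volume.real (X0 D) * R by positivity))).add
    ((ue.add ue').mul hvol.le)).mul (show (0 : ℝ) ≤ 8 / volume.real (X0 D) by positivity))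
  refine ub.mono fun t => ?_
  set Pk := dev t.v (ak t) (Omk t) with hPk
  set Pk' := dev t.v (ak' t) (Omk' t) with hPk'
  set e := ak t - a t - Vk t • zv D.q0 with he
  set e' := ak' t - a t - Vk' t • zv D.q0 with he'
  set S := Omk t - Om t with hS
  set S' := Omk' t - Om t with hS'
  have hvc : Continuous t.v := t.v_smooth.continuous
  have ck : Continuous Pk := dev_cont hvc _ _
  have ck' : Continuous Pk' := dev_cont hvc _ _
  have hpt : ∀ x ∈ X0 D, (Vk t - Vk' t) ^ 2 ≤ 8 * dot (Pk x) (Pk x) + (8 * dot (Pk' x) (Pk' x) +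
      8 * ((ip S S + ip S' S') * R + (dot e e + dot e' e'))) := by
    intro x hx
    have id1 : (Vk t - Vk' t) • zv D.q0 = ((-Pk x) + Pk' x + (-mulV S x + mulV S' x)) +
        (-e + e') := by
      rw [hPk, hPk', he, he', hS, hS']
      unfold dev
      rw [mulV_sub, mulV_sub, sub_smul]
      abel
    have neg2 : ∀ y : V d, dot (-y) (-y) = dot y y := fun y => by
      rw [dot_neg_left, dot_neg_right, neg_neg]
    have h1 : (Vk t - Vk' t) ^ 2 ≤ dot ((Vk t - Vk' t) • zv D.q0) ((Vk t - Vk' t) • zv D.q0) := by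
      rw [dot_smul_left, dot_smul_right]
      nlinarith [sq_nonneg (Vk t - Vk' t)]
    have h2 := dot_add_le ((-Pk x) + Pk' x + (-mulV S x + mulV S' x)) (-e + e')
    have h3 := dot4 (-Pk x) (Pk' x) (-mulV S x) (mulV S' x)
    have h4 := dot_add_le (-e) e'
    rw [id1] at h1
    rw [neg2, neg2] at h3
    rw [neg2] at h4
    have h5 := (mulV_sq_le S x).trans
      (mul_le_mul_of_nonneg_left (hR x hx) (ip_self_nonneg S))
    have h6 := (mulV_sq_le S' x).trans
      (mul_le_mul_of_nonneg_left (hR x hx) (ip_self_nonneg S'))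
    have h7 := dot_self_nonneg e
    have h8 := dot_self_nonneg e'
    nlinarith
  have cB : Continuous fun x => dot (Pk x) (Pk x) := dot_cont ck ck
  have cB' : Continuous fun x => dot (Pk' x) (Pk' x) := dot_cont ck' ck'
  have cR : Continuous fun x => 8 * dot (Pk x) (Pk x) + (8 * dot (Pk' x) (Pk' x) +
      8 * ((ip S S + ip S' S') * R + (dot e e + dot e' e'))) :=
    (continuous_const.mul cB).add ((continuous_const.mul cB').add continuous_const)
  have s1 := setIntegral_mono_on (cint (f := fun _ : V d => (Vk t - Vk' t) ^ 2)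
    continuous_const hXc) (cint cR hXc) hXm hpt
  have cR' : Continuous fun x => 8 * dot (Pk' x) (Pk' x) +
      8 * ((ip S S + ip S' S') * R + (dot e e + dot e' e')) :=
    (continuous_const.mul cB').add continuous_const
  have e3 : ∫ x in X0 D, (8 * dot (Pk x) (Pk x) + (8 * dot (Pk' x) (Pk' x) +
      8 * ((ip S S + ip S' S') * R + (dot e e + dot e' e')))) =
      8 * (∫ x in X0 D, dot (Pk x) (Pk x)) + (8 * (∫ x in X0 D, dot (Pk' x) (Pk' x)) +
      volume.real (X0 D) * (8 * ((ip S S + ip S' S') * R + (dot e e + dot e' e')))) := by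
    have h5 := int_lin hXc cB cR' 8 1
    simp only [one_mul] at h5
    rw [h5, int_lin_const hXc cB']
  rw [setIntegral_const, smul_eq_mul, e3] at s1
  have sB : ∫ x in X0 D, dot (Pk x) (Pk x) ≤ ∫ x in D.Fk k, dot (Pk x) (Pk x) :=
    setIntegral_mono_set (cint cB hFc)
      (Eventually.of_forall fun x => dot_self_nonneg _) (LE.le.eventuallyLE hX0F)
  have sB' : ∫ x in X0 D, dot (Pk' x) (Pk' x) ≤ ∫ x in D.Fk k', dot (Pk' x) (Pk' x) :=
    setIntegral_mono_set (cint cB' hFc')
      (Eventually.of_forall fun x => dot_self_nonneg _) (LE.le.eventuallyLE hX0F')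
  rw [div_mul_eq_mul_div, le_div_iff₀ hvol]
  nlinarith

/-- the frame -/
theorem step_H {k : Fin d} {a ak : Dt D α β → V d} {Om Omk : Dt D α β → M d}
    {Vk V0 : Dt D α β → ℝ}
    (ubk : UB fun t : Dt D α β =>
      ∫ x in D.Fk k, dot (dev t.v (ak t) (Omk t) x) (dev t.v (ak t) (Omk t) x))
    (ue : UB fun t => dot (ak t - a t - Vk t • zv D.q0) (ak t - a t - Vk t • zv D.q0))
    (us : UB fun t => ip (Omk t - Om t) (Omk t - Om t))
    (uv : UB fun t => (Vk t - V0 t) ^ 2) :
    UB fun t : Dt D α β => ∫ x in D.Fk k,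
      dot (t.v x - a t - V0 t • zv D.q0 - mulV (Om t) x)
        (t.v x - a t - V0 t • zv D.q0 - mulV (Om t) x) := by
  have hFc : IsCompact (D.Fk k) := isCompact_Icc
  have hFm : MeasurableSet (D.Fk k) := measurableSet_Icc
  obtain ⟨R, hR0, hR⟩ := exists_R hFc
  have hvol : 0 ≤ volume.real (D.Fk k) := ENNReal.toReal_nonneg
  set q2 := dot (zv D.q0) (zv D.q0) with hq2
  have hq20 : 0 ≤ q2 := dot_self_nonneg _
  have ub := ((ubk.add ((ue.add ((uv.mul hq20).add (us.mul hR0))).mul hvol)).mul
    (show (0 : ℝ) ≤ 4 by norm_num))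
  refine ub.mono fun t => ?_
  set Pk := dev t.v (ak t) (Omk t) with hPk
  set e := ak t - a t - Vk t • zv D.q0 with he
  set S := Omk t - Om t with hS
  have hvc : Continuous t.v := t.v_smooth.continuous
  have ck : Continuous Pk := dev_cont hvc _ _
  have hpt : ∀ x ∈ D.Fk k, dot (t.v x - a t - V0 t • zv D.q0 - mulV (Om t) x)
      (t.v x - a t - V0 t • zv D.q0 - mulV (Om t) x) ≤
      4 * dot (Pk x) (Pk x) + 4 * (dot e e + (q2 * (Vk t - V0 t) ^ 2 + R * ip S S)) := by
    intro x hx
    have id1 : t.v x - a t - V0 t • zv D.q0 - mulV (Om t) x =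
        Pk x + e + ((Vk t - V0 t) • zv D.q0 + mulV S x) := by
      rw [hPk, he, hS]
      unfold dev
      rw [mulV_sub, sub_smul]
      abel
    rw [id1]
    have h3 := dot4 (Pk x) e ((Vk t - V0 t) • zv D.q0) (mulV S x)
    have h4 : dot ((Vk t - V0 t) • zv D.q0) ((Vk t - V0 t) • zv D.q0) =
        q2 * (Vk t - V0 t) ^ 2 := by
      rw [dot_smul_left, dot_smul_right]; ring
    rw [h4] at h3
    have h5 := (mulV_sq_le S x).trans
      (mul_le_mul_of_nonneg_left (hR x hx) (ip_self_nonneg S))
    linarith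
  have cB : Continuous fun x => dot (Pk x) (Pk x) := dot_cont ck ck
  have cL : Continuous fun x => t.v x - a t - V0 t • zv D.q0 - mulV (Om t) x :=
    ((hvc.sub continuous_const).sub continuous_const).sub (Dt.lin_smooth (Om t)).continuous
  have cR : Continuous fun x => 4 * dot (Pk x) (Pk x) +
      4 * (dot e e + (q2 * (Vk t - V0 t) ^ 2 + R * ip S S)) :=
    (continuous_const.mul cB).add continuous_const
  have s1 := setIntegral_mono_on (cint (dot_cont cL cL) hFc) (cint cR hFc) hFm hpt
  rw [int_lin_const hFc cB] at s1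
  refine s1.trans (le_of_eq ?_)
  ring

end main

end RelAux

open RelAux in
/-- C5c -/
theorem Rel_ok (hE : BaseE d) (hSh : StmtShift d) (hKP : StmtKP d) (hBar : StmtBar d) :
    StmtRel d := by
  intro D α β hα
  have h0 := h_pos D
  have hle := h_le D
  have hbF : D.bF = D.h / 4 := rfl
  have hb : D.b = D.h / 64 := rfl
  -- the block
  obtain ⟨a, Om, hOm, ub0⟩ := rigid (α := α) (β := β) hα hE hSh hKP (D := D) (fun _ => D.h)
    (fun _ => 1 - D.h) (fun _ => by linarith)
    (fun x hx => Or.inl fun i => pd_ge (hx.1 i) (hx.2 i)) 0 (fun x hx => by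
      rw [sub_zero]
      refine ⟨fun i => ?_, fun i => ?_⟩
      · have := hx.1 i
        show (0 : ℝ) ≤ x i
        have h1 : D.h ≤ x i := this
        linarith
      · have h1 : x i ≤ 1 - D.h := hx.2 i
        show x i ≤ (1 : ℝ)
        linarith)
  -- the frames
  have hframe : ∀ k : Fin d, ∃ (ak : Dt D α β → V d) (Omk : Dt D α β → M d),
      (∀ t i j, Omk t i j = - Omk t j i) ∧ UB fun t : Dt D α β =>
        ∫ x in D.Fk k, dot (dev t.v (ak t) (Omk t) x) (dev t.v (ak t) (Omk t) x) := by
    intro k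
    refine rigid (α := α) (β := β) hα hE hSh hKP (D := D) _ _ (fun i => ?_) (fun x hx => ?_)
      (fun i => if i = k ∨ i = D.l k then -(1 / 2) else 0) (fun x hx => ?_)
    · by_cases h : i = k ∨ i = D.l k
      · rw [if_pos h, if_pos h]; linarith
      · rw [if_neg h, if_neg h]; norm_num
    · refine Or.inr (Or.inl ⟨k, D.l k, (D.l_ne k).symm, ?_, ?_⟩)
      · have h1 := hx.1 k
        have h2 := hx.2 k
        simp only [true_or, if_true] at h1 h2
        have h3 : |x k| ≤ D.bF / 2 := abs_le.2 ⟨h1, h2⟩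
        rw [pd_small (by linarith)]; linarith
      · have h1 := hx.1 (D.l k)
        have h2 := hx.2 (D.l k)
        simp only [or_true, if_true] at h1 h2
        have h3 : |x (D.l k)| ≤ D.bF / 2 := abs_le.2 ⟨h1, h2⟩
        rw [pd_small (by linarith)]; linarith
    · refine ⟨fun i => ?_, fun i => ?_⟩
      · have h1 := hx.1 i
        show (0 : ℝ) ≤ x i - _
        by_cases h : i = k ∨ i = D.l k
        · simp only [if_pos h] at h1 ⊢; linarith
        · simp only [if_neg h] at h1 ⊢; linarith
      · have h1 := hx.2 i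
        show x i - _ ≤ (1 : ℝ)
        by_cases h : i = k ∨ i = D.l k
        · simp only [if_pos h] at h1 ⊢; linarith
        · simp only [if_neg h] at h1 ⊢; linarith
  choose ak Omk hOmk ubk using hframe
  have hX0F : ∀ k, X0 D ⊆ D.Fk k := by
    intro k x hx
    refine ⟨fun i => ?_, fun i => ?_⟩
    · have h1 : D.b ≤ x i := hx.1 i
      show (if i = k ∨ i = D.l k then -(D.bF / 2) else 0) ≤ x i
      split_ifs <;> linarith
    · have h1 : x i ≤ D.bF / 2 := hx.2 i
      show x i ≤ (if i = k ∨ i = D.l k then D.bF / 2 else 1)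
      split_ifs <;> linarith
  have ubt : ∀ i, UB fun t : Dt D α β =>
      ∫ x in X0 D, (dot (zt D i) (t.v (x + zt D i) - t.v x)) ^ 2 := fun i =>
    tube hα hE hSh hBar i
  have hV : ∀ k, ∃ Vk : Dt D α β → ℝ,
      (UB fun t => dot (ak k t - a t - Vk t • zv D.q0) (ak k t - a t - Vk t • zv D.q0)) ∧
      UB fun t => ip (Omk k t - Om t) (Omk k t - Om t) := fun k =>
    step_E hOm (hOmk k) (hX0F k) ub0 (ubk k) ubt
  choose Vk ue us using hV
  -- the common translation
  obtain ⟨V0, hV0⟩ : ∃ V0 : Dt D α β → ℝ, ∀ k, UB fun t => (Vk k t - V0 t) ^ 2 := by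
    rcases isEmpty_or_nonempty (Fin d) with hemp | ⟨⟨k0⟩⟩
    · exact ⟨fun _ => 0, fun k => (hemp.false k).elim⟩
    · exact ⟨Vk k0, fun k => step_G (hX0F k) (hX0F k0) (ubk k) (ubk k0) (ue k) (ue k0) (us k)
        (us k0)⟩
  have ubf := fun k => step_H (ubk k) (ue k) (us k) (hV0 k)
  choose Kf hKf hubf using ubf
  obtain ⟨Kb, hKb, hub0⟩ := ub0
  refine ⟨Kb + ∑ k, Kf k, add_nonneg hKb (Finset.sum_nonneg fun k _ => hKf k), ?_⟩
  intro L C F Ls T h1 h2 h3 h4 ε u
  set t : Dt D α β := ⟨L, C, F, Ls, T, h1, h2, h3, h4, ε, u⟩ with ht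
  have hEn : 0 ≤ t.E := t.E_nn hE
  refine ⟨a t, Om t, V0 t, hOm t, ?_, fun k => ?_⟩
  · refine (hub0 t).trans (mul_le_mul_of_nonneg_right ?_ hEn)
    have := Finset.sum_nonneg fun k (_ : k ∈ Finset.univ) => hKf k
    linarith
  · refine (hubf k t).trans (mul_le_mul_of_nonneg_right ?_ hEn)
    have := Finset.single_le_sum (f := Kf) (fun k _ => hKf k) (Finset.mem_univ k)
    linarith

end Pool.Agent.Lib.MP_5df1bf_an
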