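import Pool.Agent.Lib.MP_5df1bf_an.Asm1
import Pool.Agent.Lib.MP_5df1bf_an.Interp
import Pool.Agent.Lib.MP_5df1bf_an.Rel

/-!
# MP_5df1bf_an: Q1
-/

noncomputable section

namespace Pool.Agent.Lib.MP_5df1bf_an

variable {d : ℕ}

theorem sInterp (d : ℕ) : StmtInterp d := Interp_ok (sParts d)
theorem sRel (d : ℕ) : StmtRel d := Rel_ok (sE d) (sShift d) (sKP d) (sBar d)
theorem sSuf (d : ℕ) : StmtSuf d := sSuf' (sInterp d) (sRel d)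

theorem voidClosure (hd : 2 ≤ d) {κ μ f : ℝ} (hκ : 0 < κ) (hμ : 0 < μ) (hf0 : 0 < f)
    (hf1 : f < 1) (C : Tens d) : C ∈ GVoid κ μ f ↔ Char κ μ f C :=
  gclosure hd (sNec d) (sSuf d) (sH1 d) (sH1Min d) (sInvIso d) (sGamIso d) (sInvT d)
    (sGamT d) hκ hμ hf0 hf1 C

end Pool.Agent.Lib.MP_5df1bf_an
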