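import Pool.Agent.Lib.MP_5df1bf_an.Stmts1

/-!
# MP_5df1bf_an, A5: the averaging lemma
-/

open MeasureTheory Filter Topology
open scoped BigOperators ContDiff ENNReal

noncomputable section

namespace Pool.Agent.Lib.MP_5df1bf_an

variable {d : ℕ}

namespace Avg

/-- translations are continuous in `L¹` -/
theorem trans_cont {F : V d → ℝ} (hF : Integrable F) :
    Tendsto (fun t : V d => ∫ x, |F (x + t) - F x|) (𝓝 0) (𝓝 0) := by
  have hF1 : MemLp F 1 volume := memLp_one_iff_integrable.mpr hF
  set g : V d → C(V d, V d) := fun t => ⟨fun x => x + t, by fun_prop⟩ with hg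
  have hgc : Continuous g := by
    apply ContinuousMap.continuous_of_continuous_uncurry
    show Continuous fun p : V d × V d => p.2 + p.1
    fun_prop
  have hgm : ∀ t, MeasurePreserving (g t) volume volume := fun t =>
    measurePreserving_add_right volume t
  have hfact : Fact ((1 : ℝ≥0∞) ≤ 1) := ⟨le_rfl⟩
  have h1 : Tendsto (fun t => Lp.compMeasurePreserving (g t) (hgm t) (hF1.toLp F)) (𝓝 0)
      (𝓝 (Lp.compMeasurePreserving (g 0) (hgm 0) (hF1.toLp F))) :=
    tendsto_const_nhds.compMeasurePreservingLp (hgc.tendsto 0) hgm (hgm 0) (by simp)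
  have h2 : Tendsto (fun t => ‖Lp.compMeasurePreserving (g t) (hgm t) (hF1.toLp F) -
      Lp.compMeasurePreserving (g 0) (hgm 0) (hF1.toLp F)‖) (𝓝 0) (𝓝 0) := by
    have := (h1.sub_const (Lp.compMeasurePreserving (g 0) (hgm 0) (hF1.toLp F))).norm
    simpa using this
  refine h2.congr fun t => ?_
  rw [Lp.toLp_compMeasurePreserving, Lp.toLp_compMeasurePreserving, ← MemLp.toLp_sub,
    Lp.norm_toLp, eLpNorm_one_eq_lintegral_enorm, ← integral_norm_eq_lintegral_enorm]
  · congr 1
    funext x
    simp [hg]
  · exact ((hF1.comp_measurePreserving (hgm t)).sub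
      (hF1.comp_measurePreserving (hgm 0))).aestronglyMeasurable

theorem per_nsmul {g : V d → ℝ} (hg : Per g) (n : ℕ) (x : V d) (i : Fin d) :
    g (x + (n : ℝ) • Pi.single i 1) = g x := by
  induction n with
  | zero => simp
  | succ n ih =>
    have e : x + ((n + 1 : ℕ) : ℝ) • (Pi.single i 1 : V d) =
        (x + (n : ℝ) • Pi.single i 1) + Pi.single i 1 := by
      push_cast
      rw [add_smul, one_smul, add_assoc]
    rw [e, hg, ih]

theorem vol_cell : volume (cell d) = 1 := by
  unfold cell
  rw [Real.volume_Icc_pi]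
  simp

theorem const_bound (Φ : V d → ℝ) (C : ℝ) (h : ∀ y ∈ cell d, |Φ y| ≤ C) :
    |∫ y in cell d, Φ y| ≤ C := by
  have h1 := norm_setIntegral_le_of_norm_le_const (μ := volume) (s := cell d) (f := Φ) (C := C)
    (by rw [vol_cell (d := d)]; exact ENNReal.one_lt_top) (fun y hy => by
      rw [Real.norm_eq_abs]; exact h y hy)
  rw [measureReal_def, vol_cell (d := d), Real.norm_eq_abs] at h1
  simpa using h1

theorem bounded_case (hS : StmtShift d) {f g : V d → ℝ} (hf : Measurable f) (hfp : Per f) {K : ℝ}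
    (hK : ∀ x, |f x| ≤ K) (hg : Measurable g) (hgp : Per g) {L : ℝ} (hL : ∀ x, |g x| ≤ L) :
    Tendsto (fun n : ℕ => ∫ x in cell d, f x * g ((n : ℝ) • x)) atTop
      (𝓝 ((∫ x in cell d, f x) * ∫ x in cell d, g x)) := by
  have : IsProbabilityMeasure (volume.restrict (cell d)) :=
    ⟨by rw [Measure.restrict_apply_univ]; exact vol_cell⟩
  have hK0 : 0 ≤ K := (abs_nonneg _).trans (hK 0)
  have hL0 : 0 ≤ L := (abs_nonneg _).trans (hL 0)
  set F : V d → ℝ := (Set.Icc (-1 : V d) 2).indicator f with hF
  have hFi : Integrable F := by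
    rw [hF, integrable_indicator_iff measurableSet_Icc]
    refine Measure.integrableOn_of_bounded (M := K) ?_ hf.aestronglyMeasurable
      (ae_of_all _ fun x => by rw [Real.norm_eq_abs]; exact hK x)
    exact (isCompact_Icc.measure_lt_top).ne
  have hφ := trans_cont hFi
  rw [Metric.tendsto_nhds_nhds] at hφ
  rw [Metric.tendsto_atTop]
  intro η hη
  obtain ⟨δ, hδ, hφδ⟩ := hφ (η / (L + 1)) (by positivity)
  obtain ⟨N, hN⟩ := exists_nat_gt (max 1 (1 / δ))
  refine ⟨N, fun n hn => ?_⟩
  have hnR : max 1 (1 / δ) < (n : ℝ) := hN.trans_le (by exact_mod_cast hn)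
  have hn1 : (1 : ℝ) < n := (le_max_left _ _).trans_lt hnR
  have hn0 : (0 : ℝ) < n := by linarith
  have hnδ : 1 / (n : ℝ) < δ := by
    have := (le_max_right 1 (1 / δ)).trans_lt hnR
    rw [div_lt_iff₀ hδ] at this
    rw [div_lt_iff₀ hn0]
    linarith
  -- bound for the translates
  have hshift : ∀ y ∈ cell d, ∫ x in cell d, |f (x + (1 / (n : ℝ)) • y) - f x| ≤ η / (L + 1) := by
    intro y hy
    set s : V d := (1 / (n : ℝ)) • y with hs
    have hs0 : ∀ i, 0 ≤ s i ∧ s i ≤ 1 / (n : ℝ) := by
      intro i
      have h1 := hy.1 i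
      have h2 := hy.2 i
      simp only [Pi.zero_apply, Pi.one_apply] at h1 h2
      simp only [hs, Pi.smul_apply, smul_eq_mul]
      constructor
      · positivity
      · calc 1 / (n : ℝ) * y i ≤ 1 / (n : ℝ) * 1 := by gcongr
          _ = 1 / (n : ℝ) := mul_one _
    have hsn : ‖s‖ ≤ 1 / (n : ℝ) := by
      rw [pi_norm_le_iff_of_nonneg (by positivity)]
      intro i
      rw [Real.norm_eq_abs, abs_of_nonneg (hs0 i).1]
      exact (hs0 i).2
    have h3 := hφδ (x := s) (by rw [dist_zero_right]; exact hsn.trans_lt hnδ)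
    rw [Real.dist_0_eq_abs, abs_of_nonneg (integral_nonneg fun x => abs_nonneg _)] at h3
    refine le_trans ?_ h3.le
    have hint : Integrable fun x => |F (x + s) - F x| := ((hFi.comp_add_right s).sub hFi).abs
    refine le_trans ?_ (setIntegral_le_integral hint (ae_of_all _ fun x => abs_nonneg _)
      (s := cell d))
    apply le_of_eq
    apply setIntegral_congr_fun measurableSet_Icc
    intro x hx
    have hx1 : F x = f x := by
      rw [hF, Set.indicator_of_mem]
      refine ⟨fun i => ?_, fun i => ?_⟩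
      · have := hx.1 i
        simp only [Pi.zero_apply, Pi.neg_apply, Pi.one_apply] at this ⊢
        linarith
      · have := hx.2 i
        simp only [Pi.ofNat_apply] at this ⊢
        linarith
    have hx2 : F (x + s) = f (x + s) := by
      rw [hF, Set.indicator_of_mem]
      have hn2 : 1 / (n : ℝ) ≤ 1 := by
        rw [div_le_one hn0]
        exact hn1.le
      refine ⟨fun i => ?_, fun i => ?_⟩
      · have := hx.1 i
        have h5 := (hs0 i).1
        simp only [Pi.zero_apply, Pi.neg_apply, Pi.one_apply, Pi.add_apply] at this ⊢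
        linarith
      · have := hx.2 i
        have h5 := (hs0 i).2
        simp only [Pi.ofNat_apply, Pi.add_apply] at this ⊢
        linarith
    simp only [hx1, hx2]
  -- first formula
  have hgn : ∀ (x : V d) (i : Fin d), g ((n : ℝ) • (x + Pi.single i 1)) = g ((n : ℝ) • x) := by
    intro x i
    rw [smul_add]
    exact per_nsmul hgp n _ i
  have e1 : ∫ x in cell d, f x * g ((n : ℝ) • x) =
      ∫ y in cell d, ∫ x in cell d, f (x + (1 / (n : ℝ)) • y) * g ((n : ℝ) • x + y) := by
    have h4 : ∀ y : V d, ∫ x in cell d, f (x + (1 / (n : ℝ)) • y) * g ((n : ℝ) • x + y) =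
        ∫ x in cell d, f x * g ((n : ℝ) • x) := by
      intro y
      rw [← hS (fun x => f x * g ((n : ℝ) • x)) (fun x i => by
        show f (x + _) * g ((n : ℝ) • (x + _)) = _
        rw [hfp x i, hgn x i]) ((1 / (n : ℝ)) • y)]
      congr 1
      funext x
      congr 2
      rw [smul_add, smul_smul, mul_one_div, div_self hn0.ne', one_smul]
    simp only [h4]
    rw [integral_const, probReal_univ, one_smul]
  -- second formula
  have hlin1 : Measurable fun p : V d × V d => (n : ℝ) • p.1 + p.2 :=
    Continuous.measurable (by fun_prop)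
  have hlin2 : Measurable fun p : V d × V d => p.1 + (1 / (n : ℝ)) • p.2 :=
    Continuous.measurable (by fun_prop)
  have hmeas2 : Measurable fun p : V d × V d => f p.1 * g ((n : ℝ) • p.1 + p.2) :=
    (hf.comp measurable_fst).mul (hg.comp hlin1)
  have hmeas1 : Measurable fun p : V d × V d => f (p.1 + (1 / (n : ℝ)) • p.2) *
      g ((n : ℝ) • p.1 + p.2) := (hf.comp hlin2).mul (hg.comp hlin1)
  have hb : ∀ a b : ℝ, |a| ≤ K → |b| ≤ L → ‖a * b‖ ≤ K * L := by
    intro a b ha hb
    rw [norm_mul, Real.norm_eq_abs, Real.norm_eq_abs]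
    exact mul_le_mul ha hb (abs_nonneg _) hK0
  have i2 : Integrable (fun p : V d × V d => f p.1 * g ((n : ℝ) • p.1 + p.2))
      ((volume.restrict (cell d)).prod (volume.restrict (cell d))) :=
    Integrable.of_bound hmeas2.aestronglyMeasurable (K * L)
      (ae_of_all _ fun p => hb _ _ (hK _) (hL _))
  have e2 : (∫ x in cell d, f x) * ∫ x in cell d, g x =
      ∫ y in cell d, ∫ x in cell d, f x * g ((n : ℝ) • x + y) := by
    rw [← integral_integral_swap (f := fun x y => f x * g ((n : ℝ) • x + y)) i2,
      ← integral_mul_const]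
    congr 1
    funext x
    rw [integral_const_mul]
    congr 1
    rw [← hS g hgp ((n : ℝ) • x)]
    congr 1
    funext y
    rw [add_comm]
  rw [Real.dist_eq, e1, e2]
  have s1 : ∀ y : V d, Integrable (fun x => f (x + (1 / (n : ℝ)) • y) * g ((n : ℝ) • x + y))
      (volume.restrict (cell d)) := fun y =>
    Integrable.of_bound (hmeas1.comp measurable_prodMk_right).aestronglyMeasurable (K * L)
      (ae_of_all _ fun p => hb _ _ (hK _) (hL _))
  have s2 : ∀ y : V d, Integrable (fun x => f x * g ((n : ℝ) • x + y))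
      (volume.restrict (cell d)) := fun y =>
    Integrable.of_bound (hmeas2.comp measurable_prodMk_right).aestronglyMeasurable (K * L)
      (ae_of_all _ fun p => hb _ _ (hK _) (hL _))
  have bnd : ∀ y ∈ cell d, |(∫ x in cell d, f (x + (1 / (n : ℝ)) • y) * g ((n : ℝ) • x + y)) -
      ∫ x in cell d, f x * g ((n : ℝ) • x + y)| ≤ L * (η / (L + 1)) := by
    intro y hy
    rw [← integral_sub (s1 y) (s2 y)]
    refine (abs_integral_le_integral_abs).trans ?_
    have hfi : Integrable (fun x => |f (x + (1 / (n : ℝ)) • y) - f x|)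
        (volume.restrict (cell d)) := by
      refine Integrable.of_bound (C := K + K) ?_ (ae_of_all _ fun x => ?_)
      · exact ((hf.comp (measurable_id.add_const _)).sub hf).abs.aestronglyMeasurable
      · rw [Real.norm_eq_abs, abs_abs]
        exact (abs_sub _ _).trans (add_le_add (hK _) (hK _))
    refine (integral_mono_of_nonneg (ae_of_all _ fun x => abs_nonneg _) (hfi.const_mul L)
      (ae_of_all _ fun x => ?_)).trans ?_
    · show |_ - _| ≤ L * _
      rw [← sub_mul, abs_mul, mul_comm]
      exact mul_le_mul_of_nonneg_right (hL _) (abs_nonneg _)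
    · rw [integral_const_mul]
      exact mul_le_mul_of_nonneg_left (hshift y hy) hL0
  have m1 : Integrable (fun y => ∫ x in cell d, f (x + (1 / (n : ℝ)) • y) * g ((n : ℝ) • x + y))
      (volume.restrict (cell d)) := by
    have i1 : Integrable (fun p : V d × V d => f (p.2 + (1 / (n : ℝ)) • p.1) *
        g ((n : ℝ) • p.2 + p.1))
        ((volume.restrict (cell d)).prod (volume.restrict (cell d))) :=
      Integrable.of_bound (hmeas1.comp measurable_swap).aestronglyMeasurable (K * L)
        (ae_of_all _ fun p => hb _ _ (hK _) (hL _))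
    exact i1.integral_prod_left
  have m2 : Integrable (fun y => ∫ x in cell d, f x * g ((n : ℝ) • x + y))
      (volume.restrict (cell d)) := by
    have i1 : Integrable (fun p : V d × V d => f p.2 * g ((n : ℝ) • p.2 + p.1))
        ((volume.restrict (cell d)).prod (volume.restrict (cell d))) :=
      Integrable.of_bound (hmeas2.comp measurable_swap).aestronglyMeasurable (K * L)
        (ae_of_all _ fun p => hb _ _ (hK _) (hL _))
    exact i1.integral_prod_left
  rw [← integral_sub m1 m2]
  have h5 : |∫ y in cell d, ((∫ x in cell d, f (x + (1 / (n : ℝ)) • y) * g ((n : ℝ) • x + y)) -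
      ∫ x in cell d, f x * g ((n : ℝ) • x + y))| ≤ L * (η / (L + 1)) :=
    const_bound _ _ bnd
  refine h5.trans_lt ?_
  rw [← mul_div_assoc, div_lt_iff₀ (by linarith)]
  nlinarith

end Avg

open Avg

theorem Avg_ok (d : ℕ) (hS : StmtShift d) (hDil : StmtDil d) : StmtAvg d := by
  intro f g hf hfp hK hg hgp hgi
  obtain ⟨K, hK⟩ := hK
  have : IsProbabilityMeasure (volume.restrict (cell d)) :=
    ⟨by rw [Measure.restrict_apply_univ]; exact vol_cell⟩
  have hK0 : 0 ≤ K := (abs_nonneg _).trans (hK 0)
  -- truncations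
  set gM : ℕ → V d → ℝ := fun M x => max (-(M : ℝ)) (min (g x) M) with hgM
  have hgMm : ∀ M, Measurable (gM M) := fun M =>
    measurable_const.max (hg.min measurable_const)
  have hgMp : ∀ M, Per (gM M) := fun M x i => by
    simp only [hgM]
    rw [hgp x i]
  have hgMb : ∀ M x, |gM M x| ≤ M := by
    intro M x
    rw [abs_le]
    have hM : -(M : ℝ) ≤ M := by
      have : (0 : ℝ) ≤ M := Nat.cast_nonneg _
      linarith
    exact ⟨le_max_left _ _, max_le hM (min_le_right _ _)⟩
  have hdiff : ∀ M x, |g x - gM M x| ≤ |g x| := by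
    intro M x
    have h0 : (0 : ℝ) ≤ M := Nat.cast_nonneg _
    simp only [hgM]
    rcases le_total (g x) M with h1 | h1
    · rw [min_eq_left h1]
      rcases le_total (-(M : ℝ)) (g x) with h2 | h2
      · rw [max_eq_right h2, sub_self, abs_zero]
        exact abs_nonneg _
      · rw [max_eq_left h2, abs_of_nonpos (by linarith), abs_of_nonpos (by linarith)]
        linarith
    · rw [min_eq_right h1, max_eq_right (by linarith), abs_of_nonneg (by linarith),
        abs_of_nonneg (by linarith)]
      linarith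
  have hpt : ∀ x, Tendsto (fun M : ℕ => |g x - gM M x|) atTop (𝓝 0) := by
    intro x
    obtain ⟨M0, hM0⟩ := exists_nat_gt |g x|
    apply tendsto_const_nhds.congr'
    filter_upwards [eventually_ge_atTop M0] with M hM
    have h1 : |g x| < M := hM0.trans_le (by exact_mod_cast hM)
    rw [abs_lt] at h1
    simp only [hgM]
    rw [min_eq_left h1.2.le, max_eq_right h1.1.le, sub_self, abs_zero]
  have hlim : Tendsto (fun M : ℕ => ∫ x in cell d, |g x - gM M x|) atTop (𝓝 0) := by
    have h := tendsto_integral_of_dominated_convergence (μ := volume.restrict (cell d))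
      (F := fun (M : ℕ) x => |g x - gM M x|) (f := fun _ => (0 : ℝ)) (fun x => |g x|)
      (fun M => (hg.sub (hgMm M)).abs.aestronglyMeasurable) hgi.abs
      (fun M => ae_of_all _ fun x => by
        rw [Real.norm_eq_abs, abs_abs]
        exact hdiff M x) (ae_of_all _ hpt)
    simpa using h
  rw [Metric.tendsto_atTop]
  intro η hη
  have hq : 0 < η / (4 * (K + 1)) := by positivity
  obtain ⟨M, hM⟩ := (hlim.eventually_lt_const hq).exists
  obtain ⟨N, hN⟩ := Metric.tendsto_atTop.mp
    (bounded_case hS hf hfp hK (hgMm M) (hgMp M) (hgMb M)) (η / 2) (by positivity)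
  refine ⟨max N 1, fun n hn => ?_⟩
  have hn1 : 0 < n := le_of_max_le_right hn
  have h1 := hN n (le_of_max_le_left hn)
  have hgMi : IntegrableOn (gM M) (cell d) :=
    Integrable.of_bound (hgMm M).aestronglyMeasurable M
      (ae_of_all _ fun x => by rw [Real.norm_eq_abs]; exact hgMb M x)
  obtain ⟨j1, _⟩ := hDil n hn1 g hg hgp hgi
  obtain ⟨j2, _⟩ := hDil n hn1 (gM M) (hgMm M) (hgMp M) hgMi
  obtain ⟨j3, e3⟩ := hDil n hn1 (fun x => |g x - gM M x|) (hg.sub (hgMm M)).abs
    (fun x i => by
      show |g (x + _) - gM M (x + _)| = _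
      rw [hgp x i, hgMp M x i]) (Integrable.abs (hgi.sub hgMi))
  have hfb : ∀ᵐ x ∂(volume.restrict (cell d)), ‖f x‖ ≤ K :=
    ae_of_all _ fun x => by rw [Real.norm_eq_abs]; exact hK x
  have k1 : Integrable (fun x => f x * g ((n : ℝ) • x)) (volume.restrict (cell d)) :=
    j1.bdd_mul hf.aestronglyMeasurable hfb
  have k2 : Integrable (fun x => f x * gM M ((n : ℝ) • x)) (volume.restrict (cell d)) :=
    j2.bdd_mul hf.aestronglyMeasurable hfb
  have b1 : |(∫ x in cell d, f x * g ((n : ℝ) • x)) - ∫ x in cell d, f x * gM M ((n : ℝ) • x)| ≤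
      K * ∫ x in cell d, |g x - gM M x| := by
    rw [← integral_sub k1 k2]
    refine (abs_integral_le_integral_abs).trans ?_
    refine (integral_mono_of_nonneg (ae_of_all _ fun x => abs_nonneg _) (j3.const_mul K)
      (ae_of_all _ fun x => ?_)).trans ?_
    · show |_ - _| ≤ K * |_ - _|
      rw [← mul_sub, abs_mul]
      exact mul_le_mul_of_nonneg_right (hK _) (abs_nonneg _)
    · rw [integral_const_mul, e3]
  have b2 : |(∫ x in cell d, f x) * (∫ x in cell d, gM M x) -
      (∫ x in cell d, f x) * ∫ x in cell d, g x| ≤ K * ∫ x in cell d, |g x - gM M x| := by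
    rw [← mul_sub, abs_mul, ← integral_sub hgMi hgi]
    refine mul_le_mul ?_ ?_ (abs_nonneg _) hK0
    · exact const_bound f K fun x _ => hK x
    · refine (abs_integral_le_integral_abs).trans (le_of_eq ?_)
      congr 1
      funext x
      rw [abs_sub_comm]
  have hB : K * ∫ x in cell d, |g x - gM M x| ≤ η / 4 := by
    calc K * ∫ x in cell d, |g x - gM M x| ≤ K * (η / (4 * (K + 1))) :=
          mul_le_mul_of_nonneg_left hM.le hK0
      _ ≤ η / 4 := by
          rw [← mul_div_assoc, div_le_div_iff₀ (by positivity) (by norm_num)]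
          nlinarith
  rw [Real.dist_eq] at h1 ⊢
  have t1 := abs_le.mp (b1.trans hB)
  have t2 := abs_le.mp (b2.trans hB)
  have t3 := abs_lt.mp h1
  rw [abs_lt]
  constructor <;> linarith [t1.1, t1.2, t2.1, t2.2, t3.1, t3.2]

end Pool.Agent.Lib.MP_5df1bf_an
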