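import Mathlib

/-!
# MP_5df1bf_an: definitions

`V d` vectors, `M d` real `d × d` matrices (as functions), `Tens d` elasticity tensors
(self-adjoint linear maps on matrices which only see the symmetric part; their quadratic form is
`Tens.Q`).  Displacements are smooth and `ℤ^d`-periodic, `eff D ε` is the effective energy of the
periodic tensor field `D` at the mean strain `ε`.
-/

open MeasureTheory Filter Topology
open scoped BigOperators ContDiff

noncomputable section

namespace Pool.Agent.Lib.MP_5df1bf_an

/-- vectors -/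
abbrev V (d : ℕ) : Type := Fin d → ℝ
/-- real `d × d` matrices -/
abbrev M (d : ℕ) : Type := Fin d → Fin d → ℝ

variable {d : ℕ}

/-- `A : B = tr (Aᵀ B)` -/
def ip (A B : M d) : ℝ := ∑ i, ∑ j, A i j * B i j
/-- transpose -/
def tp (A : M d) : M d := fun i j => A j i
/-- symmetric part -/
def symm (A : M d) : M d := fun i j => (A i j + A j i) / 2
/-- squared norm of the symmetric part -/
def nsq (A : M d) : ℝ := ip (symm A) (symm A)
/-- symmetrised product `a ⊙ n` -/
def sd (a n : V d) : M d := fun i j => (a i * n j + a j * n i) / 2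
/-- scalar product -/
def dot (a b : V d) : ℝ := ∑ i, a i * b i
/-- matrix times vector -/
def mulV (A : M d) (x : V d) : V d := fun i => ∑ j, A i j * x j
/-- `z ⊗ z` -/
def oo (z : V d) : M d := fun i j => z i * z j
/-- integer vectors as real vectors -/
def zv (z : Fin d → ℤ) : V d := fun i => (z i : ℝ)
/-- diagonal matrix -/
def dg (c : V d) : M d := fun i j => if i = j then c i else 0

/-- Elasticity tensors: self-adjoint linear maps which only see the symmetric part. -/
@[ext] structure Tens (d : ℕ) where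
  C : M d →ₗ[ℝ] M d
  sa : ∀ A B, ip (C A) B = ip A (C B)
  tr : ∀ A, C (tp A) = C A

/-- quadratic form -/
def Tens.Q (T : Tens d) (A : M d) : ℝ := ip (T.C A) A
/-- positive semidefinite -/
def Tens.PSD (T : Tens d) : Prop := ∀ A, 0 ≤ T.Q A
/-- positive definite (on symmetric matrices) -/
def Tens.PD (T : Tens d) : Prop := ∃ α > 0, ∀ A, α * nsq A ≤ T.Q A

/-- multiple of a tensor -/
def Tens.scale (c : ℝ) (T : Tens d) : Tens d where
  C := c • T.C
  sa := by
    intro A B
    have h := T.sa A B
    simp only [LinearMap.smul_apply, ip, Pi.smul_apply, smul_eq_mul] at h ⊢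
    simp only [mul_assoc, mul_left_comm _ c, ← Finset.mul_sum]
    rw [h]
  tr := by intro A; simp [T.tr]

/-- `ℤ^d`-periodic functions -/
def Per {α : Type*} (g : V d → α) : Prop := ∀ (x : V d) (i : Fin d), g (x + Pi.single i 1) = g x

/-- smooth periodic displacements -/
structure Disp (d : ℕ) where
  u : V d → V d
  smooth : ContDiff ℝ ∞ u
  per : Per u

/-- gradient: `(grad u x) i j = ∂_j u_i (x)` -/
def grad (u : V d → V d) (x : V d) : M d := fun i j => fderiv ℝ u x (Pi.single j 1) i
/-- strain (symmetrised gradient) -/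
def sg (u : V d → V d) (x : V d) : M d := symm (grad u x)

/-- unit cell -/
def cell (d : ℕ) : Set (V d) := Set.Icc 0 1

/-- elastic energy in the unit cell at mean strain `ε` -/
def energy (D : V d → Tens d) (ε : M d) (u : Disp d) : ℝ :=
  ∫ x in cell d, (D x).Q (ε + sg u.u x)

/-- effective energy -/
def eff (D : V d → Tens d) (ε : M d) : ℝ := ⨅ u : Disp d, energy D ε u

/-- periodic measurable tensor fields with `α nsq ≤ Q ≤ β nsq` -/
structure IsFld (D : V d → Tens d) (α β : ℝ) : Prop where
  meas : ∀ A B, Measurable fun x => ip ((D x).C A) B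
  per : Per D
  lo : ∀ x A, α * nsq A ≤ (D x).Q A
  hi : ∀ x A, (D x).Q A ≤ β * nsq A

/-- measurable periodic sets (microstructures) -/
def Micro (χ : Set (V d)) : Prop :=
  MeasurableSet χ ∧ ∀ (x : V d) (i : Fin d), x + Pi.single i 1 ∈ χ ↔ x ∈ χ

/-- volume fraction -/
def frac (χ : Set (V d)) : ℝ := (volume (χ ∩ cell d)).toReal

open Classical in
/-- two-phase material: `A` in `χ`, `δ A` outside -/
def phase (A : Tens d) (δ : ℝ) (χ : Set (V d)) : V d → Tens d :=
  fun x => if x ∈ χ then A else A.scale δ

/-- `(C, f)` is realizable with the solid `A` (for all small `δ`; multiplicative lower bound). -/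
def Rz (A C : Tens d) (f : ℝ) : Prop :=
  ∀ η > 0, ∃ δ₀ > 0, ∀ δ, 0 < δ → δ < δ₀ → ∃ χ, Micro χ ∧ |frac χ - f| < η ∧
    ∀ ε, (1 - η) * C.Q ε ≤ eff (phase A δ χ) ε ∧ eff (phase A δ χ) ε ≤ C.Q ε + η * nsq ε

end Pool.Agent.Lib.MP_5df1bf_an
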