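import Pool.Agent.Lib.MP_5df1bf_an.Stmts2
import Pool.Agent.Lib.MP_5df1bf_an.Zone

/-!
# MP_5df1bf_an: the easy displacement in the vertex zone (StmtEasyZ)
-/

open MeasureTheory Filter Topology
open scoped BigOperators ContDiff

noncomputable section

namespace Pool.Agent.Lib.MP_5df1bf_an

variable {d : ℕ}

namespace EasyZAux

open ZoneAux

/-- the easy displacement without patches -/
def Fz (D : Dat d) (L : ℕ) (x : V d) : V d := fun i =>
  (1 - D.Th x) * (D.E i * D.S (x i)) + D.Th x * ((L : ℝ) * D.q0 i + D.E i * x i) - D.E i * x i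

section

variable {D : Dat d} {K : ℝ} (hP : D.Prof K)

include hP

lemma Th_cd : ContDiff ℝ ∞ D.Th := by
  unfold Dat.Th
  exact contDiff_const.sub (contDiff_prod fun m _ => contDiff_const.sub
    (hP.thF_sm.comp (contDiff_apply ℝ ℝ m)))

lemma Fz_cd (L : ℕ) : ContDiff ℝ ∞ (Fz D L) := by
  refine contDiff_pi.2 fun i => ?_
  have hT := Th_cd hP
  have hS : ContDiff ℝ ∞ fun y : V d => D.S (y i) := hP.S_sm.comp (contDiff_apply ℝ ℝ i)
  have hx : ContDiff ℝ ∞ fun y : V d => y i := contDiff_apply ℝ ℝ i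
  exact (((contDiff_const.sub hT).mul (contDiff_const.mul hS)).add
    (hT.mul (contDiff_const.add (contDiff_const.mul hx)))).sub (contDiff_const.mul hx)

/-- derivative of `Th` -/
def dT (D : Dat d) (x : V d) (j : Fin d) : ℝ :=
  (∏ m ∈ Finset.univ.erase j, (1 - D.thF (x m))) * deriv D.thF (x j)

omit hP in
lemma coord_der (x : V d) (i j : Fin d) :
    HasDerivAt (fun t : ℝ => (x + t • (Pi.single j (1 : ℝ) : V d)) i) (if i = j then 1 else 0) 0 := by
  have h : HasDerivAt (fun t : ℝ => x i + t * (Pi.single j (1 : ℝ) : V d) i)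
      ((Pi.single j (1 : ℝ) : V d) i) 0 := by
    have := ((hasDerivAt_id (0 : ℝ)).mul_const ((Pi.single j (1 : ℝ) : V d) i)).const_add (x i)
    simpa using this
  have e : (Pi.single j (1 : ℝ) : V d) i = if i = j then 1 else 0 := Pi.single_apply _ _ _
  rw [← e]
  exact h

omit hP in
lemma comp_der {f : ℝ → ℝ} (hf : ContDiff ℝ ∞ f) (x : V d) (i j : Fin d) :
    HasDerivAt (fun t : ℝ => f ((x + t • (Pi.single j (1 : ℝ) : V d)) i))
      (deriv f (x i) * (if i = j then 1 else 0)) 0 := by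
  have h1 : HasDerivAt f (deriv f (x i)) ((x + (0 : ℝ) • (Pi.single j (1 : ℝ) : V d)) i) := by
    have : (x + (0 : ℝ) • (Pi.single j (1 : ℝ) : V d)) i = x i := by simp
    rw [this]
    exact (hf.differentiable (by simp) (x i)).hasDerivAt
  exact h1.comp 0 (coord_der x i j)

lemma Th_der (x : V d) (j : Fin d) :
    HasDerivAt (fun t : ℝ => D.Th (x + t • (Pi.single j (1 : ℝ) : V d))) (dT D x j) 0 := by
  classical
  have h1 : ∀ m ∈ (Finset.univ : Finset (Fin d)), HasDerivAt
      (fun t : ℝ => 1 - D.thF ((x + t • (Pi.single j (1 : ℝ) : V d)) m))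
      (-(deriv D.thF (x m) * (if m = j then 1 else 0))) 0 := fun m _ =>
    (comp_der hP.thF_sm x m j).const_sub 1
  have h2 := HasDerivAt.fun_finsetProd h1
  have h3 := h2.const_sub 1
  unfold Dat.Th
  refine h3.congr_deriv ?_
  rw [Finset.sum_eq_single j]
  · simp [dT]
  · intro m _ hm
    simp [hm]
  · simp

lemma dT_bd (x : V d) (j : Fin d) : |dT D x j| ≤ K / D.h := by
  unfold dT
  rw [abs_mul, Finset.abs_prod]
  have h1 : ∏ m ∈ Finset.univ.erase j, |1 - D.thF (x m)| ≤ 1 := by
    apply Finset.prod_le_one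
    · intro m _; exact abs_nonneg _
    · intro m _
      have := hP.thF_rng (x m)
      rw [abs_of_nonneg (by linarith)]
      linarith
  have h2 := hP.thF_der (x j)
  have h3 : 0 ≤ ∏ m ∈ Finset.univ.erase j, |1 - D.thF (x m)| :=
    Finset.prod_nonneg fun m _ => abs_nonneg _
  calc _ ≤ 1 * |deriv D.thF (x j)| := by gcongr
    _ ≤ K / D.h := by rw [one_mul]; exact h2

lemma Fz_der (L : ℕ) (x : V d) (i j : Fin d) :
    grad (Fz D L) x i j = dT D x j * ((L : ℝ) * D.q0 i) + dT D x j * (D.E i * (x i - D.S (x i))) +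
      (1 - D.Th x) * (D.E i * (deriv D.S (x i) - 1)) * (if i = j then 1 else 0) := by
  have h1 : HasFDerivAt (Fz D L) (fderiv ℝ (Fz D L) x) x :=
    ((Fz_cd hP L).differentiable (by simp) x).hasFDerivAt
  have h2 : HasDerivAt (fun t : ℝ => Fz D L (x + t • (Pi.single j (1 : ℝ) : V d)))
      (fderiv ℝ (Fz D L) x (Pi.single j 1)) 0 := h1.hasLineDerivAt _
  have h3 := (hasDerivAt_pi.mp h2) i
  have hT := Th_der hP x j
  have hS := comp_der hP.S_sm x i j
  have hX := coord_der x i j
  have h4 := (((hT.const_sub 1).mul (hS.const_mul (D.E i))).add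
    (hT.mul ((hX.const_mul (D.E i)).const_add ((L : ℝ) * D.q0 i)))).sub (hX.const_mul (D.E i))
  have h5 := h3.unique h4
  unfold grad
  rw [h5]
  simp only [zero_smul, add_zero]
  ring

/-- near the vertices the patches do not matter -/
lemma easy_eq (L : ℕ) (x : V d) (hx : ∀ i, Int.fract (x i) < 8 * D.h) :
    D.easyy L =ᶠ[𝓝 x] Fz D L := by
  have hh := h_pos D
  have hhw := h_le D
  have h1 : ∀ᶠ y in 𝓝 x, ∀ i : Fin d, pd (y i) < D.w / 2 := by
    rw [Filter.eventually_all]
    intro i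
    have h2 : pd (x i) < D.w / 2 := by
      have := pd_le (x i) ⌊x i⌋
      have e : |x i - (⌊x i⌋ : ℝ)| = Int.fract (x i) := by
        rw [Int.self_sub_floor]
        exact abs_of_nonneg (Int.fract_nonneg _)
      rw [e] at this
      linarith [hx i]
    exact (isOpen_lt (pd_cont.comp (continuous_apply i)) continuous_const).mem_nhds h2
  filter_upwards [h1] with y hy
  have hcut : ∀ k j, D.cut k j y = 0 := by
    intro k j
    unfold Dat.cut
    have : ∏ i ∈ Finset.univ.erase k, D.cw (y i) = 0 := by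
      apply Finset.prod_eq_zero (i := D.l k)
      · simp [D.l_ne k]
      · exact hP.cw_zero _ (hy _).le
    rw [this, mul_zero]
  funext i
  unfold Dat.easyy Dat.easyv
  simp only [hcut, zero_smul, Finset.sum_const_zero, add_zero]
  unfold Dat.vedge Dat.vtr Fz
  rfl

/-- far from the planes -/
lemma S_facts {t : ℝ} (h1 : Int.fract t < 8 * D.h) (h2 : D.bF ≤ pd t) :
    0 ≤ t - D.S t ∧ t - D.S t ≤ 8 * D.h ∧ deriv D.S t = 0 := by
  have hh := h_pos D
  have hhw := h_le D
  have hw := w_le D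
  have hb := b_eq D
  have hbF : D.bF = D.h / 4 := rfl
  have hn := Int.fract_nonneg t
  have hpd : pd t ≤ Int.fract t := by
    have := pd_le t ⌊t⌋
    have e : |t - (⌊t⌋ : ℝ)| = Int.fract t := by
      rw [Int.self_sub_floor]
      exact abs_of_nonneg (Int.fract_nonneg _)
    rwa [e] at this
  have hSint : ∀ (s : ℝ) (n : ℤ), D.S (s + n) = D.S s + n := by
    intro s n
    have : D.S (s + n) - (s + n) = D.S s - s := per_int (f := fun u => D.S u - u) (fun u => by
      show D.S (u + 1) - (u + 1) = D.S u - u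
      rw [hP.S_per]; ring) s n
    linarith
  have key : ∀ s : ℝ, 2 * D.b ≤ s → s ≤ 1 / 2 → D.S (s + ⌊t⌋) = ⌊t⌋ := by
    intro s hs1 hs2
    rw [hSint, hP.S_pos s (by linarith) hs2, hP.th_zero]
    · ring
    · rw [pd_of_small (by rw [abs_of_nonneg (by linarith)]; exact hs2),
        abs_of_nonneg (by linarith)]
      exact hs1
  have e1 : t = Int.fract t + ⌊t⌋ := (Int.fract_add_floor t).symm
  have hS : D.S t = ⌊t⌋ := by
    conv_lhs => rw [e1]
    exact key _ (by linarith) (by linarith)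
  have e2 : t - D.S t = Int.fract t := by rw [hS]; exact Int.self_sub_floor t
  refine ⟨by rw [e2]; exact hn, by rw [e2]; exact h1.le, ?_⟩
  have h3 : D.S =ᶠ[𝓝 t] fun _ => (⌊t⌋ : ℝ) := by
    have h4 : ∀ᶠ s : ℝ in 𝓝 t, 2 * D.b < s - (⌊t⌋ : ℝ) :=
      (isOpen_lt continuous_const (continuous_id.sub continuous_const)).mem_nhds (by
        show 2 * D.b < t - ⌊t⌋
        rw [Int.self_sub_floor]; linarith)
    have h5 : ∀ᶠ s : ℝ in 𝓝 t, s - (⌊t⌋ : ℝ) < 1 / 2 :=
      (isOpen_lt (continuous_id.sub continuous_const) continuous_const).mem_nhds (by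
        show t - ⌊t⌋ < 1 / 2
        rw [Int.self_sub_floor]; linarith)
    filter_upwards [h4, h5] with s hs1 hs2
    have := key (s - ⌊t⌋) hs1.le hs2.le
    rwa [sub_add_cancel] at this
  rw [h3.deriv_eq]; simp

/-- near a plane `Th = 1` -/
lemma Th_one {x : V d} {i : Fin d} (h : pd (x i) < D.bF) : D.Th x = 1 ∧ ∀ j, dT D x j = 0 := by
  have h1 : D.thF =ᶠ[𝓝 (x i)] fun _ => 1 := by
    have h2 : ∀ᶠ s in 𝓝 (x i), pd s < D.bF := (isOpen_lt pd_cont continuous_const).mem_nhds h
    filter_upwards [h2] with s hs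
    exact hP.thF_one s hs.le
  have h3 : D.thF (x i) = 1 := hP.thF_one _ h.le
  have h4 : deriv D.thF (x i) = 0 := by rw [h1.deriv_eq]; simp
  refine ⟨?_, fun j => ?_⟩
  · unfold Dat.Th
    rw [Finset.prod_eq_zero (Finset.mem_univ i) (by rw [h3]; ring)]
    ring
  · unfold dT
    by_cases hij : i = j
    · rw [← hij, h4, mul_zero]
    · rw [Finset.prod_eq_zero (i := i) (by simp [hij]) (by rw [h3]; ring), zero_mul]

lemma Th_rng (x : V d) : 0 ≤ 1 - D.Th x ∧ 1 - D.Th x ≤ 1 := by
  unfold Dat.Th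
  have h1 : 0 ≤ ∏ i, (1 - D.thF (x i)) :=
    Finset.prod_nonneg fun i _ => by linarith [(hP.thF_rng (x i)).2]
  have h2 : ∏ i, (1 - D.thF (x i)) ≤ 1 := by
    apply Finset.prod_le_one
    · intro i _; linarith [(hP.thF_rng (x i)).2]
    · intro i _; linarith [(hP.thF_rng (x i)).1]
  constructor <;> linarith

/-- the remaining part of the gradient -/
lemma rest_bd {x : V d} (hx : ∀ i, Int.fract (x i) < 8 * D.h) (i j : Fin d) :
    |dT D x j * (D.E i * (x i - D.S (x i))) +
      (1 - D.Th x) * (D.E i * (deriv D.S (x i) - 1)) * (if i = j then 1 else 0)| ≤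
      (8 * |K| + 1) * |D.E i| := by
  have hh := h_pos D
  have hE := abs_nonneg (D.E i)
  have hK := abs_nonneg K
  by_cases hA : ∃ m, pd (x m) < D.bF
  · obtain ⟨m, hm⟩ := hA
    obtain ⟨h1, h2⟩ := Th_one hP hm
    rw [h1, h2]
    simp only [zero_mul, sub_self, add_zero, abs_zero]
    positivity
  · push Not at hA
    obtain ⟨s1, s2, s3⟩ := S_facts hP (hx i) (hA i)
    obtain ⟨t1, t2⟩ := Th_rng hP x
    rw [s3]
    have h1 : |dT D x j * (D.E i * (x i - D.S (x i)))| ≤ 8 * |K| * |D.E i| := by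
      rw [abs_mul, abs_mul, abs_of_nonneg s1]
      have h2 := dT_bd hP x j
      have h3 : K / D.h ≤ |K| / D.h := by
        have := le_abs_self K
        gcongr
      calc |dT D x j| * (|D.E i| * (x i - D.S (x i))) ≤ (|K| / D.h) * (|D.E i| * (8 * D.h)) := by
            gcongr
            exact h2.trans h3
        _ = 8 * |K| * |D.E i| := by field_simp
    have h2 : |(1 - D.Th x) * (D.E i * ((0 : ℝ) - 1)) * (if i = j then 1 else 0)| ≤ |D.E i| := by
      split_ifs
      · rw [mul_one, abs_mul, abs_of_nonneg t1, abs_mul]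
        have : |(0 : ℝ) - 1| = 1 := by norm_num
        rw [this, mul_one]
        nlinarith
      · rw [mul_zero, abs_zero]; exact hE
    calc _ ≤ _ := abs_add_le _ _
      _ ≤ 8 * |K| * |D.E i| + |D.E i| := add_le_add h1 h2
      _ = _ := by ring

end

end EasyZAux

open EasyZAux

/-- C7e -/
theorem easyZ_ok (d : ℕ) : StmtEasyZ d := by
  intro B K
  refine ⟨∑ i : Fin d, ∑ _j : Fin d, ((8 * |K| + 1) * |B.E i|) ^ 2,
    Finset.sum_nonneg fun i _ => Finset.sum_nonneg fun j _ => sq_nonneg _, ?_⟩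
  rintro D rfl hP L x hx
  have hfr := hx.1
  refine ⟨fun j => (L : ℝ) * dT D x j, ?_⟩
  set R : M d := fun i j => dT D x j * (D.E i * (x i - D.S (x i))) +
      (1 - D.Th x) * (D.E i * (deriv D.S (x i) - 1)) * (if i = j then 1 else 0) with hR
  have hg : grad (D.easyy L) x = grad (Fz D L) x := by
    unfold grad
    rw [(easy_eq hP L x hfr).fderiv_eq]
  have hs : symm (grad (D.easyy L) x - sd (fun j => (L : ℝ) * dT D x j) (zv D.q0)) = symm R := by
    rw [hg]
    funext i j
    simp only [symm, Pi.sub_apply, sd, zv, hR]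
    rw [Fz_der hP, Fz_der hP]
    ring
  have h1 : nsq (grad (D.easyy L) x - sd (fun j => (L : ℝ) * dT D x j) (zv D.q0)) = nsq R := by
    unfold nsq; rw [hs]
  rw [h1]
  refine (nsq_le_ip R).trans ?_
  rw [ip_self_eq]
  refine Finset.sum_le_sum fun i _ => Finset.sum_le_sum fun j _ => ?_
  rw [← sq_abs]
  have := rest_bd hP hfr i j
  gcongr

end Pool.Agent.Lib.MP_5df1bf_an
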