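import Pool.Agent.Lib.MP_5df1bf_an.Stmts4

/-!
# MP_5df1bf_an, Q2, R5f: lower bound for the gadget
-/

open MeasureTheory Filter Topology
open scoped BigOperators ContDiff

noncomputable section

namespace Pool.Agent.Lib.MP_5df1bf_an
namespace RLowP

variable {d : ℕ}

/-- the small set around the lattice lines -/
def sml (d N : ℕ) : Set (V d) := {x : V d | ∃ k : Fin d, ∀ i, i ≠ k → pd (x i) < 1 / (N : ℝ)}

theorem gam_pos (D : RD d) : 0 < D.γ := by
  unfold RD.γ
  have h : 0 ≤ ∑ i, ∑ j, |(D.A₀ i j : ℝ)| :=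
    Finset.sum_nonneg fun i _ => Finset.sum_nonneg fun j _ => abs_nonneg _
  positivity

theorem hb_lt (D : RD d) : D.hb < 1 := by
  have := gam_pos D
  unfold RD.hb
  linarith

theorem N_pos (D : RD d) : (0 : ℝ) < D.N := by
  have := D.Npos
  exact_mod_cast (by omega : 0 < D.N)

theorem tube_sub (D : RD d) (k : Fin d) {x : V d} (hx : x ∈ D.tube k) : x ∈ sml d D.N := by
  refine ⟨k, fun i hi => (hx i hi).trans_lt ?_⟩
  rw [div_lt_div_iff_of_pos_right (N_pos D)]
  exact hb_lt D

/-- the stiff set -/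
def stf (D : RD d) : Set (V d) := {x | x ∈ D.body ∨ ∃ k, x ∈ D.gap k}

theorem stf_sub (D : RD d) {x : V d} (hx : x ∈ stf D) : x ∈ sml d D.N := by
  rcases hx with ⟨k, hk, _⟩ | ⟨k, hk⟩
  · exact tube_sub D k hk
  · exact tube_sub D k hk.1

theorem int_affine (hE : BaseE d) {s : Set (V d)} (hs : MeasurableSet s) (a b : ℝ) :
    Integrable (fun x => a + b * s.indicator (fun _ => (1:ℝ)) x)
        ((volume : Measure (V d)).restrict (cell d)) ∧
      ∫ x in cell d, (a + b * s.indicator (fun _ => (1:ℝ)) x) = a + b * frac s := by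
  have hfin : IsFiniteMeasure ((volume : Measure (V d)).restrict (cell d)) := ⟨by simp [hE.vol]⟩
  have h1 : Integrable (s.indicator fun _ => (1:ℝ)) ((volume : Measure (V d)).restrict (cell d)) :=
    (integrable_const (1:ℝ)).indicator hs
  have h2 : ∫ x in cell d, s.indicator (fun _ => (1:ℝ)) x = frac s := by
    rw [integral_indicator hs, Measure.restrict_restrict hs]
    simp [frac, Measure.real]
  refine ⟨(integrable_const a).add (h1.const_mul b), ?_⟩
  rw [integral_add (integrable_const a) (h1.const_mul b), integral_const_mul, h2, integral_const]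
  simp [Measure.real, hE.vol]

/-- `|C ε|² ≤ β² |ε|²` -/
theorem nsq_C_le (C : Tens d) (hC : C.PSD) {β : ℝ} (hβ : ∀ A, |C.Q A| ≤ β * nsq A) (ε : M d) :
    nsq (C.C ε) ≤ β ^ 2 * nsq ε := by
  have h1 := C.Q_cs hC ε (C.C ε)
  have h2 : ip (C.C ε) (C.C ε) = nsq (C.C ε) := by
    unfold nsq
    rw [C.symm_C]
  rw [h2] at h1
  have hn : 0 ≤ nsq (C.C ε) := nsq_nonneg _
  have hnε : 0 ≤ nsq ε := nsq_nonneg _
  have h3 := (le_abs_self _).trans (hβ ε)
  have h4 := (le_abs_self _).trans (hβ (C.C ε))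
  have h5 : (nsq (C.C ε)) ^ 2 ≤ β ^ 2 * nsq ε * nsq (C.C ε) := by
    refine h1.trans ?_
    have := mul_le_mul h3 h4 (hC _) ((hC ε).trans h3)
    calc C.Q ε * C.Q (C.C ε) ≤ β * nsq ε * (β * nsq (C.C ε)) := this
      _ = _ := by ring
  rcases eq_or_lt_of_le hn with h0 | h0
  · rw [← h0]; positivity
  · rw [pow_two] at h5
    exact le_of_mul_le_mul_right h5 h0

/-- the integral of `ip S (ε + sg u)` for symmetric `S` -/
theorem int_lin (hE : BaseE d) (S ε : M d) (hS : symm S = S) (u : Disp d) :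
    Integrable (fun x => ip S (ε + sg u.u x)) ((volume : Measure (V d)).restrict (cell d)) ∧
      ∫ x in cell d, ip S (ε + sg u.u x) = ip S ε := by
  have hfin : IsFiniteMeasure ((volume : Measure (V d)).restrict (cell d)) := ⟨by simp [hE.vol]⟩
  have e : (fun x => ip S (ε + sg u.u x)) = fun x => ip S ε + ip S (grad u.u x) := by
    funext x
    rw [ip_add_right]
    congr 1
    unfold sg
    exact ip_eq_symm S _ hS
  have hc : Continuous fun x => ip S (grad u.u x) := by
    unfold ip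
    refine continuous_finsetSum _ fun i _ => continuous_finsetSum _ fun j _ => ?_
    exact continuous_const.mul ((continuous_apply j).comp ((continuous_apply i).comp (hE.grad_cont u)))
  have hi : Integrable (fun x => ip S (grad u.u x)) ((volume : Measure (V d)).restrict (cell d)) :=
    hc.continuousOn.integrableOn_compact isCompact_Icc
  rw [e]
  refine ⟨(integrable_const _).add hi, ?_⟩
  rw [integral_add (integrable_const _) hi, hE.mean, integral_const]
  simp [Measure.real, hE.vol]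

/-- the stiff part of the field -/
theorem stiff_field (hE : BaseE d) (hF : StmtRFld d) (hd : 2 ≤ d) (D : RD d) {C R : Tens d}
    {F : Fin d → Tens d} {T : V d → Tens d} (hG : D.IsG C R F T) (hR : R.PSD) (hFP : ∀ k, (F k).PSD) :
    ∃ (T' : V d → Tens d) (β'' : ℝ), D.IsG (zeroT d) R F T' ∧ IsFld T' 0 β'' ∧
      (∀ x ∈ stf D, T' x = T x) ∧ ∀ x ∉ stf D, T' x = zeroT d := by
  obtain ⟨m, idx, val, hm, hp, hG', hval⟩ := (hF hd D).1 (zeroT d) R F
  have hz : ∀ ξ, (zeroT d).Q ξ = 0 := fun ξ => by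
    show ip (0 : M d) ξ = 0
    exact ip_zero_left _
  choose β hβ0 hβ using fun i => (val i).exists_bound
  refine ⟨fun x => val (idx x), ∑ i, β i, hG', ?_, ?_, ?_⟩
  · refine hE.step_fld m idx val 0 (∑ i, β i) hm hp fun i ξ => ⟨?_, ?_⟩
    · rw [zero_mul]
      rcases hval i with h | h | ⟨k, h⟩
      · rw [h, hz]
      · rw [h]; exact hR ξ
      · rw [h]; exact hFP k ξ
    · refine ((le_abs_self _).trans (hβ i ξ)).trans ?_
      refine mul_le_mul_of_nonneg_right ?_ (nsq_nonneg _)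
      exact Finset.single_le_sum (f := β) (fun j _ => (hβ0 j).le) (Finset.mem_univ i)
  · rintro x (hx | ⟨k, hx⟩)
    · exact (hG'.body x hx).trans (hG.body x hx).symm
    · exact (hG'.gap k x hx).trans (hG.gap k x hx).symm
  · intro x hx
    exact hG'.rest x (fun h => hx (Or.inl h)) fun k h => hx (Or.inr ⟨k, h⟩)

end RLowP

open RLowP in
/-- R5f -/
theorem RLow_ok (d : ℕ) (hE : BaseE d) (hS : StmtRStiff d) (hF : StmtRFld d) : StmtRLow d := by
  intro hd A₀ C α hC hα
  obtain ⟨β, hβ0, hβ⟩ := C.exists_bound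
  refine ⟨2 / α * β ^ 2 * (d * 2 ^ d), by positivity, ?_⟩
  intro D hDA
  obtain ⟨K, hK, hstiff⟩ := hS hd D
  refine ⟨2 * K, by positivity, ?_⟩
  intro M β' hM R F T hG hT hR hFk ε
  obtain ⟨-, hms, hfr⟩ := hF hd D
  have hRP : R.PSD := fun ξ => (mul_nonneg hM.le (nsq_nonneg ξ)).trans (hR ξ)
  have hFP : ∀ k, (F k).PSD := fun k ξ => (mul_nonneg hM.le (sq_nonneg _)).trans (hFk k ξ)
  obtain ⟨T', β'', hG', hT', hin, hout⟩ := stiff_field hE hF hd D hG hRP hFP
  refine hE.le_eff T ε _ fun u => ?_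
  have hst := hstiff M β'' hM (zeroT d) R F T' hG' hT' hR hFk ε u
  set S : Pool.Agent.Lib.MP_5df1bf_an.M d := C.C ε with hSdef
  have hSs : symm S = S := C.symm_C ε
  set b : ℝ := 2 / α * nsq S with hb
  have hb0 : 0 ≤ b := by have := nsq_nonneg S; positivity
  have hCP := hC.psd
  have hpt : ∀ x, (1 / 2 * (T' x).Q (ε + sg u.u x) + 2 * ip S (ε + sg u.u x)) +
      (-C.Q ε + (-b) * (sml d D.N).indicator (fun _ => (1:ℝ)) x) ≤ (T x).Q (ε + sg u.u x) := by
    intro x
    set G : Pool.Agent.Lib.MP_5df1bf_an.M d := ε + sg u.u x with hGdef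
    by_cases hx : x ∈ stf D
    · rw [hin x hx, Set.indicator_of_mem (stf_sub D hx), mul_one]
      have h1 := hT.lo x G
      have h2 : 2 * ip S G ≤ α / 2 * nsq G + b := by
        have h3 := nsq_nonneg (α • G - (2:ℝ) • S)
        rw [nsq_sub, nsq_smul, nsq_smul, symm_smul, ip_smul_left, ip_smul_right] at h3
        have h4 : ip (symm G) S = ip S G := by
          rw [ip_symm_left, hSs, ip_comm]
        rw [h4] at h3
        have h5 : 0 ≤ (α ^ 2 * nsq G - 2 * (α * (2 * ip S G)) + 2 ^ 2 * nsq S) / (2 * α) := by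
          positivity
        have h6 : (α ^ 2 * nsq G - 2 * (α * (2 * ip S G)) + 2 ^ 2 * nsq S) / (2 * α) =
            α / 2 * nsq G - 2 * ip S G + b := by
          rw [hb]
          field_simp
        linarith
      have h3 := hCP ε
      linarith
    · rw [hout x hx, hG.rest x (fun h => hx (Or.inl h)) fun k h => hx (Or.inr ⟨k, h⟩)]
      have hz : (zeroT d).Q G = 0 := ip_zero_left _
      rw [hz]
      have h1 : 0 ≤ (sml d D.N).indicator (fun _ => (1:ℝ)) x :=
        Set.indicator_nonneg (fun _ _ => zero_le_one) x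
      have h2 := hCP (G - ε)
      rw [Tens.Q_sub] at h2
      have h3 : ip (C.C G) ε = ip S G := by
        rw [hSdef, C.ip_comm_C]
      rw [h3] at h2
      have h4 : 0 ≤ b * (sml d D.N).indicator (fun _ => (1:ℝ)) x := mul_nonneg hb0 h1
      linarith
  obtain ⟨hi1, hv1⟩ := int_affine hE (s := sml d D.N) hms (-C.Q ε) (-b)
  obtain ⟨hi2, hv2⟩ := int_lin hE S ε hSs u
  have hi3 : Integrable (fun x => (T' x).Q (ε + sg u.u x)) ((volume : Measure (V d)).restrict (cell d)) :=
    hE.int T' β'' hT' ε u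
  have hT0 : IsFld T 0 β' := ⟨hT.meas, hT.per, fun x A => by
    rw [zero_mul]
    exact (mul_nonneg hα.le (nsq_nonneg A)).trans (hT.lo x A), hT.hi⟩
  have hsum : ∫ x in cell d, ((1 / 2 * (T' x).Q (ε + sg u.u x) + 2 * ip S (ε + sg u.u x)) +
      (-C.Q ε + (-b) * (sml d D.N).indicator (fun _ => (1:ℝ)) x)) =
      (1 / 2 * energy T' ε u + 2 * ip S ε) + (-C.Q ε + (-b) * frac (sml d D.N)) := by
    have hi4a : Integrable (fun x => 1 / 2 * (T' x).Q (ε + sg u.u x))
        ((volume : Measure (V d)).restrict (cell d)) := hi3.const_mul (1 / 2)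
    have hi4b : Integrable (fun x => 2 * ip S (ε + sg u.u x))
        ((volume : Measure (V d)).restrict (cell d)) := hi2.const_mul 2
    have hi4 : Integrable (fun x => 1 / 2 * (T' x).Q (ε + sg u.u x) + 2 * ip S (ε + sg u.u x))
        ((volume : Measure (V d)).restrict (cell d)) := hi4a.add hi4b
    rw [integral_add hi4 hi1, hv1, integral_add hi4a hi4b, integral_const_mul, integral_const_mul,
      hv2]
    rfl
  have hmono : (1 / 2 * energy T' ε u + 2 * ip S ε) + (-C.Q ε + (-b) * frac (sml d D.N)) ≤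
      energy T ε u := by
    rw [← hsum]
    unfold energy
    exact integral_mono (((hi3.const_mul (1 / 2)).add (hi2.const_mul 2)).add hi1)
      (hE.int T β' hT0 ε u) hpt
  have hSε : ip S ε = C.Q ε := rfl
  have hnS := nsq_C_le C hCP hβ ε
  have hb1 : b ≤ 2 / α * (β ^ 2 * nsq ε) := mul_le_mul_of_nonneg_left hnS (by positivity)
  have hfr0 : 0 ≤ frac (sml d D.N) := ENNReal.toReal_nonneg
  have hq : b * frac (sml d D.N) ≤ 2 / α * (β ^ 2 * nsq ε) * (d * 2 ^ d / D.N) :=
    mul_le_mul hb1 hfr hfr0 (by have := nsq_nonneg ε; positivity)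
  have hq2 : 2 / α * (β ^ 2 * nsq ε) * (d * 2 ^ d / D.N) =
      2 / α * β ^ 2 * (d * 2 ^ d) / D.N * nsq ε := by ring
  have hk : M / (2 * K) * (ip D.A₀r (symm ε)) ^ 2 ≤ 1 / 2 * energy T' ε u := by
    rw [div_mul_eq_mul_div, div_le_iff₀ (by positivity)]
    linarith
  rw [hSε] at hmono
  linarith

end Pool.Agent.Lib.MP_5df1bf_an
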