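import Pool.Agent.Lib.MP_5df1bf_an.DefsH

/-!
# MP_5df1bf_an: statement-level definitions

`V d` vectors, `M d` real `d × d` matrices, `ip A B = tr (Aᵀ B)`, `trc` trace, `dot` scalar product,
`mulV A x = A x`, `cell d = [0,1]^d`, `Micro χ`: `χ` is a `ℤ^d`-periodic measurable set, `frac χ` its
volume in the cell, `H1 d` the periodic `H¹_loc` displacements `u` with weak gradient `u.G`.
-/

open MeasureTheory Filter Topology
open scoped BigOperators ContDiff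

noncomputable section

namespace Pool.Agent.Lib.MP_5df1bf_an.St

variable {d : ℕ}

/-- elasticity tensors: coefficients `C_ijkl` with `C_ijkl = C_jikl = C_klij` -/
structure Ten (d : ℕ) where
  c : Fin d → Fin d → Fin d → Fin d → ℝ
  minor : ∀ i j k l, c i j k l = c j i k l
  major : ∀ i j k l, c i j k l = c k l i j

/-- `(C A)_ij = ∑ C_ijkl A_kl` -/
def ap (C : Ten d) (A : M d) : M d := fun i j => ∑ k, ∑ l, C.c i j k l * A k l

/-- `A : C A` -/
def qf (C : Ten d) (A : M d) : ℝ := ip (ap C A) A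

/-- symmetric matrices -/
def Sym (A : M d) : Prop := ∀ i j, A i j = A j i

/-- identity matrix -/
def kd (i j : Fin d) : ℝ := if i = j then 1 else 0

/-- `C₁ A = κ (tr A) I + 2 μ (A - (tr A / d) I)`, `A` symmetric -/
def isoA (κ μ : ℝ) (A : M d) : M d := fun i j =>
  κ * trc A * kd i j + 2 * μ * (A i j - trc A / d * kd i j)

/-- `C₁⁻¹ q = (tr q / (d² κ)) I + (q - (tr q / d) I) / (2 μ)`, `q` symmetric -/
def isoInv (κ μ : ℝ) (q : M d) : M d := fun i j =>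
  trc q / (d ^ 2 * κ) * kd i j + (q i j - trc q / d * kd i j) / (2 * μ)

/-- the strain `ε + (∇u + ∇uᵀ) / 2` -/
def strain (ε : M d) (u : H1 d) (x : V d) : M d := fun i j => ε i j + (u.G x i j + u.G x j i) / 2

open Classical in
/-- energy in the unit cell of the composite with `C₁` in `χ` and `a C₁` outside, at mean strain `ε` -/
def en (κ μ a : ℝ) (χ : Set (V d)) (ε : M d) (u : H1 d) : ℝ :=
  ∫ x in cell d, (if x ∈ χ then 1 else a) * ip (isoA κ μ (strain ε u x)) (strain ε u x)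

/-- `C` is the effective tensor of the composite with `C₁` in `χ` and `a C₁` outside: `ε : C ε` is the
minimum of the energy over all periodic `H¹_loc` displacements -/
def IsEff (κ μ a : ℝ) (χ : Set (V d)) (C : Ten d) : Prop :=
  ∀ ε : M d, Sym ε → IsLeast (Set.range (en κ μ a χ ε)) (qf C ε)

/-- `S = C⁻¹` as maps on symmetric matrices -/
def IsInv (S C : Ten d) : Prop :=
  ∀ A : M d, Sym A → ∀ i j, ap S (ap C A) i j = A i j ∧ ap C (ap S A) i j = A i j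

/-- convergence of tensors -/
def Lim (T : ℕ → Ten d) (C : Ten d) : Prop :=
  ∀ i j k l, Tendsto (fun n => (T n).c i j k l) atTop (𝓝 (C.c i j k l))

/-- `G^void_f`: limits of the effective tensors of composites of `C₁` (volume fraction `f`) and
`δ_n C₁`, `δ_n → 0+` -/
def GVoid (κ μ f : ℝ) (C : Ten d) : Prop :=
  ∃ (δ : ℕ → ℝ) (χ : ℕ → Set (V d)) (T : ℕ → Ten d), (∀ n, 0 < δ n) ∧ Tendsto δ atTop (𝓝 0) ∧
    (∀ n, Micro (χ n) ∧ frac (χ n) = f ∧ IsEff κ μ (δ n) (χ n) (T n)) ∧ Lim T C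

/-- `G^rig_f`: limits of the compliance tensors of composites of `C₁` (volume fraction `f`) and
`δ_n⁻¹ C₁`, `δ_n → 0+` -/
def GRigid (κ μ f : ℝ) (S : Ten d) : Prop :=
  ∃ (δ : ℕ → ℝ) (χ : ℕ → Set (V d)) (T R : ℕ → Ten d), (∀ n, 0 < δ n) ∧ Tendsto δ atTop (𝓝 0) ∧
    (∀ n, Micro (χ n) ∧ frac (χ n) = f ∧ IsEff κ μ (δ n)⁻¹ (χ n) (T n) ∧ IsInv (R n) (T n)) ∧
    Lim R S

/-- `Γ(n) q = (1/μ) ((q n) ⊙ n - (n·q n) n ⊗ n) + (n·q n) n ⊗ n / (κ + 2 μ (1 - 1/d))` -/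
def gam (κ μ : ℝ) (n : V d) (q : M d) : M d := fun i j =>
  ((mulV q n i * n j + n i * mulV q n j) / 2 - dot n (mulV q n) * (n i * n j)) / μ +
    dot n (mulV q n) / (κ + 2 * μ * (1 - 1 / d)) * (n i * n j)

/-- `Γ_m q = ∑ m_a Γ(n_a) q` -/
def gm (κ μ : ℝ) {r : ℕ} (n : Fin r → V d) (m : Fin r → ℝ) (q : M d) : M d := fun i j =>
  ∑ a, m a * gam κ μ (n a) q i j

/-- `m` is a probability measure on the unit vectors `n_1, …, n_r` -/
def Wts {r : ℕ} (n : Fin r → V d) (m : Fin r → ℝ) : Prop :=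
  (∀ a, dot (n a) (n a) = 1) ∧ (∀ a, 0 ≤ m a) ∧ ∑ a, m a = 1

/-- `W = C₁ - (1-f) (C₁⁻¹ - f Γ_m)⁻¹`, written `(C₁⁻¹ - f Γ_m) (C₁ - W) = (1-f) I` -/
def IsW (κ μ f : ℝ) {r : ℕ} (n : Fin r → V d) (m : Fin r → ℝ) (W : Ten d) : Prop :=
  ∀ A q : M d, Sym A → (∀ i j, q i j = isoA κ μ A i j - ap W A i j) →
    ∀ i j, isoInv κ μ q i j - f * gm κ μ n m q i j = (1 - f) * A i j

/-- `P = f ((1-f) I + f Γ_m C₁)⁻¹ Γ_m`, written `((1-f) I + f Γ_m C₁) P = f Γ_m` -/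
def IsP (κ μ f : ℝ) {r : ℕ} (n : Fin r → V d) (m : Fin r → ℝ) (P : Ten d) : Prop :=
  ∀ A : M d, Sym A → ∀ i j,
    (1 - f) * ap P A i j + f * gm κ μ n m (isoA κ μ (ap P A)) i j = f * gm κ μ n m A i j

/-- `0 ≤ C` -/
def Pos (C : Ten d) : Prop := ∀ A : M d, Sym A → 0 ≤ qf C A

/-- `C ≤ W` -/
def Le (C W : Ten d) : Prop := ∀ A : M d, Sym A → qf C A ≤ qf W A

end Pool.Agent.Lib.MP_5df1bf_an.St
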