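import Pool.Agent.Lib.MP_5df1bf_an.DefsQ
import Pool.Agent.Lib.MP_5df1bf_an.StDefs

/-!
# MP_5df1bf_an: comparison of the statement-level definitions with the working definitions
-/

open MeasureTheory Filter Topology
open scoped BigOperators ContDiff

noncomputable section

namespace Pool.Agent.Lib.MP_5df1bf_an.St

variable {d : ℕ}

theorem Ten.ext' {C D : Ten d} (h : ∀ i j k l, C.c i j k l = D.c i j k l) : C = D := by
  cases C with | mk c h1 h2 =>
  cases D with | mk c' h3 h4 =>
  have : c = c' := by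
    funext i j k l; exact h i j k l
  subst this; rfl

theorem sym_iff (A : M d) : Sym A ↔ symm A = A := by
  constructor
  · intro h; ext i j; simp only [symm]; rw [h j i]; ring
  · intro h i j; rw [← h]; exact symm_swap A i j

theorem sym_symm (A : M d) : Sym (symm A) := fun i j => symm_swap A i j

/-- the working tensor -/
def toT (C : Ten d) : Tens d where
  C :=
    { toFun := ap C
      map_add' := by
        intro A B
        ext i j
        simp only [ap, Pi.add_apply, mul_add, Finset.sum_add_distrib]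
      map_smul' := by
        intro a A
        ext i j
        simp only [ap, Pi.smul_apply, smul_eq_mul, RingHom.id_apply, Finset.mul_sum]
        exact Finset.sum_congr rfl fun k _ => Finset.sum_congr rfl fun l _ => by ring }
  sa := by
    intro A B
    show ip (ap C A) B = ip A (ap C B)
    simp only [ip, ap, Finset.sum_mul, Finset.mul_sum]
    calc ∑ i, ∑ j, ∑ k, ∑ l, C.c i j k l * A k l * B i j
        = ∑ i, ∑ k, ∑ j, ∑ l, C.c i j k l * A k l * B i j :=
          Finset.sum_congr rfl fun i _ => Finset.sum_comm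
      _ = ∑ k, ∑ i, ∑ j, ∑ l, C.c i j k l * A k l * B i j := Finset.sum_comm
      _ = ∑ k, ∑ i, ∑ l, ∑ j, C.c i j k l * A k l * B i j :=
          Finset.sum_congr rfl fun k _ => Finset.sum_congr rfl fun i _ => Finset.sum_comm
      _ = ∑ k, ∑ l, ∑ i, ∑ j, C.c i j k l * A k l * B i j :=
          Finset.sum_congr rfl fun k _ => Finset.sum_comm
      _ = _ := by
          refine Finset.sum_congr rfl fun k _ => Finset.sum_congr rfl fun l _ =>
            Finset.sum_congr rfl fun i _ => Finset.sum_congr rfl fun j _ => ?_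
          rw [C.major i j k l]; ring
  tr := by
    intro A
    show ap C (tp A) = ap C A
    ext i j
    simp only [ap, tp]
    rw [Finset.sum_comm]
    refine Finset.sum_congr rfl fun k _ => Finset.sum_congr rfl fun l _ => ?_
    rw [C.major i j l k, C.minor l k i j, C.major k l i j]

@[simp] theorem toT_C (C : Ten d) (A : M d) : (toT C).C A = ap C A := rfl

@[simp] theorem toT_Q (C : Ten d) (A : M d) : (toT C).Q A = qf C A := rfl

/-- the coefficients of a working tensor -/
def ofT (T : Tens d) : Ten d where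
  c i j k l := T.C (eb k l) i j
  minor := by intro i j k l; exact T.C_swap _ i j
  major := by
    intro i j k l
    have h : ∀ (X : M d) (i j : Fin d), ip X (eb i j) = X i j := by
      intro X i j
      unfold ip
      simp only [eb_apply]
      rw [Finset.sum_eq_single i, Finset.sum_eq_single j]
      · simp
      · intro b _ hb; simp [hb]
      · intro h; exact absurd (Finset.mem_univ _) h
      · intro b _ hb
        exact Finset.sum_eq_zero fun c _ => by simp [hb]
      · intro h; exact absurd (Finset.mem_univ _) h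
    rw [← h (T.C (eb k l)) i j, ← h (T.C (eb i j)) k l]
    exact T.ip_comm_C _ _

theorem ap_ofT (T : Tens d) (A : M d) : ap (ofT T) A = T.C A := by
  conv_rhs => rw [mat_expand A]
  simp only [map_sum, map_smul]
  ext i j
  simp only [ap, ofT, Finset.sum_apply, Pi.smul_apply, smul_eq_mul]
  exact Finset.sum_congr rfl fun k _ => Finset.sum_congr rfl fun l _ => by ring

theorem toT_ofT (T : Tens d) : toT (ofT T) = T :=
  Tens.ext (LinearMap.ext fun A => ap_ofT T A)

theorem ofT_toT (C : Ten d) : ofT (toT C) = C := by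
  apply Ten.ext'
  intro i j k l
  show ap C (eb k l) i j = C.c i j k l
  simp only [ap, eb_apply]
  rw [Finset.sum_eq_single k, Finset.sum_eq_single l]
  · simp
  · intro b _ hb; simp [hb]
  · intro h; exact absurd (Finset.mem_univ _) h
  · intro b _ hb
    exact Finset.sum_eq_zero fun c _ => by simp [hb]
  · intro h; exact absurd (Finset.mem_univ _) h

theorem qf_symm (C : Ten d) (A : M d) : qf C (symm A) = qf C A := (toT C).Q_symm A

theorem ap_symm (C : Ten d) (A : M d) : ap C (symm A) = ap C A := (toT C).C_symm A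

theorem symm_ap (C : Ten d) (A : M d) : symm (ap C A) = ap C A := (toT C).symm_C A

theorem isoA_eq (κ μ : ℝ) (A : M d) (hA : symm A = A) : isoA κ μ A = (iso κ μ).C A := by
  rw [iso_C, hA]
  ext i j
  simp only [isoA, kd, idM, Pi.add_apply, Pi.smul_apply, Pi.sub_apply, smul_eq_mul]

theorem isoInv_eq (κ μ : ℝ) (A : M d) (hA : symm A = A) :
    isoInv κ μ A = (compl κ μ).C A := by
  rw [compl_C, hA]
  ext i j
  simp only [isoInv, kd, idM, Pi.add_apply, Pi.smul_apply, Pi.sub_apply, smul_eq_mul]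
  rw [div_eq_mul_inv, div_eq_mul_inv]
  rcases eq_or_ne μ 0 with rfl | h
  · simp; ring_nf
  · field_simp; ring

theorem gam_eq (κ μ : ℝ) (n : V d) (A : M d) (hA : symm A = A) :
    gam κ μ n A = (gamma κ μ n).C A := by
  ext i j
  show _ = ((1 / μ) • (sd (mulV (symm A) n) n - nqn n A • oo n) +
        (nqn n A / (κ + 2 * μ * (1 - 1 / d))) • oo n) i j
  unfold nqn
  rw [hA]
  simp only [gam, sd, oo, Pi.add_apply, Pi.smul_apply, Pi.sub_apply, smul_eq_mul]
  ring

theorem gm_eq (κ μ : ℝ) {r : ℕ} (n : Fin r → V d) (m : Fin r → ℝ) (A : M d) (hA : symm A = A) :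
    gm κ μ n m A = (Gm κ μ n m).C A := by
  ext i j
  show _ = (∑ a, m a • (gamma κ μ (n a)).C) A i j
  simp only [gm, LinearMap.sum_apply, LinearMap.smul_apply, Finset.sum_apply, Pi.smul_apply,
    smul_eq_mul, gam_eq κ μ _ A hA]

open Classical in
theorem en_eq (κ μ a : ℝ) (χ : Set (V d)) (D : V d → Tens d)
    (hD : ∀ x, D x = if x ∈ χ then iso κ μ else (iso κ μ).scale a) (ε : M d) (u : H1 d) :
    ∫ x in cell d, (D x).Q (ε + symm (u.G x)) = en κ μ a χ (symm ε) u := by
  unfold en
  congr 1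
  ext x
  have e1 : strain (symm ε) u x = symm (ε + symm (u.G x)) := by
    rw [symm_add, symm_symm]
    ext i j; rfl
  rw [e1, isoA_eq κ μ _ (symm_symm _), hD]
  rw [← Tens.Q_symm]
  by_cases hx : x ∈ χ
  · rw [if_pos hx, if_pos hx, one_mul]; rfl
  · rw [if_neg hx, if_neg hx, Tens.scale_Q]; rfl

open Classical in
theorem isEff_iff (κ μ a : ℝ) (χ : Set (V d)) (D : V d → Tens d)
    (hD : ∀ x, D x = if x ∈ χ then iso κ μ else (iso κ μ).scale a) (C : Ten d) :
    IsEff κ μ a χ C ↔ IsEffective D (toT C) := by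
  have key : ∀ ε : M d, (Set.range fun u : H1 d => ∫ x in cell d, (D x).Q (ε + symm (u.G x))) =
      Set.range (en κ μ a χ (symm ε)) := by
    intro ε
    congr 1
    ext u
    exact en_eq κ μ a χ D hD ε u
  constructor
  · intro h ε
    rw [key ε, toT_Q, ← qf_symm]
    exact h _ (sym_symm ε)
  · intro h ε hε
    have h2 := h ε
    rw [key ε, (sym_iff ε).1 hε] at h2
    exact h2

theorem isInv_iff (S C : Ten d) : IsInv S C ↔ IsCompliance (toT S) (toT C) := by
  constructor
  · intro h ξ
    have h2 := h (symm ξ) (sym_symm ξ)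
    simp only [toT_C]
    rw [← ap_symm C ξ, ← ap_symm S ξ]
    exact ⟨by ext i j; exact (h2 i j).1, by ext i j; exact (h2 i j).2⟩
  · intro h A hA i j
    have h2 := h A
    simp only [toT_C] at h2
    rw [h2.1, h2.2, (sym_iff A).1 hA]
    exact ⟨rfl, rfl⟩

theorem lim_iff (T : ℕ → Ten d) (C : Ten d) :
    Lim T C ↔ ∀ ξ, Tendsto (fun n => (toT (T n)).C ξ) atTop (𝓝 ((toT C).C ξ)) := by
  constructor
  · intro h ξ
    rw [tendsto_pi_nhds]
    intro i
    rw [tendsto_pi_nhds]
    intro j
    show Tendsto (fun n => ∑ k, ∑ l, (T n).c i j k l * ξ k l) atTop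
      (𝓝 (∑ k, ∑ l, C.c i j k l * ξ k l))
    exact tendsto_finsetSum _ fun k _ => tendsto_finsetSum _ fun l _ => (h i j k l).mul_const _
  · intro h i j k l
    have h2 := h (eb k l)
    rw [tendsto_pi_nhds] at h2
    have h3 := h2 i
    rw [tendsto_pi_nhds] at h3
    have h4 := h3 j
    have e : ∀ D : Ten d, (toT D).C (eb k l) i j = D.c i j k l := by
      intro D
      conv_rhs => rw [← ofT_toT D]
      rfl
    simpa only [e] using h4

theorem gVoid_iff (κ μ f : ℝ) (C : Ten d) :
    GVoid κ μ f C ↔ toT C ∈ MP_5df1bf_an.GVoid κ μ f := by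
  constructor
  · rintro ⟨δ, χ, T, h1, h2, h3, h4⟩
    exact ⟨δ, χ, fun n => toT (T n), h1, h2, fun n => ⟨(h3 n).1, (h3 n).2.1⟩,
      fun n => (isEff_iff κ μ _ _ _ (fun x => rfl) _).1 (h3 n).2.2, (lim_iff T C).1 h4⟩
  · rintro ⟨δ, χ, Cs, h1, h2, h3, h4, h5⟩
    refine ⟨δ, χ, fun n => ofT (Cs n), h1, h2, fun n => ⟨(h3 n).1, (h3 n).2, ?_⟩, ?_⟩
    · refine (isEff_iff κ μ _ _ (phase (iso κ μ) (δ n) (χ n)) (fun x => rfl) _).2 ?_
      rw [toT_ofT]; exact h4 n
    · rw [lim_iff]
      simp only [toT_ofT]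
      exact h5

theorem gRigid_iff (κ μ f : ℝ) (S : Ten d) :
    GRigid κ μ f S ↔ toT S ∈ MP_5df1bf_an.GRigid κ μ f := by
  constructor
  · rintro ⟨δ, χ, T, R, h1, h2, h3, h4⟩
    exact ⟨δ, χ, fun n => toT (T n), fun n => toT (R n), h1, h2,
      fun n => ⟨(h3 n).1, (h3 n).2.1⟩,
      fun n => (isEff_iff κ μ _ _ _ (fun x => rfl) _).1 (h3 n).2.2.1,
      fun n => (isInv_iff _ _).1 (h3 n).2.2.2, (lim_iff R S).1 h4⟩
  · rintro ⟨δ, χ, Cs, Ss, h1, h2, h3, h4, h5, h6⟩
    refine ⟨δ, χ, fun n => ofT (Cs n), fun n => ofT (Ss n), h1, h2,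
      fun n => ⟨(h3 n).1, (h3 n).2, ?_, ?_⟩, ?_⟩
    · refine (isEff_iff κ μ _ _ (phaseR (iso κ μ) (δ n) (χ n)) (fun x => rfl) _).2 ?_
      rw [toT_ofT]; exact h4 n
    · rw [isInv_iff, toT_ofT, toT_ofT]; exact h5 n
    · rw [lim_iff]
      simp only [toT_ofT]
      exact h6

theorem pos_iff (C : Ten d) : Pos C ↔ ∀ ε : M d, 0 ≤ (toT C).Q ε := by
  constructor
  · intro h ε
    rw [toT_Q, ← qf_symm]
    exact h _ (sym_symm ε)
  · intro h A _
    exact h A

theorem le_iff (C W : Ten d) : Le C W ↔ ∀ ε : M d, (toT C).Q ε ≤ (toT W).Q ε := by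
  constructor
  · intro h ε
    rw [toT_Q, toT_Q, ← qf_symm, ← qf_symm W]
    exact h _ (sym_symm ε)
  · intro h A _
    exact h A

theorem isW_iff (κ μ f : ℝ) {r : ℕ} (n : Fin r → V d) (m : Fin r → ℝ) (W : Ten d) :
    IsW κ μ f n m W ↔ ∀ ε : M d,
      (Sm κ μ f n m).C ((iso κ μ).C ε - (toT W).C ε) = (1 - f) • symm ε := by
  have hS : ∀ q : M d, symm q = q → ∀ i j,
      (Sm κ μ f n m).C q i j = isoInv κ μ q i j - f * gm κ μ n m q i j := by
    intro q hq i j
    rw [isoInv_eq κ μ q hq, gm_eq κ μ n m q hq]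
    rfl
  constructor
  · intro h ε
    have h2 := h (symm ε) ((iso κ μ).C ε - (toT W).C ε) (sym_symm ε) (by
      intro i j
      rw [isoA_eq κ μ _ (symm_symm ε), Tens.C_symm, ap_symm]
      rfl)
    ext i j
    rw [hS _ (by rw [symm_sub, Tens.symm_C, Tens.symm_C])]
    exact h2 i j
  · intro h A q hA hq i j
    have hA' := (sym_iff A).1 hA
    have e : q = (iso κ μ).C A - (toT W).C A := by
      ext a b
      rw [hq a b, isoA_eq κ μ A hA']
      rfl
    have h2 := h A
    rw [← e, hA'] at h2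
    have hq2 : symm q = q := by
      rw [e, symm_sub, Tens.symm_C, Tens.symm_C]
    rw [← hS q hq2, h2]
    rfl

theorem isP_iff (κ μ f : ℝ) {r : ℕ} (n : Fin r → V d) (m : Fin r → ℝ) (P : Ten d) :
    IsP κ μ f n m P ↔ ∀ σ : M d,
      (1 - f) • (toT P).C σ + f • (Gm κ μ n m).C ((iso κ μ).C ((toT P).C σ)) =
            f • (Gm κ μ n m).C σ := by
  have e1 : ∀ A : M d, gm κ μ n m (isoA κ μ (ap P A)) =
      (Gm κ μ n m).C ((iso κ μ).C ((toT P).C A)) := by
    intro A
    rw [isoA_eq κ μ _ (symm_ap P A), gm_eq κ μ n m _ (Tens.symm_C _ _)]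
    rfl
  constructor
  · intro h σ
    have h2 := h (symm σ) (sym_symm σ)
    ext i j
    have h3 := h2 i j
    rw [e1, gm_eq κ μ n m _ (symm_symm σ), Tens.C_symm, Tens.C_symm, ap_symm] at h3
    exact h3
  · intro h A hA i j
    have hA' := (sym_iff A).1 hA
    have h2 := congrFun (congrFun (h A) i) j
    rw [e1, gm_eq κ μ n m _ hA']
    exact h2

end Pool.Agent.Lib.MP_5df1bf_an.St
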