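import Pool.Agent.Lib.MP_5df1bf_an.BaseA
import Pool.Agent.Lib.MP_5df1bf_an.DefsH

/-!
# MP_5df1bf_an: statements of the framework modules (Part I)
Each `StmtX` is proved in its own file; other statements may be used as hypotheses.
Proofs: team-store `MP_5df1bf_blueprint.md`.
-/

open MeasureTheory Filter Topology
open scoped BigOperators ContDiff

noncomputable section

namespace Pool.Agent.Lib.MP_5df1bf_an

variable {d : ℕ}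

/-- the zero tensor -/
def zeroT (d : ℕ) : Tens d where
  C := 0
  sa := by intro A B; simp [ip]
  tr := by intro A; simp

/-- real matrix-vector product with an integer matrix -/
def imul (B : Matrix (Fin d) (Fin d) ℤ) (x : V d) : V d := fun i => ∑ j, (B i j : ℝ) * x j

/-- A0: basic facts on displacements, fields and energies (a structure: take `(hE : BaseE d)` as a
hypothesis and use the fields) -/
structure BaseE (d : ℕ) : Prop where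
  vol : volume (cell d) = 1
  grad_cont : ∀ u : Disp d, Continuous (grad u.u)
  grad_per : ∀ u : Disp d, Per (grad u.u)
  grad_bdd : ∀ u : Disp d, ∃ K, ∀ x, ip (grad u.u x) (grad u.u x) ≤ K
  add : ∀ u v : Disp d, ∃ w : Disp d, (∀ x, w.u x = u.u x + v.u x) ∧
    ∀ x, grad w.u x = grad u.u x + grad v.u x
  smul : ∀ (c : ℝ) (u : Disp d), ∃ w : Disp d, (∀ x, w.u x = c • u.u x) ∧
    ∀ x, grad w.u x = c • grad u.u x
  zero : ∃ w : Disp d, (∀ x, w.u x = 0) ∧ ∀ x, grad w.u x = 0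
  /-- the mean value of a gradient vanishes -/
  mean : ∀ (ε : M d) (u : Disp d), ∫ x in cell d, ip ε (grad u.u x) = 0
  meas : ∀ D : V d → Tens d, (∀ A B, Measurable fun x => ip ((D x).C A) B) →
    ∀ G H : V d → M d, Measurable G → Measurable H → Measurable fun x => ip ((D x).C (G x)) (H x)
  /-- integrability for bounded fields and square integrable matrix fields -/
  int2 : ∀ (D : V d → Tens d) (β : ℝ), IsFld D 0 β → ∀ G H : V d → M d, Measurable G → Measurable H →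
    IntegrableOn (fun x => nsq (G x)) (cell d) → IntegrableOn (fun x => nsq (H x)) (cell d) →
    IntegrableOn (fun x => ip ((D x).C (G x)) (H x)) (cell d)
  int : ∀ (D : V d → Tens d) (β : ℝ), IsFld D 0 β → ∀ (ε : M d) (u : Disp d),
    IntegrableOn (fun x => (D x).Q (ε + sg u.u x)) (cell d)
  nonneg : ∀ (D : V d → Tens d) (β : ℝ), IsFld D 0 β → ∀ (ε : M d) (u : Disp d), 0 ≤ energy D ε u
  eff_le : ∀ (D : V d → Tens d) (β : ℝ), IsFld D 0 β → ∀ (ε : M d) (u : Disp d),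
    eff D ε ≤ energy D ε u
  eff_approx : ∀ (D : V d → Tens d) (ε : M d), ∀ η > 0, ∃ u : Disp d, energy D ε u < eff D ε + η
  le_eff : ∀ (D : V d → Tens d) (ε : M d) (c : ℝ), (∀ u : Disp d, c ≤ energy D ε u) → c ≤ eff D ε
  /-- Jensen -/
  jensen : ∀ T : Tens d, T.PSD → ∀ (ε : M d) (u : Disp d),
    T.Q ε ≤ ∫ x in cell d, T.Q (ε + sg u.u x)
  eff_bd : ∀ (D : V d → Tens d) (α β : ℝ), 0 ≤ α → IsFld D α β → ∀ ε,
    α * nsq ε ≤ eff D ε ∧ eff D ε ≤ β * nsq ε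
  eff_symm : ∀ (D : V d → Tens d) (ε : M d), eff D (symm ε) = eff D ε
  eff_smul : ∀ (D : V d → Tens d) (β : ℝ), IsFld D 0 β → ∀ (c : ℝ) (ε : M d),
    eff D (c • ε) = c ^ 2 * eff D ε
  eff_const : ∀ T : Tens d, T.PSD → ∀ ε, eff (fun _ => T) ε = T.Q ε
  eff_scale : ∀ (D : V d → Tens d) (β : ℝ), IsFld D 0 β → ∀ c : ℝ, 0 ≤ c → ∀ ε,
    eff (fun x => (D x).scale c) ε = c * eff D ε
  phase_fld : ∀ (A : Tens d) (α β : ℝ), 0 < α → (∀ ξ, α * nsq ξ ≤ A.Q ξ ∧ A.Q ξ ≤ β * nsq ξ) →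
    ∀ χ : Set (V d), Micro χ → ∀ δ : ℝ, 0 < δ → δ ≤ 1 → IsFld (phase A δ χ) (δ * α) β
  step_fld : ∀ (m : ℕ) (idx : V d → Fin m) (T : Fin m → Tens d) (α β : ℝ), Measurable idx →
    Per idx → (∀ i ξ, α * nsq ξ ≤ (T i).Q ξ ∧ (T i).Q ξ ≤ β * nsq ξ) →
    IsFld (fun x => T (idx x)) α β
  osc_fld : ∀ (m : ℕ) (idx : V d → Fin m) (D : Fin m → V d → Tens d) (α β : ℝ), Measurable idx →
    Per idx → (∀ i, IsFld (D i) α β) → ∀ n : ℕ, IsFld (fun x => D (idx x) ((n : ℝ) • x)) α β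

/-! ### integrals of periodic functions -/

/-- A1: translation invariance -/
def StmtShift (d : ℕ) : Prop := ∀ f : V d → ℝ, Per f → ∀ y : V d,
  ∫ x in cell d, f (x + y) = ∫ x in cell d, f x

/-- A2: invariance under integer matrices with non-zero determinant -/
def StmtMat (d : ℕ) : Prop := ∀ B : Matrix (Fin d) (Fin d) ℤ, B.det ≠ 0 →
  ∀ f : V d → ℝ, Measurable f → Per f → IntegrableOn f (cell d) →
    IntegrableOn (fun x => f (imul B x)) (cell d) ∧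
    ∫ x in cell d, f (imul B x) = ∫ x in cell d, f x

/-- A2': special case, dilations -/
def StmtDil (d : ℕ) : Prop := ∀ n : ℕ, 0 < n →
  ∀ f : V d → ℝ, Measurable f → Per f → IntegrableOn f (cell d) →
    IntegrableOn (fun x => f ((n : ℝ) • x)) (cell d) ∧
    ∫ x in cell d, f ((n : ℝ) • x) = ∫ x in cell d, f x

/-- A3: the integral of a derivative of a periodic function is zero -/
def StmtParts (d : ℕ) : Prop := ∀ f : V d → ℝ, ContDiff ℝ 1 f → Per f → ∀ i : Fin d,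
  ∫ x in cell d, fderiv ℝ f x (Pi.single i 1) = 0

/-- A4: Korn's inequality on the torus -/
def StmtKorn (d : ℕ) : Prop := ∀ u : Disp d,
  ∫ x in cell d, ip (grad u.u x) (grad u.u x) ≤ 2 * ∫ x in cell d, nsq (grad u.u x)

/-- square integrable periodic matrix fields -/
def SqM (G : V d → M d) : Prop := ∀ i j, SqP fun x => G x i j

/-- A5: averaging lemma -/
def StmtAvg (d : ℕ) : Prop := ∀ (f g : V d → ℝ), Measurable f → Per f → (∃ K, ∀ x, |f x| ≤ K) →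
  Measurable g → Per g → IntegrableOn g (cell d) →
  Tendsto (fun n : ℕ => ∫ x in cell d, f x * g ((n : ℝ) • x)) atTop
    (𝓝 ((∫ x in cell d, f x) * ∫ x in cell d, g x))

/-! ### Fourier truncation -/

/-- `exp (2 π i k·x)` -/
def ek (k : Fin d → ℤ) (x : V d) : ℂ := Complex.exp (2 * Real.pi * Complex.I * (dot (zv k) x : ℝ))
/-- Fourier coefficients -/
def fc (f : V d → ℝ) (k : Fin d → ℤ) : ℂ := ∫ x in cell d, (f x : ℂ) * ek (-k) x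
/-- the box `|k_i| ≤ N` -/
def bx (d N : ℕ) : Finset (Fin d → ℤ) := Fintype.piFinset fun _ => Finset.Icc (-(N : ℤ)) N
/-- truncated Fourier series (real part) -/
def trunc (N : ℕ) (f : V d → ℝ) (x : V d) : ℝ := (∑ k ∈ bx d N, fc f k * ek k x).re

/-- A6: properties of the truncation -/
def StmtTrunc (d : ℕ) : Prop :=
  (∀ N (f : V d → ℝ), SqP f → ContDiff ℝ ∞ (trunc N f) ∧ Per (trunc N f)) ∧
  (∀ N (f g : V d → ℝ), SqP f → SqP g → ∀ x, trunc N (fun y => f y + g y) x = trunc N f x + trunc N g x) ∧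
  (∀ N (f : V d → ℝ) (c : ℝ), SqP f → ∀ x, trunc N (fun y => c * f y) x = c * trunc N f x) ∧
  (∀ N (c : ℝ) (x : V d), trunc N (fun _ => c) x = c) ∧
  (∀ f : V d → ℝ, SqP f →
    Tendsto (fun N => ∫ x in cell d, (f x - trunc N f x) ^ 2) atTop (𝓝 0))

/-- A6': Parseval -/
def StmtParseval (d : ℕ) : Prop := ∀ f : V d → ℝ, SqP f →
  HasSum (fun k : Fin d → ℤ => ‖fc f k‖ ^ 2) (∫ x in cell d, f x ^ 2)

/-- A6'': truncations of divergence free fields have a skew potential -/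
def StmtPot (d : ℕ) : Prop := ∀ (N : ℕ) (τ : V d → M d), SqM τ →
  (∀ u : Disp d, ∫ x in cell d, ip (τ x) (grad u.u x) = 0) →
  ∃ Ψ : Fin d → Fin d → Fin d → V d → ℝ,
    (∀ a b c, ContDiff ℝ ∞ (Ψ a b c) ∧ Per (Ψ a b c)) ∧ (∀ a b c x, Ψ a b c x = - Ψ a c b x) ∧
    ∀ a b x, trunc N (fun y => τ y a b) x =
      (∫ y in cell d, τ y a b) + ∑ c, fderiv ℝ (Ψ a b c) x (Pi.single c 1)

/-! ### effective tensors -/

/-- A7: optimal fields of a uniformly elliptic field -/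
def StmtOpt (d : ℕ) : Prop := ∀ (D : V d → Tens d) (α β : ℝ), 0 < α → IsFld D α β →
  ∃ (W : Tens d) (G : M d → V d → M d),
    (∀ ε, W.Q ε = eff D ε) ∧ (∀ ε, α * nsq ε ≤ W.Q ε ∧ W.Q ε ≤ β * nsq ε) ∧
    (∀ ε, SqM (G ε)) ∧
    (∀ ε ε' x, G (ε + ε') x = G ε x + G ε' x) ∧ (∀ (c : ℝ) ε x, G (c • ε) x = c • G ε x) ∧
    (∀ ε, ∀ η > 0, ∃ u : Disp d, ∫ x in cell d, nsq (G ε x - ε - sg u.u x) < η) ∧
    (∀ ε, ∀ u : Disp d, ∫ x in cell d, ip ((D x).C (G ε x)) (grad u.u x) = 0) ∧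
    (∀ ε, ∫ x in cell d, (D x).Q (G ε x) = W.Q ε) ∧
    (∀ ε i j, ∫ x in cell d, (D x).C (G ε x) i j = W.C ε i j)

/-- A7': existence of the effective tensor (degenerate fields allowed) -/
def StmtEff (d : ℕ) : Prop := ∀ (D : V d → Tens d) (β : ℝ), IsFld D 0 β →
  ∃ W : Tens d, (∀ ε, W.Q ε = eff D ε) ∧ (∀ ε, 0 ≤ W.Q ε ∧ W.Q ε ≤ β * nsq ε)

/-- A8: two-scale homogenization (piecewise periodic, uniformly elliptic) -/
def StmtTS (d : ℕ) : Prop := ∀ (m : ℕ) (idx : V d → Fin m), Measurable idx → Per idx →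
  ∀ (D : Fin m → V d → Tens d) (α β : ℝ), 0 < α → (∀ i, IsFld (D i) α β) →
  ∀ (W : Fin m → Tens d), (∀ i ε, (W i).Q ε = eff (D i) ε) →
  ∀ ε, Tendsto (fun n : ℕ => eff (fun x => D (idx x) ((n : ℝ) • x)) ε) atTop
    (𝓝 (eff (fun x => W (idx x)) ε))

/-- A8a: upper bound -/
def StmtTSup (d : ℕ) : Prop := ∀ (m : ℕ) (idx : V d → Fin m), Measurable idx → Per idx →
  ∀ (D : Fin m → V d → Tens d) (α β : ℝ), 0 < α → (∀ i, IsFld (D i) α β) →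
  ∀ (W : Fin m → Tens d), (∀ i ε, (W i).Q ε = eff (D i) ε) →
  ∀ ε, ∀ η > 0, ∃ n₀ : ℕ, ∀ n : ℕ, n₀ ≤ n →
    eff (fun x => D (idx x) ((n : ℝ) • x)) ε ≤ eff (fun x => W (idx x)) ε + η

/-- A8b: lower bound -/
def StmtTSlo (d : ℕ) : Prop := ∀ (m : ℕ) (idx : V d → Fin m), Measurable idx → Per idx →
  ∀ (D : Fin m → V d → Tens d) (α β : ℝ), 0 < α → (∀ i, IsFld (D i) α β) →
  ∀ (W : Fin m → Tens d), (∀ i ε, (W i).Q ε = eff (D i) ε) →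
  ∀ ε, ∀ η > 0, ∃ n₀ : ℕ, ∀ n : ℕ, n₀ ≤ n →
    eff (fun x => W (idx x)) ε - η ≤ eff (fun x => D (idx x) ((n : ℝ) • x)) ε

/-- A9: monotonicity of `eff` -/
def StmtMono (d : ℕ) : Prop := ∀ (D D' : V d → Tens d) (β β' : ℝ), IsFld D 0 β → IsFld D' 0 β' →
  (∀ x ξ, (D x).Q ξ ≤ (D' x).Q ξ) → ∀ ε, eff D ε ≤ eff D' ε

/-- A9': continuity from above of `eff` -/
def StmtCont (d : ℕ) : Prop := ∀ (D : V d → Tens d) (β : ℝ), IsFld D 0 β → ∀ η > 0, ∃ η₁ > 0,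
  ∀ (D' : V d → Tens d) (β' : ℝ), IsFld D' 0 β' → (∀ x ξ, (D' x).Q ξ ≤ (D x).Q ξ + η₁ * nsq ξ) →
    ∀ ε, eff D' ε ≤ eff D ε + η * nsq ε

/-- the layers `frac (k·x) < θ` -/
def lay (k : Fin d → ℤ) (θ : ℝ) : Set (V d) := {x | Int.fract (dot (zv k) x) < θ}

/-- A10: laminates -/
def StmtLam (d : ℕ) : Prop := ∀ (k : Fin d → ℤ), k ≠ 0 → ∀ θ : ℝ, 0 < θ → θ < 1 →
  ∀ (T₁ T₂ : Tens d) (D : V d → Tens d), T₁.PSD → T₂.PSD → (∀ x ∈ lay k θ, D x = T₁) →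
  (∀ x ∉ lay k θ, D x = T₂) →
  ∀ ε, eff D ε = ⨅ a : V d, (θ * T₁.Q (ε + (1 - θ) • sd a (zv k)) +
    (1 - θ) * T₂.Q (ε - θ • sd a (zv k)))

/-- volume fraction of the layers -/
def StmtLayVol (d : ℕ) : Prop := ∀ (k : Fin d → ℤ), k ≠ 0 → ∀ θ : ℝ, 0 ≤ θ → θ ≤ 1 →
  Micro (lay k θ) ∧ frac (lay k θ) = θ

/-! ### calculus of realizable tensors -/

/-- A11a -/
def StmtRzBase (d : ℕ) : Prop := ∀ A : Tens d, A.PD → Rz A A 1 ∧ Rz A (zeroT d) 0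

/-- A11b': reiteration for given microstructures (quantitative form of `StmtRzHom`) -/
def StmtHomN (d : ℕ) : Prop := ∀ A : Tens d, A.PD →
  ∀ (m : ℕ) (idx : V d → Fin m), Measurable idx → Per idx →
  ∀ (T : Fin m → Tens d) (f : Fin m → ℝ), (∀ i, (T i).PSD) →
  ∀ W : Tens d, (∀ ε, W.Q ε = eff (fun x => T (idx x)) ε) →
  ∀ η > 0, ∃ η' > 0, ∀ δ : ℝ, 0 < δ → δ < 1 → ∀ χ : Fin m → Set (V d), (∀ i, Micro (χ i)) →
    (∀ i, |frac (χ i) - f i| < η') →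
    (∀ i ε, (1 - η') * (T i).Q ε ≤ eff (phase A δ (χ i)) ε ∧
      eff (phase A δ (χ i)) ε ≤ (T i).Q ε + η' * nsq ε) →
    ∃ n₀ : ℕ, ∀ n : ℕ, n₀ ≤ n → Micro {x | (n : ℝ) • x ∈ χ (idx x)} ∧
      |frac {x | (n : ℝ) • x ∈ χ (idx x)} - ∑ i, frac {x | idx x = i} * f i| < η ∧
      ∀ ε, (1 - η) * W.Q ε ≤ eff (phase A δ {x | (n : ℝ) • x ∈ χ (idx x)}) ε ∧
        eff (phase A δ {x | (n : ℝ) • x ∈ χ (idx x)}) ε ≤ W.Q ε + η * nsq ε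

/-- A11b: reiteration -/
def StmtRzHom (d : ℕ) : Prop := ∀ A : Tens d, A.PD →
  ∀ (m : ℕ) (idx : V d → Fin m), Measurable idx → Per idx →
  ∀ (T : Fin m → Tens d) (f : Fin m → ℝ), (∀ i, (T i).PSD) → (∀ i, Rz A (T i) (f i)) →
  ∀ W : Tens d, (∀ ε, W.Q ε = eff (fun x => T (idx x)) ε) →
    Rz A W (∑ i, frac {x | idx x = i} * f i)

/-- A11c: closure at positive definite tensors -/
def StmtRzLim (d : ℕ) : Prop := ∀ A : Tens d, A.PD → ∀ (C : Tens d) (f : ℝ), C.PD →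
  (∀ η > 0, ∃ (C' : Tens d) (f' : ℝ), Rz A C' f' ∧ |f' - f| < η ∧ ∀ ξ, |C'.Q ξ - C.Q ξ| ≤ η * nsq ξ) →
  Rz A C f

/-- `F` behaves like a fibre in direction `z` -/
def FibLike (α β : ℝ) (z : V d) (F : Tens d) : Prop :=
  ∀ ξ, α * (ip (oo z) ξ / dot z z) ^ 2 ≤ F.Q ξ ∧ F.Q ξ ≤ β * (ip (oo z) ξ / dot z z) ^ 2

/-- `L` behaves like thin parallel sheets with normal `q` -/
def ShLike (α β : ℝ) (q : V d) (L : Tens d) : Prop :=
  (∀ ξ (e : V d), dot e q = 0 → α * (ip (oo e) ξ) ^ 2 ≤ (dot e e) ^ 2 * L.Q ξ) ∧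
  (∀ ξ (a : V d), 0 ≤ L.Q ξ ∧ L.Q ξ ≤ β * nsq (ξ - sd a q))

/-- A12: fibres and sheets are realizable -/
def StmtFib (d : ℕ) : Prop := ∀ A : Tens d, A.PD → ∃ α > 0, ∃ β > 0, ∃ f : ℝ, 0 ≤ f ∧ f ≤ 1 ∧
  (∀ z : Fin d → ℤ, z ≠ 0 → ∃ F : Tens d, Rz A F f ∧ F.PSD ∧ FibLike α β (zv z) F)

def StmtSheet (d : ℕ) : Prop := ∀ A : Tens d, A.PD → ∃ α > 0, ∃ β > 0, ∃ f : ℝ, 0 ≤ f ∧ f ≤ 1 ∧
  (∀ z : Fin d → ℤ, z ≠ 0 → ∃ F : Tens d, Rz A F f ∧ F.PSD ∧ ShLike α β (zv z) F)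

/-- A13: dual form `q : A⁻¹ q` -/
def Inv (A : Tens d) (q : M d) : ℝ := ⨆ ξ : M d, (2 * ip q (symm ξ) - A.Q ξ)
/-- `q : Γ(n) q` -/
def Gam (A : Tens d) (n : V d) (q : M d) : ℝ := ⨆ a : V d, (2 * ip q (sd a n) - A.Q (sd a n))
/-- the Hashin–Shtrikman function; `ϖ` = void fraction, `g q = q : Γ̃ q` -/
def HS (A : Tens d) (ϖ : ℝ) (g : M d → ℝ) (ε q : M d) : ℝ :=
  A.Q ε - 2 * ϖ * ip q (symm ε) + ϖ * (Inv A q - g q)

/-- A13a: `Inv A` is a positive definite quadratic form -/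
def StmtInvT (d : ℕ) : Prop := ∀ A : Tens d, A.PD → ∃ Ai : Tens d, Ai.PD ∧ (∀ q, Inv A q = Ai.Q q) ∧
  (∀ ξ q, 2 * ip q (symm ξ) - A.Q ξ ≤ Inv A q) ∧ (∀ ξ, Ai.C (A.C ξ) = symm ξ ∧ A.C (Ai.C ξ) = symm ξ)

/-- A13b: `Gam A n` is a quadratic form, homogeneous of degree `0` and continuous in `n` -/
def StmtGamT (d : ℕ) : Prop := ∀ A : Tens d, A.PD → ∃ Γ : V d → Tens d,
  (∀ n q, n ≠ 0 → Gam A n q = (Γ n).Q q) ∧
  (∀ n q, 0 ≤ Gam A n q ∧ Gam A n q ≤ Inv A q) ∧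
  (∀ n q a, 2 * ip q (sd a n) - A.Q (sd a n) ≤ Gam A n q) ∧
  (∀ n q, ∃ a, 2 * ip q (sd a n) - A.Q (sd a n) = Gam A n q) ∧
  (∀ n q (t : ℝ), t ≠ 0 → Gam A (t • n) q = Gam A n q) ∧
  (∀ q q', ContinuousOn (fun n => ip ((Γ n).C q) q') {n | n ≠ 0}) ∧
  (∀ n, n ≠ 0 → ∀ η > 0, ∃ ρ > 0, ∀ n', n' ≠ 0 → (∀ i, |n' i - n i| < ρ) →
    ∀ q, |Gam A n' q - Gam A n q| ≤ η * Inv A q)

/-- A13: Hashin–Shtrikman bound; the weights are `w k = |χ̂(k)|²` (`k ≠ 0`) -/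
def StmtHS (d : ℕ) : Prop := ∀ A : Tens d, A.PD → ∀ χ : Set (V d), Micro χ →
  ∃ w : (Fin d → ℤ) → ℝ, (∀ k, 0 ≤ w k) ∧ w 0 = 0 ∧ HasSum w (frac χ * (1 - frac χ)) ∧
  ∀ (q : M d) (δ : ℝ), 0 < δ → δ ≤ 1 → ∀ ε : M d,
    eff (phase A δ χ) ε ≤ A.Q ε - 2 * (1 - frac χ) * ip q (symm ε) + (1 - frac χ) * Inv A q
        - ∑' k, w k * Gam A (zv k) q + δ * (1 + nsq q + Inv A q) * (1 + nsq ε)

/-- A14: sequential laminates with integer directions -/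
def StmtSeq (d : ℕ) : Prop := ∀ A : Tens d, A.PD → ∀ (r : ℕ) (n : Fin r → (Fin d → ℤ)) (c : Fin r → ℝ),
  (∀ i, n i ≠ 0) → (∀ i, 0 < c i) → ∀ f : ℝ, 0 < f → f < 1 → (∑ i, c i = f) →
  ∃ W : Tens d, Rz A W f ∧ W.PSD ∧
    ∀ ε, W.Q ε = ⨅ q : M d, HS A (1 - f) (fun q => ∑ i, c i * Gam A (zv (n i)) q) ε q

/-! ### integer matrices -/

/-- `ξ ↦ Bᵀ ξ B` -/
def conj (B : Matrix (Fin d) (Fin d) ℤ) (ξ : M d) : M d :=
  fun i j => ∑ k, ∑ l, (B k i : ℝ) * ξ k l * (B l j : ℝ)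

/-- A15: covering lemma -/
def StmtCov (d : ℕ) : Prop := ∀ B : Matrix (Fin d) (Fin d) ℤ, B.det ≠ 0 →
  ∀ (D D' : V d → Tens d) (β β' : ℝ), IsFld D 0 β → IsFld D' 0 β' →
  (∀ x ξ, (D' x).Q (conj B ξ) = (D (imul B x)).Q ξ) → ∀ ξ, eff D' (conj B ξ) = eff D ξ

/-- A15': equivariance of realizability -/
def StmtRzCov (d : ℕ) : Prop := ∀ B : Matrix (Fin d) (Fin d) ℤ, B.det ≠ 0 →
  ∀ (A A' C C' : Tens d) (f : ℝ), A.PD → A'.PD → C.PSD → C'.PSD →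
  (∀ ξ, A'.Q (conj B ξ) = A.Q ξ) → (∀ ξ, C'.Q (conj B ξ) = C.Q ξ) → (Rz A C f ↔ Rz A' C' f)

/-- A14': positive definite tensors with small volume fraction -/
def StmtLowPD (d : ℕ) : Prop := 2 ≤ d → ∀ A : Tens d, A.PD → ∀ f : ℝ, 0 < f → f < 1 →
  ∃ (r : ℕ) (n : Fin r → (Fin d → ℤ)) (c : Fin r → ℝ) (W : Tens d), (∀ i, n i ≠ 0) ∧ (∀ i, 0 < c i) ∧
    (∑ i, c i = f) ∧ Rz A W f ∧ W.PD ∧
    ∀ ε q, W.Q ε ≤ HS A (1 - f) (fun q => ∑ i, c i * Gam A (zv (n i)) q) ε q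

/-- A16: exact volume fractions -/
def StmtExact (d : ℕ) : Prop := 2 ≤ d → ∀ A : Tens d, A.PD → ∀ (C : Tens d) (f : ℝ), C.PD → 0 < f → f < 1 →
  Rz A C f → ∀ η > 0, ∃ δ₀ > 0, ∀ δ, 0 < δ → δ < δ₀ → ∃ χ, Micro χ ∧ frac χ = f ∧
    ∀ ε, |eff (phase A δ χ) ε - C.Q ε| ≤ η * nsq ε

end Pool.Agent.Lib.MP_5df1bf_an
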