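import Pool.Agent.Lib.MP_5df1bf_an.Stmts1

/-!
# MP_5df1bf_an: Fourier series, truncations, Parseval (modules A6, A6')
-/

open MeasureTheory Filter Topology
open scoped BigOperators ContDiff ComplexConjugate ENNReal

noncomputable section

namespace Pool.Agent.Lib.MP_5df1bf_an

variable {d : ℕ}

attribute [local instance] instMeasureSpaceUnitAddCircle

/-- the box of half open intervals -/
def ibox (d : ℕ) : Set (V d) := {x : V d | ∀ i, x i ∈ Set.Ioc (0 : ℝ) (0 + 1)}

theorem measurableSet_ibox : MeasurableSet (ibox d) :=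
  MeasurableSet.univ_pi' (fun _ => measurableSet_Ioc)

theorem ibox_ae : ibox d =ᵐ[volume] cell d := by
  have h := Measure.univ_pi_Ioc_ae_eq_Icc (μ := fun _ : Fin d => (volume : Measure ℝ))
    (f := 0) (g := 1)
  have h2 : ibox d = Set.univ.pi fun i => Set.Ioc ((0 : V d) i) ((1 : V d) i) := by
    ext x
    simp [ibox]
  rw [h2]
  exact h

theorem restrict_ibox : (volume : Measure (V d)).restrict (ibox d) = volume.restrict (cell d) :=
  Measure.restrict_congr_set ibox_ae

theorem fin_cell : IsFiniteMeasure ((volume : Measure (V d)).restrict (cell d)) := by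
  refine ⟨?_⟩
  rw [Measure.restrict_apply_univ]
  exact isCompact_Icc.measure_lt_top

/-- the function on the torus given by `f` -/
def tor (f : V d → ℝ) : UnitAddTorus (Fin d) → ℂ := fun t =>
  ((f (UnitAddTorus.measurableEquivPiIoc (fun _ : Fin d => (0 : ℝ)) t).1 : ℝ) : ℂ)

theorem tor_coe (f : V d → ℝ) (x : V d) (hx : x ∈ ibox d) :
    tor f (fun i => (x i : UnitAddCircle)) = (f x : ℂ) := by
  have h : UnitAddTorus.measurableEquivPiIoc (fun _ : Fin d => (0 : ℝ))
      (fun i => (x i : UnitAddCircle)) = ⟨x, hx⟩ := by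
    have h2 := UnitAddTorus.coe_symm_measurableEquivPiIoc_apply (fun _ : Fin d => (0 : ℝ)) ⟨x, hx⟩
    rw [← h2]
    exact MeasurableEquiv.apply_symm_apply _ _
  unfold tor
  rw [h]

theorem measurable_tor {f : V d → ℝ} (hf : Measurable f) : Measurable (tor f) := by
  unfold tor
  exact Complex.measurable_ofReal.comp (hf.comp (measurable_subtype_coe.comp
    (UnitAddTorus.measurableEquivPiIoc (fun _ : Fin d => (0 : ℝ))).measurable))

theorem mFourier_ek (k : Fin d → ℤ) (x : V d) :
    UnitAddTorus.mFourier k (fun i => (x i : UnitAddCircle)) = ek k x := by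
  simp only [UnitAddTorus.mFourier, ContinuousMap.coe_mk, fourier_coe_apply, ek]
  rw [← Complex.exp_sum]
  congr 1
  simp only [dot, zv]
  push_cast
  rw [Finset.mul_sum]
  refine Finset.sum_congr rfl fun i _ => ?_
  simp
  ring

theorem ek_zero (x : V d) : ek 0 x = 1 := by
  simp [ek, dot, zv]

theorem ek_add (k l : Fin d → ℤ) (x : V d) : ek (k + l) x = ek k x * ek l x := by
  simp only [ek]
  rw [← Complex.exp_add]
  congr 1
  simp only [dot, zv, Pi.add_apply]
  push_cast
  simp only [add_mul, Finset.sum_add_distrib]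
  ring

theorem ek_neg (k : Fin d → ℤ) (x : V d) : ek (-k) x = conj (ek k x) := by
  simp only [ek]
  rw [← Complex.exp_conj]
  congr 1
  simp only [dot, zv, Pi.neg_apply, map_mul, Complex.conj_ofReal, Complex.conj_I, map_ofNat]
  push_cast
  simp only [neg_mul, Finset.sum_neg_distrib]
  ring

theorem norm_ek (k : Fin d → ℤ) (x : V d) : ‖ek k x‖ = 1 := by
  simp only [ek]
  rw [show (2 * (Real.pi : ℂ) * Complex.I * ((dot (zv k) x : ℝ) : ℂ))
    = ((2 * Real.pi * dot (zv k) x : ℝ) : ℂ) * Complex.I by push_cast; ring]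
  exact Complex.norm_exp_ofReal_mul_I _

theorem ek_contDiff (k : Fin d → ℤ) : ContDiff ℝ ∞ (ek k : V d → ℂ) := by
  unfold ek
  refine ContDiff.cexp ?_
  refine ContDiff.mul contDiff_const ?_
  have h : ContDiff ℝ ∞ (fun x : V d => dot (zv k) x) := by
    change ContDiff ℝ ∞ (fun x : V d => ∑ i, zv k i * x i)
    refine ContDiff.sum fun i _ => ?_
    exact contDiff_const.mul (contDiff_apply ℝ ℝ i)
  exact Complex.ofRealCLM.contDiff.comp h

theorem ek_cont (k : Fin d → ℤ) : Continuous (ek k : V d → ℂ) := (ek_contDiff k).continuous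

theorem ek_per (k : Fin d → ℤ) : Per (ek k : V d → ℂ) := by
  intro x i
  have h : dot (zv k) (x + Pi.single i 1) = dot (zv k) x + k i := by
    rw [dot_add_right]
    congr 1
    simp [dot, zv, Pi.single_apply]
  simp only [ek]
  rw [h]
  have h2 : (2 * (Real.pi : ℂ) * Complex.I * ((dot (zv k) x + (k i : ℝ) : ℝ) : ℂ))
    = 2 * Real.pi * Complex.I * ((dot (zv k) x : ℝ) : ℂ) + (k i : ℂ) * (2 * Real.pi * Complex.I) := by
    push_cast
    ring
  rw [h2, Complex.exp_add, Complex.exp_int_mul_two_pi_mul_I, mul_one]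

/-- Fourier coefficients as those on the torus -/
theorem fc_eq (f : V d → ℝ) (k : Fin d → ℤ) : fc f k = UnitAddTorus.mFourierCoeff (tor f) k := by
  rw [UnitAddTorus.mFourierCoeff_eq_integral (tor f) k (fun _ => 0)]
  change _ = ∫ x in ibox d, _
  unfold fc
  rw [← restrict_ibox]
  refine setIntegral_congr_fun measurableSet_ibox fun x hx => ?_
  simp only [smul_eq_mul]
  rw [mFourier_ek, tor_coe f x hx, mul_comm]

theorem int_tor_sq (f : V d → ℝ) : ∫ t, ‖tor f t‖ ^ 2 = ∫ x in cell d, f x ^ 2 := by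
  rw [UnitAddTorus.integral_preimage _ (fun _ => (0 : ℝ))]
  change ∫ x in ibox d, _ = _
  rw [← restrict_ibox]
  refine setIntegral_congr_fun measurableSet_ibox fun x hx => ?_
  rw [tor_coe f x hx, Complex.norm_real, Real.norm_eq_abs, sq_abs]

theorem memLp_tor {f : V d → ℝ} (hf : SqP f) : MemLp (tor f) 2 volume := by
  have hm : AEStronglyMeasurable (tor f) volume := (measurable_tor hf.meas).aestronglyMeasurable
  refine ⟨hm, ?_⟩
  rw [eLpNorm_lt_top_iff_lintegral_rpow_enorm_lt_top (by norm_num) (by norm_num)]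
  simp only [ENNReal.toReal_ofNat, ENNReal.rpow_ofNat]
  rw [UnitAddTorus.lintegral_preimage _ (fun _ => (0 : ℝ))]
  change ∫⁻ x in ibox d, _ < _
  have h := hf.sq
  rw [IntegrableOn, ← restrict_ibox] at h
  have h2 := h.2
  rw [hasFiniteIntegral_iff_enorm] at h2
  refine lt_of_le_of_lt (le_of_eq ?_) h2
  refine setLIntegral_congr_fun measurableSet_ibox fun x hx => ?_
  rw [tor_coe f x hx, enorm_pow]
  congr 1
  simp [enorm_eq_nnnorm]

/-- A6': Parseval -/
theorem Parseval_ok (d : ℕ) : StmtParseval d := by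
  intro f hf
  have h := UnitAddTorus.hasSum_sq_mFourierCoeff ((memLp_tor hf).toLp (tor f))
  have h1 : ∫ t, ‖((memLp_tor hf).toLp (tor f)) t‖ ^ 2 = ∫ x in cell d, f x ^ 2 := by
    rw [← int_tor_sq]
    refine integral_congr_ae ?_
    filter_upwards [(memLp_tor hf).coeFn_toLp] with t ht
    rw [ht]
  rw [h1] at h
  refine h.congr_fun fun k => ?_
  rw [fc_eq]
  congr 2
  refine integral_congr_ae ?_
  filter_upwards [(memLp_tor hf).coeFn_toLp] with t ht
  rw [ht]

/-! ### truncations -/

theorem SqP.memLp {f : V d → ℝ} (hf : SqP f) : MemLp f 2 (volume.restrict (cell d)) :=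
  (memLp_two_iff_integrable_sq hf.meas.aestronglyMeasurable).mpr hf.sq

theorem SqP.int {f : V d → ℝ} (hf : SqP f) : IntegrableOn f (cell d) := by
  have := fin_cell (d := d)
  exact hf.memLp.integrable (by norm_num)

theorem int_of_cont {E : Type*} [NormedAddCommGroup E] {g : V d → E} (hg : Continuous g) :
    IntegrableOn g (cell d) :=
  hg.continuousOn.integrableOn_compact isCompact_Icc

theorem SqP.of_cont {f : V d → ℝ} (hf : Continuous f) (hp : Per f) : SqP f :=
  ⟨hf.measurable, hp, int_of_cont (hf.pow 2)⟩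

theorem SqP.add {f g : V d → ℝ} (hf : SqP f) (hg : SqP g) : SqP (fun x => f x + g x) :=
  ⟨hf.meas.add hg.meas, fun x i => by simp only [hf.per x i, hg.per x i],
    (hf.memLp.add hg.memLp).integrable_sq⟩

theorem SqP.smul {f : V d → ℝ} (hf : SqP f) (c : ℝ) : SqP (fun x => c * f x) :=
  ⟨hf.meas.const_mul c, fun x i => by simp only [hf.per x i],
    (hf.memLp.const_mul c).integrable_sq⟩

theorem SqP.sub {f g : V d → ℝ} (hf : SqP f) (hg : SqP g) : SqP (fun x => f x - g x) := by
  have h := hf.add (hg.smul (-1))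
  simpa [sub_eq_add_neg] using h

theorem int_mul_ek {f : V d → ℝ} (hf : SqP f) (k : Fin d → ℤ) :
    IntegrableOn (fun x => (f x : ℂ) * ek k x) (cell d) := by
  refine Integrable.mul_bdd (c := 1) hf.int.ofReal (ek_cont k).aestronglyMeasurable ?_
  exact Eventually.of_forall fun x => (norm_ek k x).le

theorem int_ek (k : Fin d → ℤ) : ∫ x in cell d, ek k x = if k = 0 then 1 else 0 := by
  have h1 : ∫ x in cell d, ek k x = ∫ t, UnitAddTorus.mFourier k t := by
    rw [UnitAddTorus.integral_preimage _ (fun _ => (0 : ℝ))]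
    change _ = ∫ x in ibox d, _
    rw [← restrict_ibox]
    refine setIntegral_congr_fun measurableSet_ibox fun x _ => ?_
    rw [mFourier_ek]
  rw [h1]
  have h := orthonormal_iff_ite.mp (UnitAddTorus.orthonormal_mFourier (d := Fin d)) 0 k
  rw [ContinuousMap.inner_toLp, UnitAddTorus.mFourier_zero] at h
  simp only [ContinuousMap.one_apply, map_one, mul_one] at h
  rw [h]
  simp only [eq_comm]

theorem fc_neg (f : V d → ℝ) (k : Fin d → ℤ) : fc f (-k) = conj (fc f k) := by
  unfold fc
  rw [← integral_conj]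
  congr 1
  ext x
  rw [map_mul, Complex.conj_ofReal, ← ek_neg]

theorem mem_bx (N : ℕ) (k : Fin d → ℤ) : k ∈ bx d N ↔ ∀ i, -(N : ℤ) ≤ k i ∧ k i ≤ N := by
  simp [bx, Fintype.mem_piFinset]

theorem neg_mem_bx {N : ℕ} {k : Fin d → ℤ} (h : k ∈ bx d N) : -k ∈ bx d N := by
  rw [mem_bx] at h ⊢
  intro i
  have := h i
  simp only [Pi.neg_apply]
  omega

theorem trunc_eq (N : ℕ) (f : V d → ℝ) (x : V d) :
    (trunc N f x : ℂ) = ∑ k ∈ bx d N, fc f k * ek k x := by
  unfold trunc
  rw [← Complex.conj_eq_iff_re, map_sum]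
  refine Finset.sum_nbij' (fun k => -k) (fun k => -k) (fun k hk => neg_mem_bx hk)
    (fun k hk => neg_mem_bx hk) (fun k _ => neg_neg k) (fun k _ => neg_neg k) fun k _ => ?_
  rw [map_mul, ← fc_neg, ← ek_neg]

theorem trunc_contDiff (N : ℕ) (f : V d → ℝ) : ContDiff ℝ ∞ (trunc N f) := by
  unfold trunc
  refine Complex.reCLM.contDiff.comp (ContDiff.sum fun k _ => ?_)
  exact contDiff_const.mul (ek_contDiff k)

theorem trunc_per (N : ℕ) (f : V d → ℝ) : Per (trunc N f) := by
  intro x i
  unfold trunc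
  congr 1
  refine Finset.sum_congr rfl fun k _ => ?_
  rw [ek_per k x i]

theorem trunc_sqP (N : ℕ) (f : V d → ℝ) : SqP (trunc N f) :=
  SqP.of_cont (trunc_contDiff N f).continuous (trunc_per N f)

theorem fc_add {f g : V d → ℝ} (hf : SqP f) (hg : SqP g) (k : Fin d → ℤ) :
    fc (fun x => f x + g x) k = fc f k + fc g k := by
  unfold fc
  rw [← integral_add (int_mul_ek hf (-k)) (int_mul_ek hg (-k))]
  congr 1
  ext x
  push_cast
  ring

theorem fc_smul (f : V d → ℝ) (c : ℝ) (k : Fin d → ℤ) :
    fc (fun x => c * f x) k = c * fc f k := by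
  unfold fc
  rw [← integral_const_mul]
  congr 1
  ext x
  push_cast
  ring

theorem fc_sub {f g : V d → ℝ} (hf : SqP f) (hg : SqP g) (k : Fin d → ℤ) :
    fc (fun x => f x - g x) k = fc f k - fc g k := by
  have h := fc_add hf (hg.smul (-1)) k
  rw [fc_smul] at h
  have h2 : (fun x => f x + -1 * g x) = fun x => f x - g x := by
    ext x
    ring
  rw [h2] at h
  rw [h]
  push_cast
  ring

theorem fc_const (c : ℝ) (k : Fin d → ℤ) :
    fc (fun _ : V d => c) k = if k = 0 then (c : ℂ) else 0 := by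
  unfold fc
  rw [integral_const_mul, int_ek]
  simp only [neg_eq_zero]
  split_ifs <;> simp

theorem fc_zero (f : V d → ℝ) : fc f 0 = ((∫ x in cell d, f x : ℝ) : ℂ) := by
  unfold fc
  simp only [neg_zero, ek_zero, mul_one]
  exact integral_ofReal

theorem fc_trunc (N : ℕ) (f : V d → ℝ) (k : Fin d → ℤ) :
    fc (trunc N f) k = if k ∈ bx d N then fc f k else 0 := by
  have h1 : fc (trunc N f) k = ∑ l ∈ bx d N, fc f l * ∫ x in cell d, ek (l - k) x := by
    unfold fc
    simp only [← integral_const_mul]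
    rw [← integral_finsetSum]
    · refine integral_congr_ae (Eventually.of_forall fun x => ?_)
      simp only
      rw [trunc_eq, Finset.sum_mul]
      refine Finset.sum_congr rfl fun l _ => ?_
      rw [sub_eq_add_neg, ek_add, mul_assoc]
      rfl
    · intro l _
      exact (int_of_cont (ek_cont (l - k))).const_mul _
  rw [h1]
  simp only [int_ek, sub_eq_zero, mul_ite, mul_one, mul_zero]
  rw [Finset.sum_ite_eq' (bx d N) k (fc f)]

theorem tendsto_bx (d : ℕ) : Tendsto (fun N => bx d N) atTop atTop := by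
  refine tendsto_atTop_finset_of_monotone ?_ ?_
  · intro N N' h k hk
    rw [mem_bx] at hk ⊢
    intro i
    have := hk i
    omega
  · intro k
    refine ⟨∑ i, (k i).natAbs, ?_⟩
    rw [mem_bx]
    intro i
    have h : (k i).natAbs ≤ ∑ i, (k i).natAbs :=
      Finset.single_le_sum (f := fun i => (k i).natAbs) (fun _ _ => Nat.zero_le _)
        (Finset.mem_univ i)
    omega

/-- A6: properties of the truncation -/
theorem Trunc_ok (d : ℕ) : StmtTrunc d := by
  refine ⟨fun N f _ => ⟨trunc_contDiff N f, trunc_per N f⟩, ?_, ?_, ?_, ?_⟩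
  · intro N f g hf hg x
    have h : (trunc N (fun y => f y + g y) x : ℂ) = (trunc N f x : ℂ) + (trunc N g x : ℂ) := by
      rw [trunc_eq, trunc_eq, trunc_eq, ← Finset.sum_add_distrib]
      refine Finset.sum_congr rfl fun k _ => ?_
      rw [fc_add hf hg]
      ring
    exact_mod_cast h
  · intro N f c _ x
    have h : (trunc N (fun y => c * f y) x : ℂ) = (c : ℂ) * (trunc N f x : ℂ) := by
      rw [trunc_eq, trunc_eq, Finset.mul_sum]
      refine Finset.sum_congr rfl fun k _ => ?_
      rw [fc_smul]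
      ring
    exact_mod_cast h
  · intro N c x
    have h : (trunc N (fun _ => c) x : ℂ) = (c : ℂ) := by
      rw [trunc_eq]
      simp only [fc_const]
      rw [Finset.sum_eq_single 0]
      · simp [ek_zero]
      · intro k _ hk
        simp [hk]
      · intro h0
        exact absurd ((mem_bx N 0).mpr fun i => by simp) h0
    exact_mod_cast h
  · intro f hf
    have hP := Parseval_ok d f hf
    have h1 : ∀ N, ∫ x in cell d, (f x - trunc N f x) ^ 2
        = (∫ x in cell d, f x ^ 2) - ∑ k ∈ bx d N, ‖fc f k‖ ^ 2 := by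
      intro N
      have h2 := Parseval_ok d _ (hf.sub (trunc_sqP N f))
      have h3 : HasSum (fun k : Fin d → ℤ => if k ∈ bx d N then ‖fc f k‖ ^ 2 else 0)
          (∑ k ∈ bx d N, ‖fc f k‖ ^ 2) := by
        have h4 := hasSum_sum_of_ne_finset_zero (L := SummationFilter.unconditional _) (s := bx d N)
          (f := fun k : Fin d → ℤ => if k ∈ bx d N then ‖fc f k‖ ^ 2 else 0)
          (fun k hk => if_neg hk)
        have h5 : ∑ k ∈ bx d N, (if k ∈ bx d N then ‖fc f k‖ ^ 2 else 0)
            = ∑ k ∈ bx d N, ‖fc f k‖ ^ 2 :=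
          Finset.sum_congr rfl fun k hk => if_pos hk
        rwa [h5] at h4
      refine h2.unique ((hP.sub h3).congr_fun fun k => ?_)
      rw [fc_sub hf (trunc_sqP N f), fc_trunc]
      split_ifs <;> simp
    simp only [h1]
    have h4 : Tendsto (fun N => ∑ k ∈ bx d N, ‖fc f k‖ ^ 2) atTop (𝓝 (∫ x in cell d, f x ^ 2)) :=
      hP.comp (tendsto_bx d)
    have h5 := h4.const_sub (∫ x in cell d, f x ^ 2)
    rwa [sub_self] at h5

end Pool.Agent.Lib.MP_5df1bf_an
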